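import Pool.Agent.FCH.Base
import Pool.Agent.LogPar.LSieve

set_option autoImplicit false

/-! Module Mls: multiplicative large sieve.
For a primitive `χ` mod `q`: `τ(conj χ) χ(n) = ∑_{a mod q} conj χ(a) e(a n / q)` for ALL `n`
(Mathlib: `gaussSum_mulShift_of_isPrimitive`, `|τ|² = q`: `gaussSum_mul_gaussSum_eq_card` style /
`DirichletCharacter` Gauss sums; see `Mathlib/NumberTheory/GaussSum.lean`,
`Mathlib/NumberTheory/DirichletCharacter/GaussSum.lean`).  So
`|∑ a_n χ(n)|² = (1/q) |∑_a conj χ(a) S(a/q)|²`, `S(θ) = ∑ a_n e(n θ)`; enlarge the sum over primitive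
`χ` to all `χ` mod `q` and use orthogonality (`∑_χ |∑_a conj χ(a) T_a|² = φ(q) ∑_{(a,q)=1} |T_a|²`),
`φ(q)/q ≤ 1`.  Then the additive large sieve for the points `a/q`, `1 ≤ a ≤ q ≤ R`, `(a,q)=1`, which
are `1/R²`-separated: `Pool.Agent.LogPar.large_sieve` is its dual form (sum over frequencies of
`|∑_i z_i e(k a_i)|²`), so apply duality (`∑_i |∑_k b_k e(k a_i)|² = sup` trick: put
`z_i = conj (∑_k b_k e(k a_i))` and Cauchy-Schwarz); or use `Pool/Agent/DEU/LSieve.lean` with its extra factor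
is NOT enough. -/

open Finset

namespace Pool.Agent.FCH

open Pool.Agent.MRS hiding Good

/-- primitive characters mod `q` -/
noncomputable def prc (q : ℕ) : Finset (DirichletCharacter ℂ q) :=
  open Classical in
  if h : q = 0 then ∅ else
    haveI : NeZero q := ⟨h⟩
    (Finset.univ : Finset (DirichletCharacter ℂ q)).filter (fun χ => χ.IsPrimitive)

theorem mem_prc {q : ℕ} (hq : q ≠ 0) (χ : DirichletCharacter ℂ q) :
    χ ∈ prc q ↔ χ.IsPrimitive := by
  classical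
  haveI : NeZero q := ⟨hq⟩
  unfold prc
  rw [dif_neg hq]
  simp

theorem card_prc (q : ℕ) : (prc q).card ≤ q := by
  classical
  by_cases hq : q = 0
  · subst hq
    unfold prc
    simp
  · haveI : NeZero q := ⟨hq⟩
    have h1 : (prc q).card ≤ Fintype.card (DirichletCharacter ℂ q) := by
      rw [← Finset.card_univ]
      exact Finset.card_le_card (Finset.subset_univ _)
    have h2 : Nat.card (DirichletCharacter ℂ q) = q.totient :=
      DirichletCharacter.card_eq_totient_of_hasEnoughRootsOfUnity ℂ q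
    rw [Nat.card_eq_fintype_card] at h2
    rw [h2] at h1
    exact h1.trans (Nat.totient_le q)

/-! ### Gauss sums of primitive characters -/

section Gauss

open ZMod DirichletCharacter

theorem Mls_prim_inv {q : ℕ} {χ : DirichletCharacter ℂ q} (hχ : χ.IsPrimitive) :
    (χ⁻¹).IsPrimitive := by
  have h : ∀ d : ℕ, χ⁻¹.FactorsThrough d → χ.FactorsThrough d := by
    intro d hd
    obtain ⟨h1, χ₀, h2⟩ := hd
    refine ⟨h1, χ₀⁻¹, ?_⟩
    rw [map_inv, ← h2, inv_inv]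
  have h' : ∀ d : ℕ, χ.FactorsThrough d → χ⁻¹.FactorsThrough d := by
    intro d hd
    obtain ⟨h1, χ₀, h2⟩ := hd
    refine ⟨h1, χ₀⁻¹, ?_⟩
    rw [map_inv, ← h2]
  have : χ⁻¹.conductor = χ.conductor := by
    unfold DirichletCharacter.conductor
    congr 1
    ext d
    exact ⟨fun hd => h d hd, fun hd => h' d hd⟩
  unfold DirichletCharacter.IsPrimitive
  rw [this]
  exact hχ

variable {q : ℕ} [NeZero q]

theorem Mls_gauss_mul {χ : DirichletCharacter ℂ q} (hχ : χ.IsPrimitive) :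
    (q : ℂ) * χ (-1) = gaussSum χ stdAddChar * gaussSum χ⁻¹ stdAddChar := by
  have h1 := congrFun (dft_dft (fun j : ZMod q => χ j)) 1
  simp only [smul_eq_mul] at h1
  rw [← h1, dft_apply]
  have h2 : ∀ k : ZMod q, ZMod.dft (fun j : ZMod q => χ j) k = χ⁻¹ (-k) * gaussSum χ stdAddChar :=
    fun k => IsPrimitive.fourierTransform_eq_inv_mul_gaussSum hχ k
  simp only [h2, smul_eq_mul, mul_one]
  have h3 : gaussSum χ⁻¹ (stdAddChar : AddChar (ZMod q) ℂ) =
      ∑ x : ZMod q, stdAddChar (-x) * χ⁻¹ (-x) := by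
    rw [gaussSum]
    rw [← Equiv.sum_comp (Equiv.neg (ZMod q))]
    refine Finset.sum_congr rfl fun x _ => ?_
    simp only [Equiv.neg_apply]
    ring
  rw [h3, Finset.mul_sum]
  refine Finset.sum_congr rfl fun x _ => ?_
  ring

theorem Mls_norm_gauss {χ : DirichletCharacter ℂ q} (hχ : χ.IsPrimitive) :
    ‖gaussSum χ (stdAddChar : AddChar (ZMod q) ℂ)‖ = Real.sqrt q := by
  have h1 := Mls_gauss_mul hχ
  have h2 : star (gaussSum χ (stdAddChar : AddChar (ZMod q) ℂ)) =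
      χ (-1) * gaussSum χ⁻¹ (stdAddChar : AddChar (ZMod q) ℂ) := by
    rw [star_gaussSum_eq, AddChar.inv_mulShift, gaussSum_mulShift_of_isPrimitive _ (Mls_prim_inv hχ),
      inv_inv]
  have h4 : ‖χ (-1)‖ = 1 := by
    have := DirichletCharacter.unit_norm_eq_one χ (-1)
    simpa using this
  have h3 : ‖gaussSum χ⁻¹ (stdAddChar : AddChar (ZMod q) ℂ)‖ =
      ‖gaussSum χ (stdAddChar : AddChar (ZMod q) ℂ)‖ := by
    have := congrArg norm h2
    rw [norm_star, norm_mul] at this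
    rw [h4, one_mul] at this
    exact this.symm
  have h5 := congrArg norm h1
  rw [norm_mul, norm_mul, h3] at h5
  rw [h4, mul_one, Complex.norm_natCast] at h5
  rw [eq_comm, Real.sqrt_eq_iff_mul_self_eq (by positivity) (by positivity)]
  exact h5

theorem Mls_char_formula {χ : DirichletCharacter ℂ q} (hχ : χ.IsPrimitive) (n : ℕ) :
    χ (n : ZMod q) = (gaussSum χ stdAddChar / q) *
      ∑ k : ZMod q, χ⁻¹ (-k) * (stdAddChar k : ℂ) ^ n := by
  have h1 := congrFun (dft_dft (fun j : ZMod q => χ j)) (-(n : ZMod q))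
  simp only [smul_eq_mul, neg_neg] at h1
  have h2 : ∀ k : ZMod q, ZMod.dft (fun j : ZMod q => χ j) k = χ⁻¹ (-k) * gaussSum χ stdAddChar :=
    fun k => IsPrimitive.fourierTransform_eq_inv_mul_gaussSum hχ k
  rw [dft_apply] at h1
  simp only [h2, smul_eq_mul] at h1
  have hq : (q : ℂ) ≠ 0 := by exact_mod_cast NeZero.ne q
  have h3 : χ (n : ZMod q) = (∑ x : ZMod q, stdAddChar (-(x * -(n : ZMod q))) *
      (χ⁻¹ (-x) * gaussSum χ stdAddChar)) / q := by
    rw [h1]; field_simp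
  rw [h3, Finset.mul_sum, Finset.sum_div]
  refine Finset.sum_congr rfl fun x _ => ?_
  have h4 : (stdAddChar (-(x * -(n : ZMod q))) : ℂ) = (stdAddChar x : ℂ) ^ n := by
    rw [← AddChar.map_nsmul_eq_pow]
    congr 1
    rw [nsmul_eq_mul]; ring
  rw [h4]; ring

/-- orthogonality -/
theorem Mls_orth (T : ZMod q → ℂ) :
    ∑ χ : DirichletCharacter ℂ q, ‖∑ k : ZMod q, χ⁻¹ (-k) * T k‖ ^ 2 =
      (q.totient : ℝ) * ∑ k : ZMod q, (open Classical in if IsUnit k then ‖T k‖ ^ 2 else 0) := by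
  classical
  have hC : ((∑ χ : DirichletCharacter ℂ q, ‖∑ k : ZMod q, χ⁻¹ (-k) * T k‖ ^ 2 : ℝ) : ℂ) =
      (((q.totient : ℝ) * ∑ k : ZMod q, (if IsUnit k then ‖T k‖ ^ 2 else 0) : ℝ) : ℂ) := by
    push_cast
    have h1 : ∀ χ : DirichletCharacter ℂ q, ((‖∑ k : ZMod q, χ⁻¹ (-k) * T k‖ : ℂ)) ^ 2 =
        ∑ k : ZMod q, ∑ l : ZMod q, (χ⁻¹ (-k) * χ (-l)) * (T k * star (T l)) := by
      intro χ
      rw [← Complex.mul_conj', map_sum, Finset.sum_mul_sum]
      refine Finset.sum_congr rfl fun k _ => Finset.sum_congr rfl fun l _ => ?_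
      rw [map_mul]
      have : (starRingEnd ℂ) (χ⁻¹ (-l)) = χ (-l) := by
        rw [starRingEnd_apply, MulChar.star_apply', inv_inv]
      rw [this]
      simp only [starRingEnd_apply]
      ring
    simp only [h1]
    rw [Finset.sum_comm, Finset.mul_sum]
    refine Finset.sum_congr rfl fun k _ => ?_
    rw [Finset.sum_comm]
    simp only [← Finset.sum_mul]
    by_cases hk : IsUnit k
    · rw [if_pos hk]
      have h2 : ∀ l : ZMod q, ∑ χ : DirichletCharacter ℂ q, χ⁻¹ (-k) * χ (-l) =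
          if k = l then (q.totient : ℂ) else 0 := by
        intro l
        have hk' : IsUnit (-k) := hk.neg
        have h3 := DirichletCharacter.sum_char_inv_mul_char_eq (R := ℂ) hk' (-l)
        have h4 : (if -k = -l then (q.totient : ℂ) else 0) =
            if k = l then (q.totient : ℂ) else 0 := by
          by_cases hkl : k = l
          · rw [if_pos hkl, if_pos (by rw [hkl])]
          · rw [if_neg hkl, if_neg (fun h => hkl (neg_inj.1 h))]
        rw [h4] at h3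
        rw [← h3]
        refine Finset.sum_congr rfl fun χ _ => ?_
        congr 1
        obtain ⟨u, hu⟩ := hk'
        rw [← hu, ZMod.inv_coe_unit, MulChar.inv_apply, Ring.inverse_unit]
      simp only [h2, ite_mul, zero_mul]
      rw [Finset.sum_ite_eq Finset.univ k, if_pos (Finset.mem_univ _)]
      congr 1
      have := Complex.mul_conj' (T k)
      rw [starRingEnd_apply] at this
      rw [this]
      push_cast
      rfl
    · rw [if_neg hk]
      have h2 : ∀ χ : DirichletCharacter ℂ q, χ⁻¹ (-k) = 0 := by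
        intro χ
        exact MulChar.map_nonunit _ (fun h => hk (by simpa using h.neg))
      simp [h2]
  exact_mod_cast hC

theorem Mls_one (N : ℕ) (a : ℕ → ℂ) :
    ∑ χ ∈ prc q, ‖∑ n ∈ Icc 1 N, a n * χ n‖ ^ 2 ≤
      ∑ k : ZMod q, (open Classical in if IsUnit k then
        ‖∑ n ∈ Icc 1 N, a n * (stdAddChar k : ℂ) ^ n‖ ^ 2 else 0) := by
  classical
  have hq : (0 : ℝ) < q := by exact_mod_cast Nat.pos_of_ne_zero (NeZero.ne q)
  set T : ZMod q → ℂ := fun k => ∑ n ∈ Icc 1 N, a n * (stdAddChar k : ℂ) ^ n with hT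
  have h1 : ∀ χ ∈ prc q, ‖∑ n ∈ Icc 1 N, a n * χ n‖ ^ 2 =
      (1 / q) * ‖∑ k : ZMod q, χ⁻¹ (-k) * T k‖ ^ 2 := by
    intro χ hχ
    have hp : χ.IsPrimitive := (mem_prc (NeZero.ne q) χ).1 hχ
    have h2 : ∑ n ∈ Icc 1 N, a n * χ n = (gaussSum χ stdAddChar / q) *
        ∑ k : ZMod q, χ⁻¹ (-k) * T k := by
      simp only [hT, Finset.mul_sum]
      rw [Finset.sum_comm]
      refine Finset.sum_congr rfl fun n _ => ?_
      rw [Mls_char_formula hp n, Finset.mul_sum, Finset.mul_sum]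
      refine Finset.sum_congr rfl fun k _ => ?_
      ring
    rw [h2, norm_mul, norm_div, Mls_norm_gauss hp, mul_pow, div_pow, Real.sq_sqrt hq.le,
      Complex.norm_natCast]
    congr 1
    field_simp
  rw [Finset.sum_congr rfl h1, ← Finset.mul_sum]
  have h2 : ∑ χ ∈ prc q, ‖∑ k : ZMod q, χ⁻¹ (-k) * T k‖ ^ 2 ≤
      ∑ χ : DirichletCharacter ℂ q, ‖∑ k : ZMod q, χ⁻¹ (-k) * T k‖ ^ 2 :=
    Finset.sum_le_sum_of_subset_of_nonneg (Finset.subset_univ _) (fun _ _ _ => sq_nonneg _)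
  rw [Mls_orth] at h2
  have h3 : (q.totient : ℝ) ≤ q := by exact_mod_cast Nat.totient_le q
  have h4 : 0 ≤ ∑ k : ZMod q, (if IsUnit k then ‖T k‖ ^ 2 else 0) := by
    refine Finset.sum_nonneg fun k _ => ?_
    split_ifs
    · positivity
    · exact le_refl _
  calc (1 / (q : ℝ)) * ∑ χ ∈ prc q, ‖∑ k : ZMod q, χ⁻¹ (-k) * T k‖ ^ 2
      ≤ (1 / (q : ℝ)) * (q * ∑ k : ZMod q, (if IsUnit k then ‖T k‖ ^ 2 else 0)) := by
        refine mul_le_mul_of_nonneg_left (h2.trans ?_) (by positivity)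
        exact mul_le_mul_of_nonneg_right h3 h4
    _ = ∑ k : ZMod q, (if IsUnit k then ‖T k‖ ^ 2 else 0) := by
        field_simp

theorem Mls_range (f : ZMod q → ℝ) :
    ∑ k : ZMod q, (open Classical in if IsUnit k then f k else 0) =
      ∑ b ∈ (range q).filter (fun b => b.Coprime q), f (b : ZMod q) := by
  classical
  rw [Finset.sum_filter]
  refine Finset.sum_nbij' (fun k : ZMod q => k.val) (fun b : ℕ => (b : ZMod q)) ?_ ?_ ?_ ?_ ?_
  · intro k _
    exact Finset.mem_range.2 (ZMod.val_lt k)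
  · intro b _
    exact Finset.mem_univ _
  · intro k _
    exact ZMod.natCast_zmod_val k
  · intro b hb
    exact ZMod.val_cast_of_lt (Finset.mem_range.1 hb)
  · intro k _
    have h1 : IsUnit k ↔ k.val.Coprime q := by
      rw [← ZMod.isUnit_iff_coprime, ZMod.natCast_zmod_val]
    simp only [h1, ZMod.natCast_zmod_val]

theorem Mls_std (b n : ℕ) :
    (stdAddChar (b : ZMod q) : ℂ) ^ n =
      (fourier (n : ℤ) (((b : ℝ) / (q : ℝ) : ℝ) : UnitAddCircle) : ℂ) := by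
  rw [← AddChar.map_nsmul_eq_pow, nsmul_eq_mul, fourier_coe_apply]
  have h1 : ((n : ZMod q) * (b : ZMod q)) = (((n * b : ℕ) : ℤ) : ZMod q) := by push_cast; ring
  rw [h1, ZMod.stdAddChar_coe]
  congr 1
  push_cast
  ring

end Gauss

/-- separation of Farey fractions -/
theorem Mls_sep {R : ℕ} {q q' b b' : ℕ} (hq : 1 ≤ q) (hqR : q ≤ R) (hq' : 1 ≤ q')
    (hqR' : q' ≤ R) (hb : b < q) (hb' : b' < q') (hc : b.Coprime q) (hc' : b'.Coprime q')
    (hne : (q, b) ≠ (q', b')) :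
    1 / (R : ℝ) ^ 2 ≤
      ‖(((b : ℝ) / (q : ℝ) : ℝ) : UnitAddCircle) - (((b' : ℝ) / (q' : ℝ) : ℝ) : UnitAddCircle)‖ := by
  have hq0 : (0 : ℝ) < q := by exact_mod_cast hq
  have hq0' : (0 : ℝ) < q' := by exact_mod_cast hq'
  have hR0 : (0 : ℝ) < R := by
    have : 1 ≤ R := hq.trans hqR
    exact_mod_cast this
  rw [← AddCircle.coe_sub, UnitAddCircle.norm_eq]
  set m : ℤ := round ((b : ℝ) / (q : ℝ) - (b' : ℝ) / (q' : ℝ)) with hm
  have e : (b : ℝ) / (q : ℝ) - (b' : ℝ) / (q' : ℝ) - m =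
      (((b : ℤ) * q' - b' * q - m * q * q' : ℤ) : ℝ) / (q * q') := by
    push_cast
    field_simp
  rw [e, abs_div, abs_of_pos (mul_pos hq0 hq0')]
  have hne0 : ((b : ℤ) * q' - b' * q - m * q * q') ≠ 0 := by
    intro h0
    have hqz : (0 : ℤ) < q := by exact_mod_cast hq
    have hqz' : (0 : ℤ) < q' := by exact_mod_cast hq'
    have hbz : (b : ℤ) < q := by exact_mod_cast hb
    have hbz' : (b' : ℤ) < q' := by exact_mod_cast hb'
    have hb0 : (0 : ℤ) ≤ b := by positivity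
    have hb0' : (0 : ℤ) ≤ b' := by positivity
    have hm0 : m = 0 := by
      by_contra hmne
      have h1 : (1 : ℤ) ≤ |m| := Int.one_le_abs hmne
      have h2 : |(b : ℤ) * q' - b' * q| = |m| * (q * q') := by
        have : (b : ℤ) * q' - b' * q = m * (q * q') := by linarith
        rw [this, abs_mul, abs_of_pos (mul_pos hqz hqz')]
      have h3 : |(b : ℤ) * q' - b' * q| < q * q' := by
        rw [abs_lt]
        constructor <;> nlinarith
      rw [h2] at h3
      nlinarith [mul_pos hqz hqz']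
    rw [hm0] at h0
    have h1 : b * q' = b' * q := by
      have : (b : ℤ) * q' = b' * q := by linarith
      exact_mod_cast this
    have h2 : q ∣ q' := by
      have : q ∣ b * q' := by rw [h1]; exact Dvd.intro_left _ rfl
      exact (Nat.Coprime.dvd_of_dvd_mul_left hc.symm this)
    have h3 : q' ∣ q := by
      have : q' ∣ b' * q := by rw [← h1]; exact Dvd.intro_left _ rfl
      exact (Nat.Coprime.dvd_of_dvd_mul_left hc'.symm this)
    have h4 : q = q' := Nat.dvd_antisymm h2 h3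
    subst h4
    have h5 : b = b' := Nat.eq_of_mul_eq_mul_right (by omega) h1
    exact hne (by rw [h5])
  have h1 : (1 : ℝ) ≤ |(((b : ℤ) * q' - b' * q - m * q * q' : ℤ) : ℝ)| := by
    rw [← Int.cast_abs]
    exact_mod_cast Int.one_le_abs hne0
  have h2 : (q : ℝ) * q' ≤ (R : ℝ) ^ 2 := by
    rw [sq]
    exact mul_le_mul (by exact_mod_cast hqR) (by exact_mod_cast hqR') hq0'.le hR0.le
  calc 1 / (R : ℝ) ^ 2 ≤ 1 / ((q : ℝ) * q') :=
        one_div_le_one_div_of_le (mul_pos hq0 hq0') h2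
    _ ≤ _ := by
        exact div_le_div_of_nonneg_right h1 (mul_pos hq0 hq0').le

/-- duality -/
theorem Mls_dual {ι κ : Type*} (P : Finset ι) (s : Finset κ) (c : κ → ι → ℂ) {B : ℝ}
    (hB : 0 ≤ B)
    (h : ∀ z : ι → ℂ, ∑ k ∈ s, ‖∑ i ∈ P, z i * c k i‖ ^ 2 ≤ B * ∑ i ∈ P, ‖z i‖ ^ 2)
    (a : κ → ℂ) :
    ∑ i ∈ P, ‖∑ k ∈ s, a k * c k i‖ ^ 2 ≤ B * ∑ k ∈ s, ‖a k‖ ^ 2 := by
  set T : ι → ℂ := fun i => ∑ k ∈ s, a k * c k i with hT
  set S : ℝ := ∑ i ∈ P, ‖T i‖ ^ 2 with hS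
  set A : ℝ := ∑ k ∈ s, ‖a k‖ ^ 2 with hA
  have hS0 : 0 ≤ S := Finset.sum_nonneg fun _ _ => sq_nonneg _
  have hA0 : 0 ≤ A := Finset.sum_nonneg fun _ _ => sq_nonneg _
  set U : κ → ℂ := fun k => ∑ i ∈ P, (starRingEnd ℂ) (T i) * c k i with hU
  have h1 : (S : ℂ) = ∑ k ∈ s, a k * U k := by
    rw [hS]
    push_cast
    simp only [hU, Finset.mul_sum]
    rw [Finset.sum_comm]
    refine Finset.sum_congr rfl fun i _ => ?_
    rw [← Complex.conj_mul']
    have h0 : (starRingEnd ℂ) (T i) * T i = ∑ k ∈ s, (starRingEnd ℂ) (T i) * (a k * c k i) := by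
      rw [← Finset.mul_sum]
    rw [h0]
    refine Finset.sum_congr rfl fun k _ => ?_
    ring
  have h2 : ∑ k ∈ s, ‖U k‖ ^ 2 ≤ B * S := by
    have := h (fun i => (starRingEnd ℂ) (T i))
    simp only [RCLike.norm_conj] at this
    exact this
  have h3 : S ≤ ∑ k ∈ s, ‖a k‖ * ‖U k‖ := by
    have h4 : S = ‖(S : ℂ)‖ := by
      rw [Complex.norm_real, Real.norm_eq_abs, abs_of_nonneg hS0]
    rw [h4, h1]
    refine (norm_sum_le _ _).trans (Finset.sum_le_sum fun k _ => ?_)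
    rw [norm_mul]
  have h5 : (∑ k ∈ s, ‖a k‖ * ‖U k‖) ^ 2 ≤ A * (B * S) := by
    refine (Finset.sum_mul_sq_le_sq_mul_sq s _ _).trans ?_
    exact mul_le_mul_of_nonneg_left h2 hA0
  have h6 : S ^ 2 ≤ A * (B * S) := (pow_le_pow_left₀ hS0 h3 2).trans h5
  rcases hS0.eq_or_lt with h0 | h0
  · rw [← h0]
    exact mul_nonneg hB hA0
  · have : S * S ≤ (B * A) * S := by nlinarith
    exact le_of_mul_le_mul_right this h0

theorem mls : ∃ C : ℝ, 0 < C ∧ ∀ (R N : ℕ) (a : ℕ → ℂ), 1 ≤ R → 1 ≤ N →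
    ∑ q ∈ Icc 1 R, ∑ χ ∈ prc q, ‖∑ n ∈ Icc 1 N, a n * χ n‖ ^ 2
      ≤ C * ((N : ℝ) + (R : ℝ) ^ 2) * ∑ n ∈ Icc 1 N, ‖a n‖ ^ 2 := by
  classical
  refine ⟨16, by norm_num, ?_⟩
  intro R N a hR hN
  set P : Finset (ℕ × ℕ) := (Icc 1 R ×ˢ range R).filter (fun i => i.2 < i.1 ∧ i.2.Coprime i.1)
    with hP
  set pt : ℕ × ℕ → UnitAddCircle := fun i => (((i.2 : ℝ) / (i.1 : ℝ) : ℝ) : UnitAddCircle) with hpt
  have hR1 : (1 : ℝ) ≤ R := by exact_mod_cast hR
  have hN1 : (1 : ℝ) ≤ N := by exact_mod_cast hN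
  have hmem : ∀ i : ℕ × ℕ, i ∈ P → 1 ≤ i.1 ∧ i.1 ≤ R ∧ i.2 < i.1 ∧ i.2.Coprime i.1 := by
    intro i hi
    rw [hP, Finset.mem_filter, Finset.mem_product, Finset.mem_Icc] at hi
    exact ⟨hi.1.1.1, hi.1.1.2, hi.2.1, hi.2.2⟩
  -- additive large sieve in its dual form
  have hls : ∀ z : ℕ × ℕ → ℂ, ∑ n ∈ Icc 1 N, ‖∑ i ∈ P, z i * (fourier (n : ℤ) (pt i) : ℂ)‖ ^ 2 ≤
      16 * ((N : ℝ) + (R : ℝ) ^ 2) * ∑ i ∈ P, ‖z i‖ ^ 2 := by
    intro z
    have h1 := Pool.Agent.LogPar.large_sieve P pt z (Δ := 1 / (R : ℝ) ^ 2) (N := (N : ℝ))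
      (by positivity) (by
        rw [div_le_one (by positivity)]
        nlinarith) hN1 (by
        intro i hi j hj hij
        obtain ⟨a1, a2, a3, a4⟩ := hmem i hi
        obtain ⟨b1, b2, b3, b4⟩ := hmem j hj
        exact Mls_sep a1 a2 b1 b2 a3 b3 a4 b4 hij)
      ((Icc 1 N).image (fun n : ℕ => (n : ℤ))) (by
        intro k hk
        rw [Finset.mem_image] at hk
        obtain ⟨n, hn, rfl⟩ := hk
        rw [Finset.mem_Icc] at hn
        have : ((n : ℤ) : ℝ) = (n : ℝ) := by push_cast; rfl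
        rw [this, abs_of_nonneg (Nat.cast_nonneg n)]
        exact_mod_cast hn.2)
    rw [Finset.sum_image (by intro x _ y _ h; simpa using h), one_div_one_div] at h1
    exact h1
  have hdual := Mls_dual P (Icc 1 N) (fun (n : ℕ) (i : ℕ × ℕ) => (fourier (n : ℤ) (pt i) : ℂ))
    (by positivity) hls a
  refine le_trans ?_ hdual
  -- split the sum over `P`
  have hsplit : ∑ i ∈ P, ‖∑ n ∈ Icc 1 N, a n * (fourier (n : ℤ) (pt i) : ℂ)‖ ^ 2 =
      ∑ q ∈ Icc 1 R, ∑ b ∈ (range q).filter (fun b => b.Coprime q),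
        ‖∑ n ∈ Icc 1 N, a n * (fourier (n : ℤ) (pt (q, b)) : ℂ)‖ ^ 2 := by
    rw [hP, Finset.sum_filter, Finset.sum_product]
    refine Finset.sum_congr rfl fun q hq => ?_
    rw [Finset.mem_Icc] at hq
    rw [← Finset.sum_filter]
    refine Finset.sum_congr ?_ fun _ _ => rfl
    ext b
    simp only [Finset.mem_filter, Finset.mem_range]
    constructor
    · rintro ⟨_, h2, h3⟩; exact ⟨h2, h3⟩
    · rintro ⟨h2, h3⟩; exact ⟨by omega, h2, h3⟩
  rw [hsplit]
  refine Finset.sum_le_sum fun q hq => ?_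
  rw [Finset.mem_Icc] at hq
  have : NeZero q := ⟨by omega⟩
  refine (Mls_one N a).trans (le_of_eq ?_)
  rw [Mls_range (q := q) (fun k => ‖∑ n ∈ Icc 1 N, a n * (ZMod.stdAddChar k : ℂ) ^ n‖ ^ 2)]
  refine Finset.sum_congr rfl fun b _ => ?_
  congr 2
  refine Finset.sum_congr rfl fun n _ => ?_
  rw [Mls_std]

end Pool.Agent.FCH
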