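import Pool.Agent.FCH.Base
import Pool.Agent.MRS.Arg
import Pool.Agent.MRS.St

set_option autoImplicit false

/-! Module AnnT: `MRS.annulus` with an additive twist, uniformly in the twist (port of `MRS/Arg.lean` and `MRS/St.lean`). -/

open Finset

namespace Pool.Agent.FCH

open Pool.Agent.MRS hiding Good
open Pool.Agent.H33

theorem AnnT_ee_add (x y : ℝ) : ee (x + y) = ee x * ee y := by
  unfold ee
  rw [← Complex.exp_add]
  congr 1
  push_cast
  ring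

theorem AnnT_norm_ee (x : ℝ) : ‖ee x‖ = 1 := by
  unfold ee
  rw [mul_comm, Complex.norm_exp_ofReal_mul_I]

/-- the phase with a linear term, and its derivatives -/
noncomputable def AnnT_F (κ : ℤ) (y α : ℝ) (j : ℕ) (t : ℝ) : ℝ :=
  match j with
  | 0 => ARG_F κ y 0 t + α * t
  | 1 => ARG_F κ y 1 t + α
  | j + 2 => ARG_F κ y (j + 2) t

theorem AnnT_F_eq (κ : ℤ) (y α : ℝ) {j : ℕ} (hj : 2 ≤ j) {t : ℝ} :
    AnnT_F κ y α j t = ARG_F κ y j t := by
  obtain ⟨i, rfl⟩ : ∃ i, j = i + 2 := ⟨j - 2, by omega⟩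
  rfl

theorem AnnT_F_deriv (κ : ℤ) {y : ℝ} (hy : y ≠ 0) (α : ℝ) (j : ℕ) (t : ℝ) :
    HasDerivAt (AnnT_F κ y α j) (AnnT_F κ y α (j + 1) t) t := by
  match j with
  | 0 =>
    have h1 := ARG_F_deriv κ hy 0 t
    have h2 : HasDerivAt (fun t : ℝ => α * t) (α * 1) t := (hasDerivAt_id t).const_mul α
    have h3 := h1.add h2
    rw [mul_one] at h3
    exact h3
  | 1 =>
    have h1 := ARG_F_deriv κ hy 1 t
    exact h1.add_const α
  | j + 2 => exact ARG_F_deriv κ hy (j + 2) t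

theorem AnnT_seg_arg (r : ℕ) (hr : 2 ≤ r) : ∃ c1 : ℝ, 0 < c1 ∧ ∀ c0 : ℝ, 0 < c0 → c0 ≤ c1 →
    ∃ c R0 : ℝ, 0 < c ∧ 1 ≤ R0 ∧ ∀ R : ℝ, R0 ≤ R → ∀ κ : ℤ, R ^ (1 / 2 : ℝ) ≤ |(κ : ℝ)| →
    |(κ : ℝ)| ≤ R ^ ((r : ℝ) - 1 / 2) → ∀ x y : ℤ, y ≠ 0 → ∀ N : ℕ, R ^ (1 - c0) / 2 ≤ N →
    (N : ℝ) ≤ R ^ (1 - c0) →
    (∀ t : ℝ, (x : ℝ) ≤ t → t ≤ x + 2 * (N + 1) → (R / 4) ^ 2 ≤ t ^ 2 + (y : ℝ) ^ 2 ∧
      t ^ 2 + (y : ℝ) ^ 2 ≤ (2 * R) ^ 2) →
    R ^ (-(c0 / 2)) ≤ |Real.sin (r * Complex.arg ((x : ℂ) + (y : ℂ) * Complex.I))| → ∀ α : ℝ,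
    ‖∑ i ∈ range N, ee (α * ((x : ℝ) + 2 * i)) * uu (⟨x + 2 * i, y⟩ : GI) ^ κ‖ ≤ N * R ^ (-c) := by
  obtain ⟨m, rfl⟩ : ∃ m, r = m + 1 := ⟨r - 1, by omega⟩
  have hm : 1 ≤ m := by omega
  have hm1 : 2 ≤ m + 1 := by omega
  have hm2 : 2 ≤ m + 2 := by omega
  obtain ⟨c4, hc4, hcore⟩ := ARG_core m hm
  have hrr : (0 : ℝ) < ((m + 1 : ℕ) : ℝ) := by positivity
  refine ⟨1 / (12 * ((m + 1 : ℕ) : ℝ)), by positivity, ?_⟩
  intro c0 hc0 hc01
  set c : ℝ := c0 / 2 ^ (m + 1) with hc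
  have hcpos : 0 < c := by positivity
  refine ⟨c, 1 + c4 ^ (1 / (1 / 4 : ℝ)) + (16 * (m + 1) + 1 : ℝ) ^ (1 / (c0 / 2)) + (16 : ℝ) ^ (1 / c),
    hcpos, ?_, ?_⟩
  · have h1 : (0 : ℝ) ≤ c4 ^ (1 / (1 / 4 : ℝ)) := Real.rpow_nonneg (by linarith) _
    have h2 : (0 : ℝ) ≤ (16 * (m + 1) + 1 : ℝ) ^ (1 / (c0 / 2)) := Real.rpow_nonneg (by positivity) _
    have h3 : (0 : ℝ) ≤ (16 : ℝ) ^ (1 / c) := Real.rpow_nonneg (by norm_num) _
    linarith
  intro R hR0 κ hκ1 hκ2 x y hy N hN1 hN2 ht hsin α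
  have hq1 : (0 : ℝ) ≤ c4 ^ (1 / (1 / 4 : ℝ)) := Real.rpow_nonneg (by linarith) _
  have hq2 : (0 : ℝ) ≤ (16 * (m + 1) + 1 : ℝ) ^ (1 / (c0 / 2)) := Real.rpow_nonneg (by positivity) _
  have hq3 : (0 : ℝ) ≤ (16 : ℝ) ^ (1 / c) := Real.rpow_nonneg (by norm_num) _
  have hR1 : 1 ≤ R := by linarith
  have hRpos : 0 < R := by linarith
  have hA1 : c4 ≤ R ^ (1 / 4 : ℝ) := ARG_large (by linarith) (by norm_num) (by linarith)
  have hA2 : (16 * (m + 1) + 1 : ℝ) ≤ R ^ (c0 / 2) :=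
    ARG_large (by positivity) (by positivity) (by linarith)
  have hA3 : (16 : ℝ) ≤ R ^ c := ARG_large (by norm_num) hcpos (by linarith)
  set P : ℝ := R ^ c0 with hP
  set S : ℝ := R ^ (1 / 2 : ℝ) with hS
  set K : ℝ := |(κ : ℝ)| with hK
  have hRS : R = S ^ 2 := by
    rw [hS, ← Real.rpow_natCast, ← Real.rpow_mul hRpos.le]; norm_num
  have hP1 : 1 ≤ P := Real.one_le_rpow hR1 hc0.le
  have hPpos : 0 < P := by linarith
  have hPS : c4 * P ^ (3 * m + 3) ≤ S := by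
    have h1 : P ^ (3 * m + 3) ≤ R ^ (1 / 4 : ℝ) := by
      rw [hP, ← Real.rpow_natCast, ← Real.rpow_mul hRpos.le]
      apply Real.rpow_le_rpow_of_exponent_le hR1
      rw [le_div_iff₀ (by positivity)] at hc01
      push_cast at hc01 ⊢
      nlinarith
    calc c4 * P ^ (3 * m + 3) ≤ R ^ (1 / 4 : ℝ) * R ^ (1 / 4 : ℝ) := by
          apply mul_le_mul hA1 h1 (by positivity) (by positivity)
      _ = S := by rw [hS, ← Real.rpow_add hRpos]; norm_num
  have hKS : K * S ≤ R ^ (m + 1) := by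
    calc K * S ≤ R ^ (((m + 1 : ℕ) : ℝ) - 1 / 2) * R ^ (1 / 2 : ℝ) := by
          apply mul_le_mul_of_nonneg_right hκ2 (by positivity)
      _ = R ^ (m + 1) := by
          rw [← Real.rpow_add hRpos, sub_add_cancel, Real.rpow_natCast]
  have hRP : R ^ (1 - c0) = R / P := by
    rw [Real.rpow_sub hRpos, Real.rpow_one]
  rw [hRP] at hN1 hN2
  have hN1' : R / (2 * P) ≤ N := by
    refine le_trans (le_of_eq ?_) hN1
    field_simp
  obtain ⟨H, hH1, hHN, hHP, hup, hlo⟩ := hcore P S K R N hRS hP1 hPS hκ1 hKS hN1' hN2 _ _ _ rfl rfl rfl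
  have hHpos : (0 : ℝ) < H := by linarith
  have hKpos : 0 < K := by
    have : 0 < S := by positivity
    linarith
  have hpi := Real.pi_pos
  have hyr : (y : ℝ) ≠ 0 := by exact_mod_cast hy
  have hN1n : 1 ≤ N := hH1.trans hHN
  have hN1r : (1 : ℝ) ≤ N := by exact_mod_cast hN1n
  -- norms on the segment
  have hnorm : ∀ t : ℝ, (x : ℝ) ≤ t → t ≤ x + 2 * (N + 1) →
      R / 4 ≤ ‖ARG_z y t‖ ∧ ‖ARG_z y t‖ ≤ 2 * R := by
    intro t h1 h2
    obtain ⟨h3, h4⟩ := ht t h1 h2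
    rw [← ARG_normSq] at h3 h4
    exact ⟨le_of_sq_le_sq h3 (norm_nonneg _), le_of_sq_le_sq h4 (by positivity)⟩
  -- the sine on the segment
  have hsin2 : ∀ t : ℝ, (x : ℝ) ≤ t → t ≤ x + 2 * (N + 1) →
      1 / (2 * P) ≤ |Real.sin (((m + 1 : ℕ) : ℝ) * Complex.arg (ARG_z y t))| := by
    intro t h1 h2
    have h3 : |Complex.arg (ARG_z y t) - Complex.arg (ARG_z y x)| ≤ 1 / (R / 4) * (t - x) := by
      apply ARG_arg_sub hyr h1 (by positivity)
      intro t' h4 h5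
      exact (ht t' h4 (h5.trans h2)).1
    have h4 : 1 / (R / 4) * (t - x) ≤ 16 / P := by
      have h5 : t - x ≤ 4 * (R / P) := by linarith
      calc 1 / (R / 4) * (t - x) ≤ 1 / (R / 4) * (4 * (R / P)) := by gcongr
        _ = 16 / P := by field_simp; norm_num
    have h6 := ARG_sin_sub (((m + 1 : ℕ) : ℝ) * Complex.arg (ARG_z y x))
      (((m + 1 : ℕ) : ℝ) * Complex.arg (ARG_z y t))
    rw [← mul_sub, abs_mul, abs_of_pos hrr, abs_sub_comm (Complex.arg (ARG_z y x))] at h6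
    have h7 : ((m + 1 : ℕ) : ℝ) * |Complex.arg (ARG_z y t) - Complex.arg (ARG_z y x)| ≤
        ((m + 1 : ℕ) : ℝ) * (16 / P) := by
      apply mul_le_mul_of_nonneg_left (h3.trans h4) hrr.le
    have h8 : R ^ (-(c0 / 2)) ≤ |Real.sin (((m + 1 : ℕ) : ℝ) * Complex.arg (ARG_z y x))| := by
      have h9 : ARG_z y x = (x : ℂ) + (y : ℂ) * Complex.I := by
        unfold ARG_z; push_cast; rfl
      rw [h9]; exact hsin
    -- δ = R^(-c0/2), δ ^ 2 = 1 / P
    have hδP : R ^ (-(c0 / 2)) = R ^ (c0 / 2) / P := by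
      rw [hP, ← Real.rpow_sub hRpos]
      congr 1
      ring
    rw [hδP] at h8
    have h10 : (16 * (m + 1) + 1 : ℝ) / P ≤ R ^ (c0 / 2) / P := by gcongr
    have h11 : |Real.sin (((m + 1 : ℕ) : ℝ) * Complex.arg (ARG_z y x))| ≤
        |Real.sin (((m + 1 : ℕ) : ℝ) * Complex.arg (ARG_z y t))| + ((m + 1 : ℕ) : ℝ) * (16 / P) := by
      have h12 := abs_sub_abs_le_abs_sub (Real.sin (((m + 1 : ℕ) : ℝ) * Complex.arg (ARG_z y x)))
        (Real.sin (((m + 1 : ℕ) : ℝ) * Complex.arg (ARG_z y t)))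
      linarith
    have h13 : (16 * (m + 1) + 1 : ℝ) / P = ((m + 1 : ℕ) : ℝ) * (16 / P) + 1 / P := by
      push_cast; ring
    have h14 : 1 / (2 * P) ≤ 1 / P := by
      apply one_div_le_one_div_of_le hPpos; linarith
    linarith
  have hHE : 1 ≤ (H : ℝ) * (1 / P) := by
    rw [mul_one_div, le_div_iff₀ hPpos]; linarith
  have hseg := segment m (AnnT_F κ y α) (AnnT_F_deriv κ hyr α) (x : ℝ) 2 (by norm_num) (N := N) (H := H)
    (Y := P) (E := 1 / P) (L := K / Real.pi * (m.factorial * (1 / (2 * P)) / (2 * R) ^ (m + 1)))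
    (U := K / Real.pi * (m.factorial * 1 / (R / 4) ^ (m + 1)))
    (U' := K / Real.pi * ((m + 1).factorial * 1 / (R / 4) ^ (m + 2)))
    hP1 (by positivity) (by rw [div_le_one hPpos]; exact hP1) hH1 hHN
    (by rw [mul_one_div_cancel hPpos.ne']) hHE (by positivity) ?_ ?_ hup hlo
  · have hsum : ∑ i ∈ range N, ee (α * ((x : ℝ) + 2 * i)) * uu (⟨x + 2 * i, y⟩ : GI) ^ κ =
        ∑ i ∈ range N, ee (AnnT_F κ y α 0 ((x : ℝ) + 2 * i)) := by
      apply sum_congr rfl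
      intro i _
      rw [ARG_uu κ (x + 2 * i) y hy, ← AnnT_ee_add]
      congr 1
      push_cast
      simp only [AnnT_F]
      ring
    rw [hsum]
    refine hseg.trans ?_
    have h1 : (1 / P) ^ ((1 : ℝ) / 2 ^ m) = R ^ (-c) * R ^ (-c) := by
      rw [one_div P, ← Real.rpow_neg_one, hP, ← Real.rpow_mul hRpos.le, ← Real.rpow_mul hRpos.le,
        ← Real.rpow_add hRpos]
      congr 1
      rw [hc, pow_succ]
      field_simp
      ring
    have h2 : 16 * R ^ (-c) ≤ 1 := by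
      rw [Real.rpow_neg hRpos.le, ← div_eq_mul_inv, div_le_one (by positivity)]
      exact hA3
    rw [h1]
    calc 16 * (N : ℝ) * (R ^ (-c) * R ^ (-c)) = (16 * R ^ (-c)) * (N * R ^ (-c)) := by ring
      _ ≤ 1 * (N * R ^ (-c)) := by gcongr
      _ = N * R ^ (-c) := one_mul _
  · intro t h1 h2
    obtain ⟨h3, h4⟩ := hnorm t h1 h2
    have h5 := hsin2 t h1 h2
    have hzpos : 0 < ‖ARG_z y t‖ := by
      have : 0 < R / 4 := by positivity
      linarith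
    rw [AnnT_F_eq κ y α hm1, ARG_F_abs κ hyr]
    constructor
    · gcongr
    · have := Real.abs_sin_le_one (((m + 1 : ℕ) : ℝ) * Complex.arg (ARG_z y t))
      gcongr
  · intro t h1 h2
    obtain ⟨h3, h4⟩ := hnorm t h1 h2
    have hzpos : 0 < ‖ARG_z y t‖ := by
      have : 0 < R / 4 := by positivity
      linarith
    rw [AnnT_F_eq κ y α hm2, ARG_F_abs κ hyr]
    have := Real.abs_sin_le_one (((m + 1 + 1 : ℕ) : ℝ) * Complex.arg (ARG_z y t))
    gcongr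

theorem AnnT_seg_any (C : ℝ) : ∃ c0 c R0 : ℝ, 0 < c0 ∧ c0 ≤ 1 / 4 ∧ 0 < c ∧ 1 ≤ R0 ∧ ∀ R : ℝ, R0 ≤ R →
    ∀ κ : ℤ, R ^ (1 / 2 : ℝ) ≤ |(κ : ℝ)| → |(κ : ℝ)| ≤ R ^ C →
    ∀ x y : ℤ, 8 * R ^ (1 - c0 / 2) ≤ |(y : ℝ)| → ∀ N : ℕ, R ^ (1 - c0) / 2 ≤ N →
    (N : ℝ) ≤ R ^ (1 - c0) →
    (∀ t : ℝ, (x : ℝ) ≤ t → t ≤ x + 2 * (N + 1) → (R / 4) ^ 2 ≤ t ^ 2 + (y : ℝ) ^ 2 ∧
      t ^ 2 + (y : ℝ) ^ 2 ≤ (2 * R) ^ 2) → ∀ α : ℝ,
    ‖∑ i ∈ range N, ee (α * ((x : ℝ) + 2 * i)) * uu (⟨x + 2 * i, y⟩ : GI) ^ κ‖ ≤ N * R ^ (-c) := by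
  obtain ⟨r, hr2, hrC⟩ : ∃ r : ℕ, 2 ≤ r ∧ C + 1 / 2 ≤ r := by
    obtain ⟨n, hn⟩ := exists_nat_ge (C + 1 / 2)
    refine ⟨n + 2, by omega, ?_⟩
    push_cast
    linarith
  obtain ⟨c1, hc1, h1⟩ := AnnT_seg_arg r hr2
  obtain ⟨c2, hc2, h2⟩ := AnnT_seg_arg (r + 1) (by omega)
  set c0 : ℝ := min (min c1 c2) (1 / 4) with hc0
  have hc0pos : 0 < c0 := lt_min (lt_min hc1 hc2) (by norm_num)
  have hc0c1 : c0 ≤ c1 := (min_le_left _ _).trans (min_le_left _ _)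
  have hc0c2 : c0 ≤ c2 := (min_le_left _ _).trans (min_le_right _ _)
  obtain ⟨d1, R1, hd1, hR1, h1'⟩ := h1 c0 hc0pos hc0c1
  obtain ⟨d2, R2, hd2, hR2, h2'⟩ := h2 c0 hc0pos hc0c2
  refine ⟨c0, min d1 d2, max R1 R2, hc0pos, min_le_right _ _, lt_min hd1 hd2,
    hR1.trans (le_max_left _ _), ?_⟩
  intro R hR κ hκ1 hκ2 x y hy N hN1 hN2 ht α
  have hRR1 : R1 ≤ R := (le_max_left _ _).trans hR
  have hRR2 : R2 ≤ R := (le_max_right _ _).trans hR
  have hRone : 1 ≤ R := hR1.trans hRR1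
  have hRpos : 0 < R := by linarith
  have hy0 : y ≠ 0 := by
    rintro rfl
    have : 0 < R ^ (1 - c0 / 2) := Real.rpow_pos_of_pos hRpos _
    simp only [Int.cast_zero, abs_zero] at hy
    linarith
  set θ : ℝ := Complex.arg ((x : ℂ) + (y : ℂ) * Complex.I) with hθ
  have hkey : 2 * R ^ (-(c0 / 2)) ≤ |Real.sin (r * θ)| ∨
      2 * R ^ (-(c0 / 2)) ≤ |Real.sin ((r + 1 : ℕ) * θ)| := by
    by_contra hcon
    push Not at hcon
    obtain ⟨g1, g2⟩ := hcon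
    have hs : |Real.sin θ| ≤ |Real.sin ((r + 1 : ℕ) * θ)| + |Real.sin (r * θ)| := by
      have e1 : Real.sin θ = Real.sin ((r + 1 : ℕ) * θ) * Real.cos (r * θ) -
          Real.cos ((r + 1 : ℕ) * θ) * Real.sin (r * θ) := by
        rw [← Real.sin_sub]
        congr 1
        push_cast
        ring
      rw [e1]
      refine (abs_sub _ _).trans ?_
      rw [abs_mul, abs_mul]
      have h3 := Real.abs_cos_le_one (r * θ)
      have h4 := Real.abs_cos_le_one ((r + 1 : ℕ) * θ)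
      have h5 := abs_nonneg (Real.sin ((r + 1 : ℕ) * θ))
      have h6 := abs_nonneg (Real.sin (r * θ))
      nlinarith
    have hsy : |(y : ℝ)| = ‖(x : ℂ) + (y : ℂ) * Complex.I‖ * |Real.sin θ| := by
      have h3 := ARG_pow_im ((x : ℂ) + (y : ℂ) * Complex.I) 1
      rw [pow_one, pow_one, Nat.cast_one, one_mul] at h3
      have h4 : ((x : ℂ) + (y : ℂ) * Complex.I).im = y := by simp
      rw [h4] at h3
      rw [h3, abs_mul, abs_of_nonneg (norm_nonneg _)]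
    have hz : ‖(x : ℂ) + (y : ℂ) * Complex.I‖ ≤ 2 * R := by
      have h3 := (ht x le_rfl (by have : (0 : ℝ) ≤ N := Nat.cast_nonneg N; linarith)).2
      have h4 := ARG_normSq (y : ℝ) (x : ℝ)
      have h5 : ARG_z (y : ℝ) (x : ℝ) = (x : ℂ) + (y : ℂ) * Complex.I := by
        unfold ARG_z; push_cast; rfl
      rw [h5] at h4
      rw [← h4] at h3
      exact le_of_sq_le_sq h3 (by positivity)
    have h7 : R ^ (1 - c0 / 2) = R * R ^ (-(c0 / 2)) := by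
      rw [sub_eq_add_neg, Real.rpow_add hRpos, Real.rpow_one]
    rw [h7] at hy
    have h8 : |Real.sin θ| < 4 * R ^ (-(c0 / 2)) := by linarith
    have h9 : |(y : ℝ)| ≤ 2 * R * |Real.sin θ| := by
      rw [hsy]
      exact mul_le_mul_of_nonneg_right hz (abs_nonneg _)
    have h10 : 2 * R * |Real.sin θ| < 2 * R * (4 * R ^ (-(c0 / 2))) := by
      apply mul_lt_mul_of_pos_left h8 (by positivity)
    linarith
  have hpw : 0 < R ^ (-(c0 / 2)) := Real.rpow_pos_of_pos hRpos _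
  have hfin : ∀ d : ℝ, min d1 d2 ≤ d → (N : ℝ) * R ^ (-d) ≤ N * R ^ (-(min d1 d2)) := by
    intro d hd
    apply mul_le_mul_of_nonneg_left _ (by positivity)
    exact Real.rpow_le_rpow_of_exponent_le hRone (by linarith)
  rcases hkey with h | h
  · refine (h1' R hRR1 κ hκ1 ?_ x y hy0 N hN1 hN2 ht (by linarith) α).trans (hfin d1 (min_le_left _ _))
    refine hκ2.trans (Real.rpow_le_rpow_of_exponent_le hRone (by linarith))
  · refine (h2' R hRR2 κ hκ1 ?_ x y hy0 N hN1 hN2 ht (by linarith) α).trans (hfin d2 (min_le_right _ _))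
    refine hκ2.trans (Real.rpow_le_rpow_of_exponent_le hRone ?_)
    push_cast
    linarith

/-- one row -/
theorem AnnT_row (R : ℝ) (hR : 8 ≤ R) (κ y : ℤ) (α β : ℝ) (N : ℕ) (hN : 1 ≤ N) (B : ℝ) (hB0 : 0 ≤ B)
    (hy : y % 2 = 0)
    (hseg : ∀ x : ℤ, (∀ t : ℝ, (x : ℝ) ≤ t → t ≤ x + 2 * (N + 1) →
      (R / 4) ^ 2 ≤ t ^ 2 + (y : ℝ) ^ 2 ∧ t ^ 2 + (y : ℝ) ^ 2 ≤ (2 * R) ^ 2) →
      ‖∑ i ∈ range N, ee (α * ((x + 2 * i : ℤ) : ℝ) + β * y) * uu (⟨x + 2 * i, y⟩ : GI) ^ κ‖ ≤ B) :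
    ‖∑ z ∈ (ann (R ^ 2 / 4) (R ^ 2)).filter (fun z : GI => 0 < z.re ∧ z.im = y),
      ee (α * z.re + β * z.im) * uu z ^ κ‖ ≤
      R / N * B + N := by
  classical
  set a : ℕ := ⌊√(R ^ 2 / 4 - (y : ℝ) ^ 2)⌋₊ with ha
  set b : ℕ := ⌊√(R ^ 2 - (y : ℝ) ^ 2)⌋₊ with hb
  set k1 := (a + 1) / 2 with hk1
  set k2 := (b + 1) / 2 with hk2
  have hsum : ∑ z ∈ (ann (R ^ 2 / 4) (R ^ 2)).filter (fun z : GI => 0 < z.re ∧ z.im = y),
      ee (α * z.re + β * z.im) * uu z ^ κ =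
      ∑ k ∈ Finset.Ico k1 k2, ee (α * ((2 * (k : ℤ) + 1 : ℤ) : ℝ) + β * y) *
        uu (⟨2 * (k : ℤ) + 1, y⟩ : GI) ^ κ := by
    symm
    apply Finset.sum_nbij (fun k : ℕ => (⟨2 * (k : ℤ) + 1, y⟩ : GI))
    · intro k hk
      rw [Finset.mem_Ico] at hk
      rw [Finset.mem_filter, mem_ann, nm_real]
      have e1 : a < 2 * k + 1 := by omega
      have e2 : 2 * k + 1 ≤ b := by omega
      have e3 : √(R ^ 2 / 4 - (y : ℝ) ^ 2) < ((2 * k + 1 : ℕ) : ℝ) :=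
        (Nat.floor_lt (Real.sqrt_nonneg _)).mp e1
      have e4 : ((2 * k + 1 : ℕ) : ℝ) ≤ √(R ^ 2 - (y : ℝ) ^ 2) :=
        (Nat.le_floor_iff (Real.sqrt_nonneg _)).mp e2
      have hpos : (0 : ℝ) < ((2 * k + 1 : ℕ) : ℝ) := by positivity
      rw [Real.sqrt_lt' hpos] at e3
      rw [Real.le_sqrt' hpos] at e4
      push_cast at e3 e4 ⊢
      refine ⟨⟨⟨?_, ?_⟩, ?_, ?_⟩, ?_, rfl⟩
      · show (2 * (k : ℤ) + 1) % 2 = 1
        omega
      · exact hy
      · linarith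
      · linarith
      · show 0 < 2 * (k : ℤ) + 1
        omega
    · intro k _ l _ hkl
      have := congrArg Zsqrtd.re hkl
      simp at this
      exact this
    · intro z hz
      rw [Finset.mem_coe, Finset.mem_filter, mem_ann, nm_real] at hz
      obtain ⟨⟨⟨h1, h2⟩, h3, h4⟩, h5, h6⟩ := hz
      refine ⟨(z.re / 2).toNat, ?_, ?_⟩
      · rw [Finset.mem_coe, Finset.mem_Ico]
        have hpos : (0 : ℝ) < (z.re : ℝ) := by exact_mod_cast h5
        have hzc : ((z.re.toNat : ℕ) : ℝ) = (z.re : ℝ) := by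
          have : ((z.re.toNat : ℕ) : ℤ) = z.re := Int.toNat_of_nonneg h5.le
          exact_mod_cast this
        rw [h6] at h3 h4
        have e3 : a < z.re.toNat := by
          rw [ha, Nat.floor_lt (Real.sqrt_nonneg _), hzc, Real.sqrt_lt' hpos]
          linarith
        have e4 : z.re.toNat ≤ b := by
          rw [hb, Nat.le_floor_iff (Real.sqrt_nonneg _), hzc, Real.le_sqrt' hpos]
          linarith
        omega
      · apply Zsqrtd.ext
        · show 2 * (((z.re / 2).toNat : ℕ) : ℤ) + 1 = z.re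
          omega
        · exact h6.symm
    · intro k _
      rfl
  rw [hsum, Finset.sum_Ico_eq_sum_range]
  have hcut := STW_cut N hN B hB0 (k2 - k1)
    (fun i => ee (α * ((2 * ((k1 + i : ℕ) : ℤ) + 1 : ℤ) : ℝ) + β * y) *
      uu (⟨2 * ((k1 + i : ℕ) : ℤ) + 1, y⟩ : GI) ^ κ)
    (fun i => by rw [norm_mul, AnnT_norm_ee, one_mul]; exact norm_uu_zpow_le _ _) (by
      intro j hj
      have h1 := hseg (2 * ((k1 + j : ℕ) : ℤ) + 1) (by
        intro t ht1 ht2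
        have e1 : a < 2 * (k1 + j) + 1 := by omega
        have e2 : 2 * (k1 + j + N - 1) + 1 ≤ b := by omega
        have e3 : √(R ^ 2 / 4 - (y : ℝ) ^ 2) < ((2 * (k1 + j) + 1 : ℕ) : ℝ) :=
          (Nat.floor_lt (Real.sqrt_nonneg _)).mp e1
        have e4 : ((2 * (k1 + j + N - 1) + 1 : ℕ) : ℝ) ≤ √(R ^ 2 - (y : ℝ) ^ 2) :=
          (Nat.le_floor_iff (Real.sqrt_nonneg _)).mp e2
        have hpos : (0 : ℝ) < ((2 * (k1 + j) + 1 : ℕ) : ℝ) := by positivity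
        have hpos2 : (0 : ℝ) < ((2 * (k1 + j + N - 1) + 1 : ℕ) : ℝ) := by positivity
        rw [Real.sqrt_lt' hpos] at e3
        rw [Real.le_sqrt' hpos2] at e4
        have e5 : ((2 * (k1 + j + N - 1) + 1 : ℕ) : ℝ) = 2 * ((k1 : ℝ) + j + N - 1) + 1 := by
          have : 1 ≤ k1 + j + N := by omega
          push_cast [Nat.cast_sub this]
          ring
        have e6 : ((2 * (k1 + j) + 1 : ℕ) : ℝ) = 2 * ((k1 : ℝ) + j) + 1 := by push_cast; ring
        rw [e5] at e4 hpos2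
        rw [e6] at e3 hpos
        push_cast at ht1 ht2
        set x : ℝ := 2 * ((k1 : ℝ) + j) + 1 with hx
        have hxt : x ≤ t := by linarith
        have hxN : 2 * ((k1 : ℝ) + j + N - 1) + 1 = x + 2 * N - 2 := by rw [hx]; ring
        rw [hxN] at e4 hpos2
        have htN : t ≤ x + 2 * N - 2 + 4 := by linarith
        have hw : x + 2 * N - 2 ≤ R := by
          have : (x + 2 * N - 2) ^ 2 ≤ R ^ 2 := by nlinarith [sq_nonneg (y : ℝ)]
          exact le_of_sq_le_sq this (by linarith)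
        have ht0 : 0 ≤ t := by linarith
        constructor
        · nlinarith
        · have h7 : t ^ 2 ≤ (x + 2 * N - 2 + 4) ^ 2 := by
            apply pow_le_pow_left₀ ht0 htN
          nlinarith)
      have e : ∀ i : ℕ, (2 * ((k1 + j : ℕ) : ℤ) + 1 + 2 * i : ℤ) =
          2 * ((k1 + (j + i) : ℕ) : ℤ) + 1 := by
        intro i
        push_cast
        ring
      simp only [e] at h1
      exact h1)
  refine hcut.trans ?_
  have hbR : (b : ℝ) ≤ R := by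
    have h1 : (b : ℝ) ≤ √(R ^ 2 - (y : ℝ) ^ 2) := Nat.floor_le (Real.sqrt_nonneg _)
    have h2 : √(R ^ 2 - (y : ℝ) ^ 2) ≤ √(R ^ 2) := Real.sqrt_le_sqrt (by nlinarith [sq_nonneg (y : ℝ)])
    rw [Real.sqrt_sq (by linarith)] at h2
    linarith
  have hm : ((k2 - k1 : ℕ) : ℝ) ≤ R := by
    have h1 : k2 - k1 ≤ b := by omega
    have h2 : ((k2 - k1 : ℕ) : ℝ) ≤ (b : ℝ) := by exact_mod_cast h1
    linarith
  have hN' : (0 : ℝ) < N := by exact_mod_cast hN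
  gcongr

theorem annulus_tw (C : ℝ) : ∃ c R0 : ℝ, 0 < c ∧ 1 ≤ R0 ∧ ∀ R : ℝ, R0 ≤ R → ∀ κ : ℤ,
    R ^ (1 / 2 : ℝ) ≤ |(κ : ℝ)| → |(κ : ℝ)| ≤ R ^ C → ∀ α β : ℝ,
    ‖∑ z ∈ ann (R ^ 2 / 4) (R ^ 2), ee (α * z.re + β * z.im) * uu z ^ κ‖ ≤ R ^ (2 - c) := by
  classical
  obtain ⟨c0, c1, R1, hc0, hc04, hc1, hR1, hseg⟩ := AnnT_seg_any C
  set c : ℝ := min c1 (c0 / 2) / 2 with hc
  have hcpos : 0 < c := by
    have : 0 < min c1 (c0 / 2) := lt_min hc1 (by linarith)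
    linarith
  have hcc1 : 2 * c ≤ c1 := by
    have : min c1 (c0 / 2) ≤ c1 := min_le_left _ _
    linarith
  have hcc0 : 2 * c ≤ c0 / 2 := by
    have : min c1 (c0 / 2) ≤ c0 / 2 := min_le_right _ _
    linarith
  have hev : ∀ᶠ R : ℝ in Filter.atTop, 64 ≤ R ^ c := by
    exact (tendsto_rpow_atTop hcpos).eventually_ge_atTop 64
  have hev2 : ∀ᶠ R : ℝ in Filter.atTop, 2 ≤ R ^ (1 - c0) := by
    exact (tendsto_rpow_atTop (by linarith)).eventually_ge_atTop 2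
  obtain ⟨R2, hR2⟩ := Filter.eventually_atTop.mp (hev.and hev2)
  refine ⟨c, max (max R1 R2) 8, hcpos, ?_, ?_⟩
  · exact le_trans (by norm_num) (le_max_right _ _)
  intro R hR κ hκ1 hκ2 α0 β0
  have hRR1 : R1 ≤ R := ((le_max_left _ _).trans (le_max_left _ _)).trans hR
  have hRR2 : R2 ≤ R := ((le_max_right _ _).trans (le_max_left _ _)).trans hR
  have hR8 : 8 ≤ R := (le_max_right _ _).trans hR
  have hR0 : 0 < R := by linarith
  have hR1' : 1 ≤ R := by linarith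
  obtain ⟨h64, h2⟩ := hR2 R hRR2
  set N : ℕ := ⌊R ^ (1 - c0)⌋₊ with hN
  have hN1 : 1 ≤ N := Nat.le_floor (by push_cast; linarith)
  have hNle : (N : ℝ) ≤ R ^ (1 - c0) := Nat.floor_le (by positivity)
  have hNge : R ^ (1 - c0) / 2 ≤ N := by
    have := Nat.lt_floor_add_one (R ^ (1 - c0))
    linarith
  have hN0 : (0 : ℝ) < N := by exact_mod_cast hN1
  set A := ann (R ^ 2 / 4) (R ^ 2) with hA
  -- rows
  have hrow_big : ∀ α β : ℝ, ∀ y : ℤ, y % 2 = 0 → 8 * R ^ (1 - c0 / 2) ≤ |(y : ℝ)| →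
      ‖∑ z ∈ A.filter (fun z : GI => 0 < z.re ∧ z.im = y),
            ee (α * z.re + β * z.im) * uu z ^ κ‖ ≤
        R ^ (1 - c1) + R ^ (1 - c0) := by
    intro α β y hy hyb
    have h := AnnT_row R hR8 κ y α β N hN1 (N * R ^ (-c1)) (by positivity) hy (by
      intro x hx
      have h1 := hseg R hRR1 κ hκ1 hκ2 x y hyb N hNge hNle hx α
      have e1 : ∑ i ∈ range N, ee (α * ((x + 2 * i : ℤ) : ℝ) + β * y) *
          uu (⟨x + 2 * i, y⟩ : GI) ^ κ =
          ee (β * y) * ∑ i ∈ range N, ee (α * ((x : ℝ) + 2 * i)) *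
            uu (⟨x + 2 * i, y⟩ : GI) ^ κ := by
        rw [Finset.mul_sum]
        apply Finset.sum_congr rfl
        intro i _
        rw [AnnT_ee_add]
        push_cast
        ring
      rw [e1, norm_mul, AnnT_norm_ee, one_mul]
      exact h1)
    refine h.trans ?_
    have e : R / N * (N * R ^ (-c1)) = R ^ (1 - c1) := by
      have : R ^ (1 - c1) = R * R ^ (-c1) := by
        rw [sub_eq_add_neg, Real.rpow_add hR0, Real.rpow_one]
      rw [this]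
      field_simp
    rw [e]
    linarith
  have hrow_any : ∀ α β : ℝ, ∀ y : ℤ,
      ‖∑ z ∈ A.filter (fun z : GI => 0 < z.re ∧ z.im = y),
            ee (α * z.re + β * z.im) * uu z ^ κ‖ ≤ R := by
    intro α β y
    calc ‖∑ z ∈ A.filter (fun z : GI => 0 < z.re ∧ z.im = y),
            ee (α * z.re + β * z.im) * uu z ^ κ‖
        ≤ ∑ z ∈ A.filter (fun z : GI => 0 < z.re ∧ z.im = y), ‖ee (α * z.re + β * z.im) * uu z ^ κ‖ := norm_sum_le _ _
      _ ≤ ∑ z ∈ A.filter (fun z : GI => 0 < z.re ∧ z.im = y), (1 : ℝ) :=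
          Finset.sum_le_sum (fun z _ => by rw [norm_mul, AnnT_norm_ee, one_mul]; exact norm_uu_zpow_le z κ)
      _ = ((A.filter (fun z : GI => 0 < z.re ∧ z.im = y)).card : ℝ) := by simp
      _ ≤ (((Finset.Icc 1 ⌊R⌋₊)).card : ℝ) := by
          have : (A.filter (fun z : GI => 0 < z.re ∧ z.im = y)).card ≤
              (Finset.Icc 1 ⌊R⌋₊).card := by
            apply Finset.card_le_card_of_injOn (fun z : GI => z.re.toNat)
            · intro z hz
              rw [Finset.mem_coe, Finset.mem_filter, hA, mem_ann, nm_real] at hz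
              obtain ⟨⟨_, _, h4⟩, h5, _⟩ := hz
              rw [Finset.mem_coe, Finset.mem_Icc]
              have hpos : 1 ≤ z.re.toNat := by omega
              refine ⟨hpos, ?_⟩
              apply Nat.le_floor
              have hzc : ((z.re.toNat : ℕ) : ℝ) = (z.re : ℝ) := by
                have : ((z.re.toNat : ℕ) : ℤ) = z.re := Int.toNat_of_nonneg h5.le
                exact_mod_cast this
              rw [hzc]
              have : (z.re : ℝ) ^ 2 ≤ R ^ 2 := by nlinarith [sq_nonneg (z.im : ℝ)]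
              exact le_of_sq_le_sq this hR0.le
            · intro z hz w hw hzw
              rw [Finset.mem_coe, Finset.mem_filter] at hz hw
              obtain ⟨_, h5, h6⟩ := hz
              obtain ⟨_, h7, h8⟩ := hw
              simp only at hzw
              apply Zsqrtd.ext
              · omega
              · rw [h6, h8]
          exact_mod_cast this
      _ ≤ R := by
          rw [Nat.card_Icc, Nat.add_sub_cancel]
          exact Nat.floor_le hR0.le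
  -- the sum over the half plane
  set Ap := A.filter (fun z : GI => 0 < z.re) with hAp
  have hmem_im : ∀ z ∈ Ap, z.im ∈ Finset.Icc (-(⌊R⌋₊ : ℤ)) (⌊R⌋₊ : ℤ) ∧ z.im % 2 = 0 := by
    intro z hz
    rw [hAp, Finset.mem_filter, hA, mem_ann, nm_real] at hz
    obtain ⟨⟨h1, _, h4⟩, _⟩ := hz
    refine ⟨?_, h1.2⟩
    have h5 : (z.im : ℝ) ^ 2 ≤ R ^ 2 := by nlinarith [sq_nonneg (z.re : ℝ)]
    have h6 : |(z.im : ℝ)| ≤ R := by
      rw [← sq_abs (z.im : ℝ)] at h5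
      exact le_of_sq_le_sq h5 hR0.le
    have h7 : z.im.natAbs ≤ ⌊R⌋₊ := by
      apply Nat.le_floor
      rw [Nat.cast_natAbs]
      push_cast
      exact h6
    rw [Finset.mem_Icc]
    omega
  set I := (Finset.Icc (-(⌊R⌋₊ : ℤ)) (⌊R⌋₊ : ℤ)).filter (fun y => y % 2 = 0) with hI
  have hIcard : (I.card : ℝ) ≤ 3 * R := by
    have h1 : I.card ≤ 2 * ⌊R⌋₊ + 1 := by
      calc I.card ≤ (Finset.Icc (-(⌊R⌋₊ : ℤ)) (⌊R⌋₊ : ℤ)).card := Finset.card_filter_le _ _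
        _ = 2 * ⌊R⌋₊ + 1 := by rw [Int.card_Icc]; omega
    have h2 : (I.card : ℝ) ≤ 2 * ⌊R⌋₊ + 1 := by exact_mod_cast h1
    have h3 := Nat.floor_le hR0.le
    linarith
  set W : ℝ := 8 * R ^ (1 - c0 / 2) with hW
  have hW0 : 0 < W := by positivity
  have hIs : ((I.filter (fun y : ℤ => ¬ W ≤ |(y : ℝ)|)).card : ℝ) ≤ 2 * W + 1 := by
    have h1 : (I.filter (fun y : ℤ => ¬ W ≤ |(y : ℝ)|)).card ≤ 2 * ⌊W⌋₊ + 1 := by
      calc (I.filter (fun y : ℤ => ¬ W ≤ |(y : ℝ)|)).card ≤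
            (Finset.Icc (-(⌊W⌋₊ : ℤ)) (⌊W⌋₊ : ℤ)).card := by
            apply Finset.card_le_card
            intro y hy
            rw [Finset.mem_filter] at hy
            have h2 : |(y : ℝ)| ≤ W := (not_le.mp hy.2).le
            have h7 : y.natAbs ≤ ⌊W⌋₊ := by
              apply Nat.le_floor
              rw [Nat.cast_natAbs]
              push_cast
              exact h2
            rw [Finset.mem_Icc]
            omega
        _ = 2 * ⌊W⌋₊ + 1 := by rw [Int.card_Icc]; omega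
    have h2 : ((I.filter (fun y : ℤ => ¬ W ≤ |(y : ℝ)|)).card : ℝ) ≤ 2 * ⌊W⌋₊ + 1 := by
      exact_mod_cast h1
    have h3 := Nat.floor_le hW0.le
    linarith
  have hhalf : ∀ α β : ℝ, ‖∑ z ∈ Ap, ee (α * z.re + β * z.im) * uu z ^ κ‖ ≤ 3 * R * (R ^ (1 - c1) + R ^ (1 - c0)) + (2 * W + 1) * R := by
    intro α β
    have e1 : ∑ z ∈ Ap, ee (α * z.re + β * z.im) * uu z ^ κ = ∑ y ∈ I, ∑ z ∈ Ap.filter (fun z : GI => z.im = y),
            ee (α * z.re + β * z.im) * uu z ^ κ := by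
      symm
      apply Finset.sum_fiberwise_of_maps_to
      intro z hz
      have := hmem_im z hz
      rw [hI, Finset.mem_filter]
      exact this
    have e2 : ∀ y : ℤ, Ap.filter (fun z : GI => z.im = y) =
        A.filter (fun z : GI => 0 < z.re ∧ z.im = y) := by
      intro y
      rw [hAp, Finset.filter_filter]
    rw [e1]
    simp only [e2]
    calc ‖∑ y ∈ I, ∑ z ∈ A.filter (fun z : GI => 0 < z.re ∧ z.im = y),
            ee (α * z.re + β * z.im) * uu z ^ κ‖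
        ≤ ∑ y ∈ I, ‖∑ z ∈ A.filter (fun z : GI => 0 < z.re ∧ z.im = y),
            ee (α * z.re + β * z.im) * uu z ^ κ‖ :=
          norm_sum_le _ _
      _ = ∑ y ∈ I.filter (fun y : ℤ => W ≤ |(y : ℝ)|),
            ‖∑ z ∈ A.filter (fun z : GI => 0 < z.re ∧ z.im = y),
            ee (α * z.re + β * z.im) * uu z ^ κ‖ +
          ∑ y ∈ I.filter (fun y : ℤ => ¬ W ≤ |(y : ℝ)|),
            ‖∑ z ∈ A.filter (fun z : GI => 0 < z.re ∧ z.im = y),
            ee (α * z.re + β * z.im) * uu z ^ κ‖ :=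
          (Finset.sum_filter_add_sum_filter_not _ _ _).symm
      _ ≤ ∑ y ∈ I.filter (fun y : ℤ => W ≤ |(y : ℝ)|), (R ^ (1 - c1) + R ^ (1 - c0)) +
          ∑ y ∈ I.filter (fun y : ℤ => ¬ W ≤ |(y : ℝ)|), R := by
          apply add_le_add
          · apply Finset.sum_le_sum
            intro y hy
            rw [Finset.mem_filter, hI, Finset.mem_filter] at hy
            exact hrow_big α β y hy.1.2 hy.2
          · apply Finset.sum_le_sum
            intro y _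
            exact hrow_any α β y
      _ = ((I.filter (fun y : ℤ => W ≤ |(y : ℝ)|)).card : ℝ) * (R ^ (1 - c1) + R ^ (1 - c0)) +
          ((I.filter (fun y : ℤ => ¬ W ≤ |(y : ℝ)|)).card : ℝ) * R := by
          rw [Finset.sum_const, Finset.sum_const, nsmul_eq_mul, nsmul_eq_mul]
      _ ≤ 3 * R * (R ^ (1 - c1) + R ^ (1 - c0)) + (2 * W + 1) * R := by
          have h5 : ((I.filter (fun y : ℤ => W ≤ |(y : ℝ)|)).card : ℝ) ≤ 3 * R := by
            refine le_trans ?_ hIcard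
            exact_mod_cast Finset.card_filter_le _ _
          gcongr
  -- symmetry
  have hsym : ∑ z ∈ A, ee (α0 * z.re + β0 * z.im) * uu z ^ κ =
      ∑ z ∈ Ap, ee (α0 * z.re + β0 * z.im) * uu z ^ κ +
      ∑ z ∈ Ap, ee ((-α0) * z.re + (-β0) * z.im) * uu z ^ κ := by
    have e1 : ∑ z ∈ A, ee (α0 * z.re + β0 * z.im) * uu z ^ κ =
        ∑ z ∈ Ap, ee (α0 * z.re + β0 * z.im) * uu z ^ κ +
        ∑ z ∈ A.filter (fun z : GI => ¬ 0 < z.re), ee (α0 * z.re + β0 * z.im) * uu z ^ κ :=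
      (Finset.sum_filter_add_sum_filter_not _ _ _).symm
    have e2 : ∑ z ∈ A.filter (fun z : GI => ¬ 0 < z.re), ee (α0 * z.re + β0 * z.im) * uu z ^ κ =
        ∑ z ∈ Ap, ee ((-α0) * z.re + (-β0) * z.im) * uu z ^ κ := by
      apply Finset.sum_nbij (fun z => -z)
      · intro z hz
        rw [Finset.mem_filter, hA, mem_ann] at hz
        rw [hAp, Finset.mem_filter, hA, mem_ann, nm_neg]
        obtain ⟨⟨h1, h2, h3⟩, h4⟩ := hz
        refine ⟨⟨Od_neg h1, h2, h3⟩, ?_⟩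
        have := h1.1
        show 0 < (-z).re
        rw [Zsqrtd.re_neg]
        omega
      · intro z _ w _ hzw
        exact neg_injective hzw
      · intro z hz
        rw [Finset.mem_coe, hAp, Finset.mem_filter, hA, mem_ann] at hz
        refine ⟨-z, ?_, neg_neg z⟩
        rw [Finset.mem_coe, Finset.mem_filter, hA, mem_ann, nm_neg]
        obtain ⟨⟨h1, h2, h3⟩, h4⟩ := hz
        refine ⟨⟨Od_neg h1, h2, h3⟩, ?_⟩
        rw [Zsqrtd.re_neg]
        omega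
      · intro z _
        rw [uu_neg, Zsqrtd.re_neg, Zsqrtd.im_neg]
        congr 2
        push_cast
        ring
    rw [e1, e2]
  rw [hsym]
  have hA1 := hhalf α0 β0
  have hA2 := hhalf (-α0) (-β0)
  -- powers
  have hp : ∀ e : ℝ, 2 * c ≤ e → R * R ^ (1 - e) ≤ R ^ (2 - 2 * c) := by
    intro e he
    have h1 : R * R ^ (1 - e) = R ^ (2 - e) := by
      have : (2 : ℝ) - e = 1 + (1 - e) := by ring
      rw [this, Real.rpow_add hR0, Real.rpow_one]
    rw [h1]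
    exact Real.rpow_le_rpow_of_exponent_le hR1' (by linarith)
  have hp1 := hp c1 hcc1
  have hp2 := hp c0 (by linarith)
  have hp3 := hp (c0 / 2) hcc0
  have hp4 : R ≤ R * R ^ (1 - c0 / 2) := by
    have : (1 : ℝ) ≤ R ^ (1 - c0 / 2) := Real.one_le_rpow hR1' (by linarith)
    nlinarith
  have hfin : R ^ (2 - 2 * c) * R ^ c = R ^ (2 - c) := by
    rw [← Real.rpow_add hR0]; congr 1; ring
  have hpos : 0 < R ^ (2 - 2 * c) := by positivity
  calc ‖∑ z ∈ Ap, ee (α0 * z.re + β0 * z.im) * uu z ^ κ +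
        ∑ z ∈ Ap, ee ((-α0) * z.re + (-β0) * z.im) * uu z ^ κ‖
      ≤ ‖∑ z ∈ Ap, ee (α0 * z.re + β0 * z.im) * uu z ^ κ‖ +
        ‖∑ z ∈ Ap, ee ((-α0) * z.re + (-β0) * z.im) * uu z ^ κ‖ := norm_add_le _ _
    _ ≤ 2 * (3 * R * (R ^ (1 - c1) + R ^ (1 - c0)) + (2 * W + 1) * R) := by linarith
    _ = 6 * (R * R ^ (1 - c1)) + 6 * (R * R ^ (1 - c0)) + 32 * (R * R ^ (1 - c0 / 2)) + 2 * R := by
        rw [hW]; ring
    _ ≤ R ^ (2 - 2 * c) * 64 := by nlinarith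
    _ ≤ R ^ (2 - 2 * c) * R ^ c := by gcongr
    _ = R ^ (2 - c) := hfin

end Pool.Agent.FCH
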