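import Pool.Agent.FCH.Ent

set_option autoImplicit false

/-! Module Dv: Donsker-Varadhan + Hoeffding.  `Y a p ∈ {0, ..., N p - 1}` for `p ∈ S`; `D = ∑_{p ∈ S} log N_p - H(Y_S | X) ≥ 0`.
For `λ > 0` and fixed `x`-fibre `F` (size `n_x`), with `n_{x,y}` = number of `a ∈ F` with `Y_S a = y`, `M = ∏ N_p`:
`(1/n_x) ∑_{a ∈ F} [λ ∑_p g a p (Y a p) + log(n_x/(M n_{x,y(a)}))] ≤ log( (1/n_x) ∑_{a ∈ F} exp(λ∑g) n_x/(M n_{x,y}) )` (concavity of `log`, Jensen)
`≤ log( (1/M) ∑_{y ∈ ∏ {0..N_p-1}} exp(λ ∑_p g_p(y_p)) ) = ∑_p log( (1/N_p) ∑_v exp(λ g_p(v)) ) ≤ |S| λ² B²/2` (mean zero and `|g| ≤ B`: `e^{λg} ≤ cosh(λB) + (g/B) sinh(λB)`, `Real.cosh_le_exp_half_sq`).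
Sum over the fibres: `λ E[∑ g] ≤ D + λ² B² |S|/2`; `λ = √(2D/(B²|S|))` (if `D = 0`, let `λ → 0`). -/

open Finset

namespace Pool.Agent.FCH

/-- restriction of a family of labels to `S` -/
def rst (S : Finset ℕ) (y : ℕ → ℕ) : ℕ → ℕ := fun p => if p ∈ S then y p else 0

/-- Hoeffding's lemma for a finite uniform space -/
theorem Dv_hoef (n : ℕ) (hn : 1 ≤ n) (g : ℕ → ℝ) (B l : ℝ) (hB : 0 ≤ B)
    (hb : ∀ v < n, |g v| ≤ B) (h0 : ∑ v ∈ range n, g v = 0) :
    ∑ v ∈ range n, Real.exp (l * g v) ≤ n * Real.exp (l ^ 2 * B ^ 2 / 2) := by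
  rcases hB.eq_or_lt with hB0 | hB0
  · have h1 : ∀ v ∈ range n, Real.exp (l * g v) = 1 := by
      intro v hv
      have h2 := hb v (mem_range.1 hv)
      rw [← hB0] at h2
      have h3 : g v = 0 := abs_eq_zero.1 (le_antisymm h2 (abs_nonneg _))
      rw [h3]; simp
    rw [sum_congr rfl h1, ← hB0]
    simp
  · have h1 : ∀ v ∈ range n, Real.exp (l * g v) ≤ Real.cosh (l * B) + g v * (Real.sinh (l * B) / B) := by
      intro v hv
      have h2 := abs_le.1 (hb v (mem_range.1 hv))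
      have hcv := convexOn_exp.2 (Set.mem_univ (l * B)) (Set.mem_univ (-(l * B)))
        (show 0 ≤ (B + g v) / (2 * B) by apply div_nonneg <;> linarith)
        (show 0 ≤ (B - g v) / (2 * B) by apply div_nonneg <;> linarith)
        (by field_simp; ring)
      simp only [smul_eq_mul] at hcv
      have h3 : (B + g v) / (2 * B) * (l * B) + (B - g v) / (2 * B) * -(l * B) = l * g v := by
        field_simp; ring
      rw [h3] at hcv
      refine hcv.trans (le_of_eq ?_)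
      rw [Real.cosh_eq, Real.sinh_eq]
      field_simp
      ring
    calc ∑ v ∈ range n, Real.exp (l * g v)
        ≤ ∑ v ∈ range n, (Real.cosh (l * B) + g v * (Real.sinh (l * B) / B)) := sum_le_sum h1
      _ = n * Real.cosh (l * B) := by
          rw [sum_add_distrib, ← sum_mul, h0]; simp
      _ ≤ n * Real.exp ((l * B) ^ 2 / 2) := by
          gcongr
          exact Real.cosh_le_exp_half_sq _
      _ = n * Real.exp (l ^ 2 * B ^ 2 / 2) := by
          congr 2; ring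

/-- counting with multiplicities -/
theorem Dv_fib {α γ : Type} [DecidableEq γ] (F : Finset α) (Q : Finset γ) (ψ : α → γ)
    (hψ : ∀ a ∈ F, ψ a ∈ Q) (h : γ → ℝ) (hh : ∀ y ∈ Q, 0 ≤ h y) :
    ∑ a ∈ F, h (ψ a) / ((F.filter (fun a' => ψ a' = ψ a)).card : ℝ) ≤ ∑ y ∈ Q, h y := by
  rw [← sum_fiberwise_of_maps_to (s := F) (t := Q) (g := ψ) (fun a ha => hψ a ha)]
  refine sum_le_sum fun y hy => ?_
  rcases (F.filter (fun a => ψ a = y)).eq_empty_or_nonempty with he | hne
  · rw [he, sum_empty]; exact hh y hy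
  · have h1 : ∀ a ∈ F.filter (fun a => ψ a = y),
        h (ψ a) / ((F.filter (fun a' => ψ a' = ψ a)).card : ℝ) =
          h y / ((F.filter (fun a' => ψ a' = y)).card : ℝ) := by
      intro a ha
      rw [(mem_filter.1 ha).2]
    rw [sum_congr rfl h1, sum_const, nsmul_eq_mul]
    have h2 : ((F.filter (fun a' => ψ a' = y)).card : ℝ) ≠ 0 := by
      exact_mod_cast (card_pos.2 hne).ne'
    exact le_of_eq (by field_simp)

theorem Dv_main {α β : Type} (s : Finset α) (hs : s.Nonempty) (X : α → β) (Y : α → ℕ → ℕ) (S : Finset ℕ) (N : ℕ → ℕ)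
    (hN : ∀ p ∈ S, 1 ≤ N p) (hY : ∀ a ∈ s, ∀ p ∈ S, Y a p < N p) (g : α → ℕ → ℕ → ℝ)
    (hg : ∀ a ∈ s, ∀ a' ∈ s, X a = X a' → ∀ p ∈ S, ∀ v < N p, g a p v = g a' p v) (B : ℝ) (hB : 0 ≤ B)
    (hb : ∀ a ∈ s, ∀ p ∈ S, ∀ v < N p, |g a p v| ≤ B) (h0 : ∀ a ∈ s, ∀ p ∈ S, ∑ v ∈ range (N p), g a p v = 0)
    (l : ℝ) :
    l * ((∑ a ∈ s, ∑ p ∈ S, g a p (Y a p)) / s.card) ≤
      (∑ p ∈ S, Real.log (N p) - (ent s (fun a => (X a, rst S (Y a))) - ent s X)) +
        S.card * (B ^ 2 / 2) * l ^ 2 := by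
  classical
  have hsc : (0 : ℝ) < s.card := by exact_mod_cast card_pos.2 hs
  -- fibre sizes
  set nx : α → ℝ := fun a => ((s.filter (fun a' => X a' = X a)).card : ℝ) with hnx
  set nxy : α → ℝ := fun a =>
    ((s.filter (fun a' => (X a', rst S (Y a')) = (X a, rst S (Y a)))).card : ℝ) with hnxy
  have hnx0 : ∀ a ∈ s, 0 < nx a := by
    intro a ha
    have : (s.filter (fun a' => X a' = X a)).Nonempty := ⟨a, mem_filter.2 ⟨ha, rfl⟩⟩
    simp only [hnx]
    exact_mod_cast card_pos.2 this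
  have hnxy0 : ∀ a ∈ s, 0 < nxy a := by
    intro a ha
    have : (s.filter (fun a' => (X a', rst S (Y a')) = (X a, rst S (Y a)))).Nonempty :=
      ⟨a, mem_filter.2 ⟨ha, rfl⟩⟩
    simp only [hnxy]
    exact_mod_cast card_pos.2 this
  set M : ℝ := ∏ p ∈ S, (N p : ℝ) with hM
  have hNp : ∀ p ∈ S, (0 : ℝ) < N p := fun p hp => by exact_mod_cast hN p hp
  have hM0 : 0 < M := prod_pos hNp
  have hlogM : ∑ p ∈ S, Real.log (N p) = Real.log M := by
    rw [hM, Real.log_prod]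
    intro p hp; exact (hNp p hp).ne'
  -- the entropy term
  have hent : ent s (fun a => (X a, rst S (Y a))) - ent s X =
      (∑ a ∈ s, Real.log (nx a / nxy a)) / s.card := by
    unfold ent
    rw [← sub_div, ← sum_sub_distrib]
    congr 1
    refine sum_congr rfl fun a ha => ?_
    have e1 : Real.log ((s.card : ℝ) / ((s.filter (fun a' => (X a', rst S (Y a')) = (X a, rst S (Y a)))).card : ℝ))
        = Real.log s.card - Real.log (nxy a) := Real.log_div hsc.ne' (hnxy0 a ha).ne'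
    have e2 : Real.log ((s.card : ℝ) / ((s.filter (fun a' => X a' = X a)).card : ℝ))
        = Real.log s.card - Real.log (nx a) := Real.log_div hsc.ne' (hnx0 a ha).ne'
    have e3 : Real.log (nx a / nxy a) = Real.log (nx a) - Real.log (nxy a) :=
      Real.log_div (hnx0 a ha).ne' (hnxy0 a ha).ne'
    rw [e3]
    have e4 : ∀ (u v u' v' : ℝ), u = u' → v = v' → u - v = u' - v' := fun _ _ _ _ h h' => by rw [h, h']
    have e5 := e4 _ _ _ _ e1 e2
    refine Eq.trans ?_ (e5.trans (by ring))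
    congr!
  -- the label set
  set Q := S.pi (fun p => range (N p)) with hQ
  let ψ : α → (∀ p ∈ S, ℕ) := fun a p _ => Y a p
  have hψ : ∀ a ∈ s, ψ a ∈ Q := by
    intro a ha
    rw [hQ, mem_pi]
    intro p hp
    exact mem_range.2 (hY a ha p hp)
  have hrst : ∀ a a', rst S (Y a) = rst S (Y a') ↔ ψ a = ψ a' := by
    intro a a'
    constructor
    · intro h
      funext p hp
      have := congrFun h p
      simpa [rst, hp] using this
    · intro h
      funext p
      by_cases hp : p ∈ S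
      · have := congrFun (congrFun h p) hp
        simpa [rst, hp] using this
      · simp [rst, hp]
  set w : α → (∀ p ∈ S, ℕ) → ℝ := fun b y => Real.exp (∑ x ∈ S.attach, l * g b x.1 (y x.1 x.2)) with hw
  set Z : α → ℝ := fun b => ∑ y ∈ Q, w b y with hZ
  have hZprod : ∀ b, Z b = ∏ p ∈ S, ∑ v ∈ range (N p), Real.exp (l * g b p v) := by
    intro b
    rw [prod_sum]
    simp only [hZ, hw, hQ]
    refine sum_congr rfl fun y _ => ?_
    rw [Real.exp_sum]
  have hZ0 : ∀ b, 0 < Z b := by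
    intro b
    rw [hZprod]
    refine prod_pos fun p hp => ?_
    refine sum_pos (fun v _ => Real.exp_pos _) ?_
    exact ⟨0, mem_range.2 (hN p hp)⟩
  have hZle : ∀ b ∈ s, Z b ≤ M * Real.exp (S.card * (B ^ 2 / 2) * l ^ 2) := by
    intro b hbs
    rw [hZprod]
    calc ∏ p ∈ S, ∑ v ∈ range (N p), Real.exp (l * g b p v)
        ≤ ∏ p ∈ S, ((N p : ℝ) * Real.exp (l ^ 2 * B ^ 2 / 2)) := by
          refine prod_le_prod (fun p _ => sum_nonneg fun v _ => (Real.exp_pos _).le) fun p hp => ?_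
          exact Dv_hoef (N p) (hN p hp) (fun v => g b p v) B l hB (hb b hbs p hp) (h0 b hbs p hp)
      _ = M * Real.exp (S.card * (B ^ 2 / 2) * l ^ 2) := by
          rw [prod_mul_distrib, ← Real.exp_sum]
          congr 2
          rw [sum_const, nsmul_eq_mul]; ring
  have hgw : ∀ a ∈ s, ∀ b ∈ s, X a = X b → ∀ y ∈ Q, w a y = w b y := by
    intro a ha b hb' hab y hy
    simp only [hw]
    congr 1
    refine sum_congr rfl fun x _ => ?_
    rw [hg a ha b hb' hab x.1 x.2 _ (mem_range.1 ((mem_pi.1 hy) x.1 x.2))]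
  have hgZ : ∀ a ∈ s, ∀ b ∈ s, X a = X b → Z a = Z b := by
    intro a ha b hb' hab
    exact sum_congr rfl fun y hy => hgw a ha b hb' hab y hy
  have hwa : ∀ a, w a (ψ a) = Real.exp (l * ∑ p ∈ S, g a p (Y a p)) := by
    intro a
    simp only [hw, ψ]
    rw [mul_sum, ← sum_attach S (fun p => l * g a p (Y a p))]
  -- the key sum
  have hkey : ∑ a ∈ s, (w a (ψ a) / Z a) * (nx a / nxy a) ≤ s.card := by
    have e1 : ∀ a ∈ s, (w a (ψ a) / Z a) * (nx a / nxy a) =
        ∑ b ∈ s.filter (fun b => X b = X a), (w a (ψ a) / Z a) / nxy a := by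
      intro a _
      rw [sum_const, nsmul_eq_mul]
      simp only [hnx]
      ring
    rw [sum_congr rfl e1]
    have e2 : ∑ a ∈ s, ∑ b ∈ s.filter (fun b => X b = X a), (w a (ψ a) / Z a) / nxy a =
        ∑ b ∈ s, ∑ a ∈ s.filter (fun a => X a = X b), (w a (ψ a) / Z a) / nxy a := by
      simp only [sum_filter]
      rw [sum_comm]
      refine sum_congr rfl fun b _ => sum_congr rfl fun a _ => ?_
      by_cases h : X a = X b
      · simp [h]
      · have h' : ¬ X b = X a := fun h2 => h h2.symm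
        simp [h, h']
    rw [e2]
    have e3 : ∀ b ∈ s, ∑ a ∈ s.filter (fun a => X a = X b), (w a (ψ a) / Z a) / nxy a ≤ 1 := by
      intro b hbs
      have e4 : ∀ a ∈ s.filter (fun a => X a = X b), (w a (ψ a) / Z a) / nxy a =
          (w b (ψ a) / Z b) / (((s.filter (fun a => X a = X b)).filter (fun a' => ψ a' = ψ a)).card : ℝ) := by
        intro a ha
        obtain ⟨ha1, ha2⟩ := mem_filter.1 ha
        rw [hgw a ha1 b hbs ha2 _ (hψ a ha1), hgZ a ha1 b hbs ha2]
        have e6 : s.filter (fun a' => (X a', rst S (Y a')) = (X a, rst S (Y a))) =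
            (s.filter (fun a => X a = X b)).filter (fun a' => ψ a' = ψ a) := by
          ext a'
          simp only [mem_filter, Prod.mk.injEq, hrst, ha2, and_assoc]
        simp only [hnxy]
        rw [e6]
      rw [sum_congr rfl e4]
      refine (Dv_fib (s.filter (fun a => X a = X b)) Q ψ (fun a ha => hψ a (mem_filter.1 ha).1)
        (fun y => w b y / Z b) (fun y _ => div_nonneg (Real.exp_pos _).le (hZ0 b).le)).trans ?_
      rw [← sum_div]
      exact le_of_eq (div_self (hZ0 b).ne')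
    calc ∑ b ∈ s, ∑ a ∈ s.filter (fun a => X a = X b), (w a (ψ a) / Z a) / nxy a
        ≤ ∑ b ∈ s, (1 : ℝ) := sum_le_sum e3
      _ = s.card := by simp
  -- pointwise: log t ≤ t - 1
  have hpt : ∀ a ∈ s, l * ∑ p ∈ S, g a p (Y a p) + Real.log (nx a / nxy a) - Real.log M -
      S.card * (B ^ 2 / 2) * l ^ 2 ≤ (w a (ψ a) / Z a) * (nx a / nxy a) - 1 := by
    intro a ha
    have hr : 0 < nx a / nxy a := div_pos (hnx0 a ha) (hnxy0 a ha)
    have hwp : 0 < w a (ψ a) := Real.exp_pos _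
    have h1 := Real.log_le_sub_one_of_pos (mul_pos (div_pos hwp (hZ0 a)) hr)
    rw [Real.log_mul (div_pos hwp (hZ0 a)).ne' hr.ne', Real.log_div hwp.ne' (hZ0 a).ne', hwa a,
      Real.log_exp] at h1
    have h2 : Real.log (Z a) ≤ Real.log M + S.card * (B ^ 2 / 2) * l ^ 2 := by
      calc Real.log (Z a) ≤ Real.log (M * Real.exp (S.card * (B ^ 2 / 2) * l ^ 2)) :=
            Real.log_le_log (hZ0 a) (hZle a ha)
        _ = _ := by rw [Real.log_mul hM0.ne' (Real.exp_pos _).ne', Real.log_exp]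
    rw [hwa a]
    linarith
  have hsum := sum_le_sum hpt
  rw [sum_sub_distrib, sum_sub_distrib, sum_sub_distrib, sum_add_distrib, ← mul_sum] at hsum
  simp only [sum_const, nsmul_eq_mul, mul_one] at hsum
  rw [hent, hlogM]
  have h3 : l * (∑ a ∈ s, ∑ p ∈ S, g a p (Y a p)) + ∑ a ∈ s, Real.log (nx a / nxy a) ≤
      s.card * (Real.log M + S.card * (B ^ 2 / 2) * l ^ 2) := by
    linarith
  have h4 : l * ((∑ a ∈ s, ∑ p ∈ S, g a p (Y a p)) / s.card) +
      (∑ a ∈ s, Real.log (nx a / nxy a)) / s.card ≤ Real.log M + S.card * (B ^ 2 / 2) * l ^ 2 := by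
    rw [← mul_div_assoc, ← add_div, div_le_iff₀ hsc]
    linarith
  linarith

theorem dv {α β : Type} (s : Finset α) (hs : s.Nonempty) (X : α → β) (Y : α → ℕ → ℕ) (S : Finset ℕ) (N : ℕ → ℕ)
    (hN : ∀ p ∈ S, 1 ≤ N p) (hY : ∀ a ∈ s, ∀ p ∈ S, Y a p < N p) (g : α → ℕ → ℕ → ℝ)
    (hg : ∀ a ∈ s, ∀ a' ∈ s, X a = X a' → ∀ p ∈ S, ∀ v < N p, g a p v = g a' p v) (B : ℝ) (hB : 0 ≤ B)
    (hb : ∀ a ∈ s, ∀ p ∈ S, ∀ v < N p, |g a p v| ≤ B) (h0 : ∀ a ∈ s, ∀ p ∈ S, ∑ v ∈ range (N p), g a p v = 0) :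
    (∑ a ∈ s, ∑ p ∈ S, g a p (Y a p)) / s.card ≤
      B * √(2 * (∑ p ∈ S, Real.log (N p) - (ent s (fun a => (X a, rst S (Y a))) - ent s X)) * S.card) := by
  have hmain := Dv_main s hs X Y S N hN hY g hg B hB hb h0
  set E := (∑ a ∈ s, ∑ p ∈ S, g a p (Y a p)) / s.card with hE
  set D := ∑ p ∈ S, Real.log (N p) - (ent s (fun a => (X a, rst S (Y a))) - ent s X) with hD
  have hD0 : 0 ≤ D := by have := hmain 0; simpa using this
  have hr : 0 ≤ B * √(2 * D * S.card) := by positivity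
  rcases le_or_gt E 0 with hE0 | hE0
  · exact hE0.trans hr
  set κ : ℝ := S.card * (B ^ 2 / 2) with hκ
  have hκ0 : 0 ≤ κ := by positivity
  have h1 : E ^ 2 ≤ 4 * κ * D := by
    rcases hκ0.eq_or_lt with h2 | h2
    · exfalso
      have h3 := hmain ((D + 1) / E)
      rw [← h2, div_mul_cancel₀ _ hE0.ne'] at h3
      linarith
    · have h3 := hmain (E / (2 * κ))
      have h4 : E / (2 * κ) * E = E ^ 2 / (2 * κ) := by ring
      have h5 : κ * (E / (2 * κ)) ^ 2 = E ^ 2 / (4 * κ) := by field_simp; ring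
      rw [h4, h5] at h3
      have h6 : E ^ 2 / (2 * κ) = 2 * (E ^ 2 / (4 * κ)) := by field_simp; ring
      rw [h6] at h3
      have h7 : E ^ 2 / (4 * κ) ≤ D := by linarith
      rw [div_le_iff₀ (by positivity)] at h7
      linarith
  have h2 : B * √(2 * D * S.card) = √(4 * κ * D) := by
    rw [show 4 * κ * D = B ^ 2 * (2 * D * S.card) by rw [hκ]; ring, Real.sqrt_mul (sq_nonneg B),
      Real.sqrt_sq hB]
  rw [h2]
  exact Real.le_sqrt_of_sq_le h1

end Pool.Agent.FCH
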