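import Mathlib

set_option autoImplicit false

/-! Module Ent: Shannon entropy of a function on a finite uniform space.  `ent s X = (1/|s|) ∑_{a ∈ s} log(|s| / #{a' ∈ s : X a' = X a})`.
All statements are for `s` non-empty unless it does not matter (`ent ∅ X = 0`).
`ent_congr`: only the partition matters.  `ent_submod` (conditional mutual information `≥ 0`): with `n_{xyz}` the fibre sizes, it says
`∑_a log( n_{xz} n_{yz} / (n_{xyz} n_z) ) ≤ 0`... precisely `∑_{a} log (n_{xz}(a) n_{yz}(a)/(n_{xyz}(a) n_z(a))) ≤ ∑_a (n_{xz} n_{yz}/(n_{xyz} n_z) - 1) = ∑_{(x,y,z) attained} n_{xz} n_{yz}/n_z - |s| ≤ 0` (`log x ≤ x - 1`; sum over attained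
triples, `≤ ∑_{x,y,z} n_{xz}n_{yz}/n_z = ∑_z n_z`).  `ent_gibbs`: `log(q(X a) |s|/n(X a)) ≤ q |s|/n - 1`.
`ent_restrict`: `ent s X ≥ (|s'|/|s|) ent s' X`: `ent s X ≥ ent s (X | 1_{s'}) = (|s'|/|s|) ent s' X + (rest ≥ 0)` (submodularity with trivial `Z`, or concavity of `x log x`). -/

open Finset

namespace Pool.Agent.FCH

/-- entropy of `X` under the uniform distribution on `s` -/
noncomputable def ent {α β : Type} (s : Finset α) (X : α → β) : ℝ :=
  open Classical in
  (∑ a ∈ s, Real.log ((s.card : ℝ) / ((s.filter (fun a' => X a' = X a)).card : ℝ))) / s.card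

open Classical in
/-- size of the fibre -/
private noncomputable def Ent_n {α β : Type} (s : Finset α) (X : α → β) (x : β) : ℝ :=
  ((s.filter (fun a' => X a' = x)).card : ℝ)

private theorem Ent_def {α β : Type} (s : Finset α) (X : α → β) :
    ent s X = (∑ a ∈ s, Real.log ((s.card : ℝ) / Ent_n s X (X a))) / s.card := rfl

private theorem Ent_n_pos {α β : Type} (s : Finset α) (X : α → β) {a : α} (ha : a ∈ s) :
    0 < Ent_n s X (X a) := by
  classical
  unfold Ent_n
  have : 0 < (s.filter (fun a' => X a' = X a)).card :=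
    Finset.card_pos.2 ⟨a, Finset.mem_filter.2 ⟨ha, rfl⟩⟩
  exact_mod_cast this

private theorem Ent_n_nonneg {α β : Type} (s : Finset α) (X : α → β) (x : β) :
    0 ≤ Ent_n s X x := by unfold Ent_n; positivity

private theorem Ent_n_le {α β : Type} (s : Finset α) (X : α → β) (x : β) :
    Ent_n s X x ≤ s.card := by
  classical
  unfold Ent_n
  exact_mod_cast Finset.card_filter_le _ _

private theorem Ent_card_pos {α : Type} (s : Finset α) {a : α} (ha : a ∈ s) : (0 : ℝ) < s.card := by
  exact_mod_cast Finset.card_pos.2 ⟨a, ha⟩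

private theorem Ent_term_nonneg {α β : Type} (s : Finset α) (X : α → β) {a : α} (ha : a ∈ s) :
    0 ≤ Real.log ((s.card : ℝ) / Ent_n s X (X a)) := by
  apply Real.log_nonneg
  rw [le_div_iff₀ (Ent_n_pos s X ha), one_mul]
  exact Ent_n_le s X _

theorem ent_nonneg {α β : Type} (s : Finset α) (X : α → β) : 0 ≤ ent s X := by
  rw [Ent_def]
  apply div_nonneg _ (Nat.cast_nonneg _)
  apply Finset.sum_nonneg
  intro a ha
  exact Ent_term_nonneg s X ha

/-- a function of `X` has smaller entropy -/
theorem ent_mono {α β γ : Type} (s : Finset α) (X : α → β) (Y : α → γ)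
    (h : ∀ a ∈ s, ∀ a' ∈ s, X a = X a' → Y a = Y a') : ent s Y ≤ ent s X := by
  classical
  rw [Ent_def, Ent_def]
  apply div_le_div_of_nonneg_right _ (Nat.cast_nonneg _)
  apply Finset.sum_le_sum
  intro a ha
  have h1 := Ent_n_pos s X ha
  have h2 := Ent_n_pos s Y ha
  have hc := Ent_card_pos s ha
  apply Real.log_le_log (div_pos hc h2)
  apply div_le_div_of_nonneg_left hc.le h1
  unfold Ent_n
  have : (s.filter (fun a' => X a' = X a)) ⊆ (s.filter (fun a' => Y a' = Y a)) := by
    intro a' ha'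
    rw [Finset.mem_filter] at ha' ⊢
    exact ⟨ha'.1, h a' ha'.1 a ha ha'.2⟩
  exact_mod_cast Finset.card_le_card this

theorem ent_congr {α β γ : Type} (s : Finset α) (X : α → β) (Y : α → γ)
    (h : ∀ a ∈ s, ∀ a' ∈ s, (X a = X a' ↔ Y a = Y a')) : ent s X = ent s Y :=
  le_antisymm (ent_mono s Y X (fun a ha a' ha' hh => (h a ha a' ha').2 hh))
    (ent_mono s X Y (fun a ha a' ha' hh => (h a ha a' ha').1 hh))

theorem ent_gibbs {α β : Type} (s : Finset α) (X : α → β) (q : β → ℝ) (hq : ∀ a ∈ s, 0 < q (X a))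
    (h1 : open Classical in ∑ x ∈ s.image X, q x ≤ 1) :
    ent s X ≤ (∑ a ∈ s, -Real.log (q (X a))) / s.card := by
  classical
  rw [Ent_def]
  apply div_le_div_of_nonneg_right _ (Nat.cast_nonneg _)
  rw [← sub_nonpos, ← Finset.sum_sub_distrib]
  have key : ∀ a ∈ s, Real.log ((s.card : ℝ) / Ent_n s X (X a)) - -Real.log (q (X a)) ≤
      s.card * (q (X a) / Ent_n s X (X a)) - 1 := by
    intro a ha
    have hn := Ent_n_pos s X ha
    have hc := Ent_card_pos s ha
    have h2 := Real.log_le_sub_one_of_pos (mul_pos (div_pos hc hn) (hq a ha))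
    rw [Real.log_mul (div_pos hc hn).ne' (hq a ha).ne'] at h2
    have e : (s.card : ℝ) / Ent_n s X (X a) * q (X a) = s.card * (q (X a) / Ent_n s X (X a)) := by
      ring
    rw [e] at h2
    linarith
  refine le_trans (Finset.sum_le_sum key) ?_
  rw [Finset.sum_sub_distrib, ← Finset.mul_sum]
  have hfib : ∑ a ∈ s, q (X a) / Ent_n s X (X a) ≤ 1 := by
    have e1 : ∑ a ∈ s, q (X a) / Ent_n s X (X a) =
        ∑ x ∈ s.image X, ∑ a ∈ s with X a = x, q (X a) / Ent_n s X (X a) := by
      exact (Finset.sum_fiberwise_of_maps_to (fun a ha => Finset.mem_image_of_mem X ha) _).symm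
    rw [e1]
    have h1' : ∑ x ∈ s.image X, q x ≤ 1 := by convert h1
    refine le_trans (le_of_eq ?_) h1'
    apply Finset.sum_congr rfl
    intro x hx
    obtain ⟨a, ha, rfl⟩ := Finset.mem_image.1 hx
    have hn := Ent_n_pos s X ha
    have : ∀ b ∈ s.filter (fun b => X b = X a), q (X b) / Ent_n s X (X b) =
        q (X a) / Ent_n s X (X a) := by
      intro b hb
      rw [(Finset.mem_filter.1 hb).2]
    rw [Finset.sum_congr rfl this, Finset.sum_const, nsmul_eq_mul]
    have e2 : ((s.filter (fun b => X b = X a)).card : ℝ) = Ent_n s X (X a) := by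
      unfold Ent_n
      congr!
    rw [e2]
    field_simp
  have hc : (0 : ℝ) ≤ s.card := Nat.cast_nonneg _
  have h3 : (s.card : ℝ) * ∑ a ∈ s, q (X a) / Ent_n s X (X a) ≤ s.card * 1 :=
    mul_le_mul_of_nonneg_left hfib hc
  simp only [Finset.sum_const, nsmul_eq_mul]
  linarith

theorem ent_le_log {α β : Type} (s : Finset α) (X : α → β) (n : ℕ) (hn : 1 ≤ n)
    (h : open Classical in (s.image X).card ≤ n) : ent s X ≤ Real.log n := by
  have hn0 : (0 : ℝ) < n := by exact_mod_cast hn
  have h1 := ent_gibbs s X (fun _ => 1 / (n : ℝ)) (fun a _ => by positivity) (by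
    simp only [Finset.sum_const, nsmul_eq_mul]
    rw [mul_one_div, div_le_one hn0]
    exact_mod_cast h)
  refine le_trans h1 ?_
  simp only [Finset.sum_const, nsmul_eq_mul]
  rcases s.eq_empty_or_nonempty with hs | hs
  · subst hs
    simp
    exact Real.log_nonneg (by exact_mod_cast hn)
  · have hc : (0 : ℝ) < s.card := by exact_mod_cast Finset.card_pos.2 hs
    rw [mul_div_assoc, mul_comm, div_mul_cancel₀ _ hc.ne', one_div, Real.log_inv]
    linarith

theorem ent_submod {α β γ δ : Type} (s : Finset α) (X : α → β) (Y : α → γ) (Z : α → δ) :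
    ent s (fun a => (X a, Y a, Z a)) + ent s Z ≤ ent s (fun a => (X a, Z a)) + ent s (fun a => (Y a, Z a)) := by
  classical
  rw [Ent_def, Ent_def, Ent_def, Ent_def, ← add_div, ← add_div]
  apply div_le_div_of_nonneg_right _ (Nat.cast_nonneg _)
  rw [← Finset.sum_add_distrib, ← Finset.sum_add_distrib, ← sub_nonpos, ← Finset.sum_sub_distrib]
  set XYZ : α → β × γ × δ := fun a => (X a, Y a, Z a) with hXYZ
  set XZ : α → β × δ := fun a => (X a, Z a) with hXZ
  set YZ : α → γ × δ := fun a => (Y a, Z a) with hYZ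
  have key : ∀ a ∈ s, (Real.log ((s.card : ℝ) / Ent_n s XYZ (XYZ a)) +
      Real.log ((s.card : ℝ) / Ent_n s Z (Z a))) -
      (Real.log ((s.card : ℝ) / Ent_n s XZ (XZ a)) + Real.log ((s.card : ℝ) / Ent_n s YZ (YZ a))) ≤
      (Ent_n s XZ (XZ a) * Ent_n s YZ (YZ a)) * (1 / (Ent_n s XYZ (XYZ a) * Ent_n s Z (Z a))) - 1 := by
    intro a ha
    have h1 := Ent_n_pos s XYZ ha
    have h2 := Ent_n_pos s Z ha
    have h3 := Ent_n_pos s XZ ha
    have h4 := Ent_n_pos s YZ ha
    have hc := Ent_card_pos s ha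
    have h5 := Real.log_le_sub_one_of_pos (mul_pos (mul_pos h3 h4) (one_div_pos.2 (mul_pos h1 h2)))
    rw [Real.log_mul (mul_pos h3 h4).ne' (one_div_pos.2 (mul_pos h1 h2)).ne',
      Real.log_mul h3.ne' h4.ne', one_div, Real.log_inv, Real.log_mul h1.ne' h2.ne'] at h5
    rw [Real.log_div hc.ne' h1.ne', Real.log_div hc.ne' h2.ne', Real.log_div hc.ne' h3.ne',
      Real.log_div hc.ne' h4.ne', one_div]
    linarith
  refine le_trans (Finset.sum_le_sum key) ?_
  rw [Finset.sum_sub_distrib, sub_nonpos]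
  simp only [Finset.sum_const, nsmul_eq_mul, mul_one]
  -- double counting
  have hprod : ∀ a ∈ s, (Ent_n s XZ (XZ a) * Ent_n s YZ (YZ a)) *
      (1 / (Ent_n s XYZ (XYZ a) * Ent_n s Z (Z a))) =
      ∑ b ∈ s, ∑ c ∈ s, if (XZ b = XZ a ∧ YZ c = YZ a) then
        1 / (Ent_n s XYZ (XYZ a) * Ent_n s Z (Z a)) else 0 := by
    intro a _
    have e1 : Ent_n s XZ (XZ a) = ∑ b ∈ s, if XZ b = XZ a then (1 : ℝ) else 0 := by
      unfold Ent_n
      rw [Finset.sum_boole]
      congr!
    have e2 : Ent_n s YZ (YZ a) = ∑ c ∈ s, if YZ c = YZ a then (1 : ℝ) else 0 := by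
      unfold Ent_n
      rw [Finset.sum_boole]
      congr!
    rw [e1, e2, Finset.sum_mul_sum, Finset.sum_mul]
    apply Finset.sum_congr rfl
    intro b _
    rw [Finset.sum_mul]
    apply Finset.sum_congr rfl
    intro c _
    by_cases hb : XZ b = XZ a <;> by_cases hc : YZ c = YZ a <;> simp [hb, hc]
  rw [Finset.sum_congr rfl hprod, Finset.sum_comm]
  -- for each `b`
  have hb : ∀ b ∈ s, ∑ a ∈ s, ∑ c ∈ s, (if (XZ b = XZ a ∧ YZ c = YZ a) then
        1 / (Ent_n s XYZ (XYZ a) * Ent_n s Z (Z a)) else 0) ≤ 1 := by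
    intro b hbs
    have hnz := Ent_n_pos s Z hbs
    rw [Finset.sum_comm]
    have hc : ∀ c ∈ s, ∑ a ∈ s, (if (XZ b = XZ a ∧ YZ c = YZ a) then
        1 / (Ent_n s XYZ (XYZ a) * Ent_n s Z (Z a)) else 0) ≤
        if Z c = Z b then 1 / Ent_n s Z (Z b) else 0 := by
      intro c _
      rw [← Finset.sum_filter]
      set F := s.filter (fun a => XZ b = XZ a ∧ YZ c = YZ a) with hF
      by_cases hF0 : F.Nonempty
      · obtain ⟨a0, ha0⟩ := hF0
        have hm0 := (Finset.mem_filter.1 ha0)
        have hcz : Z c = Z b := by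
          have h1 := (Prod.mk.inj hm0.2.1).2
          have h2 := (Prod.mk.inj hm0.2.2).2
          rw [h2, h1]
        rw [if_pos hcz]
        have hFeq : ∀ a ∈ F, 1 / (Ent_n s XYZ (XYZ a) * Ent_n s Z (Z a)) =
            1 / (F.card : ℝ) * (1 / Ent_n s Z (Z b)) := by
          intro a haF
          have hm := (Finset.mem_filter.1 haF)
          have hz : Z a = Z b := ((Prod.mk.inj hm.2.1).2).symm
          have e : Ent_n s XYZ (XYZ a) = F.card := by
            unfold Ent_n
            congr 2
            rw [hF]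
            ext a'
            simp only [Finset.mem_filter, hXYZ, hXZ, hYZ, Prod.mk.injEq]
            have hx : X a = X b := ((Prod.mk.inj hm.2.1).1).symm
            have hy : Y a = Y c := ((Prod.mk.inj hm.2.2).1).symm
            rw [hx, hy, hz, hcz]
            constructor
            · rintro ⟨h0, h1, h2, h3⟩
              exact ⟨h0, ⟨h1.symm, h3.symm⟩, h2.symm, h3.symm⟩
            · rintro ⟨h0, ⟨h1, h3⟩, h2, _⟩
              exact ⟨h0, h1.symm, h2.symm, h3.symm⟩
          rw [e, hz, one_div, mul_inv]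
          simp only [one_div]
        rw [Finset.sum_congr rfl hFeq, Finset.sum_const, nsmul_eq_mul]
        have hFc : (0 : ℝ) < F.card := by exact_mod_cast Finset.card_pos.2 ⟨a0, ha0⟩
        rw [← mul_assoc, mul_one_div_cancel hFc.ne', one_mul]
      · rw [Finset.not_nonempty_iff_eq_empty] at hF0
        rw [hF0, Finset.sum_empty]
        split_ifs
        · positivity
        · exact le_refl _
    refine le_trans (Finset.sum_le_sum hc) ?_
    rw [← Finset.sum_filter, Finset.sum_const, nsmul_eq_mul]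
    have e : ((s.filter (fun c => Z c = Z b)).card : ℝ) = Ent_n s Z (Z b) := by
      unfold Ent_n
      congr!
    rw [e, mul_one_div, div_self hnz.ne']
  refine le_trans (Finset.sum_le_sum hb) ?_
  simp

theorem ent_pair_le {α β γ : Type} (s : Finset α) (X : α → β) (Y : α → γ) :
    ent s (fun a => (X a, Y a)) ≤ ent s X + ent s Y := by
  have h := ent_submod s X Y (fun _ => ())
  have e1 : ent s (fun a => (X a, Y a, ())) = ent s (fun a => (X a, Y a)) := by
    apply ent_congr
    intro a _ a' _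
    simp
  have e2 : ent s (fun a => (X a, ())) = ent s X := by
    apply ent_congr
    intro a _ a' _
    simp
  have e3 : ent s (fun a => (Y a, ())) = ent s Y := by
    apply ent_congr
    intro a _ a' _
    simp
  have h0 := ent_nonneg s (fun _ : α => ())
  rw [e1, e2, e3] at h
  linarith

/-- invariance under a bijection of `s` -/
theorem ent_comp {α β : Type} (s : Finset α) (T : α → α) (hT : ∀ a ∈ s, T a ∈ s)
    (hi : ∀ a ∈ s, ∀ a' ∈ s, T a = T a' → a = a') (X : α → β) : ent s (fun a => X (T a)) = ent s X := by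
  classical
  have hinj : Set.InjOn T (s : Set α) := fun a ha a' ha' h => hi a ha a' ha' h
  have himg : s.image T = s := by
    apply Finset.eq_of_subset_of_card_le
    · intro b hb
      obtain ⟨a, ha, rfl⟩ := Finset.mem_image.1 hb
      exact hT a ha
    · rw [Finset.card_image_of_injOn hinj]
  rw [Ent_def, Ent_def]
  congr 1
  have hn : ∀ x, Ent_n s (fun a => X (T a)) x = Ent_n s X x := by
    intro x
    unfold Ent_n
    congr 1
    have : s.filter (fun b => X b = x) = (s.filter (fun a => X (T a) = x)).image T := by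
      ext b
      simp only [Finset.mem_filter, Finset.mem_image]
      constructor
      · rintro ⟨hb, hx⟩
        rw [← himg] at hb
        obtain ⟨a, ha, rfl⟩ := Finset.mem_image.1 hb
        exact ⟨a, ⟨ha, hx⟩, rfl⟩
      · rintro ⟨a, ⟨ha, hx⟩, rfl⟩
        exact ⟨hT a ha, hx⟩
    rw [this, Finset.card_image_of_injOn (hinj.mono (by
      intro a ha
      exact (Finset.mem_filter.1 ha).1))]
  simp only [hn]
  conv_rhs => rw [← himg]
  rw [Finset.sum_image hinj]
  simp only [himg]

theorem ent_restrict {α β : Type} (s s' : Finset α) (hs : s' ⊆ s) (X : α → β) :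
    ((s'.card : ℝ) / s.card) * ent s' X ≤ ent s X := by
  classical
  rcases s'.eq_empty_or_nonempty with h0 | h0
  · subst h0
    simp
    exact ent_nonneg _ _
  obtain ⟨a0, ha0⟩ := h0
  have hc' : (0 : ℝ) < s'.card := Ent_card_pos s' ha0
  have hc : (0 : ℝ) < s.card := Ent_card_pos s (hs ha0)
  have hg := ent_gibbs s' X (fun x => Ent_n s X x / s.card)
    (fun a ha => div_pos (Ent_n_pos s X (hs ha)) hc) (by
      rw [← Finset.sum_div, div_le_one hc]
      have h1 : ∑ x ∈ s'.image X, Ent_n s X x ≤ ∑ x ∈ s.image X, Ent_n s X x := by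
        apply Finset.sum_le_sum_of_subset_of_nonneg
        · exact Finset.image_subset_image hs
        · intro x _ _
          exact Ent_n_nonneg s X x
      have h2 : ∑ x ∈ s.image X, Ent_n s X x = s.card := by
        unfold Ent_n
        rw [Finset.card_eq_sum_card_image X s]
        push_cast
        apply Finset.sum_congr rfl
        intro x _
        congr!
      have h3 : ∑ x ∈ s'.image X, Ent_n s X x ≤ s.card := by rw [← h2]; exact h1
      refine le_trans (le_of_eq ?_) h3
      congr!)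
  have hg2 : ((s'.card : ℝ) / s.card) * ent s' X ≤
      ((s'.card : ℝ) / s.card) * ((∑ a ∈ s', -Real.log (Ent_n s X (X a) / s.card)) / s'.card) :=
    mul_le_mul_of_nonneg_left hg (by positivity)
  refine le_trans hg2 ?_
  rw [Ent_def]
  have e : ((s'.card : ℝ) / s.card) * ((∑ a ∈ s', -Real.log (Ent_n s X (X a) / s.card)) / s'.card) =
      (∑ a ∈ s', -Real.log (Ent_n s X (X a) / s.card)) / s.card := by
    field_simp
  rw [e]
  apply div_le_div_of_nonneg_right _ hc.le
  have e2 : ∀ a ∈ s', -Real.log (Ent_n s X (X a) / s.card) = Real.log (s.card / Ent_n s X (X a)) := by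
    intro a ha
    rw [← Real.log_inv, inv_div]
  rw [Finset.sum_congr rfl e2]
  apply Finset.sum_le_sum_of_subset_of_nonneg hs
  intro a ha _
  exact Ent_term_nonneg s X ha

/-- lower bound from a bound on the fibres in a large subset -/
theorem ent_ge {α β : Type} (s s' : Finset α) (hs : s' ⊆ s) (hs' : s'.Nonempty) (X : α → β) (κ : ℝ)
    (hκ : 0 < κ) (h : open Classical in ∀ a ∈ s', ((s'.filter (fun a' => X a' = X a)).card : ℝ) ≤ κ * s.card) :
    ((s'.card : ℝ) / s.card) * (Real.log (1 / κ) + Real.log ((s'.card : ℝ) / s.card)) ≤ ent s X := by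
  obtain ⟨a0, ha0⟩ := hs'
  have hc' : (0 : ℝ) < s'.card := Ent_card_pos s' ha0
  have hc : (0 : ℝ) < s.card := Ent_card_pos s (hs ha0)
  refine le_trans ?_ (ent_restrict s s' hs X)
  apply mul_le_mul_of_nonneg_left _ (by positivity)
  rw [Ent_def, le_div_iff₀ hc', mul_comm, ← nsmul_eq_mul, ← Finset.sum_const]
  apply Finset.sum_le_sum
  intro a ha
  have hn := Ent_n_pos s' X ha
  rw [← Real.log_mul (by positivity) (by positivity)]
  apply Real.log_le_log (by positivity)
  have h1 : Ent_n s' X (X a) ≤ κ * s.card := h a ha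
  have e : 1 / κ * ((s'.card : ℝ) / s.card) = s'.card / (κ * s.card) := by
    field_simp
  rw [e]
  exact div_le_div_of_nonneg_left hc'.le hn h1

end Pool.Agent.FCH
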