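import Pool.Agent.FCH.Sus
import Pool.Agent.FCH.Ent

set_option autoImplicit false

/-! Module SyE: entropy of the symbol.  `ent_gibbs` with `q(x) = (1/(4 k q⁴)) · (c/(x.digit + 1)²)`: `∑ q ≤ 1` over the possible symbols (`F` takes at most `k` values), `-log q = log(C) + 2 log(digit + 1)`;
the digit is `0` unless `ω` is a top point, one for each adjacent pair: `∑_ω log(digit+1) ≤ ∑_{adj} log(kq + 2) ≤ ∑_{adj} (kq + 2) ≤ ∑_{w} (2√m/|w| + 2) ≤ C m` (`∑_{0 < N(w) ≤ m} 1/|w| ≤ C √m`), `#Om ≥ c m`.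
`sy_next`: the label at `T ω` is determined by the symbol and the label at `ω`: if the digit is `0` the pair does not change; otherwise `(v,w) → (w, kw - v)`, and `[w : kw - v]` depends only on `[v : w]` and `k`.
`yo_lt`: `yv p v w ≤ p` for `(v,w)` with `det = 1`: if `π ∤ w` there is exactly one `λ < p` with `π ∣ v - λ w` (`ℤ/p ≅ GI/π`). -/

open Finset

namespace Pool.Agent.FCH

open Pool.Agent.MRS hiding Good

/-- linear form mod `p` detecting divisibility by `gpi p` -/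
theorem SyE_form {p : ℕ} (hp : p.Prime) (h4 : p % 4 = 1) :
    ∃ s : ℤ, ∀ z : GI, gpi p ∣ z ↔ (p : ℤ) ∣ z.re + s * z.im := by
  obtain ⟨hPP, hnm⟩ := gpi_spec hp h4
  set π := gpi p with hπ
  have hpi : Prime (p : ℤ) := Nat.prime_iff_prime_int.mp hp
  have hN : (p : ℤ) = π.re ^ 2 + π.im ^ 2 := by rw [← hnm]; exact nm_int π
  have hppos : 0 < (p : ℤ) := by exact_mod_cast hp.pos
  have hre : 0 < π.re := hPP.2.1
  have him : 0 < π.im := hPP.2.2.1
  have hny : ¬ (p : ℤ) ∣ π.im := by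
    intro h
    have h1 := Int.le_of_dvd him h
    nlinarith
  have hcop : IsCoprime (π.im) (p : ℤ) := by
    have := (Prime.coprime_iff_not_dvd hpi).mpr hny
    exact this.symm
  obtain ⟨u, t, hut⟩ := hcop
  -- u * im + t * p = 1
  set s : ℤ := -π.re * u with hs
  have hxy : (p : ℤ) ∣ π.re + s * π.im := by
    refine ⟨π.re * t, ?_⟩
    rw [hs]
    linear_combination (-π.re) * hut
  have hy2 : (p : ℤ) ∣ (s ^ 2 + 1) * π.im ^ 2 := by
    obtain ⟨c, hc⟩ := hxy
    refine ⟨1 + c * (s * π.im - π.re), ?_⟩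
    have h1 : s * π.im = p * c - π.re := by linear_combination hc
    have : (s ^ 2 + 1) * π.im ^ 2 = (s * π.im) ^ 2 + π.im ^ 2 := by ring
    rw [this]
    have h2 : π.im ^ 2 = p - π.re ^ 2 := by rw [hN]; ring
    rw [h2]
    linear_combination (s * π.im - π.re) * hc
  have hs2 : (p : ℤ) ∣ s ^ 2 + 1 := by
    rcases hpi.dvd_or_dvd hy2 with h | h
    · exact h
    · exact absurd (hpi.dvd_of_dvd_pow h) hny
  have hfor : ∀ z : GI, π ∣ z → (p : ℤ) ∣ z.re + s * z.im := by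
    rintro z ⟨w, rfl⟩
    obtain ⟨c, hc⟩ := hxy
    obtain ⟨d, hd⟩ := hs2
    simp only [Zsqrtd.re_mul, Zsqrtd.im_mul]
    refine ⟨w.re * c + w.im * (s * c - d * π.im), ?_⟩
    linear_combination (w.re + w.im * s) * hc - w.im * π.im * hd
  have hprime : Prime π := PP_prime hPP
  have hpdvd : π ∣ ((p : ℤ) : GI) := by
    refine ⟨star π, ?_⟩
    rw [BAS_mul_star, hnm]
    norm_cast
  have hI : π ∣ (⟨-s, 1⟩ : GI) := by
    have h1 : π ∣ (⟨-s, 1⟩ : GI) * (⟨s, 1⟩ : GI) := by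
      obtain ⟨d, hd⟩ := hs2
      have h2 : (⟨-s, 1⟩ : GI) * (⟨s, 1⟩ : GI) = ((p : ℤ) : GI) * ((-d : ℤ) : GI) := by
        ext
        · simp only [Zsqrtd.re_mul, Zsqrtd.re_intCast, Zsqrtd.im_intCast]
          linear_combination -hd
        · simp only [Zsqrtd.im_mul, Zsqrtd.re_intCast, Zsqrtd.im_intCast]
          ring
      rw [h2]
      exact Dvd.dvd.mul_right hpdvd _
    rcases hprime.dvd_or_dvd h1 with h | h
    · exact h
    · exfalso
      have h3 := hfor _ h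
      simp only [mul_one] at h3
      have h4' : (p : ℤ) ∣ 2 * s := by
        have : s + s = 2 * s := by ring
        rwa [this] at h3
      rcases hpi.dvd_or_dvd h4' with h5 | h5
      · have h6 := Int.le_of_dvd (by norm_num) h5
        have h7 : p ≤ 2 := by exact_mod_cast h6
        have h8 := hp.two_le
        have : p = 2 := le_antisymm h7 h8
        rw [this] at h4
        norm_num at h4
      · have h6 : (p : ℤ) ∣ s ^ 2 := dvd_pow h5 (by norm_num)
        have h7 : (p : ℤ) ∣ 1 := by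
          have := dvd_sub hs2 h6
          simpa using this
        exact hpi.not_isUnit (isUnit_of_dvd_one h7)
  refine ⟨s, fun z => ⟨hfor z, ?_⟩⟩
  rintro ⟨c, hc⟩
  have : z = ((p : ℤ) : GI) * (c : GI) + (⟨-s, 1⟩ : GI) * ((z.im : ℤ) : GI) := by
    ext
    · simp only [Zsqrtd.re_add, Zsqrtd.re_mul, Zsqrtd.re_intCast, Zsqrtd.im_intCast]
      linear_combination hc
    · simp only [Zsqrtd.im_add, Zsqrtd.im_mul, Zsqrtd.re_intCast, Zsqrtd.im_intCast]
      ring
  rw [this]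
  exact dvd_add (Dvd.dvd.mul_right hpdvd _) (Dvd.dvd.mul_right hI _)

theorem SyE_int {p : ℕ} (hp : p.Prime) (h4 : p % 4 = 1) (n : ℤ) : gpi p ∣ (n : GI) ↔ (p : ℤ) ∣ n := by
  obtain ⟨s, hs⟩ := SyE_form hp h4
  rw [hs]
  simp

/-- existence of the label -/
theorem SyE_ex {p : ℕ} (hp : p.Prime) (h4 : p % 4 = 1) {v w : GI} (hw : ¬ gpi p ∣ w) :
    ∃ l : ℕ, l < p ∧ gpi p ∣ v - (l : GI) * w := by
  obtain ⟨s, hs⟩ := SyE_form hp h4
  have hpi : Prime (p : ℤ) := Nat.prime_iff_prime_int.mp hp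
  rw [hs] at hw
  have hcop : IsCoprime (w.re + s * w.im) (p : ℤ) :=
    ((Prime.coprime_iff_not_dvd hpi).mpr hw).symm
  obtain ⟨u, t, hut⟩ := hcop
  have hppos : 0 < (p : ℤ) := by exact_mod_cast hp.pos
  set a : ℤ := v.re + s * v.im with ha
  set l : ℤ := (a * u) % p with hl
  have hl0 : 0 ≤ l := Int.emod_nonneg _ hppos.ne'
  have hlp : l < p := Int.emod_lt_of_pos _ hppos
  refine ⟨l.toNat, by omega, ?_⟩
  rw [hs]
  have hc : ((l.toNat : ℕ) : ℤ) = l := Int.toNat_of_nonneg hl0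
  have hre : (v - (l.toNat : GI) * w).re = v.re - l * w.re := by
    simp [Zsqrtd.re_mul, hc]
  have him : (v - (l.toNat : GI) * w).im = v.im - l * w.im := by
    simp [Zsqrtd.im_mul, hc]
  rw [hre, him]
  have h1 : l = a * u - p * (a * u / p) := by
    have := Int.emod_add_mul_ediv (a * u) p
    rw [hl]; linarith
  refine ⟨a * t + (a * u / p) * (w.re + s * w.im), ?_⟩
  rw [h1]
  linear_combination (-a) * hut + ha * 0

theorem SyE_yv_lt {p : ℕ} (hp : p.Prime) (h4 : p % 4 = 1) {v w : GI} (hw : ¬ gpi p ∣ w) :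
    yv p v w < p ∧ gpi p ∣ v - ((yv p v w : ℕ) : GI) * w := by
  obtain ⟨l, hl, hd⟩ := SyE_ex hp h4 (v := v) hw
  unfold yv
  rw [if_neg hw]
  constructor
  · exact lt_of_le_of_lt (Nat.sInf_le hd) hl
  · exact Nat.sInf_mem (s := {l : ℕ | gpi p ∣ v - (l : GI) * w}) ⟨l, hd⟩

theorem SyE_yv_eq {p : ℕ} {v w : GI} (hw : gpi p ∣ w) : yv p v w = p := by
  unfold yv
  rw [if_pos hw]

theorem yo_lt {p : ℕ} (hp : p.Prime) (h4 : p % 4 = 1) {m : ℕ} {ω : GI × GI × ℕ} (h : ω ∈ Om m) :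
    yo ω p < p + 1 := by
  unfold yo
  by_cases hw : gpi p ∣ ω.2.1
  · rw [SyE_yv_eq hw]; omega
  · have := (SyE_yv_lt hp h4 (v := ω.1) hw).1
    omega

/-- `π ∣ α v + β w` in terms of the label -/
theorem yv_dvd {p : ℕ} (hp : p.Prime) (h4 : p % 4 = 1) {v w : GI} (h : dt v w = 1) (α β : ℤ) :
    gpi p ∣ (α : GI) * v + (β : GI) * w ↔
      ((yv p v w = p ∧ (p : ℤ) ∣ α) ∨ (yv p v w < p ∧ (p : ℤ) ∣ α * yv p v w + β)) := by
  have hprime : Prime (gpi p) := PP_prime (gpi_spec hp h4).1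
  by_cases hw : gpi p ∣ w
  · rw [SyE_yv_eq hw]
    have h1 : gpi p ∣ (α : GI) * v + (β : GI) * w ↔ gpi p ∣ (α : GI) * v :=
      (dvd_add_left (Dvd.dvd.mul_left hw _))
    have hv : ¬ gpi p ∣ v := by
      intro hv
      obtain ⟨s, hs⟩ := SyE_form hp h4
      rw [hs] at hv hw
      obtain ⟨c, hc⟩ := hv
      obtain ⟨d, hd⟩ := hw
      have hpi : Prime (p : ℤ) := Nat.prime_iff_prime_int.mp hp
      have : (p : ℤ) ∣ 1 := by
        refine ⟨c * w.im - d * v.im, ?_⟩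
        unfold dt at h
        linear_combination w.im * hc - v.im * hd - h
      exact hpi.not_isUnit (isUnit_of_dvd_one this)
    rw [h1]
    constructor
    · intro h2
      left
      refine ⟨rfl, ?_⟩
      rcases hprime.dvd_or_dvd h2 with h3 | h3
      · exact (SyE_int hp h4 α).mp h3
      · exact absurd h3 hv
    · rintro (⟨-, h2⟩ | ⟨h2, -⟩)
      · exact Dvd.dvd.mul_right ((SyE_int hp h4 α).mpr h2) _
      · omega
  · obtain ⟨hlt, hd⟩ := SyE_yv_lt hp h4 (v := v) hw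
    have h1 : (α : GI) * v + (β : GI) * w =
        (α : GI) * (v - ((yv p v w : ℕ) : GI) * w) + ((α * (yv p v w : ℤ) + β : ℤ) : GI) * w := by
      push_cast
      ring
    rw [h1, dvd_add_right (Dvd.dvd.mul_left hd _)]
    constructor
    · intro h2
      right
      refine ⟨hlt, ?_⟩
      rcases hprime.dvd_or_dvd h2 with h3 | h3
      · exact (SyE_int hp h4 _).mp h3
      · exact absurd h3 hw
    · rintro (⟨h2, -⟩ | ⟨-, h2⟩)
      · omega
      · exact Dvd.dvd.mul_right ((SyE_int hp h4 _).mpr h2) _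

theorem SyE_yv_congr {p : ℕ} (hp : p.Prime) (h4 : p % 4 = 1) {v w v' w' : GI} (h : dt v w = 1)
    (h' : dt v' w' = 1) (he : yv p v w = yv p v' w') (k : ℕ) :
    yv p w ((k : GI) * w - v) = yv p w' ((k : GI) * w' - v') := by
  have h0 : (gpi p ∣ (k : GI) * w - v) ↔ (gpi p ∣ (k : GI) * w' - v') := by
    have e : ∀ a b : GI, (k : GI) * b - a = ((-1 : ℤ) : GI) * a + ((k : ℤ) : GI) * b := by
      intro a b; push_cast; ring
    rw [e v w, e v' w', yv_dvd hp h4 h, yv_dvd hp h4 h', he]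
  have h1 : ∀ l : ℕ, (gpi p ∣ w - (l : GI) * ((k : GI) * w - v)) ↔
      (gpi p ∣ w' - (l : GI) * ((k : GI) * w' - v')) := by
    intro l
    have e : ∀ a b : GI, b - (l : GI) * ((k : GI) * b - a) =
        ((l : ℤ) : GI) * a + ((1 - l * k : ℤ) : GI) * b := by
      intro a b; push_cast; ring
    rw [e v w, e v' w', yv_dvd hp h4 h, yv_dvd hp h4 h', he]
  unfold yv
  have h2 : {l : ℕ | gpi p ∣ w - (l : GI) * ((k : GI) * w - v)} =
      {l : ℕ | gpi p ∣ w' - (l : GI) * ((k : GI) * w' - v')} := by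
    ext l
    exact h1 l
  rw [h2]
  by_cases h3 : gpi p ∣ (k : GI) * w - v
  · rw [if_pos h3, if_pos (h0.mp h3)]
  · rw [if_neg h3, if_neg (fun h => h3 (h0.mpr h))]

theorem sy_next {p : ℕ} (hp : p.Prime) (h4 : p % 4 = 1) (F : GI → ℂ) (b : ℝ) (q m : ℕ)
    {ω ω' : GI × GI × ℕ} (h : ω ∈ Om m) (h' : ω' ∈ Om m) (hs : sy F b q m ω = sy F b q m ω')
    (hy : yo ω p = yo ω' p) : yo (Tm m ω) p = yo (Tm m ω') p := by
  have hd : (if ω.2.2 + 1 < rf m ω.1 ω.2.1 then 0 else kq m ω.1 ω.2.1 + 1) =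
      (if ω'.2.2 + 1 < rf m ω'.1 ω'.2.1 then 0 else kq m ω'.1 ω'.2.1 + 1) := by
    unfold sy at hs
    simp only [Prod.mk.injEq] at hs
    exact hs.2.2.2.2
  have ha := (mem_adj.mp (mem_Om.mp h).1).2.1
  have ha' := (mem_adj.mp (mem_Om.mp h').1).2.1
  unfold yo at hy ⊢
  unfold Tm
  by_cases h1 : ω.2.2 + 1 < rf m ω.1 ω.2.1
  · by_cases h2 : ω'.2.2 + 1 < rf m ω'.1 ω'.2.1
    · rw [if_pos h1, if_pos h2]
      exact hy
    · rw [if_pos h1, if_neg h2] at hd
      omega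
  · by_cases h2 : ω'.2.2 + 1 < rf m ω'.1 ω'.2.1
    · rw [if_neg h1, if_pos h2] at hd
      omega
    · rw [if_neg h1, if_neg h2] at hd ⊢
      have hk : kq m ω.1 ω.2.1 = kq m ω'.1 ω'.2.1 := by omega
      simp only []
      rw [hk]
      exact SyE_yv_congr hp h4 ha ha' hy _

/-- the weight used in the Gibbs inequality -/
noncomputable def SyE_w (k q : ℕ) (x : ℂ × Bool × (ℤ × ℤ × ℤ × ℤ) × Bool × ℕ) : ℝ :=
  (1 / (4 * (k : ℝ) * (q : ℝ) ^ 4)) * (1 / (((x.2.2.2.2 : ℝ) + 1) * ((x.2.2.2.2 : ℝ) + 2)))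

theorem SyE_tel (N : ℕ) : ∑ d ∈ range N, (1 : ℝ) / (((d : ℝ) + 1) * ((d : ℝ) + 2)) = 1 - 1 / ((N : ℝ) + 1) := by
  induction N with
  | zero => simp
  | succ n ih =>
    rw [sum_range_succ, ih]
    have h1 : (n : ℝ) + 1 ≠ 0 := by positivity
    have h2 : (n : ℝ) + 2 ≠ 0 := by positivity
    push_cast
    have h3 : (n : ℝ) + 1 + 1 ≠ 0 := by positivity
    field_simp
    ring

/-- digit -/
noncomputable def SyE_d (m : ℕ) (ω : GI × GI × ℕ) : ℕ :=
  if ω.2.2 + 1 < rf m ω.1 ω.2.1 then 0 else kq m ω.1 ω.2.1 + 1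

theorem SyE_dsum : ∃ C : ℝ, 0 < C ∧ ∀ m : ℕ, 1 ≤ m → ∑ ω ∈ Om m, (SyE_d m ω : ℝ) ≤ C * m := by
  classical
  obtain ⟨c1, C1, hc1, hC1, hadj⟩ := adj_card
  obtain ⟨C2, hC2, hsum⟩ := adj_sum
  refine ⟨C1 + 2 * C2, by positivity, ?_⟩
  intro m hm
  have hm0 : (0 : ℝ) < m := by exact_mod_cast hm
  have hinj : Set.InjOn (fun ω : GI × GI × ℕ => (ω.1, ω.2.1))
      ((Om m).filter (fun ω => ¬ ω.2.2 + 1 < rf m ω.1 ω.2.1) : Finset (GI × GI × ℕ)) := by
    intro ω hω ω' hω' he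
    rw [mem_coe, mem_filter] at hω hω'
    obtain ⟨v, w, t⟩ := ω
    obtain ⟨v', w', t'⟩ := ω'
    simp only [Prod.mk.injEq] at he
    obtain ⟨rfl, rfl⟩ := he
    have h1 := (mem_Om.mp hω.1).2
    have h2 := (mem_Om.mp hω'.1).2
    have h3 := hω.2
    have h4 := hω'.2
    simp only [] at h1 h2 h3 h4
    have : t = t' := by omega
    rw [this]
  calc ∑ ω ∈ Om m, (SyE_d m ω : ℝ)
      = ∑ ω ∈ (Om m).filter (fun ω => ¬ ω.2.2 + 1 < rf m ω.1 ω.2.1), (SyE_d m ω : ℝ) := by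
        symm
        apply sum_subset (filter_subset _ _)
        intro ω h1 h2
        rw [mem_filter, not_and, not_not] at h2
        unfold SyE_d
        rw [if_pos (h2 h1)]
        simp
    _ = ∑ ω ∈ (Om m).filter (fun ω => ¬ ω.2.2 + 1 < rf m ω.1 ω.2.1),
          (fun e : GI × GI => (kq m e.1 e.2 : ℝ) + 1) (ω.1, ω.2.1) := by
        apply sum_congr rfl
        intro ω h1
        rw [mem_filter] at h1
        unfold SyE_d
        rw [if_neg h1.2]
        push_cast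
        rfl
    _ = ∑ e ∈ ((Om m).filter (fun ω => ¬ ω.2.2 + 1 < rf m ω.1 ω.2.1)).image
          (fun ω : GI × GI × ℕ => (ω.1, ω.2.1)), ((kq m e.1 e.2 : ℝ) + 1) := by
        rw [sum_image hinj]
    _ ≤ ∑ e ∈ adj m, ((kq m e.1 e.2 : ℝ) + 1) := by
        apply sum_le_sum_of_subset_of_nonneg
        · intro e he
          rw [mem_image] at he
          obtain ⟨ω, h1, rfl⟩ := he
          rw [mem_filter] at h1
          exact (mem_Om.mp h1.1).1
        · intro e _ _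
          positivity
    _ = ∑ e ∈ adj m, (kq m e.1 e.2 : ℝ) + (adj m).card := by
        rw [sum_add_distrib]
        simp
    _ ≤ ∑ e ∈ adj m, 2 * m * (1 / √((nm e.1 : ℝ) * nm e.2)) + C1 * m := by
        apply add_le_add
        · apply sum_le_sum
          rintro ⟨v, w⟩ he
          have h1 := (kq_spec he).2.2
          have h2 := mem_adj.mp he
          have hv : (nm v : ℝ) ≤ m := by exact_mod_cast h2.1.1
          have hd := h2.2.1
          have hv0 : v ≠ 0 := by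
            rintro rfl
            simp [dt] at hd
          have hw0 : w ≠ 0 := by
            rintro rfl
            simp [dt] at hd
          have hv1 : (0 : ℝ) < nm v := by exact_mod_cast nm_pos hv0
          have hw1 : (0 : ℝ) < nm w := by exact_mod_cast nm_pos hw0
          simp only []
          rw [Real.sqrt_mul hv1.le, mul_one_div, le_div_iff₀ (by positivity)]
          have h3 : √(nm v : ℝ) ≤ √(m : ℝ) := Real.sqrt_le_sqrt hv
          have h4 : √(m : ℝ) * √(m : ℝ) = m := Real.mul_self_sqrt hm0.le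
          calc (kq m v w : ℝ) * (√(nm v : ℝ) * √(nm w : ℝ))
              = ((kq m v w : ℝ) * √(nm w : ℝ)) * √(nm v : ℝ) := by ring
            _ ≤ (2 * √(m : ℝ)) * √(m : ℝ) := by
                apply mul_le_mul h1 h3 (Real.sqrt_nonneg _) (by positivity)
            _ = 2 * m := by rw [mul_assoc, h4]
        · exact (hadj m hm).2
    _ ≤ 2 * m * C2 + C1 * m := by
        rw [← mul_sum]
        have := hsum m hm
        gcongr
    _ = (C1 + 2 * C2) * m := by ring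

theorem sy_ent (k : ℕ) (q : ℕ) (hk : 1 ≤ k) (hq : 1 ≤ q) : ∃ E : ℝ, 0 < E ∧ ∀ (b : ℝ) (F : GI → ℂ),
    (∃ V : Finset ℂ, V.card ≤ k ∧ ∀ z, F z ∈ V) → ∀ m : ℕ, 1 ≤ m → ent (Om m) (sy F b q m) ≤ E := by
  classical
  obtain ⟨c, C, hc, hC, hOm⟩ := Om_card
  obtain ⟨C3, hC3, hd⟩ := SyE_dsum
  have hk0 : (1 : ℝ) ≤ k := by exact_mod_cast hk
  have hq0 : (1 : ℝ) ≤ q := by exact_mod_cast hq
  have hM : (1 : ℝ) ≤ 4 * (k : ℝ) * (q : ℝ) ^ 4 := by
    have : (1 : ℝ) ≤ (q : ℝ) ^ 4 := one_le_pow₀ hq0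
    nlinarith
  refine ⟨Real.log (4 * (k : ℝ) * (q : ℝ) ^ 4) + 1 + 2 * (C3 / c), ?_, ?_⟩
  · have := Real.log_nonneg hM
    positivity
  intro b F hV m hm
  obtain ⟨V, hVc, hVF⟩ := hV
  have hm0 : (0 : ℝ) < m := by exact_mod_cast hm
  have hOm1 := (hOm m hm).1
  have hOm0 : (0 : ℝ) < (Om m).card := lt_of_lt_of_le (by positivity) hOm1
  have hwpos : ∀ x, 0 < SyE_w k q x := by
    intro x
    unfold SyE_w
    have : 0 < 4 * (k : ℝ) * (q : ℝ) ^ 4 := lt_of_lt_of_le one_pos hM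
    positivity
  have hG := ent_gibbs (Om m) (sy F b q m) (SyE_w k q) (fun a _ => hwpos _) (by
    -- sum over the image at most 1
    let D : ℕ := 2 * m + 2
    let B : Finset (ℂ × Bool × (ℤ × ℤ × ℤ × ℤ) × Bool × ℕ) :=
      V ×ˢ ((Finset.univ : Finset Bool) ×ˢ
        (((Ico (0 : ℤ) q) ×ˢ ((Ico (0 : ℤ) q) ×ˢ ((Ico (0 : ℤ) q) ×ˢ (Ico (0 : ℤ) q)))) ×ˢ
          ((Finset.univ : Finset Bool) ×ˢ (range D))))
    have hsub : (Om m).image (sy F b q m) ⊆ B := by
      intro x hx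
      rw [mem_image] at hx
      obtain ⟨ω, hω, rfl⟩ := hx
      have hq1 : (0 : ℤ) < q := by exact_mod_cast hq
      have hmod : ∀ z : ℤ, z % q ∈ Ico (0 : ℤ) q := by
        intro z
        rw [mem_Ico]
        exact ⟨Int.emod_nonneg _ hq1.ne', Int.emod_lt_of_pos _ hq1⟩
      have hdig : (if ω.2.2 + 1 < rf m ω.1 ω.2.1 then 0 else kq m ω.1 ω.2.1 + 1) < D := by
        split_ifs with h1
        · simp only [D]; omega
        · have : kq m ω.1 ω.2.1 ≤ 2 * m := by
            unfold kq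
            exact Nat.findGreatest_le _
          simp only [D]; omega
      simp only [B, sy, mem_product, mem_univ, true_and, mem_range]
      exact ⟨hVF _, ⟨hmod _, hmod _, hmod _, hmod _⟩, hdig⟩
    calc ∑ x ∈ (Om m).image (sy F b q m), SyE_w k q x
        ≤ ∑ x ∈ B, SyE_w k q x :=
          sum_le_sum_of_subset_of_nonneg hsub (fun x _ _ => (hwpos x).le)
      _ = (V.card : ℝ) * (2 * (((q : ℝ) ^ 4) * (2 * ∑ d ∈ range D,
            (1 / (4 * (k : ℝ) * (q : ℝ) ^ 4)) * (1 / (((d : ℝ) + 1) * ((d : ℝ) + 2)))))) := by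
          simp only [B, SyE_w, sum_product, sum_const, card_univ, Fintype.card_bool, nsmul_eq_mul,
            card_product, Int.card_Ico, sub_zero, Int.toNat_natCast, Nat.cast_ofNat, Nat.cast_mul]
          ring
      _ = ((V.card : ℝ) / k) * ∑ d ∈ range D, (1 / (((d : ℝ) + 1) * ((d : ℝ) + 2))) := by
          rw [← mul_sum]
          field_simp
          ring
      _ ≤ 1 * 1 := by
          apply mul_le_mul
          · rw [div_le_one (by linarith)]
            exact_mod_cast hVc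
          · rw [SyE_tel]
            have : (0 : ℝ) ≤ 1 / ((D : ℝ) + 1) := by positivity
            linarith
          · apply sum_nonneg
            intro d _
            positivity
          · norm_num
      _ = 1 := by norm_num)
  refine hG.trans ?_
  rw [div_le_iff₀ hOm0]
  have hlog : ∀ ω ∈ Om m, -Real.log (SyE_w k q (sy F b q m ω)) ≤
      (Real.log (4 * (k : ℝ) * (q : ℝ) ^ 4) + 1) + 2 * (SyE_d m ω : ℝ) := by
    intro ω hω
    have h1 : (sy F b q m ω).2.2.2.2 = SyE_d m ω := rfl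
    unfold SyE_w
    rw [h1]
    set d : ℝ := (SyE_d m ω : ℝ) with hdd
    have hd0 : 0 ≤ d := by positivity
    have hM0 : 0 < 4 * (k : ℝ) * (q : ℝ) ^ 4 := lt_of_lt_of_le one_pos hM
    have h4 : Real.log ((d + 1) * (d + 2)) = Real.log (d + 1) + Real.log (d + 2) :=
      Real.log_mul (by positivity) (by positivity)
    rw [Real.log_mul (by positivity) (by positivity), Real.log_div (by norm_num) hM0.ne',
      Real.log_div (by norm_num) (by positivity), Real.log_one, h4]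
    have h2 := Real.log_le_sub_one_of_pos (show (0 : ℝ) < d + 1 by positivity)
    have h3 := Real.log_le_sub_one_of_pos (show (0 : ℝ) < d + 2 by positivity)
    linarith
  calc ∑ a ∈ Om m, -Real.log (SyE_w k q (sy F b q m a))
      ≤ ∑ a ∈ Om m, ((Real.log (4 * (k : ℝ) * (q : ℝ) ^ 4) + 1) + 2 * (SyE_d m a : ℝ)) :=
        sum_le_sum hlog
    _ = (Om m).card * (Real.log (4 * (k : ℝ) * (q : ℝ) ^ 4) + 1) + 2 * ∑ a ∈ Om m, (SyE_d m a : ℝ) := by
        rw [sum_add_distrib, sum_const, nsmul_eq_mul, ← mul_sum]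
    _ ≤ (Om m).card * (Real.log (4 * (k : ℝ) * (q : ℝ) ^ 4) + 1) + 2 * (C3 * m) := by
        have := hd m hm
        linarith
    _ ≤ (Real.log (4 * (k : ℝ) * (q : ℝ) ^ 4) + 1 + 2 * (C3 / c)) * (Om m).card := by
        have h1 : C3 * m ≤ (C3 / c) * (Om m).card := by
          calc C3 * m = (C3 / c) * (c * m) := by field_simp
            _ ≤ (C3 / c) * (Om m).card := by gcongr
        linarith

end Pool.Agent.FCH
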