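import Pool.Agent.FCH.Cov
import Pool.Agent.FCH.SyE
import Pool.Agent.FCH.Dv

set_option autoImplicit false

/-! Module Arc: equidistribution of the labels in one arc.
For `(v,w)` adjacent with slopes in `I_e`, `re > 0`: keys `x = det(v,e) ≥ 1`, `y = det(w,e) ≥ 1`; `x = re v re e (sl e - sl v) ≤ ρ √m/re e`, same for `y`: at most `ρ² m/(re e)²` keys.  `e = x w - y v`, so `gcd(x,y) = 1`, and the pairs with the same key are
`(v₀ + s x e, w₀ + s y e)`, `s ∈ ℤ`.  Labels: `[v₀ + s x e : w₀ + s y e]` mod `π`; two values `s, s'` with the same label mod `π` satisfy `π ∣ (v)(w') - (v')(w) = (s' - s)(y v₀ - x w₀) e = -(s'-s) e²`, and `π ∤ e`, so `s ≡ s' (mod p)`.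
So a label vector `y` selects at most one class of `s` mod `M = ∏ p`.
For a fixed key the admissible `s` form an interval of integers: in the cone `{re > 0, slope ∈ I_e}` (stable under `+ x e`) `ip(·, e) > 0`, so `N(v_s), N(w_s), N(v_s+w_s)` increase with `s`: the conditions are `s ≥ ..` (cone, `N > η² m`, `N(v+w) > m`) and `s ≤ ..` (`N ≤ m`).
`rf` is non-increasing in `s` and `≤ 1/η² + 1 ≤ 2/η²`.  So for each key `∑_{s ≡ s₀ (M)} rf ≤ (1/M) ∑_s rf + 2/η²`.  Sum over the keys: `≤ (1/M) #arc + (2/η²) ρ² m/(re e)²`, and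
`#arc = ∑ rf ≤ 2m ∑ 1/(|v||w|) ≤ 2m ∑ (sl w - sl v) ≤ 2 m ρ/(re e)²` (disjoint intervals in `I_e`, `sl w - sl v = 1/(re v re w)`).  Total `≤ 2mρ/(re e)² (1/M + ρ/η²) ≤ 4 m ρ/(M (re e)²)`. -/

open Finset

namespace Pool.Agent.FCH

open Pool.Agent.MRS hiding Good

/-- points of the space over the arc ending at `e`, vectors not too short -/
noncomputable def arcs (m : ℕ) (η ρ : ℝ) (e : GI) : Finset (GI × GI × ℕ) :=
  open Classical in (Om m).filter (fun ω => (0 < ω.1.re ∧ 0 < ω.2.1.re) ∧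
    (η ^ 2 * m < nm ω.1 ∧ η ^ 2 * m < nm ω.2.1) ∧
    (sl ω.1 ∈ Set.Ico (sl e - ρ / (e.re : ℝ) ^ 2) (sl e) ∧
      sl ω.2.1 ∈ Set.Ico (sl e - ρ / (e.re : ℝ) ^ 2) (sl e)))

/-- the cone `re > 0`, slope in `I_e` -/
def Arc_cone (ρ : ℝ) (e z : GI) : Prop :=
  0 < z.re ∧ sl z ∈ Set.Ico (sl e - ρ / (e.re : ℝ) ^ 2) (sl e)

/-- pairs under the space `arcs` -/
noncomputable def Arc_P (m : ℕ) (η ρ : ℝ) (e : GI) : Finset (GI × GI) :=
  open Classical in (adj m).filter (fun u => (Arc_cone ρ e u.1 ∧ Arc_cone ρ e u.2) ∧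
    (η ^ 2 * m < nm u.1 ∧ η ^ 2 * m < nm u.2))

theorem Arc_mem_P {m : ℕ} {η ρ : ℝ} {e : GI} {u : GI × GI} : u ∈ Arc_P m η ρ e ↔
    u ∈ adj m ∧ (Arc_cone ρ e u.1 ∧ Arc_cone ρ e u.2) ∧ (η ^ 2 * m < nm u.1 ∧ η ^ 2 * m < nm u.2) := by
  classical
  unfold Arc_P
  rw [mem_filter]

theorem Arc_mem_arcs {m : ℕ} {η ρ : ℝ} {e : GI} {ω : GI × GI × ℕ} : ω ∈ arcs m η ρ e ↔
    (ω.1, ω.2.1) ∈ Arc_P m η ρ e ∧ ω.2.2 < rf m ω.1 ω.2.1 := by
  classical
  unfold arcs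
  rw [mem_filter, mem_Om, Arc_mem_P]
  unfold Arc_cone
  tauto

/-- the number of points over a set of pairs -/
theorem Arc_count (m : ℕ) (η ρ : ℝ) (e : GI) (Q : GI × GI → Prop) : open Classical in
    ((arcs m η ρ e).filter (fun ω => Q (ω.1, ω.2.1))).card =
      ∑ u ∈ (Arc_P m η ρ e).filter Q, rf m u.1 u.2 := by
  classical
  have h1 : ∑ u ∈ (Arc_P m η ρ e).filter Q, rf m u.1 u.2 =
      (((Arc_P m η ρ e).filter Q).sigma (fun u => range (rf m u.1 u.2))).card := by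
    rw [card_sigma]
    apply sum_congr rfl
    intro u _
    rw [card_range]
  rw [h1]
  symm
  apply card_bij (fun (a : (_ : GI × GI) × ℕ) _ => ((a.1.1, a.1.2, a.2) : GI × GI × ℕ))
  · intro a ha
    rw [mem_sigma, mem_filter, mem_range] at ha
    rw [mem_filter, Arc_mem_arcs]
    exact ⟨⟨ha.1.1, ha.2⟩, ha.1.2⟩
  · rintro ⟨⟨a, b⟩, t⟩ _ ⟨⟨a', b'⟩, t'⟩ _ h
    simp only [Prod.mk.injEq] at h
    obtain ⟨rfl, rfl, rfl⟩ := h
    rfl
  · rintro ⟨v, w, t⟩ h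
    rw [mem_filter, Arc_mem_arcs] at h
    refine ⟨⟨(v, w), t⟩, ?_, rfl⟩
    rw [mem_sigma, mem_filter, mem_range]
    exact ⟨⟨h.1.1, h.2⟩, h.1.2⟩

theorem Arc_Pr_of_dt {v w : GI} (h : dt v w = 1) : Pr v ∧ Pr w := by
  unfold dt at h
  unfold Pr
  constructor
  · rw [← Int.isCoprime_iff_gcd_eq_one]
    exact ⟨w.im, -w.re, by linarith⟩
  · rw [← Int.isCoprime_iff_gcd_eq_one]
    exact ⟨-v.im, v.re, by linarith⟩

/-- difference of slopes -/
theorem Arc_sl_sub {v w : GI} (hv : 0 < v.re) (hw : 0 < w.re) :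
    sl w - sl v = (dt v w : ℝ) / ((v.re : ℝ) * w.re) := by
  have hv' : (0 : ℝ) < v.re := by exact_mod_cast hv
  have hw' : (0 : ℝ) < w.re := by exact_mod_cast hw
  unfold sl dt
  push_cast
  field_simp
  try ring

theorem Arc_dt_pos {v w : GI} (hv : 0 < v.re) (hw : 0 < w.re) (h : sl v < sl w) : 0 < dt v w := by
  have hv' : (0 : ℝ) < v.re := by exact_mod_cast hv
  have hw' : (0 : ℝ) < w.re := by exact_mod_cast hw
  have h1 := Arc_sl_sub hv hw
  have h2 : (0 : ℝ) < (dt v w : ℝ) / ((v.re : ℝ) * w.re) := by rw [← h1]; linarith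
  have h3 : (0 : ℝ) < (v.re : ℝ) * w.re := by positivity
  have h4 : (0 : ℝ) < (dt v w : ℝ) := by
    by_contra hc
    push Not at hc
    have := div_nonpos_of_nonpos_of_nonneg hc h3.le
    linarith
  exact_mod_cast h4

theorem Arc_dt_zero {v w : GI} (hv : 0 < v.re) (hw : 0 < w.re) (h : sl v = sl w) : dt v w = 0 := by
  have hv' : (0 : ℝ) < v.re := by exact_mod_cast hv
  have hw' : (0 : ℝ) < w.re := by exact_mod_cast hw
  have h1 := Arc_sl_sub hv hw
  rw [h, sub_self] at h1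
  have h3 : (0 : ℝ) < (v.re : ℝ) * w.re := by positivity
  have h4 : (dt v w : ℝ) = 0 := by
    rcases div_eq_zero_iff.1 h1.symm with h5 | h5
    · exact h5
    · exfalso; linarith
  exact_mod_cast h4

theorem Arc_re_le {m : ℕ} {v : GI} (h : nm v ≤ m) : (v.re : ℝ) ≤ √(m : ℝ) := by
  apply Real.le_sqrt_of_sq_le
  have h1 := nm_real v
  have h2 : (nm v : ℝ) ≤ m := by exact_mod_cast h
  nlinarith [sq_nonneg (v.im : ℝ)]

theorem Arc_re_le_nm {v : GI} : (v.re : ℝ) ≤ √(nm v : ℝ) := by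
  apply Real.le_sqrt_of_sq_le
  have h1 := nm_real v
  nlinarith [sq_nonneg (v.im : ℝ)]

/-- disjointness of the slope intervals -/
theorem Arc_disj {m : ℕ} {v w v' w' : GI} (h : (v, w) ∈ adj m) (h' : (v', w') ∈ adj m)
    (hv : 0 < v.re) (hw : 0 < w.re) (hv' : 0 < v'.re) (hne : (v, w) ≠ (v', w'))
    (h1 : sl v ≤ sl v') : sl w ≤ sl v' := by
  by_contra hc
  push Not at hc
  obtain ⟨⟨a1, a2⟩, a3, a4⟩ := mem_adj.1 h
  obtain ⟨⟨b1, b2⟩, b3, b4⟩ := mem_adj.1 h'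
  rcases eq_or_lt_of_le h1 with h2 | h2
  · have h3 := Arc_dt_zero hv hv' h2
    rcases eq_or_neg_of_dt (Arc_Pr_of_dt a3).1 (Arc_Pr_of_dt b3).1 h3 with h4 | h4
    · apply hne
      have h5 : v' = v := by exact h4
      subst h5
      rw [adj_inj_left h h']
    · have h5 : v'.re = - v.re := by
        have := congrArg Zsqrtd.re h4
        simp only [Zsqrtd.re_neg] at this
        omega
      omega
  · have h3 := Arc_dt_pos hv hv' h2
    have h4 := Arc_dt_pos hv' hw hc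
    exact adj_between h b1 ⟨h3, h4⟩

/-- lengths of disjoint intervals -/
theorem Arc_len {ι : Type} (s : Finset ι) (a b : ι → ℝ) (A B : ℝ) (hAB : A ≤ B)
    (h1 : ∀ i ∈ s, A ≤ a i ∧ a i ≤ b i ∧ b i ≤ B)
    (h2 : ∀ i ∈ s, ∀ j ∈ s, i ≠ j → a i ≤ a j → b i ≤ a j) :
    ∑ i ∈ s, (b i - a i) ≤ B - A := by
  classical
  have hd : Set.PairwiseDisjoint (↑s : Set ι) (fun i => Set.Ico (a i) (b i)) := by
    intro i hi j hj hij
    rw [Function.onFun, Set.disjoint_left]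
    intro x hx hx'
    rw [Set.mem_Ico] at hx hx'
    rcases le_total (a i) (a j) with h | h
    · have := h2 i hi j hj hij h
      linarith [hx.2, hx'.1]
    · have := h2 j hj i hi hij.symm h
      linarith [hx.1, hx'.2]
  have h3 : MeasureTheory.volume (⋃ i ∈ s, Set.Ico (a i) (b i)) ≤
      MeasureTheory.volume (Set.Icc A B) := by
    apply MeasureTheory.measure_mono
    intro x hx
    rw [Set.mem_iUnion₂] at hx
    obtain ⟨i, hi, hx⟩ := hx
    obtain ⟨c1, c2, c3⟩ := h1 i hi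
    exact ⟨by linarith [hx.1], by linarith [hx.2]⟩
  rw [MeasureTheory.measure_biUnion_finset hd (fun i _ => measurableSet_Ico)] at h3
  simp only [Real.volume_Ico, Real.volume_Icc] at h3
  rw [← ENNReal.ofReal_sum_of_nonneg (fun i hi => by linarith [(h1 i hi).2.1]),
    ENNReal.ofReal_le_ofReal_iff (by linarith)] at h3
  exact h3

theorem Arc_rf_le {m : ℕ} {v w : GI} (h : (v, w) ∈ adj m) (hv : 0 < v.re) (hw : 0 < w.re) :
    (rf m v w : ℝ) ≤ 2 * m * (sl w - sl v) := by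
  obtain ⟨⟨a1, a2⟩, a3, a4⟩ := mem_adj.1 h
  have hv' : (0 : ℝ) < v.re := by exact_mod_cast hv
  have hw' : (0 : ℝ) < w.re := by exact_mod_cast hw
  have h1 := (rf_pos h).2.2.2
  rw [Arc_sl_sub hv hw, a3]
  refine h1.trans ?_
  have h2 : √((nm v : ℝ) * nm w) = √(nm v : ℝ) * √(nm w : ℝ) := Real.sqrt_mul (by positivity) _
  have h3 : (v.re : ℝ) * w.re ≤ √((nm v : ℝ) * nm w) := by
    rw [h2]
    exact mul_le_mul Arc_re_le_nm Arc_re_le_nm hw'.le (by positivity)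
  have h4 : (m : ℝ) / √((nm v : ℝ) * nm w) ≤ m / ((v.re : ℝ) * w.re) :=
    div_le_div_of_nonneg_left (by positivity) (by positivity) h3
  calc 2 * ((m : ℝ) / √((nm v : ℝ) * nm w)) ≤ 2 * (m / ((v.re : ℝ) * w.re)) := by linarith
    _ = 2 * m * (((1 : ℤ) : ℝ) / ((v.re : ℝ) * w.re)) := by push_cast; ring

theorem arc_card (m : ℕ) (hm : 1 ≤ m) (η ρ : ℝ) (hρ : 0 < ρ) (e : GI) (he : 0 < e.re) :
    ((arcs m η ρ e).card : ℝ) ≤ 2 * ρ * m / (e.re : ℝ) ^ 2 := by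
  classical
  have he' : (0 : ℝ) < e.re := by exact_mod_cast he
  have h0 : (arcs m η ρ e).card = ∑ u ∈ Arc_P m η ρ e, rf m u.1 u.2 := by
    have := Arc_count m η ρ e (fun _ => True)
    simpa using this
  rw [h0]
  push_cast
  have h1 : ∑ u ∈ Arc_P m η ρ e, (rf m u.1 u.2 : ℝ) ≤
      ∑ u ∈ Arc_P m η ρ e, 2 * m * (sl u.2 - sl u.1) := by
    apply sum_le_sum
    intro u hu
    obtain ⟨b1, b2, b3⟩ := Arc_mem_P.1 hu
    exact Arc_rf_le b1 b2.1.1 b2.2.1
  have h2 : ∑ u ∈ Arc_P m η ρ e, (sl u.2 - sl u.1) ≤ sl e - (sl e - ρ / (e.re : ℝ) ^ 2) := by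
    apply Arc_len
    · have : 0 ≤ ρ / (e.re : ℝ) ^ 2 := by positivity
      linarith
    · intro u hu
      obtain ⟨b1, b2, b3⟩ := Arc_mem_P.1 hu
      refine ⟨b2.1.2.1, ?_, b2.2.2.2.le⟩
      have h3 := Arc_sl_sub b2.1.1 b2.2.1
      have h4 : dt u.1 u.2 = 1 := (mem_adj.1 b1).2.1
      have h5 : (0 : ℝ) < u.1.re := by exact_mod_cast b2.1.1
      have h6 : (0 : ℝ) < u.2.re := by exact_mod_cast b2.2.1
      have h7 : (0 : ℝ) < (dt u.1 u.2 : ℝ) / ((u.1.re : ℝ) * u.2.re) := by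
        rw [h4]; push_cast; positivity
      linarith
    · intro u hu u' hu' hne hle
      obtain ⟨b1, b2, b3⟩ := Arc_mem_P.1 hu
      obtain ⟨c1, c2, c3⟩ := Arc_mem_P.1 hu'
      exact Arc_disj b1 c1 b2.1.1 b2.2.1 c2.1.1 hne hle
  rw [← mul_sum] at h1
  refine h1.trans ?_
  calc 2 * (m : ℝ) * ∑ u ∈ Arc_P m η ρ e, (sl u.2 - sl u.1) ≤ 2 * m * (ρ / (e.re : ℝ) ^ 2) := by
        apply mul_le_mul_of_nonneg_left _ (by positivity)
        linarith
    _ = 2 * ρ * m / (e.re : ℝ) ^ 2 := by ring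

theorem Arc_Pr_iff {z : GI} : Pr z ↔ IsCoprime z.re z.im := by
  unfold Pr
  exact Int.isCoprime_iff_gcd_eq_one.symm

theorem Arc_re_shift (z e : GI) (t : ℤ) : (z + (t : GI) * e).re = z.re + t * e.re := by
  simp

theorem Arc_im_shift (z e : GI) (t : ℤ) : (z + (t : GI) * e).im = z.im + t * e.im := by
  simp

theorem Arc_dt_shift (z e : GI) (t : ℤ) : dt (z + (t : GI) * e) e = dt z e := by
  unfold dt
  rw [Arc_re_shift, Arc_im_shift]
  ring

theorem Arc_nm_shift (z e : GI) (t : ℤ) :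
    (nm (z + (t : GI) * e) : ℤ) = nm z + 2 * t * ip z e + t ^ 2 * nm e := by
  rw [nm_int, nm_int, nm_int, Arc_re_shift, Arc_im_shift]
  unfold ip
  ring

theorem Arc_cone_iff {ρ : ℝ} {e z : GI} (he : 0 < e.re) : Arc_cone ρ e z ↔
    0 < z.re ∧ 0 < dt z e ∧ (dt z e : ℝ) * e.re ≤ ρ * z.re := by
  have he' : (0 : ℝ) < e.re := by exact_mod_cast he
  unfold Arc_cone
  constructor
  · rintro ⟨h1, h2⟩
    have h1' : (0 : ℝ) < z.re := by exact_mod_cast h1
    refine ⟨h1, Arc_dt_pos h1 he h2.2, ?_⟩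
    have h3 := Arc_sl_sub h1 he
    have h4 : (dt z e : ℝ) / ((z.re : ℝ) * e.re) ≤ ρ / (e.re : ℝ) ^ 2 := by
      rw [← h3]; linarith [h2.1]
    rw [div_le_div_iff₀ (by positivity) (by positivity)] at h4
    have h5 : (dt z e : ℝ) * (e.re : ℝ) * e.re ≤ ρ * z.re * e.re := by
      calc (dt z e : ℝ) * (e.re : ℝ) * e.re = (dt z e : ℝ) * (e.re : ℝ) ^ 2 := by ring
        _ ≤ ρ * ((z.re : ℝ) * e.re) := h4
        _ = ρ * z.re * e.re := by ring
    exact le_of_mul_le_mul_right h5 he'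
  · rintro ⟨h1, h2, h5⟩
    have h1' : (0 : ℝ) < z.re := by exact_mod_cast h1
    have h2' : (0 : ℝ) < dt z e := by exact_mod_cast h2
    have h3 := Arc_sl_sub h1 he
    have h4 : (dt z e : ℝ) / ((z.re : ℝ) * e.re) ≤ ρ / (e.re : ℝ) ^ 2 := by
      rw [div_le_div_iff₀ (by positivity) (by positivity)]
      calc (dt z e : ℝ) * (e.re : ℝ) ^ 2 = ((dt z e : ℝ) * e.re) * e.re := by ring
        _ ≤ (ρ * z.re) * e.re := mul_le_mul_of_nonneg_right h5 he'.le
        _ = ρ * ((z.re : ℝ) * e.re) := by ring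
    have h6 : (0 : ℝ) < (dt z e : ℝ) / ((z.re : ℝ) * e.re) := by positivity
    refine ⟨h1, ?_, ?_⟩
    · linarith
    · linarith

theorem Arc_cone_shift {ρ : ℝ} {e z : GI} (hρ : 0 < ρ) (he : 0 < e.re) (h : Arc_cone ρ e z) {t : ℤ}
    (ht : 0 ≤ t) : Arc_cone ρ e (z + (t : GI) * e) := by
  rw [Arc_cone_iff he] at h ⊢
  obtain ⟨h1, h2, h3⟩ := h
  have h4 : z.re ≤ (z + (t : GI) * e).re := by
    rw [Arc_re_shift]; nlinarith
  rw [Arc_dt_shift]
  refine ⟨lt_of_lt_of_le h1 h4, h2, h3.trans ?_⟩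
  have h5 : (z.re : ℝ) ≤ ((z + (t : GI) * e).re : ℤ) := by exact_mod_cast h4
  exact mul_le_mul_of_nonneg_left h5 hρ.le

theorem Arc_cone_add {ρ : ℝ} {e z w : GI} (he : 0 < e.re) (h : Arc_cone ρ e z)
    (h' : Arc_cone ρ e w) : Arc_cone ρ e (z + w) := by
  rw [Arc_cone_iff he] at h h' ⊢
  obtain ⟨h1, h2, h3⟩ := h
  obtain ⟨g1, g2, g3⟩ := h'
  rw [dt_add_left, Zsqrtd.re_add]
  refine ⟨by omega, by omega, ?_⟩
  push_cast
  nlinarith

theorem Arc_ip_pos {ρ : ℝ} {e z : GI} (hρ1 : ρ ≤ 1) (he : 0 < e.re) (h : Arc_cone ρ e z) :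
    0 < ip z e := by
  have he' : (1 : ℝ) ≤ e.re := by exact_mod_cast he
  obtain ⟨h1, h2, h3⟩ := h
  have h1' : (0 : ℝ) < z.re := by exact_mod_cast h1
  have h4 : ρ / (e.re : ℝ) ^ 2 ≤ 1 := by
    rw [div_le_one (by positivity)]
    nlinarith
  have h5 : 0 < 1 + sl z * sl e := by
    have h6 : sl e - 1 ≤ sl z := by linarith
    rcases le_total 0 (sl e) with h7 | h7
    · have := mul_le_mul_of_nonneg_right h6 h7
      nlinarith [sq_nonneg (sl e - 1), sq_nonneg (sl e)]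
    · have : 0 ≤ sl z * sl e := mul_nonneg_of_nonpos_of_nonpos (by linarith) h7
      linarith
  have h6 : (ip z e : ℝ) = (z.re : ℝ) * e.re * (1 + sl z * sl e) := by
    unfold ip sl
    push_cast
    have : (e.re : ℝ) ≠ 0 := by linarith
    have : (z.re : ℝ) ≠ 0 := h1'.ne'
    field_simp
  have h7 : (0 : ℝ) < ip z e := by
    rw [h6]
    have : (0 : ℝ) < e.re := by linarith
    positivity
  exact_mod_cast h7

theorem Arc_nm_lt {ρ : ℝ} {e z : GI} (hρ1 : ρ ≤ 1) (he : 0 < e.re) (h : Arc_cone ρ e z) {t : ℤ}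
    (ht : 0 < t) : nm z < nm (z + (t : GI) * e) := by
  have h1 := Arc_ip_pos hρ1 he h
  have h2 := Arc_nm_shift z e t
  have h3 : (0 : ℤ) < 2 * t * ip z e := by positivity
  have h4 : (0 : ℤ) ≤ t ^ 2 * nm e := by positivity
  omega

theorem Arc_nm_le {ρ : ℝ} {e z : GI} (hρ1 : ρ ≤ 1) (he : 0 < e.re) (h : Arc_cone ρ e z) {t : ℤ}
    (ht : 0 ≤ t) : nm z ≤ nm (z + (t : GI) * e) := by
  rcases eq_or_lt_of_le ht with h1 | h1
  · subst h1; simp
  · exact (Arc_nm_lt hρ1 he h h1).le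

theorem Arc_expand {e v w : GI} (h : dt v w = 1) : e = (dt v e : GI) * w - (dt w e : GI) * v := by
  unfold dt at *
  ext
  · simp
    linear_combination (-(e.re)) * h
  · simp
    linear_combination (-(e.im)) * h

/-- two pairs with the same key -/
theorem Arc_pos {e v w v' w' : GI} (he : Pr e) (h : dt v w = 1) (h' : dt v' w' = 1)
    (hx : dt v e = dt v' e) (hy : dt w e = dt w' e) :
    ∃ s : ℤ, v = v' + ((s * dt v' e : ℤ) : GI) * e ∧ w = w' + ((s * dt w' e : ℤ) : GI) * e := by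
  obtain ⟨a, b, hab⟩ := Arc_Pr_iff.1 he
  have e1 := Arc_expand (e := e) h
  have e2 := Arc_expand (e := e) h'
  rw [hx, hy] at e1
  set x : ℤ := dt v' e with hxd
  set y : ℤ := dt w' e with hyd
  have r1 : e.re = x * w.re - y * v.re := by
    have := congrArg Zsqrtd.re e1
    simpa using this
  have i1 : e.im = x * w.im - y * v.im := by
    have := congrArg Zsqrtd.im e1
    simpa using this
  have r2 : e.re = x * w'.re - y * v'.re := by
    have := congrArg Zsqrtd.re e2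
    simpa using this
  have i2 : e.im = x * w'.im - y * v'.im := by
    have := congrArg Zsqrtd.im e2
    simpa using this
  obtain ⟨α, hα⟩ : ∃ α, α = a * w.re + b * w.im := ⟨_, rfl⟩
  obtain ⟨β, hβ⟩ : ∃ β, β = -(a * v.re + b * v.im) := ⟨_, rfl⟩
  have hαβ : α * x + β * y = 1 := by
    rw [hα, hβ]
    linear_combination hab - a * r1 - b * i1
  have c1 : x * (w.re - w'.re) = y * (v.re - v'.re) := by linear_combination r2 - r1
  have c2 : x * (w.im - w'.im) = y * (v.im - v'.im) := by linear_combination i2 - i1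
  obtain ⟨d1, hd1⟩ : ∃ d, d = α * (v.re - v'.re) + β * (w.re - w'.re) := ⟨_, rfl⟩
  obtain ⟨d2, hd2⟩ : ∃ d, d = α * (v.im - v'.im) + β * (w.im - w'.im) := ⟨_, rfl⟩
  have f1 : x * d1 = v.re - v'.re := by
    rw [hd1]; linear_combination (v.re - v'.re) * hαβ + β * c1
  have f2 : x * d2 = v.im - v'.im := by
    rw [hd2]; linear_combination (v.im - v'.im) * hαβ + β * c2
  have f3 : y * d1 = w.re - w'.re := by
    rw [hd1]; linear_combination (w.re - w'.re) * hαβ - α * c1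
  have f4 : y * d2 = w.im - w'.im := by
    rw [hd2]; linear_combination (w.im - w'.im) * hαβ - α * c2
  have hx0 : v.re * e.im - v.im * e.re = v'.re * e.im - v'.im * e.re := by
    have := hx; rw [hxd] at this; unfold dt at this; exact this
  have hy0 : w.re * e.im - w.im * e.re = w'.re * e.im - w'.im * e.re := by
    have := hy; rw [hyd] at this; unfold dt at this; exact this
  have hd : d1 * e.im - d2 * e.re = 0 := by
    rw [hd1, hd2]; linear_combination α * hx0 + β * hy0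
  obtain ⟨s, hs⟩ : ∃ s, s = a * d1 + b * d2 := ⟨_, rfl⟩
  have s1 : s * e.re = d1 := by rw [hs]; linear_combination d1 * hab - b * hd
  have s2 : s * e.im = d2 := by rw [hs]; linear_combination d2 * hab + a * hd
  refine ⟨s, ?_, ?_⟩
  · ext
    · rw [Arc_re_shift]; linear_combination -f1 - x * s1
    · rw [Arc_im_shift]; linear_combination -f2 - x * s2
  · ext
    · rw [Arc_re_shift]; linear_combination -f3 - y * s1
    · rw [Arc_im_shift]; linear_combination -f4 - y * s2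

theorem Arc_label {p : ℕ} (hp : p.Prime) (h4 : p % 4 = 1) {e v w v' w' : GI} (h : dt v w = 1)
    (h' : dt v' w' = 1) (hc : ¬ p ∣ nm e) {s : ℤ} (hv : v = v' + ((s * dt v' e : ℤ) : GI) * e)
    (hw : w = w' + ((s * dt w' e : ℤ) : GI) * e) (hy : yv p v w = yv p v' w') : (p : ℤ) ∣ s := by
  obtain ⟨g1, g2⟩ := gpi_spec hp h4
  have hπ := PP_prime g1
  have hdp : gpi p ∣ ((p : ℤ) : GI) * v + ((0 : ℤ) : GI) * w := by
    have h1 : gpi p ∣ ((p : ℤ) : GI) := by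
      have := BAS_mul_star (gpi p)
      rw [g2] at this
      exact ⟨star (gpi p), by rw [this]; simp⟩
    simpa using h1.mul_right v
  have hcase : yv p v w = p ∨ yv p v w < p := by
    rcases (yv_dvd hp h4 h _ _).1 hdp with h1 | h1
    · exact Or.inl h1.1
    · exact Or.inr h1.1
  have key : gpi p ∣ v * w' - v' * w := by
    rcases hcase with h1 | h1
    · have a1 : gpi p ∣ ((0 : ℤ) : GI) * v + ((1 : ℤ) : GI) * w :=
        (yv_dvd hp h4 h _ _).2 (Or.inl ⟨h1, dvd_zero _⟩)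
      have a2 : gpi p ∣ ((0 : ℤ) : GI) * v' + ((1 : ℤ) : GI) * w' :=
        (yv_dvd hp h4 h' _ _).2 (Or.inl ⟨by rw [← hy]; exact h1, dvd_zero _⟩)
      simp only [Int.cast_zero, zero_mul, Int.cast_one, one_mul, zero_add] at a1 a2
      exact dvd_sub (a2.mul_left v) (a1.mul_left v')
    · have a1 : gpi p ∣ ((1 : ℤ) : GI) * v + ((-(yv p v w : ℤ) : ℤ) : GI) * w :=
        (yv_dvd hp h4 h _ _).2 (Or.inr ⟨h1, by simp⟩)
      have a2 : gpi p ∣ ((1 : ℤ) : GI) * v' + ((-(yv p v w : ℤ) : ℤ) : GI) * w' :=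
        (yv_dvd hp h4 h' _ _).2 (Or.inr ⟨by rw [← hy]; exact h1, by rw [hy]; simp⟩)
      have a3 : v * w' - v' * w =
          (((1 : ℤ) : GI) * v + ((-(yv p v w : ℤ) : ℤ) : GI) * w) * w' -
          (((1 : ℤ) : GI) * v' + ((-(yv p v w : ℤ) : ℤ) : GI) * w') * w := by
        push_cast; ring
      rw [a3]
      exact dvd_sub (a1.mul_right _) (a2.mul_right _)
  have h5 : v * w' - v' * w = (s : GI) * e ^ 2 := by
    have h6 := Arc_expand (e := e) h'
    rw [hv, hw]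
    push_cast
    linear_combination (-(s : GI) * e) * h6
  rw [h5] at key
  rcases hπ.dvd_or_dvd key with h6 | h6
  · obtain ⟨c, hc⟩ := h6
    have h7 : nm (s : GI) = p * nm c := by rw [hc, nm_mul, g2]
    have h8 : (nm (s : GI) : ℤ) = s ^ 2 := by
      rw [nm_int]; simp
    have h9 : (p : ℤ) ∣ s ^ 2 := by
      rw [← h8, h7]; push_cast; exact dvd_mul_right _ _
    exact Int.Prime.dvd_pow' hp h9
  · exfalso
    have h7 := hπ.dvd_of_dvd_pow h6
    obtain ⟨c, hc'⟩ := h7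
    apply hc
    rw [hc', nm_mul, g2]
    exact dvd_mul_right _ _

theorem Arc_M_dvd (S : Finset ℕ) (hS : ∀ p ∈ S, p.Prime) (s : ℤ) (h : ∀ p ∈ S, (p : ℤ) ∣ s) :
    ((∏ p ∈ S, p : ℕ) : ℤ) ∣ s := by
  rw [Int.natCast_dvd]
  apply Finset.prod_primes_dvd
  · intro p hp
    exact (hS p hp).prime
  · intro p hp
    exact Int.natCast_dvd.1 (h p hp)

theorem Arc_rf_anti {m : ℕ} {v w v' w' : GI} (h1 : nm v' ≤ nm v) (h2 : nm w' ≤ nm w)
    (h3 : 0 < nm v') (h4 : 0 < nm w') : rf m v w ≤ rf m v' w' := by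
  unfold rf
  apply Nat.ceil_mono
  have a1 : (nm v' : ℝ) ≤ nm v := by exact_mod_cast h1
  have a2 : (nm w' : ℝ) ≤ nm w := by exact_mod_cast h2
  have a3 : (0 : ℝ) < nm v' := by exact_mod_cast h3
  have a4 : (0 : ℝ) < nm w' := by exact_mod_cast h4
  apply div_le_div_of_nonneg_left (by positivity)
  · apply Real.sqrt_pos.2; positivity
  · apply Real.sqrt_le_sqrt
    exact mul_le_mul a1 a2 a4.le (by positivity)

theorem Arc_rf_bound {m : ℕ} (hm : 1 ≤ m) {η : ℝ} (hη : 0 < η) (hη1 : η ≤ 1) {v w : GI}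
    (h1 : η ^ 2 * m < nm v) (h2 : η ^ 2 * m < nm w) : (rf m v w : ℝ) ≤ 2 / η ^ 2 := by
  unfold rf
  have hm' : (0 : ℝ) < m := by exact_mod_cast hm
  have h3 : η ^ 2 * m ≤ √((nm v : ℝ) * nm w) := by
    apply Real.le_sqrt_of_sq_le
    have := mul_le_mul h1.le h2.le (by positivity) (by positivity)
    calc (η ^ 2 * m) ^ 2 = (η ^ 2 * m) * (η ^ 2 * m) := by ring
      _ ≤ _ := this
  have h4 : (m : ℝ) / √((nm v : ℝ) * nm w) ≤ 1 / η ^ 2 := by
    calc (m : ℝ) / √((nm v : ℝ) * nm w) ≤ m / (η ^ 2 * m) :=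
          div_le_div_of_nonneg_left hm'.le (by positivity) h3
      _ = 1 / η ^ 2 := by field_simp
  have h5 := Nat.ceil_lt_add_one (a := (m : ℝ) / √((nm v : ℝ) * nm w)) (by positivity)
  have h6 : (1 : ℝ) ≤ 1 / η ^ 2 := by
    rw [le_div_iff₀ (by positivity)]
    nlinarith
  have h7 : (2 : ℝ) / η ^ 2 = 1 / η ^ 2 + 1 / η ^ 2 := by ring
  linarith

/-- moving back along `e` -/
def Arc_sh (e : GI) (j : ℕ) (u : GI × GI) : GI × GI :=
  (u.1 + ((-(j : ℤ) * dt u.1 e : ℤ) : GI) * e, u.2 + ((-(j : ℤ) * dt u.2 e : ℤ) : GI) * e)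

theorem arc (S : Finset ℕ) (hS : ∀ p ∈ S, p.Prime ∧ p % 4 = 1) (η ρ : ℝ) (hη : 0 < η) (hη1 : η ≤ 1)
    (hρ : 0 < ρ) (hρ1 : ρ * (∏ p ∈ S, (p : ℝ)) ≤ η ^ 2) (e : GI) (he : Pr e) (he0 : 0 < e.re)
    (hc : Nat.Coprime (nm e) (∏ p ∈ S, p)) (h1 : -1 ≤ sl e - ρ / (e.re : ℝ) ^ 2) (h2 : sl e ≤ 1)
    (m : ℕ) (hm : 1 ≤ m) (y : ℕ → ℕ) : open Classical in
    (((arcs m η ρ e).filter (fun ω => ∀ p ∈ S, yo ω p = y p)).card : ℝ) ≤
      4 * ρ * m / ((∏ p ∈ S, (p : ℝ)) * (e.re : ℝ) ^ 2) := by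
  classical
  have he' : (1 : ℝ) ≤ e.re := by exact_mod_cast he0
  have hm' : (1 : ℝ) ≤ m := by exact_mod_cast hm
  obtain ⟨M, hM⟩ : ∃ M : ℕ, M = ∏ p ∈ S, p := ⟨_, rfl⟩
  have hMr : (∏ p ∈ S, (p : ℝ)) = (M : ℝ) := by rw [hM]; push_cast; rfl
  have hM1 : 1 ≤ M := by
    rw [hM]
    exact Finset.prod_pos (fun p hp => (hS p hp).1.pos)
  have hM1' : (1 : ℝ) ≤ M := by exact_mod_cast hM1
  rw [hMr] at hρ1 ⊢
  have hρ2 : ρ ≤ 1 := by nlinarith
  have hpe : ∀ p ∈ S, ¬ p ∣ nm e := by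
    intro p hp hd
    have h3 : p ∣ ∏ p ∈ S, p := Finset.dvd_prod_of_mem _ hp
    have h4 := Nat.dvd_gcd hd h3
    rw [hc] at h4
    exact (hS p hp).1.one_lt.ne' (Nat.dvd_one.1 h4)
  -- the labelled pairs
  obtain ⟨Q, hQ⟩ : ∃ Q, Q = (Arc_P m η ρ e).filter (fun u => ∀ p ∈ S, yv p u.1 u.2 = y p) := ⟨_, rfl⟩
  have hcount : ((arcs m η ρ e).filter (fun ω => ∀ p ∈ S, yo ω p = y p)).card =
      ∑ u ∈ Q, rf m u.1 u.2 := by
    rw [hQ]
    convert Arc_count m η ρ e (fun u => ∀ p ∈ S, yv p u.1 u.2 = y p) using 3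
    exact Iff.rfl
  rw [hcount]
  obtain ⟨T, hT⟩ : ∃ T : GI × GI → Prop, T = fun u => ∃ u' ∈ Q, dt u'.1 e = dt u.1 e ∧ dt u'.2 e = dt u.2 e ∧ nm u'.1 < nm u.1 :=
    ⟨_, rfl⟩
  have hsplit : ∑ u ∈ Q, rf m u.1 u.2 = ∑ u ∈ Q.filter T, rf m u.1 u.2 +
      ∑ u ∈ Q.filter (fun u => ¬ T u), rf m u.1 u.2 := (sum_filter_add_sum_filter_not _ _ _).symm
  have hQP : ∀ u ∈ Q, u ∈ Arc_P m η ρ e := by
    intro u hu
    rw [hQ] at hu
    exact (mem_filter.1 hu).1
  have hQl : ∀ u ∈ Q, ∀ u' ∈ Q, ∀ p ∈ S, yv p u.1 u.2 = yv p u'.1 u'.2 := by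
    intro u hu u' hu' p hp
    rw [hQ] at hu hu'
    rw [(mem_filter.1 hu).2 p hp, (mem_filter.1 hu').2 p hp]
  have hQd : ∀ u ∈ Arc_P m η ρ e, dt u.1 u.2 = 1 := fun u hu => (mem_adj.1 (Arc_mem_P.1 hu).1).2.1
  -- two labelled pairs with the same key
  have hrel : ∀ u ∈ Q, ∀ u' ∈ Q, dt u.1 e = dt u'.1 e → dt u.2 e = dt u'.2 e →
      ∃ s : ℤ, (M : ℤ) ∣ s ∧ u.1 = u'.1 + ((s * dt u'.1 e : ℤ) : GI) * e ∧
        u.2 = u'.2 + ((s * dt u'.2 e : ℤ) : GI) * e := by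
    intro u hu u' hu' k1 k2
    obtain ⟨s, s1, s2⟩ := Arc_pos he (hQd u (hQP u hu)) (hQd u' (hQP u' hu')) k1 k2
    refine ⟨s, ?_, s1, s2⟩
    rw [hM]
    apply Arc_M_dvd S (fun p hp => (hS p hp).1)
    intro p hp
    exact Arc_label (hS p hp).1 (hS p hp).2 (hQd u (hQP u hu)) (hQd u' (hQP u' hu')) (hpe p hp) s1 s2
      (hQl u hu u' hu' p hp)
  -- keys are positive
  have hkey : ∀ u ∈ Arc_P m η ρ e, 0 < dt u.1 e ∧ 0 < dt u.2 e := by
    intro u hu
    obtain ⟨b1, b2, b3⟩ := Arc_mem_P.1 hu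
    exact ⟨((Arc_cone_iff he0).1 b2.1).2.1, ((Arc_cone_iff he0).1 b2.2).2.1⟩
  -- claim 1
  have claim1 : ∀ u ∈ Q.filter T, ∀ j ∈ range M, Arc_sh e j u ∈ Arc_P m η ρ e ∧
      rf m u.1 u.2 ≤ rf m (Arc_sh e j u).1 (Arc_sh e j u).2 := by
    intro u hu j hj
    rw [mem_filter, hT] at hu
    obtain ⟨hu, u', hu', k1, k2, k3⟩ := hu
    obtain ⟨s, sM, s1, s2⟩ := hrel u hu u' hu' k1.symm k2.symm
    have hPu := hQP u hu
    have hPu' := hQP u' hu'
    obtain ⟨b1, b2, b3⟩ := Arc_mem_P.1 hPu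
    obtain ⟨c1, c2, c3⟩ := Arc_mem_P.1 hPu'
    obtain ⟨x1, x2⟩ := hkey u hPu
    have hs0 : 0 < s := by
      by_contra hcon
      push Not at hcon
      have e1 : u'.1 = u.1 + ((-s * dt u.1 e : ℤ) : GI) * e := by
        rw [← k1, s1]; push_cast; ring
      have e2 := Arc_nm_le hρ2 he0 b2.1 (t := -s * dt u.1 e) (by nlinarith)
      rw [← e1] at e2
      omega
    have hsM : (M : ℤ) ≤ s := Int.le_of_dvd hs0 sM
    have hj' : (j : ℤ) < M := by exact_mod_cast mem_range.1 hj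
    have ht : 0 < s - j := by omega
    have f1 : (Arc_sh e j u).1 = u'.1 + (((s - j) * dt u'.1 e : ℤ) : GI) * e := by
      unfold Arc_sh
      simp only []
      rw [← k1, s1]; push_cast; ring
    have f2 : (Arc_sh e j u).2 = u'.2 + (((s - j) * dt u'.2 e : ℤ) : GI) * e := by
      unfold Arc_sh
      simp only []
      rw [← k2, s2]; push_cast; ring
    have g1 : u.1 = (Arc_sh e j u).1 + ((j * dt u.1 e : ℤ) : GI) * e := by
      unfold Arc_sh
      push_cast; ring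
    have g2 : u.2 = (Arc_sh e j u).2 + ((j * dt u.2 e : ℤ) : GI) * e := by
      unfold Arc_sh
      push_cast; ring
    have n1 : 0 < (s - j) * dt u'.1 e := by rw [k1]; positivity
    have n2 : 0 < (s - j) * dt u'.2 e := by rw [k2]; positivity
    have co1 : Arc_cone ρ e (Arc_sh e j u).1 := by
      rw [f1]; exact Arc_cone_shift hρ he0 c2.1 n1.le
    have co2 : Arc_cone ρ e (Arc_sh e j u).2 := by
      rw [f2]; exact Arc_cone_shift hρ he0 c2.2 n2.le
    have m1 : nm (Arc_sh e j u).1 ≤ nm u.1 := by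
      conv_rhs => rw [g1]
      exact Arc_nm_le hρ2 he0 co1 (by positivity)
    have m2 : nm (Arc_sh e j u).2 ≤ nm u.2 := by
      conv_rhs => rw [g2]
      exact Arc_nm_le hρ2 he0 co2 (by positivity)
    have l1 : nm u'.1 ≤ nm (Arc_sh e j u).1 := by
      rw [f1]; exact Arc_nm_le hρ2 he0 c2.1 n1.le
    have l2 : nm u'.2 ≤ nm (Arc_sh e j u).2 := by
      rw [f2]; exact Arc_nm_le hρ2 he0 c2.2 n2.le
    have l3 : nm (u'.1 + u'.2) ≤ nm ((Arc_sh e j u).1 + (Arc_sh e j u).2) := by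
      have : (Arc_sh e j u).1 + (Arc_sh e j u).2 = (u'.1 + u'.2) +
          (((s - j) * dt u'.1 e + (s - j) * dt u'.2 e : ℤ) : GI) * e := by
        rw [f1, f2]; push_cast; ring
      rw [this]
      exact Arc_nm_le hρ2 he0 (Arc_cone_add he0 c2.1 c2.2) (by omega)
    obtain ⟨⟨ba1, ba2⟩, ba3, ba4⟩ := mem_adj.1 (show (u.1, u.2) ∈ adj m from b1)
    obtain ⟨⟨ca1, ca2⟩, ca3, ca4⟩ := mem_adj.1 (show (u'.1, u'.2) ∈ adj m from c1)
    have hdt : dt (Arc_sh e j u).1 (Arc_sh e j u).2 = 1 := by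
      have hh : dt u.1 u.2 = 1 := ba3
      unfold Arc_sh
      simp only []
      have : ∀ (a b : ℤ) (v w : GI), dt (v + (a : GI) * e) (w + (b : GI) * e) =
          dt v w + b * dt v e - a * dt w e := by
        intro a b v w
        unfold dt
        rw [Arc_re_shift, Arc_re_shift, Arc_im_shift, Arc_im_shift]
        ring
      rw [this, hh]
      ring
    have p1 : 0 < nm (Arc_sh e j u).1 := nm_pos (Pr_ne (Arc_Pr_of_dt hdt).1)
    have p2 : 0 < nm (Arc_sh e j u).2 := nm_pos (Pr_ne (Arc_Pr_of_dt hdt).2)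
    refine ⟨?_, Arc_rf_anti m1 m2 p1 p2⟩
    rw [Arc_mem_P]
    have l1' : (nm u'.1 : ℝ) ≤ nm (Arc_sh e j u).1 := by exact_mod_cast l1
    have l2' : (nm u'.2 : ℝ) ≤ nm (Arc_sh e j u).2 := by exact_mod_cast l2
    refine ⟨?_, ⟨co1, co2⟩, lt_of_lt_of_le c3.1 l1', lt_of_lt_of_le c3.2 l2'⟩
    exact mem_adj.2 ⟨⟨m1.trans ba1, m2.trans ba2⟩, hdt, lt_of_lt_of_le ca4 l3⟩
  -- claim 2
  have claim2 : Set.InjOn (fun a : (GI × GI) × ℕ => Arc_sh e a.2 a.1)
      (↑(Q.filter T ×ˢ range M) : Set ((GI × GI) × ℕ)) := by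
    rintro ⟨u, j⟩ ha ⟨u', j'⟩ ha' hEq
    rw [mem_coe, mem_product, mem_filter, mem_range] at ha ha'
    simp only [] at ha ha' hEq
    have hu := ha.1.1
    have hu' := ha'.1.1
    have e1 := congrArg Prod.fst hEq
    have e2 := congrArg Prod.snd hEq
    unfold Arc_sh at e1 e2
    simp only [] at e1 e2
    have k1 : dt u.1 e = dt u'.1 e := by
      have := congrArg (fun z => dt z e) e1
      rwa [Arc_dt_shift, Arc_dt_shift] at this
    have k2 : dt u.2 e = dt u'.2 e := by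
      have := congrArg (fun z => dt z e) e2
      rwa [Arc_dt_shift, Arc_dt_shift] at this
    have s1 : u.1 = u'.1 + ((((j : ℤ) - j') * dt u'.1 e : ℤ) : GI) * e := by
      rw [k1] at e1
      push_cast at e1 ⊢
      linear_combination e1
    have s2 : u.2 = u'.2 + ((((j : ℤ) - j') * dt u'.2 e : ℤ) : GI) * e := by
      rw [k2] at e2
      push_cast at e2 ⊢
      linear_combination e2
    have hdv : (M : ℤ) ∣ (j : ℤ) - j' := by
      rw [hM]
      apply Arc_M_dvd S (fun p hp => (hS p hp).1)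
      intro p hp
      exact Arc_label (hS p hp).1 (hS p hp).2 (hQd u (hQP u hu)) (hQd u' (hQP u' hu')) (hpe p hp) s1 s2
        (hQl u hu u' hu' p hp)
    have hj0 : (j : ℤ) - j' = 0 := by
      apply Int.eq_zero_of_abs_lt_dvd hdv
      rw [abs_lt]
      constructor
      · have : (j' : ℤ) < M := by exact_mod_cast ha'.2
        have : (0 : ℤ) ≤ j := by positivity
        omega
      · have : (j : ℤ) < M := by exact_mod_cast ha.2
        have : (0 : ℤ) ≤ j' := by positivity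
        omega
    rw [hj0] at s1 s2
    simp only [zero_mul, Int.cast_zero, add_zero] at s1 s2
    have hjj : j = j' := by omega
    have huu : u = u' := Prod.ext s1 s2
    rw [hjj, huu]
  have hsum1 : M * ∑ u ∈ Q.filter T, rf m u.1 u.2 ≤ (arcs m η ρ e).card := by
    have h0 : (arcs m η ρ e).card = ∑ u ∈ Arc_P m η ρ e, rf m u.1 u.2 := by
      have := Arc_count m η ρ e (fun _ => True)
      simpa using this
    rw [h0]
    calc M * ∑ u ∈ Q.filter T, rf m u.1 u.2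
        = ∑ a ∈ Q.filter T ×ˢ range M, rf m a.1.1 a.1.2 := by
          rw [sum_product]
          simp only [sum_const, card_range, smul_eq_mul]
          rw [mul_sum]
      _ ≤ ∑ a ∈ Q.filter T ×ˢ range M, rf m (Arc_sh e a.2 a.1).1 (Arc_sh e a.2 a.1).2 := by
          apply sum_le_sum
          intro a ha
          rw [mem_product] at ha
          exact (claim1 a.1 ha.1 a.2 ha.2).2
      _ = ∑ b ∈ (Q.filter T ×ˢ range M).image (fun a => Arc_sh e a.2 a.1), rf m b.1 b.2 :=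
          (sum_image (f := fun b : GI × GI => rf m b.1 b.2) claim2).symm
      _ ≤ ∑ u ∈ Arc_P m η ρ e, rf m u.1 u.2 := by
          apply sum_le_sum_of_subset
          intro b hb
          rw [mem_image] at hb
          obtain ⟨a, ha, rfl⟩ := hb
          rw [mem_product] at ha
          exact (claim1 a.1 ha.1 a.2 ha.2).1
  -- claim 3
  obtain ⟨L, hL⟩ : ∃ L : ℝ, L = ρ * √(m : ℝ) / e.re := ⟨_, rfl⟩
  have hL0 : 0 ≤ L := by rw [hL]; positivity
  have hk : ∀ z : GI, nm z ≤ m → Arc_cone ρ e z → (dt z e : ℝ) ≤ L := by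
    intro z hz hcz
    obtain ⟨z1, z2, z3⟩ := (Arc_cone_iff he0).1 hcz
    rw [hL, le_div_iff₀ (by linarith)]
    refine z3.trans ?_
    exact mul_le_mul_of_nonneg_left (Arc_re_le hz) hρ.le
  have claim3 : ((Q.filter (fun u => ¬ T u)).card : ℝ) ≤ L ^ 2 := by
    have hinj : (Q.filter (fun u => ¬ T u)).card ≤
        (Icc (1 : ℤ) ⌊L⌋ ×ˢ Icc (1 : ℤ) ⌊L⌋).card := by
      apply card_le_card_of_injOn (fun u => (dt u.1 e, dt u.2 e))
      · intro u hu
        rw [mem_coe, mem_filter] at hu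
        have hPu := hQP u hu.1
        obtain ⟨b1, b2, b3⟩ := Arc_mem_P.1 hPu
        obtain ⟨⟨ba1, ba2⟩, ba3, ba4⟩ := mem_adj.1 (show (u.1, u.2) ∈ adj m from b1)
        obtain ⟨x1, x2⟩ := hkey u hPu
        simp only [coe_product, Set.mem_prod, coe_Icc, Set.mem_Icc]
        exact ⟨⟨by omega, Int.le_floor.2 (hk _ ba1 b2.1)⟩, by omega, Int.le_floor.2 (hk _ ba2 b2.2)⟩
      · intro u hu u' hu' hEq
        rw [mem_coe, mem_filter] at hu hu'
        have k1 : dt u.1 e = dt u'.1 e := congrArg Prod.fst hEq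
        have k2 : dt u.2 e = dt u'.2 e := congrArg Prod.snd hEq
        obtain ⟨s, sM, s1, s2⟩ := hrel u hu.1 u' hu'.1 k1 k2
        obtain ⟨b1, b2, b3⟩ := Arc_mem_P.1 (hQP u hu.1)
        obtain ⟨c1, c2, c3⟩ := Arc_mem_P.1 (hQP u' hu'.1)
        obtain ⟨x1, x2⟩ := hkey u (hQP u hu.1)
        have nT := hu.2
        have nT' := hu'.2
        rw [hT] at nT nT'
        push Not at nT nT'
        have t1 := nT u' hu'.1 k1.symm k2.symm
        have t2 := nT' u hu.1 k1 k2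
        have hs0 : s = 0 := by
          rcases lt_trichotomy s 0 with h3 | h3 | h3
          · exfalso
            have e1 : u'.1 = u.1 + ((-s * dt u.1 e : ℤ) : GI) * e := by
              rw [k1, s1]; push_cast; ring
            have hpos : 0 < -s * dt u.1 e := mul_pos (by omega) x1
            have e2 := Arc_nm_lt hρ2 he0 b2.1 hpos
            rw [← e1] at e2
            omega
          · exact h3
          · exfalso
            have hpos : 0 < s * dt u'.1 e := mul_pos h3 (by rw [← k1]; exact x1)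
            have e2 := Arc_nm_lt hρ2 he0 c2.1 hpos
            rw [← s1] at e2
            omega
        rw [hs0] at s1 s2
        simp only [zero_mul, Int.cast_zero, add_zero] at s1 s2
        exact Prod.ext s1 s2
    rw [card_product, Int.card_Icc] at hinj
    have h3 : ((⌊L⌋ + 1 - 1).toNat : ℝ) ≤ L := by
      have h4 : 0 ≤ ⌊L⌋ := Int.floor_nonneg.2 hL0
      have h5 : (((⌊L⌋ + 1 - 1).toNat : ℤ) : ℝ) = (⌊L⌋ : ℝ) := by
        congr 1
        omega
      have h6 : ((⌊L⌋ + 1 - 1).toNat : ℝ) = (⌊L⌋ : ℝ) := by exact_mod_cast h5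
      rw [h6]
      exact Int.floor_le L
    calc ((Q.filter (fun u => ¬ T u)).card : ℝ)
        ≤ (((⌊L⌋ + 1 - 1).toNat * (⌊L⌋ + 1 - 1).toNat : ℕ) : ℝ) := by exact_mod_cast hinj
      _ = ((⌊L⌋ + 1 - 1).toNat : ℝ) * ((⌊L⌋ + 1 - 1).toNat : ℝ) := by push_cast; ring
      _ ≤ L * L := mul_le_mul h3 h3 (by positivity) hL0
      _ = L ^ 2 := by ring
  -- claim 4
  have hsum2 : ∑ u ∈ Q.filter (fun u => ¬ T u), (rf m u.1 u.2 : ℝ) ≤ L ^ 2 * (2 / η ^ 2) := by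
    calc ∑ u ∈ Q.filter (fun u => ¬ T u), (rf m u.1 u.2 : ℝ)
        ≤ ∑ u ∈ Q.filter (fun u => ¬ T u), (2 / η ^ 2) := by
          apply sum_le_sum
          intro u hu
          obtain ⟨b1, b2, b3⟩ := Arc_mem_P.1 (hQP u (mem_filter.1 hu).1)
          exact Arc_rf_bound hm hη hη1 b3.1 b3.2
      _ = ((Q.filter (fun u => ¬ T u)).card : ℝ) * (2 / η ^ 2) := by
          rw [sum_const, nsmul_eq_mul]
      _ ≤ L ^ 2 * (2 / η ^ 2) := mul_le_mul_of_nonneg_right claim3 (by positivity)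
  have hac := arc_card m hm η ρ hρ e he0
  have hsum1' : (M : ℝ) * ∑ u ∈ Q.filter T, (rf m u.1 u.2 : ℝ) ≤ 2 * ρ * m / (e.re : ℝ) ^ 2 := by
    refine le_trans ?_ hac
    exact_mod_cast hsum1
  have hL2 : L ^ 2 = ρ ^ 2 * m / (e.re : ℝ) ^ 2 := by
    rw [hL, div_pow, mul_pow, Real.sq_sqrt (by positivity)]
  rw [hsplit]
  push_cast
  have hMp : (0 : ℝ) < M := by linarith
  have hfin1 : ∑ u ∈ Q.filter T, (rf m u.1 u.2 : ℝ) ≤ 2 * ρ * m / ((M : ℝ) * (e.re : ℝ) ^ 2) := by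
    rw [mul_comm] at hsum1'
    have := (le_div_iff₀ hMp).2 hsum1'
    refine this.trans (le_of_eq ?_)
    field_simp
  have hfin2 : L ^ 2 * (2 / η ^ 2) ≤ 2 * ρ * m / ((M : ℝ) * (e.re : ℝ) ^ 2) := by
    rw [hL2]
    have h3 : ρ / η ^ 2 ≤ 1 / M := by
      rw [div_le_div_iff₀ (by positivity) hMp]
      linarith
    calc ρ ^ 2 * m / (e.re : ℝ) ^ 2 * (2 / η ^ 2) = (2 * ρ * m / (e.re : ℝ) ^ 2) * (ρ / η ^ 2) := by
          field_simp
      _ ≤ (2 * ρ * m / (e.re : ℝ) ^ 2) * (1 / M) := mul_le_mul_of_nonneg_left h3 (by positivity)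
      _ = 2 * ρ * m / ((M : ℝ) * (e.re : ℝ) ^ 2) := by field_simp
  calc ∑ u ∈ Q.filter T, (rf m u.1 u.2 : ℝ) + ∑ u ∈ Q.filter (fun u => ¬ T u), (rf m u.1 u.2 : ℝ)
      ≤ 2 * ρ * m / ((M : ℝ) * (e.re : ℝ) ^ 2) + 2 * ρ * m / ((M : ℝ) * (e.re : ℝ) ^ 2) :=
        add_le_add hfin1 (hsum2.trans hfin2)
    _ = 4 * ρ * m / ((M : ℝ) * (e.re : ℝ) ^ 2) := by ring

end Pool.Agent.FCH
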