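import Pool.Agent.FCH.Base

set_option autoImplicit false

/-! Kernels of the `TT*` argument (definitions). -/

open Finset

namespace Pool.Agent.FCH

open Pool.Agent.MRS hiding Good

/-- continuous cutoff: `1` on `[1/b, 1]`, `0` outside `(1/(2b), 2)` -/
noncomputable def phi (b x : ℝ) : ℝ := max 0 (min 1 (min (2 * b * x - 1) (2 - x)))

/-- `φ(y²)` for `y > 0` -/
noncomputable def phip (b y : ℝ) : ℝ := if 0 < y then phi b (y ^ 2) else 0

/-- the bilinear form -/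
noncomputable def BB (b : ℝ) (m A P : ℕ) (c : ℕ → ℂ) (G H : GI → ℂ) : ℂ :=
  open Classical in
  ∑ z ∈ AA b m, ∑ w ∈ AA b m,
    if (dt z w).toNat ∈ pr A P ∧ 0 < ip z w then c (dt z w).toNat * G z * H w else 0

/-- the kernel of `TT*` -/
noncomputable def KK (b : ℝ) (m A P : ℕ) (c : ℕ → ℂ) (w w' : GI) : ℂ :=
  open Classical in
  ∑ z ∈ bal (2 * m), if ((dt z w).toNat ∈ pr A P ∧ 0 < ip z w) ∧
      ((dt z w').toNat ∈ pr A P ∧ 0 < ip z w') then
    (phi b ((nm z : ℝ) / m) : ℂ) * (c (dt z w).toNat * (starRingEnd ℂ) (c (dt z w').toNat)) else 0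

/-- `∑_{p, p' ∈ pr, D ∣ p' w - p w'} x_p conj y_{p'} Φ((p' |w| - p |w'|)/(D √m))`, `D = det(w,w')` -/
noncomputable def XX (m A P : ℕ) (x y : ℕ → ℂ) (Φ : ℝ → ℝ) (w w' : GI) : ℂ :=
  open Classical in
  ∑ p ∈ pr A P, ∑ p' ∈ pr A P,
    if ((dt w w' : ℤ) : GI) ∣ (p' : GI) * w - (p : GI) * w' then
      (Φ (((p' : ℝ) * rd m w - (p : ℝ) * rd m w') / (dt w w' : ℝ)) : ℂ) *
        (x p * (starRingEnd ℂ) (y p')) else 0

/-- number of pairs of primes compatible with `(w, w')` -/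
noncomputable def NN (A P : ℕ) (w w' : GI) : ℕ :=
  open Classical in
  ((pr A P ×ˢ pr A P).filter (fun e : ℕ × ℕ =>
    ((dt w w' : ℤ) : GI) ∣ (e.2 : GI) * w - (e.1 : GI) * w')).card

/-- sum over the pairs `(w, w')`, `⟨w,w'⟩ > 0`, `det(w,w') > 0` -/
noncomputable def PS (b : ℝ) (m : ℕ) (F : GI → GI → ℂ) : ℂ :=
  open Classical in
  ∑ w ∈ AA b m, ∑ w' ∈ AA b m, if 0 < ip w w' ∧ 0 < dt w w' then F w w' else 0

/-- the normalised sine of the angle: `det(w,w')/(P α β) = (m/P) sin θ` -/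
noncomputable def tt (m P : ℕ) (w w' : GI) : ℝ := (dt w w' : ℝ) / (P * (rd m w * rd m w'))

/-- Lipschitz cutoff: `0` for `t ≤ δ` and for `t ≥ 2 c`, `1` on `[2δ, c]` -/
noncomputable def cs (δ c t : ℝ) : ℝ := max 0 (min 1 (min ((t - δ) / δ) ((2 * c - t) / c)))

theorem phi_nonneg (b x : ℝ) : 0 ≤ phi b x := le_max_left _ _

theorem phi_le_one (b x : ℝ) : phi b x ≤ 1 := max_le zero_le_one (min_le_left _ _)

theorem cs_nonneg (δ c t : ℝ) : 0 ≤ cs δ c t := le_max_left _ _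

theorem cs_le_one (δ c t : ℝ) : cs δ c t ≤ 1 := max_le zero_le_one (min_le_left _ _)

end Pool.Agent.FCH
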