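import Pool.Agent.FCH.Small
import Pool.Agent.FCH.Ker

set_option autoImplicit false

/-! Module AsmA: replace `φ₊` by a polynomial.  `t = tt m P w w' = D/(P α β)`, `α, β ∈ (1/√b, 1]`, so `P t/b ≤ D ≤ P t`.
Let `c := 8 A b` (large enough) and `δ` small.  Write `1 = cs δ c t + (1 - cs δ c t)`.
If `1 - cs ≠ 0` then `t < 2δ` (so `D ≤ 2δP`: `small`, total `≤ 2Cδ m (#pr)²`) or `t > c` (so `D > c P/b`, and then `|y| = |p'α - pβ|/D ≤ 2AP/D < 1/√(2b)`, so `φ₊(y) = 0`).
On the support of `cs` : `δP/b ≤ D ≤ 2cP`, `|y| ≤ 2AP/D ≤ Y := 2Ab/δ`.  `phip b` is continuous (`phi b (y²) = 0` for `y² ≤ 1/(2b)`); Weierstrass: a polynomial `Q` with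
`|φ₊ - Q| ≤ ε'` on `[-Y, Y]`; the error is `≤ ε' ∑ NN ≤ ε' C(δ) m (#pr)²` (`cnt`). -/

open Finset

namespace Pool.Agent.FCH

open Pool.Agent.MRS hiding Good

theorem AsmA_rd {b : ℝ} (hb : 1 < b) {m : ℕ} (hm : 1 ≤ m) {w : GI} (hw : w ∈ AA b m) :
    0 < rd m w ∧ rd m w ≤ 1 ∧ 1 / b < (rd m w) ^ 2 := by
  rw [mem_AA] at hw
  obtain ⟨h1, -, h3⟩ := hw
  have hm' : (0 : ℝ) < m := by exact_mod_cast hm
  have hb0 : 0 < b := by linarith
  have h4 : 1 / b < (nm w : ℝ) / m := by
    rw [lt_div_iff₀ hm']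
    calc 1 / b * (m : ℝ) = m / b := by ring
      _ < _ := h3
  have h5 : 0 < (nm w : ℝ) / m := lt_trans (by positivity) h4
  refine ⟨Real.sqrt_pos.2 h5, ?_, ?_⟩
  · unfold rd
    rw [Real.sqrt_le_one]
    rw [div_le_one hm']
    exact h1
  · unfold rd
    rw [Real.sq_sqrt h5.le]
    exact h4

theorem AsmA_phip_cont (b : ℝ) : Continuous (phip b) := by
  have h : phip b = fun y => phi b ((max y 0) ^ 2) := by
    funext y
    unfold phip
    split_ifs with h
    · rw [max_eq_left h.le]
    · push Not at h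
      rw [max_eq_right h]
      unfold phi
      norm_num
  rw [h]
  unfold phi
  fun_prop

theorem AsmA_phip_zero {b y : ℝ} (hb : 1 < b) (hy : y ^ 2 ≤ 1 / (2 * b)) : phip b y = 0 := by
  unfold phip
  split_ifs with h
  · unfold phi
    apply max_eq_left
    refine (min_le_right _ _).trans ((min_le_left _ _).trans ?_)
    have : 2 * b * y ^ 2 ≤ 1 := by
      have hb0 : 0 < 2 * b := by linarith
      rw [le_div_iff₀ hb0] at hy
      linarith
    linarith
  · rfl

theorem AsmA_phip_abs (b y : ℝ) : |phip b y| ≤ 1 := by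
  unfold phip
  split_ifs with h
  · rw [abs_of_nonneg (phi_nonneg _ _)]
    exact phi_le_one _ _
  · simp

theorem AsmA_XX_le {b : ℝ} {m A P : ℕ} {x : ℕ → ℂ} (hx : ∀ n, ‖x n‖ ≤ 1) (w w' : GI) :
    open Classical in
    ‖XX m A P x x (phip b) w w'‖ ≤ (((pr A P ×ˢ pr A P).filter (fun e : ℕ × ℕ =>
        ((dt w w' : ℤ) : GI) ∣ (e.2 : GI) * w - (e.1 : GI) * w' ∧
        phip b (((e.2 : ℝ) * rd m w - (e.1 : ℝ) * rd m w') / (dt w w' : ℝ)) ≠ 0)).card : ℝ) := by
  classical
  unfold XX
  rw [← Finset.sum_product', Finset.card_filter]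
  push_cast
  refine (norm_sum_le _ _).trans (Finset.sum_le_sum ?_)
  rintro ⟨p, p'⟩ -
  simp only
  have hn : ‖x p * (starRingEnd ℂ) (x p')‖ ≤ 1 := by
    rw [norm_mul, RCLike.norm_conj]
    exact mul_le_one₀ (hx _) (norm_nonneg _) (hx _)
  by_cases h1 : ((dt w w' : ℤ) : GI) ∣ (p' : GI) * w - (p : GI) * w'
  · by_cases h2 : phip b (((p' : ℝ) * rd m w - (p : ℝ) * rd m w') / (dt w w' : ℝ)) = 0
    · simp [h2]
    · rw [if_pos h1, if_pos ⟨h1, h2⟩, norm_mul, Complex.norm_real, Real.norm_eq_abs]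
      exact mul_le_one₀ (AsmA_phip_abs _ _) (norm_nonneg _) hn
  · rw [if_neg h1, if_neg (fun h => h1 h.1)]
    simp

/-- difference of two `XX` -/
theorem AsmA_XX_sub {m A P : ℕ} {x : ℕ → ℂ} (hx : ∀ n, ‖x n‖ ≤ 1) (Φ Ψ : ℝ → ℝ) (e : ℝ) (he : 0 ≤ e)
    (w w' : GI)
    (h : ∀ p ∈ pr A P, ∀ p' ∈ pr A P,
      |Φ (((p' : ℝ) * rd m w - (p : ℝ) * rd m w') / (dt w w' : ℝ)) -
        Ψ (((p' : ℝ) * rd m w - (p : ℝ) * rd m w') / (dt w w' : ℝ))| ≤ e) :
    ‖XX m A P x x Φ w w' - XX m A P x x Ψ w w'‖ ≤ e * (NN A P w w' : ℝ) := by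
  classical
  unfold XX NN
  rw [← Finset.sum_product', ← Finset.sum_product', ← Finset.sum_sub_distrib, Finset.card_filter]
  push_cast
  rw [Finset.mul_sum]
  refine (norm_sum_le _ _).trans (Finset.sum_le_sum ?_)
  rintro ⟨p, p'⟩ hp
  rw [mem_product] at hp
  simp only
  have hn : ‖x p * (starRingEnd ℂ) (x p')‖ ≤ 1 := by
    rw [norm_mul, RCLike.norm_conj]
    exact mul_le_one₀ (hx _) (norm_nonneg _) (hx _)
  by_cases h1 : ((dt w w' : ℤ) : GI) ∣ (p' : GI) * w - (p : GI) * w'
  · rw [if_pos h1, if_pos h1, if_pos h1, ← sub_mul, norm_mul, ← Complex.ofReal_sub,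
      Complex.norm_real, Real.norm_eq_abs]
    exact mul_le_mul (h p hp.1 p' hp.2) hn (norm_nonneg _) he
  · rw [if_neg h1, if_neg h1, if_neg h1]
    simp

theorem AsmA_PS {b : ℝ} {m : ℕ} (F G : GI → GI → ℂ) :
    open Classical in
    ‖PS b m F‖ ≤ ‖PS b m G‖ + ∑ w ∈ AA b m, ∑ w' ∈ AA b m,
      (if 0 < ip w w' ∧ 0 < dt w w' then ‖F w w' - G w w'‖ else 0) := by
  classical
  have h : PS b m F - PS b m G = PS b m (fun w w' => F w w' - G w w') := by
    unfold PS
    rw [← Finset.sum_sub_distrib]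
    refine Finset.sum_congr rfl fun w _ => ?_
    rw [← Finset.sum_sub_distrib]
    refine Finset.sum_congr rfl fun w' _ => ?_
    split_ifs <;> simp
  have h2 : ‖PS b m (fun w w' => F w w' - G w w')‖ ≤ ∑ w ∈ AA b m, ∑ w' ∈ AA b m,
      (if 0 < ip w w' ∧ 0 < dt w w' then ‖F w w' - G w w'‖ else 0) := by
    unfold PS
    refine (norm_sum_le _ _).trans (Finset.sum_le_sum fun w _ => ?_)
    refine (norm_sum_le _ _).trans (Finset.sum_le_sum fun w' _ => ?_)
    split_ifs <;> simp
  have h3 : PS b m F = PS b m G + (PS b m F - PS b m G) := by ring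
  calc ‖PS b m F‖ = ‖PS b m G + (PS b m F - PS b m G)‖ := by rw [← h3]
    _ ≤ ‖PS b m G‖ + ‖PS b m F - PS b m G‖ := norm_add_le _ _
    _ ≤ _ := by rw [h]; gcongr

/-- bound for the argument -/
theorem AsmA_y {A P p p' : ℕ} {α β D : ℝ} (hα : 0 ≤ α) (hα1 : α ≤ 1) (hβ : 0 ≤ β) (hβ1 : β ≤ 1)
    (hp : p ∈ pr A P) (hp' : p' ∈ pr A P) (hD : 0 < D) :
    |((p' : ℝ) * α - (p : ℝ) * β) / D| ≤ A * P / D := by
  rw [mem_pr] at hp hp'
  have h1 : (p : ℝ) ≤ A * P := by exact_mod_cast hp.1.2
  have h2 : (p' : ℝ) ≤ A * P := by exact_mod_cast hp'.1.2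
  rw [abs_div, abs_of_pos hD]
  gcongr
  rw [abs_le]
  have h3 : 0 ≤ (p' : ℝ) * α := by positivity
  have h4 : 0 ≤ (p : ℝ) * β := by positivity
  have h5 : (p' : ℝ) * α ≤ A * P := by
    calc (p' : ℝ) * α ≤ p' * 1 := by gcongr
      _ ≤ _ := by linarith
  have h6 : (p : ℝ) * β ≤ A * P := by
    calc (p : ℝ) * β ≤ p * 1 := by gcongr
      _ ≤ _ := by linarith
  constructor <;> linarith

theorem asmA (b : ℝ) (hb : 1 < b) (A : ℕ) (hA : GA A) (ε : ℝ) (hε : 0 < ε) :
    ∃ (δ c : ℝ) (Q : Polynomial ℝ) (P0 : ℕ), 0 < δ ∧ 2 * δ ≤ c ∧ ∀ P : ℕ, P0 ≤ P →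
    ∃ m0 : ℕ, ∀ m : ℕ, m0 ≤ m → ∀ x : ℕ → ℂ, (∀ n, ‖x n‖ ≤ 1) → ∀ H : GI → ℂ, (∀ z, ‖H z‖ ≤ 1) →
    ‖PS b m (fun w w' => H w * (starRingEnd ℂ) (H w') * XX m A P x x (phip b) w w')‖ ≤
      ‖PS b m (fun w w' => H w * (starRingEnd ℂ) (H w') * (cs δ c (tt m P w w') : ℂ) *
        XX m A P x x (fun y => Q.eval y) w w')‖ + ε * m * ((pr A P).card : ℝ) ^ 2 := by
  classical
  obtain ⟨C, hC, hsmall⟩ := small b hb A hA.1
  have hb0 : 0 < b := by linarith
  have hA1 : (1 : ℝ) ≤ A := by
    have := hA.1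
    have h : (1 : ℕ) ≤ A := by omega
    exact_mod_cast h
  set c : ℝ := 2 * A * b ^ 2 with hc
  have hc1 : 2 ≤ c := by
    rw [hc]
    have : 1 ≤ b ^ 2 := one_le_pow₀ hb.le
    nlinarith
  set δ : ℝ := min (1 / 4) (ε / (4 * C)) with hδ
  have hδ0 : 0 < δ := by rw [hδ]; positivity
  have hδ1 : δ ≤ 1 / 4 := min_le_left _ _
  have hδ2 : C * (2 * δ) ≤ ε / 2 := by
    have : δ ≤ ε / (4 * C) := min_le_right _ _
    rw [le_div_iff₀ (by positivity)] at this
    linarith
  obtain ⟨C2, P1, hC2, hcnt⟩ := cnt b hb A hA (δ / b) (2 * c) (by positivity) (by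
    rw [div_le_iff₀ hb0]
    nlinarith)
  -- Weierstrass
  set Y : ℝ := A * b / δ with hY
  obtain ⟨Q, hQ⟩ := exists_polynomial_near_of_continuousOn (-Y) Y (phip b)
    (AsmA_phip_cont b).continuousOn (ε / (2 * C2)) (by positivity)
  refine ⟨δ, c, Q, max P1 1, hδ0, by linarith, fun P hP => ?_⟩
  have hP1 : P1 ≤ P := le_trans (le_max_left _ _) hP
  have hP2 : 1 ≤ P := le_trans (le_max_right _ _) hP
  have hP0 : (0 : ℝ) < P := by exact_mod_cast hP2
  obtain ⟨m1, hm1⟩ := hsmall (2 * δ) (by linarith) (by linarith) P hP2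
  obtain ⟨m2, hm2⟩ := hcnt P hP1
  refine ⟨max (max m1 m2) 1, fun m hm x hx H hH => ?_⟩
  have hmm1 : m1 ≤ m := le_trans (le_trans (le_max_left _ _) (le_max_left _ _)) hm
  have hmm2 : m2 ≤ m := le_trans (le_trans (le_max_right _ _) (le_max_left _ _)) hm
  have hm0 : 1 ≤ m := le_trans (le_max_right _ _) hm
  refine (AsmA_PS _ (fun w w' => H w * (starRingEnd ℂ) (H w') * (cs δ c (tt m P w w') : ℂ) *
        XX m A P x x (fun y => Q.eval y) w w')).trans ?_
  have key : ∑ w ∈ AA b m, ∑ w' ∈ AA b m,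
      (if 0 < ip w w' ∧ 0 < dt w w' then
        ‖H w * (starRingEnd ℂ) (H w') * XX m A P x x (phip b) w w' -
          H w * (starRingEnd ℂ) (H w') * (cs δ c (tt m P w w') : ℂ) *
            XX m A P x x (fun y => Q.eval y) w w'‖ else 0) ≤
      ∑ w ∈ AA b m, ∑ w' ∈ AA b m, ((if 0 < ip w w' ∧ 0 < dt w w' ∧
          (dt w w' : ℝ) ≤ 2 * δ * P then
        (((pr A P ×ˢ pr A P).filter (fun e : ℕ × ℕ =>
          ((dt w w' : ℤ) : GI) ∣ (e.2 : GI) * w - (e.1 : GI) * w' ∧
          phip b (((e.2 : ℝ) * rd m w - (e.1 : ℝ) * rd m w') / (dt w w' : ℝ)) ≠ 0)).card : ℝ)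
        else 0) + ε / (2 * C2) * (if δ / b * P ≤ (dt w w' : ℝ) ∧ (dt w w' : ℝ) ≤ 2 * c * P then
      (NN A P w w' : ℝ) else 0)) := by
    refine Finset.sum_le_sum fun w hw => Finset.sum_le_sum fun w' hw' => ?_
    have hr := AsmA_rd hb hm0 hw
    have hr' := AsmA_rd hb hm0 hw'
    have hnn : 0 ≤ ε / (2 * C2) * (if δ / b * P ≤ (dt w w' : ℝ) ∧ (dt w w' : ℝ) ≤ 2 * c * P then
      (NN A P w w' : ℝ) else 0) := by
      apply mul_nonneg (by positivity)
      split_ifs
      · positivity
      · exact le_rfl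
    have hnn2 : 0 ≤ (if 0 < ip w w' ∧ 0 < dt w w' ∧
          (dt w w' : ℝ) ≤ 2 * δ * P then
        (((pr A P ×ˢ pr A P).filter (fun e : ℕ × ℕ =>
          ((dt w w' : ℤ) : GI) ∣ (e.2 : GI) * w - (e.1 : GI) * w' ∧
          phip b (((e.2 : ℝ) * rd m w - (e.1 : ℝ) * rd m w') / (dt w w' : ℝ)) ≠ 0)).card : ℝ)
        else 0) := by
      split_ifs
      · positivity
      · exact le_rfl
    by_cases hcond : 0 < ip w w' ∧ 0 < dt w w'
    swap
    · rw [if_neg hcond]
      linarith
    rw [if_pos hcond]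
    set D : ℝ := (dt w w' : ℝ) with hD
    have hD0 : 0 < D := by rw [hD]; exact_mod_cast hcond.2
    set t : ℝ := tt m P w w' with ht
    have hαβ : 0 < rd m w * rd m w' := mul_pos hr.1 hr'.1
    have hαβ1 : rd m w * rd m w' ≤ 1 := mul_le_one₀ hr.2.1 hr'.1.le hr'.2.1
    have hαβb : 1 / b < rd m w * rd m w' := by
      have h1 : (1 / b) ^ 2 < (rd m w * rd m w') ^ 2 := by
        rw [mul_pow, sq (1 / b)]
        exact mul_lt_mul'' hr.2.2 hr'.2.2 (by positivity) (by positivity)
      exact lt_of_pow_lt_pow_left₀ 2 hαβ.le h1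
    have htD : t * (P * (rd m w * rd m w')) = D := by
      rw [ht]; unfold tt
      rw [← hD]
      exact div_mul_cancel₀ D (by positivity)
    have ht0 : 0 < t := by
      rw [ht]; unfold tt
      rw [← hD]
      positivity
    have hDt : D ≤ t * P := by
      rw [← htD]
      have : (P : ℝ) * (rd m w * rd m w') ≤ P * 1 := by gcongr
      nlinarith
    have hDt' : t * P / b ≤ D := by
      rw [← htD]
      have : t * P / b = t * (P * (1 / b)) := by ring
      rw [this]
      gcongr
    have hHH : ‖H w * (starRingEnd ℂ) (H w')‖ ≤ 1 := by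
      rw [norm_mul, RCLike.norm_conj]
      exact mul_le_one₀ (hH _) (norm_nonneg _) (hH _)
    have hyb : ∀ p ∈ pr A P, ∀ p' ∈ pr A P,
        |((p' : ℝ) * rd m w - (p : ℝ) * rd m w') / D| ≤ A * P / D := fun p hp p' hp' =>
      AsmA_y hr.1.le hr.2.1 hr'.1.le hr'.2.1 hp hp' hD0
    -- decomposition
    have hdec : ‖H w * (starRingEnd ℂ) (H w') * XX m A P x x (phip b) w w' -
          H w * (starRingEnd ℂ) (H w') * (cs δ c t : ℂ) *
            XX m A P x x (fun y => Q.eval y) w w'‖ ≤
        (1 - cs δ c t) * ‖XX m A P x x (phip b) w w'‖ +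
          cs δ c t * ‖XX m A P x x (phip b) w w' - XX m A P x x (fun y => Q.eval y) w w'‖ := by
      have e1 : H w * (starRingEnd ℂ) (H w') * XX m A P x x (phip b) w w' -
          H w * (starRingEnd ℂ) (H w') * (cs δ c t : ℂ) *
            XX m A P x x (fun y => Q.eval y) w w' =
          (H w * (starRingEnd ℂ) (H w')) * (((1 - cs δ c t : ℝ) : ℂ) * XX m A P x x (phip b) w w' +
            (cs δ c t : ℂ) * (XX m A P x x (phip b) w w' - XX m A P x x (fun y => Q.eval y) w w')) := by
        push_cast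
        ring
      rw [e1, norm_mul]
      refine (mul_le_mul_of_nonneg_right hHH (norm_nonneg _)).trans ?_
      rw [one_mul]
      refine (norm_add_le _ _).trans ?_
      rw [norm_mul, norm_mul, Complex.norm_real, Complex.norm_real, Real.norm_eq_abs,
        Real.norm_eq_abs, abs_of_nonneg (cs_nonneg _ _ _),
        abs_of_nonneg (sub_nonneg.2 (cs_le_one _ _ _))]
    refine hdec.trans (add_le_add ?_ ?_)
    · -- (1 - cs) part
      by_cases hts : t ≤ 2 * δ
      · have hDs : D ≤ 2 * δ * P := hDt.trans (by gcongr)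
        rw [if_pos ⟨hcond.1, hcond.2, hDs⟩]
        calc (1 - cs δ c t) * ‖XX m A P x x (phip b) w w'‖ ≤ 1 * ‖XX m A P x x (phip b) w w'‖ := by
              gcongr
              linarith [cs_nonneg δ c t]
          _ = ‖XX m A P x x (phip b) w w'‖ := one_mul _
          _ ≤ _ := AsmA_XX_le hx w w'
      · push Not at hts
        by_cases htc : t ≤ c
        · have : cs δ c t = 1 := by
            unfold cs
            have h1 : 1 ≤ (t - δ) / δ := by
              rw [le_div_iff₀ hδ0]; linarith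
            have h2 : 1 ≤ (2 * c - t) / c := by
              rw [le_div_iff₀ (by linarith)]; linarith
            rw [min_eq_left (le_min h1 h2)]
            exact max_eq_right zero_le_one
          rw [this]
          simpa using hnn2
        · push Not at htc
          have hz : XX m A P x x (phip b) w w' = 0 := by
            unfold XX
            refine Finset.sum_eq_zero fun p hp => Finset.sum_eq_zero fun p' hp' => ?_
            split_ifs with h
            · have hy := hyb p hp p' hp'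
              rw [← hD]
              have hz0 : phip b (((p' : ℝ) * rd m w - (p : ℝ) * rd m w') / D) = 0 := by
                apply AsmA_phip_zero hb
                have h1 : A * P / D ≤ A * b / c := by
                  rw [div_le_div_iff₀ hD0 (by linarith)]
                  have h2 : t * P ≤ D * b := by
                    rw [div_le_iff₀ hb0] at hDt'
                    exact hDt'
                  have h3 : c * P ≤ D * b := le_trans (by gcongr) h2
                  nlinarith
                have h2 : (A : ℝ) * b / c = 1 / (2 * b) := by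
                  rw [hc]
                  field_simp
                have h3 : |((p' : ℝ) * rd m w - (p : ℝ) * rd m w') / D| ≤ 1 / (2 * b) := by
                  rw [← h2]; exact hy.trans h1
                have h4 : 1 / (2 * b) ≤ 1 := by
                  rw [div_le_one (by positivity)]
                  linarith
                rw [← sq_abs]
                have h5 := abs_nonneg (((p' : ℝ) * rd m w - (p : ℝ) * rd m w') / D)
                nlinarith
              rw [hz0]
              simp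
            · rfl
          rw [hz]
          simpa using hnn2
    · -- cs part
      by_cases hcs : cs δ c t = 0
      · rw [hcs, zero_mul]
        exact hnn
      · have hδt : δ < t := by
          by_contra hcon
          push Not at hcon
          apply hcs
          unfold cs
          apply max_eq_left
          refine (min_le_right _ _).trans ((min_le_left _ _).trans ?_)
          apply div_nonpos_of_nonpos_of_nonneg _ hδ0.le
          linarith
        have htc : t < 2 * c := by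
          by_contra hcon
          push Not at hcon
          apply hcs
          unfold cs
          apply max_eq_left
          refine (min_le_right _ _).trans ((min_le_right _ _).trans ?_)
          apply div_nonpos_of_nonpos_of_nonneg _ (by linarith)
          linarith
        have hD1 : δ / b * P ≤ D := by
          refine le_trans ?_ hDt'
          have : δ / b * P = δ * P / b := by ring
          rw [this]
          gcongr
        have hD2 : D ≤ 2 * c * P := hDt.trans (by gcongr)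
        rw [if_pos ⟨hD1, hD2⟩]
        calc cs δ c t * ‖XX m A P x x (phip b) w w' - XX m A P x x (fun y => Q.eval y) w w'‖
            ≤ 1 * ‖XX m A P x x (phip b) w w' - XX m A P x x (fun y => Q.eval y) w w'‖ := by
              gcongr
              exact cs_le_one _ _ _
          _ = ‖XX m A P x x (phip b) w w' - XX m A P x x (fun y => Q.eval y) w w'‖ := one_mul _
          _ ≤ _ := by
              apply AsmA_XX_sub hx _ _ _ (by positivity)
              intro p hp p' hp'
              have hy := hyb p hp p' hp'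
              have hyY : A * P / D ≤ Y := by
                rw [hY, div_le_div_iff₀ hD0 hδ0]
                have : δ * P ≤ D * b := by
                  have h1 : δ / b * P * b ≤ D * b := by gcongr
                  have h2 : δ / b * P * b = δ * P := by field_simp
                  linarith
                nlinarith
              have hyy := abs_le.1 (hy.trans hyY)
              have := hQ (((p' : ℝ) * rd m w - (p : ℝ) * rd m w') / D) ⟨hyy.1, hyy.2⟩
              rw [abs_sub_comm]
              exact this.le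
  have hsum : ∑ w ∈ AA b m, ∑ w' ∈ AA b m, ((if 0 < ip w w' ∧ 0 < dt w w' ∧
          (dt w w' : ℝ) ≤ 2 * δ * P then
        (((pr A P ×ˢ pr A P).filter (fun e : ℕ × ℕ =>
          ((dt w w' : ℤ) : GI) ∣ (e.2 : GI) * w - (e.1 : GI) * w' ∧
          phip b (((e.2 : ℝ) * rd m w - (e.1 : ℝ) * rd m w') / (dt w w' : ℝ)) ≠ 0)).card : ℝ)
        else 0) + ε / (2 * C2) * (if δ / b * P ≤ (dt w w' : ℝ) ∧ (dt w w' : ℝ) ≤ 2 * c * P then
      (NN A P w w' : ℝ) else 0)) ≤ ε * m * ((pr A P).card : ℝ) ^ 2 := by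
    have e1 := hm1 m hmm1
    have e2 := hm2 m hmm2
    simp only [Finset.sum_add_distrib, ← Finset.mul_sum]
    have hq : (0 : ℝ) ≤ m * ((pr A P).card : ℝ) ^ 2 := by positivity
    have e3 : C * (2 * δ) * m * ((pr A P).card : ℝ) ^ 2 ≤ ε / 2 * m * ((pr A P).card : ℝ) ^ 2 := by
      gcongr
    have e4 : ε / (2 * C2) * (C2 * m * ((pr A P).card : ℝ) ^ 2) =
        ε / 2 * m * ((pr A P).card : ℝ) ^ 2 := by
      field_simp
    have e5 := mul_le_mul_of_nonneg_left e2 (show 0 ≤ ε / (2 * C2) by positivity)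
    rw [e4] at e5
    have e6 : ε * m * ((pr A P).card : ℝ) ^ 2 = ε / 2 * m * ((pr A P).card : ℝ) ^ 2 +
      ε / 2 * m * ((pr A P).card : ℝ) ^ 2 := by ring
    rw [e6]
    exact add_le_add (e1.trans e3) e5
  gcongr
  exact key.trans hsum

end Pool.Agent.FCH
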