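import Pool.Agent.FCH.LsxA

set_option autoImplicit false

/-! Module Lsx: the congruence `p'' ≡ k p' (mod D)` on average over `D ≤ C3 P` and `k`.
`D` is good if no prime of `pr A P` divides it.  For good `D` every prime of `pr A P` is coprime to `D`, so
`1[p'' ≡ k p' (D)] = (1/φ(D)) ∑_{ψ mod D} ψ(k) ψ(p') conj ψ(p'')`.  Every `ψ` mod `D` is induced by a unique
primitive `χ` mod `q`, `q ∣ D`, and `ψ(p) = χ(p)`, `ψ(k) = χ(k)` on integers coprime to `D`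
(`DirichletCharacter.primitiveCharacter`, `conductor`).  So
`Xk - Sk = (1/φ(D)) ∑_{q ∣ D, q > Q} ∑_{χ ∈ prc q} χ(k) S_x(χ) conj S_y(χ)`, and
`∑_k |Xk - Sk|² = (1/φ(D)) ∑_{q ∣ D, q > Q} ∑_χ |S_x S_y|²` (orthogonality in `k` mod `D` of the characters `ψ`).
Cauchy-Schwarz in `k`: `∑_k |Xk - Sk| ≤ (∑_{q ∣ D, q>Q} ∑_χ |S_x S_y|²)^(1/2)`; Cauchy-Schwarz in `D ≤ C3 P`:
`∑_D ≤ √(C3 P) (∑_{q > Q} (C3 P / q) ∑_χ |S_x S_y|²)^(1/2) ≤ C3 P √ε' (#pr)²` by `lsx_moment`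
(the number of multiples of `q` up to `C3 P` is `≤ C3 P/q`).
`lsx_bad`: the number of `D ≤ C3 P` which are not good is `≤ C3 #pr`. -/

open Finset

namespace Pool.Agent.FCH

open Pool.Agent.MRS hiding Good

/-- no prime of `pr A P` divides `D` -/
def gd (A P D : ℕ) : Prop := ∀ p ∈ pr A P, ¬ p ∣ D

/-- `∑_{p'' ≡ k p' (mod D)} x_{p'} conj y_{p''}` -/
noncomputable def Xk (A P D : ℕ) (x y : ℕ → ℂ) (k : ℕ) : ℂ :=
  open Classical in
  ∑ p ∈ pr A P, ∑ p' ∈ pr A P, if p' ≡ k * p [MOD D] then x p * (starRingEnd ℂ) (y p') else 0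

/-- the part of `Xk` given by the characters of conductor `≤ Q` -/
noncomputable def Sk (A P Q D : ℕ) (x y : ℕ → ℂ) (k : ℕ) : ℂ :=
  (1 / (D.totient : ℂ)) * ∑ q ∈ (Icc 1 Q).filter (fun q => q ∣ D), ∑ χ ∈ prc q,
    χ k * ((∑ p ∈ pr A P, x p * χ p) * (starRingEnd ℂ) (∑ p ∈ pr A P, y p * χ p))

/-! ### helpers -/

/-- character sum over `pr A P` -/
noncomputable def Lsx_S (A P : ℕ) (x : ℕ → ℂ) {n : ℕ} (χ : DirichletCharacter ℂ n) : ℂ :=
  ∑ p ∈ pr A P, x p * χ p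

noncomputable def Lsx_T (A P : ℕ) (x y : ℕ → ℂ) {n : ℕ} (χ : DirichletCharacter ℂ n) : ℂ :=
  Lsx_S A P x χ * (starRingEnd ℂ) (Lsx_S A P y χ)

theorem Lsx_cond {D : ℕ} [NeZero D] {q : ℕ} (hq : q ∣ D) {E : Type*} [AddCommMonoid E]
    (f : DirichletCharacter ℂ D → E) :
    open Classical in
    ∑ ψ ∈ (univ : Finset (DirichletCharacter ℂ D)).filter (fun ψ => ψ.conductor = q), f ψ =
      ∑ χ ∈ prc q, f (DirichletCharacter.changeLevel hq χ) := by
  classical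
  have hq0 : q ≠ 0 := by rintro rfl; exact NeZero.ne D (zero_dvd_iff.1 hq)
  symm
  refine sum_bij (fun χ _ => DirichletCharacter.changeLevel hq χ) ?_ ?_ ?_ ?_
  · intro χ hχ
    rw [mem_filter]
    refine ⟨mem_univ _, ?_⟩
    rw [DirichletCharacter.conductor_changeLevel]
    exact (mem_prc hq0 χ).1 hχ
  · intro χ _ χ' _ h
    exact DirichletCharacter.changeLevel_injective hq h
  · intro ψ hψ
    rw [mem_filter] at hψ
    obtain ⟨_, h⟩ := hψ
    subst h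
    exact ⟨ψ.primitiveCharacter, (mem_prc hq0 _).2 ψ.primitiveCharacter_isPrimitive,
      ψ.changeLevel_primitiveCharacter⟩
  · intros; rfl

theorem Lsx_orth {D : ℕ} [NeZero D] (ψ ψ' : DirichletCharacter ℂ D) :
    open Classical in
    ∑ a : ZMod D, ψ a * (starRingEnd ℂ) (ψ' a) = if ψ = ψ' then (D.totient : ℂ) else 0 := by
  classical
  have h1 : ∀ a : ZMod D, ψ a * (starRingEnd ℂ) (ψ' a) = (ψ * ψ'⁻¹) a := by
    intro a
    rw [MulChar.mul_apply, ← MulChar.star_apply' ψ' a]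
    rfl
  rw [sum_congr rfl (fun a _ => h1 a)]
  split_ifs with h
  · rw [h, mul_inv_cancel, MulChar.sum_one_eq_card_units, ZMod.card_units_eq_totient]
  · exact MulChar.sum_eq_zero_of_ne_one (fun h' => h (mul_inv_eq_one.1 h'))

theorem Lsx_parseval {D : ℕ} [NeZero D] (s : Finset (DirichletCharacter ℂ D))
    (c : DirichletCharacter ℂ D → ℂ) :
    ∑ a : ZMod D, ‖∑ ψ ∈ s, c ψ * ψ a‖ ^ 2 = D.totient * ∑ ψ ∈ s, ‖c ψ‖ ^ 2 := by
  classical
  have h0 : ∀ z : ℂ, ((‖z‖ ^ 2 : ℝ) : ℂ) = z * (starRingEnd ℂ) z := by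
    intro z
    rw [Complex.mul_conj, Complex.normSq_eq_norm_sq]
  have h1 : ((∑ a : ZMod D, ‖∑ ψ ∈ s, c ψ * ψ a‖ ^ 2 : ℝ) : ℂ) =
      ((D.totient * ∑ ψ ∈ s, ‖c ψ‖ ^ 2 : ℝ) : ℂ) := by
    rw [Complex.ofReal_sum, Complex.ofReal_mul, Complex.ofReal_sum]
    rw [sum_congr rfl (fun a _ => h0 _), sum_congr (s₁ := s) rfl (fun ψ _ => h0 (c ψ))]
    have h2 : ∀ a : ZMod D, (∑ ψ ∈ s, c ψ * ψ a) * (starRingEnd ℂ) (∑ ψ ∈ s, c ψ * ψ a) =
        ∑ ψ ∈ s, ∑ ψ' ∈ s, (c ψ * (starRingEnd ℂ) (c ψ')) * (ψ a * (starRingEnd ℂ) (ψ' a)) := by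
      intro a
      rw [map_sum, sum_mul_sum]
      refine sum_congr rfl (fun ψ _ => sum_congr rfl (fun ψ' _ => ?_))
      rw [map_mul]
      ring
    rw [sum_congr rfl (fun a _ => h2 a), sum_comm, mul_sum]
    refine sum_congr rfl (fun ψ hψ => ?_)
    rw [sum_comm]
    have h3 : ∀ ψ' ∈ s, ∑ a : ZMod D, (c ψ * (starRingEnd ℂ) (c ψ')) * (ψ a * (starRingEnd ℂ) (ψ' a)) =
        (c ψ * (starRingEnd ℂ) (c ψ')) * (if ψ = ψ' then (D.totient : ℂ) else 0) := by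
      intro ψ' _
      rw [← mul_sum, Lsx_orth]
    rw [sum_congr rfl h3]
    simp only [mul_ite, mul_zero, sum_ite_eq, hψ, if_true]
    push_cast
    ring
  exact_mod_cast h1

theorem Lsx_range {D : ℕ} [NeZero D] (F : ZMod D → ℝ) (hF : ∀ a, 0 ≤ F a) (s : Finset ℕ)
    (hs : s ⊆ range D) : ∑ k ∈ s, F (k : ZMod D) ≤ ∑ a : ZMod D, F a := by
  classical
  have hinj : Set.InjOn (fun k : ℕ => (k : ZMod D)) (s : Set ℕ) := by
    intro k hk k' hk' h
    have h1 : k % D = k' % D := (ZMod.natCast_eq_natCast_iff' _ _ _).1 h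
    rw [Nat.mod_eq_of_lt (mem_range.1 (hs hk)), Nat.mod_eq_of_lt (mem_range.1 (hs hk'))] at h1
    exact h1
  rw [← sum_image (f := F) hinj]
  exact sum_le_sum_of_subset_of_nonneg (subset_univ _) (fun a _ _ => hF a)

theorem Lsx_cop {A P D p : ℕ} (h : gd A P D) (hp : p ∈ pr A P) : Nat.Coprime p D := by
  have h1 := (mem_pr.1 hp).2.1
  exact (Nat.Prime.coprime_iff_not_dvd h1).2 (h p hp)

theorem Lsx_level {A P D q : ℕ} (hq : q ∣ D) (h : gd A P D) (x : ℕ → ℂ) (χ : DirichletCharacter ℂ q) :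
    Lsx_S A P x (DirichletCharacter.changeLevel hq χ) = Lsx_S A P x χ := by
  unfold Lsx_S
  refine sum_congr rfl (fun p hp => ?_)
  have h1 : IsCoprime (p : ℤ) (D : ℤ) := Nat.isCoprime_iff_coprime.2 (Lsx_cop h hp)
  have h2 := DirichletCharacter.changeLevel_eq_cast_of_dvd' χ hq h1
  simp only [Int.cast_natCast] at h2
  rw [h2]

theorem Lsx_level1 {D q k : ℕ} (hq : q ∣ D) (h : Nat.Coprime k D) (χ : DirichletCharacter ℂ q) :
    (DirichletCharacter.changeLevel hq χ) k = χ k := by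
  have h1 : IsCoprime (k : ℤ) (D : ℤ) := Nat.isCoprime_iff_coprime.2 h
  have h2 := DirichletCharacter.changeLevel_eq_cast_of_dvd' χ hq h1
  simpa only [Int.cast_natCast] using h2

theorem Lsx_X {A P D : ℕ} [NeZero D] (h : gd A P D) (x y : ℕ → ℂ) (k : ℕ) :
    Xk A P D x y k = (1 / (D.totient : ℂ)) * ∑ ψ : DirichletCharacter ℂ D, ψ k * Lsx_T A P x y ψ := by
  classical
  have hφ : (D.totient : ℂ) ≠ 0 := by
    have : 0 < D.totient := Nat.totient_pos.2 (Nat.pos_of_ne_zero (NeZero.ne D))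
    exact_mod_cast this.ne'
  have h1 : ∀ ψ : DirichletCharacter ℂ D, ψ k * Lsx_T A P x y ψ =
      ∑ p ∈ pr A P, ∑ p' ∈ pr A P, (x p * (starRingEnd ℂ) (y p')) *
        (ψ (p' : ZMod D)⁻¹ * ψ (((k * p : ℕ)) : ZMod D)) := by
    intro ψ
    unfold Lsx_T Lsx_S
    rw [map_sum, sum_mul_sum, mul_sum]
    refine sum_congr rfl (fun p hp => ?_)
    rw [mul_sum]
    refine sum_congr rfl (fun p' hp' => ?_)
    have hu : IsUnit (p' : ZMod D) := (ZMod.isUnit_iff_coprime p' D).2 (Lsx_cop h hp')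
    have e1 : (starRingEnd ℂ) (ψ (p' : ZMod D)) = ψ (p' : ZMod D)⁻¹ := by
      have e2 : star (ψ (p' : ZMod D)) = ψ⁻¹ (p' : ZMod D) := MulChar.star_apply' ψ _
      have e3 : ψ⁻¹ (p' : ZMod D) = (ψ (p' : ZMod D))⁻¹ := MulChar.inv_apply_eq_inv' ψ _
      have e4 : ψ (p' : ZMod D)⁻¹ * ψ (p' : ZMod D) = 1 := by
        rw [← map_mul, ZMod.inv_mul_of_unit _ hu, map_one]
      have e5 : ψ (p' : ZMod D)⁻¹ = (ψ (p' : ZMod D))⁻¹ := eq_inv_of_mul_eq_one_left e4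
      rw [e5, ← e3, ← e2]
      rfl
    rw [map_mul, e1]
    push_cast
    rw [map_mul]
    ring
  rw [sum_congr rfl (fun ψ _ => h1 ψ), sum_comm, mul_sum]
  unfold Xk
  refine sum_congr rfl (fun p hp => ?_)
  rw [sum_comm, mul_sum]
  refine sum_congr rfl (fun p' hp' => ?_)
  have hu : IsUnit (p' : ZMod D) := (ZMod.isUnit_iff_coprime p' D).2 (Lsx_cop h hp')
  rw [← mul_sum, DirichletCharacter.sum_char_inv_mul_char_eq ℂ hu]
  have e1 : ((p' : ZMod D) = ((k * p : ℕ) : ZMod D)) ↔ p' ≡ k * p [MOD D] :=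
    ZMod.natCast_eq_natCast_iff _ _ _
  by_cases hc : p' ≡ k * p [MOD D]
  · rw [if_pos hc, if_pos (e1.2 hc)]
    field_simp
  · rw [if_neg hc, if_neg (fun h' => hc (e1.1 h'))]
    ring

theorem Lsx_Sk {A P Q D : ℕ} [NeZero D] (h : gd A P D) (x y : ℕ → ℂ) (k : ℕ) (hk : Nat.Coprime k D) :
    open Classical in
    Sk A P Q D x y k = (1 / (D.totient : ℂ)) *
      ∑ ψ ∈ (univ : Finset (DirichletCharacter ℂ D)).filter (fun ψ => ψ.conductor ≤ Q),
        ψ k * Lsx_T A P x y ψ := by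
  classical
  unfold Sk
  congr 1
  have hmaps : ∀ ψ ∈ (univ : Finset (DirichletCharacter ℂ D)).filter (fun ψ => ψ.conductor ≤ Q),
      ψ.conductor ∈ (Icc 1 Q).filter (fun q => q ∣ D) := by
    intro ψ hψ
    rw [mem_filter] at hψ
    rw [mem_filter, mem_Icc]
    exact ⟨⟨Nat.one_le_iff_ne_zero.2 ψ.conductor_ne_zero, hψ.2⟩, ψ.conductor_dvd_level⟩
  rw [← sum_fiberwise_of_maps_to hmaps]
  refine sum_congr rfl (fun q hq => ?_)
  rw [mem_filter, mem_Icc] at hq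
  rw [filter_filter]
  have hf : (univ : Finset (DirichletCharacter ℂ D)).filter (fun ψ => ψ.conductor ≤ Q ∧ ψ.conductor = q) =
      (univ : Finset (DirichletCharacter ℂ D)).filter (fun ψ => ψ.conductor = q) := by
    apply filter_congr
    intro ψ _
    constructor
    · exact fun h => h.2
    · intro h
      exact ⟨by rw [h]; exact hq.1.2, h⟩
  rw [hf, Lsx_cond hq.2]
  refine sum_congr rfl (fun χ _ => ?_)
  rw [Lsx_level1 hq.2 hk]
  unfold Lsx_T
  rw [Lsx_level hq.2 h, Lsx_level hq.2 h]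
  rfl

theorem Lsx_diff {A P Q D : ℕ} [NeZero D] (h : gd A P D) (x y : ℕ → ℂ) (k : ℕ) (hk : Nat.Coprime k D) :
    open Classical in
    Xk A P D x y k - Sk A P Q D x y k =
      ∑ ψ ∈ (univ : Finset (DirichletCharacter ℂ D)).filter (fun ψ => ¬ ψ.conductor ≤ Q),
        ((1 / (D.totient : ℂ)) * Lsx_T A P x y ψ) * ψ k := by
  classical
  rw [Lsx_X h, Lsx_Sk h x y k hk]
  rw [← sum_filter_add_sum_filter_not (univ : Finset (DirichletCharacter ℂ D)) (fun ψ => ψ.conductor ≤ Q)]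
  rw [mul_add, add_sub_cancel_left, mul_sum]
  refine sum_congr rfl (fun ψ _ => ?_)
  ring

/-- the sum of `|T|²` over the characters mod `D` of conductor `> Q` -/
noncomputable def Lsx_g (A P : ℕ) (x y : ℕ → ℂ) (q : ℕ) : ℝ :=
  ∑ χ ∈ prc q, ‖(∑ p ∈ pr A P, x p * χ p) * (∑ p ∈ pr A P, y p * χ p)‖ ^ 2

theorem Lsx_g_nonneg (A P : ℕ) (x y : ℕ → ℂ) (q : ℕ) : 0 ≤ Lsx_g A P x y q :=
  sum_nonneg (fun _ _ => by positivity)

theorem Lsx_V {A P Q D N : ℕ} [NeZero D] (hDN : D ≤ N) (h : gd A P D) (x y : ℕ → ℂ) :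
    open Classical in
    ∑ ψ ∈ (univ : Finset (DirichletCharacter ℂ D)).filter (fun ψ => ¬ ψ.conductor ≤ Q),
        ‖Lsx_T A P x y ψ‖ ^ 2 = ∑ q ∈ (Ioc Q N).filter (fun q => q ∣ D), Lsx_g A P x y q := by
  classical
  have hmaps : ∀ ψ ∈ (univ : Finset (DirichletCharacter ℂ D)).filter (fun ψ => ¬ ψ.conductor ≤ Q),
      ψ.conductor ∈ (Ioc Q N).filter (fun q => q ∣ D) := by
    intro ψ hψ
    rw [mem_filter] at hψ
    rw [mem_filter, mem_Ioc]
    refine ⟨⟨not_le.1 hψ.2, ?_⟩, ψ.conductor_dvd_level⟩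
    exact (Nat.le_of_dvd (Nat.pos_of_ne_zero (NeZero.ne D)) ψ.conductor_dvd_level).trans hDN
  rw [← sum_fiberwise_of_maps_to hmaps]
  refine sum_congr rfl (fun q hq => ?_)
  rw [mem_filter, mem_Ioc] at hq
  rw [filter_filter]
  have hf : (univ : Finset (DirichletCharacter ℂ D)).filter (fun ψ => ¬ ψ.conductor ≤ Q ∧ ψ.conductor = q) =
      (univ : Finset (DirichletCharacter ℂ D)).filter (fun ψ => ψ.conductor = q) := by
    apply filter_congr
    intro ψ _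
    constructor
    · exact fun h => h.2
    · intro h
      exact ⟨by rw [h]; exact not_le.2 hq.1.1, h⟩
  rw [hf, Lsx_cond hq.2]
  unfold Lsx_g
  refine sum_congr rfl (fun χ _ => ?_)
  unfold Lsx_T
  rw [Lsx_level hq.2 h, Lsx_level hq.2 h]
  unfold Lsx_S
  rw [norm_mul, norm_mul, RCLike.norm_conj]

theorem Lsx_one {A P Q D N : ℕ} (hD : 1 ≤ D) (hDN : D ≤ N) (h : gd A P D) (x y : ℕ → ℂ) :
    open Classical in
    (∑ k ∈ (range D).filter (fun k => Nat.Coprime k D), ‖Xk A P D x y k - Sk A P Q D x y k‖) ^ 2 ≤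
      ∑ q ∈ (Ioc Q N).filter (fun q => q ∣ D), Lsx_g A P x y q := by
  classical
  have : NeZero D := ⟨by omega⟩
  have hφ : 0 < D.totient := Nat.totient_pos.2 (by omega)
  have hφR : (0 : ℝ) < D.totient := by exact_mod_cast hφ
  have hcard : ((range D).filter (fun k => Nat.Coprime k D)).card = D.totient := by
    rw [Nat.totient_eq_card_coprime]
    congr 1
    apply filter_congr
    intro k _
    exact Nat.coprime_comm
  have h1 := sq_sum_le_card_mul_sum_sq (s := (range D).filter (fun k => Nat.Coprime k D))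
    (f := fun k => ‖Xk A P D x y k - Sk A P Q D x y k‖)
  refine h1.trans ?_
  rw [hcard]
  set s := (univ : Finset (DirichletCharacter ℂ D)).filter (fun ψ => ¬ ψ.conductor ≤ Q) with hs
  have h2 : ∑ k ∈ (range D).filter (fun k => Nat.Coprime k D), ‖Xk A P D x y k - Sk A P Q D x y k‖ ^ 2 ≤
      D.totient * ∑ ψ ∈ s, ‖(1 / (D.totient : ℂ)) * Lsx_T A P x y ψ‖ ^ 2 := by
    rw [← Lsx_parseval s]
    have h3 : ∀ k ∈ (range D).filter (fun k => Nat.Coprime k D),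
        ‖Xk A P D x y k - Sk A P Q D x y k‖ ^ 2 =
          (fun a : ZMod D => ‖∑ ψ ∈ s, ((1 / (D.totient : ℂ)) * Lsx_T A P x y ψ) * ψ a‖ ^ 2) (k : ZMod D) := by
      intro k hk
      rw [mem_filter] at hk
      rw [Lsx_diff h x y k hk.2]
    rw [sum_congr rfl h3]
    exact Lsx_range (fun a : ZMod D => ‖∑ ψ ∈ s, ((1 / (D.totient : ℂ)) * Lsx_T A P x y ψ) * ψ a‖ ^ 2)
      (fun a => by positivity) ((range D).filter (fun k => Nat.Coprime k D)) (filter_subset _ _)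
  have h4 : ∑ ψ ∈ s, ‖(1 / (D.totient : ℂ)) * Lsx_T A P x y ψ‖ ^ 2 =
      (1 / (D.totient : ℝ)) ^ 2 * ∑ ψ ∈ s, ‖Lsx_T A P x y ψ‖ ^ 2 := by
    rw [mul_sum]
    refine sum_congr rfl (fun ψ _ => ?_)
    rw [norm_mul, mul_pow, norm_div, norm_one, Complex.norm_natCast]
  rw [h4, Lsx_V hDN h] at h2
  calc (D.totient : ℝ) * ∑ k ∈ (range D).filter (fun k => Nat.Coprime k D),
        ‖Xk A P D x y k - Sk A P Q D x y k‖ ^ 2
      ≤ D.totient * (D.totient * ((1 / (D.totient : ℝ)) ^ 2 *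
          ∑ q ∈ (Ioc Q N).filter (fun q => q ∣ D), Lsx_g A P x y q)) :=
        mul_le_mul_of_nonneg_left h2 hφR.le
    _ = ∑ q ∈ (Ioc Q N).filter (fun q => q ∣ D), Lsx_g A P x y q := by
        field_simp

theorem Lsx_mult (N q : ℕ) : ((Icc 1 N).filter (fun D => q ∣ D)).card = N / q := by
  have : Icc 1 N = Ioc 0 N := by ext; simp [Nat.succ_le_iff]
  rw [this]
  exact Nat.Ioc_filter_dvd_card_eq_div N q

theorem lsx (A : ℕ) (hA : GA A) (C3 ε : ℝ) (hC3 : 1 ≤ C3) (hε : 0 < ε) :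
    ∃ Q P0 : ℕ, 1 ≤ Q ∧ ∀ P : ℕ, P0 ≤ P → ∀ x y : ℕ → ℂ, (∀ n, ‖x n‖ ≤ 1) → (∀ n, ‖y n‖ ≤ 1) →
    open Classical in
    ∑ D ∈ (Icc 1 ⌊C3 * P⌋₊).filter (gd A P), ∑ k ∈ (range D).filter (fun k => Nat.Coprime k D),
      ‖Xk A P D x y k - Sk A P Q D x y k‖ ≤ ε * P * ((pr A P).card : ℝ) ^ 2 := by
  classical
  have hC0 : 0 < C3 := by linarith
  obtain ⟨Q, P0, hQ, hmain⟩ := lsx_moment A hA C3 ((ε / C3) ^ 2) hC3 (by positivity)
  refine ⟨Q, P0, hQ, ?_⟩
  intro P hP x y hx hy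
  set N := ⌊C3 * P⌋₊ with hN
  have hNle : (N : ℝ) ≤ C3 * P := Nat.floor_le (by positivity)
  have h1 := hmain P hP x y hx hy
  have h2 := sq_sum_le_card_mul_sum_sq (s := (Icc 1 N).filter (gd A P))
    (f := fun D => ∑ k ∈ (range D).filter (fun k => Nat.Coprime k D),
      ‖Xk A P D x y k - Sk A P Q D x y k‖)
  have hcard : ((((Icc 1 N).filter (gd A P)).card : ℕ) : ℝ) ≤ C3 * P := by
    refine le_trans ?_ hNle
    have : ((Icc 1 N).filter (gd A P)).card ≤ N := by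
      refine (card_filter_le _ _).trans ?_
      simp
    exact_mod_cast this
  have h3 : ∑ D ∈ (Icc 1 N).filter (gd A P), (∑ k ∈ (range D).filter (fun k => Nat.Coprime k D),
      ‖Xk A P D x y k - Sk A P Q D x y k‖) ^ 2 ≤ C3 * P * ((ε / C3) ^ 2 * ((pr A P).card : ℝ) ^ 4) := by
    calc ∑ D ∈ (Icc 1 N).filter (gd A P), (∑ k ∈ (range D).filter (fun k => Nat.Coprime k D),
          ‖Xk A P D x y k - Sk A P Q D x y k‖) ^ 2
        ≤ ∑ D ∈ (Icc 1 N).filter (gd A P), ∑ q ∈ (Ioc Q N).filter (fun q => q ∣ D), Lsx_g A P x y q := by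
          apply sum_le_sum
          intro D hD
          rw [mem_filter, mem_Icc] at hD
          exact Lsx_one hD.1.1 hD.1.2 hD.2 x y
      _ ≤ ∑ D ∈ Icc 1 N, ∑ q ∈ (Ioc Q N).filter (fun q => q ∣ D), Lsx_g A P x y q := by
          apply sum_le_sum_of_subset_of_nonneg (filter_subset _ _)
          intro D _ _
          exact sum_nonneg (fun q _ => Lsx_g_nonneg A P x y q)
      _ = ∑ D ∈ Icc 1 N, ∑ q ∈ Ioc Q N, if q ∣ D then Lsx_g A P x y q else 0 := by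
          refine sum_congr rfl (fun D _ => ?_)
          rw [sum_filter]
      _ = ∑ q ∈ Ioc Q N, ((N / q : ℕ) : ℝ) * Lsx_g A P x y q := by
          rw [sum_comm]
          refine sum_congr rfl (fun q _ => ?_)
          rw [← sum_filter, sum_const, Lsx_mult, nsmul_eq_mul]
      _ ≤ ∑ q ∈ Ioc Q N, C3 * P * ((1 / (q : ℝ)) * Lsx_g A P x y q) := by
          apply sum_le_sum
          intro q hq
          rw [mem_Ioc] at hq
          have hq0 : (0 : ℝ) < q := by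
            have : 0 < q := by omega
            exact_mod_cast this
          have h5 : ((N / q : ℕ) : ℝ) ≤ C3 * P * (1 / (q : ℝ)) := by
            refine (Nat.cast_div_le).trans ?_
            rw [mul_one_div]
            exact div_le_div_of_nonneg_right hNle hq0.le
          calc ((N / q : ℕ) : ℝ) * Lsx_g A P x y q ≤ (C3 * P * (1 / (q : ℝ))) * Lsx_g A P x y q :=
                mul_le_mul_of_nonneg_right h5 (Lsx_g_nonneg A P x y q)
            _ = C3 * P * ((1 / (q : ℝ)) * Lsx_g A P x y q) := by ring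
      _ = C3 * P * ∑ q ∈ Ioc Q N, (1 / (q : ℝ)) * Lsx_g A P x y q := by rw [mul_sum]
      _ ≤ C3 * P * ((ε / C3) ^ 2 * ((pr A P).card : ℝ) ^ 4) :=
          mul_le_mul_of_nonneg_left h1 (by positivity)
  have h4 : (∑ D ∈ (Icc 1 N).filter (gd A P), ∑ k ∈ (range D).filter (fun k => Nat.Coprime k D),
      ‖Xk A P D x y k - Sk A P Q D x y k‖) ^ 2 ≤ (ε * P * ((pr A P).card : ℝ) ^ 2) ^ 2 := by
    refine h2.trans ?_
    calc ((((Icc 1 N).filter (gd A P)).card : ℕ) : ℝ) * ∑ D ∈ (Icc 1 N).filter (gd A P),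
          (∑ k ∈ (range D).filter (fun k => Nat.Coprime k D),
          ‖Xk A P D x y k - Sk A P Q D x y k‖) ^ 2
        ≤ (C3 * P) * (C3 * P * ((ε / C3) ^ 2 * ((pr A P).card : ℝ) ^ 4)) :=
          mul_le_mul hcard h3 (sum_nonneg (fun _ _ => by positivity)) (by positivity)
      _ = (ε * P * ((pr A P).card : ℝ) ^ 2) ^ 2 := by
          field_simp
  exact le_of_sq_le_sq h4 (by positivity)

theorem lsx_bad (A : ℕ) (hA : 2 ≤ A) (C3 : ℝ) (hC3 : 1 ≤ C3) (P : ℕ) (hP : 1 ≤ P) :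
    open Classical in
    (((Icc 1 ⌊C3 * P⌋₊).filter (fun D => ¬ gd A P D)).card : ℝ) ≤ C3 * (pr A P).card := by
  classical
  have hC0 : 0 < C3 := by linarith
  set N := ⌊C3 * P⌋₊ with hN
  have hNle : (N : ℝ) ≤ C3 * P := Nat.floor_le (by positivity)
  have h1 : (Icc 1 N).filter (fun D => ¬ gd A P D) ⊆
      (pr A P).biUnion (fun p => (Icc 1 N).filter (fun D => p ∣ D)) := by
    intro D hD
    rw [mem_filter] at hD
    have h2 := hD.2
    unfold gd at h2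
    push Not at h2
    obtain ⟨p, hp, hpD⟩ := h2
    rw [mem_biUnion]
    exact ⟨p, hp, mem_filter.2 ⟨hD.1, hpD⟩⟩
  have h2 : ((Icc 1 N).filter (fun D => ¬ gd A P D)).card ≤ ∑ p ∈ pr A P, N / p := by
    refine (card_le_card h1).trans (card_biUnion_le.trans ?_)
    exact sum_le_sum (fun p _ => (Lsx_mult N p).le)
  have h3 : (((Icc 1 N).filter (fun D => ¬ gd A P D)).card : ℝ) ≤ ∑ p ∈ pr A P, ((N / p : ℕ) : ℝ) := by
    exact_mod_cast h2
  refine h3.trans ?_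
  calc ∑ p ∈ pr A P, ((N / p : ℕ) : ℝ) ≤ ∑ p ∈ pr A P, C3 := by
        apply sum_le_sum
        intro p hp
        have hp1 := (mem_pr.1 hp).1.1
        have hP0 : (0 : ℝ) < P := by exact_mod_cast hP
        have hp0 : (P : ℝ) ≤ p := by exact_mod_cast hp1.le
        refine (Nat.cast_div_le).trans ?_
        rw [div_le_iff₀ (by linarith)]
        nlinarith
    _ = C3 * (pr A P).card := by rw [sum_const, nsmul_eq_mul]; ring

end Pool.Agent.FCH
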