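import Pool.Agent.FCH.Base
import Pool.Agent.MRS.DetCount

set_option autoImplicit false

/-! Module Pack: packing lemma and trivial counts.
`pack`: pairs `(z, w)`, `det = ± n`, `w ≡ k z (mod n)`.  Write `w = k z + n u`, then `det(z,u) = ± 1`.  Consider the complex
number `τ = u / z`: `|τ + k/n| = |w|/(n|z|) ≤ B/n` and `|Im τ| = 1/|z|² ∈ [1/(B m), B/m]`.  For two such pairs
`τ - τ' = (u z' - u' z)/(z z')` and the numerator is a Gaussian integer: if `τ ≠ τ'` then `|τ - τ'| ≥ 1/(B m)`.  If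
`τ = τ'`: `z, u` are coprime (a common divisor `g` has `N(g) ∣ det(z,u) = ± 1`), so `z' = ε z`, `u' = ε u`, `ε` a unit:
at most 4 pairs for each `τ`.  Counting: cells of side `1/(2Bm)`. -/

open Finset

namespace Pool.Agent.FCH

open Pool.Agent.MRS hiding Good

/-- quotient `(w - k z) / n` -/
def Pack_u (n : ℕ) (k : ℤ) (z w : GI) : GI := ⟨(w.re - k * z.re) / n, (w.im - k * z.im) / n⟩

theorem Pack_u_spec {n : ℕ} {k : ℤ} {z w : GI} (h : cg n w ((k : GI) * z)) :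
    (n : ℤ) * (Pack_u n k z w).re = w.re - k * z.re ∧ (n : ℤ) * (Pack_u n k z w).im = w.im - k * z.im := by
  have h1 : ((k : GI) * z).re = k * z.re := by simp
  have h2 : ((k : GI) * z).im = k * z.im := by simp
  unfold cg at h
  rw [h1, h2] at h
  unfold Pack_u
  exact ⟨Int.mul_ediv_cancel' h.1, Int.mul_ediv_cancel' h.2⟩

theorem Pack_coprime {z u : GI} (h : (dt z u).natAbs = 1) : IsCoprime z u := by
  rw [← EuclideanDomain.gcd_isUnit_iff]
  obtain ⟨a, ha⟩ := EuclideanDomain.gcd_dvd_left z u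
  obtain ⟨b, hb⟩ := EuclideanDomain.gcd_dvd_right z u
  set g := EuclideanDomain.gcd z u with hg
  have h1 : dt z u = nm g * dt a b := by
    conv_lhs => rw [ha, hb]
    exact dt_mul g a b
  rw [h1, Int.natAbs_mul, Int.natAbs_natCast] at h
  exact PMU_unit_of_nm (Nat.eq_one_of_mul_eq_one_right h)

theorem Pack_ip_le {z w : GI} : (ip z w : ℝ) ^ 2 ≤ (nm z : ℝ) * nm w := by
  have h := ip_sq_add z w
  have h1 : (ip z w : ℝ) ^ 2 + (dt z w : ℝ) ^ 2 = (nm z : ℝ) * nm w := by exact_mod_cast h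
  nlinarith [sq_nonneg (dt z w : ℝ)]

theorem Pack_sep {z u z' u' : GI} (hz : z ≠ 0) (hz' : z' ≠ 0) :
    ((ip z u : ℝ) / nm z - (ip z' u' : ℝ) / nm z') ^ 2 + ((dt z u : ℝ) / nm z - (dt z' u' : ℝ) / nm z') ^ 2 =
      (nm (u * z' - u' * z) : ℝ) / (nm z * nm z') := by
  have hN : (nm z : ℝ) ≠ 0 := by
    have := nm_pos hz
    positivity
  have hN' : (nm z' : ℝ) ≠ 0 := by
    have := nm_pos hz'
    positivity
  have h1 : (ip z u : ℝ) = z.re * u.re + z.im * u.im := by unfold ip; push_cast; ring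
  have h2 : (ip z' u' : ℝ) = z'.re * u'.re + z'.im * u'.im := by unfold ip; push_cast; ring
  have h3 : (dt z u : ℝ) = z.re * u.im - z.im * u.re := by unfold dt; push_cast; ring
  have h4 : (dt z' u' : ℝ) = z'.re * u'.im - z'.im * u'.re := by unfold dt; push_cast; ring
  have h5 : (nm (u * z' - u' * z) : ℝ) =
      ((u.re : ℝ) * z'.re - u.im * z'.im - (u'.re * z.re - u'.im * z.im)) ^ 2 +
      ((u.re : ℝ) * z'.im + u.im * z'.re - (u'.re * z.im + u'.im * z.re)) ^ 2 := by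
    rw [nm_real]
    simp only [Zsqrtd.re_sub, Zsqrtd.re_mul, Zsqrtd.im_sub, Zsqrtd.im_mul]
    push_cast
    ring
  have hz1 := nm_real z
  have hz2 := nm_real z'
  rw [h5, h1, h2, h3, h4]
  rw [hz1] at hN ⊢
  rw [hz2] at hN' ⊢
  field_simp
  ring

theorem card_bal (Y : ℝ) (hY : 1 ≤ Y) : ((bal Y).card : ℝ) ≤ 9 * Y := by
  classical
  have hs : 1 ≤ √Y := by rwa [Real.one_le_sqrt]
  have hsq : √Y ^ 2 = Y := Real.sq_sqrt (by linarith)
  have hsub : bal Y ⊆ ((Icc (-(⌊√Y⌋₊ : ℤ)) (⌊√Y⌋₊ : ℤ)) ×ˢ (Icc (-(⌊√Y⌋₊ : ℤ)) (⌊√Y⌋₊ : ℤ))).image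
    (fun p : ℤ × ℤ => (⟨p.1, p.2⟩ : GI)) := by
    intro z hz
    rw [mem_bal, nm_real] at hz
    rw [Finset.mem_image]
    have hx : ∀ x : ℤ, (x : ℝ) ^ 2 ≤ Y → x ∈ Icc (-(⌊√Y⌋₊ : ℤ)) (⌊√Y⌋₊ : ℤ) := by
      intro x hx
      have h1 : |(x : ℝ)| ≤ √Y := Real.abs_le_sqrt hx
      have h2 : x.natAbs ≤ ⌊√Y⌋₊ := by
        apply Nat.le_floor
        rw [Nat.cast_natAbs, Int.cast_abs]
        exact h1
      rw [Finset.mem_Icc]
      omega
    refine ⟨(z.re, z.im), ?_, rfl⟩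
    rw [Finset.mem_product]
    exact ⟨hx _ (by nlinarith [sq_nonneg (z.im : ℝ)]), hx _ (by nlinarith [sq_nonneg (z.re : ℝ)])⟩
  have h1 : (bal Y).card ≤ (2 * ⌊√Y⌋₊ + 1) * (2 * ⌊√Y⌋₊ + 1) := by
    refine (Finset.card_le_card hsub).trans (Finset.card_image_le.trans ?_)
    rw [Finset.card_product, Int.card_Icc]
    have : ((⌊√Y⌋₊ : ℤ) + 1 - -(⌊√Y⌋₊ : ℤ)).toNat = 2 * ⌊√Y⌋₊ + 1 := by omega
    rw [this]
  have h2 : ((bal Y).card : ℝ) ≤ (2 * (⌊√Y⌋₊ : ℝ) + 1) * (2 * ⌊√Y⌋₊ + 1) := by exact_mod_cast h1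
  have h3 : (⌊√Y⌋₊ : ℝ) ≤ √Y := Nat.floor_le (by positivity)
  have h4 : 2 * (⌊√Y⌋₊ : ℝ) + 1 ≤ 3 * √Y := by linarith
  have h5 : 0 ≤ 2 * (⌊√Y⌋₊ : ℝ) + 1 := by positivity
  nlinarith

theorem card_AA (b : ℝ) (m : ℕ) : ((AA b m).card : ℝ) ≤ 9 * m := by
  rcases Nat.eq_zero_or_pos m with rfl | hm
  · have : AA b 0 = ∅ := by
      rw [Finset.eq_empty_iff_forall_notMem]
      intro z hz
      rw [mem_AA] at hz
      have h1 := nm_pos (Pr_ne hz.2.1)
      have h2 : nm z ≤ 0 := by exact_mod_cast hz.1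
      omega
    rw [this]
    simp
  · have h1 : AA b m ⊆ bal (m : ℝ) := by
      intro z hz
      rw [mem_AA] at hz
      rw [mem_bal]
      exact hz.1
    have h2 : ((AA b m).card : ℝ) ≤ ((bal (m : ℝ)).card : ℝ) := by exact_mod_cast Finset.card_le_card h1
    exact h2.trans (card_bal _ (by exact_mod_cast hm))

theorem det_cnt (b B : ℝ) (hb : 1 < b) (hB : 1 ≤ B) : ∃ C : ℝ, 0 < C ∧ ∀ (m : ℕ), 1 ≤ m →
    ∀ z ∈ AA b m, ∀ n : ℤ, open Classical in
    (((bal (B * m)).filter (fun w => dt z w = n)).card : ℝ) ≤ C := by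
  classical
  refine ⟨3 * √(B * b), by positivity, ?_⟩
  intro m hm z hz n
  have hm0 : (0 : ℝ) < m := by exact_mod_cast hm
  rw [mem_AA] at hz
  have hN : (0 : ℝ) < nm z := by exact_mod_cast nm_pos (Pr_ne hz.2.1)
  have h1 := det_count hz.2.1 (Y := B * m) (by nlinarith) n ((bal (B * m)).filter (fun w => dt z w = n))
    (by
      intro w hw
      rw [Finset.mem_filter, mem_bal] at hw
      exact hw)
  refine h1.trans ?_
  apply mul_le_mul_of_nonneg_left _ (by norm_num)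
  apply Real.sqrt_le_sqrt
  rw [div_le_iff₀ hN]
  have h2 := hz.2.2
  rw [div_lt_iff₀ (by linarith)] at h2
  have hB0 : 0 < B := by linarith
  nlinarith

theorem pair_cnt (b : ℝ) (hb : 1 < b) : ∃ C : ℝ, 0 < C ∧ ∀ (m : ℕ) (T : ℝ), 1 ≤ m → 0 ≤ T →
    open Classical in
    (((AA b m ×ˢ AA b m).filter (fun e : GI × GI => |(dt e.1 e.2 : ℝ)| ≤ T)).card : ℝ)
      ≤ C * (T + 1) * m := by
  classical
  obtain ⟨C, hC, h⟩ := det_cnt b 1 hb le_rfl
  refine ⟨18 * C, by positivity, ?_⟩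
  intro m T hm hT
  have hm0 : (0 : ℝ) < m := by exact_mod_cast hm
  have e1 : (((AA b m ×ˢ AA b m).filter (fun e : GI × GI => |(dt e.1 e.2 : ℝ)| ≤ T)).card : ℝ) =
      ∑ z ∈ AA b m, (((AA b m).filter (fun w => |(dt z w : ℝ)| ≤ T)).card : ℝ) := by
    rw [Finset.card_filter, Finset.sum_product]
    push_cast
    apply Finset.sum_congr rfl
    intro z _
    rw [Finset.card_filter]
    push_cast
    rfl
  rw [e1]
  have key : ∀ z ∈ AA b m, (((AA b m).filter (fun w => |(dt z w : ℝ)| ≤ T)).card : ℝ) ≤ (2 * T + 1) * C := by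
    intro z hz
    have hmap : ∀ w ∈ (AA b m).filter (fun w => |(dt z w : ℝ)| ≤ T),
        dt z w ∈ Icc (-(⌊T⌋₊ : ℤ)) (⌊T⌋₊ : ℤ) := by
      intro w hw
      rw [Finset.mem_filter] at hw
      have h2 : (dt z w).natAbs ≤ ⌊T⌋₊ := by
        apply Nat.le_floor
        rw [Nat.cast_natAbs, Int.cast_abs]
        exact hw.2
      rw [Finset.mem_Icc]
      omega
    have h3 := Finset.card_eq_sum_card_fiberwise hmap
    have h4 : (((AA b m).filter (fun w => |(dt z w : ℝ)| ≤ T)).card : ℝ) =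
      ∑ n ∈ Icc (-(⌊T⌋₊ : ℤ)) (⌊T⌋₊ : ℤ),
        ((((AA b m).filter (fun w => |(dt z w : ℝ)| ≤ T)).filter (fun w => dt z w = n)).card : ℝ) := by
      exact_mod_cast h3
    rw [h4]
    calc _ ≤ ∑ n ∈ Icc (-(⌊T⌋₊ : ℤ)) (⌊T⌋₊ : ℤ), C := by
          apply Finset.sum_le_sum
          intro n _
          refine le_trans ?_ (h m hm z hz n)
          rw [Nat.cast_le]
          apply Finset.card_le_card
          intro w hw
          rw [Finset.mem_filter, Finset.mem_filter, mem_AA] at hw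
          rw [Finset.mem_filter, mem_bal, one_mul]
          exact ⟨hw.1.1.1, hw.2⟩
      _ = (2 * (⌊T⌋₊ : ℝ) + 1) * C := by
          rw [Finset.sum_const, nsmul_eq_mul, Int.card_Icc]
          have : ((⌊T⌋₊ : ℤ) + 1 - -(⌊T⌋₊ : ℤ)).toNat = 2 * ⌊T⌋₊ + 1 := by omega
          rw [this]
          push_cast
          ring
      _ ≤ (2 * T + 1) * C := by
          have := Nat.floor_le hT
          gcongr
  calc _ ≤ ∑ z ∈ AA b m, (2 * T + 1) * C := Finset.sum_le_sum key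
    _ = ((AA b m).card : ℝ) * ((2 * T + 1) * C) := by rw [Finset.sum_const, nsmul_eq_mul]
    _ ≤ (9 * m) * ((2 * T + 1) * C) := by
        apply mul_le_mul_of_nonneg_right (card_AA b m) (by positivity)
    _ ≤ (9 * m) * ((2 * (T + 1)) * C) := by gcongr; linarith
    _ = _ := by ring

theorem pack (B : ℝ) (hB : 1 ≤ B) : ∃ C : ℝ, 0 < C ∧ ∀ (m n : ℕ) (k : ℤ), 1 ≤ m → 1 ≤ n →
    open Classical in
    (((bal (B * m) ×ˢ bal (B * m)).filter (fun e : GI × GI => (m : ℝ) / B ≤ (nm e.1 : ℝ) ∧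
      (dt e.1 e.2).natAbs = n ∧ cg n e.2 ((k : GI) * e.1))).card : ℝ) ≤ C * ((m : ℝ) / n + 1) := by
  classical
  have hB0 : 0 < B := by linarith
  refine ⟨4 * (4 * B ^ 2 + 2) ^ 2, by positivity, ?_⟩
  intro m n k hm hn
  have hm0 : (0 : ℝ) < m := by exact_mod_cast hm
  have hn0 : (0 : ℝ) < n := by exact_mod_cast hn
  set S := (bal (B * m) ×ˢ bal (B * m)).filter (fun e : GI × GI => (m : ℝ) / B ≤ (nm e.1 : ℝ) ∧
      (dt e.1 e.2).natAbs = n ∧ cg n e.2 ((k : GI) * e.1)) with hS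
  have hmem : ∀ e ∈ S, (0 : ℝ) < nm e.1 ∧ (nm e.1 : ℝ) ≤ B * m ∧ (nm e.2 : ℝ) ≤ B * m ∧
      (m : ℝ) / B ≤ (nm e.1 : ℝ) ∧ e.1 ≠ 0 ∧
      e.2.re = k * e.1.re + n * (Pack_u n k e.1 e.2).re ∧ e.2.im = k * e.1.im + n * (Pack_u n k e.1 e.2).im ∧
      (dt e.1 (Pack_u n k e.1 e.2)).natAbs = 1 := by
    intro e he
    rw [hS, Finset.mem_filter, Finset.mem_product, mem_bal, mem_bal] at he
    obtain ⟨⟨h1, h2⟩, h3, h4, h5⟩ := he
    have hpos : (0 : ℝ) < nm e.1 := lt_of_lt_of_le (by positivity) h3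
    have hne : e.1 ≠ 0 := by
      intro h
      rw [← nm_eq_zero] at h
      rw [h] at hpos
      simp at hpos
    obtain ⟨h6, h7⟩ := Pack_u_spec h5
    refine ⟨hpos, h1, h2, h3, hne, by linarith, by linarith, ?_⟩
    have h8 : dt e.1 e.2 = n * dt e.1 (Pack_u n k e.1 e.2) := by
      have h9 : e.2.re = k * e.1.re + n * (Pack_u n k e.1 e.2).re := by linarith
      have h10 : e.2.im = k * e.1.im + n * (Pack_u n k e.1 e.2).im := by linarith
      unfold dt
      rw [h9, h10]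
      ring
    rw [h8, Int.natAbs_mul, Int.natAbs_natCast] at h4
    exact Nat.eq_of_mul_eq_mul_left hn (by rw [h4, mul_one])
  set c : GI × GI → ℤ × ℤ := fun e =>
    (⌊2 * B * m * ((ip e.1 (Pack_u n k e.1 e.2) : ℝ) / nm e.1)⌋,
      ⌊2 * B * m * ((dt e.1 (Pack_u n k e.1 e.2) : ℝ) / nm e.1)⌋) with hc
  -- fibres
  have hfib : ∀ a ∈ S.image c, (S.filter (fun e => c e = a)).card ≤ 4 := by
    intro a ha
    rw [Finset.mem_image] at ha
    obtain ⟨e, he, rfl⟩ := ha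
    have hsub : S.filter (fun e' => c e' = c e) ⊆
        (({1, -1, ⟨0, 1⟩, ⟨0, -1⟩} : Finset GI)).image (fun ε => (e.1 * ε, e.2 * ε)) := by
      intro e' he'
      rw [Finset.mem_filter] at he'
      obtain ⟨he'S, hce⟩ := he'
      obtain ⟨p1, p2, p3, p4, p5, p6, p7, p8⟩ := hmem e he
      obtain ⟨q1, q2, q3, q4, q5, q6, q7, q8⟩ := hmem e' he'S
      set u := Pack_u n k e.1 e.2 with hu
      set u' := Pack_u n k e'.1 e'.2 with hu'
      have hsep := Pack_sep (z := e.1) (u := u) (z' := e'.1) (u' := u') p5 q5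
      simp only [hc, Prod.mk.injEq] at hce
      obtain ⟨hc1, hc2⟩ := hce
      have habs : ∀ x y : ℝ, ⌊x⌋ = ⌊y⌋ → (y - x) ^ 2 < 1 := by
        intro x y hxy
        have h1 := Int.abs_sub_lt_one_of_floor_eq_floor hxy
        rw [abs_lt] at h1
        nlinarith
      have h1 := habs _ _ hc1
      have h2 := habs _ _ hc2
      have h3 : (nm (u * e'.1 - u' * e.1) : ℝ) < 1 := by
        have h4 : (2 * B * m) ^ 2 * ((nm (u * e'.1 - u' * e.1) : ℝ) / (nm e.1 * nm e'.1)) < 2 := by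
          rw [← hsep]
          have : (2 * B * ↑m) ^ 2 * (((ip e.1 u : ℝ) / nm e.1 - (ip e'.1 u' : ℝ) / nm e'.1) ^ 2 +
              ((dt e.1 u : ℝ) / nm e.1 - (dt e'.1 u' : ℝ) / nm e'.1) ^ 2) =
            (2 * B * m * ((ip e.1 u : ℝ) / nm e.1) - 2 * B * m * ((ip e'.1 u' : ℝ) / nm e'.1)) ^ 2 +
            (2 * B * m * ((dt e.1 u : ℝ) / nm e.1) - 2 * B * m * ((dt e'.1 u' : ℝ) / nm e'.1)) ^ 2 := by
            ring
          rw [this]
          linarith
        by_contra h5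
        push Not at h5
        have h6 : (nm e.1 : ℝ) * nm e'.1 ≤ (B * m) * (B * m) := by gcongr
        have h7 : (1 : ℝ) / ((B * m) * (B * m)) ≤ (nm (u * e'.1 - u' * e.1) : ℝ) / (nm e.1 * nm e'.1) := by
          apply div_le_div₀ (by positivity) h5 (by positivity) h6
        have h8 : (2 * B * m) ^ 2 * (1 / ((B * m) * (B * m))) = 4 := by
          field_simp
          norm_num
        have h9 : (2 * B * m) ^ 2 * (1 / ((B * m) * (B * m))) ≤
            (2 * B * m) ^ 2 * ((nm (u * e'.1 - u' * e.1) : ℝ) / (nm e.1 * nm e'.1)) := by gcongr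
        linarith
      have h4 : nm (u * e'.1 - u' * e.1) = 0 := by
        have : nm (u * e'.1 - u' * e.1) < 1 := by exact_mod_cast h3
        omega
      rw [nm_eq_zero, sub_eq_zero] at h4
      have hcop := Pack_coprime p8
      have hcop' := Pack_coprime q8
      have hd1 : e.1 ∣ e'.1 := by
        apply hcop.dvd_of_dvd_mul_left
        rw [h4]
        exact Dvd.intro_left _ rfl
      have hd2 : e'.1 ∣ e.1 := by
        apply hcop'.dvd_of_dvd_mul_left
        rw [← h4]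
        exact Dvd.intro_left _ rfl
      obtain ⟨ε, hε⟩ := associated_of_dvd_dvd hd1 hd2
      have hu2 : u' = u * ε := by
        have h5 : u * (e.1 * ε) = u' * e.1 := by rw [hε]; exact h4
        have h6 : u' * e.1 = (u * ε) * e.1 := by rw [← h5]; ring
        exact mul_right_cancel₀ p5 h6
      have hw : e.2 = (k : GI) * e.1 + (n : GI) * u := by
        apply Zsqrtd.ext
        · simp
          exact p6
        · simp
          exact p7
      have hw' : e'.2 = (k : GI) * e'.1 + (n : GI) * u' := by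
        apply Zsqrtd.ext
        · simp
          exact q6
        · simp
          exact q7
      have hw2 : e'.2 = e.2 * ε := by
        rw [hw', hw, hu2, ← hε]
        ring
      rw [Finset.mem_image]
      refine ⟨(ε : GI), ?_, ?_⟩
      · have := BAS_unit ε.isUnit
        simp only [Finset.mem_insert, Finset.mem_singleton]
        exact this
      · rw [hε, ← hw2]
    refine (Finset.card_le_card hsub).trans (Finset.card_image_le.trans ?_)
    exact Finset.card_le_four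
  have hcard := Finset.card_le_mul_card_image S 4 hfib
  -- image
  have himg : S.image c ⊆
      (Icc ⌊2 * B * m * (-(k : ℝ) / n - B / n)⌋ ⌊2 * B * m * (-(k : ℝ) / n + B / n)⌋) ×ˢ
      (Icc ⌊-(2 * B ^ 2)⌋ ⌊2 * B ^ 2⌋) := by
    intro a ha
    rw [Finset.mem_image] at ha
    obtain ⟨e, he, rfl⟩ := ha
    obtain ⟨p1, p2, p3, p4, p5, p6, p7, p8⟩ := hmem e he
    set u := Pack_u n k e.1 e.2 with hu
    have hxx : |(ip e.1 u : ℝ) / nm e.1 - (-(k : ℝ) / n)| ≤ B / n := by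
      have h1 : (ip e.1 u : ℝ) / nm e.1 - (-(k : ℝ) / n) = (ip e.1 e.2 : ℝ) / (n * nm e.1) := by
        have h2 : (ip e.1 e.2 : ℝ) = k * nm e.1 + n * ip e.1 u := by
          have h3 : ip e.1 e.2 = k * nm e.1 + n * ip e.1 u := by
            rw [nm_int]
            unfold ip
            rw [p6, p7]
            ring
          exact_mod_cast h3
        rw [h2]
        field_simp
        ring
      rw [h1, abs_div, abs_of_pos (by positivity : (0 : ℝ) < n * nm e.1), div_le_div_iff₀ (by positivity) hn0]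
      have h4 : |(ip e.1 e.2 : ℝ)| ≤ B * nm e.1 := by
        apply abs_le_of_sq_le_sq _ (by positivity)
        refine Pack_ip_le.trans ?_
        have h5 : (nm e.2 : ℝ) ≤ B ^ 2 * nm e.1 := by
          rw [div_le_iff₀ hB0] at p4
          nlinarith
        nlinarith
      nlinarith
    have hyy : |(dt e.1 u : ℝ) / nm e.1| ≤ B / m := by
      have h1 : |(dt e.1 u : ℝ)| = 1 := by
        have : ((dt e.1 u).natAbs : ℝ) = 1 := by exact_mod_cast p8
        rwa [Nat.cast_natAbs, Int.cast_abs] at this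
      rw [abs_div, h1, abs_of_pos p1, div_le_div_iff₀ p1 hm0]
      rw [div_le_iff₀ hB0] at p4
      linarith
    rw [abs_le] at hxx hyy
    rw [Finset.mem_product, Finset.mem_Icc, Finset.mem_Icc]
    have hBm : 0 ≤ 2 * B * m := by positivity
    have hb2 : 2 * B * m * (B / m) = 2 * B ^ 2 := by field_simp
    refine ⟨⟨Int.floor_le_floor ?_, Int.floor_le_floor ?_⟩, ⟨Int.floor_le_floor ?_, Int.floor_le_floor ?_⟩⟩
    · apply mul_le_mul_of_nonneg_left _ hBm
      linarith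
    · apply mul_le_mul_of_nonneg_left _ hBm
      linarith
    · rw [← hb2, ← mul_neg]
      exact mul_le_mul_of_nonneg_left hyy.1 hBm
    · rw [← hb2]
      exact mul_le_mul_of_nonneg_left hyy.2 hBm
  have hIcc : ∀ x y : ℝ, x ≤ y → ((Icc ⌊x⌋ ⌊y⌋).card : ℝ) ≤ y - x + 2 := by
    intro x y hxy
    rw [Int.card_Icc]
    have h1 : ⌊x⌋ ≤ ⌊y⌋ := Int.floor_le_floor hxy
    have h2 : ((⌊y⌋ + 1 - ⌊x⌋).toNat : ℤ) = ⌊y⌋ + 1 - ⌊x⌋ := Int.toNat_of_nonneg (by omega)
    have h3 : ((⌊y⌋ + 1 - ⌊x⌋).toNat : ℝ) = (⌊y⌋ : ℝ) + 1 - ⌊x⌋ := by exact_mod_cast h2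
    rw [h3]
    have h4 := Int.floor_le y
    have h5 := Int.lt_floor_add_one x
    linarith
  have hc1 := Finset.card_le_card himg
  rw [Finset.card_product] at hc1
  have h6 := hIcc (2 * B * m * (-(k : ℝ) / n - B / n)) (2 * B * m * (-(k : ℝ) / n + B / n)) (by
    apply mul_le_mul_of_nonneg_left _ (by positivity)
    have : 0 < B / n := by positivity
    linarith)
  have h7 := hIcc (-(2 * B ^ 2)) (2 * B ^ 2) (by nlinarith)
  have h8 : 2 * B * m * (-(k : ℝ) / n + B / n) - 2 * B * m * (-(k : ℝ) / n - B / n) = 4 * B ^ 2 * (m / n) := by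
    ring
  rw [h8] at h6
  have h9 : (S.card : ℝ) ≤ 4 * ((4 * B ^ 2 * (m / n) + 2) * (2 * B ^ 2 - -(2 * B ^ 2) + 2)) := by
    have h10 : (S.card : ℝ) ≤ 4 * ((S.image c).card : ℝ) := by exact_mod_cast hcard
    have h11 : ((S.image c).card : ℝ) ≤
        ((Icc ⌊2 * B * m * (-(k : ℝ) / n - B / n)⌋ ⌊2 * B * m * (-(k : ℝ) / n + B / n)⌋).card : ℝ) *
        ((Icc ⌊-(2 * B ^ 2)⌋ ⌊2 * B ^ 2⌋).card : ℝ) := by exact_mod_cast hc1
    calc (S.card : ℝ) ≤ 4 * ((S.image c).card : ℝ) := h10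
      _ ≤ 4 * (((Icc ⌊2 * B * m * (-(k : ℝ) / n - B / n)⌋ ⌊2 * B * m * (-(k : ℝ) / n + B / n)⌋).card : ℝ) *
        ((Icc ⌊-(2 * B ^ 2)⌋ ⌊2 * B ^ 2⌋).card : ℝ)) := by gcongr
      _ ≤ _ := by gcongr
  refine h9.trans ?_
  have h12 : 4 * B ^ 2 * ((m : ℝ) / n) + 2 ≤ (4 * B ^ 2 + 2) * (m / n + 1) := by
    have : 0 ≤ (m : ℝ) / n := by positivity
    nlinarith [sq_nonneg B]
  calc _ = 4 * ((4 * B ^ 2 * (m / n) + 2) * (4 * B ^ 2 + 2)) := by ring
    _ ≤ 4 * (((4 * B ^ 2 + 2) * (m / n + 1)) * (4 * B ^ 2 + 2)) := by gcongr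
    _ = _ := by ring

end Pool.Agent.FCH
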