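import Pool.Agent.FCH.Base
import Pool.Agent.MertensAP.Main
import Pool.Agent.H6.HR.Mertens

set_option autoImplicit false

/-! Module PrA: primes `≡ 1 (mod 4)` in `(P, A P]`.
`exists_GA`: from `mertens_ap_mod 4` (`a = 1`): `∑_{P < p ≤ AP, p ≡ 1 (4)} log p / p ≥ (log A)/2 - 2C ≥ 1`
for `A` large, and each term is `≤ log(AP)/P ≤ 2 log P / P` (for `P ≥ A`), so `#pr A P ≥ P / (2 log P)`.
`pr_le`: Chebyshev, `#{p ≤ x} ≤ C x / log x` (Mathlib `Chebyshev`, or any bound in the library: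
grep `primeCounting`, `theta_le`); then `A P / log (A P) ≤ A P / log P`.
`pr_sum`: `∑_{p ∈ pr A P} 1/p ≤ (#pr A P)/P ≤ C / log P`.
`pr_disj`: the sets `pr A (A^i P0)` and `pr A (A^j P0)` are disjoint for `i ≠ j`. -/

open Finset

namespace Pool.Agent.FCH

open Pool.Agent.MRS hiding Good

theorem exists_GA : ∃ A : ℕ, GA A := by
  obtain ⟨C, hC, hM⟩ := Pool.Agent.MertensAP.mertens_ap_mod 4 (by norm_num)
  have h1 := hM 1 (by norm_num)
  obtain ⟨A, hA⟩ := exists_nat_ge (Real.exp (2 * (2 * C + 1)) + 2)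
  have hA2 : (2 : ℝ) ≤ A := by
    have := Real.exp_pos (2 * (2 * C + 1))
    linarith
  have hAn : 2 ≤ A := by exact_mod_cast hA2
  have hA0 : (0 : ℝ) < A := by linarith
  have hlogA : 2 * (2 * C + 1) ≤ Real.log A := by
    rw [Real.le_log_iff_exp_le hA0]
    linarith
  refine ⟨A, hAn, 1 / 2, by norm_num, A, hAn, fun P hP => ?_⟩
  have hPA : (A : ℝ) ≤ P := by exact_mod_cast hP
  have hP1 : (1 : ℝ) < P := by linarith
  have hP0 : (0 : ℝ) < P := by linarith
  have hlogP : 0 < Real.log P := Real.log_pos hP1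
  have hAP : (1 : ℝ) ≤ A * P := by nlinarith
  have e1 := h1 (A * P : ℝ) hAP
  have e2 := h1 (P : ℝ) hP1.le
  have hf1 : ⌊(A * P : ℝ)⌋₊ = A * P := by
    have : (A * P : ℝ) = ((A * P : ℕ) : ℝ) := by push_cast; rfl
    rw [this, Nat.floor_natCast]
  rw [hf1, abs_le] at e1
  rw [Nat.floor_natCast, abs_le] at e2
  have hlogAP : Real.log (A * P) = Real.log A + Real.log P := Real.log_mul hA0.ne' hP0.ne'
  have htot : ((Nat.totient 4 : ℕ) : ℝ) = 2 := by
    have : Nat.totient 4 = 2 := by decide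
    rw [this]; norm_num
  rw [htot] at e1 e2
  have hle : P ≤ A * P := Nat.le_mul_of_pos_left P (by omega)
  have hsplit : (Icc 1 (A * P)).filter (fun p : ℕ => p.Prime ∧ p ≡ 1 [MOD 4]) =
      (Icc 1 P).filter (fun p : ℕ => p.Prime ∧ p ≡ 1 [MOD 4]) ∪ pr A P := by
    ext p
    unfold pr
    rw [mem_union, mem_filter, mem_filter, mem_filter, mem_Icc, mem_Icc, mem_Ioc]
    have hme : (p ≡ 1 [MOD 4]) ↔ p % 4 = 1 := Iff.rfl
    rw [hme]
    constructor
    · rintro ⟨⟨ha, hb⟩, hp, hm⟩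
      by_cases hpP : p ≤ P
      · exact Or.inl ⟨⟨ha, hpP⟩, hp, hm⟩
      · exact Or.inr ⟨⟨by omega, hb⟩, hp, hm⟩
    · rintro (⟨⟨ha, hb⟩, hp, hm⟩ | ⟨⟨ha, hb⟩, hp, hm⟩)
      · exact ⟨⟨ha, by omega⟩, hp, hm⟩
      · exact ⟨⟨by omega, hb⟩, hp, hm⟩
  have hdisj : Disjoint ((Icc 1 P).filter (fun p : ℕ => p.Prime ∧ p ≡ 1 [MOD 4])) (pr A P) := by
    rw [Finset.disjoint_left]
    intro p hp hq
    unfold pr at hq
    rw [mem_filter, mem_Icc] at hp
    rw [mem_filter, mem_Ioc] at hq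
    omega
  rw [hsplit, sum_union hdisj] at e1
  have hsum : 1 ≤ ∑ p ∈ pr A P, Real.log p / p := by
    rw [hlogAP] at e1
    linarith [e1.1, e2.2]
  have hterm : ∀ p ∈ pr A P, Real.log p / (p : ℝ) ≤ 2 * Real.log P / P := by
    intro p hp
    unfold pr at hp
    rw [mem_filter, mem_Ioc] at hp
    have hpP : (P : ℝ) < p := by exact_mod_cast hp.1.1
    have hpA : (p : ℝ) ≤ A * P := by exact_mod_cast hp.1.2
    have hp0 : (0 : ℝ) < p := by linarith
    have hl : Real.log p ≤ 2 * Real.log P := by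
      calc Real.log p ≤ Real.log (A * P) := Real.log_le_log hp0 hpA
        _ = Real.log A + Real.log P := hlogAP
        _ ≤ Real.log P + Real.log P := by
            have := Real.log_le_log hA0 hPA
            linarith
        _ = 2 * Real.log P := by ring
    calc Real.log p / (p : ℝ) ≤ 2 * Real.log P / (p : ℝ) := by gcongr
      _ ≤ 2 * Real.log P / P := by gcongr
  have hcard : ∑ p ∈ pr A P, Real.log p / (p : ℝ) ≤ (pr A P).card * (2 * Real.log P / P) := by
    have := Finset.sum_le_card_nsmul (pr A P) (fun p : ℕ => Real.log p / (p : ℝ)) _ hterm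
    rwa [nsmul_eq_mul] at this
  have hfin : 1 ≤ ((pr A P).card : ℝ) * (2 * Real.log P / P) := hsum.trans hcard
  rw [div_le_iff₀ hlogP]
  have h5 : ((pr A P).card : ℝ) * (2 * Real.log P / P) =
      2 * (((pr A P).card : ℝ) * Real.log P) / P := by ring
  rw [h5, le_div_iff₀ hP0] at hfin
  linarith

theorem pr_le (A : ℕ) (hA : 2 ≤ A) : ∃ C : ℝ, 0 < C ∧ ∀ P : ℕ, 2 ≤ P →
    ((pr A P).card : ℝ) ≤ C * P / Real.log P := by
  obtain ⟨C, hC, h⟩ := H6.HR.pi_le
  have hA0 : (0 : ℝ) < A := by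
    have : 0 < A := by omega
    exact_mod_cast this
  refine ⟨C * A, by positivity, fun P hP => ?_⟩
  have hP2 : (2 : ℝ) ≤ P := by exact_mod_cast hP
  have hA2 : (2 : ℝ) ≤ A := by exact_mod_cast hA
  have hP0 : (0 : ℝ) < P := by linarith
  have hlogP : 0 < Real.log P := Real.log_pos (by linarith)
  have h1 := h (A * P : ℝ) (by nlinarith)
  have hf1 : ⌊(A * P : ℝ)⌋₊ = A * P := by
    have : (A * P : ℝ) = ((A * P : ℕ) : ℝ) := by push_cast; rfl
    rw [this, Nat.floor_natCast]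
  rw [hf1] at h1
  have hcard : (pr A P).card ≤ Nat.primeCounting (A * P) := by
    rw [Nat.primeCounting, Nat.primeCounting', Nat.count_eq_card_filter_range]
    apply Finset.card_le_card
    intro p hp
    unfold pr at hp
    rw [mem_filter, mem_Ioc] at hp
    rw [mem_filter, mem_range]
    exact ⟨by omega, hp.2.1⟩
  have hcard' : ((pr A P).card : ℝ) ≤ (Nat.primeCounting (A * P) : ℝ) := by exact_mod_cast hcard
  refine hcard'.trans (h1.trans ?_)
  have hle : Real.log P ≤ Real.log (A * P) :=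
    Real.log_le_log hP0 (by nlinarith)
  have e : C * (A * P) = C * A * P := by ring
  rw [e]
  gcongr

theorem pr_sum (A : ℕ) (hA : 2 ≤ A) : ∃ C : ℝ, 0 < C ∧ ∀ P : ℕ, 2 ≤ P →
    ∑ p ∈ pr A P, (1 : ℝ) / p ≤ C / Real.log P := by
  obtain ⟨C, hC, h⟩ := pr_le A hA
  refine ⟨C, hC, fun P hP => ?_⟩
  have hP2 : (2 : ℝ) ≤ P := by exact_mod_cast hP
  have hP0 : (0 : ℝ) < P := by linarith
  have hterm : ∀ p ∈ pr A P, (1 : ℝ) / (p : ℝ) ≤ 1 / P := by
    intro p hp
    unfold pr at hp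
    rw [mem_filter, mem_Ioc] at hp
    have hpP : (P : ℝ) < p := by exact_mod_cast hp.1.1
    gcongr
  have h1 := Finset.sum_le_card_nsmul (pr A P) (fun p : ℕ => (1 : ℝ) / (p : ℝ)) _ hterm
  rw [nsmul_eq_mul] at h1
  refine h1.trans ?_
  have h2 := h P hP
  calc ((pr A P).card : ℝ) * (1 / P) ≤ (C * P / Real.log P) * (1 / P) := by gcongr
    _ = C / Real.log P := by field_simp

theorem pr_disj (A P0 : ℕ) (hA : 2 ≤ A) (i j : ℕ) (hij : i ≠ j) :
    Disjoint (pr A (A ^ i * P0)) (pr A (A ^ j * P0)) := by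
  have key : ∀ i j : ℕ, i < j → Disjoint (pr A (A ^ i * P0)) (pr A (A ^ j * P0)) := by
    intro i j hij
    rw [Finset.disjoint_left]
    intro p hp hq
    unfold pr at hp hq
    rw [mem_filter, mem_Ioc] at hp hq
    have h1 : A * (A ^ i * P0) ≤ A ^ j * P0 := by
      rw [← mul_assoc, ← pow_succ']
      exact Nat.mul_le_mul_right _ (Nat.pow_le_pow_right (by omega) hij)
    omega
  rcases lt_or_gt_of_ne hij with h | h
  · exact key i j h
  · exact (key j i h).symm

end Pool.Agent.FCH
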