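import Pool.Agent.FCH.Ker
import Pool.Agent.FCH.Pack
import Pool.Agent.FCH.PrA

set_option autoImplicit false

/-! Module Small: small determinants, and the number of compatible pairs of primes.
`small`: `D = det(w,w') ≤ δ P < P`.  A term of `XX` with `φ₊ ≠ 0` gives `z = (p' w - p w')/D ∈ GI`, `det(z,w) = p`, and `N(z)/m` is within
`C(P)/m²` of `y²` (same computation as in Ttb), so `m/(4b) ≤ N(z) ≤ 4m`.  Conversely `(w, z, p', D)` determines `w' = (p' w - D z)/p`, and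
`p' w ≡ D z (mod p)`, i.e. `z ≡ k w (mod p)` with `k = p'/D mod p` (`D < P < p` is invertible mod `p`).  So for fixed `D, p, p'` the number
of pairs is `≤ pack (m, n = p) ≤ C (m/p + 1) ≤ 2 C m/P`.  Sum over `D ≤ δP` and `(p,p')`: `≤ 2Cδ m (#pr)²`.
`cnt`: fixed `D ∈ [δP, C1 P]`, `(p,p')`.  If `p ∤ D` then (`p' ∤ D` and) `w' ≡ k w (mod D)`, `k = p'/p`; `pack` with `n = D`: `≤ C (m/D+1)`; sum over `D`:
`≤ C m (#pr)² ∑_{D ≤ C1 P} 1/(δP) ≤ C(δ) m (#pr)²`.  (`w` primitive: `D ∣ p' w - p w'` and `p' ∣ D` imply `p' ∣ p w'`, so `p' = p`.)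
If `p ∣ D` then `p ∣ p' w`, `w` primitive, so `p' = p`; `≤ C1` values of `D` for each `p`, and `≤ C m` pairs for each `D` (`det_cnt`): total `≤ C m #pr`.
`cnt_bad`: the non-good `D ≤ C1 P` are at most `C1 #pr` (each is `p j`, `j ≤ C1`), so the terms with `p ∤ D` give `≤ C1 #pr · C (m/(δP)+1) (#pr)² ≤ C' m (#pr)² (#pr/P)` and
`#pr/P ≤ C/log P → 0` (`pr_le`); the terms with `p ∣ D` as in `cnt`: `≤ C m #pr ≤ ε m (#pr)²`. -/

open Finset

namespace Pool.Agent.FCH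

open Pool.Agent.MRS hiding Good

theorem Small_dvd {n : ℤ} {p p' : ℕ} {w w' : GI} :
    ((n : ℤ) : GI) ∣ (p' : GI) * w - (p : GI) * w' ↔
      n ∣ (p' : ℤ) * w.re - (p : ℤ) * w'.re ∧ n ∣ (p' : ℤ) * w.im - (p : ℤ) * w'.im := by
  rw [Zsqrtd.intCast_dvd]
  simp

/-- sum over pairs of the number of compatible `e` = sum over `e` of the number of pairs -/
theorem Small_swap {α : Type*} [DecidableEq α] (S : Finset GI) (E : Finset α) (R : GI → GI → Prop)
    (Q : GI → GI → α → Prop) : open Classical in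
    ∑ w ∈ S, ∑ w' ∈ S, (if R w w' then ((E.filter (fun e => Q w w' e)).card : ℝ) else 0) =
    ∑ e ∈ E, (((S ×ˢ S).filter (fun x : GI × GI => R x.1 x.2 ∧ Q x.1 x.2 e)).card : ℝ) := by
  classical
  have h1 : ∀ e ∈ E, (((S ×ˢ S).filter (fun x : GI × GI => R x.1 x.2 ∧ Q x.1 x.2 e)).card : ℝ) =
      ∑ w ∈ S, ∑ w' ∈ S, if R w w' ∧ Q w w' e then (1 : ℝ) else 0 := by
    intro e _
    rw [Finset.card_filter, Finset.sum_product]
    push_cast
    rfl
  have h2 := Finset.sum_congr (rfl : E = E) h1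
  rw [h2]
  conv_rhs => rw [Finset.sum_comm]
  refine Finset.sum_congr rfl fun w _ => ?_
  conv_rhs => rw [Finset.sum_comm]
  refine Finset.sum_congr rfl fun w' _ => ?_
  by_cases hR : R w w'
  · simp only [hR, if_true, true_and]
    rw [Finset.card_filter]
    push_cast
    rfl
  · simp [hR]

/-- union bound over the value of the determinant -/
theorem Small_fib (S : Finset GI) (N : Finset ℕ) (R Q : GI → GI → Prop)
    (hR : ∀ w ∈ S, ∀ w' ∈ S, R w w' → Q w w' → 0 < dt w w' ∧ (dt w w').toNat ∈ N) :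
    open Classical in
    (((S ×ˢ S).filter (fun x : GI × GI => R x.1 x.2 ∧ Q x.1 x.2)).card : ℝ) ≤
    ∑ n ∈ N, (((S ×ˢ S).filter (fun x : GI × GI => dt x.1 x.2 = (n : ℤ) ∧
      (R x.1 x.2 ∧ Q x.1 x.2))).card : ℝ) := by
  classical
  have hsub : (S ×ˢ S).filter (fun x : GI × GI => R x.1 x.2 ∧ Q x.1 x.2) ⊆
      N.biUnion (fun n => (S ×ˢ S).filter (fun x : GI × GI => dt x.1 x.2 = (n : ℤ) ∧
        (R x.1 x.2 ∧ Q x.1 x.2))) := by
    intro x hx
    rw [mem_filter, mem_product] at hx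
    obtain ⟨⟨h1, h2⟩, h3, h4⟩ := hx
    obtain ⟨h5, h6⟩ := hR _ h1 _ h2 h3 h4
    rw [mem_biUnion]
    refine ⟨_, h6, ?_⟩
    rw [mem_filter, mem_product]
    exact ⟨⟨h1, h2⟩, by omega, h3, h4⟩
  have := (Finset.card_le_card hsub).trans Finset.card_biUnion_le
  exact_mod_cast this

/-- fixed determinant `n`, fixed primes `p, p'`, `p` coprime to `n` -/
theorem Small_cop (b : ℝ) (hb : 1 < b) : ∃ C : ℝ, 0 < C ∧ ∀ m n p p' : ℕ, 1 ≤ m → 1 ≤ n →
    Nat.Coprime p n → open Classical in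
    (((AA b m ×ˢ AA b m).filter (fun x : GI × GI => dt x.1 x.2 = (n : ℤ) ∧
      ((dt x.1 x.2 : ℤ) : GI) ∣ (p' : GI) * x.1 - (p : GI) * x.2)).card : ℝ)
      ≤ C * ((m : ℝ) / n + 1) := by
  classical
  obtain ⟨C, hC, h⟩ := pack b hb.le
  refine ⟨C, hC, fun m n p p' hm hn hc => ?_⟩
  -- `k = p' / p (mod n)`
  obtain ⟨k, hk⟩ : ∃ k : ℤ, (n : ℤ) ∣ k * p - p' := by
    have h1 : IsCoprime (p : ℤ) (n : ℤ) := Nat.isCoprime_iff_coprime.2 hc
    obtain ⟨u, v, huv⟩ := h1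
    refine ⟨p' * u, ⟨-(p' * v), ?_⟩⟩
    linear_combination (p' : ℤ) * huv
  refine le_trans ?_ (h m n k hm hn)
  have hsub : (AA b m ×ˢ AA b m).filter (fun x : GI × GI => dt x.1 x.2 = (n : ℤ) ∧
      ((dt x.1 x.2 : ℤ) : GI) ∣ (p' : GI) * x.1 - (p : GI) * x.2) ⊆
      (bal (b * m) ×ˢ bal (b * m)).filter (fun e : GI × GI => (m : ℝ) / b ≤ (nm e.1 : ℝ) ∧
      (dt e.1 e.2).natAbs = n ∧ cg n e.2 ((k : GI) * e.1)) := by
    intro x hx
    rw [mem_filter, mem_product] at hx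
    obtain ⟨⟨h1, h2⟩, h3, h4⟩ := hx
    rw [h3, Small_dvd] at h4
    rw [mem_AA] at h1 h2
    have hm0 : (0 : ℝ) ≤ m := by positivity
    have hbm : (m : ℝ) ≤ b * m := by nlinarith
    rw [mem_filter, mem_product, mem_bal, mem_bal]
    refine ⟨⟨h1.1.trans hbm, h2.1.trans hbm⟩, h1.2.2.le, ?_, ?_⟩
    · rw [h3]; simp
    · have hcop : IsCoprime (n : ℤ) (p : ℤ) := (Nat.isCoprime_iff_coprime.2 hc).symm
      unfold cg
      constructor
      · simp only [Zsqrtd.re_mul, Zsqrtd.re_intCast, Zsqrtd.im_intCast]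
        refine hcop.dvd_of_dvd_mul_left ?_
        have : (p : ℤ) * (x.2.re - (k * x.1.re + -1 * 0 * x.1.im)) =
            -((p' : ℤ) * x.1.re - p * x.2.re) - (k * p - p') * x.1.re := by ring
        rw [this]
        exact dvd_sub (dvd_neg.2 h4.1) (hk.mul_right _)
      · simp only [Zsqrtd.im_mul, Zsqrtd.re_intCast, Zsqrtd.im_intCast]
        refine hcop.dvd_of_dvd_mul_left ?_
        have : (p : ℤ) * (x.2.im - (k * x.1.im + 0 * x.1.re)) =
            -((p' : ℤ) * x.1.im - p * x.2.im) - (k * p - p') * x.1.im := by ring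
        rw [this]
        exact dvd_sub (dvd_neg.2 h4.2) (hk.mul_right _)
  exact_mod_cast Finset.card_le_card hsub

/-- fixed determinant -/
theorem Small_det (b : ℝ) (hb : 1 < b) : ∃ C : ℝ, 0 < C ∧ ∀ m : ℕ, 1 ≤ m → ∀ n : ℤ, open Classical in
    (((AA b m ×ˢ AA b m).filter (fun x : GI × GI => dt x.1 x.2 = n)).card : ℝ) ≤ C * m := by
  classical
  obtain ⟨C, hC, h⟩ := det_cnt b 1 hb le_rfl
  refine ⟨C * 9, by positivity, fun m hm n => ?_⟩
  have h1 : (((AA b m ×ˢ AA b m).filter (fun x : GI × GI => dt x.1 x.2 = n)).card : ℝ) =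
      ∑ w ∈ AA b m, (((AA b m).filter (fun w' => dt w w' = n)).card : ℝ) := by
    rw [Finset.card_filter, Finset.sum_product]
    push_cast
    refine Finset.sum_congr rfl fun w _ => ?_
    rw [Finset.card_filter]
    push_cast
    rfl
  rw [h1]
  have h2 : ∀ w ∈ AA b m, (((AA b m).filter (fun w' => dt w w' = n)).card : ℝ) ≤ C := by
    intro w hw
    refine le_trans ?_ (h m hm w hw n)
    have hsub : (AA b m).filter (fun w' => dt w w' = n) ⊆
        (bal (1 * m)).filter (fun w' => dt w w' = n) := by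
      intro x hx
      rw [mem_filter, mem_AA] at hx
      rw [mem_filter, mem_bal, one_mul]
      exact ⟨hx.1.1, hx.2⟩
    exact_mod_cast Finset.card_le_card hsub
  calc ∑ w ∈ AA b m, (((AA b m).filter (fun w' => dt w w' = n)).card : ℝ)
      ≤ ∑ w ∈ AA b m, C := Finset.sum_le_sum h2
    _ = (AA b m).card * C := by rw [Finset.sum_const, nsmul_eq_mul]
    _ ≤ (9 * m) * C := mul_le_mul_of_nonneg_right (card_AA b m) hC.le
    _ = C * 9 * m := by ring

/-- if `p ∣ n ∣ p' w - p w'` then `p = p'` -/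
theorem Small_eq {n : ℤ} {p p' : ℕ} (hp : p.Prime) (hp' : p'.Prime) {w w' : GI} (hw : Pr w)
    (hn : (p : ℤ) ∣ n) (h : (n : GI) ∣ (p' : GI) * w - (p : GI) * w') : p = p' := by
  rw [Small_dvd] at h
  obtain ⟨h1, h2⟩ := h
  have h3 : (p : ℤ) ∣ p' * w.re := by
    have := hn.trans h1
    have h5 : (p' : ℤ) * w.re = (p' * w.re - p * w'.re) + p * w'.re := by ring
    rw [h5]
    exact dvd_add this (dvd_mul_right _ _)
  have h4 : (p : ℤ) ∣ p' * w.im := by
    have := hn.trans h2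
    have h5 : (p' : ℤ) * w.im = (p' * w.im - p * w'.im) + p * w'.im := by ring
    rw [h5]
    exact dvd_add this (dvd_mul_right _ _)
  by_contra hne
  have hcop : IsCoprime (p : ℤ) (p' : ℤ) :=
    Nat.isCoprime_iff_coprime.2 ((Nat.coprime_primes hp hp').2 hne)
  have h5 : (p : ℤ) ∣ w.re := hcop.dvd_of_dvd_mul_left h3
  have h6 : (p : ℤ) ∣ w.im := hcop.dvd_of_dvd_mul_left h4
  have h7 : (p : ℤ) ∣ Int.gcd w.re w.im := Int.dvd_coe_gcd h5 h6
  unfold Pr at hw
  rw [hw] at h7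
  have h8 : p ∣ 1 := by exact_mod_cast h7
  exact hp.one_lt.ne' (Nat.dvd_one.1 h8)

/-- number of multiples of `p > P` up to `C1 P` -/
theorem Small_mult (N : Finset ℕ) (P p : ℕ) (C1 : ℝ) (hP : 1 ≤ P) (hp : P < p)
    (hN : ∀ n ∈ N, 1 ≤ n ∧ (n : ℝ) ≤ C1 * P) :
    ((N.filter (fun n => p ∣ n)).card : ℝ) ≤ C1 ∨ N = ∅ := by
  classical
  rcases N.eq_empty_or_nonempty with he | ⟨n0, hn0⟩
  · exact Or.inr he
  left
  have hP0 : (0 : ℝ) < P := by exact_mod_cast hP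
  have hC1 : 0 ≤ C1 := by
    have := hN n0 hn0
    have h1 : (0 : ℝ) ≤ n0 := by positivity
    by_contra h
    push Not at h
    nlinarith [this.2]
  have hsub : N.filter (fun n => p ∣ n) ⊆ (Icc 1 ⌊C1⌋₊).image (fun j => p * j) := by
    intro n hn
    rw [mem_filter] at hn
    obtain ⟨h1, j, rfl⟩ := hn
    obtain ⟨h2, h3⟩ := hN _ h1
    rw [mem_image]
    refine ⟨j, ?_, rfl⟩
    rw [mem_Icc]
    have hj : 1 ≤ j := by
      rcases Nat.eq_zero_or_pos j with h | h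
      · rw [h] at h2; omega
      · exact h
    refine ⟨hj, Nat.le_floor ?_⟩
    push_cast at h3
    have hpP : (P : ℝ) ≤ p := by exact_mod_cast hp.le
    have : (P : ℝ) * j ≤ C1 * P := by
      have h4 : (0 : ℝ) ≤ j := by positivity
      nlinarith
    by_contra hlt
    push Not at hlt
    nlinarith
  calc ((N.filter (fun n => p ∣ n)).card : ℝ) ≤ (((Icc 1 ⌊C1⌋₊).image (fun j => p * j)).card : ℝ) := by
        exact_mod_cast Finset.card_le_card hsub
    _ ≤ ((Icc 1 ⌊C1⌋₊).card : ℝ) := by exact_mod_cast Finset.card_image_le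
    _ = ⌊C1⌋₊ := by simp
    _ ≤ C1 := Nat.floor_le hC1

/-- common bound for `cnt` and `cnt_bad` -/
theorem Small_uni (b : ℝ) (hb : 1 < b) (A : ℕ) : ∃ C : ℝ, 0 < C ∧ ∀ (δ C1 : ℝ), 0 < δ → 0 ≤ C1 →
    ∀ P m : ℕ, 1 ≤ P → 1 ≤ m → ∀ N : Finset ℕ,
    (∀ n ∈ N, 1 ≤ n ∧ δ * P ≤ (n : ℝ) ∧ (n : ℝ) ≤ C1 * P) → ∀ R : GI → GI → Prop,
    (∀ w ∈ AA b m, ∀ w' ∈ AA b m, R w w' → 0 < dt w w' ∧ (dt w w').toNat ∈ N) →
    open Classical in
    ∑ w ∈ AA b m, ∑ w' ∈ AA b m, (if R w w' then (NN A P w w' : ℝ) else 0) ≤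
      C * (N.card * (m / (δ * P) + 1)) * ((pr A P).card : ℝ) ^ 2 + C * C1 * m * (pr A P).card := by
  classical
  obtain ⟨Ca, hCa, ha⟩ := Small_cop b hb
  obtain ⟨Cd, hCd, hd⟩ := Small_det b hb
  refine ⟨max Ca Cd, lt_max_of_lt_left hCa, fun δ C1 hδ hC1 P m hP hm N hN R hR => ?_⟩
  have hP0 : (0 : ℝ) < P := by exact_mod_cast hP
  have hm0 : (0 : ℝ) < m := by exact_mod_cast hm
  have e1 := Small_swap (AA b m) (pr A P ×ˢ pr A P) R
    (fun w w' e => ((dt w w' : ℤ) : GI) ∣ (e.2 : GI) * w - (e.1 : GI) * w')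
  have e2 : ∑ w ∈ AA b m, ∑ w' ∈ AA b m, (if R w w' then (NN A P w w' : ℝ) else 0) =
      ∑ w ∈ AA b m, ∑ w' ∈ AA b m, (if R w w' then
      (((pr A P ×ˢ pr A P).filter (fun e : ℕ × ℕ =>
        ((dt w w' : ℤ) : GI) ∣ (e.2 : GI) * w - (e.1 : GI) * w')).card : ℝ) else 0) := by
    refine Finset.sum_congr rfl fun w _ => Finset.sum_congr rfl fun w' _ => ?_
    unfold NN
    congr
  rw [e2, e1]
  -- bound for one pair of primes
  have key : ∀ e ∈ pr A P ×ˢ pr A P,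
      (((AA b m ×ˢ AA b m).filter (fun x : GI × GI => R x.1 x.2 ∧
        ((dt x.1 x.2 : ℤ) : GI) ∣ (e.2 : GI) * x.1 - (e.1 : GI) * x.2)).card : ℝ) ≤
      max Ca Cd * (N.card * (m / (δ * P) + 1)) + (if e.1 = e.2 then max Ca Cd * C1 * m else 0) := by
    rintro ⟨p, p'⟩ he
    rw [mem_product] at he
    obtain ⟨hp1, hp2⟩ := he
    rw [mem_pr] at hp1 hp2
    simp only
    have e3 := Small_fib (AA b m) N R (fun w w' => ((dt w w' : ℤ) : GI) ∣ (p' : GI) * w - (p : GI) * w')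
      (fun w hw w' hw' h1 _ => hR w hw w' hw' h1)
    refine e3.trans ?_
    have e4 : ∀ n ∈ N, (((AA b m ×ˢ AA b m).filter (fun x : GI × GI => dt x.1 x.2 = (n : ℤ) ∧
        (R x.1 x.2 ∧ ((dt x.1 x.2 : ℤ) : GI) ∣ (p' : GI) * x.1 - (p : GI) * x.2))).card : ℝ) ≤
        max Ca Cd * (m / (δ * P) + 1) + (if p ∣ n then (if p = p' then max Ca Cd * m else 0) else 0) := by
      intro n hn
      obtain ⟨hn1, hn2, hn3⟩ := hN n hn
      have hn0 : (0 : ℝ) < n := by exact_mod_cast hn1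
      by_cases hpn : p ∣ n
      · rw [if_pos hpn]
        by_cases hpp : p = p'
        · rw [if_pos hpp]
          have h1 := hd m hm n
          have h2 : (((AA b m ×ˢ AA b m).filter (fun x : GI × GI => dt x.1 x.2 = (n : ℤ) ∧
            (R x.1 x.2 ∧ ((dt x.1 x.2 : ℤ) : GI) ∣ (p' : GI) * x.1 - (p : GI) * x.2))).card : ℝ) ≤
            (((AA b m ×ˢ AA b m).filter (fun x : GI × GI => dt x.1 x.2 = (n : ℤ))).card : ℝ) := by
            have : (AA b m ×ˢ AA b m).filter (fun x : GI × GI => dt x.1 x.2 = (n : ℤ) ∧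
              (R x.1 x.2 ∧ ((dt x.1 x.2 : ℤ) : GI) ∣ (p' : GI) * x.1 - (p : GI) * x.2)) ⊆
              (AA b m ×ˢ AA b m).filter (fun x : GI × GI => dt x.1 x.2 = (n : ℤ)) := by
              intro x hx
              rw [mem_filter] at hx ⊢
              exact ⟨hx.1, hx.2.1⟩
            exact_mod_cast Finset.card_le_card this
          have h3 : Cd * m ≤ max Ca Cd * m := mul_le_mul_of_nonneg_right (le_max_right _ _) hm0.le
          have h4 : 0 ≤ max Ca Cd * (m / (δ * P) + 1) := by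
            have := lt_max_of_lt_left (b := Ca) (c := Cd) hCa
            positivity
          linarith
        · rw [if_neg hpp, add_zero]
          have h1 : (AA b m ×ˢ AA b m).filter (fun x : GI × GI => dt x.1 x.2 = (n : ℤ) ∧
            (R x.1 x.2 ∧ ((dt x.1 x.2 : ℤ) : GI) ∣ (p' : GI) * x.1 - (p : GI) * x.2)) = ∅ := by
            rw [Finset.filter_eq_empty_iff]
            rintro x hx ⟨h1, _, h2⟩
            rw [mem_product, mem_AA, mem_AA] at hx
            refine hpp (Small_eq hp1.2.1 hp2.2.1 hx.1.2.1 ?_ h2)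
            rw [h1]
            exact_mod_cast hpn
          rw [h1]
          have := lt_max_of_lt_left (b := Ca) (c := Cd) hCa
          simp only [Finset.card_empty, Nat.cast_zero]
          positivity
      · rw [if_neg hpn, add_zero]
        have hc : Nat.Coprime p n := (Nat.Prime.coprime_iff_not_dvd hp1.2.1).2 hpn
        have h1 := ha m n p p' hm hn1 hc
        have h2 : (((AA b m ×ˢ AA b m).filter (fun x : GI × GI => dt x.1 x.2 = (n : ℤ) ∧
            (R x.1 x.2 ∧ ((dt x.1 x.2 : ℤ) : GI) ∣ (p' : GI) * x.1 - (p : GI) * x.2))).card : ℝ) ≤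
            (((AA b m ×ˢ AA b m).filter (fun x : GI × GI => dt x.1 x.2 = (n : ℤ) ∧
            ((dt x.1 x.2 : ℤ) : GI) ∣ (p' : GI) * x.1 - (p : GI) * x.2)).card : ℝ) := by
          have : (AA b m ×ˢ AA b m).filter (fun x : GI × GI => dt x.1 x.2 = (n : ℤ) ∧
            (R x.1 x.2 ∧ ((dt x.1 x.2 : ℤ) : GI) ∣ (p' : GI) * x.1 - (p : GI) * x.2)) ⊆
            (AA b m ×ˢ AA b m).filter (fun x : GI × GI => dt x.1 x.2 = (n : ℤ) ∧
            ((dt x.1 x.2 : ℤ) : GI) ∣ (p' : GI) * x.1 - (p : GI) * x.2) := by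
            intro x hx
            rw [mem_filter] at hx ⊢
            exact ⟨hx.1, hx.2.1, hx.2.2.2⟩
          exact_mod_cast Finset.card_le_card this
        have h3 : (m : ℝ) / n ≤ m / (δ * P) :=
          div_le_div_of_nonneg_left hm0.le (by positivity) hn2
        have h4 : Ca * ((m : ℝ) / n + 1) ≤ max Ca Cd * (m / (δ * P) + 1) := by
          have h5 : (m : ℝ) / n + 1 ≤ m / (δ * P) + 1 := by linarith
          exact mul_le_mul (le_max_left _ _) h5 (by positivity) (le_trans hCa.le (le_max_left _ _))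
        linarith
    refine (Finset.sum_le_sum e4).trans ?_
    rw [Finset.sum_add_distrib, Finset.sum_const, nsmul_eq_mul]
    have e5 : ∑ n ∈ N, (if p ∣ n then (if p = p' then max Ca Cd * (m : ℝ) else 0) else 0) ≤
        (if p = p' then max Ca Cd * C1 * m else 0) := by
      rw [← Finset.sum_filter, Finset.sum_const, nsmul_eq_mul]
      split_ifs with hpp
      · rcases Small_mult N P p C1 hP hp1.1.1 (fun n hn => ⟨(hN n hn).1, (hN n hn).2.2⟩) with h | h
        · have hM : 0 < max Ca Cd * m := mul_pos (lt_max_of_lt_left hCa) hm0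
          nlinarith
        · rw [h]
          have := lt_max_of_lt_left (b := Ca) (c := Cd) hCa
          simp only [Finset.filter_empty, Finset.card_empty, Nat.cast_zero, zero_mul]
          positivity
      · rw [mul_zero]
    linarith
  refine (Finset.sum_le_sum key).trans ?_
  rw [Finset.sum_add_distrib, Finset.sum_const, nsmul_eq_mul, Finset.card_product]
  have e6 : ∑ e ∈ pr A P ×ˢ pr A P, (if e.1 = e.2 then max Ca Cd * C1 * (m : ℝ) else 0) =
      (pr A P).card * (max Ca Cd * C1 * m) := by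
    rw [Finset.sum_product]
    have : ∀ p ∈ pr A P, ∑ p' ∈ pr A P, (if p = p' then max Ca Cd * C1 * (m : ℝ) else 0) =
        max Ca Cd * C1 * m := by
      intro p hp
      rw [Finset.sum_ite_eq, if_pos hp]
    rw [Finset.sum_congr rfl this, Finset.sum_const, nsmul_eq_mul]
  rw [e6]
  push_cast
  apply le_of_eq
  ring

/-- the point `z = (p' w - p w')/D` is not too large -/
theorem Small_nz {b : ℝ} (hb : 1 < b) {m p p' : ℕ} (hm : 1 ≤ m) {w w' z : GI} (hw : w ∈ AA b m)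
    (hw' : w' ∈ AA b m) (hip : 0 < ip w w') (hD : 0 < dt w w')
    (hz1 : dt w w' * z.re = p' * w.re - p * w'.re) (hz2 : dt w w' * z.im = p' * w.im - p * w'.im)
    (hph : phip b (((p' : ℝ) * rd m w - (p : ℝ) * rd m w') / (dt w w' : ℝ)) ≠ 0)
    (hmp : 2 * p * p' * b ≤ (m : ℝ) ^ 2) : (nm z : ℝ) ≤ 3 * m := by
  rw [mem_AA] at hw hw'
  have hm0 : (0 : ℝ) < m := by exact_mod_cast hm
  have hb0 : 0 < b := by linarith
  set D : ℝ := (dt w w' : ℝ) with hDdef
  have hD0 : 0 < D := by rw [hDdef]; exact_mod_cast hD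
  set α := rd m w with hα
  set β := rd m w' with hβ
  have hα2 : α ^ 2 = nm w / m := by
    rw [hα]; unfold rd; rw [Real.sq_sqrt (by positivity)]
  have hβ2 : β ^ 2 = nm w' / m := by
    rw [hβ]; unfold rd; rw [Real.sq_sqrt (by positivity)]
  have hα0 : 0 ≤ α := by rw [hα]; unfold rd; positivity
  have hβ0 : 0 ≤ β := by rw [hβ]; unfold rd; positivity
  set y := ((p' : ℝ) * α - (p : ℝ) * β) / D with hy
  have hy2 : y ^ 2 ≤ 2 := by
    by_contra hlt
    push Not at hlt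
    apply hph
    unfold phip phi
    split_ifs with h0
    · have h1 : min 1 (min (2 * b * y ^ 2 - 1) (2 - y ^ 2)) ≤ 0 :=
        (min_le_right _ _).trans ((min_le_right _ _).trans (by linarith))
      exact max_eq_left h1
    · rfl
  have hyD : (y * D) = (p' : ℝ) * α - (p : ℝ) * β := by
    rw [hy]; field_simp
  -- `X = |w||w'|`
  set X : ℝ := m * (α * β) with hX
  have hX0 : 0 ≤ X := by positivity
  have hX2 : X ^ 2 = (ip w w' : ℝ) ^ 2 + D ^ 2 := by
    have h1 : (ip w w' : ℝ) ^ 2 + D ^ 2 = (nm w : ℝ) * nm w' := by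
      have := ip_sq_add w w'
      rw [hDdef]
      exact_mod_cast this
    rw [h1, hX]
    have : (m * (α * β)) ^ 2 = (m : ℝ) ^ 2 * (α ^ 2 * β ^ 2) := by ring
    rw [this, hα2, hβ2]
    field_simp
  have hip0 : (0 : ℝ) < ip w w' := by exact_mod_cast hip
  have hXge : (m : ℝ) / b ≤ X := by
    have h1 : ((m : ℝ) / b) ^ 2 ≤ X ^ 2 := by
      have h2 : X ^ 2 = (nm w : ℝ) * nm w' := by
        have := ip_sq_add w w'
        rw [hX2, hDdef]
        exact_mod_cast this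
      rw [h2, sq]
      exact mul_le_mul hw.2.2.le hw'.2.2.le (by positivity) (by positivity)
    exact le_of_sq_le_sq h1 hX0
  have hXip : (X - ip w w') * (m / b) ≤ D ^ 2 := by
    have h1 : (X - ip w w') * (X + ip w w') = D ^ 2 := by
      have : (X - ip w w') * (X + ip w w') = X ^ 2 - (ip w w' : ℝ) ^ 2 := by ring
      rw [this, hX2]; ring
    have h2 : 0 ≤ X - ip w w' := by
      by_contra h
      push Not at h
      nlinarith
    nlinarith
  -- norm of z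
  have hN : D ^ 2 * nm z = m * (y * D) ^ 2 + 2 * p * p' * (X - ip w w') := by
    have e1 : D * (z.re : ℝ) = p' * w.re - p * w'.re := by rw [hDdef]; exact_mod_cast hz1
    have e2 : D * (z.im : ℝ) = p' * w.im - p * w'.im := by rw [hDdef]; exact_mod_cast hz2
    have e3 : D ^ 2 * (nm z : ℝ) = (D * (z.re : ℝ)) ^ 2 + (D * (z.im : ℝ)) ^ 2 := by
      rw [nm_real]; ring
    have e4 : (ip w w' : ℝ) = w.re * w'.re + w.im * w'.im := by unfold ip; push_cast; ring
    have e5 : (m : ℝ) * α ^ 2 = w.re ^ 2 + w.im ^ 2 := by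
      rw [hα2, ← nm_real]; field_simp
    have e6 : (m : ℝ) * β ^ 2 = w'.re ^ 2 + w'.im ^ 2 := by
      rw [hβ2, ← nm_real]; field_simp
    rw [e3, e1, e2, hyD, hX, e4]
    linear_combination (-(p' : ℝ) ^ 2) * e5 - (p : ℝ) ^ 2 * e6
  have hpp : (0 : ℝ) ≤ 2 * p * p' := by positivity
  have h3 : 2 * p * p' * (X - ip w w') ≤ m * D ^ 2 := by
    have h4 : (X - ip w w') ≤ D ^ 2 * b / m := by
      rw [le_div_iff₀ hm0]
      have : (X - ip w w') * (m / b) * b = (X - ip w w') * m := by field_simp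
      nlinarith
    calc 2 * p * p' * (X - ip w w') ≤ 2 * p * p' * (D ^ 2 * b / m) :=
          mul_le_mul_of_nonneg_left h4 hpp
      _ = (2 * p * p' * b) * (D ^ 2 / m) := by ring
      _ ≤ (m : ℝ) ^ 2 * (D ^ 2 / m) := mul_le_mul_of_nonneg_right hmp (by positivity)
      _ = m * D ^ 2 := by field_simp
  have h5 : m * (y * D) ^ 2 ≤ 2 * m * D ^ 2 := by
    have : m * (y * D) ^ 2 = (y ^ 2) * (m * D ^ 2) := by ring
    rw [this]
    have h6 : 0 ≤ (m : ℝ) * D ^ 2 := by positivity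
    nlinarith
  have h6 : D ^ 2 * nm z ≤ D ^ 2 * (3 * m) := by rw [hN]; linarith
  exact le_of_mul_le_mul_left h6 (by positivity)

/-- fixed determinant `n < P < p`: few pairs with a large-enough shadow -/
theorem Small_one (b : ℝ) (hb : 1 < b) : ∃ C : ℝ, 0 < C ∧ ∀ m n p p' : ℕ, 1 ≤ m → 1 ≤ n → n < p →
    p.Prime → 2 * (p : ℝ) * p' * b ≤ (m : ℝ) ^ 2 → open Classical in
    (((AA b m ×ˢ AA b m).filter (fun x : GI × GI => dt x.1 x.2 = (n : ℤ) ∧ (0 < ip x.1 x.2 ∧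
      (((dt x.1 x.2 : ℤ) : GI) ∣ (p' : GI) * x.1 - (p : GI) * x.2 ∧
      phip b (((p' : ℝ) * rd m x.1 - (p : ℝ) * rd m x.2) / (dt x.1 x.2 : ℝ)) ≠ 0)))).card : ℝ)
      ≤ C * ((m : ℝ) / p + 1) := by
  classical
  obtain ⟨C, hC, h⟩ := pack (max b 3) (le_max_of_le_left hb.le)
  refine ⟨C, hC, fun m n p p' hm hn hnp hp hmp => ?_⟩
  have hp1 : 1 ≤ p := hp.one_lt.le
  have hcn : Nat.Coprime n p := Nat.Coprime.symm
    ((Nat.Prime.coprime_iff_not_dvd hp).2 (fun hd => by have := Nat.le_of_dvd hn hd; omega))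
  obtain ⟨k, hk⟩ : ∃ k : ℤ, (p : ℤ) ∣ k * n - p' := by
    have h1 : IsCoprime (n : ℤ) (p : ℤ) := Nat.isCoprime_iff_coprime.2 hcn
    obtain ⟨u, v, huv⟩ := h1
    refine ⟨p' * u, ⟨-(p' * v), ?_⟩⟩
    linear_combination (p' : ℤ) * huv
  refine le_trans ?_ (h m p k hm hp1)
  have hn0 : (n : ℤ) ≠ 0 := by exact_mod_cast Nat.one_le_iff_ne_zero.1 hn
  have hpz : (p : ℤ) ≠ 0 := by exact_mod_cast Nat.one_le_iff_ne_zero.1 hp1
  set f : GI × GI → GI × GI := fun x => (x.1, ⟨((p' : ℤ) * x.1.re - p * x.2.re) / n,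
    ((p' : ℤ) * x.1.im - p * x.2.im) / n⟩) with hf
  set S := (AA b m ×ˢ AA b m).filter (fun x : GI × GI => dt x.1 x.2 = (n : ℤ) ∧ (0 < ip x.1 x.2 ∧
      (((dt x.1 x.2 : ℤ) : GI) ∣ (p' : GI) * x.1 - (p : GI) * x.2 ∧
      phip b (((p' : ℝ) * rd m x.1 - (p : ℝ) * rd m x.2) / (dt x.1 x.2 : ℝ)) ≠ 0))) with hS
  have hdiv : ∀ x ∈ S, (n : ℤ) * (f x).2.re = p' * x.1.re - p * x.2.re ∧
      (n : ℤ) * (f x).2.im = p' * x.1.im - p * x.2.im := by
    intro x hx
    rw [hS, mem_filter] at hx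
    obtain ⟨_, h1, _, h2, _⟩ := hx
    rw [h1, Small_dvd] at h2
    exact ⟨Int.mul_ediv_cancel' h2.1, Int.mul_ediv_cancel' h2.2⟩
  have hinj : Set.InjOn f S := by
    intro x hx x' hx' hxx
    have h1 := hdiv x hx
    have h2 := hdiv x' hx'
    rw [hxx] at h1
    have h3 : x.1 = x'.1 := by
      have := congrArg Prod.fst hxx
      simpa [hf] using this
    rw [h3] at h1
    have h4 : x.2.re = x'.2.re := by
      have h5 : (p : ℤ) * x.2.re = p * x'.2.re := by linarith [h1.1, h2.1]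
      exact mul_left_cancel₀ hpz h5
    have h5 : x.2.im = x'.2.im := by
      have h5 : (p : ℤ) * x.2.im = p * x'.2.im := by linarith [h1.2, h2.2]
      exact mul_left_cancel₀ hpz h5
    exact Prod.ext h3 (Zsqrtd.ext h4 h5)
  rw [← Finset.card_image_of_injOn hinj]
  have hsub : S.image f ⊆ (bal (max b 3 * m) ×ˢ bal (max b 3 * m)).filter (fun e : GI × GI =>
      (m : ℝ) / max b 3 ≤ (nm e.1 : ℝ) ∧ (dt e.1 e.2).natAbs = p ∧ cg p e.2 ((k : GI) * e.1)) := by
    intro e he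
    rw [mem_image] at he
    obtain ⟨x, hx, rfl⟩ := he
    obtain ⟨hz1, hz2⟩ := hdiv x hx
    have hx0 := hx
    rw [hS, mem_filter, mem_product] at hx
    obtain ⟨⟨h1, h2⟩, h3, h4, h5, h6⟩ := hx
    have hf1 : (f x).1 = x.1 := rfl
    have hm0 : (0 : ℝ) < m := by exact_mod_cast hm
    have hb3 : (0 : ℝ) < max b 3 := lt_max_of_lt_right (by norm_num)
    have hnz : (nm (f x).2 : ℝ) ≤ 3 * m := by
      refine Small_nz hb hm h1 h2 h4 ?_ ?_ ?_ h6 hmp
      · rw [h3]; exact_mod_cast hn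
      · rw [h3]; exact hz1
      · rw [h3]; exact hz2
    have h1' := mem_AA.1 h1
    rw [mem_filter, mem_product, mem_bal, mem_bal, hf1]
    refine ⟨⟨?_, ?_⟩, ?_, ?_, ?_⟩
    · refine h1'.1.trans ?_
      have : (1 : ℝ) ≤ max b 3 := le_max_of_le_left hb.le
      nlinarith
    · exact hnz.trans (mul_le_mul_of_nonneg_right (le_max_right _ _) hm0.le)
    · refine le_trans ?_ h1'.2.2.le
      exact div_le_div_of_nonneg_left hm0.le (by linarith) (le_max_left _ _)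
    · have h7 : (n : ℤ) * dt x.1 (f x).2 = n * (-p) := by
        have : (n : ℤ) * dt x.1 (f x).2 = -p * dt x.1 x.2 := by
          unfold dt
          linear_combination x.1.re * hz2 - x.1.im * hz1
        rw [this, h3]; ring
      have h8 := mul_left_cancel₀ hn0 h7
      rw [h8]
      simp
    · have hcop : IsCoprime (p : ℤ) (n : ℤ) := (Nat.isCoprime_iff_coprime.2 hcn).symm
      unfold cg
      constructor
      · simp only [Zsqrtd.re_mul, Zsqrtd.re_intCast, Zsqrtd.im_intCast]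
        refine hcop.dvd_of_dvd_mul_left ?_
        have : (n : ℤ) * ((f x).2.re - (k * x.1.re + -1 * 0 * x.1.im)) =
            p * (-x.2.re) - (k * n - p') * x.1.re := by linear_combination hz1
        rw [this]
        exact dvd_sub (dvd_mul_right _ _) (hk.mul_right _)
      · simp only [Zsqrtd.im_mul, Zsqrtd.re_intCast, Zsqrtd.im_intCast]
        refine hcop.dvd_of_dvd_mul_left ?_
        have : (n : ℤ) * ((f x).2.im - (k * x.1.im + 0 * x.1.re)) =
            p * (-x.2.im) - (k * n - p') * x.1.im := by linear_combination hz2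
        rw [this]
        exact dvd_sub (dvd_mul_right _ _) (hk.mul_right _)
  exact_mod_cast Finset.card_le_card hsub

theorem small (b : ℝ) (hb : 1 < b) (A : ℕ) (hA : 2 ≤ A) : ∃ C : ℝ, 0 < C ∧ ∀ δ : ℝ, 0 < δ → δ < 1 →
    ∀ P : ℕ, 1 ≤ P → ∃ m0 : ℕ, ∀ m : ℕ, m0 ≤ m → open Classical in
    ∑ w ∈ AA b m, ∑ w' ∈ AA b m, (if 0 < ip w w' ∧ 0 < dt w w' ∧ (dt w w' : ℝ) ≤ δ * P then
      (((pr A P ×ˢ pr A P).filter (fun e : ℕ × ℕ =>
        ((dt w w' : ℤ) : GI) ∣ (e.2 : GI) * w - (e.1 : GI) * w' ∧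
        phip b (((e.2 : ℝ) * rd m w - (e.1 : ℝ) * rd m w') / (dt w w' : ℝ)) ≠ 0)).card : ℝ)
      else 0) ≤ C * δ * m * ((pr A P).card : ℝ) ^ 2 := by
  classical
  obtain ⟨C, hC, h⟩ := Small_one b hb
  refine ⟨2 * C, by positivity, fun δ hδ hδ1 P hP => ?_⟩
  refine ⟨max P (⌈2 * ((A * P : ℕ) : ℝ) * ((A * P : ℕ) : ℝ) * b⌉₊), fun m hm => ?_⟩
  have hPm : P ≤ m := (le_max_left _ _).trans hm
  have hm1 : 1 ≤ m := hP.trans hPm
  have hP0 : (0 : ℝ) < P := by exact_mod_cast hP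
  have hm0 : (0 : ℝ) < m := by exact_mod_cast hm1
  have hPm' : (P : ℝ) ≤ m := by exact_mod_cast hPm
  have hmA : 2 * ((A * P : ℕ) : ℝ) * ((A * P : ℕ) : ℝ) * b ≤ m := by
    refine (Nat.le_ceil _).trans ?_
    exact_mod_cast (le_max_right _ _).trans hm
  have e1 := Small_swap (AA b m) (pr A P ×ˢ pr A P)
    (fun w w' => 0 < ip w w' ∧ 0 < dt w w' ∧ (dt w w' : ℝ) ≤ δ * P)
    (fun w w' e => ((dt w w' : ℤ) : GI) ∣ (e.2 : GI) * w - (e.1 : GI) * w' ∧
        phip b (((e.2 : ℝ) * rd m w - (e.1 : ℝ) * rd m w') / (dt w w' : ℝ)) ≠ 0)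
  refine le_trans (le_of_eq (Eq.trans ?_ e1)) ?_
  · refine Finset.sum_congr rfl fun w _ => Finset.sum_congr rfl fun w' _ => ?_
    congr!
  have key : ∀ e ∈ pr A P ×ˢ pr A P,
      (((AA b m ×ˢ AA b m).filter (fun x : GI × GI =>
        (0 < ip x.1 x.2 ∧ 0 < dt x.1 x.2 ∧ (dt x.1 x.2 : ℝ) ≤ δ * P) ∧
        (((dt x.1 x.2 : ℤ) : GI) ∣ (e.2 : GI) * x.1 - (e.1 : GI) * x.2 ∧
        phip b (((e.2 : ℝ) * rd m x.1 - (e.1 : ℝ) * rd m x.2) / (dt x.1 x.2 : ℝ)) ≠ 0))).card : ℝ) ≤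
      2 * C * δ * m := by
    rintro ⟨p, p'⟩ he
    rw [mem_product] at he
    obtain ⟨hp1, hp2⟩ := he
    rw [mem_pr] at hp1 hp2
    simp only
    have hpA : (p : ℝ) ≤ ((A * P : ℕ) : ℝ) := by exact_mod_cast hp1.1.2
    have hpA' : (p' : ℝ) ≤ ((A * P : ℕ) : ℝ) := by exact_mod_cast hp2.1.2
    have hmp : 2 * (p : ℝ) * p' * b ≤ (m : ℝ) ^ 2 := by
      have hb0 : 0 < b := by linarith
      have h1 : 2 * (p : ℝ) * p' * b ≤ m := by
        refine le_trans ?_ hmA
        refine mul_le_mul_of_nonneg_right ?_ hb0.le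
        exact mul_le_mul (by linarith) hpA' (by positivity) (by positivity)
      have h2 : (1 : ℝ) ≤ m := by exact_mod_cast hm1
      nlinarith
    have e3 := Small_fib (AA b m) (Icc 1 ⌊δ * P⌋₊)
      (fun w w' => 0 < ip w w' ∧ 0 < dt w w' ∧ (dt w w' : ℝ) ≤ δ * P)
      (fun w w' => ((dt w w' : ℤ) : GI) ∣ (p' : GI) * w - (p : GI) * w' ∧
        phip b (((p' : ℝ) * rd m w - (p : ℝ) * rd m w') / (dt w w' : ℝ)) ≠ 0)
      (fun w hw w' hw' h1 _ => by
        refine ⟨h1.2.1, ?_⟩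
        rw [mem_Icc]
        refine ⟨by have := h1.2.1; omega, Nat.le_floor ?_⟩
        have h2 : (((dt w w').toNat : ℕ) : ℝ) = (dt w w' : ℝ) := by
          have : (((dt w w').toNat : ℕ) : ℤ) = dt w w' := Int.toNat_of_nonneg h1.2.1.le
          exact_mod_cast this
        rw [h2]
        exact h1.2.2)
    refine le_trans (le_of_eq ?_) (e3.trans ?_)
    · congr!
    have e4 : ∀ n ∈ Icc 1 ⌊δ * P⌋₊, (((AA b m ×ˢ AA b m).filter (fun x : GI × GI =>
        dt x.1 x.2 = (n : ℤ) ∧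
        ((0 < ip x.1 x.2 ∧ 0 < dt x.1 x.2 ∧ (dt x.1 x.2 : ℝ) ≤ δ * P) ∧
        (((dt x.1 x.2 : ℤ) : GI) ∣ (p' : GI) * x.1 - (p : GI) * x.2 ∧
        phip b (((p' : ℝ) * rd m x.1 - (p : ℝ) * rd m x.2) / (dt x.1 x.2 : ℝ)) ≠ 0)))).card : ℝ) ≤
        2 * C * m / P := by
      intro n hn
      rw [mem_Icc] at hn
      have hnP : (n : ℝ) ≤ δ * P := (Nat.le_floor_iff (by positivity)).1 hn.2
      have hnp : n < p := by
        have h1 : (n : ℝ) < p := by
          have h2 : (P : ℝ) < p := by exact_mod_cast hp1.1.1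
          nlinarith
        exact_mod_cast h1
      have h1 := h m n p p' hm1 hn.1 hnp hp1.2.1 hmp
      have h2 : ((AA b m ×ˢ AA b m).filter (fun x : GI × GI =>
        dt x.1 x.2 = (n : ℤ) ∧
        ((0 < ip x.1 x.2 ∧ 0 < dt x.1 x.2 ∧ (dt x.1 x.2 : ℝ) ≤ δ * P) ∧
        (((dt x.1 x.2 : ℤ) : GI) ∣ (p' : GI) * x.1 - (p : GI) * x.2 ∧
        phip b (((p' : ℝ) * rd m x.1 - (p : ℝ) * rd m x.2) / (dt x.1 x.2 : ℝ)) ≠ 0)))) ⊆
        ((AA b m ×ˢ AA b m).filter (fun x : GI × GI => dt x.1 x.2 = (n : ℤ) ∧ (0 < ip x.1 x.2 ∧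
        (((dt x.1 x.2 : ℤ) : GI) ∣ (p' : GI) * x.1 - (p : GI) * x.2 ∧
        phip b (((p' : ℝ) * rd m x.1 - (p : ℝ) * rd m x.2) / (dt x.1 x.2 : ℝ)) ≠ 0)))) := by
        intro x hx
        rw [mem_filter] at hx ⊢
        exact ⟨hx.1, hx.2.1, hx.2.2.1.1, hx.2.2.2⟩
      have h3 : (m : ℝ) / p + 1 ≤ 2 * m / P := by
        have h4 : (m : ℝ) / p ≤ m / P :=
          div_le_div_of_nonneg_left hm0.le hP0 (by exact_mod_cast hp1.1.1.le)
        have h5 : (1 : ℝ) ≤ m / P := by rw [le_div_iff₀ hP0]; linarith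
        have h6 : 2 * (m : ℝ) / P = m / P + m / P := by ring
        rw [h6]; linarith
      calc _ ≤ _ := by exact_mod_cast Finset.card_le_card h2
        _ ≤ C * ((m : ℝ) / p + 1) := h1
        _ ≤ C * (2 * m / P) := mul_le_mul_of_nonneg_left h3 hC.le
        _ = 2 * C * m / P := by ring
    refine le_trans (le_of_eq ?_) ((Finset.sum_le_sum e4).trans ?_)
    · refine Finset.sum_congr rfl fun n _ => ?_
      congr!
    rw [Finset.sum_const, nsmul_eq_mul, Nat.card_Icc, Nat.add_sub_cancel]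
    have h7 : ((⌊δ * P⌋₊ : ℕ) : ℝ) ≤ δ * P := Nat.floor_le (by positivity)
    calc ((⌊δ * P⌋₊ : ℕ) : ℝ) * (2 * C * m / P) ≤ (δ * P) * (2 * C * m / P) :=
          mul_le_mul_of_nonneg_right h7 (by positivity)
      _ = 2 * C * δ * m := by field_simp
  refine le_trans (le_of_eq ?_) ((Finset.sum_le_sum key).trans ?_)
  · refine Finset.sum_congr rfl fun n _ => ?_
    congr!
  rw [Finset.sum_const, nsmul_eq_mul, Finset.card_product]
  push_cast
  apply le_of_eq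
  ring

theorem Small_card_sq (n : ℕ) : (n : ℝ) ≤ (n : ℝ) ^ 2 := by
  have : n ≤ n ^ 2 := by
    rcases Nat.eq_zero_or_pos n with h | h
    · simp [h]
    · nlinarith
  exact_mod_cast this

theorem cnt (b : ℝ) (hb : 1 < b) (A : ℕ) (hA : GA A) (δ C1 : ℝ) (hδ : 0 < δ) (hC1 : δ ≤ C1) :
    ∃ (C : ℝ) (P0 : ℕ), 0 < C ∧ ∀ P : ℕ, P0 ≤ P → ∃ m0 : ℕ, ∀ m : ℕ, m0 ≤ m → open Classical in
    ∑ w ∈ AA b m, ∑ w' ∈ AA b m, (if δ * P ≤ (dt w w' : ℝ) ∧ (dt w w' : ℝ) ≤ C1 * P then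
      (NN A P w w' : ℝ) else 0) ≤ C * m * ((pr A P).card : ℝ) ^ 2 := by
  classical
  obtain ⟨C, hC, hu⟩ := Small_uni b hb A
  have hC10 : 0 < C1 := lt_of_lt_of_le hδ hC1
  refine ⟨C * (C1 * (1 / δ + 1)) + C * C1, 1, by positivity, fun P hP => ⟨P, fun m hm => ?_⟩⟩
  have hm1 : 1 ≤ m := hP.trans hm
  have hP0 : (0 : ℝ) < P := by exact_mod_cast hP
  have hm0 : (0 : ℝ) < m := by exact_mod_cast hm1
  have hPm' : (P : ℝ) ≤ m := by exact_mod_cast hm
  set N : Finset ℕ := (Icc 1 ⌊C1 * P⌋₊).filter (fun n => δ * P ≤ (n : ℝ)) with hN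
  have hNc : (N.card : ℝ) ≤ C1 * P := by
    have h1 : N.card ≤ ⌊C1 * P⌋₊ := by
      refine (Finset.card_filter_le _ _).trans ?_
      rw [Nat.card_Icc, Nat.add_sub_cancel]
    refine le_trans (by exact_mod_cast h1) (Nat.floor_le (by positivity))
  have h1 := hu δ C1 hδ hC10.le P m hP hm1 N (fun n hn => by
      rw [hN, mem_filter, mem_Icc] at hn
      exact ⟨hn.1.1, hn.2, (Nat.le_floor_iff (by positivity)).1 hn.1.2⟩)
    (fun w w' => δ * P ≤ (dt w w' : ℝ) ∧ (dt w w' : ℝ) ≤ C1 * P) (fun w hw w' hw' h => by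
      have hd0 : (0 : ℝ) < (dt w w' : ℝ) := lt_of_lt_of_le (by positivity) h.1
      have hd1 : 0 < dt w w' := by exact_mod_cast hd0
      have h2 : (((dt w w').toNat : ℕ) : ℝ) = (dt w w' : ℝ) := by
          have : (((dt w w').toNat : ℕ) : ℤ) = dt w w' := Int.toNat_of_nonneg hd1.le
          exact_mod_cast this
      refine ⟨hd1, ?_⟩
      rw [hN, mem_filter, mem_Icc]
      refine ⟨⟨by omega, Nat.le_floor ?_⟩, ?_⟩
      · rw [h2]; exact h.2
      · rw [h2]; exact h.1)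
  refine le_trans (le_of_eq ?_) (h1.trans ?_)
  · refine Finset.sum_congr rfl fun w _ => Finset.sum_congr rfl fun w' _ => ?_
    congr!
  have hsq := Small_card_sq (pr A P).card
  have h2 : (N.card : ℝ) * (m / (δ * P) + 1) ≤ C1 * (1 / δ + 1) * m := by
    calc (N.card : ℝ) * (m / (δ * P) + 1) ≤ (C1 * P) * (m / (δ * P) + 1) :=
          mul_le_mul_of_nonneg_right hNc (by positivity)
      _ = C1 * (1 / δ * m + P) := by field_simp
      _ ≤ C1 * (1 / δ * m + m) := by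
          refine mul_le_mul_of_nonneg_left ?_ hC10.le
          linarith
      _ = C1 * (1 / δ + 1) * m := by ring
  have h3 : C * ((N.card : ℝ) * (m / (δ * P) + 1)) * ((pr A P).card : ℝ) ^ 2 ≤
      C * (C1 * (1 / δ + 1) * m) * ((pr A P).card : ℝ) ^ 2 :=
    mul_le_mul_of_nonneg_right (mul_le_mul_of_nonneg_left h2 hC.le) (by positivity)
  have h4 : C * C1 * m * ((pr A P).card : ℝ) ≤ C * C1 * m * ((pr A P).card : ℝ) ^ 2 :=
    mul_le_mul_of_nonneg_left hsq (by positivity)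
  calc _ ≤ C * (C1 * (1 / δ + 1) * m) * ((pr A P).card : ℝ) ^ 2 +
        C * C1 * m * ((pr A P).card : ℝ) ^ 2 := add_le_add h3 h4
    _ = _ := by ring

/-- as `cnt`, for the determinants divisible by a prime of `pr A P` (at most `C1 #pr` values of `D`; `#pr ≤ C P / log P`) -/
theorem cnt_bad (b : ℝ) (hb : 1 < b) (A : ℕ) (hA : GA A) (δ C1 ε : ℝ) (hδ : 0 < δ) (hC1 : δ ≤ C1)
    (hε : 0 < ε) : ∃ P0 : ℕ, ∀ P : ℕ, P0 ≤ P → ∃ m0 : ℕ, ∀ m : ℕ, m0 ≤ m → open Classical in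
    ∑ w ∈ AA b m, ∑ w' ∈ AA b m, (if (δ * P ≤ (dt w w' : ℝ) ∧ (dt w w' : ℝ) ≤ C1 * P) ∧
      (∃ p ∈ pr A P, p ∣ (dt w w').natAbs) then (NN A P w w' : ℝ) else 0)
      ≤ ε * m * ((pr A P).card : ℝ) ^ 2 := by
  classical
  obtain ⟨C, hC, hu⟩ := Small_uni b hb A
  obtain ⟨Cp, hCp, hpl⟩ := pr_le A hA.1
  obtain ⟨_, cg, hcg, Pg, hPg2, hg⟩ := hA
  have hC10 : 0 < C1 := lt_of_lt_of_le hδ hC1
  -- `P` large
  set L : ℝ := 2 * C * C1 * (1 / δ + 1) * Cp / ε with hL
  set M : ℝ := 2 * C * C1 / ε with hM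
  have hL0 : 0 < L := by positivity
  have hM0 : 0 < M := by positivity
  refine ⟨max (max Pg ⌈Real.exp L⌉₊) ⌈(2 * M / cg) ^ 2⌉₊, fun P hP => ⟨P, fun m hm => ?_⟩⟩
  have hPPg : Pg ≤ P := (le_max_left _ _).trans ((le_max_left _ _).trans hP)
  have hP2 : 2 ≤ P := hPg2.trans hPPg
  have hP1 : 1 ≤ P := by omega
  have hP0 : (0 : ℝ) < P := by exact_mod_cast hP1
  have hPL : Real.exp L ≤ P := by
    refine (Nat.le_ceil _).trans ?_
    exact_mod_cast (le_max_right _ _).trans ((le_max_left _ _).trans hP)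
  have hPM : (2 * M / cg) ^ 2 ≤ P := by
    refine (Nat.le_ceil _).trans ?_
    exact_mod_cast (le_max_right _ _).trans hP
  have hlog : L ≤ Real.log P := by
    rw [← Real.log_exp L]
    exact Real.log_le_log (Real.exp_pos _) hPL
  have hlog0 : 0 < Real.log P := lt_of_lt_of_le hL0 hlog
  have hprM : M ≤ ((pr A P).card : ℝ) := by
    refine le_trans ?_ (hg P hPPg)
    have h1 : Real.log P ≤ 2 * √P := by
      have h2 : Real.log (√P) ≤ √P - 1 := Real.log_le_sub_one_of_pos (Real.sqrt_pos.2 hP0)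
      rw [Real.log_sqrt hP0.le] at h2
      linarith
    have h3 : 2 * M / cg ≤ √P := Real.le_sqrt_of_sq_le hPM
    rw [le_div_iff₀ hlog0]
    have h4 : M * Real.log P ≤ M * (2 * √P) := mul_le_mul_of_nonneg_left h1 hM0.le
    have h5 : 2 * M ≤ cg * √P := by
      rw [div_le_iff₀ hcg] at h3; linarith
    have h6 : √P * √P = P := Real.mul_self_sqrt hP0.le
    have h7 : 0 ≤ √(P : ℝ) := Real.sqrt_nonneg _
    calc M * Real.log P ≤ (2 * M) * √P := by linarith
      _ ≤ (cg * √P) * √P := mul_le_mul_of_nonneg_right h5 h7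
      _ = cg * P := by rw [mul_assoc, h6]
  have hprP : ((pr A P).card : ℝ) ≤ Cp * P / Real.log P := hpl P hP2
  have hm1 : 1 ≤ m := hP1.trans hm
  have hm0 : (0 : ℝ) < m := by exact_mod_cast hm1
  have hPm' : (P : ℝ) ≤ m := by exact_mod_cast hm
  set N : Finset ℕ := (Icc 1 ⌊C1 * P⌋₊).filter
    (fun n => δ * P ≤ (n : ℝ) ∧ ∃ p ∈ pr A P, p ∣ n) with hN
  have hNmem : ∀ n ∈ N, 1 ≤ n ∧ δ * P ≤ (n : ℝ) ∧ (n : ℝ) ≤ C1 * P := by
    intro n hn
    rw [hN, mem_filter, mem_Icc] at hn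
    exact ⟨hn.1.1, hn.2.1, (Nat.le_floor_iff (by positivity)).1 hn.1.2⟩
  have hNc : (N.card : ℝ) ≤ (pr A P).card * C1 := by
    have h1 : N ⊆ (pr A P).biUnion (fun p => N.filter (fun n => p ∣ n)) := by
      intro n hn
      have hn' := hn
      rw [hN, mem_filter] at hn'
      obtain ⟨_, _, p, hp, hpn⟩ := hn'
      rw [mem_biUnion]
      exact ⟨p, hp, by rw [mem_filter]; exact ⟨hn, hpn⟩⟩
    have h2 : (N.card : ℝ) ≤ ∑ p ∈ pr A P, ((N.filter (fun n => p ∣ n)).card : ℝ) := by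
      have := (Finset.card_le_card h1).trans Finset.card_biUnion_le
      exact_mod_cast this
    refine h2.trans ?_
    calc ∑ p ∈ pr A P, ((N.filter (fun n => p ∣ n)).card : ℝ) ≤ ∑ p ∈ pr A P, C1 := by
          refine Finset.sum_le_sum fun p hp => ?_
          rw [mem_pr] at hp
          rcases Small_mult N P p C1 hP1 hp.1.1 (fun n hn => ⟨(hNmem n hn).1, (hNmem n hn).2.2⟩)
            with h | h
          · exact h
          · rw [h]; simp [hC10.le]
      _ = (pr A P).card * C1 := by rw [Finset.sum_const, nsmul_eq_mul]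
  have h1 := hu δ C1 hδ hC10.le P m hP1 hm1 N hNmem
    (fun w w' => (δ * P ≤ (dt w w' : ℝ) ∧ (dt w w' : ℝ) ≤ C1 * P) ∧
      (∃ p ∈ pr A P, p ∣ (dt w w').natAbs)) (fun w hw w' hw' h => by
      have hd0 : (0 : ℝ) < (dt w w' : ℝ) := lt_of_lt_of_le (by positivity) h.1.1
      have hd1 : 0 < dt w w' := by exact_mod_cast hd0
      have h2 : (((dt w w').toNat : ℕ) : ℝ) = (dt w w' : ℝ) := by
          have : (((dt w w').toNat : ℕ) : ℤ) = dt w w' := Int.toNat_of_nonneg hd1.le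
          exact_mod_cast this
      refine ⟨hd1, ?_⟩
      rw [hN, mem_filter, mem_Icc]
      refine ⟨⟨by omega, Nat.le_floor ?_⟩, ?_, ?_⟩
      · rw [h2]; exact h.1.2
      · rw [h2]; exact h.1.1
      · have h3 : (dt w w').toNat = (dt w w').natAbs := by omega
        rw [h3]
        exact h.2)
  refine le_trans (le_of_eq ?_) (h1.trans ?_)
  · refine Finset.sum_congr rfl fun w _ => Finset.sum_congr rfl fun w' _ => ?_
    congr!
  have hpr0 : (0 : ℝ) ≤ ((pr A P).card : ℝ) := by positivity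
  -- first term
  have h2 : C * ((N.card : ℝ) * (m / (δ * P) + 1)) ≤ ε / 2 * m := by
    have h3 : (m : ℝ) / (δ * P) + 1 ≤ (1 / δ + 1) * (m / P) := by
      have h4 : (1 : ℝ) ≤ m / P := by rw [le_div_iff₀ hP0]; linarith
      have h5 : (m : ℝ) / (δ * P) = 1 / δ * (m / P) := by field_simp
      rw [h5]; linarith
    calc C * ((N.card : ℝ) * (m / (δ * P) + 1))
        ≤ C * (((pr A P).card * C1) * ((1 / δ + 1) * (m / P))) := by
          refine mul_le_mul_of_nonneg_left ?_ hC.le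
          exact mul_le_mul hNc h3 (by positivity) (by positivity)
      _ ≤ C * (((Cp * P / Real.log P) * C1) * ((1 / δ + 1) * (m / P))) := by
          refine mul_le_mul_of_nonneg_left ?_ hC.le
          refine mul_le_mul_of_nonneg_right ?_ (by positivity)
          exact mul_le_mul_of_nonneg_right hprP hC10.le
      _ = (C * C1 * (1 / δ + 1) * Cp) * (m / Real.log P) := by field_simp
      _ ≤ (C * C1 * (1 / δ + 1) * Cp) * (m / L) := by
          refine mul_le_mul_of_nonneg_left ?_ (by positivity)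
          exact div_le_div_of_nonneg_left hm0.le hL0 hlog
      _ = ε / 2 * m := by rw [hL]; field_simp
  have h3 : C * C1 * m * ((pr A P).card : ℝ) ≤ ε / 2 * m * ((pr A P).card : ℝ) ^ 2 := by
    have h4 : C * C1 = ε / 2 * M := by rw [hM]; field_simp
    rw [h4]
    calc ε / 2 * M * m * ((pr A P).card : ℝ) = (ε / 2 * m * ((pr A P).card : ℝ)) * M := by ring
      _ ≤ (ε / 2 * m * ((pr A P).card : ℝ)) * ((pr A P).card : ℝ) :=
          mul_le_mul_of_nonneg_left hprM (by positivity)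
      _ = _ := by ring
  calc _ ≤ (ε / 2 * m) * ((pr A P).card : ℝ) ^ 2 + ε / 2 * m * ((pr A P).card : ℝ) ^ 2 :=
        add_le_add (mul_le_mul_of_nonneg_right h2 (by positivity)) h3
    _ = _ := by ring

end Pool.Agent.FCH
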