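import Pool.Agent.FCH.EEm
import Pool.Agent.FCH.Small
import Pool.Agent.FCH.Lsx

set_option autoImplicit false

/-! Module AsmB: one monomial.  On the support of `cs δ c (t)`: `δP/b ≤ D ≤ 2cP =: C1 P`, weight `≤ W0 := (b/δ)^i`.
(1) `D` not good: `‖XX‖ ≤ NN`, `cnt_bad`.
(2) `D` good: `XX m A P x y 1 w w' = Xk A P D x y (kk w w')` (`w' ≡ k w`, `w` primitive: `D ∣ p' w - p w' ↔ p' ≡ k p (mod D)`).
   Replace `Xk` by `Sk` (`Q` from `lsx` with `C3 = C1`): error `≤ W0 ∑_D ∑_k #{(w,w'): det = D, kk = k} ‖Xk - Sk‖ ≤ W0 C (m b/(δP) + 1) ∑_{D,k} ‖Xk - Sk‖ ≤ W0 C' (m/P) ε' P (#pr)²`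
   (`pack` with `n = D`).
(3) `Sk`: `(1/φ(D)) = (1/P)(P/φ(D))`, exchange the sums over `q ≤ Q`, `χ ∈ prc q` with the sum over `(w,w')`: `≤ ∑_q ∑_χ (#pr)² (1/P) ‖strw(q, χ)‖`,
   `#prc q ≤ q`, so `≤ Q² (#pr)² (1/P)(ε'' P m + C (P/m) EE)`. -/

open Finset

namespace Pool.Agent.FCH

open Pool.Agent.MRS hiding Good

/-! ### linearity of `PS` -/

theorem AsmB_PS_congr (b : ℝ) (m : ℕ) (F G : GI → GI → ℂ)
    (h : ∀ w ∈ AA b m, ∀ w' ∈ AA b m, 0 < ip w w' → 0 < dt w w' → F w w' = G w w') :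
    PS b m F = PS b m G := by
  unfold PS
  apply Finset.sum_congr rfl
  intro w hw
  apply Finset.sum_congr rfl
  intro w' hw'
  split_ifs with h1
  · exact h w hw w' hw' h1.1 h1.2
  · rfl

theorem AsmB_PS_add (b : ℝ) (m : ℕ) (F G : GI → GI → ℂ) :
    PS b m (fun w w' => F w w' + G w w') = PS b m F + PS b m G := by
  unfold PS
  rw [← Finset.sum_add_distrib]
  apply Finset.sum_congr rfl
  intro w _
  rw [← Finset.sum_add_distrib]
  apply Finset.sum_congr rfl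
  intro w' _
  split_ifs <;> simp

theorem AsmB_PS_mul (b : ℝ) (m : ℕ) (a : ℂ) (F : GI → GI → ℂ) :
    PS b m (fun w w' => a * F w w') = a * PS b m F := by
  unfold PS
  rw [Finset.mul_sum]
  apply Finset.sum_congr rfl
  intro w _
  rw [Finset.mul_sum]
  apply Finset.sum_congr rfl
  intro w' _
  split_ifs <;> simp

theorem AsmB_PS_sum {ι : Type} (s : Finset ι) (b : ℝ) (m : ℕ) (F : ι → GI → GI → ℂ) :
    PS b m (fun w w' => ∑ i ∈ s, F i w w') = ∑ i ∈ s, PS b m (F i) := by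
  classical
  induction s using Finset.induction_on with
  | empty =>
    simp only [Finset.sum_empty]
    unfold PS
    apply Finset.sum_eq_zero
    intro w _
    apply Finset.sum_eq_zero
    intro w' _
    split_ifs <;> rfl
  | insert a s ha ih =>
    rw [Finset.sum_insert ha, ← ih, ← AsmB_PS_add]
    apply AsmB_PS_congr
    intro w _ w' _ _ _
    rw [Finset.sum_insert ha]

theorem AsmB_PS_norm (b : ℝ) (m : ℕ) (F : GI → GI → ℂ) (g : GI → GI → ℝ)
    (hg : ∀ w w', 0 ≤ g w w')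
    (h : ∀ w ∈ AA b m, ∀ w' ∈ AA b m, 0 < ip w w' → 0 < dt w w' → ‖F w w'‖ ≤ g w w') :
    ‖PS b m F‖ ≤ ∑ w ∈ AA b m, ∑ w' ∈ AA b m, g w w' := by
  unfold PS
  refine (norm_sum_le _ _).trans (Finset.sum_le_sum fun w hw => ?_)
  refine (norm_sum_le _ _).trans (Finset.sum_le_sum fun w' hw' => ?_)
  split_ifs with h1
  · exact h w hw w' hw' h1.1 h1.2
  · rw [norm_zero]; exact hg w w'

/-! ### the congruence -/

theorem AsmB_dvd_iff {w w' : GI} (hw : Pr w) (hw' : Pr w') (hD : 0 < dt w w') (p p' : ℕ) :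
    ((dt w w' : ℤ) : GI) ∣ (p' : GI) * w - (p : GI) * w' ↔
      p' ≡ kk w w' * p [MOD (dt w w').natAbs] := by
  obtain ⟨_, _, hk1, hk2⟩ := kk_spec hw hw' hD
  set k := kk w w' with hk
  set D := dt w w' with hDd
  have hDabs : ((D.natAbs : ℕ) : ℤ) = D := by rw [Int.natCast_natAbs, abs_of_pos hD]
  rw [hDabs] at hk1 hk2
  have e1 : (((k : GI) * w).re) = k * w.re := by simp
  have e2 : (((k : GI) * w).im) = k * w.im := by simp
  rw [e1] at hk1
  rw [e2] at hk2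
  rw [Zsqrtd.intCast_dvd]
  have e3 : ((p' : GI) * w - (p : GI) * w').re = p' * w.re - p * w'.re := by simp
  have e4 : ((p' : GI) * w - (p : GI) * w').im = p' * w.im - p * w'.im := by simp
  rw [e3, e4, Nat.modEq_iff_dvd, hDabs]
  push_cast
  constructor
  · rintro ⟨h1, h2⟩
    have h3 : D ∣ ((p' : ℤ) - k * p) * w.re := by
      have := dvd_add h1 (dvd_mul_of_dvd_right hk1 (p : ℤ))
      have e : (p' : ℤ) * w.re - p * w'.re + p * (w'.re - k * w.re) = ((p' : ℤ) - k * p) * w.re := by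
        ring
      rwa [e] at this
    have h4 : D ∣ ((p' : ℤ) - k * p) * w.im := by
      have := dvd_add h2 (dvd_mul_of_dvd_right hk2 (p : ℤ))
      have e : (p' : ℤ) * w.im - p * w'.im + p * (w'.im - k * w.im) = ((p' : ℤ) - k * p) * w.im := by
        ring
      rwa [e] at this
    have hb := Int.gcd_eq_gcd_ab w.re w.im
    unfold Pr at hw
    rw [hw] at hb
    have h5 : D ∣ ((p' : ℤ) - k * p) := by
      have h6 := dvd_add (dvd_mul_of_dvd_left h3 (Int.gcdA w.re w.im))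
        (dvd_mul_of_dvd_left h4 (Int.gcdB w.re w.im))
      have e : ((p' : ℤ) - k * p) * w.re * Int.gcdA w.re w.im +
          ((p' : ℤ) - k * p) * w.im * Int.gcdB w.re w.im =
          ((p' : ℤ) - k * p) * (w.re * Int.gcdA w.re w.im + w.im * Int.gcdB w.re w.im) := by ring
      rw [e, ← hb] at h6
      simpa using h6
    have := (dvd_neg.mpr h5)
    rwa [neg_sub] at this
  · intro h
    have h5 : D ∣ ((p' : ℤ) - k * p) := by
      have := (dvd_neg.mpr h)
      rwa [neg_sub] at this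
    constructor
    · have h1 := dvd_sub (dvd_mul_of_dvd_left h5 w.re) (dvd_mul_of_dvd_right hk1 (p : ℤ))
      have e : ((p' : ℤ) - k * p) * w.re - p * (w'.re - k * w.re) = (p' : ℤ) * w.re - p * w'.re := by
        ring
      rwa [e] at h1
    · have h1 := dvd_sub (dvd_mul_of_dvd_left h5 w.im) (dvd_mul_of_dvd_right hk2 (p : ℤ))
      have e : ((p' : ℤ) - k * p) * w.im - p * (w'.im - k * w.im) = (p' : ℤ) * w.im - p * w'.im := by
        ring
      rwa [e] at h1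

theorem AsmB_XX_eq {w w' : GI} (hw : Pr w) (hw' : Pr w') (hD : 0 < dt w w') (m A P : ℕ)
    (x y : ℕ → ℂ) :
    XX m A P x y (fun _ => 1) w w' = Xk A P (dt w w').natAbs x y (kk w w') := by
  unfold XX Xk
  apply Finset.sum_congr rfl
  intro p _
  apply Finset.sum_congr rfl
  intro p' _
  by_cases h : ((dt w w' : ℤ) : GI) ∣ (p' : GI) * w - (p : GI) * w'
  · rw [if_pos h, if_pos ((AsmB_dvd_iff hw hw' hD p p').mp h)]
    simp
  · rw [if_neg h, if_neg (fun h2 => h ((AsmB_dvd_iff hw hw' hD p p').mpr h2))]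

theorem AsmB_XX_le (m A P : ℕ) (x y : ℕ → ℂ) (hx : ∀ n, ‖x n‖ ≤ 1) (hy : ∀ n, ‖y n‖ ≤ 1)
    (w w' : GI) : ‖XX m A P x y (fun _ => 1) w w'‖ ≤ NN A P w w' := by
  classical
  unfold XX NN
  rw [Finset.card_filter, Finset.sum_product]
  push_cast
  refine (norm_sum_le _ _).trans (Finset.sum_le_sum fun p _ => ?_)
  refine (norm_sum_le _ _).trans (Finset.sum_le_sum fun p' _ => ?_)
  by_cases h : ((dt w w' : ℤ) : GI) ∣ (p' : GI) * w - (p : GI) * w'
  · rw [if_pos h, if_pos h, norm_mul, norm_mul, RCLike.norm_conj]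
    have h1 := hx p
    have h2 := hy p'
    have h3 : ‖x p‖ * ‖y p'‖ ≤ 1 := mul_le_one₀ h1 (norm_nonneg _) h2
    simpa using h3
  · rw [if_neg h, if_neg h, norm_zero]

/-! ### the weight -/

theorem AsmB_rd {b : ℝ} {m : ℕ} (hb : 1 < b) (hm : 1 ≤ m) {w : GI} (hw : w ∈ AA b m) :
    0 < rd m w ∧ rd m w ≤ 1 ∧ 1 / b ≤ rd m w ^ 2 := by
  rw [mem_AA] at hw
  obtain ⟨h1, _, h3⟩ := hw
  have hm0 : (0 : ℝ) < m := by exact_mod_cast hm
  have hb0 : 0 < b := by linarith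
  have hq : 1 / b < (nm w : ℝ) / m := by
    rw [div_lt_div_iff₀ hb0 hm0]
    rw [div_lt_iff₀ hb0] at h3
    linarith
  have hq1 : (nm w : ℝ) / m ≤ 1 := by rw [div_le_one hm0]; exact h1
  have hq0 : 0 < (nm w : ℝ) / m := lt_trans (by positivity) hq
  unfold rd
  refine ⟨Real.sqrt_pos.mpr hq0, ?_, ?_⟩
  · rw [Real.sqrt_le_one]; exact hq1
  · rw [Real.sq_sqrt hq0.le]; exact hq.le

theorem AsmB_rd2 {b : ℝ} {m : ℕ} (hb : 1 < b) (hm : 1 ≤ m) {w w' : GI} (hw : w ∈ AA b m)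
    (hw' : w' ∈ AA b m) : 1 / b ≤ rd m w * rd m w' ∧ rd m w * rd m w' ≤ 1 := by
  obtain ⟨h1, h2, h3⟩ := AsmB_rd hb hm hw
  obtain ⟨h1', h2', h3'⟩ := AsmB_rd hb hm hw'
  refine ⟨?_, mul_le_one₀ h2 h1'.le h2'⟩
  have hb0 : 0 < b := by linarith
  have h4 : (1 / b) ^ 2 ≤ (rd m w * rd m w') ^ 2 := by
    rw [mul_pow, sq]
    exact mul_le_mul h3 h3' (by positivity) (by positivity)
  exact (pow_le_pow_iff_left₀ (by positivity) (by positivity) (by norm_num)).mp h4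

/-- the support and the size of the weight -/
theorem AsmB_wt {b δ c : ℝ} {m P : ℕ} (hb : 1 < b) (hδ : 0 < δ) (hc : 2 * δ ≤ c) (hm : 1 ≤ m)
    (hP : 1 ≤ P) (i : ℕ) {w w' : GI} (hw : w ∈ AA b m) (hw' : w' ∈ AA b m) (hD : 0 < dt w w')
    (hcs : cs δ c (tt m P w w') ≠ 0) :
    (δ / b * P ≤ (dt w w' : ℝ) ∧ (dt w w' : ℝ) ≤ 2 * c * P) ∧
    |cs δ c (tt m P w w') * ((dt w w' : ℝ) / P) ^ (-(i : ℤ))| ≤ (b / δ) ^ i := by
  obtain ⟨h1, h2⟩ := AsmB_rd2 hb hm hw hw'
  have hb0 : 0 < b := by linarith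
  have hP0 : (0 : ℝ) < P := by exact_mod_cast hP
  have hD0 : (0 : ℝ) < (dt w w' : ℝ) := by exact_mod_cast hD
  set r := rd m w * rd m w' with hr
  have hr0 : 0 < r := lt_of_lt_of_le (by positivity) h1
  have hpos : 0 < cs δ c (tt m P w w') := lt_of_le_of_ne (cs_nonneg _ _ _) (Ne.symm hcs)
  have hc0 : 0 < c := by linarith
  have ht1 : δ < tt m P w w' := by
    by_contra hcon
    apply hcs
    unfold cs
    apply max_eq_left
    apply le_trans (min_le_right _ _)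
    apply le_trans (min_le_left _ _)
    apply div_nonpos_of_nonpos_of_nonneg _ hδ.le
    linarith [not_lt.mp hcon]
  have ht2 : tt m P w w' < 2 * c := by
    by_contra hcon
    apply hcs
    unfold cs
    apply max_eq_left
    apply le_trans (min_le_right _ _)
    apply le_trans (min_le_right _ _)
    apply div_nonpos_of_nonpos_of_nonneg _ hc0.le
    linarith [not_lt.mp hcon]
  have htt : tt m P w w' = (dt w w' : ℝ) / (P * r) := rfl
  rw [htt, lt_div_iff₀ (by positivity)] at ht1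
  rw [htt, div_lt_iff₀ (by positivity)] at ht2
  have h3 : δ / b * P ≤ (dt w w' : ℝ) := by
    have : δ * (P * (1 / b)) ≤ δ * (P * r) := by gcongr
    calc δ / b * P = δ * (P * (1 / b)) := by ring
      _ ≤ δ * (P * r) := this
      _ ≤ _ := ht1.le
  refine ⟨⟨h3, ?_⟩, ?_⟩
  · have : 2 * c * (P * r) ≤ 2 * c * (P * 1) := by gcongr
    linarith
  · have h4 : 0 ≤ ((dt w w' : ℝ) / P) ^ (-(i : ℤ)) := by positivity
    rw [abs_of_nonneg (mul_nonneg hpos.le h4)]
    have h5 : cs δ c (tt m P w w') ≤ 1 := cs_le_one _ _ _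
    have h6 : ((dt w w' : ℝ) / P) ^ (-(i : ℤ)) ≤ (b / δ) ^ i := by
      rw [zpow_neg, zpow_natCast, ← inv_pow, inv_div]
      have h7 : (P : ℝ) / (dt w w' : ℝ) ≤ b / δ := by
        rw [div_le_div_iff₀ hD0 hδ]
        have h8 : δ / b * P * b ≤ (dt w w' : ℝ) * b := by gcongr
        have h9 : δ / b * P * b = P * δ := by field_simp
        linarith
      gcongr
    calc cs δ c (tt m P w w') * ((dt w w' : ℝ) / P) ^ (-(i : ℤ)) ≤
        1 * ((dt w w' : ℝ) / P) ^ (-(i : ℤ)) := by gcongr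
      _ ≤ _ := by rw [one_mul]; exact h6

theorem AsmB_wt_norm {b δ c : ℝ} {m P : ℕ} (hb : 1 < b) (hδ : 0 < δ) (hc : 2 * δ ≤ c) (hm : 1 ≤ m)
    (hP : 1 ≤ P) (i j l : ℕ) {w w' : GI} (hw : w ∈ AA b m) (hw' : w' ∈ AA b m) (hD : 0 < dt w w')
    (H : GI → ℂ) (hH : ∀ z, ‖H z‖ ≤ 1) :
    ‖(H w * ((rd m w) ^ j : ℝ)) * (starRingEnd ℂ) (H w' * ((rd m w') ^ l : ℝ)) *
        ((cs δ c (tt m P w w') * ((dt w w' : ℝ) / P) ^ (-(i : ℤ)) : ℝ) : ℂ)‖ ≤ (b / δ) ^ i := by
  obtain ⟨h1, h2, _⟩ := AsmB_rd hb hm hw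
  obtain ⟨h1', h2', _⟩ := AsmB_rd hb hm hw'
  have hb0 : 0 < b := by linarith
  have hW0 : 0 ≤ (b / δ) ^ i := by positivity
  have h3 : ‖H w * ((rd m w) ^ j : ℝ)‖ ≤ 1 := by
    rw [norm_mul, Complex.norm_real, Real.norm_eq_abs, abs_of_nonneg (by positivity)]
    exact mul_le_one₀ (hH w) (by positivity) (pow_le_one₀ h1.le h2)
  have h4 : ‖(starRingEnd ℂ) (H w' * ((rd m w') ^ l : ℝ))‖ ≤ 1 := by
    rw [RCLike.norm_conj, norm_mul, Complex.norm_real, Real.norm_eq_abs,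
      abs_of_nonneg (by positivity)]
    exact mul_le_one₀ (hH w') (by positivity) (pow_le_one₀ h1'.le h2')
  by_cases hcs : cs δ c (tt m P w w') = 0
  · rw [hcs, zero_mul, Complex.ofReal_zero, mul_zero, norm_zero]; exact hW0
  · have h5 := (AsmB_wt hb hδ hc hm hP i hw hw' hD hcs).2
    rw [norm_mul, norm_mul, Complex.norm_real, Real.norm_eq_abs]
    have h6 : ‖H w * ((rd m w) ^ j : ℝ)‖ * ‖(starRingEnd ℂ) (H w' * ((rd m w') ^ l : ℝ))‖ ≤ 1 :=
      mul_le_one₀ h3 (norm_nonneg _) h4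
    calc ‖H w * ((rd m w) ^ j : ℝ)‖ * ‖(starRingEnd ℂ) (H w' * ((rd m w') ^ l : ℝ))‖ *
        |cs δ c (tt m P w w') * ((dt w w' : ℝ) / P) ^ (-(i : ℤ))| ≤ 1 * (b / δ) ^ i := by
          apply mul_le_mul h6 h5 (abs_nonneg _) zero_le_one
      _ = _ := one_mul _

/-! ### the error `Xk - Sk` -/

theorem AsmB_err (b : ℝ) (hb : 1 < b) (A : ℕ) (δ c W0 : ℝ) (hδ : 0 < δ)
    (hW0 : 0 ≤ W0) : ∃ C : ℝ, 0 < C ∧ ∀ (C3 : ℝ), 1 ≤ C3 → 2 * c ≤ C3 → ∀ m P : ℕ, 1 ≤ P → P ≤ m →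
    ∀ g : ℕ → ℕ → ℝ, (∀ D k, 0 ≤ g D k) → open Classical in
    ∑ w ∈ AA b m, ∑ w' ∈ AA b m, (if (0 < dt w w' ∧ gd A P (dt w w').natAbs) ∧
        (δ / b * P ≤ (dt w w' : ℝ) ∧ (dt w w' : ℝ) ≤ 2 * c * P) then
      W0 * g (dt w w').natAbs (kk w w') else 0) ≤
    C * (m / P) * ∑ D ∈ (Icc 1 ⌊C3 * P⌋₊).filter (gd A P),
      ∑ k ∈ (range D).filter (fun k => Nat.Coprime k D), g D k := by
  classical
  obtain ⟨C, hC, hpack⟩ := pack b hb.le
  have hb0 : 0 < b := by linarith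
  refine ⟨(W0 + 1) * (C * (b / δ + 1)), by positivity, ?_⟩
  intro C3 hC3 hcC3 m P hP hPm g hg
  have hP0 : (0 : ℝ) < P := by exact_mod_cast hP
  have hm1 : 1 ≤ m := hP.trans hPm
  have hm0 : (0 : ℝ) < m := by exact_mod_cast hm1
  set S : Finset (GI × GI) := (AA b m ×ˢ AA b m).filter (fun e =>
    (0 < dt e.1 e.2 ∧ gd A P (dt e.1 e.2).natAbs) ∧
        (δ / b * P ≤ (dt e.1 e.2 : ℝ) ∧ (dt e.1 e.2 : ℝ) ≤ 2 * c * P)) with hS
  have hL : ∑ w ∈ AA b m, ∑ w' ∈ AA b m, (if (0 < dt w w' ∧ gd A P (dt w w').natAbs) ∧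
        (δ / b * P ≤ (dt w w' : ℝ) ∧ (dt w w' : ℝ) ≤ 2 * c * P) then
      W0 * g (dt w w').natAbs (kk w w') else 0) =
      ∑ e ∈ S, W0 * g (dt e.1 e.2).natAbs (kk e.1 e.2) := by
    rw [hS, Finset.sum_filter, Finset.sum_product]
  rw [hL]
  set T : Finset (Σ _ : ℕ, ℕ) := ((Icc 1 ⌊C3 * P⌋₊).filter (gd A P)).sigma
    (fun D => (range D).filter (fun k => Nat.Coprime k D)) with hT
  have hmaps : ∀ e ∈ S, (⟨(dt e.1 e.2).natAbs, kk e.1 e.2⟩ : Σ _ : ℕ, ℕ) ∈ T := by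
    intro e he
    rw [hS, mem_filter, mem_product] at he
    obtain ⟨⟨he1, he2⟩, ⟨hD, hgd⟩, hD1, hD2⟩ := he
    rw [hT, mem_sigma, mem_filter, mem_filter, mem_Icc, mem_range]
    have h1 := kk_spec (mem_AA.mp he1).2.1 (mem_AA.mp he2).2.1 hD
    refine ⟨⟨⟨?_, ?_⟩, hgd⟩, h1.1, h1.2.1⟩
    · simp only []; omega
    · simp only []
      apply Nat.le_floor
      have h2 : (((dt e.1 e.2).natAbs : ℕ) : ℝ) = (dt e.1 e.2 : ℝ) := by
        rw [Nat.cast_natAbs, abs_of_pos hD]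
      rw [h2]
      have : 2 * c * (P : ℝ) ≤ C3 * P := by gcongr
      linarith
  rw [← Finset.sum_fiberwise_of_maps_to hmaps]
  have hR : (W0 + 1) * (C * (b / δ + 1)) * (m / P) * ∑ D ∈ (Icc 1 ⌊C3 * P⌋₊).filter (gd A P),
      ∑ k ∈ (range D).filter (fun k => Nat.Coprime k D), g D k =
      ∑ t ∈ T, (W0 + 1) * (C * (b / δ + 1)) * (m / P) * g t.1 t.2 := by
    rw [← Finset.mul_sum, hT, Finset.sum_sigma]
  rw [hR]
  apply Finset.sum_le_sum
  intro t ht
  have h1 : ∑ e ∈ S.filter (fun e => (⟨(dt e.1 e.2).natAbs, kk e.1 e.2⟩ : Σ _ : ℕ, ℕ) = t),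
      W0 * g (dt e.1 e.2).natAbs (kk e.1 e.2) =
      ((S.filter (fun e => (⟨(dt e.1 e.2).natAbs, kk e.1 e.2⟩ : Σ _ : ℕ, ℕ) = t)).card : ℝ) *
        (W0 * g t.1 t.2) := by
    rw [← nsmul_eq_mul, ← Finset.sum_const]
    apply Finset.sum_congr rfl
    intro e he
    rw [mem_filter] at he
    rw [← he.2]
  rw [h1]
  set U := S.filter (fun e => (⟨(dt e.1 e.2).natAbs, kk e.1 e.2⟩ : Σ _ : ℕ, ℕ) = t) with hU
  have hcard : (U.card : ℝ) ≤ C * (b / δ + 1) * (m / P) := by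
    rcases U.eq_empty_or_nonempty with hE | ⟨e0, he0⟩
    · rw [hE, Finset.card_empty, Nat.cast_zero]; positivity
    · have hmem : ∀ e ∈ U, (e.1 ∈ AA b m ∧ e.2 ∈ AA b m) ∧ 0 < dt e.1 e.2 ∧
          δ / b * P ≤ (dt e.1 e.2 : ℝ) ∧ (dt e.1 e.2).natAbs = t.1 ∧ kk e.1 e.2 = t.2 := by
        intro e he
        rw [hU, mem_filter, hS, mem_filter, mem_product] at he
        obtain ⟨⟨⟨he1, he2⟩, ⟨hD, hgd⟩, hD1, hD2⟩, h3⟩ := he
        refine ⟨⟨he1, he2⟩, hD, hD1, ?_, ?_⟩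
        · rw [← h3]
        · rw [← h3]
      obtain ⟨_, hD0, hD1, ht1, _⟩ := hmem e0 he0
      have ht1' : ((t.1 : ℕ) : ℝ) = (dt e0.1 e0.2 : ℝ) := by
        have : ((t.1 : ℕ) : ℤ) = dt e0.1 e0.2 := by
          rw [← ht1, Int.natCast_natAbs, abs_of_pos hD0]
        exact_mod_cast this
      have htpos : 1 ≤ t.1 := by omega
      have h3 := hpack m t.1 (t.2 : ℤ) hm1 htpos
      have hsub : U ⊆ ((bal (b * m) ×ˢ bal (b * m)).filter (fun e : GI × GI =>
          (m : ℝ) / b ≤ (nm e.1 : ℝ) ∧ (dt e.1 e.2).natAbs = t.1 ∧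
            cg t.1 e.2 (((t.2 : ℤ) : GI) * e.1))) := by
        intro e he
        obtain ⟨⟨he1, he2⟩, hD, _, h5, h6⟩ := hmem e he
        have hbm : (m : ℝ) ≤ b * m := by nlinarith
        rw [mem_filter, mem_product, mem_bal, mem_bal]
        have h7 := (kk_spec (mem_AA.mp he1).2.1 (mem_AA.mp he2).2.1 hD).2.2
        rw [h5, h6] at h7
        refine ⟨⟨(mem_AA.mp he1).1.trans hbm, (mem_AA.mp he2).1.trans hbm⟩,
          (mem_AA.mp he1).2.2.le, h5, ?_⟩
        have e8 : (((t.2 : ℤ) : GI)) = ((t.2 : ℕ) : GI) := by push_cast; rfl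
        rw [e8]
        exact h7
      have h4 : (U.card : ℝ) ≤ C * ((m : ℝ) / t.1 + 1) := by
        refine le_trans ?_ h3
        exact_mod_cast Finset.card_le_card hsub
      have h5 : (m : ℝ) / t.1 ≤ b / δ * (m / P) := by
        rw [ht1', div_mul_div_comm]
        rw [div_le_div_iff₀ (by rw [← ht1']; exact_mod_cast htpos) (by positivity)]
        have h6 : δ / b * P * b ≤ (dt e0.1 e0.2 : ℝ) * b := by gcongr
        have h9 : δ / b * P * b = δ * P := by field_simp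
        rw [h9] at h6
        nlinarith
      have h6 : (1 : ℝ) ≤ m / P := by
        rw [le_div_iff₀ hP0, one_mul]; exact_mod_cast hPm
      calc (U.card : ℝ) ≤ C * ((m : ℝ) / t.1 + 1) := h4
        _ ≤ C * (b / δ * (m / P) + m / P) := by gcongr
        _ = C * (b / δ + 1) * (m / P) := by ring
  have hg0 := hg t.1 t.2
  calc (U.card : ℝ) * (W0 * g t.1 t.2) ≤ C * (b / δ + 1) * (m / P) * ((W0 + 1) * g t.1 t.2) := by
        gcongr
        linarith
    _ = (W0 + 1) * (C * (b / δ + 1)) * (m / P) * g t.1 t.2 := by ring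

theorem asmB (b : ℝ) (hb : 1 < b) (A : ℕ) (hA : GA A) (i j l : ℕ) (δ c ε : ℝ)
    (hδ : 0 < δ) (hc : 2 * δ ≤ c) (hε : 0 < ε) :
    ∃ (d J P0 : ℕ) (η C : ℝ), 1 ≤ d ∧ 0 < η ∧ 0 < C ∧ ∀ P : ℕ, P0 ≤ P → ∃ m0 : ℕ, ∀ m : ℕ, m0 ≤ m →
    ∀ x y : ℕ → ℂ, (∀ n, ‖x n‖ ≤ 1) → (∀ n, ‖y n‖ ≤ 1) → ∀ H : GI → ℂ, (∀ z, ‖H z‖ ≤ 1) →
    ‖PS b m (fun w w' => (H w * ((rd m w) ^ j : ℝ)) * (starRingEnd ℂ) (H w' * ((rd m w') ^ l : ℝ)) *
        ((cs δ c (tt m P w w') * ((dt w w' : ℝ) / P) ^ (-(i : ℤ)) : ℝ) : ℂ) *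
          XX m A P x y (fun _ => 1) w w')‖
      ≤ ((pr A P).card : ℝ) ^ 2 * (ε * m + C / m * EE b d J ⌊(m : ℝ) / (η * P)⌋₊ m H) := by
  classical
  have hb0 : 0 < b := by linarith
  have hc0 : 0 < c := by linarith
  set W0 : ℝ := (b / δ) ^ i with hW0
  have hW0p : 0 < W0 := by positivity
  obtain ⟨C2, hC2, herr⟩ := AsmB_err b hb A δ c W0 hδ hW0p.le
  have hC3 : (1 : ℝ) ≤ max 1 (2 * c) := le_max_left _ _
  obtain ⟨Q, P1, hQ, hlsx⟩ := lsx A hA (max 1 (2 * c)) (ε / (3 * C2)) hC3 (by positivity)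
  have hδb : 0 < δ / b := by positivity
  have hδb1 : δ / b ≤ 2 * c := by
    rw [div_le_iff₀ hb0]
    nlinarith
  obtain ⟨P2, hbad⟩ := cnt_bad b hb A hA (δ / b) (2 * c) (ε / (3 * W0)) hδb hδb1 (by positivity)
  have hQ0 : (0 : ℝ) < Q := by exact_mod_cast hQ
  obtain ⟨d, J, P3, η, C, hd, hη, hC, hstr⟩ := strw b hb A hA Q i j l δ c (ε / (3 * (Q : ℝ) ^ 2)) hQ
    hδ hc (by positivity)
  refine ⟨d, J, max (max P1 P2) (max P3 1), η, C * (Q : ℝ) ^ 2, hd, hη, by positivity, ?_⟩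
  intro P hP
  have hP1 : P1 ≤ P := le_trans (le_trans (le_max_left _ _) (le_max_left _ _)) hP
  have hP2 : P2 ≤ P := le_trans (le_trans (le_max_right _ _) (le_max_left _ _)) hP
  have hP3 : P3 ≤ P := le_trans (le_trans (le_max_left _ _) (le_max_right _ _)) hP
  have hP4 : 1 ≤ P := le_trans (le_trans (le_max_right _ _) (le_max_right _ _)) hP
  have hP0 : (0 : ℝ) < P := by exact_mod_cast hP4
  obtain ⟨m1, hm1⟩ := hbad P hP2
  obtain ⟨m2, hm2⟩ := hstr P hP3
  refine ⟨max (max m1 m2) P, ?_⟩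
  intro m hm x y hx hy H hH
  have hmm1 : m1 ≤ m := le_trans (le_trans (le_max_left _ _) (le_max_left _ _)) hm
  have hmm2 : m2 ≤ m := le_trans (le_trans (le_max_right _ _) (le_max_left _ _)) hm
  have hPm : P ≤ m := le_trans (le_max_right _ _) hm
  have hm1' : 1 ≤ m := hP4.trans hPm
  have hm0 : (0 : ℝ) < m := by exact_mod_cast hm1'
  set Wt : GI → GI → ℂ := fun w w' => (H w * ((rd m w) ^ j : ℝ)) *
    (starRingEnd ℂ) (H w' * ((rd m w') ^ l : ℝ)) *
        ((cs δ c (tt m P w w') * ((dt w w' : ℝ) / P) ^ (-(i : ℤ)) : ℝ) : ℂ) with hWt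
  set np : ℝ := ((pr A P).card : ℝ) with hnp
  have hnp0 : 0 ≤ np := by positivity
  -- the three parts
  set Fb : GI → GI → ℂ := fun w w' => if gd A P (dt w w').natAbs then 0 else
    Wt w w' * XX m A P x y (fun _ => 1) w w' with hFb
  set Fe : GI → GI → ℂ := fun w w' => if gd A P (dt w w').natAbs then
    Wt w w' * (Xk A P (dt w w').natAbs x y (kk w w') - Sk A P Q (dt w w').natAbs x y (kk w w'))
    else 0 with hFe
  set Fm : GI → GI → ℂ := fun w w' => if gd A P (dt w w').natAbs then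
    Wt w w' * Sk A P Q (dt w w').natAbs x y (kk w w') else 0 with hFm
  have hdec : PS b m (fun w w' => Wt w w' * XX m A P x y (fun _ => 1) w w') =
      PS b m Fb + PS b m Fe + PS b m Fm := by
    rw [← AsmB_PS_add, ← AsmB_PS_add]
    apply AsmB_PS_congr
    intro w hw w' hw' _ hD
    rw [hFb, hFe, hFm]
    try simp only []
    by_cases hg : gd A P (dt w w').natAbs
    · rw [if_pos hg, if_pos hg, if_pos hg,
        AsmB_XX_eq (mem_AA.mp hw).2.1 (mem_AA.mp hw').2.1 hD m A P x y]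
      ring
    · rw [if_neg hg, if_neg hg, if_neg hg]; ring
  -- bad part
  have hB : ‖PS b m Fb‖ ≤ ε / 3 * m * np ^ 2 := by
    have h1 := AsmB_PS_norm b m Fb (fun w w' => W0 * (if (δ / b * P ≤ (dt w w' : ℝ) ∧
      (dt w w' : ℝ) ≤ 2 * c * P) ∧ (∃ p ∈ pr A P, p ∣ (dt w w').natAbs) then
        (NN A P w w' : ℝ) else 0)) (fun w w' => by
        apply mul_nonneg hW0p.le
        split_ifs <;> positivity) (by
        intro w hw w' hw' _ hD
        rw [hFb]
        try simp only []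
        by_cases hg : gd A P (dt w w').natAbs
        · rw [if_pos hg, norm_zero]
          apply mul_nonneg hW0p.le
          split_ifs <;> positivity
        · rw [if_neg hg]
          by_cases hcs : cs δ c (tt m P w w') = 0
          · have : Wt w w' = 0 := by
              rw [hWt]; simp only []
              rw [hcs, zero_mul, Complex.ofReal_zero, mul_zero]
            rw [this, zero_mul, norm_zero]
            apply mul_nonneg hW0p.le
            split_ifs <;> positivity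
          · have h2 := (AsmB_wt hb hδ hc hm1' hP4 i hw hw' hD hcs).1
            have h3 : ∃ p ∈ pr A P, p ∣ (dt w w').natAbs := by
              by_contra hcon
              exact hg (fun p hp hd => hcon ⟨p, hp, hd⟩)
            rw [if_pos ⟨h2, h3⟩, norm_mul]
            exact mul_le_mul (AsmB_wt_norm hb hδ hc hm1' hP4 i j l hw hw' hD H hH)
              (AsmB_XX_le m A P x y hx hy w w') (norm_nonneg _) hW0p.le)
    refine h1.trans ?_
    have h2 := hm1 m hmm1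
    have e0 : ∑ w ∈ AA b m, ∑ w' ∈ AA b m, W0 * (if (δ / b * P ≤ (dt w w' : ℝ) ∧
      (dt w w' : ℝ) ≤ 2 * c * P) ∧ (∃ p ∈ pr A P, p ∣ (dt w w').natAbs) then
        (NN A P w w' : ℝ) else 0) = W0 * ∑ w ∈ AA b m, ∑ w' ∈ AA b m, (if (δ / b * P ≤ (dt w w' : ℝ) ∧
      (dt w w' : ℝ) ≤ 2 * c * P) ∧ (∃ p ∈ pr A P, p ∣ (dt w w').natAbs) then
        (NN A P w w' : ℝ) else 0) := by
      rw [Finset.mul_sum]
      apply Finset.sum_congr rfl
      intro w _
      rw [Finset.mul_sum]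
    rw [e0]
    calc W0 * ∑ w ∈ AA b m, ∑ w' ∈ AA b m, (if (δ / b * P ≤ (dt w w' : ℝ) ∧
      (dt w w' : ℝ) ≤ 2 * c * P) ∧ (∃ p ∈ pr A P, p ∣ (dt w w').natAbs) then
        (NN A P w w' : ℝ) else 0) ≤ W0 * (ε / (3 * W0) * m * np ^ 2) := by
          apply mul_le_mul_of_nonneg_left _ hW0p.le
          convert h2 using 6
      _ = ε / 3 * m * np ^ 2 := by field_simp
  -- error part
  have hE : ‖PS b m Fe‖ ≤ ε / 3 * m * np ^ 2 := by
    set g : ℕ → ℕ → ℝ := fun D k => ‖Xk A P D x y k - Sk A P Q D x y k‖ with hg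
    have h1 := AsmB_PS_norm b m Fe (fun w w' => (if (0 < dt w w' ∧ gd A P (dt w w').natAbs) ∧
        (δ / b * P ≤ (dt w w' : ℝ) ∧ (dt w w' : ℝ) ≤ 2 * c * P) then
      W0 * g (dt w w').natAbs (kk w w') else 0)) (fun w w' => by
        try simp only []
        split_ifs
        · exact mul_nonneg hW0p.le (norm_nonneg _)
        · exact le_refl _) (by
        intro w hw w' hw' _ hD
        rw [hFe]
        try simp only []
        by_cases hgd : gd A P (dt w w').natAbs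
        · rw [if_pos hgd]
          by_cases hcs : cs δ c (tt m P w w') = 0
          · have : Wt w w' = 0 := by
              rw [hWt]; simp only []
              rw [hcs, zero_mul, Complex.ofReal_zero, mul_zero]
            rw [this, zero_mul, norm_zero]
            split_ifs
            · exact mul_nonneg hW0p.le (norm_nonneg _)
            · exact le_refl _
          · have h2 := (AsmB_wt hb hδ hc hm1' hP4 i hw hw' hD hcs).1
            rw [if_pos ⟨⟨hD, hgd⟩, h2⟩, norm_mul]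
            exact mul_le_mul_of_nonneg_right
              (AsmB_wt_norm hb hδ hc hm1' hP4 i j l hw hw' hD H hH) (norm_nonneg _)
        · rw [if_neg hgd, norm_zero]
          split_ifs
          · exact mul_nonneg hW0p.le (norm_nonneg _)
          · exact le_refl _)
    have h2 := herr (max 1 (2 * c)) hC3 (le_max_right _ _) m P hP4 hPm g
      (fun D k => norm_nonneg _)
    have h3 := hlsx P hP1 x y hx hy
    have h4 : ∑ D ∈ (Icc 1 ⌊max 1 (2 * c) * P⌋₊).filter (gd A P),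
      ∑ k ∈ (range D).filter (fun k => Nat.Coprime k D), g D k ≤ ε / (3 * C2) * P * np ^ 2 := by
      convert h3 using 3
    calc ‖PS b m Fe‖ ≤ _ := h1
      _ ≤ C2 * (m / P) * ∑ D ∈ (Icc 1 ⌊max 1 (2 * c) * P⌋₊).filter (gd A P),
          ∑ k ∈ (range D).filter (fun k => Nat.Coprime k D), g D k := by
          convert h2 using 6
      _ ≤ C2 * (m / P) * (ε / (3 * C2) * P * np ^ 2) := by gcongr
      _ = ε / 3 * m * np ^ 2 := by field_simp
  -- main part
  set EEv := EE b d J ⌊(m : ℝ) / (η * P)⌋₊ m H with hEE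
  have hM : ‖PS b m Fm‖ ≤ np ^ 2 * (ε / 3 * m + C * (Q : ℝ) ^ 2 / m * EEv) := by
    set Gq : (q : ℕ) → DirichletCharacter ℂ q → GI → GI → ℂ := fun q χ w w' =>
      if q ∣ (dt w w').natAbs ∧ gd A P (dt w w').natAbs then
      (H w * ((rd m w) ^ j : ℝ)) * (starRingEnd ℂ) (H w' * ((rd m w') ^ l : ℝ)) *
        ((cs δ c (tt m P w w') * ((dt w w' : ℝ) / P) ^ (-(i : ℤ)) *
          ((P : ℝ) / ((dt w w').natAbs.totient : ℝ)) : ℝ) : ℂ) * χ (kk w w') else 0 with hGq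
    have hid : PS b m Fm = ∑ q ∈ Icc 1 Q, ∑ χ ∈ prc q,
        ((1 / (P : ℂ)) * ((∑ p ∈ pr A P, x p * χ p) * (starRingEnd ℂ) (∑ p ∈ pr A P, y p * χ p))) *
          PS b m (Gq q χ) := by
      have h1 : ∀ q ∈ Icc 1 Q, ∑ χ ∈ prc q,
        ((1 / (P : ℂ)) * ((∑ p ∈ pr A P, x p * χ p) * (starRingEnd ℂ) (∑ p ∈ pr A P, y p * χ p))) *
          PS b m (Gq q χ) = PS b m (fun w w' => ∑ χ ∈ prc q,
          ((1 / (P : ℂ)) * ((∑ p ∈ pr A P, x p * χ p) *
            (starRingEnd ℂ) (∑ p ∈ pr A P, y p * χ p))) * Gq q χ w w') := by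
        intro q _
        rw [AsmB_PS_sum]
        apply Finset.sum_congr rfl
        intro χ _
        rw [AsmB_PS_mul]
      rw [Finset.sum_congr rfl h1, ← AsmB_PS_sum]
      apply AsmB_PS_congr
      intro w hw w' hw' _ hD
      rw [hFm]
      try simp only []
      by_cases hgd : gd A P (dt w w').natAbs
      · rw [if_pos hgd]
        unfold Sk
        rw [Finset.sum_filter, Finset.mul_sum, Finset.mul_sum]
        apply Finset.sum_congr rfl
        intro q _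
        by_cases hq : q ∣ (dt w w').natAbs
        · rw [if_pos hq, Finset.mul_sum, Finset.mul_sum]
          apply Finset.sum_congr rfl
          intro χ _
          rw [hGq, hWt]
          try simp only []
          rw [if_pos ⟨hq, hgd⟩]
          have hPc : (P : ℂ) ≠ 0 := by exact_mod_cast hP0.ne'
          push_cast
          field_simp
        · rw [if_neg hq, mul_zero, mul_zero]
          symm
          apply Finset.sum_eq_zero
          intro χ _
          rw [hGq]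
          try simp only []
          rw [if_neg (fun h => hq h.1), mul_zero]
      · rw [if_neg hgd]
        symm
        apply Finset.sum_eq_zero
        intro q _
        apply Finset.sum_eq_zero
        intro χ _
        rw [hGq]
        try simp only []
        rw [if_neg (fun h => hgd h.2), mul_zero]
    rw [hid]
    set V := ε / (3 * (Q : ℝ) ^ 2) * P * m + C * (P / m) * EEv with hV
    have hPS : ∀ q ∈ Icc 1 Q, ∀ χ ∈ prc q, ‖PS b m (Gq q χ)‖ ≤ V := by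
      intro q hq χ _
      rw [mem_Icc] at hq
      have h1 := hm2 m hmm2 q hq.1 hq.2 χ H hH
      rw [hGq]
      exact h1
    have hV0 : 0 ≤ V := by
      have h1 : (1 : DirichletCharacter ℂ 1) ∈ prc 1 := by
        rw [mem_prc (by norm_num)]
        exact DirichletCharacter.isPrimitive_one_level_one
      exact (norm_nonneg _).trans (hPS 1 (mem_Icc.mpr ⟨le_refl _, hQ⟩) 1 h1)
    have hsx : ∀ (q : ℕ) (χ : DirichletCharacter ℂ q) (z : ℕ → ℂ), (∀ n, ‖z n‖ ≤ 1) →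
        ‖∑ p ∈ pr A P, z p * χ p‖ ≤ np := by
      intro q χ z hz
      refine (norm_sum_le _ _).trans ?_
      rw [hnp, ← nsmul_one, ← Finset.sum_const]
      apply Finset.sum_le_sum
      intro p _
      rw [norm_mul]
      exact mul_le_one₀ (hz p) (norm_nonneg _) (DirichletCharacter.norm_le_one χ _)
    have hterm : ∀ q ∈ Icc 1 Q, ∀ χ ∈ prc q,
        ‖((1 / (P : ℂ)) * ((∑ p ∈ pr A P, x p * χ p) * (starRingEnd ℂ) (∑ p ∈ pr A P, y p * χ p))) *
          PS b m (Gq q χ)‖ ≤ 1 / P * (np * np) * V := by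
      intro q hq χ hχ
      rw [norm_mul, norm_mul, norm_mul, RCLike.norm_conj]
      have h1 : ‖(1 / (P : ℂ))‖ = 1 / P := by
        rw [norm_div, norm_one, Complex.norm_natCast]
      rw [h1]
      have h2 := hsx q χ x hx
      have h3 := hsx q χ y hy
      have h4 := hPS q hq χ hχ
      gcongr
    calc ‖∑ q ∈ Icc 1 Q, ∑ χ ∈ prc q,
        ((1 / (P : ℂ)) * ((∑ p ∈ pr A P, x p * χ p) * (starRingEnd ℂ) (∑ p ∈ pr A P, y p * χ p))) *
          PS b m (Gq q χ)‖ ≤ ∑ q ∈ Icc 1 Q, ∑ χ ∈ prc q, 1 / P * (np * np) * V := by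
          refine (norm_sum_le _ _).trans (Finset.sum_le_sum fun q hq => ?_)
          exact (norm_sum_le _ _).trans (Finset.sum_le_sum fun χ hχ => hterm q hq χ hχ)
      _ ≤ ∑ q ∈ Icc 1 Q, (Q : ℝ) * (1 / P * (np * np) * V) := by
          apply Finset.sum_le_sum
          intro q hq
          rw [Finset.sum_const, nsmul_eq_mul]
          have h1 : ((prc q).card : ℝ) ≤ Q := by
            have := card_prc q
            rw [mem_Icc] at hq
            exact_mod_cast this.trans hq.2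
          apply mul_le_mul_of_nonneg_right h1 (by positivity)
      _ = Q * (Q * (1 / P * (np * np) * V)) := by
          rw [Finset.sum_const, Nat.card_Icc, nsmul_eq_mul]
          simp
      _ = np ^ 2 * (ε / 3 * m + C * (Q : ℝ) ^ 2 / m * EEv) := by
          rw [hV]
          field_simp
  have hfin : ‖PS b m (fun w w' => Wt w w' * XX m A P x y (fun _ => 1) w w')‖ ≤
      ε / 3 * m * np ^ 2 + ε / 3 * m * np ^ 2 + np ^ 2 * (ε / 3 * m + C * (Q : ℝ) ^ 2 / m * EEv) := by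
    rw [hdec]
    refine (norm_add_le _ _).trans (add_le_add ((norm_add_le _ _).trans (add_le_add hB hE)) hM)
  calc ‖PS b m (fun w w' => Wt w w' * XX m A P x y (fun _ => 1) w w')‖ ≤ _ := hfin
    _ = np ^ 2 * (ε * m + C * (Q : ℝ) ^ 2 / m * EEv) := by ring

end Pool.Agent.FCH
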