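import Pool.Agent.FCH.Ker
import Pool.Agent.FCH.Pack

set_option autoImplicit false

/-! Module Ttb: parametrisation of the `z` in `KK`.  Let `D = det(w,w') ≠ 0`.  Identity: `D z = det(z,w') w - det(z,w) w'`.  So
`z ↦ (p, p') = (det(z,w), det(z,w'))` is injective and its image is `{(p,p'): D ∣ p' w - p w'}`, `z = (p' w - p w')/D`.
Put `α = |w|/√m`, `β = |w'|/√m`, `y = (p' α - p β)/D`.  `N(w) N(w') = ip² + D²`.
(1) if `ip(w,w') > 0`: `N(z)/m - y² = 2 p p' (αβ - ip/m)/D²` and `αβ - ip/m = D²/(m²(αβ+ip/m)) ≤ b D²/m²`, so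
`|φ(N(z)/m) - φ(y²)| ≤ 2b C/m²` (`φ` is `2b`-Lipschitz).
(2) sign: if `N(z) > m/(2b)`: `ip(z,w)/m - α y = p (αβ - ip/m)/D`, absolute value `≤ A P b/m`, and `|α y| ≥ 1/(2b)`, so
`ip(z,w) > 0 ↔ y > 0`, same for `w'`.  If `N(z) ≤ m/(2b)` then `φ(N z/m) = 0`, and `y² ≤ N(z)/m` gives `φ(y²) = 0`.
(3) if `ip(w,w') ≤ 0`: `N(z) ip(w,w') = ip(z,w) ip(z,w') + det(z,w) det(z,w')`, so `KK = 0`. -/

open Finset

namespace Pool.Agent.FCH

open Pool.Agent.MRS hiding Good

theorem Ttb_comps (D : ℤ) (p p' : ℕ) (z w w' : GI)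
    (h : (p' : GI) * w - (p : GI) * w' = ((D : ℤ) : GI) * z) :
    D * z.re = p' * w.re - p * w'.re ∧ D * z.im = p' * w.im - p * w'.im := by
  have h1 := congrArg Zsqrtd.re h
  have h2 := congrArg Zsqrtd.im h
  simp at h1 h2
  exact ⟨h1.symm, h2.symm⟩

theorem Ttb_comps' (D : ℤ) (p p' : ℕ) (z w w' : GI)
    (h1 : D * z.re = p' * w.re - p * w'.re) (h2 : D * z.im = p' * w.im - p * w'.im) :
    (p' : GI) * w - (p : GI) * w' = ((D : ℤ) : GI) * z := by
  ext
  · simp [h1]
  · simp [h2]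

theorem Ttb_dt (p p' : ℕ) (z w w' : GI) (hD : dt w w' ≠ 0)
    (h : (p' : GI) * w - (p : GI) * w' = ((dt w w' : ℤ) : GI) * z) :
    dt z w = p ∧ dt z w' = p' := by
  obtain ⟨h1, h2⟩ := Ttb_comps _ _ _ _ _ _ h
  constructor
  · apply mul_left_cancel₀ hD
    have : dt w w' * dt z w = (dt w w' * z.re) * w.im - (dt w w' * z.im) * w.re := by
      unfold dt; ring
    rw [this, h1, h2]
    unfold dt; ring
  · apply mul_left_cancel₀ hD
    have : dt w w' * dt z w' = (dt w w' * z.re) * w'.im - (dt w w' * z.im) * w'.re := by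
      unfold dt; ring
    rw [this, h1, h2]
    unfold dt; ring

theorem Ttb_id (z w w' : GI) :
    dt w w' * z.re = dt z w' * w.re - dt z w * w'.re ∧
    dt w w' * z.im = dt z w' * w.im - dt z w * w'.im := by
  unfold dt
  constructor <;> ring

theorem Ttb_lip (b : ℝ) (hb : 1 < b) (x y : ℝ) : |phi b x - phi b y| ≤ 2 * b * |x - y| := by
  unfold phi
  have h1 : |max 0 (min 1 (min (2 * b * x - 1) (2 - x))) - max 0 (min 1 (min (2 * b * y - 1) (2 - y)))|
      ≤ |min 1 (min (2 * b * x - 1) (2 - x)) - min 1 (min (2 * b * y - 1) (2 - y))| := by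
    have := abs_max_sub_max_le_max (0:ℝ) (min 1 (min (2 * b * x - 1) (2 - x))) 0
      (min 1 (min (2 * b * y - 1) (2 - y)))
    simpa using this
  have h2 : |min 1 (min (2 * b * x - 1) (2 - x)) - min 1 (min (2 * b * y - 1) (2 - y))|
      ≤ |min (2 * b * x - 1) (2 - x) - min (2 * b * y - 1) (2 - y)| := by
    have := abs_min_sub_min_le_max (1:ℝ) (min (2 * b * x - 1) (2 - x)) 1
      (min (2 * b * y - 1) (2 - y))
    simpa using this
  have h3 : |min (2 * b * x - 1) (2 - x) - min (2 * b * y - 1) (2 - y)|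
      ≤ max |(2 * b * x - 1) - (2 * b * y - 1)| |(2 - x) - (2 - y)| :=
    abs_min_sub_min_le_max _ _ _ _
  have h4 : |(2 * b * x - 1) - (2 * b * y - 1)| = 2 * b * |x - y| := by
    have : (2 * b * x - 1) - (2 * b * y - 1) = (2 * b) * (x - y) := by ring
    rw [this, abs_mul, abs_of_pos (by linarith : (0:ℝ) < 2 * b)]
  have h5 : |(2 - x) - (2 - y)| ≤ 2 * b * |x - y| := by
    have : (2 - x) - (2 - y) = -(x - y) := by ring
    rw [this, abs_neg]
    nlinarith [abs_nonneg (x - y)]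
  rw [h4] at h3
  exact (h1.trans h2).trans (h3.trans (max_le le_rfl h5))

theorem Ttb_phi_zero (b x : ℝ) (hx : 2 * b * x ≤ 1) : phi b x = 0 := by
  unfold phi
  apply max_eq_left
  exact (min_le_right _ _).trans ((min_le_left _ _).trans (by linarith))

theorem Ttb_phi_zero' (b x : ℝ) (hx : 2 ≤ x) : phi b x = 0 := by
  unfold phi
  apply max_eq_left
  exact (min_le_right _ _).trans ((min_le_right _ _).trans (by linarith))

/-- the analytic core: one pair `(p, p')` -/
theorem Ttb_core (b : ℝ) (hb : 1 < b) (m : ℕ) (A P : ℕ) (hm : 10 * b ^ 2 * (A * P + 1) ≤ (m : ℝ))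
    (w w' z : GI) (hw : w ∈ AA b m) (hw' : w' ∈ AA b m) (hD : dt w w' ≠ 0) (hip : 0 < ip w w')
    (p p' : ℕ) (hp : 0 < p ∧ p ≤ A * P) (hp' : 0 < p' ∧ p' ≤ A * P)
    (h : (p' : GI) * w - (p : GI) * w' = ((dt w w' : ℤ) : GI) * z) :
    |(open Classical in if 0 < ip z w ∧ 0 < ip z w' then phi b ((nm z : ℝ) / m) else 0)
      - phip b (((p' : ℝ) * rd m w - (p : ℝ) * rd m w') / (dt w w' : ℝ))|
      ≤ 4 * b ^ 2 * (A * P : ℝ) ^ 2 / (m : ℝ) ^ 2 := by
  classical
  obtain ⟨hc1, hc2⟩ := Ttb_comps _ _ _ _ _ _ h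
  rw [mem_AA] at hw hw'
  obtain ⟨hw1, -, hw3⟩ := hw
  obtain ⟨hw1', -, hw3'⟩ := hw'
  have hAP : (0:ℝ) ≤ (A:ℝ) * P := by positivity
  have hb0 : (0:ℝ) < b := by linarith
  have hm0 : (0:ℝ) < m := by
    have : 0 < 10 * b ^ 2 * ((A:ℝ) * P + 1) := by positivity
    linarith
  set α := rd m w with hα
  set β := rd m w' with hβ
  have hα0 : 0 ≤ α := by rw [hα]; unfold rd; exact Real.sqrt_nonneg _
  have hβ0 : 0 ≤ β := by rw [hβ]; unfold rd; exact Real.sqrt_nonneg _
  have hα2 : α ^ 2 = (nm w : ℝ) / m := by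
    rw [hα]; unfold rd; exact Real.sq_sqrt (by positivity)
  have hβ2 : β ^ 2 = (nm w' : ℝ) / m := by
    rw [hβ]; unfold rd; exact Real.sq_sqrt (by positivity)
  have hα2lo : 1 / b < α ^ 2 := by
    rw [hα2, lt_div_iff₀ hm0]; calc 1 / b * m = m / b := by ring
      _ < _ := hw3
  have hβ2lo : 1 / b < β ^ 2 := by
    rw [hβ2, lt_div_iff₀ hm0]; calc 1 / b * m = m / b := by ring
      _ < _ := hw3'
  have hα2hi : α ^ 2 ≤ 1 := by
    rw [hα2, div_le_one hm0]; exact hw1
  have hβ2hi : β ^ 2 ≤ 1 := by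
    rw [hβ2, div_le_one hm0]; exact hw1'
  set D : ℝ := (dt w w' : ℝ) with hDdef
  have hD0 : D ≠ 0 := by rw [hDdef]; exact_mod_cast hD
  have hD2 : 0 < D ^ 2 := by positivity
  set I : ℝ := (ip w w' : ℝ) / m with hI
  have hI0 : 0 < I := by
    rw [hI]; have : (0:ℝ) < (ip w w' : ℝ) := by exact_mod_cast hip
    positivity
  -- basic relation
  have hrel : α ^ 2 * β ^ 2 = I ^ 2 + D ^ 2 / m ^ 2 := by
    have := ip_sq_add w w'
    have h' : ((ip w w' : ℝ)) ^ 2 + (dt w w' : ℝ) ^ 2 = (nm w : ℝ) * nm w' := by exact_mod_cast this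
    rw [hα2, hβ2, hI]
    field_simp
    rw [hDdef]
    linarith [h']
  have hαβ : 1 / b < α * β := by
    have h1 : (1 / b) ^ 2 < (α * β) ^ 2 := by
      rw [mul_pow, sq (1 / b)]
      exact mul_lt_mul'' hα2lo hβ2lo (by positivity) (by positivity)
    exact lt_of_pow_lt_pow_left₀ 2 (by positivity) h1
  have hαβ1 : α * β ≤ 1 := by
    have h1 : (α * β) ^ 2 ≤ 1 ^ 2 := by
      rw [mul_pow, one_pow, ← one_mul (1:ℝ)]
      exact mul_le_mul hα2hi hβ2hi (sq_nonneg β) (by norm_num)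
    exact le_of_sq_le_sq h1 (by norm_num)
  set E : ℝ := α * β - I with hE
  have hEmul : E * (α * β + I) = D ^ 2 / m ^ 2 := by
    rw [hE]; have : (α * β - I) * (α * β + I) = α ^ 2 * β ^ 2 - I ^ 2 := by ring
    rw [this, hrel]; ring
  have hsum : 1 / b < α * β + I := by linarith
  have hE0 : 0 < E := by
    have h1 : 0 < E * (α * β + I) := by rw [hEmul]; positivity
    exact pos_of_mul_pos_left h1 (by linarith [show 0 < 1 / b by positivity])
  have hE1 : E ≤ b * D ^ 2 / m ^ 2 := by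
    have h1 : E * (1 / b) ≤ D ^ 2 / m ^ 2 := by
      rw [← hEmul]; exact mul_le_mul_of_nonneg_left hsum.le hE0.le
    have h2 : E = b * (E * (1 / b)) := by field_simp
    rw [h2]
    calc b * (E * (1 / b)) ≤ b * (D ^ 2 / m ^ 2) := mul_le_mul_of_nonneg_left h1 hb0.le
      _ = _ := by ring
  have hDm : |D| ≤ m := by
    have h1 : D ^ 2 / m ^ 2 ≤ 1 := by
      have h0 : α ^ 2 * β ^ 2 ≤ 1 * 1 := mul_le_mul hα2hi hβ2hi (sq_nonneg β) (by norm_num)
      linarith [sq_nonneg I]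
    rw [div_le_one (by positivity)] at h1
    exact abs_le_of_sq_le_sq h1 hm0.le
  -- the point y
  set y : ℝ := ((p' : ℝ) * α - (p : ℝ) * β) / D with hy
  have hpR : (0:ℝ) < p := by exact_mod_cast hp.1
  have hpR' : (0:ℝ) < p' := by exact_mod_cast hp'.1
  have hpA : (p:ℝ) ≤ A * P := by exact_mod_cast hp.2
  have hpA' : (p':ℝ) ≤ A * P := by exact_mod_cast hp'.2
  have hc1R : D * (z.re : ℝ) = p' * w.re - p * w'.re := by
    rw [hDdef]; exact_mod_cast hc1
  have hc2R : D * (z.im : ℝ) = p' * w.im - p * w'.im := by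
    rw [hDdef]; exact_mod_cast hc2
  have hNz : D ^ 2 * ((nm z : ℝ) / m) = p' ^ 2 * α ^ 2 + p ^ 2 * β ^ 2 - 2 * p * p' * I := by
    rw [hα2, hβ2, hI, nm_real z, nm_real w, nm_real w']
    have e1 : D ^ 2 * (((z.re : ℝ) ^ 2 + (z.im : ℝ) ^ 2) / m)
        = ((D * z.re) ^ 2 + (D * z.im) ^ 2) / m := by ring
    rw [e1, hc1R, hc2R]
    unfold ip
    push_cast
    field_simp
    ring
  have hyD : D ^ 2 * y ^ 2 = p' ^ 2 * α ^ 2 + p ^ 2 * β ^ 2 - 2 * p * p' * (α * β) := by
    rw [hy]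
    field_simp
    ring
  have hdiff : D ^ 2 * ((nm z : ℝ) / m - y ^ 2) = 2 * p * p' * E := by
    rw [mul_sub, hNz, hyD, hE]; ring
  have hdiff0 : 0 ≤ (nm z : ℝ) / m - y ^ 2 := by
    have h1 : 0 ≤ D ^ 2 * ((nm z : ℝ) / m - y ^ 2) := by rw [hdiff]; positivity
    exact nonneg_of_mul_nonneg_right h1 hD2
  have hdiff1 : (nm z : ℝ) / m - y ^ 2 ≤ 2 * b * (A * P) ^ 2 / m ^ 2 := by
    have h1 : D ^ 2 * ((nm z : ℝ) / m - y ^ 2) ≤ D ^ 2 * (2 * b * (A * P) ^ 2 / m ^ 2) := by
      rw [hdiff]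
      have h2 : (p:ℝ) * p' ≤ (A * P) ^ 2 := by
        rw [sq]; exact mul_le_mul hpA hpA' hpR'.le hAP
      calc 2 * (p:ℝ) * p' * E = 2 * (p * p') * E := by ring
        _ ≤ 2 * (A * P) ^ 2 * (b * D ^ 2 / m ^ 2) := by
            apply mul_le_mul _ hE1 hE0.le (by positivity)
            linarith
        _ = _ := by ring
    exact le_of_mul_le_mul_left h1 hD2
  -- smallness from `m` large
  have hexp : 10 * b ^ 2 * ((A : ℝ) * P + 1) = 10 * (b ^ 2 * (A * P)) + 10 * b ^ 2 := by ring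
  have hb2 : 0 < b ^ 2 := by positivity
  have hT0 : 0 ≤ b ^ 2 * ((A : ℝ) * P) := by positivity
  have hmbig : 10 * (b ^ 2 * ((A : ℝ) * P)) ≤ (m : ℝ) := by linarith
  have hsmall : 2 * b * (A * P : ℝ) ^ 2 / m ^ 2 ≤ 1 / (4 * b) := by
    rw [div_le_div_iff₀ (by positivity) (by positivity)]
    have h1 : (10 * (b ^ 2 * ((A : ℝ) * P))) ^ 2 ≤ (m:ℝ) ^ 2 := by
      apply pow_le_pow_left₀ (by positivity) hmbig
    have h2 : (1:ℝ) ≤ b ^ 2 := one_le_pow₀ hb.le
    have h3 : 0 ≤ b ^ 2 * (A * P : ℝ) ^ 2 := by positivity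
    calc 2 * b * (A * P : ℝ) ^ 2 * (4 * b) = 8 * (b ^ 2 * (A * P : ℝ) ^ 2) * 1 := by ring
      _ ≤ 100 * (b ^ 2 * (A * P : ℝ) ^ 2) * b ^ 2 := by
          apply mul_le_mul _ h2 (by norm_num) (by positivity)
          linarith
      _ = (10 * (b ^ 2 * ((A : ℝ) * P))) ^ 2 := by ring
      _ ≤ 1 * (m:ℝ) ^ 2 := by rw [one_mul]; exact h1
  by_cases hN : 2 * b * ((nm z : ℝ) / m) ≤ 1
  · -- both vanish
    have h1 : phi b ((nm z : ℝ) / m) = 0 := Ttb_phi_zero _ _ hN
    have h2 : phi b (y ^ 2) = 0 := by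
      apply Ttb_phi_zero
      have h0 : 2 * b * y ^ 2 ≤ 2 * b * ((nm z : ℝ) / m) := by
        apply mul_le_mul_of_nonneg_left _ (by positivity)
        linarith
      linarith
    have h3 : phip b y = 0 := by
      unfold phip; split_ifs
      · exact h2
      · rfl
    rw [h1, h3]
    simp only [ite_self, sub_self, abs_zero]
    positivity
  · push Not at hN
    have hy2 : 1 / (4 * b) < y ^ 2 := by
      have h1 : 1 / (2 * b) < (nm z : ℝ) / m := by
        rw [div_lt_iff₀ (by positivity)]; linarith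
      have h2 : 1 / (2 * b) = 1 / (4 * b) + 1 / (4 * b) := by field_simp; norm_num
      linarith
    -- sign comparison
    have hsq : ∀ γ : ℝ, 0 ≤ γ → 1 / b < γ ^ 2 → 1 / (2 * b) < γ * |y| := by
      intro γ hγ0 hγ
      have h1 : (1 / (2 * b)) ^ 2 < (γ * |y|) ^ 2 := by
        rw [mul_pow, sq_abs]
        have h1 : (1 / (2 * b)) ^ 2 = (1 / b) * (1 / (4 * b)) := by field_simp; norm_num
        rw [h1]
        exact mul_lt_mul hγ hy2.le (by positivity) (by positivity)
      exact lt_of_pow_lt_pow_left₀ 2 (by positivity) h1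
    have herr : ∀ q : ℕ, (q:ℝ) ≤ A * P → |(q : ℝ) * E / D| < 1 / (2 * b) := by
      intro q hq
      have hDabs : 0 < |D| := abs_pos.mpr hD0
      rw [abs_div, abs_mul, abs_of_nonneg (by positivity : (0:ℝ) ≤ q), abs_of_pos hE0,
        div_lt_iff₀ hDabs]
      have h1 : (q:ℝ) * E ≤ (A * P) * (b * D ^ 2 / m ^ 2) :=
        mul_le_mul hq hE1 hE0.le hAP
      have h2 : (A * P : ℝ) * (b * D ^ 2 / m ^ 2) = (A * P * b / m) * (|D| * (|D| / m)) := by
        rw [← sq_abs D]; field_simp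
      have h3 : |D| / m ≤ 1 := by rw [div_le_one hm0]; exact hDm
      have h4 : (A * P * b / m : ℝ) < 1 / (2 * b) := by
        rw [div_lt_div_iff₀ hm0 (by positivity)]
        have e1 : (A:ℝ) * P * b * (2 * b) = 2 * (b ^ 2 * (A * P)) := by ring
        rw [e1]
        linarith
      have h5 : 0 ≤ (A * P * b / m : ℝ) := by positivity
      calc (q:ℝ) * E ≤ (A * P * b / m) * (|D| * (|D| / m)) := by rw [← h2]; exact h1
        _ ≤ (A * P * b / m) * (|D| * 1) := by gcongr
        _ < 1 / (2 * b) * |D| := by rw [mul_one]; exact mul_lt_mul_of_pos_right h4 hDabs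
    have hw_rel : (ip z w : ℝ) / m = α * y + p * E / D := by
      have e1 : D * (ip z w : ℝ) = p' * (nm w : ℝ) - p * (ip w w' : ℝ) := by
        have : (ip z w : ℝ) = z.re * w.re + z.im * w.im := by unfold ip; push_cast; ring
        rw [this]
        have e2 : D * ((z.re : ℝ) * w.re + z.im * w.im) = (D * z.re) * w.re + (D * z.im) * w.im := by
          ring
        rw [e2, hc1R, hc2R, nm_real w]
        unfold ip; push_cast; ring
      have e3 : (nm w : ℝ) = α ^ 2 * m := by rw [hα2]; field_simp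
      have e4 : (ip w w' : ℝ) = I * m := by rw [hI]; field_simp
      rw [e3, e4] at e1
      have e5 : (ip z w : ℝ) = (p' * (α ^ 2 * m) - p * (I * m)) / D := by
        rw [eq_div_iff hD0, mul_comm]; exact e1
      rw [e5, hy, hE]
      field_simp
      ring
    have hw_rel' : (ip z w' : ℝ) / m = β * y - p' * E / D := by
      have e1 : D * (ip z w' : ℝ) = p' * (ip w w' : ℝ) - p * (nm w' : ℝ) := by
        have : (ip z w' : ℝ) = z.re * w'.re + z.im * w'.im := by unfold ip; push_cast; ring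
        rw [this]
        have e2 : D * ((z.re : ℝ) * w'.re + z.im * w'.im)
            = (D * z.re) * w'.re + (D * z.im) * w'.im := by ring
        rw [e2, hc1R, hc2R, nm_real w']
        unfold ip; push_cast; ring
      have e3 : (nm w' : ℝ) = β ^ 2 * m := by rw [hβ2]; field_simp
      have e4 : (ip w w' : ℝ) = I * m := by rw [hI]; field_simp
      rw [e3, e4] at e1
      have e5 : (ip z w' : ℝ) = (p' * (I * m) - p * (β ^ 2 * m)) / D := by
        rw [eq_div_iff hD0, mul_comm]; exact e1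
      rw [e5, hy, hE]
      field_simp
      ring
    have hs1 : 0 < ip z w ↔ 0 < y := by
      have g1 := hsq α hα0 hα2lo
      have g2 := abs_lt.mp (herr p hpA)
      have g3 : 0 < ip z w ↔ 0 < (ip z w : ℝ) / m := by
        rw [div_pos_iff_of_pos_right hm0]; exact Int.cast_pos.symm
      rw [g3, hw_rel]
      constructor
      · intro hpos
        by_contra hny
        have : y ≤ 0 := not_lt.mp hny
        rw [abs_of_nonpos this, mul_neg] at g1
        linarith [g2.2]
      · intro hpos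
        rw [abs_of_pos hpos] at g1
        linarith [g2.1]
    have hs2 : 0 < ip z w' ↔ 0 < y := by
      have g1 := hsq β hβ0 hβ2lo
      have g2 := abs_lt.mp (herr p' hpA')
      have g3 : 0 < ip z w' ↔ 0 < (ip z w' : ℝ) / m := by
        rw [div_pos_iff_of_pos_right hm0]; exact Int.cast_pos.symm
      rw [g3, hw_rel']
      constructor
      · intro hpos
        by_contra hny
        have : y ≤ 0 := not_lt.mp hny
        rw [abs_of_nonpos this, mul_neg] at g1
        linarith [g2.1]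
      · intro hpos
        rw [abs_of_pos hpos] at g1
        linarith [g2.2]
    unfold phip
    by_cases hypos : 0 < y
    · rw [if_pos ⟨hs1.mpr hypos, hs2.mpr hypos⟩, if_pos hypos]
      refine (Ttb_lip b hb _ _).trans ?_
      rw [abs_of_nonneg hdiff0]
      calc 2 * b * ((nm z : ℝ) / m - y ^ 2) ≤ 2 * b * (2 * b * (A * P) ^ 2 / m ^ 2) := by gcongr
        _ = _ := by ring
    · rw [if_neg (fun hh => hypos (hs1.mp hh.1)), if_neg hypos, sub_self, abs_zero]
      positivity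

theorem ttb (b : ℝ) (hb : 1 < b) (A P : ℕ) : ∃ (C : ℝ) (m0 : ℕ), 0 < C ∧ 1 ≤ m0 ∧ ∀ m : ℕ, m0 ≤ m →
    ∀ c : ℕ → ℂ, (∀ n, ‖c n‖ ≤ 1) → ∀ w ∈ AA b m, ∀ w' ∈ AA b m, dt w w' ≠ 0 →
    ‖KK b m A P c w w' - (if 0 < ip w w' then XX m A P c c (phip b) w w' else 0)‖
      ≤ C / (m : ℝ) ^ 2 := by
  classical
  have hAP : (0:ℝ) ≤ (A:ℝ) * P := by positivity
  refine ⟨4 * b ^ 2 * (A * P : ℝ) ^ 2 * ((pr A P).card : ℝ) ^ 2 + 1,
    ⌈10 * b ^ 2 * ((A:ℝ) * P + 1)⌉₊ + 1, by positivity, by omega, ?_⟩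
  intro m hm c hc w hw w' hw' hD
  have hmR : 10 * b ^ 2 * ((A:ℝ) * P + 1) ≤ (m:ℝ) := by
    have h1 : (10 * b ^ 2 * ((A:ℝ) * P + 1)) ≤ (⌈10 * b ^ 2 * ((A:ℝ) * P + 1)⌉₊ : ℝ) := Nat.le_ceil _
    have h2 : ((⌈10 * b ^ 2 * ((A:ℝ) * P + 1)⌉₊ : ℕ) : ℝ) + 1 ≤ (m : ℝ) := by exact_mod_cast hm
    linarith
  have hm0 : (0:ℝ) < m := by
    have : 0 < 10 * b ^ 2 * ((A:ℝ) * P + 1) := by positivity
    linarith
  by_cases hip : 0 < ip w w'
  swap
  · -- `KK = 0`
    rw [if_neg hip, sub_zero]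
    have hK : KK b m A P c w w' = 0 := by
      unfold KK
      refine Finset.sum_eq_zero fun z _ => ?_
      rw [if_neg]
      rintro ⟨⟨h1, h2⟩, h3, h4⟩
      have e1 : 0 < dt z w := by
        have := (mem_pr.mp h1).2.1.pos
        omega
      have e2 : 0 < dt z w' := by
        have := (mem_pr.mp h3).2.1.pos
        omega
      have key : (nm z : ℤ) * ip w w' = ip z w * ip z w' + dt z w * dt z w' := by
        rw [nm_int]; unfold ip dt; ring
      have h5 : 0 < (nm z : ℤ) * ip w w' := by rw [key]; positivity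
      exact hip (pos_of_mul_pos_right h5 (by positivity))
    rw [hK, norm_zero]
    positivity
  · rw [if_pos hip]
    -- the set of compatible pairs
    set S : Finset (ℕ × ℕ) := (pr A P ×ˢ pr A P).filter (fun e : ℕ × ℕ =>
      ((dt w w' : ℤ) : GI) ∣ (e.2 : GI) * w - (e.1 : GI) * w') with hS
    have hch : ∀ e : ℕ × ℕ, ∃ z : GI, e ∈ S →
        (e.2 : GI) * w - (e.1 : GI) * w' = ((dt w w' : ℤ) : GI) * z := by
      intro e
      by_cases he : e ∈ S
      · obtain ⟨z, hz⟩ := (Finset.mem_filter.mp he).2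
        exact ⟨z, fun _ => hz⟩
      · exact ⟨0, fun h => absurd h he⟩
    choose zz hzz using hch
    have hX : XX m A P c c (phip b) w w' = ∑ e ∈ S,
        (phip b (((e.2 : ℝ) * rd m w - (e.1 : ℝ) * rd m w') / (dt w w' : ℝ)) : ℂ) *
          (c e.1 * (starRingEnd ℂ) (c e.2)) := by
      unfold XX
      rw [hS, Finset.sum_filter, Finset.sum_product]
    have hK : KK b m A P c w w' = ∑ e ∈ S,
        ((if 0 < ip (zz e) w ∧ 0 < ip (zz e) w' then phi b ((nm (zz e) : ℝ) / m) else 0 : ℝ) : ℂ) *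
          (c e.1 * (starRingEnd ℂ) (c e.2)) := by
      unfold KK
      rw [← Finset.sum_filter]
      symm
      -- restrict `S`
      have hsub : ∑ e ∈ S,
          ((if 0 < ip (zz e) w ∧ 0 < ip (zz e) w' then phi b ((nm (zz e) : ℝ) / m) else 0 : ℝ) : ℂ) *
            (c e.1 * (starRingEnd ℂ) (c e.2))
          = ∑ e ∈ S.filter (fun e => zz e ∈ bal (2 * (m:ℝ)) ∧ (0 < ip (zz e) w ∧ 0 < ip (zz e) w')),
            (phi b ((nm (zz e) : ℝ) / m) : ℂ) * (c e.1 * (starRingEnd ℂ) (c e.2)) := by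
        conv_rhs => rw [Finset.sum_filter]
        refine Finset.sum_congr rfl fun e _ => ?_
        by_cases h1 : 0 < ip (zz e) w ∧ 0 < ip (zz e) w'
        · rw [if_pos h1]
          by_cases h2 : zz e ∈ bal (2 * (m:ℝ))
          · rw [if_pos ⟨h2, h1⟩]
          · rw [if_neg (fun h => h2 h.1)]
            rw [mem_bal, not_le] at h2
            rw [Ttb_phi_zero' b _ (by rw [le_div_iff₀ hm0]; linarith)]
            simp
        · rw [if_neg h1, if_neg (fun h => h1 h.2)]
          simp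
      rw [hsub]
      refine Finset.sum_nbij' (fun e => zz e) (fun z => ((dt z w).toNat, (dt z w').toNat)) ?_ ?_ ?_ ?_ ?_
      · intro e he
        rw [Finset.mem_filter] at he
        obtain ⟨heS, h1, h2, h3⟩ := he
        obtain ⟨d1, d2⟩ := Ttb_dt _ _ _ _ _ hD (hzz e heS)
        have hpr := Finset.mem_product.mp (Finset.mem_filter.mp heS).1
        rw [Finset.mem_filter]
        refine ⟨h1, ⟨?_, h2⟩, ?_, h3⟩
        · rw [d1]; simpa using hpr.1
        · rw [d2]; simpa using hpr.2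
      · intro z hz
        rw [Finset.mem_filter] at hz
        obtain ⟨h1, ⟨h2, h3⟩, h4, h5⟩ := hz
        have e1 : 0 < dt z w := by
          have := (mem_pr.mp h2).2.1.pos
          omega
        have e2 : 0 < dt z w' := by
          have := (mem_pr.mp h4).2.1.pos
          omega
        have n1 : (((dt z w).toNat : ℕ) : ℤ) = dt z w := Int.toNat_of_nonneg e1.le
        have n2 : (((dt z w').toNat : ℕ) : ℤ) = dt z w' := Int.toNat_of_nonneg e2.le
        have hid := Ttb_id z w w'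
        have hid' : (((dt z w').toNat : ℕ) : GI) * w - (((dt z w).toNat : ℕ) : GI) * w'
            = ((dt w w' : ℤ) : GI) * z := by
          apply Ttb_comps'
          · rw [n1, n2]; exact hid.1
          · rw [n1, n2]; exact hid.2
        have hmemS : ((dt z w).toNat, (dt z w').toNat) ∈ S := by
          rw [hS, Finset.mem_filter, Finset.mem_product]
          exact ⟨⟨h2, h4⟩, ⟨z, hid'⟩⟩
        have hzeq : zz ((dt z w).toNat, (dt z w').toNat) = z := by
          have := hzz _ hmemS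
          rw [hid'] at this
          have hD' : ((dt w w' : ℤ) : GI) ≠ 0 := by exact_mod_cast hD
          exact (mul_left_cancel₀ hD' this).symm
        rw [Finset.mem_filter]
        refine ⟨hmemS, ?_⟩
        rw [hzeq]
        exact ⟨h1, h3, h5⟩
      · intro e he
        rw [Finset.mem_filter] at he
        obtain ⟨d1, d2⟩ := Ttb_dt _ _ _ _ _ hD (hzz e he.1)
        simp only [d1, d2, Int.toNat_natCast]
      · intro z hz
        rw [Finset.mem_filter] at hz
        obtain ⟨h1, ⟨h2, h3⟩, h4, h5⟩ := hz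
        have e1 : 0 < dt z w := by
          have := (mem_pr.mp h2).2.1.pos
          omega
        have e2 : 0 < dt z w' := by
          have := (mem_pr.mp h4).2.1.pos
          omega
        have n1 : (((dt z w).toNat : ℕ) : ℤ) = dt z w := Int.toNat_of_nonneg e1.le
        have n2 : (((dt z w').toNat : ℕ) : ℤ) = dt z w' := Int.toNat_of_nonneg e2.le
        have hid := Ttb_id z w w'
        have hid' : (((dt z w').toNat : ℕ) : GI) * w - (((dt z w).toNat : ℕ) : GI) * w'
            = ((dt w w' : ℤ) : GI) * z := by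
          apply Ttb_comps'
          · rw [n1, n2]; exact hid.1
          · rw [n1, n2]; exact hid.2
        have hmemS : ((dt z w).toNat, (dt z w').toNat) ∈ S := by
          rw [hS, Finset.mem_filter, Finset.mem_product]
          exact ⟨⟨h2, h4⟩, ⟨z, hid'⟩⟩
        have := hzz _ hmemS
        rw [hid'] at this
        have hD' : ((dt w w' : ℤ) : GI) ≠ 0 := by exact_mod_cast hD
        exact (mul_left_cancel₀ hD' this).symm
      · intro e he
        rw [Finset.mem_filter] at he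
        obtain ⟨d1, d2⟩ := Ttb_dt _ _ _ _ _ hD (hzz e he.1)
        simp only [d1, d2, Int.toNat_natCast]
    rw [hX, hK, ← Finset.sum_sub_distrib]
    have hterm : ∀ e ∈ S, ‖((if 0 < ip (zz e) w ∧ 0 < ip (zz e) w' then
        phi b ((nm (zz e) : ℝ) / m) else 0 : ℝ) : ℂ) * (c e.1 * (starRingEnd ℂ) (c e.2))
        - (phip b (((e.2 : ℝ) * rd m w - (e.1 : ℝ) * rd m w') / (dt w w' : ℝ)) : ℂ) *
          (c e.1 * (starRingEnd ℂ) (c e.2))‖ ≤ 4 * b ^ 2 * (A * P : ℝ) ^ 2 / (m : ℝ) ^ 2 := by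
      intro e he
      have hpr := Finset.mem_product.mp (Finset.mem_filter.mp he).1
      have q1 := mem_pr.mp hpr.1
      have q2 := mem_pr.mp hpr.2
      rw [← sub_mul, norm_mul, norm_mul, RCLike.norm_conj, ← Complex.ofReal_sub, Complex.norm_real,
        Real.norm_eq_abs]
      have hcore := Ttb_core b hb m A P (by exact_mod_cast hmR) w w' (zz e) hw hw' hD hip e.1 e.2
        ⟨q1.2.1.pos, q1.1.2⟩ ⟨q2.2.1.pos, q2.1.2⟩ (hzz e he)
      have hcc : ‖c e.1‖ * ‖c e.2‖ ≤ 1 := mul_le_one₀ (hc _) (norm_nonneg _) (hc _)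
      calc _ ≤ (4 * b ^ 2 * (A * P : ℝ) ^ 2 / (m : ℝ) ^ 2) * 1 := by
            apply mul_le_mul _ hcc (by positivity) (by positivity)
            convert hcore using 2
        _ = _ := mul_one _
    refine (norm_sum_le_of_le S hterm).trans ?_
    rw [Finset.sum_const, nsmul_eq_mul]
    have hcard : (S.card : ℝ) ≤ ((pr A P).card : ℝ) ^ 2 := by
      have : S.card ≤ (pr A P ×ˢ pr A P).card := Finset.card_filter_le _ _
      rw [Finset.card_product] at this
      rw [sq]
      exact_mod_cast this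
    rw [← mul_div_assoc]
    apply div_le_div_of_nonneg_right _ (by positivity)
    have : (S.card : ℝ) * (4 * b ^ 2 * (A * P : ℝ) ^ 2)
        ≤ ((pr A P).card : ℝ) ^ 2 * (4 * b ^ 2 * (A * P : ℝ) ^ 2) := by gcongr
    linarith

end Pool.Agent.FCH
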