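import Pool.Agent.FCH.Tta
import Pool.Agent.FCH.Ttb

set_option autoImplicit false

/-! Module Ttc: from `tta`, `tta_diag`, `ttb`: the pairs with `det(w,w') = 0` contribute `≤ C m #pr`; the others: error
`≤ #AA² C/m² ≤ C'`; main term: split `det > 0` and `det < 0`; `XX c c φ₊ w' w = conj (XX c c φ₊ w w')` (exchange the names of `p, p'`;
the real argument of `φ₊` is invariant), so the part `det < 0` is the complex conjugate of the part `det > 0`.
`#AA ≤ 9 m`. -/

open Finset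

namespace Pool.Agent.FCH

open Pool.Agent.MRS hiding Good

theorem Ttc_dt_symm (w w' : GI) : dt w' w = -dt w w' := by
  unfold dt; ring

theorem Ttc_ip_symm (w w' : GI) : ip w' w = ip w w' := by
  unfold ip; ring

theorem Ttc_XX_symm (m A P : ℕ) (c : ℕ → ℂ) (Φ : ℝ → ℝ) (w w' : GI) :
    XX m A P c c Φ w' w = (starRingEnd ℂ) (XX m A P c c Φ w w') := by
  classical
  unfold XX
  rw [map_sum, Finset.sum_comm]
  apply Finset.sum_congr rfl
  intro p _
  rw [map_sum]
  apply Finset.sum_congr rfl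
  intro p' _
  have h1 : ((dt w' w : ℤ) : GI) ∣ (p : GI) * w' - (p' : GI) * w ↔
      ((dt w w' : ℤ) : GI) ∣ (p' : GI) * w - (p : GI) * w' := by
    rw [Ttc_dt_symm]
    push_cast
    rw [neg_dvd, ← dvd_neg, neg_sub]
  have h2 : ((p : ℝ) * rd m w' - (p' : ℝ) * rd m w) / (dt w' w : ℝ) =
      ((p' : ℝ) * rd m w - (p : ℝ) * rd m w') / (dt w w' : ℝ) := by
    rw [Ttc_dt_symm]
    push_cast
    rw [div_neg, ← neg_div, neg_sub]
  by_cases h : ((dt w w' : ℤ) : GI) ∣ (p' : GI) * w - (p : GI) * w'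
  · rw [if_pos h, if_pos (h1.mpr h), h2, map_mul, map_mul, Complex.conj_ofReal, Complex.conj_conj]
    ring
  · rw [if_neg h, if_neg (fun h3 => h (h1.mp h3)), map_zero]

theorem ttc (b : ℝ) (hb : 1 < b) : ∃ C : ℝ, 0 < C ∧ ∀ A P : ℕ, ∃ (C' : ℝ) (m0 : ℕ), 0 < C' ∧ 1 ≤ m0 ∧
    ∀ m : ℕ, m0 ≤ m → ∀ c : ℕ → ℂ, (∀ n, ‖c n‖ ≤ 1) → ∀ G H : GI → ℂ, (∀ z, ‖G z‖ ≤ 1) →
    (∀ z, ‖H z‖ ≤ 1) →
    ‖BB b m A P c G H‖ ^ 2 ≤ 18 * m * ‖PS b m (fun w w' => H w * (starRingEnd ℂ) (H w') *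
      XX m A P c c (phip b) w w')‖ + C * (m : ℝ) ^ 2 * (pr A P).card + C' * m := by
  classical
  obtain ⟨C0, hC0, hdiag⟩ := tta_diag b hb
  refine ⟨9 * C0, by positivity, ?_⟩
  intro A P
  obtain ⟨C1, m0, hC1, hm0, httb⟩ := ttb b hb A P
  refine ⟨729 * C1, m0, by positivity, hm0, ?_⟩
  intro m hm c hc G H hG hH
  have hm1 : 1 ≤ m := hm0.trans hm
  have hmR : (0 : ℝ) < m := by exact_mod_cast hm1
  have h1 := tta b hb m A P hm1 c G H hG
  have hcard : ((AA b m).card : ℝ) ≤ 9 * m := card_AA b m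
  set S := ∑ w ∈ AA b m, ∑ w' ∈ AA b m, H w * (starRingEnd ℂ) (H w') * KK b m A P c w w' with hS
  set X' : GI → GI → ℂ := fun w w' => if 0 < ip w w' then XX m A P c c (phip b) w w' else 0 with hX'
  set PSv := PS b m (fun w w' => H w * (starRingEnd ℂ) (H w') * XX m A P c c (phip b) w w') with hPSv
  -- decomposition
  have hdec : S = ∑ w ∈ AA b m, ∑ w' ∈ AA b m, (if dt w w' = 0 then
        H w * (starRingEnd ℂ) (H w') * KK b m A P c w w' else 0) +
      ∑ w ∈ AA b m, ∑ w' ∈ AA b m, (if dt w w' = 0 then 0 else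
        H w * (starRingEnd ℂ) (H w') * (KK b m A P c w w' - X' w w')) +
      (∑ w ∈ AA b m, ∑ w' ∈ AA b m, (if 0 < ip w w' ∧ 0 < dt w w' then
        H w * (starRingEnd ℂ) (H w') * XX m A P c c (phip b) w w' else 0) +
      ∑ w ∈ AA b m, ∑ w' ∈ AA b m, (if 0 < ip w w' ∧ dt w w' < 0 then
        H w * (starRingEnd ℂ) (H w') * XX m A P c c (phip b) w w' else 0)) := by
    rw [hS, ← Finset.sum_add_distrib, ← Finset.sum_add_distrib, ← Finset.sum_add_distrib]
    apply Finset.sum_congr rfl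
    intro w _
    rw [← Finset.sum_add_distrib, ← Finset.sum_add_distrib, ← Finset.sum_add_distrib]
    apply Finset.sum_congr rfl
    intro w' _
    rcases lt_trichotomy (dt w w') 0 with h | h | h
    · rw [if_neg h.ne, if_neg h.ne, if_neg (show ¬ (0 < ip w w' ∧ 0 < dt w w') from
        fun h2 => absurd h2.2 (not_lt.mpr h.le))]
      by_cases hip : 0 < ip w w'
      · rw [if_pos ⟨hip, h⟩]
        have : X' w w' = XX m A P c c (phip b) w w' := by rw [hX']; exact if_pos hip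
        rw [this]; ring
      · rw [if_neg (fun h2 => hip h2.1)]
        have : X' w w' = 0 := by rw [hX']; exact if_neg hip
        rw [this]; ring
    · rw [if_pos h, if_pos h, if_neg (show ¬ (0 < ip w w' ∧ 0 < dt w w') from
        fun h2 => absurd h2.2 (by rw [h]; exact lt_irrefl 0)),
        if_neg (show ¬ (0 < ip w w' ∧ dt w w' < 0) from
        fun h2 => absurd h2.2 (by rw [h]; exact lt_irrefl 0))]
      ring
    · rw [if_neg h.ne', if_neg h.ne', if_neg (show ¬ (0 < ip w w' ∧ dt w w' < 0) from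
        fun h2 => absurd h2.2 (not_lt.mpr h.le))]
      by_cases hip : 0 < ip w w'
      · rw [if_pos ⟨hip, h⟩]
        have : X' w w' = XX m A P c c (phip b) w w' := by rw [hX']; exact if_pos hip
        rw [this]; ring
      · rw [if_neg (fun h2 => hip h2.1)]
        have : X' w w' = 0 := by rw [hX']; exact if_neg hip
        rw [this]; ring
  have hHH : ∀ w w' : GI, ‖H w * (starRingEnd ℂ) (H w')‖ ≤ 1 := by
    intro w w'
    rw [norm_mul, RCLike.norm_conj]
    exact mul_le_one₀ (hH w) (norm_nonneg _) (hH w')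
  -- first part
  have hA1 : ‖∑ w ∈ AA b m, ∑ w' ∈ AA b m, (if dt w w' = 0 then
        H w * (starRingEnd ℂ) (H w') * KK b m A P c w w' else 0)‖ ≤ C0 * m * (pr A P).card := by
    refine le_trans ?_ (hdiag m A P hm1 c hc)
    refine (norm_sum_le _ _).trans (Finset.sum_le_sum fun w _ => ?_)
    refine (norm_sum_le _ _).trans (Finset.sum_le_sum fun w' _ => ?_)
    by_cases h : dt w w' = 0
    · rw [if_pos h, if_pos h, norm_mul]
      calc ‖H w * (starRingEnd ℂ) (H w')‖ * ‖KK b m A P c w w'‖ ≤ 1 * ‖KK b m A P c w w'‖ := by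
            apply mul_le_mul_of_nonneg_right (hHH w w') (norm_nonneg _)
        _ = _ := one_mul _
    · rw [if_neg h, if_neg h, norm_zero]
  -- second part
  have hA2 : ‖∑ w ∈ AA b m, ∑ w' ∈ AA b m, (if dt w w' = 0 then 0 else
        H w * (starRingEnd ℂ) (H w') * (KK b m A P c w w' - X' w w'))‖ ≤ 81 * C1 := by
    have h2 : ∀ w ∈ AA b m, ∀ w' ∈ AA b m, ‖(if dt w w' = 0 then 0 else
        H w * (starRingEnd ℂ) (H w') * (KK b m A P c w w' - X' w w'))‖ ≤ C1 / (m : ℝ) ^ 2 := by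
      intro w hw w' hw'
      by_cases h : dt w w' = 0
      · rw [if_pos h, norm_zero]; positivity
      · rw [if_neg h, norm_mul]
        have h3 := httb m hm c hc w hw w' hw' h
        calc ‖H w * (starRingEnd ℂ) (H w')‖ * ‖KK b m A P c w w' - X' w w'‖ ≤
            1 * (C1 / (m : ℝ) ^ 2) := mul_le_mul (hHH w w') h3 (norm_nonneg _) zero_le_one
          _ = _ := one_mul _
    calc ‖∑ w ∈ AA b m, ∑ w' ∈ AA b m, (if dt w w' = 0 then 0 else
        H w * (starRingEnd ℂ) (H w') * (KK b m A P c w w' - X' w w'))‖ ≤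
        ∑ w ∈ AA b m, ∑ w' ∈ AA b m, C1 / (m : ℝ) ^ 2 := by
          refine (norm_sum_le _ _).trans (Finset.sum_le_sum fun w hw => ?_)
          exact (norm_sum_le _ _).trans (Finset.sum_le_sum fun w' hw' => h2 w hw w' hw')
      _ = (AA b m).card * ((AA b m).card * (C1 / (m : ℝ) ^ 2)) := by
          rw [Finset.sum_const, Finset.sum_const, nsmul_eq_mul, nsmul_eq_mul]
      _ ≤ (9 * m) * ((9 * m) * (C1 / (m : ℝ) ^ 2)) := by gcongr
      _ = 81 * C1 := by field_simp; norm_num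
  -- third part
  have hA3 : ∑ w ∈ AA b m, ∑ w' ∈ AA b m, (if 0 < ip w w' ∧ 0 < dt w w' then
        H w * (starRingEnd ℂ) (H w') * XX m A P c c (phip b) w w' else 0) = PSv := by
    rw [hPSv]; unfold PS
    apply Finset.sum_congr rfl; intro w _
    apply Finset.sum_congr rfl; intro w' _
    split_ifs <;> rfl
  have hA4 : ∑ w ∈ AA b m, ∑ w' ∈ AA b m, (if 0 < ip w w' ∧ dt w w' < 0 then
        H w * (starRingEnd ℂ) (H w') * XX m A P c c (phip b) w w' else 0) = (starRingEnd ℂ) PSv := by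
    rw [← hA3, map_sum, Finset.sum_comm]
    apply Finset.sum_congr rfl; intro w _
    rw [map_sum]
    apply Finset.sum_congr rfl; intro w' _
    have h2 : (0 < ip w' w ∧ dt w' w < 0) ↔ (0 < ip w w' ∧ 0 < dt w w') := by
      rw [Ttc_ip_symm, Ttc_dt_symm w w', neg_lt_zero]
    by_cases h : 0 < ip w w' ∧ 0 < dt w w'
    · rw [if_pos h, if_pos (h2.mpr h), Ttc_XX_symm, map_mul, map_mul, Complex.conj_conj]
      ring
    · rw [if_neg h, if_neg (fun h3 => h (h2.mp h3)), map_zero]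
  have hSn : ‖S‖ ≤ C0 * m * (pr A P).card + 81 * C1 + (‖PSv‖ + ‖PSv‖) := by
    rw [hdec, hA3, hA4]
    refine (norm_add_le _ _).trans (add_le_add ((norm_add_le _ _).trans (add_le_add hA1 hA2)) ?_)
    refine (norm_add_le _ _).trans (add_le_add le_rfl ?_)
    rw [RCLike.norm_conj]
  calc ‖BB b m A P c G H‖ ^ 2 ≤ ((AA b m).card : ℝ) * ‖S‖ := h1
    _ ≤ (9 * m) * (C0 * m * (pr A P).card + 81 * C1 + (‖PSv‖ + ‖PSv‖)) := by gcongr
    _ = 18 * m * ‖PSv‖ + 9 * C0 * (m : ℝ) ^ 2 * (pr A P).card + 729 * C1 * m := by ring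

end Pool.Agent.FCH
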