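import Pool.Agent.FCH.AsmA
import Pool.Agent.FCH.AsmB
import Pool.Agent.FCH.Ttc

set_option autoImplicit false

/-! Module AsmC: the bilinear estimate.  `ttc` + `asmA` (`ε' = ε/100`) + expansion of the polynomial: for `y = (p'α - pβ)/D`
`y^i = (D/P)^{-i} ∑_{j ≤ i} binom(i,j) (-1)^{i-j} α^j β^{i-j} (p'/P)^j (p/P)^{i-j}`, so
`XX x x (y^i) = ∑_j binom (-1)^{i-j} α^j β^{i-j} (D/P)^{-i} A^i XX x_{i-j} y_j 1`, `x_a(p) = x(p) (p/(AP))^a` (`≤ 1` on `pr`; put `0` outside of `pr`), and `asmB` for each `(i, j, i-j)`.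
Finitely many parameters: take the product of the `d`'s, the max of the `J`'s, the min of the `η`'s (`EE_mono`, `⌊m/(η P)⌋` is antitone in `η`), the max of the `P0`'s.
`#pr ≥ 1/ε'` for `P ≥ P0` (GA) absorbs `C m² #pr`, and `C' m ≤ ε' m² (#pr)²` for `m ≥ m0(P)`. -/

open Finset

namespace Pool.Agent.FCH

open Pool.Agent.MRS hiding Good

theorem AsmC_EE_nonneg (b : ℝ) (d J K m : ℕ) (H : GI → ℂ) : 0 ≤ EE b d J K m H := by
  unfold EE
  exact Finset.sum_nonneg fun r _ => Finset.sum_nonneg fun e _ => en_nonneg _ _ _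

/-- the twisted weights -/
noncomputable def AsmC_x (A P : ℕ) (c : ℕ → ℂ) (a : ℕ) (n : ℕ) : ℂ :=
  if n ≤ A * P then c n * ((((n : ℝ) / (A * P)) ^ a : ℝ) : ℂ) else 0

theorem AsmC_x_le (A P : ℕ) (c : ℕ → ℂ) (hc : ∀ n, ‖c n‖ ≤ 1) (a n : ℕ) : ‖AsmC_x A P c a n‖ ≤ 1 := by
  unfold AsmC_x
  split_ifs with h
  · rw [norm_mul, Complex.norm_real, Real.norm_eq_abs, abs_of_nonneg (by positivity)]
    apply mul_le_one₀ (hc n) (by positivity)
    apply pow_le_one₀ (by positivity)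
    apply div_le_one_of_le₀ _ (by positivity)
    exact_mod_cast h
  · rw [norm_zero]; exact zero_le_one

/-- the form treated by `asmB` -/
noncomputable def AsmC_F (A m P : ℕ) (δ c : ℝ) (i j l : ℕ) (x y : ℕ → ℂ) (H : GI → ℂ) (w w' : GI) : ℂ :=
  (H w * ((rd m w) ^ j : ℝ)) * (starRingEnd ℂ) (H w' * ((rd m w') ^ l : ℝ)) *
        ((cs δ c (tt m P w w') * ((dt w w' : ℝ) / P) ^ (-(i : ℤ)) : ℝ) : ℂ) *
          XX m A P x y (fun _ => 1) w w'

theorem AsmC_fin (b : ℝ) (hb : 1 < b) (A : ℕ) (hA : GA A) (δ c ε : ℝ)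
    (hδ : 0 < δ) (hc : 2 * δ ≤ c) (hε : 0 < ε) (T : Finset (ℕ × ℕ × ℕ)) :
    ∃ (d J P0 : ℕ) (η C : ℝ), 1 ≤ d ∧ 1 ≤ P0 ∧ 0 < η ∧ 0 < C ∧ ∀ P : ℕ, P0 ≤ P → ∃ m0 : ℕ,
    ∀ m : ℕ, m0 ≤ m →
    ∀ x y : ℕ → ℂ, (∀ n, ‖x n‖ ≤ 1) → (∀ n, ‖y n‖ ≤ 1) → ∀ H : GI → ℂ, (∀ z, ‖H z‖ ≤ 1) →
    ∀ t ∈ T, ‖PS b m (AsmC_F A m P δ c t.1 t.2.1 t.2.2 x y H)‖
      ≤ ((pr A P).card : ℝ) ^ 2 * (ε * m + C / m * EE b d J ⌊(m : ℝ) / (η * P)⌋₊ m H) := by
  classical
  induction T using Finset.induction_on with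
  | empty =>
    refine ⟨1, 0, 1, 1, 1, le_rfl, le_rfl, one_pos, one_pos, fun P _ => ⟨0, ?_⟩⟩
    intro m _ x y _ _ H _ t ht
    simp at ht
  | insert t T _ ih =>
    obtain ⟨d1, J1, Q1, η1, C1, hd1, hQ1, hη1, hC1, h1⟩ := ih
    obtain ⟨d2, J2, Q2, η2, C2, hd2, hη2, hC2, h2⟩ := asmB b hb A hA t.1 t.2.1 t.2.2 δ c ε hδ hc hε
    have hd : 1 ≤ d1 * d2 := Nat.one_le_iff_ne_zero.mpr (by
      have : d1 ≠ 0 := by omega
      have : d2 ≠ 0 := by omega
      positivity)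
    obtain ⟨K1, hK1, hE1⟩ := EE_mono (d := d1) (d' := d1 * d2) (J := J1) (J' := max J1 J2)
      (dvd_mul_right _ _) hd (le_max_left _ _)
    obtain ⟨K2, hK2, hE2⟩ := EE_mono (d := d2) (d' := d1 * d2) (J := J2) (J' := max J1 J2)
      (dvd_mul_left _ _) hd (le_max_right _ _)
    refine ⟨d1 * d2, max J1 J2, max Q1 Q2, min η1 η2, C1 * K1 + C2 * K2, hd,
      hQ1.trans (le_max_left _ _), lt_min hη1 hη2, by positivity, ?_⟩
    intro P hP
    have hP1 : 1 ≤ P := (hQ1.trans (le_max_left _ _)).trans hP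
    have hP0 : (0 : ℝ) < P := by exact_mod_cast hP1
    obtain ⟨m1, hm1⟩ := h1 P ((le_max_left _ _).trans hP)
    obtain ⟨m2, hm2⟩ := h2 P ((le_max_right _ _).trans hP)
    refine ⟨max m1 m2, ?_⟩
    intro m hm x y hx hy H hH s hs
    have hE0 := AsmC_EE_nonneg b (d1 * d2) (max J1 J2) ⌊(m : ℝ) / (min η1 η2 * P)⌋₊ m H
    have hmin : 0 < min η1 η2 := lt_min hη1 hη2
    have hfl1 : ⌊(m : ℝ) / (η1 * P)⌋₊ ≤ ⌊(m : ℝ) / (min η1 η2 * P)⌋₊ := by
      apply Nat.floor_le_floor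
      apply div_le_div_of_nonneg_left (by positivity) (by positivity)
      exact mul_le_mul_of_nonneg_right (min_le_left _ _) hP0.le
    have hfl2 : ⌊(m : ℝ) / (η2 * P)⌋₊ ≤ ⌊(m : ℝ) / (min η1 η2 * P)⌋₊ := by
      apply Nat.floor_le_floor
      apply div_le_div_of_nonneg_left (by positivity) (by positivity)
      exact mul_le_mul_of_nonneg_right (min_le_right _ _) hP0.le
    set E := EE b (d1 * d2) (max J1 J2) ⌊(m : ℝ) / (min η1 η2 * P)⌋₊ m H with hE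
    have hm0 : (0 : ℝ) ≤ 1 / m := by positivity
    rw [mem_insert] at hs
    rcases hs with hs | hs
    · rw [hs]
      have h3 := hm2 m ((le_max_right _ _).trans hm) x y hx hy H hH
      have h4 := hE2 b m _ _ H hfl2
      refine (show ‖PS b m (AsmC_F A m P δ c t.1 t.2.1 t.2.2 x y H)‖ ≤ _ from h3).trans ?_
      have h5 : C2 / m * EE b d2 J2 ⌊(m : ℝ) / (η2 * P)⌋₊ m H ≤ (C1 * K1 + C2 * K2) / m * E := by
        calc C2 / m * EE b d2 J2 ⌊(m : ℝ) / (η2 * P)⌋₊ m H ≤ C2 / m * (K2 * E) := by gcongr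
          _ = (C2 * K2) / m * E := by ring
          _ ≤ (C1 * K1 + C2 * K2) / m * E := by
            gcongr
            have : 0 ≤ C1 * K1 := by positivity
            linarith
      gcongr
    · have h3 := hm1 m ((le_max_left _ _).trans hm) x y hx hy H hH s hs
      have h4 := hE1 b m _ _ H hfl1
      refine h3.trans ?_
      have h5 : C1 / m * EE b d1 J1 ⌊(m : ℝ) / (η1 * P)⌋₊ m H ≤ (C1 * K1 + C2 * K2) / m * E := by
        calc C1 / m * EE b d1 J1 ⌊(m : ℝ) / (η1 * P)⌋₊ m H ≤ C1 / m * (K1 * E) := by gcongr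
          _ = (C1 * K1) / m * E := by ring
          _ ≤ (C1 * K1 + C2 * K2) / m * E := by
            gcongr
            have : 0 ≤ C2 * K2 := by positivity
            linarith
      gcongr

/-- expansion of the polynomial -/
theorem AsmC_expand (m A P : ℕ) (hA : 1 ≤ A) (hP : 1 ≤ P) (c : ℕ → ℂ) (Q : Polynomial ℝ) (w w' : GI)
    (hD : 0 < dt w w') :
    XX m A P c c (fun y => Q.eval y) w w' = ∑ i ∈ range (Q.natDegree + 1), ∑ j ∈ range (i + 1),
      ((Q.coeff i * (i.choose j) * (-1) ^ (i - j) * (A : ℝ) ^ i : ℝ) : ℂ) *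
        (((rd m w ^ j : ℝ) : ℂ) * ((rd m w' ^ (i - j) : ℝ) : ℂ) *
          ((((dt w w' : ℝ) / P) ^ (-(i : ℤ)) : ℝ) : ℂ) *
          XX m A P (AsmC_x A P c (i - j)) (AsmC_x A P c j) (fun _ => 1) w w') := by
  classical
  have hA0 : (A : ℝ) ≠ 0 := by
    have : (0 : ℝ) < A := by exact_mod_cast hA
    exact this.ne'
  have hP0 : (P : ℝ) ≠ 0 := by
    have : (0 : ℝ) < P := by exact_mod_cast hP
    exact this.ne'
  have hD0 : (dt w w' : ℝ) ≠ 0 := by
    have : (0 : ℝ) < (dt w w' : ℝ) := by exact_mod_cast hD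
    exact this.ne'
  unfold XX
  simp only [Finset.mul_sum]
  -- move the sums over p, p' outside on the right
  have hR : ∑ i ∈ range (Q.natDegree + 1), ∑ j ∈ range (i + 1), ∑ p ∈ pr A P, ∑ p' ∈ pr A P,
      ((Q.coeff i * (i.choose j) * (-1) ^ (i - j) * (A : ℝ) ^ i : ℝ) : ℂ) *
        (((rd m w ^ j : ℝ) : ℂ) * ((rd m w' ^ (i - j) : ℝ) : ℂ) *
          ((((dt w w' : ℝ) / P) ^ (-(i : ℤ)) : ℝ) : ℂ) *
          (if ((dt w w' : ℤ) : GI) ∣ (p' : GI) * w - (p : GI) * w' then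
            (((fun _ => 1 : ℝ → ℝ) (((p' : ℝ) * rd m w - (p : ℝ) * rd m w') / (dt w w' : ℝ)) : ℝ) : ℂ) *
            (AsmC_x A P c (i - j) p * (starRingEnd ℂ) (AsmC_x A P c j p')) else 0)) =
      ∑ p ∈ pr A P, ∑ p' ∈ pr A P, ∑ i ∈ range (Q.natDegree + 1), ∑ j ∈ range (i + 1),
      ((Q.coeff i * (i.choose j) * (-1) ^ (i - j) * (A : ℝ) ^ i : ℝ) : ℂ) *
        (((rd m w ^ j : ℝ) : ℂ) * ((rd m w' ^ (i - j) : ℝ) : ℂ) *
          ((((dt w w' : ℝ) / P) ^ (-(i : ℤ)) : ℝ) : ℂ) *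
          (if ((dt w w' : ℤ) : GI) ∣ (p' : GI) * w - (p : GI) * w' then
            (((fun _ => 1 : ℝ → ℝ) (((p' : ℝ) * rd m w - (p : ℝ) * rd m w') / (dt w w' : ℝ)) : ℝ) : ℂ) *
            (AsmC_x A P c (i - j) p * (starRingEnd ℂ) (AsmC_x A P c j p')) else 0)) := by
    have e1 : ∀ i ∈ range (Q.natDegree + 1), ∀ (f : ℕ → ℕ → ℕ → ℂ),
        ∑ j ∈ range (i + 1), ∑ p ∈ pr A P, ∑ p' ∈ pr A P, f j p p' =
        ∑ p ∈ pr A P, ∑ p' ∈ pr A P, ∑ j ∈ range (i + 1), f j p p' := by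
      intro i _ f
      rw [Finset.sum_comm]
      apply Finset.sum_congr rfl
      intro p _
      rw [Finset.sum_comm]
    rw [Finset.sum_congr rfl (fun i hi => e1 i hi _)]
    rw [Finset.sum_comm]
    apply Finset.sum_congr rfl
    intro p _
    rw [Finset.sum_comm]
  rw [hR]
  apply Finset.sum_congr rfl
  intro p hp
  apply Finset.sum_congr rfl
  intro p' hp'
  by_cases h : ((dt w w' : ℤ) : GI) ∣ (p' : GI) * w - (p : GI) * w'
  · rw [if_pos h]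
    simp only [if_pos h]
    have hx : ∀ a n, n ∈ pr A P → AsmC_x A P c a n = c n * ((((n : ℝ) / (A * P)) ^ a : ℝ) : ℂ) := by
      intro a n hn
      unfold AsmC_x
      rw [if_pos (mem_pr.mp hn).1.2]
    have hev : Q.eval (((p' : ℝ) * rd m w - (p : ℝ) * rd m w') / (dt w w' : ℝ)) =
        ∑ i ∈ range (Q.natDegree + 1), ∑ j ∈ range (i + 1),
          (Q.coeff i * (i.choose j) * (-1) ^ (i - j) * (A : ℝ) ^ i) *
          (rd m w ^ j * rd m w' ^ (i - j) * ((dt w w' : ℝ) / P) ^ (-(i : ℤ)) *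
            (((p : ℝ) / (A * P)) ^ (i - j) * ((p' : ℝ) / (A * P)) ^ j)) := by
      rw [Polynomial.eval_eq_sum_range]
      apply Finset.sum_congr rfl
      intro i _
      rw [div_pow, sub_eq_add_neg, add_pow, Finset.sum_div, Finset.mul_sum]
      apply Finset.sum_congr rfl
      intro j hj
      rw [mem_range] at hj
      obtain ⟨s, rfl⟩ : ∃ s, i = j + s := ⟨i - j, by omega⟩
      rw [Nat.add_sub_cancel_left, zpow_neg, zpow_natCast]
      rw [show -((p : ℝ) * rd m w') = (-1) * ((p : ℝ) * rd m w') by ring]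
      simp only [mul_pow, div_pow, pow_add]
      field_simp
    rw [hev]
    push_cast
    rw [Finset.sum_mul]
    apply Finset.sum_congr rfl
    intro i _
    rw [Finset.sum_mul]
    apply Finset.sum_congr rfl
    intro j _
    rw [hx (i - j) p hp, hx j p' hp', map_mul, Complex.conj_ofReal]
    push_cast
    ring
  · rw [if_neg h]
    symm
    apply Finset.sum_eq_zero
    intro i _
    apply Finset.sum_eq_zero
    intro j _
    rw [if_neg h]
    ring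

theorem AsmC_pr_large (A : ℕ) (hA : GA A) (M : ℝ) : ∃ P0 : ℕ, ∀ P : ℕ, P0 ≤ P →
    M ≤ ((pr A P).card : ℝ) := by
  obtain ⟨_, c, hc, P1, hP1, h⟩ := hA
  have ht : Filter.Tendsto (fun x : ℝ => x / Real.log x) Filter.atTop Filter.atTop := by
    have h1 : (fun x : ℝ => Real.log x) =o[Filter.atTop] (fun x : ℝ => x) :=
      Real.isLittleO_log_id_atTop
    have h2 := h1.tendsto_div_nhds_zero
    have h3 : Filter.Tendsto (fun x : ℝ => Real.log x / x) Filter.atTop (nhdsWithin 0 (Set.Ioi 0)) := by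
      rw [tendsto_nhdsWithin_iff]
      refine ⟨h2, ?_⟩
      filter_upwards [Filter.eventually_gt_atTop 1] with x hx
      have := Real.log_pos hx
      exact Set.mem_Ioi.mpr (by positivity)
    have h4 := h3.inv_tendsto_nhdsGT_zero
    refine h4.congr (fun x => ?_)
    simp [Pi.inv_apply, inv_div]
  have h1 := (ht.comp tendsto_natCast_atTop_atTop).eventually_ge_atTop (M / c)
  obtain ⟨N, hN⟩ := Filter.eventually_atTop.mp h1
  refine ⟨max N P1, fun P hP => ?_⟩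
  have h2 := hN P ((le_max_left _ _).trans hP)
  have h3 := h P ((le_max_right _ _).trans hP)
  simp only [Function.comp] at h2
  rw [div_le_iff₀ hc] at h2
  calc M ≤ (P : ℝ) / Real.log P * c := h2
    _ = c * P / Real.log P := by ring
    _ ≤ _ := h3

theorem e5det (b : ℝ) (hb : 1 < b) (A : ℕ) (hA : GA A) (ε : ℝ) (hε : 0 < ε) :
    ∃ (d J P0 : ℕ) (η C : ℝ), 1 ≤ d ∧ 0 < η ∧ 0 < C ∧ ∀ P : ℕ, P0 ≤ P → ∃ m0 : ℕ, ∀ m : ℕ, m0 ≤ m →
    ∀ c : ℕ → ℂ, (∀ n, ‖c n‖ ≤ 1) → ∀ G H : GI → ℂ, (∀ z, ‖G z‖ ≤ 1) → (∀ z, ‖H z‖ ≤ 1) →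
    ‖BB b m A P c G H‖ ^ 2 ≤ ((pr A P).card : ℝ) ^ 2 *
      (ε * (m : ℝ) ^ 2 + C * EE b d J ⌊(m : ℝ) / (η * P)⌋₊ m H) := by
  classical
  obtain ⟨C0, hC0, httc⟩ := ttc b hb
  obtain ⟨δ, cc, Q, P1, hδ, hcc, hasmA⟩ := asmA b hb A hA (ε / 72) (by positivity)
  have hA1 : 1 ≤ A := by have := hA.1; omega
  set T : Finset (ℕ × ℕ × ℕ) := (range (Q.natDegree + 1)).biUnion
    (fun i => (range (i + 1)).image (fun j => (i, j, i - j))) with hT
  set Ks : ℝ := ∑ i ∈ range (Q.natDegree + 1), ∑ j ∈ range (i + 1),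
    |Q.coeff i * (i.choose j) * (-1) ^ (i - j) * (A : ℝ) ^ i| with hKs
  have hKs0 : 0 ≤ Ks := Finset.sum_nonneg fun i _ => Finset.sum_nonneg fun j _ => abs_nonneg _
  obtain ⟨d, J, P2, η, C, hd, hP2, hη, hC, hfin⟩ := AsmC_fin b hb A hA δ cc (ε / (72 * (Ks + 1)))
    hδ hcc (by positivity) T
  obtain ⟨P3, hP3⟩ := AsmC_pr_large A hA (4 * C0 / ε)
  obtain ⟨P4, hP4⟩ := AsmC_pr_large A hA 1
  refine ⟨d, J, max (max P1 P2) (max P3 P4), η, 18 * (Ks + 1) * C, hd, hη, by positivity, ?_⟩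
  intro P hP
  have hPP1 : P1 ≤ P := le_trans (le_trans (le_max_left _ _) (le_max_left _ _)) hP
  have hPP2 : P2 ≤ P := le_trans (le_trans (le_max_right _ _) (le_max_left _ _)) hP
  have hPP3 : P3 ≤ P := le_trans (le_trans (le_max_left _ _) (le_max_right _ _)) hP
  have hPP4 : P4 ≤ P := le_trans (le_trans (le_max_right _ _) (le_max_right _ _)) hP
  have hPone : 1 ≤ P := hP2.trans hPP2
  obtain ⟨m1, hm1⟩ := hasmA P hPP1
  obtain ⟨m2, hm2⟩ := hfin P hPP2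
  obtain ⟨C', m3, hC', hm3, httc'⟩ := httc A P
  refine ⟨max (max m1 m2) (max m3 ⌈4 * C' / ε⌉₊), ?_⟩
  intro m hm c hc G H hG hH
  have hmm1 : m1 ≤ m := le_trans (le_trans (le_max_left _ _) (le_max_left _ _)) hm
  have hmm2 : m2 ≤ m := le_trans (le_trans (le_max_right _ _) (le_max_left _ _)) hm
  have hmm3 : m3 ≤ m := le_trans (le_trans (le_max_left _ _) (le_max_right _ _)) hm
  have hmm4 : ⌈4 * C' / ε⌉₊ ≤ m := le_trans (le_trans (le_max_right _ _) (le_max_right _ _)) hm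
  have hm1' : 1 ≤ m := hm3.trans hmm3
  have hmR : (0 : ℝ) < m := by exact_mod_cast hm1'
  have hbig : 4 * C' ≤ ε * m := by
    have h1 : 4 * C' / ε ≤ m := (Nat.le_ceil _).trans (by exact_mod_cast hmm4)
    rw [div_le_iff₀ hε] at h1
    linarith
  have hnp1 : (1 : ℝ) ≤ ((pr A P).card : ℝ) := hP4 P hPP4
  have hnp3 : 4 * C0 ≤ ε * ((pr A P).card : ℝ) := by
    have h1 := hP3 P hPP3
    rw [div_le_iff₀ hε] at h1
    linarith
  set np : ℝ := ((pr A P).card : ℝ) with hnp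
  set E := EE b d J ⌊(m : ℝ) / (η * P)⌋₊ m H with hE
  have hE0 : 0 ≤ E := AsmC_EE_nonneg _ _ _ _ _ _
  have hmain := httc' m hmm3 c hc G H hG hH
  have hA' := hm1 m hmm1 c hc H hH
  -- the polynomial part
  have hpoly : ‖PS b m (fun w w' => H w * (starRingEnd ℂ) (H w') * (cs δ cc (tt m P w w') : ℂ) *
        XX m A P c c (fun y => Q.eval y) w w')‖ ≤
      Ks * (np ^ 2 * (ε / (72 * (Ks + 1)) * m + C / m * E)) := by
    have h1 : PS b m (fun w w' => H w * (starRingEnd ℂ) (H w') * (cs δ cc (tt m P w w') : ℂ) *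
        XX m A P c c (fun y => Q.eval y) w w') =
        ∑ i ∈ range (Q.natDegree + 1), ∑ j ∈ range (i + 1),
      ((Q.coeff i * (i.choose j) * (-1) ^ (i - j) * (A : ℝ) ^ i : ℝ) : ℂ) *
        PS b m (AsmC_F A m P δ cc i j (i - j) (AsmC_x A P c (i - j)) (AsmC_x A P c j) H) := by
      have h2 : ∀ i ∈ range (Q.natDegree + 1), ∑ j ∈ range (i + 1),
        ((Q.coeff i * (i.choose j) * (-1) ^ (i - j) * (A : ℝ) ^ i : ℝ) : ℂ) *
        PS b m (AsmC_F A m P δ cc i j (i - j) (AsmC_x A P c (i - j)) (AsmC_x A P c j) H) =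
        PS b m (fun w w' => ∑ j ∈ range (i + 1),
          ((Q.coeff i * (i.choose j) * (-1) ^ (i - j) * (A : ℝ) ^ i : ℝ) : ℂ) *
          AsmC_F A m P δ cc i j (i - j) (AsmC_x A P c (i - j)) (AsmC_x A P c j) H w w') := by
        intro i _
        rw [AsmB_PS_sum]
        apply Finset.sum_congr rfl
        intro j _
        rw [AsmB_PS_mul]
      rw [Finset.sum_congr rfl h2, ← AsmB_PS_sum]
      apply AsmB_PS_congr
      intro w _ w' _ _ hD
      rw [AsmC_expand m A P hA1 hPone c Q w w' hD, Finset.mul_sum]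
      apply Finset.sum_congr rfl
      intro i _
      rw [Finset.mul_sum]
      apply Finset.sum_congr rfl
      intro j _
      unfold AsmC_F
      rw [map_mul, Complex.conj_ofReal]
      push_cast
      ring
    rw [h1, hKs, Finset.sum_mul]
    refine (norm_sum_le _ _).trans (Finset.sum_le_sum fun i hi => ?_)
    rw [Finset.sum_mul]
    refine (norm_sum_le _ _).trans (Finset.sum_le_sum fun j hj => ?_)
    rw [norm_mul, Complex.norm_real, Real.norm_eq_abs]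
    apply mul_le_mul_of_nonneg_left _ (abs_nonneg _)
    have ht : (i, j, i - j) ∈ T := by
      rw [hT, mem_biUnion]
      exact ⟨i, hi, mem_image.mpr ⟨j, hj, rfl⟩⟩
    exact hm2 m hmm2 (AsmC_x A P c (i - j)) (AsmC_x A P c j) (AsmC_x_le A P c hc (i - j))
      (AsmC_x_le A P c hc j) H hH (i, j, i - j) ht
  have hKK : Ks * (np ^ 2 * (ε / (72 * (Ks + 1)) * m + C / m * E)) ≤
      np ^ 2 * (ε / 72 * m + (Ks + 1) * C / m * E) := by
    have h1 : Ks * (np ^ 2 * (ε / (72 * (Ks + 1)) * m + C / m * E)) ≤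
        (Ks + 1) * (np ^ 2 * (ε / (72 * (Ks + 1)) * m + C / m * E)) := by
      apply mul_le_mul_of_nonneg_right (by linarith)
      positivity
    refine h1.trans (le_of_eq ?_)
    field_simp
  have hfin2 : ‖PS b m (fun w w' => H w * (starRingEnd ℂ) (H w') * XX m A P c c (phip b) w w')‖ ≤
      np ^ 2 * (ε / 72 * m + (Ks + 1) * C / m * E) + ε / 72 * m * np ^ 2 :=
    hA'.trans (add_le_add (hpoly.trans hKK) le_rfl)
  have e1 : 18 * (m : ℝ) * (np ^ 2 * (ε / 72 * m + (Ks + 1) * C / m * E) + ε / 72 * m * np ^ 2) =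
      np ^ 2 * (ε / 2 * (m : ℝ) ^ 2 + 18 * (Ks + 1) * C * E) := by
    field_simp
    ring
  have e2 : C0 * (m : ℝ) ^ 2 * np ≤ np ^ 2 * (ε / 4 * (m : ℝ) ^ 2) := by
    have : C0 * np ≤ ε / 4 * np * np := by
      have h1 : C0 ≤ ε / 4 * np := by linarith
      exact mul_le_mul_of_nonneg_right h1 (by linarith)
    calc C0 * (m : ℝ) ^ 2 * np = (C0 * np) * (m : ℝ) ^ 2 := by ring
      _ ≤ (ε / 4 * np * np) * (m : ℝ) ^ 2 := by gcongr
      _ = _ := by ring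
  have e3 : C' * (m : ℝ) ≤ np ^ 2 * (ε / 4 * (m : ℝ) ^ 2) := by
    have h1 : C' * (m : ℝ) ≤ ε / 4 * (m : ℝ) ^ 2 := by nlinarith
    have h2 : (1 : ℝ) ≤ np ^ 2 := by nlinarith
    calc C' * (m : ℝ) ≤ ε / 4 * (m : ℝ) ^ 2 := h1
      _ = 1 * (ε / 4 * (m : ℝ) ^ 2) := by ring
      _ ≤ np ^ 2 * (ε / 4 * (m : ℝ) ^ 2) := by gcongr
  calc ‖BB b m A P c G H‖ ^ 2 ≤ _ := hmain
    _ ≤ 18 * (m : ℝ) * (np ^ 2 * (ε / 72 * m + (Ks + 1) * C / m * E) + ε / 72 * m * np ^ 2) +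
        np ^ 2 * (ε / 4 * (m : ℝ) ^ 2) + np ^ 2 * (ε / 4 * (m : ℝ) ^ 2) := by
        apply add_le_add (add_le_add _ e2) e3
        gcongr
    _ = np ^ 2 * (ε * (m : ℝ) ^ 2 + 18 * (Ks + 1) * C * E) := by rw [e1]; ring

end Pool.Agent.FCH
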