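import Pool.Agent.FCH.Arc

set_option autoImplicit false

/-! Module Uni: entropy of the labels.  `M = ∏_{p ∈ S} p`.  Given `δ`, choose `η` small, `ρ = η²/M`, `E` from `cov M ρ δ'`.  `s₀ = ⋃_{e ∈ E} arcs m η ρ e`, `s' = ⋃_{a<4} i^a s₀` (rotation `(v,w,t) ↦ (iv, iw, t)` preserves `Om m`, `rf`, and the labels).
Labels: for every `y`, `#{ω ∈ s' : labels = y} ≤ 4 ∑_e 4ρm/(M (re e)²) ≤ 32 m/M` (`∑_e ρ/(re e)² ≤ 2`: disjoint subintervals of `[-1,1]`).
Complement: every `ω` has a rotate with `-re v < im v ≤ re v`.  (i) `N(v) ≤ η² m` or `N(w) ≤ η² m`: `∑ rf ≤ C η m`: for `N(v) ≤ η²m`: `N(v+w) > m` gives `|w| ≥ √m/2`, `rf ≤ 2m/(|v||w|) ≤ 4√m/|v|`, `∑_{N(v) ≤ η²m} 1/|v| ≤ C η √m`; symmetric for `w`.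
(ii) otherwise `rf ≤ 2/η²`; if `[sl v, sl w]` is not inside one `I_e`, then either it contains an end point of some `I_e` or `1` or `-1` (at most `2·(2#E + 2)` adjacent pairs), or it is disjoint from all of them: `rf ≤ 2m/(|v||w|) ≤ 2m (sl w - sl v)`, total `≤ 2mδ'`.
So `#(Om \ s') ≤ (C η + 8 δ') m + C(E, η)`, and `#Om ≥ c m`.  `ent_ge` with `κ = 32 m/(M #Om) ≤ 32/(c M)`.  (If `∑ log p ≤ C0` the statement is trivial: `ent_nonneg`.) -/

open Finset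

namespace Pool.Agent.FCH

open Pool.Agent.MRS hiding Good

/-- `∑_{0 < N(z) ≤ Y} 1/|z| ≤ 12 √Y` -/
theorem Uni_sum_inv (Y : ℝ) :
    open Classical in ∑ z ∈ (bal Y).filter (fun z => z ≠ 0), 1 / √(nm z : ℝ) ≤ 12 * √Y := by
  classical
  set R : ℕ := ⌊√Y⌋₊ with hR
  have hRle : (R : ℝ) ≤ √Y := Nat.floor_le (Real.sqrt_nonneg _)
  -- a sum over sigma type
  set A : Finset ℤ := (Icc (-(R : ℤ)) R).filter (fun x => x ≠ 0) with hA
  have hAc : (A.card : ℝ) ≤ 2 * R := by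
    have h1 : A ⊆ (Icc (-(R : ℤ)) R).erase 0 := by
      intro x hx
      rw [hA, mem_filter] at hx
      rw [mem_erase]
      exact ⟨hx.2, hx.1⟩
    have h2 : ((Icc (-(R : ℤ)) R).erase 0).card = 2 * R := by
      rw [card_erase_of_mem (by rw [mem_Icc]; omega), Int.card_Icc]
      omega
    have h3 := card_le_card h1
    rw [h2] at h3
    exact_mod_cast h3
  have hS : ∑ p ∈ A.sigma (fun x => Icc (-|x|) |x|), 1 / |(p.1 : ℝ)| ≤ 6 * R := by
    rw [sum_sigma]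
    have h1 : ∀ x ∈ A, ∑ y ∈ Icc (-|x|) |x|, 1 / |(x : ℝ)| ≤ 3 := by
      intro x hx
      rw [hA, mem_filter] at hx
      rw [sum_const, Int.card_Icc, nsmul_eq_mul]
      have hx1 : 1 ≤ |x| := Int.one_le_abs hx.2
      have hx2 : (1 : ℝ) ≤ |(x : ℝ)| := by exact_mod_cast hx1
      have h2 : (((|x| + 1 - -|x|).toNat : ℕ) : ℝ) = 2 * |(x : ℝ)| + 1 := by
        have : (((|x| + 1 - -|x|).toNat : ℕ) : ℤ) = 2 * |x| + 1 := by omega
        exact_mod_cast this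
      rw [h2, mul_one_div, div_le_iff₀ (by linarith)]
      linarith
    calc ∑ x ∈ A, ∑ y ∈ Icc (-|x|) |x|, 1 / |(x : ℝ)| ≤ ∑ x ∈ A, (3 : ℝ) := sum_le_sum h1
      _ = A.card * 3 := by rw [sum_const, nsmul_eq_mul]
      _ ≤ 6 * R := by linarith
  have hmem : ∀ z ∈ (bal Y).filter (fun z => z ≠ 0), |z.re| ≤ R ∧ |z.im| ≤ R := by
    intro z hz
    rw [mem_filter, mem_bal] at hz
    have h1 := hz.1
    rw [nm_real] at h1
    constructor
    · have h2 : |(z.re : ℝ)| ≤ √Y := by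
        apply Real.abs_le_sqrt
        nlinarith [sq_nonneg (z.im : ℝ)]
      have h3 : z.re.natAbs ≤ R := by
        apply Nat.le_floor
        rw [Nat.cast_natAbs]
        exact_mod_cast h2
      have h4 : (z.re.natAbs : ℤ) = |z.re| := Int.natCast_natAbs _
      rw [← h4]
      exact_mod_cast h3
    · have h2 : |(z.im : ℝ)| ≤ √Y := by
        apply Real.abs_le_sqrt
        nlinarith [sq_nonneg (z.re : ℝ)]
      have h3 : z.im.natAbs ≤ R := by
        apply Nat.le_floor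
        rw [Nat.cast_natAbs]
        exact_mod_cast h2
      have h4 : (z.im.natAbs : ℤ) = |z.im| := Int.natCast_natAbs _
      rw [← h4]
      exact_mod_cast h3
  -- split
  have hsplit : ∑ z ∈ (bal Y).filter (fun z => z ≠ 0), 1 / √(nm z : ℝ) ≤
      ∑ z ∈ ((bal Y).filter (fun z => z ≠ 0)).filter (fun z => |z.im| ≤ |z.re|), 1 / |(z.re : ℝ)| +
      ∑ z ∈ ((bal Y).filter (fun z => z ≠ 0)).filter (fun z => ¬ |z.im| ≤ |z.re|), 1 / |(z.im : ℝ)| := by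
    rw [← sum_filter_add_sum_filter_not _ (fun z : GI => |z.im| ≤ |z.re|)]
    apply add_le_add
    · apply sum_le_sum
      intro z hz
      rw [mem_filter, mem_filter] at hz
      have h1 : z.re ≠ 0 := by
        intro h
        rw [h, abs_zero] at hz
        apply hz.1.2
        ext
        · exact h
        · exact abs_nonpos_iff.1 hz.2
      have h2 : (0 : ℝ) < |(z.re : ℝ)| := by
        rw [abs_pos]; exact_mod_cast h1
      apply one_div_le_one_div_of_le h2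
      apply Real.le_sqrt_of_sq_le
      rw [sq_abs, nm_real]
      nlinarith [sq_nonneg (z.im : ℝ)]
    · apply sum_le_sum
      intro z hz
      rw [mem_filter, mem_filter] at hz
      have h1 : z.im ≠ 0 := by
        intro h
        rw [h, abs_zero] at hz
        exact hz.2 (abs_nonneg _)
      have h2 : (0 : ℝ) < |(z.im : ℝ)| := by
        rw [abs_pos]; exact_mod_cast h1
      apply one_div_le_one_div_of_le h2
      apply Real.le_sqrt_of_sq_le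
      rw [sq_abs, nm_real]
      nlinarith [sq_nonneg (z.re : ℝ)]
  have hb1 : ∑ z ∈ ((bal Y).filter (fun z => z ≠ 0)).filter (fun z => |z.im| ≤ |z.re|), 1 / |(z.re : ℝ)| ≤
      ∑ p ∈ A.sigma (fun x => Icc (-|x|) |x|), 1 / |(p.1 : ℝ)| := by
    have himg : ∑ p ∈ (((bal Y).filter (fun z => z ≠ 0)).filter (fun z => |z.im| ≤ |z.re|)).image
        (fun z : GI => (⟨z.re, z.im⟩ : (_ : ℤ) × ℤ)), 1 / |(p.1 : ℝ)| =
        ∑ z ∈ ((bal Y).filter (fun z => z ≠ 0)).filter (fun z => |z.im| ≤ |z.re|), 1 / |(z.re : ℝ)| := by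
      rw [sum_image]
      intro z _ z' _ h
      simp only [Sigma.mk.injEq, heq_eq_eq] at h
      ext
      · exact h.1
      · exact h.2
    rw [← himg]
    apply sum_le_sum_of_subset_of_nonneg
    · intro p hp
      rw [mem_image] at hp
      obtain ⟨z, hz, rfl⟩ := hp
      rw [mem_filter] at hz
      have h1 := hmem z hz.1
      rw [mem_sigma, hA, mem_filter, mem_Icc, mem_Icc]
      have h2 : z.re ≠ 0 := by
        intro h
        rw [h, abs_zero] at hz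
        rw [mem_filter] at hz
        apply hz.1.2
        ext
        · exact h
        · exact abs_nonpos_iff.1 hz.2
      exact ⟨⟨abs_le.1 h1.1, h2⟩, abs_le.1 hz.2⟩
    · intro p _ _
      positivity
  have hb2 : ∑ z ∈ ((bal Y).filter (fun z => z ≠ 0)).filter (fun z => ¬ |z.im| ≤ |z.re|), 1 / |(z.im : ℝ)| ≤
      ∑ p ∈ A.sigma (fun x => Icc (-|x|) |x|), 1 / |(p.1 : ℝ)| := by
    have himg : ∑ p ∈ (((bal Y).filter (fun z => z ≠ 0)).filter (fun z => ¬ |z.im| ≤ |z.re|)).image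
        (fun z : GI => (⟨z.im, z.re⟩ : (_ : ℤ) × ℤ)), 1 / |(p.1 : ℝ)| =
        ∑ z ∈ ((bal Y).filter (fun z => z ≠ 0)).filter (fun z => ¬ |z.im| ≤ |z.re|), 1 / |(z.im : ℝ)| := by
      rw [sum_image]
      intro z _ z' _ h
      simp only [Sigma.mk.injEq, heq_eq_eq] at h
      ext
      · exact h.2
      · exact h.1
    rw [← himg]
    apply sum_le_sum_of_subset_of_nonneg
    · intro p hp
      rw [mem_image] at hp
      obtain ⟨z, hz, rfl⟩ := hp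
      rw [mem_filter] at hz
      have h1 := hmem z hz.1
      rw [mem_sigma, hA, mem_filter, mem_Icc, mem_Icc]
      have h2 : z.im ≠ 0 := by
        intro h
        apply hz.2
        rw [h, abs_zero]
        exact abs_nonneg _
      exact ⟨⟨abs_le.1 h1.2, h2⟩, abs_le.1 (not_le.1 hz.2).le⟩
    · intro p _ _
      positivity
  linarith

/-- total length of disjoint intervals in `[-1, 1]` -/
theorem Uni_len {ι : Type} (s : Finset ι) (a b : ι → ℝ) (hab : ∀ i ∈ s, a i ≤ b i)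
    (h1 : ∀ i ∈ s, -1 ≤ a i) (h2 : ∀ i ∈ s, b i ≤ 1)
    (hd : ∀ i ∈ s, ∀ j ∈ s, i ≠ j → Disjoint (Set.Ioo (a i) (b i)) (Set.Ioo (a j) (b j))) :
    ∑ i ∈ s, (b i - a i) ≤ 2 := by
  have h3 : MeasureTheory.volume (⋃ i ∈ s, Set.Ioo (a i) (b i)) = ∑ i ∈ s, MeasureTheory.volume (Set.Ioo (a i) (b i)) := by
    apply MeasureTheory.measure_biUnion_finset
    · intro i hi j hj hij
      exact hd i hi j hj hij
    · intro i _
      exact measurableSet_Ioo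
  have h4 : MeasureTheory.volume (⋃ i ∈ s, Set.Ioo (a i) (b i)) ≤ MeasureTheory.volume (Set.Icc (-1 : ℝ) 1) := by
    apply MeasureTheory.measure_mono
    apply Set.iUnion₂_subset
    intro i hi x hx
    exact ⟨(h1 i hi).trans hx.1.le, hx.2.le.trans (h2 i hi)⟩
  rw [h3] at h4
  simp only [Real.volume_Ioo, Real.volume_Icc] at h4
  rw [← ENNReal.ofReal_sum_of_nonneg (fun i hi => sub_nonneg.2 (hab i hi)),
    ENNReal.ofReal_le_ofReal_iff (by norm_num)] at h4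
  linarith

theorem Uni_Pr_left {v w : GI} (h : dt v w = 1) : Pr v := by
  unfold Pr dt at *
  exact Int.isCoprime_iff_gcd_eq_one.1 ⟨w.im, -w.re, by linarith⟩

theorem Uni_Pr_right {v w : GI} (h : dt v w = 1) : Pr w := by
  unfold Pr dt at *
  exact Int.isCoprime_iff_gcd_eq_one.1 ⟨-v.im, v.re, by linarith⟩

theorem Uni_sl_sub {v w : GI} (hv : 0 < v.re) (hw : 0 < w.re) :
    sl w - sl v = (dt v w : ℝ) / ((v.re : ℝ) * w.re) := by
  have h1 : (0 : ℝ) < v.re := by exact_mod_cast hv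
  have h2 : (0 : ℝ) < w.re := by exact_mod_cast hw
  unfold sl dt
  push_cast
  field_simp

theorem Uni_dt_pos {v w : GI} (hv : 0 < v.re) (hw : 0 < w.re) (h : sl v < sl w) : 0 < dt v w := by
  have h1 : (0 : ℝ) < v.re := by exact_mod_cast hv
  have h2 : (0 : ℝ) < w.re := by exact_mod_cast hw
  have h3 := Uni_sl_sub hv hw
  have h4 : 0 < (dt v w : ℝ) / ((v.re : ℝ) * w.re) := by rw [← h3]; linarith
  have h5 : 0 < (dt v w : ℝ) := by
    by_contra h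
    have : (dt v w : ℝ) / ((v.re : ℝ) * w.re) ≤ 0 := div_nonpos_of_nonpos_of_nonneg (not_lt.1 h) (by positivity)
    linarith
  exact_mod_cast h5

/-- the slope intervals of adjacent pairs are disjoint -/
theorem Uni_disj_aux {m : ℕ} {v w v' w' : GI} (h : (v, w) ∈ adj m) (h' : (v', w') ∈ adj m)
    (hv : 0 < v.re) (hw : 0 < w.re) (hv' : 0 < v'.re) {x : ℝ}
    (hle : sl v ≤ sl v') (hx : x ≤ sl w) (hx' : sl v' < x) :
    v = v' ∧ w = w' := by
  have hm := (mem_adj.1 h).1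
  have hm' := (mem_adj.1 h').1
  rcases lt_or_eq_of_le hle with hlt | heq
  · exfalso
    exact adj_between h hm'.1 ⟨Uni_dt_pos hv hv' hlt, Uni_dt_pos hv' hw (by linarith)⟩
  · have h0 : dt v v' = 0 := by
      have h3 := Uni_sl_sub hv hv'
      rw [heq, sub_self] at h3
      have h1 : (0 : ℝ) < v.re := by exact_mod_cast hv
      have h2 : (0 : ℝ) < v'.re := by exact_mod_cast hv'
      have h4 : (dt v v' : ℝ) = 0 := by
        rcases div_eq_zero_iff.1 h3.symm with h5 | h5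
        · exact h5
        · exfalso
          have : (0 : ℝ) < (v.re : ℝ) * v'.re := by positivity
          linarith
      exact_mod_cast h4
    have hvv : v = v' := by
      rcases eq_or_neg_of_dt (Uni_Pr_left (mem_adj.1 h).2.1) (Uni_Pr_left (mem_adj.1 h').2.1) h0 with h5 | h5
      · exact h5.symm
      · exfalso
        rw [h5] at hv'
        simp only [Zsqrtd.re_neg] at hv'
        omega
    subst hvv
    exact ⟨rfl, adj_inj_left h h'⟩

theorem Uni_disj {m : ℕ} {e e' : GI × GI} (h : e ∈ adj m) (h' : e' ∈ adj m)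
    (hv : 0 < e.1.re) (hw : 0 < e.2.re) (hv' : 0 < e'.1.re) (hw' : 0 < e'.2.re) {x : ℝ}
    (hx : sl e.1 < x ∧ x ≤ sl e.2) (hx' : sl e'.1 < x ∧ x ≤ sl e'.2) : e = e' := by
  obtain ⟨v, w⟩ := e
  obtain ⟨v', w'⟩ := e'
  simp only at *
  rcases le_total (sl v) (sl v') with hle | hle
  · obtain ⟨h1, h2⟩ := Uni_disj_aux h h' hv hw hv' hle hx.2 hx'.1
    rw [h1, h2]
  · obtain ⟨h1, h2⟩ := Uni_disj_aux h' h hv' hw' hv hle hx'.2 hx.1
    rw [h1, h2]

/-! rotations -/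

/-- rotation by a unit -/
noncomputable def Uni_rot (u : GI) (ω : GI × GI × ℕ) : GI × GI × ℕ := (u * ω.1, u * ω.2.1, ω.2.2)

theorem Uni_unit {u : GI} (hu : nm u = 1) : u * star u = 1 := by
  have h1 : ((nm u : ℤ)) = 1 := by rw [hu]; rfl
  rw [nm_int] at h1
  ext
  · simp [Zsqrtd.re_mul, Zsqrtd.re_star, Zsqrtd.im_star]
    linarith [h1, sq u.re, sq u.im]
  · simp [Zsqrtd.im_mul, Zsqrtd.re_star, Zsqrtd.im_star]
    ring

theorem Uni_unit' {u : GI} (hu : nm u = 1) : star u * u = 1 := by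
  rw [mul_comm]; exact Uni_unit hu

theorem Uni_rf_rot {u : GI} (hu : nm u = 1) (m : ℕ) (v w : GI) : rf m (u * v) (u * w) = rf m v w := by
  unfold rf
  rw [nm_mul, nm_mul, hu, one_mul, one_mul]

theorem Uni_adj_rot {u : GI} (hu : nm u = 1) {m : ℕ} {v w : GI} (h : (v, w) ∈ adj m) :
    (u * v, u * w) ∈ adj m := by
  rw [mem_adj] at *
  rw [nm_mul, nm_mul, hu, one_mul, one_mul, dt_mul, hu, ← mul_add, nm_mul, hu, one_mul]
  refine ⟨h.1, ?_, h.2.2⟩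
  rw [h.2.1]; rfl

theorem Uni_Om_rot {u : GI} (hu : nm u = 1) {m : ℕ} {ω : GI × GI × ℕ} (h : ω ∈ Om m) :
    Uni_rot u ω ∈ Om m := by
  rw [mem_Om] at *
  unfold Uni_rot
  simp only
  rw [Uni_rf_rot hu]
  exact ⟨Uni_adj_rot hu h.1, h.2⟩

theorem Uni_rot_star {u : GI} (hu : nm u = 1) (ω : GI × GI × ℕ) : Uni_rot (star u) (Uni_rot u ω) = ω := by
  unfold Uni_rot
  simp only
  rw [← mul_assoc, ← mul_assoc, Uni_unit' hu, one_mul, one_mul]

theorem Uni_dvd_rot {u : GI} (hu : nm u = 1) (p w : GI) : p ∣ u * w ↔ p ∣ w := by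
  constructor
  · rintro ⟨c, hc⟩
    refine ⟨star u * c, ?_⟩
    have h1 : star u * (u * w) = star u * (p * c) := by rw [hc]
    rw [← mul_assoc, Uni_unit' hu, one_mul] at h1
    rw [h1]; ring
  · intro h
    exact Dvd.dvd.mul_left h u

theorem Uni_yo_rot {u : GI} (hu : nm u = 1) (ω : GI × GI × ℕ) (p : ℕ) : yo (Uni_rot u ω) p = yo ω p := by
  unfold yo yv Uni_rot
  simp only
  have h1 : ∀ l : ℕ, (gpi p ∣ u * ω.1 - (l : GI) * (u * ω.2.1)) ↔ (gpi p ∣ ω.1 - (l : GI) * ω.2.1) := by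
    intro l
    rw [show u * ω.1 - (l : GI) * (u * ω.2.1) = u * (ω.1 - (l : GI) * ω.2.1) by ring]
    exact Uni_dvd_rot hu _ _
  simp only [h1]
  by_cases hd : gpi p ∣ ω.2.1
  · rw [if_pos hd, if_pos ((Uni_dvd_rot hu _ _).2 hd)]
  · rw [if_neg hd, if_neg (fun h => hd ((Uni_dvd_rot hu _ _).1 h))]

/-- the four units -/
def Uni_U : Finset GI := {⟨1, 0⟩, ⟨0, 1⟩, ⟨-1, 0⟩, ⟨0, -1⟩}

theorem Uni_U_nm {u : GI} (h : u ∈ Uni_U) : nm u = 1 := by
  unfold Uni_U at h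
  simp only [mem_insert, mem_singleton] at h
  rcases h with h | h | h | h <;> rw [h] <;> rfl

theorem Uni_U_card : Uni_U.card ≤ 4 := by
  unfold Uni_U
  exact card_le_four

/-- sector -/
def Uni_Q (v : GI) : Prop := 0 < v.re ∧ -v.re < v.im ∧ v.im ≤ v.re

theorem Uni_sector {v : GI} (hv : v ≠ 0) : ∃ u ∈ Uni_U, Uni_Q (u * v) := by
  have h0 : v.re ≠ 0 ∨ v.im ≠ 0 := by
    by_contra h
    push Not at h
    apply hv
    ext
    · exact h.1
    · exact h.2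
  by_cases h1 : 0 < v.re ∧ -v.re < v.im ∧ v.im ≤ v.re
  · refine ⟨⟨1, 0⟩, by unfold Uni_U; simp, ?_⟩
    unfold Uni_Q
    simp [Zsqrtd.re_mul, Zsqrtd.im_mul]
    exact h1
  by_cases h2 : 0 < v.im ∧ -v.im < -v.re ∧ -v.re ≤ v.im
  · refine ⟨⟨0, -1⟩, by unfold Uni_U; simp, ?_⟩
    unfold Uni_Q
    simp [Zsqrtd.re_mul, Zsqrtd.im_mul]
    omega
  by_cases h3 : 0 < -v.re ∧ v.re < -v.im ∧ -v.im ≤ -v.re
  · refine ⟨⟨-1, 0⟩, by unfold Uni_U; simp, ?_⟩
    unfold Uni_Q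
    simp [Zsqrtd.re_mul, Zsqrtd.im_mul]
    omega
  · refine ⟨⟨0, 1⟩, by unfold Uni_U; simp, ?_⟩
    unfold Uni_Q
    simp [Zsqrtd.re_mul, Zsqrtd.im_mul]
    omega


/-- `rf ≤ 4 √m / |v|` if `v` is short -/
theorem Uni_rf_short {m : ℕ} {v w : GI} (h : (v, w) ∈ adj m) {η : ℝ} (hη : 0 < η) (hη2 : η ≤ 1 / 2)
    (hv : (nm v : ℝ) ≤ η ^ 2 * m) : (rf m v w : ℝ) ≤ 4 * √m * (1 / √(nm v : ℝ)) := by
  have h1 := (rf_pos h).2.2.2
  have hm := mem_adj.1 h
  have hvne : v ≠ 0 := Pr_ne (Uni_Pr_left hm.2.1)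
  have hwne : w ≠ 0 := Pr_ne (Uni_Pr_right hm.2.1)
  have hv0 : (0 : ℝ) < nm v := by exact_mod_cast nm_pos hvne
  have hw0 : (0 : ℝ) < nm w := by exact_mod_cast nm_pos hwne
  -- |w| ≥ √m / 2
  have h2 : √(nm (v + w) : ℝ) ≤ √(nm v : ℝ) + √(nm w : ℝ) := by
    have h3 : ∀ z : GI, √(nm z : ℝ) = ‖GaussianInt.toComplex z‖ := by
      intro z
      rw [← BAS_norm_sq, Real.sqrt_sq (norm_nonneg _)]
    rw [h3, h3, h3, map_add]
    exact norm_add_le _ _
  have h3 : √(m : ℝ) ≤ √(nm (v + w) : ℝ) := Real.sqrt_le_sqrt (by exact_mod_cast hm.2.2.le)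
  have h4 : √(nm v : ℝ) ≤ η * √m := by
    calc √(nm v : ℝ) ≤ √(η ^ 2 * m) := Real.sqrt_le_sqrt hv
      _ = η * √m := by rw [Real.sqrt_mul (sq_nonneg _), Real.sqrt_sq hη.le]
  have h5 : √(m : ℝ) / 2 ≤ √(nm w : ℝ) := by
    have : η * √(m : ℝ) ≤ 1 / 2 * √m := mul_le_mul_of_nonneg_right hη2 (Real.sqrt_nonneg _)
    linarith
  have hm0 : (0 : ℝ) < m := lt_of_lt_of_le hv0 (by exact_mod_cast hm.1.1)
  have hsm : 0 < √(m : ℝ) := Real.sqrt_pos.2 hm0
  have hsv : 0 < √(nm v : ℝ) := Real.sqrt_pos.2 hv0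
  have hsw : 0 < √(nm w : ℝ) := Real.sqrt_pos.2 hw0
  calc (rf m v w : ℝ) ≤ 2 * (m / √((nm v : ℝ) * nm w)) := h1
    _ = 2 * (√m * √m / (√(nm v : ℝ) * √(nm w : ℝ))) := by
        rw [Real.mul_self_sqrt hm0.le, Real.sqrt_mul hv0.le]
    _ ≤ 4 * √m * (1 / √(nm v : ℝ)) := by
        rw [mul_one_div, ← mul_div_assoc, div_le_div_iff₀ (by positivity) (by positivity)]
        nlinarith [mul_pos hsm hsv, mul_le_mul_of_nonneg_left h5 (mul_pos hsm hsv).le]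

theorem Uni_rf_symm (m : ℕ) (v w : GI) : rf m v w = rf m w v := by
  unfold rf
  rw [mul_comm]

theorem Uni_rf_short' {m : ℕ} {v w : GI} (h : (v, w) ∈ adj m) {η : ℝ} (hη : 0 < η) (hη2 : η ≤ 1 / 2)
    (hw : (nm w : ℝ) ≤ η ^ 2 * m) : (rf m v w : ℝ) ≤ 4 * √m * (1 / √(nm w : ℝ)) := by
  have h1 := (rf_pos h).2.2.2
  have hm := mem_adj.1 h
  have hvne : v ≠ 0 := Pr_ne (Uni_Pr_left hm.2.1)
  have hwne : w ≠ 0 := Pr_ne (Uni_Pr_right hm.2.1)
  have hv0 : (0 : ℝ) < nm v := by exact_mod_cast nm_pos hvne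
  have hw0 : (0 : ℝ) < nm w := by exact_mod_cast nm_pos hwne
  have h2 : √(nm (v + w) : ℝ) ≤ √(nm v : ℝ) + √(nm w : ℝ) := by
    have h3 : ∀ z : GI, √(nm z : ℝ) = ‖GaussianInt.toComplex z‖ := by
      intro z
      rw [← BAS_norm_sq, Real.sqrt_sq (norm_nonneg _)]
    rw [h3, h3, h3, map_add]
    exact norm_add_le _ _
  have h3 : √(m : ℝ) ≤ √(nm (v + w) : ℝ) := Real.sqrt_le_sqrt (by exact_mod_cast hm.2.2.le)
  have h4 : √(nm w : ℝ) ≤ η * √m := by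
    calc √(nm w : ℝ) ≤ √(η ^ 2 * m) := Real.sqrt_le_sqrt hw
      _ = η * √m := by rw [Real.sqrt_mul (sq_nonneg _), Real.sqrt_sq hη.le]
  have h5 : √(m : ℝ) / 2 ≤ √(nm v : ℝ) := by
    have : η * √(m : ℝ) ≤ 1 / 2 * √m := mul_le_mul_of_nonneg_right hη2 (Real.sqrt_nonneg _)
    linarith
  have hm0 : (0 : ℝ) < m := lt_of_lt_of_le hv0 (by exact_mod_cast hm.1.1)
  have hsm : 0 < √(m : ℝ) := Real.sqrt_pos.2 hm0
  have hsv : 0 < √(nm v : ℝ) := Real.sqrt_pos.2 hv0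
  have hsw : 0 < √(nm w : ℝ) := Real.sqrt_pos.2 hw0
  calc (rf m v w : ℝ) ≤ 2 * (m / √((nm v : ℝ) * nm w)) := h1
    _ = 2 * (√m * √m / (√(nm v : ℝ) * √(nm w : ℝ))) := by
        rw [Real.mul_self_sqrt hm0.le, Real.sqrt_mul hv0.le]
    _ ≤ 4 * √m * (1 / √(nm w : ℝ)) := by
        rw [mul_one_div, ← mul_div_assoc, div_le_div_iff₀ (by positivity) (by positivity)]
        nlinarith [mul_pos hsm hsw, mul_le_mul_of_nonneg_left h5 (mul_pos hsm hsw).le]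

/-- total roof over pairs with a short vector -/
theorem Uni_B1 (m : ℕ) {η : ℝ} (hη : 0 < η) (hη2 : η ≤ 1 / 2) : open Classical in
    ∑ e ∈ (adj m).filter (fun e => (nm e.1 : ℝ) ≤ η ^ 2 * m), (rf m e.1 e.2 : ℝ) ≤ 48 * η * m := by
  classical
  have h1 : ∑ e ∈ (adj m).filter (fun e => (nm e.1 : ℝ) ≤ η ^ 2 * m), (rf m e.1 e.2 : ℝ) ≤
      ∑ e ∈ (adj m).filter (fun e => (nm e.1 : ℝ) ≤ η ^ 2 * m), 4 * √m * (1 / √(nm e.1 : ℝ)) := by
    apply sum_le_sum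
    intro e he
    rw [mem_filter] at he
    exact Uni_rf_short he.1 hη hη2 he.2
  have h2 : ∑ e ∈ (adj m).filter (fun e => (nm e.1 : ℝ) ≤ η ^ 2 * m), 4 * √m * (1 / √(nm e.1 : ℝ)) ≤
      ∑ z ∈ (bal (η ^ 2 * m)).filter (fun z => z ≠ 0), 4 * √m * (1 / √(nm z : ℝ)) := by
    have himg : ∑ z ∈ ((adj m).filter (fun e => (nm e.1 : ℝ) ≤ η ^ 2 * m)).image Prod.fst,
        4 * √m * (1 / √(nm z : ℝ)) =
        ∑ e ∈ (adj m).filter (fun e => (nm e.1 : ℝ) ≤ η ^ 2 * m), 4 * √m * (1 / √(nm e.1 : ℝ)) := by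
      rw [sum_image]
      rintro ⟨v, w⟩ he ⟨v', w'⟩ he' h
      rw [mem_coe, mem_filter] at he he'
      simp only at h
      subst h
      rw [adj_inj_left he.1 he'.1]
    rw [← himg]
    apply sum_le_sum_of_subset_of_nonneg
    · intro z hz
      rw [mem_image] at hz
      obtain ⟨⟨v, w⟩, he, rfl⟩ := hz
      rw [mem_filter] at he ⊢
      rw [mem_bal]
      exact ⟨he.2, Pr_ne (Uni_Pr_left (mem_adj.1 he.1).2.1)⟩
    · intro z _ _
      positivity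
  have h3 := Uni_sum_inv (η ^ 2 * m)
  have h4 : √(η ^ 2 * (m : ℝ)) = η * √m := by rw [Real.sqrt_mul (sq_nonneg _), Real.sqrt_sq hη.le]
  rw [h4] at h3
  have h5 : 4 * √(m : ℝ) * ∑ z ∈ (bal (η ^ 2 * m)).filter (fun z => z ≠ 0), (1 / √(nm z : ℝ)) ≤
      4 * √m * (12 * (η * √m)) := mul_le_mul_of_nonneg_left h3 (by positivity)
  have h6 : 4 * √(m : ℝ) * (12 * (η * √m)) = 48 * η * m := by
    have := Real.mul_self_sqrt (Nat.cast_nonneg (α := ℝ) m)
    linear_combination 48 * η * this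
  rw [mul_sum] at h5
  linarith

theorem Uni_B1' (m : ℕ) {η : ℝ} (hη : 0 < η) (hη2 : η ≤ 1 / 2) : open Classical in
    ∑ e ∈ (adj m).filter (fun e => (nm e.2 : ℝ) ≤ η ^ 2 * m), (rf m e.1 e.2 : ℝ) ≤ 48 * η * m := by
  classical
  have h1 : ∑ e ∈ (adj m).filter (fun e => (nm e.2 : ℝ) ≤ η ^ 2 * m), (rf m e.1 e.2 : ℝ) ≤
      ∑ e ∈ (adj m).filter (fun e => (nm e.2 : ℝ) ≤ η ^ 2 * m), 4 * √m * (1 / √(nm e.2 : ℝ)) := by
    apply sum_le_sum
    intro e he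
    rw [mem_filter] at he
    exact Uni_rf_short' he.1 hη hη2 he.2
  have h2 : ∑ e ∈ (adj m).filter (fun e => (nm e.2 : ℝ) ≤ η ^ 2 * m), 4 * √m * (1 / √(nm e.2 : ℝ)) ≤
      ∑ z ∈ (bal (η ^ 2 * m)).filter (fun z => z ≠ 0), 4 * √m * (1 / √(nm z : ℝ)) := by
    have himg : ∑ z ∈ ((adj m).filter (fun e => (nm e.2 : ℝ) ≤ η ^ 2 * m)).image Prod.snd,
        4 * √m * (1 / √(nm z : ℝ)) =
        ∑ e ∈ (adj m).filter (fun e => (nm e.2 : ℝ) ≤ η ^ 2 * m), 4 * √m * (1 / √(nm e.2 : ℝ)) := by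
      rw [sum_image]
      rintro ⟨v, w⟩ he ⟨v', w'⟩ he' h
      rw [mem_coe, mem_filter] at he he'
      simp only at h
      subst h
      rw [adj_inj_right he.1 he'.1]
    rw [← himg]
    apply sum_le_sum_of_subset_of_nonneg
    · intro z hz
      rw [mem_image] at hz
      obtain ⟨⟨v, w⟩, he, rfl⟩ := hz
      rw [mem_filter] at he ⊢
      rw [mem_bal]
      exact ⟨he.2, Pr_ne (Uni_Pr_right (mem_adj.1 he.1).2.1)⟩
    · intro z _ _
      positivity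
  have h3 := Uni_sum_inv (η ^ 2 * m)
  have h4 : √(η ^ 2 * (m : ℝ)) = η * √m := by rw [Real.sqrt_mul (sq_nonneg _), Real.sqrt_sq hη.le]
  rw [h4] at h3
  have h5 : 4 * √(m : ℝ) * ∑ z ∈ (bal (η ^ 2 * m)).filter (fun z => z ≠ 0), (1 / √(nm z : ℝ)) ≤
      4 * √m * (12 * (η * √m)) := mul_le_mul_of_nonneg_left h3 (by positivity)
  have h6 : 4 * √(m : ℝ) * (12 * (η * √m)) = 48 * η * m := by
    have := Real.mul_self_sqrt (Nat.cast_nonneg (α := ℝ) m)
    linear_combination 48 * η * this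
  rw [mul_sum] at h5
  linarith


theorem Uni_geo {m : ℕ} {v w : GI} (h : (v, w) ∈ adj m) (hQ : Uni_Q v) (h2 : 2 < nm v) (h2' : 2 < nm w) :
    0 < w.re ∧ -1 < sl v ∧ sl w ≤ 1 ∧ sl v < sl w := by
  obtain ⟨hv, hQ1, hQ2⟩ := hQ
  have hm := mem_adj.1 h
  have hip := adj_ip h
  have hprod := ip_sq_add v w
  rw [hm.2.1] at hprod
  have hip2 : 2 ≤ ip v w := by
    by_contra hc
    have h3 : ip v w ≤ 1 := by omega
    have h4 : ip v w ^ 2 ≤ 1 := by nlinarith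
    have h5 : (3 : ℤ) ≤ nm v := by exact_mod_cast h2
    have h6 : (3 : ℤ) ≤ nm w := by exact_mod_cast h2'
    nlinarith
  have hdet : v.re * w.im - v.im * w.re = 1 := hm.2.1
  have hipe : v.re * w.re + v.im * w.im = ip v w := rfl
  -- re w * |v|^2 = re v * ip - im v
  have hkey : w.re * (v.re ^ 2 + v.im ^ 2) = v.re * ip v w - v.im := by
    rw [← hipe]
    linear_combination (-v.im) * hdet
  have hw : 0 < w.re := by
    by_contra hc
    have h3 : w.re ≤ 0 := by omega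
    have h4 : w.re * (v.re ^ 2 + v.im ^ 2) ≤ 0 := mul_nonpos_of_nonpos_of_nonneg h3 (by positivity)
    rw [hkey] at h4
    nlinarith
  have hvR : (0 : ℝ) < v.re := by exact_mod_cast hv
  have hwR : (0 : ℝ) < w.re := by exact_mod_cast hw
  refine ⟨hw, ?_, ?_, ?_⟩
  · unfold sl
    rw [lt_div_iff₀ hvR]
    have : (-(v.re : ℝ)) < v.im := by exact_mod_cast hQ1
    linarith
  · have h3 : 0 < dt v ⟨1, 1⟩ := by
      unfold dt
      simp only [mul_one]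
      rcases lt_or_eq_of_le hQ2 with h4 | h4
      · omega
      · exfalso
        have h5 : v.re ∣ 1 := by
          refine ⟨w.im - w.re, ?_⟩
          have h6 := hdet
          rw [h4] at h6
          linear_combination -h6
        have h6 : v.re = 1 := by
          have := Int.le_of_dvd one_pos h5
          omega
        have h7 : (nm v : ℤ) = 2 := by
          rw [nm_int, h4, h6]; norm_num
        omega
    have h4 : nm (⟨1, 1⟩ : GI) ≤ m := by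
      have h5 : nm (⟨1, 1⟩ : GI) = 2 := rfl
      have := hm.1.1
      omega
    have h5 := adj_between h h4
    have h6 : ¬ (0 < dt (⟨1, 1⟩ : GI) w) := fun h7 => h5 ⟨h3, h7⟩
    unfold dt at h6
    simp only [one_mul] at h6
    unfold sl
    rw [div_le_one hwR]
    have h7 : w.im ≤ w.re := by omega
    exact_mod_cast h7
  · have h3 := Uni_sl_sub hv hw
    rw [hm.2.1] at h3
    have h4 : (0 : ℝ) < ((1 : ℤ) : ℝ) / ((v.re : ℝ) * w.re) := by
      push_cast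
      positivity
    linarith

theorem Uni_re_le (z : GI) : (z.re : ℝ) ≤ √(nm z : ℝ) := by
  apply Real.le_sqrt_of_sq_le
  rw [nm_real]
  nlinarith [sq_nonneg (z.im : ℝ)]

theorem Uni_rf_sl {m : ℕ} {v w : GI} (h : (v, w) ∈ adj m) (hv : 0 < v.re) (hw : 0 < w.re) :
    (rf m v w : ℝ) ≤ 2 * m * (sl w - sl v) := by
  have h1 := (rf_pos h).2.2.2
  have hm := mem_adj.1 h
  rw [Uni_sl_sub hv hw, hm.2.1]
  have hvR : (0 : ℝ) < v.re := by exact_mod_cast hv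
  have hwR : (0 : ℝ) < w.re := by exact_mod_cast hw
  have h2 : (v.re : ℝ) * w.re ≤ √((nm v : ℝ) * nm w) := by
    rw [Real.sqrt_mul (Nat.cast_nonneg _)]
    exact mul_le_mul (Uni_re_le v) (Uni_re_le w) hwR.le (Real.sqrt_nonneg _)
  have h3 : (m : ℝ) / √((nm v : ℝ) * nm w) ≤ m / ((v.re : ℝ) * w.re) :=
    div_le_div_of_nonneg_left (Nat.cast_nonneg _) (by positivity) h2
  calc (rf m v w : ℝ) ≤ 2 * (m / √((nm v : ℝ) * nm w)) := h1
    _ ≤ 2 * (m / ((v.re : ℝ) * w.re)) := by linarith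
    _ = 2 * m * (((1 : ℤ) : ℝ) / ((v.re : ℝ) * w.re)) := by push_cast; ring

theorem Uni_rf_long {m : ℕ} {v w : GI} (h : (v, w) ∈ adj m) {η : ℝ} (hη : 0 < η)
    (hv : η ^ 2 * m < nm v) (hw : η ^ 2 * m < nm w) : (rf m v w : ℝ) ≤ 2 / η ^ 2 := by
  have h1 := (rf_pos h).2.2.2
  have hm := mem_adj.1 h
  have hvne : v ≠ 0 := Pr_ne (Uni_Pr_left hm.2.1)
  have hv0 : 0 < nm v := nm_pos hvne
  have hm0 : (0 : ℝ) < m := by
    have : 0 < m := lt_of_lt_of_le hv0 hm.1.1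
    exact_mod_cast this
  have h2 : η ^ 2 * (m : ℝ) ≤ √((nm v : ℝ) * nm w) := by
    apply Real.le_sqrt_of_sq_le
    rw [sq]
    exact mul_le_mul hv.le hw.le (by positivity) (Nat.cast_nonneg _)
  have h3 : (m : ℝ) / √((nm v : ℝ) * nm w) ≤ m / (η ^ 2 * m) :=
    div_le_div_of_nonneg_left hm0.le (by positivity) h2
  calc (rf m v w : ℝ) ≤ 2 * (m / √((nm v : ℝ) * nm w)) := h1
    _ ≤ 2 * (m / (η ^ 2 * m)) := by linarith
    _ = 2 / η ^ 2 := by field_simp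

/-- good pairs -/
def Uni_G (E : Finset GI) (η ρ : ℝ) (m : ℕ) (e : GI × GI) : Prop :=
  ∃ z ∈ E, (0 < e.1.re ∧ 0 < e.2.re) ∧ (η ^ 2 * m < nm e.1 ∧ η ^ 2 * m < nm e.2) ∧
    (sl e.1 ∈ Set.Ico (sl z - ρ / (z.re : ℝ) ^ 2) (sl z) ∧
      sl e.2 ∈ Set.Ico (sl z - ρ / (z.re : ℝ) ^ 2) (sl z))

/-- long pairs in the sector -/
noncomputable def Uni_L (η : ℝ) (m : ℕ) : Finset (GI × GI) :=
  open Classical in (adj m).filter (fun e => Uni_Q e.1 ∧ η ^ 2 * m < nm e.1 ∧ η ^ 2 * m < nm e.2)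

theorem Uni_L_geo {η : ℝ} {m : ℕ} (hm : 2 ≤ η ^ 2 * m) {e : GI × GI} (he : e ∈ Uni_L η m) :
    e ∈ adj m ∧ 0 < e.1.re ∧ 0 < e.2.re ∧ -1 < sl e.1 ∧ sl e.2 ≤ 1 ∧ sl e.1 < sl e.2 := by
  classical
  unfold Uni_L at he
  rw [mem_filter] at he
  obtain ⟨h1, h2, h3, h4⟩ := he
  have h5 : 2 < nm e.1 := by
    have : (2 : ℝ) < nm e.1 := by linarith
    exact_mod_cast this
  have h6 : 2 < nm e.2 := by
    have : (2 : ℝ) < nm e.2 := by linarith
    exact_mod_cast this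
  obtain ⟨h7, h8, h9, h10⟩ := Uni_geo (v := e.1) (w := e.2) h1 h2 h5 h6
  exact ⟨h1, h2.1, h7, h8, h9, h10⟩

/-- pairs crossing an end point -/
theorem Uni_B2 {η : ℝ} (hη : 0 < η) {m : ℕ} (hm : 2 ≤ η ^ 2 * m) (X : Finset ℝ) : open Classical in
    ∑ e ∈ (Uni_L η m).filter (fun e => ∃ x ∈ X, sl e.1 < x ∧ x ≤ sl e.2), (rf m e.1 e.2 : ℝ) ≤
      X.card * (2 / η ^ 2) := by
  classical
  set P := (Uni_L η m).filter (fun e => ∃ x ∈ X, sl e.1 < x ∧ x ≤ sl e.2) with hP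
  have h1 : P.card ≤ X.card := by
    have h2 : P ⊆ X.biUnion (fun x => P.filter (fun e => sl e.1 < x ∧ x ≤ sl e.2)) := by
      intro e he
      have he' := he
      rw [hP, mem_filter] at he
      obtain ⟨x, hx, hx2⟩ := he.2
      rw [mem_biUnion]
      exact ⟨x, hx, mem_filter.2 ⟨he', hx2⟩⟩
    have h3 := (card_le_card h2).trans card_biUnion_le
    have h4 : ∑ x ∈ X, (P.filter (fun e => sl e.1 < x ∧ x ≤ sl e.2)).card ≤ ∑ x ∈ X, 1 := by
      apply sum_le_sum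
      intro x _
      rw [card_le_one]
      intro e he e' he'
      rw [mem_filter, hP, mem_filter] at he he'
      have g := Uni_L_geo hm he.1.1
      have g' := Uni_L_geo hm he'.1.1
      exact Uni_disj g.1 g'.1 g.2.1 g.2.2.1 g'.2.1 g'.2.2.1 he.2 he'.2
    rw [sum_const, smul_eq_mul, mul_one] at h4
    exact h3.trans h4
  calc ∑ e ∈ P, (rf m e.1 e.2 : ℝ) ≤ ∑ e ∈ P, 2 / η ^ 2 := by
        apply sum_le_sum
        intro e he
        rw [hP, mem_filter] at he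
        unfold Uni_L at he
        rw [mem_filter] at he
        exact Uni_rf_long (v := e.1) (w := e.2) he.1.1 hη he.1.2.2.1 he.1.2.2.2
    _ = P.card * (2 / η ^ 2) := by rw [sum_const, nsmul_eq_mul]
    _ ≤ X.card * (2 / η ^ 2) := by
        apply mul_le_mul_of_nonneg_right _ (by positivity)
        exact_mod_cast h1

/-- pairs disjoint from all the arcs -/
theorem Uni_B3 {η ρ δ : ℝ} (hρ : 0 < ρ) {m : ℕ} (hm : 2 ≤ η ^ 2 * m) (E : Finset GI)
    (hE : ∀ e ∈ E, 0 < e.re ∧ -1 ≤ sl e - ρ / (e.re : ℝ) ^ 2 ∧ sl e ≤ 1)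
    (hd : ∀ e ∈ E, ∀ e' ∈ E, e ≠ e' → Disjoint (Set.Ico (sl e - ρ / (e.re : ℝ) ^ 2) (sl e))
        (Set.Ico (sl e' - ρ / (e'.re : ℝ) ^ 2) (sl e')))
    (ht : 2 - δ ≤ ∑ e ∈ E, ρ / (e.re : ℝ) ^ 2) (P : Finset (GI × GI)) (hP : P ⊆ Uni_L η m)
    (hPd : ∀ e ∈ P, ∀ z ∈ E, Disjoint (Set.Ioo (sl e.1) (sl e.2)) (Set.Ioo (sl z - ρ / (z.re : ℝ) ^ 2) (sl z))) :
    ∑ e ∈ P, (rf m e.1 e.2 : ℝ) ≤ 2 * m * δ := by
  classical
  have h1 : ∑ i ∈ P.disjSum E, ((Sum.elim (fun e : GI × GI => sl e.2) sl) i -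
      (Sum.elim (fun e : GI × GI => sl e.1) (fun z : GI => sl z - ρ / (z.re : ℝ) ^ 2)) i) ≤ 2 := by
    apply Uni_len
    · intro i hi
      rcases i with e | z
      · simp only [Sum.elim_inl]
        rw [inl_mem_disjSum] at hi
        exact (Uni_L_geo hm (hP hi)).2.2.2.2.2.le
      · simp only [Sum.elim_inr]
        have : 0 ≤ ρ / (z.re : ℝ) ^ 2 := by positivity
        linarith
    · intro i hi
      rcases i with e | z
      · simp only [Sum.elim_inl]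
        rw [inl_mem_disjSum] at hi
        exact (Uni_L_geo hm (hP hi)).2.2.2.1.le
      · simp only [Sum.elim_inr]
        rw [inr_mem_disjSum] at hi
        exact (hE z hi).2.1
    · intro i hi
      rcases i with e | z
      · simp only [Sum.elim_inl]
        rw [inl_mem_disjSum] at hi
        exact (Uni_L_geo hm (hP hi)).2.2.2.2.1
      · simp only [Sum.elim_inr]
        rw [inr_mem_disjSum] at hi
        exact (hE z hi).2.2
    · intro i hi j hj hij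
      rcases i with e | z <;> rcases j with e' | z'
      · simp only [Sum.elim_inl]
        rw [inl_mem_disjSum] at hi hj
        have g := Uni_L_geo hm (hP hi)
        have g' := Uni_L_geo hm (hP hj)
        rw [Set.disjoint_left]
        intro x hx hx'
        apply hij
        rw [Uni_disj g.1 g'.1 g.2.1 g.2.2.1 g'.2.1 g'.2.2.1 ⟨hx.1, hx.2.le⟩ ⟨hx'.1, hx'.2.le⟩]
      · simp only [Sum.elim_inl, Sum.elim_inr]
        rw [inl_mem_disjSum] at hi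
        rw [inr_mem_disjSum] at hj
        exact hPd e hi z' hj
      · simp only [Sum.elim_inl, Sum.elim_inr]
        rw [inr_mem_disjSum] at hi
        rw [inl_mem_disjSum] at hj
        exact (hPd e' hj z hi).symm
      · simp only [Sum.elim_inr]
        rw [inr_mem_disjSum] at hi hj
        have hne : z ≠ z' := fun h => hij (by rw [h])
        exact (hd z hi z' hj hne).mono Set.Ioo_subset_Ico_self Set.Ioo_subset_Ico_self
  rw [sum_disjSum] at h1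
  simp only [Sum.elim_inl, Sum.elim_inr, sub_sub_cancel] at h1
  calc ∑ e ∈ P, (rf m e.1 e.2 : ℝ) ≤ ∑ e ∈ P, 2 * m * (sl e.2 - sl e.1) := by
        apply sum_le_sum
        intro e he
        have g := Uni_L_geo hm (hP he)
        exact Uni_rf_sl (v := e.1) (w := e.2) g.1 g.2.1 g.2.2.1
    _ = 2 * m * ∑ e ∈ P, (sl e.2 - sl e.1) := by rw [mul_sum]
    _ ≤ 2 * m * δ := by
        apply mul_le_mul_of_nonneg_left _ (by positivity)
        linarith

/-- all the bad pairs of the sector -/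
theorem Uni_bad {η ρ δ : ℝ} (hη : 0 < η) (hη2 : η ≤ 1 / 2) (hρ : 0 < ρ) {m : ℕ} (hm : 2 ≤ η ^ 2 * m) (E : Finset GI)
    (hE : ∀ e ∈ E, 0 < e.re ∧ -1 ≤ sl e - ρ / (e.re : ℝ) ^ 2 ∧ sl e ≤ 1)
    (hd : ∀ e ∈ E, ∀ e' ∈ E, e ≠ e' → Disjoint (Set.Ico (sl e - ρ / (e.re : ℝ) ^ 2) (sl e))
        (Set.Ico (sl e' - ρ / (e'.re : ℝ) ^ 2) (sl e')))
    (ht : 2 - δ ≤ ∑ e ∈ E, ρ / (e.re : ℝ) ^ 2) : open Classical in
    ∑ e ∈ (adj m).filter (fun e => Uni_Q e.1 ∧ ¬ Uni_G E η ρ m e), (rf m e.1 e.2 : ℝ) ≤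
      96 * η * m + (2 * E.card) * (2 / η ^ 2) + 2 * m * δ := by
  classical
  set X : Finset ℝ := E.image (fun z => sl z - ρ / (z.re : ℝ) ^ 2) ∪ E.image sl with hX
  have hXc : (X.card : ℝ) ≤ 2 * E.card := by
    have h1 : X.card ≤ E.card + E.card := (card_union_le _ _).trans (add_le_add card_image_le card_image_le)
    have h2 : (X.card : ℝ) ≤ (E.card : ℝ) + E.card := by exact_mod_cast h1
    linarith
  set P1 := (adj m).filter (fun e => (nm e.1 : ℝ) ≤ η ^ 2 * m) with hP1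
  set P1' := (adj m).filter (fun e => (nm e.2 : ℝ) ≤ η ^ 2 * m) with hP1'
  set P2 := (Uni_L η m).filter (fun e => ∃ x ∈ X, sl e.1 < x ∧ x ≤ sl e.2) with hP2
  set P3 := (Uni_L η m).filter (fun e => (¬ ∃ x ∈ X, sl e.1 < x ∧ x ≤ sl e.2) ∧ ¬ Uni_G E η ρ m e) with hP3
  have hsub : (adj m).filter (fun e => Uni_Q e.1 ∧ ¬ Uni_G E η ρ m e) ⊆ (P1 ∪ P1') ∪ (P2 ∪ P3) := by
    intro e he
    rw [mem_filter] at he
    rw [mem_union, mem_union, mem_union]
    by_cases h1 : (nm e.1 : ℝ) ≤ η ^ 2 * m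
    · left; left; exact mem_filter.2 ⟨he.1, h1⟩
    by_cases h2 : (nm e.2 : ℝ) ≤ η ^ 2 * m
    · left; right; exact mem_filter.2 ⟨he.1, h2⟩
    right
    have hL : e ∈ Uni_L η m := by
      unfold Uni_L
      exact mem_filter.2 ⟨he.1, he.2.1, not_le.1 h1, not_le.1 h2⟩
    by_cases h3 : ∃ x ∈ X, sl e.1 < x ∧ x ≤ sl e.2
    · left; exact mem_filter.2 ⟨hL, h3⟩
    · right; exact mem_filter.2 ⟨hL, h3, he.2.2⟩
  have hnn : ∀ e : GI × GI, (0 : ℝ) ≤ (rf m e.1 e.2 : ℝ) := fun e => Nat.cast_nonneg _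
  have hun : ∀ A B : Finset (GI × GI), ∑ e ∈ A ∪ B, (rf m e.1 e.2 : ℝ) ≤
      ∑ e ∈ A, (rf m e.1 e.2 : ℝ) + ∑ e ∈ B, (rf m e.1 e.2 : ℝ) := by
    intro A B
    have := sum_union_inter (s₁ := A) (s₂ := B) (f := fun e : GI × GI => (rf m e.1 e.2 : ℝ))
    have h2 : 0 ≤ ∑ e ∈ A ∩ B, (rf m e.1 e.2 : ℝ) := sum_nonneg (fun e _ => hnn e)
    linarith
  have h0 : ∑ e ∈ (adj m).filter (fun e => Uni_Q e.1 ∧ ¬ Uni_G E η ρ m e), (rf m e.1 e.2 : ℝ) ≤
      ∑ e ∈ (P1 ∪ P1') ∪ (P2 ∪ P3), (rf m e.1 e.2 : ℝ) :=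
    sum_le_sum_of_subset_of_nonneg hsub (fun e _ _ => hnn e)
  have h1 := hun (P1 ∪ P1') (P2 ∪ P3)
  have h2 := hun P1 P1'
  have h3 := hun P2 P3
  have b1 := Uni_B1 m hη hη2
  have b1' := Uni_B1' m hη hη2
  have b2 := Uni_B2 hη hm X
  have b3 := Uni_B3 (δ := δ) hρ hm E hE hd ht P3 (filter_subset _ _) (by
    intro e he z hz
    rw [hP3, mem_filter] at he
    obtain ⟨heL, hx, hG⟩ := he
    have g := Uni_L_geo hm heL
    have hax : sl z - ρ / (z.re : ℝ) ^ 2 ∈ X := by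
      rw [hX, mem_union]; left; exact mem_image_of_mem _ hz
    have hbx : sl z ∈ X := by
      rw [hX, mem_union]; right; exact mem_image_of_mem _ hz
    rw [Set.disjoint_left]
    intro x hx1 hx2
    -- a ≤ sl v, since otherwise a is in (sl v, sl w]
    have ha : sl z - ρ / (z.re : ℝ) ^ 2 ≤ sl e.1 := by
      by_contra hc
      exact hx ⟨_, hax, not_le.1 hc, (hx2.1.le.trans hx1.2.le)⟩
    have hb : sl e.2 < sl z := by
      by_contra hc
      exact hx ⟨_, hbx, hx1.1.trans hx2.2, not_lt.1 hc⟩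
    apply hG
    unfold Uni_L at heL
    rw [mem_filter] at heL
    refine ⟨z, hz, ⟨g.2.1, g.2.2.1⟩, heL.2.2, ⟨ha, ?_⟩, ⟨?_, hb⟩⟩
    · linarith [g.2.2.2.2.2]
    · linarith [g.2.2.2.2.2])
  have hb2 : (X.card : ℝ) * (2 / η ^ 2) ≤ (2 * E.card) * (2 / η ^ 2) :=
    mul_le_mul_of_nonneg_right hXc (by positivity)
  linarith


/-- points of the sector outside the good set -/
theorem Uni_T_card (m : ℕ) (η ρ : ℝ) (E : Finset GI) : open Classical in
    (((Om m).filter (fun ω => Uni_Q ω.1 ∧ ω ∉ E.biUnion (arcs m η ρ))).card : ℝ) ≤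
      ∑ e ∈ (adj m).filter (fun e => Uni_Q e.1 ∧ ¬ Uni_G E η ρ m e), (rf m e.1 e.2 : ℝ) := by
  classical
  set P := (adj m).filter (fun e => Uni_Q e.1 ∧ ¬ Uni_G E η ρ m e) with hP
  have hsub : (Om m).filter (fun ω => Uni_Q ω.1 ∧ ω ∉ E.biUnion (arcs m η ρ)) ⊆
      P.biUnion (fun e => (range (rf m e.1 e.2)).image (fun t => (e.1, e.2, t))) := by
    intro ω hω
    rw [mem_filter] at hω
    obtain ⟨h1, h2, h3⟩ := hω
    have h4 := mem_Om.1 h1
    rw [mem_biUnion]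
    refine ⟨(ω.1, ω.2.1), ?_, ?_⟩
    · rw [hP, mem_filter]
      refine ⟨h4.1, h2, ?_⟩
      rintro ⟨z, hz, hg1, hg2, hg3⟩
      apply h3
      rw [mem_biUnion]
      refine ⟨z, hz, ?_⟩
      unfold arcs
      rw [mem_filter]
      exact ⟨h1, hg1, hg2, hg3⟩
    · rw [mem_image]
      exact ⟨ω.2.2, mem_range.2 h4.2, rfl⟩
  have h1 := card_le_card hsub
  have h2 : (P.biUnion (fun e => (range (rf m e.1 e.2)).image (fun t => (e.1, e.2, t)))).card ≤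
      ∑ e ∈ P, rf m e.1 e.2 := by
    apply card_biUnion_le.trans
    apply sum_le_sum
    intro e _
    exact card_image_le.trans (card_range _).le
  have h3 := h1.trans h2
  calc _ ≤ ((∑ e ∈ P, rf m e.1 e.2 : ℕ) : ℝ) := by exact_mod_cast h3
    _ = _ := by push_cast; rfl

theorem Uni_star_nm {u : GI} (hu : nm u = 1) : nm (star u) = 1 := by rw [nm_star, hu]

/-- complement of the saturated good set -/
theorem Uni_compl (m : ℕ) (η ρ : ℝ) (E : Finset GI) : open Classical in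
    (((Om m) \ (Om m).filter (fun ω => ∃ u ∈ Uni_U, Uni_rot u ω ∈ E.biUnion (arcs m η ρ))).card : ℝ) ≤
      4 * ∑ e ∈ (adj m).filter (fun e => Uni_Q e.1 ∧ ¬ Uni_G E η ρ m e), (rf m e.1 e.2 : ℝ) := by
  classical
  set T := (Om m).filter (fun ω => Uni_Q ω.1 ∧ ω ∉ E.biUnion (arcs m η ρ)) with hT
  have hsub : (Om m) \ (Om m).filter (fun ω => ∃ u ∈ Uni_U, Uni_rot u ω ∈ E.biUnion (arcs m η ρ)) ⊆
      Uni_U.biUnion (fun u => T.image (Uni_rot (star u))) := by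
    intro ω hω
    rw [mem_sdiff, mem_filter] at hω
    obtain ⟨h1, h2⟩ := hω
    have h4 := mem_Om.1 h1
    have hv : ω.1 ≠ 0 := Pr_ne (Uni_Pr_left (mem_adj.1 h4.1).2.1)
    obtain ⟨u, hu, hQ⟩ := Uni_sector hv
    rw [mem_biUnion]
    refine ⟨u, hu, ?_⟩
    rw [mem_image]
    refine ⟨Uni_rot u ω, ?_, Uni_rot_star (Uni_U_nm hu) ω⟩
    rw [hT, mem_filter]
    exact ⟨Uni_Om_rot (Uni_U_nm hu) h1, hQ, fun h => h2 ⟨h1, u, hu, h⟩⟩
  have h1 := card_le_card hsub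
  have h2 : (Uni_U.biUnion (fun u => T.image (Uni_rot (star u)))).card ≤ 4 * T.card := by
    calc _ ≤ ∑ u ∈ Uni_U, (T.image (Uni_rot (star u))).card := card_biUnion_le
      _ ≤ ∑ u ∈ Uni_U, T.card := sum_le_sum (fun u _ => card_image_le)
      _ = Uni_U.card * T.card := by rw [sum_const, smul_eq_mul]
      _ ≤ 4 * T.card := Nat.mul_le_mul_right _ Uni_U_card
  have h3 : (((Om m) \ (Om m).filter (fun ω => ∃ u ∈ Uni_U, Uni_rot u ω ∈ E.biUnion (arcs m η ρ))).card : ℝ) ≤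
      4 * (T.card : ℝ) := by exact_mod_cast h1.trans h2
  have h4 := Uni_T_card m η ρ E
  linarith

/-- fibres of the labels -/
theorem Uni_fib (S : Finset ℕ) (hS : ∀ p ∈ S, p.Prime ∧ p % 4 = 1) (η ρ : ℝ) (hη : 0 < η) (hη1 : η ≤ 1)
    (hρ : 0 < ρ) (hρ1 : ρ * (∏ p ∈ S, (p : ℝ)) ≤ η ^ 2) (m : ℕ) (hm : 1 ≤ m) (E : Finset GI)
    (hE : ∀ e ∈ E, Pr e ∧ 0 < e.re ∧ Nat.Coprime (nm e) (∏ p ∈ S, p) ∧
        -1 ≤ sl e - ρ / (e.re : ℝ) ^ 2 ∧ sl e ≤ 1)
    (hd : ∀ e ∈ E, ∀ e' ∈ E, e ≠ e' → Disjoint (Set.Ico (sl e - ρ / (e.re : ℝ) ^ 2) (sl e))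
        (Set.Ico (sl e' - ρ / (e'.re : ℝ) ^ 2) (sl e'))) (y : ℕ → ℕ) : open Classical in
    ((((Om m).filter (fun ω => ∃ u ∈ Uni_U, Uni_rot u ω ∈ E.biUnion (arcs m η ρ))).filter
      (fun ω => ∀ p ∈ S, yo ω p = y p)).card : ℝ) ≤ 32 * m / (∏ p ∈ S, (p : ℝ)) := by
  classical
  set M : ℝ := ∏ p ∈ S, (p : ℝ) with hM
  have hM0 : 0 < M := prod_pos (fun p hp => by exact_mod_cast (hS p hp).1.pos)
  set F := (E.biUnion (arcs m η ρ)).filter (fun ω => ∀ p ∈ S, yo ω p = y p) with hF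
  have hsub : ((Om m).filter (fun ω => ∃ u ∈ Uni_U, Uni_rot u ω ∈ E.biUnion (arcs m η ρ))).filter
      (fun ω => ∀ p ∈ S, yo ω p = y p) ⊆ Uni_U.biUnion (fun u => F.image (Uni_rot (star u))) := by
    intro ω hω
    rw [mem_filter, mem_filter] at hω
    obtain ⟨⟨h1, u, hu, h2⟩, h3⟩ := hω
    rw [mem_biUnion]
    refine ⟨u, hu, ?_⟩
    rw [mem_image]
    refine ⟨Uni_rot u ω, ?_, Uni_rot_star (Uni_U_nm hu) ω⟩
    rw [hF, mem_filter]
    refine ⟨h2, fun p hp => ?_⟩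
    rw [Uni_yo_rot (Uni_U_nm hu)]
    exact h3 p hp
  have h1 := card_le_card hsub
  have h2 : (Uni_U.biUnion (fun u => F.image (Uni_rot (star u)))).card ≤ 4 * F.card := by
    calc _ ≤ ∑ u ∈ Uni_U, (F.image (Uni_rot (star u))).card := card_biUnion_le
      _ ≤ ∑ u ∈ Uni_U, F.card := sum_le_sum (fun u _ => card_image_le)
      _ = Uni_U.card * F.card := by rw [sum_const, smul_eq_mul]
      _ ≤ 4 * F.card := Nat.mul_le_mul_right _ Uni_U_card
  have h3 : F ⊆ E.biUnion (fun e => (arcs m η ρ e).filter (fun ω => ∀ p ∈ S, yo ω p = y p)) := by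
    intro ω hω
    rw [hF, mem_filter, mem_biUnion] at hω
    obtain ⟨⟨e, he, h4⟩, h5⟩ := hω
    rw [mem_biUnion]
    exact ⟨e, he, mem_filter.2 ⟨h4, h5⟩⟩
  have h4 : (F.card : ℝ) ≤ ∑ e ∈ E, 4 * ρ * m / (M * (e.re : ℝ) ^ 2) := by
    have h5 := (card_le_card h3).trans card_biUnion_le
    calc (F.card : ℝ) ≤ ((∑ e ∈ E, ((arcs m η ρ e).filter (fun ω => ∀ p ∈ S, yo ω p = y p)).card : ℕ) : ℝ) := by
          exact_mod_cast h5
      _ = ∑ e ∈ E, ((((arcs m η ρ e).filter (fun ω => ∀ p ∈ S, yo ω p = y p)).card : ℕ) : ℝ) := by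
          push_cast; rfl
      _ ≤ _ := by
          apply sum_le_sum
          intro e he
          obtain ⟨g1, g2, g3, g4, g5⟩ := hE e he
          have := arc S hS η ρ hη hη1 hρ hρ1 e g1 g2 g3 g4 g5 m hm y
          convert this
  have h5 : ∑ e ∈ E, 4 * ρ * m / (M * (e.re : ℝ) ^ 2) = 4 * m / M * ∑ e ∈ E, ρ / (e.re : ℝ) ^ 2 := by
    rw [mul_sum]
    apply sum_congr rfl
    intro e he
    have : (0 : ℝ) < e.re := by exact_mod_cast (hE e he).2.1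
    field_simp
  have h6 : ∑ e ∈ E, ρ / (e.re : ℝ) ^ 2 ≤ 2 := by
    have h7 := Uni_len E (fun z => sl z - ρ / (z.re : ℝ) ^ 2) sl
      (fun z _ => by have : 0 ≤ ρ / (z.re : ℝ) ^ 2 := by positivity
                     linarith)
      (fun z hz => (hE z hz).2.2.2.1) (fun z hz => (hE z hz).2.2.2.2)
      (fun z hz z' hz' hne => (hd z hz z' hz' hne).mono Set.Ioo_subset_Ico_self Set.Ioo_subset_Ico_self)
    simpa using h7
  have h7 : (F.card : ℝ) ≤ 8 * m / M := by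
    calc (F.card : ℝ) ≤ 4 * m / M * ∑ e ∈ E, ρ / (e.re : ℝ) ^ 2 := by rw [← h5]; exact h4
      _ ≤ 4 * m / M * 2 := mul_le_mul_of_nonneg_left h6 (by positivity)
      _ = 8 * m / M := by ring
  have h8 : ((((Om m).filter (fun ω => ∃ u ∈ Uni_U, Uni_rot u ω ∈ E.biUnion (arcs m η ρ))).filter
      (fun ω => ∀ p ∈ S, yo ω p = y p)).card : ℝ) ≤ 4 * (F.card : ℝ) := by exact_mod_cast h1.trans h2
  calc _ ≤ 4 * (F.card : ℝ) := h8
    _ ≤ 4 * (8 * m / M) := by linarith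
    _ = 32 * m / M := by ring

theorem uni : ∃ C0 : ℝ, 0 < C0 ∧ ∀ S : Finset ℕ, (∀ p ∈ S, p.Prime ∧ p % 4 = 1) → ∀ δ : ℝ, 0 < δ → δ < 1 →
    ∃ m0 : ℕ, ∀ m : ℕ, m0 ≤ m →
    (1 - δ) * (∑ p ∈ S, Real.log p - C0) ≤ ent (Om m) (fun ω => rst S (yo ω)) := by
  classical
  obtain ⟨c, C, hc, hC, hOm⟩ := Om_card
  refine ⟨|Real.log (32 / c)| + Real.log 2, by
    have : 0 < Real.log 2 := Real.log_pos (by norm_num)
    positivity, ?_⟩
  intro S hS δ hδ hδ1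
  set C0 : ℝ := |Real.log (32 / c)| + Real.log 2 with hC0
  by_cases hL : ∑ p ∈ S, Real.log p ≤ C0
  · refine ⟨0, fun m _ => ?_⟩
    have h1 := ent_nonneg (Om m) (fun ω => rst S (yo ω))
    nlinarith
  push Not at hL
  have hMpos : 0 < ∏ p ∈ S, p := prod_pos (fun p hp => (hS p hp).1.pos)
  have hM1 : 1 ≤ ∏ p ∈ S, p := hMpos
  have hMc : ((∏ p ∈ S, p : ℕ) : ℝ) = ∏ p ∈ S, (p : ℝ) := by push_cast; rfl
  have hMR : (0 : ℝ) < ∏ p ∈ S, (p : ℝ) := by rw [← hMc]; exact_mod_cast hMpos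
  have hlogM : Real.log (∏ p ∈ S, (p : ℝ)) = ∑ p ∈ S, Real.log p := by
    rw [Real.log_prod]
    intro p hp
    have := (hS p hp).1.ne_zero
    exact_mod_cast this
  obtain ⟨δ₁, hδ₁, hδ₁δ, hδ₁2⟩ : ∃ δ₁ : ℝ, 0 < δ₁ ∧ δ₁ ≤ δ ∧ δ₁ ≤ 1 / 2 :=
    ⟨min δ (1 / 2), lt_min hδ (by norm_num), min_le_left _ _, min_le_right _ _⟩
  obtain ⟨η, hη, hη2, hηc⟩ : ∃ η : ℝ, 0 < η ∧ η ≤ 1 / 2 ∧ η ≤ δ₁ * c / 1536 :=
    ⟨min (1 / 2) (δ₁ * c / 1536), lt_min (by norm_num) (by positivity), min_le_left _ _, min_le_right _ _⟩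
  set ρ : ℝ := η ^ 2 / ∏ p ∈ S, (p : ℝ) with hρd
  have hρ : 0 < ρ := by positivity
  have hρ1 : ρ * (∏ p ∈ S, (p : ℝ)) ≤ η ^ 2 := by
    rw [hρd, div_mul_cancel₀ _ hMR.ne']
  obtain ⟨E, hE, hd, ht⟩ := cov (∏ p ∈ S, p) hM1 ρ hρ (δ₁ * c / 32) (by positivity)
  refine ⟨max ⌈2 / η ^ 2⌉₊ ⌈64 * E.card / (η ^ 2 * (δ₁ * c))⌉₊ + 1, ?_⟩
  intro m hm
  have hm1 : 1 ≤ m := by omega
  have hma : 2 / η ^ 2 ≤ m := by
    have h1 : ⌈2 / η ^ 2⌉₊ ≤ m := by
      have := le_max_left ⌈2 / η ^ 2⌉₊ ⌈64 * E.card / (η ^ 2 * (δ₁ * c))⌉₊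
      omega
    exact (Nat.le_ceil _).trans (by exact_mod_cast h1)
  have hmb : 64 * E.card / (η ^ 2 * (δ₁ * c)) ≤ m := by
    have h1 : ⌈64 * E.card / (η ^ 2 * (δ₁ * c))⌉₊ ≤ m := by
      have := le_max_right ⌈2 / η ^ 2⌉₊ ⌈64 * E.card / (η ^ 2 * (δ₁ * c))⌉₊
      omega
    exact (Nat.le_ceil _).trans (by exact_mod_cast h1)
  have hm2 : 2 ≤ η ^ 2 * m := by
    rw [div_le_iff₀ (by positivity)] at hma
    linarith
  have hm3 : 16 * E.card / η ^ 2 ≤ δ₁ * c * m / 4 := by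
    rw [div_le_iff₀ (by positivity)] at hmb ⊢
    nlinarith
  have hmR : (0 : ℝ) < m := by exact_mod_cast hm1
  obtain ⟨hn1, hn2⟩ := hOm m hm1
  have hn0 : (0 : ℝ) < (Om m).card := by
    have : 0 < c * m := by positivity
    linarith
  set s' := (Om m).filter (fun ω => ∃ u ∈ Uni_U, Uni_rot u ω ∈ E.biUnion (arcs m η ρ)) with hs'
  have hs's : s' ⊆ Om m := filter_subset _ _
  have hcompl := Uni_compl m η ρ E
  have hbad := Uni_bad (δ := δ₁ * c / 32) hη hη2 hρ hm2 E (fun e he => ⟨(hE e he).2.1, (hE e he).2.2.2.1, (hE e he).2.2.2.2⟩)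
    hd ht
  have hcard : (((Om m) \ s').card : ℝ) = (Om m).card - s'.card := by
    rw [card_sdiff_of_subset hs's, Nat.cast_sub (card_le_card hs's)]
  have hsmall : (((Om m) \ s').card : ℝ) ≤ δ₁ * (Om m).card := by
    have h1 : (((Om m) \ s').card : ℝ) ≤ 4 * (96 * η * m + (2 * E.card) * (2 / η ^ 2) + 2 * m * (δ₁ * c / 32)) := by
      refine hcompl.trans ?_
      linarith
    have h2 : 4 * (96 * η * m) ≤ δ₁ * c * m / 4 := by
      have := mul_le_mul_of_nonneg_right hηc hmR.le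
      linarith
    have h3 : 4 * ((2 * (E.card : ℝ)) * (2 / η ^ 2)) = 16 * E.card / η ^ 2 := by ring
    have h4 : δ₁ * (c * m) ≤ δ₁ * (Om m).card := mul_le_mul_of_nonneg_left hn1 hδ₁.le
    have h5 : 4 * (2 * m * (δ₁ * c / 32)) = δ₁ * c * m / 4 := by ring
    have h6 : 0 ≤ δ₁ * c * m := by positivity
    linarith
  have hθ : 1 - δ₁ ≤ (s'.card : ℝ) / (Om m).card := by
    rw [le_div_iff₀ hn0]
    linarith
  have hs'ne : s'.Nonempty := by
    rw [← card_pos]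
    have h1 : (0 : ℝ) < (s'.card : ℝ) / (Om m).card := by linarith
    have h2 : (0 : ℝ) < s'.card := by
      rcases (div_pos_iff.1 h1) with h | h
      · exact h.1
      · exfalso; linarith [h.2]
    exact_mod_cast h2
  have hκ : 0 < 32 / (c * ∏ p ∈ S, (p : ℝ)) := by positivity
  have hge := ent_ge (Om m) s' hs's hs'ne (fun ω => rst S (yo ω)) (32 / (c * ∏ p ∈ S, (p : ℝ))) hκ (by
    intro a ha
    have h1 := Uni_fib S hS η ρ hη (by linarith) hρ hρ1 m hm1 E hE hd (yo a)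
    have h2 : s'.filter (fun a' => rst S (yo a') = rst S (yo a)) ⊆
        s'.filter (fun ω => ∀ p ∈ S, yo ω p = yo a p) := by
      intro ω hω
      rw [mem_filter] at hω ⊢
      refine ⟨hω.1, fun p hp => ?_⟩
      have h3 := congr_fun hω.2 p
      unfold rst at h3
      rw [if_pos hp, if_pos hp] at h3
      exact h3
    have h3 : ((s'.filter (fun a' => rst S (yo a') = rst S (yo a))).card : ℝ) ≤
        (s'.filter (fun ω => ∀ p ∈ S, yo ω p = yo a p)).card := by exact_mod_cast card_le_card h2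
    have h4 : 32 * m / (∏ p ∈ S, (p : ℝ)) ≤ 32 / (c * ∏ p ∈ S, (p : ℝ)) * (Om m).card := by
      rw [div_mul_eq_mul_div, div_le_div_iff₀ hMR (by positivity)]
      have := mul_le_mul_of_nonneg_left hn1 hMR.le
      nlinarith
    have h5 : ((s'.filter (fun ω => ∀ p ∈ S, yo ω p = yo a p)).card : ℝ) ≤ 32 * m / (∏ p ∈ S, (p : ℝ)) := by
      convert h1
    have h6 := h3.trans (h5.trans h4)
    convert h6)
  refine le_trans ?_ hge
  have hlog1 : Real.log (1 / (32 / (c * ∏ p ∈ S, (p : ℝ)))) = ∑ p ∈ S, Real.log p - Real.log (32 / c) := by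
    rw [← hlogM, ← Real.log_div hMR.ne' (by positivity)]
    congr 1
    field_simp
  have hlog2 : -Real.log 2 ≤ Real.log ((s'.card : ℝ) / (Om m).card) := by
    rw [← Real.log_inv]
    apply Real.log_le_log (by norm_num)
    have : (2 : ℝ)⁻¹ = 1 / 2 := by norm_num
    rw [this]
    linarith
  have habs := le_abs_self (Real.log (32 / c))
  rw [hlog1]
  have hmain : ∑ p ∈ S, Real.log p - C0 ≤ ∑ p ∈ S, Real.log p - Real.log (32 / c) +
      Real.log ((s'.card : ℝ) / (Om m).card) := by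
    rw [hC0]; linarith
  apply mul_le_mul _ hmain (by linarith) (by positivity)
  linarith

end Pool.Agent.FCH
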