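import Pool.Agent.FCH.Gst
import Pool.Agent.FCH.Uni
import Pool.Agent.FCH.SyE
import Pool.Agent.FCH.PrA

set_option autoImplicit false

/-! Module Prm: choice of the parameters, entropy decrement applied to the system.
`dfc_nonneg`: `ent (X, Y_S) ≤ ent X + ent Y_S` (`ent_pair_le`), `ent Y_S ≤ ∑ log(p+1)` (`ent_le_log`: the image of `rst S (yo ·)` has at most `∏ (p+1)` elements, `yo_lt`).
`prm`: let `E` be the constant of `sy_ent`, `C0` of `uni`, `c, P0'` of `GA A`.  `P_j = A^j P₀`, `H_j = A^j H₀`, `H₀ = ⌈8 b A P₀⌉ + 2`, `S_j = pr A P_j` (disjoint: `pr_disj`).  `|S_j| ≥ c P_j/log P_j ≥ c P₀/log P₀` (for `P₀ ≥ 3`), `|S_j| ≤ A P_j ≤ H_j`.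
`∑_j |S_j|/H_j ≥ (c P₀/H₀) ∑_j 1/(log P₀ + j log A) = ∞`.  Let `K = 4E/ε`, and `J ≥ 1` minimal with `∑_{j<J} |S_j|/H_j ≥ K`; then the sum is `≤ K + 1`.  `S = ⋃_{j<J} S_j`: `∑_{p ∈ S} 1/p ≤ ∑_j |S_j|/P_j ≤ (H₀/P₀)(K+1) ≤ (8bA+3)(K+1)`.
`P₀` is chosen at the beginning so large that `(8bA+3)(K+1) + C0 + 1 ≤ (ε/4) c P₀/log P₀`.  `δ` (for `uni`) with `δ ∑_{p∈S} log p ≤ 1`.  Then for `m ≥ m1`:
`DY = ∑_{p ∈ S} log(p+1) - H(Y_S) ≤ ∑ 1/p + C0 + δ∑log p ≤ (ε/4)|S_j|` for all `j`, and by `decr` (`s = Om m`, `T = Tm m`, `f = sy F b q m`, `Y = yo`, `N p = p + 1`; `Tm_mem`, `Tm_inj`, `yo_lt`, `sy_next`; `Om m` non-empty: `Om_card`)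
`∑_{j<J} (1/H_j) dfc_j(m) ≤ E + ∑_j (1/H_j)(ε/4)|S_j| ≤ (ε/2) ∑_j |S_j|/H_j`.
Sum over `m ∈ [m1, X]` with weights `1/m` and pigeonhole over `j`. -/

open Finset

namespace Pool.Agent.FCH

open Pool.Agent.MRS hiding Good

/-- the labels in a set `S` of primes `≡ 1 (mod 4)` take at most `∏ (p+1)` values -/
theorem Prm_card_image (m : ℕ) (S : Finset ℕ) (hS : ∀ p ∈ S, p.Prime ∧ p % 4 = 1) :
    open Classical in ((Om m).image (fun ω => rst S (yo ω))).card ≤ ∏ p ∈ S, (p + 1) := by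
  classical
  have h1 : (S.pi (fun p => range (p + 1))).card = ∏ p ∈ S, (p + 1) := by
    rw [card_pi]
    simp
  rw [← h1]
  refine card_le_card_of_injOn (fun f p _ => f p) ?_ ?_
  · intro f hf
    simp only [coe_image, Set.mem_image, mem_coe] at hf
    obtain ⟨ω, hω, rfl⟩ := hf
    simp only [mem_coe, mem_pi, mem_range]
    intro p hp
    have h2 := hS p hp
    simp only [rst, if_pos hp]
    exact yo_lt h2.1 h2.2 hω
  · intro f hf g hg hfg
    simp only [coe_image, Set.mem_image, mem_coe] at hf hg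
    obtain ⟨ω, hω, rfl⟩ := hf
    obtain ⟨ω', hω', rfl⟩ := hg
    funext p
    by_cases hp : p ∈ S
    · exact congrFun (congrFun hfg p) hp
    · simp only [rst, if_neg hp]

theorem Prm_ent_le (m : ℕ) (S : Finset ℕ) (hS : ∀ p ∈ S, p.Prime ∧ p % 4 = 1) :
    ent (Om m) (fun ω => rst S (yo ω)) ≤ ∑ p ∈ S, Real.log ((p + 1 : ℕ) : ℝ) := by
  have h1 : 1 ≤ ∏ p ∈ S, (p + 1) := Nat.one_le_iff_ne_zero.2 (prod_ne_zero_iff.2 fun p _ => Nat.succ_ne_zero p)
  refine (ent_le_log (Om m) _ _ h1 (Prm_card_image m S hS)).trans (le_of_eq ?_)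
  rw [Nat.cast_prod, Real.log_prod]
  intro p _
  positivity

theorem dfc_nonneg (F : GI → ℂ) (b : ℝ) (q m A P H : ℕ) : 0 ≤ dfc F b q m A P H := by
  unfold dfc
  have h1 := ent_pair_le (Om m) (wrd (Tm m) (sy F b q m) H) (fun ω => rst (pr A P) (yo ω))
  have h2 := Prm_ent_le m (pr A P) (fun p hp => (mem_pr.1 hp).2)
  linarith

/-- `x / log x` is monotone on `[3, ∞)` -/
theorem Prm_mono {x y : ℝ} (hx : 3 ≤ x) (hxy : x ≤ y) : x / Real.log x ≤ y / Real.log y := by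
  have he : Real.exp 1 ≤ x := (Real.exp_one_lt_three.le).trans hx
  have h1 := Real.log_div_self_antitoneOn (show x ∈ {x | Real.exp 1 ≤ x} from he)
    (show y ∈ {x | Real.exp 1 ≤ x} from he.trans hxy) hxy
  have hx1 : 0 < Real.log x := Real.log_pos (by linarith)
  have hy1 : 0 < Real.log y := Real.log_pos (by linarith)
  have h2 : 0 < Real.log y / y := div_pos hy1 (by linarith)
  have h3 := one_div_le_one_div_of_le h2 h1
  rwa [one_div_div, one_div_div] at h3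

/-- `x / log x → ∞` along the integers -/
theorem Prm_large (R : ℝ) (N : ℕ) : ∃ P : ℕ, N ≤ P ∧ R ≤ (P : ℝ) / Real.log P := by
  have h0 : Filter.Tendsto (fun x : ℝ => Real.log x / x) Filter.atTop (nhds 0) := by
    simpa using Real.tendsto_pow_log_div_mul_add_atTop 1 0 1 one_ne_zero
  have h1 : Filter.Tendsto (fun n : ℕ => Real.log n / n) Filter.atTop (nhds 0) :=
    h0.comp tendsto_natCast_atTop_atTop
  have h2 : ∀ᶠ n : ℕ in Filter.atTop, Real.log n / n < 1 / (|R| + 1) :=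
    h1.eventually_lt_const (by positivity)
  obtain ⟨P, hP, hP1⟩ := (h2.and (Filter.eventually_ge_atTop (max N 3))).exists
  refine ⟨P, (le_max_left _ _).trans hP1, ?_⟩
  have hP3 : (3 : ℝ) ≤ P := by exact_mod_cast (le_max_right _ _).trans hP1
  have hl : 0 < Real.log P := Real.log_pos (by linarith)
  rw [div_lt_div_iff₀ (by linarith) (by positivity)] at hP
  rw [le_div_iff₀ hl]
  have := le_abs_self R
  nlinarith

/-- divergence of `∑ 1 / (a + j d)` -/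
theorem Prm_div (a d : ℝ) (ha : 0 < a) (hd : 0 < d) (K : ℝ) :
    ∃ J : ℕ, K ≤ ∑ j ∈ range J, 1 / (a + j * d) := by
  have h1 : Filter.Tendsto (fun n : ℕ => ∑ i ∈ range n, (1 : ℝ) / ((i : ℝ) + 1)) Filter.atTop Filter.atTop :=
    Real.tendsto_sum_range_one_div_nat_succ_atTop
  obtain ⟨J, hJ⟩ := (h1.eventually_ge_atTop (K * (a + d))).exists
  refine ⟨J, ?_⟩
  have h2 : (1 / (a + d)) * ∑ i ∈ range J, (1 : ℝ) / ((i : ℝ) + 1) ≤ ∑ j ∈ range J, 1 / (a + j * d) := by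
    rw [mul_sum]
    refine sum_le_sum fun i _ => ?_
    rw [one_div_mul_one_div]
    refine one_div_le_one_div_of_le (by positivity) ?_
    have : (0 : ℝ) ≤ i := Nat.cast_nonneg i
    nlinarith [mul_nonneg this ha.le]
  refine le_trans ?_ h2
  rw [one_div, ← div_eq_inv_mul, le_div_iff₀ (by positivity)]
  exact hJ

theorem Prm_card_le (A P : ℕ) : (pr A P).card ≤ A * P := by
  unfold pr
  refine (card_filter_le _ _).trans ?_
  rw [Nat.card_Ioc]
  omega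

theorem Prm_sum_inv (A P : ℕ) (hP : 1 ≤ P) : ∑ p ∈ pr A P, (1 : ℝ) / p ≤ (pr A P).card / P := by
  have hP' : (0 : ℝ) < P := by exact_mod_cast hP
  calc ∑ p ∈ pr A P, (1 : ℝ) / p ≤ ∑ p ∈ pr A P, (1 : ℝ) / P := by
        refine sum_le_sum fun p hp => ?_
        have h1 : P < p := (mem_pr.1 hp).1.1
        exact one_div_le_one_div_of_le hP' (by exact_mod_cast h1.le)
    _ = (pr A P).card / P := by
        rw [sum_const, nsmul_eq_mul, mul_one_div]

/-- pigeonhole -/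
theorem Prm_pigeon (J : ℕ) (hJ : 1 ≤ J) (I : Finset ℕ) (w : ℕ → ℝ) (hw : ∀ m ∈ I, 0 ≤ w m) (h s : ℕ → ℝ)
    (hh : ∀ j, 0 < h j) (hs : ∀ j, 0 ≤ s j) (d : ℕ → ℕ → ℝ) (ε : ℝ) (hε : 0 < ε)
    (hd : ∀ m ∈ I, ∑ j ∈ range J, (1 / h j) * d m j ≤ (ε / 2) * ∑ j ∈ range J, s j / h j) :
    ∃ j < J, ∑ m ∈ I, w m * d m j ≤ ε * s j * ∑ m ∈ I, w m := by
  by_contra hcon
  push Not at hcon
  set W : ℝ := ∑ m ∈ I, w m with hW
  have hW0 : 0 ≤ W := sum_nonneg fun m hm => hw m hm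
  have h1 : ∑ m ∈ I, w m * ∑ j ∈ range J, (1 / h j) * d m j ≤ W * ((ε / 2) * ∑ j ∈ range J, s j / h j) := by
    rw [hW, sum_mul]
    exact sum_le_sum fun m hm => mul_le_mul_of_nonneg_left (hd m hm) (hw m hm)
  have h2 : ∑ m ∈ I, w m * ∑ j ∈ range J, (1 / h j) * d m j =
      ∑ j ∈ range J, (1 / h j) * ∑ m ∈ I, w m * d m j := by
    simp only [mul_sum]
    rw [sum_comm]
    refine sum_congr rfl fun j _ => sum_congr rfl fun m _ => ?_
    ring
  have h3 : ∑ j ∈ range J, (1 / h j) * (ε * s j * W) < ∑ j ∈ range J, (1 / h j) * ∑ m ∈ I, w m * d m j := by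
    refine sum_lt_sum_of_nonempty ⟨0, mem_range.2 hJ⟩ fun j hj => ?_
    exact mul_lt_mul_of_pos_left (hcon j (mem_range.1 hj)) (one_div_pos.2 (hh j))
  have h4 : ∑ j ∈ range J, (1 / h j) * (ε * s j * W) = ε * W * ∑ j ∈ range J, s j / h j := by
    rw [mul_sum]
    refine sum_congr rfl fun j _ => ?_
    ring
  rw [h2] at h1
  rw [h4] at h3
  have h5 : 0 ≤ ∑ j ∈ range J, s j / h j := sum_nonneg fun j _ => div_nonneg (hs j) (hh j).le
  have h6 : 0 ≤ ε * W * ∑ j ∈ range J, s j / h j := by positivity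
  nlinarith

theorem prm (b : ℝ) (hb : 1 < b) (A : ℕ) (hA : GA A) (q : ℕ) (hq : 1 ≤ q) (k : ℕ) (hk : 1 ≤ k) (ε : ℝ)
    (hε : 0 < ε) (P1 : ℕ) : ∃ P₀ H₀ J m1 : ℕ, P1 ≤ P₀ ∧ 2 ≤ P₀ ∧ 1 ≤ J ∧ 1 ≤ m1 ∧ 8 * b * (A * P₀ : ℕ) + 2 ≤ H₀ ∧
    ∀ F : GI → ℂ, (∃ V : Finset ℂ, V.card ≤ k ∧ ∀ z, F z ∈ V) → ∀ X : ℕ, m1 ≤ X → ∃ j < J,
      ∑ m ∈ Icc m1 X, (1 / (m : ℝ)) * dfc F b q m A (A ^ j * P₀) (A ^ j * H₀) ≤
        ε * (pr A (A ^ j * P₀)).card * ∑ m ∈ Icc m1 X, (1 / (m : ℝ)) := by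
  classical
  obtain ⟨E, hE, hsy⟩ := sy_ent k q hk hq
  obtain ⟨C0, hC0, huni⟩ := uni
  obtain ⟨hA2, c, hc, P0', hP0', hGA⟩ := hA
  obtain ⟨cO, CO, hcO, hCO, hOm⟩ := Om_card
  have hA2' : (2 : ℝ) ≤ A := by exact_mod_cast hA2
  set K : ℝ := 4 * E / ε with hK
  have hKpos : 0 < K := by positivity
  have hb0 : 0 < b := by linarith
  set R : ℝ := ((8 * b * A + 3) * (K + 1) + C0 + 1) * (4 / (ε * c)) with hR
  obtain ⟨P₀, hP₀N, hP₀R⟩ := Prm_large R (P1 + P0' + 3)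
  have hP₀3 : (3 : ℝ) ≤ P₀ := by
    have : 3 ≤ P₀ := by omega
    exact_mod_cast this
  have hP₀1 : P1 ≤ P₀ := by omega
  have hP₀' : P0' ≤ P₀ := by omega
  have hlog0 : 0 < Real.log P₀ := Real.log_pos (by linarith)
  have hlogA : 0 < Real.log A := Real.log_pos (by linarith)
  set H₀ : ℕ := ⌈8 * b * (A * P₀ : ℕ)⌉₊ + 2 with hH₀
  have hH₀1 : 8 * b * (A * P₀ : ℕ) + 2 ≤ (H₀ : ℝ) := by
    rw [hH₀]; push_cast
    have := Nat.le_ceil (8 * b * (A * P₀ : ℕ))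
    push_cast at this
    linarith
  have hAP : (0 : ℝ) ≤ 8 * b * (A * P₀ : ℕ) := by positivity
  have hH₀2 : (H₀ : ℝ) ≤ 8 * b * (A * P₀ : ℕ) + 3 := by
    rw [hH₀]; push_cast
    have := (Nat.ceil_lt_add_one hAP).le
    push_cast at this
    linarith
  have hH₀pos : (0 : ℝ) < H₀ := by linarith
  have hP₀pos : (0 : ℝ) < P₀ := by linarith
  have hHP : (H₀ : ℝ) / P₀ ≤ 8 * b * A + 3 := by
    rw [div_le_iff₀ hP₀pos]
    push_cast at hH₀2
    nlinarith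
  -- the sets `S j`
  set S : ℕ → Finset ℕ := fun j => pr A (A ^ j * P₀) with hS
  have hpow : ∀ j : ℕ, 1 ≤ A ^ j := fun j => Nat.one_le_pow _ _ (by omega)
  have hPj : ∀ j : ℕ, P₀ ≤ A ^ j * P₀ := fun j => Nat.le_mul_of_pos_left _ (hpow j)
  have hScard : ∀ j : ℕ, c * ((A ^ j * P₀ : ℕ) : ℝ) / Real.log ((A ^ j * P₀ : ℕ) : ℝ) ≤ ((S j).card : ℝ) :=
    fun j => hGA _ (hP₀'.trans (hPj j))
  have hScard0 : ∀ j : ℕ, c * ((P₀ : ℝ) / Real.log P₀) ≤ ((S j).card : ℝ) := by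
    intro j
    refine le_trans ?_ (hScard j)
    rw [mul_div_assoc]
    refine mul_le_mul_of_nonneg_left (Prm_mono hP₀3 ?_) hc.le
    exact_mod_cast hPj j
  have hHj : ∀ j : ℕ, ((A ^ j * H₀ : ℕ) : ℝ) = (A : ℝ) ^ j * H₀ := fun j => by push_cast; ring
  have hApow : ∀ j : ℕ, (0 : ℝ) < (A : ℝ) ^ j := fun j => by positivity
  set u : ℕ → ℝ := fun j => ((S j).card : ℝ) / ((A ^ j * H₀ : ℕ) : ℝ) with hu
  have hu0 : ∀ j, 0 ≤ u j := fun j => by simp only [hu]; positivity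
  have hu1 : ∀ j, u j ≤ 1 := by
    intro j
    simp only [hu]
    rw [hHj, div_le_one (mul_pos (hApow j) hH₀pos)]
    have h1 : ((S j).card : ℝ) ≤ ((A * (A ^ j * P₀) : ℕ) : ℝ) := by
      exact_mod_cast Prm_card_le A (A ^ j * P₀)
    have h2 : ((A * (A ^ j * P₀) : ℕ) : ℝ) = (A : ℝ) ^ j * ((A * P₀ : ℕ) : ℝ) := by push_cast; ring
    rw [h2] at h1
    refine h1.trans (mul_le_mul_of_nonneg_left ?_ (hApow j).le)
    have h3 : (0 : ℝ) ≤ ((A * P₀ : ℕ) : ℝ) := Nat.cast_nonneg _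
    nlinarith
  have hulow : ∀ j : ℕ, (c * P₀ / H₀) * (1 / (Real.log P₀ + j * Real.log A)) ≤ u j := by
    intro j
    simp only [hu]
    rw [hHj, le_div_iff₀ (mul_pos (hApow j) hH₀pos)]
    refine le_trans (le_of_eq ?_) (hScard j)
    have h1 : Real.log ((A ^ j * P₀ : ℕ) : ℝ) = Real.log P₀ + j * Real.log A := by
      push_cast
      rw [Real.log_mul (hApow j).ne' hP₀pos.ne', Real.log_pow]
      ring
    rw [h1]
    push_cast
    have h2 : 0 < Real.log P₀ + j * Real.log A := by positivity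
    field_simp
  have hex : ∃ J : ℕ, K ≤ ∑ j ∈ range J, u j := by
    obtain ⟨J, hJ⟩ := Prm_div (Real.log P₀) (Real.log A) hlog0 hlogA (K / (c * P₀ / H₀))
    refine ⟨J, ?_⟩
    have h1 : 0 < c * P₀ / H₀ := by positivity
    rw [div_le_iff₀ h1] at hJ
    refine hJ.trans ?_
    rw [mul_comm, mul_sum]
    exact sum_le_sum fun j _ => hulow j
  set J : ℕ := Nat.find hex with hJ
  have hJK : K ≤ ∑ j ∈ range J, u j := Nat.find_spec hex
  have hJ1 : 1 ≤ J := by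
    rw [Nat.one_le_iff_ne_zero]
    intro h0
    rw [h0, range_zero, sum_empty] at hJK
    linarith
  have hJK1 : ∑ j ∈ range J, u j ≤ K + 1 := by
    obtain ⟨J', hJ'⟩ : ∃ J', J = J' + 1 := ⟨J - 1, by omega⟩
    have h1 : ¬ K ≤ ∑ j ∈ range J', u j := Nat.find_min hex (by rw [← hJ]; omega)
    rw [hJ', sum_range_succ]
    have := hu1 J'
    linarith
  -- the union
  set U : Finset ℕ := (range J).biUnion S with hU
  have hUp : ∀ p ∈ U, p.Prime ∧ p % 4 = 1 := by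
    intro p hp
    obtain ⟨j, _, hj⟩ := mem_biUnion.1 hp
    exact (mem_pr.1 hj).2
  have hdisj : ∀ i j, i ≠ j → Disjoint (S i) (S j) := fun i j hij => pr_disj A P₀ hA2 i j hij
  have hUinv : ∑ p ∈ U, (1 : ℝ) / p ≤ (8 * b * A + 3) * (K + 1) := by
    rw [hU, sum_biUnion (fun i _ j _ hij => hdisj i j hij)]
    calc ∑ j ∈ range J, ∑ p ∈ S j, (1 : ℝ) / p ≤ ∑ j ∈ range J, (8 * b * A + 3) * u j := by
          refine sum_le_sum fun j _ => ?_
          refine (Prm_sum_inv A (A ^ j * P₀) ?_).trans ?_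
          · have := hPj j
            omega
          · have h1 : ((S j).card : ℝ) / ((A ^ j * P₀ : ℕ) : ℝ) = (H₀ / P₀) * u j := by
              simp only [hu]
              rw [hHj]
              push_cast
              field_simp
            rw [h1]
            exact mul_le_mul_of_nonneg_right hHP (hu0 j)
      _ = (8 * b * A + 3) * ∑ j ∈ range J, u j := by rw [mul_sum]
      _ ≤ (8 * b * A + 3) * (K + 1) := by
          refine mul_le_mul_of_nonneg_left hJK1 ?_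
          positivity
  -- `δ`
  set Lg : ℝ := ∑ p ∈ U, Real.log p with hLg
  have hLg0 : 0 ≤ Lg := sum_nonneg fun p hp => Real.log_nonneg (by
    exact_mod_cast (hUp p hp).1.one_lt.le)
  set δ : ℝ := 1 / (Lg + 2) with hδ
  have hδ0 : 0 < δ := by positivity
  have hδ1 : δ < 1 := by
    rw [hδ, div_lt_one (by positivity)]
    linarith
  have hδL : δ * Lg ≤ 1 := by
    rw [hδ, one_div, ← div_eq_inv_mul, div_le_one (by positivity)]
    linarith
  obtain ⟨m0, hm0⟩ := huni U hUp δ hδ0 hδ1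
  refine ⟨P₀, H₀, J, m0 + 1, hP₀1, by omega, hJ1, by omega, hH₀1, ?_⟩
  intro F hF X hX
  -- the deficiency of the labels
  have hDY : ∀ m : ℕ, m0 ≤ m → ∑ p ∈ U, Real.log ((p + 1 : ℕ) : ℝ) - ent (Om m) (fun ω => rst U (yo ω)) ≤
      (8 * b * A + 3) * (K + 1) + C0 + 1 := by
    intro m hm
    have h1 := hm0 m hm
    have h2 : ∑ p ∈ U, Real.log ((p + 1 : ℕ) : ℝ) ≤ Lg + ∑ p ∈ U, (1 : ℝ) / p := by
      rw [hLg, ← sum_add_distrib]
      refine sum_le_sum fun p hp => ?_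
      have hp0 : (0 : ℝ) < p := by exact_mod_cast (hUp p hp).1.pos
      have h3 : ((p + 1 : ℕ) : ℝ) = p * (1 + 1 / p) := by
        push_cast
        field_simp
      rw [h3, Real.log_mul hp0.ne' (by positivity)]
      have h4 : Real.log (1 + 1 / (p : ℝ)) ≤ 1 / p := by
        have := Real.log_le_sub_one_of_pos (show (0 : ℝ) < 1 + 1 / (p : ℝ) by positivity)
        linarith
      linarith
    have h5 : (1 - δ) * (Lg - C0) ≥ Lg - C0 - 1 := by nlinarith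
    linarith
  have hRbd : (8 * b * A + 3) * (K + 1) + C0 + 1 ≤ (ε / 4) * (c * ((P₀ : ℝ) / Real.log P₀)) := by
    have h1 : ((8 * b * A + 3) * (K + 1) + C0 + 1) = (ε * c / 4) * R := by
      rw [hR]
      field_simp
    rw [h1]
    have h2 : 0 < ε * c / 4 := by positivity
    calc (ε * c / 4) * R ≤ (ε * c / 4) * ((P₀ : ℝ) / Real.log P₀) := mul_le_mul_of_nonneg_left hP₀R h2.le
      _ = (ε / 4) * (c * ((P₀ : ℝ) / Real.log P₀)) := by ring
  -- decrement at each `m`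
  have hmain : ∀ m ∈ Icc (m0 + 1) X, ∑ j ∈ range J, (1 / ((A ^ j * H₀ : ℕ) : ℝ)) *
      dfc F b q m A (A ^ j * P₀) (A ^ j * H₀) ≤ (ε / 2) * ∑ j ∈ range J, u j := by
    intro m hm
    have hm1 : m0 + 1 ≤ m := (mem_Icc.1 hm).1
    have hne : (Om m).Nonempty := by
      rw [← card_pos]
      have h1 := (hOm m (by omega)).1
      have h2 : (0 : ℝ) < cO * m := by
        have : (0 : ℝ) < m := by exact_mod_cast (by omega : 0 < m)
        positivity
      exact_mod_cast h2.trans_le h1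
    have hdec := decr (Om m) hne (Tm m) (fun a ha => Tm_mem ha) (fun a ha a' ha' h => Tm_inj ha ha' h)
      (sy F b q m) yo J S hdisj (fun p => p + 1) (fun _ _ p _ => Nat.le_add_left 1 p)
      (fun a ha j _ p hp => yo_lt (mem_pr.1 hp).2.1 (mem_pr.1 hp).2.2 ha)
      (fun j _ p hp a ha a' ha' hs hy => sy_next (mem_pr.1 hp).2.1 (mem_pr.1 hp).2.2 F b q m ha ha' hs hy)
      A H₀ (by omega) (by omega)
    have hent : ent (Om m) (sy F b q m) ≤ E := hsy b F hF m (by omega)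
    have hD := hDY m (by omega)
    have h3 : ∑ j ∈ range J, (1 / ((A ^ j * H₀ : ℕ) : ℝ)) * dfc F b q m A (A ^ j * P₀) (A ^ j * H₀) ≤
        E + ∑ j ∈ range J, (ε / 4) * u j := by
      have h4 : ∑ j ∈ range J, (1 / ((A ^ j * H₀ : ℕ) : ℝ)) *
          (dfc F b q m A (A ^ j * P₀) (A ^ j * H₀) - (∑ p ∈ U, Real.log ((p + 1 : ℕ) : ℝ) -
            ent (Om m) (fun ω => rst U (yo ω)))) ≤ E := hdec.trans hent
      have h5 : ∑ j ∈ range J, (1 / ((A ^ j * H₀ : ℕ) : ℝ)) * (∑ p ∈ U, Real.log ((p + 1 : ℕ) : ℝ) -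
            ent (Om m) (fun ω => rst U (yo ω))) ≤ ∑ j ∈ range J, (ε / 4) * u j := by
        refine sum_le_sum fun j _ => ?_
        have h6 : ∑ p ∈ U, Real.log ((p + 1 : ℕ) : ℝ) - ent (Om m) (fun ω => rst U (yo ω)) ≤
            (ε / 4) * ((S j).card : ℝ) :=
          hD.trans (hRbd.trans (mul_le_mul_of_nonneg_left (hScard0 j) (by positivity)))
        calc (1 / ((A ^ j * H₀ : ℕ) : ℝ)) * (∑ p ∈ U, Real.log ((p + 1 : ℕ) : ℝ) -
            ent (Om m) (fun ω => rst U (yo ω))) ≤ (1 / ((A ^ j * H₀ : ℕ) : ℝ)) * ((ε / 4) * ((S j).card : ℝ)) :=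
              mul_le_mul_of_nonneg_left h6 (by positivity)
          _ = (ε / 4) * u j := by
              simp only [hu]
              ring
      simp only [mul_sub] at h4
      rw [sum_sub_distrib] at h4
      simp only [mul_sub] at h5
      linarith
    refine h3.trans ?_
    rw [← mul_sum]
    have h7 : E = (ε / 4) * K := by
      rw [hK]
      field_simp
    have h8 : (ε / 4) * K ≤ (ε / 4) * ∑ j ∈ range J, u j := mul_le_mul_of_nonneg_left hJK (by positivity)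
    linarith
  -- pigeonhole
  refine Prm_pigeon J hJ1 (Icc (m0 + 1) X) (fun m => 1 / (m : ℝ)) (fun m _ => by positivity)
    (fun j => ((A ^ j * H₀ : ℕ) : ℝ)) (fun j => ((S j).card : ℝ)) (fun j => ?_) (fun j => Nat.cast_nonneg _)
    (fun m j => dfc F b q m A (A ^ j * P₀) (A ^ j * H₀)) ε hε hmain
  rw [hHj]
  exact mul_pos (hApow j) hH₀pos

end Pool.Agent.FCH
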