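import Pool.Agent.FCH.EdB
import Pool.Agent.FCH.AsmC

set_option autoImplicit false

/-! Module EFav: the bilinear estimate on average over the scales.  `e5det` with `ε' = ε²/100`, `edC` with `η' = ε²/(100 C)` and `h = η_{det} P ≥ h0` for `P ≥ P0`.
For `m ≥ m0`: `‖BB‖ ≤ #pr m √(ε' + C EE/m²)`; `m < m0`: `‖BB‖ ≤ #AA · C_b #pr ≤ C m #pr` (`det_cnt`): contributes `≤ C #pr (1 + log m0)`, absorbed for `X ≥ X0`.
`∑_m (1/m²) #pr m √(ε' + C EE_m/m²) ≤ #pr (∑ 1/m)^{1/2} (∑_m (1/m)(ε' + C EE_m/m²))^{1/2} ≤ #pr (2 log X)^{1/2}((2ε' + Cη') log X)^{1/2}`. -/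

open Finset

namespace Pool.Agent.FCH

open Pool.Agent.MRS hiding Good

theorem EFav_harm_le (X : ℕ) : ∑ m ∈ Icc 1 X, 1 / (m : ℝ) ≤ 1 + Real.log X := by
  have h := harmonic_le_one_add_log X
  rw [harmonic_eq_sum_Icc] at h
  push_cast at h
  simpa [one_div] using h

theorem EFav_EE_nonneg (b : ℝ) (d J K m : ℕ) (H : GI → ℂ) : 0 ≤ EE b d J K m H :=
  sum_nonneg (fun _ _ => sum_nonneg (fun _ _ => en_nonneg _ _ _))

theorem EFav_BB_triv (b : ℝ) (m A P : ℕ) (c : ℕ → ℂ) (hc : ∀ n, ‖c n‖ ≤ 1) (G H : GI → ℂ)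
    (hG : ∀ z, ‖G z‖ ≤ 1) (hH : ∀ z, ‖H z‖ ≤ 1) :
    ‖BB b m A P c G H‖ ≤ ((AA b m).card : ℝ) ^ 2 := by
  classical
  unfold BB
  refine (norm_sum_le _ _).trans ?_
  have h : ∀ z ∈ AA b m, ‖∑ w ∈ AA b m, if (dt z w).toNat ∈ pr A P ∧ 0 < ip z w then
      c (dt z w).toNat * G z * H w else 0‖ ≤ ((AA b m).card : ℝ) := by
    intro z _
    refine (norm_sum_le _ _).trans ?_
    have h2 : ∀ w ∈ AA b m, ‖if (dt z w).toNat ∈ pr A P ∧ 0 < ip z w then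
        c (dt z w).toNat * G z * H w else 0‖ ≤ (1 : ℝ) := by
      intro w _
      split_ifs
      · rw [norm_mul, norm_mul]
        have h3 := mul_le_mul (hc (dt z w).toNat) (hG z) (norm_nonneg _) zero_le_one
        have h4 := mul_le_mul h3 (hH w) (norm_nonneg _) (by norm_num)
        simpa using h4
      · simp
    refine (sum_le_sum h2).trans ?_
    rw [sum_const, nsmul_eq_mul, mul_one]
  refine (sum_le_sum h).trans ?_
  rw [sum_const, nsmul_eq_mul, sq]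

/-- averaging: from a bound for each scale to the bound for the average -/
theorem EFav_avg (s ε C η' : ℝ) (hs : 1 ≤ s) (hε : 0 < ε) (hC : 0 < C) (m0 : ℕ) (f : ℕ → ℝ)
    (E : ℕ → ℝ) (K : ℝ) (hη' : C * η' ≤ ε ^ 2 / 32) (hE : ∀ m, 0 ≤ E m)
    (h1 : ∀ m, m0 ≤ m → f m ^ 2 ≤ s ^ 2 * (ε ^ 2 / 64 * (m : ℝ) ^ 2 + C * E m))
    (h2 : ∑ m ∈ range m0, (1 / (m : ℝ) ^ 2) * f m ≤ K) (hf : ∀ m, 0 ≤ f m) (X : ℕ) (hX : 3 ≤ X)
    (h3 : ∑ m ∈ Icc 1 X, (1 / (m : ℝ) ^ 3) * E m ≤ η' * Real.log X)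
    (hXK : 2 * K / ε ≤ Real.log X) :
    ∑ m ∈ Icc 1 X, (1 / (m : ℝ) ^ 2) * f m ≤ ε * s * Real.log X := by
  have hlog1 : 1 ≤ Real.log (X : ℝ) := by
    rw [Real.le_log_iff_exp_le (by positivity)]
    have h3 : (3 : ℝ) ≤ X := by exact_mod_cast hX
    have := Real.exp_one_lt_d9
    linarith
  have hbig : ∀ m, m0 ≤ m → 1 ≤ m → (1 / (m : ℝ) ^ 2) * f m ≤
      s * (√(1 / (m : ℝ)) * √(ε ^ 2 / 64 * (1 / (m : ℝ)) + C * ((1 / (m : ℝ) ^ 3) * E m))) := by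
    intro m hm hm1
    have hm0 : (0 : ℝ) < m := by exact_mod_cast hm1
    have h4 := h1 m hm
    have h5 : f m ≤ s * √(ε ^ 2 / 64 * (m : ℝ) ^ 2 + C * E m) := by
      have h6 : f m = √(f m ^ 2) := (Real.sqrt_sq (hf m)).symm
      rw [h6]
      refine (Real.sqrt_le_sqrt h4).trans (le_of_eq ?_)
      rw [Real.sqrt_mul (by positivity), Real.sqrt_sq (by linarith)]
    have h6 : √(1 / (m : ℝ)) * √(ε ^ 2 / 64 * (1 / (m : ℝ)) + C * ((1 / (m : ℝ) ^ 3) * E m)) =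
        (1 / (m : ℝ) ^ 2) * √(ε ^ 2 / 64 * (m : ℝ) ^ 2 + C * E m) := by
      rw [← Real.sqrt_mul (by positivity)]
      have h7 : 1 / (m : ℝ) * (ε ^ 2 / 64 * (1 / (m : ℝ)) + C * ((1 / (m : ℝ) ^ 3) * E m)) =
          (1 / (m : ℝ) ^ 2) ^ 2 * (ε ^ 2 / 64 * (m : ℝ) ^ 2 + C * E m) := by
        field_simp
      rw [h7, Real.sqrt_mul (by positivity), Real.sqrt_sq (by positivity)]
    rw [h6]
    have h7 := mul_le_mul_of_nonneg_left h5 (by positivity : (0 : ℝ) ≤ 1 / (m : ℝ) ^ 2)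
    refine h7.trans (le_of_eq (by ring))
  have hsplit : ∑ m ∈ Icc 1 X, (1 / (m : ℝ) ^ 2) * f m ≤
      ∑ m ∈ range m0, (1 / (m : ℝ) ^ 2) * f m + ∑ m ∈ Icc (max m0 1) X, (1 / (m : ℝ) ^ 2) * f m := by
    have h4 : Icc 1 X ⊆ range m0 ∪ Icc (max m0 1) X := by
      intro M hM
      rw [mem_Icc] at hM
      rw [mem_union, mem_range, mem_Icc]
      omega
    have hn : ∀ m : ℕ, 0 ≤ (1 / (m : ℝ) ^ 2) * f m := fun m => by
      have := hf m; positivity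
    refine (sum_le_sum_of_subset_of_nonneg h4 (fun M _ _ => hn M)).trans ?_
    have h5 := sum_union_inter (s₁ := range m0) (s₂ := Icc (max m0 1) X)
      (f := fun m : ℕ => (1 / (m : ℝ) ^ 2) * f m)
    have h6 : 0 ≤ ∑ m ∈ range m0 ∩ Icc (max m0 1) X, (1 / (m : ℝ) ^ 2) * f m :=
      sum_nonneg (fun M _ => hn M)
    linarith
  have h4 : ∑ m ∈ Icc (max m0 1) X, (1 / (m : ℝ) ^ 2) * f m ≤ s * (ε / 2 * Real.log X) := by
    have h5 : ∑ m ∈ Icc (max m0 1) X, (1 / (m : ℝ) ^ 2) * f m ≤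
        s * ∑ m ∈ Icc (max m0 1) X,
          √(1 / (m : ℝ)) * √(ε ^ 2 / 64 * (1 / (m : ℝ)) + C * ((1 / (m : ℝ) ^ 3) * E m)) := by
      rw [mul_sum]
      apply sum_le_sum
      intro m hm
      rw [mem_Icc] at hm
      exact hbig m (by omega) (by omega)
    refine h5.trans (mul_le_mul_of_nonneg_left ?_ (by linarith))
    refine (Real.sum_sqrt_mul_sqrt_le (Icc (max m0 1) X) (f := fun m : ℕ => 1 / (m : ℝ))
      (g := fun m : ℕ => ε ^ 2 / 64 * (1 / (m : ℝ)) + C * ((1 / (m : ℝ) ^ 3) * E m))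
      (fun m => by positivity) (fun m => by have := hE m; positivity)).trans ?_
    have hH : ∑ m ∈ Icc 1 X, 1 / (m : ℝ) ≤ 2 * Real.log X := by
      have := EFav_harm_le X
      linarith
    have h6 : ∑ m ∈ Icc (max m0 1) X, 1 / (m : ℝ) ≤ 2 * Real.log X := by
      refine le_trans ?_ hH
      apply sum_le_sum_of_subset_of_nonneg
      · intro M hM; rw [mem_Icc] at hM ⊢; omega
      · intro M _ _; positivity
    have h7 : ∑ m ∈ Icc (max m0 1) X,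
        (ε ^ 2 / 64 * (1 / (m : ℝ)) + C * ((1 / (m : ℝ) ^ 3) * E m)) ≤
        ε ^ 2 / 16 * Real.log X := by
      rw [sum_add_distrib, ← mul_sum, ← mul_sum]
      have h8 : ∑ m ∈ Icc (max m0 1) X, (1 / (m : ℝ) ^ 3) * E m ≤ η' * Real.log X := by
        refine le_trans ?_ h3
        apply sum_le_sum_of_subset_of_nonneg
        · intro M hM; rw [mem_Icc] at hM ⊢; omega
        · intro M _ _; have := hE M; positivity
      have h9 : ε ^ 2 / 64 * ∑ m ∈ Icc (max m0 1) X, 1 / (m : ℝ) ≤ ε ^ 2 / 64 * (2 * Real.log X) :=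
        mul_le_mul_of_nonneg_left h6 (by positivity)
      have h10 : C * ∑ m ∈ Icc (max m0 1) X, (1 / (m : ℝ) ^ 3) * E m ≤ C * (η' * Real.log X) :=
        mul_le_mul_of_nonneg_left h8 hC.le
      have h11 : C * (η' * Real.log X) ≤ ε ^ 2 / 32 * Real.log X := by
        rw [← mul_assoc]
        exact mul_le_mul_of_nonneg_right hη' (by linarith)
      linarith
    have h8 : √(∑ m ∈ Icc (max m0 1) X, 1 / (m : ℝ)) * √(∑ m ∈ Icc (max m0 1) X,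
        (ε ^ 2 / 64 * (1 / (m : ℝ)) + C * ((1 / (m : ℝ) ^ 3) * E m))) ≤
        √(2 * Real.log X) * √(ε ^ 2 / 16 * Real.log X) :=
      mul_le_mul (Real.sqrt_le_sqrt h6) (Real.sqrt_le_sqrt h7) (Real.sqrt_nonneg _)
        (Real.sqrt_nonneg _)
    refine h8.trans ?_
    rw [← Real.sqrt_mul (by positivity)]
    apply Real.sqrt_le_iff.2
    refine ⟨by positivity, ?_⟩
    have h9 : 0 ≤ ε ^ 2 * Real.log X ^ 2 := by positivity
    nlinarith
  have h5 : K ≤ s * (ε / 2 * Real.log X) := by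
    rw [div_le_iff₀ hε] at hXK
    have h6 : K ≤ ε / 2 * Real.log X := by linarith
    have h7 : 0 ≤ ε / 2 * Real.log X := by positivity
    nlinarith
  linarith

theorem efav (ζ : ℂ) (hζ : ‖ζ‖ = 1) (hζ1 : ζ ≠ 1) (b : ℝ) (hb : 1 < b) (A : ℕ) (hA : GA A) (q : ℕ)
    (hq : 1 ≤ q) (ε : ℝ) (hε : 0 < ε) : ∃ P0 : ℕ, ∀ P : ℕ, P0 ≤ P → ∃ X0 : ℕ, 2 ≤ X0 ∧
    ∀ X : ℕ, X0 ≤ X → ∀ c : ℕ → ℕ → ℂ, (∀ m n, ‖c m n‖ ≤ 1) → ∀ r₁ r₂ : GI,
    open Classical in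
    ∑ m ∈ Icc 1 X, (1 / (m : ℝ) ^ 2) * ‖BB b m A P (c m)
      (fun z => if cg q z r₁ then fz ζ (nm z) else 0)
      (fun z => if cg q z r₂ then fz ζ (nm z) else 0)‖ ≤ ε * (pr A P).card * Real.log X := by
  classical
  obtain ⟨hA2, c0, hc0, Pg, hPg2, hPg⟩ := id hA
  obtain ⟨d, J, P0, η, C, hd, hη, hC, hdet⟩ := e5det b hb A hA (ε ^ 2 / 64) (by positivity)
  obtain ⟨h0, hh0, hed⟩ := edC ζ hζ hζ1 b hb d J q hd hq (ε ^ 2 / (32 * C)) (by positivity)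
  refine ⟨P0 + Pg + ⌈h0 / η⌉₊, ?_⟩
  intro P hP
  have hηP : h0 ≤ η * P := by
    have h1 : h0 / η ≤ (⌈h0 / η⌉₊ : ℝ) := Nat.le_ceil _
    have h2 : ((⌈h0 / η⌉₊ : ℕ) : ℝ) ≤ (P : ℝ) := by exact_mod_cast (show ⌈h0 / η⌉₊ ≤ P by omega)
    rw [div_le_iff₀ hη] at h1
    nlinarith
  obtain ⟨m0, hm0⟩ := hdet P (by omega)
  obtain ⟨X1, hX1, hX2⟩ := hed (η * P) hηP
  have hs : (1 : ℝ) ≤ ((pr A P).card : ℝ) := by
    have h3 := hPg P (by omega)
    have h4 : (0 : ℝ) < ((pr A P).card : ℝ) := by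
      refine lt_of_lt_of_le ?_ h3
      have h5 : (2 : ℝ) ≤ (P : ℝ) := by exact_mod_cast (show 2 ≤ P by omega)
      have h6 : 0 < Real.log (P : ℝ) := Real.log_pos (by linarith)
      positivity
    have h5 : 0 < (pr A P).card := by exact_mod_cast h4
    exact_mod_cast h5
  set K : ℝ := ∑ m ∈ range m0, (1 / (m : ℝ) ^ 2) * ((AA b m).card : ℝ) ^ 2 with hK
  have hlog : Filter.Tendsto (fun X : ℕ => Real.log (X : ℝ)) Filter.atTop Filter.atTop :=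
    Real.tendsto_log_atTop.comp tendsto_natCast_atTop_atTop
  obtain ⟨X3, hX3⟩ := Filter.eventually_atTop.1 (hlog.eventually_ge_atTop (2 * K / ε))
  refine ⟨X1 + X3 + 3, by omega, ?_⟩
  intro X hX c hc r₁ r₂
  have hF1 : ∀ z : GI, ‖(if cg q z r₁ then fz ζ (nm z) else 0 : ℂ)‖ ≤ 1 := by
    intro z
    split_ifs
    · unfold fz; rw [norm_pow, hζ, one_pow]
    · simp
  have hF2 : ∀ z : GI, ‖(if cg q z r₂ then fz ζ (nm z) else 0 : ℂ)‖ ≤ 1 := by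
    intro z
    split_ifs
    · unfold fz; rw [norm_pow, hζ, one_pow]
    · simp
  have h3 := hX2 X (by omega) r₂
  refine EFav_avg ((pr A P).card : ℝ) ε C (ε ^ 2 / (32 * C)) hs hε hC m0
    (fun m => ‖BB b m A P (c m) (fun z => if cg q z r₁ then fz ζ (nm z) else 0)
      (fun z => if cg q z r₂ then fz ζ (nm z) else 0)‖)
    (fun m => EE b d J ⌊(m : ℝ) / (η * P)⌋₊ m (fun z => if cg q z r₂ then fz ζ (nm z) else 0)) K ?_
    (fun m => EFav_EE_nonneg _ _ _ _ _ _)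
    (fun m hm => hm0 m hm (c m) (hc m) _ _ hF1 hF2) ?_ (fun m => norm_nonneg _) X (by omega) h3
    (hX3 X (by omega))
  · apply le_of_eq; field_simp
  · rw [hK]
    apply sum_le_sum
    intro m _
    exact mul_le_mul_of_nonneg_left (EFav_BB_triv b m A P (c m) (hc m) _ _ hF1 hF2) (by positivity)

end Pool.Agent.FCH
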