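import Pool.Agent.FCH.Gg
import Pool.Agent.FCH.EFav

set_option autoImplicit false

/-! Module Swp: `∑_p c_p SP(p)` as a sum of `q²` bilinear forms `BB`, and its average.
`swp`: for `p ∈ pr A P` there is exactly one `ρ ∈ cls q` with `cg q (gpi p) ρ`, and then `cg q z (gpi p * g) ↔ cg q z (ρ * g)`; in `BB` the prime is `p = (dt z w).toNat` (`p ∈ pr` is positive, so `dt z w = p`).
`swp_av`: `efav` with `ε/q²` for each `ρ ∈ cls q` (`#cls q = q²`), phases `c' m n = if cg q (gpi n) ρ then c m n else 0`. -/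

open Finset

namespace Pool.Agent.FCH

open Pool.Agent.MRS hiding Good

theorem Swp_rep (q : ℕ) (hq : 1 ≤ q) (x : GI) : ∃ ρ0 ∈ cls q, ∀ ρ ∈ cls q, cg q x ρ ↔ ρ = ρ0 := by
  have hq0 : (0 : ℤ) < q := by exact_mod_cast hq
  refine ⟨⟨x.re % q, x.im % q⟩, ?_, ?_⟩
  · rw [mem_cls]
    exact ⟨⟨Int.emod_nonneg _ hq0.ne', Int.emod_lt_of_pos _ hq0⟩,
      ⟨Int.emod_nonneg _ hq0.ne', Int.emod_lt_of_pos _ hq0⟩⟩
  · intro ρ hρ
    obtain ⟨⟨r1, r2⟩, r3, r4⟩ := mem_cls.1 hρ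
    have aux : ∀ y r : ℤ, 0 ≤ r → r < q → ((q : ℤ) ∣ y - r ↔ r = y % q) := by
      intro y r h1 h2
      constructor
      · intro h
        have h3 : r % q = y % q := Int.modEq_iff_dvd.2 h
        rw [Int.emod_eq_of_lt h1 h2] at h3
        exact h3
      · intro h
        rw [h]
        exact Int.dvd_self_sub_emod
    unfold cg
    rw [aux _ _ r1 r2, aux _ _ r3 r4]
    constructor
    · rintro ⟨h1, h2⟩
      exact Zsqrtd.ext h1 h2
    · intro h
      rw [h]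
      exact ⟨rfl, rfl⟩

theorem Swp_cg {q : ℕ} {x ρ : GI} (h : cg q x ρ) (z g : GI) : cg q z (ρ * g) ↔ cg q z (x * g) := by
  obtain ⟨h1, h2⟩ := h
  unfold cg
  simp only [Zsqrtd.re_mul, Zsqrtd.im_mul]
  have e1 : (q : ℤ) ∣ (ρ.re * g.re + -1 * ρ.im * g.im) - (x.re * g.re + -1 * x.im * g.im) := by
    have : (ρ.re * g.re + -1 * ρ.im * g.im) - (x.re * g.re + -1 * x.im * g.im) =
        -(x.re - ρ.re) * g.re + (x.im - ρ.im) * g.im := by ring
    rw [this]
    exact dvd_add (dvd_mul_of_dvd_left (dvd_neg.2 h1) _) (dvd_mul_of_dvd_left h2 _)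
  have e2 : (q : ℤ) ∣ (ρ.re * g.im + ρ.im * g.re) - (x.re * g.im + x.im * g.re) := by
    have : (ρ.re * g.im + ρ.im * g.re) - (x.re * g.im + x.im * g.re) =
        -(x.re - ρ.re) * g.im + -(x.im - ρ.im) * g.re := by ring
    rw [this]
    exact dvd_add (dvd_mul_of_dvd_left (dvd_neg.2 h1) _) (dvd_mul_of_dvd_left (dvd_neg.2 h2) _)
  have aux : ∀ y a a' : ℤ, (q : ℤ) ∣ a - a' → ((q : ℤ) ∣ y - a ↔ (q : ℤ) ∣ y - a') := by
    intro y a a' h
    constructor
    · intro h'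
      have : y - a' = (y - a) + (a - a') := by ring
      rw [this]
      exact dvd_add h' h
    · intro h'
      have : y - a = (y - a') - (a - a') := by ring
      rw [this]
      exact dvd_sub h' h
  rw [aux _ _ _ e1, aux _ _ _ e2]

theorem swp (b : ℝ) (m q A P : ℕ) (hq : 1 ≤ q) (g₁ g₂ : GI) (F : GI → ℂ) (c : ℕ → ℂ) :
    open Classical in
    ∑ p ∈ pr A P, c p * SP b m q g₁ g₂ F p = ∑ ρ ∈ cls q, BB b m A P
      (fun n => if cg q (gpi n) ρ then c n else 0)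
      (fun z => if cg q z (ρ * g₁) then F z else 0) (fun z => if cg q z (ρ * g₂) then F z else 0) := by
  classical
  have hL : ∀ p ∈ pr A P, c p * SP b m q g₁ g₂ F p = ∑ z ∈ AA b m, ∑ z' ∈ AA b m,
      (if (dt z z' = p ∧ 0 < ip z z') ∧ (cg q z (gpi p * g₁) ∧ cg q z' (gpi p * g₂)) then
        c p * (F z * F z') else 0) := by
    intro p _
    unfold SP
    rw [Finset.mul_sum]
    apply Finset.sum_congr rfl
    intro z _
    rw [Finset.mul_sum]
    apply Finset.sum_congr rfl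
    intro z' _
    rw [mul_ite, mul_zero]
  rw [Finset.sum_congr rfl hL, Finset.sum_comm]
  unfold BB
  rw [Finset.sum_comm (s := cls q)]
  apply Finset.sum_congr rfl
  intro z _
  rw [Finset.sum_comm, Finset.sum_comm (s := cls q)]
  apply Finset.sum_congr rfl
  intro z' _
  by_cases hc : (dt z z').toNat ∈ pr A P ∧ 0 < ip z z'
  · -- the prime
    set p0 := (dt z z').toNat with hp0
    have hp0pos : 0 < p0 := (mem_pr.1 hc.1).2.1.pos
    have hdt : dt z z' = (p0 : ℤ) := by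
      rw [hp0]
      have : 0 ≤ dt z z' := by omega
      exact (Int.toNat_of_nonneg this).symm
    obtain ⟨ρ0, hρ0, hρ⟩ := Swp_rep q hq (gpi p0)
    have hcg0 : cg q (gpi p0) ρ0 := (hρ ρ0 hρ0).2 rfl
    rw [Finset.sum_eq_single p0]
    · rw [Finset.sum_eq_single ρ0]
      · rw [if_pos hc]
        simp only [if_pos hcg0, Swp_cg hcg0]
        by_cases h1 : cg q z (gpi p0 * g₁) <;> by_cases h2 : cg q z' (gpi p0 * g₂) <;>
          simp [h1, h2, hdt, hc.2, mul_assoc]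
      · intro ρ hρm hne
        have hn : ¬ cg q (gpi p0) ρ := fun h => hne ((hρ ρ hρm).1 h)
        rw [if_pos hc]
        simp only [if_neg hn, zero_mul]
      · intro h
        exact absurd hρ0 h
    · intro p _ hne
      rw [if_neg]
      rintro ⟨⟨h1, _⟩, _⟩
      rw [hdt] at h1
      exact hne (by exact_mod_cast h1.symm)
    · intro h
      exact absurd hc.1 h
  · rw [Finset.sum_eq_zero, Finset.sum_eq_zero]
    · intro ρ _
      rw [if_neg hc]
    · intro p hp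
      rw [if_neg]
      rintro ⟨⟨h1, h2⟩, _⟩
      apply hc
      rw [h1, Int.toNat_natCast]
      exact ⟨hp, h2⟩

theorem swp_av (ζ : ℂ) (hζ : ‖ζ‖ = 1) (hζ1 : ζ ≠ 1) (b : ℝ) (hb : 1 < b) (A : ℕ) (hA : GA A) (q : ℕ)
    (hq : 1 ≤ q) (ε : ℝ) (hε : 0 < ε) : ∃ P0 : ℕ, ∀ P : ℕ, P0 ≤ P → ∃ X0 : ℕ, 2 ≤ X0 ∧
    ∀ X : ℕ, X0 ≤ X → ∀ c : ℕ → ℕ → ℂ, (∀ m n, ‖c m n‖ ≤ 1) → ∀ g₁ g₂ : GI,
    ∑ m ∈ Icc 1 X, (1 / (m : ℝ) ^ 2) * ‖∑ p ∈ pr A P, c m p * SP b m q g₁ g₂ (fun z => fz ζ (nm z)) p‖ ≤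
      ε * (pr A P).card * Real.log X := by
  classical
  have hqR : (0 : ℝ) < q := by exact_mod_cast hq
  obtain ⟨P0, hP0⟩ := efav ζ hζ hζ1 b hb A hA q hq (ε / (q : ℝ) ^ 2) (by positivity)
  refine ⟨P0, fun P hP => ?_⟩
  obtain ⟨X0, hX0, hX⟩ := hP0 P hP
  refine ⟨X0, hX0, fun X hXX c hc g₁ g₂ => ?_⟩
  have hcard : (cls q).card = q ^ 2 := by
    unfold cls
    rw [Finset.card_image_of_injective, card_product, card_range, sq]
    rintro ⟨a, b⟩ ⟨a', b'⟩ h
    have h1 := congrArg Zsqrtd.re h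
    have h2 := congrArg Zsqrtd.im h
    simp only at h1 h2
    ext
    · simp only; exact_mod_cast h1
    · simp only; exact_mod_cast h2
  have hone : ∀ ρ ∈ cls q, ∑ m ∈ Icc 1 X, (1 / (m : ℝ) ^ 2) * ‖BB b m A P
      (fun n => if cg q (gpi n) ρ then c m n else 0)
      (fun z => if cg q z (ρ * g₁) then fz ζ (nm z) else 0)
      (fun z => if cg q z (ρ * g₂) then fz ζ (nm z) else 0)‖ ≤
      ε / (q : ℝ) ^ 2 * (pr A P).card * Real.log X := by
    intro ρ _
    have h1 := hX X hXX (fun m n => if cg q (gpi n) ρ then c m n else 0)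
      (fun m n => by
        split_ifs
        · exact hc m n
        · simp) (ρ * g₁) (ρ * g₂)
    convert h1 using 4
  calc ∑ m ∈ Icc 1 X, (1 / (m : ℝ) ^ 2) * ‖∑ p ∈ pr A P, c m p * SP b m q g₁ g₂ (fun z => fz ζ (nm z)) p‖
      ≤ ∑ m ∈ Icc 1 X, ∑ ρ ∈ cls q, (1 / (m : ℝ) ^ 2) * ‖BB b m A P
          (fun n => if cg q (gpi n) ρ then c m n else 0)
          (fun z => if cg q z (ρ * g₁) then fz ζ (nm z) else 0)
          (fun z => if cg q z (ρ * g₂) then fz ζ (nm z) else 0)‖ := by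
        apply Finset.sum_le_sum
        intro m _
        rw [← Finset.mul_sum]
        apply mul_le_mul_of_nonneg_left _ (by positivity)
        have := swp b m q A P hq g₁ g₂ (fun z => fz ζ (nm z)) (c m)
        rw [this]
        refine (norm_sum_le _ _).trans (le_of_eq ?_)
        apply Finset.sum_congr rfl
        intro ρ _
        congr 2
    _ = ∑ ρ ∈ cls q, ∑ m ∈ Icc 1 X, (1 / (m : ℝ) ^ 2) * ‖BB b m A P
          (fun n => if cg q (gpi n) ρ then c m n else 0)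
          (fun z => if cg q z (ρ * g₁) then fz ζ (nm z) else 0)
          (fun z => if cg q z (ρ * g₂) then fz ζ (nm z) else 0)‖ := Finset.sum_comm
    _ ≤ ∑ ρ ∈ cls q, ε / (q : ℝ) ^ 2 * (pr A P).card * Real.log X := Finset.sum_le_sum hone
    _ = ε * (pr A P).card * Real.log X := by
        rw [Finset.sum_const, hcard, nsmul_eq_mul]
        push_cast
        field_simp

end Pool.Agent.FCH
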