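import Pool.Agent.FCH.Dil
import Pool.Agent.FCH.Swp
import Pool.Agent.FCH.Prm

set_option autoImplicit false

/-! Module Avg: averages over the scales.
`avg_one` (one scale, one prime): sum `dil` over `M = p m + i`, `0 ≤ i < p`, `M ≤ X`: for `m ≤ X/p - 1` all `i` are allowed and `(p+1)/M² ≥ p/(p(m+1))² ≥ 1/(4 p m²)`, so
`∑_{m ≤ X/p - 1} (1/(4m²)) ‖SS_m‖ ≤ ∑_{M ≤ X} ((p+1)/M²) ‖SPd_M(p)‖ + ∑_m (2/m²) C (√m + m/p)`; the `m` with `X/p - 1 < m ≤ X`: `‖SS_m‖ ≤ C m`, total `≤ C (log(2p) + 2)`.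
`∑_m (1/m²)(√m + m/p) ≤ C + (2/p) log X`.
`avg`: `ε₁ = c ε²`, `ε₂ = c ε`.  `exists_GA`; `P1` from `swp_av` (with `ε₂`), `P1 ≥ q`, `C/P1 ≤ ε/8`; `prm` with `ε₁` (values: `V = {ζ^i}`, `k` elements).  For `X ≥ X0` take `j` from `prm`; `P = A^j P₀`, `H = A^j H₀`, `S = pr A P`.
For every `M` choose `c_M(p)` of modulus `1` with `c_M(p) SPd_M(p) = ‖SPd_M(p)‖`; `gst` for `M ≥ m0`:
`∑_{p∈S} (p+1) ‖SPd_M(p)‖ ≤ C M √(dfc_M |S|) + ‖∑_p c_M(p) SP_M(p)‖`.  Multiply by `1/M²` and sum over `m0 ≤ M ≤ X`: Cauchy-Schwarz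
`∑ (1/M)√(dfc_M |S|) ≤ (∑ 1/M)^{1/2} (∑ (1/M) dfc_M |S|)^{1/2} ≤ 2√ε₁ |S| log X·(const)`, and `swp_av`.  The `M < m0` contribute a constant (depending on `j < J`: take the maximum).
Divide by `|S| > 0` and use `avg_one` for each `p ∈ S`. -/

open Finset

namespace Pool.Agent.FCH

open Pool.Agent.MRS hiding Good

theorem Avg_harm_le (X : ℕ) : ∑ m ∈ Icc 1 X, 1 / (m : ℝ) ≤ 1 + Real.log X := by
  have h := harmonic_le_one_add_log X
  rw [harmonic_eq_sum_Icc] at h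
  push_cast at h
  simpa [one_div] using h

theorem Avg_harm_ge (X : ℕ) : Real.log (X + 1 : ℕ) ≤ ∑ m ∈ Icc 1 X, 1 / (m : ℝ) := by
  have h := log_add_one_le_harmonic X
  rw [harmonic_eq_sum_Icc] at h
  push_cast at h
  simpa [one_div] using h

theorem Avg_sqrt_sum (N : ℕ) : ∑ m ∈ Icc 1 N, √(m : ℝ) / (m : ℝ) ^ 2 ≤ 3 := by
  have key : ∀ N : ℕ, 1 ≤ N → ∑ m ∈ Icc 1 N, √(m : ℝ) / (m : ℝ) ^ 2 ≤ 3 - 2 / √(N : ℝ) := by
    intro N hN
    induction N, hN using Nat.le_induction with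
    | base => simp; norm_num
    | succ n hn ih =>
      rw [sum_Icc_succ_top (by omega)]
      have hn0 : (0 : ℝ) < n := by exact_mod_cast hn
      have h1 : (0 : ℝ) < √(n : ℝ) := Real.sqrt_pos.2 hn0
      have h2 : (0 : ℝ) < √((n : ℝ) + 1) := Real.sqrt_pos.2 (by linarith)
      have h3 : √(n : ℝ) ^ 2 = n := Real.sq_sqrt hn0.le
      have h4 : √((n : ℝ) + 1) ^ 2 = n + 1 := Real.sq_sqrt (by linarith)
      push_cast
      have h5 : √((n : ℝ) + 1) / ((n : ℝ) + 1) ^ 2 = 1 / √((n : ℝ) + 1) ^ 3 := by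
        rw [div_eq_div_iff (by positivity) (by positivity), one_mul]
        calc √((n : ℝ) + 1) * √((n : ℝ) + 1) ^ 3 = (√((n : ℝ) + 1) ^ 2) ^ 2 := by ring
          _ = ((n : ℝ) + 1) ^ 2 := by rw [h4]
      have h6 : 1 / √((n : ℝ) + 1) ^ 3 ≤ 2 / √(n : ℝ) - 2 / √((n : ℝ) + 1) := by
        set a := √(n : ℝ)
        set c := √((n : ℝ) + 1)
        have hac : a ≤ c := Real.sqrt_le_sqrt (by linarith)
        have h7 : c ^ 2 - a ^ 2 = 1 := by rw [h3, h4]; ring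
        have h8 : 2 / a - 2 / c = 2 * (c - a) / (a * c) := by field_simp
        rw [h8, div_le_div_iff₀ (by positivity) (by positivity)]
        have h9 : (c - a) * (c + a) = 1 := by nlinarith
        have h10 : a * (c + a) ≤ 2 * c ^ 2 := by nlinarith
        have h11 : 0 ≤ c - a := by linarith
        have h12 : a = a * ((c - a) * (c + a)) := by rw [h9, mul_one]
        have h13 : a * ((c - a) * (c + a)) ≤ (c - a) * (2 * c ^ 2) := by nlinarith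
        nlinarith
      rw [h5]; linarith
  rcases Nat.eq_zero_or_pos N with h | h
  · subst h; simp
  · have := key N h
    have h2 : (0 : ℝ) ≤ 2 / √(N : ℝ) := by positivity
    linarith

theorem Avg_fz_norm (ζ : ℂ) (hζ : ‖ζ‖ = 1) (z : GI) : ‖fz ζ (nm z)‖ ≤ 1 := by
  unfold fz; rw [norm_pow, hζ, one_pow]

theorem avg_one (b : ℝ) (hb : 1 < b) : ∃ C : ℝ, 0 < C ∧ ∀ (ζ : ℂ), ‖ζ‖ = 1 → ∀ (q : ℕ), 1 ≤ q →
    ∀ p : ℕ, p.Prime → p % 4 = 1 → ¬ p ∣ q → ∀ X : ℕ, 2 ≤ X → ∀ g₁ g₂ : GI,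
    ∑ m ∈ Icc 1 X, (1 / (m : ℝ) ^ 2) * ‖SS b m q g₁ g₂ (fun z => fz ζ (nm z))‖ ≤
      4 * ∑ M ∈ Icc 1 X, (((p : ℝ) + 1) / (M : ℝ) ^ 2) * ‖SPd b M q g₁ g₂ (fun z => fz ζ (nm z)) p‖ +
        C * (Real.log p + 1) + C * Real.log X / p := by
  obtain ⟨Cd, hCd, hd⟩ := dil b hb
  obtain ⟨Cs, hCs, hs⟩ := SS_triv b hb
  refine ⟨4 * Cd + 2 * Cs, by positivity, ?_⟩
  intro ζ hζ q hq p hp hp4 hpq X hX g₁ g₂
  have hp1 : (1 : ℝ) ≤ p := by exact_mod_cast hp.one_lt.le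
  have hp0 : (0 : ℝ) < p := by linarith
  set f : ℕ → ℝ := fun m => ‖SS b m q g₁ g₂ (fun z => fz ζ (nm z))‖ with hf
  set g : ℕ → ℝ := fun M => ‖SPd b M q g₁ g₂ (fun z => fz ζ (nm z)) p‖ with hg
  have hg0 : ∀ M, 0 ≤ g M := fun M => norm_nonneg _
  have hf0 : ∀ M, 0 ≤ f M := fun M => norm_nonneg _
  set N : ℕ := X / p - 1 with hN
  have hNX : N ≤ X := (Nat.sub_le _ _).trans (Nat.div_le_self _ _)
  have hNp : ∀ m, m ≤ N → 1 ≤ m → p * (m + 1) ≤ X := by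
    intro m hm hm1
    have h1 : m + 1 ≤ X / p := by omega
    calc p * (m + 1) ≤ p * (X / p) := Nat.mul_le_mul_left _ h1
      _ ≤ X := Nat.mul_div_le X p
  -- split
  have hsplit : ∑ m ∈ Icc 1 X, (1 / (m : ℝ) ^ 2) * f m =
      ∑ m ∈ Icc 1 N, (1 / (m : ℝ) ^ 2) * f m + ∑ m ∈ Ioc N X, (1 / (m : ℝ) ^ 2) * f m := by
    rw [← sum_union]
    · congr 1
      ext m; simp only [mem_union, mem_Icc, mem_Ioc]; omega
    · rw [disjoint_left]; intro m h1 h2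
      rw [mem_Icc] at h1; rw [mem_Ioc] at h2; omega
  have hlow : ∀ m ∈ Icc 1 N, (1 / (m : ℝ) ^ 2) * f m ≤
      ∑ i ∈ range p, 4 * (((p : ℝ) + 1) / ((p * m + i : ℕ) : ℝ) ^ 2 * g (p * m + i)) +
        Cd * (√(m : ℝ) / (m : ℝ) ^ 2 + 1 / (m : ℝ) / p) := by
    intro m hm
    rw [mem_Icc] at hm
    have hm0 : (0 : ℝ) < m := by exact_mod_cast hm.1
    have h1 : ∀ i ∈ range p, f m ≤ g (p * m + i) + Cd * (√(m : ℝ) + (m : ℝ) / p) := by
      intro i hi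
      have h2 := hd ζ hζ q hq p hp hp4 hpq m i hm.1 (mem_range.1 hi) g₁ g₂
      have h3 : ‖ζ ^ 2 * SS b m q g₁ g₂ (fun z => fz ζ (nm z))‖ = f m := by
        rw [norm_mul, norm_pow, hζ]; simp [hf]
      have h4 := norm_sub_norm_le (ζ ^ 2 * SS b m q g₁ g₂ (fun z => fz ζ (nm z)))
        (SPd b (p * m + i) q g₁ g₂ (fun z => fz ζ (nm z)) p)
      rw [h3, norm_sub_rev] at h4
      have h5 : ‖SPd b (p * m + i) q g₁ g₂ (fun z => fz ζ (nm z)) p‖ = g (p * m + i) := rfl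
      rw [h5] at h4
      linarith
    have h2 := sum_le_sum h1
    rw [sum_const, card_range, nsmul_eq_mul, sum_add_distrib, sum_const, card_range,
      nsmul_eq_mul] at h2
    have h3 : (1 / (m : ℝ) ^ 2) * f m ≤ (1 / ((p : ℝ) * (m : ℝ) ^ 2)) *
        ∑ i ∈ range p, g (p * m + i) + Cd * (√(m : ℝ) / (m : ℝ) ^ 2 + 1 / (m : ℝ) / p) := by
      have h4 : (1 / (m : ℝ) ^ 2) * f m = (1 / ((p : ℝ) * (m : ℝ) ^ 2)) * (p * f m) := by
        field_simp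
      have h5 : Cd * (√(m : ℝ) / (m : ℝ) ^ 2 + 1 / (m : ℝ) / p) =
          (1 / ((p : ℝ) * (m : ℝ) ^ 2)) * (p * (Cd * (√(m : ℝ) + (m : ℝ) / p))) := by
        field_simp
      rw [h4, h5, ← mul_add]
      exact mul_le_mul_of_nonneg_left h2 (by positivity)
    refine h3.trans ?_
    have h6 : (1 / ((p : ℝ) * (m : ℝ) ^ 2)) * ∑ i ∈ range p, g (p * m + i) ≤
        ∑ i ∈ range p, 4 * (((p : ℝ) + 1) / ((p * m + i : ℕ) : ℝ) ^ 2 * g (p * m + i)) := by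
      rw [mul_sum]
      apply sum_le_sum
      intro i hi
      have hi' : (i : ℝ) ≤ p := by exact_mod_cast (mem_range.1 hi).le
      have hm1 : (1 : ℝ) ≤ m := by exact_mod_cast hm.1
      have hpos : (0 : ℝ) < ((p * m + i : ℕ) : ℝ) := by
        push_cast; positivity
      have h7 : ((p * m + i : ℕ) : ℝ) ≤ 2 * (p * m) := by
        push_cast
        nlinarith
      have h8 : ((p * m + i : ℕ) : ℝ) ^ 2 ≤ 4 * (p ^ 2 * m ^ 2) := by nlinarith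
      have h9 : 1 / ((p : ℝ) * (m : ℝ) ^ 2) ≤ 4 * (((p : ℝ) + 1) / ((p * m + i : ℕ) : ℝ) ^ 2) := by
        rw [mul_div_assoc', div_le_div_iff₀ (by positivity) (by positivity)]
        have h10 : 4 * ((p : ℝ) ^ 2 * m ^ 2) ≤ 4 * (p + 1) * (p * m ^ 2) := by
          have : (0 : ℝ) ≤ p * m ^ 2 := by positivity
          nlinarith
        linarith
      have h11 := mul_le_mul_of_nonneg_right h9 (hg0 (p * m + i))
      linarith
    linarith
  have hlow2 := sum_le_sum hlow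
  rw [sum_add_distrib] at hlow2
  have hinj : ∑ m ∈ Icc 1 N, ∑ i ∈ range p,
      4 * (((p : ℝ) + 1) / ((p * m + i : ℕ) : ℝ) ^ 2 * g (p * m + i)) ≤
      4 * ∑ M ∈ Icc 1 X, (((p : ℝ) + 1) / (M : ℝ) ^ 2) * g M := by
    rw [mul_sum]
    rw [← sum_product' (f := fun m i => 4 * (((p : ℝ) + 1) / ((p * m + i : ℕ) : ℝ) ^ 2 *
      g (p * m + i)))]
    rw [← sum_image (s := Icc 1 N ×ˢ range p) (g := fun x : ℕ × ℕ => p * x.1 + x.2)
      (f := fun M : ℕ => 4 * (((p : ℝ) + 1) / (M : ℝ) ^ 2 * g M))]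
    · apply sum_le_sum_of_subset_of_nonneg
      · intro M hM
        rw [mem_image] at hM
        obtain ⟨⟨m, i⟩, hmi, rfl⟩ := hM
        rw [mem_product, mem_Icc, mem_range] at hmi
        obtain ⟨⟨h1, h2⟩, h3⟩ := hmi
        simp only at h1 h2 h3
        have h4 := hNp m h2 h1
        rw [mem_Icc]
        simp only
        constructor
        · have : 1 ≤ p * m := Nat.mul_pos hp.pos h1
          omega
        · have : p * (m + 1) = p * m + p := by ring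
          omega
      · intro M _ _
        have := hg0 M
        positivity
    · intro x hx y hy hxy
      simp only [coe_product, coe_Icc, coe_range, Set.mem_prod, Set.mem_Icc, Set.mem_Iio] at hx hy
      simp only at hxy
      have h1 : x.1 = y.1 := by
        have : (p * x.1 + x.2) / p = (p * y.1 + y.2) / p := by rw [hxy]
        rwa [Nat.mul_add_div hp.pos, Nat.mul_add_div hp.pos, Nat.div_eq_of_lt hx.2,
          Nat.div_eq_of_lt hy.2, add_zero, add_zero] at this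
      rw [h1] at hxy
      exact Prod.ext h1 (by omega)
  have herr : ∑ m ∈ Icc 1 N, Cd * (√(m : ℝ) / (m : ℝ) ^ 2 + 1 / (m : ℝ) / p) ≤
      Cd * (3 + (1 + Real.log X) / p) := by
    rw [← mul_sum]
    apply mul_le_mul_of_nonneg_left _ hCd.le
    rw [sum_add_distrib, ← sum_div]
    have h1 := Avg_sqrt_sum N
    have h2 : ∑ m ∈ Icc 1 N, 1 / (m : ℝ) ≤ 1 + Real.log X := by
      refine le_trans ?_ (Avg_harm_le X)
      apply sum_le_sum_of_subset_of_nonneg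
      · intro m hm; rw [mem_Icc] at hm ⊢; omega
      · intro m _ _; positivity
    have h3 := div_le_div_of_nonneg_right h2 hp0.le
    linarith
  have hhigh : ∑ m ∈ Ioc N X, (1 / (m : ℝ) ^ 2) * f m ≤ Cs * (2 * (1 + Real.log p)) := by
    have h1 : ∀ m ∈ Ioc N X, (1 / (m : ℝ) ^ 2) * f m ≤ Cs * (1 / (m : ℝ)) := by
      intro m hm
      rw [mem_Ioc] at hm
      have hm0 : (0 : ℝ) < m := by exact_mod_cast (show 0 < m by omega)
      have h2 : f m ≤ Cs * m := hs m q g₁ g₂ _ (Avg_fz_norm ζ hζ)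
      have h3 : (1 / (m : ℝ) ^ 2) * f m ≤ (1 / (m : ℝ) ^ 2) * (Cs * m) :=
        mul_le_mul_of_nonneg_left h2 (by positivity)
      have h4 : (1 / (m : ℝ) ^ 2) * (Cs * m) = Cs * (1 / (m : ℝ)) := by field_simp
      linarith
    refine (sum_le_sum h1).trans ?_
    rw [← mul_sum]
    apply mul_le_mul_of_nonneg_left _ hCs.le
    have h2 : ∑ m ∈ Icc 1 X, 1 / (m : ℝ) = ∑ m ∈ Icc 1 N, 1 / (m : ℝ) + ∑ m ∈ Ioc N X, 1 / (m : ℝ) := by
      rw [← sum_union]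
      · congr 1
        ext m; simp only [mem_union, mem_Icc, mem_Ioc]; omega
      · rw [disjoint_left]; intro m h1 h2
        rw [mem_Icc] at h1; rw [mem_Ioc] at h2; omega
    have h3 := Avg_harm_le X
    have h4 := Avg_harm_ge N
    have h5 : Real.log X ≤ Real.log 2 + Real.log p + Real.log (N + 1 : ℕ) := by
      rw [← Real.log_mul (by norm_num) hp0.ne', ← Real.log_mul (by positivity) (by positivity)]
      apply Real.log_le_log (by exact_mod_cast (show 0 < X by omega))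
      have h6 : X ≤ 2 * p * (N + 1) := by
        have h7 := Nat.div_add_mod X p
        have h8 := Nat.mod_lt X hp.pos
        rcases Nat.eq_zero_or_pos (X / p) with h9 | h9
        · rw [h9] at h7
          have : 2 * p ≤ 2 * p * (N + 1) := Nat.le_mul_of_pos_right _ (by omega)
          omega
        · have h10 : N + 1 = X / p := by omega
          rw [h10]
          have : p ≤ p * (X / p) := Nat.le_mul_of_pos_right _ h9
          have h11 : 2 * p * (X / p) = 2 * (p * (X / p)) := by ring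
          omega
      exact_mod_cast h6
    have h6 := Real.log_two_lt_d9
    have h7 : 0 ≤ Real.log (p : ℝ) := Real.log_nonneg hp1
    linarith
  have hlogX : 0 ≤ Real.log (X : ℝ) := Real.log_natCast_nonneg X
  have hlogp : 0 ≤ Real.log (p : ℝ) := Real.log_nonneg hp1
  have hXp : 0 ≤ Real.log (X : ℝ) / p := by positivity
  have hone : (1 : ℝ) / p ≤ 1 := by rw [div_le_one hp0]; exact hp1
  have e1 : Cd * (3 + (1 + Real.log X) / p) = Cd * 3 + Cd * (1 / p) + Cd * (Real.log X / p) := by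
    ring
  have e2 : (4 * Cd + 2 * Cs) * Real.log X / p = (4 * Cd + 2 * Cs) * (Real.log X / p) := by ring
  have e3 : Cd * (1 / (p : ℝ)) ≤ Cd * 1 := mul_le_mul_of_nonneg_left hone hCd.le
  have e4 : 0 ≤ Cd * (Real.log X / p) := by positivity
  have e5 : 0 ≤ Cs * (Real.log X / p) := by positivity
  have e6 : 0 ≤ Cd * Real.log p := by positivity
  rw [hsplit, e2]
  nlinarith

/-- the bound for one choice of the parameters -/
theorem Avg_scale (b : ℝ) (q : ℕ) (g₁ g₂ : GI) (F : GI → ℂ) (hF : ∀ z, ‖F z‖ ≤ 1) (A P H m1 : ℕ)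
    (hm1 : 1 ≤ m1) (C2 : ℝ) (hC2 : 0 < C2) (m0 : ℕ)
    (h2 : ∀ m : ℕ, m0 ≤ m → ∀ c : ℕ → ℂ, (∀ k, ‖c k‖ ≤ 1) →
      ‖∑ p ∈ pr A P, c p * (((p : ℂ) + 1) * SPd b m q g₁ g₂ F p - SP b m q g₁ g₂ F p)‖ ≤
      C2 * m * √(dfc F b q m A P H * (pr A P).card)) :
    ∃ c : ℕ → ℕ → ℂ, (∀ m n, ‖c m n‖ ≤ 1) ∧ ∃ K : ℝ, 0 ≤ K ∧ ∀ X : ℕ,
      ∑ M ∈ Icc 1 X, ∑ p ∈ pr A P, (((p : ℝ) + 1) / (M : ℝ) ^ 2) * ‖SPd b M q g₁ g₂ F p‖ ≤
        K + C2 * (√(∑ M ∈ Icc 1 X, 1 / (M : ℝ)) *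
          √((∑ M ∈ Icc m1 X, (1 / (M : ℝ)) * dfc F b q M A P H) * (pr A P).card)) +
        ∑ M ∈ Icc 1 X, (1 / (M : ℝ) ^ 2) * ‖∑ p ∈ pr A P, c M p * SP b M q g₁ g₂ F p‖ := by
  classical
  set c : ℕ → ℕ → ℂ := fun M p => if SPd b M q g₁ g₂ F p = 0 then 0 else
    (starRingEnd ℂ) (SPd b M q g₁ g₂ F p) / ‖SPd b M q g₁ g₂ F p‖ with hc
  have hc1 : ∀ m n, ‖c m n‖ ≤ 1 := by
    intro m n
    simp only [hc]
    split_ifs with h
    · simp
    · rw [norm_div, RCLike.norm_conj, Complex.norm_real, norm_norm]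
      exact (div_self (norm_ne_zero_iff.2 h)).le
  have hc2 : ∀ M p, c M p * SPd b M q g₁ g₂ F p = ‖SPd b M q g₁ g₂ F p‖ := by
    intro M p
    simp only [hc]
    split_ifs with h
    · simp [h]
    · have h3 : (‖SPd b M q g₁ g₂ F p‖ : ℂ) ≠ 0 := by
        exact_mod_cast norm_ne_zero_iff.2 h
      rw [div_mul_eq_mul_div, div_eq_iff h3, Complex.conj_mul', sq]
  refine ⟨c, hc1, ∑ M ∈ range (max m0 m1), ∑ p ∈ pr A P,
    (((p : ℝ) + 1) / (M : ℝ) ^ 2) * ‖SPd b M q g₁ g₂ F p‖, ?_, ?_⟩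
  · exact sum_nonneg (fun M _ => sum_nonneg (fun p _ => by positivity))
  intro X
  set T : ℕ → ℝ := fun M => ∑ p ∈ pr A P, (((p : ℝ) + 1) / (M : ℝ) ^ 2) *
    ‖SPd b M q g₁ g₂ F p‖ with hT
  have hT0 : ∀ M, 0 ≤ T M := fun M => sum_nonneg (fun p _ => by positivity)
  set R : ℕ → ℝ := fun M => (1 / (M : ℝ) ^ 2) * ‖∑ p ∈ pr A P, c M p * SP b M q g₁ g₂ F p‖ with hR
  have hR0 : ∀ M, 0 ≤ R M := fun M => by positivity
  set D : ℕ → ℝ := fun M => dfc F b q M A P H with hD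
  have hD0 : ∀ M, 0 ≤ D M := fun M => dfc_nonneg F b q M A P H
  have hbig : ∀ M, m0 ≤ M → 1 ≤ M → T M ≤ C2 * (√(1 / (M : ℝ)) * √(1 / (M : ℝ) * D M * (pr A P).card)) + R M := by
    intro M hM hM1
    have hM0 : (0 : ℝ) < M := by exact_mod_cast hM1
    have h3 := h2 M hM (c M) (hc1 M)
    have h4 : ∑ p ∈ pr A P, ((p : ℝ) + 1) * ‖SPd b M q g₁ g₂ F p‖ ≤
        C2 * M * √(D M * (pr A P).card) + ‖∑ p ∈ pr A P, c M p * SP b M q g₁ g₂ F p‖ := by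
      have h5 : ((∑ p ∈ pr A P, ((p : ℝ) + 1) * ‖SPd b M q g₁ g₂ F p‖ : ℝ) : ℂ) =
          ∑ p ∈ pr A P, c M p * (((p : ℂ) + 1) * SPd b M q g₁ g₂ F p - SP b M q g₁ g₂ F p) +
          ∑ p ∈ pr A P, c M p * SP b M q g₁ g₂ F p := by
        rw [← sum_add_distrib]
        push_cast
        apply sum_congr rfl
        intro p _
        rw [← hc2]; ring
      have h6 : ∑ p ∈ pr A P, ((p : ℝ) + 1) * ‖SPd b M q g₁ g₂ F p‖ =
          ‖((∑ p ∈ pr A P, ((p : ℝ) + 1) * ‖SPd b M q g₁ g₂ F p‖ : ℝ) : ℂ)‖ := by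
        rw [Complex.norm_real, Real.norm_eq_abs, abs_of_nonneg]
        exact sum_nonneg (fun p _ => by positivity)
      rw [h6, h5]
      refine (norm_add_le _ _).trans ?_
      linarith
    have h5 : T M = (1 / (M : ℝ) ^ 2) * ∑ p ∈ pr A P, ((p : ℝ) + 1) * ‖SPd b M q g₁ g₂ F p‖ := by
      simp only [hT]
      rw [mul_sum]
      apply sum_congr rfl; intro p _; ring
    have h6 := mul_le_mul_of_nonneg_left h4 (by positivity : (0 : ℝ) ≤ 1 / (M : ℝ) ^ 2)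
    rw [← h5] at h6
    have h7 : (1 / (M : ℝ) ^ 2) * (C2 * M * √(D M * (pr A P).card)) =
        C2 * (√(1 / (M : ℝ)) * √(1 / (M : ℝ) * D M * (pr A P).card)) := by
      rw [mul_assoc (1 / (M : ℝ)) (D M), Real.sqrt_mul (by positivity) (D M * _), ← mul_assoc (√(1 / (M : ℝ))),
        Real.mul_self_sqrt (by positivity)]
      field_simp
    rw [mul_add, h7] at h6
    exact h6
  -- split the range
  have h3 : ∑ M ∈ Icc 1 X, T M ≤ ∑ M ∈ range (max m0 m1), T M +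
      ∑ M ∈ Icc (max m0 m1) X, T M := by
    have h4 : Icc 1 X ⊆ range (max m0 m1) ∪ Icc (max m0 m1) X := by
      intro M hM
      rw [mem_Icc] at hM
      rw [mem_union, mem_range, mem_Icc]
      omega
    refine (sum_le_sum_of_subset_of_nonneg h4 (fun M _ _ => hT0 M)).trans ?_
    have h5 := sum_union_inter (s₁ := range (max m0 m1)) (s₂ := Icc (max m0 m1) X) (f := T)
    have h6 : 0 ≤ ∑ M ∈ range (max m0 m1) ∩ Icc (max m0 m1) X, T M :=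
      sum_nonneg (fun M _ => hT0 M)
    linarith
  have h4 : ∑ M ∈ Icc (max m0 m1) X, T M ≤
      C2 * ∑ M ∈ Icc (max m0 m1) X, √(1 / (M : ℝ)) * √(1 / (M : ℝ) * D M * (pr A P).card) +
      ∑ M ∈ Icc (max m0 m1) X, R M := by
    rw [mul_sum, ← sum_add_distrib]
    apply sum_le_sum
    intro M hM
    rw [mem_Icc] at hM
    exact hbig M (by omega) (by omega)
  have h5 : ∑ M ∈ Icc (max m0 m1) X, √(1 / (M : ℝ)) * √(1 / (M : ℝ) * D M * (pr A P).card) ≤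
      √(∑ M ∈ Icc 1 X, 1 / (M : ℝ)) *
        √((∑ M ∈ Icc m1 X, (1 / (M : ℝ)) * D M) * (pr A P).card) := by
    refine (Real.sum_sqrt_mul_sqrt_le (Icc (max m0 m1) X) (f := fun M : ℕ => 1 / (M : ℝ))
      (g := fun M : ℕ => 1 / (M : ℝ) * D M * (pr A P).card) (fun M => by positivity)
      (fun M => by have := hD0 M; positivity)).trans ?_
    apply mul_le_mul
    · apply Real.sqrt_le_sqrt
      apply sum_le_sum_of_subset_of_nonneg
      · intro M hM; rw [mem_Icc] at hM ⊢; omega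
      · intro M _ _; positivity
    · apply Real.sqrt_le_sqrt
      rw [sum_mul]
      apply sum_le_sum_of_subset_of_nonneg
      · intro M hM; rw [mem_Icc] at hM ⊢; omega
      · intro M _ _; have := hD0 M; positivity
    · positivity
    · positivity
  have h6 : ∑ M ∈ Icc (max m0 m1) X, R M ≤ ∑ M ∈ Icc 1 X, R M := by
    apply sum_le_sum_of_subset_of_nonneg
    · intro M hM; rw [mem_Icc] at hM ⊢; omega
    · intro M _ _; exact hR0 M
  have h7 := mul_le_mul_of_nonneg_left h5 hC2.le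
  linarith

/-- the bound for one `j` -/
theorem Avg_j (b : ℝ) (hb : 1 < b) (ζ : ℂ) (hζ : ‖ζ‖ = 1) (q : ℕ) (hq : 1 ≤ q) (g₁ g₂ : GI) (ε : ℝ)
    (hε : 0 < ε) (A P H m1 : ℕ) (hm1 : 1 ≤ m1) (C1 : ℝ) (hC1 : 0 < C1)
    (h1 : ∀ p : ℕ, p.Prime → p % 4 = 1 → ¬ p ∣ q → ∀ X : ℕ, 2 ≤ X →
      ∑ m ∈ Icc 1 X, (1 / (m : ℝ) ^ 2) * ‖SS b m q g₁ g₂ (fun z => fz ζ (nm z))‖ ≤
      4 * ∑ M ∈ Icc 1 X, (((p : ℝ) + 1) / (M : ℝ) ^ 2) * ‖SPd b M q g₁ g₂ (fun z => fz ζ (nm z)) p‖ +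
        C1 * (Real.log p + 1) + C1 * Real.log X / p)
    (C2 : ℝ) (hC2 : 0 < C2) (m0 : ℕ)
    (h2 : ∀ m : ℕ, m0 ≤ m → ∀ c : ℕ → ℂ, (∀ k, ‖c k‖ ≤ 1) →
      ‖∑ p ∈ pr A P, c p * (((p : ℂ) + 1) * SPd b m q g₁ g₂ (fun z => fz ζ (nm z)) p -
        SP b m q g₁ g₂ (fun z => fz ζ (nm z)) p)‖ ≤
      C2 * m * √(dfc (fun z => fz ζ (nm z)) b q m A P H * (pr A P).card))
    (hP1 : 1 ≤ P) (hPq : q ≤ P) (hP8 : 8 * C1 / ε ≤ P) (hne : 0 < (pr A P).card) (X1 : ℕ)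
    (hsw : ∀ X : ℕ, X1 ≤ X → ∀ c : ℕ → ℕ → ℂ, (∀ m n, ‖c m n‖ ≤ 1) →
      ∑ m ∈ Icc 1 X, (1 / (m : ℝ) ^ 2) *
        ‖∑ p ∈ pr A P, c m p * SP b m q g₁ g₂ (fun z => fz ζ (nm z)) p‖ ≤
      ε / 32 * (pr A P).card * Real.log X) :
    ∃ K : ℝ, 0 ≤ K ∧ ∀ X : ℕ, X1 ≤ X → 3 ≤ X →
      ∑ m ∈ Icc m1 X, (1 / (m : ℝ)) * dfc (fun z => fz ζ (nm z)) b q m A P H ≤
        (ε / (64 * C2)) ^ 2 * (pr A P).card * ∑ m ∈ Icc m1 X, (1 / (m : ℝ)) →
      ∑ m ∈ Icc 1 X, (1 / (m : ℝ) ^ 2) * ‖SS b m q g₁ g₂ (fun z => fz ζ (nm z))‖ ≤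
        K + ε / 2 * Real.log X := by
  obtain ⟨c, hc, K0, hK0, hs⟩ := Avg_scale b q g₁ g₂ (fun z => fz ζ (nm z)) (Avg_fz_norm ζ hζ) A P H m1
    hm1 C2 hC2 m0 h2
  refine ⟨4 * K0 + C1 * (Real.log ((A : ℝ) * P) + 1), ?_, ?_⟩
  · have : 0 ≤ Real.log ((A : ℝ) * P) := by exact_mod_cast Real.log_natCast_nonneg (A * P)
    positivity
  intro X hX1 hX3 hdf
  have hX := hs X
  have hsw' := hsw X hX1 c hc
  set F : GI → ℂ := fun z => fz ζ (nm z) with hFdef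
  set L := ∑ m ∈ Icc 1 X, (1 / (m : ℝ) ^ 2) * ‖SS b m q g₁ g₂ F‖ with hL
  set s : ℝ := ((pr A P).card : ℝ) with hs'
  have hs1 : (1 : ℝ) ≤ s := by rw [hs']; exact_mod_cast hne
  set HX := ∑ M ∈ Icc 1 X, 1 / (M : ℝ) with hHX
  have hHX0 : 0 ≤ HX := sum_nonneg (fun M _ => by positivity)
  have hlog1 : 1 ≤ Real.log (X : ℝ) := by
    rw [Real.le_log_iff_exp_le (by positivity)]
    have h3 : (3 : ℝ) ≤ X := by exact_mod_cast hX3
    have := Real.exp_one_lt_d9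
    linarith
  have hHX1 : HX ≤ 2 * Real.log X := by
    have := Avg_harm_le X
    linarith
  have hHm : ∑ m ∈ Icc m1 X, (1 / (m : ℝ)) ≤ HX := by
    apply sum_le_sum_of_subset_of_nonneg
    · intro M hM; rw [mem_Icc] at hM ⊢; omega
    · intro M _ _; positivity
  -- Cauchy-Schwarz term
  have hCS : √HX * √((∑ M ∈ Icc m1 X, (1 / (M : ℝ)) * dfc F b q M A P H) * s) ≤
      ε / (64 * C2) * s * HX := by
    have h3 : (∑ M ∈ Icc m1 X, (1 / (M : ℝ)) * dfc F b q M A P H) * s ≤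
        (ε / (64 * C2) * s) ^ 2 * HX := by
      have h4 : (∑ M ∈ Icc m1 X, (1 / (M : ℝ)) * dfc F b q M A P H) ≤
          (ε / (64 * C2)) ^ 2 * s * HX := by
        refine hdf.trans ?_
        apply mul_le_mul_of_nonneg_left hHm (by positivity)
      have h5 := mul_le_mul_of_nonneg_right h4 (by linarith : (0 : ℝ) ≤ s)
      refine h5.trans (le_of_eq (by ring))
    have h4 := Real.sqrt_le_sqrt h3
    rw [Real.sqrt_mul (show (0 : ℝ) ≤ (ε / (64 * C2) * s) ^ 2 by positivity) HX,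
      Real.sqrt_sq (show (0 : ℝ) ≤ ε / (64 * C2) * s by positivity)] at h4
    have h5 := mul_le_mul_of_nonneg_left h4 (Real.sqrt_nonneg HX)
    refine h5.trans (le_of_eq ?_)
    have h6 := Real.mul_self_sqrt hHX0
    calc √HX * (ε / (64 * C2) * s * √HX) = ε / (64 * C2) * s * (√HX * √HX) := by ring
      _ = ε / (64 * C2) * s * HX := by rw [h6]
  have hT : ∑ M ∈ Icc 1 X, ∑ p ∈ pr A P, (((p : ℝ) + 1) / (M : ℝ) ^ 2) * ‖SPd b M q g₁ g₂ F p‖ ≤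
      K0 + ε / 16 * s * Real.log X := by
    have h3 := mul_le_mul_of_nonneg_left hCS hC2.le
    have h4 : C2 * (ε / (64 * C2) * s * HX) = ε / 64 * s * HX := by field_simp
    have h5 : ε / 64 * s * HX ≤ ε / 64 * s * (2 * Real.log X) :=
      mul_le_mul_of_nonneg_left hHX1 (by positivity)
    linarith
  -- average over the primes
  have hp : ∀ p ∈ pr A P, L ≤ 4 * ∑ M ∈ Icc 1 X, (((p : ℝ) + 1) / (M : ℝ) ^ 2) *
      ‖SPd b M q g₁ g₂ F p‖ + (C1 * (Real.log ((A : ℝ) * P) + 1) + ε / 8 * Real.log X) := by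
    intro p hp
    unfold pr at hp
    rw [mem_filter, mem_Ioc] at hp
    obtain ⟨⟨hp1, hp2⟩, hp3, hp4⟩ := hp
    have h3 := h1 p hp3 hp4 (fun hd => absurd (Nat.le_of_dvd (by omega) hd) (by omega)) X (by omega)
    have hp0 : (0 : ℝ) < p := by exact_mod_cast hp3.pos
    have h4 : Real.log p ≤ Real.log ((A : ℝ) * P) := by
      apply Real.log_le_log hp0
      exact_mod_cast hp2
    have h5 : C1 * Real.log X / p ≤ ε / 8 * Real.log X := by
      have h6 : C1 / p ≤ ε / 8 := by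
        have hPp : (P : ℝ) ≤ p := by exact_mod_cast hp1.le
        rw [div_le_div_iff₀ hp0 (by norm_num)]
        rw [div_le_iff₀ hε] at hP8
        nlinarith
      calc C1 * Real.log X / p = C1 / p * Real.log X := by ring
        _ ≤ ε / 8 * Real.log X := mul_le_mul_of_nonneg_right h6 (by linarith)
    have h6 : C1 * (Real.log p + 1) ≤ C1 * (Real.log ((A : ℝ) * P) + 1) :=
      mul_le_mul_of_nonneg_left (by linarith) hC1.le
    linarith
  have hsum := sum_le_sum hp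
  rw [sum_const, nsmul_eq_mul, sum_add_distrib, sum_const, nsmul_eq_mul, ← mul_sum, sum_comm] at hsum
  have h8 : s * L ≤ 4 * (K0 + ε / 16 * s * Real.log X) +
      s * (C1 * (Real.log ((A : ℝ) * P) + 1) + ε / 8 * Real.log X) := by linarith
  have h9 : 4 * K0 ≤ s * (4 * K0) := by nlinarith
  have h10 : s * L ≤ s * (4 * K0 + C1 * (Real.log ((A : ℝ) * P) + 1) + ε / 2 * Real.log X) := by
    have h11 : 0 ≤ ε * s * Real.log X := by positivity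
    nlinarith
  exact le_of_mul_le_mul_left h10 (by linarith)

theorem avg (k : ℕ) (hk : 1 ≤ k) (ζ : ℂ) (hζ : ζ ^ k = 1) (hζ1 : ζ ≠ 1) (b : ℝ) (hb : 1 < b) (q : ℕ)
    (hq : 1 ≤ q) (g₁ g₂ : GI) (ε : ℝ) (hε : 0 < ε) : ∃ X0 : ℕ, ∀ X : ℕ, X0 ≤ X →
    ∑ m ∈ Icc 1 X, (1 / (m : ℝ) ^ 2) * ‖SS b m q g₁ g₂ (fun z => fz ζ (nm z))‖ ≤ ε * Real.log X := by
  classical
  have hζn : ‖ζ‖ = 1 := Complex.norm_eq_one_of_pow_eq_one hζ (by omega)
  obtain ⟨A, hA⟩ := exists_GA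
  obtain ⟨hA2, c0, hc0, Pg, hPg2, hPg⟩ := id hA
  obtain ⟨C1, hC1, h1⟩ := avg_one b hb
  obtain ⟨C2, hC2, h2⟩ := gst b hb
  obtain ⟨Ps, hPs⟩ := swp_av ζ hζn hζ1 b hb A hA q hq (ε / 32) (by positivity)
  obtain ⟨P₀, H₀, J, m1, hP1, hP2, hJ, hm1, hH, hprm⟩ := prm b hb A hA q hq k hk
    ((ε / (64 * C2)) ^ 2) (by positivity) (Ps + Pg + q + ⌈8 * C1 / ε⌉₊)
  have hAj : ∀ j : ℕ, 1 ≤ A ^ j := fun j => Nat.one_le_pow _ _ (by omega)
  have hPj : ∀ j : ℕ, P₀ ≤ A ^ j * P₀ := fun j => Nat.le_mul_of_pos_left _ (hAj j)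
  have hVF : ∃ V : Finset ℂ, V.card ≤ k ∧ ∀ z : GI, fz ζ (nm z) ∈ V := by
    refine ⟨(range k).image (fun i => ζ ^ i), (card_image_le).trans (by rw [card_range]), ?_⟩
    intro z
    rw [mem_image]
    refine ⟨(ArithmeticFunction.cardFactors (nm z)) % k, mem_range.2 (Nat.mod_lt _ hk), ?_⟩
    unfold fz
    conv_rhs => rw [← Nat.div_add_mod (ArithmeticFunction.cardFactors (nm z)) k, pow_add, pow_mul,
      hζ, one_pow, one_mul]
  have hj : ∀ j : ℕ, ∃ X1 : ℕ, ∃ K : ℝ, 0 ≤ K ∧ ∀ X : ℕ, X1 ≤ X → 3 ≤ X →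
      ∑ m ∈ Icc m1 X, (1 / (m : ℝ)) *
        dfc (fun z => fz ζ (nm z)) b q m A (A ^ j * P₀) (A ^ j * H₀) ≤
        (ε / (64 * C2)) ^ 2 * (pr A (A ^ j * P₀)).card * ∑ m ∈ Icc m1 X, (1 / (m : ℝ)) →
      ∑ m ∈ Icc 1 X, (1 / (m : ℝ) ^ 2) * ‖SS b m q g₁ g₂ (fun z => fz ζ (nm z))‖ ≤
        K + ε / 2 * Real.log X := by
    intro j
    have hge : P₀ ≤ A ^ j * P₀ := hPj j
    obtain ⟨X1, hX1, hX2⟩ := hPs (A ^ j * P₀) (by omega)
    have hHj : 8 * b * ((A * (A ^ j * P₀) : ℕ) : ℝ) + 2 ≤ ((A ^ j * H₀ : ℕ) : ℝ) := by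
      have h3 : (1 : ℝ) ≤ (A : ℝ) ^ j := by exact_mod_cast hAj j
      have h4 := mul_le_mul_of_nonneg_left hH (by linarith : (0 : ℝ) ≤ (A : ℝ) ^ j)
      push_cast at h4 ⊢
      nlinarith
    obtain ⟨m0, hm0⟩ := h2 A (A ^ j * P₀) (A ^ j * H₀) (by omega) hA2 hHj
    have hne : 0 < (pr A (A ^ j * P₀)).card := by
      have h3 := hPg (A ^ j * P₀) (by omega)
      have h4 : (0 : ℝ) < ((pr A (A ^ j * P₀)).card : ℝ) := by
        refine lt_of_lt_of_le ?_ h3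
        have h5 : (2 : ℝ) ≤ ((A ^ j * P₀ : ℕ) : ℝ) := by exact_mod_cast (show 2 ≤ A ^ j * P₀ by omega)
        have h6 : 0 < Real.log ((A ^ j * P₀ : ℕ) : ℝ) := Real.log_pos (by linarith)
        positivity
      exact_mod_cast h4
    obtain ⟨K, hK, hKX⟩ := Avg_j b hb ζ hζn q hq g₁ g₂ ε hε A (A ^ j * P₀) (A ^ j * H₀) m1 hm1 C1 hC1
      (fun p hp hp4 hpq X hX => h1 ζ hζn q hq p hp hp4 hpq X hX g₁ g₂) C2 hC2 m0
      (fun m hm c hc => hm0 m hm q g₁ g₂ _ (Avg_fz_norm ζ hζn) c hc) (by omega) (by omega)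
      (by
        have h3 : 8 * C1 / ε ≤ (⌈8 * C1 / ε⌉₊ : ℝ) := Nat.le_ceil _
        have h4 : ((⌈8 * C1 / ε⌉₊ : ℕ) : ℝ) ≤ ((A ^ j * P₀ : ℕ) : ℝ) := by
          exact_mod_cast (show ⌈8 * C1 / ε⌉₊ ≤ A ^ j * P₀ by omega)
        linarith) hne X1 (fun X hX c hc => hX2 X hX c hc g₁ g₂)
    exact ⟨X1, K, hK, hKX⟩
  choose X1 K hK hKX using hj
  -- the threshold
  have hlog : Filter.Tendsto (fun X : ℕ => Real.log (X : ℝ)) Filter.atTop Filter.atTop :=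
    Real.tendsto_log_atTop.comp tendsto_natCast_atTop_atTop
  obtain ⟨X2, hX2⟩ := Filter.eventually_atTop.1
    (hlog.eventually_ge_atTop (2 * (∑ j ∈ range J, K j) / ε))
  refine ⟨X2 + m1 + 3 + ∑ j ∈ range J, X1 j, ?_⟩
  intro X hX
  obtain ⟨j, hjJ, hjp⟩ := hprm (fun z => fz ζ (nm z)) hVF X (by omega)
  have hX1j : X1 j ≤ ∑ j ∈ range J, X1 j :=
    single_le_sum (f := X1) (fun _ _ => Nat.zero_le _) (mem_range.2 hjJ)
  have hKj : K j ≤ ∑ j ∈ range J, K j :=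
    single_le_sum (f := K) (fun i _ => hK i) (mem_range.2 hjJ)
  have h3 := hKX j X (by omega) (by omega) hjp
  have h4 := hX2 X (by omega)
  rw [div_le_iff₀ hε] at h4
  linarith

end Pool.Agent.FCH
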