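import Pool.Agent.FCH.Loc

set_option autoImplicit false

/-! Module BAD: port of `Pool/Agent/MR/AMeasBad.lean` (`T = N^{3/2}` there, `K ≤ N` here; `meas_large` here has `C^(l+1)`). -/

open Finset Filter

namespace Pool.Agent.FCH

open Pool.Agent.MRS hiding Good

lemma bad_log_small (δ : ℝ) (hδ : 0 < δ) :
    ∀ᶠ L : ℝ in atTop, Real.log L ≤ δ * L ^ (1 / 12 : ℝ) := by
  have h := (isLittleO_log_rpow_atTop (r := 1 / 12) (by norm_num)).bound hδ
  filter_upwards [h, eventually_ge_atTop 1] with L hL h1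
  have h2 : 0 ≤ Real.log L := Real.log_nonneg h1
  rw [Real.norm_of_nonneg h2, Real.norm_of_nonneg (by positivity)] at hL
  exact hL

lemma bad_rpow_large (K : ℝ) : ∀ᶠ L : ℝ in atTop, K ≤ L ^ (1 / 12 : ℝ) :=
  (tendsto_rpow_atTop (by norm_num)).eventually_ge_atTop K

/-- The asymptotic inequalities. -/
lemma bad_asym (A ε : ℝ) (hA : 1 ≤ A) (hε : 0 < ε) : ∀ᶠ L : ℝ in atTop,
    1 ≤ L ∧ 2 ≤ L ^ (1 / 12 : ℝ) ∧
    (3 / 2 * L) / (L ^ (1 / 12 : ℝ) - 1) + 1 ≤ 2 * L ^ (11 / 12 : ℝ) ∧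
    100 * ((A + 1) * Real.log L * √L + 1) ≤ Real.exp (ε * L) ∧
    2 * ε * √L ≤ ε * L ∧
    2 * L ^ (11 / 12 : ℝ) * Real.log (2 * L ^ (11 / 12 : ℝ) + 1) ≤ ε * L ∧
    4 * L ^ (11 / 12 : ℝ) ≤ ε * L := by
  have e1 := bad_log_small (ε / 4) (by positivity)
  have e2 := bad_rpow_large (max 8 (4 / ε))
  have e3 : ∀ᶠ L : ℝ in atTop, 100 * ((A + 1) * Real.log L * √L + 1) ≤ Real.exp (ε * L) := by
    have h : Tendsto (fun L : ℝ => L ^ 2 / Real.exp (ε * L)) atTop (nhds 0) := by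
      have h0 := Real.tendsto_pow_mul_exp_neg_atTop_nhds_zero 2
      have h1 : Tendsto (fun L : ℝ => ε * L) atTop atTop := tendsto_id.const_mul_atTop hε
      have h2 := (h0.comp h1).const_mul (1 / ε ^ 2)
      rw [mul_zero] at h2
      refine h2.congr fun L => ?_
      simp only [Function.comp]
      rw [Real.exp_neg]
      field_simp
    have hc : 0 < 1 / (100 * (A + 2)) := by positivity
    have h3 := (h.eventually_lt_const hc)
    filter_upwards [h3, eventually_ge_atTop 1] with L hL hL1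
    have hE : 0 < Real.exp (ε * L) := Real.exp_pos _
    rw [div_lt_div_iff₀ hE (by positivity)] at hL
    have h4 : Real.log L ≤ L := (Real.log_le_sub_one_of_pos (by linarith)).trans (by linarith)
    have h4' : 0 ≤ Real.log L := Real.log_nonneg hL1
    have h5 : √L ≤ L := by
      rw [Real.sqrt_le_left (by linarith)]
      nlinarith
    have h5' : 0 ≤ √L := Real.sqrt_nonneg _
    have h6 : Real.log L * √L ≤ L * L := mul_le_mul h4 h5 h5' (by linarith)
    have h7 : (A + 1) * Real.log L * √L ≤ (A + 1) * (L * L) := by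
      rw [mul_assoc]
      exact mul_le_mul_of_nonneg_left h6 (by linarith)
    have h8 : 1 ≤ L * L := by nlinarith
    nlinarith
  filter_upwards [e1, e2, e3, eventually_ge_atTop 4] with L h1 h2 h3 h4
  have hL0 : 0 < L := by linarith
  set t : ℝ := L ^ (1 / 12 : ℝ) with ht
  set s : ℝ := L ^ (11 / 12 : ℝ) with hs
  have ht8 : 8 ≤ t := (le_max_left _ _).trans h2
  have htε : 4 / ε ≤ t := (le_max_right _ _).trans h2
  have hst : s * t = L := by
    rw [hs, ht, ← Real.rpow_add hL0]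
    norm_num
  have hs0 : 0 < s := by rw [hs]; positivity
  have hs1 : 1 ≤ s := by
    rw [hs]
    exact Real.one_le_rpow (by linarith) (by norm_num)
  have hts : t ≤ s := by
    rw [ht, hs]
    exact Real.rpow_le_rpow_of_exponent_le (by linarith) (by norm_num)
  have hεt : 4 ≤ ε * t := by
    rw [div_le_iff₀ hε] at htε
    linarith
  refine ⟨by linarith, by linarith, ?_, h3, ?_, ?_, ?_⟩
  · rw [← le_sub_iff_add_le, div_le_iff₀ (by linarith)]
    nlinarith
  · have h5 : √L * √L = L := Real.mul_self_sqrt hL0.le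
    have h6 : 2 ≤ √L := by
      rw [Real.le_sqrt (by norm_num) hL0.le]
      linarith
    have h6' : 2 * √L ≤ L := by nlinarith [Real.sqrt_nonneg L]
    calc 2 * ε * √L = ε * (2 * √L) := by ring
      _ ≤ ε * L := mul_le_mul_of_nonneg_left h6' hε.le
  · have h7 : Real.log (2 * s + 1) ≤ 2 * Real.log L := by
      have h8 : 2 * s + 1 ≤ L ^ 2 := by nlinarith
      calc Real.log (2 * s + 1) ≤ Real.log (L ^ 2) := Real.log_le_log (by linarith) h8
        _ = 2 * Real.log L := by rw [Real.log_pow]; norm_num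
    calc 2 * s * Real.log (2 * s + 1) ≤ 2 * s * (2 * (ε / 4 * t)) := by
          refine mul_le_mul_of_nonneg_left ?_ (by linarith)
          linarith
      _ = ε * (s * t) := by ring
      _ = ε * L := by rw [hst]
  · calc 4 * s ≤ (ε * t) * s := mul_le_mul_of_nonneg_right hεt hs0.le
      _ = ε * (s * t) := by ring
      _ = ε * L := by rw [hst]


lemma bad_const (C ε : ℝ) (hε : 0 < ε) : ∀ᶠ L : ℝ in atTop,
    (2 * L ^ (11 / 12 : ℝ) + 1) * Real.log C ≤ ε * L := by
  rcases le_or_gt (Real.log C) 0 with h0 | h0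
  · filter_upwards [eventually_ge_atTop (0 : ℝ)] with L hL
    have h1 : (2 * L ^ (11 / 12 : ℝ) + 1) * Real.log C ≤ 0 :=
      mul_nonpos_of_nonneg_of_nonpos (by positivity) h0
    have h2 : 0 ≤ ε * L := by positivity
    linarith
  · filter_upwards [bad_rpow_large (3 * Real.log C / ε), eventually_ge_atTop (1 : ℝ)] with L h1 h2
    have hL0 : 0 < L := by linarith
    have hst : L ^ (11 / 12 : ℝ) * L ^ (1 / 12 : ℝ) = L := by
      rw [← Real.rpow_add hL0]
      norm_num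
    have hs1 : 1 ≤ L ^ (11 / 12 : ℝ) := Real.one_le_rpow h2 (by norm_num)
    rw [div_le_iff₀ hε] at h1
    calc (2 * L ^ (11 / 12 : ℝ) + 1) * Real.log C
        ≤ (3 * L ^ (11 / 12 : ℝ)) * Real.log C :=
          mul_le_mul_of_nonneg_right (by linarith) h0.le
      _ = L ^ (11 / 12 : ℝ) * (3 * Real.log C) := by ring
      _ ≤ L ^ (11 / 12 : ℝ) * (L ^ (1 / 12 : ℝ) * ε) :=
          mul_le_mul_of_nonneg_left h1 (by linarith)
      _ = ε * (L ^ (11 / 12 : ℝ) * L ^ (1 / 12 : ℝ)) := by ring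
      _ = ε * L := by rw [hst]

lemma bad_HH_pos {A : ℝ} (hA : 1 ≤ A) (j : ℕ) : 1 ≤ HH A j := by
  unfold HH
  have h1 : 1 ≤ ⌈A⌉₊ := Nat.one_le_ceil_iff.2 (by linarith)
  have h2 : 1 ≤ 2 ^ j := Nat.one_le_two_pow
  calc 1 = 1 * 1 := rfl
    _ ≤ ⌈A⌉₊ * 2 ^ j := Nat.mul_le_mul h1 h2

/-- Number of bad `k` of the last level. -/
theorem meas_bad : ∃ A0 : ℝ, 1 ≤ A0 ∧ ∀ A : ℝ, A0 ≤ A → ∀ ε : ℝ, 0 < ε → ε ≤ 1 / 4 →
    ∃ N0 : ℝ, ∀ N : ℝ, N0 ≤ N → ∀ J : ℕ, 1 ≤ J → (MRS.lp A J) ^ 2 ≤ √(Real.log N) →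
      √(Real.log N) < (MRS.lp A (J + 1)) ^ 2 → ∀ cc : GI → ℂ, CG cc → ∀ K : ℕ, (K : ℝ) ≤ N →
      open Classical in
      (((Icc (-(K : ℤ)) (K : ℤ)).filter (fun k => ¬ Good cc A ε J k)).card : ℝ) ≤ N ^ (8 * ε) := by
  obtain ⟨A0, hA0, hfacts⟩ := pset_facts
  obtain ⟨C, hC1, hlarge⟩ := meas_large
  refine ⟨A0, hA0, ?_⟩
  intro A hA ε hε hε4
  have hA1 : 1 ≤ A := hA0.trans hA
  have hev := ((Real.tendsto_log_atTop.eventually (bad_asym A ε hA1 hε)).and
    (Real.tendsto_log_atTop.eventually (bad_const C ε hε))).and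
    (eventually_ge_atTop (1 : ℝ))
  obtain ⟨N0, hN0⟩ := eventually_atTop.1 hev
  refine ⟨N0, ?_⟩
  intro N hN J hJ hJ1 hJ2 cc hf K hK
  obtain ⟨⟨⟨hL1, hL2, hL3, hL4, hL5, hL6, hL7⟩, hL8⟩, hN1⟩ := hN0 N hN
  set L : ℝ := Real.log N with hLdef
  have hNpos : 0 < N := by linarith
  have hL0 : 0 < L := by linarith
  obtain ⟨_, hcard, hvs⟩ := hfacts A hA J hJ
  set H : ℕ := HH A J with hH
  have hH1 : 1 ≤ H := bad_HH_pos hA1 J
  have hHR : (1 : ℝ) ≤ H := by exact_mod_cast hH1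
  set x0 : ℝ := MRS.lp A J with hx0
  -- lower bound for MRS.lp A J
  have hx0L : L ^ (1 / 12 : ℝ) ≤ x0 := by
    have h1 : MRS.lp A (J + 1) = x0 ^ 3 := by
      rw [hx0, MRS.lp, MRS.lp, ← Real.exp_nat_mul]
      congr 1
      push_cast
      ring
    rw [h1] at hJ2
    have h2 : √L < x0 ^ 6 := by
      calc √L < (x0 ^ 3) ^ 2 := hJ2
        _ = x0 ^ 6 := by ring
    have h3 : √L = (L ^ (1 / 12 : ℝ)) ^ 6 := by
      rw [← Real.rpow_natCast, ← Real.rpow_mul hL0.le, Real.sqrt_eq_rpow]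
      norm_num
    have hx00 : 0 ≤ x0 := by rw [hx0, MRS.lp]; positivity
    rw [h3] at h2
    exact le_of_lt (lt_of_pow_lt_pow_left₀ 6 hx00 h2)
  -- bound for the number of blocks
  have h2J : (H : ℝ) ≤ (A + 1) * Real.log L := by
    have h1 : (H : ℝ) = (⌈A⌉₊ : ℝ) * 2 ^ J := by rw [hH, HH]; push_cast; ring
    have h2 : (⌈A⌉₊ : ℝ) ≤ A + 1 := (Nat.ceil_lt_add_one (by linarith)).le
    have h3 : (2 : ℝ) ^ J ≤ Real.log L := by
      have h4 : (2 : ℝ) ^ J ≤ 3 ^ J := pow_le_pow_left₀ (by norm_num) (by norm_num) J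
      have h5 : x0 ^ 2 ≤ L := by
        refine hJ1.trans ?_
        rw [Real.sqrt_le_left hL0.le]
        nlinarith
      have hx00 : 0 < x0 := by rw [hx0, MRS.lp]; positivity
      have h6 : Real.log (x0 ^ 2) ≤ Real.log L := Real.log_le_log (by positivity) h5
      have h7 : Real.log (x0 ^ 2) = 2 * (A * 3 ^ J) := by
        rw [Real.log_pow, hx0, MRS.lp, Real.log_exp]
        norm_num
      have h8 : (0 : ℝ) < 3 ^ J := by positivity
      nlinarith
    rw [h1]
    exact mul_le_mul h2 h3 (by positivity) (by linarith)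
  have hcard2 : ((vs H (pset A J)).card : ℝ) ≤ (A + 1) * Real.log L * √L + 1 := by
    refine hcard.trans ?_
    have h1 : (H : ℝ) * x0 ^ 2 ≤ (A + 1) * Real.log L * √L :=
      mul_le_mul h2J hJ1 (by positivity) (le_trans (by positivity) h2J)
    linarith
  have hNexp : N = Real.exp L := by rw [hLdef, Real.exp_log hNpos]
  set a : ℝ := al ε J with ha
  have ha0 : 0 ≤ a := by
    rw [ha, al]
    have : (1 / 2 : ℝ) ^ J ≤ 1 := pow_le_one₀ (by norm_num) (by norm_num)
    exact mul_nonneg hε.le (by linarith)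
  have haε : a ≤ ε := by
    rw [ha, al]
    have : (0 : ℝ) ≤ (1 / 2 : ℝ) ^ J := by positivity
    nlinarith
  classical
  set E : ℕ → Finset ℤ := fun v => (Icc (-(K : ℤ)) (K : ℤ)).filter (fun k : ℤ =>
    Real.exp ((1 - a) * (v / H)) < ‖sp (pb H (pset A J) v) cc k‖) with hE
  have hEv : ∀ v ∈ vs H (pset A J), ((E v).card : ℝ) ≤ Real.exp (7 * ε * L) := by
    intro v hv
    obtain ⟨hv1, hv2⟩ := hvs v hv
    set x : ℝ := (v : ℝ) / H with hx
    have hxL : L ^ (1 / 12 : ℝ) - 1 ≤ x := by linarith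
    have hx0' : 0 < x := by linarith
    have hxs : x ≤ √L := hv2.trans hJ1
    set l : ℕ := ⌈3 / 2 * L / x⌉₊ with hl
    have hl1 : 3 / 2 * L ≤ l * x := by
      have := Nat.le_ceil (3 / 2 * L / x)
      rw [div_le_iff₀ hx0'] at this
      exact this
    have hl2 : (l : ℝ) ≤ 3 / 2 * L / x + 1 :=
      (Nat.ceil_lt_add_one (by positivity)).le
    have hl3 : (l : ℝ) * x ≤ 3 / 2 * L + √L := by
      calc (l : ℝ) * x ≤ (3 / 2 * L / x + 1) * x := mul_le_mul_of_nonneg_right hl2 hx0'.le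
        _ = 3 / 2 * L + x := by field_simp
        _ ≤ 3 / 2 * L + √L := by linarith
    have hl4 : (l : ℝ) ≤ 2 * L ^ (11 / 12 : ℝ) := by
      refine hl2.trans (le_trans ?_ hL3)
      have : 3 / 2 * L / x ≤ 3 / 2 * L / (L ^ (1 / 12 : ℝ) - 1) :=
        div_le_div_of_nonneg_left (by positivity) (by linarith) hxL
      linarith
    have hpbP : ∀ p ∈ pset A J, PP p := fun p hp => (mem_pset.1 hp).1
    have hpbp : ∀ p ∈ pb H (pset A J) v, PP p := fun p hp =>
      hpbP p (mem_pb hH1 hpbP hp).1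
    have hz : ∀ p ∈ pb H (pset A J) v, Real.exp (v / H) ≤ nm p ∧
        (nm p : ℝ) ≤ Real.exp ((v + 1) / H) := fun p hp =>
      ⟨(mem_pb hH1 hpbP hp).2.1, (mem_pb hH1 hpbP hp).2.2.le⟩
    have hH2 : 2 ≤ H := by
      rw [hH, HH]
      have h1 : 1 ≤ ⌈A⌉₊ := Nat.one_le_ceil_iff.2 (by linarith)
      have h2 : 2 ≤ 2 ^ J := by
        calc 2 = 2 ^ 1 := by norm_num
          _ ≤ 2 ^ J := Nat.pow_le_pow_right (by norm_num) hJ
      calc 2 = 1 * 2 := by norm_num
        _ ≤ ⌈A⌉₊ * 2 ^ J := Nat.mul_le_mul h1 h2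
    have hrs : rs (pb H (pset A J) v) ≤ 1 := rs_pb_le hH2 hpbP v
    have hTl : (K : ℝ) ≤ Real.exp (l * (v / H)) := by
      refine hK.trans ?_
      rw [hNexp, Real.exp_le_exp]
      linarith
    have hm := hlarge cc hf (pb H (pset A J) v) hpbp H v l hH1 hrs hz a K hTl
    refine hm.trans ?_
    have h5 : ((l : ℝ) + 1) ^ l ≤ Real.exp (ε * L) := by
      have h6 : ((l : ℝ) + 1) ^ l = Real.exp (l * Real.log (l + 1)) := by
        rw [← Real.exp_log (show (0 : ℝ) < (l : ℝ) + 1 by positivity), ← Real.exp_nat_mul,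
          Real.log_exp]
      rw [h6, Real.exp_le_exp]
      have h7 : Real.log ((l : ℝ) + 1) ≤ Real.log (2 * L ^ (11 / 12 : ℝ) + 1) :=
        Real.log_le_log (by positivity) (by linarith)
      have h8 : 0 ≤ Real.log ((l : ℝ) + 1) := Real.log_nonneg (by linarith [Nat.cast_nonneg (α := ℝ) l])
      calc (l : ℝ) * Real.log (l + 1)
          ≤ (2 * L ^ (11 / 12 : ℝ)) * Real.log (2 * L ^ (11 / 12 : ℝ) + 1) :=
            mul_le_mul hl4 h7 h8 (by positivity)
        _ ≤ ε * L := hL6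
    have h5' : C ^ (l + 1) ≤ Real.exp (ε * L) := by
      have h6 : C ^ (l + 1) = Real.exp (((l : ℝ) + 1) * Real.log C) := by
        rw [← Real.exp_log (show (0 : ℝ) < C by linarith), ← Real.exp_nat_mul,
          Real.log_exp]
        push_cast
        rfl
      rw [h6, Real.exp_le_exp]
      refine le_trans ?_ hL8
      exact mul_le_mul_of_nonneg_right (by linarith) (Real.log_nonneg hC1)
    have h9 : 2 * a * (l * (v / H)) + 2 * l / H ≤ 5 * (ε * L) := by
      have h10 : 2 * a * (l * x) ≤ 2 * ε * (3 / 2 * L + √L) :=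
        mul_le_mul (by linarith) hl3 (by positivity) (by linarith)
      have h11 : 2 * (l : ℝ) / H ≤ 4 * L ^ (11 / 12 : ℝ) := by
        rw [div_le_iff₀ (by linarith)]
        have h12 : (0 : ℝ) ≤ L ^ (11 / 12 : ℝ) := by positivity
        nlinarith
      calc 2 * a * (l * (v / H)) + 2 * l / H
          ≤ 2 * ε * (3 / 2 * L + √L) + 4 * L ^ (11 / 12 : ℝ) := add_le_add h10 h11
        _ = 3 * (ε * L) + 2 * ε * √L + 4 * L ^ (11 / 12 : ℝ) := by ring
        _ ≤ 5 * (ε * L) := by linarith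
    calc C ^ (l + 1) * ((l : ℝ) + 1) ^ l * Real.exp (2 * a * (l * (v / H)) + 2 * l / H)
        ≤ Real.exp (ε * L) * Real.exp (ε * L) * Real.exp (5 * (ε * L)) := by
          refine mul_le_mul (mul_le_mul h5' h5 (by positivity) (Real.exp_pos _).le)
            (Real.exp_le_exp.2 h9) (Real.exp_pos _).le (by positivity)
      _ = Real.exp (7 * ε * L) := by
          rw [← Real.exp_add, ← Real.exp_add]
          congr 1
          ring
  have hsub : (Icc (-(K : ℤ)) (K : ℤ)).filter (fun k => ¬ Good cc A ε J k) ⊆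
      (vs H (pset A J)).biUnion E := by
    intro t ht
    obtain ⟨ht1, ht2⟩ := Finset.mem_filter.1 ht
    unfold Good at ht2
    push Not at ht2
    obtain ⟨v, hv, hv2⟩ := ht2
    rw [Finset.mem_biUnion]
    exact ⟨v, hv, Finset.mem_filter.2 ⟨ht1, hv2⟩⟩
  have h100 : (1 : ℝ) * ((A + 1) * Real.log L * √L + 1) ≤
      100 * ((A + 1) * Real.log L * √L + 1) := by
    refine mul_le_mul_of_nonneg_right (by norm_num) ?_
    exact le_trans (Nat.cast_nonneg _) hcard2
  calc (((Icc (-(K : ℤ)) (K : ℤ)).filter (fun k => ¬ Good cc A ε J k)).card : ℝ)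
      ≤ (((vs H (pset A J)).biUnion E).card : ℝ) := by
        exact_mod_cast Finset.card_le_card hsub
    _ ≤ ∑ v ∈ vs H (pset A J), ((E v).card : ℝ) := by
        exact_mod_cast Finset.card_biUnion_le
    _ ≤ ∑ v ∈ vs H (pset A J), Real.exp (7 * ε * L) := Finset.sum_le_sum hEv
    _ = ((vs H (pset A J)).card : ℝ) * Real.exp (7 * ε * L) := by
        rw [Finset.sum_const, nsmul_eq_mul]
    _ ≤ ((A + 1) * Real.log L * √L + 1) * Real.exp (7 * ε * L) :=
        mul_le_mul_of_nonneg_right hcard2 (by positivity)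
    _ ≤ Real.exp (ε * L) * Real.exp (7 * ε * L) :=
        mul_le_mul_of_nonneg_right (by linarith) (Real.exp_pos _).le
    _ = Real.exp (8 * ε * L) := by
        rw [← Real.exp_add]
        congr 1
        ring
    _ = N ^ (8 * ε) := by
        rw [Real.rpow_def_of_pos hNpos]
        congr 1
        ring

end Pool.Agent.FCH
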