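import Pool.Agent.FCH.Defs
import Pool.Agent.MRS.Basic
import Pool.Agent.MRS.Fejer
import Pool.Agent.MRS.Mulb

set_option autoImplicit false

/-!
# FCH: balanced factorisations of `a ^ 2 + 1` at almost all scales: common definitions
Blueprint: /team-store/fch_blueprint.md
-/

open Finset

namespace Pool.Agent.FCH

open Pool.Agent.MRS hiding Good

/-- inner product; `conj z * w = ip z w + i * dt z w` -/
def ip (z w : GI) : ℤ := z.re * w.re + z.im * w.im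

/-- all `z` with `N(z) ≤ Y` (`0` included) -/
noncomputable def bal (Y : ℝ) : Finset GI :=
  open Classical in
  (((Icc (-(⌊Y⌋₊ : ℤ)) (⌊Y⌋₊ : ℤ)) ×ˢ (Icc (-(⌊Y⌋₊ : ℤ)) (⌊Y⌋₊ : ℤ))).image
    (fun p : ℤ × ℤ => (⟨p.1, p.2⟩ : GI))).filter (fun z => (nm z : ℝ) ≤ Y)

/-- primitive vectors with `m / b < N(z) ≤ m` -/
noncomputable def AA (b : ℝ) (m : ℕ) : Finset GI :=
  open Classical in (bal (m : ℝ)).filter (fun z => Pr z ∧ (m : ℝ) / b < (nm z : ℝ))

/-- congruence mod `d` -/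
def cg (d : ℕ) (z w : GI) : Prop := (d : ℤ) ∣ z.re - w.re ∧ (d : ℤ) ∣ z.im - w.im

/-- representatives of the residue classes mod `d` -/
noncomputable def cls (d : ℕ) : Finset GI :=
  open Classical in (range d ×ˢ range d).image (fun p : ℕ × ℕ => (⟨(p.1 : ℤ), (p.2 : ℤ)⟩ : GI))

/-- `z / |z|` -/
noncomputable def ez (z : GI) : ℂ := GaussianInt.toComplex z / (‖GaussianInt.toComplex z‖ : ℂ)

/-- `|z| / √m` -/
noncomputable def rd (m : ℕ) (z : GI) : ℝ := √((nm z : ℝ) / (m : ℝ))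

/-- energy of the angular polynomial `∑_{z ∈ S} a(z) (z/|z|)^k` -/
noncomputable def en (K : ℕ) (S : Finset GI) (a : GI → ℂ) : ℝ :=
  ms K (fun k => ‖∑ z ∈ S, a z * ez z ^ k‖ ^ 2)

/-- primes `≡ 1 (mod 4)` in `(P, A P]` -/
def pr (A P : ℕ) : Finset ℕ := (Ioc P (A * P)).filter (fun p => p.Prime ∧ p % 4 = 1)

/-- `A` is a ratio for which the sets `pr A P` are not too small -/
def GA (A : ℕ) : Prop := 2 ≤ A ∧ ∃ c : ℝ, 0 < c ∧ ∃ P0 : ℕ, 2 ≤ P0 ∧ ∀ P : ℕ, P0 ≤ P →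
  c * P / Real.log P ≤ ((pr A P).card : ℝ)

/-- the Gaussian prime of norm `p` in the first quadrant (real part odd) -/
noncomputable def gpi (p : ℕ) : GI :=
  open Classical in if h : ∃ z : GI, PP z ∧ nm z = p then Classical.choose h else 0

/-- `ζ ^ Ω(n)` -/
noncomputable def fz (ζ : ℂ) (n : ℕ) : ℂ := ζ ^ (ArithmeticFunction.cardFactors n)

theorem mem_bal {Y : ℝ} {z : GI} : z ∈ bal Y ↔ (nm z : ℝ) ≤ Y := by
  classical
  unfold bal
  rw [mem_filter, mem_image]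
  constructor
  · intro h; exact h.2
  · intro h
    refine ⟨⟨(z.re, z.im), ?_, rfl⟩, h⟩
    have hY : 0 ≤ Y := le_trans (by positivity) h
    have h1 : nm z ≤ ⌊Y⌋₊ := Nat.le_floor h
    have h2 : (nm z : ℤ) ≤ (⌊Y⌋₊ : ℤ) := by exact_mod_cast h1
    rw [nm_int] at h2
    have h3 : |z.re| ≤ (⌊Y⌋₊ : ℤ) := by
      have : |z.re| ≤ z.re ^ 2 := by
        rcases eq_or_ne z.re 0 with h0 | h0
        · rw [h0]; simp
        · have h1 : 1 ≤ |z.re| := Int.one_le_abs h0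
          rw [← sq_abs]; nlinarith
      nlinarith [sq_nonneg z.im]
    have h4 : |z.im| ≤ (⌊Y⌋₊ : ℤ) := by
      have : |z.im| ≤ z.im ^ 2 := by
        rcases eq_or_ne z.im 0 with h0 | h0
        · rw [h0]; simp
        · have h1 : 1 ≤ |z.im| := Int.one_le_abs h0
          rw [← sq_abs]; nlinarith
      nlinarith [sq_nonneg z.re]
    simp only [mem_product, mem_Icc]
    exact ⟨abs_le.1 h3, abs_le.1 h4⟩

theorem mem_AA {b : ℝ} {m : ℕ} {z : GI} :
    z ∈ AA b m ↔ (nm z : ℝ) ≤ m ∧ Pr z ∧ (m : ℝ) / b < (nm z : ℝ) := by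
  classical
  unfold AA
  rw [mem_filter, mem_bal]

theorem mem_cls {d : ℕ} {z : GI} : z ∈ cls d ↔
    (0 ≤ z.re ∧ z.re < d) ∧ (0 ≤ z.im ∧ z.im < d) := by
  classical
  unfold cls
  rw [mem_image]
  constructor
  · rintro ⟨⟨x, y⟩, h, rfl⟩
    simp only [mem_product, mem_range] at h
    simp only []
    omega
  · rintro ⟨⟨h1, h2⟩, h3, h4⟩
    refine ⟨(z.re.toNat, z.im.toNat), ?_, ?_⟩
    · simp only [mem_product, mem_range]
      omega
    · ext
      · simp only []; omega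
      · simp only []; omega

theorem ip_sq_add (z w : GI) : ip z w ^ 2 + dt z w ^ 2 = (nm z : ℤ) * nm w := by
  rw [nm_int, nm_int]
  unfold ip dt
  ring

theorem gpi_spec {p : ℕ} (hp : p.Prime) (h4 : p % 4 = 1) : PP (gpi p) ∧ nm (gpi p) = p := by
  classical
  have h := PP_exists hp h4
  unfold gpi
  rw [dif_pos h]
  exact Classical.choose_spec h

theorem mem_pr {A P p : ℕ} : p ∈ pr A P ↔ (P < p ∧ p ≤ A * P) ∧ p.Prime ∧ p % 4 = 1 := by
  unfold pr
  rw [mem_filter, mem_Ioc]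

theorem norm_fz {ζ : ℂ} (hζ : ‖ζ‖ = 1) (n : ℕ) : ‖fz ζ n‖ = 1 := by
  unfold fz
  rw [norm_pow, hζ, one_pow]

theorem fz_mul (ζ : ℂ) {m n : ℕ} (hm : m ≠ 0) (hn : n ≠ 0) : fz ζ (m * n) = fz ζ m * fz ζ n := by
  unfold fz
  rw [ArithmeticFunction.cardFactors_mul hm hn, pow_add]

end Pool.Agent.FCH
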