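import Pool.Agent.FCH.Hc

set_option autoImplicit false

/-! Module NormFn: a character with `ψ(star z) = ψ(z)` is a function of the norm mod `8D`.
Step 1 (`ζ` with `N(ζ) ≡ 1 (mod 8D)` has `ψ(ζ) = 1`).  `ζ = x + iy`, `x` odd, `y` even, `x² + y² ≡ 1 (mod 8)`, so `y ≡ 0 (mod 4)`; replacing `ζ` by `-ζ` (`ψ` even) we may assume
`x ≡ 1 (mod 4)`.  For `u ∈ GI` with `u ≡ 1 (mod 4)` put `w = (u + ζ star u)/2`: an element of `Od`.
Claim: `ζ star w ≡ w (mod 4D)`: `2(ζ star w - w) = ζ star u + N(ζ) u - u - ζ star u = (N(ζ) - 1) u ≡ 0 (mod 8D)`.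
If moreover `w` is coprime to `D` then `ψ(ζ) ψ(star w) = ψ(ζ star w) = ψ(w)`, `ψ(star w) = ψ(w) ≠ 0`, so `ψ(ζ) = 1`.
Choice of `u = (1 - e) + i e`: `e ≡ 0 (mod 4)`, `e ≡ 1 (mod p)` for the odd primes `p ∣ D` with `p ∣ N(1 + ζ)`, `e ≡ 0 (mod p)` for the others.
Step 2: `N(z) ≡ N(w) (mod 8D)`, both coprime to `D`: let `w' = star w · t`, `t N(w) ≡ 1 (mod 8D)`; `ζ = z w'` has norm `≡ 1 (mod 8D)`, so
`ψ(z) ψ(w') = 1 = ψ(w) ψ(w')`. -/

open Finset

namespace Pool.Agent.FCH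

open Pool.Agent.MRS hiding Good

/-- the integer `e` -/
theorem NormFn_crt (D : ℕ) (hD : 0 < D) (B : ℕ → Prop) :
    ∃ c : ℤ, ∀ p : ℕ, p.Prime → p ∣ D → p ≠ 2 →
      (B p → (p : ℤ) ∣ 4 * c - 1) ∧ (¬ B p → (p : ℤ) ∣ 4 * c) := by
  classical
  set S1 : Finset ℕ := D.primeFactors.filter (fun p => p ≠ 2 ∧ B p) with hS1
  set S2 : Finset ℕ := D.primeFactors.filter (fun p => p ≠ 2 ∧ ¬ B p) with hS2
  set P1 : ℕ := ∏ p ∈ S1, p with hP1
  set P2 : ℕ := 4 * ∏ p ∈ S2, p with hP2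
  have hc : Nat.Coprime P1 P2 := by
    rw [hP1]
    apply Nat.Coprime.prod_left
    intro p hp
    rw [hS1, mem_filter, Nat.mem_primeFactors] at hp
    obtain ⟨⟨hpp, _, _⟩, hp2, hB⟩ := hp
    rw [hP2]
    apply Nat.Coprime.mul_right
    · have : Nat.Coprime p (2 ^ 2) := by
        apply Nat.Coprime.pow_right
        exact (Nat.coprime_primes hpp Nat.prime_two).2 hp2
      simpa using this
    · apply Nat.Coprime.prod_right
      intro q hq
      rw [hS2, mem_filter, Nat.mem_primeFactors] at hq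
      obtain ⟨⟨hqq, _, _⟩, hq2, hBq⟩ := hq
      apply (Nat.coprime_primes hpp hqq).2
      rintro rfl
      exact hBq hB
  obtain ⟨e, he1, he2⟩ := Nat.chineseRemainder hc 1 0
  have h4 : 4 ∣ e := by
    have : P2 ∣ e := (Nat.modEq_zero_iff_dvd).1 he2
    exact (Dvd.intro _ rfl : 4 ∣ P2).trans this
  obtain ⟨c, rfl⟩ := h4
  refine ⟨c, ?_⟩
  intro p hp hpD hp2
  constructor
  · intro hB
    have h1 : p ∣ P1 := by
      rw [hP1]
      apply Finset.dvd_prod_of_mem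
      rw [hS1, mem_filter, Nat.mem_primeFactors]
      exact ⟨⟨hp, hpD, hD.ne'⟩, hp2, hB⟩
    have h2 : (4 * c : ℕ) ≡ 1 [MOD p] := Nat.ModEq.of_dvd h1 he1
    have h3 := (Nat.modEq_iff_dvd.1 h2.symm)
    push_cast at h3
    exact h3
  · intro hB
    have h1 : p ∣ P2 := by
      rw [hP2]
      apply Dvd.dvd.mul_left
      apply Finset.dvd_prod_of_mem
      rw [hS2, mem_filter, Nat.mem_primeFactors]
      exact ⟨⟨hp, hpD, hD.ne'⟩, hp2, hB⟩
    have h2 : p ∣ 4 * c := h1.trans ((Nat.modEq_zero_iff_dvd).1 he2)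
    exact_mod_cast h2

/-- step 1 for `x ≡ 1 (mod 4)` -/
theorem NormFn_step1a (D : ℕ) (h4 : 4 ∣ D) (hD : 0 < D) (ψ : GI → ℂ) (hψ : HC D ψ)
    (h : ∀ z : GI, Od z → Nat.Coprime (nm z) D → ψ (star z) = ψ z)
    (a b k : ℤ) (hN : (1 + 4 * a) ^ 2 + (4 * b) ^ 2 = 1 + 8 * D * k) :
    ψ ⟨1 + 4 * a, 4 * b⟩ = 1 := by
  set ζ : GI := ⟨1 + 4 * a, 4 * b⟩ with hζ
  obtain ⟨c, hc⟩ := NormFn_crt D hD (fun p => (p : ℤ) ∣ (2 + 4 * a) ^ 2 + (4 * b) ^ 2)
  set w : GI := ⟨(1 - 4 * c) * (1 + 2 * a) + 8 * b * c, -8 * a * c + 2 * b * (1 - 4 * c)⟩ with hw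
  have hwOd : Od w := by
    constructor
    · have : w.re = 2 * (a - 2 * c * (1 + 2 * a) + 4 * b * c) + 1 := by
        rw [hw]; ring
      rw [this]; omega
    · have : w.im = 2 * (-4 * a * c + b * (1 - 4 * c)) := by
        rw [hw]; ring
      rw [this]; omega
  have hζOd : Od ζ := by
    constructor
    · show (1 + 4 * a) % 2 = 1
      omega
    · show (4 * b) % 2 = 0
      omega
  have hζre : ζ.re = 1 + 4 * a := rfl
  have hζim : ζ.im = 4 * b := rfl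
  -- coprimality
  have hwc : Nat.Coprime (nm w) D := by
    rw [Nat.coprime_comm]
    by_contra hcon
    obtain ⟨p, hp, hpD, hpw⟩ := Nat.Prime.not_coprime_iff_dvd.1 hcon
    rcases eq_or_ne p 2 with rfl | hp2
    · have := Od_nm hwOd
      omega
    · obtain ⟨h1, h2⟩ := hc p hp hpD hp2
      have hpi : Prime (p : ℤ) := Nat.prime_iff_prime_int.1 hp
      have hpw' : (p : ℤ) ∣ w.re ^ 2 + w.im ^ 2 := by
        rw [← nm_int]; exact_mod_cast hpw
      have h2p : ¬ (p : ℤ) ∣ 2 := by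
        intro h3
        have : p ∣ 2 := by exact_mod_cast h3
        exact hp2 ((Nat.prime_dvd_prime_iff_eq hp Nat.prime_two).1 this)
      have hpDz : (p : ℤ) ∣ (D : ℤ) := by exact_mod_cast hpD
      have hN1 : (p : ℤ) ∣ (1 + 4 * a) ^ 2 + (4 * b) ^ 2 - 1 := by
        rw [hN]
        have : (1 + 8 * (D : ℤ) * k - 1) = D * (8 * k) := by ring
        rw [this]
        exact hpDz.mul_right _
      by_cases hB : (p : ℤ) ∣ (2 + 4 * a) ^ 2 + (4 * b) ^ 2
      · have hc1 := h1 hB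
        -- p | 1 + x
        have h5 : (p : ℤ) ∣ 2 * (2 + 4 * a) := by
          have : 2 * (2 + 4 * a) = ((2 + 4 * a) ^ 2 + (4 * b) ^ 2) -
              ((1 + 4 * a) ^ 2 + (4 * b) ^ 2 - 1) := by ring
          rw [this]
          exact dvd_sub hB hN1
        have h6 : (p : ℤ) ∣ 2 + 4 * a := (hpi.dvd_or_dvd h5).resolve_left h2p
        have h7 : (p : ℤ) ∣ (4 * b) ^ 2 := by
          have : (4 * b) ^ 2 = ((2 + 4 * a) ^ 2 + (4 * b) ^ 2) - (2 + 4 * a) * (2 + 4 * a) := by ring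
          rw [this]
          exact dvd_sub hB (h6.mul_right _)
        have h8 : (p : ℤ) ∣ 4 * b := hpi.dvd_of_dvd_pow h7
        -- 4 N(w) ≡ 4
        have h9 : (p : ℤ) ∣ 2 * w.re := by
          have : 2 * w.re = (1 - 4 * c) * (2 + 4 * a) + (4 * b) * (4 * c) := by rw [hw]; ring
          rw [this]
          exact dvd_add (h6.mul_left _) (h8.mul_right _)
        have h10 : (p : ℤ) ∣ w.re := (hpi.dvd_or_dvd h9).resolve_left h2p
        have h11 : (p : ℤ) ∣ w.im ^ 2 := by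
          have : w.im ^ 2 = (w.re ^ 2 + w.im ^ 2) - w.re * w.re := by ring
          rw [this]
          exact dvd_sub hpw' (h10.mul_right _)
        have h12 : (p : ℤ) ∣ w.im := hpi.dvd_of_dvd_pow h11
        have h13 : (p : ℤ) ∣ 2 := by
          have : (2 : ℤ) = 2 * w.im + (4 * c) * (2 + 4 * a) - 2 * (4 * c - 1) +
              (4 * b) * (4 * c - 1) := by rw [hw]; ring
          rw [this]
          exact dvd_add (dvd_sub (dvd_add (h12.mul_left _) (h6.mul_left _)) (hc1.mul_left _))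
            (hc1.mul_left _)
        exact h2p h13
      · have hc1 := h2 hB
        apply hB
        have h5 : (p : ℤ) ∣ 4 * (w.re ^ 2 + w.im ^ 2) := hpw'.mul_left _
        have : (2 + 4 * a) ^ 2 + (4 * b) ^ 2 = 4 * (w.re ^ 2 + w.im ^ 2) -
            (4 * c) * (-2 * (2 + 4 * a) ^ 2 + 2 * (2 + 4 * a) * (4 * b)
              + (4 * c) * ((4 * b) - (2 + 4 * a)) ^ 2
              + 2 * (-(4 * a)) * (4 * b) * (1 - 4 * c) + (4 * c) * (4 * a) ^ 2
              + (4 * b) ^ 2 * (4 * c - 2)) := by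
          rw [hw]; ring
        rw [this]
        exact dvd_sub h5 (hc1.mul_right _)
  have hζc : cg D (ζ * star w) w := by
    constructor
    · have : (ζ * star w).re - w.re = D * (4 * k * (1 - 4 * c)) := by
        rw [Zsqrtd.re_mul, Zsqrtd.re_star, Zsqrtd.im_star, hζre, hζim]
        have : (8 : ℤ) * D * k = (1 + 4 * a) ^ 2 + (4 * b) ^ 2 - 1 := by rw [hN]; ring
        have h2 : (D : ℤ) * (4 * k * (1 - 4 * c)) = (8 * D * k) * (1 - 4 * c) / 2 := by
          have : (8 * (D : ℤ) * k) * (1 - 4 * c) = 2 * (D * (4 * k * (1 - 4 * c))) := by ring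
          rw [this, Int.mul_ediv_cancel_left _ (by norm_num)]
        rw [h2, this]
        have h3 : ((1 + 4 * a) ^ 2 + (4 * b) ^ 2 - 1) * (1 - 4 * c) =
            2 * ((4 * a + 8 * a ^ 2 + 8 * b ^ 2) * (1 - 4 * c)) := by ring
        rw [h3, Int.mul_ediv_cancel_left _ (by norm_num), hw]
        ring
      rw [this]
      exact Dvd.intro _ rfl
    · have : (ζ * star w).im - w.im = D * (4 * k * (4 * c)) := by
        rw [Zsqrtd.im_mul, Zsqrtd.re_star, Zsqrtd.im_star, hζre, hζim]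
        have : (8 : ℤ) * D * k = (1 + 4 * a) ^ 2 + (4 * b) ^ 2 - 1 := by rw [hN]; ring
        have h2 : (D : ℤ) * (4 * k * (4 * c)) = (8 * D * k) * (2 * c) := by ring
        rw [h2, this, hw]
        ring
      rw [this]
      exact Dvd.intro _ rfl
  have e1 : ψ (ζ * star w) = ψ w :=
    hψ.per _ _ (Od_mul hζOd (Od_star hwOd)) hwOd hζc
  rw [hψ.mul _ _ hζOd (Od_star hwOd), h w hwOd hwc] at e1
  have hne : ψ w ≠ 0 := by
    intro h0
    have := hψ.unit w hwOd hwc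
    rw [h0, norm_zero] at this
    exact zero_ne_one this
  exact mul_right_cancel₀ hne (by rw [e1, one_mul])

/-- step 1 -/
theorem NormFn_step1 (D : ℕ) (h4 : 4 ∣ D) (hD : 0 < D) (ψ : GI → ℂ) (hψ : HC D ψ)
    (h : ∀ z : GI, Od z → Nat.Coprime (nm z) D → ψ (star z) = ψ z)
    (ζ : GI) (hζ : Od ζ) (hN : nm ζ ≡ 1 [MOD (8 * D)]) : ψ ζ = 1 := by
  obtain ⟨h1, h2⟩ := hζ
  have h3 : (8 * (D : ℤ)) ∣ (nm ζ : ℤ) - 1 := by
    have := Nat.modEq_iff_dvd.1 hN.symm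
    push_cast at this
    exact this
  obtain ⟨k, hk⟩ := h3
  rw [nm_int] at hk
  -- the imaginary part is divisible by 4
  obtain ⟨y, hy⟩ : ∃ y, ζ.im = 2 * y := ⟨ζ.im / 2, by omega⟩
  obtain ⟨x, hx⟩ : ∃ x, ζ.re = 2 * x + 1 := ⟨ζ.re / 2, by omega⟩
  have hy2 : y % 2 = 0 := by
    rw [hx, hy] at hk
    by_contra hodd
    obtain ⟨z, hz⟩ : ∃ z, y = 2 * z + 1 := ⟨y / 2, by omega⟩
    rw [hz] at hk
    obtain ⟨q, hq⟩ : ∃ q, x * (x + 1) = 2 * q := by
      have := Int.even_mul_succ_self x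
      obtain ⟨q, hq⟩ := this
      exact ⟨q, by omega⟩
    obtain ⟨r, hr⟩ : ∃ r, z * (z + 1) = 2 * r := by
      have := Int.even_mul_succ_self z
      obtain ⟨q, hq⟩ := this
      exact ⟨q, by omega⟩
    have e : (2 * x + 1) ^ 2 + (2 * (2 * z + 1)) ^ 2 - 1 = 4 * (x * (x + 1)) + 16 * (z * (z + 1)) + 4 := by
      ring
    rw [e, hq, hr] at hk
    have : 8 * q + 32 * r + 4 = 8 * (D * k) := by linarith
    omega
  obtain ⟨b, hb⟩ : ∃ b, ζ.im = 4 * b := ⟨y / 2, by omega⟩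
  rcases (by omega : ζ.re % 4 = 1 ∨ ζ.re % 4 = 3) with h5 | h5
  · obtain ⟨a, ha⟩ : ∃ a, ζ.re = 1 + 4 * a := ⟨ζ.re / 4, by omega⟩
    have hζe : ζ = ⟨1 + 4 * a, 4 * b⟩ := by
      ext
      · exact ha
      · exact hb
    rw [hζe]
    apply NormFn_step1a D h4 hD ψ hψ h a b k
    rw [ha, hb] at hk
    linarith
  · obtain ⟨a, ha⟩ : ∃ a, ζ.re = -(1 + 4 * a) := ⟨-((ζ.re + 1) / 4), by omega⟩
    have hζe : ζ = -⟨1 + 4 * a, 4 * (-b)⟩ := by
      ext
      · rw [Zsqrtd.re_neg]; exact ha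
      · rw [Zsqrtd.im_neg]; rw [hb]; ring
    rw [hζe, hψ.neg]
    · apply NormFn_step1a D h4 hD ψ hψ h a (-b) k
      rw [ha, hb] at hk
      linarith
    · constructor
      · show (1 + 4 * a) % 2 = 1
        omega
      · show (4 * (-b)) % 2 = 0
        omega

theorem norm_fn (D : ℕ) (h4 : 4 ∣ D) (hD : 0 < D) (ψ : GI → ℂ) (hψ : HC D ψ)
    (h : ∀ z : GI, Od z → Nat.Coprime (nm z) D → ψ (star z) = ψ z) :
    ∀ z w : GI, Od z → Od w → Nat.Coprime (nm z) D → Nat.Coprime (nm w) D →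
      nm z ≡ nm w [MOD (8 * D)] → ψ z = ψ w := by
  intro z w hz hw hzc hwc hzw
  have h8 : Nat.Coprime (nm w) (8 * D) := by
    apply Nat.Coprime.mul_right _ hwc
    have h1 := Od_nm hw
    have : Nat.Coprime (nm w) (2 ^ 3) := by
      apply Nat.Coprime.pow_right
      rw [Nat.coprime_comm, Nat.Prime.coprime_iff_not_dvd Nat.prime_two]
      omega
    simpa using this
  obtain ⟨t, _, ht⟩ := Nat.exists_mul_mod_eq_one_of_coprime h8 (by omega)
  have ht1 : nm w * t ≡ 1 [MOD (8 * D)] := by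
    unfold Nat.ModEq
    rw [ht, Nat.mod_eq_of_lt (by omega)]
  have htodd : (t : ℤ) % 2 = 1 := by
    have h1 : nm w * t ≡ 1 [MOD 2] := ht1.of_dvd ⟨4 * D, by ring⟩
    unfold Nat.ModEq at h1
    rw [Nat.mul_mod] at h1
    rcases Nat.mod_two_eq_zero_or_one t with h2 | h2
    · rw [h2] at h1; simp at h1
    · omega
  set w' : GI := star w * ⟨t, 0⟩ with hw'
  have hT : Od (⟨t, 0⟩ : GI) := ⟨htodd, by simp⟩
  have hTn : nm (⟨t, 0⟩ : GI) = t ^ 2 := by
    have h1 := nm_int (⟨t, 0⟩ : GI)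
    simp only at h1
    have : (nm (⟨t, 0⟩ : GI) : ℤ) = ((t ^ 2 : ℕ) : ℤ) := by rw [h1]; push_cast; ring
    exact_mod_cast this
  have hOw' : Od w' := Od_mul (Od_star hw) hT
  have hnw' : nm w' = nm w * t ^ 2 := by
    rw [hw', nm_mul, nm_star, hTn]
  have key : ∀ v : GI, Od v → nm v ≡ nm w [MOD (8 * D)] → ψ v * ψ w' = 1 := by
    intro v hv hvw
    rw [← hψ.mul v w' hv hOw']
    apply NormFn_step1 D h4 hD ψ hψ h (v * w') (Od_mul hv hOw')
    rw [nm_mul, hnw']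
    calc nm v * (nm w * t ^ 2) ≡ nm w * (nm w * t ^ 2) [MOD (8 * D)] := hvw.mul_right _
      _ = (nm w * t) * (nm w * t) := by ring
      _ ≡ 1 * 1 [MOD (8 * D)] := ht1.mul ht1
      _ = 1 := by ring
  have e1 := key z hz hzw
  have e2 := key w hw (Nat.ModEq.refl _)
  have hne : ψ w' ≠ 0 := by
    intro h0
    rw [h0, mul_zero] at e1
    exact zero_ne_one e1
  exact mul_right_cancel₀ hne (by rw [e1, e2])

end Pool.Agent.FCH
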