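import Pool.Agent.FCH.FbA
import Pool.Agent.MRS.LCount

set_option autoImplicit false

/-! Module Plan: from the bound on `F(1+α+iu)`, `|u| ≤ T`, to the logarithmic mean of `|A(x)|²/x²`.
`a : ℕ → ℂ`, `|a(n)| ≤ b₀(n)`, `A(x) = ∑_{n ≤ x} a(n)`, `∑_{n ≤ x} b₀(n) ≤ 2x` (`peu_sum`-type, `sum_bb`, `card_ann_le`), and `∑_{x < n ≤ y} b₀(n) ≤ C (y - x + √y)` (`MRS.card_ann`).
`g(v) = A(e^v) e^{-(1+α)v}` for `v ≥ 0`, `0` for `v < 0`: `|g(v)| ≤ 2 e^{-αv}`; `ĝ(u) = ∫ g(v) e^{-iuv} dv = F(1+α+iu)/(1+α+iu)` (partial summation / Fubini).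
Goal: `α ∫ |g|² → 0` as `α → 0+`; then with `α = 1/log X`: `∑_{x ≤ X} |A(x)|²/x³ ≤ C ∫_0^{log(X+1)} |A(e^v)|² e^{-2v} dv ≤ C e² ∫|g|² = o(log X)` (`A` is constant on `[x, x+1)`).
Let `φ_δ` = Gaussian density of width `δ`.  `‖g‖₂ ≤ ‖g - g*φ_δ‖₂ + ‖g*φ_δ‖₂`.
(1) `|g(v) - g(v-h)| ≤ C e^{-αv}(|h| + e^{-v/2})` for `|h| ≤ 1` (`v ≥ 1`), so `α‖g - g*φ_δ‖₂² ≤ C(δ² + α + ...)` (Jensen).
(2) `‖g*φ_δ‖₂² = (1/2π) ∫ |ĝ(u)|² e^{-δ²u²} du` (expand the square and use the Fourier transform of the Gaussian, Fubini, `g ∈ L¹`; or any Plancherel).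
   `|u| ≤ T`: `α ∫_{|u|≤T} |F|²/|s|² ≤ α K² ∫ |α+iu|^{-2ρ} du ≤ C_T α^{1 - max(0, 2ρ-1)} (1 + log 1/α) → 0` since `ρ < 1`.
   `|u| > T`: for every `u₀`: `∫ |ĝ(u)|² e^{-(u-u₀)²} du = √π ∬ g(v) conj g(v') e^{-iu₀(v-v')} e^{-(v-v')²/4} ≤ C ∫ e^{-2αv} dv ≤ C/α`, so
   `α ∫_{|u|>T} |ĝ|² e^{-δ²u²} ≤ C ∑_{|u₀| ≥ T-1} e^{-δ²(u₀-1)²/2}` which is small for `T ≥ T(δ)`.
Order: `ε`, then `δ`, then `T`, then `α → 0`. -/

open Finset
open MeasureTheory Filter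

namespace Pool.Agent.FCH

section PLA
theorem PL_conv (f K : ℝ → ℝ) (hf : Integrable f) (hK : Integrable K) :
    Integrable (fun p : ℝ × ℝ => f p.2 * K (p.1 - p.2)) (volume.prod volume) ∧
    ∫ p : ℝ × ℝ, f p.2 * K (p.1 - p.2) ∂(volume.prod volume) = (∫ w, f w) * ∫ h, K h := by
  have h1 : Integrable (fun p : ℝ × ℝ => f p.2 * K (p.1 - p.2)) (volume.prod volume) := by
    have := Integrable.convolution_integrand (ContinuousLinearMap.mul ℝ ℝ) hf hK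
    simpa using this
  refine ⟨h1, ?_⟩
  rw [integral_prod_symm _ h1]
  have h2 : ∀ y : ℝ, ∫ x : ℝ, f y * K (x - y) = f y * ∫ h, K h := by
    intro y
    rw [integral_const_mul, integral_sub_right_eq_self K y]
  simp only [h2]
  rw [integral_mul_const]

theorem PL_gaussInt (σ : ℝ) (hσ : 0 < σ) :
    Integrable (fun h : ℝ => Real.exp (-(h ^ 2) / (4 * σ ^ 2))) ∧
    ∫ h : ℝ, Real.exp (-(h ^ 2) / (4 * σ ^ 2)) = 2 * σ * √Real.pi := by
  have e : (fun h : ℝ => Real.exp (-(h ^ 2) / (4 * σ ^ 2)))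
      = fun h : ℝ => Real.exp (-(1 / (4 * σ ^ 2)) * h ^ 2) := by
    funext h; congr 1; field_simp
  have hb : 0 < 1 / (4 * σ ^ 2) := by positivity
  rw [e]
  refine ⟨integrable_exp_neg_mul_sq hb, ?_⟩
  rw [integral_gaussian]
  have : Real.pi / (1 / (4 * σ ^ 2)) = (2 * σ) ^ 2 * Real.pi := by field_simp; ring
  rw [this, Real.sqrt_mul (by positivity), Real.sqrt_sq (by positivity)]

/-- Fourier transform -/
noncomputable def PL_F (g : ℝ → ℂ) (u : ℝ) : ℂ := ∫ v : ℝ, g v * Complex.exp (-(u * v : ℝ) * Complex.I)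

theorem PL_FG (σ : ℝ) (hσ : 0 < σ) (h : ℝ) :
    ∫ u : ℝ, Complex.exp (-(u * h : ℝ) * Complex.I) * (Real.exp (-(σ ^ 2 * u ^ 2)) : ℂ)
      = ((√Real.pi / σ * Real.exp (-(h ^ 2) / (4 * σ ^ 2)) : ℝ) : ℂ) := by
  have hb : 0 < ((σ ^ 2 : ℝ) : ℂ).re := by
    rw [Complex.ofReal_re]; positivity
  have h1 := fourierIntegral_gaussian hb (-(h : ℂ))
  have h2 : ∀ u : ℝ, Complex.exp (-(u * h : ℝ) * Complex.I) * (Real.exp (-(σ ^ 2 * u ^ 2)) : ℂ)
      = Complex.exp (Complex.I * (-(h : ℂ)) * u) * Complex.exp (-((σ ^ 2 : ℝ) : ℂ) * u ^ 2) := by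
    intro u
    rw [Complex.ofReal_exp]
    congr 1
    · congr 1; push_cast; ring
    · congr 1; push_cast; ring
  simp only [h2]
  rw [h1]
  have h3 : ((Real.pi : ℂ) / ((σ ^ 2 : ℝ) : ℂ)) ^ (1 / 2 : ℂ) = ((√Real.pi / σ : ℝ) : ℂ) := by
    rw [← Complex.ofReal_div]
    have : (1 / 2 : ℂ) = ((1 / 2 : ℝ) : ℂ) := by push_cast; rfl
    rw [this, ← Complex.ofReal_cpow (by positivity), ← Real.sqrt_eq_rpow,
      Real.sqrt_div Real.pi_pos.le, Real.sqrt_sq hσ.le]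
  rw [h3, Complex.ofReal_mul, Complex.ofReal_exp]
  congr 2
  push_cast
  ring

theorem PL_norm_e (x : ℝ) : ‖Complex.exp (-(x : ℂ) * Complex.I)‖ = 1 := by
  rw [Complex.norm_exp]; simp

theorem PL_id (g : ℝ → ℂ) (hg : Integrable g) (σ : ℝ) (hσ : 0 < σ) :
    ∫ u : ℝ, ‖PL_F g u‖ ^ 2 * Real.exp (-(σ ^ 2 * u ^ 2)) = (√Real.pi / σ) *
      ∫ p : ℝ × ℝ, (g p.1 * (starRingEnd ℂ) (g p.2)).re * Real.exp (-((p.1 - p.2) ^ 2) / (4 * σ ^ 2))
        ∂(volume.prod volume) := by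
  have hgc : Integrable (fun v => (starRingEnd ℂ) (g v)) := by
    have := (Complex.conjCLE.toContinuousLinearMap).integrable_comp hg
    simpa using this
  have hE : Integrable (fun u : ℝ => (Real.exp (-(σ ^ 2 * u ^ 2)) : ℂ)) := by
    have h := (integrable_exp_neg_mul_sq (b := σ ^ 2) (by positivity)).ofReal (𝕜 := ℂ)
    refine h.congr (Filter.Eventually.of_forall fun u => ?_)
    show ((Real.exp (-σ ^ 2 * u ^ 2) : ℝ) : ℂ) = _
    rw [neg_mul]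
  have hG : Integrable (fun p : ℝ × ℝ => g p.1 * (starRingEnd ℂ) (g p.2)) (volume.prod volume) :=
    hg.mul_prod hgc
  have hEG : Integrable (fun q : ℝ × (ℝ × ℝ) => (Real.exp (-(σ ^ 2 * q.1 ^ 2)) : ℂ)
      * (g q.2.1 * (starRingEnd ℂ) (g q.2.2))) (volume.prod (volume.prod volume)) :=
    hE.mul_prod hG
  have hphase : Continuous (fun q : ℝ × (ℝ × ℝ) => Complex.exp (-(q.1 * (q.2.1 - q.2.2) : ℝ) * Complex.I)) := by
    fun_prop
  have hF : Integrable (fun q : ℝ × (ℝ × ℝ) => Complex.exp (-(q.1 * (q.2.1 - q.2.2) : ℝ) * Complex.I)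
      * ((Real.exp (-(σ ^ 2 * q.1 ^ 2)) : ℂ) * (g q.2.1 * (starRingEnd ℂ) (g q.2.2))))
      (volume.prod (volume.prod volume)) := by
    refine hEG.mono (hphase.aestronglyMeasurable.mul hEG.aestronglyMeasurable)
      (Filter.Eventually.of_forall fun q => ?_)
    rw [norm_mul, PL_norm_e, one_mul]
  -- the square
  have hsq : ∀ u : ℝ, ((‖PL_F g u‖ ^ 2 * Real.exp (-(σ ^ 2 * u ^ 2)) : ℝ) : ℂ)
      = ∫ p : ℝ × ℝ, Complex.exp (-(u * (p.1 - p.2) : ℝ) * Complex.I)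
      * ((Real.exp (-(σ ^ 2 * u ^ 2)) : ℂ) * (g p.1 * (starRingEnd ℂ) (g p.2))) ∂(volume.prod volume) := by
    intro u
    have h1 : ((‖PL_F g u‖ ^ 2 : ℝ) : ℂ) = PL_F g u * (starRingEnd ℂ) (PL_F g u) := by
      rw [Complex.mul_conj, Complex.normSq_eq_norm_sq]
    have h2 : (starRingEnd ℂ) (PL_F g u) = ∫ w : ℝ, (starRingEnd ℂ) (g w) * Complex.exp ((u * w : ℝ) * Complex.I) := by
      unfold PL_F
      rw [← integral_conj]
      congr 1
      funext w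
      rw [map_mul, ← Complex.exp_conj]
      congr 2
      rw [map_mul, map_neg, Complex.conj_ofReal, Complex.conj_I]
      ring
    rw [Complex.ofReal_mul, h1, h2]
    unfold PL_F
    rw [← integral_prod_mul, ← integral_mul_const]
    congr 1
    funext p
    have h3 : Complex.exp (-(u * (p.1 - p.2) : ℝ) * Complex.I)
        = Complex.exp (-(u * p.1 : ℝ) * Complex.I) * Complex.exp ((u * p.2 : ℝ) * Complex.I) := by
      rw [← Complex.exp_add]
      congr 1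
      push_cast
      ring
    rw [h3]
    ring
  have hmain : ((∫ u : ℝ, ‖PL_F g u‖ ^ 2 * Real.exp (-(σ ^ 2 * u ^ 2)) : ℝ) : ℂ)
      = ((√Real.pi / σ : ℝ) : ℂ) * ∫ p : ℝ × ℝ, (g p.1 * (starRingEnd ℂ) (g p.2)) *
        ((Real.exp (-((p.1 - p.2) ^ 2) / (4 * σ ^ 2)) : ℝ) : ℂ) ∂(volume.prod volume) := by
    rw [← integral_complex_ofReal]
    simp only [hsq]
    rw [integral_integral_swap hF, ← integral_const_mul]
    congr 1
    funext p
    have h4 : ∀ u : ℝ, Complex.exp (-(u * (p.1 - p.2) : ℝ) * Complex.I)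
      * ((Real.exp (-(σ ^ 2 * u ^ 2)) : ℂ) * (g p.1 * (starRingEnd ℂ) (g p.2)))
      = (Complex.exp (-(u * (p.1 - p.2) : ℝ) * Complex.I)
      * (Real.exp (-(σ ^ 2 * u ^ 2)) : ℂ)) * (g p.1 * (starRingEnd ℂ) (g p.2)) := by
      intro u; ring
    simp only [h4]
    rw [integral_mul_const, PL_FG σ hσ (p.1 - p.2)]
    push_cast
    ring
  have hGk : Integrable (fun p : ℝ × ℝ => (g p.1 * (starRingEnd ℂ) (g p.2)) *
        ((Real.exp (-((p.1 - p.2) ^ 2) / (4 * σ ^ 2)) : ℝ) : ℂ)) (volume.prod volume) := by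
    refine hG.mono (hG.aestronglyMeasurable.mul (Continuous.aestronglyMeasurable (by fun_prop)))
      (Filter.Eventually.of_forall fun p => ?_)
    rw [norm_mul, Complex.norm_real, Real.norm_of_nonneg (Real.exp_pos _).le]
    have : Real.exp (-((p.1 - p.2) ^ 2) / (4 * σ ^ 2)) ≤ 1 := by
      rw [Real.exp_le_one_iff]
      apply div_nonpos_of_nonpos_of_nonneg
      · nlinarith [sq_nonneg (p.1 - p.2)]
      · positivity
    nlinarith [norm_nonneg (g p.1 * (starRingEnd ℂ) (g p.2))]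
  have hre := congrArg Complex.re hmain
  rw [Complex.ofReal_re, Complex.re_ofReal_mul] at hre
  rw [hre]
  congr 1
  have h5 := integral_re (𝕜 := ℂ) hGk
  have h6 : (∫ p : ℝ × ℝ, (g p.1 * (starRingEnd ℂ) (g p.2)) *
        ((Real.exp (-((p.1 - p.2) ^ 2) / (4 * σ ^ 2)) : ℝ) : ℂ) ∂(volume.prod volume)).re
      = ∫ p : ℝ × ℝ, ((g p.1 * (starRingEnd ℂ) (g p.2)) *
        ((Real.exp (-((p.1 - p.2) ^ 2) / (4 * σ ^ 2)) : ℝ) : ℂ)).re ∂(volume.prod volume) := by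
    simpa using h5.symm
  rw [h6]
  congr 1
  funext p
  rw [mul_comm, Complex.re_ofReal_mul, mul_comm]

theorem PL_swapk (f : ℝ → ℝ) (hf : Integrable f) (σ : ℝ) (hσ : 0 < σ) :
    Integrable (fun p : ℝ × ℝ => f p.1 * Real.exp (-((p.1 - p.2) ^ 2) / (4 * σ ^ 2))) (volume.prod volume) ∧
    ∫ p : ℝ × ℝ, f p.1 * Real.exp (-((p.1 - p.2) ^ 2) / (4 * σ ^ 2)) ∂(volume.prod volume)
      = (∫ w, f w) * (2 * σ * √Real.pi) := by
  obtain ⟨hk1, hk2⟩ := PL_gaussInt σ hσ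
  obtain ⟨h1, h2⟩ := PL_conv f _ hf hk1
  have e : (fun p : ℝ × ℝ => f p.1 * Real.exp (-((p.1 - p.2) ^ 2) / (4 * σ ^ 2)))
      = fun p : ℝ × ℝ => (fun q : ℝ × ℝ => f q.2 * Real.exp (-((q.1 - q.2) ^ 2) / (4 * σ ^ 2))) p.swap := by
    funext p
    simp only [Prod.fst_swap, Prod.snd_swap]
    congr 3
    ring
  rw [e]
  refine ⟨h1.swap, ?_⟩
  rw [integral_prod_swap (fun q : ℝ × ℝ => f q.2 * Real.exp (-((q.1 - q.2) ^ 2) / (4 * σ ^ 2))), h2, hk2]

theorem PL_Q (g : ℝ → ℂ) (hg : Integrable g) (hg2 : Integrable (fun v => ‖g v‖ ^ 2)) (σ : ℝ) (hσ : 0 < σ) :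
    Integrable (fun p : ℝ × ℝ => ‖g p.1 - g p.2‖ ^ 2 * Real.exp (-((p.1 - p.2) ^ 2) / (4 * σ ^ 2)))
      (volume.prod volume) ∧
    ∫ p : ℝ × ℝ, (g p.1 * (starRingEnd ℂ) (g p.2)).re * Real.exp (-((p.1 - p.2) ^ 2) / (4 * σ ^ 2))
        ∂(volume.prod volume)
      = 2 * σ * √Real.pi * (∫ v, ‖g v‖ ^ 2) - 1 / 2 * ∫ p : ℝ × ℝ, ‖g p.1 - g p.2‖ ^ 2 *
        Real.exp (-((p.1 - p.2) ^ 2) / (4 * σ ^ 2)) ∂(volume.prod volume) := by
  obtain ⟨hk1, hk2⟩ := PL_gaussInt σ hσ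
  obtain ⟨h1, h2⟩ := PL_conv (fun v => ‖g v‖ ^ 2) _ hg2 hk1
  obtain ⟨h3, h4⟩ := PL_swapk (fun v => ‖g v‖ ^ 2) hg2 σ hσ
  rw [hk2] at h2
  have hgc : Integrable (fun v => (starRingEnd ℂ) (g v)) := by
    have := (Complex.conjCLE.toContinuousLinearMap).integrable_comp hg
    simpa using this
  have hG : Integrable (fun p : ℝ × ℝ => g p.1 * (starRingEnd ℂ) (g p.2)) (volume.prod volume) :=
    hg.mul_prod hgc
  have hkc : Continuous (fun p : ℝ × ℝ => Real.exp (-((p.1 - p.2) ^ 2) / (4 * σ ^ 2))) := by fun_prop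
  have hk0 : ∀ p : ℝ × ℝ, Real.exp (-((p.1 - p.2) ^ 2) / (4 * σ ^ 2)) ≤ 1 := by
    intro p
    rw [Real.exp_le_one_iff]
    apply div_nonpos_of_nonpos_of_nonneg
    · nlinarith [sq_nonneg (p.1 - p.2)]
    · positivity
  have hR : Integrable (fun p : ℝ × ℝ => (g p.1 * (starRingEnd ℂ) (g p.2)).re *
      Real.exp (-((p.1 - p.2) ^ 2) / (4 * σ ^ 2))) (volume.prod volume) := by
    refine hG.mono ((Complex.continuous_re.comp_aestronglyMeasurable hG.aestronglyMeasurable).mul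
      hkc.aestronglyMeasurable) (Filter.Eventually.of_forall fun p => ?_)
    rw [norm_mul, Real.norm_of_nonneg (Real.exp_pos _).le, Real.norm_eq_abs]
    have h5 := Complex.abs_re_le_norm (g p.1 * (starRingEnd ℂ) (g p.2))
    have h6 := hk0 p
    have h7 := Real.exp_pos (-((p.1 - p.2) ^ 2) / (4 * σ ^ 2))
    have h8 := abs_nonneg (g p.1 * (starRingEnd ℂ) (g p.2)).re
    nlinarith
  have hpt : ∀ p : ℝ × ℝ, ‖g p.1 - g p.2‖ ^ 2 * Real.exp (-((p.1 - p.2) ^ 2) / (4 * σ ^ 2))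
      = ‖g p.1‖ ^ 2 * Real.exp (-((p.1 - p.2) ^ 2) / (4 * σ ^ 2))
        + ‖g p.2‖ ^ 2 * Real.exp (-((p.1 - p.2) ^ 2) / (4 * σ ^ 2))
        - 2 * ((g p.1 * (starRingEnd ℂ) (g p.2)).re * Real.exp (-((p.1 - p.2) ^ 2) / (4 * σ ^ 2))) := by
    intro p
    have h9 : ‖g p.1 - g p.2‖ ^ 2 = ‖g p.1‖ ^ 2 + ‖g p.2‖ ^ 2 - 2 * (g p.1 * (starRingEnd ℂ) (g p.2)).re := by
      rw [← Complex.normSq_eq_norm_sq, ← Complex.normSq_eq_norm_sq, ← Complex.normSq_eq_norm_sq,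
        Complex.normSq_sub]
    rw [h9]; ring
  have hD : Integrable (fun p : ℝ × ℝ => ‖g p.1 - g p.2‖ ^ 2 * Real.exp (-((p.1 - p.2) ^ 2) / (4 * σ ^ 2)))
      (volume.prod volume) := by
    refine ((h3.add h1).sub (hR.const_mul 2)).congr (Filter.Eventually.of_forall fun p => ?_)
    exact (hpt p).symm
  refine ⟨hD, ?_⟩
  have hI : ∫ p : ℝ × ℝ, ‖g p.1 - g p.2‖ ^ 2 *
        Real.exp (-((p.1 - p.2) ^ 2) / (4 * σ ^ 2)) ∂(volume.prod volume)
      = (∫ v, ‖g v‖ ^ 2) * (2 * σ * √Real.pi) + (∫ v, ‖g v‖ ^ 2) * (2 * σ * √Real.pi)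
       - 2 * ∫ p : ℝ × ℝ, (g p.1 * (starRingEnd ℂ) (g p.2)).re * Real.exp (-((p.1 - p.2) ^ 2) / (4 * σ ^ 2))
        ∂(volume.prod volume) := by
    simp only [hpt]
    have hadd := integral_add h3 h1
    have hsub := integral_sub (h3.add h1) (hR.const_mul 2)
    have hcm := integral_const_mul (2 : ℝ) (fun p : ℝ × ℝ => (g p.1 * (starRingEnd ℂ) (g p.2)).re *
      Real.exp (-((p.1 - p.2) ^ 2) / (4 * σ ^ 2))) (μ := volume.prod volume)
    simp only [Pi.add_apply] at hsub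
    rw [hsub, hadd, hcm, h4, h2]
  rw [hI]
  ring

theorem PL_F_le (g : ℝ → ℂ) (u : ℝ) : ‖PL_F g u‖ ≤ ∫ v, ‖g v‖ := by
  unfold PL_F
  refine (norm_integral_le_integral_norm _).trans (le_of_eq ?_)
  congr 1
  funext v
  rw [norm_mul, PL_norm_e, mul_one]

theorem PL_F_meas (g : ℝ → ℂ) (hg : Integrable g) : AEStronglyMeasurable (PL_F g) volume := by
  have h : AEStronglyMeasurable (fun q : ℝ × ℝ => g q.2 * Complex.exp (-(q.1 * q.2 : ℝ) * Complex.I))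
      (volume.prod volume) := by
    refine hg.aestronglyMeasurable.comp_snd.mul (Continuous.aestronglyMeasurable (by fun_prop))
  exact h.integral_prod_right'

theorem PL_P (g : ℝ → ℂ) (hg : Integrable g) (hg2 : Integrable (fun v => ‖g v‖ ^ 2)) (δ T : ℝ)
    (hδ : 0 < δ) (hT : 0 ≤ T) (hTδ : Real.exp (-(δ ^ 2 * T ^ 2 / 2)) ≤ 1 / 2) :
    Real.pi * ∫ v, ‖g v‖ ^ 2 ≤ (∫ u in Set.Icc (-T) T, ‖PL_F g u‖ ^ 2) + (√Real.pi / (2 * δ)) *
      ∫ p : ℝ × ℝ, ‖g p.1 - g p.2‖ ^ 2 * Real.exp (-((p.1 - p.2) ^ 2) / (4 * δ ^ 2)) ∂(volume.prod volume) := by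
  set N : ℝ := ∫ v, ‖g v‖ ^ 2 with hN
  have hN0 : 0 ≤ N := integral_nonneg (fun v => by positivity)
  have hsp : √Real.pi * √Real.pi = Real.pi := Real.mul_self_sqrt Real.pi_pos.le
  have hmeas := PL_F_meas g hg
  have hB0 : 0 ≤ ∫ v, ‖g v‖ := integral_nonneg (fun v => norm_nonneg _)
  have hbd : ∀ u, ‖PL_F g u‖ ^ 2 ≤ (∫ v, ‖g v‖) ^ 2 := fun u =>
    pow_le_pow_left₀ (norm_nonneg _) (PL_F_le g u) 2
  have hint : ∀ c : ℝ, 0 < c → Integrable (fun u => ‖PL_F g u‖ ^ 2 * Real.exp (-(c * u ^ 2))) := by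
    intro c hc
    have h1 : Integrable (fun u : ℝ => (∫ v, ‖g v‖) ^ 2 * Real.exp (-c * u ^ 2)) :=
      (integrable_exp_neg_mul_sq hc).const_mul _
    refine h1.mono ((hmeas.norm.pow 2).mul (Continuous.aestronglyMeasurable (by fun_prop)))
      (Filter.Eventually.of_forall fun u => ?_)
    rw [Real.norm_of_nonneg (by positivity), Real.norm_of_nonneg (by positivity), neg_mul]
    exact mul_le_mul_of_nonneg_right (hbd u) (Real.exp_pos _).le
  -- identity at δ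
  obtain ⟨hDi, hQ⟩ := PL_Q g hg hg2 δ hδ
  have hid := PL_id g hg δ hδ
  rw [hQ] at hid
  set D : ℝ := ∫ p : ℝ × ℝ, ‖g p.1 - g p.2‖ ^ 2 *
    Real.exp (-((p.1 - p.2) ^ 2) / (4 * δ ^ 2)) ∂(volume.prod volume) with hD
  have hid2 : ∫ u : ℝ, ‖PL_F g u‖ ^ 2 * Real.exp (-(δ ^ 2 * u ^ 2)) = 2 * Real.pi * N - √Real.pi / (2 * δ) * D := by
    rw [hid]
    have : √Real.pi / δ * (2 * δ * √Real.pi * N) = 2 * (√Real.pi * √Real.pi) * N := by
      field_simp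
    rw [mul_sub, this, hsp]
    ring
  -- bound at σ = δ / √2
  have hσ : 0 < δ / √2 := by positivity
  obtain ⟨hDi', hQ'⟩ := PL_Q g hg hg2 (δ / √2) hσ
  have hid' := PL_id g hg (δ / √2) hσ
  rw [hQ'] at hid'
  have hsσ : (δ / √2) ^ 2 = δ ^ 2 / 2 := by
    rw [div_pow, Real.sq_sqrt (by norm_num)]
  have hD'0 : 0 ≤ ∫ p : ℝ × ℝ, ‖g p.1 - g p.2‖ ^ 2 *
    Real.exp (-((p.1 - p.2) ^ 2) / (4 * (δ / √2) ^ 2)) ∂(volume.prod volume) :=
    integral_nonneg (fun p => by positivity)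
  have hid3 : ∫ u : ℝ, ‖PL_F g u‖ ^ 2 * Real.exp (-(δ ^ 2 / 2 * u ^ 2)) ≤ 2 * Real.pi * N := by
    rw [← hsσ, hid']
    have h1 : √Real.pi / (δ / √2) * (2 * (δ / √2) * √Real.pi * N) = 2 * (√Real.pi * √Real.pi) * N := by
      field_simp
    rw [mul_sub, h1, hsp]
    have : 0 ≤ √Real.pi / (δ / √2) * (1 / 2 * ∫ p : ℝ × ℝ, ‖g p.1 - g p.2‖ ^ 2 *
      Real.exp (-((p.1 - p.2) ^ 2) / (4 * (δ / √2) ^ 2)) ∂(volume.prod volume)) := by positivity
    linarith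
  -- splitting
  have hsplit := integral_add_compl (measurableSet_Icc : MeasurableSet (Set.Icc (-T) T)) (hint (δ ^ 2) (by positivity))
  have hlow : ∫ u in Set.Icc (-T) T, ‖PL_F g u‖ ^ 2 * Real.exp (-(δ ^ 2 * u ^ 2))
      ≤ ∫ u in Set.Icc (-T) T, ‖PL_F g u‖ ^ 2 := by
    apply setIntegral_mono_on (hint (δ ^ 2) (by positivity)).integrableOn ?_ measurableSet_Icc ?_
    · refine Integrable.mono' (g := fun _ => (∫ v, ‖g v‖) ^ 2) ?_ (hmeas.norm.pow 2).restrict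
        (Filter.Eventually.of_forall fun u => ?_)
      · exact integrableOn_const (by simp) (by simp)
      · rw [Real.norm_of_nonneg (by positivity)]; exact hbd u
    · intro u _
      have : Real.exp (-(δ ^ 2 * u ^ 2)) ≤ 1 := by
        rw [Real.exp_le_one_iff]; nlinarith [sq_nonneg (δ * u)]
      nlinarith [sq_nonneg ‖PL_F g u‖]
  have hhigh : ∫ u in (Set.Icc (-T) T)ᶜ, ‖PL_F g u‖ ^ 2 * Real.exp (-(δ ^ 2 * u ^ 2)) ≤ Real.pi * N := by
    have h1 : ∫ u in (Set.Icc (-T) T)ᶜ, ‖PL_F g u‖ ^ 2 * Real.exp (-(δ ^ 2 * u ^ 2))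
        ≤ ∫ u in (Set.Icc (-T) T)ᶜ, 1 / 2 * (‖PL_F g u‖ ^ 2 * Real.exp (-(δ ^ 2 / 2 * u ^ 2))) := by
      apply setIntegral_mono_on (hint (δ ^ 2) (by positivity)).integrableOn
        ((hint (δ ^ 2 / 2) (by positivity)).const_mul _).integrableOn measurableSet_Icc.compl
      intro u hu
      have hu2 : T ^ 2 ≤ u ^ 2 := by
        rw [Set.mem_compl_iff, Set.mem_Icc, not_and_or, not_le, not_le] at hu
        rcases hu with hu | hu <;> nlinarith
      have h2 : Real.exp (-(δ ^ 2 * u ^ 2)) = Real.exp (-(δ ^ 2 / 2 * u ^ 2)) * Real.exp (-(δ ^ 2 / 2 * u ^ 2)) := by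
        rw [← Real.exp_add]; congr 1; ring
      have h3 : Real.exp (-(δ ^ 2 / 2 * u ^ 2)) ≤ 1 / 2 := by
        refine le_trans (Real.exp_le_exp.2 ?_) hTδ
        nlinarith [mul_le_mul_of_nonneg_left hu2 (sq_nonneg δ)]
      have h4 := Real.exp_pos (-(δ ^ 2 / 2 * u ^ 2))
      rw [h2]
      have h5 : Real.exp (-(δ ^ 2 / 2 * u ^ 2)) * Real.exp (-(δ ^ 2 / 2 * u ^ 2))
          ≤ 1 / 2 * Real.exp (-(δ ^ 2 / 2 * u ^ 2)) := mul_le_mul_of_nonneg_right h3 h4.le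
      nlinarith [sq_nonneg ‖PL_F g u‖, mul_le_mul_of_nonneg_left h5 (sq_nonneg ‖PL_F g u‖)]
    have h6 : ∫ u in (Set.Icc (-T) T)ᶜ, 1 / 2 * (‖PL_F g u‖ ^ 2 * Real.exp (-(δ ^ 2 / 2 * u ^ 2)))
        ≤ ∫ u, 1 / 2 * (‖PL_F g u‖ ^ 2 * Real.exp (-(δ ^ 2 / 2 * u ^ 2))) :=
      setIntegral_le_integral ((hint (δ ^ 2 / 2) (by positivity)).const_mul _)
        (Filter.Eventually.of_forall fun u => by positivity)
    have h7 := integral_const_mul (1 / 2 : ℝ) (fun u : ℝ => ‖PL_F g u‖ ^ 2 * Real.exp (-(δ ^ 2 / 2 * u ^ 2)))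
      (μ := volume)
    rw [h7] at h6
    linarith
  linarith
end PLA

open Pool.Agent.MRS hiding Good


/-- partial sums -/
noncomputable def PL_A (a : ℕ → ℂ) (x : ℝ) : ℂ := ∑ n ∈ Icc 1 ⌊x⌋₊, a n

theorem PL_b0_nonneg (n : ℕ) : 0 ≤ (bb 0 n).re := (norm_nonneg _).trans (norm_bb_le 0 n)

theorem PL_sumb (x : ℝ) (hx : 0 ≤ x) : ∑ n ∈ Icc 1 ⌊x⌋₊, (bb 0 n).re = 1 / 2 * ((pan 0 x).card : ℝ) := by
  have h := congrArg Complex.re (sum_bb 0 x hx)
  rw [Complex.re_sum] at h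
  rw [h]
  simp

theorem PL_pan_le (x : ℝ) (hx : 0 ≤ x) : ((pan 0 x).card : ℝ) ≤ 4 * x := by
  classical
  refine le_trans ?_ (card_ann_le 0 hx)
  unfold pan
  exact_mod_cast Finset.card_filter_le _ _

theorem PL_sum_norm_le (a : ℕ → ℂ) (ha : ∀ n, ‖a n‖ ≤ (bb 0 n).re) (x : ℝ) (hx : 0 ≤ x) :
    ∑ n ∈ Icc 1 ⌊x⌋₊, ‖a n‖ ≤ 2 * x := by
  have h1 := PL_sumb x hx
  have h2 := PL_pan_le x hx
  have h3 : ∑ n ∈ Icc 1 ⌊x⌋₊, ‖a n‖ ≤ ∑ n ∈ Icc 1 ⌊x⌋₊, (bb 0 n).re := Finset.sum_le_sum fun n _ => ha n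
  linarith

theorem PL_A_le (a : ℕ → ℂ) (ha : ∀ n, ‖a n‖ ≤ (bb 0 n).re) (x : ℝ) (hx : 0 ≤ x) :
    ‖PL_A a x‖ ≤ 2 * x :=
  (norm_sum_le _ _).trans (PL_sum_norm_le a ha x hx)

theorem PL_A_zero (a : ℕ → ℂ) (x : ℝ) (hx : x < 1) : PL_A a x = 0 := by
  unfold PL_A
  have : ⌊x⌋₊ = 0 := Nat.floor_eq_zero.2 hx
  rw [this]; simp

theorem PL_A_diff (a : ℕ → ℂ) (ha : ∀ n, ‖a n‖ ≤ (bb 0 n).re) :
    ∃ C : ℝ, 0 < C ∧ ∀ x y : ℝ, 0 ≤ x → x ≤ y → ‖PL_A a y - PL_A a x‖ ≤ C * ((y - x) + √y) := by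
  classical
  obtain ⟨K, hK, hcard⟩ := card_ann
  refine ⟨Real.pi + K, by positivity, fun x y hx hxy => ?_⟩
  have hfl : ⌊x⌋₊ ≤ ⌊y⌋₊ := Nat.floor_le_floor hxy
  have hy : 0 ≤ y := hx.trans hxy
  have hsub : Icc 1 ⌊x⌋₊ ⊆ Icc 1 ⌊y⌋₊ := Finset.Icc_subset_Icc_right hfl
  have h1 : PL_A a y - PL_A a x = ∑ n ∈ Icc 1 ⌊y⌋₊ \ Icc 1 ⌊x⌋₊, a n := by
    unfold PL_A
    rw [← Finset.sum_sdiff hsub]; ring
  have h2 : ‖PL_A a y - PL_A a x‖ ≤ ∑ n ∈ Icc 1 ⌊y⌋₊ \ Icc 1 ⌊x⌋₊, (bb 0 n).re := by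
    rw [h1]
    exact (norm_sum_le _ _).trans (Finset.sum_le_sum fun n _ => ha n)
  have h3 : ∑ n ∈ Icc 1 ⌊y⌋₊ \ Icc 1 ⌊x⌋₊, (bb 0 n).re
      = 1 / 2 * ((pan 0 y).card : ℝ) - 1 / 2 * ((pan 0 x).card : ℝ) := by
    have h4 := Finset.sum_sdiff (f := fun n => (bb 0 n).re) hsub
    rw [PL_sumb y hy, PL_sumb x hx] at h4
    linarith
  have h5 : ((pan 0 y).card : ℝ) - ((pan 0 x).card : ℝ) ≤ ((ann x y).card : ℝ) := by
    have h6 : pan 0 y ⊆ pan 0 x ∪ ann x y := by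
      intro z hz
      rw [mem_pan] at hz
      rw [Finset.mem_union, mem_pan, mem_ann]
      by_cases hzx : (nm z : ℝ) ≤ x
      · left; exact ⟨hz.1, hz.2.1, hz.2.2.1, hzx⟩
      · right; exact ⟨hz.1, not_le.1 hzx, hz.2.2.2⟩
    have h7 := Finset.card_le_card h6
    have h8 := Finset.card_union_le (pan 0 x) (ann x y)
    have h9 : ((pan 0 y).card : ℝ) ≤ ((pan 0 x).card : ℝ) + ((ann x y).card : ℝ) := by
      exact_mod_cast h7.trans h8
    linarith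
  have h10 := (abs_le.1 (hcard x y hx hxy)).2
  have h11 := Real.sqrt_nonneg y
  have h12 := Real.pi_pos
  nlinarith [mul_nonneg h12.le (sub_nonneg.2 hxy), mul_nonneg h12.le h11, mul_nonneg hK.le (sub_nonneg.2 hxy),
    mul_nonneg hK.le h11]

/-- `A(e^v) e^{-(1+α)v}` -/
noncomputable def PL_g (a : ℕ → ℂ) (α v : ℝ) : ℂ := PL_A a (Real.exp v) * (Real.exp (-((1 + α) * v)) : ℂ)

theorem PL_g_neg (a : ℕ → ℂ) (α v : ℝ) (hv : v < 0) : PL_g a α v = 0 := by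
  unfold PL_g
  rw [PL_A_zero a _ (by rw [Real.exp_lt_one_iff]; exact hv), zero_mul]

theorem PL_g_norm (a : ℕ → ℂ) (α v : ℝ) :
    ‖PL_g a α v‖ = ‖PL_A a (Real.exp v)‖ * Real.exp (-((1 + α) * v)) := by
  unfold PL_g
  rw [norm_mul, Complex.norm_real, Real.norm_of_nonneg (Real.exp_pos _).le]

theorem PL_g_le (a : ℕ → ℂ) (ha : ∀ n, ‖a n‖ ≤ (bb 0 n).re) (α v : ℝ) :
    ‖PL_g a α v‖ ≤ 2 * Real.exp (-(α * v)) := by
  rw [PL_g_norm]
  have h1 := PL_A_le a ha (Real.exp v) (Real.exp_pos v).le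
  have h2 : Real.exp (-(α * v)) = Real.exp v * Real.exp (-((1 + α) * v)) := by
    rw [← Real.exp_add]; congr 1; ring
  rw [h2]
  have h3 := Real.exp_pos (-((1 + α) * v))
  nlinarith

theorem PL_A_meas (a : ℕ → ℂ) : Measurable (PL_A a) := by
  unfold PL_A
  exact (measurable_from_nat (f := fun N : ℕ => ∑ n ∈ Icc 1 N, a n)).comp Nat.measurable_floor

theorem PL_g_meas (a : ℕ → ℂ) (α : ℝ) : Measurable (PL_g a α) := by
  unfold PL_g
  exact ((PL_A_meas a).comp Real.measurable_exp).mul (Continuous.measurable (by fun_prop))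

/-- envelope -/
noncomputable def PL_e (α v : ℝ) : ℝ := (Set.Ici (0 : ℝ)).indicator (fun v => Real.exp (-(α * v))) v

theorem PL_e_int (α : ℝ) (hα : 0 < α) : Integrable (PL_e α) ∧ ∫ v, PL_e α v = 1 / α := by
  have h1 : IntegrableOn (fun v : ℝ => Real.exp (-(α * v))) (Set.Ioi 0) := by
    have := exp_neg_integrableOn_Ioi 0 hα
    refine this.congr_fun (fun v _ => ?_) measurableSet_Ioi
    simp only [neg_mul]
  have h2 : IntegrableOn (fun v : ℝ => Real.exp (-(α * v))) (Set.Ici 0) :=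
    (integrableOn_Ici_iff_integrableOn_Ioi (by simp)).2 h1
  refine ⟨h2.integrable_indicator measurableSet_Ici, ?_⟩
  unfold PL_e
  rw [integral_indicator measurableSet_Ici, integral_Ici_eq_integral_Ioi]
  have h3 := integral_exp_mul_Ioi (a := -α) (by linarith) 0
  have h4 : ∀ v : ℝ, Real.exp (-(α * v)) = Real.exp (-α * v) := fun v => by rw [neg_mul]
  simp only [h4, h3]
  simp

theorem PL_F_eq (a : ℕ → ℂ) (ha : ∀ n, ‖a n‖ ≤ (bb 0 n).re) (α : ℝ) (hα : 0 < α) (u : ℝ) :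
    LSeries a (1 + α + u * Complex.I) = (1 + α + u * Complex.I) * PL_F (PL_g a α) u := by
  set s : ℂ := 1 + α + u * Complex.I with hs
  have hre : s.re = 1 + α := by simp [hs]
  have hO : (fun n : ℕ ↦ ∑ k ∈ Icc 1 n, ‖a k‖) =O[atTop] fun n : ℕ ↦ (n : ℝ) ^ (1 : ℝ) := by
    refine Asymptotics.IsBigO.of_bound 2 (Filter.Eventually.of_forall fun n => ?_)
    rw [Real.rpow_one, Real.norm_of_nonneg (Finset.sum_nonneg fun _ _ => norm_nonneg _),
      Real.norm_of_nonneg (Nat.cast_nonneg n)]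
    have := PL_sum_norm_le a ha (n : ℝ) (Nat.cast_nonneg n)
    rwa [Nat.floor_natCast] at this
  have h1 := LSeries_eq_mul_integral' a (r := 1) zero_le_one (s := s) (by rw [hre]; linarith) hO
  rw [h1]
  congr 1
  have himg : Real.exp '' Set.Ioi 0 = Set.Ioi 1 := by
    ext t
    constructor
    · rintro ⟨v, hv, rfl⟩
      exact Real.one_lt_exp_iff.2 hv
    · intro ht
      have ht' : (1 : ℝ) < t := ht
      exact ⟨Real.log t, Real.log_pos ht', Real.exp_log (by linarith)⟩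
  rw [← himg, integral_image_eq_integral_abs_deriv_smul measurableSet_Ioi
    (fun x _ => (Real.hasDerivAt_exp x).hasDerivWithinAt) (Real.exp_injective.injOn)]
  unfold PL_F
  have h2 : ∫ v : ℝ, PL_g a α v * Complex.exp (-(u * v : ℝ) * Complex.I)
      = ∫ v in Set.Ici (0 : ℝ), PL_g a α v * Complex.exp (-(u * v : ℝ) * Complex.I) := by
    rw [setIntegral_eq_integral_of_forall_compl_eq_zero]
    intro v hv
    rw [PL_g_neg a α v (by simpa using hv), zero_mul]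
  rw [h2, integral_Ici_eq_integral_Ioi]
  apply setIntegral_congr_fun measurableSet_Ioi
  intro v _
  simp only
  rw [abs_of_pos (Real.exp_pos v)]
  unfold PL_g PL_A
  rw [Complex.real_smul]
  have h3 : ((Real.exp v : ℝ) : ℂ) ^ (-(s + 1)) = Complex.exp (-(s + 1) * v) := by
    rw [Complex.cpow_def_of_ne_zero (by exact_mod_cast (Real.exp_pos v).ne'), ← Complex.ofReal_log (Real.exp_pos v).le,
      Real.log_exp]
    congr 1; ring
  rw [h3]
  have h4 : ((Real.exp v : ℝ) : ℂ) * Complex.exp (-(s + 1) * v)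
      = (Real.exp (-((1 + α) * v)) : ℂ) * Complex.exp (-(u * v : ℝ) * Complex.I) := by
    rw [Complex.ofReal_exp, Complex.ofReal_exp, ← Complex.exp_add, ← Complex.exp_add]
    congr 1
    rw [hs]; push_cast; ring
  calc ((Real.exp v : ℝ) : ℂ) * ((∑ k ∈ Icc 1 ⌊Real.exp v⌋₊, a k) * Complex.exp (-(s + 1) * v))
      = (∑ k ∈ Icc 1 ⌊Real.exp v⌋₊, a k) * (((Real.exp v : ℝ) : ℂ) * Complex.exp (-(s + 1) * v)) := by ring
    _ = _ := by rw [h4]; ring

theorem PL_F_bd (a : ℕ → ℂ) (ha : ∀ n, ‖a n‖ ≤ (bb 0 n).re) (α : ℝ) (hα : 0 < α) (u : ℝ) :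
    ‖PL_F (PL_g a α) u‖ ≤ ‖LSeries a (1 + α + u * Complex.I)‖ := by
  rw [PL_F_eq a ha α hα u, norm_mul]
  have h1 : (1 : ℝ) ≤ ‖(1 + α + u * Complex.I : ℂ)‖ := by
    have h2 := Complex.abs_re_le_norm (1 + α + u * Complex.I : ℂ)
    have h3 : (1 + α + u * Complex.I : ℂ).re = 1 + α := by simp
    rw [h3] at h2
    have := le_abs_self (1 + α)
    linarith
  nlinarith [norm_nonneg (PL_F (PL_g a α) u)]

/-- the difference bound, ordered version -/
theorem PL_ord (a : ℕ → ℂ) (ha : ∀ n, ‖a n‖ ≤ (bb 0 n).re) :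
    ∃ C : ℝ, 0 < C ∧ ∀ α : ℝ, 0 < α → α ≤ 1 → ∀ m h : ℝ, 0 ≤ h →
      ‖PL_g a α (m + h) - PL_g a α m‖ ^ 2 ≤ C * (h ^ 2 * PL_e (2 * α) m + Real.exp h * Real.exp (-|m|)) := by
  obtain ⟨C, hC, hdiff⟩ := PL_A_diff a ha
  refine ⟨2 * (C + 4) ^ 2, by positivity, fun α hα hα1 m h hh => ?_⟩
  have hE := Real.exp_pos h
  have hEm := Real.exp_pos (-|m|)
  rcases lt_or_ge m 0 with hm | hm
  · have he : PL_e (2 * α) m = 0 := by
      unfold PL_e
      exact Set.indicator_of_notMem (by simpa using hm) _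
    rw [he, PL_g_neg a α m hm, sub_zero, mul_zero, zero_add]
    rcases lt_or_ge (m + h) 0 with hmh | hmh
    · rw [PL_g_neg a α _ hmh]
      have h0 : ‖(0 : ℂ)‖ ^ 2 = 0 := by rw [norm_zero]; norm_num
      rw [h0]
      positivity
    · have h1 := PL_g_le a ha α (m + h)
      have h2 : Real.exp (-(α * (m + h))) ≤ 1 := by
        rw [Real.exp_le_one_iff]
        nlinarith [mul_nonneg hα.le hmh]
      have h3 : ‖PL_g a α (m + h)‖ ^ 2 ≤ 4 := by
        have h4 : ‖PL_g a α (m + h)‖ ≤ 2 := by linarith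
        nlinarith [norm_nonneg (PL_g a α (m + h))]
      have h5 : 1 ≤ Real.exp h * Real.exp (-|m|) := by
        rw [← Real.exp_add]
        apply Real.one_le_exp
        rw [abs_of_neg hm]; linarith
      nlinarith [sq_nonneg C]
  · have he : PL_e (2 * α) m = Real.exp (-(2 * α * m)) := by
      unfold PL_e
      exact Set.indicator_of_mem (by simpa using hm) _
    rw [he, abs_of_nonneg hm]
    set M : ℝ := m + h with hM
    have hmM : m ≤ M := by linarith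
    -- split
    have hsplit : PL_g a α M - PL_g a α m
        = (PL_A a (Real.exp M) - PL_A a (Real.exp m)) * (Real.exp (-((1 + α) * M)) : ℂ)
          - PL_A a (Real.exp m) * ((Real.exp (-((1 + α) * m)) - Real.exp (-((1 + α) * M)) : ℝ) : ℂ) := by
      unfold PL_g
      push_cast
      ring
    have h1 : ‖(PL_A a (Real.exp M) - PL_A a (Real.exp m)) * (Real.exp (-((1 + α) * M)) : ℂ)‖
        ≤ C * h * Real.exp (-(α * m)) + C * Real.exp (-(m / 2)) := by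
      rw [norm_mul, Complex.norm_real, Real.norm_of_nonneg (Real.exp_pos _).le]
      have h2 := hdiff (Real.exp m) (Real.exp M) (Real.exp_pos _).le (Real.exp_le_exp.2 hmM)
      have h3 : √(Real.exp M) = Real.exp (M / 2) := by
        rw [← Real.exp_half]
      rw [h3] at h2
      have h4 : Real.exp M * Real.exp (-((1 + α) * M)) = Real.exp (-(α * M)) := by
        rw [← Real.exp_add]; congr 1; ring
      have h5 : Real.exp m * Real.exp (-((1 + α) * M)) = Real.exp (-h) * Real.exp (-(α * M)) := by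
        rw [← Real.exp_add, ← Real.exp_add]; congr 1; rw [hM]; ring
      have h6 : Real.exp (M / 2) * Real.exp (-((1 + α) * M)) ≤ Real.exp (-(m / 2)) := by
        rw [← Real.exp_add]
        apply Real.exp_le_exp.2
        nlinarith [mul_nonneg hα.le hm, mul_nonneg hα.le hh]
      have h7 : 1 - Real.exp (-h) ≤ h := by
        have := Real.add_one_le_exp (-h)
        linarith
      have h8 : Real.exp (-(α * M)) ≤ Real.exp (-(α * m)) := by
        apply Real.exp_le_exp.2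
        nlinarith
      have h9 : 0 ≤ 1 - Real.exp (-h) := by
        have : Real.exp (-h) ≤ 1 := by rw [Real.exp_le_one_iff]; linarith
        linarith
      calc ‖PL_A a (Real.exp M) - PL_A a (Real.exp m)‖ * Real.exp (-((1 + α) * M))
          ≤ C * (Real.exp M - Real.exp m + Real.exp (M / 2)) * Real.exp (-((1 + α) * M)) :=
            mul_le_mul_of_nonneg_right h2 (Real.exp_pos _).le
        _ = C * ((1 - Real.exp (-h)) * Real.exp (-(α * M))) + C * (Real.exp (M / 2) * Real.exp (-((1 + α) * M))) := by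
            have : (Real.exp M - Real.exp m + Real.exp (M / 2)) * Real.exp (-((1 + α) * M))
                = Real.exp M * Real.exp (-((1 + α) * M)) - Real.exp m * Real.exp (-((1 + α) * M))
                  + Real.exp (M / 2) * Real.exp (-((1 + α) * M)) := by ring
            rw [mul_assoc, this, h4, h5]; ring
        _ ≤ C * (h * Real.exp (-(α * m))) + C * Real.exp (-(m / 2)) := by
            have h10 : (1 - Real.exp (-h)) * Real.exp (-(α * M)) ≤ h * Real.exp (-(α * m)) :=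
              mul_le_mul h7 h8 (Real.exp_pos _).le hh
            have h11 := mul_le_mul_of_nonneg_left h10 hC.le
            have h12 := mul_le_mul_of_nonneg_left h6 hC.le
            linarith
        _ = _ := by ring
    have h2 : ‖PL_A a (Real.exp m) * ((Real.exp (-((1 + α) * m)) - Real.exp (-((1 + α) * M)) : ℝ) : ℂ)‖
        ≤ 4 * h * Real.exp (-(α * m)) := by
      have h3 : 0 ≤ Real.exp (-((1 + α) * m)) - Real.exp (-((1 + α) * M)) := by
        have : Real.exp (-((1 + α) * M)) ≤ Real.exp (-((1 + α) * m)) := by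
          apply Real.exp_le_exp.2
          nlinarith
        linarith
      rw [norm_mul, Complex.norm_real, Real.norm_of_nonneg h3]
      have h4 := PL_A_le a ha (Real.exp m) (Real.exp_pos m).le
      have h5 : Real.exp (-((1 + α) * M)) = Real.exp (-((1 + α) * m)) * Real.exp (-((1 + α) * h)) := by
        rw [← Real.exp_add]; congr 1; rw [hM]; ring
      have h6 : 1 - Real.exp (-((1 + α) * h)) ≤ 2 * h := by
        have := Real.add_one_le_exp (-((1 + α) * h))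
        nlinarith
      have h7 : Real.exp m * Real.exp (-((1 + α) * m)) = Real.exp (-(α * m)) := by
        rw [← Real.exp_add]; congr 1; ring
      have h8 : Real.exp (-((1 + α) * m)) - Real.exp (-((1 + α) * M))
          ≤ Real.exp (-((1 + α) * m)) * (2 * h) := by
        rw [h5]
        have := mul_le_mul_of_nonneg_left h6 (Real.exp_pos (-((1 + α) * m))).le
        linarith
      calc ‖PL_A a (Real.exp m)‖ * (Real.exp (-((1 + α) * m)) - Real.exp (-((1 + α) * M)))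
          ≤ (2 * Real.exp m) * (Real.exp (-((1 + α) * m)) * (2 * h)) :=
            mul_le_mul h4 h8 h3 (by positivity)
        _ = 4 * h * (Real.exp m * Real.exp (-((1 + α) * m))) := by ring
        _ = _ := by rw [h7]
    have h3 : ‖PL_g a α M - PL_g a α m‖ ≤ (C + 4) * (h * Real.exp (-(α * m)) + Real.exp (-(m / 2))) := by
      rw [hsplit]
      refine (norm_sub_le _ _).trans ?_
      have := Real.exp_pos (-(m / 2))
      nlinarith
    have h4 : 0 ≤ h * Real.exp (-(α * m)) := by positivity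
    have h5 := Real.exp_pos (-(m / 2))
    have h6 : (h * Real.exp (-(α * m)) + Real.exp (-(m / 2))) ^ 2
        ≤ 2 * (h ^ 2 * Real.exp (-(2 * α * m)) + Real.exp (-m)) := by
      have h7 : Real.exp (-(2 * α * m)) = Real.exp (-(α * m)) ^ 2 := by
        rw [← Real.exp_nat_mul]; congr 1; push_cast; ring
      have h8 : Real.exp (-m) = Real.exp (-(m / 2)) ^ 2 := by
        rw [← Real.exp_nat_mul]; congr 1; push_cast; ring
      rw [h7, h8]
      nlinarith [sq_nonneg (h * Real.exp (-(α * m)) - Real.exp (-(m / 2)))]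
    have h7 : Real.exp (-m) ≤ Real.exp h * Real.exp (-m) := by
      have := Real.one_le_exp hh
      nlinarith [Real.exp_pos (-m)]
    calc ‖PL_g a α M - PL_g a α m‖ ^ 2
        ≤ ((C + 4) * (h * Real.exp (-(α * m)) + Real.exp (-(m / 2)))) ^ 2 :=
          pow_le_pow_left₀ (norm_nonneg _) h3 2
      _ = (C + 4) ^ 2 * (h * Real.exp (-(α * m)) + Real.exp (-(m / 2))) ^ 2 := by ring
      _ ≤ (C + 4) ^ 2 * (2 * (h ^ 2 * Real.exp (-(2 * α * m)) + Real.exp (-m))) := by gcongr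
      _ ≤ (C + 4) ^ 2 * (2 * (h ^ 2 * Real.exp (-(2 * α * m)) + Real.exp h * Real.exp (-m))) := by gcongr
      _ = _ := by ring

/-- the difference bound -/
theorem PL_diff (a : ℕ → ℂ) (ha : ∀ n, ‖a n‖ ≤ (bb 0 n).re) :
    ∃ C : ℝ, 0 < C ∧ ∀ α : ℝ, 0 < α → α ≤ 1 → ∀ v w : ℝ,
      ‖PL_g a α v - PL_g a α w‖ ^ 2 ≤
        C * (Real.exp (2 * |v - w|) * ((v - w) ^ 2 * PL_e (2 * α) w + Real.exp (-|w|))) := by
  obtain ⟨C, hC, hord⟩ := PL_ord a ha
  refine ⟨C, hC, fun α hα hα1 v w => ?_⟩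
  have he0 : ∀ x, 0 ≤ PL_e (2 * α) x := fun x => Set.indicator_nonneg (fun y _ => (Real.exp_pos _).le) x
  rcases le_total w v with hvw | hvw
  · have h1 := hord α hα hα1 w (v - w) (by linarith)
    rw [show w + (v - w) = v by ring] at h1
    refine h1.trans ?_
    rw [abs_of_nonneg (by linarith : 0 ≤ v - w)]
    have h2 : 1 ≤ Real.exp (2 * (v - w)) := Real.one_le_exp (by linarith)
    have h3 : Real.exp (v - w) ≤ Real.exp (2 * (v - w)) := Real.exp_le_exp.2 (by linarith)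
    have h4 : 0 ≤ (v - w) ^ 2 * PL_e (2 * α) w := mul_nonneg (sq_nonneg _) (he0 w)
    have h5 := Real.exp_pos (-|w|)
    have h6 : (v - w) ^ 2 * PL_e (2 * α) w + Real.exp (v - w) * Real.exp (-|w|)
        ≤ Real.exp (2 * (v - w)) * ((v - w) ^ 2 * PL_e (2 * α) w + Real.exp (-|w|)) := by
      have h7 := mul_le_mul_of_nonneg_right h2 h4
      have h8 := mul_le_mul_of_nonneg_right h3 h5.le
      linarith
    exact mul_le_mul_of_nonneg_left h6 hC.le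
  · have h1 := hord α hα hα1 v (w - v) (by linarith)
    rw [show v + (w - v) = w by ring, norm_sub_rev] at h1
    refine h1.trans ?_
    set h : ℝ := w - v with hh
    have hh0 : 0 ≤ h := by linarith
    have habs : |v - w| = h := by rw [abs_sub_comm, abs_of_nonneg (by linarith)]
    have hsq : (v - w) ^ 2 = h ^ 2 := by rw [hh]; ring
    rw [habs, hsq]
    have h2 : PL_e (2 * α) v ≤ Real.exp (2 * h) * PL_e (2 * α) w := by
      unfold PL_e
      rcases lt_or_ge v 0 with hv | hv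
      · rw [Set.indicator_of_notMem (by simpa using hv)]
        exact mul_nonneg (Real.exp_pos _).le (Set.indicator_nonneg (fun y _ => (Real.exp_pos _).le) w)
      · rw [Set.indicator_of_mem (by simpa using hv), Set.indicator_of_mem (by
          rw [Set.mem_Ici]; linarith), ← Real.exp_add]
        apply Real.exp_le_exp.2
        nlinarith
    have h3 : Real.exp h * Real.exp (-|v|) ≤ Real.exp (2 * h) * Real.exp (-|w|) := by
      rw [← Real.exp_add, ← Real.exp_add]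
      apply Real.exp_le_exp.2
      have : |w| ≤ |v| + h := by
        have := abs_add_le v h
        rw [show v + h = w by rw [hh]; ring, abs_of_nonneg hh0] at this
        exact this
      linarith
    have h4 : h ^ 2 * PL_e (2 * α) v ≤ Real.exp (2 * h) * (h ^ 2 * PL_e (2 * α) w) := by
      have := mul_le_mul_of_nonneg_left h2 (sq_nonneg h)
      linarith
    have h5 : h ^ 2 * PL_e (2 * α) v + Real.exp h * Real.exp (-|v|)
        ≤ Real.exp (2 * h) * (h ^ 2 * PL_e (2 * α) w + Real.exp (-|w|)) := by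
      rw [mul_add]; linarith
    exact mul_le_mul_of_nonneg_left h5 hC.le


theorem PL_e_nonneg (α v : ℝ) : 0 ≤ PL_e α v :=
  Set.indicator_nonneg (fun _ _ => (Real.exp_pos _).le) v

theorem PL_g_int (a : ℕ → ℂ) (ha : ∀ n, ‖a n‖ ≤ (bb 0 n).re) (α : ℝ) (hα : 0 < α) :
    Integrable (PL_g a α) ∧ Integrable (fun v => ‖PL_g a α v‖ ^ 2) := by
  have hb : ∀ v, ‖PL_g a α v‖ ≤ 2 * PL_e α v := by
    intro v
    rcases lt_or_ge v 0 with hv | hv
    · rw [PL_g_neg a α v hv, norm_zero]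
      exact mul_nonneg (by norm_num) (PL_e_nonneg _ _)
    · have h1 := PL_g_le a ha α v
      have h2 : PL_e α v = Real.exp (-(α * v)) := by
        unfold PL_e
        exact Set.indicator_of_mem (by simpa using hv) _
      rw [h2]; exact h1
  have hb2 : ∀ v, ‖PL_g a α v‖ ^ 2 ≤ 4 * PL_e (2 * α) v := by
    intro v
    rcases lt_or_ge v 0 with hv | hv
    · rw [PL_g_neg a α v hv, norm_zero]
      have := PL_e_nonneg (2 * α) v
      nlinarith
    · have h1 := PL_g_le a ha α v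
      have h2 : PL_e (2 * α) v = Real.exp (-(α * v)) ^ 2 := by
        unfold PL_e
        rw [Set.indicator_of_mem (by simpa using hv), ← Real.exp_nat_mul]
        congr 1; push_cast; ring
      rw [h2]
      have h3 := pow_le_pow_left₀ (norm_nonneg _) h1 2
      linarith
  have hm := (PL_g_meas a α).aestronglyMeasurable (μ := volume)
  constructor
  · exact Integrable.mono' (((PL_e_int α hα).1).const_mul 2) hm (Filter.Eventually.of_forall hb)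
  · refine Integrable.mono' (((PL_e_int (2 * α) (by linarith)).1).const_mul 4) (hm.norm.pow 2)
      (Filter.Eventually.of_forall fun v => ?_)
    rw [Real.norm_of_nonneg (by positivity)]
    exact hb2 v

/-- two-sided envelope -/
theorem PL_E : Integrable (fun w : ℝ => PL_e 1 w + PL_e 1 (-w)) ∧
    ∫ w : ℝ, (PL_e 1 w + PL_e 1 (-w)) = 2 ∧ ∀ w : ℝ, Real.exp (-|w|) ≤ PL_e 1 w + PL_e 1 (-w) := by
  obtain ⟨h1, h2⟩ := PL_e_int 1 one_pos
  have h3 : Integrable (fun w : ℝ => PL_e 1 (-w)) := h1.comp_neg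
  refine ⟨h1.add h3, ?_, fun w => ?_⟩
  · rw [integral_add h1 h3, integral_neg_eq_self (PL_e 1) volume, h2]; norm_num
  · rcases le_total 0 w with hw | hw
    · have h4 : PL_e 1 w = Real.exp (-|w|) := by
        unfold PL_e
        rw [Set.indicator_of_mem (by simpa using hw), abs_of_nonneg hw]
        congr 1; ring
      have := PL_e_nonneg 1 (-w)
      linarith
    · have h4 : PL_e 1 (-w) = Real.exp (-|w|) := by
        unfold PL_e
        rw [Set.indicator_of_mem (by simpa using hw), abs_of_nonpos hw]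
        congr 1; ring
      have := PL_e_nonneg 1 w
      linarith

theorem PL_kern (δ h : ℝ) (hδ : 0 < δ) (hδ1 : δ ≤ 1) :
    Real.exp (2 * |h|) * Real.exp (-(h ^ 2) / (4 * δ ^ 2)) ≤ Real.exp 8 * Real.exp (-(h ^ 2) / (4 * (2 * δ) ^ 2)) ∧
    h ^ 2 * (Real.exp (2 * |h|) * Real.exp (-(h ^ 2) / (4 * δ ^ 2)))
      ≤ Real.exp 8 * (16 * δ ^ 2) * Real.exp (-(h ^ 2) / (4 * (2 * δ) ^ 2)) := by
  set x : ℝ := h ^ 2 / (16 * δ ^ 2) with hx
  have hx0 : 0 ≤ x := by positivity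
  have hh : h ^ 2 = 16 * δ ^ 2 * x := by rw [hx]; field_simp
  have e1 : -(h ^ 2) / (4 * δ ^ 2) = -4 * x := by rw [hh]; field_simp; ring
  have e2 : -(h ^ 2) / (4 * (2 * δ) ^ 2) = -x := by rw [hh]; field_simp; ring
  have h1 : 2 * |h| ≤ 2 * x + 8 := by
    have h2 : |h| ^ 2 = 16 * δ ^ 2 * x := by rw [sq_abs, hh]
    have h3 : |h| ^ 2 ≤ 16 * x := by rw [h2]; nlinarith [mul_nonneg (sub_nonneg.2 hδ1) hx0, mul_nonneg hδ.le hx0]
    nlinarith [abs_nonneg h, sq_nonneg (|h| - 4), sq_nonneg (|h| - 8)]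
  have h4 : Real.exp (2 * |h|) * Real.exp (-4 * x) ≤ Real.exp 8 * Real.exp (-(2 * x)) := by
    rw [← Real.exp_add, ← Real.exp_add]
    apply Real.exp_le_exp.2
    linarith
  have h5 : Real.exp (-(2 * x)) = Real.exp (-x) * Real.exp (-x) := by
    rw [← Real.exp_add]; congr 1; ring
  have h6 : Real.exp (-x) ≤ 1 := by rw [Real.exp_le_one_iff]; linarith
  have h7 : x * Real.exp (-x) ≤ 1 := by
    have h8 := Real.add_one_le_exp x
    have h9 : Real.exp x * Real.exp (-x) = 1 := by rw [← Real.exp_add]; simp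
    have h10 := Real.exp_pos (-x)
    nlinarith
  have h8 := Real.exp_pos (-x)
  have h9 := Real.exp_pos 8
  rw [e1, e2]
  constructor
  · refine h4.trans ?_
    rw [h5]
    have : Real.exp (-x) * Real.exp (-x) ≤ Real.exp (-x) := by nlinarith
    exact mul_le_mul_of_nonneg_left this h9.le
  · calc h ^ 2 * (Real.exp (2 * |h|) * Real.exp (-4 * x))
        ≤ h ^ 2 * (Real.exp 8 * Real.exp (-(2 * x))) := mul_le_mul_of_nonneg_left h4 (sq_nonneg h)
      _ = Real.exp 8 * (16 * δ ^ 2) * ((x * Real.exp (-x)) * Real.exp (-x)) := by rw [h5, hh]; ring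
      _ ≤ Real.exp 8 * (16 * δ ^ 2) * (1 * Real.exp (-x)) := by gcongr
      _ = _ := by ring

theorem PL_D (a : ℕ → ℂ) (ha : ∀ n, ‖a n‖ ≤ (bb 0 n).re) :
    ∃ C : ℝ, 0 < C ∧ ∀ α : ℝ, 0 < α → α ≤ 1 → ∀ δ : ℝ, 0 < δ → δ ≤ 1 →
      (√Real.pi / (2 * δ)) * ∫ p : ℝ × ℝ, ‖PL_g a α p.1 - PL_g a α p.2‖ ^ 2 *
        Real.exp (-((p.1 - p.2) ^ 2) / (4 * δ ^ 2)) ∂(volume.prod volume) ≤ C * (δ ^ 2 / α + 1) := by
  obtain ⟨C, hC, hdiff⟩ := PL_diff a ha
  refine ⟨2 * Real.pi * C * Real.exp 8 * 8, by positivity, fun α hα hα1 δ hδ hδ1 => ?_⟩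
  obtain ⟨hEi, hEv, hEb⟩ := PL_E
  obtain ⟨hei, hev⟩ := PL_e_int (2 * α) (by linarith)
  set f : ℝ → ℝ := fun w => C * Real.exp 8 * (16 * δ ^ 2 * PL_e (2 * α) w + (PL_e 1 w + PL_e 1 (-w))) with hf
  have hfi : Integrable f := ((hei.const_mul (16 * δ ^ 2)).add hEi).const_mul (C * Real.exp 8)
  have hfv : ∫ w, f w = C * Real.exp 8 * (16 * δ ^ 2 * (1 / (2 * α)) + 2) := by
    rw [hf, integral_const_mul, integral_add (hei.const_mul (16 * δ ^ 2)) hEi, integral_const_mul, hev, hEv]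
  obtain ⟨hk1, hk2⟩ := PL_gaussInt (2 * δ) (by linarith)
  obtain ⟨hc1, hc2⟩ := PL_conv f _ hfi hk1
  obtain ⟨hgi, hgi2⟩ := PL_g_int a ha α hα
  obtain ⟨hDi, _⟩ := PL_Q (PL_g a α) hgi hgi2 δ hδ
  have hpt : ∀ p : ℝ × ℝ, ‖PL_g a α p.1 - PL_g a α p.2‖ ^ 2 *
        Real.exp (-((p.1 - p.2) ^ 2) / (4 * δ ^ 2)) ≤ f p.2 * Real.exp (-((p.1 - p.2) ^ 2) / (4 * (2 * δ) ^ 2)) := by
    intro p
    have h1 := hdiff α hα hα1 p.1 p.2
    obtain ⟨h2, h3⟩ := PL_kern δ (p.1 - p.2) hδ hδ1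
    have h4 := hEb p.2
    have h5 := PL_e_nonneg (2 * α) p.2
    set h : ℝ := p.1 - p.2
    set k : ℝ := Real.exp (-(h ^ 2) / (4 * δ ^ 2)) with hk
    set k' : ℝ := Real.exp (-(h ^ 2) / (4 * (2 * δ) ^ 2)) with hk'
    have hk0 : 0 < k := Real.exp_pos _
    have hk'0 : 0 < k' := Real.exp_pos _
    have hE0 := Real.exp_pos (-|p.2|)
    have h6 : ‖PL_g a α p.1 - PL_g a α p.2‖ ^ 2 * k ≤
        C * (Real.exp (2 * |h|) * (h ^ 2 * PL_e (2 * α) p.2 + Real.exp (-|p.2|))) * k :=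
      mul_le_mul_of_nonneg_right h1 hk0.le
    refine h6.trans ?_
    have h7 : C * (Real.exp (2 * |h|) * (h ^ 2 * PL_e (2 * α) p.2 + Real.exp (-|p.2|))) * k
        = C * ((h ^ 2 * (Real.exp (2 * |h|) * k)) * PL_e (2 * α) p.2
          + (Real.exp (2 * |h|) * k) * Real.exp (-|p.2|)) := by ring
    rw [h7, hf]
    have h8 : (h ^ 2 * (Real.exp (2 * |h|) * k)) * PL_e (2 * α) p.2
        ≤ (Real.exp 8 * (16 * δ ^ 2) * k') * PL_e (2 * α) p.2 := mul_le_mul_of_nonneg_right h3 h5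
    have h9 : (Real.exp (2 * |h|) * k) * Real.exp (-|p.2|)
        ≤ (Real.exp 8 * k') * (PL_e 1 p.2 + PL_e 1 (-p.2)) := mul_le_mul h2 h4 hE0.le (by positivity)
    have h10 := mul_le_mul_of_nonneg_left (add_le_add h8 h9) hC.le
    refine h10.trans (le_of_eq ?_)
    ring
  have hint := integral_mono hDi hc1 hpt
  rw [hc2, hfv, hk2] at hint
  have hpos : 0 ≤ √Real.pi / (2 * δ) := by positivity
  have h1 := mul_le_mul_of_nonneg_left hint hpos
  refine h1.trans ?_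
  have hsp : √Real.pi * √Real.pi = Real.pi := Real.mul_self_sqrt Real.pi_pos.le
  have h2 : √Real.pi / (2 * δ) * (C * Real.exp 8 * (16 * δ ^ 2 * (1 / (2 * α)) + 2) * (2 * (2 * δ) * √Real.pi))
      = 2 * (√Real.pi * √Real.pi) * C * Real.exp 8 * (8 * (δ ^ 2 / α) + 2) := by
    field_simp
    ring
  rw [h2, hsp]
  have h3 : 8 * (δ ^ 2 / α) + 2 ≤ 8 * (δ ^ 2 / α + 1) := by linarith
  calc 2 * Real.pi * C * Real.exp 8 * (8 * (δ ^ 2 / α) + 2)
      ≤ 2 * Real.pi * C * Real.exp 8 * (8 * (δ ^ 2 / α + 1)) := by gcongr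
    _ = _ := by ring

theorem PL_rint (ρ T : ℝ) (hρ1 : ρ < 1) :
    IntegrableOn (fun u : ℝ => |u| ^ (-ρ)) (Set.Icc (-T) T) := by
  have h1 : IntervalIntegrable (fun x : ℝ => x ^ (-ρ)) volume 0 (|T|) :=
    intervalIntegral.intervalIntegrable_rpow' (by linarith)
  have h2 : IntegrableOn (fun u : ℝ => |u| ^ (-ρ)) (Set.Icc 0 |T|) := by
    have h3 : IntegrableOn (fun x : ℝ => x ^ (-ρ)) (Set.Icc 0 |T|) := by
      rw [integrableOn_Icc_iff_integrableOn_Ioc]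
      exact (intervalIntegrable_iff_integrableOn_Ioc_of_le (abs_nonneg T)).1 h1
    refine h3.congr_fun (fun x hx => ?_) measurableSet_Icc
    simp only
    rw [abs_of_nonneg hx.1]
  have h4 : IntegrableOn (fun u : ℝ => |u| ^ (-ρ)) (Set.Icc (-|T|) 0) := by
    have h5 := h2.comp_neg
    simp only [abs_neg] at h5
    have : -Set.Icc (0 : ℝ) |T| = Set.Icc (-|T|) 0 := by simp
    rwa [this] at h5
  have h6 := h4.union h2
  refine h6.mono_set fun u hu => ?_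
  have hu1 : |u| ≤ |T| := (abs_le.2 ⟨hu.1, hu.2⟩).trans (le_abs_self T)
  rw [abs_le] at hu1
  rcases le_total u 0 with h | h
  · left; exact ⟨hu1.1, h⟩
  · right; exact ⟨h, hu1.2⟩

theorem PL_low (a : ℕ → ℂ) (ha : ∀ n, ‖a n‖ ≤ (bb 0 n).re) (T K ρ : ℝ) (hK : 0 < K)
    (hρ0 : 0 ≤ ρ) (hρ1 : ρ < 1)
    (hF : ∀ α : ℝ, 0 < α → α ≤ 1 →
      ∀ u : ℝ, |u| ≤ T → ‖LSeries a (1 + α + u * Complex.I)‖ ≤ K * ‖(α : ℂ) + u * Complex.I‖ ^ (-ρ))
    (α : ℝ) (hα : 0 < α) (hα1 : α ≤ 1) :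
    ∫ u in Set.Icc (-T) T, ‖PL_F (PL_g a α) u‖ ^ 2 ≤
      K ^ 2 * α ^ (-ρ) * ∫ u in Set.Icc (-T) T, |u| ^ (-ρ) := by
  obtain ⟨hgi, hgi2⟩ := PL_g_int a ha α hα
  have hmeas := PL_F_meas (PL_g a α) hgi
  rw [← integral_const_mul]
  have hae : ∀ᵐ u ∂(volume.restrict (Set.Icc (-T) T)), ‖PL_F (PL_g a α) u‖ ^ 2 ≤ K ^ 2 * α ^ (-ρ) * |u| ^ (-ρ) := by
    have h0 : ∀ᵐ u : ℝ ∂(volume.restrict (Set.Icc (-T) T)), u ≠ 0 :=
      ae_restrict_of_ae (by
        have : volume ({0} : Set ℝ) = 0 := by simp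
        exact compl_mem_ae_iff.2 this)
    filter_upwards [h0, ae_restrict_mem measurableSet_Icc] with u hu0 hu
    have hu1 : |u| ≤ T := abs_le.2 ⟨hu.1, hu.2⟩
    have h1 := (PL_F_bd a ha α hα u).trans (hF α hα hα1 u hu1)
    have h2 := pow_le_pow_left₀ (norm_nonneg _) h1 2
    refine h2.trans ?_
    set z : ℂ := (α : ℂ) + u * Complex.I with hz
    have hz2 : ‖z‖ ^ 2 = α ^ 2 + u ^ 2 := by
      rw [← Complex.normSq_eq_norm_sq, hz, Complex.normSq_apply]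
      simp
      ring
    have hup : 0 < |u| := abs_pos.2 hu0
    have h3 : α * |u| ≤ ‖z‖ ^ 2 := by
      rw [hz2, ← sq_abs u]
      nlinarith [sq_nonneg (α - |u|), mul_pos hα hup]
    have h4 : (‖z‖ ^ (-ρ)) ^ 2 = (‖z‖ ^ 2) ^ (-ρ) := by
      rw [← Real.rpow_natCast, ← Real.rpow_mul (norm_nonneg _), ← Real.rpow_natCast,
        ← Real.rpow_mul (norm_nonneg _)]
      congr 1; ring
    have h5 : (‖z‖ ^ 2) ^ (-ρ) ≤ (α * |u|) ^ (-ρ) :=
      Real.rpow_le_rpow_of_nonpos (by positivity) h3 (by linarith)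
    rw [Real.mul_rpow hα.le hup.le] at h5
    rw [mul_pow, h4, mul_assoc]
    exact mul_le_mul_of_nonneg_left h5 (sq_nonneg K)
  refine integral_mono_ae ?_ ((PL_rint ρ T hρ1).const_mul _) hae
  refine Integrable.mono' ((PL_rint ρ T hρ1).const_mul (K ^ 2 * α ^ (-ρ))) (hmeas.norm.pow 2).restrict ?_
  filter_upwards [hae] with u hu
  rw [Real.norm_of_nonneg (by positivity)]
  exact hu

theorem PL_small (a : ℕ → ℂ) (ha : ∀ n, ‖a n‖ ≤ (bb 0 n).re)
    (hF : ∀ T : ℝ, 1 ≤ T → ∃ K ρ : ℝ, 0 < K ∧ 0 ≤ ρ ∧ ρ < 1 ∧ ∀ α : ℝ, 0 < α → α ≤ 1 →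
      ∀ u : ℝ, |u| ≤ T → ‖LSeries a (1 + α + u * Complex.I)‖ ≤ K * ‖(α : ℂ) + u * Complex.I‖ ^ (-ρ))
    (η : ℝ) (hη : 0 < η) : ∃ α0 : ℝ, 0 < α0 ∧ α0 ≤ 1 ∧ ∀ α : ℝ, 0 < α → α ≤ α0 →
      α * ∫ v, ‖PL_g a α v‖ ^ 2 ≤ η := by
  obtain ⟨C, hC, hD⟩ := PL_D a ha
  -- choose δ
  obtain ⟨δ, hδ0, hδ1, hδ⟩ : ∃ δ : ℝ, 0 < δ ∧ δ ≤ 1 ∧ C * δ ^ 2 ≤ η / 3 := by
    refine ⟨min 1 (η / (3 * C)), by positivity, min_le_left _ _, ?_⟩
    set m := min 1 (η / (3 * C)) with hm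
    have h1 : m ≤ 1 := min_le_left _ _
    have h2 : m ≤ η / (3 * C) := min_le_right _ _
    have h0 : 0 < m := by positivity
    have h3 : m ^ 2 ≤ η / (3 * C) := by nlinarith
    calc C * m ^ 2 ≤ C * (η / (3 * C)) := by gcongr
      _ = η / 3 := by field_simp
  set T : ℝ := 2 / δ with hT
  have hT1 : 1 ≤ T := by rw [hT, le_div_iff₀ hδ0]; linarith
  have hTδ : Real.exp (-(δ ^ 2 * T ^ 2 / 2)) ≤ 1 / 2 := by
    have h1 : δ ^ 2 * T ^ 2 / 2 = 2 := by rw [hT]; field_simp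
    rw [h1, Real.exp_neg, inv_eq_one_div]
    apply one_div_le_one_div_of_le (by norm_num)
    have := Real.add_one_le_exp 2
    linarith
  obtain ⟨K, ρ, hK, hρ0, hρ1, hb⟩ := hF T hT1
  set J : ℝ := ∫ u in Set.Icc (-T) T, |u| ^ (-ρ) with hJ
  have hJ0 : 0 ≤ J := integral_nonneg fun u => by positivity
  -- limit of α^(1-ρ)
  have hlim : Tendsto (fun α : ℝ => K ^ 2 * J * α ^ (1 - ρ)) (nhds 0) (nhds 0) := by
    have h1 : ContinuousAt (fun α : ℝ => α ^ (1 - ρ)) 0 :=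
      Real.continuousAt_rpow_const 0 (1 - ρ) (Or.inr (by linarith))
    have h2 := h1.tendsto.const_mul (K ^ 2 * J)
    rwa [Real.zero_rpow (by linarith), mul_zero] at h2
  have hev := (hlim.eventually (gt_mem_nhds (show (0 : ℝ) < η / 3 by linarith)))
  rw [Metric.eventually_nhds_iff] at hev
  obtain ⟨r, hr, hball⟩ := hev
  refine ⟨min (r / 2) (min 1 (η / (3 * C))), by positivity, (min_le_right _ _).trans (min_le_left _ _), ?_⟩
  intro α hα hle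
  have hα1 : α ≤ 1 := hle.trans ((min_le_right _ _).trans (min_le_left _ _))
  have hαC : α ≤ η / (3 * C) := hle.trans ((min_le_right _ _).trans (min_le_right _ _))
  have hαr : α < r := by
    have := hle.trans (min_le_left _ _)
    linarith
  obtain ⟨hgi, hgi2⟩ := PL_g_int a ha α hα
  have hP := PL_P (PL_g a α) hgi hgi2 δ T hδ0 (by linarith) hTδ
  have hlow := PL_low a ha T K ρ hK hρ0 hρ1 hb α hα hα1
  have hDD := hD α hα hα1 δ hδ0 hδ1
  set N : ℝ := ∫ v, ‖PL_g a α v‖ ^ 2 with hN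
  have hN0 : 0 ≤ N := integral_nonneg fun v => by positivity
  have h1 : N ≤ Real.pi * N := by
    have := Real.pi_gt_three
    nlinarith
  have h2 : N ≤ K ^ 2 * α ^ (-ρ) * J + C * (δ ^ 2 / α + 1) := by linarith
  have h3 := mul_le_mul_of_nonneg_left h2 hα.le
  refine h3.trans ?_
  have h4 : α * (K ^ 2 * α ^ (-ρ) * J + C * (δ ^ 2 / α + 1))
      = K ^ 2 * J * α ^ (1 - ρ) + C * δ ^ 2 + C * α := by
    have : α ^ (1 - ρ) = α * α ^ (-ρ) := by
      rw [sub_eq_add_neg, Real.rpow_add hα, Real.rpow_one]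
    rw [this]
    field_simp
    ring
  rw [h4]
  have h5 : K ^ 2 * J * α ^ (1 - ρ) < η / 3 := by
    apply hball
    rw [Real.dist_eq, sub_zero, abs_of_pos hα]
    exact hαr
  have h6 : C * α ≤ η / 3 := by
    calc C * α ≤ C * (η / (3 * C)) := by gcongr
      _ = η / 3 := by field_simp
  linarith

theorem PL_sum (a : ℕ → ℂ) (ha : ∀ n, ‖a n‖ ≤ (bb 0 n).re) (X : ℕ) (hX : 3 ≤ X) :
    ∑ x ∈ Icc 1 X, ‖∑ n ∈ Icc 1 x, a n‖ ^ 2 / (x : ℝ) ^ 3 ≤
      8 * Real.exp 4 * ∫ v, ‖PL_g a (1 / Real.log X) v‖ ^ 2 := by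
  have hX0 : (3 : ℝ) ≤ X := by exact_mod_cast hX
  have hlog : 0 < Real.log X := Real.log_pos (by linarith)
  set α : ℝ := 1 / Real.log X with hα
  have hα0 : 0 < α := by positivity
  obtain ⟨hgi, hgi2⟩ := PL_g_int a ha α hα0
  have hterm : ∀ k ∈ Finset.range X, ‖∑ n ∈ Icc 1 (k + 1), a n‖ ^ 2 / ((k + 1 : ℕ) : ℝ) ^ 3 ≤
      8 * Real.exp 4 * ∫ v in (Real.log ((k : ℝ) + 1))..(Real.log ((k : ℝ) + 2)), ‖PL_g a α v‖ ^ 2 := by
    intro k hk
    have hkX : (k : ℝ) + 1 ≤ X := by exact_mod_cast Finset.mem_range.1 hk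
    have hk0 : (0 : ℝ) ≤ k := Nat.cast_nonneg k
    set S : ℝ := ‖∑ n ∈ Icc 1 (k + 1), a n‖ with hS
    have hlk : Real.log ((k : ℝ) + 1) ≤ Real.log ((k : ℝ) + 2) := Real.log_le_log (by linarith) (by linarith)
    have hlogle : Real.log ((k : ℝ) + 2) ≤ 2 * Real.log X := by
      have h1 : Real.log ((k : ℝ) + 2) ≤ Real.log ((X : ℝ) ^ 2) :=
        Real.log_le_log (by linarith) (by nlinarith)
      rwa [Real.log_pow, Nat.cast_ofNat] at h1
    -- lower bound on the integrand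
    have hpt : ∀ v ∈ Set.Ioo (Real.log ((k : ℝ) + 1)) (Real.log ((k : ℝ) + 2)),
        S ^ 2 * (((k : ℝ) + 2)⁻¹ ^ 2 * Real.exp (-4)) ≤ ‖PL_g a α v‖ ^ 2 := by
      intro v hv
      have hv1 : (k : ℝ) + 1 ≤ Real.exp v := by
        rw [← Real.log_le_iff_le_exp (by linarith)]; exact hv.1.le
      have hv2 : Real.exp v < (k : ℝ) + 2 := by
        rw [← Real.lt_log_iff_exp_lt (by linarith)]; exact hv.2
      have hfl : ⌊Real.exp v⌋₊ = k + 1 := by
        rw [Nat.floor_eq_iff (Real.exp_pos v).le]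
        push_cast
        constructor
        · exact hv1
        · linarith
      rw [PL_g_norm]
      unfold PL_A
      rw [hfl, mul_pow]
      apply mul_le_mul_of_nonneg_left ?_ (sq_nonneg _)
      have h1 : Real.exp (-((1 + α) * v)) ^ 2 = (Real.exp v)⁻¹ ^ 2 * Real.exp (-(2 * α * v)) := by
        rw [← Real.exp_neg, ← Real.exp_nat_mul, ← Real.exp_nat_mul, ← Real.exp_add]
        congr 1; push_cast; ring
      rw [h1]
      have h2 : ((k : ℝ) + 2)⁻¹ ≤ (Real.exp v)⁻¹ := inv_anti₀ (Real.exp_pos v) hv2.le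
      have h3 : Real.exp (-4) ≤ Real.exp (-(2 * α * v)) := by
        apply Real.exp_le_exp.2
        have h4 : v ≤ 2 * Real.log X := hv.2.le.trans hlogle
        have h5 : α * v ≤ α * (2 * Real.log X) := mul_le_mul_of_nonneg_left h4 hα0.le
        have h6 : α * (2 * Real.log X) = 2 := by rw [hα]; field_simp
        linarith
      have h7 : (0 : ℝ) ≤ ((k : ℝ) + 2)⁻¹ := by positivity
      gcongr
    have hint : S ^ 2 * (((k : ℝ) + 2)⁻¹ ^ 2 * Real.exp (-4)) * (Real.log ((k : ℝ) + 2) - Real.log ((k : ℝ) + 1))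
        ≤ ∫ v in (Real.log ((k : ℝ) + 1))..(Real.log ((k : ℝ) + 2)), ‖PL_g a α v‖ ^ 2 := by
      have h1 : ∫ v in (Real.log ((k : ℝ) + 1))..(Real.log ((k : ℝ) + 2)),
          S ^ 2 * (((k : ℝ) + 2)⁻¹ ^ 2 * Real.exp (-4)) ≤
          ∫ v in (Real.log ((k : ℝ) + 1))..(Real.log ((k : ℝ) + 2)), ‖PL_g a α v‖ ^ 2 := by
        apply intervalIntegral.integral_mono_on_of_le_Ioo hlk intervalIntegrable_const
          hgi2.intervalIntegrable hpt
      rw [intervalIntegral.integral_const, smul_eq_mul] at h1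
      linarith
    have hlen : ((k : ℝ) + 2)⁻¹ ≤ Real.log ((k : ℝ) + 2) - Real.log ((k : ℝ) + 1) := by
      rw [← Real.log_div (by linarith) (by linarith)]
      have h1 := Real.one_sub_inv_le_log_of_pos (x := ((k : ℝ) + 2) / ((k : ℝ) + 1)) (by positivity)
      have h2 : 1 - (((k : ℝ) + 2) / ((k : ℝ) + 1))⁻¹ = ((k : ℝ) + 2)⁻¹ := by field_simp; ring
      linarith
    have h1 : S ^ 2 * (((k : ℝ) + 2)⁻¹ ^ 2 * Real.exp (-4)) * ((k : ℝ) + 2)⁻¹ ≤
        ∫ v in (Real.log ((k : ℝ) + 1))..(Real.log ((k : ℝ) + 2)), ‖PL_g a α v‖ ^ 2 := by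
      refine le_trans ?_ hint
      exact mul_le_mul_of_nonneg_left hlen (by positivity)
    have h2 : 8 * Real.exp 4 * (S ^ 2 * (((k : ℝ) + 2)⁻¹ ^ 2 * Real.exp (-4)) * ((k : ℝ) + 2)⁻¹)
        = 8 * S ^ 2 * ((k : ℝ) + 2)⁻¹ ^ 3 := by
      have : Real.exp 4 * Real.exp (-4) = 1 := by rw [← Real.exp_add]; simp
      calc _ = 8 * S ^ 2 * ((k : ℝ) + 2)⁻¹ ^ 3 * (Real.exp 4 * Real.exp (-4)) := by ring
        _ = _ := by rw [this, mul_one]
    have h3 : S ^ 2 / ((k + 1 : ℕ) : ℝ) ^ 3 ≤ 8 * S ^ 2 * ((k : ℝ) + 2)⁻¹ ^ 3 := by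
      push_cast
      rw [inv_pow, div_eq_mul_inv]
      have h4 : (((k : ℝ) + 1) ^ 3)⁻¹ ≤ 8 * (((k : ℝ) + 2) ^ 3)⁻¹ := by
        rw [← div_eq_mul_inv, inv_eq_one_div, div_le_div_iff₀ (by positivity) (by positivity)]
        have : ((k : ℝ) + 2) ≤ 2 * (k + 1) := by linarith
        have h5 := pow_le_pow_left₀ (by linarith : (0 : ℝ) ≤ (k : ℝ) + 2) this 3
        linarith
      have := mul_le_mul_of_nonneg_left h4 (sq_nonneg S)
      linarith
    calc S ^ 2 / ((k + 1 : ℕ) : ℝ) ^ 3 ≤ 8 * S ^ 2 * ((k : ℝ) + 2)⁻¹ ^ 3 := h3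
      _ = 8 * Real.exp 4 * (S ^ 2 * (((k : ℝ) + 2)⁻¹ ^ 2 * Real.exp (-4)) * ((k : ℝ) + 2)⁻¹) := h2.symm
      _ ≤ _ := by gcongr
  have hre : ∑ x ∈ Icc 1 X, ‖∑ n ∈ Icc 1 x, a n‖ ^ 2 / (x : ℝ) ^ 3
      = ∑ k ∈ Finset.range X, ‖∑ n ∈ Icc 1 (k + 1), a n‖ ^ 2 / ((k + 1 : ℕ) : ℝ) ^ 3 := by
    rw [Finset.range_eq_Ico, Finset.sum_Ico_add' (fun x : ℕ => ‖∑ n ∈ Icc 1 x, a n‖ ^ 2 / (x : ℝ) ^ 3) 0 X 1]
    rfl
  rw [hre]
  refine (Finset.sum_le_sum hterm).trans ?_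
  rw [← Finset.mul_sum]
  have hadj := intervalIntegral.sum_integral_adjacent_intervals (f := fun v => ‖PL_g a α v‖ ^ 2) (μ := volume)
    (a := fun k : ℕ => Real.log ((k : ℝ) + 1)) (n := X) (fun k _ => hgi2.intervalIntegrable)
  have hcast : ∀ k : ℕ, Real.log (((k + 1 : ℕ) : ℝ) + 1) = Real.log ((k : ℝ) + 2) := by
    intro k; congr 1; push_cast; ring
  simp only [hcast] at hadj
  rw [hadj]
  have hle : Real.log (((0 : ℕ) : ℝ) + 1) ≤ Real.log ((X : ℝ) + 1) := Real.log_le_log (by norm_num) (by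
    push_cast; linarith)
  rw [intervalIntegral.integral_of_le hle]
  have := setIntegral_le_integral (s := Set.Ioc (Real.log (((0 : ℕ) : ℝ) + 1)) (Real.log ((X : ℝ) + 1))) hgi2
    (Filter.Eventually.of_forall fun v => by positivity)
  gcongr

theorem planch (a : ℕ → ℂ) (ha : ∀ n, ‖a n‖ ≤ (bb 0 n).re)
    (hF : ∀ T : ℝ, 1 ≤ T → ∃ K ρ : ℝ, 0 < K ∧ 0 ≤ ρ ∧ ρ < 1 ∧ ∀ α : ℝ, 0 < α → α ≤ 1 →
      ∀ u : ℝ, |u| ≤ T → ‖LSeries a (1 + α + u * Complex.I)‖ ≤ K * ‖(α : ℂ) + u * Complex.I‖ ^ (-ρ))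
    (ε : ℝ) (hε : 0 < ε) : ∃ X0 : ℕ, 2 ≤ X0 ∧ ∀ X : ℕ, X0 ≤ X →
    ∑ x ∈ Icc 1 X, ‖∑ n ∈ Icc 1 x, a n‖ ^ 2 / (x : ℝ) ^ 3 ≤ ε * Real.log X := by
  obtain ⟨α0, hα0, hα01, hsm⟩ := PL_small a ha hF (ε / (8 * Real.exp 4)) (by positivity)
  refine ⟨max 3 ⌈Real.exp (1 / α0)⌉₊, (by norm_num : 2 ≤ 3).trans (le_max_left _ _), fun X hX => ?_⟩
  have hX3 : 3 ≤ X := (le_max_left _ _).trans hX
  have hXe : Real.exp (1 / α0) ≤ X := (Nat.le_ceil _).trans (by exact_mod_cast (le_max_right _ _).trans hX)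
  have hX0 : (3 : ℝ) ≤ X := by exact_mod_cast hX3
  have hlog : 0 < Real.log X := Real.log_pos (by linarith)
  have h1 : 1 / α0 ≤ Real.log X := by
    rw [Real.le_log_iff_exp_le (by linarith)]; exact hXe
  have h2 : 1 / Real.log X ≤ α0 := by
    rw [div_le_iff₀ hlog]
    rw [div_le_iff₀ hα0] at h1
    linarith
  have h3 := hsm (1 / Real.log X) (by positivity) h2
  have h4 := PL_sum a ha X hX3
  refine h4.trans ?_
  set N : ℝ := ∫ v, ‖PL_g a (1 / Real.log X) v‖ ^ 2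
  have h5 : N ≤ ε / (8 * Real.exp 4) * Real.log X := by
    rw [one_div, inv_mul_le_iff₀ hlog] at h3
    linarith
  calc 8 * Real.exp 4 * N ≤ 8 * Real.exp 4 * (ε / (8 * Real.exp 4) * Real.log X) := by gcongr
    _ = ε * Real.log X := by
      have := Real.exp_pos 4
      field_simp

theorem k0avg (q : ℕ) [NeZero q] (χ : DirichletCharacter ℂ q) (ζ : ℂ) (hζ : ‖ζ‖ = 1) (hζ1 : ζ ≠ 1)
    (ε : ℝ) (hε : 0 < ε) : ∃ X0 : ℕ, 2 ≤ X0 ∧ ∀ X : ℕ, X0 ≤ X →
    ∑ x ∈ Icc 1 X, ‖∑ n ∈ Icc 1 x, aa ζ χ n‖ ^ 2 / (x : ℝ) ^ 3 ≤ ε * Real.log X := by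
  refine planch (aa ζ χ) (fun n => ?_) (fun T hT => F_bound q χ ζ hζ hζ1 T hT) ε hε
  unfold aa
  have h0 : 0 ≤ (bb 0 n).re := (norm_nonneg _).trans (norm_bb_le 0 n)
  rw [norm_mul, norm_mul, norm_fz hζ, one_mul, Complex.norm_real, Real.norm_of_nonneg h0]
  have := DirichletCharacter.norm_le_one χ (n : ZMod q)
  calc ‖χ n‖ * (bb 0 n).re ≤ 1 * (bb 0 n).re := by gcongr
    _ = _ := one_mul _

end Pool.Agent.FCH
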