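import Pool.Agent.FCH.HcB
import Pool.Agent.MRS.PwB

set_option autoImplicit false

/-! Module EuP: port of `MRS/PwB.lean` (`euler_cmp`).  Local factors at `p ≡ 1 (4)`, `a = χ(π)`, `a' = χ(star π)`, `R = Re (a conj a')`, `x = p^{-(1+α)} ≤ 1/5`:
`A = 1 + |a + a'| x + O(x²)`, `B = 1 + 2x + O(x²)`, `D = 1 + 2 R x + O(x²)` (`bg (sh χ) (p^j) = 2 Re (a conj a')^j`), all coefficients bounded by `2`, and
`|a + a'| ≤ 3/2 + R/2` because `|a+a'|² ≤ 2 + 2R` and `(3+R)²/4 - 2 - 2R = (1-R)²/4 ≥ 0`. (`peu_local`, `peu_log`, `peu_euler` (for real `h` with `|h n| ≤ (bb 0 n).re`) can be reused;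
`peu_num` is for `A` with `|2t|`, restate it for `|a+a'| ≤ 3/2 + R/2`.) -/

open Finset

namespace Pool.Agent.FCH

open Pool.Agent.MRS hiding Good

/-- the numerical inequality between the local factors -/
theorem EuP_num {x s R A B D : ℝ} (hx0 : 0 ≤ x) (hx : x ≤ 1 / 5) (hs0 : 0 ≤ s) (hs2 : s ≤ 2)
    (hR : |R| ≤ 1) (hsR : s ≤ 3 / 2 + R / 2)
    (hA : |A - (1 + s * x)| ≤ 5 / 2 * x ^ 2)
    (hB : |B - (1 + 2 * x)| ≤ 5 / 2 * x ^ 2)
    (hD : |D - (1 + 2 * R * x)| ≤ 5 / 2 * x ^ 2) :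
    0 < A ∧ 0 < B ∧ 0 < D ∧ A ≤ Real.exp (18 * x ^ 2) * B ^ (3 / 4 : ℝ) * D ^ (1 / 4 : ℝ) := by
  have h2 : |s| ≤ 2 := by
    rw [abs_of_nonneg hs0]
    exact hs2
  obtain ⟨hA0, -⟩ := peu_log hx0 hx h2 hA
  obtain ⟨hB0, hlB⟩ := peu_log hx0 hx (le_of_eq abs_two) hB
  obtain ⟨hD0, hlD⟩ := peu_log hx0 hx (L := 2 * R)
    (by rw [abs_mul, abs_two]; linarith) hD
  refine ⟨hA0, hB0, hD0, ?_⟩
  have hlA : Real.log A ≤ s * x + 5 / 2 * x ^ 2 := by
    refine (Real.log_le_sub_one_of_pos hA0).trans ?_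
    rw [abs_le] at hA
    linarith [hA.2]
  have hexp : A ≤ Real.exp (18 * x ^ 2 + 3 / 4 * Real.log B + 1 / 4 * Real.log D) := by
    rw [← Real.log_le_iff_le_exp hA0]
    have h4 := mul_le_mul_of_nonneg_right hsR hx0
    nlinarith [sq_nonneg x]
  refine hexp.trans (le_of_eq ?_)
  rw [Real.exp_add, Real.exp_add, Real.rpow_def_of_pos hB0, Real.rpow_def_of_pos hD0,
    mul_comm (3 / 4 : ℝ), mul_comm (1 / 4 : ℝ)]

theorem EuP_abs {a b : ℂ} (ha : ‖a‖ ≤ 1) (hb : ‖b‖ ≤ 1) :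
    |(a * (starRingEnd ℂ) b).re| ≤ 1 ∧
      ‖a + b‖ ≤ 3 / 2 + (a * (starRingEnd ℂ) b).re / 2 := by
  have h1 : |(a * (starRingEnd ℂ) b).re| ≤ 1 := by
    refine (Complex.abs_re_le_norm _).trans ?_
    rw [norm_mul, RCLike.norm_conj]
    nlinarith [norm_nonneg a, norm_nonneg b]
  refine ⟨h1, ?_⟩
  have h2 := abs_le.1 h1
  refine abs_le_of_sq_le_sq' ?_ (by linarith) |>.2
  have h3 : ‖a + b‖ ^ 2 = ‖a‖ ^ 2 + ‖b‖ ^ 2 + 2 * (a * (starRingEnd ℂ) b).re := by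
    rw [Complex.sq_norm, Complex.sq_norm, Complex.sq_norm, Complex.normSq_add]
  rw [h3]
  have h4 : ‖a‖ ^ 2 ≤ 1 := by nlinarith [norm_nonneg a]
  have h5 : ‖b‖ ^ 2 ≤ 1 := by nlinarith [norm_nonneg b]
  nlinarith [sq_nonneg (1 - (a * (starRingEnd ℂ) b).re)]

theorem EuP_star_Od {z : GI} (hz : Od z) : Od (star z) := by
  refine ⟨?_, ?_⟩
  · rw [Zsqrtd.re_star]; exact hz.1
  · rw [Zsqrtd.im_star]; have := hz.2; omega

/-- comparison of the local factors -/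
theorem EuP_factor {χ : GI → ℂ} (hχ : CE χ) {α : ℝ} (hα : 0 < α) {p : ℕ} (hp : p.Prime) :
    0 < ∑' e : ℕ, ‖bg χ (p ^ e)‖ * ((p : ℝ) ^ (-(1 + α))) ^ e ∧
    0 < ∑' e : ℕ, (bb 0 (p ^ e)).re * ((p : ℝ) ^ (-(1 + α))) ^ e ∧
    0 < ∑' e : ℕ, (bg (sh χ) (p ^ e)).re * ((p : ℝ) ^ (-(1 + α))) ^ e ∧
    ∑' e : ℕ, ‖bg χ (p ^ e)‖ * ((p : ℝ) ^ (-(1 + α))) ^ e ≤
      Real.exp (18 * ((p : ℝ) ^ 2)⁻¹) *
        (∑' e : ℕ, (bb 0 (p ^ e)).re * ((p : ℝ) ^ (-(1 + α))) ^ e) ^ (3 / 4 : ℝ) *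
        (∑' e : ℕ, (bg (sh χ) (p ^ e)).re * ((p : ℝ) ^ (-(1 + α))) ^ e) ^ (1 / 4 : ℝ) := by
  have hsh : CE (sh χ) := CE_sh hχ
  by_cases h4 : p % 4 = 1
  · obtain ⟨q, hq, hn⟩ := PP_exists hp h4
    have h5 : (5 : ℝ) ≤ p := by
      rw [← hn]
      exact_mod_cast PP_three_le hq
    set x : ℝ := (p : ℝ) ^ (-(1 + α)) with hxd
    have hx0 : 0 ≤ x := Real.rpow_nonneg (Nat.cast_nonneg p) _
    have hxp : x ≤ (p : ℝ)⁻¹ := by
      rw [hxd, ← Real.rpow_neg_one]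
      exact Real.rpow_le_rpow_of_exponent_le (by linarith) (by linarith)
    have hx : x ≤ 1 / 5 := by
      refine hxp.trans ?_
      rw [inv_eq_one_div]
      exact one_div_le_one_div_of_le (by norm_num) h5
    obtain ⟨hR1, hR2⟩ := EuP_abs (hχ.le q) (hχ.le (star q))
    have hA := peu_local hx0 hx (c := fun e => ‖bg χ (p ^ e)‖) (by simp [bg_one hχ])
      (fun j => by
        rw [abs_of_nonneg (norm_nonneg _)]
        exact (norm_bg_le hχ _).trans (peu_bb0_le hp j))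
    have hB := peu_local hx0 hx (c := fun e => (bb 0 (p ^ e)).re) (by simp [bb_one])
      (fun j => by
        rw [abs_of_nonneg (peu_bb0_nonneg _)]
        exact peu_bb0_le hp j)
    have hD := peu_local hx0 hx (c := fun e => (bg (sh χ) (p ^ e)).re) (by simp [bg_one hsh])
      (fun j => (Complex.abs_re_le_norm _).trans ((norm_bg_le hsh _).trans (peu_bb0_le hp j)))
    have e1 : ‖bg χ (p ^ 1)‖ = ‖χ q + χ (star q)‖ := by
      have := bg_prime_pow hχ hq (le_refl 1)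
      rw [hn, pow_one (χ q), pow_one (χ (star q))] at this
      rw [this]
    have e2 : (bb 0 (p ^ 1)).re = 2 := by
      have := peu_bb_re hq 0 (le_refl 1)
      rw [hn, zero_mul, zpow_zero] at this
      rw [this]
      norm_num
    have e3 : (bg (sh χ) (p ^ 1)).re = 2 * (χ q * (starRingEnd ℂ) (χ (star q))).re := by
      have := bg_prime_pow hsh hq (le_refl 1)
      rw [hn, pow_one (sh χ q), pow_one (sh χ (star q))] at this
      rw [this]
      unfold sh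
      rw [star_star, Complex.add_re]
      simp only [Complex.mul_re, Complex.conj_re, Complex.conj_im]
      ring
    simp only [e1] at hA
    simp only [e2] at hB
    simp only [e3] at hD
    have hs2 : ‖χ q + χ (star q)‖ ≤ 2 := by
      refine (norm_add_le _ _).trans ?_
      have := hχ.le q
      have := hχ.le (star q)
      linarith
    obtain ⟨q1, q2, q3, q4⟩ := EuP_num hx0 hx (norm_nonneg _) hs2 hR1 hR2 hA hB hD
    refine ⟨q1, q2, q3, q4.trans ?_⟩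
    refine mul_le_mul_of_nonneg_right (mul_le_mul_of_nonneg_right (Real.exp_le_exp.2 ?_)
      (Real.rpow_nonneg q2.le _)) (Real.rpow_nonneg q3.le _)
    rw [← inv_pow]
    exact mul_le_mul_of_nonneg_left (pow_le_pow_left₀ hx0 hxp 2) (by norm_num)
  · have a1 : ∑' e : ℕ, ‖bg χ (p ^ e)‖ * ((p : ℝ) ^ (-(1 + α))) ^ e = 1 := by
      rw [tsum_eq_single 0 (fun e he => by
        rw [bg_prime_pow_zero χ hp h4 (Nat.one_le_iff_ne_zero.2 he)]; simp)]
      simp [bg_one hχ]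
    have a2 : ∑' e : ℕ, (bb 0 (p ^ e)).re * ((p : ℝ) ^ (-(1 + α))) ^ e = 1 := by
      rw [tsum_eq_single 0 (fun e he => by
        rw [bb_prime_pow_zero 0 hp h4 (Nat.one_le_iff_ne_zero.2 he)]; simp)]
      simp [bb_one]
    have a3 : ∑' e : ℕ, (bg (sh χ) (p ^ e)).re * ((p : ℝ) ^ (-(1 + α))) ^ e = 1 := by
      rw [tsum_eq_single 0 (fun e he => by
        rw [bg_prime_pow_zero (sh χ) hp h4 (Nat.one_le_iff_ne_zero.2 he)]; simp)]
      simp [bg_one hsh]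
    rw [a1, a2, a3]
    refine ⟨one_pos, one_pos, one_pos, ?_⟩
    rw [Real.one_rpow, Real.one_rpow, mul_one, mul_one]
    exact Real.one_le_exp (by positivity)

theorem EuP_zero (χ : GI → ℂ) : bg χ 0 = 0 := by
  have h : pn 0 = ∅ := by
    apply Finset.eq_empty_of_forall_notMem
    intro z hz
    rw [mem_pn] at hz
    exact Od_ne hz.1 (nm_eq_zero.1 hz.2.2)
  unfold bg
  rw [h, Finset.sum_empty, mul_zero]

theorem EuP : ∃ C : ℝ, 0 < C ∧ ∀ χ : GI → ℂ, CE χ → ∀ α : ℝ, 0 < α → α ≤ 1 →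
    0 < ∑' n : ℕ, (bg (sh χ) n).re * (n : ℝ) ^ (-(1 + α)) ∧
    ∑' n : ℕ, ‖bg χ n‖ * (n : ℝ) ^ (-(1 + α)) ≤
      C * (∑' n : ℕ, (bb 0 n).re * (n : ℝ) ^ (-(1 + α))) ^ (3 / 4 : ℝ) *
        (∑' n : ℕ, (bg (sh χ) n).re * (n : ℝ) ^ (-(1 + α))) ^ (1 / 4 : ℝ) := by
  have hZ : Summable (fun p : Nat.Primes => (((p : ℕ) : ℝ) ^ 2)⁻¹) :=
    (Real.summable_nat_pow_inv.2 (by norm_num : 1 < 2)).comp_injective Nat.Primes.coe_nat_injective
  refine ⟨Real.exp (18 * ∑' p : Nat.Primes, (((p : ℕ) : ℝ) ^ 2)⁻¹), Real.exp_pos _, ?_⟩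
  intro χ hχ α hα _
  have hsh : CE (sh χ) := CE_sh hχ
  have PA := peu_euler (h := fun n => ‖bg χ n‖) (by simp [EuP_zero]) (by simp [bg_one hχ])
    (fun hmn => by rw [bg_mul hχ hmn, norm_mul])
    (fun n => by rw [abs_of_nonneg (norm_nonneg _)]; exact norm_bg_le hχ n) hα
  have PB := peu_euler (h := fun n => (bb 0 n).re) (by simp [bb_zero]) (by simp [bb_one])
    (fun {m n} hmn => by rw [bb_mul 0 hmn, Complex.mul_re, bb_im, zero_mul, sub_zero])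
    (fun n => by rw [abs_of_nonneg (peu_bb0_nonneg n)]) hα
  have PD := peu_euler (h := fun n => (bg (sh χ) n).re) (by simp [EuP_zero]) (by simp [bg_one hsh])
    (fun {m n} hmn => by
      rw [bg_mul hsh hmn, bg_sh_real hχ m, bg_sh_real hχ n, ← Complex.ofReal_mul,
        Complex.ofReal_re, Complex.ofReal_re, Complex.ofReal_re])
    (fun n => (Complex.abs_re_le_norm _).trans (norm_bg_le hsh n)) hα
  have main : ∑' n : ℕ, ‖bg χ n‖ * (n : ℝ) ^ (-(1 + α)) ≤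
      Real.exp (18 * ∑' p : Nat.Primes, (((p : ℕ) : ℝ) ^ 2)⁻¹) *
        (∑' n : ℕ, (bb 0 n).re * (n : ℝ) ^ (-(1 + α))) ^ (3 / 4 : ℝ) *
        (∑' n : ℕ, (bg (sh χ) n).re * (n : ℝ) ^ (-(1 + α))) ^ (1 / 4 : ℝ) := by
    refine le_of_tendsto_of_tendsto PA
      (((PB.rpow_const (Or.inr (by norm_num))).const_mul _).mul
        (PD.rpow_const (Or.inr (by norm_num)))) (Filter.Eventually.of_forall (fun S => ?_))
    refine (Finset.prod_le_prod (fun p _ => (EuP_factor hχ hα p.2).1.le)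
      (fun p _ => (EuP_factor hχ hα p.2).2.2.2)).trans ?_
    rw [Finset.prod_mul_distrib, Finset.prod_mul_distrib, ← Real.exp_sum,
      Real.finsetProd_rpow _ _ (fun p _ => (EuP_factor hχ hα p.2).2.1.le),
      Real.finsetProd_rpow _ _ (fun p _ => (EuP_factor hχ hα p.2).2.2.1.le)]
    refine mul_le_mul_of_nonneg_right (mul_le_mul_of_nonneg_right (Real.exp_le_exp.2 ?_) ?_) ?_
    · rw [← Finset.mul_sum]
      exact mul_le_mul_of_nonneg_left (hZ.sum_le_tsum _ (fun _ _ => by positivity)) (by norm_num)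
    · exact Real.rpow_nonneg (Finset.prod_nonneg (fun p _ => (EuP_factor hχ hα p.2).2.1.le)) _
    · exact Real.rpow_nonneg (Finset.prod_nonneg (fun p _ => (EuP_factor hχ hα p.2).2.2.1.le)) _
  refine ⟨?_, main⟩
  have hD0 : 0 ≤ ∑' n : ℕ, (bg (sh χ) n).re * (n : ℝ) ^ (-(1 + α)) :=
    ge_of_tendsto PD (Filter.Eventually.of_forall (fun S =>
      Finset.prod_nonneg (fun p _ => (EuP_factor hχ hα p.2).2.2.1.le)))
  have hA1 : 1 ≤ ∑' n : ℕ, ‖bg χ n‖ * (n : ℝ) ^ (-(1 + α)) := by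
    have hs : Summable (fun n : ℕ => ‖bg χ n‖ * (n : ℝ) ^ (-(1 + α))) := by
      refine Summable.of_nonneg_of_le
        (fun n => mul_nonneg (norm_nonneg _) (Real.rpow_nonneg (Nat.cast_nonneg n) _))
        (fun n => ?_) (peu_summable hα)
      exact mul_le_mul_of_nonneg_right (norm_bg_le hχ n) (Real.rpow_nonneg (Nat.cast_nonneg n) _)
    have := hs.le_tsum 1
      (fun n _ => mul_nonneg (norm_nonneg _) (Real.rpow_nonneg (Nat.cast_nonneg n) _))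
    simpa [bg_one hχ] using this
  rcases hD0.lt_or_eq with h | h
  · exact h
  · exfalso
    rw [← h, Real.zero_rpow (by norm_num), mul_zero] at main
    linarith

end Pool.Agent.FCH
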