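import Pool.Agent.FCH.Decomp
import Pool.Agent.FCH.Loc

set_option autoImplicit false

/-! Module LEV: levels.  Port of `Pool/Agent/MR/ALevC.lean`, `ALevOne.lean`.
`split`: `|A|^2 ≤ 2 |(1/L) ∑ Q R|^2 + 2 |E|^2`, Cauchy-Schwarz over `v`. -/

open Finset

namespace Pool.Agent.FCH

open Pool.Agent.MRS hiding Good

theorem Lev.fw_nonneg {K : ℕ} {k : ℤ} (hk : k ∈ Icc (-(K : ℤ)) (K : ℤ)) : 0 ≤ fw K k := by
  rw [mem_Icc] at hk
  unfold fw
  have h1 : |(k : ℝ)| ≤ K := by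
    rw [abs_le]
    exact ⟨by exact_mod_cast hk.1, by exact_mod_cast hk.2⟩
  rw [sub_nonneg, div_le_one (by positivity)]
  linarith

theorem split : ∃ C : ℝ, 0 < C ∧ ∀ cc : GI → ℂ, CG cc → ∀ P : Finset GI, (∀ p ∈ P, PP p) →
    ∀ Z : ℝ, 1 ≤ Z → (∀ p ∈ P, (nm p : ℝ) ≤ Z) → 1 ≤ rs P → ∀ H : ℕ, 1 ≤ H → ∀ N : ℝ, 1 ≤ N →
    ∀ K : ℕ, (K : ℝ) ≤ N → ∀ U : Finset ℤ, U ⊆ Icc (-(K : ℤ)) (K : ℤ) →
    ∑ k ∈ U, fw K k * ‖sp (pan N (3 * N)) cc k‖ ^ 2 ≤
      2 * ((vs H P).card : ℝ) * (∑ v ∈ vs H P, ∑ k ∈ U, fw K k * ‖sp (pb H P v) cc k *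
        sp (pan (N / Real.exp (v / H)) (3 * (N / Real.exp (v / H)))) cc k‖ ^ 2) +
      C * N * (N / rs P + N / H + √N * Z) := by
  obtain ⟨C₀, hC₀, hdec⟩ := decomp
  refine ⟨4 * C₀, by positivity, ?_⟩
  intro cc hf P hP Z hZ1 hZ hL H hH N hN K hK U hU
  obtain ⟨E, hE1, hE2⟩ := hdec cc hf P hP Z hZ1 hZ hL H hH N hN
  set F : ℕ → ℤ → ℝ := fun v k => fw K k * ‖sp (pb H P v) cc k *
        sp (pan (N / Real.exp (v / H)) (3 * (N / Real.exp (v / H)))) cc k‖ ^ 2 with hF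
  have hpt : ∀ k ∈ U, fw K k * ‖sp (pan N (3 * N)) cc k‖ ^ 2 ≤
      2 * ((vs H P).card : ℝ) * ∑ v ∈ vs H P, F v k + 2 * (fw K k * ‖E k‖ ^ 2) := by
    intro k hk
    have hgw := Lev.fw_nonneg (hU hk)
    set a : ℂ := (1 / (rs P : ℂ)) * ∑ v ∈ vs H P, sp (pb H P v) cc k *
          sp (pan (N / Real.exp (v / H)) (3 * (N / Real.exp (v / H)))) cc k with ha
    have h1 : ‖sp (pan N (3 * N)) cc k‖ ^ 2 ≤ 2 * ‖a‖ ^ 2 + 2 * ‖E k‖ ^ 2 := by
      rw [hE1 k]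
      have h2 := norm_add_le a (E k)
      have h3 := norm_nonneg (a + E k)
      nlinarith [sq_nonneg (‖a‖ - ‖E k‖), norm_nonneg a, norm_nonneg (E k)]
    have h4 : ‖a‖ ^ 2 ≤ ((vs H P).card : ℝ) * ∑ v ∈ vs H P, ‖sp (pb H P v) cc k *
          sp (pan (N / Real.exp (v / H)) (3 * (N / Real.exp (v / H)))) cc k‖ ^ 2 := by
      have h5 : ‖a‖ ≤ ∑ v ∈ vs H P, ‖sp (pb H P v) cc k *
          sp (pan (N / Real.exp (v / H)) (3 * (N / Real.exp (v / H)))) cc k‖ := by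
        rw [ha, norm_mul]
        have h6 : ‖(1 / (rs P : ℂ))‖ ≤ 1 := by
          rw [norm_div, norm_one, Complex.norm_real, Real.norm_eq_abs, abs_of_nonneg (by linarith)]
          rw [div_le_one (by linarith)]
          exact hL
        calc ‖(1 / (rs P : ℂ))‖ * ‖∑ v ∈ vs H P, sp (pb H P v) cc k *
              sp (pan (N / Real.exp (v / H)) (3 * (N / Real.exp (v / H)))) cc k‖
            ≤ 1 * ‖∑ v ∈ vs H P, sp (pb H P v) cc k *
              sp (pan (N / Real.exp (v / H)) (3 * (N / Real.exp (v / H)))) cc k‖ :=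
              mul_le_mul_of_nonneg_right h6 (norm_nonneg _)
          _ ≤ _ := by
              rw [one_mul]
              exact norm_sum_le _ _
      refine (pow_le_pow_left₀ (norm_nonneg _) h5 2).trans ?_
      exact sq_sum_le_card_mul_sum_sq
    have h5 : ∑ v ∈ vs H P, F v k = fw K k * (∑ v ∈ vs H P, ‖sp (pb H P v) cc k *
          sp (pan (N / Real.exp (v / H)) (3 * (N / Real.exp (v / H)))) cc k‖ ^ 2) := by
      rw [Finset.mul_sum]
    rw [h5]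
    calc fw K k * ‖sp (pan N (3 * N)) cc k‖ ^ 2
        ≤ fw K k * (2 * (((vs H P).card : ℝ) * ∑ v ∈ vs H P, ‖sp (pb H P v) cc k *
          sp (pan (N / Real.exp (v / H)) (3 * (N / Real.exp (v / H)))) cc k‖ ^ 2) +
          2 * ‖E k‖ ^ 2) := by
          apply mul_le_mul_of_nonneg_left _ hgw
          linarith
      _ = _ := by ring
  refine (Finset.sum_le_sum hpt).trans ?_
  rw [Finset.sum_add_distrib, ← Finset.mul_sum, ← Finset.mul_sum, Finset.sum_comm]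
  have h2 : ∑ k ∈ U, fw K k * ‖E k‖ ^ 2 ≤ ms K (fun k => ‖E k‖ ^ 2) := by
    unfold ms
    apply Finset.sum_le_sum_of_subset_of_nonneg hU
    intro k hk _
    exact mul_nonneg (Lev.fw_nonneg hk) (by positivity)
  have h3 := hE2 K
  have hX : 0 ≤ N / rs P + N / H + √N * Z := by positivity
  have h5 : C₀ * (K + N) * (N / rs P + N / H + √N * Z) ≤
      2 * C₀ * N * (N / rs P + N / H + √N * Z) := by
    apply mul_le_mul_of_nonneg_right _ hX
    nlinarith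
  simp only [hF]
  linarith

/-- numerics: `72 a² ≤ ε e^a` for large `a` -/
theorem Lev.num (ε : ℝ) (hε : 0 < ε) : ∃ A0 : ℝ, 3 ≤ A0 ∧ ∀ a : ℝ, A0 ≤ a →
    72 * a ^ 2 ≤ ε * Real.exp a ∧ 3200 * a ≤ Real.exp a := by
  have h1 := Real.tendsto_pow_mul_exp_neg_atTop_nhds_zero 2
  have h2 := (tendsto_order.1 h1).2 (min (ε / 72) (1 / 3200)) (by positivity)
  obtain ⟨A0, hA0⟩ := Filter.eventually_atTop.mp h2
  refine ⟨max 3 A0, le_max_left _ _, fun a ha => ?_⟩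
  have h3 := hA0 a (le_trans (le_max_right _ _) ha)
  have ha3 : 3 ≤ a := le_trans (le_max_left _ _) ha
  have hpos := Real.exp_pos a
  have h4 : a ^ 2 < min (ε / 72) (1 / 3200) * Real.exp a := by
    have h5 := mul_lt_mul_of_pos_right h3 hpos
    rwa [mul_assoc, ← Real.exp_add, neg_add_cancel, Real.exp_zero, mul_one] at h5
  constructor
  · have h5 : min (ε / 72) (1 / 3200) ≤ ε / 72 := min_le_left _ _
    nlinarith
  · have h5 : min (ε / 72) (1 / 3200) ≤ 1 / 3200 := min_le_right _ _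
    nlinarith

/-- Numerical facts on the level `j`. -/
theorem Lev.level_facts (A0 : ℝ) (hA0 : 3 ≤ A0) (ε : ℝ)
    (hnum : ∀ a : ℝ, A0 ≤ a → 72 * a ^ 2 ≤ ε * Real.exp a ∧ 3200 * a ≤ Real.exp a)
    (A : ℝ) (hA : A0 ≤ A) (j : ℕ) :
    ∃ a : ℝ, a = A * 3 ^ j ∧ MRS.lp A j = Real.exp a ∧ 3 ≤ a ∧ 72 * a ^ 2 ≤ ε * MRS.lp A j ∧
      3200 * a ≤ MRS.lp A j ∧ A * 2 ^ j ≤ a ∧ (2 : ℝ) ^ j ≤ a ∧ (HH A j : ℝ) ≤ 2 * a ∧
      (HH A (j + 1) : ℝ) ≤ 4 * a ∧ A * 2 ^ j ≤ (HH A j : ℝ) ∧ 1 ≤ HH A j := by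
  have hA3 : 3 ≤ A := hA0.trans hA
  have h3j : (1 : ℝ) ≤ 3 ^ j := one_le_pow₀ (by norm_num)
  have h2j : (1 : ℝ) ≤ 2 ^ j := one_le_pow₀ (by norm_num)
  have h23 : (2 : ℝ) ^ j ≤ 3 ^ j := pow_le_pow_left₀ (by norm_num) (by norm_num) j
  have ha : A ≤ A * 3 ^ j := by nlinarith
  obtain ⟨h1, h2⟩ := hnum (A * 3 ^ j) (hA.trans ha)
  have hc1 : A ≤ (⌈A⌉₊ : ℝ) := Nat.le_ceil A
  have hc2 : (⌈A⌉₊ : ℝ) < A + 1 := Nat.ceil_lt_add_one (by linarith)
  have hc0 : 1 ≤ ⌈A⌉₊ := Nat.one_le_ceil_iff.mpr (by linarith)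
  have hm : (2 : ℝ) ^ j * A ≤ 3 ^ j * A := mul_le_mul_of_nonneg_right h23 (by linarith)
  refine ⟨A * 3 ^ j, rfl, rfl, by nlinarith, h1, h2, by linarith, ?_, ?_, ?_, ?_, ?_⟩
  · nlinarith
  · unfold HH
    push_cast
    nlinarith
  · unfold HH
    push_cast
    rw [pow_succ]
    nlinarith
  · unfold HH
    push_cast
    nlinarith
  · unfold HH
    exact Nat.one_le_iff_ne_zero.mpr (by positivity)

theorem Lev.pset_Z (A : ℝ) (j : ℕ) : (∀ p ∈ pset A j, PP p) ∧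
    (∀ p ∈ pset A j, (nm p : ℝ) ≤ Real.exp ((MRS.lp A j) ^ 2)) :=
  ⟨fun _ hp => (mem_pset.mp hp).1, fun _ hp => (mem_pset.mp hp).2.2⟩

/-- The error term of the decomposition. -/
theorem Lev.err (A N : ℝ) (j : ℕ) (B : ℝ) (hB : 1 ≤ B) (hrs : B / 4 ≤ rs (pset A j))
    (hH : B ≤ (HH A j : ℝ)) (hB2 : B ≤ (MRS.lp A j) ^ 2 / 2) (hN : Real.exp (3 * (MRS.lp A j) ^ 2) ≤ N) :
    N / rs (pset A j) + N / (HH A j : ℝ) + √N * Real.exp ((MRS.lp A j) ^ 2) ≤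
      6 * (N / B) := by
  have hN0 : 0 < N := lt_of_lt_of_le (Real.exp_pos _) hN
  have h1 : N / rs (pset A j) ≤ N / (B / 4) := div_le_div_of_nonneg_left hN0.le (by linarith) hrs
  have h1' : N / (B / 4) = 4 * (N / B) := by
    field_simp
  have h2 : N / (HH A j : ℝ) ≤ N / B := div_le_div_of_nonneg_left hN0.le (by linarith) hH
  have h3 : √N * Real.exp ((MRS.lp A j) ^ 2) ≤ N / B := by
    set L := (MRS.lp A j) ^ 2 with hL
    have h4 : B ≤ Real.exp (L / 2) := by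
      have := Real.add_one_le_exp (L / 2)
      linarith
    have h5 : Real.exp (3 * L / 2) ≤ √N := by
      apply Real.le_sqrt_of_sq_le
      rw [← Real.exp_nat_mul]
      refine le_trans (le_of_eq ?_) hN
      congr 1
      push_cast
      ring
    rw [le_div_iff₀ (by linarith)]
    calc √N * Real.exp L * B ≤ √N * Real.exp L * Real.exp (L / 2) :=
          mul_le_mul_of_nonneg_left h4 (by positivity)
      _ = √N * Real.exp (3 * L / 2) := by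
          rw [mul_assoc, ← Real.exp_add]
          congr 2
          ring
      _ ≤ √N * √N := mul_le_mul_of_nonneg_left h5 (Real.sqrt_nonneg _)
      _ = N := Real.mul_self_sqrt hN0.le
  rw [h1'] at h1
  linarith

theorem Lev.fin_one (c S R y E N A C₀ C₁ : ℝ) (hc0 : 0 ≤ c) (hy : 0 < y) (hA : 0 < A)
    (hC₀ : 0 < C₀) (hC₁ : 0 < C₁)
    (hN : 0 < N) (hE : 0 ≤ E) (hc : c ≤ 2 * y ^ 3) (hS : S ≤ 2 * y ^ 3 * (C₁ * N ^ 2 * E))
    (hR : R ≤ 6 * (N / A)) (hexp : 8 * y ^ 6 * E ≤ 1 / A) :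
    2 * c * S + C₀ * N * R ≤ (C₁ + 6 * C₀) / A * N ^ 2 := by
  calc 2 * c * S + C₀ * N * R
      ≤ 2 * (2 * y ^ 3) * (2 * y ^ 3 * (C₁ * N ^ 2 * E)) + C₀ * N * (6 * (N / A)) := by
        apply add_le_add
        · refine (mul_le_mul_of_nonneg_left hS (by positivity)).trans ?_
          apply mul_le_mul_of_nonneg_right _ (by positivity)
          linarith
        · exact mul_le_mul_of_nonneg_left hR (by positivity)
    _ = C₁ * N ^ 2 * (8 * y ^ 6 * E) + 6 * C₀ * N ^ 2 / A := by ring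
    _ ≤ C₁ * N ^ 2 * (1 / A) + 6 * C₀ * N ^ 2 / A := by
        have := mul_le_mul_of_nonneg_left hexp (show 0 ≤ C₁ * N ^ 2 by positivity)
        linarith
    _ = (C₁ + 6 * C₀) / A * N ^ 2 := by ring

theorem level_one : ∃ C : ℝ, 0 < C ∧ ∀ ε : ℝ, 0 < ε → ε ≤ 1 / 4 → ∃ A0 : ℝ, 1 ≤ A0 ∧
    ∀ A : ℝ, A0 ≤ A → ∀ (N : ℝ) (K : ℕ), (K : ℝ) * Real.exp ((MRS.lp A 1) ^ 2) ≤ N →
      Real.exp (3 * (MRS.lp A 1) ^ 2) ≤ N → ∀ cc : GI → ℂ, CG cc →
      open Classical in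
      ∑ k ∈ (Icc (-(K : ℤ)) (K : ℤ)).filter (Good cc A ε 1),
        fw K k * ‖sp (pan N (3 * N)) cc k‖ ^ 2 ≤ C / A * N ^ 2 := by
  obtain ⟨C₀, hC₀, hsplit⟩ := split
  obtain ⟨C₁, hC₁, hloc⟩ := loc_one
  obtain ⟨A1, hA1, hfacts⟩ := pset_facts
  refine ⟨C₁ + 6 * C₀, by positivity, fun ε hε hε4 => ?_⟩
  obtain ⟨A2, hA2, hnum⟩ := Lev.num ε hε
  refine ⟨max A1 A2, le_trans hA1 (le_max_left _ _), fun A hA N K hKN hN cc hf => ?_⟩
  classical
  have hAA1 : A1 ≤ A := le_trans (le_max_left _ _) hA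
  have hAA2 : A2 ≤ A := le_trans (le_max_right _ _) hA
  have hA3 : 3 ≤ A := hA2.trans hAA2
  obtain ⟨hf1, hf3, hf4⟩ := hfacts A hAA1 1 le_rfl
  obtain ⟨a, ha, hya, ha3, hn1, hn2, hn3, hn4, hn5, -, hn7, hn8⟩ :=
    Lev.level_facts A2 hA2 ε hnum A hAA2 1
  obtain ⟨hP, hZ⟩ := Lev.pset_Z A 1
  set y := MRS.lp A 1 with hy
  set H := HH A 1 with hH
  have hy1 : 9600 ≤ y := by linarith
  have hN0 : 0 < N := lt_of_lt_of_le (Real.exp_pos _) hN
  have hN1 : 1 ≤ N := (Real.one_le_exp (by positivity)).trans hN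
  have hKN' : (K : ℝ) ≤ N := by
    refine le_trans ?_ hKN
    exact le_mul_of_one_le_right (by positivity) (Real.one_le_exp (by positivity))
  rw [pow_one] at hf1 hn3
  set U := (Icc (-(K : ℤ)) (K : ℤ)).filter (Good cc A ε 1) with hU
  have hmain := hsplit cc hf (pset A 1) hP _ (Real.one_le_exp (by positivity)) hZ (by linarith) H
    hn8 N hN1 K hKN' U (filter_subset _ _)
  refine hmain.trans ?_
  have herr := Lev.err A N 1 A (by linarith) (by linarith) (by linarith) (by nlinarith) hN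
  have hHR : (H : ℝ) ≤ y := by linarith
  have hcard : ((vs H (pset A 1)).card : ℝ) ≤ 2 * y ^ 3 := by
    refine hf3.trans ?_
    have h1 : (H : ℝ) * y ^ 2 ≤ y * y ^ 2 := mul_le_mul_of_nonneg_right hHR (by positivity)
    have h2 : (1 : ℝ) ≤ y ^ 3 := one_le_pow₀ (by linarith)
    nlinarith
  have hal : al ε 1 = ε / 2 := by unfold al; ring
  have hterm : ∀ v ∈ vs H (pset A 1), ∑ k ∈ U, fw K k * ‖sp (pb H (pset A 1) v) cc k *
      sp (pan (N / Real.exp (v / H)) (3 * (N / Real.exp (v / H)))) cc k‖ ^ 2 ≤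
      C₁ * N ^ 2 * Real.exp (-(ε * (y - 1))) := by
    intro v hv
    obtain ⟨hv1, hv2⟩ := hf4 v hv
    have h1 := hloc cc hf (pb H (pset A 1) v) H v hn8 N (al ε 1) K (by
      refine le_trans ?_ hKN
      exact mul_le_mul_of_nonneg_left (Real.exp_le_exp.mpr hv2) (by positivity)) (by
      refine le_trans (Real.exp_le_exp.mpr hv2) (le_trans (Real.exp_le_exp.mpr ?_) hN)
      nlinarith [sq_nonneg y])
      U (filter_subset _ _) (fun k hk => (mem_filter.mp hk).2 v hv)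
    refine h1.trans ?_
    apply mul_le_mul_of_nonneg_left _ (by positivity)
    apply Real.exp_le_exp.mpr
    rw [hal]
    nlinarith
  have hsum : (∑ v ∈ vs H (pset A 1), ∑ k ∈ U, fw K k * ‖sp (pb H (pset A 1) v) cc k *
      sp (pan (N / Real.exp (v / H)) (3 * (N / Real.exp (v / H)))) cc k‖ ^ 2) ≤
      2 * y ^ 3 * (C₁ * N ^ 2 * Real.exp (-(ε * (y - 1)))) := by
    refine (Finset.sum_le_sum hterm).trans ?_
    rw [Finset.sum_const, nsmul_eq_mul]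
    exact mul_le_mul_of_nonneg_right hcard (by positivity)
  have hexp : 8 * y ^ 6 * Real.exp (-(ε * (y - 1))) ≤ 1 / A := by
    have h1 : y ^ 7 ≤ Real.exp (ε * (y - 1)) := by
      rw [hya, ← Real.exp_nat_mul]
      apply Real.exp_le_exp.mpr
      push_cast
      rw [← hya]
      nlinarith
    rw [Real.exp_neg, ← div_eq_mul_inv, div_le_div_iff₀ (Real.exp_pos _) (by linarith)]
    have h2 : 8 * A ≤ y := by linarith
    have h3 : 0 ≤ y ^ 6 := by positivity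
    calc 8 * y ^ 6 * A = y ^ 6 * (8 * A) := by ring
      _ ≤ y ^ 6 * y := mul_le_mul_of_nonneg_left h2 h3
      _ = y ^ 7 := by ring
      _ ≤ 1 * Real.exp (ε * (y - 1)) := by rw [one_mul]; exact h1
  exact Lev.fin_one _ _ _ y _ N A C₀ C₁ (Nat.cast_nonneg _) (by linarith) (by linarith) hC₀ hC₁
    hN0 (Real.exp_pos _).le hcard hsum herr hexp

end Pool.Agent.FCH
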