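import Pool.Agent.FCH.LbP
import Pool.Agent.FCH.EuP
import Pool.Agent.FCH.Top
import Pool.Agent.MRS.Hr
import Pool.Agent.MRS.Pw

set_option autoImplicit false

/-! Module PwP: port of `MRS/Pw.lean`.  `c(z) u(z)^k = f(N z) χ(z)`, `χ = ψ ut^j u^k` (`j = 0, 1`), `sh χ = sh ψ · u^{2k+j}` (`ut² = u`, `ut (star z) = conj`), so `LbP` applies with `Ψ = sh ψ`
and `κ = 2k + j`: odd (so `≠ 0`) if `j = 1`; `κ = 2k ≠ 0` if `k ≠ 0`; for `k = 0`, `j = 0` use the non-triviality of `sh ψ`.  `|κ| ≤ 2M²+1 ≤ exp(B/α)`, `α = 1/log(3M)`, `B = 2`. -/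

open Finset

namespace Pool.Agent.FCH

open Pool.Agent.MRS hiding Good

theorem CG_of (f : ℕ → ℂ) (hf : CM f) {χ : GI → ℂ} (h : CE χ) : CG (fun z => f (nm z) * χ z) := by
  constructor
  · intro z w hz hw
    show f (nm (z * w)) * χ (z * w) = f (nm z) * χ z * (f (nm w) * χ w)
    rw [nm_mul, hf.mul _ _ (nm_pos (Od_ne hz)) (nm_pos (Od_ne hw)), h.mul z w hz hw]
    ring
  · intro z
    show ‖f (nm z) * χ z‖ ≤ 1
    rw [norm_mul]
    calc ‖f (nm z)‖ * ‖χ z‖ ≤ 1 * 1 :=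
          mul_le_mul (hf.norm_le _) (h.le z) (norm_nonneg _) zero_le_one
      _ = 1 := one_mul _

theorem PwP_le_two {χ : GI → ℂ} (h : CE χ) (p a : ℕ) (hp : p.Prime) (ha : 1 ≤ a) :
    ‖bg χ (p ^ a)‖ ≤ 2 :=
  (norm_bg_le h _).trans ((Complex.re_le_norm _).trans (ppw_le_two 0 p a hp ha))

theorem PwP_core (f : ℕ → ℂ) (hf : CM f) (D : ℕ) (h4 : 4 ∣ D) (hD : 0 < D) (η : ℝ) (hη : 0 < η) :
    ∃ M0 : ℝ, 1 ≤ M0 ∧ ∀ M : ℝ, M0 ≤ M → ∀ χ : GI → ℂ, CE χ → ∀ Ψ : GI → ℂ, HC D Ψ →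
    ∀ κ : ℤ, |(κ : ℝ)| ≤ (3 * M) ^ 2 →
    (κ ≠ 0 ∨ ∃ z : GI, Od z ∧ Nat.Coprime (nm z) D ∧ Ψ z ≠ 1) →
    (∀ z : GI, Od z → sh χ z = Ψ z * uu z ^ κ) →
    ‖∑ z ∈ pan M (3 * M), f (nm z) * χ z‖ ≤ η * M := by
  obtain ⟨C1, hC1, hhr⟩ := hr_bound
  obtain ⟨C2, hC2, hec⟩ := EuP
  obtain ⟨K, hK, hL0⟩ := L_zero
  set ε : ℝ := (η / (18 * C1 * C2 * K ^ (3 / 4 : ℝ))) ^ 4 with hε
  have hK34 : 0 < K ^ (3 / 4 : ℝ) := Real.rpow_pos_of_pos hK _
  have hε0 : 0 < ε := by positivity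
  obtain ⟨a0, ha0, hLb⟩ := LbP D h4 hD 2 ε hε0
  refine ⟨max 1 (Real.exp (1 / a0)), le_max_left _ _, ?_⟩
  intro M hM χ hχ Ψ hΨ κ hκ hor hsh
  have hM1 : 1 ≤ M := (le_max_left _ _).trans hM
  have hMe : Real.exp (1 / a0) ≤ M := (le_max_right _ _).trans hM
  have hM0 : 0 < M := by linarith
  set x : ℝ := 3 * M with hx
  have hx3 : 3 ≤ x := by rw [hx]; linarith
  have hx0 : 0 < x := by linarith
  have hlog1 : 1 ≤ Real.log x := by
    rw [Real.le_log_iff_exp_le hx0]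
    have := Real.exp_one_lt_d9
    linarith
  have hlog0 : 0 < Real.log x := by linarith
  have hloga : 1 / a0 ≤ Real.log x := by
    rw [Real.le_log_iff_exp_le hx0]
    rw [hx]
    linarith
  set α : ℝ := 1 / Real.log x with hα
  have hα0 : 0 < α := by positivity
  have hα1 : α ≤ 1 := by
    rw [hα, div_le_one hlog0]
    exact hlog1
  have hαa : α ≤ a0 := by
    rw [hα, div_le_iff₀ hlog0]
    rw [div_le_iff₀ ha0] at hloga
    linarith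
  obtain ⟨hs0, hb0⟩ := hL0 α hα0 hα1
  have hsk : Summable (fun n : ℕ => ‖bg χ n‖ * (n : ℝ) ^ (-(1 + α))) := by
    refine Summable.of_nonneg_of_le (fun n => by positivity) (fun n => ?_) hs0
    exact mul_le_mul_of_nonneg_right (norm_bg_le hχ n) (by positivity)
  have h1 := sp_le_bg f hf χ M (3 * M) hM0.le
  have h2 := hhr (fun n => ‖bg χ n‖) (fun n => norm_nonneg _) (by
      show ‖bg χ 1‖ = 1
      rw [bg_one hχ, norm_one]) (fun m n hmn => by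
      show ‖bg χ (m * n)‖ = ‖bg χ m‖ * ‖bg χ n‖
      rw [bg_mul hχ hmn, norm_mul]) (fun p a hp ha => PwP_le_two hχ p a hp ha) x (by linarith)
  have h3 := rankin (fun n => ‖bg χ n‖) (fun n => norm_nonneg _) x hx3 hsk
  obtain ⟨hD0, h4'⟩ := hec χ hχ α hα0 hα1
  have hbg : ∀ n : ℕ, bg (sh χ) n = bg (fun z => Ψ z * uu z ^ κ) n := by
    intro n
    unfold bg
    congr 1
    apply Finset.sum_congr rfl
    intro z hz
    rw [mem_pn] at hz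
    exact hsh z hz.1
  have h5 := hLb Ψ hΨ α hα0 hαa κ (by
    have e1 : (2 : ℝ) / α = 2 * Real.log x := by
      rw [hα]; field_simp
    rw [e1, two_mul (Real.log x), Real.exp_add, Real.exp_log hx0]
    nlinarith) hor
  simp only [hbg] at hD0 h4'
  set B0 : ℝ := ∑' n : ℕ, (bb 0 n).re * (n : ℝ) ^ (-(1 + α)) with hB0
  set E : ℝ := ∑' n : ℕ, (bg (fun z => Ψ z * uu z ^ κ) n).re * (n : ℝ) ^ (-(1 + α)) with hE
  have hB00 : 0 ≤ B0 := by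
    apply tsum_nonneg
    intro n
    have : 0 ≤ (bb 0 n).re := (norm_nonneg _).trans (norm_bb_le 0 n)
    positivity
  have hDle : E ≤ ε * Real.log x := by
    have e1 : ε / α = ε * Real.log x := by rw [hα]; field_simp
    rw [← e1]
    exact (le_abs_self _).trans h5
  have hBle : B0 ≤ K * Real.log x := by
    have e1 : K / α = K * Real.log x := by rw [hα]; field_simp
    rw [← e1]
    exact hb0
  have h6 : B0 ^ (3 / 4 : ℝ) ≤ K ^ (3 / 4 : ℝ) * (Real.log x) ^ (3 / 4 : ℝ) := by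
    rw [← Real.mul_rpow hK.le hlog0.le]
    exact Real.rpow_le_rpow hB00 hBle (by norm_num)
  have h7 : E ^ (1 / 4 : ℝ) ≤ ε ^ (1 / 4 : ℝ) * (Real.log x) ^ (1 / 4 : ℝ) := by
    rw [← Real.mul_rpow hε0.le hlog0.le]
    exact Real.rpow_le_rpow hD0.le hDle (by norm_num)
  have h8 : (Real.log x) ^ (3 / 4 : ℝ) * (Real.log x) ^ (1 / 4 : ℝ) = Real.log x := by
    rw [← Real.rpow_add hlog0]
    norm_num
  have h9 : ε ^ (1 / 4 : ℝ) = η / (18 * C1 * C2 * K ^ (3 / 4 : ℝ)) := by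
    have hb : 0 ≤ η / (18 * C1 * C2 * K ^ (3 / 4 : ℝ)) := by positivity
    rw [hε, ← Real.rpow_natCast, ← Real.rpow_mul hb]
    norm_num
  have hlog34 : 0 < (Real.log x) ^ (3 / 4 : ℝ) := Real.rpow_pos_of_pos hlog0 _
  have hlog14 : 0 < (Real.log x) ^ (1 / 4 : ℝ) := Real.rpow_pos_of_pos hlog0 _
  have h10 : ∑' n : ℕ, ‖bg χ n‖ * (n : ℝ) ^ (-(1 + α)) ≤ η / (18 * C1) * Real.log x := by
    calc ∑' n : ℕ, ‖bg χ n‖ * (n : ℝ) ^ (-(1 + α)) ≤ C2 * B0 ^ (3 / 4 : ℝ) * E ^ (1 / 4 : ℝ) := h4'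
      _ ≤ C2 * (K ^ (3 / 4 : ℝ) * (Real.log x) ^ (3 / 4 : ℝ)) *
          (ε ^ (1 / 4 : ℝ) * (Real.log x) ^ (1 / 4 : ℝ)) := by
          apply mul_le_mul (mul_le_mul_of_nonneg_left h6 hC2.le) h7
            (Real.rpow_nonneg hD0.le _) (by positivity)
      _ = C2 * K ^ (3 / 4 : ℝ) * ε ^ (1 / 4 : ℝ) *
          ((Real.log x) ^ (3 / 4 : ℝ) * (Real.log x) ^ (1 / 4 : ℝ)) := by ring
      _ = η / (18 * C1) * Real.log x := by
          rw [h8, h9]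
          field_simp
  calc ‖∑ z ∈ pan M (3 * M), f (nm z) * χ z‖ ≤ 2 * ∑ n ∈ Icc 1 ⌊x⌋₊, ‖bg χ n‖ := h1
    _ ≤ 2 * (C1 * (x / Real.log x) * ∑ n ∈ Icc 1 ⌊x⌋₊, ‖bg χ n‖ / n) := by linarith
    _ ≤ 2 * (C1 * (x / Real.log x) * (3 * (η / (18 * C1) * Real.log x))) := by
        apply mul_le_mul_of_nonneg_left _ (by norm_num)
        apply mul_le_mul_of_nonneg_left _ (by positivity)
        refine h3.trans ?_
        linarith
    _ = η * (x / 3) := by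
        field_simp
        ring
    _ = η * M := by
        rw [hx]
        ring

theorem PwP_conj_uu (z : GI) (k : ℤ) : (starRingEnd ℂ) (uu (star z) ^ k) = uu z ^ k := by
  rw [map_zpow₀, uu_star, Complex.conj_conj]

theorem PwP_sh_even (ψ : GI → ℂ) (k : ℤ) {z : GI} (hz : Od z) :
    sh (fun z => ψ z * uu z ^ k) z = sh ψ z * uu z ^ (2 * k) := by
  unfold sh
  show ψ z * uu z ^ k * (starRingEnd ℂ) (ψ (star z) * uu (star z) ^ k) = _
  rw [map_mul, PwP_conj_uu, two_mul k, zpow_add₀ (uu_ne (Od_ne hz))]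
  ring

theorem PwP_sh_odd (ψ : GI → ℂ) (k : ℤ) {z : GI} (hz : Od z) :
    sh (fun z => ψ z * ut z * uu z ^ k) z = sh ψ z * uu z ^ (2 * k + 1) := by
  unfold sh
  show ψ z * ut z * uu z ^ k * (starRingEnd ℂ) (ψ (star z) * ut (star z) * uu (star z) ^ k) = _
  rw [map_mul, map_mul, PwP_conj_uu, ut_star hz, Complex.conj_conj,
    zpow_add₀ (uu_ne (Od_ne hz)), two_mul k, zpow_add₀ (uu_ne (Od_ne hz)), zpow_one, ← ut_sq z]
  ring

theorem PwP_kappa {M : ℝ} (hM : 1 ≤ M) {k κ : ℤ} (hk : |(k : ℝ)| ≤ M ^ 2)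
    (h : |(κ : ℝ)| ≤ 2 * |(k : ℝ)| + 1) : |(κ : ℝ)| ≤ (3 * M) ^ 2 := by
  nlinarith

theorem pwP_odd (f : ℕ → ℂ) (hf : CM f) (D : ℕ) (h4 : 4 ∣ D) (hD : 0 < D) (ψ : GI → ℂ) (hψ : HC D ψ) :
    PW (fun z => f (nm z) * (ψ z * ut z)) ∅ := by
  intro η hη
  obtain ⟨M0, hM0, h⟩ := PwP_core f hf D h4 hD η hη
  refine ⟨M0, hM0, ?_⟩
  intro M hM k _ hk
  have h1 := h M hM (fun z => ψ z * ut z * uu z ^ k)
    (CE_mul (CE_mul (HC_CE hψ) CE_ut) (CE_uu k)) (sh ψ) (HC_sh hψ) (2 * k + 1)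
    (PwP_kappa (hM0.trans hM) hk (by
      push_cast
      calc |2 * (k : ℝ) + 1| ≤ |2 * (k : ℝ)| + |(1 : ℝ)| := abs_add_le _ _
        _ = 2 * |(k : ℝ)| + 1 := by rw [abs_mul, abs_two, abs_one]))
    (Or.inl (by omega)) (fun z hz => PwP_sh_odd ψ k hz)
  have e : sp (pan M (3 * M)) (fun z => f (nm z) * (ψ z * ut z)) k =
      ∑ z ∈ pan M (3 * M), f (nm z) * (ψ z * ut z * uu z ^ k) := by
    unfold sp
    apply Finset.sum_congr rfl
    intro z _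
    ring
  rw [e]
  exact h1

theorem pwP_even (f : ℕ → ℂ) (hf : CM f) (D : ℕ) (h4 : 4 ∣ D) (hD : 0 < D) (ψ : GI → ℂ) (hψ : HC D ψ) :
    PW (fun z => f (nm z) * ψ z) {0} := by
  intro η hη
  obtain ⟨M0, hM0, h⟩ := PwP_core f hf D h4 hD η hη
  refine ⟨M0, hM0, ?_⟩
  intro M hM k hk0 hk
  have hk0' : k ≠ 0 := by
    intro h0
    exact hk0 (by rw [h0]; exact Finset.mem_singleton_self _)
  have h1 := h M hM (fun z => ψ z * uu z ^ k)
    (CE_mul (HC_CE hψ) (CE_uu k)) (sh ψ) (HC_sh hψ) (2 * k)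
    (PwP_kappa (hM0.trans hM) hk (by
      push_cast
      rw [abs_mul, abs_two]
      linarith))
    (Or.inl (by omega)) (fun z hz => PwP_sh_even ψ k hz)
  have e : sp (pan M (3 * M)) (fun z => f (nm z) * ψ z) k =
      ∑ z ∈ pan M (3 * M), f (nm z) * (ψ z * uu z ^ k) := by
    unfold sp
    apply Finset.sum_congr rfl
    intro z _
    ring
  rw [e]
  exact h1

theorem pwP_nontriv (f : ℕ → ℂ) (hf : CM f) (D : ℕ) (h4 : 4 ∣ D) (hD : 0 < D) (ψ : GI → ℂ)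
    (hψ : HC D ψ) (hn : ∃ z : GI, Od z ∧ Nat.Coprime (nm z) D ∧ sh ψ z ≠ 1) :
    PW (fun z => f (nm z) * ψ z) ∅ := by
  intro η hη
  obtain ⟨M0, hM0, h⟩ := PwP_core f hf D h4 hD η hη
  refine ⟨M0, hM0, ?_⟩
  intro M hM k _ hk
  have h1 := h M hM (fun z => ψ z * uu z ^ k)
    (CE_mul (HC_CE hψ) (CE_uu k)) (sh ψ) (HC_sh hψ) (2 * k)
    (PwP_kappa (hM0.trans hM) hk (by
      push_cast
      rw [abs_mul, abs_two]
      linarith))
    (Or.inr hn) (fun z hz => PwP_sh_even ψ k hz)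
  have e : sp (pan M (3 * M)) (fun z => f (nm z) * ψ z) k =
      ∑ z ∈ pan M (3 * M), f (nm z) * (ψ z * uu z ^ k) := by
    unfold sp
    apply Finset.sum_congr rfl
    intro z _
    ring
  rw [e]
  exact h1

end Pool.Agent.FCH
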