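import Pool.Agent.FCH.Cum
import Pool.Agent.FCH.PwP
import Pool.Agent.FCH.Plan
import Pool.Agent.FCH.NormFn

set_option autoImplicit false

/-! Module Cavg: average over the scales of the energy of `∑_{N(z) ≤ t m} ζ^Ω(N z) ψ(z) ut(z)^j u(z)^k`.
`cc = f(N z) ψ(z) ut^j`, `f = fz ζ` (`CM`; note `fz ζ 0 = 1`).  `cum` (with `h' = t h` in place of `h`, `x = t m`, `K = ⌊m/h⌋ ≤ x/(t h)`, so take `h0 = max 1 (h0'/t)`) gives
`∑_{k ∉ E0} ≤ η' (tm)²` for `t m ≥ N0`; the finitely many small `m` are bounded by `mvt_prim` (`≤ C (K + tm + 1)(tm+1)`); `∑_{m ≤ X} (1/m³) η' t² m² ≤ η' t² (1 + log X)`.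
Odd case (`j = 1`): `E0 = ∅` (`pwP_odd`).  Even case: `E0 = ∅` if `sh ψ` is non-trivial (`pwP_nontriv`); otherwise `E0 = {0}` (`pwP_even`) and the term `k = 0` is
`‖∑_{z ∈ pan 0 (tm)} f(N z) ψ(z)‖²`; `sh ψ = 1` on the elements coprime to `D` means `ψ(star z) = ψ(z)`, so by `norm_fn` `ψ(z) = g(N z mod 8D)` for `z` coprime to `D` (and `0` otherwise); expand `g` on the
residues coprime to `8D` in Dirichlet characters mod `8D`: `ψ(z) = ∑_χ c_χ χ(N z)`.  So the sum is `2 ∑_χ c_χ ∑_{n ≤ tm} aa ζ χ n` (`#pn n = 2 b₀(n)`: `PMU_fib`, `PMU_bb0`), and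
`∑_m m^{-3} |A_χ(⌊tm⌋)|² ≤ ∑_x (#{m: ⌊tm⌋ = x}) (2t/x)³ |A_χ(x)|²`, `#{m : ⌊tm⌋ = x} ≤ 1/t + 1`, `x ≤ tX`; `k0avg` with `X' = ⌈tX⌉` (`log X' ≤ 2 log X`). -/

open Finset

namespace Pool.Agent.FCH

open Pool.Agent.MRS hiding Good

theorem CAV_CM {ζ : ℂ} (hζ : ‖ζ‖ = 1) : CM (fz ζ) where
  mul := fun m n hm hn => fz_mul ζ (by omega) (by omega)
  norm_le := fun n => (norm_fz hζ n).le

theorem CAV_log (G : ℕ → ℝ) (hG : ∀ m, 0 ≤ G m) (η : ℝ) (hη : 0 < η) (M0 : ℕ)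
    (h : ∀ m, M0 ≤ m → G m ≤ η / m) :
    ∃ X0 : ℕ, 2 ≤ X0 ∧ ∀ X : ℕ, X0 ≤ X → ∑ m ∈ Icc 1 X, G m ≤ 3 * η * Real.log X := by
  classical
  set C0 : ℝ := ∑ m ∈ Icc 1 M0, G m with hC0
  have hev : ∀ᶠ X : ℕ in Filter.atTop, max 1 (C0 / η) ≤ Real.log X :=
    (Real.tendsto_log_atTop.comp tendsto_natCast_atTop_atTop).eventually_ge_atTop _
  obtain ⟨X1, hX1⟩ := Filter.eventually_atTop.mp hev
  refine ⟨max 2 X1, le_max_left _ _, fun X hX => ?_⟩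
  have h1 := hX1 X ((le_max_right _ _).trans hX)
  have h2 : 1 ≤ Real.log X := (le_max_left _ _).trans h1
  have h3 : C0 ≤ η * Real.log X := by
    have h4 := (le_max_right _ _).trans h1
    rw [div_le_iff₀ hη] at h4
    linarith
  have h5 : ∀ m ∈ Icc 1 X, G m ≤ (if m ≤ M0 then G m else 0) + η * (1 / (m : ℝ)) := by
    intro m hm
    have h6 : 0 ≤ η * (1 / (m : ℝ)) := by positivity
    by_cases hmM : m ≤ M0
    · rw [if_pos hmM]; linarith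
    · rw [if_neg hmM]
      have h7 := h m (by omega)
      rw [div_eq_mul_one_div] at h7
      linarith
  refine (Finset.sum_le_sum h5).trans ?_
  rw [Finset.sum_add_distrib, ← Finset.mul_sum]
  have h6 : ∑ m ∈ Icc 1 X, (if m ≤ M0 then G m else 0) ≤ C0 := by
    rw [← Finset.sum_filter, hC0]
    apply Finset.sum_le_sum_of_subset_of_nonneg
    · intro m hm
      rw [Finset.mem_filter, Finset.mem_Icc] at hm
      rw [Finset.mem_Icc]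
      exact ⟨hm.1.1, hm.2⟩
    · intro m _ _
      exact hG m
  have h7 : ∑ m ∈ Icc 1 X, 1 / (m : ℝ) ≤ 1 + Real.log X := by
    have h8 := harmonic_le_one_add_log X
    rw [harmonic_eq_sum_Icc] at h8
    push_cast at h8
    refine le_trans (le_of_eq ?_) h8
    exact Finset.sum_congr rfl (fun m _ => by rw [one_div])
  have h8 := mul_le_mul_of_nonneg_left h7 hη.le
  nlinarith

theorem CAV_gen (cc : GI → ℂ) (hCG : CG cc) (E0 : Finset ℤ) (hPW : PW cc E0)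
    (t : ℝ) (ht : 0 < t) (η : ℝ) (hη : 0 < η) :
    ∃ h0 : ℝ, 1 ≤ h0 ∧ ∀ h : ℝ, h0 ≤ h → ∃ X0 : ℕ, 2 ≤ X0 ∧ ∀ X : ℕ, X0 ≤ X →
    ∑ m ∈ Icc 1 X, (1 / (m : ℝ) ^ 3) *
      ∑ k ∈ (Icc (-((⌊(m : ℝ) / h⌋₊ : ℕ) : ℤ)) ((⌊(m : ℝ) / h⌋₊ : ℕ) : ℤ)) \ E0,
        fw ⌊(m : ℝ) / h⌋₊ k * ‖sp (pan 0 (t * m)) cc k‖ ^ 2 ≤ η * Real.log X := by
  classical
  obtain ⟨h1, hh1, H⟩ := cum cc hCG E0 hPW (η / (3 * t ^ 2)) (by positivity)
  refine ⟨max 1 (h1 / t), le_max_left _ _, fun h hh => ?_⟩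
  have hh0 : 1 ≤ h := (le_max_left _ _).trans hh
  have hth : h1 ≤ t * h := by
    have := (le_max_right _ _).trans hh
    rw [div_le_iff₀ ht] at this
    linarith
  obtain ⟨N0, hN0, H2⟩ := H (t * h) hth
  obtain ⟨X0, hX0, H3⟩ := CAV_log (fun m => (1 / (m : ℝ) ^ 3) *
      ∑ k ∈ (Icc (-((⌊(m : ℝ) / h⌋₊ : ℕ) : ℤ)) ((⌊(m : ℝ) / h⌋₊ : ℕ) : ℤ)) \ E0,
        fw ⌊(m : ℝ) / h⌋₊ k * ‖sp (pan 0 (t * m)) cc k‖ ^ 2)
    (fun m => mul_nonneg (by positivity) (Finset.sum_nonneg (fun k hk =>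
      mul_nonneg (fw_nonneg (Finset.mem_sdiff.1 hk).1) (by positivity))))
    (η / 3) (by positivity) (⌈N0 / t⌉₊ + 1) (by
      intro m hm
      have hm1 : (1 : ℝ) ≤ m := by exact_mod_cast (by omega : 1 ≤ m)
      have hm0 : (0 : ℝ) < m := by linarith
      have h4 : N0 ≤ t * m := by
        have h5 : N0 / t ≤ (m : ℝ) := (Nat.le_ceil _).trans (by exact_mod_cast (by omega : ⌈N0 / t⌉₊ ≤ m))
        rw [div_le_iff₀ ht] at h5
        linarith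
      have h6 : ((⌊(m : ℝ) / h⌋₊ : ℕ) : ℝ) ≤ t * m / (t * h) := by
        rw [mul_div_mul_left _ _ ht.ne']
        exact Nat.floor_le (by positivity)
      have h7 := H2 (t * m) h4 _ h6
      have h8 : η / (3 * t ^ 2) * (t * m) ^ 2 = η / 3 * m ^ 2 := by
        field_simp
      rw [h8] at h7
      have h9 : η / 3 / (m : ℝ) = (1 / (m : ℝ) ^ 3) * (η / 3 * m ^ 2) := by
        field_simp
      rw [h9]
      exact mul_le_mul_of_nonneg_left h7 (by positivity))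
  refine ⟨X0, hX0, fun X hX => ?_⟩
  have := H3 X hX
  linarith

theorem CAV_gen0 (cc : GI → ℂ) (hCG : CG cc) (hPW : PW cc ∅)
    (t : ℝ) (ht : 0 < t) (η : ℝ) (hη : 0 < η) :
    ∃ h0 : ℝ, 1 ≤ h0 ∧ ∀ h : ℝ, h0 ≤ h → ∃ X0 : ℕ, 2 ≤ X0 ∧ ∀ X : ℕ, X0 ≤ X →
    ∑ m ∈ Icc 1 X, (1 / (m : ℝ) ^ 3) * ms ⌊(m : ℝ) / h⌋₊ (fun k =>
      ‖sp (pan 0 (t * m)) cc k‖ ^ 2) ≤ η * Real.log X := by
  obtain ⟨h0, hh0, H⟩ := CAV_gen cc hCG ∅ hPW t ht η hη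
  refine ⟨h0, hh0, fun h hh => ?_⟩
  obtain ⟨X0, hX0, H2⟩ := H h hh
  refine ⟨X0, hX0, fun X hX => ?_⟩
  have h1 := H2 X hX
  simp only [Finset.sdiff_empty] at h1
  exact h1

theorem CAV_fib (t : ℝ) (ht : 0 < t) (B : ℕ → ℝ) (hB : ∀ x, 0 ≤ B x) (hB0 : B 0 = 0) (X : ℕ) :
    ∑ m ∈ Icc 1 X, (1 / (m : ℝ) ^ 3) * B ⌊t * m⌋₊ ≤
      ((1 / t + 1) * t ^ 3) * ∑ x ∈ Icc 1 ⌊t * X⌋₊, B x / (x : ℝ) ^ 3 := by
  classical
  have hmaps : ∀ m ∈ Icc 1 X, ⌊t * (m : ℝ)⌋₊ ∈ Icc 0 ⌊t * X⌋₊ := by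
    intro m hm
    rw [Finset.mem_Icc] at hm ⊢
    refine ⟨Nat.zero_le _, Nat.floor_le_floor ?_⟩
    have : (m : ℝ) ≤ X := by exact_mod_cast hm.2
    exact mul_le_mul_of_nonneg_left this ht.le
  rw [← Finset.sum_fiberwise_of_maps_to hmaps, Finset.mul_sum]
  have hsub : Icc 1 ⌊t * (X : ℝ)⌋₊ ⊆ Icc 0 ⌊t * (X : ℝ)⌋₊ := by
    intro x hx
    rw [Finset.mem_Icc] at hx ⊢
    omega
  rw [← Finset.sum_subset hsub (by
    intro x hx hx'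
    have h0 : x = 0 := by
      rw [Finset.mem_Icc] at hx hx'
      omega
    subst h0
    apply Finset.sum_eq_zero
    intro m hm
    rw [Finset.mem_filter] at hm
    rw [hm.2, hB0, mul_zero])]
  apply Finset.sum_le_sum
  intro x hx
  rw [Finset.mem_Icc] at hx
  have hx1 : (1 : ℝ) ≤ x := by exact_mod_cast hx.1
  have h1 : ∀ m ∈ (Icc 1 X).filter (fun m : ℕ => ⌊t * (m : ℝ)⌋₊ = x),
      (1 / (m : ℝ) ^ 3) * B ⌊t * m⌋₊ ≤ t ^ 3 * (B x / (x : ℝ) ^ 3) := by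
    intro m hm
    rw [Finset.mem_filter, Finset.mem_Icc] at hm
    have hm1 : (1 : ℝ) ≤ m := by exact_mod_cast hm.1.1
    rw [hm.2]
    have h2 : (x : ℝ) ≤ t * m := by
      rw [← hm.2]
      exact Nat.floor_le (by positivity)
    have h3 : (x : ℝ) ^ 3 ≤ (t * m) ^ 3 := pow_le_pow_left₀ (by positivity) h2 3
    have h4 : 1 / (m : ℝ) ^ 3 ≤ t ^ 3 / (x : ℝ) ^ 3 := by
      rw [div_le_div_iff₀ (by positivity) (by positivity)]
      rw [mul_pow] at h3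
      linarith
    calc (1 / (m : ℝ) ^ 3) * B x ≤ (t ^ 3 / (x : ℝ) ^ 3) * B x :=
          mul_le_mul_of_nonneg_right h4 (hB x)
      _ = _ := by ring
  refine (Finset.sum_le_card_nsmul _ _ _ h1).trans ?_
  rw [nsmul_eq_mul]
  have h5 : (((Icc 1 X).filter (fun m : ℕ => ⌊t * (m : ℝ)⌋₊ = x)).card : ℝ) ≤ 1 / t + 1 := by
    have h6 : (Icc 1 X).filter (fun m : ℕ => ⌊t * (m : ℝ)⌋₊ = x) ⊆
        Ico ⌈(x : ℝ) / t⌉₊ ⌈((x : ℝ) + 1) / t⌉₊ := by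
      intro m hm
      rw [Finset.mem_filter, Finset.mem_Icc] at hm
      rw [Finset.mem_Ico]
      constructor
      · rw [Nat.ceil_le, div_le_iff₀ ht, ← hm.2]
        have := Nat.floor_le (a := t * (m : ℝ)) (by positivity)
        linarith
      · rw [Nat.lt_ceil, lt_div_iff₀ ht, ← hm.2]
        have := Nat.lt_floor_add_one (t * (m : ℝ))
        linarith
    have h7 := Finset.card_le_card h6
    rw [Nat.card_Ico] at h7
    have h8 : ⌈(x : ℝ) / t⌉₊ ≤ ⌈((x : ℝ) + 1) / t⌉₊ :=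
      Nat.ceil_le_ceil (div_le_div_of_nonneg_right (by linarith) ht.le)
    have h9 : ((⌈((x : ℝ) + 1) / t⌉₊ - ⌈(x : ℝ) / t⌉₊ : ℕ) : ℝ)
        = (⌈((x : ℝ) + 1) / t⌉₊ : ℝ) - (⌈(x : ℝ) / t⌉₊ : ℝ) := by
      rw [Nat.cast_sub h8]
    have h10 : (⌈((x : ℝ) + 1) / t⌉₊ : ℝ) < ((x : ℝ) + 1) / t + 1 :=
      Nat.ceil_lt_add_one (by positivity)
    have h11 : (x : ℝ) / t ≤ (⌈(x : ℝ) / t⌉₊ : ℝ) := Nat.le_ceil _
    have h12 : ((x : ℝ) + 1) / t = (x : ℝ) / t + 1 / t := by rw [add_div]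
    have h13 : (((Icc 1 X).filter (fun m : ℕ => ⌊t * (m : ℝ)⌋₊ = x)).card : ℝ) ≤
        ((⌈((x : ℝ) + 1) / t⌉₊ - ⌈(x : ℝ) / t⌉₊ : ℕ) : ℝ) := by exact_mod_cast h7
    rw [h9] at h13
    linarith
  have h14 : 0 ≤ t ^ 3 * (B x / (x : ℝ) ^ 3) := by
    have := hB x
    positivity
  calc (((Icc 1 X).filter (fun m : ℕ => ⌊t * (m : ℝ)⌋₊ = x)).card : ℝ) *
        (t ^ 3 * (B x / (x : ℝ) ^ 3)) ≤ (1 / t + 1) * (t ^ 3 * (B x / (x : ℝ) ^ 3)) :=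
        mul_le_mul_of_nonneg_right h5 h14
    _ = _ := by ring

theorem CAV_coef (D : ℕ) (h4 : 4 ∣ D) (hD : 0 < D) [NeZero (8 * D)] (ψ : GI → ℂ) (hψ : HC D ψ)
    (htriv : ∀ z : GI, Od z → Nat.Coprime (nm z) D → ψ (star z) = ψ z) :
    ∃ c : DirichletCharacter ℂ (8 * D) → ℂ, ∀ z : GI, Od z →
      ψ z = ∑ χ : DirichletCharacter ℂ (8 * D), c χ * χ ((nm z : ℕ) : ZMod (8 * D)) := by
  classical
  set g : ZMod (8 * D) → ℂ := fun b =>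
    if h : ∃ z : GI, Od z ∧ Nat.Coprime (nm z) D ∧ ((nm z : ℕ) : ZMod (8 * D)) = b then
      ψ (Classical.choose h) else 0 with hg
  have hgz : ∀ z : GI, Od z → Nat.Coprime (nm z) D → g ((nm z : ℕ) : ZMod (8 * D)) = ψ z := by
    intro z hz hzD
    have hex : ∃ w : GI, Od w ∧ Nat.Coprime (nm w) D ∧
        ((nm w : ℕ) : ZMod (8 * D)) = ((nm z : ℕ) : ZMod (8 * D)) := ⟨z, hz, hzD, rfl⟩
    have h1 := Classical.choose_spec hex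
    simp only [hg]
    rw [dif_pos hex]
    exact norm_fn D h4 hD ψ hψ htriv _ _ h1.1 hz h1.2.1 hzD
      ((ZMod.natCast_eq_natCast_iff _ _ _).1 h1.2.2)
  have hφ : ((8 * D).totient : ℂ) ≠ 0 := by
    have : 0 < (8 * D).totient := Nat.totient_pos.2 (by omega)
    exact_mod_cast this.ne'
  refine ⟨fun χ => (1 / ((8 * D).totient : ℂ)) *
    ∑ a : ZMod (8 * D), (if IsUnit a then g a * χ a⁻¹ else 0), fun z hz => ?_⟩
  by_cases hzD : Nat.Coprime (nm z) D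
  · have hodd : Nat.Coprime (nm z) (8 * D) := by
      apply Nat.Coprime.mul_right _ hzD
      have h1 : nm z % 4 = 1 := Od_nm hz
      have h2 : Nat.Coprime (nm z) 2 := by
        rw [Nat.coprime_comm, Nat.Prime.coprime_iff_not_dvd Nat.prime_two]
        omega
      have : (8 : ℕ) = 2 ^ 3 := by norm_num
      rw [this]
      exact Nat.Coprime.pow_right 3 h2
    have hu : IsUnit ((nm z : ℕ) : ZMod (8 * D)) := (ZMod.isUnit_iff_coprime _ _).2 hodd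
    rw [← hgz z hz hzD]
    set b : ZMod (8 * D) := ((nm z : ℕ) : ZMod (8 * D)) with hb
    have h1 : ∀ χ : DirichletCharacter ℂ (8 * D), (1 / ((8 * D).totient : ℂ)) *
        (∑ a : ZMod (8 * D), (if IsUnit a then g a * χ a⁻¹ else 0)) * χ b =
        ∑ a : ZMod (8 * D), (1 / ((8 * D).totient : ℂ)) *
          (if IsUnit a then g a * (χ a⁻¹ * χ b) else 0) := by
      intro χ
      rw [mul_assoc, Finset.sum_mul, Finset.mul_sum]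
      apply Finset.sum_congr rfl
      intro a _
      split_ifs <;> ring
    rw [Finset.sum_congr rfl (fun χ _ => h1 χ), Finset.sum_comm]
    have h2 : ∀ a : ZMod (8 * D), ∑ χ : DirichletCharacter ℂ (8 * D),
        (1 / ((8 * D).totient : ℂ)) * (if IsUnit a then g a * (χ a⁻¹ * χ b) else 0) =
        if a = b then g b else 0 := by
      intro a
      by_cases ha : IsUnit a
      · simp only [if_pos ha]
        rw [← Finset.mul_sum, ← Finset.mul_sum, DirichletCharacter.sum_char_inv_mul_char_eq ℂ ha b]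
        by_cases hab : a = b
        · rw [if_pos hab, if_pos hab, hab]
          field_simp
        · rw [if_neg hab, if_neg hab]
          ring
      · have hab : a ≠ b := fun h => ha (h ▸ hu)
        simp only [if_neg ha, if_neg hab, mul_zero, Finset.sum_const_zero]
    rw [Finset.sum_congr rfl (fun a _ => h2 a), Finset.sum_ite_eq' Finset.univ b]
    simp
  · rw [hψ.cop z hz hzD]
    symm
    apply Finset.sum_eq_zero
    intro χ _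
    have hnu : ¬ IsUnit ((nm z : ℕ) : ZMod (8 * D)) := by
      rw [ZMod.isUnit_iff_coprime]
      intro h
      exact hzD (Nat.Coprime.coprime_mul_left_right h)
    rw [MulChar.map_nonunit χ hnu, mul_zero]

theorem CAV_sum (D : ℕ) [NeZero (8 * D)] (ζ : ℂ) (ψ : GI → ℂ)
    (c : DirichletCharacter ℂ (8 * D) → ℂ)
    (hc : ∀ z : GI, Od z →
      ψ z = ∑ χ : DirichletCharacter ℂ (8 * D), c χ * χ ((nm z : ℕ) : ZMod (8 * D)))
    (x : ℝ) (hx : 0 ≤ x) :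
    ∑ z ∈ pan 0 x, fz ζ (nm z) * ψ z =
      ∑ χ : DirichletCharacter ℂ (8 * D), c χ * (2 * ∑ n ∈ Icc 1 ⌊x⌋₊, aa ζ χ n) := by
  rw [PMU_fib le_rfl hx]
  have h1 : (Icc 1 ⌊x⌋₊).filter (fun n : ℕ => (0 : ℝ) < (n : ℝ)) = Icc 1 ⌊x⌋₊ := by
    apply Finset.filter_true_of_mem
    intro n hn
    rw [Finset.mem_Icc] at hn
    exact_mod_cast hn.1
  rw [h1]
  have h2 : ∀ χ : DirichletCharacter ℂ (8 * D), c χ * (2 * ∑ n ∈ Icc 1 ⌊x⌋₊, aa ζ χ n) =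
      ∑ n ∈ Icc 1 ⌊x⌋₊, c χ * (2 * aa ζ χ n) := by
    intro χ
    rw [Finset.mul_sum, Finset.mul_sum]
  rw [Finset.sum_congr rfl (fun χ _ => h2 χ), Finset.sum_comm]
  apply Finset.sum_congr rfl
  intro n _
  have h3 : ∀ z ∈ pn n, fz ζ (nm z) * ψ z =
      ∑ χ : DirichletCharacter ℂ (8 * D), c χ * (fz ζ n * χ (n : ZMod (8 * D))) := by
    intro z hz
    rw [mem_pn] at hz
    rw [hc z hz.1, hz.2.2, Finset.mul_sum]
    exact Finset.sum_congr rfl (fun χ _ => by ring)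
  rw [Finset.sum_congr rfl h3, Finset.sum_const, nsmul_eq_mul, Finset.mul_sum]
  apply Finset.sum_congr rfl
  intro χ _
  unfold aa
  rw [PMU_bb0]
  push_cast
  ring

theorem CAV_k0 (ζ : ℂ) (hζ : ‖ζ‖ = 1) (hζ1 : ζ ≠ 1) (D : ℕ) (h4 : 4 ∣ D) (hD : 0 < D)
    (ψ : GI → ℂ) (hψ : HC D ψ)
    (htriv : ∀ z : GI, Od z → Nat.Coprime (nm z) D → ψ (star z) = ψ z)
    (t : ℝ) (ht : 0 < t) (η : ℝ) (hη : 0 < η) :
    ∃ X0 : ℕ, 2 ≤ X0 ∧ ∀ X : ℕ, X0 ≤ X →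
    ∑ m ∈ Icc 1 X, (1 / (m : ℝ) ^ 3) * ‖∑ z ∈ pan 0 (t * m), fz ζ (nm z) * ψ z‖ ^ 2
      ≤ η * Real.log X := by
  classical
  have : NeZero (8 * D) := ⟨by omega⟩
  obtain ⟨c, hc⟩ := CAV_coef D h4 hD ψ hψ htriv
  set W : ℝ := (Fintype.card (DirichletCharacter ℂ (8 * D)) : ℝ) *
    ∑ χ : DirichletCharacter ℂ (8 * D), (4 * ‖c χ‖ ^ 2 * ((1 / t + 1) * t ^ 3)) with hW
  have hW0 : 0 ≤ W := by
    rw [hW]
    apply mul_nonneg (Nat.cast_nonneg _)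
    apply Finset.sum_nonneg
    intro χ _
    positivity
  have hε : 0 < η / (2 * (W + 1)) := by positivity
  have hk := fun χ : DirichletCharacter ℂ (8 * D) => k0avg (8 * D) χ ζ hζ hζ1 _ hε
  choose X1 hX12 hX1 using hk
  set X2 : ℕ := ∑ χ : DirichletCharacter ℂ (8 * D), X1 χ with hX2
  have hX2' : ∀ χ, X1 χ ≤ X2 := fun χ =>
    Finset.single_le_sum (f := X1) (fun _ _ => Nat.zero_le _) (Finset.mem_univ χ)
  refine ⟨max 2 (max ⌈(X2 : ℝ) / t⌉₊ ⌈t⌉₊), le_max_left _ _, fun X hX => ?_⟩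
  have hXa : 2 ≤ X := (le_max_left _ _).trans hX
  have hXb : (X2 : ℝ) ≤ t * X := by
    have h1 : ⌈(X2 : ℝ) / t⌉₊ ≤ X := ((le_max_left _ _).trans (le_max_right _ _)).trans hX
    have h2 : (X2 : ℝ) / t ≤ X := (Nat.le_ceil _).trans (by exact_mod_cast h1)
    rw [div_le_iff₀ ht] at h2
    linarith
  have hXc : t ≤ X := by
    have h1 : ⌈t⌉₊ ≤ X := ((le_max_right _ _).trans (le_max_right _ _)).trans hX
    exact (Nat.le_ceil _).trans (by exact_mod_cast h1)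
  have hXR : (2 : ℝ) ≤ X := by exact_mod_cast hXa
  have hlogX : 0 < Real.log X := Real.log_pos (by linarith)
  set Y : ℕ := ⌊t * (X : ℝ)⌋₊ with hY
  have hYX2 : X2 ≤ Y := Nat.le_floor hXb
  -- pointwise
  have hpt : ∀ m ∈ Icc 1 X, (1 / (m : ℝ) ^ 3) * ‖∑ z ∈ pan 0 (t * m), fz ζ (nm z) * ψ z‖ ^ 2 ≤
      (Fintype.card (DirichletCharacter ℂ (8 * D)) : ℝ) *
      ∑ χ : DirichletCharacter ℂ (8 * D), (4 * ‖c χ‖ ^ 2 *
        ((1 / (m : ℝ) ^ 3) * ‖∑ n ∈ Icc 1 ⌊t * (m : ℝ)⌋₊, aa ζ χ n‖ ^ 2)) := by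
    intro m _
    rw [CAV_sum D ζ ψ c hc (t * m) (by positivity)]
    have h1 : ‖∑ χ : DirichletCharacter ℂ (8 * D),
        c χ * (2 * ∑ n ∈ Icc 1 ⌊t * (m : ℝ)⌋₊, aa ζ χ n)‖ ^ 2 ≤
        (Fintype.card (DirichletCharacter ℂ (8 * D)) : ℝ) *
        ∑ χ : DirichletCharacter ℂ (8 * D),
          ‖c χ * (2 * ∑ n ∈ Icc 1 ⌊t * (m : ℝ)⌋₊, aa ζ χ n)‖ ^ 2 := by
      have h2 := norm_sum_le Finset.univ (fun χ : DirichletCharacter ℂ (8 * D) =>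
        c χ * (2 * ∑ n ∈ Icc 1 ⌊t * (m : ℝ)⌋₊, aa ζ χ n))
      refine (pow_le_pow_left₀ (norm_nonneg _) h2 2).trans ?_
      exact sq_sum_le_card_mul_sum_sq
    refine (mul_le_mul_of_nonneg_left h1 (by positivity)).trans (le_of_eq ?_)
    rw [mul_left_comm, Finset.mul_sum]
    congr 1
    apply Finset.sum_congr rfl
    intro χ _
    rw [norm_mul, norm_mul]
    have h3 : ‖(2 : ℂ)‖ = 2 := by norm_num
    rw [h3]
    ring
  refine (Finset.sum_le_sum hpt).trans ?_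
  rw [← Finset.mul_sum, Finset.sum_comm]
  have h5 : ∀ χ : DirichletCharacter ℂ (8 * D),
      ∑ m ∈ Icc 1 X, (4 * ‖c χ‖ ^ 2 *
        ((1 / (m : ℝ) ^ 3) * ‖∑ n ∈ Icc 1 ⌊t * (m : ℝ)⌋₊, aa ζ χ n‖ ^ 2)) ≤
      (4 * ‖c χ‖ ^ 2 * ((1 / t + 1) * t ^ 3)) * (η / (2 * (W + 1)) * (2 * Real.log X)) := by
    intro χ
    rw [← Finset.mul_sum, mul_assoc (4 * ‖c χ‖ ^ 2)]
    apply mul_le_mul_of_nonneg_left _ (by positivity)
    have h6 := CAV_fib t ht (fun x => ‖∑ n ∈ Icc 1 x, aa ζ χ n‖ ^ 2) (fun x => by positivity)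
      (by simp) X
    refine h6.trans ?_
    apply mul_le_mul_of_nonneg_left _ (by positivity)
    have h7 := hX1 χ Y ((hX2' χ).trans hYX2)
    refine h7.trans ?_
    apply mul_le_mul_of_nonneg_left _ hε.le
    have hY1 : 2 ≤ Y := (hX12 χ).trans ((hX2' χ).trans hYX2)
    have hY0 : (0 : ℝ) < Y := by
      have : (2 : ℝ) ≤ Y := by exact_mod_cast hY1
      linarith
    have h8 : (Y : ℝ) ≤ X * X := by
      have h9 : (Y : ℝ) ≤ t * X := Nat.floor_le (by positivity)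
      have h10 : t * X ≤ X * X := mul_le_mul_of_nonneg_right hXc (by positivity)
      linarith
    have h11 : Real.log Y ≤ Real.log (X * X) := Real.log_le_log hY0 h8
    rw [Real.log_mul (by positivity) (by positivity)] at h11
    linarith
  refine (mul_le_mul_of_nonneg_left (Finset.sum_le_sum (fun χ _ => h5 χ))
    (Nat.cast_nonneg _)).trans ?_
  rw [← Finset.sum_mul, ← mul_assoc, ← hW]
  have h12 : W * (η / (2 * (W + 1)) * (2 * Real.log X)) = (W / (W + 1)) * (η * Real.log X) := by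
    field_simp
  rw [h12]
  have h13 : W / (W + 1) ≤ 1 := by
    rw [div_le_one (by positivity)]
    linarith
  have h14 : 0 ≤ η * Real.log X := by positivity
  nlinarith

theorem CAV_ms (K : ℕ) (F : ℤ → ℝ) :
    ms K F = ∑ k ∈ (Icc (-(K : ℤ)) (K : ℤ)) \ {0}, fw K k * F k + F 0 := by
  classical
  unfold ms
  have h0mem : (0 : ℤ) ∈ Icc (-(K : ℤ)) (K : ℤ) := by
    rw [Finset.mem_Icc]
    constructor <;> simp
  rw [Finset.sdiff_singleton_eq_erase]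
  have h := Finset.sum_erase_add (Icc (-(K : ℤ)) (K : ℤ)) (fun k => fw K k * F k) h0mem
  rw [← h, fw_zero, one_mul]

theorem CAV_sp0 (s : Finset GI) (c : GI → ℂ) : sp s c 0 = ∑ z ∈ s, c z := by
  unfold sp
  apply Finset.sum_congr rfl
  intro z _
  rw [zpow_zero, mul_one]

theorem cavg_even (ζ : ℂ) (hζ : ‖ζ‖ = 1) (hζ1 : ζ ≠ 1) (D : ℕ) (h4 : 4 ∣ D) (hD : 0 < D)
    (ψ : GI → ℂ) (hψ : HC D ψ) (t : ℝ) (ht : 0 < t) (η : ℝ) (hη : 0 < η) :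
    ∃ h0 : ℝ, 1 ≤ h0 ∧ ∀ h : ℝ, h0 ≤ h → ∃ X0 : ℕ, 2 ≤ X0 ∧ ∀ X : ℕ, X0 ≤ X →
    ∑ m ∈ Icc 1 X, (1 / (m : ℝ) ^ 3) * ms ⌊(m : ℝ) / h⌋₊ (fun k =>
      ‖sp (pan 0 (t * m)) (fun z => fz ζ (nm z) * ψ z) k‖ ^ 2) ≤ η * Real.log X := by
  classical
  have hCG : CG (fun z => fz ζ (nm z) * ψ z) := CG_of (fz ζ) (CAV_CM hζ) (HC_CE hψ)
  by_cases hn : ∃ z : GI, Od z ∧ Nat.Coprime (nm z) D ∧ sh ψ z ≠ 1
  · exact CAV_gen0 _ hCG (pwP_nontriv (fz ζ) (CAV_CM hζ) D h4 hD ψ hψ hn) t ht η hη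
  · have htriv : ∀ z : GI, Od z → Nat.Coprime (nm z) D → ψ (star z) = ψ z := by
      intro z hz hzD
      have h1 : sh ψ z = 1 := by
        by_contra h2
        exact hn ⟨z, hz, hzD, h2⟩
      unfold sh at h1
      have h2 : ‖ψ (star z)‖ = 1 := hψ.unit (star z) (Od_star hz) (by rw [nm_star]; exact hzD)
      have h3 : (starRingEnd ℂ) (ψ (star z)) * ψ (star z) = 1 := by
        rw [mul_comm, Complex.mul_conj, Complex.normSq_eq_norm_sq, h2]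
        norm_num
      calc ψ (star z) = (ψ z * (starRingEnd ℂ) (ψ (star z))) * ψ (star z) := by rw [h1, one_mul]
        _ = ψ z * ((starRingEnd ℂ) (ψ (star z)) * ψ (star z)) := by ring
        _ = ψ z := by rw [h3, mul_one]
    obtain ⟨h0, hh0, H⟩ := CAV_gen _ hCG {0} (pwP_even (fz ζ) (CAV_CM hζ) D h4 hD ψ hψ) t ht
      (η / 2) (by positivity)
    obtain ⟨X1, hX1, H1⟩ := CAV_k0 ζ hζ hζ1 D h4 hD ψ hψ htriv t ht (η / 2) (by positivity)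
    refine ⟨h0, hh0, fun h hh => ?_⟩
    obtain ⟨X2, hX2, H2⟩ := H h hh
    refine ⟨max X1 X2, hX1.trans (le_max_left _ _), fun X hX => ?_⟩
    have h5 := H1 X ((le_max_left _ _).trans hX)
    have h6 := H2 X ((le_max_right _ _).trans hX)
    have h7 : ∀ m ∈ Icc 1 X, (1 / (m : ℝ) ^ 3) * ms ⌊(m : ℝ) / h⌋₊ (fun k =>
        ‖sp (pan 0 (t * m)) (fun z => fz ζ (nm z) * ψ z) k‖ ^ 2) =
        (1 / (m : ℝ) ^ 3) *
          ∑ k ∈ (Icc (-((⌊(m : ℝ) / h⌋₊ : ℕ) : ℤ)) ((⌊(m : ℝ) / h⌋₊ : ℕ) : ℤ)) \ {0},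
          fw ⌊(m : ℝ) / h⌋₊ k * ‖sp (pan 0 (t * m)) (fun z => fz ζ (nm z) * ψ z) k‖ ^ 2 +
        (1 / (m : ℝ) ^ 3) * ‖∑ z ∈ pan 0 (t * m), fz ζ (nm z) * ψ z‖ ^ 2 := by
      intro m _
      rw [CAV_ms, mul_add, CAV_sp0]
    rw [Finset.sum_congr rfl h7, Finset.sum_add_distrib]
    linarith

theorem cavg_odd (ζ : ℂ) (hζ : ‖ζ‖ = 1) (D : ℕ) (h4 : 4 ∣ D) (hD : 0 < D)
    (ψ : GI → ℂ) (hψ : HC D ψ) (t : ℝ) (ht : 0 < t) (η : ℝ) (hη : 0 < η) :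
    ∃ h0 : ℝ, 1 ≤ h0 ∧ ∀ h : ℝ, h0 ≤ h → ∃ X0 : ℕ, 2 ≤ X0 ∧ ∀ X : ℕ, X0 ≤ X →
    ∑ m ∈ Icc 1 X, (1 / (m : ℝ) ^ 3) * ms ⌊(m : ℝ) / h⌋₊ (fun k =>
      ‖sp (pan 0 (t * m)) (fun z => fz ζ (nm z) * (ψ z * ut z)) k‖ ^ 2) ≤ η * Real.log X :=
  CAV_gen0 _ (CG_of (fz ζ) (CAV_CM hζ) (CE_mul (HC_CE hψ) CE_ut))
    (pwP_odd (fz ζ) (CAV_CM hζ) D h4 hD ψ hψ) t ht η hη

end Pool.Agent.FCH
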