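import Pool.Agent.FCH.Hc

set_option autoImplicit false

/-! Module ChD: expansion of an even periodic function on the elements coprime to `D` in the characters `HC D`.
Let `G` be the finite set of classes mod `D` of the `Od z` coprime to `D` (a group under multiplication: `Od` is a condition mod 2, `4 ∣ D`), modulo `± 1`.  Characters of the finite abelian group `G`
separate points: Mathlib duality for finite abelian groups (`AddChar`, `MonoidHom` to `ℂˣ`/`rootsOfUnity`, `CommGroup.exists_apply_ne_one_of_hasEnoughRootsOfUnity`,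
`AddChar.sum_apply_eq_ite` ...).  With `ι = ` all characters of `G`, `c_ψ = |G|⁻¹ ∑_{x ∈ G} g(x) conj ψ(x)`.  A character of `G` gives `ψ : GI → ℂ` (put `0` off the `Od z` coprime to `D`).
Convenient construction: `G = (GI ⧸ (D))ˣ` (a finite commutative group), a character `φ` of it; expand the function `x ↦ g(x)` if `x` is the class of an `Od` element, else `0`, in the characters of `(GI/D)ˣ`,
restrict to `Od`, and use that `g` is even to replace each `φ(z)` by `(φ(z) + φ(-z))/2 ∈ {φ(z), 0}`. -/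

open Finset

namespace Pool.Agent.FCH

open Pool.Agent.MRS hiding Good

/-- orthogonality for the multiplicative characters of a finite commutative ring -/
theorem ChD_sum {R : Type} [CommRing R] [Finite R] [Fintype (MulChar R ℂ)] (a : R) :
    open Classical in
    ∑ χ : MulChar R ℂ, χ a = if a = 1 then (Fintype.card (MulChar R ℂ) : ℂ) else 0 := by
  classical
  have : Finite Rˣ := inferInstance
  have : NeZero (Monoid.exponent Rˣ) := ⟨Monoid.exponent_ne_zero_of_finite⟩
  split_ifs with h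
  · rw [h]
    simp
  · obtain ⟨χ, hχ⟩ := MulChar.exists_apply_ne_one_of_hasEnoughRootsOfUnity R ℂ h
    refine eq_zero_of_mul_eq_self_left hχ ?_
    simp only [Finset.mul_sum, ← MulChar.mul_apply]
    exact Fintype.sum_bijective _ (Group.mulLeft_bijective χ) _ _ fun χ' ↦ rfl

/-- Fourier expansion on the units -/
theorem ChD_fourier {R : Type} [CommRing R] [Finite R] [Fintype (MulChar R ℂ)] (f : R → ℂ) :
    ∃ c : MulChar R ℂ → ℂ, ∀ b : R, IsUnit b → f b = ∑ χ : MulChar R ℂ, c χ * χ b := by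
  classical
  have := Fintype.ofFinite R
  have hN : (Fintype.card (MulChar R ℂ) : ℂ) ≠ 0 := by
    exact_mod_cast Fintype.card_ne_zero
  refine ⟨fun χ => (1 / (Fintype.card (MulChar R ℂ) : ℂ)) *
    ∑ u : Rˣ, f (u : R) * χ ((u⁻¹ : Rˣ) : R), ?_⟩
  rintro b ⟨v, rfl⟩
  have h1 : ∀ χ : MulChar R ℂ, (1 / (Fintype.card (MulChar R ℂ) : ℂ)) *
      (∑ u : Rˣ, f (u : R) * χ ((u⁻¹ : Rˣ) : R)) * χ (v : R) =
      ∑ u : Rˣ, (1 / (Fintype.card (MulChar R ℂ) : ℂ)) * f (u : R) * χ (((u⁻¹ * v : Rˣ)) : R) := by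
    intro χ
    rw [mul_sum, sum_mul]
    refine sum_congr rfl (fun u _ => ?_)
    rw [Units.val_mul, map_mul]
    ring
  rw [sum_congr rfl (fun χ _ => h1 χ), sum_comm]
  have h2 : ∀ u : Rˣ, ∑ χ : MulChar R ℂ, (1 / (Fintype.card (MulChar R ℂ) : ℂ)) * f (u : R) *
      χ (((u⁻¹ * v : Rˣ)) : R) = if u = v then f (u : R) else 0 := by
    intro u
    rw [← mul_sum, ChD_sum]
    by_cases h : u = v
    · rw [if_pos h, if_pos (by rw [h]; simp)]
      field_simp
    · rw [if_neg h, if_neg, mul_zero]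
      intro h'
      apply h
      have : (u⁻¹ * v : Rˣ) = 1 := Units.ext h'
      exact (inv_mul_eq_one.1 this)
  rw [sum_congr rfl (fun u _ => h2 u), sum_ite_eq' univ v, if_pos (mem_univ _)]

theorem ChD_norm {R : Type} [CommRing R] [Finite R] (χ : MulChar R ℂ) {a : R} (ha : IsUnit a) :
    ‖χ a‖ = 1 := by
  classical
  obtain ⟨u, rfl⟩ := ha
  have := Fintype.ofFinite Rˣ
  have h1 : (χ (u : R)) ^ (Fintype.card Rˣ) = 1 := by
    rw [← map_pow, ← Units.val_pow_eq_pow_val, pow_card_eq_one]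
    simp
  exact Complex.norm_eq_one_of_pow_eq_one h1 Fintype.card_ne_zero

theorem ChD_norm_le {R : Type} [CommRing R] [Finite R] (χ : MulChar R ℂ) (a : R) :
    ‖χ a‖ ≤ 1 := by
  by_cases h : IsUnit a
  · exact (ChD_norm χ h).le
  · rw [χ.map_nonunit h, norm_zero]
    exact zero_le_one

theorem ChD_neg {R : Type} [CommRing R] (χ : MulChar R ℂ) (x : R) : χ (-x) = χ (-1) * χ x := by
  rw [← map_mul, neg_one_mul]

theorem class_expand (D : ℕ) (h4 : 4 ∣ D) (hD : 0 < D) (g : GI → ℂ)
    (hper : ∀ z w : GI, Od z → Od w → cg D z w → g z = g w) (heven : ∀ z : GI, Od z → g (-z) = g z) :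
    ∃ (n : ℕ) (ψ : Fin n → GI → ℂ) (c : Fin n → ℂ), (∀ i, HC D (ψ i)) ∧
      ∀ z : GI, Od z → Nat.Coprime (nm z) D → g z = ∑ i, c i * ψ i z := by
  classical
  set I : Ideal GI := Ideal.span {((D : ℤ) : GI)} with hI
  have hmk : ∀ z w : GI, Ideal.Quotient.mk I z = Ideal.Quotient.mk I w ↔ cg D z w := by
    intro z w
    rw [Ideal.Quotient.eq, hI, Ideal.mem_span_singleton, Zsqrtd.intCast_dvd, Zsqrtd.re_sub, Zsqrtd.im_sub]
    rfl
  have hfin : Finite (GI ⧸ I) := by
    refine Finite.of_surjective (fun p : Fin D × Fin D =>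
      Ideal.Quotient.mk I (⟨((p.1 : ℕ) : ℤ), ((p.2 : ℕ) : ℤ)⟩ : GI)) ?_
    intro x
    obtain ⟨z, rfl⟩ := Ideal.Quotient.mk_surjective x
    have hD' : (0 : ℤ) < D := by exact_mod_cast hD
    have a1 := Int.emod_nonneg z.re hD'.ne'
    have a2 := Int.emod_lt_of_pos z.re hD'
    have a3 := Int.emod_nonneg z.im hD'.ne'
    have a4 := Int.emod_lt_of_pos z.im hD'
    refine ⟨(⟨(z.re % D).toNat, by omega⟩, ⟨(z.im % D).toNat, by omega⟩), ?_⟩
    rw [hmk]
    unfold cg
    simp only [Int.toNat_of_nonneg a1, Int.toNat_of_nonneg a3]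
    refine ⟨⟨-(z.re / D), ?_⟩, ⟨-(z.im / D), ?_⟩⟩
    · have := Int.emod_add_mul_ediv z.re D
      linarith
    · have := Int.emod_add_mul_ediv z.im D
      linarith
  have hunit : ∀ z : GI, IsUnit (Ideal.Quotient.mk I z) ↔ Nat.Coprime (nm z) D := by
    intro z
    constructor
    · rintro ⟨u, hu⟩
      obtain ⟨w, hw⟩ := Ideal.Quotient.mk_surjective ((u⁻¹ : (GI ⧸ I)ˣ) : GI ⧸ I)
      have h1 : Ideal.Quotient.mk I (z * w) = Ideal.Quotient.mk I 1 := by
        rw [map_mul, ← hu, hw, map_one]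
        exact Units.mul_inv u
      rw [hmk] at h1
      obtain ⟨⟨s, hs⟩, ⟨t, ht⟩⟩ := h1
      rw [Zsqrtd.re_one] at hs
      rw [Zsqrtd.im_one] at ht
      have h2 : ((nm z : ℤ) * nm w) = 1 + D * (2 * s + D * s ^ 2 + D * t ^ 2) := by
        have h3 : (nm (z * w) : ℤ) = (z * w).re ^ 2 + (z * w).im ^ 2 := nm_int _
        rw [nm_mul] at h3
        push_cast at h3
        rw [h3]
        have e1 : (z * w).re = 1 + D * s := by linarith
        have e2 : (z * w).im = D * t := by linarith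
        rw [e1, e2]
        ring
      rw [← Nat.isCoprime_iff_coprime]
      exact ⟨nm w, -(2 * s + D * s ^ 2 + D * t ^ 2), by linarith⟩
    · intro h
      obtain ⟨s, t, hst⟩ := (Nat.isCoprime_iff_coprime.2 h : IsCoprime (nm z : ℤ) (D : ℤ))
      have h1 : Ideal.Quotient.mk I (z * (star z * (s : GI))) = Ideal.Quotient.mk I 1 := by
        rw [hmk]
        have e1 : z * (star z * (s : GI)) = (((nm z : ℤ) * s : ℤ) : GI) := by
          have e2 : z * star z = ((nm z : ℤ) : GI) := by
            rw [nm_int]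
            ext
            · simp only [Zsqrtd.re_mul, Zsqrtd.re_star, Zsqrtd.im_star, Zsqrtd.re_intCast]; ring
            · simp only [Zsqrtd.im_mul, Zsqrtd.re_star, Zsqrtd.im_star, Zsqrtd.im_intCast]; ring
          rw [← mul_assoc, e2]
          push_cast
          ring
        rw [e1]
        unfold cg
        rw [Zsqrtd.re_intCast, Zsqrtd.im_intCast, Zsqrtd.re_one, Zsqrtd.im_one]
        exact ⟨⟨-t, by linarith⟩, ⟨0, by ring⟩⟩
      rw [map_mul, map_one] at h1
      exact IsUnit.of_mul_eq_one _ h1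
  have : Finite (MulChar (GI ⧸ I) ℂ) := inferInstance
  have := Fintype.ofFinite (MulChar (GI ⧸ I) ℂ)
  -- the function on the quotient
  set f : GI ⧸ I → ℂ := fun a => if h : ∃ z : GI, Od z ∧ Ideal.Quotient.mk I z = a then
    g (Classical.choose h) else 0 with hf
  have hfg : ∀ z : GI, Od z → f (Ideal.Quotient.mk I z) = g z := by
    intro z hz
    have hex : ∃ w : GI, Od w ∧ Ideal.Quotient.mk I w = Ideal.Quotient.mk I z := ⟨z, hz, rfl⟩
    simp only [hf]
    rw [dif_pos hex]
    obtain ⟨h1, h2⟩ := Classical.choose_spec hex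
    exact hper _ _ h1 hz ((hmk _ _).1 h2)
  obtain ⟨c, hc⟩ := ChD_fourier f
  -- the even characters
  set S : Finset (MulChar (GI ⧸ I) ℂ) := univ.filter (fun χ => χ (-1) = 1) with hS
  have hHC : ∀ χ ∈ S, HC D (fun z => χ (Ideal.Quotient.mk I z)) := by
    intro χ hχ
    rw [hS, mem_filter] at hχ
    refine ⟨?_, ?_, ?_, ?_, ?_, ?_, ?_⟩
    · intro z w _ _
      simp only [map_mul]
    · intro z _
      simp only [map_neg]
      rw [ChD_neg, hχ.2, one_mul]
    · intro z w _ _ h
      show χ (Ideal.Quotient.mk I z) = χ (Ideal.Quotient.mk I w)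
      rw [(hmk z w).2 h]
    · simp only [map_one]
    · intro z
      exact ChD_norm_le χ _
    · intro z _ h
      exact χ.map_nonunit (fun h' => h ((hunit z).1 h'))
    · intro z _ h
      exact ChD_norm χ ((hunit z).2 h)
  have hsum : ∀ z : GI, Od z → Nat.Coprime (nm z) D →
      g z = ∑ χ ∈ S, c χ * χ (Ideal.Quotient.mk I z) := by
    intro z hz hcop
    have h1 : g z = ∑ χ : MulChar (GI ⧸ I) ℂ, c χ * χ (Ideal.Quotient.mk I z) := by
      rw [← hfg z hz]
      exact hc _ ((hunit z).2 hcop)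
    have h2 : g z = ∑ χ : MulChar (GI ⧸ I) ℂ, c χ * χ (Ideal.Quotient.mk I (-z)) := by
      rw [← heven z hz, ← hfg (-z) (Od_neg hz)]
      exact hc _ ((hunit (-z)).2 (by rw [nm_neg]; exact hcop))
    have h3 : g z = ∑ χ : MulChar (GI ⧸ I) ℂ,
        (if χ (-1) = 1 then c χ * χ (Ideal.Quotient.mk I z) else 0) := by
      have h4 : g z = (1 / 2) * (g z + g z) := by ring
      rw [h4]
      nth_rewrite 1 [h1]
      rw [h2, ← sum_add_distrib, mul_sum]
      refine sum_congr rfl (fun χ _ => ?_)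
      have h5 : χ (Ideal.Quotient.mk I (-z)) = χ (-1) * χ (Ideal.Quotient.mk I z) := by
        rw [map_neg, ChD_neg]
      have h6 : χ (-1) = 1 ∨ χ (-1) = -1 := by
        have h7 : χ (-1) * χ (-1) = 1 := by
          rw [← map_mul, neg_one_mul, neg_neg, map_one]
        exact mul_self_eq_one_iff.1 h7
      rw [h5]
      rcases h6 with h6 | h6
      · rw [if_pos h6, h6]
        ring
      · rw [if_neg (by rw [h6]; norm_num), h6]
        ring
    rw [h3, hS, sum_filter]
  -- reindex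
  let e := S.equivFin
  refine ⟨S.card, fun i z => ((e.symm i : S) : MulChar (GI ⧸ I) ℂ) (Ideal.Quotient.mk I z),
    fun i => c ((e.symm i : S) : MulChar (GI ⧸ I) ℂ), ?_, ?_⟩
  · intro i
    exact hHC _ (e.symm i).2
  · intro z hz hcop
    rw [hsum z hz hcop, ← sum_coe_sort S (fun χ => c χ * χ (Ideal.Quotient.mk I z))]
    exact (Equiv.sum_comp e.symm (fun χ : S => c (χ : MulChar (GI ⧸ I) ℂ) *
      (χ : MulChar (GI ⧸ I) ℂ) (Ideal.Quotient.mk I z))).symm

end Pool.Agent.FCH
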