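import Pool.Agent.FCH.Base
import Pool.Agent.MRS.LCount

set_option autoImplicit false

/-! Module CntC: `MRS.count_small` in residue classes mod `D` (`4 ∣ D`).
Port of the proof of `MRS.count_small` (LCount.lean): replace the squares `SQ z` of side 2 around the points of `Od` by the squares of side `D` around the
points `z ≡ ρ (mod D)` (they tile the plane), area `D²`: `∑ u(z)^κ = D^{-2} ∫_{disc} U(w)^κ dw + error`, error per point `≤ |κ| · 4 D/|z|`, boundary squares `≤ C D √Y`...;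
`∫_{disc} U^κ = 0` for `κ ≠ 0` (`LCT_int_disc`), `= π Y` for `κ = 0` (`LCT_int_disc0`).  `K` may depend on `D`. -/

open Finset MeasureTheory

namespace Pool.Agent.FCH

open Pool.Agent.MRS hiding Good

/-- the square of side `D` around `z` -/
def CntC_SQ (D : ℕ) (z : GI) : Set ℂ :=
  {w : ℂ | (z.re : ℝ) - D / 2 ≤ w.re ∧ w.re < z.re + D / 2 ∧ (z.im : ℝ) - D / 2 ≤ w.im ∧
    w.im < z.im + D / 2}

theorem CntC_SQ_eq (D : ℕ) (z : GI) : CntC_SQ D z = Complex.measurableEquivRealProd ⁻¹'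
    ((Set.Ico ((z.re : ℝ) - D / 2) (z.re + D / 2)) ×ˢ (Set.Ico ((z.im : ℝ) - D / 2) (z.im + D / 2))) := by
  ext w
  simp [CntC_SQ, Complex.measurableEquivRealProd, and_assoc]

theorem CntC_SQ_meas (D : ℕ) (z : GI) : MeasurableSet (CntC_SQ D z) := by
  rw [CntC_SQ_eq]
  exact Complex.measurableEquivRealProd.measurable
    (measurableSet_Ico.prod measurableSet_Ico)

theorem CntC_SQ_vol (D : ℕ) (z : GI) : volume (CntC_SQ D z) = ENNReal.ofReal ((D : ℝ) ^ 2) := by
  rw [CntC_SQ_eq, Complex.volume_preserving_equiv_real_prod.measure_preimage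
    (measurableSet_Ico.prod measurableSet_Ico).nullMeasurableSet]
  rw [Measure.volume_eq_prod, Measure.prod_prod, Real.volume_Ico, Real.volume_Ico]
  have : ∀ x : ℝ, x + D / 2 - (x - D / 2) = D := fun x => by ring
  rw [this, this, ← ENNReal.ofReal_mul (by positivity), sq]

theorem CntC_SQ_real (D : ℕ) (z : GI) : volume.real (CntC_SQ D z) = (D : ℝ) ^ 2 := by
  rw [measureReal_def, CntC_SQ_vol, ENNReal.toReal_ofReal (by positivity)]

theorem CntC_SQ_disj {D : ℕ} {ρ z w : GI} (hz : cg D z ρ) (hw : cg D w ρ) (h : z ≠ w) :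
    Disjoint (CntC_SQ D z) (CntC_SQ D w) := by
  rw [Set.disjoint_left]
  intro x hx hy
  apply h
  obtain ⟨h1, h2, h3, h4⟩ := hx
  obtain ⟨k1, k2, k3, k4⟩ := hy
  have e1 : z.re < w.re + D := by
    have : (z.re : ℝ) < w.re + D := by linarith
    exact_mod_cast this
  have e2 : w.re < z.re + D := by
    have : (w.re : ℝ) < z.re + D := by linarith
    exact_mod_cast this
  have e3 : z.im < w.im + D := by
    have : (z.im : ℝ) < w.im + D := by linarith
    exact_mod_cast this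
  have e4 : w.im < z.im + D := by
    have : (w.im : ℝ) < z.im + D := by linarith
    exact_mod_cast this
  have key : ∀ x y : ℤ, (D : ℤ) ∣ x - y → x < y + D → y < x + D → x = y := by
    intro x y hd hx hy
    obtain ⟨k, hk⟩ := hd
    have hk1 : (D : ℤ) * k < D * 1 := by linarith
    have hk2 : (D : ℤ) * (-1) < D * k := by linarith
    have hD : (0 : ℤ) < D := by omega
    have h1 : k < 1 := lt_of_mul_lt_mul_left hk1 hD.le
    have h2 : -1 < k := lt_of_mul_lt_mul_left hk2 hD.le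
    have : k = 0 := by omega
    rw [this] at hk
    linarith
  have d1 : (D : ℤ) ∣ z.re - w.re := by
    have := dvd_sub hz.1 hw.1
    have e : z.re - ρ.re - (w.re - ρ.re) = z.re - w.re := by ring
    rwa [e] at this
  have d2 : (D : ℤ) ∣ z.im - w.im := by
    have := dvd_sub hz.2 hw.2
    have e : z.im - ρ.im - (w.im - ρ.im) = z.im - w.im := by ring
    rwa [e] at this
  exact Zsqrtd.ext (key _ _ d1 e1 e2) (key _ _ d2 e3 e4)

theorem CntC_SQ_norm {D : ℕ} {z : GI} {w : ℂ} (h : w ∈ CntC_SQ D z) :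
    ‖GaussianInt.toComplex z - w‖ ≤ D := by
  obtain ⟨h1, h2, h3, h4⟩ := h
  have hD : (0 : ℝ) ≤ D := Nat.cast_nonneg D
  have e : ‖GaussianInt.toComplex z - w‖ ^ 2 ≤ (D : ℝ) ^ 2 := by
    rw [Complex.sq_norm, Complex.normSq_apply, Complex.sub_re, Complex.sub_im,
      ← GaussianInt.intCast_re, ← GaussianInt.intCast_im]
    have a1 : ((z.re : ℝ) - w.re) ^ 2 ≤ ((D : ℝ) / 2) ^ 2 := by
      apply sq_le_sq' <;> linarith
    have a2 : ((z.im : ℝ) - w.im) ^ 2 ≤ ((D : ℝ) / 2) ^ 2 := by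
      apply sq_le_sq' <;> linarith
    nlinarith
  exact le_of_sq_le_sq e hD

theorem CntC_Od {D : ℕ} (h4 : 4 ∣ D) {ρ z : GI} (hρ : Od ρ) (hz : cg D z ρ) : Od z := by
  obtain ⟨k, rfl⟩ := h4
  obtain ⟨⟨a, ha⟩, ⟨b, hb⟩⟩ := hz
  obtain ⟨h1, h2⟩ := hρ
  push_cast at ha hb
  have e1 : z.re = ρ.re + 2 * (2 * (k * a)) := by linarith
  have e2 : z.im = ρ.im + 2 * (2 * (k * b)) := by linarith
  constructor
  · omega
  · omega

/-- the lattice point of `w` -/
theorem CntC_SQ_cover {D : ℕ} (hD : 0 < D) (ρ : GI) (w : ℂ) : ∃ z : GI, cg D z ρ ∧ w ∈ CntC_SQ D z := by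
  have hDR : (0 : ℝ) < D := by exact_mod_cast hD
  refine ⟨⟨ρ.re + D * ⌊(w.re - ρ.re) / D + 1 / 2⌋, ρ.im + D * ⌊(w.im - ρ.im) / D + 1 / 2⌋⟩, ?_, ?_⟩
  · constructor
    · exact ⟨⌊(w.re - ρ.re) / D + 1 / 2⌋, by simp only []; ring⟩
    · exact ⟨⌊(w.im - ρ.im) / D + 1 / 2⌋, by simp only []; ring⟩
  · have key : ∀ (x r : ℝ), (r + D * (⌊(x - r) / D + 1 / 2⌋ : ℝ)) - D / 2 ≤ x ∧
        x < (r + D * (⌊(x - r) / D + 1 / 2⌋ : ℝ)) + D / 2 := by
      intro x r
      have h1 := Int.floor_le ((x - r) / D + 1 / 2)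
      have h2 := Int.lt_floor_add_one ((x - r) / D + 1 / 2)
      have h3 : (D : ℝ) * ((x - r) / D) = x - r := by field_simp
      constructor
      · nlinarith
      · nlinarith
    have k1 := key w.re ρ.re
    have k2 := key w.im ρ.im
    refine ⟨?_, ?_, ?_, ?_⟩
    · push_cast; exact k1.1
    · push_cast; exact k1.2
    · push_cast; exact k2.1
    · push_cast; exact k2.2

/-- volume of the ring -/
theorem CntC_ring {s d : ℝ} (hs : 1 ≤ s) (hd : 1 ≤ d) (A : Set ℂ)
    (hA : ∀ w ∈ A, s - d < ‖w‖ ∧ ‖w‖ ≤ s + d) :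
    volume A ≠ ⊤ ∧ volume.real A ≤ 4 * Real.pi * d ^ 2 * s := by
  have hsub : A ⊆ Metric.closedBall (0 : ℂ) (s + d) := by
    intro w hw
    simpa using (hA w hw).2
  have hfin : volume (Metric.closedBall (0 : ℂ) (s + d)) ≠ ⊤ := by
    rw [Complex.volume_closedBall]
    finiteness
  have hreal : ∀ r : ℝ, 0 ≤ r → volume.real (Metric.closedBall (0 : ℂ) r) = Real.pi * r ^ 2 := by
    intro r hr
    rw [measureReal_def, Complex.volume_closedBall, ENNReal.toReal_mul, ENNReal.toReal_pow,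
      ENNReal.toReal_ofReal hr]
    simp
    ring
  refine ⟨measure_ne_top_of_subset hsub hfin, ?_⟩
  have hpi := Real.pi_pos
  by_cases h2 : s ≤ d
  · calc volume.real A ≤ volume.real (Metric.closedBall (0 : ℂ) (s + d)) :=
          measureReal_mono hsub hfin
      _ = Real.pi * (s + d) ^ 2 := hreal _ (by linarith)
      _ ≤ Real.pi * (4 * d ^ 2 * s) := by
          apply mul_le_mul_of_nonneg_left _ hpi.le
          have h3 : (s + d) ^ 2 ≤ 4 * d ^ 2 := by nlinarith
          have h4 : 4 * d ^ 2 ≤ 4 * d ^ 2 * s := by nlinarith [sq_nonneg d]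
          linarith
      _ = 4 * Real.pi * d ^ 2 * s := by ring
  · push Not at h2
    have hsub2 : A ⊆ Metric.closedBall (0 : ℂ) (s + d) \ Metric.closedBall (0 : ℂ) (s - d) := by
      intro w hw
      refine ⟨hsub hw, ?_⟩
      have := (hA w hw).1
      simpa using this
    calc volume.real A ≤
          volume.real (Metric.closedBall (0 : ℂ) (s + d) \ Metric.closedBall (0 : ℂ) (s - d)) := by
          exact measureReal_mono hsub2 (measure_ne_top_of_subset Set.sdiff_subset hfin)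
      _ = volume.real (Metric.closedBall (0 : ℂ) (s + d)) -
          volume.real (Metric.closedBall (0 : ℂ) (s - d)) :=
          measureReal_sdiff (Metric.closedBall_subset_closedBall (by linarith))
            measurableSet_closedBall hfin
      _ = Real.pi * (s + d) ^ 2 - Real.pi * (s - d) ^ 2 := by
          rw [hreal _ (by linarith), hreal _ (by linarith)]
      _ = 4 * Real.pi * (d * s) := by ring
      _ ≤ 4 * Real.pi * d ^ 2 * s := by
          have : d * s ≤ d ^ 2 * s := by nlinarith [mul_nonneg (by linarith : (0:ℝ) ≤ d - 1) (by nlinarith : (0:ℝ) ≤ d * s)]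
          nlinarith

theorem count_cls (D : ℕ) (h4 : 4 ∣ D) (hD : 0 < D) : ∃ K : ℝ, 0 < K ∧ ∀ ρ : GI, Od ρ →
    ∀ (κ : ℤ) (Y : ℝ), 0 ≤ Y → open Classical in
    ‖∑ z ∈ (ann 0 Y).filter (fun z => cg D z ρ), uu z ^ κ -
      (if κ = 0 then ((Real.pi / (D : ℝ) ^ 2 * Y : ℝ) : ℂ) else 0)‖ ≤ K * (1 + |(κ : ℝ)|) * √Y := by
  classical
  have hDR : (0 : ℝ) < D := by exact_mod_cast hD
  have hD1 : (1 : ℝ) ≤ D := by exact_mod_cast hD
  refine ⟨48 * D + 32, by positivity, fun ρ hρ κ Y hY => ?_⟩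
  have hpi4 : Real.pi < 4 := Real.pi_lt_four
  have hpi := Real.pi_pos
  have hκ0 : (0 : ℝ) ≤ |(κ : ℝ)| := abs_nonneg _
  rcases lt_or_ge Y 1 with hY1 | hY1
  · have hemp : (ann 0 Y).filter (fun z => cg D z ρ) = ∅ := by
      rw [Finset.eq_empty_iff_forall_notMem]
      intro z hz
      rw [mem_filter, mem_ann] at hz
      have h1 : 0 < nm z := nm_pos (Od_ne hz.1.1)
      have h2 : (1 : ℝ) ≤ nm z := by exact_mod_cast h1
      linarith [hz.1.2.2]
    rw [hemp, Finset.sum_empty, zero_sub, norm_neg]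
    have hs : Y ≤ √Y := by
      have : Y * Y ≤ Y := by nlinarith
      apply Real.le_sqrt_of_sq_le
      nlinarith
    have hs0 := Real.sqrt_nonneg Y
    split_ifs
    · rw [Complex.norm_real, Real.norm_eq_abs, abs_of_nonneg (by positivity)]
      have h1 : Real.pi / (D : ℝ) ^ 2 * Y ≤ 4 * √Y := by
        have h2 : Real.pi / (D : ℝ) ^ 2 ≤ 4 := by
          rw [div_le_iff₀ (by positivity)]
          nlinarith
        nlinarith [mul_nonneg (by linarith : (0:ℝ) ≤ 4 - Real.pi / (D : ℝ) ^ 2) hY]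
      have h3 : 4 * √Y ≤ (48 * D + 32) * (1 + |(κ : ℝ)|) * √Y := by
        apply mul_le_mul_of_nonneg_right _ hs0
        nlinarith
      linarith
    · rw [norm_zero]; positivity
  · set s := √Y with hs
    have hs1 : 1 ≤ s := Real.one_le_sqrt.mpr hY1
    have hsq : s ^ 2 = Y := Real.sq_sqrt hY
    set Dc : Set ℂ := Metric.closedBall (0 : ℂ) s with hDc
    set T : Finset GI := (ann 0 Y).filter (fun z => cg D z ρ) with hT
    set A : Set ℂ := ⋃ z ∈ T, CntC_SQ D z with hA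
    have hDfin : volume Dc ≠ ⊤ := by
      rw [hDc, Complex.volume_closedBall]
      finiteness
    have hDm : MeasurableSet Dc := measurableSet_closedBall
    have hAm : MeasurableSet A := by
      rw [hA]
      exact Finset.measurableSet_biUnion _ (fun z _ => CntC_SQ_meas D z)
    have hSfin : ∀ z, volume (CntC_SQ D z) ≠ ⊤ := by
      intro z; rw [CntC_SQ_vol]; exact ENNReal.ofReal_ne_top
    have hAfin : volume A ≠ ⊤ := by
      rw [hA]
      exact (measure_biUnion_lt_top (Finset.finite_toSet _) (fun z _ => (hSfin z).lt_top)).ne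
    have hTann : ∀ z ∈ T, z ∈ ann 0 Y := fun z hz => (mem_filter.1 hz).1
    have hTcg : ∀ z ∈ T, cg D z ρ := fun z hz => (mem_filter.1 hz).2
    -- membership facts
    have hzn : ∀ z ∈ T, ‖GaussianInt.toComplex z‖ ≤ s := by
      intro z hz
      have h1 := LCT_norm_toC z
      have h2 := (mem_ann.mp (hTann z hz)).2.2
      rw [hs]
      apply Real.le_sqrt_of_sq_le
      rw [h1]; exact h2
    have hAD : ∀ w ∈ A \ Dc, s - D < ‖w‖ ∧ ‖w‖ ≤ s + D := by
      intro w hw
      obtain ⟨hwA, hwD⟩ := hw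
      rw [hA, Set.mem_iUnion₂] at hwA
      obtain ⟨z, hz, hwz⟩ := hwA
      have h1 := hzn z hz
      have h2 := CntC_SQ_norm hwz
      have h3 : s < ‖w‖ := by simpa [hDc] using hwD
      constructor
      · linarith
      · calc ‖w‖ = ‖GaussianInt.toComplex z - (GaussianInt.toComplex z - w)‖ := by
              congr 1; ring
          _ ≤ ‖GaussianInt.toComplex z‖ + ‖GaussianInt.toComplex z - w‖ := norm_sub_le _ _
          _ ≤ s + D := by linarith
    have hDA : ∀ w ∈ Dc \ A, s - D < ‖w‖ ∧ ‖w‖ ≤ s + D := by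
      intro w hw
      obtain ⟨hwD, hwA⟩ := hw
      obtain ⟨z, hz, hwz⟩ := CntC_SQ_cover hD ρ w
      have hOdz : Od z := CntC_Od h4 hρ hz
      have h1 : z ∉ T := by
        intro hmem
        apply hwA
        rw [hA, Set.mem_iUnion₂]
        exact ⟨z, hmem, hwz⟩
      have h2 : Y < (nm z : ℝ) := by
        by_contra hcon
        push Not at hcon
        apply h1
        rw [hT, mem_filter, mem_ann]
        refine ⟨⟨hOdz, ?_, hcon⟩, hz⟩
        exact_mod_cast nm_pos (Od_ne hOdz)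
      have h3 := LCT_norm_toC z
      have h4 : s < ‖GaussianInt.toComplex z‖ := by
        rw [hs]
        apply (Real.sqrt_lt' ?_).mpr
        · rw [h3]; exact h2
        · rw [norm_pos_iff]
          intro h0
          rw [GaussianInt.toComplex_eq_zero] at h0
          exact Od_ne hOdz h0
      have h5 := CntC_SQ_norm hwz
      have h6 : ‖w‖ ≤ s := by simpa [hDc] using hwD
      constructor
      · have : ‖GaussianInt.toComplex z‖ ≤ ‖w‖ + ‖GaussianInt.toComplex z - w‖ := by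
          calc ‖GaussianInt.toComplex z‖ = ‖w + (GaussianInt.toComplex z - w)‖ := by
                congr 1; ring
            _ ≤ _ := norm_add_le _ _
        linarith
      · linarith
    have hintA := LCT_integrableOn κ A hAfin
    have hintD := LCT_integrableOn κ Dc hDfin
    -- decomposition
    have hsplit : (∫ w in A, UU w ^ κ) - (∫ w in Dc, UU w ^ κ) =
        (∫ w in A \ Dc, UU w ^ κ) - (∫ w in Dc \ A, UU w ^ κ) := by
      rw [← integral_inter_add_sdiff hDm hintA, ← integral_inter_add_sdiff hAm hintD,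
        Set.inter_comm Dc A]
      ring
    have hn : ∀ E : Set ℂ, (∀ w ∈ E, s - D < ‖w‖ ∧ ‖w‖ ≤ s + D) →
        ‖∫ w in E, UU w ^ κ‖ ≤ 4 * Real.pi * (D : ℝ) ^ 2 * s := by
      intro E hE
      obtain ⟨h1, h2⟩ := CntC_ring hs1 hD1 E hE
      calc ‖∫ w in E, UU w ^ κ‖ ≤ 1 * volume.real E :=
            norm_setIntegral_le_of_norm_le_const h1.lt_top (fun w _ => LCT_norm_UU_zpow w κ)
        _ ≤ _ := by rw [one_mul]; exact h2
    have hintAsum : ∫ w in A, UU w ^ κ = ∑ z ∈ T, ∫ w in CntC_SQ D z, UU w ^ κ := by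
      rw [hA]
      apply integral_biUnion_finset
      · intro z _; exact CntC_SQ_meas D z
      · intro z hz w hw hzw
        exact CntC_SQ_disj (hTcg z hz) (hTcg w hw) hzw
      · intro z _; exact LCT_integrableOn κ _ (hSfin z)
    have hlocal : ∀ z ∈ T, ‖((D : ℝ) ^ 2 : ℝ) * uu z ^ κ - (∫ w in CntC_SQ D z, UU w ^ κ)‖ ≤
        4 * (D : ℝ) ^ 3 * |(κ : ℝ)| * (1 / mx z) := by
      intro z hz
      have hOd := (mem_ann.mp (hTann z hz)).1
      have hzne : GaussianInt.toComplex z ≠ 0 := by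
        intro h0
        rw [GaussianInt.toComplex_eq_zero] at h0
        exact Od_ne hOd h0
      have hmx : (1 : ℝ) ≤ mx z := by exact_mod_cast LCT_mx_pos hOd
      have hmxn : (mx z : ℝ) ≤ ‖GaussianInt.toComplex z‖ := by
        have h1 : ((mx z : ℕ) : ℝ) ^ 2 ≤ ‖GaussianInt.toComplex z‖ ^ 2 := by
          rw [LCT_norm_toC]
          exact_mod_cast LCT_mx_sq z
        exact le_of_sq_le_sq h1 (norm_nonneg _)
      have h4 : ∫ w in CntC_SQ D z, (uu z ^ κ) = ((D : ℝ) ^ 2 : ℝ) * uu z ^ κ := by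
        rw [integral_const]
        simp only [MeasurableSet.univ, measureReal_restrict_apply, Set.univ_inter]
        rw [CntC_SQ_real, Complex.real_smul]
      rw [← h4, ← integral_sub]
      · have hb : ∀ w ∈ CntC_SQ D z, ‖uu z ^ κ - UU w ^ κ‖ ≤ 4 * D * |(κ : ℝ)| * (1 / mx z) := by
          intro w hw
          rw [LCT_uu_eq]
          calc ‖UU (GaussianInt.toComplex z) ^ κ - UU w ^ κ‖
              ≤ |(κ : ℝ)| * (4 * ‖GaussianInt.toComplex z - w‖ / ‖GaussianInt.toComplex z‖) :=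
                LCT_UU_zpow_sub hzne w κ
            _ ≤ |(κ : ℝ)| * (4 * D / mx z) := by
                have h5 := CntC_SQ_norm hw
                gcongr
            _ = 4 * D * |(κ : ℝ)| * (1 / mx z) := by ring
        calc ‖∫ w in CntC_SQ D z, (uu z ^ κ - UU w ^ κ)‖ ≤
              (4 * D * |(κ : ℝ)| * (1 / mx z)) * volume.real (CntC_SQ D z) :=
              norm_setIntegral_le_of_norm_le_const (hSfin z).lt_top hb
          _ = 4 * (D : ℝ) ^ 3 * |(κ : ℝ)| * (1 / mx z) := by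
              rw [CntC_SQ_real]
              ring
      · apply Measure.integrableOn_of_bounded (M := 1) (hSfin z)
          aestronglyMeasurable_const
        exact Filter.Eventually.of_forall (fun w => norm_uu_zpow_le z κ)
      · exact LCT_integrableOn κ _ (hSfin z)
    have hsum : ‖(∑ z ∈ T, ((D : ℝ) ^ 2 : ℝ) * uu z ^ κ) - (∫ w in A, UU w ^ κ)‖ ≤
        4 * (D : ℝ) ^ 3 * |(κ : ℝ)| * (12 * s) := by
      rw [hintAsum, ← Finset.sum_sub_distrib]
      calc ‖∑ z ∈ T, (((D : ℝ) ^ 2 : ℝ) * uu z ^ κ - (∫ w in CntC_SQ D z, UU w ^ κ))‖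
          ≤ ∑ z ∈ T, ‖((D : ℝ) ^ 2 : ℝ) * uu z ^ κ - (∫ w in CntC_SQ D z, UU w ^ κ)‖ := norm_sum_le _ _
        _ ≤ ∑ z ∈ T, 4 * (D : ℝ) ^ 3 * |(κ : ℝ)| * (1 / mx z) := Finset.sum_le_sum hlocal
        _ = 4 * (D : ℝ) ^ 3 * |(κ : ℝ)| * ∑ z ∈ T, (1 : ℝ) / mx z := by rw [Finset.mul_sum]
        _ ≤ 4 * (D : ℝ) ^ 3 * |(κ : ℝ)| * (12 * s) := by
            apply mul_le_mul_of_nonneg_left _ (by positivity)
            refine le_trans ?_ (LCT_sum_inv_mx Y)
            apply Finset.sum_le_sum_of_subset_of_nonneg (Finset.filter_subset _ _)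
            intro z _ _
            positivity
    have hdisc : ∫ w in Dc, UU w ^ κ = ((D : ℝ) ^ 2 : ℝ) *
        (if κ = 0 then ((Real.pi / (D : ℝ) ^ 2 * Y : ℝ) : ℂ) else 0) := by
      split_ifs with h0
      · subst h0
        rw [hDc, LCT_int_disc0 s (by linarith), hsq, ← Complex.ofReal_mul]
        congr 1
        field_simp
      · rw [hDc, LCT_int_disc κ h0 s, mul_zero]
    have hfin : ‖(((D : ℝ) ^ 2 : ℝ) : ℂ) * (∑ z ∈ T, uu z ^ κ -
        (if κ = 0 then ((Real.pi / (D : ℝ) ^ 2 * Y : ℝ) : ℂ) else 0))‖ ≤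
        4 * (D : ℝ) ^ 3 * |(κ : ℝ)| * (12 * s) + 8 * Real.pi * (D : ℝ) ^ 2 * s := by
      have e : (((D : ℝ) ^ 2 : ℝ) : ℂ) * (∑ z ∈ T, uu z ^ κ -
          (if κ = 0 then ((Real.pi / (D : ℝ) ^ 2 * Y : ℝ) : ℂ) else 0)) =
          ((∑ z ∈ T, ((D : ℝ) ^ 2 : ℝ) * uu z ^ κ) - (∫ w in A, UU w ^ κ)) +
          ((∫ w in A \ Dc, UU w ^ κ) - (∫ w in Dc \ A, UU w ^ κ)) := by
        rw [← hsplit, hdisc, ← Finset.mul_sum]
        ring
      rw [e]
      calc _ ≤ ‖(∑ z ∈ T, ((D : ℝ) ^ 2 : ℝ) * uu z ^ κ) - (∫ w in A, UU w ^ κ)‖ +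
            ‖(∫ w in A \ Dc, UU w ^ κ) - (∫ w in Dc \ A, UU w ^ κ)‖ := norm_add_le _ _
        _ ≤ 4 * (D : ℝ) ^ 3 * |(κ : ℝ)| * (12 * s) +
            (‖∫ w in A \ Dc, UU w ^ κ‖ + ‖∫ w in Dc \ A, UU w ^ κ‖) := by
            gcongr
            exact norm_sub_le _ _
        _ ≤ 4 * (D : ℝ) ^ 3 * |(κ : ℝ)| * (12 * s) +
            (4 * Real.pi * (D : ℝ) ^ 2 * s + 4 * Real.pi * (D : ℝ) ^ 2 * s) := by
            gcongr
            · exact hn _ hAD
            · exact hn _ hDA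
        _ = _ := by ring
    rw [norm_mul] at hfin
    have hn2 : ‖(((D : ℝ) ^ 2 : ℝ) : ℂ)‖ = (D : ℝ) ^ 2 := by
      rw [Complex.norm_real, Real.norm_eq_abs, abs_of_nonneg (by positivity)]
    rw [hn2] at hfin
    set E := ‖∑ z ∈ T, uu z ^ κ - (if κ = 0 then ((Real.pi / (D : ℝ) ^ 2 * Y : ℝ) : ℂ) else 0)‖ with hE
    have hD2 : (0 : ℝ) < (D : ℝ) ^ 2 := by positivity
    have h6 : (D : ℝ) ^ 2 * E ≤ (D : ℝ) ^ 2 * (48 * D * |(κ : ℝ)| * s + 8 * Real.pi * s) := by
      calc (D : ℝ) ^ 2 * E ≤ _ := hfin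
        _ = _ := by ring
    have h7 := le_of_mul_le_mul_left h6 hD2
    calc E ≤ 48 * D * |(κ : ℝ)| * s + 8 * Real.pi * s := h7
      _ ≤ (48 * D + 32) * (1 + |(κ : ℝ)|) * s := by
        have h8 : 48 * D * |(κ : ℝ)| + 8 * Real.pi ≤ (48 * D + 32) * (1 + |(κ : ℝ)|) := by
          nlinarith
        nlinarith

end Pool.Agent.FCH
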