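import Pool.Agent.FCH.Defs
import Pool.Agent.MRS.Energy
import Pool.Agent.MRS.Mvt

set_option autoImplicit false

/-! Module COE: mean square of `Q^l R`.  Expand the power, apply `mvt` with the index set
`tup S l ×ˢ B`, `Y = z^l b`, and `energy`. -/

open Finset

namespace Pool.Agent.FCH

open Pool.Agent.MRS hiding Good

theorem coe_expand (cc : GI → ℂ) (S B : Finset GI) (l : ℕ) (k : ℤ) :
    (sp S cc k) ^ l * sp B cc k =
      ∑ q ∈ tup S l ×ˢ B, ((∏ i, cc (q.1 i)) * cc q.2) * uu ((∏ i, q.1 i) * q.2) ^ k := by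
  classical
  have h1 : (sp S cc k) ^ l =
      ∑ p ∈ tup S l, ∏ i, (cc (p i) * uu (p i) ^ k) := by
    unfold tup sp
    rw [← Finset.prod_univ_sum (fun _ : Fin l => S) (fun _ p => cc p * uu p ^ k),
      Finset.prod_const, Finset.card_univ, Fintype.card_fin]
  have h2 : ∀ (n : ℕ) (p : Fin n → GI), uu (∏ i, p i) ^ k = ∏ i, uu (p i) ^ k := by
    intro n
    induction n with
    | zero => intro p; simp [uu_one]
    | succ n ih =>
      intro p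
      rw [Fin.prod_univ_succ, Fin.prod_univ_succ, uu_mul_zpow, ih]
  rw [h1]
  unfold sp
  rw [Finset.sum_mul_sum, Finset.sum_product]
  refine Finset.sum_congr rfl (fun p _ => Finset.sum_congr rfl (fun m _ => ?_))
  rw [uu_mul_zpow, h2 l p, Finset.prod_mul_distrib]
  ring

theorem coe_prod {S : Finset GI} (hS : ∀ p ∈ S, PP p) {z : ℝ} (hz : ∀ p ∈ S, (nm p : ℝ) ≤ z)
    (n : ℕ) (p : Fin n → GI) (hp : ∀ i, p i ∈ S) :
    Od (∏ i, p i) ∧ (nm (∏ i, p i) : ℝ) ≤ z ^ n := by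
  induction n with
  | zero =>
    simp only [Finset.univ_eq_empty, Finset.prod_empty, pow_zero]
    exact ⟨Od_one, by rw [nm_one]; norm_num⟩
  | succ n ih =>
    obtain ⟨h1, h2⟩ := ih (fun i => p i.succ) (fun i => hp _)
    rw [Fin.prod_univ_succ]
    refine ⟨Od_mul (hS _ (hp 0)).1 h1, ?_⟩
    rw [nm_mul, Nat.cast_mul, pow_succ']
    exact mul_le_mul (hz _ (hp 0)) h2 (Nat.cast_nonneg _)
      ((Nat.cast_nonneg _).trans (hz _ (hp 0)))

theorem coe_norm {cc : GI → ℂ} (hf : CG cc) (n : ℕ) (p : Fin n → GI) (m : GI) :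
    ‖(∏ i, cc (p i)) * cc m‖ ≤ 1 := by
  rw [norm_mul]
  have h1 : ‖∏ i, cc (p i)‖ ≤ 1 := by
    rw [norm_prod]
    exact Finset.prod_le_one (fun _ _ => norm_nonneg _) (fun i _ => hf.le _)
  calc ‖∏ i, cc (p i)‖ * ‖cc m‖ ≤ 1 * 1 :=
        mul_le_mul h1 (hf.le _) (norm_nonneg _) (by norm_num)
    _ = 1 := by norm_num

theorem pow_mvt : ∃ C : ℝ, 1 ≤ C ∧ ∀ cc : GI → ℂ, CG cc → ∀ S : Finset GI, (∀ p ∈ S, PP p) →
    ∀ y z : ℝ, 1 ≤ y → y ≤ z → z ≤ 3 * y → (∀ p ∈ S, y ≤ nm p ∧ (nm p : ℝ) ≤ z) → rs S ≤ 1 →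
    ∀ (B : Finset GI) (b : ℝ), 1 ≤ b → (∀ m ∈ B, Od m ∧ Pr m ∧ (nm m : ℝ) ≤ b) → ∀ l K : ℕ,
    ms K (fun k => ‖(sp S cc k) ^ l * sp B cc k‖ ^ 2)
      ≤ C ^ (l + 1) * ((l : ℝ) + 1) ^ l * (K + z ^ l * b) * (z ^ l * b) := by
  classical
  obtain ⟨C1, hC1, h1⟩ := mvt
  obtain ⟨C2, hC2, h2⟩ := energy
  refine ⟨max C1 1 * C2, ?_, ?_⟩
  · calc (1 : ℝ) = 1 * 1 := by norm_num
      _ ≤ max C1 1 * C2 := mul_le_mul (le_max_right _ _) hC2 (by norm_num) (by positivity)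
  intro cc hf S hS y z hy hyz hz3 hSz hrs B b hb hB l K
  have hz1 : 1 ≤ z := hy.trans hyz
  have hY1 : 1 ≤ z ^ l * b := by
    calc (1 : ℝ) = 1 * 1 := by norm_num
      _ ≤ z ^ l * b := mul_le_mul (one_le_pow₀ hz1) hb (by norm_num) (by positivity)
  set Y : ℝ := z ^ l * b with hY
  have e1 : (fun k : ℤ => ‖(sp S cc k) ^ l * sp B cc k‖ ^ 2) =
      (fun k : ℤ => ‖∑ q ∈ tup S l ×ˢ B, ((∏ i, cc (q.1 i)) * cc q.2) *
        uu ((∏ i, q.1 i) * q.2) ^ k‖ ^ 2) := by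
    funext k
    rw [coe_expand]
  rw [e1]
  have h3 := h1 K Y hY1 ((Fin l → GI) × GI) (tup S l ×ˢ B)
    (fun q => (∏ i, q.1 i) * q.2) (fun q => (∏ i, cc (q.1 i)) * cc q.2) (by
      intro q hq
      rw [Finset.mem_product] at hq
      have hq1 : ∀ i, q.1 i ∈ S := by
        intro i
        have := hq.1
        unfold tup at this
        rw [Fintype.mem_piFinset] at this
        exact this i
      obtain ⟨a1, a2⟩ := coe_prod hS (fun p hp => (hSz p hp).2) l q.1 hq1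
      obtain ⟨b1, _, b3⟩ := hB _ hq.2
      refine ⟨Od_mul a1 b1, ?_⟩
      show ((nm ((∏ i, q.1 i) * q.2) : ℕ) : ℝ) ≤ Y
      rw [nm_mul, Nat.cast_mul, hY]
      exact mul_le_mul a2 b3 (Nat.cast_nonneg _) (by positivity))
  refine h3.trans ?_
  have h4 := h2 S hS y z hy hyz hz3 hSz hrs B b hb hB l
  have h5 : (∑ i ∈ tup S l ×ˢ B, ∑ j ∈ tup S l ×ˢ B,
      if dt ((∏ t, i.1 t) * i.2) ((∏ t, j.1 t) * j.2) = 0 then
        ‖(∏ t, cc (i.1 t)) * cc i.2‖ * ‖(∏ t, cc (j.1 t)) * cc j.2‖ else 0) ≤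
      ((((tup S l ×ˢ B) ×ˢ (tup S l ×ˢ B)).filter (fun q =>
      dt ((∏ i, q.1.1 i) * q.1.2) ((∏ i, q.2.1 i) * q.2.2) = 0)).card : ℝ) := by
    rw [Finset.card_filter, Nat.cast_sum, Finset.sum_product (tup S l ×ˢ B) (tup S l ×ˢ B)]
    apply Finset.sum_le_sum
    intro i _
    apply Finset.sum_le_sum
    intro j _
    by_cases h0 : dt ((∏ t, i.1 t) * i.2) ((∏ t, j.1 t) * j.2) = 0
    · rw [if_pos h0, if_pos h0]
      calc ‖(∏ t, cc (i.1 t)) * cc i.2‖ * ‖(∏ t, cc (j.1 t)) * cc j.2‖ ≤ 1 * 1 :=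
            mul_le_mul (coe_norm hf l _ _) (coe_norm hf l _ _) (norm_nonneg _) (by norm_num)
        _ = ((1 : ℕ) : ℝ) := by norm_num
    · rw [if_neg h0, if_neg h0]
      norm_num
  have hKY : 0 ≤ (K : ℝ) + Y := by positivity
  have hC20 : 0 < C2 := by linarith
  have hm : C1 ≤ (max C1 1) ^ (l + 1) := by
    calc C1 ≤ max C1 1 := le_max_left _ _
      _ = (max C1 1) ^ 1 := (pow_one _).symm
      _ ≤ (max C1 1) ^ (l + 1) := pow_le_pow_right₀ (le_max_right _ _) (by omega)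
  calc C1 * (K + Y) * _ ≤ C1 * (K + Y) * (C2 ^ (l + 1) * ((l : ℝ) + 1) ^ l * Y) :=
        mul_le_mul_of_nonneg_left (h5.trans h4) (by positivity)
    _ = C1 * (C2 ^ (l + 1) * ((l : ℝ) + 1) ^ l * (K + Y) * Y) := by ring
    _ ≤ (max C1 1) ^ (l + 1) * (C2 ^ (l + 1) * ((l : ℝ) + 1) ^ l * (K + Y) * Y) := by
        apply mul_le_mul_of_nonneg_right hm
        positivity
    _ = (max C1 1 * C2) ^ (l + 1) * ((l : ℝ) + 1) ^ l * (K + Y) * Y := by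
        rw [mul_pow]; ring

end Pool.Agent.FCH
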