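import Pool.Agent.FCH.LevOne

set_option autoImplicit false

/-! Module LGE: port of `Pool/Agent/MR/ALevGe.lean`; the extra factor `C^(l+1)` of `loc_two` is absorbed
(`log C ≤ A` for `A ≥ A0`). -/

open Finset

namespace Pool.Agent.FCH

open Pool.Agent.MRS hiding Good

/-- Exponents. -/
theorem Lge.expo (ε a y x w q g1 g2 : ℝ) (l : ℕ) (hε : 0 < ε) (hε4 : ε ≤ 1 / 4) (ha : 3 ≤ a)
    (hy : 3200 * a ≤ y) (hn : 72 * a ^ 2 ≤ ε * y) (hx : y ^ 3 - 1 ≤ x) (hw1 : y - 1 ≤ w)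
    (hw2 : w ≤ y ^ 2) (hl : (l : ℝ) ≤ x / w + 1) (hq : 1 / a ≤ q)
    (hg : 2 * (g2 - g1) = ε * q) (hg1 : g1 ≤ ε) (hg0 : 0 ≤ g1) :
    8 * a * l + (-2 * g2 * x + 2 * g1 * (l * w) + 2 * l) ≤ -y ^ 2 := by
  have ha0 : 0 < a := by linarith
  have hy0 : 9600 ≤ y := by linarith
  have hw0 : 0 < w := by linarith
  have hy2 : 0 < y ^ 2 := by positivity
  have hx0 : 0 ≤ x := by nlinarith [sq_nonneg y]
  have hlw : (l : ℝ) * w ≤ x + w := by
    have h1 := mul_le_mul_of_nonneg_right hl hw0.le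
    have h2 : (x / w + 1) * w = x + w := by field_simp
    linarith
  have h1 : g1 * (l * w) ≤ g1 * (x + w) := mul_le_mul_of_nonneg_left hlw hg0
  have h2 : g1 * w ≤ ε * y ^ 2 := mul_le_mul hg1 hw2 hw0.le hε.le
  have h3 : (8 * a + 2) * l ≤ 9 * a * (x / w + 1) := by
    apply mul_le_mul (by linarith) hl (Nat.cast_nonneg _) (by linarith)
  have h4 : x / w ≤ 2 * x / y := by
    rw [div_le_div_iff₀ hw0 (by linarith)]
    nlinarith
  have h5 : 9 * a * (2 * x / y) ≤ ε * x / (4 * a) := by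
    rw [mul_div_assoc', div_le_div_iff₀ (by linarith) (by linarith)]
    nlinarith [mul_le_mul_of_nonneg_right hn hx0]
  have h6 : ε * x / a ≤ ε * q * x := by
    have : ε * x * (1 / a) ≤ ε * x * q := mul_le_mul_of_nonneg_left hq (by positivity)
    calc ε * x / a = ε * x * (1 / a) := by ring
      _ ≤ ε * x * q := this
      _ = ε * q * x := by ring
  have h7 : 9 * a * (x / w) ≤ 9 * a * (2 * x / y) := mul_le_mul_of_nonneg_left h4 (by linarith)
  have h8 : ε * x / (4 * a) = (ε * x / a) / 4 := by field_simp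
  have h9 : y ^ 3 / 2 ≤ x := by
    have : 2 ≤ y ^ 3 := by nlinarith [sq_nonneg y]
    linarith
  have h10 : 36 * a * y ^ 2 ≤ ε * x / a := by
    rw [le_div_iff₀ ha0]
    have e1 : ε * (y ^ 3 / 2) ≤ ε * x := mul_le_mul_of_nonneg_left h9 hε.le
    have e2 : 72 * a ^ 2 * y ^ 2 ≤ ε * y * y ^ 2 := mul_le_mul_of_nonneg_right hn hy2.le
    nlinarith
  have h11 : ε * y ^ 2 ≤ y ^ 2 / 4 := by nlinarith
  have h12 : 9 * a ≤ y ^ 2 := by nlinarith
  have h13 : 3 * y ^ 2 ≤ a * y ^ 2 := mul_le_mul_of_nonneg_right ha hy2.le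
  have e : -2 * g2 * x = -(ε * q * x) - 2 * g1 * x := by
    have : 2 * g2 = ε * q + 2 * g1 := by linarith
    linear_combination (-x) * this
  rw [e]
  nlinarith

/-- Final numerical inequality. -/
theorem Lge.fin_ge (c c' S R y E N A q C₀ C₂ : ℝ) (hc0 : 0 ≤ c) (hc'0 : 0 ≤ c') (hy : 0 < y)
    (hA : 0 < A) (hC₀ : 0 < C₀) (hC₂ : 0 < C₂) (hN : 0 < N) (hE : 0 ≤ E) (hc : c ≤ 2 * y ^ 7)
    (hc' : c' ≤ 2 * y ^ 3) (hS : S ≤ c * (c' * (C₂ * N ^ 2 * E)))
    (hR : R ≤ 6 * (N / (A / q))) (hq : 0 < q) (hexp : 16 * y ^ 17 * E ≤ 1 / (A / q)) :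
    2 * c * S + C₀ * N * R ≤ (C₂ + 6 * C₀) / A * q * N ^ 2 := by
  have h1 : c * (c' * (C₂ * N ^ 2 * E)) ≤ 2 * y ^ 7 * (2 * y ^ 3 * (C₂ * N ^ 2 * E)) := by
    apply mul_le_mul hc _ (by positivity) (by positivity)
    exact mul_le_mul_of_nonneg_right hc' (by positivity)
  calc 2 * c * S + C₀ * N * R
      ≤ 2 * (2 * y ^ 7) * (2 * y ^ 7 * (2 * y ^ 3 * (C₂ * N ^ 2 * E))) +
          C₀ * N * (6 * (N / (A / q))) := by
        apply add_le_add
        · refine (mul_le_mul_of_nonneg_left (hS.trans h1) (by positivity)).trans ?_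
          apply mul_le_mul_of_nonneg_right _ (by positivity)
          linarith
        · exact mul_le_mul_of_nonneg_left hR (by positivity)
    _ = C₂ * N ^ 2 * (16 * y ^ 17 * E) + 6 * C₀ * (N * (N / (A / q))) := by ring
    _ ≤ C₂ * N ^ 2 * (1 / (A / q)) + 6 * C₀ * (N * (N / (A / q))) := by
        have := mul_le_mul_of_nonneg_left hexp (show 0 ≤ C₂ * N ^ 2 by positivity)
        linarith
    _ = (C₂ + 6 * C₀) / A * q * N ^ 2 := by
        field_simp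

theorem Lge.exp_sq (y : ℝ) (hy : 9600 ≤ y) : 2 * y ^ 18 ≤ Real.exp (y ^ 2) := by
  have h1 : 20 * y ≤ y ^ 2 := by nlinarith
  have h2 : y ≤ Real.exp y := by linarith [Real.add_one_le_exp y]
  have h3 : (0 : ℝ) ≤ y ^ 18 := by positivity
  calc 2 * y ^ 18 ≤ y ^ 2 * y ^ 18 := mul_le_mul_of_nonneg_right (by nlinarith) h3
    _ = y ^ 20 := by ring
    _ ≤ (Real.exp y) ^ 20 := pow_le_pow_left₀ (by linarith) h2 20
    _ = Real.exp (20 * y) := by rw [← Real.exp_nat_mul]; norm_num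
    _ ≤ _ := Real.exp_le_exp.mpr h1

/-- union bound for sums -/
theorem Lge.union_bound {ι : Type} (s : Finset ι) (U : Finset ℤ) (V : ι → Finset ℤ)
    (h : ∀ t ∈ U, ∃ i ∈ s, t ∈ V i) (g : ℤ → ℝ) (h0 : ∀ i ∈ s, ∀ t ∈ V i, 0 ≤ g t) :
    ∑ t ∈ U, g t ≤ ∑ i ∈ s, ∑ t ∈ V i, g t := by
  classical
  have h1 : ∀ i ∈ s, ∑ t ∈ U, (if t ∈ V i then g t else 0) ≤ ∑ t ∈ V i, g t := by
    intro i hi
    rw [← Finset.sum_filter]
    apply Finset.sum_le_sum_of_subset_of_nonneg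
    · intro t ht
      exact (mem_filter.mp ht).2
    · intro t ht _
      exact h0 i hi t ht
  refine le_trans ?_ (Finset.sum_le_sum h1)
  rw [Finset.sum_comm]
  apply Finset.sum_le_sum
  intro t ht
  obtain ⟨i, hi, hti⟩ := h t ht
  have h2 := Finset.single_le_sum (f := fun i => if t ∈ V i then g t else 0) (s := s) (by
    intro j hj
    split_ifs with hjt
    · exact h0 j hj t hjt
    · exact le_rfl) hi
  rwa [if_pos hti] at h2

theorem level_ge : ∃ C : ℝ, 0 < C ∧ ∀ ε : ℝ, 0 < ε → ε ≤ 1 / 4 → ∃ A0 : ℝ, 1 ≤ A0 ∧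
    ∀ A : ℝ, A0 ≤ A → ∀ j : ℕ, 1 ≤ j → ∀ (N : ℝ) (K : ℕ), (K : ℝ) ≤ N →
      Real.exp (3 * (MRS.lp A (j + 1)) ^ 2) ≤ N → ∀ cc : GI → ℂ, CG cc →
      open Classical in
      ∑ k ∈ (Icc (-(K : ℤ)) (K : ℤ)).filter (fun k => Good cc A ε (j + 1) k ∧ ¬ Good cc A ε j k),
        fw K k * ‖sp (pan N (3 * N)) cc k‖ ^ 2 ≤ C / A * (1 / 2) ^ j * N ^ 2 := by
  obtain ⟨C₀, hC₀, hsplit⟩ := split
  obtain ⟨C₂, hC₂, hloc⟩ := loc_two
  obtain ⟨A1, hA1, hfacts⟩ := pset_facts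
  refine ⟨C₂ + 6 * C₀, by positivity, fun ε hε hε4 => ?_⟩
  obtain ⟨A2, hA2, hnum⟩ := Lev.num ε hε
  refine ⟨max A1 (max A2 (Real.log C₂)), le_trans hA1 (le_max_left _ _),
    fun A hA j hj N K hKN hN cc hf => ?_⟩
  classical
  have hAA1 : A1 ≤ A := le_trans (le_max_left _ _) hA
  have hAA2 : A2 ≤ A := le_trans ((le_max_left _ _).trans (le_max_right _ _)) hA
  have hAC : Real.log C₂ ≤ A := le_trans ((le_max_right _ _).trans (le_max_right _ _)) hA
  have hA3 : 3 ≤ A := hA2.trans hAA2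
  obtain ⟨hf1, hf3, hf4⟩ := hfacts A hAA1 (j + 1) (by omega)
  obtain ⟨hg1, hg3, hg4⟩ := hfacts A hAA1 j hj
  obtain ⟨a, ha, hya, ha3, hn1, hn2, hn3, hn3', hn4, hn5, hn7, hn8⟩ :=
    Lev.level_facts A2 hA2 ε hnum A hAA2 j
  obtain ⟨-, -, -, -, -, -, hm3, -, -, -, hm7, hm8⟩ :=
    Lev.level_facts A2 hA2 ε hnum A hAA2 (j + 1)
  obtain ⟨hP, hZ⟩ := Lev.pset_Z A (j + 1)
  obtain ⟨hP', hZ'⟩ := Lev.pset_Z A j
  have hY : MRS.lp A (j + 1) = (MRS.lp A j) ^ 3 := by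
    unfold MRS.lp
    rw [← Real.exp_nat_mul]
    congr 1
    push_cast
    ring
  rw [hY] at hf3 hf4
  have hN0 : 0 < N := lt_of_lt_of_le (Real.exp_pos _) hN
  have hN1 : 1 ≤ N := (Real.one_le_exp (by positivity)).trans hN
  have h2j : (1 : ℝ) ≤ 2 ^ j := one_le_pow₀ (by norm_num)
  have h3j : (2 : ℝ) ^ j ≤ 3 ^ j := pow_le_pow_left₀ (by norm_num) (by norm_num) j
  have hB : (1 : ℝ) ≤ A * 2 ^ j := by
    have h6 : A * 1 ≤ A * 2 ^ j := mul_le_mul_of_nonneg_left h2j (by linarith)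
    linarith
  have hA0 : 0 ≤ A := by linarith
  have e3 : A * 3 ^ (j + 1) = 3 * (A * 3 ^ j) := by ring
  have hrs : A * 2 ^ j / 4 ≤ rs (pset A (j + 1)) := by
    have h5 := mul_le_mul_of_nonneg_left h3j hA0
    have h6 : 0 ≤ A * 2 ^ j := by positivity
    linarith
  have hrs1 : 1 ≤ rs (pset A (j + 1)) := by
    have h3j1 : (1 : ℝ) ≤ 3 ^ j := one_le_pow₀ (by norm_num)
    have h5 : A * 1 ≤ A * 3 ^ j := mul_le_mul_of_nonneg_left h3j1 hA0
    linarith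
  have hHH : A * 2 ^ j ≤ (HH A (j + 1) : ℝ) := by
    have e2 : A * 2 ^ (j + 1) = 2 * (A * 2 ^ j) := by ring
    linarith
  have hy1 : 9600 ≤ MRS.lp A j := by linarith
  have hBY : A * 2 ^ j ≤ (MRS.lp A (j + 1)) ^ 2 / 2 := by
    have e6 : ((MRS.lp A j) ^ 3) ^ 2 = (MRS.lp A j) ^ 6 := by ring
    rw [hY, e6]
    have h1 : (MRS.lp A j) ^ 2 ≤ (MRS.lp A j) ^ 6 :=
      pow_le_pow_right₀ (by linarith) (by norm_num)
    have h2 : A * 2 ^ j ≤ MRS.lp A j := by linarith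
    have h3 : MRS.lp A j * 2 ≤ MRS.lp A j * MRS.lp A j :=
      mul_le_mul_of_nonneg_left (by linarith) (by linarith)
    have h4 : MRS.lp A j * MRS.lp A j = (MRS.lp A j) ^ 2 := by ring
    linarith
  have herr := Lev.err A N (j + 1) (A * 2 ^ j) hB hrs hHH hBY hN
  set U := (Icc (-(K : ℤ)) (K : ℤ)).filter (fun k => Good cc A ε (j + 1) k ∧ ¬ Good cc A ε j k)
    with hU
  have hmain := hsplit cc hf (pset A (j + 1)) hP _ (Real.one_le_exp (by positivity)) hZ hrs1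
    (HH A (j + 1)) hm8 N hN1 K hKN U (filter_subset _ _)
  refine hmain.trans ?_
  have hq : A * 2 ^ j = A / (1 / 2) ^ j := by
    rw [one_div, inv_pow, div_inv_eq_mul]
  have hcard : ((vs (HH A (j + 1)) (pset A (j + 1))).card : ℝ) ≤ 2 * (MRS.lp A j) ^ 7 := by
    refine hf3.trans ?_
    have h1 : (HH A (j + 1) : ℝ) * ((MRS.lp A j) ^ 3) ^ 2 ≤ MRS.lp A j * ((MRS.lp A j) ^ 3) ^ 2 :=
      mul_le_mul_of_nonneg_right (by linarith) (by positivity)
    have h2 : (1 : ℝ) ≤ (MRS.lp A j) ^ 7 := one_le_pow₀ (by linarith)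
    have h3 : MRS.lp A j * ((MRS.lp A j) ^ 3) ^ 2 = (MRS.lp A j) ^ 7 := by ring
    linarith
  have hcard' : ((vs (HH A j) (pset A j)).card : ℝ) ≤ 2 * (MRS.lp A j) ^ 3 := by
    refine hg3.trans ?_
    have h1 : (HH A j : ℝ) * (MRS.lp A j) ^ 2 ≤ MRS.lp A j * (MRS.lp A j) ^ 2 :=
      mul_le_mul_of_nonneg_right (by linarith) (by positivity)
    have h2 : (1 : ℝ) ≤ (MRS.lp A j) ^ 3 := one_le_pow₀ (by linarith)
    have h3 : MRS.lp A j * (MRS.lp A j) ^ 2 = (MRS.lp A j) ^ 3 := by ring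
    linarith
  -- the part of the range attached to `u`
  set V : ℕ → Finset ℤ := fun u => (Icc (-(K : ℤ)) (K : ℤ)).filter (fun k =>
    Good cc A ε (j + 1) k ∧ Real.exp ((1 - al ε j) * (u / HH A j)) ≤
          ‖sp (pb (HH A j) (pset A j) u) cc k‖) with hV
  -- one pair `(v, u)`
  have hterm : ∀ v ∈ vs (HH A (j + 1)) (pset A (j + 1)), ∀ u ∈ vs (HH A j) (pset A j),
      ∑ k ∈ V u, fw K k * ‖sp (pb (HH A (j + 1)) (pset A (j + 1)) v) cc k *
          sp (pan (N / Real.exp (v / HH A (j + 1))) (3 * (N / Real.exp (v / HH A (j + 1)))))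
            cc k‖ ^ 2 ≤
      C₂ * N ^ 2 * Real.exp (-(MRS.lp A j) ^ 2) := by
    intro v hv u hu
    obtain ⟨hv1, hv2⟩ := hf4 v hv
    obtain ⟨hu1, hu2⟩ := hg4 u hu
    have hw0 : 0 < (u : ℝ) / HH A j := by linarith
    have hx0 : 0 ≤ (v : ℝ) / HH A (j + 1) := by positivity
    set l : ℕ := ⌈((v : ℝ) / HH A (j + 1)) / ((u : ℝ) / HH A j)⌉₊ with hl
    have hl1 : ((v : ℝ) / HH A (j + 1)) / ((u : ℝ) / HH A j) ≤ (l : ℝ) := Nat.le_ceil _
    have hl2 : (l : ℝ) ≤ ((v : ℝ) / HH A (j + 1)) / ((u : ℝ) / HH A j) + 1 :=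
      (Nat.ceil_lt_add_one (by positivity)).le
    have hl3 : (v : ℝ) / HH A (j + 1) ≤ l * ((u : ℝ) / HH A j) := by
      rwa [div_le_iff₀ hw0] at hl1
    have hH2 : 2 ≤ HH A j := by
      have h6 : A * 1 ≤ A * 2 ^ j := mul_le_mul_of_nonneg_left h2j hA0
      have h5 : (2 : ℝ) ≤ (HH A j : ℝ) := by linarith
      exact_mod_cast h5
    have hvN : Real.exp ((v : ℝ) / HH A (j + 1)) ≤ N := by
      refine le_trans (Real.exp_le_exp.mpr hv2) (le_trans (Real.exp_le_exp.mpr ?_) hN)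
      rw [hY]
      linarith [sq_nonneg ((MRS.lp A j) ^ 3)]
    have h1 := hloc cc hf (pb (HH A (j + 1)) (pset A (j + 1)) v) (pb (HH A j) (pset A j) u)
      (fun p hp => hP' p (mem_pb hn8 hP' hp).1) (HH A (j + 1)) (HH A j) v u l hm8 hn8
      (rs_pb_le hH2 hP' u) (fun p hp => ⟨(mem_pb hn8 hP' hp).2.1, (mem_pb hn8 hP' hp).2.2.le⟩)
      hl3 N (al ε (j + 1)) (al ε j) K hKN hvN (V u) (filter_subset _ _)
      (fun k hk => (mem_filter.mp hk).2.1 v hv) (fun k hk => (mem_filter.mp hk).2.2)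
    refine h1.trans ?_
    -- numerics
    have hq1 : 1 / a ≤ (1 / 2 : ℝ) ^ j := by
      rw [one_div_pow]
      exact one_div_le_one_div_of_le (by positivity) hn3'
    have hq0 : (0 : ℝ) < (1 / 2 : ℝ) ^ j := by positivity
    have hq2 : (1 / 2 : ℝ) ^ j ≤ 1 := pow_le_one₀ (by norm_num) (by norm_num)
    have hexpo := Lge.expo ε a (MRS.lp A j) ((v : ℝ) / HH A (j + 1)) ((u : ℝ) / HH A j)
      ((1 / 2) ^ j) (al ε j) (al ε (j + 1)) l hε hε4 ha3 hn2 hn1 (by linarith) hu1 hu2 hl2 hq1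
      (by unfold al; ring) (by unfold al; linarith [mul_nonneg hε.le hq0.le])
      (by unfold al; exact mul_nonneg hε.le (by linarith))
    have hlp : ((l : ℝ) + 1) ^ l ≤ Real.exp (7 * a * l) := by
      have h5 : (l : ℝ) + 1 ≤ Real.exp (7 * a) := by
        have e1 : ((v : ℝ) / HH A (j + 1)) / ((u : ℝ) / HH A j) ≤ (v : ℝ) / HH A (j + 1) :=
          div_le_self hx0 (by linarith)
        have e2 : Real.exp (7 * a) = (MRS.lp A j) ^ 7 := by
          rw [hya, ← Real.exp_nat_mul]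
          norm_num
        have e3 : ((MRS.lp A j) ^ 3) ^ 2 = (MRS.lp A j) ^ 6 := by ring
        have e4 : (2 : ℝ) + (MRS.lp A j) ^ 6 ≤ (MRS.lp A j) ^ 7 := by
          have e5 : (1 : ℝ) ≤ (MRS.lp A j) ^ 6 := one_le_pow₀ (by linarith)
          have e6 : (MRS.lp A j) ^ 7 = MRS.lp A j * (MRS.lp A j) ^ 6 := by ring
          have e7 : 3 * (MRS.lp A j) ^ 6 ≤ MRS.lp A j * (MRS.lp A j) ^ 6 :=
            mul_le_mul_of_nonneg_right (by linarith) (by linarith)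
          linarith
        rw [e2]
        linarith
      calc ((l : ℝ) + 1) ^ l ≤ (Real.exp (7 * a)) ^ l := pow_le_pow_left₀ (by positivity) h5 l
        _ = Real.exp (7 * a * l) := by rw [← Real.exp_nat_mul]; ring_nf
    have haA : A ≤ a := by
      rw [ha]
      have : (1 : ℝ) ≤ 3 ^ j := one_le_pow₀ (by norm_num)
      exact le_mul_of_one_le_right hA0 this
    have hCl : C₂ ^ (l + 1) ≤ C₂ * Real.exp (a * l) := by
      have h5 : C₂ ≤ Real.exp a := by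
        rw [← Real.log_le_iff_le_exp (by linarith)]
        exact hAC.trans haA
      have h6 : C₂ ^ l ≤ Real.exp (a * l) := by
        calc C₂ ^ l ≤ (Real.exp a) ^ l := pow_le_pow_left₀ (by linarith) h5 l
          _ = Real.exp (a * l) := by rw [← Real.exp_nat_mul]; ring_nf
      rw [pow_succ, mul_comm]
      exact mul_le_mul_of_nonneg_left h6 (by linarith)
    have hdiv : 2 * (l : ℝ) / HH A j ≤ 2 * l := by
      apply div_le_self (by positivity)
      exact_mod_cast hn8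
    calc C₂ ^ (l + 1) * N ^ 2 * ((l : ℝ) + 1) ^ l *
        Real.exp (-2 * al ε (j + 1) * (v / HH A (j + 1)) + 2 * al ε j * (l * (u / HH A j)) +
          2 * l / HH A j)
        ≤ (C₂ * Real.exp (a * l)) * N ^ 2 * Real.exp (7 * a * l) *
          Real.exp (-2 * al ε (j + 1) * (v / HH A (j + 1)) + 2 * al ε j * (l * (u / HH A j)) +
          2 * l) := by
          gcongr
      _ = C₂ * N ^ 2 * (Real.exp (a * l) * (Real.exp (7 * a * l) *
          Real.exp (-2 * al ε (j + 1) * (v / HH A (j + 1)) + 2 * al ε j * (l * (u / HH A j)) +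
          2 * l))) := by ring
      _ = C₂ * N ^ 2 * Real.exp (8 * a * l + (-2 * al ε (j + 1) * (v / HH A (j + 1)) +
          2 * al ε j * (l * (u / HH A j)) + 2 * l)) := by
          rw [← Real.exp_add, ← Real.exp_add]
          congr 2
          ring
      _ ≤ C₂ * N ^ 2 * Real.exp (-(MRS.lp A j) ^ 2) := by
          apply mul_le_mul_of_nonneg_left _ (by positivity)
          exact Real.exp_le_exp.mpr hexpo
  have hsum : (∑ v ∈ vs (HH A (j + 1)) (pset A (j + 1)),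
      ∑ k ∈ U, fw K k * ‖sp (pb (HH A (j + 1)) (pset A (j + 1)) v) cc k *
          sp (pan (N / Real.exp (v / HH A (j + 1))) (3 * (N / Real.exp (v / HH A (j + 1)))))
            cc k‖ ^ 2) ≤
      ((vs (HH A (j + 1)) (pset A (j + 1))).card : ℝ) * (((vs (HH A j) (pset A j)).card : ℝ) *
        (C₂ * N ^ 2 * Real.exp (-(MRS.lp A j) ^ 2))) := by
    rw [← nsmul_eq_mul]
    apply Finset.sum_le_card_nsmul
    intro v hv
    refine (Lge.union_bound (vs (HH A j) (pset A j)) _ V ?_ _ ?_).trans ?_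
    · intro k hk
      obtain ⟨hk0, ht1, ht2⟩ := mem_filter.mp hk
      unfold Good at ht2
      push Not at ht2
      obtain ⟨u, hu, hlt⟩ := ht2
      exact ⟨u, hu, mem_filter.mpr ⟨hk0, ht1, hlt.le⟩⟩
    · intro u _ k hk
      exact mul_nonneg (Lev.fw_nonneg (mem_filter.mp hk).1) (by positivity)
    · rw [← nsmul_eq_mul]
      apply Finset.sum_le_card_nsmul
      intro u hu
      exact hterm v hv u hu
  have hexp : 16 * (MRS.lp A j) ^ 17 * Real.exp (-(MRS.lp A j) ^ 2) ≤ 1 / (A / (1 / 2) ^ j) := by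
    rw [← hq, Real.exp_neg, ← div_eq_mul_inv, div_le_div_iff₀ (Real.exp_pos _) (by linarith)]
    have h2 : 8 * (A * 2 ^ j) ≤ MRS.lp A j := by linarith
    have h3 : 0 ≤ (MRS.lp A j) ^ 17 := by positivity
    calc 16 * (MRS.lp A j) ^ 17 * (A * 2 ^ j) = 2 * ((MRS.lp A j) ^ 17 * (8 * (A * 2 ^ j))) := by ring
      _ ≤ 2 * ((MRS.lp A j) ^ 17 * MRS.lp A j) := by
          have := mul_le_mul_of_nonneg_left h2 h3
          linarith
      _ = 2 * (MRS.lp A j) ^ 18 := by ring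
      _ ≤ 1 * Real.exp ((MRS.lp A j) ^ 2) := by
          rw [one_mul]
          exact Lge.exp_sq _ hy1
  rw [hq] at herr
  exact Lge.fin_ge _ _ _ _ (MRS.lp A j) _ N A ((1 / 2) ^ j) C₀ C₂ (Nat.cast_nonneg _)
    (Nat.cast_nonneg _) (by linarith) (by linarith) hC₀ (by linarith) hN0 (Real.exp_pos _).le
    hcard hcard' hsum herr (by positivity) hexp

end Pool.Agent.FCH
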