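import Pool.Agent.FCH.Top
import Pool.Agent.FCH.LevGe
import Pool.Agent.FCH.Bad

set_option autoImplicit false

/-! Module COR: port of `MR/ACore.lean` (no tail; the exceptional set is `{k ≠ 0, ¬ Good J}`). -/

open Finset

namespace Pool.Agent.FCH

open Pool.Agent.MRS hiding Good

theorem COR_lp_mono (A : ℝ) (hA : 0 ≤ A) {i j : ℕ} (hij : i ≤ j) : MRS.lp A i ≤ MRS.lp A j := by
  unfold MRS.lp
  apply Real.exp_le_exp.mpr
  apply mul_le_mul_of_nonneg_left _ hA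
  exact pow_le_pow_right₀ (by norm_num) hij

theorem COR_lp_pos (A : ℝ) (j : ℕ) : 0 < MRS.lp A j := Real.exp_pos _

theorem COR_lp_tendsto (A : ℝ) (hA : 0 < A) (B : ℝ) : ∃ j : ℕ, B < (MRS.lp A (j + 1)) ^ 2 := by
  have h1 : Filter.Tendsto (fun j : ℕ => (3 : ℝ) ^ (j + 1)) Filter.atTop Filter.atTop :=
    (tendsto_pow_atTop_atTop_of_one_lt (by norm_num)).comp (Filter.tendsto_add_atTop_nat 1)
  have h2 := (h1.const_mul_atTop hA).eventually_gt_atTop (max B 0)
  obtain ⟨j, hj⟩ := h2.exists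
  refine ⟨j, ?_⟩
  have h3 : A * 3 ^ (j + 1) + 1 ≤ MRS.lp A (j + 1) := Real.add_one_le_exp _
  have h4 : B < MRS.lp A (j + 1) := by
    have := le_max_left B 0
    linarith
  have h5 : 1 ≤ MRS.lp A (j + 1) := by
    have := le_max_right B 0
    linarith
  nlinarith

theorem COR_geom (J : ℕ) : ∑ j ∈ Ico 1 J, (1 / 2 : ℝ) ^ j ≤ 1 := by
  rcases Nat.eq_zero_or_pos J with h0 | h0
  · rw [h0]
    simp
  have e3 : ∀ m : ℕ, 1 ≤ m → ∑ j ∈ Ico 1 m, (1 / 2 : ℝ) ^ j = 1 - (1 / 2) ^ (m - 1) := by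
    intro m hm
    induction m, hm using Nat.le_induction with
    | base => simp
    | succ m hm ih =>
      rw [Finset.sum_Ico_succ_top hm, ih]
      obtain ⟨r, rfl⟩ : ∃ r, m = r + 1 := ⟨m - 1, by omega⟩
      simp only [Nat.add_sub_cancel]
      ring
  rw [e3 J h0]
  have : (0 : ℝ) ≤ (1 / 2) ^ (J - 1) := by positivity
  linarith

theorem core (cc : GI → ℂ) (hf : CG cc) (E0 : Finset ℤ) (hpw : PW cc E0)
    (η : ℝ) (hη : 0 < η) : ∃ h0 : ℝ, 1 ≤ h0 ∧ ∀ h : ℝ, h0 ≤ h →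
    ∃ N0 : ℝ, 1 ≤ N0 ∧ ∀ N : ℝ, N0 ≤ N → ∀ K : ℕ, (K : ℝ) ≤ N / h →
    ∑ k ∈ (Icc (-(K : ℤ)) (K : ℤ)) \ E0, fw K k * ‖sp (pan N (3 * N)) cc k‖ ^ 2
      ≤ η * N ^ 2 := by
  classical
  obtain ⟨ε0, N1, hε0, hN1, hTop⟩ := top_bound cc hf E0 hpw (η / 4) (by positivity)
  set ε : ℝ := min (ε0 / 8) (1 / 4) with hεdef
  have hε : 0 < ε := lt_min (by positivity) (by norm_num)
  have hε4 : ε ≤ 1 / 4 := min_le_right _ _
  have hε8 : 8 * ε ≤ ε0 := by
    have := min_le_left (ε0 / 8) (1 / 4 : ℝ)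
    linarith
  obtain ⟨K1, hK1, hl1⟩ := level_one
  obtain ⟨A1, hA1, hl1⟩ := hl1 ε hε hε4
  obtain ⟨K2, hK2, hl2⟩ := level_ge
  obtain ⟨A2, hA2, hl2⟩ := hl2 ε hε hε4
  obtain ⟨A3, hA3, hl3⟩ := meas_bad
  set A : ℝ := max A1 (max A2 (max A3 (4 * (K1 + K2) / η))) with hAdef
  have hAA1 : A1 ≤ A := le_max_left _ _
  have hAA2 : A2 ≤ A := (le_max_left _ _).trans (le_max_right _ _)
  have hAA3 : A3 ≤ A := (le_max_left _ _).trans ((le_max_right _ _).trans (le_max_right _ _))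
  have hAA4 : 4 * (K1 + K2) / η ≤ A :=
    (le_max_right _ _).trans ((le_max_right _ _).trans (le_max_right _ _))
  have hA0 : 0 < A := by linarith
  have hKA : (K1 + K2) / A ≤ η / 4 := by
    rw [div_le_iff₀ hA0]
    rw [div_le_iff₀ hη] at hAA4
    linarith
  have hl1 := hl1 A hAA1
  have hl2 := hl2 A hAA2
  obtain ⟨Nm, hl3⟩ := hl3 A hAA3 ε hε hε4
  refine ⟨Real.exp ((MRS.lp A 1) ^ 2), Real.one_le_exp (by positivity), fun h hh => ?_⟩
  have hh1 : 1 ≤ h := (Real.one_le_exp (by positivity)).trans hh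
  have hev1 : ∀ᶠ N : ℝ in Filter.atTop, (MRS.lp A 1) ^ 2 ≤ √(Real.log N) :=
    (Real.tendsto_sqrt_atTop.comp Real.tendsto_log_atTop).eventually_ge_atTop _
  have hev2 : ∀ᶠ N : ℝ in Filter.atTop, 9 ≤ Real.log N :=
    Real.tendsto_log_atTop.eventually_ge_atTop _
  obtain ⟨Nx, hNx⟩ := Filter.eventually_atTop.mp (hev1.and hev2)
  refine ⟨max 1 (max N1 (max Nm Nx)), le_max_left _ _, fun N hN K hKN => ?_⟩
  have hb1 : 1 ≤ N := (le_max_left _ _).trans hN
  have hb2 : N1 ≤ N := ((le_max_left _ _).trans (le_max_right _ _)).trans hN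
  have hb4 : Nm ≤ N :=
    ((le_max_left _ _).trans ((le_max_right _ _).trans (le_max_right _ _))).trans hN
  have hb5 : Nx ≤ N :=
    ((le_max_right _ _).trans ((le_max_right _ _).trans (le_max_right _ _))).trans hN
  obtain ⟨hs1, hs2⟩ := hNx N hb5
  have hN0 : 0 < N := by linarith
  have hlogN : Real.exp (Real.log N) = N := Real.exp_log hN0
  have hh0 : 0 < h := by linarith
  have hKh : (K : ℝ) * h ≤ N := by rwa [le_div_iff₀ hh0] at hKN
  have hK0 : (0 : ℝ) ≤ K := Nat.cast_nonneg _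
  have hKN' : (K : ℝ) ≤ N := by nlinarith
  have hKe : (K : ℝ) * Real.exp ((MRS.lp A 1) ^ 2) ≤ N :=
    (mul_le_mul_of_nonneg_left hh hK0).trans hKh
  set F : ℤ → ℝ := fun k => fw K k * ‖sp (pan N (3 * N)) cc k‖ ^ 2 with hFdef
  have hF0 : ∀ k ∈ Icc (-(K : ℤ)) (K : ℤ), 0 ≤ F k := by
    intro k hk
    simp only [hFdef]
    exact mul_nonneg (fw_nonneg hk) (by positivity)
  have hcover : ∀ S T U : Finset ℤ, S ⊆ T ∪ U → T ⊆ Icc (-(K : ℤ)) (K : ℤ) →
      U ⊆ Icc (-(K : ℤ)) (K : ℤ) → ∑ k ∈ S, F k ≤ ∑ k ∈ T, F k + ∑ k ∈ U, F k := by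
    intro S T U hST hT hU
    have h1 : ∑ k ∈ S, F k ≤ ∑ k ∈ T ∪ U, F k := by
      apply Finset.sum_le_sum_of_subset_of_nonneg hST
      intro k hk _
      rcases Finset.mem_union.mp hk with h | h
      · exact hF0 k (hT h)
      · exact hF0 k (hU h)
    have h2 := Finset.sum_union_inter (s₁ := T) (s₂ := U) (f := F)
    have h3 : 0 ≤ ∑ k ∈ T ∩ U, F k :=
      Finset.sum_nonneg (fun k hk => hF0 k (hT (Finset.mem_inter.mp hk).1))
    linarith
  -- the last level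
  have hex : ∃ j : ℕ, √(Real.log N) < (MRS.lp A (j + 1)) ^ 2 := COR_lp_tendsto A hA0 _
  set J := Nat.find hex with hJdef
  have hJ1 : √(Real.log N) < (MRS.lp A (J + 1)) ^ 2 := Nat.find_spec hex
  have hJ0 : 1 ≤ J := by
    rcases Nat.eq_zero_or_pos J with h0 | h0
    · rw [h0] at hJ1
      simp only [zero_add] at hJ1
      linarith
    · exact h0
  have hJ2 : (MRS.lp A J) ^ 2 ≤ √(Real.log N) := by
    have := Nat.find_min hex (m := J - 1) (by omega)
    rw [not_lt] at this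
    have e : J - 1 + 1 = J := by omega
    rwa [e] at this
  have hsq : 3 * √(Real.log N) ≤ Real.log N := by
    have h3 : 3 ≤ √(Real.log N) := by
      rw [show (3 : ℝ) = √9 by rw [show (9 : ℝ) = 3 ^ 2 by norm_num]; simp]
      exact Real.sqrt_le_sqrt hs2
    have h4 : √(Real.log N) * √(Real.log N) = Real.log N :=
      Real.mul_self_sqrt (by linarith)
    nlinarith
  have hexp : ∀ j : ℕ, j ≤ J → Real.exp (3 * (MRS.lp A j) ^ 2) ≤ N := by
    intro j hj
    have h5 : (MRS.lp A j) ^ 2 ≤ (MRS.lp A J) ^ 2 :=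
      pow_le_pow_left₀ (COR_lp_pos A j).le (COR_lp_mono A hA0.le hj) 2
    calc Real.exp (3 * (MRS.lp A j) ^ 2) ≤ Real.exp (Real.log N) := by
          apply Real.exp_le_exp.mpr
          linarith
      _ = N := hlogN
  -- the good part
  have hgood : ∀ m : ℕ, 1 ≤ m → m ≤ J →
      ∑ k ∈ (Icc (-(K : ℤ)) (K : ℤ)).filter (fun k => Good cc A ε m k), F k
      ≤ K1 / A * N ^ 2 + ∑ j ∈ Ico 1 m, K2 / A * (1 / 2) ^ j * N ^ 2 := by
    intro m hm
    induction m, hm using Nat.le_induction with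
    | base =>
      intro _
      have h6 := hl1 N K hKe (hexp 1 hJ0) cc hf
      rw [Finset.Ico_self, Finset.sum_empty, add_zero]
      refine le_trans (le_of_eq ?_) h6
      apply Finset.sum_congr _ (fun _ _ => rfl)
      ext k
      simp only [Finset.mem_filter]
    | succ m hm ih =>
      intro hmJ
      have ih := ih (by omega)
      have hstep := hl2 m hm N K hKN' (hexp (m + 1) hmJ) cc hf
      have hcov := hcover ((Icc (-(K : ℤ)) (K : ℤ)).filter (fun k => Good cc A ε (m + 1) k))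
        ((Icc (-(K : ℤ)) (K : ℤ)).filter (fun k => Good cc A ε m k))
        ((Icc (-(K : ℤ)) (K : ℤ)).filter (fun k => Good cc A ε (m + 1) k ∧ ¬ Good cc A ε m k))
        (by
          intro k hk
          rw [Finset.mem_filter] at hk
          rw [Finset.mem_union, Finset.mem_filter, Finset.mem_filter]
          by_cases hg : Good cc A ε m k
          · exact Or.inl ⟨hk.1, hg⟩
          · exact Or.inr ⟨hk.1, hk.2, hg⟩)
        (Finset.filter_subset _ _) (Finset.filter_subset _ _)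
      rw [Finset.sum_Ico_succ_top hm]
      have hstep' : ∑ k ∈ (Icc (-(K : ℤ)) (K : ℤ)).filter
          (fun k => Good cc A ε (m + 1) k ∧ ¬ Good cc A ε m k), F k
          ≤ K2 / A * (1 / 2) ^ m * N ^ 2 := by
        refine le_trans (le_of_eq ?_) hstep
        apply Finset.sum_congr _ (fun _ _ => rfl)
        ext k
        simp only [Finset.mem_filter]
      linarith
  have hgoodJ := hgood J hJ0 le_rfl
  have hgeom : ∑ j ∈ Ico 1 J, K2 / A * (1 / 2) ^ j * N ^ 2 ≤ K2 / A * N ^ 2 := by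
    have e1 : ∑ j ∈ Ico 1 J, K2 / A * (1 / 2) ^ j * N ^ 2
        = K2 / A * N ^ 2 * ∑ j ∈ Ico 1 J, (1 / 2 : ℝ) ^ j := by
      rw [mul_sum]
      exact sum_congr rfl (fun j _ => by ring)
    rw [e1]
    have e2 := COR_geom J
    have e4 : 0 ≤ K2 / A * N ^ 2 := by positivity
    nlinarith
  -- the exceptional part
  set U : Finset ℤ := ((Icc (-(K : ℤ)) (K : ℤ)).filter (fun k => ¬ Good cc A ε J k)) \ E0
    with hUdef
  have hUs : U ⊆ Icc (-(K : ℤ)) (K : ℤ) :=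
    Finset.sdiff_subset.trans (Finset.filter_subset _ _)
  have hUv : (U.card : ℝ) ≤ N ^ ε0 := by
    have h7 := hl3 N hb4 J hJ0 hJ2 hJ1 cc hf K hKN'
    have h8 : (U.card : ℝ) ≤
        (((Icc (-(K : ℤ)) (K : ℤ)).filter (fun k => ¬ Good cc A ε J k)).card : ℝ) := by
      exact_mod_cast Finset.card_le_card Finset.sdiff_subset
    have h9 : (((Icc (-(K : ℤ)) (K : ℤ)).filter (fun k => ¬ Good cc A ε J k)).card : ℝ)
        ≤ N ^ (8 * ε) := by
      refine le_trans (le_of_eq ?_) h7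
      congr 2
    refine (h8.trans h9).trans ?_
    exact Real.rpow_le_rpow_of_exponent_le hb1 hε8
  have hUI : ∑ k ∈ U, F k ≤ η / 4 * N ^ 2 :=
    hTop N hb2 K hKN' U hUs (fun k hk => (Finset.mem_sdiff.1 hk).2) hUv
  have hc1 := hcover ((Icc (-(K : ℤ)) (K : ℤ)) \ E0)
    ((Icc (-(K : ℤ)) (K : ℤ)).filter (fun k => Good cc A ε J k)) U
    (by
      intro k hk
      rw [Finset.mem_sdiff] at hk
      rw [Finset.mem_union, hUdef, Finset.mem_filter, Finset.mem_sdiff, Finset.mem_filter]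
      by_cases hg : Good cc A ε J k
      · exact Or.inl ⟨hk.1, hg⟩
      · exact Or.inr ⟨⟨hk.1, hg⟩, hk.2⟩)
    (Finset.filter_subset _ _) hUs
  have hfin : (K1 / A * N ^ 2 + K2 / A * N ^ 2) ≤ η / 4 * N ^ 2 := by
    have : K1 / A * N ^ 2 + K2 / A * N ^ 2 = (K1 + K2) / A * N ^ 2 := by ring
    rw [this]
    exact mul_le_mul_of_nonneg_right hKA (by positivity)
  have hN2 : 0 ≤ N ^ 2 := by positivity
  nlinarith

end Pool.Agent.FCH
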