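import Pool.Agent.FCH.Base

set_option autoImplicit false

/-! Module Cov: almost every direction is covered by short arcs ending at Gaussian integers coprime to `M` (Vitali).
`sl z = im z / re z`, `I_e = [sl e - ρ/(re e)², sl e)`.  Mathlib `Vitali.exists_disjoint_covering_ae` with `s = (-1,1) \ ℚ`, index set `t` = pairs `(x, e)` with `e` admissible, `B (x,e) = Icc (sl e - ρ/re²) (sl e)` (closed, non-empty interior)
`⊆ closedBall x r`, `r = C/(re e)²`, `volume (closedBall x (3r)) ≤ C' volume B`.  Fineness: for `x ∈ (-1,1)` irrational and `ε > 0` we need an admissible `e` with `re e` large and `|sl e - x| ≤ C₁/(re e)²`, `C₁ = C₁(M)`.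
Dirichlet (`Real.infinite_rat_abs_sub_lt_one_div_den_sq_of_irrational`): a reduced fraction `a/n`, `n` large, `|x - a/n| < 1/n²`; `g = n + a i` primitive; let `g' = n' + a' i`, `det(g,g') = 1`, `0 ≤ n' ≤ n`.
Choose `α₀, β₀ ∈ [0, M)` with `α₀ g + β₀ g' ≡ 1 (mod M)` (`(g,g')` is a basis of `ℤ²`: `α₀ ≡ det(1, g')`, `β₀ ≡ det(g, 1)` mod `M`), `β := β₀ + M` (so `1 ≤ β < 2M`), and `α ≡ α₀ (mod M)`, `1 ≤ α ≤ 2 M²`, coprime to `β` (possible: for a prime `q ∣ β`, `q ∣ M`: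
`q ∤ α₀` since `(α₀,β₀) ≢ (0,0)` mod `q`; for `q ∣ β`, `q ∤ M`: avoid one class mod `q`; CRT).  `e = α g + β g'` is primitive, `≡ 1 (mod M)`, so `N(e) ≡ 1 (mod M)`, `n ≤ re e ≤ 4M² n`, and
`|sl e - sl g| = β/(n re e) ≤ 2M/n²`.
From the countable disjoint family (total measure `2`) take a finite subfamily of total measure `≥ 2 - δ`.  All `B ⊆ [-1,1]` (restrict the index set to those). -/

open Finset MeasureTheory

namespace Pool.Agent.FCH

open Pool.Agent.MRS hiding Good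

/-- slope -/
noncomputable def sl (z : GI) : ℝ := (z.im : ℝ) / z.re

theorem Cov_lift {M β : ℕ} (hM : 1 ≤ M) (hβ : 1 ≤ β) (a' : ℤ) (h : IsCoprime a' ((Nat.gcd M β : ℕ) : ℤ)) :
    ∃ α : ℕ, 1 ≤ α ∧ α ≤ 2 * M * β ∧ (M : ℤ) ∣ (α : ℤ) - a' ∧ Nat.Coprime α β := by
  have hM0 : (M : ℤ) ≠ 0 := by omega
  have : NeZero β := ⟨by omega⟩
  obtain ⟨a0, ha0⟩ : ∃ a0 : ℕ, (a0 : ℤ) = a' % M :=
    ⟨(a' % M).toNat, Int.toNat_of_nonneg (Int.emod_nonneg _ hM0)⟩
  have hdvd : (M : ℤ) ∣ (a0 : ℤ) - a' := by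
    rw [ha0]
    exact ⟨-(a' / M), by have := Int.emod_add_mul_ediv a' M; linarith⟩
  have hcop0 : Nat.Coprime a0 (Nat.gcd M β) := by
    have hg : ((Nat.gcd M β : ℕ) : ℤ) ∣ (a0 : ℤ) - a' :=
      dvd_trans (by exact_mod_cast Nat.gcd_dvd_left M β) hdvd
    obtain ⟨c, hc⟩ := hg
    have : IsCoprime (a0 : ℤ) ((Nat.gcd M β : ℕ) : ℤ) := by
      have h1 : (a0 : ℤ) = a' + ((Nat.gcd M β : ℕ) : ℤ) * c := by linarith
      rw [h1]
      exact (IsCoprime.add_mul_left_left_iff).2 h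
    exact_mod_cast (Nat.isCoprime_iff_coprime.1 this)
  obtain ⟨v, hv⟩ := ZMod.unitsMap_surjective (Nat.gcd_dvd_right M β) (ZMod.unitOfCoprime a0 hcop0)
  have hv1 : ((v : ZMod β).val : ZMod (Nat.gcd M β)) = (a0 : ZMod (Nat.gcd M β)) := by
    have h1 := congrArg (fun u : (ZMod (Nat.gcd M β))ˣ => (u : ZMod (Nat.gcd M β))) hv
    simp only [ZMod.unitsMap_val, ZMod.coe_unitOfCoprime] at h1
    rw [← h1, ZMod.natCast_val]
  have hmod : a0 ≡ (v : ZMod β).val [MOD Nat.gcd M β] := (ZMod.natCast_eq_natCast_iff _ _ _).1 hv1.symm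
  set k := Nat.chineseRemainder' hmod with hk
  have hk1 : (k : ℕ) ≡ a0 [MOD M] := k.2.1
  have hk2 : (k : ℕ) ≡ (v : ZMod β).val [MOD β] := k.2.2
  have hk3 : (k : ℕ) < Nat.lcm M β := Nat.chineseRemainder'_lt_lcm hmod (by omega) (by omega)
  have hk4 : Nat.lcm M β ≤ M * β := Nat.lcm_le_mul (by omega) (by omega)
  have hMβ : 1 ≤ M * β := Nat.mul_pos (by omega) (by omega)
  refine ⟨(k : ℕ) + M * β, by omega, ?_, ?_, ?_⟩
  · have : 2 * M * β = M * β + M * β := by ring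
    omega
  · have h1 : (M : ℤ) ∣ ((k : ℕ) : ℤ) - a0 := by
      have := (Nat.modEq_iff_dvd.1 hk1.symm)
      exact this
    have h2 : ((((k : ℕ) + M * β : ℕ)) : ℤ) - a' = (((k : ℕ) : ℤ) - a0) + ((a0 : ℤ) - a') + M * β := by
      push_cast; ring
    rw [h2]
    exact dvd_add (dvd_add h1 hdvd) (dvd_mul_right _ _)
  · have h1 : Nat.Coprime (v : ZMod β).val β := ZMod.val_coe_unit_coprime v
    have h2 : (k : ℕ) + M * β ≡ (v : ZMod β).val [MOD β] := by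
      have : (k : ℕ) + M * β ≡ (k : ℕ) [MOD β] := by
        unfold Nat.ModEq
        simp
      exact this.trans hk2
    unfold Nat.Coprime at h1 ⊢
    rw [h2.gcd_eq]
    exact h1

theorem Cov_approx (M : ℕ) (hM : 1 ≤ M) (x : ℝ) (q : ℚ) (hq : |x - q| < 1 / (q.den : ℝ) ^ 2) :
    ∃ e : GI, Pr e ∧ (q.den : ℤ) ≤ e.re ∧ Nat.Coprime (nm e) M ∧
      |sl e - x| ≤ 48 * (M : ℝ) ^ 4 / (e.re : ℝ) ^ 2 := by
  -- the basis
  obtain ⟨n, hn⟩ : ∃ n : ℤ, n = q.den := ⟨_, rfl⟩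
  obtain ⟨a, ha⟩ : ∃ a : ℤ, a = q.num := ⟨_, rfl⟩
  have hn0 : 0 < n := by rw [hn]; exact_mod_cast q.den_pos
  have hcop : IsCoprime n a := by
    rw [hn, ha]
    have := q.reduced
    rw [Int.isCoprime_iff_gcd_eq_one]
    unfold Nat.Coprime at this
    rw [Int.gcd_comm]
    simpa [Int.gcd] using this
  obtain ⟨u, v, huv⟩ := hcop
  obtain ⟨n', a', h1, hn'0, hn'1⟩ : ∃ n' a' : ℤ, n * a' - a * n' = 1 ∧ 0 ≤ n' ∧ n' < n := by
    refine ⟨(-v) % n, u - a * (-v / n), ?_, Int.emod_nonneg _ hn0.ne', Int.emod_lt_of_pos _ hn0⟩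
    have h2 := Int.emod_add_mul_ediv (-v) n
    have h3 : (-v) % n = -v - n * (-v / n) := by linarith
    rw [h3]
    have h4 : u * n + v * a = 1 := huv
    linear_combination h4
  -- β
  have hM0 : (0 : ℤ) < M := by exact_mod_cast hM
  obtain ⟨β, hβ⟩ : ∃ β : ℕ, (β : ℤ) = (-a) % M + M :=
    ⟨((-a) % M + M).toNat, Int.toNat_of_nonneg (by have := Int.emod_nonneg (-a) hM0.ne'; omega)⟩
  have hβ1 : M ≤ β := by have := Int.emod_nonneg (-a) hM0.ne'; omega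
  have hβ2 : β < 2 * M := by have := Int.emod_lt_of_pos (-a) hM0; omega
  have hβd : (M : ℤ) ∣ (β : ℤ) + a := by
    have := Int.emod_add_mul_ediv (-a) M
    exact ⟨1 - (-a / M), by rw [hβ]; linarith⟩
  have hcop' : IsCoprime a' ((Nat.gcd M β : ℕ) : ℤ) := by
    have hg1 : ((Nat.gcd M β : ℕ) : ℤ) ∣ M := by exact_mod_cast Nat.gcd_dvd_left M β
    have hg2 : ((Nat.gcd M β : ℕ) : ℤ) ∣ β := by exact_mod_cast Nat.gcd_dvd_right M β
    have hg3 : ((Nat.gcd M β : ℕ) : ℤ) ∣ a := by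
      have h2 : a = ((β : ℤ) + a) - β := by ring
      rw [h2]
      exact dvd_sub (dvd_trans hg1 hβd) hg2
    have h3 : IsCoprime a' a := ⟨n, -n', by linarith⟩
    exact h3.of_isCoprime_of_dvd_right hg3
  obtain ⟨α, hα1, hα2, hα3, hα4⟩ := Cov_lift hM (by omega) a' hcop'
  -- the element
  set e : GI := ⟨α * n + β * n', α * a + β * a'⟩ with he
  have hre : e.re = α * n + β * n' := rfl
  have him : e.im = α * a + β * a' := rfl
  have hα1' : (1 : ℤ) ≤ α := by exact_mod_cast hα1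
  have hβ0' : (0 : ℤ) ≤ β := by positivity
  have hre1 : n ≤ e.re := by
    rw [hre]
    nlinarith [mul_nonneg hβ0' hn'0]
  have hre0 : 0 < e.re := by omega
  have hre2 : e.re ≤ 6 * (M : ℤ) ^ 2 * n := by
    rw [hre]
    have h2 : (α : ℤ) ≤ 2 * M * β := by exact_mod_cast hα2
    have h3 : (β : ℤ) ≤ 2 * M := by exact_mod_cast hβ2.le
    have h4 : (α : ℤ) ≤ 4 * (M : ℤ) ^ 2 := by nlinarith
    have h5 : (β : ℤ) * n' ≤ 2 * (M : ℤ) ^ 2 * n := by
      have : (M : ℤ) ≤ (M : ℤ) ^ 2 := by nlinarith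
      have h6 : (β : ℤ) * n' ≤ (2 * M) * n := mul_le_mul h3 hn'1.le hn'0 (by positivity)
      nlinarith
    nlinarith
  have hPr : Pr e := by
    unfold Pr
    rw [← Int.isCoprime_iff_gcd_eq_one]
    obtain ⟨s, t, hst⟩ := (Nat.isCoprime_iff_coprime.2 hα4 : IsCoprime (α : ℤ) (β : ℤ))
    -- α = dt e g' , β = dt g e
    refine ⟨s * a' - t * a, -s * n' + t * n, ?_⟩
    rw [hre, him]
    linear_combination hst + (s * α + t * β) * h1
  have hnm : Nat.Coprime (nm e) M := by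
    have h2 : (M : ℤ) ∣ (nm e : ℤ) - 1 := by
      rw [nm_int, hre, him]
      obtain ⟨c, hc⟩ := hα3
      obtain ⟨d, hd⟩ := hβd
      have hα' : (α : ℤ) = a' + M * c := by linarith
      have hβ' : (β : ℤ) = -a + M * d := by linarith
      have e1 : (α : ℤ) * n + β * n' = 1 + M * (c * n + d * n') := by
        rw [hα', hβ']
        linear_combination h1
      have e2 : (α : ℤ) * a + β * a' = M * (c * a + d * a') := by
        rw [hα', hβ']
        ring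
      rw [e1, e2]
      exact ⟨2 * (c * n + d * n') + M * (c * n + d * n') ^ 2 + M * (c * a + d * a') ^ 2, by ring⟩
    obtain ⟨c, hc⟩ := h2
    have : IsCoprime (nm e : ℤ) (M : ℤ) := ⟨1, -c, by linarith⟩
    exact_mod_cast Nat.isCoprime_iff_coprime.1 this
  refine ⟨e, hPr, by rw [← hn]; exact hre1, hnm, ?_⟩
  have hnR : (0 : ℝ) < (n : ℝ) := by exact_mod_cast hn0
  have hrR : (0 : ℝ) < (e.re : ℝ) := by exact_mod_cast hre0
  have hqv : (q : ℝ) = (a : ℝ) / n := by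
    rw [ha, hn]
    have := Rat.num_div_den q
    conv_lhs => rw [← this]
    push_cast
    rfl
  have hqd : (q.den : ℝ) = (n : ℝ) := by rw [hn]; push_cast; rfl
  rw [hqv, hqd] at hq
  have hdet : (n : ℝ) * e.im - a * e.re = β := by
    have : (n : ℤ) * e.im - a * e.re = β := by
      rw [hre, him]
      linear_combination (β : ℤ) * h1
    exact_mod_cast this
  have hdiff : sl e - (a : ℝ) / n = β / (n * e.re) := by
    unfold sl
    rw [div_sub_div _ _ hrR.ne' hnR.ne']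
    rw [div_eq_div_iff (by positivity) (by positivity)]
    linear_combination ((e.re : ℝ) * n) * hdet
  have hM1 : (1 : ℝ) ≤ M := by exact_mod_cast hM
  have hre2' : (e.re : ℝ) ≤ 6 * (M : ℝ) ^ 2 * n := by exact_mod_cast hre2
  have hinv : 1 / (n : ℝ) ≤ 6 * (M : ℝ) ^ 2 / e.re := by
    rw [div_le_div_iff₀ hnR hrR]
    linarith
  have hβR : (β : ℝ) ≤ 2 * M := by exact_mod_cast hβ2.le
  have b1 : |sl e - (a : ℝ) / n| ≤ 12 * (M : ℝ) ^ 3 / (e.re : ℝ) ^ 2 := by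
    rw [hdiff, abs_of_nonneg (by positivity)]
    have : (β : ℝ) / (n * e.re) = β * (1 / n) * (1 / e.re) := by field_simp
    rw [this]
    have h5 : (β : ℝ) * (1 / n) ≤ 2 * M * (6 * (M : ℝ) ^ 2 / e.re) :=
      mul_le_mul hβR hinv (by positivity) (by positivity)
    calc (β : ℝ) * (1 / n) * (1 / e.re) ≤ 2 * M * (6 * (M : ℝ) ^ 2 / e.re) * (1 / e.re) :=
          mul_le_mul_of_nonneg_right h5 (by positivity)
      _ = 12 * (M : ℝ) ^ 3 / (e.re : ℝ) ^ 2 := by field_simp; ring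
  have b2 : |x - (a : ℝ) / n| ≤ 36 * (M : ℝ) ^ 4 / (e.re : ℝ) ^ 2 := by
    refine hq.le.trans ?_
    have : 1 / (n : ℝ) ^ 2 = (1 / n) ^ 2 := by rw [one_div_pow]
    rw [this]
    calc (1 / (n : ℝ)) ^ 2 ≤ (6 * (M : ℝ) ^ 2 / e.re) ^ 2 := pow_le_pow_left₀ (by positivity) hinv 2
      _ = 36 * (M : ℝ) ^ 4 / (e.re : ℝ) ^ 2 := by rw [div_pow]; ring
  have b3 : 12 * (M : ℝ) ^ 3 / (e.re : ℝ) ^ 2 ≤ 12 * (M : ℝ) ^ 4 / (e.re : ℝ) ^ 2 := by
    apply div_le_div_of_nonneg_right _ (by positivity)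
    have : (M : ℝ) ^ 3 ≤ (M : ℝ) ^ 4 := pow_le_pow_right₀ hM1 (by norm_num)
    linarith
  calc |sl e - x| = |(sl e - (a : ℝ) / n) - (x - (a : ℝ) / n)| := by congr 1; ring
    _ ≤ |sl e - (a : ℝ) / n| + |x - (a : ℝ) / n| := abs_sub _ _
    _ ≤ 12 * (M : ℝ) ^ 4 / (e.re : ℝ) ^ 2 + 36 * (M : ℝ) ^ 4 / (e.re : ℝ) ^ 2 := by linarith
    _ = 48 * (M : ℝ) ^ 4 / (e.re : ℝ) ^ 2 := by ring

/-- approximations with large denominators -/
theorem Cov_rat (x : ℝ) (hx : Irrational x) (N : ℕ) :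
    ∃ q : ℚ, N < q.den ∧ |x - q| < 1 / (q.den : ℝ) ^ 2 := by
  by_contra hcon
  push Not at hcon
  have hinf := Real.infinite_rat_abs_sub_lt_one_div_den_sq_of_irrational hx
  apply hinf
  obtain ⟨L, hL⟩ := exists_nat_gt (|x| + 1)
  have hfin : Set.Finite ((fun p : ℤ × ℕ => (p.1 : ℚ) / p.2) ''
      (Set.Icc (-((L * N : ℕ) : ℤ)) ((L * N : ℕ) : ℤ) ×ˢ Set.Iic N)) :=
    ((Set.finite_Icc _ _).prod (Set.finite_Iic _)).image _
  refine hfin.subset ?_
  intro q hq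
  have hq' : |x - q| < 1 / (q.den : ℝ) ^ 2 := hq
  have hden : q.den ≤ N := by
    by_contra h
    exact absurd hq' (not_lt.2 (hcon q (by omega)))
  refine ⟨(q.num, q.den), ⟨?_, hden⟩, Rat.num_div_den q⟩
  have hd1 : (1 : ℝ) ≤ q.den := by exact_mod_cast q.den_pos
  have h1 : 1 / (q.den : ℝ) ^ 2 ≤ 1 := by
    rw [div_le_one (by positivity)]
    nlinarith
  have h2 : |(q : ℝ)| < L := by
    have : |(q : ℝ)| ≤ |x| + |x - q| := by
      calc |(q : ℝ)| = |x - (x - q)| := by congr 1; ring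
        _ ≤ |x| + |x - q| := abs_sub _ _
    linarith
  have h3 : (q : ℝ) = (q.num : ℝ) / q.den := by
    conv_lhs => rw [← Rat.num_div_den q]
    push_cast
    rfl
  have h4 : |(q.num : ℝ)| ≤ L * N := by
    have h5 : (q.num : ℝ) = q * q.den := by rw [h3]; field_simp
    rw [h5, abs_mul, abs_of_pos (lt_of_lt_of_le one_pos hd1 : (0 : ℝ) < q.den)]
    have h6 : (q.den : ℝ) ≤ N := by exact_mod_cast hden
    exact mul_le_mul h2.le h6 (by positivity) (by positivity)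
  have h5 : |q.num| ≤ ((L * N : ℕ) : ℤ) := by
    have : ((|q.num| : ℤ) : ℝ) ≤ (((L * N : ℕ) : ℤ) : ℝ) := by
      push_cast
      exact h4
    exact_mod_cast this
  exact ⟨(abs_le.1 h5).1, (abs_le.1 h5).2⟩

theorem cov (M : ℕ) (hM : 1 ≤ M) (ρ : ℝ) (hρ : 0 < ρ) (δ : ℝ) (hδ : 0 < δ) :
    ∃ E : Finset GI, (∀ e ∈ E, Pr e ∧ 0 < e.re ∧ Nat.Coprime (nm e) M ∧
        -1 ≤ sl e - ρ / (e.re : ℝ) ^ 2 ∧ sl e ≤ 1) ∧
      (∀ e ∈ E, ∀ e' ∈ E, e ≠ e' → Disjoint (Set.Ico (sl e - ρ / (e.re : ℝ) ^ 2) (sl e))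
        (Set.Ico (sl e' - ρ / (e'.re : ℝ) ^ 2) (sl e'))) ∧
      2 - δ ≤ ∑ e ∈ E, ρ / (e.re : ℝ) ^ 2 := by
  classical
  set R : ℝ := 48 * (M : ℝ) ^ 4 + ρ with hR
  have hR0 : 0 < R := by positivity
  set s : Set ℝ := Set.Ioo (-1) 1 \ Set.range ((↑) : ℚ → ℝ) with hs
  set B : ℝ × GI → Set ℝ := fun a => Set.Icc (sl a.2 - ρ / (a.2.re : ℝ) ^ 2) (sl a.2) with hB
  set t : Set (ℝ × GI) := {a | (Pr a.2 ∧ 0 < a.2.re ∧ Nat.Coprime (nm a.2) M ∧
    -1 ≤ sl a.2 - ρ / (a.2.re : ℝ) ^ 2 ∧ sl a.2 ≤ 1) ∧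
    B a ⊆ Metric.closedBall a.1 (R / (a.2.re : ℝ) ^ 2)} with ht
  have g1 : ∀ a ∈ t, volume (Metric.closedBall a.1 (3 * (R / (a.2.re : ℝ) ^ 2))) ≤
      ((Real.toNNReal (6 * R / ρ) : NNReal) : ENNReal) * volume (B a) := by
    intro a ha
    have h0 : (0 : ℝ) < a.2.re := by exact_mod_cast ha.1.2.1
    rw [Real.volume_closedBall]
    simp only [hB, Real.volume_Icc]
    rw [show sl a.2 - (sl a.2 - ρ / (a.2.re : ℝ) ^ 2) = ρ / (a.2.re : ℝ) ^ 2 by ring]
    rw [show ((Real.toNNReal (6 * R / ρ) : NNReal) : ENNReal) = ENNReal.ofReal (6 * R / ρ) from rfl,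
      ← ENNReal.ofReal_mul (by positivity)]
    apply ENNReal.ofReal_le_ofReal
    apply le_of_eq
    field_simp
    ring
  have g2 : ∀ a ∈ t, (interior (B a)).Nonempty := by
    intro a ha
    have h0 : (0 : ℝ) < a.2.re := by exact_mod_cast ha.1.2.1
    simp only [hB, interior_Icc, Set.nonempty_Ioo]
    have : 0 < ρ / (a.2.re : ℝ) ^ 2 := by positivity
    linarith
  have g3 : ∀ a ∈ t, IsClosed (B a) := by
    intro a ha
    exact isClosed_Icc
  have g4 : ∀ x ∈ s, ∀ ε > (0 : ℝ), ∃ a ∈ t, R / (a.2.re : ℝ) ^ 2 ≤ ε ∧ a.1 = x := by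
    rintro x ⟨hx1, hx2⟩ ε hε
    have hirr : Irrational x := hx2
    have hgap : 0 < min ε (1 - |x|) := by
      apply lt_min hε
      have : |x| < 1 := abs_lt.2 ⟨hx1.1, hx1.2⟩
      linarith
    obtain ⟨N, hN⟩ := exists_nat_gt (R / min ε (1 - |x|))
    obtain ⟨q, hq1, hq2⟩ := Cov_rat x hirr N
    obtain ⟨e, he1, he2, he3, he4⟩ := Cov_approx M hM x q hq2
    have hd1 : (1 : ℝ) ≤ q.den := by exact_mod_cast q.den_pos
    have he2' : (q.den : ℝ) ≤ e.re := by exact_mod_cast he2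
    have hre0 : (0 : ℝ) < e.re := by linarith
    have hsmall : R / (e.re : ℝ) ^ 2 ≤ min ε (1 - |x|) := by
      have h1 : R < N * min ε (1 - |x|) := by
        rw [div_lt_iff₀ hgap] at hN
        exact hN
      have h2 : (N : ℝ) ≤ (e.re : ℝ) ^ 2 := by
        have h3 : (N : ℝ) ≤ q.den := by exact_mod_cast hq1.le
        nlinarith
      rw [div_le_iff₀ (by positivity)]
      nlinarith
    have hRsplit : R / (e.re : ℝ) ^ 2 = 48 * (M : ℝ) ^ 4 / (e.re : ℝ) ^ 2 + ρ / (e.re : ℝ) ^ 2 := by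
      rw [hR]; ring
    have hab := abs_le.1 he4
    have h48 : 0 ≤ 48 * (M : ℝ) ^ 4 / (e.re : ℝ) ^ 2 := by positivity
    have hρ' : 0 < ρ / (e.re : ℝ) ^ 2 := by positivity
    have hxl : R / (e.re : ℝ) ^ 2 ≤ 1 - |x| := hsmall.trans (min_le_right _ _)
    refine ⟨(x, e), ⟨⟨he1, by exact_mod_cast hre0, he3, ?_, ?_⟩, ?_⟩, hsmall.trans (min_le_left _ _), rfl⟩
    · show -1 ≤ sl e - ρ / (e.re : ℝ) ^ 2
      have := neg_abs_le x
      linarith [hab.1]
    · show sl e ≤ 1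
      have := le_abs_self x
      linarith [hab.2]
    · intro y hy
      have hy' : sl e - ρ / (e.re : ℝ) ^ 2 ≤ y ∧ y ≤ sl e := hy
      rw [Metric.mem_closedBall, Real.dist_eq, abs_le]
      show -(R / (e.re : ℝ) ^ 2) ≤ y - x ∧ y - x ≤ R / (e.re : ℝ) ^ 2
      constructor
      · linarith [hab.1, hy'.1]
      · linarith [hab.2, hy'.2]
  obtain ⟨u, hut, huc, hud, hu0⟩ := Vitali.exists_disjoint_covering_ae (volume : Measure ℝ) s t
    (Real.toNNReal (6 * R / ρ)) (fun a => R / (a.2.re : ℝ) ^ 2) (fun a => a.1) B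
    (fun a ha => ha.2) g1 g2 g3 g4
  -- total measure
  have hpos : ∀ a ∈ u, (0 : ℝ) < ρ / (a.2.re : ℝ) ^ 2 := by
    intro a ha
    have h0 : (0 : ℝ) < a.2.re := by exact_mod_cast (hut ha).1.2.1
    positivity
  have hmeas : (2 : ENNReal) ≤ ∑' a : u, ENNReal.ofReal (ρ / ((a : ℝ × GI).2.re : ℝ) ^ 2) := by
    have h1 : volume s = 2 := by
      rw [hs, measure_sdiff_null]
      · rw [Real.volume_Ioo]
        norm_num
      · exact (Set.countable_range _).measure_zero _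
    have h2 : volume s ≤ volume (⋃ a ∈ u, B a) := by
      calc volume s ≤ volume ((s \ ⋃ a ∈ u, B a) ∪ ⋃ a ∈ u, B a) := by
            apply measure_mono
            intro y hy
            by_cases h : y ∈ ⋃ a ∈ u, B a
            · exact Or.inr h
            · exact Or.inl ⟨hy, h⟩
        _ ≤ volume (s \ ⋃ a ∈ u, B a) + volume (⋃ a ∈ u, B a) := measure_union_le _ _
        _ = volume (⋃ a ∈ u, B a) := by rw [hu0, zero_add]
    have h3 : volume (⋃ a ∈ u, B a) = ∑' a : u, volume (B a) :=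
      measure_biUnion huc hud (fun a _ => isClosed_Icc.measurableSet)
    rw [← h1]
    refine h2.trans (le_of_eq ?_)
    rw [h3]
    apply tsum_congr
    intro a
    simp only [hB, Real.volume_Icc]
    rw [show sl (a : ℝ × GI).2 - (sl (a : ℝ × GI).2 - ρ / ((a : ℝ × GI).2.re : ℝ) ^ 2) =
      ρ / ((a : ℝ × GI).2.re : ℝ) ^ 2 by ring]
  -- a finite subfamily
  have hlt : ENNReal.ofReal (2 - δ) < ∑' a : u, ENNReal.ofReal (ρ / ((a : ℝ × GI).2.re : ℝ) ^ 2) := by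
    refine lt_of_lt_of_le ?_ hmeas
    rw [show (2 : ENNReal) = ENNReal.ofReal 2 by norm_num]
    exact (ENNReal.ofReal_lt_ofReal_iff (by norm_num)).2 (by linarith)
  rw [ENNReal.tsum_eq_iSup_sum] at hlt
  obtain ⟨T, hT⟩ := lt_iSup_iff.1 hlt
  have hinj : Set.InjOn (fun a : u => (a : ℝ × GI).2) (T : Set u) := by
    intro a _ a' _ haa
    by_contra hne
    have hne' : (a : ℝ × GI) ≠ a' := fun h => hne (Subtype.ext h)
    have hdis := hud a.2 a'.2 hne'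
    have haa' : (a : ℝ × GI).2 = (a' : ℝ × GI).2 := haa
    have hBB : B a = B a' := by simp only [hB]; rw [haa']
    have hne0 : (B a).Nonempty := by
      refine ⟨sl (a : ℝ × GI).2, ?_⟩
      have := hpos a a.2
      exact ⟨by linarith, le_refl _⟩
    have hdis' : Disjoint (B a) (B a') := hdis
    rw [← hBB, disjoint_self] at hdis'
    exact hne0.ne_empty hdis'
  refine ⟨T.image (fun a : u => (a : ℝ × GI).2), ?_, ?_, ?_⟩
  · intro e he
    obtain ⟨a, _, rfl⟩ := Finset.mem_image.1 he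
    exact (hut a.2).1
  · intro e he e' he' hne
    obtain ⟨a, _, rfl⟩ := Finset.mem_image.1 he
    obtain ⟨a', _, rfl⟩ := Finset.mem_image.1 he'
    have hne' : (a : ℝ × GI) ≠ a' := fun h => hne (by rw [h])
    have hdis : Disjoint (B a) (B a') := hud a.2 a'.2 hne'
    exact hdis.mono Set.Ico_subset_Icc_self Set.Ico_subset_Icc_self
  · rw [Finset.sum_image (fun a ha a' ha' h => hinj ha ha' h)]
    have h1 : (∑ a ∈ T, ENNReal.ofReal (ρ / ((a : ℝ × GI).2.re : ℝ) ^ 2)) =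
        ENNReal.ofReal (∑ a ∈ T, ρ / ((a : ℝ × GI).2.re : ℝ) ^ 2) := by
      rw [ENNReal.ofReal_sum_of_nonneg]
      intro a _
      exact (hpos a a.2).le
    rw [h1] at hT
    by_contra hcon
    push Not at hcon
    exact absurd hT (not_lt.2 (ENNReal.ofReal_le_ofReal hcon.le))

end Pool.Agent.FCH
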