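import Pool.Agent.FCH.Base

set_option autoImplicit false

/-! Module Cq: a lower bound for the number of factorisations in an arithmetic progression.
`s = 1 - 1/√b`, `η = s/4`, `κ = s/(8q)`, `R = √m`.  Let `y, y' ∈ (κR(1-η), κR]` be coprime with `y ≡ 1`, `y' ≡ a₀ (mod q)`.  `x` in the interval `[(1 - s/2) R, (1 - 3s/8) R]`, of length `(s/8) R ≥ q y`, with `x y' ≡ 1 (mod y)` and `x ≡ 0 (mod q)` (CRT, `gcd(y, q) = 1`),
`x' = (x y' - 1)/y` (so `x' ≡ -1 (mod q)`).  `v = (x, y)`, `w = (x', y')`: `dt v w = 1`, `ip v w = x x' + y y' ≡ a₀ (mod q)`, `ip > 0`.  Sizes: `1 - η ≤ y'/y ≤ 1/(1-η)`, `x' ≤ x/(1-η) ≤ (1 - s/8) R`, `x' ≥ x(1-η) - 1 ≥ (1 - s/2)(1 - s/4)R - 1 ≥ (1 - 3s/4) R - 1 ≥ R/√b + 1`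
for large `R`; `x ≥ R/√b + ..`; `N(v), N(w) ≤ ((1 - s/8)² + κ²) R² ≤ m`; `N(v), N(w) > m/b`.
Number of coprime pairs `(y, y')` (`q` even without loss of generality): let `y = 1 + q i`, `y' = r + q j`, `i, j` in intervals of length `N`; those with `gcd = d ≥ 2` satisfy `gcd(d, q) = 1` (`y ≡ 1`), so `d ≥ 3` and there are at most `(N/d + 1)² ≤ (5/4) N²/d² + 5` of them; `∑_{d ≥ 3} 1/d² ≤ 1/2`
so the number of coprime pairs is `≥ (3/8) N² - 5 R ≥ N²/4 ≥ c m`. -/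

open Finset

namespace Pool.Agent.FCH

open Pool.Agent.MRS hiding Good

private theorem Cq_sum (D : ℕ) (hD : 2 ≤ D) : ∑ d ∈ Ioc 2 D, 1 / (d : ℝ) ^ 2 ≤ 1 / 2 - 1 / (D : ℝ) := by
  induction D, hD using Nat.le_induction with
  | base => norm_num
  | succ n hn ih =>
    rw [Finset.sum_Ioc_succ_top (by omega)]
    have hn' : (2 : ℝ) ≤ n := by exact_mod_cast hn
    have h1 : 1 / ((n + 1 : ℕ) : ℝ) ^ 2 ≤ 1 / (n : ℝ) - 1 / ((n + 1 : ℕ) : ℝ) := by
      push_cast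
      rw [div_sub_div _ _ (by positivity) (by positivity), div_le_div_iff₀ (by positivity) (by positivity)]
      nlinarith
    linarith

private theorem Cq_sum' (D : ℕ) : ∑ d ∈ Ioc 2 D, 1 / (d : ℝ) ^ 2 ≤ 1 / 2 := by
  rcases Nat.lt_or_ge D 2 with h | h
  · rw [Ioc_eq_empty (by omega)]; norm_num
  · have := Cq_sum D h
    have h2 : (0 : ℝ) ≤ 1 / (D : ℝ) := by positivity
    linarith

private theorem Cq_cnt (q d A N r : ℕ) (hd : 0 < d) (hq : Nat.Coprime d q) :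
    (((Ico A (A + N)).filter (fun i => d ∣ r + q * i)).card : ℝ) ≤ N / d + 1 := by
  classical
  rcases Finset.eq_empty_or_nonempty ((Ico A (A + N)).filter (fun i => d ∣ r + q * i)) with h | ⟨i₀, h⟩
  · rw [h]; simp only [card_empty, Nat.cast_zero]; positivity
  · rw [mem_filter] at h
    have h1 : (Ico A (A + N)).filter (fun i => d ∣ r + q * i) ⊆
        (Ico A (A + N)).filter (fun i => i ≡ i₀ [MOD d]) := by
      intro i hi
      rw [mem_filter] at hi ⊢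
      refine ⟨hi.1, ?_⟩
      have h2 : (r + q * i) ≡ (r + q * i₀) [MOD d] := by
        rw [Nat.ModEq, Nat.mod_eq_zero_of_dvd hi.2, Nat.mod_eq_zero_of_dvd h.2]
      have h3 : q * i ≡ q * i₀ [MOD d] := Nat.ModEq.add_left_cancel' r h2
      exact Nat.ModEq.cancel_left_of_coprime hq h3
    have h4 := Nat.Ico_filter_modEq_card A (A + N) hd i₀
    have h5 : (((Ico A (A + N)).filter (fun i => i ≡ i₀ [MOD d])).card : ℝ) ≤ N / d + 1 := by
      have h6 : (((Ico A (A + N)).filter (fun i => i ≡ i₀ [MOD d])).card : ℤ) ≤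
        max (⌈(((A + N : ℕ) : ℚ) - i₀) / d⌉ - ⌈((A : ℚ) - i₀) / d⌉) 0 := by
        rw [← h4]
      have h7 : (((Ico A (A + N)).filter (fun i => i ≡ i₀ [MOD d])).card : ℚ) ≤ N / d + 1 := by
        have h8 : ((max (⌈(((A + N : ℕ) : ℚ) - i₀) / d⌉ - ⌈((A : ℚ) - i₀) / d⌉) 0 : ℤ) : ℚ) ≤ N / d + 1 := by
          push_cast
          apply max_le
          · have a1 := Int.ceil_lt_add_one (((A : ℚ) + N - i₀) / d)
            have a2 := Int.le_ceil (((A : ℚ) - i₀) / d)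
            have a3 : ((A : ℚ) + N - i₀) / d = ((A : ℚ) - i₀) / d + N / d := by ring
            rw [a3] at a1
            rw [a3]
            linarith
          · positivity
        refine le_trans ?_ h8
        exact_mod_cast h6
      have := (Rat.cast_le (K := ℝ)).2 h7
      push_cast at this
      exact this
    refine le_trans ?_ h5
    exact_mod_cast card_le_card h1

private theorem Cq_pairs (q A B N r D : ℕ) (hq : 2 ∣ q) (hD : ∀ i ∈ Ico A (A + N), 1 + q * i ≤ D) :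
    (N : ℝ) ^ 2 - ∑ d ∈ Ioc 2 D, ((N : ℝ) / d + 1) ^ 2 ≤
    (((Ico A (A + N) ×ˢ Ico B (B + N)).filter (fun e => Nat.Coprime (1 + q * e.1) (r + q * e.2))).card : ℝ) := by
  classical
  have h1 := card_filter_add_card_filter_not (s := Ico A (A + N) ×ˢ Ico B (B + N))
    (fun e => Nat.Coprime (1 + q * e.1) (r + q * e.2))
  have h2 : (Ico A (A + N) ×ˢ Ico B (B + N)).card = N ^ 2 := by
    rw [card_product, Nat.card_Ico, Nat.card_Ico]
    simp only [add_tsub_cancel_left]; ring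
  have h3 : (((Ico A (A + N) ×ˢ Ico B (B + N)).filter
      (fun e => ¬ Nat.Coprime (1 + q * e.1) (r + q * e.2))).card : ℝ) ≤
      ∑ d ∈ Ioc 2 D, ((N : ℝ) / d + 1) ^ 2 := by
    have h4 : (Ico A (A + N) ×ˢ Ico B (B + N)).filter
      (fun e => ¬ Nat.Coprime (1 + q * e.1) (r + q * e.2)) ⊆
      (Ioc 2 D).biUnion (fun d => (Ico A (A + N)).filter (fun i => d ∣ 1 + q * i) ×ˢ
        (Ico B (B + N)).filter (fun j => d ∣ r + q * j)) := by
      rintro ⟨i, j⟩ he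
      rw [mem_filter, mem_product] at he
      rw [mem_biUnion]
      refine ⟨Nat.gcd (1 + q * i) (r + q * j), ?_, ?_⟩
      · have hle : Nat.gcd (1 + q * i) (r + q * j) ≤ 1 + q * i := Nat.gcd_le_left _ (by omega)
        have hpos : 0 < Nat.gcd (1 + q * i) (r + q * j) := Nat.gcd_pos_of_pos_left _ (by omega)
        have hne : Nat.gcd (1 + q * i) (r + q * j) ≠ 1 := he.2
        have hne2 : Nat.gcd (1 + q * i) (r + q * j) ≠ 2 := by
          intro h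
          have h5 : 2 ∣ 1 + q * i := h ▸ Nat.gcd_dvd_left _ _
          have h6 : 2 ∣ q * i := Dvd.dvd.mul_right hq i
          omega
        have := hD i he.1.1
        rw [mem_Ioc]; omega
      · rw [mem_product, mem_filter, mem_filter]
        exact ⟨⟨he.1.1, Nat.gcd_dvd_left _ _⟩, he.1.2, Nat.gcd_dvd_right _ _⟩
    have h5 := le_trans (card_le_card h4) card_biUnion_le
    have h6 : (((Ico A (A + N) ×ˢ Ico B (B + N)).filter
      (fun e => ¬ Nat.Coprime (1 + q * e.1) (r + q * e.2))).card : ℝ) ≤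
      ∑ d ∈ Ioc 2 D, (((Ico A (A + N)).filter (fun i => d ∣ 1 + q * i) ×ˢ
        (Ico B (B + N)).filter (fun j => d ∣ r + q * j)).card : ℝ) := by
      exact_mod_cast h5
    refine le_trans h6 (sum_le_sum fun d hd => ?_)
    rw [mem_Ioc] at hd
    rw [card_product, Nat.cast_mul]
    by_cases hc : Nat.Coprime d q
    · have a1 := Cq_cnt q d A N 1 (by omega) hc
      have a2 := Cq_cnt q d B N r (by omega) hc
      rw [pow_two]
      exact mul_le_mul a1 a2 (by positivity) (by positivity)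
    · have : (Ico A (A + N)).filter (fun i => d ∣ 1 + q * i) = ∅ := by
        rw [filter_eq_empty_iff]
        intro i _ hi
        apply hc
        have h7 : Nat.gcd d q ∣ 1 + q * i := (Nat.gcd_dvd_left d q).trans hi
        have h8 : Nat.gcd d q ∣ q * i := (Nat.gcd_dvd_right d q).mul_right i
        have h9 : Nat.gcd d q ∣ 1 := (Nat.dvd_add_left h8).1 h7
        exact Nat.dvd_one.1 h9
      rw [this]; simp only [card_empty, Nat.cast_zero, zero_mul]; positivity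
  have h7 : ((((Ico A (A + N) ×ˢ Ico B (B + N)).filter (fun e => Nat.Coprime (1 + q * e.1) (r + q * e.2))).card : ℝ) +
    ((Ico A (A + N) ×ˢ Ico B (B + N)).filter
      (fun e => ¬ Nat.Coprime (1 + q * e.1) (r + q * e.2))).card) = (N : ℝ) ^ 2 := by
    rw [h2] at h1
    exact_mod_cast h1
  linarith

private theorem Cq_x (q y y' : ℕ) (hy : 0 < y) (hq : 0 < q) (hqy : Nat.Coprime q y) (hyy : Nat.Coprime y' y)
    (lo : ℤ) : ∃ x : ℤ, lo ≤ x ∧ x < lo + q * y ∧ (q : ℤ) ∣ x ∧ (y : ℤ) ∣ x * y' - 1 := by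
  have h1 : IsCoprime ((q : ℤ) * y') (y : ℤ) :=
    IsCoprime.mul_left (Nat.isCoprime_iff_coprime.2 hqy) (Nat.isCoprime_iff_coprime.2 hyy)
  obtain ⟨a, b, hab⟩ := h1
  have hM : (0 : ℤ) < q * y := by positivity
  refine ⟨lo + (a * q - lo) % (q * y), ?_, ?_, ?_, ?_⟩
  · have := Int.emod_nonneg (a * q - lo) hM.ne'
    linarith
  · have := Int.emod_lt_of_pos (a * q - lo) hM
    linarith
  · have h := Int.emod_add_mul_ediv (a * q - lo) (q * y)
    have h2 : lo + (a * q - lo) % (q * y) = q * (a - y * ((a * q - lo) / (q * y))) := by linarith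
    rw [h2]; exact dvd_mul_right _ _
  · have h := Int.emod_add_mul_ediv (a * q - lo) (q * y)
    have h2 : (lo + (a * q - lo) % (q * y)) * y' - 1 = y * (- b - q * y' * ((a * q - lo) / (q * y))) := by
      have h3 : lo + (a * q - lo) % (q * y) = a * q - q * y * ((a * q - lo) / (q * y)) := by linarith
      rw [h3]
      linear_combination hab
    rw [h2]; exact dvd_mul_right _ _

private theorem Cq_vec (b : ℝ) (hb : 1 < b) (m q : ℕ) (hq : 0 < q) (a₀ : ℤ) (s R : ℝ) (hs : s = 1 - 1 / √b)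
    (hR : R = √(m : ℝ)) (hs0 : 0 < s) (hs1 : s < 1) (hR1 : 1 < s * R / 4) (y y' : ℕ) (hyq : (q : ℤ) ∣ y - 1)
    (hyq' : (q : ℤ) ∣ y' - a₀) (hyy : Nat.Coprime y' y) (h1 : s / (8 * q) * R * (1 - s / 4) < y)
    (h2 : (y : ℝ) ≤ s / (8 * q) * R) (h1' : s / (8 * q) * R * (1 - s / 4) < y')
    (h2' : (y' : ℝ) ≤ s / (8 * q) * R) :
    ∃ x x' : ℤ, (⟨x, (y : ℤ)⟩ : GI) ∈ AA b m ∧ (⟨x', (y' : ℤ)⟩ : GI) ∈ AA b m ∧
      (x * y' - y * x' = 1 ∧ 0 < x * x' + y * y') ∧ (q : ℤ) ∣ x * x' + y * y' - a₀ := by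
  have hq0 : (0 : ℝ) < q := by exact_mod_cast hq
  have hq1 : (1 : ℝ) ≤ q := by exact_mod_cast hq
  have hb0 : 0 < b := by linarith
  have hRm : R ^ 2 = m := by rw [hR]; exact Real.sq_sqrt (Nat.cast_nonneg m)
  have hRpos : 0 < R := by
    by_contra h
    have : s * R ≤ 0 := mul_nonpos_of_nonneg_of_nonpos hs0.le (not_lt.1 h)
    linarith
  set K : ℝ := s / (8 * q) * R with hK
  have hKq : K * q = s / 8 * R := by rw [hK]; field_simp
  have hKpos : 0 < K := by rw [hK]; positivity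
  have hK8 : K ≤ s / 8 * R := by rw [← hKq]; nlinarith
  have hypos : (0 : ℝ) < y := lt_of_le_of_lt (by apply mul_nonneg hKpos.le; linarith) h1
  have hypos' : (0 : ℝ) < y' := lt_of_le_of_lt (by apply mul_nonneg hKpos.le; linarith) h1'
  have hy : 0 < y := by exact_mod_cast hypos
  have hqy : Nat.Coprime q y := by
    rw [← Nat.isCoprime_iff_coprime]
    obtain ⟨t, ht⟩ := hyq
    exact ⟨-t, 1, by linear_combination ht⟩
  obtain ⟨x, hx1, hx2, hx3, hx4⟩ := Cq_x q y y' hy hq hqy hyy ⌈(1 - s / 2) * R⌉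
  obtain ⟨x', hx'⟩ := hx4
  have e1 : (1 - s / 2) * R ≤ x := le_trans (Int.le_ceil _) (by exact_mod_cast hx1)
  have e2 : (x : ℝ) ≤ (1 - 3 * s / 8) * R := by
    have a1 : (x : ℝ) + 1 ≤ ⌈(1 - s / 2) * R⌉ + q * y := by exact_mod_cast hx2
    have a2 := Int.ceil_lt_add_one ((1 - s / 2) * R)
    have a3 : (q : ℝ) * y ≤ s / 8 * R := by rw [← hKq]; nlinarith
    linarith
  have hxpos : (0 : ℝ) < x := lt_of_lt_of_le (by apply mul_pos _ hRpos; linarith) e1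
  have hx'r : (y : ℝ) * x' = x * y' - 1 := by exact_mod_cast hx'.symm
  -- ratios
  have r1 : (1 - s / 4) * (y' : ℝ) ≤ y := by nlinarith
  have r2 : (1 - s / 4) * (y : ℝ) ≤ y' := by nlinarith
  have e3 : (x' : ℝ) ≤ (1 - s / 8) * R := by
    have b1 : (1 - s / 4) * ((y : ℝ) * x') ≤ y * x := by
      rw [hx'r]
      have : x * ((1 - s / 4) * (y' : ℝ)) ≤ x * y := mul_le_mul_of_nonneg_left r1 hxpos.le
      nlinarith
    have b2 : (1 - s / 4) * (x' : ℝ) ≤ x := by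
      have : (y : ℝ) * ((1 - s / 4) * x') ≤ y * x := by linarith
      exact le_of_mul_le_mul_left this hypos
    have b3 : (1 - 3 * s / 8) * R ≤ (1 - s / 4) * ((1 - s / 8) * R) := by
      nlinarith [mul_pos (mul_pos hs0 hs0) hRpos]
    have b4 : (1 - s / 4) * (x' : ℝ) ≤ (1 - s / 4) * ((1 - s / 8) * R) := by linarith
    exact le_of_mul_le_mul_left b4 (by linarith)
  have e4 : (1 - s) * R < x' := by
    have b1 : (y : ℝ) * ((1 - s / 4) * x - 1) ≤ y * x' := by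
      rw [hx'r]
      have : x * ((1 - s / 4) * (y : ℝ)) ≤ x * y' := mul_le_mul_of_nonneg_left r2 hxpos.le
      have hy1 : (1 : ℝ) ≤ y := by exact_mod_cast hy
      nlinarith
    have b2 : (1 - s / 4) * x - 1 ≤ x' := le_of_mul_le_mul_left b1 hypos
    have b3 : (1 - s / 4) * ((1 - s / 2) * R) ≤ (1 - s / 4) * x := mul_le_mul_of_nonneg_left e1 (by linarith)
    nlinarith [mul_pos (mul_pos hs0 hs0) hRpos]
  have e5 : (1 - s) * R < x := by nlinarith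
  have hx'pos : (0 : ℝ) < x' := lt_of_le_of_lt (by apply mul_nonneg _ hRpos.le; linarith) e4
  have hmb : (m : ℝ) / b = ((1 - s) * R) ^ 2 := by
    rw [mul_pow, hRm, hs]
    have : (1 - (1 - 1 / √b)) ^ 2 = 1 / b := by
      rw [show 1 - (1 - 1 / √b) = 1 / √b by ring, div_pow, Real.sq_sqrt hb0.le]; norm_num
    rw [this]; ring
  have big : ((1 - s / 8) * R) ^ 2 + (s / 8 * R) ^ 2 ≤ R ^ 2 := by
    have : 0 ≤ s * (1 - s / 8) * R ^ 2 := by
      apply mul_nonneg (mul_nonneg hs0.le (by linarith)) (sq_nonneg R)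
    nlinarith
  have hnm : ∀ (u : ℤ) (t : ℕ), (1 - s) * R < u → (u : ℝ) ≤ (1 - s / 8) * R → (t : ℝ) ≤ K →
      (nm (⟨u, (t : ℤ)⟩ : GI) : ℝ) ≤ m ∧ (m : ℝ) / b < nm (⟨u, (t : ℤ)⟩ : GI) := by
    intro u t hu1 hu2 ht
    have hn : (nm (⟨u, (t : ℤ)⟩ : GI) : ℝ) = (u : ℝ) ^ 2 + (t : ℝ) ^ 2 := by
      have := nm_int (⟨u, (t : ℤ)⟩ : GI)
      have h := congrArg (fun z : ℤ => (z : ℝ)) this
      push_cast at h
      simpa using h
    rw [hn, hmb]
    have hu0 : 0 ≤ (1 - s) * R := by apply mul_nonneg _ hRpos.le; linarith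
    have ht0 : (0 : ℝ) ≤ t := Nat.cast_nonneg t
    constructor
    · rw [← hRm]
      have c1 : (u : ℝ) ^ 2 ≤ ((1 - s / 8) * R) ^ 2 := pow_le_pow_left₀ (by linarith) hu2 2
      have c2 : (t : ℝ) ^ 2 ≤ (s / 8 * R) ^ 2 := pow_le_pow_left₀ ht0 (ht.trans hK8) 2
      linarith
    · have c1 : ((1 - s) * R) ^ 2 < (u : ℝ) ^ 2 := pow_lt_pow_left₀ hu1 hu0 (by norm_num)
      nlinarith
  have hdet : x * y' - y * x' = 1 := by linarith
  refine ⟨x, x', ?_, ?_, ⟨hdet, ?_⟩, ?_⟩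
  · rw [mem_AA]
    have := hnm x y e5 (by nlinarith) h2
    refine ⟨this.1, ?_, this.2⟩
    unfold Pr
    rw [← Int.isCoprime_iff_gcd_eq_one]
    exact ⟨y', -x', by simp only []; linarith⟩
  · rw [mem_AA]
    have := hnm x' y' e4 e3 h2'
    refine ⟨this.1, ?_, this.2⟩
    unfold Pr
    rw [← Int.isCoprime_iff_gcd_eq_one]
    exact ⟨-y, x, by simp only []; linarith⟩
  · have h : (0 : ℝ) < x * x' + y * y' := by positivity
    exact_mod_cast h
  · have h : x * x' + (y : ℤ) * y' - a₀ = x * x' + (y - 1) * y' + (y' - a₀) := by ring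
    rw [h]
    exact dvd_add (dvd_add (Dvd.dvd.mul_right hx3 _) (Dvd.dvd.mul_right hyq _)) hyq'

private theorem Cq_even (b : ℝ) (hb : 1 < b) (q : ℕ) (hq : 1 ≤ q) (hq2 : 2 ∣ q) (a₀ : ℤ) :
    ∃ c : ℝ, 0 < c ∧ ∃ m0 : ℕ, ∀ m : ℕ, m0 ≤ m →
    open Classical in
    c * m ≤ (((AA b m ×ˢ AA b m).filter (fun e => (dt e.1 e.2 = 1 ∧ 0 < ip e.1 e.2) ∧
      (q : ℤ) ∣ ip e.1 e.2 - a₀)).card : ℝ) := by
  classical
  have hq0 : (0 : ℝ) < q := by exact_mod_cast hq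
  have hq1 : (1 : ℝ) ≤ q := by exact_mod_cast hq
  have hsb : 1 < √b := by rw [Real.lt_sqrt (by norm_num)]; simpa using hb
  obtain ⟨s, hs⟩ : ∃ s : ℝ, s = 1 - 1 / √b := ⟨_, rfl⟩
  have hs0 : 0 < s := by
    rw [hs, sub_pos, div_lt_one (by linarith)]; exact hsb
  have hs1 : s < 1 := by
    rw [hs]
    have : 0 < 1 / √b := by positivity
    linarith
  obtain ⟨κ, hκ⟩ : ∃ κ : ℝ, κ = s / (8 * q) := ⟨_, rfl⟩
  have hκ0 : 0 < κ := by rw [hκ]; positivity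
  obtain ⟨e, he⟩ : ∃ e : ℝ, e = κ * (s / 4) / q := ⟨_, rfl⟩
  have he0 : 0 < e := by rw [he]; positivity
  obtain ⟨R0, hR0⟩ : ∃ R0 : ℝ, 4 / s < R0 ∧ 6 / e ≤ R0 ∧ 160 / e ^ 2 ≤ R0 :=
    ⟨4 / s + 6 / e + 160 / e ^ 2 + 1, by
      have a1 : 0 < 4 / s := by positivity
      have a2 : 0 < 6 / e := by positivity
      have a3 : 0 < 160 / e ^ 2 := by positivity
      exact ⟨by linarith, by linarith, by linarith⟩⟩
  refine ⟨e ^ 2 / 16, by positivity, ⌈R0 ^ 2⌉₊, fun m hm => ?_⟩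
  obtain ⟨R, hR⟩ : ∃ R : ℝ, R = √(m : ℝ) := ⟨_, rfl⟩
  have hRm : R ^ 2 = m := by rw [hR]; exact Real.sq_sqrt (Nat.cast_nonneg m)
  have hR0' : 0 < R0 := lt_trans (by positivity) hR0.1
  have hRR : R0 ≤ R := by
    rw [hR]
    apply Real.le_sqrt_of_sq_le
    exact (Nat.le_ceil _).trans (by exact_mod_cast hm)
  have hRpos : 0 < R := lt_of_lt_of_le hR0' hRR
  have g1 : 1 < s * R / 4 := by
    have : 4 / s < R := lt_of_lt_of_le hR0.1 hRR
    rw [div_lt_iff₀ hs0] at this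
    linarith
  have g2 : 6 ≤ e * R := by
    have : 6 / e ≤ R := hR0.2.1.trans hRR
    rw [div_le_iff₀ he0] at this
    linarith
  have g3 : 160 ≤ e ^ 2 * R := by
    have : 160 / e ^ 2 ≤ R := hR0.2.2.trans hRR
    rw [div_le_iff₀ (by positivity)] at this
    linarith
  -- parameters
  obtain ⟨N, hN⟩ : ∃ N : ℕ, N = ⌊e * R - 2⌋₊ := ⟨_, rfl⟩
  have N1 : (N : ℝ) ≤ e * R - 2 := by rw [hN]; exact Nat.floor_le (by linarith)
  have N2 : e * R - 3 < N := by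
    have := Nat.lt_floor_add_one (e * R - 2)
    rw [← hN] at this; linarith
  have N3 : e * R / 2 ≤ N := by linarith
  obtain ⟨A, hA⟩ : ∃ A : ℕ, A = ⌈κ * R * (1 - s / 4) / q⌉₊ := ⟨_, rfl⟩
  have hA0 : 0 ≤ κ * R * (1 - s / 4) / q := by
    apply div_nonneg _ hq0.le
    apply mul_nonneg (by positivity); linarith
  have A1 : κ * R * (1 - s / 4) ≤ q * A := by
    have := Nat.le_ceil (κ * R * (1 - s / 4) / q)
    rw [← hA, div_le_iff₀ hq0] at this; linarith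
  have A2 : q * (A : ℝ) < κ * R * (1 - s / 4) + q := by
    have := Nat.ceil_lt_add_one hA0
    rw [← hA] at this
    have h2 := mul_lt_mul_of_pos_left this hq0
    have h3 : (q : ℝ) * (κ * R * (1 - s / 4) / q + 1) = κ * R * (1 - s / 4) + q := by field_simp
    linarith
  obtain ⟨r, hr⟩ : ∃ r : ℕ, r = (a₀ % q).toNat := ⟨_, rfl⟩
  have hqz : (0 : ℤ) < q := by exact_mod_cast hq
  have hr1 : (r : ℤ) = a₀ % q := by rw [hr]; exact Int.toNat_of_nonneg (Int.emod_nonneg _ hqz.ne')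
  have hr2 : r < q := by
    have := Int.emod_lt_of_pos a₀ hqz
    omega
  have hr2' : (r : ℝ) + 1 ≤ q := by exact_mod_cast hr2
  have hqe : q * (e * R) = κ * R * (s / 4) := by rw [he]; field_simp
  have hqN : q * (N : ℝ) ≤ κ * R * (s / 4) - 2 * q := by
    have := mul_le_mul_of_nonneg_left N1 hq0.le
    linarith
  -- bounds for the members of the progressions
  have B1 : ∀ i ∈ Ico A (A + N), κ * R * (1 - s / 4) < ((1 + q * i : ℕ) : ℝ) ∧ ((1 + q * i : ℕ) : ℝ) ≤ κ * R := by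
    intro i hi
    rw [mem_Ico] at hi
    have h1 : (A : ℝ) ≤ i := by exact_mod_cast hi.1
    have h2 : (i : ℝ) + 1 ≤ A + N := by exact_mod_cast hi.2
    push_cast
    constructor
    · have := mul_le_mul_of_nonneg_left h1 hq0.le
      linarith
    · have := mul_le_mul_of_nonneg_left h2 hq0.le
      linarith
  have B2 : ∀ j ∈ Ico (A + 1) (A + 1 + N), κ * R * (1 - s / 4) < ((r + q * j : ℕ) : ℝ) ∧
      ((r + q * j : ℕ) : ℝ) ≤ κ * R := by
    intro j hj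
    rw [mem_Ico] at hj
    have h1 : (A : ℝ) + 1 ≤ j := by exact_mod_cast hj.1
    have h2 : (j : ℝ) + 1 ≤ A + 1 + N := by exact_mod_cast hj.2
    have h3 : (0 : ℝ) ≤ r := Nat.cast_nonneg r
    push_cast
    constructor
    · have := mul_le_mul_of_nonneg_left h1 hq0.le
      linarith
    · have := mul_le_mul_of_nonneg_left h2 hq0.le
      linarith
  obtain ⟨D, hD⟩ : ∃ D : ℕ, D = ⌊κ * R⌋₊ := ⟨_, rfl⟩
  have hD1 : (D : ℝ) ≤ R / 8 := by
    have h1 : (D : ℝ) ≤ κ * R := by rw [hD]; exact Nat.floor_le (by positivity)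
    have h2 : κ ≤ 1 / 8 := by
      rw [hκ, div_le_div_iff₀ (by positivity) (by norm_num)]; nlinarith
    nlinarith
  have hD2 : ∀ i ∈ Ico A (A + N), 1 + q * i ≤ D := by
    intro i hi
    rw [hD]; exact Nat.le_floor (B1 i hi).2
  have C1 := Cq_pairs q A (A + 1) N r D hq2 hD2
  have C2 : ∑ d ∈ Ioc 2 D, ((N : ℝ) / d + 1) ^ 2 ≤ 5 / 8 * (N : ℝ) ^ 2 + 5 * (R / 8) := by
    have h1 : ∀ d ∈ Ioc 2 D, ((N : ℝ) / d + 1) ^ 2 ≤ 5 / 4 * (N : ℝ) ^ 2 * (1 / (d : ℝ) ^ 2) + 5 := by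
      intro d _
      have : 5 / 4 * (N : ℝ) ^ 2 * (1 / (d : ℝ) ^ 2) = 5 / 4 * ((N : ℝ) / d) ^ 2 := by
        rw [div_pow]; ring
      rw [this]
      nlinarith [sq_nonneg ((N : ℝ) / d - 4)]
    refine le_trans (sum_le_sum h1) ?_
    rw [sum_add_distrib, ← mul_sum, sum_const, Nat.card_Ioc, nsmul_eq_mul]
    have h2 := Cq_sum' D
    have h3 : ((D - 2 : ℕ) : ℝ) ≤ D := by exact_mod_cast Nat.sub_le D 2
    have h4 : 5 / 4 * (N : ℝ) ^ 2 * (∑ d ∈ Ioc 2 D, 1 / (d : ℝ) ^ 2) ≤ 5 / 4 * (N : ℝ) ^ 2 * (1 / 2) :=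
      mul_le_mul_of_nonneg_left h2 (by positivity)
    linarith
  have C3 : e ^ 2 / 16 * m ≤ (N : ℝ) ^ 2 - ∑ d ∈ Ioc 2 D, ((N : ℝ) / d + 1) ^ 2 := by
    have h1 : e ^ 2 * R ^ 2 / 4 ≤ (N : ℝ) ^ 2 := by
      have := pow_le_pow_left₀ (by positivity) N3 2
      nlinarith
    have h2 : 5 * (R / 8) ≤ e ^ 2 * R ^ 2 / 256 := by nlinarith
    rw [← hRm]
    nlinarith
  refine C3.trans (C1.trans ?_)
  -- injection
  have key : ∀ p : ℕ × ℕ, p ∈ (Ico A (A + N) ×ˢ Ico (A + 1) (A + 1 + N)).filter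
      (fun e => Nat.Coprime (1 + q * e.1) (r + q * e.2)) → ∃ z : GI × GI,
      z ∈ (AA b m ×ˢ AA b m).filter (fun e => (dt e.1 e.2 = 1 ∧ 0 < ip e.1 e.2) ∧
      (q : ℤ) ∣ ip e.1 e.2 - a₀) ∧ z.1.im = ((1 + q * p.1 : ℕ) : ℤ) ∧ z.2.im = ((r + q * p.2 : ℕ) : ℤ) := by
    rintro ⟨i, j⟩ hp
    rw [mem_filter, mem_product] at hp
    have hB1 := B1 i hp.1.1
    have hB2 := B2 j hp.1.2
    rw [hκ] at hB1 hB2
    obtain ⟨x, x', hx1, hx2, hx3, hx4⟩ := Cq_vec b hb m q hq a₀ s R hs hR hs0 hs1 g1 (1 + q * i) (r + q * j)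
      ⟨i, by push_cast; ring⟩ (by
        refine ⟨j - a₀ / q, ?_⟩
        have := Int.emod_add_mul_ediv a₀ q
        push_cast
        rw [hr1]
        linear_combination this) hp.2.symm hB1.1 hB1.2 hB2.1 hB2.2
    refine ⟨(⟨x, ((1 + q * i : ℕ) : ℤ)⟩, ⟨x', ((r + q * j : ℕ) : ℤ)⟩), ?_, rfl, rfl⟩
    rw [mem_filter, mem_product]
    exact ⟨⟨hx1, hx2⟩, hx3, hx4⟩
  choose! F hF using key
  have : ((Ico A (A + N) ×ˢ Ico (A + 1) (A + 1 + N)).filter
      (fun e => Nat.Coprime (1 + q * e.1) (r + q * e.2))).card ≤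
      ((AA b m ×ˢ AA b m).filter (fun e => (dt e.1 e.2 = 1 ∧ 0 < ip e.1 e.2) ∧
      (q : ℤ) ∣ ip e.1 e.2 - a₀)).card := by
    apply card_le_card_of_injOn F
    · intro p hp
      exact (hF p hp).1
    · intro p hp p' hp' h
      have h1 := hF p hp
      have h2 := hF p' hp'
      rw [h] at h1
      have h3 : ((1 + q * p.1 : ℕ) : ℤ) = ((1 + q * p'.1 : ℕ) : ℤ) := h1.2.1.symm.trans h2.2.1
      have h4 : ((r + q * p.2 : ℕ) : ℤ) = ((r + q * p'.2 : ℕ) : ℤ) := h1.2.2.symm.trans h2.2.2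
      have h5 : 1 + q * p.1 = 1 + q * p'.1 := by exact_mod_cast h3
      have h6 : r + q * p.2 = r + q * p'.2 := by exact_mod_cast h4
      have h7 : p.1 = p'.1 := Nat.eq_of_mul_eq_mul_left hq (Nat.add_left_cancel h5)
      have h8 : p.2 = p'.2 := Nat.eq_of_mul_eq_mul_left hq (Nat.add_left_cancel h6)
      exact Prod.ext h7 h8
  exact_mod_cast this

theorem cq (b : ℝ) (hb : 1 < b) (q : ℕ) (hq : 1 ≤ q) (a₀ : ℤ) : ∃ c : ℝ, 0 < c ∧ ∃ m0 : ℕ, ∀ m : ℕ, m0 ≤ m →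
    open Classical in
    c * m ≤ (((AA b m ×ˢ AA b m).filter (fun e => (dt e.1 e.2 = 1 ∧ 0 < ip e.1 e.2) ∧
      (q : ℤ) ∣ ip e.1 e.2 - a₀)).card : ℝ) := by
  classical
  obtain ⟨c, hc, m0, h⟩ := Cq_even b hb (2 * q) (by omega) ⟨q, rfl⟩ a₀
  refine ⟨c, hc, m0, fun m hm => (h m hm).trans ?_⟩
  have : ((AA b m ×ˢ AA b m).filter (fun e => (dt e.1 e.2 = 1 ∧ 0 < ip e.1 e.2) ∧
      ((2 * q : ℕ) : ℤ) ∣ ip e.1 e.2 - a₀)) ⊆ ((AA b m ×ˢ AA b m).filter (fun e => (dt e.1 e.2 = 1 ∧ 0 < ip e.1 e.2) ∧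
      (q : ℤ) ∣ ip e.1 e.2 - a₀)) := by
    intro e he
    rw [mem_filter] at he ⊢
    refine ⟨he.1, he.2.1, dvd_trans ?_ he.2.2⟩
    exact ⟨2, by push_cast; ring⟩
  exact_mod_cast card_le_card this

end Pool.Agent.FCH
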