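import Pool.Agent.FCH.Core

set_option autoImplicit false

/-! Module Cum: from the ratio 3 to full discs, by induction on the number of pieces:
`pan 0 x = pan 0 (x/3) ∪ pan (x/3) x`, `‖a + b‖² ≤ 2‖a‖² + 2‖b‖²`, `core` for the outer piece. -/

open Finset

namespace Pool.Agent.FCH

open Pool.Agent.MRS hiding Good

theorem Cum_split (cc : GI → ℂ) (x : ℝ) (_hx : 0 ≤ x) (k : ℤ) :
    sp (pan 0 x) cc k = sp (pan 0 (x / 3)) cc k + sp (pan (x / 3) (3 * (x / 3))) cc k := by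
  classical
  unfold sp
  rw [← Finset.sum_union]
  · apply Finset.sum_congr _ (fun _ _ => rfl)
    ext z
    rw [Finset.mem_union, mem_pan, mem_pan, mem_pan]
    have e : 3 * (x / 3) = x := by ring
    rw [e]
    constructor
    · rintro ⟨h1, h2, h3, h4⟩
      by_cases h : (nm z : ℝ) ≤ x / 3
      · exact Or.inl ⟨h1, h2, h3, h⟩
      · exact Or.inr ⟨h1, h2, not_le.1 h, h4⟩
    · rintro (⟨h1, h2, h3, h4⟩ | ⟨h1, h2, h3, h4⟩)
      · exact ⟨h1, h2, h3, by linarith⟩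
      · exact ⟨h1, h2, by linarith, h4⟩
  · rw [Finset.disjoint_left]
    intro z hz hz'
    rw [mem_pan] at hz hz'
    linarith [hz.2.2.2, hz'.2.2.1]

theorem Cum_norm (a b : ℂ) : ‖a + b‖ ^ 2 ≤ 2 * ‖a‖ ^ 2 + 2 * ‖b‖ ^ 2 := by
  have h1 := norm_add_le a b
  have h2 := norm_nonneg (a + b)
  have h3 : ‖a + b‖ ^ 2 ≤ (‖a‖ + ‖b‖) ^ 2 := pow_le_pow_left₀ h2 h1 2
  nlinarith [sq_nonneg (‖a‖ - ‖b‖)]

theorem Cum_base (cc : GI → ℂ) (hf : CG cc) (E0 : Finset ℤ) : ∃ C : ℝ, 0 < C ∧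
    ∀ x : ℝ, 1 ≤ x → ∀ K : ℕ, (K : ℝ) ≤ x →
    ∑ k ∈ (Icc (-(K : ℤ)) (K : ℤ)) \ E0, fw K k * ‖sp (pan 0 x) cc k‖ ^ 2 ≤ C * x ^ 2 := by
  classical
  obtain ⟨C, hC, h⟩ := mvt_prim
  refine ⟨8 * C, by positivity, fun x hx K hK => ?_⟩
  have h1 := h K x hx (pan 0 x) cc (fun z hz => by
    rw [mem_pan] at hz
    exact ⟨hz.1, hz.2.1, hz.2.2.2⟩)
  have h2 : ∑ k ∈ (Icc (-(K : ℤ)) (K : ℤ)) \ E0, fw K k * ‖sp (pan 0 x) cc k‖ ^ 2 ≤
      ms K (fun k => ‖sp (pan 0 x) cc k‖ ^ 2) := by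
    unfold ms
    apply Finset.sum_le_sum_of_subset_of_nonneg Finset.sdiff_subset
    intro k hk _
    exact mul_nonneg (fw_nonneg hk) (by positivity)
  have h3 : ∑ z ∈ pan 0 x, ‖cc z‖ ^ 2 ≤ 4 * x := by
    calc ∑ z ∈ pan 0 x, ‖cc z‖ ^ 2 ≤ ∑ z ∈ pan 0 x, (1 : ℝ) := by
          apply Finset.sum_le_sum
          intro z _
          exact pow_le_one₀ (norm_nonneg _) (hf.le z)
      _ = ((pan 0 x).card : ℝ) := by simp
      _ ≤ ((ann 0 x).card : ℝ) := by exact_mod_cast Finset.card_le_card (pan_subset 0 x)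
      _ ≤ 4 * x := card_ann_le 0 (by linarith)
  have hK0 : (0 : ℝ) ≤ K := Nat.cast_nonneg _
  have h4 : C * (K + x) * ∑ z ∈ pan 0 x, ‖cc z‖ ^ 2 ≤ C * (x + x) * (4 * x) := by
    apply mul_le_mul _ h3 (Finset.sum_nonneg (fun _ _ => by positivity)) (by positivity)
    apply mul_le_mul_of_nonneg_left _ hC.le
    linarith
  calc _ ≤ _ := h2
    _ ≤ _ := h1
    _ ≤ _ := h4
    _ = 8 * C * x ^ 2 := by ring

theorem cum (cc : GI → ℂ) (hf : CG cc) (E0 : Finset ℤ) (hpw : PW cc E0) (η : ℝ) (hη : 0 < η) :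
    ∃ h0 : ℝ, 1 ≤ h0 ∧ ∀ h : ℝ, h0 ≤ h → ∃ N0 : ℝ, 1 ≤ N0 ∧ ∀ x : ℝ, N0 ≤ x → ∀ K : ℕ,
    (K : ℝ) ≤ x / h →
    ∑ k ∈ (Icc (-(K : ℤ)) (K : ℤ)) \ E0, fw K k * ‖sp (pan 0 x) cc k‖ ^ 2 ≤ η * x ^ 2 := by
  classical
  obtain ⟨C, hC, hbase⟩ := Cum_base cc hf E0
  obtain ⟨h1, hh1, hcore⟩ := core cc hf E0 hpw (η / 2) (by positivity)
  have key : ∀ J : ℕ, ∃ h0 : ℝ, 1 ≤ h0 ∧ ∀ h : ℝ, h0 ≤ h → ∃ N0 : ℝ, 1 ≤ N0 ∧ ∀ x : ℝ, N0 ≤ x →
      ∀ K : ℕ, (K : ℝ) ≤ x / h →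
      ∑ k ∈ (Icc (-(K : ℤ)) (K : ℤ)) \ E0, fw K k * ‖sp (pan 0 x) cc k‖ ^ 2 ≤
        (η / 2 + C * (2 / 9) ^ J) * x ^ 2 := by
    intro J
    induction J with
    | zero =>
      refine ⟨1, le_rfl, fun h hh => ⟨1, le_rfl, fun x hx K hK => ?_⟩⟩
      have h2 : x / h ≤ x := div_le_self (by linarith) hh
      refine (hbase x hx K (hK.trans h2)).trans ?_
      apply mul_le_mul_of_nonneg_right _ (by positivity)
      simp only [pow_zero, mul_one]
      linarith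
    | succ J ih =>
      obtain ⟨h0, hh0, ih⟩ := ih
      refine ⟨3 * max h0 h1, ?_, fun h hh => ?_⟩
      · have := le_max_left h0 h1
        linarith
      have ha : h0 ≤ h / 3 := by
        have := le_max_left h0 h1
        linarith
      have hb : h1 ≤ h / 3 := by
        have := le_max_right h0 h1
        linarith
      obtain ⟨N1, hN1, ih⟩ := ih (h / 3) ha
      obtain ⟨N2, hN2, hcore⟩ := hcore (h / 3) hb
      refine ⟨3 * max N1 N2, ?_, fun x hx K hK => ?_⟩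
      · have := le_max_left N1 N2
        linarith
      have hc : N1 ≤ x / 3 := by
        have := le_max_left N1 N2
        linarith
      have hd : N2 ≤ x / 3 := by
        have := le_max_right N1 N2
        linarith
      have hh : (0 : ℝ) < h := by linarith
      have hK' : (K : ℝ) ≤ (x / 3) / (h / 3) := by
        have e : (x / 3) / (h / 3) = x / h := by
          field_simp
        rw [e]
        exact hK
      have e1 := ih (x / 3) hc K hK'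
      have e2 := hcore (x / 3) hd K hK'
      have e3 : ∑ k ∈ (Icc (-(K : ℤ)) (K : ℤ)) \ E0, fw K k * ‖sp (pan 0 x) cc k‖ ^ 2 ≤
          2 * ∑ k ∈ (Icc (-(K : ℤ)) (K : ℤ)) \ E0, fw K k * ‖sp (pan 0 (x / 3)) cc k‖ ^ 2 +
          2 * ∑ k ∈ (Icc (-(K : ℤ)) (K : ℤ)) \ E0,
            fw K k * ‖sp (pan (x / 3) (3 * (x / 3))) cc k‖ ^ 2 := by
        rw [Finset.mul_sum, Finset.mul_sum, ← Finset.sum_add_distrib]
        apply Finset.sum_le_sum
        intro k hk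
        rw [Cum_split cc x (by linarith) k]
        have hw := fw_nonneg (Finset.mem_sdiff.1 hk).1
        have := mul_le_mul_of_nonneg_left (Cum_norm (sp (pan 0 (x / 3)) cc k)
          (sp (pan (x / 3) (3 * (x / 3))) cc k)) hw
        linarith
      rw [pow_succ]
      have hx2 : 0 ≤ x ^ 2 := by positivity
      have hq : 0 ≤ C * (2 / 9) ^ J * x ^ 2 := by positivity
      nlinarith
  have hlim : Filter.Tendsto (fun J : ℕ => C * (2 / 9 : ℝ) ^ J) Filter.atTop (nhds (C * 0)) :=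
    (tendsto_pow_atTop_nhds_zero_of_lt_one (by norm_num) (by norm_num)).const_mul C
  rw [mul_zero] at hlim
  obtain ⟨J, hJ⟩ := (hlim.eventually_lt_const (show (0 : ℝ) < η / 2 by positivity)).exists
  obtain ⟨h0, hh0, hk⟩ := key J
  refine ⟨h0, hh0, fun h hh => ?_⟩
  obtain ⟨N0, hN0, hk⟩ := hk h hh
  refine ⟨N0, hN0, fun x hx K hK => (hk x hx K hK).trans ?_⟩
  apply mul_le_mul_of_nonneg_right _ (by positivity)
  linarith

end Pool.Agent.FCH
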