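import Pool.Agent.FCH.Dv

set_option autoImplicit false

/-! Module Decr: entropy decrement (Tao).  `X_n(a) = (f a, f (T a), ..., f (T^{n-1} a))`.  `Y_{<j}` = labels in `S_0 ∪ ... ∪ S_{j-1}`.
(1) for any set `U` of labels for which `hU` holds: `H(X_{n+n'} | Y_U) ≤ H(X_n | Y_U) + H(X_{n'} | Y_U)`: `X_{n+n'} = (X_n, X_{n'} ∘ T^n)` and `Y_U ∘ T^n` is determined by `(Y_U, X_n)` (induction), so
`H(X_{n'}∘T^n | X_n, Y_U) ≤ H(X_{n'} ∘ T^n | Y_U ∘ T^n) = H(X_{n'} | Y_U)` (`ent_submod`, `ent_comp`).  Hence `H(X_{An}|Y_U) ≤ A H(X_n|Y_U)`.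
(2) `h_j := H(X_{H_j} | Y_{<j})/H_j`.  `h_{j+1} ≤ H(X_{H_j} | Y_{≤ j})/H_j = h_j - I_j/H_j`, `I_j := H(X_{H_j}|Y_{<j}) - H(X_{H_j} | Y_{≤j}) ≥ 0`.  So `∑_{j<J} I_j/H_j ≤ h_0 ≤ H(f)` (`H(X_n) ≤ n H(f)`).
(3) `D_j := ∑_{S_j} log N_p - H(Y_{S_j} | X_{H_j}) ≤ I_j + DY`: `H(Y_{S_j}|X) ≥ H(Y_{S_j}|X, Y_{<j}) = H(Y_{S_j}|Y_{<j}) - I_j`, and `H(Y_{S_j}|Y_{<j}) = H(Y_{≤j}) - H(Y_{<j}) ≥ (∑_{≤j} log N - DY) - ∑_{<j} log N`
 (`H(Y_{<j}) ≤ ∑ log N_p`; `H(Y_{≤ j}) ≥ H(Y_{all}) - ∑_{> j} log N_p`).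
(4) so `∑_j (D_j - DY)/H_j ≤ H(f)`. -/

open Finset

namespace Pool.Agent.FCH

/-- word of length `n` -/
def wrd {α β : Type} (T : α → α) (f : α → β) (n : ℕ) (a : α) : Fin n → β := fun i => f (T^[(i : ℕ)] a)

private theorem Decr_iter {α : Type} (s : Finset α) (T : α → α) (hT : ∀ a ∈ s, T a ∈ s) (n : ℕ) :
    ∀ a ∈ s, T^[n] a ∈ s := by
  induction n with
  | zero => intro a ha; simpa using ha
  | succ n ih => intro a ha; rw [Function.iterate_succ_apply']; exact hT _ (ih a ha)

private theorem Decr_inj {α : Type} (s : Finset α) (T : α → α) (hT : ∀ a ∈ s, T a ∈ s)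
    (hi : ∀ a ∈ s, ∀ a' ∈ s, T a = T a' → a = a') (n : ℕ) :
    ∀ a ∈ s, ∀ a' ∈ s, T^[n] a = T^[n] a' → a = a' := by
  induction n with
  | zero => intro a _ a' _ h; simpa using h
  | succ n ih =>
    intro a ha a' ha' h
    rw [Function.iterate_succ_apply', Function.iterate_succ_apply'] at h
    exact ih a ha a' ha' (hi _ (Decr_iter s T hT n a ha) _ (Decr_iter s T hT n a' ha') h)

private theorem Decr_wrd {α β : Type} (T : α → α) (f : α → β) (n : ℕ) (a a' : α) :
    wrd T f n a = wrd T f n a' ↔ ∀ i < n, f (T^[i] a) = f (T^[i] a') := by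
  constructor
  · intro h i hi
    have := congrFun h ⟨i, hi⟩
    simpa [wrd] using this
  · intro h
    funext i
    exact h i i.2

private theorem Decr_wrd_add {α β : Type} (T : α → α) (f : α → β) (n n' : ℕ) (a a' : α) :
    wrd T f (n + n') a = wrd T f (n + n') a' ↔
      wrd T f n a = wrd T f n a' ∧ wrd T f n' (T^[n] a) = wrd T f n' (T^[n] a') := by
  rw [Decr_wrd, Decr_wrd, Decr_wrd]
  constructor
  · intro h
    refine ⟨fun i hi => h i (by omega), fun i hi => ?_⟩
    have := h (i + n) (by omega)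
    rw [Function.iterate_add_apply, Function.iterate_add_apply] at this
    exact this
  · rintro ⟨h1, h2⟩ i hi
    by_cases hin : i < n
    · exact h1 i hin
    · have := h2 (i - n) (by omega)
      rw [← Function.iterate_add_apply, ← Function.iterate_add_apply] at this
      have e : i - n + n = i := by omega
      rwa [e] at this

private theorem Decr_rst (U : Finset ℕ) (y y' : ℕ → ℕ) :
    rst U y = rst U y' ↔ ∀ p ∈ U, y p = y' p := by
  constructor
  · intro h p hp
    have := congrFun h p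
    simpa [rst, hp] using this
  · intro h
    funext p
    unfold rst
    by_cases hp : p ∈ U
    · simp [hp, h p hp]
    · simp [hp]

/-- the labels of the shifted point are determined by the labels and the word -/
private theorem Decr_det {α β : Type} (s : Finset α) (T : α → α) (hT : ∀ a ∈ s, T a ∈ s)
    (f : α → β) (Y : α → ℕ → ℕ) (U : Finset ℕ)
    (hU : ∀ p ∈ U, ∀ a ∈ s, ∀ a' ∈ s, f a = f a' → Y a p = Y a' p → Y (T a) p = Y (T a') p)
    (n : ℕ) : ∀ a ∈ s, ∀ a' ∈ s, wrd T f n a = wrd T f n a' → (∀ p ∈ U, Y a p = Y a' p) →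
      ∀ p ∈ U, Y (T^[n] a) p = Y (T^[n] a') p := by
  induction n with
  | zero => intro a _ a' _ _ h; simpa using h
  | succ n ih =>
    intro a ha a' ha' hw h p hp
    rw [Decr_wrd] at hw
    have h1 := ih a ha a' ha' ((Decr_wrd T f n a a').2 (fun i hi => hw i (by omega))) h p hp
    rw [Function.iterate_succ_apply', Function.iterate_succ_apply']
    exact hU p hp _ (Decr_iter s T hT n a ha) _ (Decr_iter s T hT n a' ha') (hw n (by omega)) h1

/-- subadditivity of the conditional entropy of words -/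
private theorem Decr_sub {α β : Type} (s : Finset α) (T : α → α) (hT : ∀ a ∈ s, T a ∈ s)
    (hi : ∀ a ∈ s, ∀ a' ∈ s, T a = T a' → a = a') (f : α → β) (Y : α → ℕ → ℕ) (U : Finset ℕ)
    (hU : ∀ p ∈ U, ∀ a ∈ s, ∀ a' ∈ s, f a = f a' → Y a p = Y a' p → Y (T a) p = Y (T a') p)
    (n n' : ℕ) :
    ent s (fun a => (wrd T f (n + n') a, rst U (Y a))) + ent s (fun a => rst U (Y a)) ≤
      ent s (fun a => (wrd T f n a, rst U (Y a))) + ent s (fun a => (wrd T f n' a, rst U (Y a))) := by
  have h := ent_submod s (fun a => wrd T f n' (T^[n] a)) (fun a => (wrd T f n a, rst U (Y a)))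
    (fun a => rst U (Y (T^[n] a)))
  have e1 : ent s (fun a => rst U (Y (T^[n] a))) = ent s (fun a => rst U (Y a)) :=
    ent_comp s (T^[n]) (Decr_iter s T hT n) (Decr_inj s T hT hi n) (fun a => rst U (Y a))
  have e2 : ent s (fun a => (wrd T f n' (T^[n] a), rst U (Y (T^[n] a)))) =
      ent s (fun a => (wrd T f n' a, rst U (Y a))) :=
    ent_comp s (T^[n]) (Decr_iter s T hT n) (Decr_inj s T hT hi n)
      (fun a => (wrd T f n' a, rst U (Y a)))
  have e3 : ent s (fun a => (((wrd T f n a, rst U (Y a)) : (Fin n → β) × (ℕ → ℕ)),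
      rst U (Y (T^[n] a)))) = ent s (fun a => (wrd T f n a, rst U (Y a))) := by
    apply ent_congr
    intro a ha a' ha'
    simp only [Prod.mk.injEq]
    constructor
    · rintro ⟨h1, _⟩; exact h1
    · intro h1
      refine ⟨h1, ?_⟩
      rw [Decr_rst]
      exact Decr_det s T hT f Y U hU n a ha a' ha' h1.1 ((Decr_rst U _ _).1 h1.2)
  have e4 : ent s (fun a => (wrd T f n' (T^[n] a), ((wrd T f n a, rst U (Y a)) :
      (Fin n → β) × (ℕ → ℕ)), rst U (Y (T^[n] a)))) =
      ent s (fun a => (wrd T f (n + n') a, rst U (Y a))) := by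
    apply ent_congr
    intro a ha a' ha'
    simp only [Prod.mk.injEq]
    rw [Decr_wrd_add]
    constructor
    · rintro ⟨h1, ⟨h2, h3⟩, _⟩; exact ⟨⟨h2, h1⟩, h3⟩
    · rintro ⟨⟨h2, h1⟩, h3⟩
      refine ⟨h1, ⟨h2, h3⟩, ?_⟩
      rw [Decr_rst]
      exact Decr_det s T hT f Y U hU n a ha a' ha' h2 ((Decr_rst U _ _).1 h3)
  rw [e1, e2, e3, e4] at h
  linarith

/-- conditional entropy of words given labels -/
private noncomputable def Decr_c {α β : Type} (s : Finset α) (T : α → α) (f : α → β)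
    (Y : α → ℕ → ℕ) (n : ℕ) (U : Finset ℕ) : ℝ :=
  ent s (fun a => (wrd T f n a, rst U (Y a))) - ent s (fun a => rst U (Y a))

private theorem Decr_c_nonneg {α β : Type} (s : Finset α) (T : α → α) (f : α → β)
    (Y : α → ℕ → ℕ) (n : ℕ) (U : Finset ℕ) : 0 ≤ Decr_c s T f Y n U := by
  unfold Decr_c
  have := ent_mono s (fun a => (wrd T f n a, rst U (Y a))) (fun a => rst U (Y a))
    (fun a _ a' _ h => by simpa using (Prod.mk.inj h).2)
  linarith

private theorem Decr_c_mul {α β : Type} (s : Finset α) (T : α → α) (hT : ∀ a ∈ s, T a ∈ s)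
    (hi : ∀ a ∈ s, ∀ a' ∈ s, T a = T a' → a = a') (f : α → β) (Y : α → ℕ → ℕ) (U : Finset ℕ)
    (hU : ∀ p ∈ U, ∀ a ∈ s, ∀ a' ∈ s, f a = f a' → Y a p = Y a' p → Y (T a) p = Y (T a') p)
    (A n : ℕ) : Decr_c s T f Y (A * n) U ≤ A * Decr_c s T f Y n U := by
  induction A with
  | zero =>
    have : Decr_c s T f Y (0 * n) U = 0 := by
      unfold Decr_c
      rw [sub_eq_zero]
      apply ent_congr
      intro a _ a' _
      simp only [Prod.mk.injEq]
      constructor
      · rintro ⟨_, h⟩; exact h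
      · intro h
        refine ⟨?_, h⟩
        rw [Decr_wrd]
        intro i hi
        rw [Nat.zero_mul] at hi
        exact absurd hi (Nat.not_lt_zero _)
    rw [this]; simp
  | succ A ih =>
    have h := Decr_sub s T hT hi f Y U hU (A * n) n
    have e : (A + 1) * n = A * n + n := by ring
    rw [e]
    unfold Decr_c at ih ⊢
    push_cast
    nlinarith

private theorem Decr_insert {α : Type} (s : Finset α) (Y : α → ℕ → ℕ) (W : Finset ℕ) (p : ℕ) (Np : ℕ)
    (hN : 1 ≤ Np) (hY : ∀ a ∈ s, Y a p < Np) :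
    ent s (fun a => rst (insert p W) (Y a)) ≤ ent s (fun a => rst W (Y a)) + Real.log Np := by
  have h1 : ent s (fun a => rst (insert p W) (Y a)) ≤ ent s (fun a => (rst W (Y a), Y a p)) := by
    apply ent_mono
    intro a _ a' _ h
    simp only [Prod.mk.injEq] at h
    rw [Decr_rst] at h ⊢
    intro q hq
    rcases Finset.mem_insert.1 hq with h2 | h2
    · rw [h2]; exact h.2
    · exact h.1 q h2
  have h2 := ent_pair_le s (fun a => rst W (Y a)) (fun a => Y a p)
  have h3 : ent s (fun a => Y a p) ≤ Real.log Np := by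
    apply ent_le_log s _ Np hN
    refine le_trans (Finset.card_le_card (t := range Np) ?_) (Finset.card_range _).le
    intro v hv
    obtain ⟨a, ha, rfl⟩ :=
      (@Finset.mem_image _ _ (fun a b => Classical.propDecidable (a = b)) _ _ _).1 hv
    exact Finset.mem_range.2 (hY a ha)
  linarith

private theorem Decr_union {α : Type} (s : Finset α) (Y : α → ℕ → ℕ) (N : ℕ → ℕ) (U V : Finset ℕ)
    (hN : ∀ p ∈ V, 1 ≤ N p) (hY : ∀ a ∈ s, ∀ p ∈ V, Y a p < N p) :
    ent s (fun a => rst (U ∪ V) (Y a)) ≤ ent s (fun a => rst U (Y a)) + ∑ p ∈ V, Real.log (N p) := by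
  induction V using Finset.induction_on with
  | empty => simp
  | insert p V hp ih =>
    have ih' := ih (fun q hq => hN q (Finset.mem_insert_of_mem hq))
      (fun a ha q hq => hY a ha q (Finset.mem_insert_of_mem hq))
    have h := Decr_insert s Y (U ∪ V) p (N p) (hN p (Finset.mem_insert_self p V))
      (fun a ha => hY a ha p (Finset.mem_insert_self p V))
    rw [Finset.union_insert, Finset.sum_insert hp]
    linarith

private theorem Decr_empty {α : Type} (s : Finset α) (Y : α → ℕ → ℕ) :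
    0 ≤ ent s (fun a => rst ∅ (Y a)) := ent_nonneg _ _

theorem decr {α β : Type} (s : Finset α) (hs : s.Nonempty) (T : α → α) (hT : ∀ a ∈ s, T a ∈ s)
    (hi : ∀ a ∈ s, ∀ a' ∈ s, T a = T a' → a = a') (f : α → β) (Y : α → ℕ → ℕ) (J : ℕ)
    (S : ℕ → Finset ℕ) (hS : ∀ i j, i ≠ j → Disjoint (S i) (S j)) (N : ℕ → ℕ)
    (hN : ∀ j < J, ∀ p ∈ S j, 1 ≤ N p) (hY : ∀ a ∈ s, ∀ j < J, ∀ p ∈ S j, Y a p < N p)
    (hU : ∀ j < J, ∀ p ∈ S j, ∀ a ∈ s, ∀ a' ∈ s, f a = f a' → Y a p = Y a' p → Y (T a) p = Y (T a') p)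
    (A H0 : ℕ) (hA : 1 ≤ A) (hH : 1 ≤ H0) :
    ∑ j ∈ range J, (1 / ((A ^ j * H0 : ℕ) : ℝ)) *
      ((∑ p ∈ S j, Real.log (N p) - (ent s (fun a => (wrd T f (A ^ j * H0) a, rst (S j) (Y a))) -
          ent s (wrd T f (A ^ j * H0)))) -
        (∑ p ∈ (range J).biUnion S, Real.log (N p) - ent s (fun a => rst ((range J).biUnion S) (Y a))))
      ≤ ent s f := by
  classical
  -- the sets of labels
  set U : ℕ → Finset ℕ := fun j => (range j).biUnion S with hUdef
  have hUsucc : ∀ j, U (j + 1) = U j ∪ S j := by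
    intro j
    simp only [hUdef]
    rw [Finset.range_add_one, Finset.biUnion_insert, Finset.union_comm]
  have hUdisj : ∀ j, Disjoint (U j) (S j) := by
    intro j
    simp only [hUdef]
    rw [Finset.disjoint_biUnion_left]
    intro i hi'
    exact hS i j (by have := Finset.mem_range.1 hi'; omega)
  have hUmem : ∀ j ≤ J, ∀ p ∈ U j, ∃ i < J, p ∈ S i := by
    intro j hj p hp
    simp only [hUdef, Finset.mem_biUnion, Finset.mem_range] at hp
    obtain ⟨i, hi', hp⟩ := hp
    exact ⟨i, by omega, hp⟩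
  have hUdet : ∀ j ≤ J, ∀ p ∈ U j, ∀ a ∈ s, ∀ a' ∈ s, f a = f a' → Y a p = Y a' p →
      Y (T a) p = Y (T a') p := by
    intro j hj p hp
    obtain ⟨i, hi', hp'⟩ := hUmem j hj p hp
    exact hU i hi' p hp'
  set c : ℕ → ℕ → ℝ := fun n j => Decr_c s T f Y n (U j) with hc
  set H : ℕ → ℕ := fun j => A ^ j * H0 with hHdef
  have hHpos : ∀ j, 0 < H j := by
    intro j
    simp only [hHdef]
    have : 0 < A ^ j := Nat.pow_pos (by omega)
    exact Nat.mul_pos this (by omega)
  have hHposR : ∀ j, (0 : ℝ) < (H j : ℝ) := fun j => by exact_mod_cast hHpos j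
  have hHs : ∀ j, H (j + 1) = A * H j := by
    intro j; simp only [hHdef]; ring
  have hAR : (0 : ℝ) < (A : ℝ) := by exact_mod_cast (by omega : 0 < A)
  -- (2)
  have hstep : ∀ j < J, c (H (j + 1)) (j + 1) / H (j + 1) ≤ c (H j) (j + 1) / H j := by
    intro j hj
    have h1 : c (H (j + 1)) (j + 1) ≤ A * c (H j) (j + 1) := by
      rw [hHs]
      exact Decr_c_mul s T hT hi f Y (U (j + 1)) (hUdet (j + 1) (by omega)) A (H j)
    rw [hHs, Nat.cast_mul, div_le_div_iff₀ (mul_pos hAR (hHposR j)) (hHposR j)]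
    rw [hHs] at h1
    nlinarith [hHposR j]
  have htel : ∀ j ≤ J, ∑ i ∈ range j, (c (H i) i - c (H i) (i + 1)) / H i ≤
      c (H 0) 0 / H 0 - c (H j) j / H j := by
    intro j
    induction j with
    | zero => intro _; simp
    | succ j ih =>
      intro hj
      have ih' := ih (by omega)
      have h2 := hstep j (by omega)
      rw [Finset.sum_range_succ, sub_div]
      linarith
  have h0 : c (H 0) 0 / H 0 ≤ ent s f := by
    have h1 : c (H 0 * 1) 0 ≤ (H 0 : ℕ) * c 1 0 :=
      Decr_c_mul s T hT hi f Y (U 0) (hUdet 0 (by omega)) (H 0) 1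
    rw [mul_one] at h1
    have h2 : c 1 0 ≤ ent s f := by
      simp only [hc]
      unfold Decr_c
      have e1 : ent s (fun a => (wrd T f 1 a, rst (U 0) (Y a))) = ent s f := by
        apply ent_congr
        intro a _ a' _
        simp only [Prod.mk.injEq]
        rw [Decr_wrd, Decr_rst]
        constructor
        · rintro ⟨h, _⟩
          simpa using h 0 (by omega)
        · intro h
          refine ⟨fun i hi' => ?_, fun p hp => ?_⟩
          · have : i = 0 := by omega
            subst this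
            simpa using h
          · simp [hUdef] at hp
      rw [e1]
      have := ent_nonneg s (fun a => rst (U 0) (Y a))
      linarith
    rw [div_le_iff₀ (hHposR 0)]
    nlinarith [hHposR 0]
  have hJ0 : 0 ≤ c (H J) J / H J := div_nonneg (Decr_c_nonneg _ _ _ _ _ _) (hHposR J).le
  have hsum : ∑ i ∈ range J, (c (H i) i - c (H i) (i + 1)) / H i ≤ ent s f := by
    have := htel J le_rfl
    linarith
  -- (3)
  refine le_trans ?_ hsum
  apply Finset.sum_le_sum
  intro j hj
  have hjJ : j < J := Finset.mem_range.1 hj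
  rw [one_div, inv_mul_eq_div]
  change _ / (H j : ℝ) ≤ _
  apply div_le_div_of_nonneg_right _ (hHposR j).le
  -- submodularity
  have hsm := ent_submod s (fun a => rst (S j) (Y a)) (fun a => rst (U j) (Y a)) (wrd T f (H j))
  have e1 : ent s (fun a => (rst (S j) (Y a), wrd T f (H j) a)) =
      ent s (fun a => (wrd T f (H j) a, rst (S j) (Y a))) := by
    apply ent_congr
    intro a _ a' _
    simp only [Prod.mk.injEq]
    tauto
  have e2 : ent s (fun a => (rst (U j) (Y a), wrd T f (H j) a)) =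
      ent s (fun a => (wrd T f (H j) a, rst (U j) (Y a))) := by
    apply ent_congr
    intro a _ a' _
    simp only [Prod.mk.injEq]
    tauto
  have e3 : ent s (fun a => (rst (S j) (Y a), rst (U j) (Y a), wrd T f (H j) a)) =
      ent s (fun a => (wrd T f (H j) a, rst (U (j + 1)) (Y a))) := by
    apply ent_congr
    intro a _ a' _
    simp only [Prod.mk.injEq]
    rw [Decr_rst, Decr_rst, Decr_rst, hUsucc]
    constructor
    · rintro ⟨h1, h2, h3⟩
      refine ⟨h3, fun p hp => ?_⟩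
      rcases Finset.mem_union.1 hp with h | h
      · exact h2 p h
      · exact h1 p h
    · rintro ⟨h3, h⟩
      exact ⟨fun p hp => h p (Finset.mem_union_right _ hp),
        fun p hp => h p (Finset.mem_union_left _ hp), h3⟩
  rw [e1, e2, e3] at hsm
  -- entropies of the labels
  have hUJ : U J = U (j + 1) ∪ (U J \ U (j + 1)) := by
    rw [Finset.union_sdiff_of_subset]
    intro p hp
    simp only [hUdef, Finset.mem_biUnion, Finset.mem_range] at hp ⊢
    obtain ⟨i, hi', hp⟩ := hp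
    exact ⟨i, by omega, hp⟩
  have hb1 : ent s (fun a => rst (U J) (Y a)) ≤ ent s (fun a => rst (U (j + 1)) (Y a)) +
      ∑ p ∈ U J \ U (j + 1), Real.log (N p) := by
    have := Decr_union s Y N (U (j + 1)) (U J \ U (j + 1))
      (fun p hp => by
        obtain ⟨i, hi', hp'⟩ := hUmem J le_rfl p (Finset.mem_sdiff.1 hp).1
        exact hN i hi' p hp')
      (fun a ha p hp => by
        obtain ⟨i, hi', hp'⟩ := hUmem J le_rfl p (Finset.mem_sdiff.1 hp).1
        exact hY a ha i hi' p hp')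
    rwa [← hUJ] at this
  have hb2 : ent s (fun a => rst (U j) (Y a)) ≤ ent s (fun a => rst ∅ (Y a)) +
      ∑ p ∈ U j, Real.log (N p) := by
    have := Decr_union s Y N ∅ (U j)
      (fun p hp => by
        obtain ⟨i, hi', hp'⟩ := hUmem j hjJ.le p hp
        exact hN i hi' p hp')
      (fun a ha p hp => by
        obtain ⟨i, hi', hp'⟩ := hUmem j hjJ.le p hp
        exact hY a ha i hi' p hp')
    rwa [Finset.empty_union] at this
  have hb0 : ent s (fun a => rst ∅ (Y a)) ≤ 0 := by
    have := ent_le_log s (fun a => rst ∅ (Y a)) 1 le_rfl (by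
      rw [Finset.card_le_one]
      intro x hx y hy
      rw [Finset.mem_image] at hx hy
      obtain ⟨a, _, rfl⟩ := hx
      obtain ⟨b, _, rfl⟩ := hy
      rw [Decr_rst]
      intro p hp
      simp at hp)
    simpa using this
  have hsumU : ∑ p ∈ U J, Real.log (N p) = ∑ p ∈ U j, Real.log (N p) + ∑ p ∈ S j, Real.log (N p) +
      ∑ p ∈ U J \ U (j + 1), Real.log (N p) := by
    have hd : Disjoint (U (j + 1)) (U J \ U (j + 1)) := Finset.disjoint_sdiff
    calc ∑ p ∈ U J, Real.log (N p) = ∑ p ∈ U (j + 1) ∪ (U J \ U (j + 1)), Real.log (N p) := by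
          rw [← hUJ]
      _ = ∑ p ∈ U (j + 1), Real.log (N p) + ∑ p ∈ U J \ U (j + 1), Real.log (N p) :=
          Finset.sum_union hd
      _ = _ := by rw [hUsucc, Finset.sum_union (hUdisj j)]
  have hgoal : (∑ p ∈ S j, Real.log (N p) - (ent s (fun a => (wrd T f (H j) a, rst (S j) (Y a))) -
          ent s (wrd T f (H j)))) - (∑ p ∈ U J, Real.log (N p) - ent s (fun a => rst (U J) (Y a)))
      ≤ c (H j) j - c (H j) (j + 1) := by
    simp only [hc]
    unfold Decr_c
    linarith
  exact hgoal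

end Pool.Agent.FCH
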