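import Pool.Agent.MRS.Defs

set_option autoImplicit false

open Finset

namespace Pool.Agent.FCH

open Pool.Agent.MRS hiding Good

/-- completely multiplicative on `Od`, bounded by `1` -/
structure CG (c : GI → ℂ) : Prop where
  mul : ∀ z w : GI, Od z → Od w → c (z * w) = c z * c w
  le : ∀ z : GI, ‖c z‖ ≤ 1

/-- all the prime polynomials of level `j` are small at `k` -/
def Good (c : GI → ℂ) (A ε : ℝ) (j : ℕ) (k : ℤ) : Prop :=
  ∀ v ∈ vs (HH A j) (pset A j),
    ‖sp (pb (HH A j) (pset A j) v) c k‖ ≤ Real.exp ((1 - al ε j) * (v / HH A j))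

end Pool.Agent.FCH
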