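import Pool.Agent.FCH.Gg

set_option autoImplicit false

/-! Module Dil: pairs of determinant `p` divisible by `π = gpi p`, and pairs of determinant `1`.
`SS_triv`: for each `v ∈ AA` at most `C_b` vectors `w ∈ AA` with `dt v w = 1` (`Pack.det_cnt`), `#AA ≤ C m` (`Pack.card_AA`).
`dil`: let `M = p m + i`.  If `dt z z' = p` and `π ∣ z`: `conj z * z' = ip + i p`, `conj π ∣ conj z`, so `conj π ∣ ip`, `p ∣ ip` (an integer divisible by a prime of norm `p` is divisible by `p`), so `π ∣ p ∣ conj z * z'`;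
`π ∤ conj z` (otherwise `conj π ∣ z`, so `p ∣ z`, but `z` is primitive), so `π ∣ z'`.  So `SPd` is the sum over the pairs `z = π v`, `z' = π w`, `dt v w = 1`, `ip v w > 0` (`dt (π v) (π w) = p dt v w`, same for `ip`), with
`π v, π w ∈ AA b M`, and `cg q (π v) (π g₁) ↔ cg q v g₁` since `p ∤ q` (multiply by `conj π`).  `F(π v) = ζ F(v)` (`fz_mul`, `fz ζ p = ζ`).
`N(π v) ≤ M ↔ N(v) ≤ m`; `N(π v) > M/b → N(v) > m/b`; the converse fails only if `m/b < N(v) ≤ (m+1)/b`; `π v` is primitive iff `v` is primitive and `conj π ∤ v`.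
So `SPd - ζ² SS` is bounded by the number of pairs `(v, w)`, `v, w ∈ AA b m`, `dt v w = 1`, with `v` or `w` in the annulus `(m/b, (m+1)/b]` or divisible by `conj π`.  Number of lattice points in the annulus: for each value of `re` at most
`2` values of `im` (two squares in an interval of length `1/b < 1` are equal), so `≤ C √m`; multiples of `conj π`: `≤ C m/p` (non-zero elements of norm `≤ m/p`).  For each `v` at most `C_b` `w`'s and conversely (`det_cnt`). -/

open Finset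

namespace Pool.Agent.FCH

open Pool.Agent.MRS hiding Good

/-- pairs of determinant `1` in the classes of `g₁`, `g₂` -/
noncomputable def SS (b : ℝ) (m q : ℕ) (g₁ g₂ : GI) (F : GI → ℂ) : ℂ :=
  open Classical in
  ∑ v ∈ AA b m, ∑ w ∈ AA b m, if (dt v w = 1 ∧ 0 < ip v w) ∧ (cg q v g₁ ∧ cg q w g₂) then F v * F w else 0

theorem Dil_cg_iff {q : ℕ} {z w : GI} : cg q z w ↔ ((q : ℤ) : GI) ∣ z - w := by
  rw [Zsqrtd.intCast_dvd]
  unfold cg
  simp

theorem Dil_cg_mul {p q : ℕ} {π : GI} (hπ : nm π = p) (hpq : Nat.Coprime p q) (v g : GI) :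
    cg q (π * v) (π * g) ↔ cg q v g := by
  rw [Dil_cg_iff, Dil_cg_iff]
  constructor
  · intro h
    have h1 : ((q : ℤ) : GI) ∣ ((p : ℤ) : GI) * (v - g) := by
      have h2 := h.mul_left (star π)
      have h3 : star π * (π * v - π * g) = ((p : ℤ) : GI) * (v - g) := by
        have h4 := BAS_mul_star π
        rw [hπ] at h4
        push_cast
        linear_combination (v - g) * h4
      rwa [h3] at h2
    rw [Zsqrtd.intCast_dvd] at h1 ⊢
    simp only [Zsqrtd.re_mul, Zsqrtd.im_mul, Zsqrtd.re_intCast, Zsqrtd.im_intCast] at h1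
    have hc : IsCoprime (q : ℤ) (p : ℤ) := Nat.isCoprime_iff_coprime.2 hpq.symm
    constructor
    · apply hc.dvd_of_dvd_mul_left
      have := h1.1
      simpa using this
    · apply hc.dvd_of_dvd_mul_left
      have := h1.2
      simpa using this
  · intro h
    rw [← mul_sub]
    exact h.mul_left _

theorem Dil_ip_mul (d z w : GI) : ip (d * z) (d * w) = nm d * ip z w := by
  rw [nm_int]
  unfold ip
  simp only [Zsqrtd.re_mul, Zsqrtd.im_mul]
  ring

theorem Dil_star_mul (z w : GI) : star z * w = ((ip z w : ℤ) : GI) + (⟨0, 1⟩ : GI) * ((dt z w : ℤ) : GI) := by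
  unfold ip dt
  ext
  · simp
  · simp
    ring

theorem Dil_dvd_int {p : ℕ} (hp : p.Prime) {π : GI} (hπ : nm π = p) {a : ℤ} (h : π ∣ (a : GI)) :
    (p : ℤ) ∣ a := by
  obtain ⟨c, hc⟩ := h
  have h7 : nm (a : GI) = p * nm c := by rw [hc, nm_mul, hπ]
  have h8 : (nm (a : GI) : ℤ) = a ^ 2 := by
    rw [nm_int]; simp
  have h9 : (p : ℤ) ∣ a ^ 2 := by
    rw [← h8, h7]; push_cast; exact dvd_mul_right _ _
  exact Int.Prime.dvd_pow' hp h9

theorem Dil_not_both {p : ℕ} (hp : p.Prime) {π z : GI} (hπ : PP π) (hn : nm π = p) (hz : Pr z)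
    (h : π ∣ z) : ¬ star π ∣ z := by
  intro h'
  obtain ⟨v, rfl⟩ := h
  have hs : Prime (star π) := by
    have h1 := PP_prime hπ
    rw [← irreducible_iff_prime] at h1 ⊢
    constructor
    · intro hu
      apply h1.not_isUnit
      obtain ⟨c, hc⟩ := isUnit_iff_exists_inv.1 hu
      rw [isUnit_iff_exists_inv]
      refine ⟨star c, ?_⟩
      have := congrArg star hc
      simpa using this
    · intro a b hab
      have h2 : π = star a * star b := by
        have := congrArg star hab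
        simpa [mul_comm] using this
      rcases h1.isUnit_or_isUnit h2 with h3 | h3
      · left
        obtain ⟨c, hc⟩ := isUnit_iff_exists_inv.1 h3
        rw [isUnit_iff_exists_inv]
        refine ⟨star c, ?_⟩
        have := congrArg star hc
        simpa using this
      · right
        obtain ⟨c, hc⟩ := isUnit_iff_exists_inv.1 h3
        rw [isUnit_iff_exists_inv]
        refine ⟨star c, ?_⟩
        have := congrArg star hc
        simpa using this
  rcases hs.dvd_or_dvd h' with h3 | h3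
  · apply PP_not_dvd_star hπ hπ
    obtain ⟨c, hc⟩ := h3
    refine ⟨star c, ?_⟩
    have := congrArg star hc
    simpa [mul_comm] using this
  · obtain ⟨c, hc⟩ := h3
    have h4 : ((p : ℕ) : GI) ∣ π * v := by
      refine ⟨c, ?_⟩
      rw [hc]
      have h5 := BAS_mul_star π
      rw [hn] at h5
      rw [← mul_assoc, h5]
    exact (PMU_Pr_iff _).1 hz p hp h4

/-- `π ∣ z`, `det(z,z') = p` imply `π ∣ z'` -/
theorem Dil_dvd {p : ℕ} (hp : p.Prime) {π z z' : GI} (hπ : PP π) (hn : nm π = p) (hz : Pr z)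
    (h : π ∣ z) (hd : dt z z' = p) : π ∣ z' := by
  have h0 := Dil_star_mul z z'
  have hpp := BAS_mul_star π
  rw [hn] at hpp
  have hsp : star π ∣ ((p : ℤ) : GI) := ⟨π, by push_cast; rw [← hpp, mul_comm]⟩
  have hs1 : star π ∣ star z := by
    obtain ⟨c, hc⟩ := h
    exact ⟨star c, by rw [hc]; simp [mul_comm]⟩
  have h1 : star π ∣ ((ip z z' : ℤ) : GI) := by
    have h2 : star π ∣ star z * z' := hs1.mul_right _
    rw [h0, hd] at h2
    exact (dvd_add_left (hsp.mul_left _)).1 h2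
  have h2 : (p : ℤ) ∣ ip z z' := Dil_dvd_int hp (by rw [nm_star, hn]) h1
  have h3 : π ∣ star z * z' := by
    rw [h0, hd]
    have h4 : π ∣ ((p : ℤ) : GI) := ⟨star π, by push_cast; rw [hpp]⟩
    obtain ⟨c, hc⟩ := h2
    rw [hc]
    apply dvd_add
    · push_cast at h4 ⊢
      exact h4.mul_right _
    · exact h4.mul_left _
  rcases (PP_prime hπ).dvd_or_dvd h3 with h4 | h4
  · exfalso
    apply Dil_not_both hp hπ hn hz h
    obtain ⟨c, hc⟩ := h4
    refine ⟨star c, ?_⟩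
    have := congrArg star hc
    simpa [mul_comm] using this
  · exact h4

theorem Dil_Pr_mul {p : ℕ} (hp : p.Prime) {π v : GI} (hπ : PP π) (hn : nm π = p) (hv : Pr v)
    (h : ¬ star π ∣ v) : Pr (π * v) := by
  rw [PMU_Pr_iff]
  intro r hr hd
  rcases eq_or_ne r p with h1 | h1
  · subst h1
    apply h
    have h5 := BAS_mul_star π
    rw [hn] at h5
    rw [← h5] at hd
    exact (mul_dvd_mul_iff_left (PP_prime hπ).ne_zero).1 hd
  · have h2 : IsCoprime ((r : ℕ) : GI) π := by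
      apply PMU_coprime_nat
      rw [hn]
      exact (Nat.coprime_primes hr hp).2 h1
    exact (PMU_Pr_iff _).1 hv r hr (h2.dvd_of_dvd_mul_left hd)

theorem Dil_AA_sub {b : ℝ} (hb : 1 < b) {p : ℕ} (hp : p.Prime) {π v : GI} (hπ : PP π) (hn : nm π = p)
    {m i : ℕ} (hi : i < p) (h : π * v ∈ AA b (p * m + i)) : v ∈ AA b m := by
  rw [mem_AA] at h ⊢
  obtain ⟨h1, h2, h3⟩ := h
  rw [nm_mul, hn] at h1 h3
  have hp0 : (0 : ℝ) < p := by exact_mod_cast hp.pos
  have h1' : p * nm v ≤ p * m + i := by exact_mod_cast h1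
  refine ⟨?_, Pr_of_dvd (dvd_mul_left v π) h2, ?_⟩
  · have : nm v ≤ m := by
      by_contra hc
      push Not at hc
      have : p * (m + 1) ≤ p * nm v := Nat.mul_le_mul_left p hc
      rw [mul_add] at this
      omega
    exact_mod_cast this
  · have h4 : (p : ℝ) * (m / b) ≤ (((p * m + i : ℕ) : ℝ)) / b := by
      push_cast
      rw [← mul_div_assoc]
      apply div_le_div_of_nonneg_right _ (by linarith)
      have : (0 : ℝ) ≤ i := by positivity
      linarith
    have h5 : (p : ℝ) * (m / b) < p * nm v := by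
      refine lt_of_le_of_lt h4 ?_
      push_cast at h3 ⊢
      exact h3
    exact lt_of_mul_lt_mul_left h5 hp0.le

theorem Dil_AA_bad {b : ℝ} (hb : 1 < b) {p : ℕ} (hp : p.Prime) {π v : GI} (hπ : PP π) (hn : nm π = p)
    {m i : ℕ} (hi : i < p) (h : v ∈ AA b m) (h' : π * v ∉ AA b (p * m + i)) :
    (nm v : ℝ) ≤ (m + 1) / b ∨ star π ∣ v := by
  by_contra hc
  push Not at hc
  obtain ⟨c1, c2⟩ := hc
  apply h'
  rw [mem_AA] at h ⊢
  obtain ⟨h1, h2, h3⟩ := h
  have hp0 : (0 : ℝ) < p := by exact_mod_cast hp.pos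
  have hi' : (i : ℝ) ≤ p := by exact_mod_cast hi.le
  rw [nm_mul, hn]
  push_cast
  refine ⟨?_, Dil_Pr_mul hp hπ hn h2 c2, ?_⟩
  · have : (p : ℝ) * nm v ≤ p * m := mul_le_mul_of_nonneg_left h1 hp0.le
    have : (0 : ℝ) ≤ i := by positivity
    linarith
  · have h4 : (p : ℝ) * ((m + 1) / b) < p * nm v := mul_lt_mul_of_pos_left c1 hp0
    refine lt_of_le_of_lt ?_ h4
    rw [← mul_div_assoc]
    apply div_le_div_of_nonneg_right _ (by linarith)
    nlinarith

/-- the annulus -/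
theorem Dil_ann {b : ℝ} (hb : 1 < b) {m : ℕ} (hm : 1 ≤ m) : open Classical in
    (((AA b m).filter (fun v => (nm v : ℝ) ≤ (m + 1) / b)).card : ℝ) ≤ 6 * √(m : ℝ) := by
  classical
  have hm' : (1 : ℝ) ≤ m := by exact_mod_cast hm
  have hb0 : (0 : ℝ) < b := by linarith
  obtain ⟨R, hR⟩ : ∃ R, R = Nat.sqrt m := ⟨_, rfl⟩
  -- all these vectors have the same norm
  have hsame : ∀ v ∈ (AA b m).filter (fun v => (nm v : ℝ) ≤ (m + 1) / b),
      ∀ w ∈ (AA b m).filter (fun v => (nm v : ℝ) ≤ (m + 1) / b), nm v ≤ nm w := by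
    intro v hv w hw
    rw [mem_filter, mem_AA] at hv hw
    by_contra hc
    push Not at hc
    have h1 : (nm w : ℝ) + 1 ≤ nm v := by exact_mod_cast hc
    have h2 : ((m : ℝ) + 1) / b = m / b + 1 / b := by ring
    have h3 : 1 / b < 1 := by rw [div_lt_one hb0]; exact hb
    linarith [hv.2, hw.1.2.2]
  have hcard : ((AA b m).filter (fun v => (nm v : ℝ) ≤ (m + 1) / b)).card ≤
      (Icc (-(R : ℤ)) R ×ˢ (univ : Finset Bool)).card := by
    apply card_le_card_of_injOn (fun v => (v.re, decide (0 ≤ v.im)))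
    · intro v hv
      have hv' := hv
      rw [mem_coe, mem_filter, mem_AA] at hv'
      have h1 : nm v ≤ m := by exact_mod_cast hv'.1.1
      have h2 : v.re ^ 2 ≤ m := by
        have := nm_int v
        have h3 : (nm v : ℤ) ≤ m := by exact_mod_cast h1
        nlinarith [sq_nonneg v.im]
      have h3 : v.re.natAbs ≤ R := by
        rw [hR, Nat.le_sqrt]
        have : (v.re.natAbs : ℤ) * v.re.natAbs ≤ m := by
          rw [← sq, Int.natAbs_sq]; exact h2
        exact_mod_cast this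
      simp only [coe_product, Set.mem_prod, coe_Icc, Set.mem_Icc, coe_univ, Set.mem_univ, and_true]
      omega
    · intro v hv w hw hEq
      rw [mem_coe] at hv hw
      have e1 : v.re = w.re := congrArg Prod.fst hEq
      have e2 : decide (0 ≤ v.im) = decide (0 ≤ w.im) := congrArg Prod.snd hEq
      have e3 : nm v = nm w := le_antisymm (hsame v hv w hw) (hsame w hw v hv)
      have e4 := nm_int v
      have e5 := nm_int w
      rw [e3, e5, e1] at e4
      have e6 : v.im ^ 2 = w.im ^ 2 := by linarith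
      rcases sq_eq_sq_iff_eq_or_eq_neg.1 e6 with h | h
      · exact Zsqrtd.ext e1 h
      · have e7 : (0 ≤ v.im) ↔ (0 ≤ w.im) := by simpa using e2
        have e8 : v.im = w.im := by omega
        exact Zsqrtd.ext e1 e8
  rw [card_product, Int.card_Icc] at hcard
  have h5 : (R : ℝ) ≤ √(m : ℝ) := by
    rw [hR]; exact Real.nat_sqrt_le_real_sqrt
  have h6 : (1 : ℝ) ≤ √(m : ℝ) := Real.one_le_sqrt.2 hm'
  have h7 : ((R : ℤ) + 1 - -(R : ℤ)).toNat = 2 * R + 1 := by omega
  rw [h7] at hcard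
  simp only [card_univ, Fintype.card_bool] at hcard
  calc (((AA b m).filter (fun v => (nm v : ℝ) ≤ (m + 1) / b)).card : ℝ)
      ≤ (((2 * R + 1) * 2 : ℕ) : ℝ) := by exact_mod_cast hcard
    _ = (2 * R + 1) * 2 := by push_cast; ring
    _ ≤ 6 * √(m : ℝ) := by linarith

theorem Dil_mult {b : ℝ} {m p : ℕ} (hp : p.Prime) {d : GI} (hd : nm d = p) : open Classical in
    (((AA b m).filter (fun v => d ∣ v)).card : ℝ) ≤ 9 * ((m : ℝ) / p) := by
  classical
  have hp0 : (0 : ℝ) < p := by exact_mod_cast hp.pos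
  rcases lt_or_ge ((m : ℝ) / p) 1 with h1 | h1
  · have h2 : (AA b m).filter (fun v => d ∣ v) = ∅ := by
      rw [filter_eq_empty_iff]
      rintro v hv ⟨u, rfl⟩
      rw [mem_AA] at hv
      have h3 : 0 < nm u := by
        apply nm_pos
        rintro rfl
        rw [mul_zero] at hv
        exact Pr_ne hv.2.1 rfl
      have h4 := hv.1
      rw [nm_mul, hd] at h4
      push_cast at h4
      have h5 : (1 : ℝ) ≤ nm u := by exact_mod_cast h3
      rw [div_lt_one hp0] at h1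
      nlinarith
    rw [h2]
    simp
    positivity
  · refine le_trans ?_ (card_bal _ h1)
    have h2 : (AA b m).filter (fun v => d ∣ v) ⊆ (bal ((m : ℝ) / p)).image (fun u => d * u) := by
      intro v hv
      rw [mem_filter, mem_AA] at hv
      obtain ⟨⟨h3, h4, h5⟩, u, rfl⟩ := hv
      rw [mem_image]
      refine ⟨u, ?_, rfl⟩
      rw [mem_bal, le_div_iff₀ hp0]
      rw [nm_mul, hd] at h3
      push_cast at h3
      linarith
    have h3 := (card_le_card h2).trans card_image_le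
    exact_mod_cast h3

/-- pairs of determinant `1` with first (second) vector in a small set -/
theorem Dil_cnt (b : ℝ) (hb : 1 < b) : ∃ C : ℝ, 0 < C ∧ ∀ m : ℕ, 1 ≤ m → ∀ V : Finset GI, V ⊆ AA b m →
    open Classical in
    (((V ×ˢ AA b m).filter (fun e => dt e.1 e.2 = 1)).card : ℝ) ≤ C * V.card ∧
    (((AA b m ×ˢ V).filter (fun e => dt e.1 e.2 = 1)).card : ℝ) ≤ C * V.card := by
  classical
  obtain ⟨C, hC, h⟩ := det_cnt b 1 hb le_rfl
  refine ⟨C, hC, ?_⟩
  intro m hm V hV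
  have hsub : ∀ w ∈ AA b m, w ∈ bal (1 * (m : ℝ)) := by
    intro w hw
    rw [mem_bal, one_mul]
    exact (mem_AA.1 hw).1
  constructor
  · have h1 : ((V ×ˢ AA b m).filter (fun e => dt e.1 e.2 = 1)).card =
        ∑ v ∈ V, ((AA b m).filter (fun w => dt v w = 1)).card := by
      rw [card_filter, sum_product]
      apply sum_congr rfl
      intro v _
      rw [card_filter]
    rw [h1]
    push_cast
    calc ∑ v ∈ V, (((AA b m).filter (fun w => dt v w = 1)).card : ℝ) ≤ ∑ v ∈ V, C := by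
          apply sum_le_sum
          intro v hv
          refine le_trans ?_ (h m hm v (hV hv) 1)
          have : ((AA b m).filter (fun w => dt v w = 1)).card ≤
              ((bal (1 * (m : ℝ))).filter (fun w => dt v w = 1)).card :=
            card_le_card (filter_subset_filter _ (fun w hw => hsub w hw))
          exact_mod_cast this
      _ = C * V.card := by rw [sum_const, nsmul_eq_mul, mul_comm]
  · have h1 : ((AA b m ×ˢ V).filter (fun e => dt e.1 e.2 = 1)).card =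
        ∑ v ∈ V, ((AA b m).filter (fun w => dt w v = 1)).card := by
      rw [card_filter, sum_product_right]
      apply sum_congr rfl
      intro v _
      rw [card_filter]
    rw [h1]
    push_cast
    calc ∑ v ∈ V, (((AA b m).filter (fun w => dt w v = 1)).card : ℝ) ≤ ∑ v ∈ V, C := by
          apply sum_le_sum
          intro v hv
          refine le_trans ?_ (h m hm v (hV hv) (-1))
          have : ((AA b m).filter (fun w => dt w v = 1)).card ≤
              ((bal (1 * (m : ℝ))).filter (fun w => dt v w = -1)).card := by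
            apply card_le_card
            intro w hw
            rw [mem_filter] at hw ⊢
            refine ⟨hsub w hw.1, ?_⟩
            rw [dt_swap, hw.2]
          exact Nat.cast_le.2 this
      _ = C * V.card := by rw [sum_const, nsmul_eq_mul, mul_comm]

/-- the pairs of `SS` -/
noncomputable def Dil_T (b : ℝ) (m q : ℕ) (g₁ g₂ : GI) : Finset (GI × GI) :=
  open Classical in (AA b m ×ˢ AA b m).filter
    (fun e => (dt e.1 e.2 = 1 ∧ 0 < ip e.1 e.2) ∧ (cg q e.1 g₁ ∧ cg q e.2 g₂))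

theorem Dil_mem_T {b : ℝ} {m q : ℕ} {g₁ g₂ : GI} {e : GI × GI} : e ∈ Dil_T b m q g₁ g₂ ↔
    (e.1 ∈ AA b m ∧ e.2 ∈ AA b m) ∧ (dt e.1 e.2 = 1 ∧ 0 < ip e.1 e.2) ∧ (cg q e.1 g₁ ∧ cg q e.2 g₂) := by
  classical
  unfold Dil_T
  rw [mem_filter, mem_product]

theorem Dil_SS (b : ℝ) (m q : ℕ) (g₁ g₂ : GI) (F : GI → ℂ) :
    SS b m q g₁ g₂ F = ∑ e ∈ Dil_T b m q g₁ g₂, F e.1 * F e.2 := by
  classical
  unfold SS Dil_T
  rw [sum_filter, sum_product]

/-- the pairs of `SPd` -/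
noncomputable def Dil_U (b : ℝ) (m q : ℕ) (g₁ g₂ : GI) (p : ℕ) : Finset (GI × GI) :=
  open Classical in (AA b m ×ˢ AA b m).filter
    (fun e => ((dt e.1 e.2 = p ∧ 0 < ip e.1 e.2) ∧
      (cg q e.1 (gpi p * g₁) ∧ cg q e.2 (gpi p * g₂))) ∧ gpi p ∣ e.1)

theorem Dil_mem_U {b : ℝ} {m q : ℕ} {g₁ g₂ : GI} {p : ℕ} {e : GI × GI} : e ∈ Dil_U b m q g₁ g₂ p ↔
    (e.1 ∈ AA b m ∧ e.2 ∈ AA b m) ∧ (((dt e.1 e.2 = p ∧ 0 < ip e.1 e.2) ∧
      (cg q e.1 (gpi p * g₁) ∧ cg q e.2 (gpi p * g₂))) ∧ gpi p ∣ e.1) := by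
  classical
  unfold Dil_U
  rw [mem_filter, mem_product]

theorem Dil_SPd (b : ℝ) (m q : ℕ) (g₁ g₂ : GI) (F : GI → ℂ) (p : ℕ) :
    SPd b m q g₁ g₂ F p = ∑ e ∈ Dil_U b m q g₁ g₂ p, F e.1 * F e.2 := by
  classical
  unfold SPd Dil_U
  rw [sum_filter, sum_product]

theorem SS_triv (b : ℝ) (hb : 1 < b) : ∃ C : ℝ, 0 < C ∧ ∀ (m q : ℕ) (g₁ g₂ : GI) (F : GI → ℂ),
    (∀ z, ‖F z‖ ≤ 1) → ‖SS b m q g₁ g₂ F‖ ≤ C * m := by
  classical
  obtain ⟨C, hC, h⟩ := Dil_cnt b hb
  refine ⟨C * 9, by positivity, ?_⟩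
  intro m q g₁ g₂ F hF
  rcases Nat.eq_zero_or_pos m with hm | hm
  · subst hm
    have h1 : AA b 0 = ∅ := by
      rw [eq_empty_iff_forall_notMem]
      intro z hz
      rw [mem_AA] at hz
      have h2 : nm z = 0 := by
        have := hz.1
        have h3 : nm z ≤ 0 := by exact_mod_cast this
        omega
      exact Pr_ne hz.2.1 (nm_eq_zero.1 h2)
    unfold SS
    rw [h1]
    simp
  · rw [Dil_SS]
    have h1 : ‖∑ e ∈ Dil_T b m q g₁ g₂, F e.1 * F e.2‖ ≤ ((Dil_T b m q g₁ g₂).card : ℝ) := by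
      refine (norm_sum_le _ _).trans ?_
      calc ∑ e ∈ Dil_T b m q g₁ g₂, ‖F e.1 * F e.2‖ ≤ ∑ e ∈ Dil_T b m q g₁ g₂, 1 := by
            apply sum_le_sum
            intro e _
            rw [norm_mul]
            exact mul_le_one₀ (hF _) (norm_nonneg _) (hF _)
        _ = _ := by simp
    have h2 : ((Dil_T b m q g₁ g₂).card : ℝ) ≤
        (((AA b m ×ˢ AA b m).filter (fun e => dt e.1 e.2 = 1)).card : ℝ) := by
      have : Dil_T b m q g₁ g₂ ⊆ (AA b m ×ˢ AA b m).filter (fun e => dt e.1 e.2 = 1) := by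
        intro e he
        rw [Dil_mem_T] at he
        rw [mem_filter, mem_product]
        exact ⟨he.1, he.2.1.1⟩
      exact_mod_cast card_le_card this
    have h3 := (h m hm (AA b m) (Subset.refl _)).1
    have h4 := card_AA b m
    calc ‖∑ e ∈ Dil_T b m q g₁ g₂, F e.1 * F e.2‖ ≤ C * (AA b m).card := (h1.trans h2).trans h3
      _ ≤ C * (9 * m) := mul_le_mul_of_nonneg_left h4 hC.le
      _ = C * 9 * m := by ring

theorem dil (b : ℝ) (hb : 1 < b) : ∃ C : ℝ, 0 < C ∧ ∀ (ζ : ℂ), ‖ζ‖ = 1 → ∀ (q : ℕ), 1 ≤ q →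
    ∀ p : ℕ, p.Prime → p % 4 = 1 → ¬ p ∣ q → ∀ m i : ℕ, 1 ≤ m → i < p → ∀ g₁ g₂ : GI,
    ‖SPd b (p * m + i) q g₁ g₂ (fun z => fz ζ (nm z)) p - ζ ^ 2 * SS b m q g₁ g₂ (fun z => fz ζ (nm z))‖ ≤
      C * (√(m : ℝ) + (m : ℝ) / p) := by
  classical
  obtain ⟨C, hC, hcnt⟩ := Dil_cnt b hb
  refine ⟨C * 18, by positivity, ?_⟩
  intro ζ hζ q hq p hp h4 hpq m i hm hi g₁ g₂
  obtain ⟨hπ, hn⟩ := gpi_spec hp h4
  obtain ⟨π, hπd⟩ : ∃ π, π = gpi p := ⟨_, rfl⟩
  rw [← hπd] at hπ hn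
  have hπ0 : π ≠ 0 := (PP_prime hπ).ne_zero
  have hcop : Nat.Coprime p q := (Nat.Prime.coprime_iff_not_dvd hp).2 hpq
  have hp0 : (0 : ℤ) < p := by exact_mod_cast hp.pos
  obtain ⟨F, hF⟩ : ∃ F : GI → ℂ, F = fun z => fz ζ (nm z) := ⟨_, rfl⟩
  rw [← hF]
  obtain ⟨T, hT⟩ : ∃ T, T = Dil_T b m q g₁ g₂ := ⟨_, rfl⟩
  obtain ⟨W, hW⟩ : ∃ W : GI × GI → Prop, W = fun e => π * e.1 ∈ AA b (p * m + i) ∧ π * e.2 ∈ AA b (p * m + i) :=
    ⟨_, rfl⟩
  have hFm : ∀ v : GI, v ≠ 0 → F (π * v) = ζ * F v := by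
    intro v hv
    rw [hF]
    simp only []
    rw [nm_mul, hn, fz_mul ζ hp.ne_zero (nm_pos hv).ne']
    congr 1
    unfold fz
    rw [ArithmeticFunction.cardFactors_apply_prime hp, pow_one]
  have hbij : SPd b (p * m + i) q g₁ g₂ F p = ∑ e ∈ T.filter W, ζ ^ 2 * (F e.1 * F e.2) := by
    rw [Dil_SPd]
    symm
    apply sum_bij (fun (e : GI × GI) _ => (π * e.1, π * e.2))
    · intro e he
      rw [mem_filter, hT, Dil_mem_T, hW] at he
      obtain ⟨⟨⟨e1, e2⟩, ⟨e3, e4⟩, e5, e6⟩, e7, e8⟩ := he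
      rw [Dil_mem_U]
      rw [← hπd]
      refine ⟨⟨e7, e8⟩, ⟨⟨?_, ?_⟩, ?_, ?_⟩, dvd_mul_right _ _⟩
      · simp only []
        rw [dt_mul, hn, e3, mul_one]
      · simp only []
        rw [Dil_ip_mul, hn]
        exact mul_pos hp0 e4
      · exact (Dil_cg_mul hn hcop _ _).2 e5
      · exact (Dil_cg_mul hn hcop _ _).2 e6
    · intro e _ e' _ hEq
      have h1 := congrArg Prod.fst hEq
      have h2 := congrArg Prod.snd hEq
      simp only [] at h1 h2
      exact Prod.ext (mul_left_cancel₀ hπ0 h1) (mul_left_cancel₀ hπ0 h2)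
    · intro e he
      rw [Dil_mem_U, ← hπd] at he
      obtain ⟨⟨e1, e2⟩, ⟨⟨e3, e4⟩, e5, e6⟩, e7⟩ := he
      have e8 := Dil_dvd hp hπ hn (mem_AA.1 e1).2.1 e7 e3
      obtain ⟨v, hv⟩ := e7
      obtain ⟨w, hw⟩ := e8
      refine ⟨(v, w), ?_, ?_⟩
      · rw [mem_filter, hT, Dil_mem_T, hW]
        rw [hv] at e1 e3 e4 e5
        rw [hw] at e2 e3 e4 e6
        simp only []
        refine ⟨⟨⟨Dil_AA_sub hb hp hπ hn hi e1, Dil_AA_sub hb hp hπ hn hi e2⟩, ⟨?_, ?_⟩,
          (Dil_cg_mul hn hcop _ _).1 e5, (Dil_cg_mul hn hcop _ _).1 e6⟩, e1, e2⟩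
        · rw [dt_mul, hn] at e3
          have : (p : ℤ) * dt v w = p * 1 := by rw [e3, mul_one]
          exact mul_left_cancel₀ hp0.ne' this
        · rw [Dil_ip_mul, hn] at e4
          exact (mul_pos_iff_of_pos_left hp0).1 e4
      · rw [← hv, ← hw]
    · intro e he
      rw [mem_filter, hT, Dil_mem_T] at he
      obtain ⟨⟨⟨e1, e2⟩, _⟩, _⟩ := he
      rw [hFm _ (Pr_ne (mem_AA.1 e1).2.1), hFm _ (Pr_ne (mem_AA.1 e2).2.1)]
      ring
  have hSS : ζ ^ 2 * SS b m q g₁ g₂ F = ∑ e ∈ T.filter W, ζ ^ 2 * (F e.1 * F e.2) +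
      ∑ e ∈ T.filter (fun e => ¬ W e), ζ ^ 2 * (F e.1 * F e.2) := by
    rw [sum_filter_add_sum_filter_not, Dil_SS, ← hT, mul_sum]
  have hFn : ∀ z, ‖F z‖ = 1 := by
    intro z; rw [hF]; exact norm_fz hζ _
  rw [hbij, hSS, sub_add_cancel_left, norm_neg]
  obtain ⟨V, hV⟩ : ∃ V, V = (AA b m).filter (fun v => (nm v : ℝ) ≤ (m + 1) / b) ∪
    (AA b m).filter (fun v => star π ∣ v) := ⟨_, rfl⟩
  have hVs : V ⊆ AA b m := by
    rw [hV]
    exact union_subset (filter_subset _ _) (filter_subset _ _)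
  have hVc : (V.card : ℝ) ≤ 9 * (√(m : ℝ) + (m : ℝ) / p) := by
    have h1 := Dil_ann hb hm
    have h2 := Dil_mult (b := b) (m := m) hp (d := star π) (by rw [nm_star, hn])
    have h3 : V.card ≤ ((AA b m).filter (fun v => (nm v : ℝ) ≤ (m + 1) / b)).card +
        ((AA b m).filter (fun v => star π ∣ v)).card := by
      rw [hV]; exact card_union_le _ _
    have h3' : (V.card : ℝ) ≤ (((AA b m).filter (fun v => (nm v : ℝ) ≤ (m + 1) / b)).card : ℝ) +
        (((AA b m).filter (fun v => star π ∣ v)).card : ℝ) := by exact_mod_cast h3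
    have h4 : 0 ≤ √(m : ℝ) := Real.sqrt_nonneg _
    linarith
  have hsub : T.filter (fun e => ¬ W e) ⊆ (V ×ˢ AA b m).filter (fun e => dt e.1 e.2 = 1) ∪
      (AA b m ×ˢ V).filter (fun e => dt e.1 e.2 = 1) := by
    intro e he
    rw [mem_filter, hT, Dil_mem_T, hW] at he
    obtain ⟨⟨⟨e1, e2⟩, ⟨e3, e4⟩, e5, e6⟩, e7⟩ := he
    rw [mem_union, mem_filter, mem_filter, mem_product, mem_product]
    by_cases h1 : π * e.1 ∈ AA b (p * m + i)
    · have h2 : π * e.2 ∉ AA b (p * m + i) := fun h2 => e7 ⟨h1, h2⟩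
      right
      refine ⟨⟨e1, ?_⟩, e3⟩
      rw [hV, mem_union, mem_filter, mem_filter]
      rcases Dil_AA_bad hb hp hπ hn hi e2 h2 with h3 | h3
      · exact Or.inl ⟨e2, h3⟩
      · exact Or.inr ⟨e2, h3⟩
    · left
      refine ⟨⟨?_, e2⟩, e3⟩
      rw [hV, mem_union, mem_filter, mem_filter]
      rcases Dil_AA_bad hb hp hπ hn hi e1 h1 with h3 | h3
      · exact Or.inl ⟨e1, h3⟩
      · exact Or.inr ⟨e1, h3⟩
  have hcard : ((T.filter (fun e => ¬ W e)).card : ℝ) ≤ C * V.card + C * V.card := by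
    have h1 := (card_le_card hsub).trans (card_union_le _ _)
    have h2 : ((T.filter (fun e => ¬ W e)).card : ℝ) ≤
        (((V ×ˢ AA b m).filter (fun e => dt e.1 e.2 = 1)).card : ℝ) +
        (((AA b m ×ˢ V).filter (fun e => dt e.1 e.2 = 1)).card : ℝ) := by exact_mod_cast h1
    have h3 := hcnt m hm V hVs
    linarith [h3.1, h3.2]
  calc ‖∑ e ∈ T.filter (fun e => ¬ W e), ζ ^ 2 * (F e.1 * F e.2)‖
      ≤ ∑ e ∈ T.filter (fun e => ¬ W e), ‖ζ ^ 2 * (F e.1 * F e.2)‖ := norm_sum_le _ _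
    _ = ((T.filter (fun e => ¬ W e)).card : ℝ) := by
        simp only [norm_mul, norm_pow, hζ, hFn]
        simp
    _ ≤ C * V.card + C * V.card := hcard
    _ ≤ C * (9 * (√(m : ℝ) + (m : ℝ) / p)) + C * (9 * (√(m : ℝ) + (m : ℝ) / p)) := by
        have := mul_le_mul_of_nonneg_left hVc hC.le
        linarith
    _ = C * 18 * (√(m : ℝ) + (m : ℝ) / p) := by ring

end Pool.Agent.FCH
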