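import Pool.Agent.FCH.Base

set_option autoImplicit false

/-! Module Dsm: every primitive `z` is `δ z₀`, `δ` with all Gaussian primes dividing `D`, `z₀ ∈ Od` coprime to `D` (`4 ∣ D`), in exactly two ways (`(δ, z₀)`, `(-δ, -z₀)`).
Existence: take `δ` a divisor of `z` dividing a power of `D`, of maximal norm; `z₀ = z/δ` is coprime to `D` (so of odd norm), multiply by a unit to make it `Od`.  Uniqueness: `z₀` divides `z₀' δ'`, coprime to `δ'`, so
`z₀ ∣ z₀'` and conversely; both `Od`, so `z₀' = ± z₀`.  If `δ`, `z₀` are primitive and `z₀` is coprime to `D` then `δ z₀` is primitive (a rational prime `q ∣ δ z₀`: if `q ∣ D` it is coprime to `z₀`, so `q ∣ δ`;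
if `q ∤ D` it is coprime to `δ`, so `q ∣ z₀`).
`dsm_tail`: `∑_{δ} 1/N(δ) ≤ 4 ∏_{π ∣ D} (1 - 1/N(π))^{-1} < ∞` over all `δ` dividing a power of `D` (or: Rankin, `∑_{N(δ) > B} 1/N(δ) ≤ B^{-1/2} ∑ N(δ)^{-1/2} ≤ B^{-1/2} 4 ∏ (1 - N(π)^{-1/2})^{-1}`). -/

open Finset

namespace Pool.Agent.FCH

open Pool.Agent.MRS hiding Good

/-- primitive divisors of powers of `D` with norm `≤ Y` -/
noncomputable def smo (D : ℕ) (Y : ℝ) : Finset GI :=
  open Classical in (bal Y).filter (fun δ => Pr δ ∧ ∃ n : ℕ, δ ∣ (D : GI) ^ n)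

theorem Dsm_mem_smo {D : ℕ} {Y : ℝ} {δ : GI} :
    δ ∈ smo D Y ↔ (nm δ : ℝ) ≤ Y ∧ Pr δ ∧ ∃ n : ℕ, δ ∣ (D : GI) ^ n := by
  classical
  unfold smo
  rw [mem_filter, mem_bal]

theorem Dsm_mul_star (z : GI) : z * star z = ((nm z : ℕ) : GI) := by
  have h := nm_int z
  apply Zsqrtd.ext
  · rw [Zsqrtd.re_mul]
    simp only [Zsqrtd.re_star, Zsqrtd.im_star, Zsqrtd.re_natCast]
    rw [h]; ring
  · rw [Zsqrtd.im_mul]
    simp only [Zsqrtd.re_star, Zsqrtd.im_star, Zsqrtd.im_natCast]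
    ring

theorem Dsm_coprime {z : GI} {D : ℕ} (h : Nat.Coprime (nm z) D) : IsCoprime z (D : GI) := by
  have h1 : IsCoprime ((nm z : ℤ)) (D : ℤ) := Nat.isCoprime_iff_coprime.2 h
  have h2 : IsCoprime (((nm z : ℤ) : GI)) ((D : ℤ) : GI) := h1.map (Int.castRingHom GI)
  have h3 : (((nm z : ℤ) : GI)) = z * star z := by
    rw [Dsm_mul_star]
    push_cast
    rfl
  rw [h3] at h2
  have h4 : ((D : ℤ) : GI) = (D : GI) := by push_cast; rfl
  rw [h4] at h2
  exact IsCoprime.of_mul_left_left h2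

/-- existence of the decomposition -/
theorem Dsm_exists (D : ℕ) (h4 : 4 ∣ D) (hD : 0 < D) : ∀ (N : ℕ) (z : GI), z ≠ 0 → nm z ≤ N →
    ∃ δ z₀ : GI, z = δ * z₀ ∧ (∃ n : ℕ, δ ∣ (D : GI) ^ n) ∧ Od z₀ ∧ Nat.Coprime (nm z₀) D := by
  intro N
  induction N with
  | zero =>
    intro z hz hN
    have := nm_pos hz
    omega
  | succ N ih =>
    intro z hz hN
    by_cases hc : Nat.Coprime (nm z) D
    · -- `z` has odd norm
      have h2 : nm z % 2 = 1 := by
        have h2D : 2 ∣ D := (by norm_num : (2 : ℕ) ∣ 4).trans h4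
        by_contra h0
        have h1 : 2 ∣ nm z := by omega
        have := Nat.dvd_gcd h1 h2D
        rw [hc] at this
        omega
      have h3 := nm_int z
      by_cases h5 : Od z
      · exact ⟨1, z, (one_mul z).symm, ⟨0, by simp⟩, h5, hc⟩
      · refine ⟨⟨0, -1⟩, ⟨0, 1⟩ * z, ?_, ⟨0, ?_⟩, ?_, ?_⟩
        · rw [← mul_assoc]
          have : (⟨0, -1⟩ : GI) * ⟨0, 1⟩ = 1 := by
            apply Zsqrtd.ext <;> simp [Zsqrtd.re_mul, Zsqrtd.im_mul]
          rw [this, one_mul]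
        · rw [pow_zero]
          refine ⟨⟨0, 1⟩, ?_⟩
          apply Zsqrtd.ext <;> simp [Zsqrtd.re_mul, Zsqrtd.im_mul]
        · have h6 : (z.re + z.im) % 2 = 1 := by
            have h7 : ((nm z : ℤ) - (z.re + z.im)) % 2 = 0 := by
              rw [h3]
              have e1 : z.re ^ 2 + z.im ^ 2 - (z.re + z.im) = z.re * (z.re - 1) + z.im * (z.im - 1) := by ring
              rw [e1]
              have e2 : ∀ x : ℤ, (x * (x - 1)) % 2 = 0 := by
                intro x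
                rcases Int.even_or_odd x with ⟨k, hk⟩ | ⟨k, hk⟩
                · rw [hk, show (k + k) * (k + k - 1) = 2 * (k * (k + k - 1)) by ring]
                  omega
                · rw [hk, show (2 * k + 1) * (2 * k + 1 - 1) = 2 * ((2 * k + 1) * k) by ring]
                  omega
              have := e2 z.re
              have := e2 z.im
              omega
            omega
          unfold Od at h5 ⊢
          simp only [Zsqrtd.re_mul, Zsqrtd.im_mul]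
          omega
        · rw [nm_mul]
          have : nm (⟨0, 1⟩ : GI) = 1 := by
            have := nm_int (⟨0, 1⟩ : GI)
            simp at this
            exact_mod_cast this
          rw [this, one_mul]
          exact hc
    · -- a common Gaussian prime
      obtain ⟨q, hq, hqz, hqD⟩ := Nat.Prime.not_coprime_iff_dvd.1 hc
      have hq0 : (q : GI) ≠ 0 := by exact_mod_cast hq.ne_zero
      have hqu : ¬ IsUnit (q : GI) := by
        intro hu
        have := Zsqrtd.norm_eq_one_iff.2 hu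
        have h1 : nm (q : GI) = 1 := this
        rw [BAS_nm_natCast] at h1
        have := hq.two_le
        nlinarith
      obtain ⟨π, hπ, hπq⟩ := WfDvdMonoid.exists_irreducible_factor hqu hq0
      have hπp : Prime π := hπ.prime
      have h1 : π ∣ z * star z := by
        rw [Dsm_mul_star]
        exact hπq.trans (by exact_mod_cast (Nat.cast_dvd_cast (α := GI) hqz))
      have hqD' : (q : GI) ∣ (D : GI) := Nat.cast_dvd_cast hqD
      obtain ⟨π', hπ'z, hπ'D, hπ'u⟩ : ∃ π' : GI, π' ∣ z ∧ π' ∣ (D : GI) ∧ ¬ IsUnit π' := by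
        rcases hπp.dvd_or_dvd h1 with h | h
        · exact ⟨π, h, hπq.trans hqD', hπp.not_isUnit⟩
        · refine ⟨star π, ?_, ?_, ?_⟩
          · obtain ⟨c, hc⟩ := h
            refine ⟨star c, ?_⟩
            rw [← star_star z, hc, star_mul, mul_comm]
          · obtain ⟨c, hc⟩ := hπq.trans hqD'
            refine ⟨star c, ?_⟩
            have : star (D : GI) = (D : GI) := star_natCast D
            rw [← this, hc, star_mul, mul_comm]
          · intro hu
            apply hπp.not_isUnit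
            have := hu.star
            rwa [star_star] at this
      obtain ⟨z', hz'⟩ := hπ'z
      have hz'0 : z' ≠ 0 := by
        rintro rfl
        rw [mul_zero] at hz'
        exact hz hz'
      have hπ'0 : π' ≠ 0 := by
        rintro rfl
        rw [zero_mul] at hz'
        exact hz hz'
      have h3 : 2 ≤ nm π' := by
        have h5 := nm_pos hπ'0
        have h6 : nm π' ≠ 1 := fun h => hπ'u (Zsqrtd.norm_eq_one_iff.1 h)
        omega
      have h7 : nm z' ≤ N := by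
        have h8 : nm z = nm π' * nm z' := by rw [hz', nm_mul]
        have h9 := nm_pos hz'0
        nlinarith
      obtain ⟨δ, z₀, e1, ⟨n, hn⟩, e2, e3⟩ := ih z' hz'0 h7
      refine ⟨π' * δ, z₀, by rw [hz', e1, mul_assoc], ⟨n + 1, ?_⟩, e2, e3⟩
      rw [pow_succ, mul_comm]
      exact mul_dvd_mul hn hπ'D

/-- uniqueness -/
theorem Dsm_unique {D : ℕ} {δ z₀ δ' z₀' : GI} (h : δ * z₀ = δ' * z₀') {n n' : ℕ}
    (hδ : δ ∣ (D : GI) ^ n) (hδ' : δ' ∣ (D : GI) ^ n') (hz : Od z₀) (hz' : Od z₀')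
    (hc : Nat.Coprime (nm z₀) D) (hc' : Nat.Coprime (nm z₀') D) :
    (δ' = δ ∧ z₀' = z₀) ∨ (δ' = -δ ∧ z₀' = -z₀) := by
  have h1 : IsCoprime z₀ δ' := ((Dsm_coprime hc).pow_right (n := n')).of_isCoprime_of_dvd_right hδ'
  have h2 : IsCoprime z₀' δ := ((Dsm_coprime hc').pow_right (n := n)).of_isCoprime_of_dvd_right hδ
  have h3 : z₀ ∣ z₀' := by
    have : z₀ ∣ δ' * z₀' := ⟨δ, by rw [← h, mul_comm]⟩
    exact h1.dvd_of_dvd_mul_left this
  have h4 : z₀' ∣ z₀ := by
    have : z₀' ∣ δ * z₀ := ⟨δ', by rw [h, mul_comm]⟩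
    exact h2.dvd_of_dvd_mul_left this
  have hz0 : z₀ ≠ 0 := Od_ne hz
  rcases BAS_assoc hz hz' (associated_of_dvd_dvd h3 h4) with e | e
  · left
    refine ⟨?_, e⟩
    rw [e] at h
    exact (mul_right_cancel₀ hz0 h).symm
  · right
    refine ⟨?_, e⟩
    rw [e, mul_neg, ← neg_mul] at h
    have := mul_right_cancel₀ hz0 h
    rw [this, neg_neg]

/-- the product is primitive -/
theorem Dsm_Pr {D : ℕ} {δ z₀ : GI} {n : ℕ} (hδ : δ ∣ (D : GI) ^ n) (hc : Nat.Coprime (nm z₀) D)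
    (hPδ : Pr δ) (hPz : Pr z₀) : Pr (δ * z₀) := by
  have key : ∀ (q : ℕ), q.Prime → ∀ w : GI, Pr w → ¬ (q : GI) ∣ w := by
    rintro q hq w hw ⟨v, rfl⟩
    unfold Pr at hw
    have h1 : (q : ℤ) ∣ ((q : GI) * v).re := by
      rw [Zsqrtd.re_mul]
      simp
    have h2 : (q : ℤ) ∣ ((q : GI) * v).im := by
      rw [Zsqrtd.im_mul]
      simp
    have h3 := Int.dvd_coe_gcd h1 h2
    rw [hw] at h3
    have h4 : q ∣ 1 := by exact_mod_cast h3
    exact hq.one_lt.ne' (Nat.dvd_one.1 h4)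
  by_contra hcon
  unfold Pr at hcon
  obtain ⟨q, hq, hqd⟩ := Nat.exists_prime_and_dvd hcon
  have h5 : (q : ℤ) ∣ (δ * z₀).re := (Int.natCast_dvd_natCast.2 hqd).trans (Int.gcd_dvd_left ..)
  have h6 : (q : ℤ) ∣ (δ * z₀).im := (Int.natCast_dvd_natCast.2 hqd).trans (Int.gcd_dvd_right ..)
  have h7 : (q : GI) ∣ δ * z₀ := by
    obtain ⟨a, ha⟩ := h5
    obtain ⟨c, hc'⟩ := h6
    refine ⟨⟨a, c⟩, ?_⟩
    apply Zsqrtd.ext
    · rw [ha, Zsqrtd.re_mul (q : GI) ⟨a, c⟩]
      simp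
    · rw [hc', Zsqrtd.im_mul (q : GI) ⟨a, c⟩]
      simp
  by_cases hqD : q ∣ D
  · -- `q` is coprime to `z₀`
    have h8 : IsCoprime z₀ (q : GI) := (Dsm_coprime hc).of_isCoprime_of_dvd_right (Nat.cast_dvd_cast hqD)
    exact key q hq δ hPδ (h8.symm.dvd_of_dvd_mul_right h7)
  · have h8 : IsCoprime (q : ℤ) (D : ℤ) := Nat.isCoprime_iff_coprime.2 ((Nat.Prime.coprime_iff_not_dvd hq).2 hqD)
    have h9 : IsCoprime (q : GI) (D : GI) := by
      have := h8.map (Int.castRingHom GI)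
      simpa using this
    have h10 : IsCoprime (q : GI) δ := (h9.pow_right (n := n)).of_isCoprime_of_dvd_right hδ
    exact key q hq z₀ hPz (h10.dvd_of_dvd_mul_left h7)

theorem dsm (D : ℕ) (h4 : 4 ∣ D) (hD : 0 < D) (b : ℝ) (hb : 1 < b) (m : ℕ) (hm : 1 ≤ m) (g : GI → ℂ) :
    open Classical in
    ∑ z ∈ AA b m, g z = (1 / 2) * ∑ δ ∈ smo D m,
      ∑ z ∈ (pan ((m : ℝ) / (b * nm δ)) ((m : ℝ) / nm δ)).filter (fun z => Nat.Coprime (nm z) D),
        g (δ * z) := by
  classical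
  set P : Finset (Σ _ : GI, GI) := (smo D m).sigma (fun δ =>
    (pan ((m : ℝ) / (b * nm δ)) ((m : ℝ) / nm δ)).filter (fun z => Nat.Coprime (nm z) D)) with hP
  have hmemP : ∀ δ z₀ : GI, (⟨δ, z₀⟩ : Σ _ : GI, GI) ∈ P ↔ (Pr δ ∧ ∃ n : ℕ, δ ∣ (D : GI) ^ n) ∧
      Od z₀ ∧ Pr z₀ ∧ Nat.Coprime (nm z₀) D ∧ (m : ℝ) / b < (nm (δ * z₀) : ℝ) ∧ (nm (δ * z₀) : ℝ) ≤ m := by
    intro δ z₀
    rw [hP, mem_sigma]
    simp only [Dsm_mem_smo, mem_filter, mem_pan]
    constructor
    · rintro ⟨⟨h1, h2, h3⟩, ⟨h5, h6, h7, h8⟩, h9⟩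
      have hδ0 : (0 : ℝ) < nm δ := by exact_mod_cast nm_pos (Pr_ne h2)
      refine ⟨⟨h2, h3⟩, h5, h6, h9, ?_, ?_⟩
      · rw [nm_mul]; push_cast
        rw [div_lt_iff₀ (by positivity)] at h7
        rw [div_lt_iff₀ (by positivity)]
        nlinarith
      · rw [nm_mul]; push_cast
        rw [le_div_iff₀ hδ0] at h8
        linarith
    · rintro ⟨⟨h2, h3⟩, h5, h6, h9, h7, h8⟩
      have hδ0 : (0 : ℝ) < nm δ := by exact_mod_cast nm_pos (Pr_ne h2)
      have hz0 : (1 : ℝ) ≤ nm z₀ := by exact_mod_cast nm_pos (Pr_ne h6)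
      rw [nm_mul] at h7 h8; push_cast at h7 h8
      refine ⟨⟨?_, h2, h3⟩, ⟨h5, h6, ?_, ?_⟩, h9⟩
      · nlinarith
      · rw [div_lt_iff₀ (by positivity)] at h7
        rw [div_lt_iff₀ (by positivity)]
        nlinarith
      · rw [le_div_iff₀ hδ0]
        linarith
  have hmaps : ∀ x ∈ P, x.1 * x.2 ∈ AA b m := by
    rintro ⟨δ, z₀⟩ hx
    obtain ⟨⟨h1, n, h2⟩, h3, h5, h6, h7, h8⟩ := (hmemP δ z₀).1 hx
    rw [mem_AA]
    exact ⟨h8, Dsm_Pr h2 h6 h1 h5, h7⟩
  have hfib : ∀ z ∈ AA b m, (P.filter (fun x => x.1 * x.2 = z)).card = 2 := by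
    intro z hz
    rw [mem_AA] at hz
    obtain ⟨h1, h2, h3⟩ := hz
    obtain ⟨δ, z₀, e1, ⟨n, hn⟩, e2, e3⟩ := Dsm_exists D h4 hD (nm z) z (Pr_ne h2) le_rfl
    have hPδ : Pr δ := Pr_of_dvd ⟨z₀, e1⟩ h2
    have hPz : Pr z₀ := Pr_of_dvd ⟨δ, by rw [e1, mul_comm]⟩ h2
    have hset : P.filter (fun x => x.1 * x.2 = z) = {⟨δ, z₀⟩, ⟨-δ, -z₀⟩} := by
      ext ⟨δ', z₀'⟩
      rw [mem_filter, hmemP, mem_insert, mem_singleton]
      constructor
      · rintro ⟨⟨⟨a1, n', a2⟩, a3, a5, a6, a7, a8⟩, a9⟩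
        rcases Dsm_unique (show δ * z₀ = δ' * z₀' by rw [← e1]; exact a9.symm) hn a2 e2 a3 e3 a6 with
          ⟨b1, b2⟩ | ⟨b1, b2⟩
        · left; rw [b1, b2]
        · right; rw [b1, b2]
      · rintro (h | h)
        · rw [Sigma.mk.injEq] at h
          obtain ⟨rfl, h⟩ := h
          have h := eq_of_heq h
          subst h
          rw [← e1]
          exact ⟨⟨⟨hPδ, n, hn⟩, e2, hPz, e3, h3, h1⟩, rfl⟩
        · rw [Sigma.mk.injEq] at h
          obtain ⟨rfl, h⟩ := h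
          have h := eq_of_heq h
          subst h
          have e4 : -δ * -z₀ = z := by rw [neg_mul_neg, ← e1]
          rw [e4]
          exact ⟨⟨⟨Pr_neg hPδ, n, (neg_dvd).2 hn⟩, Od_neg e2, Pr_neg hPz, by rwa [nm_neg], h3, h1⟩, rfl⟩
    rw [hset, card_pair]
    intro h
    rw [Sigma.mk.injEq] at h
    have h5 := congrArg Zsqrtd.re h.1
    have h6 := congrArg Zsqrtd.im h.1
    rw [Zsqrtd.re_neg] at h5
    rw [Zsqrtd.im_neg] at h6
    apply Pr_ne hPδ
    apply Zsqrtd.ext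
    · show δ.re = 0
      omega
    · show δ.im = 0
      omega
  have hsum : ∑ δ ∈ smo D m,
      ∑ z ∈ (pan ((m : ℝ) / (b * nm δ)) ((m : ℝ) / nm δ)).filter (fun z => Nat.Coprime (nm z) D),
        g (δ * z) = ∑ x ∈ P, g (x.1 * x.2) := by
    rw [hP, sum_sigma]
  rw [hsum, ← sum_fiberwise_of_maps_to hmaps, mul_sum]
  refine sum_congr rfl fun z hz => ?_
  rw [sum_congr rfl (fun x hx => by rw [(mem_filter.1 hx).2] : ∀ x ∈ P.filter (fun x => x.1 * x.2 = z),
    g (x.1 * x.2) = g z), sum_const, hfib z hz]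
  simp

/-- number of elements of norm `n` -/
theorem Dsm_card_nm (S : Finset GI) (n : ℕ) (hn : 1 ≤ n) (hS : ∀ z ∈ S, nm z = n) :
    (S.card : ℝ) ≤ 6 * √(n : ℝ) := by
  classical
  set s := Nat.sqrt n with hs
  have h1 : S.card ≤ ((Icc (-(s : ℤ)) (s : ℤ)) ×ˢ (Finset.univ : Finset Bool)).card := by
    apply card_le_card_of_injOn (fun z : GI => (z.re, decide (0 ≤ z.im)))
    · intro z hz
      have h2 := nm_int z
      rw [hS z hz] at h2
      rw [mem_coe, mem_product, mem_Icc]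
      refine ⟨?_, mem_univ _⟩
      have h3 : z.re.natAbs ≤ s := by
        rw [hs, Nat.le_sqrt']
        have : ((z.re.natAbs ^ 2 : ℕ) : ℤ) ≤ n := by
          push_cast
          rw [sq_abs, h2]
          nlinarith [sq_nonneg z.im]
        exact_mod_cast this
      show -(s : ℤ) ≤ z.re ∧ z.re ≤ s
      omega
    · intro z hz w hw hzw
      rw [Prod.mk.injEq] at hzw
      obtain ⟨e1, e2⟩ := hzw
      have h2 := nm_int z
      have h3 := nm_int w
      rw [hS z hz] at h2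
      rw [hS w hw] at h3
      have h4 : z.im ^ 2 = w.im ^ 2 := by
        rw [e1] at h2
        linarith
      apply Zsqrtd.ext
      · exact e1
      · rw [decide_eq_decide] at e2
        rcases sq_eq_sq_iff_eq_or_eq_neg.1 h4 with h | h
        · exact h
        · by_cases h0 : 0 ≤ z.im
          · have := e2.1 h0
            omega
          · have : ¬ 0 ≤ w.im := fun h' => h0 (e2.2 h')
            omega
  have h2 : ((Icc (-(s : ℤ)) (s : ℤ)) ×ˢ (Finset.univ : Finset Bool)).card = (2 * s + 1) * 2 := by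
    rw [card_product, Int.card_Icc, Finset.card_univ, Fintype.card_bool]
    congr 1
    omega
  rw [h2] at h1
  have h3 : (s : ℝ) ≤ √(n : ℝ) := by
    apply Real.le_sqrt_of_sq_le
    rw [hs]
    exact_mod_cast Nat.sqrt_le' n
  have h4 : (1 : ℝ) ≤ √(n : ℝ) := by
    rw [Real.one_le_sqrt]
    exact_mod_cast hn
  have h5 : (S.card : ℝ) ≤ ((2 * s + 1) * 2 : ℕ) := by exact_mod_cast h1
  push_cast at h5
  linarith

theorem dsm_tail (D : ℕ) (hD : 0 < D) (ε : ℝ) (hε : 0 < ε) : ∃ B : ℝ, 1 ≤ B ∧ ∀ Y : ℝ,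
    open Classical in
    ∑ δ ∈ (smo D Y).filter (fun δ => B < (nm δ : ℝ)), (1 : ℝ) / nm δ ≤ ε := by
  classical
  let f : ℕ →* ℝ :=
    { toFun := fun n => 1 / √(n : ℝ)
      map_one' := by simp
      map_mul' := fun a c => by
        push_cast
        rw [Real.sqrt_mul (Nat.cast_nonneg a)]
        rw [one_div_mul_one_div] }
  have hf : ∀ {p : ℕ}, p.Prime → ‖f p‖ < 1 := by
    intro p hp
    have h1 : (1 : ℝ) < √(p : ℝ) := by
      rw [Real.lt_sqrt (by norm_num)]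
      have : (2 : ℝ) ≤ p := by exact_mod_cast hp.two_le
      linarith
    show ‖1 / √(p : ℝ)‖ < 1
    rw [Real.norm_of_nonneg (by positivity), div_lt_one (by linarith)]
    exact h1
  have hsum := (EulerProduct.summable_and_hasSum_factoredNumbers_prod_filter_prime_geometric hf
    D.primeFactors).1
  have hsum' : Summable (Set.indicator (Nat.factoredNumbers D.primeFactors) (fun n : ℕ => ‖f n‖)) :=
    summable_subtype_iff_indicator.1 hsum
  obtain ⟨T, hT⟩ := summable_iff_vanishing_norm.1 hsum' (ε / 6) (by positivity)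
  refine ⟨(T.sup id : ℕ) + 1, by
    have : (0 : ℝ) ≤ ((T.sup id : ℕ) : ℝ) := Nat.cast_nonneg _
    linarith, fun Y => ?_⟩
  set G := (smo D Y).filter (fun δ => ((T.sup id : ℕ) : ℝ) + 1 < (nm δ : ℝ)) with hG
  have hmaps : ∀ δ ∈ G, nm δ ∈ G.image nm := fun δ hδ => mem_image_of_mem _ hδ
  rw [← sum_fiberwise_of_maps_to hmaps]
  have hfac : ∀ n ∈ G.image nm, n ∈ Nat.factoredNumbers D.primeFactors ∧ n ∉ T ∧ 1 ≤ n := by
    intro n hn
    obtain ⟨δ, hδ, rfl⟩ := mem_image.1 hn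
    rw [hG, mem_filter, Dsm_mem_smo] at hδ
    obtain ⟨⟨_, hPδ, k, hk⟩, hlt⟩ := hδ
    have hne : nm δ ≠ 0 := (nm_pos (Pr_ne hPδ)).ne'
    refine ⟨?_, ?_, nm_pos (Pr_ne hPδ)⟩
    · rw [Nat.mem_factoredNumbers_iff_primeFactors_subset]
      refine ⟨hne, ?_⟩
      have h1 : nm δ ∣ (D * D) ^ k := by
        obtain ⟨c, hc⟩ := hk
        have h2 : nm ((D : GI) ^ k) = (D * D) ^ k := by
          have h3 : ∀ k : ℕ, nm ((D : GI) ^ k) = (D * D) ^ k := by
            intro k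
            induction k with
            | zero => simp [nm_one]
            | succ k ih => rw [pow_succ, nm_mul, ih, BAS_nm_natCast, pow_succ]
          exact h3 k
        rw [← h2, hc, nm_mul]
        exact dvd_mul_right _ _
      intro p hp
      have hp1 := Nat.prime_of_mem_primeFactors hp
      have hp2 := Nat.dvd_of_mem_primeFactors hp
      rw [Nat.mem_primeFactors]
      refine ⟨hp1, ?_, hD.ne'⟩
      have h3 := hp1.dvd_of_dvd_pow (hp2.trans h1)
      rcases hp1.dvd_mul.1 h3 with h | h <;> exact h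
    · intro hmem
      have h1 : nm δ ≤ T.sup id := le_sup (f := id) hmem
      have h2 : (nm δ : ℝ) ≤ ((T.sup id : ℕ) : ℝ) := by exact_mod_cast h1
      linarith
  have h1 : ∑ n ∈ G.image nm, ∑ δ ∈ G.filter (fun δ => nm δ = n), (1 : ℝ) / nm δ ≤
      ∑ n ∈ G.image nm, 6 * Set.indicator (Nat.factoredNumbers D.primeFactors) (fun n : ℕ => ‖f n‖) n := by
    refine sum_le_sum fun n hn => ?_
    obtain ⟨h2, h3, h4⟩ := hfac n hn
    rw [Set.indicator_of_mem h2]
    have h5 : ∑ δ ∈ G.filter (fun δ => nm δ = n), (1 : ℝ) / nm δ =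
        (G.filter (fun δ => nm δ = n)).card * (1 / (n : ℝ)) := by
      rw [sum_congr rfl (fun x hx => by rw [(mem_filter.1 hx).2] : ∀ x ∈ G.filter (fun δ => nm δ = n),
        (1 : ℝ) / nm x = 1 / n), sum_const, nsmul_eq_mul]
    rw [h5]
    have h6 := Dsm_card_nm (G.filter (fun δ => nm δ = n)) n h4 (fun z hz => (mem_filter.1 hz).2)
    have h7 : ‖f n‖ = 1 / √(n : ℝ) := by
      show ‖1 / √(n : ℝ)‖ = _
      rw [Real.norm_of_nonneg (by positivity)]
    rw [h7]
    have hn0 : (0 : ℝ) < n := by exact_mod_cast h4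
    have hs0 : 0 < √(n : ℝ) := Real.sqrt_pos.2 hn0
    calc ((G.filter (fun δ => nm δ = n)).card : ℝ) * (1 / (n : ℝ)) ≤ (6 * √(n : ℝ)) * (1 / (n : ℝ)) :=
          mul_le_mul_of_nonneg_right h6 (by positivity)
      _ = 6 * (1 / √(n : ℝ)) := by
          have h8 : √(n : ℝ) * √(n : ℝ) = n := Real.mul_self_sqrt hn0.le
          field_simp
          nlinarith
  refine h1.trans ?_
  rw [← mul_sum]
  have h2 := hT (G.image nm) (by
    rw [Finset.disjoint_left]
    exact fun n hn => (hfac n hn).2.1)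
  have h3 := (abs_lt.1 ((Real.norm_eq_abs _) ▸ h2)).2
  linarith

end Pool.Agent.FCH
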