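import Pool.Agent.FCH.Base

set_option autoImplicit false

/-! The dynamical system of adjacent pairs (definitions). -/

open Finset

namespace Pool.Agent.FCH

open Pool.Agent.MRS hiding Good

/-- adjacent pairs of level `m`: `det(v,w) = 1`, `N(v), N(w) ≤ m < N(v+w)` -/
noncomputable def adj (m : ℕ) : Finset (GI × GI) :=
  open Classical in
  (bal (m : ℝ) ×ˢ bal (m : ℝ)).filter (fun e => dt e.1 e.2 = 1 ∧ m < nm (e.1 + e.2))

/-- roof function: `⌈m / (|v| |w|)⌉` (`m` times the angle, rounded up) -/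
noncomputable def rf (m : ℕ) (v w : GI) : ℕ := ⌈(m : ℝ) / √((nm v : ℝ) * nm w)⌉₊

/-- largest `k` with `N(k w - v) ≤ m` -/
noncomputable def kq (m : ℕ) (v w : GI) : ℕ :=
  open Classical in Nat.findGreatest (fun k : ℕ => nm ((k : GI) * w - v) ≤ m) (2 * m)

/-- the space -/
noncomputable def Om (m : ℕ) : Finset (GI × GI × ℕ) :=
  open Classical in
  (bal (m : ℝ) ×ˢ (bal (m : ℝ) ×ˢ range m)).filter
    (fun ω => (ω.1, ω.2.1) ∈ adj m ∧ ω.2.2 < rf m ω.1 ω.2.1)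

/-- the shift -/
noncomputable def Tm (m : ℕ) (ω : GI × GI × ℕ) : GI × GI × ℕ :=
  if ω.2.2 + 1 < rf m ω.1 ω.2.1 then (ω.1, ω.2.1, ω.2.2 + 1)
  else (ω.2.1, (kq m ω.1 ω.2.1 : GI) * ω.2.1 - ω.1, 0)

/-- the label: the point `[v : w]` of `P¹(F_p)`; `λ < p` with `π ∣ v - λ w`, or `p` if `π ∣ w` -/
noncomputable def yv (p : ℕ) (v w : GI) : ℕ :=
  open Classical in if gpi p ∣ w then p else sInf {l : ℕ | gpi p ∣ v - (l : GI) * w}

/-- label as a function on the space -/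
noncomputable def yo (ω : GI × GI × ℕ) (p : ℕ) : ℕ := yv p ω.1 ω.2.1

/-- the symbol -/
noncomputable def sy (F : GI → ℂ) (b : ℝ) (q m : ℕ) (ω : GI × GI × ℕ) :
    ℂ × Bool × (ℤ × ℤ × ℤ × ℤ) × Bool × ℕ :=
  open Classical in
  (F ω.1, decide ((m : ℝ) / b < nm ω.1),
    (ω.1.re % q, ω.1.im % q, ω.2.1.re % q, ω.2.1.im % q), decide (ω.2.2 = 0),
    if ω.2.2 + 1 < rf m ω.1 ω.2.1 then 0 else kq m ω.1 ω.2.1 + 1)

/-- the orbit -/
noncomputable def orb (m i : ℕ) (ω : GI × GI × ℕ) : GI × GI × ℕ := (Tm m)^[i] ω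

end Pool.Agent.FCH
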