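import Pool.Agent.FCH.StrW
import Pool.Agent.MRS.Mvt

set_option autoImplicit false

/-! Module EEm: monotonicity of the energies.
`1[z ≡ r (d)] = ∑_{r' ∈ cls d', r' ≡ r (d)} 1[z ≡ r' (d')]`, so by Cauchy-Schwarz `en K (hh d r e) ≤ (d')² ∑_{r'} en K (hh d' r' e)`; `fw K k ≤ fw K' k` for
`K ≤ K'`, `|k| ≤ K`, and `Icc (-K) K ⊆ Icc (-K') K'`, all terms `≥ 0`; `Icc (-J) J ⊆ Icc (-J') J'`.
`en_triv`: `en K (AA b m) a ≤ C (K + m) m` if `|a| ≤ 1`: every primitive `z` is `δ w` with `δ ∈ {1, i, 1+i, -1+i}`, `w ∈ Od` primitive; even and odd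
exponents; `MRS.mvt_prim`. -/

open Finset

namespace Pool.Agent.FCH

open Pool.Agent.MRS hiding Good

theorem en_nonneg (K : ℕ) (S : Finset GI) (a : GI → ℂ) : 0 ≤ en K S a := by
  unfold en ms
  apply Finset.sum_nonneg
  intro k hk
  exact mul_nonneg (fw_nonneg hk) (by positivity)

private theorem EEm_fw_mono {K K' : ℕ} (h : K ≤ K') (k : ℤ) : fw K k ≤ fw K' k := by
  unfold fw
  have h1 : ((K : ℝ) + 1) ≤ (K' : ℝ) + 1 := by
    have : (K : ℝ) ≤ K' := by exact_mod_cast h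
    linarith
  have h2 : |(k : ℝ)| / ((K' : ℝ) + 1) ≤ |(k : ℝ)| / ((K : ℝ) + 1) :=
    div_le_div_of_nonneg_left (abs_nonneg _) (by positivity) h1
  linarith

theorem en_mono {K K' : ℕ} (h : K ≤ K') (S : Finset GI) (a : GI → ℂ) : en K S a ≤ en K' S a := by
  unfold en ms
  have hKK : (K : ℤ) ≤ K' := by exact_mod_cast h
  have hsub : Icc (-(K : ℤ)) (K : ℤ) ⊆ Icc (-(K' : ℤ)) (K' : ℤ) :=
    Finset.Icc_subset_Icc (by omega) hKK
  refine le_trans (Finset.sum_le_sum (g := fun k => fw K' k * ‖∑ z ∈ S, a z * ez z ^ k‖ ^ 2) ?_)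
    (Finset.sum_le_sum_of_subset_of_nonneg hsub ?_)
  · intro k _
    exact mul_le_mul_of_nonneg_right (EEm_fw_mono h k) (by positivity)
  · intro k hk _
    exact mul_nonneg (fw_nonneg hk) (by positivity)

private theorem EEm_cauchy {ι : Type} (T : Finset ι) (x : ι → ℂ) :
    ‖∑ i ∈ T, x i‖ ^ 2 ≤ T.card * ∑ i ∈ T, ‖x i‖ ^ 2 := by
  have h1 : ‖∑ i ∈ T, x i‖ ≤ ∑ i ∈ T, ‖x i‖ := norm_sum_le _ _
  have h2 : ‖∑ i ∈ T, x i‖ ^ 2 ≤ (∑ i ∈ T, ‖x i‖) ^ 2 := pow_le_pow_left₀ (norm_nonneg _) h1 2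
  exact le_trans h2 (sq_sum_le_card_mul_sum_sq)

theorem en_sum {ι : Type} (T : Finset ι) (K : ℕ) (S : Finset GI) (a : ι → GI → ℂ) :
    en K S (fun z => ∑ i ∈ T, a i z) ≤ T.card * ∑ i ∈ T, en K S (a i) := by
  unfold en ms
  rw [Finset.sum_comm, Finset.mul_sum]
  apply Finset.sum_le_sum
  intro k hk
  have e : ∑ z ∈ S, (∑ i ∈ T, a i z) * ez z ^ k = ∑ i ∈ T, ∑ z ∈ S, a i z * ez z ^ k := by
    rw [Finset.sum_comm]
    apply Finset.sum_congr rfl
    intro z _
    rw [Finset.sum_mul]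
  beta_reduce
  rw [e, ← Finset.mul_sum]
  have h := EEm_cauchy T (fun i => ∑ z ∈ S, a i z * ez z ^ k)
  have h2 := mul_le_mul_of_nonneg_left h (fw_nonneg hk)
  calc fw K k * ‖∑ i ∈ T, ∑ z ∈ S, a i z * ez z ^ k‖ ^ 2
      ≤ fw K k * (T.card * ∑ i ∈ T, ‖∑ z ∈ S, a i z * ez z ^ k‖ ^ 2) := h2
    _ = T.card * (fw K k * ∑ i ∈ T, ‖∑ z ∈ S, a i z * ez z ^ k‖ ^ 2) := by ring

private theorem EEm_congr (K : ℕ) (S : Finset GI) (a a' : GI → ℂ) (h : ∀ z ∈ S, a z = a' z) :
    en K S a = en K S a' := by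
  unfold en
  congr 1
  funext k
  rw [Finset.sum_congr rfl (fun z hz => by rw [h z hz])]

/-- the four factors -/
private noncomputable def EEm_D : Finset GI :=
  open Classical in {1, ⟨0, 1⟩, ⟨1, 1⟩, ⟨-1, 1⟩}

private theorem EEm_D_card : EEm_D.card ≤ 4 := by
  unfold EEm_D
  exact Finset.card_le_four

private theorem EEm_Pr_of {z w : GI} (d : GI) (h : z = d * w) (hz : Pr z) : Pr w :=
  Pr_of_dvd ⟨d, by rw [h]; ring⟩ hz

private theorem EEm_split {z : GI} (hz : Pr z) : ∃ d ∈ EEm_D, ∃ w : GI, Od w ∧ Pr w ∧ z = d * w := by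
  classical
  obtain ⟨x, y⟩ := z
  have hg : Int.gcd x y = 1 := hz
  have hne : ¬ (x % 2 = 0 ∧ y % 2 = 0) := by
    rintro ⟨h1, h2⟩
    have h3 : (2 : ℤ) ∣ (Int.gcd x y : ℤ) := Int.dvd_coe_gcd (by omega) (by omega)
    rw [hg] at h3
    norm_num at h3
  rcases Int.emod_two_eq_zero_or_one x with hx | hx
  · -- x even, y odd
    have hy : y % 2 = 1 := by omega
    refine ⟨⟨0, 1⟩, by simp [EEm_D], ⟨y, -x⟩, ⟨hy, ?_⟩, ?_, ?_⟩
    · show (-x) % 2 = 0
      omega
    · apply EEm_Pr_of (z := ⟨x, y⟩) ⟨0, 1⟩ _ hz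
      ext <;> simp
    · ext <;> simp
  · rcases Int.emod_two_eq_zero_or_one y with hy | hy
    · refine ⟨1, by simp [EEm_D], ⟨x, y⟩, ⟨hx, hy⟩, hz, by rw [one_mul]⟩
    · -- both odd
      obtain ⟨s, hs⟩ : ∃ s, x + y = 2 * s := ⟨(x + y) / 2, by omega⟩
      obtain ⟨t, ht⟩ : ∃ t, y - x = 2 * t := ⟨(y - x) / 2, by omega⟩
      have hst : s + t = y := by omega
      have hst' : s - t = x := by omega
      rcases Int.emod_two_eq_zero_or_one t with h | h
      · have e : (⟨x, y⟩ : GI) = ⟨1, 1⟩ * ⟨s, t⟩ := by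
          ext
          · simp; omega
          · simp; omega
        refine ⟨⟨1, 1⟩, by simp [EEm_D], ⟨s, t⟩, ⟨?_, h⟩, EEm_Pr_of _ e hz, e⟩
        show s % 2 = 1
        omega
      · have e : (⟨x, y⟩ : GI) = ⟨-1, 1⟩ * ⟨t, -s⟩ := by
          ext
          · simp; omega
          · simp; omega
        refine ⟨⟨-1, 1⟩, by simp [EEm_D], ⟨t, -s⟩, ⟨h, ?_⟩, EEm_Pr_of _ e hz, e⟩
        show (-s) % 2 = 0
        omega

private theorem EEm_ez_mul (z w : GI) : ez (z * w) = ez z * ez w := by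
  unfold ez
  rw [map_mul, norm_mul, Complex.ofReal_mul]
  rw [mul_div_mul_comm]

private theorem EEm_ez_sq (z : GI) : ez z ^ 2 = uu z := by
  unfold ez uu
  rw [div_pow]
  congr 1
  rw [← Complex.ofReal_pow, BAS_norm_sq]
  norm_cast

private theorem EEm_toC_ne {z : GI} (hz : z ≠ 0) : GaussianInt.toComplex z ≠ 0 := by
  rw [Ne, GaussianInt.toComplex_eq_zero]
  exact hz

private theorem EEm_ez_norm {z : GI} (hz : z ≠ 0) : ‖ez z‖ = 1 := by
  unfold ez
  have := EEm_toC_ne hz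
  rw [norm_div, Complex.norm_real, norm_norm, div_self (norm_ne_zero_iff.2 this)]

private theorem EEm_ez_ne {z : GI} (hz : z ≠ 0) : ez z ≠ 0 := by
  intro h
  have := EEm_ez_norm hz
  rw [h, norm_zero] at this
  exact zero_ne_one this

/-- even and odd exponents -/
private theorem EEm_parity (K : ℕ) (G : ℤ → ℝ) (hG : ∀ k, 0 ≤ G k) :
    ∑ k ∈ Icc (-(K : ℤ)) (K : ℤ), G k ≤
      ∑ j ∈ Icc (-(K : ℤ)) (K : ℤ), (G (2 * j) + G (2 * j + 1)) := by
  classical
  have e : ∑ j ∈ Icc (-(K : ℤ)) (K : ℤ), (G (2 * j) + G (2 * j + 1)) =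
      ∑ p ∈ (Icc (-(K : ℤ)) (K : ℤ)) ×ˢ ({0, 1} : Finset ℤ), G (2 * p.1 + p.2) := by
    rw [Finset.sum_product]
    apply Finset.sum_congr rfl
    intro j _
    rw [Finset.sum_pair (by norm_num)]
    simp
  rw [e]
  have hinj : Set.InjOn (fun k : ℤ => ((k / 2, k % 2) : ℤ × ℤ)) (Icc (-(K : ℤ)) (K : ℤ) : Finset ℤ) := by
    intro k _ k' _ h
    simp only [Prod.mk.injEq] at h
    omega
  calc ∑ k ∈ Icc (-(K : ℤ)) (K : ℤ), G k
      = ∑ p ∈ (Icc (-(K : ℤ)) (K : ℤ)).image (fun k : ℤ => ((k / 2, k % 2) : ℤ × ℤ)),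
          G (2 * p.1 + p.2) := by
        rw [Finset.sum_image hinj]
        apply Finset.sum_congr rfl
        intro k _
        congr 1
        simp only []
        omega
    _ ≤ _ := by
        apply Finset.sum_le_sum_of_subset_of_nonneg
        · intro p hp
          obtain ⟨k, hk, rfl⟩ := Finset.mem_image.1 hp
          rw [Finset.mem_Icc] at hk
          simp only [Finset.mem_product, Finset.mem_Icc, Finset.mem_insert, Finset.mem_singleton]
          omega
        · intro p _ _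
          exact hG _

private theorem EEm_ms_half (K : ℕ) (G : ℤ → ℝ) (hG : ∀ k, 0 ≤ G k) :
    ∑ k ∈ Icc (-(K : ℤ)) (K : ℤ), G k ≤ 2 * ms (2 * K) G := by
  unfold ms
  have hsub : Icc (-(K : ℤ)) (K : ℤ) ⊆ Icc (-((2 * K : ℕ) : ℤ)) ((2 * K : ℕ) : ℤ) :=
    Finset.Icc_subset_Icc (by push_cast; omega) (by push_cast; omega)
  have h1 : ∑ k ∈ Icc (-(K : ℤ)) (K : ℤ), fw (2 * K) k * G k ≤
      ∑ k ∈ Icc (-((2 * K : ℕ) : ℤ)) ((2 * K : ℕ) : ℤ), fw (2 * K) k * G k := by
    apply Finset.sum_le_sum_of_subset_of_nonneg hsub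
    intro k hk _
    exact mul_nonneg (fw_nonneg hk) (hG k)
  have h2 : ∑ k ∈ Icc (-(K : ℤ)) (K : ℤ), G k ≤
      2 * ∑ k ∈ Icc (-(K : ℤ)) (K : ℤ), fw (2 * K) k * G k := by
    rw [Finset.mul_sum]
    apply Finset.sum_le_sum
    intro k hk
    have := fw_half hk
    nlinarith [hG k]
  linarith

/-- the mean value bound on primitive vectors of `Od` -/
private theorem EEm_class : ∃ C : ℝ, 0 < C ∧ ∀ (K : ℕ) (m : ℕ), 1 ≤ m → ∀ (W : Finset GI) (c : GI → ℂ),
    (∀ z ∈ W, Od z ∧ Pr z ∧ (nm z : ℝ) ≤ m) → (∀ z, ‖c z‖ ≤ 1) →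
    en K W c ≤ C * (K + m) * W.card := by
  obtain ⟨C, hC, h⟩ := mvt_prim
  refine ⟨8 * C, by positivity, ?_⟩
  intro K m hm W c hW hc
  have hm1 : (1 : ℝ) ≤ m := by exact_mod_cast hm
  -- bound for each parity
  have hpar : ∀ ε : ℕ, ∑ j ∈ Icc (-(K : ℤ)) (K : ℤ), ‖∑ z ∈ W, c z * ez z ^ (2 * j + (ε : ℤ))‖ ^ 2 ≤
      4 * C * (K + m) * W.card := by
    intro ε
    have e : ∀ j : ℤ, ∑ z ∈ W, c z * ez z ^ (2 * j + (ε : ℤ)) = sp W (fun z => c z * ez z ^ ε) j := by
      intro j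
      unfold sp
      apply Finset.sum_congr rfl
      intro z hz
      have hz0 : z ≠ 0 := Pr_ne (hW z hz).2.1
      rw [zpow_add₀ (EEm_ez_ne hz0), zpow_mul, zpow_natCast]
      have : ez z ^ (2 : ℤ) = uu z := by
        rw [← EEm_ez_sq z]; norm_cast
      rw [this]
      ring
    have h1 : ∑ j ∈ Icc (-(K : ℤ)) (K : ℤ), ‖∑ z ∈ W, c z * ez z ^ (2 * j + (ε : ℤ))‖ ^ 2 =
        ∑ j ∈ Icc (-(K : ℤ)) (K : ℤ), ‖sp W (fun z => c z * ez z ^ ε) j‖ ^ 2 := by
      apply Finset.sum_congr rfl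
      intro j _
      rw [e j]
    rw [h1]
    have h2 := EEm_ms_half K (fun j => ‖sp W (fun z => c z * ez z ^ ε) j‖ ^ 2)
      (fun j => by positivity)
    have h3 := h (2 * K) m hm1 W (fun z => c z * ez z ^ ε) hW
    have h4 : ∑ z ∈ W, ‖c z * ez z ^ ε‖ ^ 2 ≤ W.card := by
      calc ∑ z ∈ W, ‖c z * ez z ^ ε‖ ^ 2 ≤ ∑ z ∈ W, (1 : ℝ) := by
            apply Finset.sum_le_sum
            intro z hz
            have hz0 : z ≠ 0 := Pr_ne (hW z hz).2.1
            rw [norm_mul, norm_pow, EEm_ez_norm hz0, one_pow, mul_one]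
            exact pow_le_one₀ (norm_nonneg _) (hc z)
        _ = W.card := by simp
    have h5 : C * (((2 * K : ℕ) : ℝ) + m) * ∑ z ∈ W, ‖c z * ez z ^ ε‖ ^ 2 ≤
        C * (2 * (K + m)) * W.card := by
      apply mul_le_mul _ h4 (by positivity) (by positivity)
      apply mul_le_mul_of_nonneg_left _ hC.le
      push_cast
      linarith
    calc _ ≤ 2 * ms (2 * K) (fun j => ‖sp W (fun z => c z * ez z ^ ε) j‖ ^ 2) := h2
      _ ≤ 2 * (C * (2 * (K + m)) * W.card) := by linarith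
      _ = 4 * C * (K + m) * W.card := by ring
  have h0 : en K W c ≤ ∑ k ∈ Icc (-(K : ℤ)) (K : ℤ), ‖∑ z ∈ W, c z * ez z ^ k‖ ^ 2 := by
    unfold en ms
    apply Finset.sum_le_sum
    intro k _
    have := fw_le_one K k
    nlinarith [sq_nonneg ‖∑ z ∈ W, c z * ez z ^ k‖]
  have h1 := EEm_parity K (fun k => ‖∑ z ∈ W, c z * ez z ^ k‖ ^ 2) (fun k => by positivity)
  rw [Finset.sum_add_distrib] at h1
  have h2 := hpar 0
  have h3 := hpar 1
  simp only [Nat.cast_zero, add_zero, Nat.cast_one] at h2 h3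
  calc en K W c ≤ _ := h0
    _ ≤ _ := h1
    _ ≤ 4 * C * (K + m) * W.card + 4 * C * (K + m) * W.card := by linarith
    _ = 8 * C * (K + m) * W.card := by ring

theorem en_triv (b : ℝ) (hb : 1 < b) : ∃ C : ℝ, 0 < C ∧ ∀ (m K : ℕ) (a : GI → ℂ), 1 ≤ m →
    (∀ z, ‖a z‖ ≤ 1) → en K (AA b m) a ≤ C * (K + m) * m := by
  classical
  obtain ⟨C, hC, h⟩ := EEm_class
  refine ⟨144 * C, by positivity, ?_⟩
  intro m K a hm ha
  have hm1 : (1 : ℝ) ≤ m := by exact_mod_cast hm
  -- choice of the factors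
  have hch : ∀ z : GI, ∃ p : GI × GI, p.1 ∈ EEm_D ∧ (Pr z → Od p.2 ∧ Pr p.2 ∧ z = p.1 * p.2) := by
    intro z
    by_cases hz : Pr z
    · obtain ⟨d, hd, w, h1, h2, h3⟩ := EEm_split hz
      exact ⟨(d, w), hd, fun _ => ⟨h1, h2, h3⟩⟩
    · exact ⟨(1, 1), by simp [EEm_D], fun hz' => absurd hz' hz⟩
  choose p hp1 hp2 using hch
  -- decomposition of the function
  have hdec : en K (AA b m) a = en K (AA b m) (fun z => ∑ d ∈ EEm_D, if (p z).1 = d then a z else 0) := by
    apply EEm_congr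
    intro z _
    rw [Finset.sum_ite_eq]
    rw [if_pos (hp1 z)]
  rw [hdec]
  refine le_trans (en_sum EEm_D K (AA b m) (fun d z => if (p z).1 = d then a z else 0)) ?_
  have hone : ∀ d ∈ EEm_D, en K (AA b m) (fun z => if (p z).1 = d then a z else 0) ≤
      C * (K + m) * (9 * m) := by
    intro d hd
    have hd0 : d ≠ 0 := by
      unfold EEm_D at hd
      simp only [Finset.mem_insert, Finset.mem_singleton] at hd
      rcases hd with rfl | rfl | rfl | rfl
      · exact one_ne_zero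
      · intro h0; have := congrArg Zsqrtd.im h0; simp at this
      · intro h0; have := congrArg Zsqrtd.im h0; simp at this
      · intro h0; have := congrArg Zsqrtd.im h0; simp at this
    set Z := (AA b m).filter (fun z => (p z).1 = d) with hZ
    set W := Z.image (fun z => (p z).2) with hW
    have hfac : ∀ z ∈ Z, z = d * (p z).2 := by
      intro z hz
      have h1 := Finset.mem_filter.1 hz
      have h2 := (hp2 z (mem_AA.1 h1.1).2.1).2.2
      rw [h1.2] at h2
      exact h2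
    have hinj : Set.InjOn (fun z => (p z).2) (Z : Set GI) := by
      intro z hz z' hz' hh
      rw [hfac z hz, hfac z' hz']
      simp only at hh
      rw [hh]
    have hen : en K (AA b m) (fun z => if (p z).1 = d then a z else 0) =
        en K W (fun w => a (d * w)) := by
      unfold en
      congr 1
      funext k
      have e1 : ∑ z ∈ AA b m, (if (p z).1 = d then a z else 0) * ez z ^ k =
          ez d ^ k * ∑ w ∈ W, a (d * w) * ez w ^ k := by
        rw [hW, Finset.sum_image hinj, Finset.mul_sum, hZ, Finset.sum_filter]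
        apply Finset.sum_congr rfl
        intro z hz
        by_cases hzd : (p z).1 = d
        · rw [if_pos hzd, if_pos hzd]
          have hf := hfac z (Finset.mem_filter.2 ⟨hz, hzd⟩)
          rw [← hf]
          have : ez z = ez d * ez (p z).2 := by rw [← EEm_ez_mul, ← hf]
          rw [this, mul_zpow]
          ring
        · rw [if_neg hzd, if_neg hzd, zero_mul]
      rw [e1, norm_mul, norm_zpow, EEm_ez_norm hd0, one_zpow, one_mul]
    rw [hen]
    have hWprop : ∀ w ∈ W, Od w ∧ Pr w ∧ (nm w : ℝ) ≤ m := by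
      intro w hw
      obtain ⟨z, hz, rfl⟩ := Finset.mem_image.1 hw
      have h1 := Finset.mem_filter.1 hz
      have h2 := mem_AA.1 h1.1
      have h3 := hp2 z h2.2.1
      refine ⟨h3.1, h3.2.1, ?_⟩
      have h4 : nm z = nm d * nm (p z).2 := by
        have := congrArg nm (hfac z hz)
        rw [nm_mul] at this
        exact this
      have h5 : 1 ≤ nm d := nm_pos hd0
      have h6 : nm (p z).2 ≤ nm z := by
        rw [h4]; exact Nat.le_mul_of_pos_left _ h5
      have h7 : (nm (p z).2 : ℝ) ≤ nm z := by exact_mod_cast h6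
      exact le_trans h7 h2.1
    have hb1 := h K m hm W (fun w => a (d * w)) hWprop (fun w => ha _)
    refine le_trans hb1 ?_
    apply mul_le_mul_of_nonneg_left _ (by positivity)
    have hc1 : W.card ≤ (AA b m).card :=
      le_trans Finset.card_image_le (Finset.card_filter_le _ _)
    have hc2 := card_AA b m
    have hc3 : (W.card : ℝ) ≤ (AA b m).card := by exact_mod_cast hc1
    linarith
  have hs := Finset.sum_le_sum hone
  rw [Finset.sum_const, nsmul_eq_mul] at hs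
  have hD4 : (EEm_D.card : ℝ) ≤ 4 := by exact_mod_cast EEm_D_card
  have hX : (0 : ℝ) ≤ C * (K + m) * (9 * m) := by positivity
  have hDn : (0 : ℝ) ≤ EEm_D.card := Nat.cast_nonneg _
  calc (EEm_D.card : ℝ) * ∑ d ∈ EEm_D, en K (AA b m) (fun z => if (p z).1 = d then a z else 0)
      ≤ EEm_D.card * (EEm_D.card * (C * (K + m) * (9 * m))) := mul_le_mul_of_nonneg_left hs hDn
    _ ≤ 4 * (4 * (C * (K + m) * (9 * m))) := by
        apply mul_le_mul hD4 _ (by positivity) (by norm_num)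
        exact mul_le_mul_of_nonneg_right hD4 hX
    _ = 144 * C * (K + m) * m := by ring

private theorem EEm_red (d : ℕ) (hd : 1 ≤ d) (z : GI) : ∃ r ∈ cls d, cg d z r ∧ ∀ r' ∈ cls d, cg d z r' → r' = r := by
  have hd0 : (0 : ℤ) < d := by exact_mod_cast hd
  refine ⟨⟨z.re % d, z.im % d⟩, ?_, ?_, ?_⟩
  · rw [mem_cls]
    exact ⟨⟨Int.emod_nonneg _ hd0.ne', Int.emod_lt_of_pos _ hd0⟩,
      ⟨Int.emod_nonneg _ hd0.ne', Int.emod_lt_of_pos _ hd0⟩⟩
  · exact ⟨Int.dvd_self_sub_emod, Int.dvd_self_sub_emod⟩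
  · intro r' hr' h
    rw [mem_cls] at hr'
    obtain ⟨⟨h1, h2⟩, h3, h4⟩ := hr'
    obtain ⟨h5, h6⟩ := h
    ext
    · show r'.re = z.re % d
      have h7 : r'.re % d = z.re % d := Int.modEq_iff_dvd.2 h5
      rw [← h7, Int.emod_eq_of_lt h1 h2]
    · show r'.im = z.im % d
      have h7 : r'.im % d = z.im % d := Int.modEq_iff_dvd.2 h6
      rw [← h7, Int.emod_eq_of_lt h3 h4]

theorem EE_mono {d d' J J' : ℕ} (h : d ∣ d') (hd' : 1 ≤ d') (hJ : J ≤ J') : ∃ C : ℝ, 0 < C ∧
    ∀ (b : ℝ) (m K K' : ℕ) (H : GI → ℂ), K ≤ K' → EE b d J K m H ≤ C * EE b d' J' K' m H := by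
  classical
  refine ⟨(cls d').card * (cls d).card + 1, by positivity, ?_⟩
  intro b m K K' H hK
  have hEE0 : 0 ≤ EE b d' J' K' m H := by
    unfold EE
    apply Finset.sum_nonneg; intro r _
    apply Finset.sum_nonneg; intro e _
    exact en_nonneg _ _ _
  have hone : ∀ r ∈ cls d, ∀ e : ℤ, en K (AA b m) (hh d r e m H) ≤
      (cls d').card * ∑ r' ∈ cls d', en K' (AA b m) (hh d' r' e m H) := by
    intro r _ e
    have e1 : hh d r e m H = fun z => ∑ r' ∈ (cls d').filter (fun r' => cg d r' r), hh d' r' e m H z := by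
      funext z
      obtain ⟨r0, hr0, hz0, huni⟩ := EEm_red d' hd' z
      have hdd : (d : ℤ) ∣ (d' : ℤ) := by exact_mod_cast h
      have hiff : cg d z r ↔ cg d r0 r := by
        have h1 : (d : ℤ) ∣ z.re - r0.re := dvd_trans hdd hz0.1
        have h2 : (d : ℤ) ∣ z.im - r0.im := dvd_trans hdd hz0.2
        constructor
        · rintro ⟨h3, h4⟩
          refine ⟨?_, ?_⟩
          · have := dvd_sub h3 h1
            have e : z.re - r.re - (z.re - r0.re) = r0.re - r.re := by ring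
            rwa [e] at this
          · have := dvd_sub h4 h2
            have e : z.im - r.im - (z.im - r0.im) = r0.im - r.im := by ring
            rwa [e] at this
        · rintro ⟨h3, h4⟩
          refine ⟨?_, ?_⟩
          · have := dvd_add h1 h3
            have e : z.re - r0.re + (r0.re - r.re) = z.re - r.re := by ring
            rwa [e] at this
          · have := dvd_add h2 h4
            have e : z.im - r0.im + (r0.im - r.im) = z.im - r.im := by ring
            rwa [e] at this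
      by_cases hc : cg d z r
      · rw [Finset.sum_eq_single_of_mem r0 (Finset.mem_filter.2 ⟨hr0, hiff.1 hc⟩)]
        · unfold hh
          rw [if_pos hc, if_pos hz0]
        · intro r' hr' hne
          unfold hh
          rw [if_neg]
          intro hcg
          exact hne (huni r' (Finset.mem_filter.1 hr').1 hcg)
      · rw [Finset.sum_eq_zero]
        · unfold hh
          rw [if_neg hc]
        · intro r' hr'
          unfold hh
          rw [if_neg]
          intro hcg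
          have h1 := Finset.mem_filter.1 hr'
          have h2 := huni r' h1.1 hcg
          subst h2
          exact hc (hiff.2 h1.2)
    rw [e1]
    refine le_trans (en_sum _ K (AA b m) (fun r' => hh d' r' e m H)) ?_
    have hc1 : (((cls d').filter (fun r' => cg d r' r)).card : ℝ) ≤ (cls d').card := by
      exact_mod_cast Finset.card_filter_le _ _
    apply mul_le_mul hc1 _ (Finset.sum_nonneg (fun _ _ => en_nonneg _ _ _)) (Nat.cast_nonneg _)
    refine le_trans (Finset.sum_le_sum (fun r' _ => en_mono hK (AA b m) (hh d' r' e m H))) ?_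
    apply Finset.sum_le_sum_of_subset_of_nonneg (Finset.filter_subset _ _)
    intro r' _ _
    exact en_nonneg _ _ _
  have hJJ : Icc (-(J : ℤ)) (J : ℤ) ⊆ Icc (-(J' : ℤ)) (J' : ℤ) := by
    have : (J : ℤ) ≤ J' := by exact_mod_cast hJ
    exact Finset.Icc_subset_Icc (by omega) this
  have hmain : EE b d J K m H ≤ (cls d').card * (cls d).card * EE b d' J' K' m H := by
    unfold EE
    calc ∑ r ∈ cls d, ∑ e ∈ Icc (-(J : ℤ)) (J : ℤ), en K (AA b m) (hh d r e m H)
        ≤ ∑ r ∈ cls d, ∑ e ∈ Icc (-(J : ℤ)) (J : ℤ),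
            ((cls d').card : ℝ) * ∑ r' ∈ cls d', en K' (AA b m) (hh d' r' e m H) := by
          apply Finset.sum_le_sum; intro r hr
          apply Finset.sum_le_sum; intro e _
          exact hone r hr e
      _ ≤ ∑ r ∈ cls d, ∑ e ∈ Icc (-(J' : ℤ)) (J' : ℤ),
            ((cls d').card : ℝ) * ∑ r' ∈ cls d', en K' (AA b m) (hh d' r' e m H) := by
          apply Finset.sum_le_sum; intro r _
          apply Finset.sum_le_sum_of_subset_of_nonneg hJJ
          intro e _ _
          exact mul_nonneg (Nat.cast_nonneg _) (Finset.sum_nonneg (fun _ _ => en_nonneg _ _ _))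
      _ = (cls d').card * (cls d).card *
            ∑ r' ∈ cls d', ∑ e ∈ Icc (-(J' : ℤ)) (J' : ℤ), en K' (AA b m) (hh d' r' e m H) := by
          rw [Finset.sum_const, nsmul_eq_mul, ← Finset.mul_sum, Finset.sum_comm]
          ring
  have : ((cls d').card * (cls d).card : ℝ) * EE b d' J' K' m H ≤
      ((cls d').card * (cls d).card + 1) * EE b d' J' K' m H := by
    apply mul_le_mul_of_nonneg_right _ hEE0
    linarith
  linarith

end Pool.Agent.FCH
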