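import Pool.Agent.FCH.Cavg
import Pool.Agent.FCH.ChD

set_option autoImplicit false

/-! Module EdA: one `δ`, one interval of norms, one class.
`A_m(k) = ∑_{z ∈ pan (s m) (t m), (N z, D) = 1} f(N z) g(z) ez(z)^k`, `g` periodic mod `D` on `Od`.  Split `k` into even and odd.
`k = 2κ`: `ez^k = uu^κ`; since `z ↦ -z` preserves everything else, `g` may be replaced by its even part `(g(z)+g(-z))/2`, expand by `class_expand`: finite combination of
`sp (pan (sm) (tm)) (f ψ_i) κ = sp (pan 0 (tm)) - sp (pan 0 (sm))`; `|κ| ≤ K`, `fw K (2κ) ≤ fw K κ`.  (`ψ_i` vanishes off the elements coprime to `D`.)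
`k = 2κ + 1`: `ez(z)^k = χ₄(re z) ut(z) uu(z)^κ`, `χ₄(re z) = 1` if `re z % 4 = 1` else `-1`; the function `g χ₄` is `D`-periodic, replace it by its even part (`ut`, `uu` even);
`fw K (2κ+1) ≤ fw K κ`.  Then `cavg_even`, `cavg_odd`, Cauchy-Schwarz over the finitely many `i` and the two endpoints (`s = 0` allowed: `sp (pan 0 0) = 0`). -/

open Finset

namespace Pool.Agent.FCH

open Pool.Agent.MRS hiding Good

theorem EdA_cg_neg {d : ℕ} {z w : GI} (h : cg d z w) : cg d (-z) (-w) := by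
  unfold cg at *
  obtain ⟨h1, h2⟩ := h
  simp only [Zsqrtd.re_neg, Zsqrtd.im_neg]
  constructor
  · have e : -z.re - -w.re = -(z.re - w.re) := by ring
    rw [e]
    exact (dvd_neg).2 h1
  · have e : -z.im - -w.im = -(z.im - w.im) := by ring
    rw [e]
    exact (dvd_neg).2 h2

theorem EdA_ms_le (K : ℕ) {F G : ℤ → ℝ} (h : ∀ k ∈ Icc (-(K : ℤ)) (K : ℤ), F k ≤ G k) :
    ms K F ≤ ms K G := by
  unfold ms
  exact Finset.sum_le_sum (fun k hk => mul_le_mul_of_nonneg_left (h k hk) (fw_nonneg hk))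

theorem EdA_ms_add (K : ℕ) (F G : ℤ → ℝ) : ms K (fun k => F k + G k) = ms K F + ms K G := by
  unfold ms
  rw [← Finset.sum_add_distrib]
  exact Finset.sum_congr rfl (fun k _ => by ring)

theorem EdA_ms_mul (K : ℕ) (a : ℝ) (F : ℤ → ℝ) : ms K (fun k => a * F k) = a * ms K F := by
  unfold ms
  rw [Finset.mul_sum]
  exact Finset.sum_congr rfl (fun k _ => by ring)

theorem EdA_ms_sum (K : ℕ) {ι : Type} (s : Finset ι) (F : ι → ℤ → ℝ) :
    ms K (fun k => ∑ i ∈ s, F i k) = ∑ i ∈ s, ms K (F i) := by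
  unfold ms
  rw [Finset.sum_comm]
  exact Finset.sum_congr rfl (fun k _ => by rw [Finset.mul_sum])

/-- the symmetric set of the sum -/
theorem EdA_neg_sum (S : Finset GI) (hS : ∀ z ∈ S, -z ∈ S) (F : GI → ℂ) :
    ∑ z ∈ S, F z = ∑ z ∈ S, F (-z) := by
  refine Finset.sum_nbij' (fun z => -z) (fun z => -z) hS hS (fun z _ => neg_neg z) (fun z _ => neg_neg z) ?_
  intro z _
  rw [neg_neg]

theorem EdA_split (a : GI → ℂ) (x y : ℝ) (hx : 0 ≤ x) (hxy : x ≤ y) (k : ℤ) :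
    sp (pan x y) a k = sp (pan 0 y) a k - sp (pan 0 x) a k := by
  classical
  unfold sp
  have hsub : pan 0 x ⊆ pan 0 y := by
    intro z hz
    rw [mem_pan] at *
    obtain ⟨h1, h2, h3, h4⟩ := hz
    exact ⟨h1, h2, h3, h4.trans hxy⟩
  have hdiff : pan x y = pan 0 y \ pan 0 x := by
    ext z
    rw [Finset.mem_sdiff, mem_pan, mem_pan, mem_pan]
    constructor
    · rintro ⟨h1, h2, h3, h4⟩
      refine ⟨⟨h1, h2, lt_of_le_of_lt hx h3, h4⟩, ?_⟩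
      rintro ⟨_, _, _, h5⟩
      linarith
    · rintro ⟨⟨h1, h2, h3, h4⟩, h5⟩
      refine ⟨h1, h2, ?_, h4⟩
      by_contra h6
      exact h5 ⟨h1, h2, h3, not_lt.1 h6⟩
  rw [hdiff, Finset.sum_sdiff_eq_sub hsub]

theorem EdA_id (ζ : ℂ) (D : ℕ) (θ : GI → ℂ) (hθ : ∀ z, Od z → θ (-z) = θ z)
    (g : GI → ℂ) (n : ℕ) (ψ : Fin n → GI → ℂ) (c : Fin n → ℂ) (hψ : ∀ i, HC D (ψ i))
    (hgc : ∀ z : GI, Od z → Nat.Coprime (nm z) D → (1 / 2) * (g z + g (-z)) = ∑ i, c i * ψ i z)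
    (x y : ℝ) (hx : 0 ≤ x) (hxy : x ≤ y) (κ : ℤ) :
    open Classical in
    ∑ z ∈ (pan x y).filter (fun z => Nat.Coprime (nm z) D), fz ζ (nm z) * (g z * θ z) * uu z ^ κ
    = ∑ i, c i * (sp (pan 0 y) (fun z => fz ζ (nm z) * (ψ i z * θ z)) κ
        - sp (pan 0 x) (fun z => fz ζ (nm z) * (ψ i z * θ z)) κ) := by
  classical
  set S : Finset GI := (pan x y).filter (fun z => Nat.Coprime (nm z) D) with hS
  have hSneg : ∀ z ∈ S, -z ∈ S := by
    intro z hz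
    rw [hS, Finset.mem_filter, mem_pan] at *
    obtain ⟨⟨h1, h2, h3, h4⟩, h5⟩ := hz
    rw [nm_neg]
    exact ⟨⟨Od_neg h1, Pr_neg h2, h3, h4⟩, h5⟩
  have hSOd : ∀ z ∈ S, Od z ∧ Nat.Coprime (nm z) D := by
    intro z hz
    rw [hS, Finset.mem_filter, mem_pan] at hz
    exact ⟨hz.1.1, hz.2⟩
  have h1 : ∑ z ∈ S, fz ζ (nm z) * (g z * θ z) * uu z ^ κ
      = ∑ z ∈ S, fz ζ (nm z) * (((1 / 2) * (g z + g (-z))) * θ z) * uu z ^ κ := by
    have h2 := EdA_neg_sum S hSneg (fun z => fz ζ (nm z) * (g z * θ z) * uu z ^ κ)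
    have h3 : ∑ z ∈ S, fz ζ (nm z) * (((1 / 2) * (g z + g (-z))) * θ z) * uu z ^ κ
        = (1 / 2) * (∑ z ∈ S, fz ζ (nm z) * (g z * θ z) * uu z ^ κ
          + ∑ z ∈ S, fz ζ (nm (-z)) * (g (-z) * θ (-z)) * uu (-z) ^ κ) := by
      rw [← Finset.sum_add_distrib, Finset.mul_sum]
      refine Finset.sum_congr rfl (fun z hz => ?_)
      rw [nm_neg, uu_neg, hθ z (hSOd z hz).1]
      ring
    rw [h3, ← h2]
    ring
  rw [h1]
  have h4 : ∀ z ∈ S, fz ζ (nm z) * (((1 / 2) * (g z + g (-z))) * θ z) * uu z ^ κ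
      = ∑ i, c i * (fz ζ (nm z) * (ψ i z * θ z) * uu z ^ κ) := by
    intro z hz
    rw [hgc z (hSOd z hz).1 (hSOd z hz).2, Finset.sum_mul, Finset.mul_sum, Finset.sum_mul]
    exact Finset.sum_congr rfl (fun i _ => by ring)
  rw [Finset.sum_congr rfl h4, Finset.sum_comm]
  refine Finset.sum_congr rfl (fun i _ => ?_)
  rw [← EdA_split _ x y hx hxy κ, ← Finset.mul_sum]
  congr 1
  unfold sp
  rw [hS, Finset.sum_filter]
  refine Finset.sum_congr rfl (fun z hz => ?_)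
  split_ifs with hco
  · rfl
  · show 0 = fz ζ (nm z) * (ψ i z * θ z) * uu z ^ κ
    rw [(hψ i).cop z (mem_pan.1 hz).1 hco]
    ring

theorem EdA_swap (C : ℝ) (X n : ℕ) (a : ℕ → ℝ) (F G : Fin n → ℕ → ℝ) :
    ∑ m ∈ Icc 1 X, a m * (2 * C * ∑ i, (F i m + G i m))
    = 2 * C * ∑ i, (∑ m ∈ Icc 1 X, a m * F i m + ∑ m ∈ Icc 1 X, a m * G i m) := by
  have h1 : ∑ i, (∑ m ∈ Icc 1 X, a m * F i m + ∑ m ∈ Icc 1 X, a m * G i m)
      = ∑ m ∈ Icc 1 X, ∑ i, a m * (F i m + G i m) := by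
    rw [Finset.sum_comm]
    refine Finset.sum_congr rfl (fun i _ => ?_)
    rw [← Finset.sum_add_distrib]
    exact Finset.sum_congr rfl (fun m _ => by ring)
  rw [h1, Finset.mul_sum]
  refine Finset.sum_congr rfl (fun m _ => ?_)
  rw [← Finset.mul_sum]
  ring

theorem EdA_half (ζ : ℂ) (D : ℕ) (h4 : 4 ∣ D) (hD : 0 < D) (θ : GI → ℂ)
    (hθ : ∀ z, Od z → θ (-z) = θ z)
    (hc : ∀ ψ : GI → ℂ, HC D ψ → ∀ t : ℝ, 0 < t → ∀ η : ℝ, 0 < η →
      ∃ h0 : ℝ, 1 ≤ h0 ∧ ∀ h : ℝ, h0 ≤ h → ∃ X0 : ℕ, 2 ≤ X0 ∧ ∀ X : ℕ, X0 ≤ X →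
      ∑ m ∈ Icc 1 X, (1 / (m : ℝ) ^ 3) * ms ⌊(m : ℝ) / h⌋₊ (fun k =>
      ‖sp (pan 0 (t * m)) (fun z => fz ζ (nm z) * (ψ z * θ z)) k‖ ^ 2) ≤ η * Real.log X)
    (g : GI → ℂ) (hper : ∀ z w : GI, Od z → Od w → cg D z w → g z = g w)
    (s t : ℝ) (hs : 0 < s) (hst : s ≤ t) (η : ℝ) (hη : 0 < η) :
    ∃ h0 : ℝ, 1 ≤ h0 ∧ ∀ h : ℝ, h0 ≤ h → ∃ X0 : ℕ, 2 ≤ X0 ∧ ∀ X : ℕ, X0 ≤ X →
    open Classical in
    ∑ m ∈ Icc 1 X, (1 / (m : ℝ) ^ 3) * ms ⌊(m : ℝ) / h⌋₊ (fun k =>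
      ‖∑ z ∈ (pan (s * m) (t * m)).filter (fun z => Nat.Coprime (nm z) D),
        fz ζ (nm z) * (g z * θ z) * uu z ^ k‖ ^ 2) ≤ η * Real.log X := by
  classical
  obtain ⟨n, ψ, c, hψ, hgc⟩ := class_expand D h4 hD (fun z => (1 / 2) * (g z + g (-z)))
    (by
      intro z w hz hw h
      show (1 / 2) * (g z + g (-z)) = (1 / 2) * (g w + g (-w))
      rw [hper z w hz hw h, hper (-z) (-w) (Od_neg hz) (Od_neg hw) (EdA_cg_neg h)])
    (by
      intro z hz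
      show (1 / 2) * (g (-z) + g (- -z)) = (1 / 2) * (g z + g (-z))
      rw [neg_neg, add_comm])
  have ht : 0 < t := lt_of_lt_of_le hs hst
  set C : ℝ := ∑ i, ‖c i‖ ^ 2 with hC
  have hC0 : 0 ≤ C := Finset.sum_nonneg (fun i _ => by positivity)
  set η' : ℝ := η / (4 * (C + 1) * (n + 1)) with hη'
  have hη0 : 0 < η' := by positivity
  have hA := fun i => hc (ψ i) (hψ i) t ht η' hη0
  have hB := fun i => hc (ψ i) (hψ i) s hs η' hη0
  choose hA0 hA1 hA2 using hA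
  choose hB0 hB1 hB2 using hB
  refine ⟨1 + ∑ i, (hA0 i + hB0 i), ?_, fun h hh => ?_⟩
  · have : 0 ≤ ∑ i, (hA0 i + hB0 i) :=
      Finset.sum_nonneg (fun i _ => by linarith [hA1 i, hB1 i])
    linarith
  have hle : ∀ i, hA0 i ≤ h ∧ hB0 i ≤ h := by
    intro i
    have h1 : hA0 i + hB0 i ≤ ∑ i, (hA0 i + hB0 i) :=
      Finset.single_le_sum (f := fun i => hA0 i + hB0 i)
        (fun j _ => by linarith [hA1 j, hB1 j]) (Finset.mem_univ i)
    exact ⟨by linarith [hB1 i], by linarith [hA1 i]⟩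
  have hA3 := fun i => hA2 i h (hle i).1
  have hB3 := fun i => hB2 i h (hle i).2
  choose XA hXA1 hXA2 using hA3
  choose XB hXB1 hXB2 using hB3
  refine ⟨2 + ∑ i, (XA i + XB i), by omega, fun X hX => ?_⟩
  have hleX : ∀ i, XA i ≤ X ∧ XB i ≤ X := by
    intro i
    have h1 : XA i + XB i ≤ ∑ i, (XA i + XB i) :=
      Finset.single_le_sum (f := fun i => XA i + XB i)
        (fun j _ => Nat.zero_le _) (Finset.mem_univ i)
    omega
  have hlog : 0 ≤ Real.log X := Real.log_natCast_nonneg X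
  -- pointwise bound
  have hpt : ∀ m : ℕ, ∀ k : ℤ,
      ‖∑ z ∈ (pan (s * m) (t * m)).filter (fun z => Nat.Coprime (nm z) D),
        fz ζ (nm z) * (g z * θ z) * uu z ^ k‖ ^ 2
      ≤ 2 * C * ∑ i, (‖sp (pan 0 (t * m)) (fun z => fz ζ (nm z) * (ψ i z * θ z)) k‖ ^ 2
          + ‖sp (pan 0 (s * m)) (fun z => fz ζ (nm z) * (ψ i z * θ z)) k‖ ^ 2) := by
    intro m k
    have hm0 : (0 : ℝ) ≤ m := Nat.cast_nonneg m
    rw [EdA_id ζ D θ hθ g n ψ c hψ hgc (s * m) (t * m) (by positivity)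
      (mul_le_mul_of_nonneg_right hst hm0) k]
    set A : Fin n → ℂ := fun i => sp (pan 0 (t * m)) (fun z => fz ζ (nm z) * (ψ i z * θ z)) k with hAdef
    set B : Fin n → ℂ := fun i => sp (pan 0 (s * m)) (fun z => fz ζ (nm z) * (ψ i z * θ z)) k with hBdef
    have e1 : ‖∑ i, c i * (A i - B i)‖ ≤ ∑ i, ‖c i‖ * ‖A i - B i‖ := by
      refine (norm_sum_le _ _).trans (le_of_eq ?_)
      exact Finset.sum_congr rfl (fun i _ => norm_mul _ _)
    have e2 : (∑ i, ‖c i‖ * ‖A i - B i‖) ^ 2 ≤ (∑ i, ‖c i‖ ^ 2) * ∑ i, ‖A i - B i‖ ^ 2 :=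
      Finset.sum_mul_sq_le_sq_mul_sq _ _ _
    have e3 : ∑ i, ‖A i - B i‖ ^ 2 ≤ 2 * ∑ i, (‖A i‖ ^ 2 + ‖B i‖ ^ 2) := by
      rw [Finset.mul_sum]
      refine Finset.sum_le_sum (fun i _ => ?_)
      have e4 : ‖A i - B i‖ ≤ ‖A i‖ + ‖B i‖ := norm_sub_le _ _
      nlinarith [norm_nonneg (A i - B i), norm_nonneg (A i), norm_nonneg (B i), sq_nonneg (‖A i‖ - ‖B i‖)]
    calc ‖∑ i, c i * (A i - B i)‖ ^ 2 ≤ (∑ i, ‖c i‖ * ‖A i - B i‖) ^ 2 :=
          pow_le_pow_left₀ (norm_nonneg _) e1 2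
      _ ≤ C * ∑ i, ‖A i - B i‖ ^ 2 := e2
      _ ≤ C * (2 * ∑ i, (‖A i‖ ^ 2 + ‖B i‖ ^ 2)) := mul_le_mul_of_nonneg_left e3 hC0
      _ = 2 * C * ∑ i, (‖A i‖ ^ 2 + ‖B i‖ ^ 2) := by ring
  calc ∑ m ∈ Icc 1 X, (1 / (m : ℝ) ^ 3) * ms ⌊(m : ℝ) / h⌋₊ (fun k =>
      ‖∑ z ∈ (pan (s * m) (t * m)).filter (fun z => Nat.Coprime (nm z) D),
        fz ζ (nm z) * (g z * θ z) * uu z ^ k‖ ^ 2)
      ≤ ∑ m ∈ Icc 1 X, (1 / (m : ℝ) ^ 3) * (2 * C * ∑ i,
          (ms ⌊(m : ℝ) / h⌋₊ (fun k => ‖sp (pan 0 (t * m)) (fun z => fz ζ (nm z) * (ψ i z * θ z)) k‖ ^ 2)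
          + ms ⌊(m : ℝ) / h⌋₊ (fun k => ‖sp (pan 0 (s * m)) (fun z => fz ζ (nm z) * (ψ i z * θ z)) k‖ ^ 2))) := by
        refine Finset.sum_le_sum (fun m _ => mul_le_mul_of_nonneg_left ?_ (by positivity))
        refine (EdA_ms_le _ (fun k _ => hpt m k)).trans (le_of_eq ?_)
        rw [EdA_ms_mul, EdA_ms_sum]
        congr 1
        exact Finset.sum_congr rfl (fun i _ => EdA_ms_add _ _ _)
    _ = 2 * C * ∑ i, (∑ m ∈ Icc 1 X, (1 / (m : ℝ) ^ 3) *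
            ms ⌊(m : ℝ) / h⌋₊ (fun k => ‖sp (pan 0 (t * m)) (fun z => fz ζ (nm z) * (ψ i z * θ z)) k‖ ^ 2)
          + ∑ m ∈ Icc 1 X, (1 / (m : ℝ) ^ 3) *
            ms ⌊(m : ℝ) / h⌋₊ (fun k => ‖sp (pan 0 (s * m)) (fun z => fz ζ (nm z) * (ψ i z * θ z)) k‖ ^ 2)) := by
        exact EdA_swap C X n (fun m => 1 / (m : ℝ) ^ 3)
          (fun i m => ms ⌊(m : ℝ) / h⌋₊
            (fun k => ‖sp (pan 0 (t * m)) (fun z => fz ζ (nm z) * (ψ i z * θ z)) k‖ ^ 2))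
          (fun i m => ms ⌊(m : ℝ) / h⌋₊
            (fun k => ‖sp (pan 0 (s * m)) (fun z => fz ζ (nm z) * (ψ i z * θ z)) k‖ ^ 2))
    _ ≤ 2 * C * ∑ _i : Fin n, (η' * Real.log X + η' * Real.log X) := by
        refine mul_le_mul_of_nonneg_left ?_ (by positivity)
        exact Finset.sum_le_sum (fun i _ => add_le_add (hXA2 i X (hleX i).1) (hXB2 i X (hleX i).2))
    _ = (4 * C * n * η') * Real.log X := by
        rw [Finset.sum_const, Finset.card_univ, Fintype.card_fin, nsmul_eq_mul]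
        ring
    _ ≤ η * Real.log X := by
        refine mul_le_mul_of_nonneg_right ?_ hlog
        rw [hη', mul_div_assoc', div_le_iff₀ (by positivity)]
        have hn : (0 : ℝ) ≤ n := Nat.cast_nonneg n
        nlinarith [mul_nonneg hC0 hn, mul_nonneg (mul_nonneg hC0 hn) hη.le, mul_nonneg hC0 hη.le, mul_nonneg hn hη.le]

/-- `χ₄(re z)` -/
noncomputable def EdA_x4 (z : GI) : ℂ := if z.re % 4 = 1 then 1 else -1

theorem EdA_x4_sq (z : GI) : EdA_x4 z * EdA_x4 z = 1 := by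
  unfold EdA_x4
  split_ifs <;> norm_num

theorem EdA_x4_neg {z : GI} (hz : Od z) : EdA_x4 (-z) = -EdA_x4 z := by
  unfold EdA_x4
  have h1 := hz.1
  rw [Zsqrtd.re_neg]
  by_cases h2 : z.re % 4 = 1
  · rw [if_pos h2, if_neg (by omega)]
  · rw [if_neg h2, if_pos (by omega), neg_neg]

theorem EdA_x4_per {D : ℕ} (h4 : 4 ∣ D) {z w : GI} (h : cg D z w) : EdA_x4 z = EdA_x4 w := by
  unfold EdA_x4
  have h1 : (4 : ℤ) ∣ z.re - w.re := dvd_trans (by exact_mod_cast h4) h.1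
  have h2 : z.re % 4 = 1 ↔ w.re % 4 = 1 := by omega
  by_cases h3 : z.re % 4 = 1
  · rw [if_pos h3, if_pos (h2.1 h3)]
  · rw [if_neg h3, if_neg (fun h5 => h3 (h2.2 h5))]

theorem EdA_ez_neg (z : GI) : ez (-z) = - ez z := by
  unfold ez
  rw [map_neg, norm_neg, neg_div]

theorem EdA_ut_neg {z : GI} (hz : Od z) : ut (-z) = ut z := by
  have h := EdA_x4_neg hz
  unfold EdA_x4 at h
  unfold ut
  rw [h, EdA_ez_neg]
  ring

theorem EdA_ez_eq (z : GI) : ez z = EdA_x4 z * ut z := by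
  have h := EdA_x4_sq z
  have h2 : ut z = EdA_x4 z * ez z := rfl
  rw [h2, ← mul_assoc, h, one_mul]

theorem EdA_ez_ne {z : GI} (hz : z ≠ 0) : ez z ≠ 0 := by
  unfold ez
  have h1 : GaussianInt.toComplex z ≠ 0 := by
    rwa [Ne, GaussianInt.toComplex_eq_zero]
  apply div_ne_zero h1
  exact_mod_cast (norm_ne_zero_iff.2 h1)

theorem EdA_ez_sq {z : GI} (hz : z ≠ 0) : ez z ^ 2 = uu z := by
  unfold ez uu
  rw [div_pow]
  congr 1
  exact_mod_cast BAS_norm_sq z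

theorem EdA_ez_even {z : GI} (hz : z ≠ 0) (κ : ℤ) : ez z ^ (2 * κ) = uu z ^ κ := by
  rw [zpow_mul, show (2 : ℤ) = ((2 : ℕ) : ℤ) by rfl, zpow_natCast, EdA_ez_sq hz]

theorem EdA_ez_odd {z : GI} (hz : z ≠ 0) (κ : ℤ) :
    ez z ^ (2 * κ + 1) = EdA_x4 z * ut z * uu z ^ κ := by
  rw [zpow_add₀ (EdA_ez_ne hz), EdA_ez_even hz, zpow_one, ← EdA_ez_eq]
  ring

/-- splitting into even and odd frequencies -/
theorem EdA_ms_split (K : ℕ) (F : ℤ → ℝ) (hF : ∀ k, 0 ≤ F k) :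
    ms K F ≤ ms K (fun κ => F (2 * κ)) + ms K (fun κ => F (2 * κ + 1)) := by
  classical
  have h0 : ms K F = ∑ k ∈ (Icc (-(K : ℤ)) (K : ℤ)).filter (fun k => k % 2 = 0), fw K k * F k
      + ∑ k ∈ (Icc (-(K : ℤ)) (K : ℤ)).filter (fun k => ¬ k % 2 = 0), fw K k * F k := by
    unfold ms
    rw [Finset.sum_filter_add_sum_filter_not]
  have hK0 : (0 : ℝ) < (K : ℝ) + 1 := by positivity
  have hfw : ∀ a b : ℤ, |a| ≤ |b| → fw K b ≤ fw K a := by
    intro a b hab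
    unfold fw
    have h1 : |(a : ℝ)| ≤ |(b : ℝ)| := by exact_mod_cast hab
    have h2 : |(a : ℝ)| / ((K : ℝ) + 1) ≤ |(b : ℝ)| / ((K : ℝ) + 1) :=
      div_le_div_of_nonneg_right h1 hK0.le
    linarith
  rw [h0]
  refine add_le_add ?_ ?_
  · set E := (Icc (-(K : ℤ)) (K : ℤ)).filter (fun k => k % 2 = 0) with hE
    have h1 : ∑ k ∈ E, fw K k * F k = ∑ κ ∈ E.image (fun k => k / 2), fw K (2 * κ) * F (2 * κ) := by
      rw [Finset.sum_image]
      · refine Finset.sum_congr rfl (fun k hk => ?_)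
        rw [hE, Finset.mem_filter] at hk
        have : 2 * (k / 2) = k := by omega
        rw [this]
      · intro a ha b hb hab
        rw [Finset.mem_coe, hE, Finset.mem_filter] at ha hb
        have hab' : a / 2 = b / 2 := hab
        omega
    rw [h1]
    have hsub : E.image (fun k => k / 2) ⊆ Icc (-(K : ℤ)) (K : ℤ) := by
      intro κ hκ
      rw [Finset.mem_image] at hκ
      obtain ⟨k, hk, rfl⟩ := hκ
      rw [hE, Finset.mem_filter, Finset.mem_Icc] at hk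
      rw [Finset.mem_Icc]
      omega
    refine (Finset.sum_le_sum (fun κ hκ => ?_)).trans
      (Finset.sum_le_sum_of_subset_of_nonneg hsub (fun κ hκ _ => mul_nonneg (fw_nonneg hκ) (hF _)))
    refine mul_le_mul_of_nonneg_right (hfw _ _ ?_) (hF _)
    rcases abs_cases κ with h | h <;> rcases abs_cases (2 * κ) with h' | h' <;> omega
  · set E := (Icc (-(K : ℤ)) (K : ℤ)).filter (fun k => ¬ k % 2 = 0) with hE
    have h1 : ∑ k ∈ E, fw K k * F k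
        = ∑ κ ∈ E.image (fun k => k / 2), fw K (2 * κ + 1) * F (2 * κ + 1) := by
      rw [Finset.sum_image]
      · refine Finset.sum_congr rfl (fun k hk => ?_)
        rw [hE, Finset.mem_filter] at hk
        have : 2 * (k / 2) + 1 = k := by omega
        rw [this]
      · intro a ha b hb hab
        rw [Finset.mem_coe, hE, Finset.mem_filter] at ha hb
        have hab' : a / 2 = b / 2 := hab
        omega
    rw [h1]
    have hsub : E.image (fun k => k / 2) ⊆ Icc (-(K : ℤ)) (K : ℤ) := by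
      intro κ hκ
      rw [Finset.mem_image] at hκ
      obtain ⟨k, hk, rfl⟩ := hκ
      rw [hE, Finset.mem_filter, Finset.mem_Icc] at hk
      rw [Finset.mem_Icc]
      omega
    refine (Finset.sum_le_sum (fun κ hκ => ?_)).trans
      (Finset.sum_le_sum_of_subset_of_nonneg hsub (fun κ hκ _ => mul_nonneg (fw_nonneg hκ) (hF _)))
    refine mul_le_mul_of_nonneg_right (hfw _ _ ?_) (hF _)
    rcases abs_cases κ with h | h <;> rcases abs_cases (2 * κ + 1) with h' | h' <;> omega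

theorem edA (ζ : ℂ) (hζ : ‖ζ‖ = 1) (hζ1 : ζ ≠ 1) (D : ℕ) (h4 : 4 ∣ D) (hD : 0 < D) (g : GI → ℂ)
    (hper : ∀ z w : GI, Od z → Od w → cg D z w → g z = g w) (s t : ℝ) (hs : 0 < s) (hst : s ≤ t)
    (η : ℝ) (hη : 0 < η) :
    ∃ h0 : ℝ, 1 ≤ h0 ∧ ∀ h : ℝ, h0 ≤ h → ∃ X0 : ℕ, 2 ≤ X0 ∧ ∀ X : ℕ, X0 ≤ X →
    open Classical in
    ∑ m ∈ Icc 1 X, (1 / (m : ℝ) ^ 3) * ms ⌊(m : ℝ) / h⌋₊ (fun k =>
      ‖∑ z ∈ (pan (s * m) (t * m)).filter (fun z => Nat.Coprime (nm z) D),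
        fz ζ (nm z) * g z * ez z ^ k‖ ^ 2) ≤ η * Real.log X := by
  classical
  obtain ⟨hA0, hA1, hA2⟩ := EdA_half ζ D h4 hD (fun _ => 1) (fun _ _ => rfl)
    (by
      intro ψ hψ t ht η hη
      simpa only [mul_one] using cavg_even ζ hζ hζ1 D h4 hD ψ hψ t ht η hη)
    g hper s t hs hst (η / 2) (by positivity)
  obtain ⟨hB0, hB1, hB2⟩ := EdA_half ζ D h4 hD ut (fun z hz => EdA_ut_neg hz)
    (fun ψ hψ t ht η hη => cavg_odd ζ hζ D h4 hD ψ hψ t ht η hη)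
    (fun z => g z * EdA_x4 z)
    (by
      intro z w hz hw h
      show g z * EdA_x4 z = g w * EdA_x4 w
      rw [hper z w hz hw h, EdA_x4_per h4 h])
    s t hs hst (η / 2) (by positivity)
  refine ⟨max hA0 hB0, hA1.trans (le_max_left _ _), fun h hh => ?_⟩
  obtain ⟨XA, hXA1, hXA2⟩ := hA2 h ((le_max_left _ _).trans hh)
  obtain ⟨XB, hXB1, hXB2⟩ := hB2 h ((le_max_right _ _).trans hh)
  refine ⟨max XA XB, hXA1.trans (le_max_left _ _), fun X hX => ?_⟩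
  have e1 := hXA2 X ((le_max_left _ _).trans hX)
  have e2 := hXB2 X ((le_max_right _ _).trans hX)
  have hne : ∀ m : ℕ, ∀ z ∈ (pan (s * m) (t * m)).filter (fun z => Nat.Coprime (nm z) D), z ≠ 0 := by
    intro m z hz
    rw [Finset.mem_filter, mem_pan] at hz
    exact Od_ne hz.1.1
  calc ∑ m ∈ Icc 1 X, (1 / (m : ℝ) ^ 3) * ms ⌊(m : ℝ) / h⌋₊ (fun k =>
      ‖∑ z ∈ (pan (s * m) (t * m)).filter (fun z => Nat.Coprime (nm z) D),
        fz ζ (nm z) * g z * ez z ^ k‖ ^ 2)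
      ≤ ∑ m ∈ Icc 1 X, ((1 / (m : ℝ) ^ 3) * ms ⌊(m : ℝ) / h⌋₊ (fun k =>
          ‖∑ z ∈ (pan (s * m) (t * m)).filter (fun z => Nat.Coprime (nm z) D),
            fz ζ (nm z) * (g z * 1) * uu z ^ k‖ ^ 2)
        + (1 / (m : ℝ) ^ 3) * ms ⌊(m : ℝ) / h⌋₊ (fun k =>
          ‖∑ z ∈ (pan (s * m) (t * m)).filter (fun z => Nat.Coprime (nm z) D),
            fz ζ (nm z) * (g z * EdA_x4 z * ut z) * uu z ^ k‖ ^ 2)) := by
        refine Finset.sum_le_sum (fun m _ => ?_)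
        rw [← mul_add]
        refine mul_le_mul_of_nonneg_left ?_ (by positivity)
        refine (EdA_ms_split _ _ (fun k => by positivity)).trans (le_of_eq ?_)
        congr 1
        · congr 1
          funext κ
          congr 2
          refine Finset.sum_congr rfl (fun z hz => ?_)
          rw [EdA_ez_even (hne m z hz), mul_one]
        · congr 1
          funext κ
          congr 2
          refine Finset.sum_congr rfl (fun z hz => ?_)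
          rw [EdA_ez_odd (hne m z hz)]
          ring
    _ ≤ η / 2 * Real.log X + η / 2 * Real.log X := by
        rw [Finset.sum_add_distrib]
        exact add_le_add e1 e2
    _ = η * Real.log X := by ring

end Pool.Agent.FCH
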