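import Pool.Agent.FCH.EdA
import Pool.Agent.FCH.Dsm
import Pool.Agent.FCH.EEm

set_option autoImplicit false

/-! Module EdB: the averaged energy.  `D := 4 d`.  By `dsm`, `∑_{z ∈ AA b m} F(z) 1[z ≡ r (d)] rd(z)^e ez(z)^k = (1/2) ∑_{δ ∈ smo D m} F(δ) ez(δ)^k ∑_{z₀} F(z₀) 1[δ z₀ ≡ r (d)] rd(δ z₀)^e ez(z₀)^k`
(`fz_mul`, `nm_mul`, `ez_mul`).  Choose `B` by `dsm_tail`: the part `N(δ) > B` is `∑_{z ∈ AA b m} a(z) ez(z)^k` with `|a| ≤ b^{|e|}` supported on the `z` whose `δ` has norm `> B`: at most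
`∑_{N(δ) > B} 9 m/N(δ) ≤ 9 ε' m` elements; energy `≤ C (K+m) ε' m` (`en_mvt` below).  For each of the finitely many `δ`, `N(δ) ≤ B`: cut `(m/(b N δ), m/N δ]` in `n` intervals `(s_i m, t_i m]` on which
`rd(δ z₀)^e = (N(δ z₀)/m)^{e/2}` is within `ε'` of a constant `w_i`: error energy `≤ C (K+m) m ε'²` (`mvt_prim`/`en_mvt`), main part: `n` applications of `edA` with
`g(z₀) = 1[δ z₀ ≡ r (mod d)]` (periodic mod `D`), `η' = η/(n² · #δ² · ...)`.  The finitely many `r ∈ cls d` (the function only depends on `r mod d`): take the max of the `h0`, and of the `X0`.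
`(1/m³) C (K+m) ε' m ≤ 2Cε'/m`: sum `≤ 2Cε'(1 + log X)`. -/

open Finset

namespace Pool.Agent.FCH

open Pool.Agent.MRS hiding Good

/-! ### basic facts -/

noncomputable def EdB_gk (K : ℕ) (z w : GI) : ℝ := ff K (ez z * (starRingEnd ℂ) (ez w))

theorem EdB_norm2 {z w : GI} (hz : z ≠ 0) (hw : w ≠ 0) : ‖ez z * (starRingEnd ℂ) (ez w)‖ = 1 := by
  rw [norm_mul, RCLike.norm_conj, norm_ez hz, norm_ez hw, one_mul]

theorem EdB_gk_nonneg (K : ℕ) (z w : GI) : 0 ≤ EdB_gk K z w := ff_nonneg _ _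

theorem EdB_gk_le {K : ℕ} {z w : GI} (hz : z ≠ 0) (hw : w ≠ 0) : EdB_gk K z w ≤ (K : ℝ) + 1 :=
  ff_le (EdB_norm2 hz hw)

theorem EdB_norm_toC (z : GI) : ‖GaussianInt.toComplex z‖ = √(nm z : ℝ) := by
  rw [← BAS_norm_sq, Real.sqrt_sq (norm_nonneg _)]

theorem EdB_im {z w : GI} :
    (ez z * (starRingEnd ℂ) (ez w)).im = -(dt z w : ℝ) / (√(nm z : ℝ) * √(nm w : ℝ)) := by
  unfold ez
  rw [map_div₀, Complex.conj_ofReal, EdB_norm_toC, EdB_norm_toC, div_mul_div_comm, ← Complex.ofReal_mul,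
    Complex.div_ofReal_im]
  congr 1
  rw [Complex.mul_im]
  simp only [Complex.conj_re, Complex.conj_im]
  unfold dt
  simp only [← GaussianInt.intCast_re, ← GaussianInt.intCast_im]
  push_cast
  ring

theorem EdB_gk_dt {K : ℕ} {z w : GI} (hz : z ≠ 0) (hw : w ≠ 0) (h : dt z w ≠ 0) :
    EdB_gk K z w ≤ 4 * ((nm z : ℝ) * nm w) / (((K : ℝ) + 1) * (dt z w : ℝ) ^ 2) := by
  have hNz : (0 : ℝ) < nm z := by exact_mod_cast nm_pos hz
  have hNw : (0 : ℝ) < nm w := by exact_mod_cast nm_pos hw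
  have hd0 : (dt z w : ℝ) ≠ 0 := by exact_mod_cast h
  have hd : (0 : ℝ) < (dt z w : ℝ) ^ 2 := by positivity
  have hK : (0 : ℝ) < K + 1 := by positivity
  obtain ⟨v, hv⟩ : ∃ v, v = ez z * (starRingEnd ℂ) (ez w) := ⟨_, rfl⟩
  have him : v.im = -(dt z w : ℝ) / (√(nm z : ℝ) * √(nm w : ℝ)) := by rw [hv]; exact EdB_im
  have h1 : |(1 - v).im| ≤ ‖1 - v‖ := Complex.abs_im_le_norm _
  have h2 : (1 - v).im ^ 2 = (dt z w : ℝ) ^ 2 / ((nm z : ℝ) * nm w) := by
    rw [Complex.sub_im, Complex.one_im, him]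
    rw [zero_sub, neg_div, neg_neg, div_pow, mul_pow, Real.sq_sqrt hNz.le, Real.sq_sqrt hNw.le]
  have h3 : (dt z w : ℝ) ^ 2 / ((nm z : ℝ) * nm w) ≤ ‖1 - v‖ ^ 2 := by
    rw [← h2, ← sq_abs]
    exact pow_le_pow_left₀ (abs_nonneg _) h1 2
  have h4 : 0 < (dt z w : ℝ) ^ 2 / ((nm z : ℝ) * nm w) := by positivity
  have hne : v ≠ 1 := by
    intro he
    rw [he, sub_self, norm_zero] at h3
    have : (0 : ℝ) ^ 2 = 0 := by norm_num
    rw [this] at h3
    linarith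
  have h5 := ff_le_sq (K := K) (w := v) (by rw [hv]; exact EdB_norm2 hz hw) hne
  unfold EdB_gk
  rw [← hv]
  refine h5.trans ?_
  calc 4 / (((K : ℝ) + 1) * ‖1 - v‖ ^ 2)
      ≤ 4 / (((K : ℝ) + 1) * ((dt z w : ℝ) ^ 2 / ((nm z : ℝ) * nm w))) := by
        apply div_le_div_of_nonneg_left (by norm_num) (by positivity)
        exact mul_le_mul_of_nonneg_left h3 hK.le
    _ = 4 * ((nm z : ℝ) * nm w) / (((K : ℝ) + 1) * (dt z w : ℝ) ^ 2) := by
        field_simp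

theorem EdB_gk_symm (K : ℕ) (z w : GI) : EdB_gk K z w = EdB_gk K w z := by
  unfold EdB_gk ff
  have h1 : ∑ j ∈ range (K + 1), (ez z * (starRingEnd ℂ) (ez w)) ^ j
      = (starRingEnd ℂ) (∑ j ∈ range (K + 1), (ez w * (starRingEnd ℂ) (ez z)) ^ j) := by
    rw [map_sum]
    apply Finset.sum_congr rfl
    intro j _
    rw [map_pow, map_mul, Complex.conj_conj]
    ring
  rw [h1, RCLike.norm_conj]

theorem EdB_expand (K : ℕ) (s : Finset GI) (hs : ∀ z ∈ s, z ≠ 0) (c : GI → ℂ) :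
    ((en K s c : ℝ) : ℂ) = ∑ z ∈ s, ∑ w ∈ s, c z * (starRingEnd ℂ) (c w) * (EdB_gk K z w : ℂ) := by
  unfold en ms
  rw [Complex.ofReal_sum]
  have e1 : ∀ k ∈ Icc (-(K : ℤ)) (K : ℤ),
      ((fw K k * ‖∑ z ∈ s, c z * ez z ^ k‖ ^ 2 : ℝ) : ℂ)
        = ∑ z ∈ s, ∑ w ∈ s, c z * (starRingEnd ℂ) (c w) *
            ((fw K k : ℂ) * (ez z * (starRingEnd ℂ) (ez w)) ^ k) := by
    intro k _
    rw [Complex.ofReal_mul, Complex.ofReal_pow, ← Complex.mul_conj', map_sum, Finset.sum_mul_sum,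
      Finset.mul_sum]
    apply Finset.sum_congr rfl
    intro i _
    rw [Finset.mul_sum]
    apply Finset.sum_congr rfl
    intro j _
    rw [map_mul, map_zpow₀, mul_zpow]
    ring
  rw [Finset.sum_congr rfl e1, Finset.sum_comm]
  apply Finset.sum_congr rfl
  intro i hi
  rw [Finset.sum_comm]
  apply Finset.sum_congr rfl
  intro j hj
  rw [← Finset.mul_sum, sum_fw (EdB_norm2 (hs i hi) (hs j hj))]
  rfl

/-- row sums of the kernel -/
theorem EdB_row {K : ℕ} {Y : ℝ} (hY : 1 ≤ Y) {z : GI} (hz : Pr z) (hzY : (nm z : ℝ) ≤ Y)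
    (S : Finset GI) (hS : ∀ w ∈ S, Pr w ∧ (nm w : ℝ) ≤ Y) :
    ∑ w ∈ S, EdB_gk K z w ≤ 40 * (K + Y) := by
  classical
  have hz0 : z ≠ 0 := Pr_ne hz
  have hN : (0 : ℝ) < nm z := by exact_mod_cast nm_pos hz0
  have hK : (0 : ℝ) < (K : ℝ) + 1 := by positivity
  have h1 : ∑ w ∈ S.filter (fun w => dt z w = 0), EdB_gk K z w ≤ 2 * ((K : ℝ) + 1) := by
    have hsub : S.filter (fun w => dt z w = 0) ⊆ {z, -z} := by
      intro w hw
      rw [Finset.mem_filter] at hw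
      rw [Finset.mem_insert, Finset.mem_singleton]
      exact eq_or_neg_of_dt hz (hS w hw.1).1 hw.2
    calc ∑ w ∈ S.filter (fun w => dt z w = 0), EdB_gk K z w
        ≤ ∑ w ∈ S.filter (fun w => dt z w = 0), ((K : ℝ) + 1) := by
          apply Finset.sum_le_sum
          intro w hw
          rw [Finset.mem_filter] at hw
          exact EdB_gk_le hz0 (Pr_ne (hS w hw.1).1)
      _ = ((S.filter (fun w => dt z w = 0)).card : ℝ) * ((K : ℝ) + 1) := by
          rw [Finset.sum_const, nsmul_eq_mul]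
      _ ≤ 2 * ((K : ℝ) + 1) := by
          apply mul_le_mul_of_nonneg_right _ hK.le
          have h3 := (Finset.card_le_card hsub).trans (Finset.card_le_two)
          exact_mod_cast h3
  have h2 : ∑ w ∈ S.filter (fun w => ¬ dt z w = 0), EdB_gk K z w ≤ 36 * Y := by
    have hB : 0 < 4 * ((nm z : ℝ) * Y) / ((K : ℝ) + 1) := by positivity
    have h3 := MVT_fiber hz hzY (S.filter (fun w => ¬ dt z w = 0))
      (by
        intro w hw
        rw [Finset.mem_filter] at hw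
        exact (hS w hw.1).2)
      (fun w => EdB_gk K z w)
      (fun n => min ((K : ℝ) + 1) (4 * ((nm z : ℝ) * Y) / ((K : ℝ) + 1) / (n : ℝ) ^ 2))
      (by
        intro n
        exact le_min hK.le (by positivity))
      (by
        intro w hw
        rw [Finset.mem_filter] at hw
        have hw0 := Pr_ne (hS w hw.1).1
        apply le_min
        · exact EdB_gk_le hz0 hw0
        · refine (EdB_gk_dt hz0 hw0 hw.2).trans ?_
          rw [MVT_natAbs_sq, div_div]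
          apply div_le_div_of_nonneg_right _ (by positivity)
          apply mul_le_mul_of_nonneg_left _ (by norm_num)
          exact mul_le_mul_of_nonneg_left (hS w hw.1).2 hN.le)
      (Ioo 0 (⌊Y⌋₊ + 1))
      (by
        intro w hw
        rw [Finset.mem_filter] at hw
        exact MVT_natAbs_mem hzY (hS w hw.1).2 (by linarith) hw.2)
    refine h3.trans ?_
    have h4 := MVT_min hK hB (⌊Y⌋₊ + 1)
    have h5 : ((K : ℝ) + 1) * (4 * ((nm z : ℝ) * Y) / ((K : ℝ) + 1)) = 2 ^ 2 * (nm z * Y) := by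
      field_simp
      norm_num
    rw [h5, Real.sqrt_mul (by norm_num), Real.sqrt_sq (by norm_num)] at h4
    calc 6 * √(Y / nm z) * ∑ n ∈ Ioo 0 (⌊Y⌋₊ + 1),
          min ((K : ℝ) + 1) (4 * ((nm z : ℝ) * Y) / ((K : ℝ) + 1) / (n : ℝ) ^ 2)
        ≤ 6 * √(Y / nm z) * (3 * (2 * √(nm z * Y))) := by
          apply mul_le_mul_of_nonneg_left h4
          positivity
      _ = 36 * (√(Y / nm z) * √(nm z * Y)) := by ring
      _ = 36 * Y := by
          rw [← Real.sqrt_mul (by positivity)]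
          have : Y / nm z * (nm z * Y) = Y ^ 2 := by
            field_simp
          rw [this, Real.sqrt_sq (by linarith)]
  rw [← Finset.sum_filter_add_sum_filter_not S (fun w => dt z w = 0)]
  linarith

/-- Schur test -/
theorem EdB_mvt (K : ℕ) (Y : ℝ) (hY : 1 ≤ Y) (s : Finset GI) (hs : ∀ z ∈ s, Pr z ∧ (nm z : ℝ) ≤ Y)
    (a : GI → ℂ) : en K s a ≤ 40 * (K + Y) * ∑ z ∈ s, ‖a z‖ ^ 2 := by
  classical
  have h1 : en K s a ≤ ∑ z ∈ s, ∑ w ∈ s, ‖a z‖ * ‖a w‖ * EdB_gk K z w := by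
    have h2 := EdB_expand K s (fun z hz => Pr_ne (hs z hz).1) a
    have h3 : en K s a ≤ ‖((en K s a : ℝ) : ℂ)‖ := by
      rw [Complex.norm_real]
      exact Real.le_norm_self _
    refine h3.trans ?_
    rw [h2]
    refine (norm_sum_le _ _).trans ?_
    apply Finset.sum_le_sum
    intro i hi
    refine (norm_sum_le _ _).trans ?_
    apply Finset.sum_le_sum
    intro j hj
    rw [norm_mul, norm_mul, RCLike.norm_conj, Complex.norm_real,
      Real.norm_of_nonneg (EdB_gk_nonneg _ _ _)]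
  refine h1.trans ?_
  have h4 : ∑ x ∈ s, ∑ y ∈ s, ‖a x‖ * ‖a y‖ * EdB_gk K x y
      ≤ ∑ x ∈ s, ∑ y ∈ s, (‖a x‖ ^ 2 / 2 * EdB_gk K x y + ‖a y‖ ^ 2 / 2 * EdB_gk K x y) := by
    apply Finset.sum_le_sum
    intro x _
    apply Finset.sum_le_sum
    intro y _
    have := EdB_gk_nonneg K x y
    nlinarith [mul_nonneg this (sq_nonneg (‖a x‖ - ‖a y‖))]
  have h5 : ∑ x ∈ s, ∑ y ∈ s, (‖a x‖ ^ 2 / 2 * EdB_gk K x y + ‖a y‖ ^ 2 / 2 * EdB_gk K x y)
      = ∑ x ∈ s, ‖a x‖ ^ 2 * ∑ y ∈ s, EdB_gk K x y := by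
    have h6 : ∑ x ∈ s, ∑ y ∈ s, ‖a y‖ ^ 2 / 2 * EdB_gk K x y
        = ∑ x ∈ s, ∑ y ∈ s, ‖a x‖ ^ 2 / 2 * EdB_gk K x y := by
      rw [Finset.sum_comm]
      apply Finset.sum_congr rfl
      intro x _
      apply Finset.sum_congr rfl
      intro y _
      rw [EdB_gk_symm]
    simp only [Finset.sum_add_distrib]
    rw [h6, ← Finset.sum_add_distrib]
    apply Finset.sum_congr rfl
    intro x _
    rw [← Finset.mul_sum]
    ring
  refine h4.trans ?_
  rw [h5, Finset.mul_sum]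
  apply Finset.sum_le_sum
  intro x hx
  have h6 := EdB_row (K := K) hY (hs x hx).1 (hs x hx).2 s hs
  nlinarith [sq_nonneg (‖a x‖)]

/-- Schur test: row sums of the Fejer kernel over `AA` are `≤ C (K + m)` (see `en_triv`) -/
theorem en_mvt (b : ℝ) (hb : 1 < b) : ∃ C : ℝ, 0 < C ∧ ∀ (m K : ℕ) (a : GI → ℂ), 1 ≤ m →
    en K (AA b m) a ≤ C * (K + m) * ∑ z ∈ AA b m, ‖a z‖ ^ 2 := by
  refine ⟨40, by norm_num, ?_⟩
  intro m K a hm
  have hm' : (1 : ℝ) ≤ m := by exact_mod_cast hm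
  apply EdB_mvt K m hm'
  intro z hz
  rw [mem_AA] at hz
  exact ⟨hz.2.1, hz.1⟩

theorem EdB_ms_mono {K : ℕ} {F G : ℤ → ℝ} (h : ∀ k, F k ≤ G k) : ms K F ≤ ms K G := by
  unfold ms
  apply Finset.sum_le_sum
  intro k hk
  exact mul_le_mul_of_nonneg_left (h k) (fw_nonneg hk)

theorem EdB_ms_add (K : ℕ) (F G : ℤ → ℝ) : ms K (fun k => F k + G k) = ms K F + ms K G := by
  unfold ms
  rw [← Finset.sum_add_distrib]
  apply Finset.sum_congr rfl
  intro k _
  ring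

theorem EdB_ms_smul (K : ℕ) (c : ℝ) (F : ℤ → ℝ) : ms K (fun k => c * F k) = c * ms K F := by
  unfold ms
  rw [Finset.mul_sum]
  apply Finset.sum_congr rfl
  intro k _
  ring

theorem EdB_ms_sum {ι : Type} (K : ℕ) (T : Finset ι) (F : ι → ℤ → ℝ) :
    ms K (fun k => ∑ i ∈ T, F i k) = ∑ i ∈ T, ms K (F i) := by
  unfold ms
  rw [Finset.sum_comm]
  apply Finset.sum_congr rfl
  intro k _
  rw [Finset.mul_sum]

theorem EdB_sq_add (u v : ℂ) : ‖u + v‖ ^ 2 ≤ 2 * ‖u‖ ^ 2 + 2 * ‖v‖ ^ 2 := by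
  have h1 := norm_add_le u v
  have h2 : ‖u + v‖ ^ 2 ≤ (‖u‖ + ‖v‖) ^ 2 := pow_le_pow_left₀ (norm_nonneg _) h1 2
  nlinarith [sq_nonneg (‖u‖ - ‖v‖)]

theorem EdB_sq_sum {ι : Type} (T : Finset ι) (u : ι → ℂ) : ‖∑ i ∈ T, u i‖ ^ 2 ≤ T.card * ∑ i ∈ T, ‖u i‖ ^ 2 := by
  have h1 : ‖∑ i ∈ T, u i‖ ^ 2 ≤ (∑ i ∈ T, ‖u i‖) ^ 2 :=
    pow_le_pow_left₀ (norm_nonneg _) (norm_sum_le _ _) 2
  exact h1.trans sq_sum_le_card_mul_sum_sq

/-- harmonic sum -/
theorem EdB_harm {X : ℕ} (hX : 2 ≤ X) : ∑ m ∈ Icc 1 X, (1 : ℝ) / m ≤ 3 * Real.log X := by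
  have h1 : ∑ m ∈ Icc 1 X, (1 : ℝ) / m ≤ 1 + Real.log X := by
    have h2 := harmonic_le_one_add_log X
    have h3 : ((harmonic X : ℚ) : ℝ) = ∑ m ∈ Icc 1 X, (1 : ℝ) / m := by
      rw [harmonic_eq_sum_Icc]
      push_cast
      apply Finset.sum_congr rfl
      intro m _
      rw [one_div]
    rw [← h3]
    exact h2
  have h4 : Real.log 2 ≤ Real.log X := Real.log_le_log (by norm_num) (by exact_mod_cast hX)
  have h5 : 0.69 < Real.log 2 := by
    have := Real.log_two_gt_d9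
    linarith
  linarith

/-- the pairs `(δ, z₀)` give vectors of `AA`, and every vector has exactly two representations -/
theorem EdB_rep (D : ℕ) (h4 : 4 ∣ D) (hD : 0 < D) (b : ℝ) (hb : 1 < b) (m : ℕ) (hm : 1 ≤ m) (x : GI) :
    open Classical in
    (if x ∈ AA b m then (2 : ℝ) else 0) = ∑ δ ∈ smo D m,
      ∑ z ∈ (pan ((m : ℝ) / (b * nm δ)) ((m : ℝ) / nm δ)).filter (fun z => Nat.Coprime (nm z) D),
        if δ * z = x then (1 : ℝ) else 0 := by
  classical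
  have h := dsm D h4 hD b hb m hm (fun z => if z = x then 1 else 0)
  have h1 : ∑ z ∈ AA b m, (if z = x then (1 : ℂ) else 0) = if x ∈ AA b m then 1 else 0 :=
    Finset.sum_ite_eq' _ _ _
  rw [h1] at h
  have h2 : ((if x ∈ AA b m then (2 : ℝ) else 0 : ℝ) : ℂ) = 2 * (if x ∈ AA b m then (1 : ℂ) else 0) := by
    split_ifs <;> simp
  have h3 : ((if x ∈ AA b m then (2 : ℝ) else 0 : ℝ) : ℂ) = ((∑ δ ∈ smo D m,
      ∑ z ∈ (pan ((m : ℝ) / (b * nm δ)) ((m : ℝ) / nm δ)).filter (fun z => Nat.Coprime (nm z) D),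
        (if δ * z = x then (1 : ℝ) else 0) : ℝ) : ℂ) := by
    rw [h2, h, ← mul_assoc, show (2 : ℂ) * (1 / 2) = 1 by norm_num, one_mul]
    push_cast
    apply Finset.sum_congr rfl
    intro δ _
    apply Finset.sum_congr rfl
    intro z _
    split_ifs <;> simp
  exact_mod_cast h3

/-- the annulus and the class -/
noncomputable def EdB_h (d : ℕ) (r : GI) (s t : ℝ) (m : ℕ) (F : GI → ℂ) (z : GI) : ℂ :=
  open Classical in if (s * m < nm z ∧ (nm z : ℝ) ≤ t * m) ∧ cg d z r then F z else 0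

/-- the sum over large `δ` -/
theorem EdB_large (D : ℕ) (h4 : 4 ∣ D) (hD : 0 < D) (b : ℝ) (hb : 1 < b) (m : ℕ) (hm : 1 ≤ m)
    (B ε : ℝ) (hε : 0 ≤ ε)
    (hB : open Classical in ∑ δ ∈ (smo D m).filter (fun δ => B < (nm δ : ℝ)), (1 : ℝ) / nm δ ≤ ε)
    (a : GI → ℂ) (ha : ∀ z, ‖a z‖ ≤ 1) (K : ℕ) : open Classical in
    ms K (fun k => ‖∑ δ ∈ (smo D m).filter (fun δ => B < (nm δ : ℝ)),
      ∑ z ∈ (pan ((m : ℝ) / (b * nm δ)) ((m : ℝ) / nm δ)).filter (fun z => Nat.Coprime (nm z) D),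
        a (δ * z) * ez (δ * z) ^ k‖ ^ 2) ≤ 40 * (K + m) * (8 * m * ε) := by
  classical
  have hm' : (1 : ℝ) ≤ m := by exact_mod_cast hm
  obtain ⟨L, hL⟩ : ∃ L, L = (smo D m).filter (fun δ => B < (nm δ : ℝ)) := ⟨_, rfl⟩
  obtain ⟨Z, hZ⟩ : ∃ Z : GI → Finset GI, Z = fun δ => (pan ((m : ℝ) / (b * nm δ)) ((m : ℝ) / nm δ)).filter
    (fun z => Nat.Coprime (nm z) D) := ⟨_, rfl⟩
  obtain ⟨c, hc⟩ : ∃ c : GI → ℝ, c = fun x => ∑ δ ∈ L, ∑ z ∈ Z δ, if δ * z = x then (1 : ℝ) else 0 :=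
    ⟨_, rfl⟩
  have hsm : ∀ δ ∈ smo D m, δ ≠ 0 := by
    intro δ hδ
    unfold smo at hδ
    rw [mem_filter] at hδ
    exact Pr_ne hδ.2.1
  have hrep := EdB_rep D h4 hD b hb m hm
  rw [← hL] at hB ⊢
  -- all products are in AA
  have hmem : ∀ δ ∈ smo D m, ∀ z ∈ Z δ, δ * z ∈ AA b m := by
    intro δ hδ z hz
    by_contra hcon
    have h1 := hrep (δ * z)
    rw [if_neg hcon] at h1
    have h2 : (1 : ℝ) ≤ ∑ δ' ∈ smo D m, ∑ z' ∈ Z δ', if δ' * z' = δ * z then (1 : ℝ) else 0 := by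
      have h3 : ∑ z' ∈ Z δ, (if δ * z' = δ * z then (1 : ℝ) else 0) ≤
          ∑ δ' ∈ smo D m, ∑ z' ∈ Z δ', if δ' * z' = δ * z then (1 : ℝ) else 0 :=
        single_le_sum (f := fun δ' => ∑ z' ∈ Z δ', if δ' * z' = δ * z then (1 : ℝ) else 0)
          (fun i _ => sum_nonneg (fun j _ => by split_ifs <;> norm_num)) hδ
      have h4 : (if δ * z = δ * z then (1 : ℝ) else 0) ≤
          ∑ z' ∈ Z δ, (if δ * z' = δ * z then (1 : ℝ) else 0) :=
        single_le_sum (f := fun z' => if δ * z' = δ * z then (1 : ℝ) else 0)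
          (fun j _ => by split_ifs <;> norm_num) hz
      rw [if_pos rfl] at h4
      linarith
    rw [hZ] at h2
    linarith
  have hLs : L ⊆ smo D m := by rw [hL]; exact filter_subset _ _
  have hc0 : ∀ x, 0 ≤ c x := by
    intro x
    rw [hc]
    exact sum_nonneg (fun i _ => sum_nonneg (fun j _ => by split_ifs <;> norm_num))
  have hc2 : ∀ x, c x ≤ 2 := by
    intro x
    have h1 := hrep x
    have h2 : c x ≤ ∑ δ' ∈ smo D m, ∑ z' ∈ Z δ', if δ' * z' = x then (1 : ℝ) else 0 := by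
      rw [hc]
      exact sum_le_sum_of_subset_of_nonneg hLs
        (fun i _ _ => sum_nonneg (fun j _ => by split_ifs <;> norm_num))
    rw [hZ, ← h1] at h2
    refine h2.trans ?_
    split_ifs <;> norm_num
  -- regrouping
  have hre : ∀ f : GI → ℂ, ∑ δ ∈ L, ∑ z ∈ Z δ, f (δ * z) = ∑ x ∈ AA b m, (c x : ℂ) * f x := by
    intro f
    have h1 : ∀ δ ∈ L, ∀ z ∈ Z δ, f (δ * z) = ∑ x ∈ AA b m, (if δ * z = x then (1 : ℂ) else 0) * f x := by
      intro δ hδ z hz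
      have h2 : ∀ x ∈ AA b m, (if δ * z = x then (1 : ℂ) else 0) * f x = if δ * z = x then f x else 0 := by
        intro x _
        split_ifs <;> simp
      rw [sum_congr rfl h2, Finset.sum_ite_eq, if_pos (hmem δ (hLs hδ) z hz)]
    rw [sum_congr rfl (fun δ hδ => sum_congr rfl (h1 δ hδ))]
    have h3 : ∀ δ ∈ L, ∑ z ∈ Z δ, ∑ x ∈ AA b m, (if δ * z = x then (1 : ℂ) else 0) * f x =
        ∑ x ∈ AA b m, ∑ z ∈ Z δ, (if δ * z = x then (1 : ℂ) else 0) * f x := fun δ _ => sum_comm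
    rw [sum_congr rfl h3, sum_comm]
    apply sum_congr rfl
    intro x _
    rw [hc]
    push_cast
    rw [sum_mul]
    apply sum_congr rfl
    intro δ _
    rw [sum_mul]
    apply sum_congr rfl
    intro z _
    split_ifs <;> simp
  have hsum : ∑ x ∈ AA b m, c x ≤ 4 * m * ε := by
    have h1 := hre (fun _ => 1)
    have h2 : ((∑ x ∈ AA b m, c x : ℝ) : ℂ) = ((∑ δ ∈ L, ((Z δ).card : ℝ) : ℝ) : ℂ) := by
      push_cast
      simp only [mul_one] at h1
      rw [← h1]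
      apply sum_congr rfl
      intro δ _
      simp
    have h3 : ∑ x ∈ AA b m, c x = ∑ δ ∈ L, ((Z δ).card : ℝ) := by exact_mod_cast h2
    rw [h3]
    calc ∑ δ ∈ L, ((Z δ).card : ℝ) ≤ ∑ δ ∈ L, 4 * (m : ℝ) * (1 / (nm δ : ℝ)) := by
          apply sum_le_sum
          intro δ hδ
          have h5 : (Z δ).card ≤ (ann ((m : ℝ) / (b * nm δ)) ((m : ℝ) / nm δ)).card := by
            apply card_le_card
            rw [hZ]
            exact (filter_subset _ _).trans (pan_subset _ _)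
          have h6 := card_ann_le ((m : ℝ) / (b * nm δ)) (b := (m : ℝ) / nm δ) (by positivity)
          have h7 : ((Z δ).card : ℝ) ≤ ((ann ((m : ℝ) / (b * nm δ)) ((m : ℝ) / nm δ)).card : ℝ) := by
            exact_mod_cast h5
          calc ((Z δ).card : ℝ) ≤ 4 * (m / nm δ) := h7.trans h6
            _ = 4 * m * (1 / nm δ) := by ring
      _ = 4 * m * ∑ δ ∈ L, (1 : ℝ) / nm δ := by rw [mul_sum]
      _ ≤ 4 * m * ε := mul_le_mul_of_nonneg_left hB (by positivity)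
  have hen : ms K (fun k => ‖∑ δ ∈ L, ∑ z ∈ Z δ, a (δ * z) * ez (δ * z) ^ k‖ ^ 2) =
      en K (AA b m) (fun x => (c x : ℂ) * a x) := by
    unfold en
    congr 1
    funext k
    rw [hre (fun x => a x * ez x ^ k)]
    congr 2
    apply sum_congr rfl
    intro x _
    ring
  rw [hZ] at hen
  rw [hen]
  refine (EdB_mvt K m hm' (AA b m) (fun z hz => ⟨(mem_AA.1 hz).2.1, (mem_AA.1 hz).1⟩) _).trans ?_
  apply mul_le_mul_of_nonneg_left _ (by positivity)
  calc ∑ z ∈ AA b m, ‖(c z : ℂ) * a z‖ ^ 2 ≤ ∑ z ∈ AA b m, 2 * c z := by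
        apply sum_le_sum
        intro z _
        rw [norm_mul, Complex.norm_real, Real.norm_of_nonneg (hc0 z), mul_pow]
        have h1 : ‖a z‖ ^ 2 ≤ 1 := pow_le_one₀ (norm_nonneg _) (ha z)
        calc c z ^ 2 * ‖a z‖ ^ 2 ≤ c z ^ 2 * 1 := mul_le_mul_of_nonneg_left h1 (by positivity)
          _ = c z * c z := by ring
          _ ≤ 2 * c z := mul_le_mul_of_nonneg_right (hc2 z) (hc0 z)
    _ = 2 * ∑ z ∈ AA b m, c z := by rw [mul_sum]
    _ ≤ 2 * (4 * m * ε) := by linarith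
    _ = 8 * m * ε := by ring

/-- one `δ` -/
theorem EdB_small (ζ : ℂ) (hζ : ‖ζ‖ = 1) (b : ℝ) (hb : 1 < b) (d : ℕ) (s t : ℝ) (hs : 1 / b ≤ s)
    (ht : t ≤ 1) (r δ : GI) (hδ : δ ≠ 0) (m : ℕ) (k : ℤ) (D : ℕ) : open Classical in
    ‖∑ z ∈ (pan ((m : ℝ) / (b * nm δ)) ((m : ℝ) / nm δ)).filter (fun z => Nat.Coprime (nm z) D),
      EdB_h d r s t m (fun z => fz ζ (nm z)) (δ * z) * ez (δ * z) ^ k‖ =
    ‖∑ z ∈ (pan (s / nm δ * m) (t / nm δ * m)).filter (fun z => Nat.Coprime (nm z) D),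
      fz ζ (nm z) * (if cg d (δ * z) r then (1 : ℂ) else 0) * ez z ^ k‖ := by
  classical
  have hδn : 0 < nm δ := nm_pos hδ
  have hδr : (0 : ℝ) < nm δ := by exact_mod_cast hδn
  have hm0 : (0 : ℝ) ≤ m := Nat.cast_nonneg _
  have hb0 : (0 : ℝ) < b := by linarith
  have hsub : (pan (s / nm δ * m) (t / nm δ * m)).filter (fun z => Nat.Coprime (nm z) D) ⊆
      (pan ((m : ℝ) / (b * nm δ)) ((m : ℝ) / nm δ)).filter (fun z => Nat.Coprime (nm z) D) := by
    intro z hz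
    rw [mem_filter, mem_pan] at hz ⊢
    obtain ⟨hz1, hz5⟩ := hz
    refine ⟨?_, hz5⟩
    have e1 : (m : ℝ) / (b * nm δ) ≤ s / nm δ * m := by
      have : (m : ℝ) / (b * nm δ) = 1 / b / nm δ * m := by field_simp
      rw [this]
      apply mul_le_mul_of_nonneg_right _ hm0
      exact div_le_div_of_nonneg_right hs hδr.le
    have e2 : t / nm δ * m ≤ (m : ℝ) / nm δ := by
      have : (m : ℝ) / nm δ = 1 / nm δ * m := by ring
      rw [this]
      apply mul_le_mul_of_nonneg_right _ hm0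
      exact div_le_div_of_nonneg_right ht hδr.le
    refine ⟨hz1.1, hz1.2.1, lt_of_le_of_lt e1 hz1.2.2.1, hz1.2.2.2.trans e2⟩
  have h1 : ∑ z ∈ (pan ((m : ℝ) / (b * nm δ)) ((m : ℝ) / nm δ)).filter (fun z => Nat.Coprime (nm z) D),
      EdB_h d r s t m (fun z => fz ζ (nm z)) (δ * z) * ez (δ * z) ^ k =
      ∑ z ∈ (pan (s / nm δ * m) (t / nm δ * m)).filter (fun z => Nat.Coprime (nm z) D),
      EdB_h d r s t m (fun z => fz ζ (nm z)) (δ * z) * ez (δ * z) ^ k := by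
    symm
    apply sum_subset hsub
    intro z hz hz'
    rw [mem_filter, mem_pan] at hz hz'
    have : ¬ ((s * m < nm (δ * z) ∧ (nm (δ * z) : ℝ) ≤ t * m) ∧ cg d (δ * z) r) := by
      rintro ⟨⟨g1, g2⟩, g3⟩
      apply hz'
      refine ⟨⟨hz.1.1, hz.1.2.1, ?_, ?_⟩, hz.2⟩
      · rw [nm_mul] at g1
        push_cast at g1
        rw [div_mul_eq_mul_div, div_lt_iff₀ hδr]
        linarith
      · rw [nm_mul] at g2
        push_cast at g2
        rw [div_mul_eq_mul_div, le_div_iff₀ hδr]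
        linarith
    unfold EdB_h
    rw [if_neg this, zero_mul]
  rw [h1]
  have h2 : ∑ z ∈ (pan (s / nm δ * m) (t / nm δ * m)).filter (fun z => Nat.Coprime (nm z) D),
      EdB_h d r s t m (fun z => fz ζ (nm z)) (δ * z) * ez (δ * z) ^ k =
      (fz ζ (nm δ) * ez δ ^ k) * ∑ z ∈ (pan (s / nm δ * m) (t / nm δ * m)).filter (fun z => Nat.Coprime (nm z) D),
      fz ζ (nm z) * (if cg d (δ * z) r then (1 : ℂ) else 0) * ez z ^ k := by
    rw [mul_sum]
    apply sum_congr rfl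
    intro z hz
    rw [mem_filter, mem_pan] at hz
    have hz0 : z ≠ 0 := Pr_ne (by tauto)
    have g1 : s * m < nm (δ * z) := by
      have := hz.1.2.2.1
      rw [div_mul_eq_mul_div, div_lt_iff₀ hδr] at this
      rw [nm_mul]; push_cast; linarith
    have g2 : (nm (δ * z) : ℝ) ≤ t * m := by
      have := hz.1.2.2.2
      rw [div_mul_eq_mul_div, le_div_iff₀ hδr] at this
      rw [nm_mul]; push_cast; linarith
    unfold EdB_h
    by_cases hcg : cg d (δ * z) r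
    · rw [if_pos ⟨⟨g1, g2⟩, hcg⟩, if_pos hcg]
      beta_reduce
      rw [nm_mul, fz_mul ζ hδn.ne' (nm_pos hz0).ne', ez_mul, mul_zpow]
      ring
    · rw [if_neg (fun h => hcg h.2), if_neg hcg]
      ring
  rw [h2, norm_mul, norm_mul, norm_fz hζ, norm_zpow, norm_ez hδ, one_zpow, one_mul, one_mul]

/-- core: one annulus, one class -/
theorem EdB_core (ζ : ℂ) (hζ : ‖ζ‖ = 1) (hζ1 : ζ ≠ 1) (b : ℝ) (hb : 1 < b) (d : ℕ) (hd : 1 ≤ d)
    (s t : ℝ) (hs : 1 / b ≤ s) (hst : s ≤ t) (ht : t ≤ 1) (r : GI) (η : ℝ) (hη : 0 < η) :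
    ∃ h0 : ℝ, 1 ≤ h0 ∧ ∀ h : ℝ, h0 ≤ h → ∃ X0 : ℕ, 2 ≤ X0 ∧ ∀ X : ℕ, X0 ≤ X →
    ∑ m ∈ Icc 1 X, (1 / (m : ℝ) ^ 3) * en ⌊(m : ℝ) / h⌋₊ (AA b m)
      (EdB_h d r s t m (fun z => fz ζ (nm z))) ≤ η * Real.log X := by
  classical
  obtain ⟨D, hDd⟩ : ∃ D, D = 4 * d := ⟨_, rfl⟩
  have h4 : 4 ∣ D := ⟨d, hDd⟩
  have hD : 0 < D := by omega
  have hb0 : (0 : ℝ) < b := by linarith
  have hs0 : 0 < s := lt_of_lt_of_le (by positivity) hs
  obtain ⟨ε, hε⟩ : ∃ ε, ε = η / 1920 := ⟨_, rfl⟩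
  have hε0 : 0 < ε := by rw [hε]; positivity
  obtain ⟨B, hB1, hB⟩ := dsm_tail D hD ε hε0
  obtain ⟨Δ, hΔ⟩ : ∃ Δ, Δ = smo D B := ⟨_, rfl⟩
  obtain ⟨N, hN⟩ : ∃ N : ℝ, N = (Δ.card : ℝ) + 1 := ⟨_, rfl⟩
  have hN1 : 1 ≤ N := by rw [hN]; linarith [Nat.cast_nonneg (α := ℝ) Δ.card]
  have hNc : (Δ.card : ℝ) ≤ N := by rw [hN]; linarith
  have hΔ0 : ∀ δ ∈ Δ, δ ≠ 0 := by
    intro δ hδ
    rw [hΔ] at hδ
    unfold smo at hδ
    rw [mem_filter] at hδ
    exact Pr_ne hδ.2.1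
  -- apply edA to each δ
  have hA : ∀ δ : GI, ∃ h0 : ℝ, 1 ≤ h0 ∧ (δ ∈ Δ → ∀ h : ℝ, h0 ≤ h → ∃ X0 : ℕ, 2 ≤ X0 ∧ ∀ X : ℕ, X0 ≤ X →
      ∑ m ∈ Icc 1 X, (1 / (m : ℝ) ^ 3) * ms ⌊(m : ℝ) / h⌋₊ (fun k =>
      ‖∑ z ∈ (pan (s / nm δ * m) (t / nm δ * m)).filter (fun z => Nat.Coprime (nm z) D),
        fz ζ (nm z) * (if cg d (δ * z) r then (1 : ℂ) else 0) * ez z ^ k‖ ^ 2) ≤
          (η / N ^ 2) * Real.log X) := by
    intro δ
    by_cases hδ : δ ∈ Δ
    · have hδr : (0 : ℝ) < nm δ := by exact_mod_cast nm_pos (hΔ0 δ hδ)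
      obtain ⟨h0, hh0, hh⟩ := edA ζ hζ hζ1 D h4 hD (fun z => if cg d (δ * z) r then (1 : ℂ) else 0)
        (by
          intro z w _ _ hzw
          have : cg d (δ * z) r ↔ cg d (δ * w) r := by
            unfold cg at hzw ⊢
            have hdD : (d : ℤ) ∣ (D : ℤ) := by
              rw [hDd]; push_cast; exact dvd_mul_left _ _
            have a1 : (d : ℤ) ∣ z.re - w.re := hdD.trans hzw.1
            have a2 : (d : ℤ) ∣ z.im - w.im := hdD.trans hzw.2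
            have b1 : (d : ℤ) ∣ (δ * z).re - (δ * w).re := by
              have : (δ * z).re - (δ * w).re = δ.re * (z.re - w.re) - δ.im * (z.im - w.im) := by
                simp only [Zsqrtd.re_mul]; ring
              rw [this]
              exact dvd_sub (a1.mul_left _) (a2.mul_left _)
            have b2 : (d : ℤ) ∣ (δ * z).im - (δ * w).im := by
              have : (δ * z).im - (δ * w).im = δ.re * (z.im - w.im) + δ.im * (z.re - w.re) := by
                simp only [Zsqrtd.im_mul]; ring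
              rw [this]
              exact dvd_add (a2.mul_left _) (a1.mul_left _)
            constructor
            · rintro ⟨c1, c2⟩
              constructor
              · have := dvd_sub c1 b1
                ring_nf at this ⊢
                exact this
              · have := dvd_sub c2 b2
                ring_nf at this ⊢
                exact this
            · rintro ⟨c1, c2⟩
              constructor
              · have := dvd_add c1 b1
                ring_nf at this ⊢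
                exact this
              · have := dvd_add c2 b2
                ring_nf at this ⊢
                exact this
          simp only [this])
        (s / nm δ) (t / nm δ) (by positivity) (div_le_div_of_nonneg_right hst hδr.le) (η / N ^ 2) (by positivity)
      exact ⟨h0, hh0, fun _ => hh⟩
    · exact ⟨1, le_rfl, fun h => absurd h hδ⟩
  choose h0 hh0 hh using hA
  obtain ⟨H, hH⟩ : ∃ H : ℝ, H = 1 + ∑ δ ∈ Δ, h0 δ := ⟨_, rfl⟩
  have hHle : ∀ δ ∈ Δ, h0 δ ≤ H := by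
    intro δ hδ
    have := single_le_sum (f := h0) (fun i _ => by linarith [hh0 i]) hδ
    rw [hH]; linarith
  have hH1 : 1 ≤ H := by
    have := sum_nonneg (s := Δ) (f := h0) (fun i _ => by linarith [hh0 i])
    rw [hH]; linarith
  refine ⟨H, hH1, ?_⟩
  intro h hh'
  have hX : ∀ δ : GI, ∃ X0 : ℕ, 2 ≤ X0 ∧ (δ ∈ Δ → ∀ X : ℕ, X0 ≤ X →
      ∑ m ∈ Icc 1 X, (1 / (m : ℝ) ^ 3) * ms ⌊(m : ℝ) / h⌋₊ (fun k =>
      ‖∑ z ∈ (pan (s / nm δ * m) (t / nm δ * m)).filter (fun z => Nat.Coprime (nm z) D),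
        fz ζ (nm z) * (if cg d (δ * z) r then (1 : ℂ) else 0) * ez z ^ k‖ ^ 2) ≤
          (η / N ^ 2) * Real.log X) := by
    intro δ
    by_cases hδ : δ ∈ Δ
    · obtain ⟨X0, hX0, hX1⟩ := hh δ hδ h ((hHle δ hδ).trans hh')
      exact ⟨X0, hX0, fun _ => hX1⟩
    · exact ⟨2, le_rfl, fun h => absurd h hδ⟩
  choose X0 hX0 hX1 using hX
  refine ⟨2 + ∑ δ ∈ Δ, X0 δ, by omega, ?_⟩
  intro X hXle
  have hX2 : 2 ≤ X := by omega
  have hXδ : ∀ δ ∈ Δ, X0 δ ≤ X := by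
    intro δ hδ
    have := single_le_sum (f := X0) (fun i _ => Nat.zero_le _) hδ
    omega
  have hlog : 0 < Real.log X := Real.log_pos (by exact_mod_cast hX2)
  have hh1 : 1 ≤ h := hH1.trans hh'
  -- bound for each m
  have hm : ∀ m ∈ Icc 1 X, (1 / (m : ℝ) ^ 3) * en ⌊(m : ℝ) / h⌋₊ (AA b m)
      (EdB_h d r s t m (fun z => fz ζ (nm z))) ≤
      320 * ε * (1 / m) + (N / 2) * ∑ δ ∈ Δ, (1 / (m : ℝ) ^ 3) * ms ⌊(m : ℝ) / h⌋₊ (fun k =>
      ‖∑ z ∈ (pan (s / nm δ * m) (t / nm δ * m)).filter (fun z => Nat.Coprime (nm z) D),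
        fz ζ (nm z) * (if cg d (δ * z) r then (1 : ℂ) else 0) * ez z ^ k‖ ^ 2) := by
    intro m hm
    rw [mem_Icc] at hm
    have hm1 : (1 : ℝ) ≤ m := by exact_mod_cast hm.1
    obtain ⟨K, hK⟩ : ∃ K, K = ⌊(m : ℝ) / h⌋₊ := ⟨_, rfl⟩
    have hKm : (K : ℝ) ≤ m := by
      rw [hK]
      refine (Nat.floor_le (by positivity)).trans ?_
      exact div_le_self (by linarith) hh1
    rw [← hK]
    obtain ⟨a, ha⟩ : ∃ a, a = EdB_h d r s t m (fun z => fz ζ (nm z)) := ⟨_, rfl⟩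
    have han : ∀ z, ‖a z‖ ≤ 1 := by
      intro z
      rw [ha]
      unfold EdB_h
      split_ifs
      · exact (norm_fz hζ _).le
      · simp
    have hlarge := EdB_large D h4 hD b hb m hm.1 B ε hε0.le (hB m) a han K
    obtain ⟨A, hAd⟩ : ∃ A : GI → ℤ → ℂ, A = fun δ k =>
      ∑ z ∈ (pan (s / nm δ * m) (t / nm δ * m)).filter (fun z => Nat.Coprime (nm z) D),
        fz ζ (nm z) * (if cg d (δ * z) r then (1 : ℂ) else 0) * ez z ^ k := ⟨_, rfl⟩
    have hen : en K (AA b m) a ≤ (1 / 2) * (40 * (K + m) * (8 * m * ε)) +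
        (N / 2) * ∑ δ ∈ Δ, ms K (fun k => ‖A δ k‖ ^ 2) := by
      have h1 : ∀ k : ℤ, ‖∑ z ∈ AA b m, a z * ez z ^ k‖ ^ 2 ≤
          (1 / 2) * ‖∑ δ ∈ (smo D m).filter (fun δ => B < (nm δ : ℝ)),
      ∑ z ∈ (pan ((m : ℝ) / (b * nm δ)) ((m : ℝ) / nm δ)).filter (fun z => Nat.Coprime (nm z) D),
        a (δ * z) * ez (δ * z) ^ k‖ ^ 2 + (N / 2) * ∑ δ ∈ Δ, ‖A δ k‖ ^ 2 := by
        intro k
        have h2 := dsm D h4 hD b hb m hm.1 (fun z => a z * ez z ^ k)
        have h3 := sum_filter_add_sum_filter_not (smo D m) (fun δ => B < (nm δ : ℝ)) (fun δ =>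
          ∑ z ∈ (pan ((m : ℝ) / (b * nm δ)) ((m : ℝ) / nm δ)).filter (fun z => Nat.Coprime (nm z) D),
            a (δ * z) * ez (δ * z) ^ k)
        rw [← h3] at h2
        obtain ⟨U, hU⟩ : ∃ U, U = ∑ δ ∈ (smo D m).filter (fun δ => B < (nm δ : ℝ)),
          ∑ z ∈ (pan ((m : ℝ) / (b * nm δ)) ((m : ℝ) / nm δ)).filter (fun z => Nat.Coprime (nm z) D),
            a (δ * z) * ez (δ * z) ^ k := ⟨_, rfl⟩
        obtain ⟨V, hV⟩ : ∃ V, V = ∑ δ ∈ (smo D m).filter (fun δ => ¬ B < (nm δ : ℝ)),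
          ∑ z ∈ (pan ((m : ℝ) / (b * nm δ)) ((m : ℝ) / nm δ)).filter (fun z => Nat.Coprime (nm z) D),
            a (δ * z) * ez (δ * z) ^ k := ⟨_, rfl⟩
        rw [← hU, ← hV] at h2
        rw [← hU]
        have hsubΔ : (smo D m).filter (fun δ => ¬ B < (nm δ : ℝ)) ⊆ Δ := by
          intro δ hδ
          rw [hΔ]
          unfold smo at hδ ⊢
          rw [mem_filter, mem_filter] at hδ
          rw [mem_filter, mem_bal]
          exact ⟨not_lt.1 hδ.2, hδ.1.2⟩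
        have hVle : ‖V‖ ^ 2 ≤ N * ∑ δ ∈ Δ, ‖A δ k‖ ^ 2 := by
          rw [hV]
          refine (EdB_sq_sum _ _).trans ?_
          have hcard : (((smo D m).filter (fun δ => ¬ B < (nm δ : ℝ))).card : ℝ) ≤ N := by
            refine le_trans ?_ hNc
            exact_mod_cast card_le_card hsubΔ
          have h5 : ∑ δ ∈ (smo D m).filter (fun δ => ¬ B < (nm δ : ℝ)),
              ‖∑ z ∈ (pan ((m : ℝ) / (b * nm δ)) ((m : ℝ) / nm δ)).filter (fun z => Nat.Coprime (nm z) D),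
                a (δ * z) * ez (δ * z) ^ k‖ ^ 2 ≤ ∑ δ ∈ Δ, ‖A δ k‖ ^ 2 := by
            calc _ = ∑ δ ∈ (smo D m).filter (fun δ => ¬ B < (nm δ : ℝ)), ‖A δ k‖ ^ 2 := by
                  apply sum_congr rfl
                  intro δ hδ
                  rw [ha, hAd, EdB_small ζ hζ b hb d s t hs ht r δ (hΔ0 δ (hsubΔ hδ)) m k D]
              _ ≤ _ := sum_le_sum_of_subset_of_nonneg hsubΔ (fun _ _ _ => by positivity)
          exact mul_le_mul hcard h5 (sum_nonneg (fun _ _ => by positivity)) (by linarith)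
        have h6 : ‖∑ z ∈ AA b m, a z * ez z ^ k‖ ^ 2 = (1 / 4) * ‖U + V‖ ^ 2 := by
          rw [h2, norm_mul, mul_pow]
          norm_num
        rw [h6]
        have h7 := EdB_sq_add U V
        linarith
      unfold en
      refine (EdB_ms_mono h1).trans ?_
      rw [EdB_ms_add, EdB_ms_smul, EdB_ms_smul, EdB_ms_sum]
      have := mul_le_mul_of_nonneg_left hlarge (by norm_num : (0 : ℝ) ≤ 1 / 2)
      linarith
    have h8 : (1 / 2 : ℝ) * (40 * (K + m) * (8 * m * ε)) ≤ 320 * ε * m ^ 2 := by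
      have : (K : ℝ) + m ≤ 2 * m := by linarith
      have h9 := mul_le_mul_of_nonneg_right this (by positivity : (0 : ℝ) ≤ 160 * m * ε)
      nlinarith
    have hm3 : (0 : ℝ) ≤ 1 / (m : ℝ) ^ 3 := by positivity
    rw [← ha]
    calc (1 / (m : ℝ) ^ 3) * en K (AA b m) a
        ≤ (1 / (m : ℝ) ^ 3) * (320 * ε * m ^ 2 + (N / 2) * ∑ δ ∈ Δ, ms K (fun k => ‖A δ k‖ ^ 2)) := by
          apply mul_le_mul_of_nonneg_left _ hm3
          linarith
      _ = 320 * ε * (1 / m) + (N / 2) * ∑ δ ∈ Δ, (1 / (m : ℝ) ^ 3) * ms K (fun k => ‖A δ k‖ ^ 2) := by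
          rw [← mul_sum]
          field_simp
      _ = _ := by rw [hAd]
  refine (sum_le_sum hm).trans ?_
  rw [sum_add_distrib, ← mul_sum, ← mul_sum, sum_comm]
  have h10 := EdB_harm hX2
  have h11 : ∑ δ ∈ Δ, ∑ m ∈ Icc 1 X, (1 / (m : ℝ) ^ 3) * ms ⌊(m : ℝ) / h⌋₊ (fun k =>
      ‖∑ z ∈ (pan (s / nm δ * m) (t / nm δ * m)).filter (fun z => Nat.Coprime (nm z) D),
        fz ζ (nm z) * (if cg d (δ * z) r then (1 : ℂ) else 0) * ez z ^ k‖ ^ 2) ≤
      N * ((η / N ^ 2) * Real.log X) := by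
    calc _ ≤ ∑ δ ∈ Δ, ((η / N ^ 2) * Real.log X) := by
          apply sum_le_sum
          intro δ hδ
          exact hX1 δ hδ X (hXδ δ hδ)
      _ = Δ.card * ((η / N ^ 2) * Real.log X) := by rw [sum_const, nsmul_eq_mul]
      _ ≤ N * ((η / N ^ 2) * Real.log X) := mul_le_mul_of_nonneg_right hNc (by positivity)
  have h12 : 320 * ε * ∑ m ∈ Icc 1 X, (1 : ℝ) / m ≤ 320 * ε * (3 * Real.log X) :=
    mul_le_mul_of_nonneg_left h10 (by positivity)
  have h13 : 320 * ε * (3 * Real.log X) = (η / 2) * Real.log X := by rw [hε]; ring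
  have h14 := mul_le_mul_of_nonneg_left h11 (by positivity : (0 : ℝ) ≤ N / 2)
  have h15 : N / 2 * (N * ((η / N ^ 2) * Real.log X)) = (η / 2) * Real.log X := by
    field_simp
  rw [h15] at h14
  rw [h13] at h12
  linarith

/-- step functions -/
theorem EdB_step (b : ℝ) (hb : 1 < b) (φ : ℝ → ℝ) (hφ : ContinuousOn φ (Set.Icc (1 / b) 1)) (ε : ℝ)
    (hε : 0 < ε) : ∃ (n : ℕ) (s t w : ℕ → ℝ), (∀ i < n, 1 / b ≤ s i ∧ s i ≤ t i ∧ t i ≤ 1) ∧
    ∀ x : ℝ, 1 / b < x → x ≤ 1 →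
      |φ x - ∑ i ∈ range n, if s i < x ∧ x ≤ t i then w i else 0| ≤ ε := by
  have hb0 : (0 : ℝ) < b := by linarith
  have hL : 0 < 1 - 1 / b := by
    have : 1 / b < 1 := by rw [div_lt_one hb0]; exact hb
    linarith
  obtain ⟨L, hLd⟩ : ∃ L, L = 1 - 1 / b := ⟨_, rfl⟩
  rw [← hLd] at hL
  have huc := isCompact_Icc.uniformContinuousOn_of_continuous hφ
  rw [Metric.uniformContinuousOn_iff] at huc
  obtain ⟨δ, hδ, hφδ⟩ := huc ε hε
  obtain ⟨n, hn⟩ := exists_nat_gt (L / δ)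
  have hn0 : (0 : ℝ) < n := lt_trans (by positivity) hn
  have hLn : L / n < δ := by
    rw [div_lt_iff₀ hn0]
    rw [div_lt_iff₀ hδ] at hn
    linarith
  refine ⟨n, fun i => 1 / b + i * (L / n), fun i => 1 / b + (i + 1) * (L / n),
    fun i => φ (1 / b + (i + 1) * (L / n)), ?_, ?_⟩
  · intro i hi
    have hi' : (i : ℝ) + 1 ≤ n := by exact_mod_cast hi
    have h0 : 0 < L / n := by positivity
    refine ⟨?_, ?_, ?_⟩
    · have : 0 ≤ (i : ℝ) * (L / n) := by positivity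
      simp only []
      linarith
    · simp only []
      nlinarith
    · simp only []
      have : ((i : ℝ) + 1) * (L / n) ≤ n * (L / n) := mul_le_mul_of_nonneg_right hi' h0.le
      have h2 : (n : ℝ) * (L / n) = L := by field_simp
      rw [h2] at this
      linarith
  · intro x hx1 hx2
    have h0 : 0 < L / n := by positivity
    obtain ⟨y, hy⟩ : ∃ y, y = (x - 1 / b) / (L / n) := ⟨_, rfl⟩
    have hy0 : 0 < y := by rw [hy]; apply div_pos _ h0; linarith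
    have hxy : x = 1 / b + y * (L / n) := by rw [hy]; field_simp; ring
    have hyn : y ≤ n := by
      rw [hy, div_le_iff₀ h0]
      have h2 : (n : ℝ) * (L / n) = L := by field_simp
      rw [h2]
      linarith
    obtain ⟨j, hj⟩ : ∃ j, ⌈y⌉₊ = j + 1 := by
      have : 0 < ⌈y⌉₊ := Nat.ceil_pos.2 hy0
      exact ⟨⌈y⌉₊ - 1, by omega⟩
    have hj1 : (j : ℝ) < y := by
      have : j < ⌈y⌉₊ := by omega
      exact Nat.lt_ceil.1 this
    have hj2 : y ≤ (j : ℝ) + 1 := by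
      have := Nat.le_ceil y
      rw [hj] at this
      push_cast at this
      exact this
    have hjn : j < n := by
      have : (j : ℝ) < n := lt_of_lt_of_le hj1 hyn
      exact_mod_cast this
    have hiff : ∀ i : ℕ, (1 / b + i * (L / n) < x ∧ x ≤ 1 / b + (i + 1) * (L / n)) ↔ i = j := by
      intro i
      rw [hxy]
      constructor
      · rintro ⟨h1, h2⟩
        have h3 : (i : ℝ) < y := by
          have : (i : ℝ) * (L / n) < y * (L / n) := by linarith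
          exact lt_of_mul_lt_mul_right this h0.le
        have h4 : y ≤ (i : ℝ) + 1 := by
          have : y * (L / n) ≤ ((i : ℝ) + 1) * (L / n) := by linarith
          exact le_of_mul_le_mul_right this h0
        have h5 : (i : ℝ) < (j : ℝ) + 1 := by linarith
        have h6 : (j : ℝ) < (i : ℝ) + 1 := by linarith
        have h5' : i < j + 1 := by exact_mod_cast h5
        have h6' : j < i + 1 := by exact_mod_cast h6
        omega
      · rintro rfl
        constructor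
        · have := mul_lt_mul_of_pos_right hj1 h0
          linarith
        · have := mul_le_mul_of_nonneg_right hj2 h0.le
          linarith
    have hsum : (∑ i ∈ range n, if 1 / b + (i : ℝ) * (L / n) < x ∧ x ≤ 1 / b + ((i : ℝ) + 1) * (L / n) then
        φ (1 / b + ((i : ℝ) + 1) * (L / n)) else 0) = φ (1 / b + ((j : ℝ) + 1) * (L / n)) := by
      have : ∀ i ∈ range n, (if 1 / b + (i : ℝ) * (L / n) < x ∧ x ≤ 1 / b + ((i : ℝ) + 1) * (L / n) then
        φ (1 / b + ((i : ℝ) + 1) * (L / n)) else 0) = if i = j then φ (1 / b + ((i : ℝ) + 1) * (L / n)) else 0 := by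
        intro i _
        by_cases h : i = j
        · rw [if_pos h, if_pos ((hiff i).2 h)]
        · rw [if_neg h, if_neg (fun h' => h ((hiff i).1 h'))]
      rw [sum_congr rfl this, Finset.sum_ite_eq', if_pos (mem_range.2 hjn)]
    rw [hsum]
    have hd : dist x (1 / b + ((j : ℝ) + 1) * (L / n)) < δ := by
      rw [Real.dist_eq, hxy, abs_lt]
      constructor
      · have h5 := mul_lt_mul_of_pos_right hj1 h0
        have h6 : ((j : ℝ) + 1) * (L / n) = j * (L / n) + L / n := by ring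
        linarith
      · have h5 := mul_le_mul_of_nonneg_right hj2 h0.le
        linarith
    have hmem1 : x ∈ Set.Icc (1 / b) 1 := ⟨hx1.le, hx2⟩
    have hmem2 : (1 / b + ((j : ℝ) + 1) * (L / n)) ∈ Set.Icc (1 / b) 1 := by
      constructor
      · have : 0 ≤ ((j : ℝ) + 1) * (L / n) := by positivity
        linarith
      · have hj3 : (j : ℝ) + 1 ≤ n := by exact_mod_cast hjn
        have : ((j : ℝ) + 1) * (L / n) ≤ n * (L / n) := mul_le_mul_of_nonneg_right hj3 h0.le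
        have h2 : (n : ℝ) * (L / n) = L := by field_simp
        rw [h2] at this
        linarith
    have := hφδ x hmem1 _ hmem2 hd
    rw [Real.dist_eq] at this
    exact this.le

/-- one class `r` -/
theorem EdB_class (ζ : ℂ) (hζ : ‖ζ‖ = 1) (hζ1 : ζ ≠ 1) (b : ℝ) (hb : 1 < b) (d : ℕ) (hd : 1 ≤ d) (e : ℤ)
    (r : GI) (η : ℝ) (hη : 0 < η) :
    ∃ h0 : ℝ, 1 ≤ h0 ∧ ∀ h : ℝ, h0 ≤ h → ∃ X0 : ℕ, 2 ≤ X0 ∧ ∀ X : ℕ, X0 ≤ X →
    ∑ m ∈ Icc 1 X, (1 / (m : ℝ) ^ 3) * en ⌊(m : ℝ) / h⌋₊ (AA b m)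
      (hh d r e m (fun z => fz ζ (nm z))) ≤ η * Real.log X := by
  classical
  have hb0 : (0 : ℝ) < b := by linarith
  have hφ : ContinuousOn (fun x : ℝ => (√x) ^ e) (Set.Icc (1 / b) 1) := by
    apply ContinuousOn.zpow₀
    · exact Real.continuous_sqrt.continuousOn
    · intro x hx
      left
      have : 0 < x := lt_of_lt_of_le (by positivity) hx.1
      exact (Real.sqrt_pos.2 this).ne'
  obtain ⟨ε, hε⟩ : ∃ ε : ℝ, ε = √(η / 8640) := ⟨_, rfl⟩
  have hε0 : 0 < ε := by rw [hε]; exact Real.sqrt_pos.2 (by positivity)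
  have hε2 : ε ^ 2 = η / 8640 := by rw [hε]; exact Real.sq_sqrt (by positivity)
  obtain ⟨n, s, t, w, hst, happ⟩ := EdB_step b hb _ hφ ε hε0
  obtain ⟨W, hW⟩ : ∃ W : ℝ, W = 1 + ∑ i ∈ range n, w i ^ 2 := ⟨_, rfl⟩
  have hW1 : 1 ≤ W := by
    have := sum_nonneg (s := range n) (f := fun i => w i ^ 2) (fun i _ => by positivity)
    rw [hW]; linarith
  obtain ⟨N, hN⟩ : ∃ N : ℝ, N = (n : ℝ) + 1 := ⟨_, rfl⟩
  have hN1 : 1 ≤ N := by rw [hN]; linarith [Nat.cast_nonneg (α := ℝ) n]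
  have hNn : (n : ℝ) ≤ N := by rw [hN]; linarith
  have hA : ∀ i : ℕ, ∃ h0 : ℝ, 1 ≤ h0 ∧ (i < n → ∀ h : ℝ, h0 ≤ h → ∃ X0 : ℕ, 2 ≤ X0 ∧ ∀ X : ℕ, X0 ≤ X →
      ∑ m ∈ Icc 1 X, (1 / (m : ℝ) ^ 3) * en ⌊(m : ℝ) / h⌋₊ (AA b m)
      (EdB_h d r (s i) (t i) m (fun z => fz ζ (nm z))) ≤ (η / (4 * N * W)) * Real.log X) := by
    intro i
    by_cases hi : i < n
    · obtain ⟨h0, hh0, hhB⟩ := EdB_core ζ hζ hζ1 b hb d hd (s i) (t i) (hst i hi).1 (hst i hi).2.1
        (hst i hi).2.2 r (η / (4 * N * W)) (by positivity)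
      exact ⟨h0, hh0, fun _ => hhB⟩
    · exact ⟨1, le_rfl, fun h => absurd h hi⟩
  choose h0 hh0 hhA using hA
  obtain ⟨H, hH⟩ : ∃ H : ℝ, H = 1 + ∑ i ∈ range n, h0 i := ⟨_, rfl⟩
  have hHle : ∀ i < n, h0 i ≤ H := by
    intro i hi
    have := single_le_sum (f := h0) (s := range n) (fun i _ => by linarith [hh0 i]) (mem_range.2 hi)
    rw [hH]; linarith
  have hH1 : 1 ≤ H := by
    have := sum_nonneg (s := range n) (f := h0) (fun i _ => by linarith [hh0 i])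
    rw [hH]; linarith
  refine ⟨H, hH1, ?_⟩
  intro h hh'
  have hX : ∀ i : ℕ, ∃ X0 : ℕ, 2 ≤ X0 ∧ (i < n → ∀ X : ℕ, X0 ≤ X →
      ∑ m ∈ Icc 1 X, (1 / (m : ℝ) ^ 3) * en ⌊(m : ℝ) / h⌋₊ (AA b m)
      (EdB_h d r (s i) (t i) m (fun z => fz ζ (nm z))) ≤ (η / (4 * N * W)) * Real.log X) := by
    intro i
    by_cases hi : i < n
    · obtain ⟨X0, hX0, hX1⟩ := hhA i hi h ((hHle i hi).trans hh')
      exact ⟨X0, hX0, fun _ => hX1⟩
    · exact ⟨2, le_rfl, fun h => absurd h hi⟩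
  choose X0 hX0 hX1 using hX
  refine ⟨2 + ∑ i ∈ range n, X0 i, by omega, ?_⟩
  intro X hXle
  have hX2 : 2 ≤ X := by omega
  have hXi : ∀ i < n, X0 i ≤ X := by
    intro i hi
    have := single_le_sum (f := X0) (s := range n) (fun i _ => Nat.zero_le _) (mem_range.2 hi)
    omega
  have hlog : 0 < Real.log X := Real.log_pos (by exact_mod_cast hX2)
  have hh1 : 1 ≤ h := hH1.trans hh'
  have hm : ∀ m ∈ Icc 1 X, (1 / (m : ℝ) ^ 3) * en ⌊(m : ℝ) / h⌋₊ (AA b m)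
      (hh d r e m (fun z => fz ζ (nm z))) ≤ 1440 * ε ^ 2 * (1 / m) + (2 * N * W) * (∑ i ∈ range n,
      w i ^ 2 / W * ((1 / (m : ℝ) ^ 3) * en ⌊(m : ℝ) / h⌋₊ (AA b m)
        (EdB_h d r (s i) (t i) m (fun z => fz ζ (nm z))))) := by
    intro m hm
    rw [mem_Icc] at hm
    have hm1 : (1 : ℝ) ≤ m := by exact_mod_cast hm.1
    obtain ⟨K, hK⟩ : ∃ K, K = ⌊(m : ℝ) / h⌋₊ := ⟨_, rfl⟩
    have hKm : (K : ℝ) ≤ m := by
      rw [hK]
      refine (Nat.floor_le (by positivity)).trans ?_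
      exact div_le_self (by linarith) hh1
    rw [← hK]
    obtain ⟨F, hF⟩ : ∃ F : GI → ℂ, F = fun z => fz ζ (nm z) := ⟨_, rfl⟩
    have hFn : ∀ z, ‖F z‖ = 1 := by intro z; rw [hF]; exact norm_fz hζ _
    rw [← hF]
    obtain ⟨er, her⟩ : ∃ er : GI → ℂ, er = fun z => hh d r e m F z -
      ∑ i ∈ range n, (w i : ℂ) * EdB_h d r (s i) (t i) m F z := ⟨_, rfl⟩
    have hern : ∀ z ∈ AA b m, ‖er z‖ ≤ ε := by
      intro z hz
      rw [mem_AA] at hz
      obtain ⟨z1, z2, z3⟩ := hz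
      have hm0 : (0 : ℝ) < m := by linarith
      have hx1 : 1 / b < (nm z : ℝ) / m := by
        rw [lt_div_iff₀ hm0]
        calc 1 / b * m = m / b := by ring
          _ < _ := z3
      have hx2 : (nm z : ℝ) / m ≤ 1 := by rw [div_le_one hm0]; exact z1
      rw [her]
      beta_reduce
      by_cases hcg : cg d z r
      · have e1 : hh d r e m F z = F z * (((√((nm z : ℝ) / m)) ^ e : ℝ) : ℂ) := by
          unfold hh
          rw [if_pos hcg]
          rfl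
        have e2 : ∀ i ∈ range n, (w i : ℂ) * EdB_h d r (s i) (t i) m F z =
            F z * ((if s i < (nm z : ℝ) / m ∧ (nm z : ℝ) / m ≤ t i then w i else 0 : ℝ) : ℂ) := by
          intro i _
          unfold EdB_h
          have e3 : (s i < (nm z : ℝ) / m ∧ (nm z : ℝ) / m ≤ t i) ↔
              ((s i * m < nm z ∧ (nm z : ℝ) ≤ t i * m) ∧ cg d z r) := by
            rw [lt_div_iff₀ hm0, div_le_iff₀ hm0]
            tauto
          by_cases h5 : s i < (nm z : ℝ) / m ∧ (nm z : ℝ) / m ≤ t i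
          · rw [if_pos h5, if_pos (e3.1 h5)]
            ring
          · rw [if_neg h5, if_neg (fun h6 => h5 (e3.2 h6))]
            simp
        rw [e1, sum_congr rfl e2, ← mul_sum, ← mul_sub, norm_mul, hFn, one_mul, ← Complex.ofReal_sum,
          ← Complex.ofReal_sub, Complex.norm_real]
        exact happ _ hx1 hx2
      · have e1 : hh d r e m F z = 0 := by
          unfold hh
          rw [if_neg hcg]
        have e2 : ∀ i ∈ range n, (w i : ℂ) * EdB_h d r (s i) (t i) m F z = 0 := by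
          intro i _
          unfold EdB_h
          rw [if_neg (fun h6 => hcg h6.2), mul_zero]
        rw [e1, sum_congr rfl e2]
        simp
        exact hε0.le
    have hen : en K (AA b m) (hh d r e m F) ≤ 2 * (40 * (K + m) * (9 * m * ε ^ 2)) +
        2 * (N * ∑ i ∈ range n, w i ^ 2 * en K (AA b m) (EdB_h d r (s i) (t i) m F)) := by
      have h1 : ∀ k : ℤ, ‖∑ z ∈ AA b m, hh d r e m F z * ez z ^ k‖ ^ 2 ≤
          2 * ‖∑ z ∈ AA b m, er z * ez z ^ k‖ ^ 2 + 2 * (N * ∑ i ∈ range n,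
            w i ^ 2 * ‖∑ z ∈ AA b m, EdB_h d r (s i) (t i) m F z * ez z ^ k‖ ^ 2) := by
        intro k
        have h2 : ∑ z ∈ AA b m, hh d r e m F z * ez z ^ k = ∑ z ∈ AA b m, er z * ez z ^ k +
            ∑ i ∈ range n, (w i : ℂ) * ∑ z ∈ AA b m, EdB_h d r (s i) (t i) m F z * ez z ^ k := by
          have h3 : ∑ i ∈ range n, (w i : ℂ) * ∑ z ∈ AA b m, EdB_h d r (s i) (t i) m F z * ez z ^ k =
              ∑ z ∈ AA b m, (∑ i ∈ range n, (w i : ℂ) * EdB_h d r (s i) (t i) m F z) * ez z ^ k := by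
            simp only [mul_sum, sum_mul]
            rw [sum_comm]
            apply sum_congr rfl
            intro z _
            apply sum_congr rfl
            intro i _
            ring
          rw [h3, ← sum_add_distrib]
          apply sum_congr rfl
          intro z _
          rw [her]
          ring
        rw [h2]
        refine (EdB_sq_add _ _).trans ?_
        have h4 : ‖∑ i ∈ range n, (w i : ℂ) * ∑ z ∈ AA b m, EdB_h d r (s i) (t i) m F z * ez z ^ k‖ ^ 2 ≤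
            N * ∑ i ∈ range n, w i ^ 2 * ‖∑ z ∈ AA b m, EdB_h d r (s i) (t i) m F z * ez z ^ k‖ ^ 2 := by
          refine (EdB_sq_sum _ _).trans ?_
          rw [card_range]
          have h5 : ∑ i ∈ range n, ‖(w i : ℂ) * ∑ z ∈ AA b m, EdB_h d r (s i) (t i) m F z * ez z ^ k‖ ^ 2 =
              ∑ i ∈ range n, w i ^ 2 * ‖∑ z ∈ AA b m, EdB_h d r (s i) (t i) m F z * ez z ^ k‖ ^ 2 := by
            apply sum_congr rfl
            intro i _
            rw [norm_mul, mul_pow, Complex.norm_real, Real.norm_eq_abs, sq_abs]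
          rw [h5]
          exact mul_le_mul_of_nonneg_right hNn (sum_nonneg (fun i _ => by positivity))
        linarith
      have h6 : en K (AA b m) er ≤ 40 * (K + m) * (9 * m * ε ^ 2) := by
        refine (EdB_mvt K m hm1 (AA b m) (fun z hz => ⟨(mem_AA.1 hz).2.1, (mem_AA.1 hz).1⟩) _).trans ?_
        apply mul_le_mul_of_nonneg_left _ (by positivity)
        calc ∑ z ∈ AA b m, ‖er z‖ ^ 2 ≤ ∑ z ∈ AA b m, ε ^ 2 :=
              sum_le_sum (fun z hz => pow_le_pow_left₀ (norm_nonneg _) (hern z hz) 2)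
          _ = (AA b m).card * ε ^ 2 := by rw [sum_const, nsmul_eq_mul]
          _ ≤ 9 * m * ε ^ 2 := mul_le_mul_of_nonneg_right (card_AA b m) (by positivity)
      unfold en at h6 ⊢
      refine (EdB_ms_mono h1).trans ?_
      rw [EdB_ms_add, EdB_ms_smul, EdB_ms_smul, EdB_ms_smul, EdB_ms_sum]
      have h7 : ∑ i ∈ range n, ms K (fun k => w i ^ 2 *
          ‖∑ z ∈ AA b m, EdB_h d r (s i) (t i) m F z * ez z ^ k‖ ^ 2) =
          ∑ i ∈ range n, w i ^ 2 * ms K (fun k =>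
          ‖∑ z ∈ AA b m, EdB_h d r (s i) (t i) m F z * ez z ^ k‖ ^ 2) := by
        apply sum_congr rfl
        intro i _
        rw [EdB_ms_smul]
      rw [h7]
      linarith
    have h8 : 2 * (40 * (K + m) * (9 * m * ε ^ 2)) ≤ 1440 * ε ^ 2 * (m : ℝ) ^ 2 := by
      have : (K : ℝ) + m ≤ 2 * m := by linarith
      have h9 := mul_le_mul_of_nonneg_right this (by positivity : (0 : ℝ) ≤ 720 * m * ε ^ 2)
      nlinarith
    have hm3 : (0 : ℝ) ≤ 1 / (m : ℝ) ^ 3 := by positivity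
    calc (1 / (m : ℝ) ^ 3) * en K (AA b m) (hh d r e m F)
        ≤ (1 / (m : ℝ) ^ 3) * (1440 * ε ^ 2 * (m : ℝ) ^ 2 + 2 * (N * ∑ i ∈ range n,
            w i ^ 2 * en K (AA b m) (EdB_h d r (s i) (t i) m F))) := by
          apply mul_le_mul_of_nonneg_left _ hm3
          linarith
      _ = 1440 * ε ^ 2 * (1 / m) + (2 * N * W) * (∑ i ∈ range n,
            w i ^ 2 / W * ((1 / (m : ℝ) ^ 3) * en K (AA b m) (EdB_h d r (s i) (t i) m F))) := by
          have h9 : ∑ i ∈ range n,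
            w i ^ 2 / W * ((1 / (m : ℝ) ^ 3) * en K (AA b m) (EdB_h d r (s i) (t i) m F)) =
            (1 / W) * ((1 / (m : ℝ) ^ 3) * ∑ i ∈ range n,
            w i ^ 2 * en K (AA b m) (EdB_h d r (s i) (t i) m F)) := by
            rw [mul_sum, mul_sum]
            apply sum_congr rfl
            intro i _
            ring
          rw [h9]
          have hW0 : W ≠ 0 := by linarith
          field_simp
  refine (sum_le_sum hm).trans ?_
  rw [sum_add_distrib, ← mul_sum, ← mul_sum, sum_comm]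
  have h10 := EdB_harm hX2
  have h11 : ∑ i ∈ range n, ∑ m ∈ Icc 1 X, w i ^ 2 / W * ((1 / (m : ℝ) ^ 3) * en ⌊(m : ℝ) / h⌋₊ (AA b m)
        (EdB_h d r (s i) (t i) m (fun z => fz ζ (nm z)))) ≤ (η / (4 * N * W)) * Real.log X := by
    calc _ ≤ ∑ i ∈ range n, w i ^ 2 / W * ((η / (4 * N * W)) * Real.log X) := by
          apply sum_le_sum
          intro i hi
          rw [← mul_sum]
          apply mul_le_mul_of_nonneg_left _ (by positivity)
          exact hX1 i (mem_range.1 hi) X (hXi i (mem_range.1 hi))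
      _ = ((∑ i ∈ range n, w i ^ 2) / W) * ((η / (4 * N * W)) * Real.log X) := by
          rw [sum_div, sum_mul]
      _ ≤ 1 * ((η / (4 * N * W)) * Real.log X) := by
          apply mul_le_mul_of_nonneg_right _ (by positivity)
          rw [div_le_one (by linarith), hW]
          linarith
      _ = _ := one_mul _
  have h12 : 1440 * ε ^ 2 * ∑ m ∈ Icc 1 X, (1 : ℝ) / m ≤ 1440 * ε ^ 2 * (3 * Real.log X) :=
    mul_le_mul_of_nonneg_left h10 (by positivity)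
  have h13 : 1440 * ε ^ 2 * (3 * Real.log X) = (η / 2) * Real.log X := by rw [hε2]; ring
  have h14 := mul_le_mul_of_nonneg_left h11 (by positivity : (0 : ℝ) ≤ 2 * N * W)
  have h15 : 2 * N * W * ((η / (4 * N * W)) * Real.log X) = (η / 2) * Real.log X := by
    have hW0 : W ≠ 0 := by linarith
    have hN0 : N ≠ 0 := by linarith
    field_simp
    norm_num
  rw [h15] at h14
  rw [h13] at h12
  linarith

/-- the representative -/
def EdB_rp (d : ℕ) (z : GI) : GI := ⟨z.re % d, z.im % d⟩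

theorem EdB_rp_mem {d : ℕ} (hd : 1 ≤ d) (z : GI) : EdB_rp d z ∈ cls d := by
  have hd0 : (0 : ℤ) < d := by exact_mod_cast hd
  rw [mem_cls]
  unfold EdB_rp
  exact ⟨⟨Int.emod_nonneg _ hd0.ne', Int.emod_lt_of_pos _ hd0⟩, Int.emod_nonneg _ hd0.ne',
    Int.emod_lt_of_pos _ hd0⟩

theorem EdB_cg_rp (d : ℕ) (z : GI) : cg d z (EdB_rp d z) := by
  unfold cg EdB_rp
  exact ⟨Int.dvd_self_sub_emod, Int.dvd_self_sub_emod⟩

theorem EdB_cg_trans {d : ℕ} {x y z : GI} (h : cg d x y) (h' : cg d y z) : cg d x z := by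
  unfold cg at *
  constructor
  · have := dvd_add h.1 h'.1
    simpa using this
  · have := dvd_add h.2 h'.2
    simpa using this

theorem EdB_cg_symm {d : ℕ} {x y : GI} (h : cg d x y) : cg d y x := by
  unfold cg at *
  constructor
  · have := (dvd_neg (a := (d : ℤ)) (b := x.re - y.re)).2 h.1
    simpa using this
  · have := (dvd_neg (a := (d : ℤ)) (b := x.im - y.im)).2 h.2
    simpa using this

theorem EdB_cg_of_dvd {d d' : ℕ} (hd : d ∣ d') {x y : GI} (h : cg d' x y) : cg d x y := by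
  unfold cg at *
  have : (d : ℤ) ∣ (d' : ℤ) := by exact_mod_cast hd
  exact ⟨this.trans h.1, this.trans h.2⟩

theorem EdB_cls_eq {d : ℕ} {x y : GI} (hx : x ∈ cls d) (hy : y ∈ cls d) (h : cg d x y) : x = y := by
  rw [mem_cls] at hx hy
  unfold cg at h
  have key : ∀ a b : ℤ, 0 ≤ a → a < d → 0 ≤ b → b < d → (d : ℤ) ∣ a - b → a = b := by
    intro a b h1 h2 h3 h4 h5
    have h6 : a - b = 0 := by
      apply Int.eq_zero_of_abs_lt_dvd h5
      rw [abs_lt]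
      constructor <;> omega
    omega
  exact Zsqrtd.ext (key _ _ hx.1.1 hx.1.2 hy.1.1 hy.1.2 h.1) (key _ _ hx.2.1 hx.2.2 hy.2.1 hy.2.2 h.2)

theorem edB (ζ : ℂ) (hζ : ‖ζ‖ = 1) (hζ1 : ζ ≠ 1) (b : ℝ) (hb : 1 < b) (d : ℕ) (hd : 1 ≤ d) (e : ℤ)
    (η : ℝ) (hη : 0 < η) :
    ∃ h0 : ℝ, 1 ≤ h0 ∧ ∀ h : ℝ, h0 ≤ h → ∃ X0 : ℕ, 2 ≤ X0 ∧ ∀ X : ℕ, X0 ≤ X → ∀ r : GI,
    ∑ m ∈ Icc 1 X, (1 / (m : ℝ) ^ 3) * en ⌊(m : ℝ) / h⌋₊ (AA b m)
      (hh d r e m (fun z => fz ζ (nm z))) ≤ η * Real.log X := by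
  classical
  choose h0 hh0 hhA using (fun r : GI => EdB_class ζ hζ hζ1 b hb d hd e r η hη)
  obtain ⟨H, hH⟩ : ∃ H : ℝ, H = 1 + ∑ i ∈ cls d, h0 i := ⟨_, rfl⟩
  have hHle : ∀ i ∈ cls d, h0 i ≤ H := by
    intro i hi
    have := single_le_sum (f := h0) (s := cls d) (fun i _ => by linarith [hh0 i]) hi
    rw [hH]; linarith
  have hH1 : 1 ≤ H := by
    have := sum_nonneg (s := cls d) (f := h0) (fun i _ => by linarith [hh0 i])
    rw [hH]; linarith
  refine ⟨H, hH1, ?_⟩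
  intro h hh'
  have hX : ∀ r : GI, ∃ X0 : ℕ, 2 ≤ X0 ∧ (r ∈ cls d → ∀ X : ℕ, X0 ≤ X →
      ∑ m ∈ Icc 1 X, (1 / (m : ℝ) ^ 3) * en ⌊(m : ℝ) / h⌋₊ (AA b m)
      (hh d r e m (fun z => fz ζ (nm z))) ≤ η * Real.log X) := by
    intro r
    by_cases hr : r ∈ cls d
    · obtain ⟨X0, hX0, hX1⟩ := hhA r h ((hHle r hr).trans hh')
      exact ⟨X0, hX0, fun _ => hX1⟩
    · exact ⟨2, le_rfl, fun h => absurd h hr⟩
  choose X0 hX0 hX1 using hX
  refine ⟨2 + ∑ i ∈ cls d, X0 i, by omega, ?_⟩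
  intro X hXle r
  have hr := EdB_rp_mem hd r
  have hXr : X0 (EdB_rp d r) ≤ X := by
    have := single_le_sum (f := X0) (s := cls d) (fun i _ => Nat.zero_le _) hr
    omega
  have h1 := hX1 _ hr X hXr
  have h2 : ∀ m : ℕ, hh d r e m (fun z => fz ζ (nm z)) = hh d (EdB_rp d r) e m (fun z => fz ζ (nm z)) := by
    intro m
    funext z
    unfold hh
    have : cg d z r ↔ cg d z (EdB_rp d r) :=
      ⟨fun h => EdB_cg_trans h (EdB_cg_rp d r), fun h => EdB_cg_trans h (EdB_cg_symm (EdB_cg_rp d r))⟩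
    simp only [this]
  simp only [h2]
  exact h1

/-- with an additional congruence condition on `z` (sum of the classes mod `d q`) -/
theorem edC (ζ : ℂ) (hζ : ‖ζ‖ = 1) (hζ1 : ζ ≠ 1) (b : ℝ) (hb : 1 < b) (d J q : ℕ) (hd : 1 ≤ d)
    (hq : 1 ≤ q) (η : ℝ) (hη : 0 < η) :
    ∃ h0 : ℝ, 1 ≤ h0 ∧ ∀ h : ℝ, h0 ≤ h → ∃ X0 : ℕ, 2 ≤ X0 ∧ ∀ X : ℕ, X0 ≤ X → ∀ r : GI,
    open Classical in
    ∑ m ∈ Icc 1 X, (1 / (m : ℝ) ^ 3) * EE b d J ⌊(m : ℝ) / h⌋₊ m
      (fun z => if cg q z r then fz ζ (nm z) else 0) ≤ η * Real.log X := by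
  classical
  have hdq : 1 ≤ d * q := Nat.mul_pos hd hq
  obtain ⟨c, hc⟩ : ∃ c : ℝ, c = ((cls (d * q)).card : ℝ) := ⟨_, rfl⟩
  obtain ⟨c', hc'⟩ : ∃ c' : ℝ, c' = ((cls d).card : ℝ) := ⟨_, rfl⟩
  obtain ⟨j, hj⟩ : ∃ j : ℝ, j = ((Icc (-(J : ℤ)) (J : ℤ)).card : ℝ) := ⟨_, rfl⟩
  have hc0 : 0 ≤ c := by rw [hc]; positivity
  have hc0' : 0 ≤ c' := by rw [hc']; positivity
  have hj0 : 0 ≤ j := by rw [hj]; positivity
  obtain ⟨η', hη'⟩ : ∃ η' : ℝ, η' = η / (c' * (j * (c * c)) + 1) := ⟨_, rfl⟩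
  have hη0 : 0 < η' := by rw [hη']; positivity
  choose h0 hh0 hhA using (fun e : ℤ => edB ζ hζ hζ1 b hb (d * q) hdq e η' hη0)
  obtain ⟨H, hH⟩ : ∃ H : ℝ, H = 1 + ∑ i ∈ Icc (-(J : ℤ)) (J : ℤ), h0 i := ⟨_, rfl⟩
  have hHle : ∀ i ∈ Icc (-(J : ℤ)) (J : ℤ), h0 i ≤ H := by
    intro i hi
    have := single_le_sum (f := h0) (s := Icc (-(J : ℤ)) (J : ℤ)) (fun i _ => by linarith [hh0 i]) hi
    rw [hH]; linarith
  have hH1 : 1 ≤ H := by
    have := sum_nonneg (s := Icc (-(J : ℤ)) (J : ℤ)) (f := h0) (fun i _ => by linarith [hh0 i])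
    rw [hH]; linarith
  refine ⟨H, hH1, ?_⟩
  intro h hh'
  have hX : ∀ e : ℤ, ∃ X0 : ℕ, 2 ≤ X0 ∧ (e ∈ Icc (-(J : ℤ)) (J : ℤ) → ∀ X : ℕ, X0 ≤ X → ∀ r : GI,
      ∑ m ∈ Icc 1 X, (1 / (m : ℝ) ^ 3) * en ⌊(m : ℝ) / h⌋₊ (AA b m)
      (hh (d * q) r e m (fun z => fz ζ (nm z))) ≤ η' * Real.log X) := by
    intro e
    by_cases he : e ∈ Icc (-(J : ℤ)) (J : ℤ)
    · obtain ⟨X0, hX0, hX1⟩ := hhA e h ((hHle e he).trans hh')
      exact ⟨X0, hX0, fun _ => hX1⟩
    · exact ⟨2, le_rfl, fun h => absurd h he⟩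
  choose X0 hX0 hX1 using hX
  refine ⟨2 + ∑ i ∈ Icc (-(J : ℤ)) (J : ℤ), X0 i, by omega, ?_⟩
  intro X hXle r
  have hX2 : 2 ≤ X := by omega
  have hlog : 0 < Real.log X := Real.log_pos (by exact_mod_cast hX2)
  have hXe : ∀ e ∈ Icc (-(J : ℤ)) (J : ℤ), X0 e ≤ X := by
    intro e he
    have := single_le_sum (f := X0) (s := Icc (-(J : ℤ)) (J : ℤ)) (fun i _ => Nat.zero_le _) he
    omega
  obtain ⟨F, hF⟩ : ∃ F : GI → ℂ, F = fun z => fz ζ (nm z) := ⟨_, rfl⟩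
  have hsp : ∀ (ρ : GI) (e : ℤ) (m : ℕ), hh d ρ e m (fun z => if cg q z r then fz ζ (nm z) else 0) =
      fun z => ∑ τ ∈ (cls (d * q)).filter (fun τ => cg d τ ρ ∧ cg q τ r), hh (d * q) τ e m F z := by
    intro ρ e m
    funext z
    have hz := EdB_rp_mem hdq z
    have hzc := EdB_cg_rp (d * q) z
    have h1 : ∀ τ ∈ (cls (d * q)).filter (fun τ => cg d τ ρ ∧ cg q τ r), hh (d * q) τ e m F z =
        if τ = EdB_rp (d * q) z then F z * ((rd m z) ^ e : ℝ) else 0 := by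
      intro τ hτ
      rw [mem_filter] at hτ
      unfold hh
      have : cg (d * q) z τ ↔ τ = EdB_rp (d * q) z := by
        constructor
        · intro h
          exact EdB_cls_eq hτ.1 hz (EdB_cg_trans (EdB_cg_symm h) hzc)
        · rintro rfl
          exact hzc
      simp only [this]
    rw [sum_congr rfl h1, Finset.sum_ite_eq']
    have h2 : EdB_rp (d * q) z ∈ (cls (d * q)).filter (fun τ => cg d τ ρ ∧ cg q τ r) ↔
        (cg d z ρ ∧ cg q z r) := by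
      rw [mem_filter]
      have hd1 := EdB_cg_of_dvd (dvd_mul_right d q) hzc
      have hq1 := EdB_cg_of_dvd (dvd_mul_left q d) hzc
      constructor
      · rintro ⟨_, h3, h4⟩
        exact ⟨EdB_cg_trans hd1 h3, EdB_cg_trans hq1 h4⟩
      · rintro ⟨h3, h4⟩
        exact ⟨hz, EdB_cg_trans (EdB_cg_symm hd1) h3, EdB_cg_trans (EdB_cg_symm hq1) h4⟩
    unfold hh
    by_cases h3 : cg d z ρ
    · by_cases h4 : cg q z r
      · rw [if_pos h3, if_pos (h2.2 ⟨h3, h4⟩)]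
        simp only [h4, if_true]
        rw [hF]
      · rw [if_pos h3, if_neg (fun h5 => h4 (h2.1 h5).2)]
        simp only [h4, if_false, zero_mul]
    · rw [if_neg h3, if_neg (fun h5 => h3 (h2.1 h5).1)]
  have hEE : ∀ m K : ℕ, EE b d J K m (fun z => if cg q z r then fz ζ (nm z) else 0) ≤
      ∑ ρ ∈ cls d, ∑ e ∈ Icc (-(J : ℤ)) (J : ℤ), c * ∑ τ ∈ cls (d * q), en K (AA b m) (hh (d * q) τ e m F) := by
    intro m K
    unfold EE
    apply sum_le_sum
    intro ρ _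
    apply sum_le_sum
    intro e _
    rw [hsp]
    refine (en_sum _ K (AA b m) (fun τ => hh (d * q) τ e m F)).trans ?_
    apply mul_le_mul
    · rw [hc]
      exact_mod_cast card_le_card (filter_subset _ _)
    · exact sum_le_sum_of_subset_of_nonneg (filter_subset _ _) (fun _ _ _ => en_nonneg _ _ _)
    · exact sum_nonneg (fun _ _ => en_nonneg _ _ _)
    · exact hc0
  calc ∑ m ∈ Icc 1 X, (1 / (m : ℝ) ^ 3) * EE b d J ⌊(m : ℝ) / h⌋₊ m
        (fun z => if cg q z r then fz ζ (nm z) else 0)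
      ≤ ∑ m ∈ Icc 1 X, (1 / (m : ℝ) ^ 3) * (∑ ρ ∈ cls d, ∑ e ∈ Icc (-(J : ℤ)) (J : ℤ),
          c * ∑ τ ∈ cls (d * q), en ⌊(m : ℝ) / h⌋₊ (AA b m) (hh (d * q) τ e m F)) := by
        apply sum_le_sum
        intro m _
        exact mul_le_mul_of_nonneg_left (hEE _ _) (by positivity)
    _ = ∑ ρ ∈ cls d, ∑ e ∈ Icc (-(J : ℤ)) (J : ℤ), c * ∑ τ ∈ cls (d * q),
          ∑ m ∈ Icc 1 X, (1 / (m : ℝ) ^ 3) * en ⌊(m : ℝ) / h⌋₊ (AA b m) (hh (d * q) τ e m F) := by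
        simp only [mul_sum]
        rw [sum_comm]
        apply sum_congr rfl
        intro ρ _
        rw [sum_comm]
        apply sum_congr rfl
        intro e _
        rw [sum_comm]
        apply sum_congr rfl
        intro τ _
        apply sum_congr rfl
        intro m _
        ring
    _ ≤ ∑ ρ ∈ cls d, ∑ e ∈ Icc (-(J : ℤ)) (J : ℤ), c * ∑ τ ∈ cls (d * q), η' * Real.log X := by
        apply sum_le_sum
        intro ρ _
        apply sum_le_sum
        intro e he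
        apply mul_le_mul_of_nonneg_left _ hc0
        apply sum_le_sum
        intro τ _
        rw [hF]
        exact hX1 e he X (hXe e he) τ
    _ = (c' * (j * (c * c))) * (η' * Real.log X) := by
        simp only [sum_const, nsmul_eq_mul]
        rw [← hc, ← hc', ← hj]
        ring
    _ ≤ (c' * (j * (c * c)) + 1) * (η' * Real.log X) := by
        apply mul_le_mul_of_nonneg_right _ (by positivity)
        linarith
    _ = η * Real.log X := by
        rw [hη']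
        have : c' * (j * (c * c)) + 1 ≠ 0 := by positivity
        field_simp

end Pool.Agent.FCH
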