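import Pool.Agent.FCH.Dyn
import Pool.Agent.MRS.LCount

set_option autoImplicit false

/-! Module Far: adjacent pairs.
`adj_ip`: `ip(v,w) ≥ 0`: if `ip ≤ -1`, say `N(v) ≤ N(w)`; `ip² + 1 = N(v)N(w)`, so `N(v+w) = N(v) + N(w) + 2 ip ≤ N(w) ≤ m` since `-2 ip = 2√(N(v)N(w)-1) ≥ N(v)` (`N(w) ≥ 2` here), contradiction.
`kq_spec`: `k = kq` is the largest natural number with `N(kw - v) ≤ m` (`k ≤ 2m` automatically: `k|w| ≤ |kw - v| + |v| ≤ 2√m ≤ 2m`), `k √N(w) ≤ 2 √m`.
`adj_next`: `(w, kw - v)` is adjacent.  `adj_inj`: `v` and `w` determine each other: if `(v,w), (v,w')` adjacent then `w' = w + j v`, and `N(w) ≤ m < N(w + v)`, `ip(v,w) ≥ 0` force `j = 0`; similarly for `(v,w),(v',w)`: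
`v' = v + j w`, `m < N(v+w)` and convexity.
`adj_ex`: for `v` primitive, `N(v) ≤ m` there is a `w`: take `w₀` with `det(v,w₀) = 1`, `|ip(v,w₀)| ≤ N(v)/2`, `N(w₀) = (ip² + 1)/N(v) ≤ m`, and add the largest possible multiple of `v`.
`adj_card`: so `#adj m = #{v primitive, N(v) ≤ m} ≥ c m` (`MRS.card_pan`) and `≤ 9m`.
`adj_sum`: `∑_{adj} 1/(|v||w|) ≤ C`: `max(|v|,|w|) ≥ √m / 2`, so `1/(|v||w|) ≤ (2/√m)(1/|v| + 1/|w|)`, and `v`, `w` determine each other, so the sum is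
`≤ (4/√m) ∑_{0 < N(z) ≤ m} 1/|z| ≤ C`. -/

open Finset

namespace Pool.Agent.FCH

open Pool.Agent.MRS hiding Good

theorem mem_adj {m : ℕ} {v w : GI} : (v, w) ∈ adj m ↔
    (nm v ≤ m ∧ nm w ≤ m) ∧ dt v w = 1 ∧ m < nm (v + w) := by
  classical
  unfold adj
  rw [mem_filter, mem_product, mem_bal, mem_bal]
  simp only [Nat.cast_le]

theorem Far_nm_add (v w : GI) : (nm (v + w) : ℤ) = nm v + nm w + 2 * ip v w := by
  rw [nm_int, nm_int, nm_int]
  unfold ip
  simp only [Zsqrtd.re_add, Zsqrtd.im_add]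
  ring

theorem Far_basis {v w : GI} (h : dt v w = 1) (u : GI) :
    u = (dt u w : GI) * v + (dt v u : GI) * w := by
  unfold dt at *
  ext
  · simp only [Zsqrtd.re_add, Zsqrtd.re_mul, Zsqrtd.re_intCast, Zsqrtd.im_intCast]
    linear_combination (-u.re) * h
  · simp only [Zsqrtd.im_add, Zsqrtd.im_mul, Zsqrtd.re_intCast, Zsqrtd.im_intCast]
    linear_combination (-u.im) * h

theorem Far_ne {v w : GI} (h : dt v w = 1) : v ≠ 0 ∧ w ≠ 0 := by
  constructor
  · rintro rfl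
    simp [dt] at h
  · rintro rfl
    simp [dt] at h

theorem Far_nm_comb (j : ℤ) (v w : GI) :
    (nm (w + (j : GI) * v) : ℤ) = nm w + 2 * j * ip v w + j ^ 2 * nm v := by
  rw [nm_int, nm_int, nm_int]
  unfold ip
  simp only [Zsqrtd.re_add, Zsqrtd.im_add, Zsqrtd.re_mul, Zsqrtd.im_mul, Zsqrtd.re_intCast,
    Zsqrtd.im_intCast]
  ring

theorem adj_ip {m : ℕ} {v w : GI} (h : (v, w) ∈ adj m) : 0 ≤ ip v w := by
  rw [mem_adj] at h
  obtain ⟨⟨h1, h2⟩, h3, h4⟩ := h
  by_contra hneg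
  push Not at hneg
  have e1 := Far_nm_add v w
  have e2 := ip_sq_add v w
  rw [h3] at e2
  have h1' : (nm v : ℤ) ≤ m := by exact_mod_cast h1
  have h2' : (nm w : ℤ) ≤ m := by exact_mod_cast h2
  have h4' : (m : ℤ) < nm (v + w) := by exact_mod_cast h4
  nlinarith

theorem Far_par (a b : GI) : nm (a + b) ≤ 2 * (nm a + nm b) := by
  have e1 : (nm (a + b) : ℤ) ≤ 2 * (nm a + nm b) := by
    rw [nm_int, nm_int, nm_int]
    simp only [Zsqrtd.re_add, Zsqrtd.im_add]
    nlinarith [sq_nonneg (a.re - b.re), sq_nonneg (a.im - b.im)]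
  exact_mod_cast e1

theorem Far_nm_nat (k : ℕ) (w : GI) : nm ((k : GI) * w) = k ^ 2 * nm w := by
  rw [nm_mul, BAS_nm_natCast]
  ring

theorem Far_k_bound {m : ℕ} {v w : GI} (h : (v, w) ∈ adj m) {k : ℕ}
    (hk : nm ((k : GI) * w - v) ≤ m) : k ^ 2 * nm w ≤ 4 * m := by
  rw [mem_adj] at h
  have h1 := Far_par ((k : GI) * w - v) v
  rw [sub_add_cancel, Far_nm_nat] at h1
  omega

theorem kq_spec {m : ℕ} {v w : GI} (h : (v, w) ∈ adj m) :
    nm ((kq m v w : GI) * w - v) ≤ m ∧ (∀ k : ℕ, nm ((k : GI) * w - v) ≤ m → k ≤ kq m v w) ∧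
      (kq m v w : ℝ) * √(nm w : ℝ) ≤ 2 * √(m : ℝ) := by
  classical
  have hh := mem_adj.1 h
  have hne := Far_ne hh.2.1
  have hv1 : 1 ≤ nm v := nm_pos hne.1
  have hw1 : 1 ≤ nm w := nm_pos hne.2
  have hP0 : nm (((0 : ℕ) : GI) * w - v) ≤ m := by
    rw [Nat.cast_zero, zero_mul, zero_sub, nm_neg]
    exact hh.1.1
  have hspec : nm ((kq m v w : GI) * w - v) ≤ m := by
    unfold kq
    have := Nat.findGreatest_spec (P := fun k : ℕ => nm ((k : GI) * w - v) ≤ m) (Nat.zero_le (2 * m)) hP0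
    convert this
  refine ⟨hspec, ?_, ?_⟩
  · intro k hk
    have hb := Far_k_bound h hk
    have hk2 : k ≤ 2 * m := by
      have hm1 : 1 ≤ m := le_trans hv1 hh.1.1
      by_contra hcon
      push Not at hcon
      have : (2 * m + 1) ^ 2 ≤ k ^ 2 := Nat.pow_le_pow_left hcon 2
      nlinarith
    unfold kq
    have := Nat.le_findGreatest (P := fun k : ℕ => nm ((k : GI) * w - v) ≤ m) hk2 hk
    convert this
  · have hb := Far_k_bound h hspec
    have hb' : ((kq m v w : ℝ)) ^ 2 * (nm w : ℝ) ≤ 4 * m := by exact_mod_cast hb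
    have e1 : (kq m v w : ℝ) * √(nm w : ℝ) = √((kq m v w : ℝ) ^ 2 * nm w) := by
      rw [Real.sqrt_mul (by positivity), Real.sqrt_sq (by positivity)]
    have e2 : 2 * √(m : ℝ) = √(4 * (m : ℝ)) := by
      rw [Real.sqrt_mul (by norm_num), show (4 : ℝ) = 2 ^ 2 by norm_num,
        Real.sqrt_sq (by norm_num)]
    rw [e1, e2]
    exact Real.sqrt_le_sqrt hb'

theorem Far_dt_comb (k : ℕ) (v w : GI) : dt w ((k : GI) * w - v) = dt v w := by
  unfold dt
  simp only [Zsqrtd.re_sub, Zsqrtd.im_sub, Zsqrtd.re_mul, Zsqrtd.im_mul, Zsqrtd.re_natCast,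
    Zsqrtd.im_natCast]
  ring

theorem adj_next {m : ℕ} {v w : GI} (h : (v, w) ∈ adj m) : (w, (kq m v w : GI) * w - v) ∈ adj m := by
  have hh := mem_adj.1 h
  obtain ⟨h1, h2, _⟩ := kq_spec h
  rw [mem_adj]
  refine ⟨⟨hh.1.2, h1⟩, ?_, ?_⟩
  · rw [Far_dt_comb]; exact hh.2.1
  · by_contra hcon
    push Not at hcon
    have e : w + ((kq m v w : GI) * w - v) = ((kq m v w + 1 : ℕ) : GI) * w - v := by
      push_cast
      ring
    rw [e] at hcon
    have := h2 _ hcon
    omega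

theorem Far_shift {m : ℕ} {v w : GI} {j : ℤ} (hj : 1 ≤ j) (hip : 0 ≤ ip v w)
    (h : m < nm (v + w)) : m < nm (w + (j : GI) * v) := by
  have e1 := Far_nm_add v w
  have e2 := Far_nm_comb j v w
  have h' : (m : ℤ) < nm (v + w) := by exact_mod_cast h
  have h3 : (m : ℤ) < nm (w + (j : GI) * v) := by
    have hv : (0 : ℤ) ≤ nm v := by positivity
    nlinarith [mul_nonneg (by linarith : (0 : ℤ) ≤ j - 1) hip,
      mul_nonneg (mul_nonneg (by linarith : (0 : ℤ) ≤ j - 1) (by linarith : (0 : ℤ) ≤ j + 1)) hv]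
  exact_mod_cast h3

theorem Far_dt_sub (v w w' : GI) : dt v (w' - w) = dt v w' - dt v w := by
  unfold dt
  simp only [Zsqrtd.re_sub, Zsqrtd.im_sub]
  ring

theorem Far_sub_dt (v v' w : GI) : dt (v' - v) w = dt v' w - dt v w := by
  unfold dt
  simp only [Zsqrtd.re_sub, Zsqrtd.im_sub]
  ring

theorem adj_inj_left {m : ℕ} {v w w' : GI} (h : (v, w) ∈ adj m) (h' : (v, w') ∈ adj m) : w = w' := by
  have hh := mem_adj.1 h
  have hh' := mem_adj.1 h'
  have hip := adj_ip h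
  have hip' := adj_ip h'
  have e := Far_basis hh.2.1 (w' - w)
  rw [Far_dt_sub, hh.2.1, hh'.2.1, sub_self, Int.cast_zero, zero_mul, add_zero] at e
  set j := dt (w' - w) w with hj
  rcases lt_trichotomy j 0 with h0 | h0 | h0
  · have h1 : w = w' + ((-j : ℤ) : GI) * v := by
      push_cast
      linear_combination (-1 : GI) * e
    have := Far_shift (m := m) (by omega : 1 ≤ -j) hip' hh'.2.2
    rw [← h1] at this
    have := hh.1.2
    omega
  · rw [h0, Int.cast_zero, zero_mul, sub_eq_zero] at e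
    exact e.symm
  · have h1 : w' = w + (j : GI) * v := by
      linear_combination e
    have := Far_shift (m := m) (by omega : 1 ≤ j) hip hh.2.2
    rw [← h1] at this
    have := hh'.1.2
    omega

theorem Far_ip_comm (v w : GI) : ip v w = ip w v := by
  unfold ip; ring

theorem adj_inj_right {m : ℕ} {v v' w : GI} (h : (v, w) ∈ adj m) (h' : (v', w) ∈ adj m) : v = v' := by
  have hh := mem_adj.1 h
  have hh' := mem_adj.1 h'
  have hip := adj_ip h
  have hip' := adj_ip h'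
  have e := Far_basis hh.2.1 (v' - v)
  rw [Far_sub_dt, hh.2.1, hh'.2.1, sub_self, Int.cast_zero, zero_mul, zero_add] at e
  set j := dt v (v' - v) with hj
  rcases lt_trichotomy j 0 with h0 | h0 | h0
  · have h1 : v = v' + ((-j : ℤ) : GI) * w := by
      push_cast
      linear_combination (-1 : GI) * e
    have := Far_shift (m := m) (v := w) (w := v') (by omega : 1 ≤ -j)
      (by rw [Far_ip_comm]; exact hip') (by rw [add_comm]; exact hh'.2.2)
    rw [← h1] at this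
    have := hh.1.1
    omega
  · rw [h0, Int.cast_zero, zero_mul, sub_eq_zero] at e
    exact e.symm
  · have h1 : v' = v + (j : GI) * w := by
      linear_combination e
    have := Far_shift (m := m) (v := w) (w := v) (by omega : 1 ≤ j)
      (by rw [Far_ip_comm]; exact hip) (by rw [add_comm]; exact hh.2.2)
    rw [← h1] at this
    have := hh'.1.1
    omega

theorem Far_bezout {v : GI} (hv : Pr v) : ∃ w : GI, dt v w = 1 := by
  unfold Pr at hv
  have h := Int.gcd_eq_gcd_ab v.re v.im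
  rw [hv] at h
  refine ⟨⟨-Int.gcdB v.re v.im, Int.gcdA v.re v.im⟩, ?_⟩
  unfold dt
  simp only []
  push_cast at h
  linarith

theorem Far_dt_add (j : ℤ) (v w : GI) : dt v (w + (j : GI) * v) = dt v w := by
  unfold dt
  simp only [Zsqrtd.re_add, Zsqrtd.im_add, Zsqrtd.re_mul, Zsqrtd.im_mul, Zsqrtd.re_intCast,
    Zsqrtd.im_intCast]
  ring

theorem Far_ip_add (j : ℤ) (v w : GI) : ip v (w + (j : GI) * v) = ip v w + j * nm v := by
  rw [nm_int]
  unfold ip
  simp only [Zsqrtd.re_add, Zsqrtd.im_add, Zsqrtd.re_mul, Zsqrtd.im_mul, Zsqrtd.re_intCast,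
    Zsqrtd.im_intCast]
  ring

/-- a complement of norm `≤ m` -/
theorem Far_base {m : ℕ} {v : GI} (hv : Pr v) (hm : nm v ≤ m) : ∃ w : GI, dt v w = 1 ∧ nm w ≤ m := by
  obtain ⟨w0, hw0⟩ := Far_bezout hv
  have hv1 : 1 ≤ nm v := nm_pos (Pr_ne hv)
  -- reduce the inner product mod `N(v)` to the interval `[-N/2, N/2]`
  set n : ℤ := (nm v : ℤ) with hn
  have hn1 : 1 ≤ n := by rw [hn]; exact_mod_cast hv1
  set j : ℤ := -((2 * ip v w0 + n) / (2 * n)) with hj
  refine ⟨w0 + (j : GI) * v, by rw [Far_dt_add]; exact hw0, ?_⟩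
  have h1 := Far_ip_add j v w0
  set w := w0 + (j : GI) * v with hw
  have h2 : 2 * |ip v w| ≤ n := by
    have h3 := Int.emod_add_mul_ediv (2 * ip v w0 + n) (2 * n)
    have h4 := Int.emod_nonneg (2 * ip v w0 + n) (by omega : (2 * n) ≠ 0)
    have h5 := Int.emod_lt_of_pos (2 * ip v w0 + n) (by omega : 0 < 2 * n)
    have h6 : 2 * ip v w = (2 * ip v w0 + n) % (2 * n) - n := by
      rw [h1, ← hn]
      have : (2 * n) * ((2 * ip v w0 + n) / (2 * n)) = -(2 * n) * j := by rw [hj]; ring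
      linarith
    have h7 : |2 * ip v w| ≤ n := by
      rw [abs_le]; constructor <;> omega
    rwa [abs_mul, abs_two] at h7
  have h3 := ip_sq_add v w
  have h4 : dt v w = 1 := by rw [hw, Far_dt_add]; exact hw0
  rw [h4] at h3
  rw [← hn] at h3
  have hmn : n ≤ m := by rw [hn]; exact_mod_cast hm
  have h5 : (nm w : ℤ) ≤ m := by
    have h6 : 4 * ip v w ^ 2 ≤ n ^ 2 := by
      have := abs_nonneg (ip v w)
      nlinarith [sq_abs (ip v w)]
    have h7 : 4 * (n * nm w) ≤ n ^ 2 + 4 := by linarith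
    by_contra hcon
    push Not at hcon
    have h8 : n + 1 ≤ nm w := by omega
    have h9 : n * (n + 1) ≤ n * nm w := mul_le_mul_of_nonneg_left h8 (by omega)
    have h10 : 4 * (n * (n + 1)) ≤ n ^ 2 + 4 := by linarith
    nlinarith
  exact_mod_cast h5

theorem adj_ex {m : ℕ} {v : GI} (hv : Pr v) (hm : nm v ≤ m) : ∃ w : GI, (v, w) ∈ adj m := by
  classical
  obtain ⟨w1, hw1, hw2⟩ := Far_base hv hm
  have hv1 : 1 ≤ nm v := nm_pos (Pr_ne hv)
  have hex : ∃ k : ℕ, m < nm (w1 + (k : GI) * v) := by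
    refine ⟨2 * (m + 1), ?_⟩
    have h1 := Far_par (w1 + ((2 * (m + 1) : ℕ) : GI) * v) (-w1)
    have e : w1 + ((2 * (m + 1) : ℕ) : GI) * v + -w1 = ((2 * (m + 1) : ℕ) : GI) * v := by ring
    rw [e, Far_nm_nat, nm_neg] at h1
    by_contra hcon
    push Not at hcon
    nlinarith
  obtain ⟨hk1, hk2⟩ : m < nm (w1 + (Nat.find hex : GI) * v) ∧
      ∀ k < Nat.find hex, ¬ m < nm (w1 + (k : GI) * v) :=
    ⟨Nat.find_spec hex, fun k hk => Nat.find_min hex hk⟩
  set k := Nat.find hex with hk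
  have hk0 : k ≠ 0 := by
    intro h0
    rw [h0, Nat.cast_zero, zero_mul, add_zero] at hk1
    omega
  refine ⟨w1 + ((k - 1 : ℕ) : GI) * v, ?_⟩
  rw [mem_adj]
  have h3 := hk2 (k - 1) (by omega)
  push Not at h3
  refine ⟨⟨hm, h3⟩, ?_, ?_⟩
  · have := Far_dt_add ((k - 1 : ℕ) : ℤ) v w1
    rw [Int.cast_natCast] at this
    rw [this]; exact hw1
  · have e : v + (w1 + ((k - 1 : ℕ) : GI) * v) = w1 + (k : GI) * v := by
      have hc : ((k - 1 : ℕ) : GI) + 1 = (k : GI) := by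
        have : k - 1 + 1 = k := by omega
        exact_mod_cast congrArg (fun n : ℕ => (n : GI)) this
      rw [← hc]
      ring
    rw [e]
    exact hk1

/-- the square `[-M, M]²` -/
noncomputable def Far_sq (M : ℕ) : Finset (ℤ × ℤ) := (Icc (-(M : ℤ)) (M : ℤ)) ×ˢ (Icc (-(M : ℤ)) (M : ℤ))

theorem Far_bal_sub {m : ℕ} {z : GI} (hz : z ∈ bal (m : ℝ)) :
    (z.re, z.im) ∈ Far_sq (Nat.sqrt m) := by
  rw [mem_bal, Nat.cast_le] at hz
  have h1 := nm_int z
  have h2 : (nm z : ℤ) ≤ m := by exact_mod_cast hz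
  unfold Far_sq
  rw [mem_product, mem_Icc, mem_Icc]
  have key : ∀ x : ℤ, x ^ 2 ≤ m → -(Nat.sqrt m : ℤ) ≤ x ∧ x ≤ Nat.sqrt m := by
    intro x hx
    have h3 : x.natAbs ≤ Nat.sqrt m := by
      rw [Nat.le_sqrt']
      have h4 : ((x.natAbs : ℤ)) ^ 2 ≤ m := by rw [Int.natAbs_sq]; exact hx
      exact_mod_cast h4
    omega
  exact ⟨key _ (by nlinarith [sq_nonneg z.im]), key _ (by nlinarith [sq_nonneg z.re])⟩

theorem Far_sum_sq_le (m : ℕ) (f : ℤ × ℤ → ℝ) (hf : ∀ x, 0 ≤ f x) :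
    ∑ z ∈ bal (m : ℝ), f (z.re, z.im) ≤ ∑ x ∈ Far_sq (Nat.sqrt m), f x := by
  classical
  have hinj : Set.InjOn (fun z : GI => (z.re, z.im)) (bal (m : ℝ)) := by
    intro z _ w _ h
    simp only [Prod.mk.injEq] at h
    ext
    · exact h.1
    · exact h.2
  rw [← sum_image (f := f) (g := fun z : GI => (z.re, z.im)) hinj]
  apply sum_le_sum_of_subset_of_nonneg
  · intro x hx
    rw [mem_image] at hx
    obtain ⟨z, hz, rfl⟩ := hx
    exact Far_bal_sub hz
  · intro x _ _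
    exact hf x

theorem Far_sqrt_le (m : ℕ) : (Nat.sqrt m : ℝ) ≤ √(m : ℝ) := by
  apply Real.le_sqrt_of_sq_le
  have := Nat.sqrt_le' m
  exact_mod_cast this

theorem Far_one_le_sqrt {m : ℕ} (hm : 1 ≤ m) : 1 ≤ Nat.sqrt m := by
  rw [Nat.le_sqrt']; simpa using hm

theorem Far_card_bal {m : ℕ} (hm : 1 ≤ m) : ((bal (m : ℝ)).card : ℝ) ≤ 9 * m := by
  have h1 := Far_sum_sq_le m (fun _ => 1) (fun _ => zero_le_one)
  simp only [sum_const, nsmul_eq_mul, mul_one] at h1
  have h2 : ((Far_sq (Nat.sqrt m)).card : ℝ) = (2 * Nat.sqrt m + 1) ^ 2 := by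
    unfold Far_sq
    rw [card_product, Int.card_Icc]
    have : ((Nat.sqrt m : ℤ) + 1 - -(Nat.sqrt m : ℤ)).toNat = 2 * Nat.sqrt m + 1 := by omega
    rw [this]
    push_cast
    ring
  rw [h2] at h1
  have h3 : (1 : ℝ) ≤ Nat.sqrt m := by exact_mod_cast Far_one_le_sqrt hm
  have h4 : ((Nat.sqrt m : ℝ)) ^ 2 ≤ m := by exact_mod_cast Nat.sqrt_le' m
  nlinarith

theorem adj_card : ∃ c C : ℝ, 0 < c ∧ 0 < C ∧ ∀ m : ℕ, 1 ≤ m →
    c * m ≤ ((adj m).card : ℝ) ∧ ((adj m).card : ℝ) ≤ C * m := by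
  classical
  obtain ⟨c, Y0, hc, hY0, hcard⟩ := card_pan
  refine ⟨min (c / 2) (1 / (2 * Y0)), 9, by positivity, by norm_num, fun m hm => ⟨?_, ?_⟩⟩
  · have hm' : (1 : ℝ) ≤ m := by exact_mod_cast hm
    -- a set of primitive vectors injects into `adj m`
    have hinj : ∀ s : Finset GI, (∀ z ∈ s, Pr z ∧ nm z ≤ m) → s.card ≤ (adj m).card := by
      intro s hs
      have hsub : s ⊆ (adj m).image Prod.fst := by
        intro z hz
        obtain ⟨w, hw⟩ := adj_ex (hs z hz).1 (hs z hz).2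
        exact mem_image.2 ⟨(z, w), hw, rfl⟩
      exact le_trans (card_le_card hsub) card_image_le
    rcases le_or_gt (2 * Y0) m with h | h
    · have h1 := hcard ((m : ℝ) / 2) (by linarith) (⟨1, 2⟩ : GI) ⟨by norm_num, by norm_num⟩
        (by decide) (m : ℝ) (by linarith) (by linarith)
      have h2 : (((pan ((m : ℝ) / 2) (m : ℝ)).filter (fun z => ¬ (⟨1, 2⟩ : GI) ∣ z)).card : ℝ) ≤
          (adj m).card := by
        exact_mod_cast hinj _ (fun z hz => by
          rw [mem_filter, mem_pan] at hz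
          refine ⟨hz.1.2.1, ?_⟩
          have := hz.1.2.2.2
          exact_mod_cast this)
      calc min (c / 2) (1 / (2 * Y0)) * m ≤ c / 2 * m :=
            mul_le_mul_of_nonneg_right (min_le_left _ _) (by positivity)
        _ = c * ((m : ℝ) / 2) := by ring
        _ ≤ _ := le_trans (by convert h1) h2
    · have h1 : 1 ≤ (adj m).card := by
        have := hinj {(1 : GI)} (by
          intro z hz
          rw [mem_singleton] at hz
          subst hz
          refine ⟨?_, by rw [nm_one]; exact hm⟩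
          unfold Pr
          simp)
        simpa using this
      calc min (c / 2) (1 / (2 * Y0)) * m ≤ 1 / (2 * Y0) * m :=
            mul_le_mul_of_nonneg_right (min_le_right _ _) (by positivity)
        _ ≤ 1 := by
            rw [div_mul_eq_mul_div, one_mul, div_le_one (by positivity)]
            exact h.le
        _ ≤ _ := by exact_mod_cast h1
  · have hsub : (adj m).image Prod.fst ⊆ bal (m : ℝ) := by
      intro z hz
      rw [mem_image] at hz
      obtain ⟨⟨v, w⟩, hvw, rfl⟩ := hz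
      rw [mem_bal]
      exact_mod_cast (mem_adj.1 hvw).1.1
    have hcd : ((adj m).image Prod.fst).card = (adj m).card := by
      apply card_image_of_injOn
      rintro ⟨v, w⟩ h ⟨v', w'⟩ h' e
      simp only at e
      subst e
      rw [adj_inj_left h h']
    calc ((adj m).card : ℝ) = (((adj m).image Prod.fst).card : ℝ) := by rw [hcd]
      _ ≤ ((bal (m : ℝ)).card : ℝ) := by exact_mod_cast card_le_card hsub
      _ ≤ 9 * m := Far_card_bal hm

/-- majorant of `1 / |z|` -/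
noncomputable def Far_g (x y : ℤ) : ℝ := if |y| ≤ |x| then 1 / (|x| : ℝ) else 0

theorem Far_g_nonneg (x y : ℤ) : 0 ≤ Far_g x y := by
  unfold Far_g
  split_ifs <;> positivity

theorem Far_g_sum (M : ℕ) (x : ℤ) : ∑ y ∈ Icc (-(M : ℤ)) (M : ℤ), Far_g x y ≤ 3 := by
  classical
  unfold Far_g
  rw [← sum_filter, sum_const, nsmul_eq_mul]
  rcases eq_or_ne x 0 with h | h
  · subst h; simp
  · have h1 : 1 ≤ |x| := Int.one_le_abs h
    have hsub : (Icc (-(M : ℤ)) (M : ℤ)).filter (fun y => |y| ≤ |x|) ⊆ Icc (-|x|) (|x|) := by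
      intro y hy
      rw [mem_filter] at hy
      rw [mem_Icc]
      exact abs_le.1 hy.2
    have h2 : (((Icc (-(M : ℤ)) (M : ℤ)).filter (fun y => |y| ≤ |x|)).card : ℝ) ≤
        2 * (|x| : ℝ) + 1 := by
      have h3 := card_le_card hsub
      rw [Int.card_Icc] at h3
      have h4 : (|x| + 1 - -|x|).toNat = 2 * x.natAbs + 1 := by
        rw [Int.abs_eq_natAbs]; omega
      rw [h4] at h3
      have h5 : (|x| : ℝ) = (x.natAbs : ℝ) := by
        rw [← Int.cast_abs, Nat.cast_natAbs]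
      rw [h5]
      exact_mod_cast h3
    have h6 : (1 : ℝ) ≤ |(x : ℝ)| := by
      rw [← Int.cast_abs]; exact_mod_cast h1
    calc _ ≤ (2 * (|x| : ℝ) + 1) * (1 / (|x| : ℝ)) :=
          mul_le_mul_of_nonneg_right h2 (by positivity)
      _ ≤ 3 := by
          rw [mul_one_div, div_le_iff₀ (by linarith)]
          linarith

theorem Far_inv_le (z : GI) : 1 / √(nm z : ℝ) ≤ Far_g z.re z.im + Far_g z.im z.re := by
  rcases eq_or_ne z 0 with h | h
  · subst h
    have : nm (0 : GI) = 0 := nm_eq_zero.2 rfl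
    rw [this]
    simp only [Nat.cast_zero, Real.sqrt_zero, div_zero]
    exact add_nonneg (Far_g_nonneg _ _) (Far_g_nonneg _ _)
  · have key : ∀ x y : ℤ, |y| ≤ |x| → x ≠ 0 → (nm z : ℝ) = (x : ℝ) ^ 2 + (y : ℝ) ^ 2 →
        1 / √(nm z : ℝ) ≤ Far_g x y := by
      intro x y hxy hx hn
      unfold Far_g
      rw [if_pos hxy]
      have h1 : (0 : ℝ) < |(x : ℝ)| := abs_pos.2 (by exact_mod_cast hx)
      apply one_div_le_one_div_of_le h1
      apply Real.le_sqrt_of_sq_le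
      rw [sq_abs, hn]
      nlinarith [sq_nonneg (y : ℝ)]
    rcases le_total |z.im| |z.re| with h1 | h1
    · have hx : z.re ≠ 0 := by
        intro h0
        rw [h0, abs_zero] at h1
        have h2 : z.im = 0 := abs_eq_zero.1 (le_antisymm h1 (abs_nonneg _))
        exact h (by ext <;> simp [h0, h2])
      have := key z.re z.im h1 hx (nm_real z)
      linarith [Far_g_nonneg z.im z.re]
    · have hx : z.im ≠ 0 := by
        intro h0
        rw [h0, abs_zero] at h1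
        have h2 : z.re = 0 := abs_eq_zero.1 (le_antisymm h1 (abs_nonneg _))
        exact h (by ext <;> simp [h0, h2])
      have := key z.im z.re h1 hx (by rw [nm_real z]; ring)
      linarith [Far_g_nonneg z.re z.im]

theorem Far_sum_inv {m : ℕ} (hm : 1 ≤ m) : ∑ z ∈ bal (m : ℝ), 1 / √(nm z : ℝ) ≤ 18 * √(m : ℝ) := by
  have h1 : ∑ z ∈ bal (m : ℝ), 1 / √(nm z : ℝ) ≤
      ∑ x ∈ Far_sq (Nat.sqrt m), (Far_g x.1 x.2 + Far_g x.2 x.1) := by
    refine le_trans (sum_le_sum fun z _ => Far_inv_le z) ?_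
    exact Far_sum_sq_le m (fun x => Far_g x.1 x.2 + Far_g x.2 x.1)
      (fun x => add_nonneg (Far_g_nonneg _ _) (Far_g_nonneg _ _))
  have h2 : ∑ x ∈ Far_sq (Nat.sqrt m), (Far_g x.1 x.2 + Far_g x.2 x.1) ≤
      2 * (3 * (2 * Nat.sqrt m + 1)) := by
    have hc : ((Icc (-(Nat.sqrt m : ℤ)) (Nat.sqrt m : ℤ)).card : ℝ) = 2 * Nat.sqrt m + 1 := by
      rw [Int.card_Icc]
      have : ((Nat.sqrt m : ℤ) + 1 - -(Nat.sqrt m : ℤ)).toNat = 2 * Nat.sqrt m + 1 := by omega
      rw [this]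
      push_cast
      ring
    rw [sum_add_distrib]
    have e1 : ∑ x ∈ Far_sq (Nat.sqrt m), Far_g x.1 x.2 ≤ 3 * (2 * Nat.sqrt m + 1) := by
      unfold Far_sq
      rw [sum_product]
      calc _ ≤ ∑ _x ∈ Icc (-(Nat.sqrt m : ℤ)) (Nat.sqrt m : ℤ), (3 : ℝ) :=
            sum_le_sum fun x _ => Far_g_sum _ x
        _ = 3 * (2 * Nat.sqrt m + 1) := by
            rw [sum_const, nsmul_eq_mul, hc]; ring
    have e2 : ∑ x ∈ Far_sq (Nat.sqrt m), Far_g x.2 x.1 ≤ 3 * (2 * Nat.sqrt m + 1) := by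
      unfold Far_sq
      rw [sum_product_right]
      calc _ ≤ ∑ _x ∈ Icc (-(Nat.sqrt m : ℤ)) (Nat.sqrt m : ℤ), (3 : ℝ) :=
            sum_le_sum fun x _ => Far_g_sum _ x
        _ = 3 * (2 * Nat.sqrt m + 1) := by
            rw [sum_const, nsmul_eq_mul, hc]; ring
    linarith
  have h3 : (1 : ℝ) ≤ Nat.sqrt m := by exact_mod_cast Far_one_le_sqrt hm
  have h4 := Far_sqrt_le m
  linarith

theorem adj_sum : ∃ C : ℝ, 0 < C ∧ ∀ m : ℕ, 1 ≤ m →
    ∑ e ∈ adj m, 1 / √((nm e.1 : ℝ) * nm e.2) ≤ C := by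
  classical
  refine ⟨72, by norm_num, fun m hm => ?_⟩
  have hm' : (0 : ℝ) < m := by exact_mod_cast hm
  have hsm : 0 < √(m : ℝ) := Real.sqrt_pos.2 hm'
  have hterm : ∀ e ∈ adj m, 1 / √((nm e.1 : ℝ) * nm e.2) ≤
      2 / √(m : ℝ) * (1 / √(nm e.1 : ℝ) + 1 / √(nm e.2 : ℝ)) := by
    rintro ⟨v, w⟩ h
    have hh := mem_adj.1 h
    have hne := Far_ne hh.2.1
    have hv : (0 : ℝ) < nm v := by exact_mod_cast nm_pos hne.1
    have hw : (0 : ℝ) < nm w := by exact_mod_cast nm_pos hne.2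
    have hp := Far_par v w
    have hmax : (m : ℝ) / 4 ≤ nm v ∨ (m : ℝ) / 4 ≤ nm w := by
      by_contra hcon
      push Not at hcon
      have h1 : (m : ℝ) < nm (v + w) := by exact_mod_cast hh.2.2
      have h2 : (nm (v + w) : ℝ) ≤ 2 * (nm v + nm w) := by exact_mod_cast hp
      linarith [hcon.1, hcon.2]
    have hs : √((m : ℝ) / 4) = √(m : ℝ) / 2 := by
      rw [Real.sqrt_div' _ (by norm_num), show (4 : ℝ) = 2 ^ 2 by norm_num,
        Real.sqrt_sq (by norm_num)]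
    simp only
    rw [Real.sqrt_mul hv.le]
    have sv : 0 < √(nm v : ℝ) := Real.sqrt_pos.2 hv
    have sw : 0 < √(nm w : ℝ) := Real.sqrt_pos.2 hw
    have key : ∀ a b : ℝ, 0 < a → 0 < b → √(m : ℝ) / 2 ≤ a → 1 / (a * b) ≤ 2 / √(m : ℝ) * (1 / b) := by
      intro a b ha hb hab
      rw [← one_div_mul_one_div]
      apply mul_le_mul_of_nonneg_right _ (by positivity)
      rw [div_le_div_iff₀ ha hsm]
      linarith
    rcases hmax with h1 | h1
    · have h2 := Real.sqrt_le_sqrt h1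
      rw [hs] at h2
      refine le_trans (key _ _ sv sw h2) ?_
      apply mul_le_mul_of_nonneg_left _ (by positivity)
      have : 0 ≤ 1 / √(nm v : ℝ) := by positivity
      linarith
    · have h2 := Real.sqrt_le_sqrt h1
      rw [hs] at h2
      rw [mul_comm]
      refine le_trans (key _ _ sw sv h2) ?_
      apply mul_le_mul_of_nonneg_left _ (by positivity)
      have : 0 ≤ 1 / √(nm w : ℝ) := by positivity
      linarith
  have hfst : ∑ e ∈ adj m, 1 / √(nm e.1 : ℝ) ≤ 18 * √(m : ℝ) := by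
    have hinj : Set.InjOn (Prod.fst : GI × GI → GI) (adj m) := by
      rintro ⟨v, w⟩ h ⟨v', w'⟩ h' e
      simp only at e
      subst e
      rw [adj_inj_left h h']
    rw [← sum_image (f := fun z : GI => 1 / √(nm z : ℝ)) (g := Prod.fst) hinj]
    refine le_trans (sum_le_sum_of_subset_of_nonneg ?_ (fun _ _ _ => by positivity))
      (Far_sum_inv hm)
    intro z hz
    rw [mem_image] at hz
    obtain ⟨⟨v, w⟩, hvw, rfl⟩ := hz
    rw [mem_bal]
    exact_mod_cast (mem_adj.1 hvw).1.1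
  have hsnd : ∑ e ∈ adj m, 1 / √(nm e.2 : ℝ) ≤ 18 * √(m : ℝ) := by
    have hinj : Set.InjOn (Prod.snd : GI × GI → GI) (adj m) := by
      rintro ⟨v, w⟩ h ⟨v', w'⟩ h' e
      simp only at e
      subst e
      rw [adj_inj_right h h']
    rw [← sum_image (f := fun z : GI => 1 / √(nm z : ℝ)) (g := Prod.snd) hinj]
    refine le_trans (sum_le_sum_of_subset_of_nonneg ?_ (fun _ _ _ => by positivity))
      (Far_sum_inv hm)
    intro z hz
    rw [mem_image] at hz
    obtain ⟨⟨v, w⟩, hvw, rfl⟩ := hz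
    rw [mem_bal]
    exact_mod_cast (mem_adj.1 hvw).1.2
  calc ∑ e ∈ adj m, 1 / √((nm e.1 : ℝ) * nm e.2)
      ≤ ∑ e ∈ adj m, 2 / √(m : ℝ) * (1 / √(nm e.1 : ℝ) + 1 / √(nm e.2 : ℝ)) := sum_le_sum hterm
    _ = 2 / √(m : ℝ) * (∑ e ∈ adj m, 1 / √(nm e.1 : ℝ) + ∑ e ∈ adj m, 1 / √(nm e.2 : ℝ)) := by
        rw [← mul_sum, sum_add_distrib]
    _ ≤ 2 / √(m : ℝ) * (18 * √(m : ℝ) + 18 * √(m : ℝ)) :=
        mul_le_mul_of_nonneg_left (add_le_add hfst hsnd) (by positivity)
    _ = 72 := by field_simp; ring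

/-- no primitive vector of norm `≤ m` strictly between `v` and `w` -/
theorem adj_between {m : ℕ} {v w z : GI} (h : (v, w) ∈ adj m) (hz : nm z ≤ m) :
    ¬ (0 < dt v z ∧ 0 < dt z w) := by
  rintro ⟨h1, h2⟩
  have hh := mem_adj.1 h
  have hip := adj_ip h
  have e := Far_basis hh.2.1 z
  set α := dt z w with hα
  set β := dt v z with hβ
  have e1 : (nm z : ℤ) = α ^ 2 * nm v + β ^ 2 * nm w + 2 * α * β * ip v w := by
    rw [e, nm_int, nm_int, nm_int]
    unfold ip
    simp only [Zsqrtd.re_add, Zsqrtd.im_add, Zsqrtd.re_mul, Zsqrtd.im_mul, Zsqrtd.re_intCast,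
      Zsqrtd.im_intCast]
    ring
  have e2 := Far_nm_add v w
  have h3 : (m : ℤ) < nm (v + w) := by exact_mod_cast hh.2.2
  have h4 : (nm z : ℤ) ≤ m := by exact_mod_cast hz
  have hv : (0 : ℤ) ≤ nm v := by positivity
  have hw : (0 : ℤ) ≤ nm w := by positivity
  have a1 : (nm v : ℤ) ≤ α ^ 2 * nm v := by
    have : 1 ≤ α ^ 2 := by nlinarith
    nlinarith
  have a2 : (nm w : ℤ) ≤ β ^ 2 * nm w := by
    have : 1 ≤ β ^ 2 := by nlinarith
    nlinarith
  have a3 : ip v w ≤ α * β * ip v w := by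
    have : 1 ≤ α * β := by nlinarith
    nlinarith
  nlinarith

end Pool.Agent.FCH
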