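import Pool.Agent.FCH.Ker
import Pool.Agent.FCH.Pack

set_option autoImplicit false

/-! Module Fej: approximation of a function of the angle, supported on an arc of length `≍ P/m`, by an angular polynomial of
degree `≤ K = ⌊m/(ηP)⌋`.  Proof with the Jackson kernel `ff n ^ 2 / N`, `n = K / 4`, and the `M`-th roots of unity,
`M = m + 2 n + 1`: with `G(v) = g((m/P) Im v)` for `Re v > 0` and `0` else,
`J(v) = (1/(N M)) ∑_j G(ω^j) ff n (v ω^{-j})^2`; `|G - J| ≤ 5 Λ/(n+1)` (`Λ = L m / P` the Lipschitz constant), because the second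
moment of `|1 - u|` is `≤ 8/(n+1)^2`; the far pairs are bounded by `4/|1-u|^2 / N`. -/

open Finset

namespace Pool.Agent.FCH

open Pool.Agent.MRS hiding Good

theorem norm_ez {z : GI} (hz : z ≠ 0) : ‖ez z‖ = 1 := by
  unfold ez
  have h : GaussianInt.toComplex z ≠ 0 := by
    rwa [Ne, GaussianInt.toComplex_eq_zero]
  rw [norm_div, Complex.norm_real, norm_norm, div_self (norm_ne_zero_iff.mpr h)]

theorem ez_mul (z w : GI) : ez (z * w) = ez z * ez w := by
  unfold ez
  rw [map_mul, norm_mul, Complex.ofReal_mul, mul_div_mul_comm]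

theorem ez_sq (z : GI) : ez z ^ 2 = uu z := by
  unfold ez uu
  rw [div_pow, ← Complex.ofReal_pow, BAS_norm_sq]
  simp

theorem Fej_norm (z : GI) : ‖GaussianInt.toComplex z‖ = √(nm z : ℝ) := by
  rw [← BAS_norm_sq, Real.sqrt_sq (norm_nonneg _)]

theorem ez_conj_mul {z w : GI} (hz : z ≠ 0) (hw : w ≠ 0) :
    (starRingEnd ℂ) (ez z) * ez w = ((ip z w : ℝ) + (dt z w : ℝ) * Complex.I) /
      ((√((nm z : ℝ) * nm w) : ℝ) : ℂ) := by
  unfold ez
  rw [map_div₀, Complex.conj_ofReal, div_mul_div_comm, Fej_norm, Fej_norm, ← Complex.ofReal_mul,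
    ← Real.sqrt_mul (Nat.cast_nonneg _)]
  congr 1
  rw [GaussianInt.toComplex_def, GaussianInt.toComplex_def]
  unfold ip dt
  apply Complex.ext
  · simp
  · simp
    ring

/-- `M`-th root of unity -/
noncomputable def Fej_om (M : ℕ) : ℂ := Complex.exp (2 * Real.pi * Complex.I / M)

theorem Fej_om_prim {M : ℕ} (hM : 0 < M) : IsPrimitiveRoot (Fej_om M) M :=
  Complex.isPrimitiveRoot_exp M hM.ne'

theorem Fej_om_norm (M : ℕ) : ‖Fej_om M‖ = 1 := by
  unfold Fej_om
  have : (2 * Real.pi * Complex.I / M : ℂ) = ((2 * Real.pi / M : ℝ) : ℂ) * Complex.I := by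
    push_cast; ring
  rw [this, Complex.norm_exp_ofReal_mul_I]

theorem Fej_om_ne (M : ℕ) : Fej_om M ≠ 0 := by
  intro h
  have := Fej_om_norm M
  rw [h, norm_zero] at this
  exact zero_ne_one this

theorem Fej_orth {M : ℕ} (hM : 0 < M) {k : ℤ} (hk : |k| < M) :
    ∑ j ∈ range M, (Fej_om M ^ (-(j : ℤ))) ^ k = if k = 0 then (M : ℂ) else 0 := by
  split_ifs with h0
  · subst h0
    simp
  · have e : ∀ j ∈ range M, (Fej_om M ^ (-(j : ℤ))) ^ k = (Fej_om M ^ (-k)) ^ j := by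
      intro j _
      rw [← zpow_mul, ← zpow_natCast, ← zpow_mul]
      congr 1
      ring
    rw [Finset.sum_congr rfl e]
    have h1 : Fej_om M ^ (-k) ≠ 1 := by
      intro h
      rw [(Fej_om_prim hM).zpow_eq_one_iff_dvd] at h
      have h2 : (M : ℤ) ∣ k := by rwa [dvd_neg] at h
      have h3 := Int.eq_zero_of_abs_lt_dvd h2 hk
      exact h0 h3
    rw [geom_sum_eq h1]
    have h2 : (Fej_om M ^ (-k)) ^ M = 1 := by
      rw [← zpow_natCast, ← zpow_mul, mul_comm, zpow_mul, zpow_natCast, (Fej_om_prim hM).pow_eq_one,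
        one_zpow]
    rw [h2, sub_self, zero_div]

theorem Fej_u_norm {v : ℂ} (hv : ‖v‖ = 1) (M : ℕ) (j : ℕ) : ‖v * Fej_om M ^ (-(j : ℤ))‖ = 1 := by
  rw [norm_mul, norm_zpow, Fej_om_norm, one_zpow, hv, one_mul]

theorem Fej_sum1 {M n : ℕ} (hM : 2 * n < M) {v : ℂ} (hv : ‖v‖ = 1) :
    ∑ j ∈ range M, ff n (v * Fej_om M ^ (-(j : ℤ))) = M := by
  have hM0 : 0 < M := by omega
  have e : ((∑ j ∈ range M, ff n (v * Fej_om M ^ (-(j : ℤ))) : ℝ) : ℂ) = (M : ℂ) := by
    rw [Complex.ofReal_sum]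
    have e1 : ∀ j ∈ range M, ((ff n (v * Fej_om M ^ (-(j : ℤ))) : ℝ) : ℂ) =
        ∑ k ∈ Icc (-(n : ℤ)) (n : ℤ), (fw n k : ℂ) * v ^ k * (Fej_om M ^ (-(j : ℤ))) ^ k := by
      intro j _
      rw [← sum_fw (Fej_u_norm hv M j)]
      apply Finset.sum_congr rfl
      intro k _
      rw [mul_zpow]
      ring
    rw [Finset.sum_congr rfl e1, Finset.sum_comm]
    have e2 : ∀ k ∈ Icc (-(n : ℤ)) (n : ℤ),
        ∑ j ∈ range M, (fw n k : ℂ) * v ^ k * (Fej_om M ^ (-(j : ℤ))) ^ k =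
        if k = 0 then (M : ℂ) else 0 := by
      intro k hk
      rw [Finset.mem_Icc] at hk
      rw [← Finset.mul_sum, Fej_orth hM0 (by rw [abs_lt]; omega)]
      split_ifs with h0
      · subst h0
        simp [fw_zero]
      · simp
    rw [Finset.sum_congr rfl e2, Finset.sum_ite_eq']
    rw [if_pos]
    rw [Finset.mem_Icc]
    omega
  exact_mod_cast e

/-- normalisation of the Jackson kernel -/
noncomputable def Fej_N (n : ℕ) : ℝ := ∑ k ∈ Icc (-(n : ℤ)) (n : ℤ), fw n k ^ 2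

theorem Fej_sum_fw (n : ℕ) : ∑ k ∈ Icc (-(n : ℤ)) (n : ℤ), fw n k = (n : ℝ) + 1 := by
  have h := sum_fw (K := n) (w := 1) norm_one
  have h2 : ff n 1 = (n : ℝ) + 1 := by
    unfold ff
    have h3 : ‖∑ j ∈ range (n + 1), (1 : ℂ) ^ j‖ = (n : ℝ) + 1 := by
      simp only [one_pow, Finset.sum_const, card_range, nsmul_eq_mul, mul_one]
      rw [Complex.norm_natCast]
      push_cast
      ring
    rw [h3]
    have : (n : ℝ) + 1 ≠ 0 := by positivity
    field_simp
  rw [h2] at h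
  simp only [one_zpow, mul_one] at h
  exact_mod_cast h

theorem Fej_N_ge (n : ℕ) : ((n : ℝ) + 1) / 2 ≤ Fej_N n := by
  have h := sq_sum_le_card_mul_sum_sq (s := Icc (-(n : ℤ)) (n : ℤ)) (f := fw n)
  rw [Fej_sum_fw] at h
  have hc : ((Icc (-(n : ℤ)) (n : ℤ)).card : ℝ) = 2 * n + 1 := by
    rw [Int.card_Icc]
    have : ((n : ℤ) + 1 - -(n : ℤ)).toNat = 2 * n + 1 := by omega
    rw [this]
    push_cast
    ring
  rw [hc] at h
  unfold Fej_N
  have hn : (0 : ℝ) ≤ n := Nat.cast_nonneg n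
  set N := ∑ k ∈ Icc (-(n : ℤ)) (n : ℤ), fw n k ^ 2 with hN
  have hN0 : 0 ≤ N := Finset.sum_nonneg (fun k _ => sq_nonneg _)
  nlinarith

theorem Fej_N_pos (n : ℕ) : 0 < Fej_N n := by
  have := Fej_N_ge n
  have hn : (0 : ℝ) ≤ n := Nat.cast_nonneg n
  linarith

theorem Fej_fw_neg (n : ℕ) (k : ℤ) : fw n (-k) = fw n k := by
  unfold fw
  push_cast
  rw [abs_neg]

theorem Fej_ff_sq {n : ℕ} {u : ℂ} (hu : ‖u‖ = 1) :
    ((ff n u ^ 2 : ℝ) : ℂ) = ∑ k ∈ Icc (-(n : ℤ)) (n : ℤ), ∑ l ∈ Icc (-(n : ℤ)) (n : ℤ),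
      ((fw n k * fw n l : ℝ) : ℂ) * u ^ (k + l) := by
  have hu0 : u ≠ 0 := by
    intro h
    rw [h, norm_zero] at hu
    exact zero_ne_one hu
  rw [Complex.ofReal_pow, ← sum_fw hu, sq, Finset.sum_mul_sum]
  apply Finset.sum_congr rfl
  intro k _
  apply Finset.sum_congr rfl
  intro l _
  rw [zpow_add₀ hu0]
  push_cast
  ring

theorem Fej_sum2 {M n : ℕ} (hM : 2 * n < M) {v : ℂ} (hv : ‖v‖ = 1) :
    ∑ j ∈ range M, ff n (v * Fej_om M ^ (-(j : ℤ))) ^ 2 = M * Fej_N n := by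
  have hM0 : 0 < M := by omega
  have e : ((∑ j ∈ range M, ff n (v * Fej_om M ^ (-(j : ℤ))) ^ 2 : ℝ) : ℂ) = ((M * Fej_N n : ℝ) : ℂ) := by
    rw [Complex.ofReal_sum]
    have e1 : ∀ j ∈ range M, ((ff n (v * Fej_om M ^ (-(j : ℤ))) ^ 2 : ℝ) : ℂ) =
        ∑ k ∈ Icc (-(n : ℤ)) (n : ℤ), ∑ l ∈ Icc (-(n : ℤ)) (n : ℤ),
          ((fw n k * fw n l : ℝ) : ℂ) * v ^ (k + l) * (Fej_om M ^ (-(j : ℤ))) ^ (k + l) := by
      intro j _
      rw [Fej_ff_sq (Fej_u_norm hv M j)]
      apply Finset.sum_congr rfl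
      intro k _
      apply Finset.sum_congr rfl
      intro l _
      rw [mul_zpow]
      ring
    rw [Finset.sum_congr rfl e1, Finset.sum_comm]
    have e2 : ∀ k ∈ Icc (-(n : ℤ)) (n : ℤ),
        ∑ j ∈ range M, ∑ l ∈ Icc (-(n : ℤ)) (n : ℤ),
          ((fw n k * fw n l : ℝ) : ℂ) * v ^ (k + l) * (Fej_om M ^ (-(j : ℤ))) ^ (k + l) =
        ((M * fw n k ^ 2 : ℝ) : ℂ) := by
      intro k hk
      rw [Finset.mem_Icc] at hk
      rw [Finset.sum_comm]
      have e3 : ∀ l ∈ Icc (-(n : ℤ)) (n : ℤ),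
          ∑ j ∈ range M, ((fw n k * fw n l : ℝ) : ℂ) * v ^ (k + l) * (Fej_om M ^ (-(j : ℤ))) ^ (k + l) =
          if l = -k then ((M * fw n k ^ 2 : ℝ) : ℂ) else 0 := by
        intro l hl
        rw [Finset.mem_Icc] at hl
        rw [← Finset.mul_sum, Fej_orth hM0 (by rw [abs_lt]; omega)]
        by_cases h0 : l = -k
        · rw [if_pos h0, if_pos (by omega)]
          subst h0
          rw [Fej_fw_neg]
          simp
          ring
        · rw [if_neg h0, if_neg (by omega), mul_zero]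
      rw [Finset.sum_congr rfl e3, Finset.sum_ite_eq', if_pos]
      rw [Finset.mem_Icc]
      omega
    rw [Finset.sum_congr rfl e2, ← Complex.ofReal_sum, ← Finset.mul_sum]
    rfl
  exact_mod_cast e

theorem Fej_ff_mul {n : ℕ} {u : ℂ} (hu : ‖u‖ = 1) : ff n u * ‖1 - u‖ ^ 2 ≤ 4 / ((n : ℝ) + 1) := by
  have hn : (0 : ℝ) < n + 1 := by positivity
  by_cases h : u = 1
  · subst h
    simp
    positivity
  · have h1 := ff_le_sq (K := n) hu h
    have h2 : 0 < ‖1 - u‖ := by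
      rw [norm_pos_iff, sub_ne_zero]
      exact fun h' => h h'.symm
    rw [le_div_iff₀ (by positivity)] at h1
    rw [le_div_iff₀ hn]
    nlinarith

/-- Jackson mean of `H` -/
noncomputable def Fej_J (H : ℂ → ℝ) (n M : ℕ) (v : ℂ) : ℝ :=
  (1 / (M * Fej_N n)) * ∑ j ∈ range M, H (Fej_om M ^ j) * ff n (v * Fej_om M ^ (-(j : ℤ))) ^ 2

theorem Fej_dist {v : ℂ} (M j : ℕ) : ‖v - Fej_om M ^ j‖ = ‖1 - v * Fej_om M ^ (-(j : ℤ))‖ := by
  have h1 : Fej_om M ^ j ≠ 0 := pow_ne_zero _ (Fej_om_ne M)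
  have h2 : v - Fej_om M ^ j = -((1 - v * Fej_om M ^ (-(j : ℤ))) * Fej_om M ^ j) := by
    rw [zpow_neg, zpow_natCast]
    field_simp
    ring
  rw [h2, norm_neg, norm_mul, norm_pow, Fej_om_norm, one_pow, mul_one]

theorem Fej_smooth {M n : ℕ} (hM : 2 * n < M) {H : ℂ → ℝ} {Λ : ℝ} (hΛ : 0 ≤ Λ)
    (hH : ∀ v v' : ℂ, ‖v‖ = 1 → ‖v'‖ = 1 → |H v - H v'| ≤ Λ * ‖v - v'‖) {v : ℂ} (hv : ‖v‖ = 1) :
    |H v - Fej_J H n M v| ≤ 5 * Λ / ((n : ℝ) + 1) := by
  have hM0 : (0 : ℝ) < M := by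
    have : 0 < M := by omega
    exact_mod_cast this
  have hN := Fej_N_pos n
  have hNg := Fej_N_ge n
  have hn : (0 : ℝ) < (n : ℝ) + 1 := by positivity
  have e1 : H v - Fej_J H n M v = (1 / (M * Fej_N n)) *
      ∑ j ∈ range M, (H v - H (Fej_om M ^ j)) * ff n (v * Fej_om M ^ (-(j : ℤ))) ^ 2 := by
    unfold Fej_J
    have : ∑ j ∈ range M, (H v - H (Fej_om M ^ j)) * ff n (v * Fej_om M ^ (-(j : ℤ))) ^ 2 =
        H v * (M * Fej_N n) -
          ∑ j ∈ range M, H (Fej_om M ^ j) * ff n (v * Fej_om M ^ (-(j : ℤ))) ^ 2 := by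
      rw [← Fej_sum2 hM hv, Finset.mul_sum, ← Finset.sum_sub_distrib]
      apply Finset.sum_congr rfl
      intro j _
      ring
    rw [this]
    field_simp
  have e2 : |∑ j ∈ range M, (H v - H (Fej_om M ^ j)) * ff n (v * Fej_om M ^ (-(j : ℤ))) ^ 2| ≤
      ∑ j ∈ range M, Λ * ((((n : ℝ) + 1) / 2) * (4 / ((n : ℝ) + 1)) * ff n (v * Fej_om M ^ (-(j : ℤ)))
        + 1 / (2 * ((n : ℝ) + 1)) * ff n (v * Fej_om M ^ (-(j : ℤ))) ^ 2) := by
    refine (Finset.abs_sum_le_sum_abs _ _).trans (Finset.sum_le_sum ?_)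
    intro j _
    have hj : ‖Fej_om M ^ j‖ = 1 := by rw [norm_pow, Fej_om_norm, one_pow]
    have h1 := hH v (Fej_om M ^ j) hv hj
    rw [Fej_dist] at h1
    set u := v * Fej_om M ^ (-(j : ℤ)) with hu
    have hu1 : ‖u‖ = 1 := Fej_u_norm hv M j
    have hf := ff_nonneg n u
    have h2 := Fej_ff_mul (n := n) hu1
    rw [abs_mul, abs_of_nonneg (sq_nonneg (ff n u))]
    set x := ‖1 - u‖ with hx
    have hx0 : 0 ≤ x := norm_nonneg _
    have h3 : x ≤ (((n : ℝ) + 1) / 2) * x ^ 2 + 1 / (2 * ((n : ℝ) + 1)) := by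
      have h4 : 0 ≤ (((n : ℝ) + 1) * x - 1) ^ 2 := sq_nonneg _
      have h5 : (((n : ℝ) + 1) / 2) * x ^ 2 + 1 / (2 * ((n : ℝ) + 1)) - x =
          (((n : ℝ) + 1) * x - 1) ^ 2 / (2 * ((n : ℝ) + 1)) := by
        field_simp
        ring
      have h6 : 0 ≤ (((n : ℝ) + 1) * x - 1) ^ 2 / (2 * ((n : ℝ) + 1)) := by positivity
      linarith
    calc |H v - H (Fej_om M ^ j)| * ff n u ^ 2 ≤ (Λ * x) * ff n u ^ 2 := by gcongr
      _ ≤ (Λ * ((((n : ℝ) + 1) / 2) * x ^ 2 + 1 / (2 * ((n : ℝ) + 1)))) * ff n u ^ 2 := by gcongr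
      _ = Λ * ((((n : ℝ) + 1) / 2) * (ff n u * x ^ 2) * ff n u + 1 / (2 * ((n : ℝ) + 1)) * ff n u ^ 2) := by
          ring
      _ ≤ _ := by gcongr
  rw [e1, abs_mul, abs_of_pos (by positivity)]
  have e3 : ∑ j ∈ range M, Λ * ((((n : ℝ) + 1) / 2) * (4 / ((n : ℝ) + 1)) * ff n (v * Fej_om M ^ (-(j : ℤ)))
        + 1 / (2 * ((n : ℝ) + 1)) * ff n (v * Fej_om M ^ (-(j : ℤ))) ^ 2) =
      Λ * (2 * M + 1 / (2 * ((n : ℝ) + 1)) * (M * Fej_N n)) := by
    rw [← Finset.mul_sum, Finset.sum_add_distrib, ← Finset.mul_sum, ← Finset.mul_sum, Fej_sum1 hM hv,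
      Fej_sum2 hM hv]
    field_simp
    ring
  rw [e3] at e2
  calc (1 / (M * Fej_N n)) *
      |∑ j ∈ range M, (H v - H (Fej_om M ^ j)) * ff n (v * Fej_om M ^ (-(j : ℤ))) ^ 2|
      ≤ (1 / (M * Fej_N n)) * (Λ * (2 * M + 1 / (2 * ((n : ℝ) + 1)) * (M * Fej_N n))) := by gcongr
    _ = Λ * (2 / Fej_N n + 1 / (2 * ((n : ℝ) + 1))) := by
        field_simp
    _ ≤ Λ * (2 / (((n : ℝ) + 1) / 2) + 1 / (2 * ((n : ℝ) + 1))) := by gcongr
    _ ≤ 5 * Λ / ((n : ℝ) + 1) := by
        rw [le_div_iff₀ hn]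
        have : Λ * (2 / (((n : ℝ) + 1) / 2) + 1 / (2 * ((n : ℝ) + 1))) * ((n : ℝ) + 1) = Λ * (9 / 2) := by
          field_simp
          ring
        rw [this]
        nlinarith

theorem Fej_far {M n : ℕ} (hM : 2 * n < M) {H : ℂ → ℝ} {r : ℝ} (hr : 0 < r) {v : ℂ} (hv : ‖v‖ = 1)
    (hH : ∀ j : ℕ, H (Fej_om M ^ j) ≠ 0 → r ≤ ‖v - Fej_om M ^ j‖) :
    |Fej_J H n M v| ≤ (8 / (((n : ℝ) + 1) * r ^ 2)) * ((∑ j ∈ range M, |H (Fej_om M ^ j)|) / M) := by
  have hM0 : (0 : ℝ) < M := by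
    have : 0 < M := by omega
    exact_mod_cast this
  have hN := Fej_N_pos n
  have hNg := Fej_N_ge n
  have hn : (0 : ℝ) < (n : ℝ) + 1 := by positivity
  unfold Fej_J
  rw [abs_mul, abs_of_pos (by positivity)]
  have e2 : |∑ j ∈ range M, H (Fej_om M ^ j) * ff n (v * Fej_om M ^ (-(j : ℤ))) ^ 2| ≤
      ∑ j ∈ range M, |H (Fej_om M ^ j)| * (4 / r ^ 2) := by
    refine (Finset.abs_sum_le_sum_abs _ _).trans (Finset.sum_le_sum ?_)
    intro j _
    by_cases h0 : H (Fej_om M ^ j) = 0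
    · rw [h0]; simp
    · have h1 := hH j h0
      rw [Fej_dist] at h1
      set u := v * Fej_om M ^ (-(j : ℤ)) with hu
      have hu1 : ‖u‖ = 1 := Fej_u_norm hv M j
      have hf := ff_nonneg n u
      have h2 := Fej_ff_mul (n := n) hu1
      have h3 := ff_le (K := n) hu1
      rw [abs_mul, abs_of_nonneg (sq_nonneg (ff n u))]
      apply mul_le_mul_of_nonneg_left _ (abs_nonneg _)
      rw [le_div_iff₀ (by positivity)]
      calc ff n u ^ 2 * r ^ 2 ≤ ff n u ^ 2 * ‖1 - u‖ ^ 2 := by gcongr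
        _ = ff n u * (ff n u * ‖1 - u‖ ^ 2) := by ring
        _ ≤ ((n : ℝ) + 1) * (4 / ((n : ℝ) + 1)) := by
            apply mul_le_mul h3 h2 (by positivity) hn.le
        _ = 4 := by field_simp
  rw [← Finset.sum_mul] at e2
  have hS : 0 ≤ ∑ j ∈ range M, |H (Fej_om M ^ j)| := Finset.sum_nonneg (fun _ _ => abs_nonneg _)
  set S := ∑ j ∈ range M, |H (Fej_om M ^ j)| with hSd
  calc 1 / (M * Fej_N n) * |∑ j ∈ range M, H (Fej_om M ^ j) * ff n (v * Fej_om M ^ (-(j : ℤ))) ^ 2|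
      ≤ 1 / (M * Fej_N n) * (S * (4 / r ^ 2)) := by gcongr
    _ ≤ 1 / (M * (((n : ℝ) + 1) / 2)) * (S * (4 / r ^ 2)) := by gcongr
    _ = _ := by
        field_simp
        ring

/-- the main term -/
theorem Fej_main {M n : ℕ} (hM : 2 * n < M) (H : ℂ → ℝ) (S : Finset GI) (hS : ∀ z ∈ S, z ≠ 0)
    (a a' : GI → ℂ) :
    ‖∑ w ∈ S, ∑ w' ∈ S, a w * (starRingEnd ℂ) (a' w') *
      (Fej_J H n M ((starRingEnd ℂ) (ez w) * ez w') : ℂ)‖ ≤
      2 * ((∑ j ∈ range M, |H (Fej_om M ^ j)|) / M) *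
        ∑ s ∈ Icc (-(2 * n : ℤ)) (2 * n : ℤ), ‖∑ z ∈ S, a z * ez z ^ s‖ * ‖∑ z ∈ S, a' z * ez z ^ s‖ := by
  have hM0 : (0 : ℝ) < M := by
    have : 0 < M := by omega
    exact_mod_cast this
  have hN := Fej_N_pos n
  have hNg := Fej_N_ge n
  have hn : (0 : ℝ) < (n : ℝ) + 1 := by positivity
  set I := Icc (-(n : ℤ)) (n : ℤ) with hI
  set Ak : ℤ → ℂ := fun s => ∑ z ∈ S, a z * ez z ^ s with hAk
  set Bk : ℤ → ℂ := fun s => ∑ z ∈ S, a' z * ez z ^ s with hBk
  have hv1 : ∀ w ∈ S, ∀ w' ∈ S, ‖(starRingEnd ℂ) (ez w) * ez w'‖ = 1 := by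
    intro w hw w' hw'
    rw [norm_mul, RCLike.norm_conj, norm_ez (hS w hw), norm_ez (hS w' hw'), one_mul]
  have hconj : ∀ w ∈ S, ∀ s : ℤ, (starRingEnd ℂ) (ez w) ^ s = ez w ^ (-s) := by
    intro w hw s
    have h1 : (starRingEnd ℂ) (ez w) = (ez w)⁻¹ := by
      rw [Complex.inv_def, Complex.normSq_eq_norm_sq, norm_ez (hS w hw)]
      simp
    rw [h1, inv_zpow, zpow_neg]
  have e1 : ∑ w ∈ S, ∑ w' ∈ S, a w * (starRingEnd ℂ) (a' w') *
      (Fej_J H n M ((starRingEnd ℂ) (ez w) * ez w') : ℂ) =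
      ((1 / (M * Fej_N n) : ℝ) : ℂ) * ∑ j ∈ range M, (H (Fej_om M ^ j) : ℂ) * ∑ k ∈ I, ∑ l ∈ I,
        ((fw n k * fw n l : ℝ) : ℂ) * (Fej_om M ^ (-(j : ℤ))) ^ (k + l) *
          (Ak (-(k + l)) * (starRingEnd ℂ) (Bk (-(k + l)))) := by
    have e2 : ∀ w ∈ S, ∀ w' ∈ S, a w * (starRingEnd ℂ) (a' w') *
        (Fej_J H n M ((starRingEnd ℂ) (ez w) * ez w') : ℂ) =
        ((1 / (M * Fej_N n) : ℝ) : ℂ) * ∑ j ∈ range M, (H (Fej_om M ^ j) : ℂ) * ∑ k ∈ I, ∑ l ∈ I,
        ((fw n k * fw n l : ℝ) : ℂ) * (Fej_om M ^ (-(j : ℤ))) ^ (k + l) *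
          ((a w * ez w ^ (-(k + l))) * (starRingEnd ℂ) (a' w' * ez w' ^ (-(k + l)))) := by
      intro w hw w' hw'
      unfold Fej_J
      rw [Complex.ofReal_mul, Complex.ofReal_sum]
      rw [mul_left_comm]
      congr 1
      rw [Finset.mul_sum]
      apply Finset.sum_congr rfl
      intro j _
      rw [Complex.ofReal_mul, Fej_ff_sq (Fej_u_norm (hv1 w hw w' hw') M j), mul_left_comm]
      congr 1
      rw [Finset.mul_sum]
      apply Finset.sum_congr rfl
      intro k _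
      rw [Finset.mul_sum]
      apply Finset.sum_congr rfl
      intro l _
      rw [mul_zpow, mul_zpow, hconj w hw, map_mul, map_zpow₀, hconj w' hw', neg_neg]
      ring
    rw [Finset.sum_congr rfl (fun w hw => Finset.sum_congr rfl (fun w' hw' => e2 w hw w' hw'))]
    have e3 : ∀ s : ℤ, Ak s * (starRingEnd ℂ) (Bk s) =
        ∑ w ∈ S, ∑ w' ∈ S, (a w * ez w ^ s) * (starRingEnd ℂ) (a' w' * ez w' ^ s) := by
      intro s
      simp only [hAk, hBk]
      rw [map_sum, Finset.sum_mul_sum]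
    simp only [e3, ← Finset.mul_sum]
    congr 1
    rw [Finset.sum_congr rfl (fun w _ => Finset.sum_comm), Finset.sum_comm]
    apply Finset.sum_congr rfl
    intro j _
    simp only [← Finset.mul_sum]
    congr 1
    rw [Finset.sum_congr rfl (fun w _ => Finset.sum_comm), Finset.sum_comm]
    apply Finset.sum_congr rfl
    intro k _
    rw [Finset.sum_congr rfl (fun w _ => Finset.sum_comm), Finset.sum_comm]
    apply Finset.sum_congr rfl
    intro l _
    simp only [← Finset.mul_sum]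
  rw [e1, norm_mul, Complex.norm_real, Real.norm_eq_abs, abs_of_pos (by positivity)]
  set F : ℤ → ℝ := fun s => ‖Ak s‖ * ‖Bk s‖ with hF
  have hF0 : ∀ s, 0 ≤ F s := fun s => by simp only [hF]; positivity
  set Q := ∑ s ∈ Icc (-(2 * n : ℤ)) (2 * n : ℤ), F s with hQ
  have hQ0 : 0 ≤ Q := Finset.sum_nonneg (fun s _ => hF0 s)
  have e4 : ∑ k ∈ I, ∑ l ∈ I, (fw n k * fw n l) * F (-(k + l)) ≤ ((n : ℝ) + 1) * Q := by
    rw [← Fej_sum_fw n, Finset.sum_mul]
    apply Finset.sum_le_sum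
    intro k hk
    have hk0 := fw_nonneg hk
    rw [Finset.mem_Icc] at hk
    calc ∑ l ∈ I, (fw n k * fw n l) * F (-(k + l)) ≤ ∑ l ∈ I, fw n k * F (-(k + l)) := by
          apply Finset.sum_le_sum
          intro l hl
          have hl0 := fw_nonneg hl
          have hl1 := fw_le_one n l
          apply mul_le_mul_of_nonneg_right _ (hF0 _)
          nlinarith
      _ = fw n k * ∑ l ∈ I, F (-(k + l)) := by rw [Finset.mul_sum]
      _ ≤ fw n k * Q := by
          apply mul_le_mul_of_nonneg_left _ hk0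
          have : ∑ l ∈ I, F (-(k + l)) = ∑ s ∈ I.image (fun l => -(k + l)), F s := by
            rw [Finset.sum_image]
            intro x _ y _ hxy
            simp only [neg_inj, add_right_inj] at hxy
            exact hxy
          rw [this]
          apply Finset.sum_le_sum_of_subset_of_nonneg
          · intro s hs
            rw [Finset.mem_image] at hs
            obtain ⟨l, hl, rfl⟩ := hs
            rw [Finset.mem_Icc] at hl ⊢
            omega
          · intro s _ _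
            exact hF0 s
  have e5 : ‖∑ j ∈ range M, (H (Fej_om M ^ j) : ℂ) * ∑ k ∈ I, ∑ l ∈ I,
        ((fw n k * fw n l : ℝ) : ℂ) * (Fej_om M ^ (-(j : ℤ))) ^ (k + l) *
          (Ak (-(k + l)) * (starRingEnd ℂ) (Bk (-(k + l))))‖ ≤
      (∑ j ∈ range M, |H (Fej_om M ^ j)|) * (((n : ℝ) + 1) * Q) := by
    rw [Finset.sum_mul]
    refine (norm_sum_le _ _).trans (Finset.sum_le_sum ?_)
    intro j _
    rw [norm_mul, Complex.norm_real, Real.norm_eq_abs]
    apply mul_le_mul_of_nonneg_left _ (abs_nonneg _)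
    refine le_trans ?_ e4
    refine (norm_sum_le _ _).trans (Finset.sum_le_sum ?_)
    intro k hk
    refine (norm_sum_le _ _).trans (Finset.sum_le_sum ?_)
    intro l hl
    rw [norm_mul, norm_mul, norm_mul, RCLike.norm_conj, Complex.norm_real, Real.norm_eq_abs,
      abs_of_nonneg (mul_nonneg (fw_nonneg hk) (fw_nonneg hl)), norm_zpow, norm_zpow, Fej_om_norm,
      one_zpow, one_zpow, mul_one]
  have hSS : 0 ≤ ∑ j ∈ range M, |H (Fej_om M ^ j)| := Finset.sum_nonneg (fun _ _ => abs_nonneg _)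
  set SS := ∑ j ∈ range M, |H (Fej_om M ^ j)| with hSSd
  calc _ ≤ 1 / (M * Fej_N n) * (SS * (((n : ℝ) + 1) * Q)) := by gcongr
    _ ≤ 1 / (M * (((n : ℝ) + 1) / 2)) * (SS * (((n : ℝ) + 1) * Q)) := by gcongr
    _ = 2 * (SS / M) * Q := by field_simp


/-- the function of the angle -/
noncomputable def Fej_G (g : ℝ → ℝ) (m P : ℕ) (v : ℂ) : ℝ :=
  if 0 < v.re then g ((m : ℝ) / P * v.im) else 0

theorem Fej_G_lip {g : ℝ → ℝ} {L : ℝ} (hL : 1 ≤ L) (hg : ∀ x y, |g x - g y| ≤ L * |x - y|)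
    (hb : ∀ x, |g x| ≤ L) (h0 : ∀ x, x ≤ 0 ∨ L ≤ x → g x = 0) {m P : ℕ} (hP : 1 ≤ P)
    (hm : 2 * L * P ≤ m) (v v' : ℂ) (hv : ‖v‖ = 1) (hv' : ‖v'‖ = 1) :
    |Fej_G g m P v - Fej_G g m P v'| ≤ (L * (m / P)) * ‖v - v'‖ := by
  have hP0 : (0 : ℝ) < P := by exact_mod_cast hP
  have hm0 : (0 : ℝ) < m := by
    have : 0 < 2 * L * P := by positivity
    linarith
  have hq : 0 < (m : ℝ) / P := by positivity
  have key : ∀ v v' : ℂ, ‖v‖ = 1 → 0 < v.re → ¬ 0 < v'.re →
      |Fej_G g m P v - Fej_G g m P v'| ≤ (L * (m / P)) * ‖v - v'‖ := by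
    intro v v' hv h1 h2
    unfold Fej_G
    rw [if_pos h1, if_neg h2, sub_zero]
    by_cases hz : g ((m : ℝ) / P * v.im) = 0
    · rw [hz, abs_zero]
      positivity
    · have h3 : ¬ ((m : ℝ) / P * v.im ≤ 0 ∨ L ≤ (m : ℝ) / P * v.im) := fun h => hz (h0 _ h)
      push Not at h3
      obtain ⟨h4, h5⟩ := h3
      have h6 : 0 < v.im := by
        by_contra h
        push Not at h
        have : (m : ℝ) / P * v.im ≤ 0 := mul_nonpos_of_nonneg_of_nonpos hq.le h
        linarith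
      have h7 : v.im ≤ 1 / 2 := by
        have h8 : 2 * L ≤ (m : ℝ) / P := by
          rw [le_div_iff₀ hP0]; exact hm
        by_contra h
        push Not at h
        nlinarith
      have h9 : v.re ^ 2 + v.im ^ 2 = 1 := by
        have := Complex.sq_norm v
        rw [hv, Complex.normSq_apply] at this
        nlinarith
      have h10 : 1 / 2 ≤ v.re := by nlinarith
      have h11 : 1 / 2 ≤ ‖v - v'‖ := by
        have := Complex.abs_re_le_norm (v - v')
        rw [Complex.sub_re] at this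
        push Not at h2
        have h12 := le_abs_self (v.re - v'.re)
        linarith
      have h13 : 2 ≤ (m : ℝ) / P := by
        rw [le_div_iff₀ hP0]
        nlinarith
      calc |g ((m : ℝ) / P * v.im)| ≤ L := hb _
        _ = (L * 2) * (1 / 2) := by ring
        _ ≤ (L * (m / P)) * ‖v - v'‖ := by gcongr
  by_cases h1 : 0 < v.re
  · by_cases h2 : 0 < v'.re
    · unfold Fej_G
      rw [if_pos h1, if_pos h2]
      refine (hg _ _).trans ?_
      rw [mul_assoc]
      apply mul_le_mul_of_nonneg_left _ (by linarith)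
      rw [← mul_sub, abs_mul, abs_of_pos hq]
      apply mul_le_mul_of_nonneg_left _ hq.le
      rw [← Complex.sub_im]
      exact Complex.abs_im_le_norm _
    · exact key v v' hv h1 h2
  · by_cases h2 : 0 < v'.re
    · rw [abs_sub_comm, norm_sub_rev]
      exact key v' v hv' h2 h1
    · unfold Fej_G
      rw [if_neg h1, if_neg h2, sub_zero, abs_zero]
      positivity

theorem Fej_om_pow (M j : ℕ) : Fej_om M ^ j = Complex.exp (((2 * Real.pi * j / M : ℝ) : ℂ) * Complex.I) := by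
  unfold Fej_om
  rw [← Complex.exp_nat_mul]
  congr 1
  push_cast
  ring

theorem Fej_count {g : ℝ → ℝ} {L : ℝ} (hL : 1 ≤ L)
    (hb : ∀ x, |g x| ≤ L) (h0 : ∀ x, x ≤ 0 ∨ L ≤ x → g x = 0) {m P M : ℕ} (hP : 1 ≤ P)
    (hm : 1 ≤ m) (hM : m ≤ M) :
    (∑ j ∈ range M, |Fej_G g m P (Fej_om M ^ j)|) / M ≤ 2 * L ^ 2 * (P / m) := by
  have hP0 : (0 : ℝ) < P := by exact_mod_cast hP
  have hP1 : (1 : ℝ) ≤ P := by exact_mod_cast hP
  have hm0 : (0 : ℝ) < m := by exact_mod_cast hm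
  have hM1 : (m : ℝ) ≤ M := by exact_mod_cast hM
  have hM0 : (0 : ℝ) < M := by linarith
  have hq : 0 < (m : ℝ) / P := by positivity
  have h1 : ∀ j ∈ range M, |Fej_G g m P (Fej_om M ^ j)| ≤
      if (j : ℝ) < L * P * M / m then L else 0 := by
    intro j hj
    rw [Finset.mem_range] at hj
    have hjM : (j : ℝ) < M := by exact_mod_cast hj
    have hj0 : (0 : ℝ) ≤ j := Nat.cast_nonneg j
    by_cases hz : Fej_G g m P (Fej_om M ^ j) = 0
    · rw [hz, abs_zero]
      split_ifs <;> linarith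
    · unfold Fej_G at hz ⊢
      by_cases hre : 0 < (Fej_om M ^ j).re
      · rw [if_pos hre] at hz ⊢
        have h3 : ¬ ((m : ℝ) / P * (Fej_om M ^ j).im ≤ 0 ∨ L ≤ (m : ℝ) / P * (Fej_om M ^ j).im) :=
          fun h => hz (h0 _ h)
        push Not at h3
        obtain ⟨h4, h5⟩ := h3
        rw [Fej_om_pow, Complex.exp_ofReal_mul_I_im] at h4 h5
        rw [Fej_om_pow, Complex.exp_ofReal_mul_I_re] at hre
        set θ := 2 * Real.pi * j / M with hθ
        have hpi := Real.pi_pos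
        have hθ0 : 0 ≤ θ := by positivity
        have hθ1 : θ < 2 * Real.pi := by
          rw [hθ, div_lt_iff₀ hM0]
          nlinarith
        have hsin : 0 < Real.sin θ := by
          by_contra h
          push Not at h
          have : (m : ℝ) / P * Real.sin θ ≤ 0 := mul_nonpos_of_nonneg_of_nonpos hq.le h
          linarith
        have hθ2 : θ < Real.pi := by
          by_contra h
          push Not at h
          have h6 := Real.sin_nonneg_of_nonneg_of_le_pi (x := θ - Real.pi) (by linarith) (by linarith)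
          rw [Real.sin_sub_pi] at h6
          linarith
        have hθ3 : θ < Real.pi / 2 := by
          by_contra h
          push Not at h
          have h6 := Real.cos_nonpos_of_pi_div_two_le_of_le h (by linarith)
          linarith
        have h7 := Real.mul_le_sin hθ0 hθ3.le
        have h8 : 2 / Real.pi * θ = 4 * j / M := by
          rw [hθ]
          field_simp
          ring
        rw [h8] at h7
        rw [if_pos]
        · exact hb _
        · have h9 : (m : ℝ) / P * (4 * j / M) < L :=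
            lt_of_le_of_lt (mul_le_mul_of_nonneg_left h7 hq.le) h5
          rw [lt_div_iff₀ hm0]
          rw [div_mul_div_comm, div_lt_iff₀ (by positivity)] at h9
          nlinarith [mul_nonneg hm0.le hj0]
      · rw [if_neg hre] at hz
        exact absurd rfl hz
  have h2 : ∑ j ∈ range M, |Fej_G g m P (Fej_om M ^ j)| ≤ (L * P * M / m + 1) * L := by
    refine (Finset.sum_le_sum h1).trans ?_
    rw [← Finset.sum_filter, Finset.sum_const, nsmul_eq_mul]
    apply mul_le_mul_of_nonneg_right _ (by linarith)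
    have hx : 0 ≤ L * P * M / m := by positivity
    calc (((range M).filter (fun j : ℕ => (j : ℝ) < L * P * M / m)).card : ℝ)
        ≤ ((range (⌊L * P * M / m⌋₊ + 1)).card : ℝ) := by
          apply Nat.cast_le.mpr
          apply Finset.card_le_card
          intro j hj
          rw [Finset.mem_filter] at hj
          rw [Finset.mem_range]
          have := Nat.le_floor hj.2.le
          omega
      _ = (⌊L * P * M / m⌋₊ : ℝ) + 1 := by rw [card_range]; push_cast; ring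
      _ ≤ L * P * M / m + 1 := by
          have := Nat.floor_le hx
          linarith
  rw [div_le_iff₀ hM0]
  refine h2.trans ?_
  have h3 : (1 : ℝ) ≤ L * P * M / m := by
    rw [le_div_iff₀ hm0]
    have : (1 : ℝ) ≤ L * P := by nlinarith
    nlinarith
  calc (L * P * M / m + 1) * L ≤ (L * P * M / m + L * P * M / m) * L := by gcongr
    _ = 2 * L ^ 2 * (P / m) * M := by ring

theorem Fej_im {z w : GI} (hz : z ≠ 0) (hw : w ≠ 0) :
    ((starRingEnd ℂ) (ez z) * ez w).im = (dt z w : ℝ) / √((nm z : ℝ) * nm w) ∧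
    ((starRingEnd ℂ) (ez z) * ez w).re = (ip z w : ℝ) / √((nm z : ℝ) * nm w) := by
  rw [ez_conj_mul hz hw]
  constructor
  · rw [Complex.div_ofReal_im]
    simp
  · rw [Complex.div_ofReal_re]
    simp

theorem Fej_AA_ne {b : ℝ} {m : ℕ} {z : GI} (h : z ∈ AA b m) : z ≠ 0 := by
  rw [mem_AA] at h
  exact Pr_ne h.2.1

theorem Fej_PS (b : ℝ) {m P : ℕ} (hm : 1 ≤ m) (hP : 1 ≤ P) (g : ℝ → ℝ) (h0 : ∀ x, x ≤ 0 → g x = 0)
    (a a' : GI → ℂ) :
    PS b m (fun w w' => a w * (starRingEnd ℂ) (a' w') * (g (tt m P w w') : ℂ)) =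
      ∑ w ∈ AA b m, ∑ w' ∈ AA b m, a w * (starRingEnd ℂ) (a' w') *
        (Fej_G g m P ((starRingEnd ℂ) (ez w) * ez w') : ℂ) := by
  classical
  have hP0 : (0 : ℝ) < P := by exact_mod_cast hP
  have hm0 : (0 : ℝ) < m := by exact_mod_cast hm
  unfold PS
  apply Finset.sum_congr rfl
  intro w hw
  apply Finset.sum_congr rfl
  intro w' hw'
  have hw0 := Fej_AA_ne hw
  have hw0' := Fej_AA_ne hw'
  have hN : (0 : ℝ) < nm w := by exact_mod_cast nm_pos hw0
  have hN' : (0 : ℝ) < nm w' := by exact_mod_cast nm_pos hw0'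
  have hs : 0 < √((nm w : ℝ) * nm w') := Real.sqrt_pos.mpr (by positivity)
  obtain ⟨h1, h2⟩ := Fej_im hw0 hw0'
  have h3 : (m : ℝ) / P * ((starRingEnd ℂ) (ez w) * ez w').im = tt m P w w' := by
    rw [h1]
    unfold tt rd
    rw [← Real.sqrt_mul (by positivity)]
    have : (nm w : ℝ) / m * (nm w' / m) = ((nm w : ℝ) * nm w') / m ^ 2 := by
      field_simp
    rw [this, Real.sqrt_div (by positivity), Real.sqrt_sq hm0.le]
    field_simp
  unfold Fej_G
  rw [h3, h2]
  by_cases hip : 0 < ip w w'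
  · have hip' : (0 : ℝ) < ip w w' := by exact_mod_cast hip
    have h4 : 0 < (ip w w' : ℝ) / √((nm w : ℝ) * nm w') := by positivity
    rw [if_pos h4]
    by_cases hdt : 0 < dt w w'
    · have h5 : 0 < ip w w' ∧ 0 < dt w w' := ⟨hip, hdt⟩
      rw [if_pos h5]
    · have h5 : ¬ (0 < ip w w' ∧ 0 < dt w w') := fun h => hdt h.2
      rw [if_neg h5]
      have : tt m P w w' ≤ 0 := by
        unfold tt rd
        push Not at hdt
        apply div_nonpos_of_nonpos_of_nonneg
        · exact_mod_cast hdt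
        · positivity
      rw [h0 _ this]
      simp
  · have h5 : ¬ (0 < ip w w' ∧ 0 < dt w w') := fun h => hip h.1
    have h4 : ¬ 0 < (ip w w' : ℝ) / √((nm w : ℝ) * nm w') := by
      push Not at hip ⊢
      apply div_nonpos_of_nonpos_of_nonneg
      · exact_mod_cast hip
      · positivity
    rw [if_neg h5, if_neg h4]
    simp

theorem Fej_dt_le {b : ℝ} {m : ℕ} {w w' : GI} (hw : w ∈ AA b m) (hw' : w' ∈ AA b m) :
    |dt w w'| ≤ (m : ℤ) ∧ √((nm w : ℝ) * nm w') ≤ m := by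
  rw [mem_AA] at hw hw'
  have h1 : nm w ≤ m := by exact_mod_cast hw.1
  have h2 : nm w' ≤ m := by exact_mod_cast hw'.1
  constructor
  · have h := ip_sq_add w w'
    have h3 : (nm w : ℤ) * nm w' ≤ (m : ℤ) * m := by
      exact_mod_cast Nat.mul_le_mul h1 h2
    apply abs_le_of_sq_le_sq _ (by positivity)
    nlinarith [sq_nonneg (ip w w')]
  · rw [Real.sqrt_le_left (by positivity)]
    have h3 : (nm w : ℝ) * nm w' ≤ (m : ℝ) * m := by
      exact_mod_cast Nat.mul_le_mul h1 h2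
    nlinarith

/-- far pairs -/
theorem Fej_farsum (b : ℝ) (hb : 1 < b) : ∃ C : ℝ, 0 < C ∧ ∀ (m N : ℕ), 1 ≤ m → 1 ≤ N →
    open Classical in
    ∑ w ∈ AA b m, ∑ w' ∈ AA b m, (if N < (dt w w').natAbs then 1 / (dt w w' : ℝ) ^ 2 else 0) ≤
      C * m / N := by
  classical
  obtain ⟨C, hC, h⟩ := det_cnt b 1 hb le_rfl
  refine ⟨9 * (2 * C), by positivity, ?_⟩
  intro m N hm hN
  have hN0 : (0 : ℝ) < N := by exact_mod_cast hN
  have key : ∀ w ∈ AA b m, ∑ w' ∈ AA b m,
      (if N < (dt w w').natAbs then 1 / (dt w w' : ℝ) ^ 2 else 0) ≤ 2 * C / N := by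
    intro w hw
    by_cases hNm : N ≤ m
    swap
    · push Not at hNm
      have : ∑ w' ∈ AA b m, (if N < (dt w w').natAbs then 1 / (dt w w' : ℝ) ^ 2 else 0) =
          ∑ w' ∈ AA b m, (0 : ℝ) := by
        apply Finset.sum_congr rfl
        intro w' hw'
        have h1 := (Fej_dt_le hw hw').1
        rw [abs_le] at h1
        rw [if_neg]
        omega
      rw [this, Finset.sum_const_zero]
      positivity
    rw [← Finset.sum_filter]
    have hmap : ∀ w' ∈ (AA b m).filter (fun w' => N < (dt w w').natAbs),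
        (dt w w').natAbs ∈ Ioc N m := by
      intro w' hw'
      rw [Finset.mem_filter] at hw'
      have h1 := (Fej_dt_le hw hw'.1).1
      rw [abs_le] at h1
      rw [Finset.mem_Ioc]
      omega
    rw [← Finset.sum_fiberwise_of_maps_to hmap]
    calc ∑ d ∈ Ioc N m, ∑ w' ∈ ((AA b m).filter (fun w' => N < (dt w w').natAbs)).filter
          (fun w' => (dt w w').natAbs = d), 1 / (dt w w' : ℝ) ^ 2
        ≤ ∑ d ∈ Ioc N m, (2 * C) * ((d : ℝ) ^ 2)⁻¹ := by
          apply Finset.sum_le_sum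
          intro d hd
          have h1 : ∀ w' ∈ ((AA b m).filter (fun w' => N < (dt w w').natAbs)).filter
              (fun w' => (dt w w').natAbs = d), 1 / (dt w w' : ℝ) ^ 2 = ((d : ℝ) ^ 2)⁻¹ := by
            intro w' hw'
            rw [Finset.mem_filter] at hw'
            rw [← hw'.2, one_div]
            congr 1
            rw [Nat.cast_natAbs, Int.cast_abs, sq_abs]
          rw [Finset.sum_congr rfl h1, Finset.sum_const, nsmul_eq_mul]
          apply mul_le_mul_of_nonneg_right _ (by positivity)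
          have h2 : ((AA b m).filter (fun w' => N < (dt w w').natAbs)).filter
              (fun w' => (dt w w').natAbs = d) ⊆
              ((bal (1 * m)).filter (fun w' => dt w w' = (d : ℤ))) ∪
              ((bal (1 * m)).filter (fun w' => dt w w' = -(d : ℤ))) := by
            intro w' hw'
            rw [Finset.mem_filter, Finset.mem_filter, mem_AA] at hw'
            rw [Finset.mem_union, Finset.mem_filter, Finset.mem_filter, mem_bal, one_mul]
            have h3 := hw'.2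
            have h4 := hw'.1.1.1
            rcases Int.natAbs_eq (dt w w') with h5 | h5
            · left
              exact ⟨h4, by omega⟩
            · right
              exact ⟨h4, by omega⟩
          calc ((((AA b m).filter (fun w' => N < (dt w w').natAbs)).filter
              (fun w' => (dt w w').natAbs = d)).card : ℝ)
              ≤ ((((bal (1 * m)).filter (fun w' => dt w w' = (d : ℤ))) ∪
              ((bal (1 * m)).filter (fun w' => dt w w' = -(d : ℤ)))).card : ℝ) := by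
                exact_mod_cast Finset.card_le_card h2
            _ ≤ (((bal (1 * m)).filter (fun w' => dt w w' = (d : ℤ))).card : ℝ) +
              (((bal (1 * m)).filter (fun w' => dt w w' = -(d : ℤ))).card : ℝ) := by
                exact_mod_cast Finset.card_union_le _ _
            _ ≤ C + C := add_le_add (h m hm w hw d) (h m hm w hw (-d))
            _ = 2 * C := by ring
      _ = (2 * C) * ∑ d ∈ Ioc N m, ((d : ℝ) ^ 2)⁻¹ := by rw [Finset.mul_sum]
      _ ≤ (2 * C) * ((N : ℝ)⁻¹ - (m : ℝ)⁻¹) := by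
          apply mul_le_mul_of_nonneg_left _ (by positivity)
          exact sum_Ioc_inv_sq_le_sub (by omega) hNm
      _ ≤ 2 * C / N := by
          have : 0 ≤ (m : ℝ)⁻¹ := by positivity
          rw [div_eq_mul_inv]
          apply mul_le_mul_of_nonneg_left _ (by positivity)
          linarith
  calc _ ≤ ∑ w ∈ AA b m, 2 * C / N := Finset.sum_le_sum key
    _ = ((AA b m).card : ℝ) * (2 * C / N) := by rw [Finset.sum_const, nsmul_eq_mul]
    _ ≤ (9 * m) * (2 * C / N) := by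
        apply mul_le_mul_of_nonneg_right (card_AA b m) (by positivity)
    _ = _ := by ring


/-- energies -/
theorem Fej_en {K n : ℕ} (hn : 4 * n ≤ K) (S : Finset GI) (a a' : GI → ℂ) :
    ∑ s ∈ Icc (-(2 * n : ℤ)) (2 * n : ℤ), ‖∑ z ∈ S, a z * ez z ^ s‖ * ‖∑ z ∈ S, a' z * ez z ^ s‖ ≤
      en K S a + en K S a' := by
  unfold en ms
  rw [← Finset.sum_add_distrib]
  calc ∑ s ∈ Icc (-(2 * n : ℤ)) (2 * n : ℤ), ‖∑ z ∈ S, a z * ez z ^ s‖ * ‖∑ z ∈ S, a' z * ez z ^ s‖
      ≤ ∑ s ∈ Icc (-(2 * n : ℤ)) (2 * n : ℤ), (fw K s * ‖∑ z ∈ S, a z * ez z ^ s‖ ^ 2 +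
        fw K s * ‖∑ z ∈ S, a' z * ez z ^ s‖ ^ 2) := by
        apply Finset.sum_le_sum
        intro s hs
        rw [Finset.mem_Icc] at hs
        have h1 : 1 / 2 ≤ fw K s := by
          unfold fw
          have h2 : |(s : ℝ)| ≤ 2 * n := by
            rw [abs_le]
            constructor
            · exact_mod_cast hs.1
            · exact_mod_cast hs.2
          have h3 : (4 * n : ℝ) ≤ K := by exact_mod_cast hn
          have h4 : |(s : ℝ)| / ((K : ℝ) + 1) ≤ 1 / 2 := by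
            rw [div_le_iff₀ (by positivity)]
            linarith
          linarith
        nlinarith [sq_nonneg (‖∑ z ∈ S, a z * ez z ^ s‖ - ‖∑ z ∈ S, a' z * ez z ^ s‖),
          sq_nonneg (‖∑ z ∈ S, a z * ez z ^ s‖), sq_nonneg (‖∑ z ∈ S, a' z * ez z ^ s‖)]
    _ ≤ _ := by
        apply Finset.sum_le_sum_of_subset_of_nonneg
        · intro s hs
          rw [Finset.mem_Icc] at hs ⊢
          have : (4 * n : ℤ) ≤ K := by exact_mod_cast hn
          omega
        · intro s hs _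
          have := fw_nonneg hs
          positivity

/-- bilinear sums with a smooth function of the angle are controlled by the energies -/
theorem str (b : ℝ) (hb : 1 < b) (L ε : ℝ) (hL : 1 ≤ L) (hε : 0 < ε) :
    ∃ η C : ℝ, 0 < η ∧ 0 < C ∧ ∀ g : ℝ → ℝ, (∀ x y, |g x - g y| ≤ L * |x - y|) → (∀ x, |g x| ≤ L) →
    (∀ x, x ≤ 0 ∨ L ≤ x → g x = 0) → ∀ P : ℕ, 1 ≤ P → ∃ m0 : ℕ, ∀ m : ℕ, m0 ≤ m →
    ∀ a a' : GI → ℂ, (∀ z, ‖a z‖ ≤ 1) → (∀ z, ‖a' z‖ ≤ 1) →
    ‖PS b m (fun w w' => a w * (starRingEnd ℂ) (a' w') * (g (tt m P w w') : ℂ))‖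
      ≤ ε * P * m + C * (P / m) * (en ⌊(m : ℝ) / (η * P)⌋₊ (AA b m) a +
        en ⌊(m : ℝ) / (η * P)⌋₊ (AA b m) a') := by
  classical
  obtain ⟨C₁, hC₁, hnear⟩ := pair_cnt b hb
  obtain ⟨C₂, hC₂, hfar⟩ := Fej_farsum b hb
  set D : ℝ := 20 * L * (C₁ * (4 * L + 1)) + 256 * L ^ 2 * C₂ with hD
  have hL0 : 0 < L := by linarith
  have hD0 : 0 < D := by positivity
  refine ⟨ε / D, 4 * L ^ 2, by positivity, by positivity, ?_⟩
  set η := ε / D with hη
  have hη0 : 0 < η := by positivity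
  intro g hg hgb hg0 P hP
  have hP0 : (0 : ℝ) < P := by exact_mod_cast hP
  have hP1 : (1 : ℝ) ≤ P := by exact_mod_cast hP
  refine ⟨⌈2 * L * P⌉₊ + 1, ?_⟩
  intro m hm a a' ha ha'
  have hm2 : 2 * L * P ≤ m := by
    have h1 : ⌈2 * L * P⌉₊ ≤ m := by omega
    exact (Nat.le_ceil _).trans (by exact_mod_cast h1)
  have hm1 : 1 ≤ m := by omega
  have hm0 : (0 : ℝ) < m := by exact_mod_cast hm1
  set K := ⌊(m : ℝ) / (η * P)⌋₊ with hK
  set n := K / 4 with hn
  set M := m + 2 * n + 1 with hM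
  have hMn : 2 * n < M := by omega
  have hn0 : (0 : ℝ) < (n : ℝ) + 1 := by positivity
  -- `m / (n+1) < 4 η P`
  have hmn : (m : ℝ) / ((n : ℝ) + 1) ≤ 4 * η * P := by
    have h1 : (m : ℝ) / (η * P) < K + 1 := Nat.lt_floor_add_one _
    have h2 : ((K : ℕ) : ℝ) + 1 ≤ 4 * ((n : ℝ) + 1) := by
      have : K + 1 ≤ 4 * (n + 1) := by omega
      exact_mod_cast this
    rw [div_lt_iff₀ (by positivity)] at h1
    rw [div_le_iff₀ hn0]
    have h3 : ((K : ℝ) + 1) * (η * P) ≤ (4 * ((n : ℝ) + 1)) * (η * P) := by gcongr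
    nlinarith
  set G := Fej_G g m P with hG
  have hlip := Fej_G_lip hL hg hgb hg0 hP hm2
  have hcount := Fej_count hL hgb hg0 hP hm1 (show m ≤ M by omega)
  rw [Fej_PS b hm1 hP g (fun x hx => hg0 x (Or.inl hx)) a a']
  set v : GI → GI → ℂ := fun w w' => (starRingEnd ℂ) (ez w) * ez w' with hv
  have hv1 : ∀ w ∈ AA b m, ∀ w' ∈ AA b m, ‖v w w'‖ = 1 := by
    intro w hw w' hw'
    simp only [hv]
    rw [norm_mul, RCLike.norm_conj, norm_ez (Fej_AA_ne hw), norm_ez (Fej_AA_ne hw'), one_mul]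
  -- pointwise error
  have hpt : ∀ w ∈ AA b m, ∀ w' ∈ AA b m, |G (v w w') - Fej_J G n M (v w w')| ≤
      (if |(dt w w' : ℝ)| ≤ 4 * L * P then 20 * L * η else 0) +
        (256 * L ^ 3 * η * P ^ 2) * (if ⌊4 * L * P⌋₊ < (dt w w').natAbs then 1 / (dt w w' : ℝ) ^ 2 else 0) := by
    intro w hw w' hw'
    by_cases hnr : |(dt w w' : ℝ)| ≤ 4 * L * P
    · rw [if_pos hnr]
      have h1 := Fej_smooth hMn (by positivity : 0 ≤ L * ((m : ℝ) / P)) hlip (hv1 w hw w' hw')
      have h2 : 5 * (L * ((m : ℝ) / P)) / ((n : ℝ) + 1) ≤ 20 * L * η := by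
        have : 5 * (L * ((m : ℝ) / P)) / ((n : ℝ) + 1) = 5 * L / P * (m / ((n : ℝ) + 1)) := by
          field_simp
        rw [this]
        calc 5 * L / P * (m / ((n : ℝ) + 1)) ≤ 5 * L / P * (4 * η * P) := by gcongr
          _ = 20 * L * η := by field_simp; ring
      have h3 : 0 ≤ (256 * L ^ 3 * η * P ^ 2) *
          (if ⌊4 * L * P⌋₊ < (dt w w').natAbs then 1 / (dt w w' : ℝ) ^ 2 else 0) := by
        apply mul_nonneg (by positivity)
        split_ifs
        · positivity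
        · exact le_rfl
      linarith
    · rw [if_neg hnr, zero_add]
      push Not at hnr
      have hd : ((dt w w').natAbs : ℝ) = |(dt w w' : ℝ)| := by
        rw [Nat.cast_natAbs, Int.cast_abs]
      have h1 : ⌊4 * L * P⌋₊ < (dt w w').natAbs := by
        rw [Nat.floor_lt (by positivity), hd]
        exact hnr
      rw [if_pos h1]
      have hN : (0 : ℝ) < nm w := by exact_mod_cast nm_pos (Fej_AA_ne hw)
      have hN' : (0 : ℝ) < nm w' := by exact_mod_cast nm_pos (Fej_AA_ne hw')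
      have hs : 0 < √((nm w : ℝ) * nm w') := Real.sqrt_pos.mpr (by positivity)
      have hsm := (Fej_dt_le hw hw').2
      have him := (Fej_im (Fej_AA_ne hw) (Fej_AA_ne hw')).1
      have hq : 0 < (m : ℝ) / P := by positivity
      have hdpos : 0 < |(dt w w' : ℝ)| := lt_of_le_of_lt (by positivity) hnr
      have himabs : |(dt w w' : ℝ)| / m ≤ |(v w w').im| := by
        simp only [hv]
        rw [him, abs_div, abs_of_pos hs]
        gcongr
      -- support of `G`
      have hsupp : ∀ u : ℂ, G u ≠ 0 → 0 < u.im ∧ u.im < L * P / m := by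
        intro u hu
        simp only [hG] at hu
        unfold Fej_G at hu
        by_cases hre : 0 < u.re
        · rw [if_pos hre] at hu
          have h3 : ¬ ((m : ℝ) / P * u.im ≤ 0 ∨ L ≤ (m : ℝ) / P * u.im) := fun h => hu (hg0 _ h)
          push Not at h3
          constructor
          · by_contra h
            push Not at h
            have : (m : ℝ) / P * u.im ≤ 0 := mul_nonpos_of_nonneg_of_nonpos hq.le h
            linarith
          · rw [lt_div_iff₀ hm0]
            have h4 := h3.2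
            rw [div_mul_eq_mul_div, div_lt_iff₀ hP0] at h4
            linarith
        · rw [if_neg hre] at hu
          exact absurd rfl hu
      have hGv : G (v w w') = 0 := by
        by_contra h
        obtain ⟨h2, h3⟩ := hsupp _ h
        rw [abs_of_pos h2] at himabs
        have h4 : |(dt w w' : ℝ)| / m < L * P / m := lt_of_le_of_lt himabs h3
        rw [div_lt_div_iff_of_pos_right hm0] at h4
        nlinarith
      rw [hGv, zero_sub, abs_neg]
      have hr : 0 < |(dt w w' : ℝ)| / (2 * m) := by positivity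
      have hfarj : ∀ j : ℕ, G (Fej_om M ^ j) ≠ 0 → |(dt w w' : ℝ)| / (2 * m) ≤ ‖v w w' - Fej_om M ^ j‖ := by
        intro j hj
        obtain ⟨h2, h3⟩ := hsupp _ hj
        have h4 := Complex.abs_im_le_norm (v w w' - Fej_om M ^ j)
        rw [Complex.sub_im] at h4
        have h5 : |(v w w').im| - |(Fej_om M ^ j).im| ≤ |(v w w').im - (Fej_om M ^ j).im| :=
          abs_sub_abs_le_abs_sub _ _
        rw [abs_of_pos h2] at h5
        have h6 : L * P / m ≤ |(dt w w' : ℝ)| / (2 * m) := by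
          rw [div_le_div_iff₀ hm0 (by positivity)]
          nlinarith
        have h7 : |(dt w w' : ℝ)| / m = |(dt w w' : ℝ)| / (2 * m) + |(dt w w' : ℝ)| / (2 * m) := by
          field_simp
          ring
        linarith
      have h8 := Fej_far hMn hr (hv1 w hw w' hw') hfarj
      refine h8.trans ?_
      have h9 : 8 / (((n : ℝ) + 1) * (|(dt w w' : ℝ)| / (2 * m)) ^ 2) =
          32 * m * (m / ((n : ℝ) + 1)) * (1 / (dt w w' : ℝ) ^ 2) := by
        rw [div_pow, sq_abs]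
        have : (dt w w' : ℝ) ≠ 0 := by
          intro h
          rw [h, abs_zero] at hdpos
          exact lt_irrefl _ hdpos
        field_simp
        ring
      rw [h9]
      calc 32 * m * (m / ((n : ℝ) + 1)) * (1 / (dt w w' : ℝ) ^ 2) *
            ((∑ j ∈ range M, |G (Fej_om M ^ j)|) / M)
          ≤ 32 * m * (4 * η * P) * (1 / (dt w w' : ℝ) ^ 2) * (2 * L ^ 2 * (P / m)) := by
            gcongr
        _ = (256 * L ^ 2 * η * P ^ 2) * (1 / (dt w w' : ℝ) ^ 2) := by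
            field_simp
            ring
        _ ≤ (256 * L ^ 3 * η * P ^ 2) * (1 / (dt w w' : ℝ) ^ 2) := by
            have : L ^ 2 ≤ L ^ 3 := by nlinarith [sq_nonneg L]
            gcongr
  -- split
  have hsplit : ∑ w ∈ AA b m, ∑ w' ∈ AA b m, a w * (starRingEnd ℂ) (a' w') * (G (v w w') : ℂ) =
      ∑ w ∈ AA b m, ∑ w' ∈ AA b m, a w * (starRingEnd ℂ) (a' w') *
        ((G (v w w') - Fej_J G n M (v w w') : ℝ) : ℂ) +
      ∑ w ∈ AA b m, ∑ w' ∈ AA b m, a w * (starRingEnd ℂ) (a' w') * (Fej_J G n M (v w w') : ℂ) := by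
    rw [← Finset.sum_add_distrib]
    apply Finset.sum_congr rfl
    intro w _
    rw [← Finset.sum_add_distrib]
    apply Finset.sum_congr rfl
    intro w' _
    push_cast
    ring
  rw [hsplit]
  refine (norm_add_le _ _).trans (add_le_add ?_ ?_)
  · -- error
    have h1 : ‖∑ w ∈ AA b m, ∑ w' ∈ AA b m, a w * (starRingEnd ℂ) (a' w') *
        ((G (v w w') - Fej_J G n M (v w w') : ℝ) : ℂ)‖ ≤
        ∑ w ∈ AA b m, ∑ w' ∈ AA b m, ((if |(dt w w' : ℝ)| ≤ 4 * L * P then 20 * L * η else 0) +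
        (256 * L ^ 3 * η * P ^ 2) *
          (if ⌊4 * L * P⌋₊ < (dt w w').natAbs then 1 / (dt w w' : ℝ) ^ 2 else 0)) := by
      refine (norm_sum_le _ _).trans (Finset.sum_le_sum ?_)
      intro w hw
      refine (norm_sum_le _ _).trans (Finset.sum_le_sum ?_)
      intro w' hw'
      refine le_trans ?_ (hpt w hw w' hw')
      rw [norm_mul, norm_mul, RCLike.norm_conj, Complex.norm_real, Real.norm_eq_abs]
      have h2 : ‖a w‖ * ‖a' w'‖ ≤ 1 := mul_le_one₀ (ha w) (norm_nonneg _) (ha' w')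
      calc ‖a w‖ * ‖a' w'‖ * |G (v w w') - Fej_J G n M (v w w')| ≤
          1 * |G (v w w') - Fej_J G n M (v w w')| :=
            mul_le_mul_of_nonneg_right h2 (abs_nonneg _)
        _ = _ := one_mul _
    refine h1.trans ?_
    have h2 : ∑ w ∈ AA b m, ∑ w' ∈ AA b m, (if |(dt w w' : ℝ)| ≤ 4 * L * P then 20 * L * η else 0) =
        (((AA b m ×ˢ AA b m).filter (fun e : GI × GI => |(dt e.1 e.2 : ℝ)| ≤ 4 * L * P)).card : ℝ) *
          (20 * L * η) := by
      rw [← Finset.sum_product', ← Finset.sum_filter, Finset.sum_const, nsmul_eq_mul]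
    have h3 : ∑ w ∈ AA b m, ∑ w' ∈ AA b m, ((if |(dt w w' : ℝ)| ≤ 4 * L * P then 20 * L * η else 0) +
        (256 * L ^ 3 * η * P ^ 2) *
          (if ⌊4 * L * P⌋₊ < (dt w w').natAbs then 1 / (dt w w' : ℝ) ^ 2 else 0)) =
        ∑ w ∈ AA b m, ∑ w' ∈ AA b m, (if |(dt w w' : ℝ)| ≤ 4 * L * P then 20 * L * η else 0) +
        (256 * L ^ 3 * η * P ^ 2) * ∑ w ∈ AA b m, ∑ w' ∈ AA b m,
          (if ⌊4 * L * P⌋₊ < (dt w w').natAbs then 1 / (dt w w' : ℝ) ^ 2 else 0) := by
      rw [Finset.mul_sum, ← Finset.sum_add_distrib]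
      apply Finset.sum_congr rfl
      intro w _
      rw [Finset.mul_sum, ← Finset.sum_add_distrib]
    rw [h3, h2]
    have hfl : 1 ≤ ⌊4 * L * P⌋₊ := by
      apply Nat.le_floor
      push_cast
      nlinarith
    have h4 := hnear m (4 * L * P) hm1 (by positivity)
    have h5 := hfar m ⌊4 * L * P⌋₊ hm1 hfl
    have hflr : L * P ≤ (⌊4 * L * P⌋₊ : ℝ) := by
      have := Nat.lt_floor_add_one (4 * L * P)
      nlinarith
    have h6 : C₂ * m / (⌊4 * L * P⌋₊ : ℝ) ≤ C₂ * m / (L * P) := by gcongr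
    calc _ ≤ (C₁ * (4 * L * P + 1) * m) * (20 * L * η) + (256 * L ^ 3 * η * P ^ 2) * (C₂ * m / (L * P)) := by
          gcongr
          exact h5.trans h6
      _ ≤ (C₁ * ((4 * L + 1) * P) * m) * (20 * L * η) + (256 * L ^ 3 * η * P ^ 2) * (C₂ * m / (L * P)) := by
          have : 4 * L * P + 1 ≤ (4 * L + 1) * P := by nlinarith
          gcongr
      _ = D * η * P * m := by
          rw [hD]
          field_simp
      _ = ε * P * m := by
          rw [hη]
          field_simp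
  · -- main term
    have h1 := Fej_main hMn G (AA b m) (fun z hz => Fej_AA_ne hz) a a'
    refine h1.trans ?_
    have h2 := Fej_en (K := K) (n := n) (by omega) (AA b m) a a'
    have h3 : 0 ≤ ∑ s ∈ Icc (-(2 * n : ℤ)) (2 * n : ℤ),
        ‖∑ z ∈ AA b m, a z * ez z ^ s‖ * ‖∑ z ∈ AA b m, a' z * ez z ^ s‖ :=
      Finset.sum_nonneg (fun s _ => by positivity)
    calc _ ≤ 2 * (2 * L ^ 2 * (P / m)) * (en K (AA b m) a + en K (AA b m) a') := by
          gcongr
      _ = _ := by ring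

end Pool.Agent.FCH
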