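import Pool.Agent.FCH.Hc
import Pool.Agent.FCH.Fej

set_option autoImplicit false

/-! Module HcB: elementary facts on `ut`, `sh`, `CE`, `HC` and the multiplicative function `bg χ` (port of `MRS/Mulb.lean`, which treats `χ = uu ^ κ`:
`bg (uu ^ κ) = bb κ`).  `ut`: for `Od z`, `Od w`: `(zw).re = z.re w.re - z.im w.im ≡ z.re w.re (mod 4)` (both `im` even); `uu = ez²`.
`bg_prime_pow`: the primitive elements of norm `p^j` are `± π^j, ± (star π)^j`.  `sp_le_bg`: as `MRS.sp_le_bb`. -/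

open Finset

namespace Pool.Agent.FCH

open Pool.Agent.MRS hiding Good

theorem HcB_ez_mul (z w : GI) : ez (z * w) = ez z * ez w := by
  unfold ez
  rw [map_mul, norm_mul]
  push_cast
  rw [mul_div_mul_comm]

theorem HcB_ez_neg (z : GI) : ez (-z) = -ez z := by
  unfold ez
  rw [map_neg, norm_neg, neg_div]

theorem HcB_ez_star (z : GI) : ez (star z) = (starRingEnd ℂ) (ez z) := by
  unfold ez
  have h : GaussianInt.toComplex (star z) = (starRingEnd ℂ) (GaussianInt.toComplex z) := by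
    rw [GaussianInt.toComplex_star]
  rw [h, Complex.norm_conj, map_div₀, Complex.conj_ofReal]

theorem HcB_ez_sq (z : GI) : ez z ^ 2 = uu z := by
  unfold ez uu
  rw [div_pow]
  congr 1
  rw [← Complex.ofReal_pow, BAS_norm_sq]
  push_cast
  rfl

theorem HcB_norm_ez {z : GI} (hz : z ≠ 0) : ‖ez z‖ = 1 := by
  have h1 : ‖ez z‖ ^ 2 = 1 := by
    rw [← norm_pow, HcB_ez_sq, norm_uu hz]
  have h2 := norm_nonneg (ez z)
  nlinarith

theorem ut_mul {z w : GI} (hz : Od z) (hw : Od w) : ut (z * w) = ut z * ut w := by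
  unfold ut
  rw [HcB_ez_mul]
  obtain ⟨h1, h2⟩ := hz
  obtain ⟨h3, h4⟩ := hw
  obtain ⟨a, ha⟩ : (2 : ℤ) ∣ z.im := by omega
  obtain ⟨b, hb⟩ : (2 : ℤ) ∣ w.im := by omega
  have hre : (z * w).re = z.re * w.re - 4 * (a * b) := by
    rw [Zsqrtd.re_mul, ha, hb]
    ring
  have h5 : (z * w).re % 4 = ((z.re % 4) * (w.re % 4)) % 4 := by
    rw [hre, ← Int.mul_emod]
    omega
  have h6 : z.re % 4 = 1 ∨ z.re % 4 = 3 := by omega
  have h7 : w.re % 4 = 1 ∨ w.re % 4 = 3 := by omega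
  rcases h6 with h6 | h6 <;> rcases h7 with h7 | h7 <;> rw [h6, h7] at h5 <;>
    simp only [h5, h6, h7] <;> norm_num

theorem ut_neg {z : GI} (hz : Od z) : ut (-z) = ut z := by
  unfold ut
  rw [HcB_ez_neg, Zsqrtd.re_neg]
  obtain ⟨h1, h2⟩ := hz
  have h6 : z.re % 4 = 1 ∨ z.re % 4 = 3 := by omega
  rcases h6 with h6 | h6
  · have h7 : (-z.re) % 4 ≠ 1 := by omega
    rw [if_pos h6, if_neg h7]
    ring
  · have h7 : (-z.re) % 4 = 1 := by omega
    have h8 : z.re % 4 ≠ 1 := by omega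
    rw [if_neg h8, if_pos h7]
    ring

theorem ut_sq (z : GI) : ut z ^ 2 = uu z := by
  unfold ut
  rw [mul_pow, HcB_ez_sq]
  split_ifs <;> norm_num

theorem ut_star {z : GI} (hz : Od z) : ut (star z) = (starRingEnd ℂ) (ut z) := by
  unfold ut
  rw [HcB_ez_star, map_mul, Zsqrtd.re_star]
  congr 1
  split_ifs <;> simp

theorem norm_ut {z : GI} (hz : z ≠ 0) : ‖ut z‖ = 1 := by
  have h1 : ‖ut z‖ ^ 2 = 1 := by
    rw [← norm_pow, ut_sq, norm_uu hz]
  have h2 := norm_nonneg (ut z)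
  nlinarith

theorem HC_CE {D : ℕ} {ψ : GI → ℂ} (h : HC D ψ) : CE ψ := ⟨h.mul, h.neg, h.one, h.le⟩

theorem CE_uu (κ : ℤ) : CE (fun z => uu z ^ κ) := by
  constructor
  · intro z w _ _
    exact uu_mul_zpow z w κ
  · intro z _
    show uu (-z) ^ κ = uu z ^ κ
    rw [uu_neg]
  · show uu 1 ^ κ = 1
    rw [uu_one, one_zpow]
  · intro z
    exact norm_uu_zpow_le z κ

theorem CE_ut : CE ut := by
  constructor
  · intro z w hz hw
    exact ut_mul hz hw
  · intro z hz
    exact ut_neg hz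
  · unfold ut ez
    simp
  · intro z
    have h1 : ‖ut z‖ ^ 2 ≤ 1 := by
      rw [← norm_pow, ut_sq]
      exact norm_uu_le z
    have h2 := norm_nonneg (ut z)
    nlinarith

theorem CE_mul {χ χ' : GI → ℂ} (h : CE χ) (h' : CE χ') : CE (fun z => χ z * χ' z) := by
  constructor
  · intro z w hz hw
    show χ (z * w) * χ' (z * w) = χ z * χ' z * (χ w * χ' w)
    rw [h.mul z w hz hw, h'.mul z w hz hw]
    ring
  · intro z hz
    show χ (-z) * χ' (-z) = χ z * χ' z
    rw [h.neg z hz, h'.neg z hz]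
  · show χ 1 * χ' 1 = 1
    rw [h.one, h'.one, one_mul]
  · intro z
    show ‖χ z * χ' z‖ ≤ 1
    rw [norm_mul]
    calc ‖χ z‖ * ‖χ' z‖ ≤ 1 * 1 := mul_le_mul (h.le z) (h'.le z) (norm_nonneg _) zero_le_one
      _ = 1 := one_mul _

theorem CE_sh {χ : GI → ℂ} (h : CE χ) : CE (sh χ) := by
  constructor
  · intro z w hz hw
    show χ (z * w) * (starRingEnd ℂ) (χ (star (z * w))) =
      χ z * (starRingEnd ℂ) (χ (star z)) * (χ w * (starRingEnd ℂ) (χ (star w)))
    rw [star_mul, mul_comm (star w) (star z), h.mul z w hz hw,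
      h.mul _ _ (Od_star hz) (Od_star hw), map_mul]
    ring
  · intro z hz
    show χ (-z) * (starRingEnd ℂ) (χ (star (-z))) = χ z * (starRingEnd ℂ) (χ (star z))
    rw [star_neg, h.neg z hz, h.neg _ (Od_star hz)]
  · show χ 1 * (starRingEnd ℂ) (χ (star 1)) = 1
    rw [star_one, h.one, map_one, one_mul]
  · intro z
    show ‖χ z * (starRingEnd ℂ) (χ (star z))‖ ≤ 1
    rw [norm_mul, Complex.norm_conj]
    calc ‖χ z‖ * ‖χ (star z)‖ ≤ 1 * 1 :=
          mul_le_mul (h.le z) (h.le _) (norm_nonneg _) zero_le_one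
      _ = 1 := one_mul _

theorem HcB_cg_star {D : ℕ} {z w : GI} (h : cg D z w) : cg D (star z) (star w) := by
  obtain ⟨h1, ⟨b, hb⟩⟩ := h
  constructor
  · rw [Zsqrtd.re_star, Zsqrtd.re_star]
    exact h1
  · rw [Zsqrtd.im_star, Zsqrtd.im_star]
    exact ⟨-b, by linarith⟩

theorem HC_sh {D : ℕ} {ψ : GI → ℂ} (h : HC D ψ) : HC D (sh ψ) := by
  have hce := CE_sh (HC_CE h)
  constructor
  · exact hce.mul
  · exact hce.neg
  · intro z w hz hw hzw
    show ψ z * (starRingEnd ℂ) (ψ (star z)) = ψ w * (starRingEnd ℂ) (ψ (star w))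
    rw [h.per z w hz hw hzw, h.per _ _ (Od_star hz) (Od_star hw) (HcB_cg_star hzw)]
  · exact hce.one
  · exact hce.le
  · intro z hz hc
    show ψ z * (starRingEnd ℂ) (ψ (star z)) = 0
    rw [h.cop z hz hc, zero_mul]
  · intro z hz hc
    show ‖ψ z * (starRingEnd ℂ) (ψ (star z))‖ = 1
    rw [norm_mul, Complex.norm_conj, h.unit z hz hc, h.unit _ (Od_star hz) (by rw [nm_star]; exact hc),
      one_mul]

theorem bg_one {χ : GI → ℂ} (h : CE χ) : bg χ 1 = 1 := by
  have hpn : pn 1 = {1, -1} := by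
    ext z
    rw [mem_pn, Finset.mem_insert, Finset.mem_singleton]
    constructor
    · rintro ⟨h1, _, h3⟩
      exact PMU_Od_unit h1 h3
    · rintro (rfl | rfl)
      · refine ⟨Od_one, ?_, nm_one⟩
        unfold Pr; simp
      · refine ⟨Od_neg Od_one, ?_, by rw [nm_neg, nm_one]⟩
        apply Pr_neg
        unfold Pr; simp
  have hne : (1 : GI) ≠ -1 := by
    intro h
    have := congrArg Zsqrtd.re h
    simp at this
  unfold bg
  rw [hpn, Finset.sum_pair hne, h.neg _ Od_one, h.one]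
  norm_num

theorem bg_mul {χ : GI → ℂ} (h : CE χ) {m n : ℕ} (hmn : Nat.Coprime m n) :
    bg χ (m * n) = bg χ m * bg χ n := by
  classical
  have key : ∑ p ∈ pn m ×ˢ pn n, χ (p.1 * p.2) = 2 * ∑ z ∈ pn (m * n), χ z := by
    have hmaps : ∀ p ∈ pn m ×ˢ pn n, p.1 * p.2 ∈ pn (m * n) := by
      rintro ⟨x, y⟩ hp
      rw [Finset.mem_product] at hp
      obtain ⟨hx, hy⟩ := hp
      have hx0 := hx
      have hy0 := hy
      rw [mem_pn] at hx hy ⊢
      exact ⟨Od_mul hx.1 hy.1, PMU_Pr_mul hx.2.1 hy.2.1 (by rw [hx.2.2, hy.2.2]; exact hmn),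
        by rw [nm_mul, hx.2.2, hy.2.2]⟩
    rw [← Finset.sum_fiberwise_of_maps_to hmaps, Finset.mul_sum]
    apply Finset.sum_congr rfl
    intro z hz
    obtain ⟨x, hx, y, hy, hxy⟩ := PMU_split hmn hz
    have hfib : (pn m ×ˢ pn n).filter (fun p => p.1 * p.2 = z) = {(x, y), (-x, -y)} := by
      ext ⟨x', y'⟩
      rw [Finset.mem_filter, Finset.mem_product, Finset.mem_insert, Finset.mem_singleton]
      constructor
      · rintro ⟨⟨h1, h2⟩, h3⟩
        rcases PMU_fiber hmn hx hy h1 h2 (by rw [hxy]; exact h3) with ⟨h4, h5⟩ | ⟨h4, h5⟩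
        · left; exact Prod.ext h4 h5
        · right; exact Prod.ext h4 h5
      · rintro (h1 | h1)
        · rw [Prod.mk.injEq] at h1
          obtain ⟨rfl, rfl⟩ := h1
          exact ⟨⟨hx, hy⟩, hxy⟩
        · rw [Prod.mk.injEq] at h1
          obtain ⟨rfl, rfl⟩ := h1
          refine ⟨⟨?_, ?_⟩, ?_⟩
          · rw [mem_pn] at hx ⊢
            exact ⟨Od_neg hx.1, Pr_neg hx.2.1, by rw [nm_neg]; exact hx.2.2⟩
          · rw [mem_pn] at hy ⊢
            exact ⟨Od_neg hy.1, Pr_neg hy.2.1, by rw [nm_neg]; exact hy.2.2⟩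
          · simp only [neg_mul_neg]; exact hxy
    have hne : (x, y) ≠ (-x, -y) := by
      intro he
      rw [Prod.mk.injEq] at he
      have hx1 := (mem_pn.1 hx).1.1
      have := congrArg Zsqrtd.re he.1
      rw [Zsqrtd.re_neg] at this
      omega
    rw [hfib, Finset.sum_pair hne]
    simp only [neg_mul_neg]
    rw [hxy]; ring
  have h2 : ∑ p ∈ pn m ×ˢ pn n, χ (p.1 * p.2) = (∑ x ∈ pn m, χ x) * ∑ y ∈ pn n, χ y := by
    rw [Finset.sum_product, Finset.sum_mul_sum]
    apply Finset.sum_congr rfl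
    intro x hx
    apply Finset.sum_congr rfl
    intro y hy
    rw [mem_pn] at hx hy
    exact h.mul x y hx.1 hy.1
  unfold bg
  have h3 : ∑ z ∈ pn (m * n), χ z = (1 / 2) * ((∑ x ∈ pn m, χ x) * ∑ y ∈ pn n, χ y) := by
    rw [← h2, key]; ring
  rw [h3]; ring

theorem bg_prime_pow {χ : GI → ℂ} (h : CE χ) {p : GI} (hp : PP p) {j : ℕ} (hj : 1 ≤ j) :
    bg χ (nm p ^ j) = χ p ^ j + χ (star p) ^ j := by
  have hce := h
  have hpr : Prime p := PP_prime hp
  have hOd : Od p := hp.1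
  have hnmpow : ∀ (w : GI) (i : ℕ), nm (w ^ i) = nm w ^ i := by
    intro w i
    induction i with
    | zero => simp [nm_one]
    | succ i ih => rw [pow_succ, nm_mul, ih, pow_succ]
  have hOdpow : ∀ (w : GI) (i : ℕ), Od w → Od (w ^ i) := by
    intro w i hw
    induction i with
    | zero => rw [pow_zero]; exact Od_one
    | succ i ih => rw [pow_succ]; exact Od_mul ih hw
  have hstar : ∀ i : ℕ, star (p ^ i) = (star p) ^ i := fun i => star_pow p i
  have hq5 := PP_three_le hp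
  have hsp : Prime (star p) := by
    have h1 : star p ≠ 0 := Od_ne (Od_star hOd)
    have := (MulEquiv.prime_iff (starRingAut (R := GI)).toMulEquiv (p := p)).2 hpr
    exact this
  -- p and star p not dividing each other
  have hnd : ¬ p ∣ star p := PP_not_dvd_star hp hp
  have hPrpow : Pr (p ^ j) := by
    rw [PMU_Pr_iff]
    intro q hq hd
    have h1 : q ^ 2 ∣ nm p ^ j := by
      obtain ⟨c, hc⟩ := hd
      have h2 : nm (p ^ j) = nm ((q : ℕ) : GI) * nm c := by rw [← nm_mul, ← hc]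
      have h3 : nm ((q : ℕ) : GI) = q ^ 2 := by
        have := nm_int ((q : ℕ) : GI)
        simp only [Zsqrtd.re_natCast, Zsqrtd.im_natCast] at this
        have h' : (nm ((q : ℕ) : GI) : ℤ) = ((q ^ 2 : ℕ) : ℤ) := by rw [this]; push_cast; ring
        exact_mod_cast h'
      rw [hnmpow, h3] at h2
      exact ⟨_, h2⟩
    have h2 : q ∣ nm p ^ j := (Dvd.intro_left _ (by rw [pow_two])).trans h1
    have h3 : q ∣ nm p := hq.dvd_of_dvd_pow h2
    have h4 : q = nm p := (Nat.prime_dvd_prime_iff_eq hq hp.2.2.2).1 h3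
    rw [h4, PMU_nm_cast] at hd
    have h5 : star p ∣ p ^ j := (Dvd.intro_left _ rfl).trans hd
    have h6 : star p ∣ p := hsp.dvd_of_dvd_pow h5
    have h7 : p ∣ star p := by
      obtain ⟨c, hc⟩ := h6
      refine ⟨star c, ?_⟩
      have := congrArg star hc
      rw [star_mul, star_star] at this
      rw [this, mul_comm]
    exact hnd h7
  have hset : pn (nm p ^ j) = {p ^ j, -p ^ j, star (p ^ j), -star (p ^ j)} := by
    ext z
    rw [mem_pn]
    simp only [Finset.mem_insert, Finset.mem_singleton]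
    constructor
    · rintro ⟨h1, h2, h3⟩
      have hd : z ∣ p ^ j * (star p) ^ j := by
        refine ⟨star z, ?_⟩
        rw [← PMU_nm_cast, h3, ← mul_pow, ← PMU_nm_cast]
        push_cast
        rfl
      obtain ⟨x, y, hx, hy, hxy⟩ := exists_dvd_and_dvd_of_dvd_mul hd
      obtain ⟨a, ha, hxa⟩ := (dvd_prime_pow hpr _).1 hx
      obtain ⟨b, hb, hyb⟩ := (dvd_prime_pow hsp _).1 hy
      have hza : Associated (p ^ a * (star p) ^ b) z := by
        rw [hxy]; exact (hxa.mul_mul hyb).symm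
      have hnz : nm z = nm p ^ a * nm p ^ b := by
        obtain ⟨u, hu⟩ := hza
        rw [← hu, nm_mul, nm_mul, hnmpow, hnmpow, nm_star, PMU_nm_of_unit u.isUnit, mul_one]
      have hab : a + b = j := by
        rw [h3, ← pow_add] at hnz
        exact (Nat.pow_right_injective (by omega : 2 ≤ nm p) hnz).symm
      by_cases ha0 : a = 0
      · subst ha0
        rw [zero_add] at hab
        subst hab
        rw [pow_zero, one_mul, ← hstar] at hza
        rcases PMU_assoc (Od_star (hOdpow p b hOd)) h1 hza with h4 | h4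
        · right; right; left; exact h4
        · right; right; right; exact h4
      by_cases hb0 : b = 0
      · subst hb0
        rw [add_zero] at hab
        subst hab
        rw [pow_zero, mul_one] at hza
        rcases PMU_assoc (hOdpow p a hOd) h1 hza with h4 | h4
        · left; exact h4
        · right; left; exact h4
      exfalso
      have h4 : ((nm p : ℕ) : GI) ∣ z := by
        rw [PMU_nm_cast]
        refine (mul_dvd_mul (dvd_pow_self p ha0) (dvd_pow_self (star p) hb0)).trans ?_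
        exact hza.dvd
      exact (PMU_Pr_iff z).1 h2 _ hp.2.2.2 h4
    · rintro (h | h | h | h)
      · rw [h]; exact ⟨hOdpow p j hOd, hPrpow, hnmpow p j⟩
      · rw [h]; exact ⟨Od_neg (hOdpow p j hOd), Pr_neg hPrpow, by rw [nm_neg]; exact hnmpow p j⟩
      · rw [h]; exact ⟨Od_star (hOdpow p j hOd), Pr_star hPrpow, by rw [nm_star]; exact hnmpow p j⟩
      · rw [h]
        exact ⟨Od_neg (Od_star (hOdpow p j hOd)), Pr_neg (Pr_star hPrpow),
          by rw [nm_neg, nm_star]; exact hnmpow p j⟩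
  have hneg : ∀ w : GI, Od w → w ≠ -w := by
    intro w hw he
    have := congrArg Zsqrtd.re he
    rw [Zsqrtd.re_neg] at this
    have := hw.1
    omega
  have hj0 : j ≠ 0 := by omega
  have hns : ¬ p ∣ star (p ^ j) := by
    rw [hstar]
    intro h
    exact hnd (hpr.dvd_of_dvd_pow h)
  have hn1 : p ^ j ≠ star (p ^ j) := by
    intro h
    exact hns (h ▸ dvd_pow_self p hj0)
  have hn2 : p ^ j ≠ -star (p ^ j) := by
    intro h
    have : p ∣ -star (p ^ j) := h ▸ dvd_pow_self p hj0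
    exact hns ((dvd_neg).1 this)
  have hsum : ∑ z ∈ pn (nm p ^ j), χ z
      = χ (p ^ j) + (χ (p ^ j) + (χ (star (p ^ j)) + χ (star (p ^ j)))) := by
    rw [hset, Finset.sum_insert, Finset.sum_insert, Finset.sum_pair, hce.neg _ (hOdpow p j hOd),
      hce.neg _ (Od_star (hOdpow p j hOd))]
    · exact hneg _ (Od_star (hOdpow p j hOd))
    · simp only [Finset.mem_insert, Finset.mem_singleton, not_or]
      refine ⟨fun h => hn2 ?_, fun h => hn1 (neg_injective h)⟩
      rw [← h, neg_neg]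
    · simp only [Finset.mem_insert, Finset.mem_singleton, not_or]
      exact ⟨hneg _ (hOdpow p j hOd), hn1, hn2⟩
  have hupow : ∀ (w : GI), Od w → ∀ i : ℕ, χ (w ^ i) = χ w ^ i := by
    intro w hw i
    induction i with
    | zero => rw [pow_zero, pow_zero, hce.one]
    | succ i ih => rw [pow_succ, hce.mul _ _ (hOdpow w i hw) hw, ih, pow_succ]
  unfold bg
  rw [hsum, hupow p hOd, hstar, hupow (star p) (Od_star hOd)]
  ring

theorem bg_prime_pow_zero (χ : GI → ℂ) {p : ℕ} (hp : p.Prime) (h : p % 4 ≠ 1) {j : ℕ} (hj : 1 ≤ j) :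
    bg χ (p ^ j) = 0 := by
  have hj0 : j ≠ 0 := by omega
  have hemp : pn (p ^ j) = ∅ := by
    apply Finset.eq_empty_of_forall_notMem
    intro z hz
    rw [mem_pn] at hz
    obtain ⟨h1, h2, h3⟩ := hz
    have h4 := Od_nm h1
    rw [h3] at h4
    rcases hp.eq_two_or_odd with h5 | h5
    · subst h5
      have h6 : 2 ∣ 2 ^ j := dvd_pow_self 2 hj0
      omega
    · have h6 : p % 4 = 3 := by omega
      have : Fact p.Prime := ⟨hp⟩
      have h7 : Prime ((p : ℕ) : GI) := GaussianInt.prime_of_nat_prime_of_mod_four_eq_three p h6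
      have h8 : ((p : ℕ) : GI) ∣ z * star z := by
        rw [← PMU_nm_cast, h3]
        push_cast
        exact dvd_pow_self _ hj0
      rcases h7.dvd_or_dvd h8 with h9 | h9
      · exact (PMU_Pr_iff z).1 h2 p hp h9
      · exact (PMU_Pr_iff (star z)).1 (Pr_star h2) p hp h9
  unfold bg
  rw [hemp, Finset.sum_empty, mul_zero]

theorem norm_bg_le {χ : GI → ℂ} (h : CE χ) (n : ℕ) : ‖bg χ n‖ ≤ (bb 0 n).re := by
  rw [PMU_bb0]
  unfold bg
  rw [norm_mul]
  have h1 : ‖(1 / 2 : ℂ)‖ = 1 / 2 := by norm_num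
  rw [h1]
  have h2 : ‖∑ z ∈ pn n, χ z‖ ≤ ((pn n).card : ℝ) := by
    calc ‖∑ z ∈ pn n, χ z‖ ≤ ∑ z ∈ pn n, ‖χ z‖ := norm_sum_le _ _
      _ ≤ ∑ z ∈ pn n, (1 : ℝ) := Finset.sum_le_sum (fun z _ => h.le z)
      _ = ((pn n).card : ℝ) := by simp
  linarith

/-- `bg (sh χ)` is real -/
theorem bg_sh_real {χ : GI → ℂ} (h : CE χ) (n : ℕ) : bg (sh χ) n = ((bg (sh χ) n).re : ℂ) := by
  have hc : (starRingEnd ℂ) (bg (sh χ) n) = bg (sh χ) n := by
    unfold bg
    rw [map_mul, map_sum]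
    congr 1
    · simp [map_ofNat]
    · apply Finset.sum_nbij' (fun z => star z) (fun z => star z)
      · intro z hz
        rw [mem_pn] at hz ⊢
        exact ⟨Od_star hz.1, Pr_star hz.2.1, by rw [nm_star]; exact hz.2.2⟩
      · intro z hz
        rw [mem_pn] at hz ⊢
        exact ⟨Od_star hz.1, Pr_star hz.2.1, by rw [nm_star]; exact hz.2.2⟩
      · intro z _; exact star_star z
      · intro z _; exact star_star z
      · intro z _
        show (starRingEnd ℂ) (χ z * (starRingEnd ℂ) (χ (star z))) =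
          χ (star z) * (starRingEnd ℂ) (χ (star (star z)))
        rw [map_mul, Complex.conj_conj, star_star, mul_comm]
  exact (Complex.conj_eq_iff_re.1 hc).symm

theorem sum_bg (χ : GI → ℂ) (x : ℝ) (hx : 0 ≤ x) :
    ∑ n ∈ Icc 1 ⌊x⌋₊, bg χ n = (1 / 2) * ∑ z ∈ pan 0 x, χ z := by
  rw [PMU_fib le_rfl hx, Finset.mul_sum]
  have h1 : (Icc 1 ⌊x⌋₊).filter (fun n : ℕ => (0 : ℝ) < (n : ℝ)) = Icc 1 ⌊x⌋₊ := by
    apply Finset.filter_true_of_mem
    intro n hn
    rw [Finset.mem_Icc] at hn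
    exact_mod_cast hn.1
  rw [h1]
  rfl

theorem sp_le_bg (f : ℕ → ℂ) (hf : CM f) (χ : GI → ℂ) (a b : ℝ) (ha : 0 ≤ a) :
    ‖∑ z ∈ pan a b, f (nm z) * χ z‖ ≤ 2 * ∑ n ∈ Icc 1 ⌊b⌋₊, ‖bg χ n‖ := by
  classical
  by_cases hb : 0 ≤ b
  · rw [PMU_fib ha hb]
    have h1 : ∀ n ∈ (Icc 1 ⌊b⌋₊).filter (fun n : ℕ => a < (n : ℝ)),
        ‖∑ z ∈ pn n, f (nm z) * χ z‖ ≤ 2 * ‖bg χ n‖ := by
      intro n _
      have h2 : ∑ z ∈ pn n, f (nm z) * χ z = f n * (2 * bg χ n) := by
        unfold bg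
        rw [← mul_assoc (2 : ℂ), show (2 : ℂ) * (1 / 2) = 1 by norm_num, one_mul, Finset.mul_sum]
        apply Finset.sum_congr rfl
        intro z hz
        rw [mem_pn] at hz
        rw [hz.2.2]
      rw [h2, norm_mul, norm_mul]
      have h3 : ‖(2 : ℂ)‖ = 2 := by norm_num
      rw [h3]
      have h4 := hf.norm_le n
      have h5 : 0 ≤ 2 * ‖bg χ n‖ := by positivity
      nlinarith
    calc ‖∑ n ∈ (Icc 1 ⌊b⌋₊).filter (fun n : ℕ => a < (n : ℝ)), ∑ z ∈ pn n, f (nm z) * χ z‖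
        ≤ ∑ n ∈ (Icc 1 ⌊b⌋₊).filter (fun n : ℕ => a < (n : ℝ)), ‖∑ z ∈ pn n, f (nm z) * χ z‖ :=
          norm_sum_le _ _
      _ ≤ ∑ n ∈ (Icc 1 ⌊b⌋₊).filter (fun n : ℕ => a < (n : ℝ)), 2 * ‖bg χ n‖ := Finset.sum_le_sum h1
      _ ≤ ∑ n ∈ Icc 1 ⌊b⌋₊, 2 * ‖bg χ n‖ := by
          apply Finset.sum_le_sum_of_subset_of_nonneg (Finset.filter_subset _ _)
          intro n _ _
          positivity
      _ = 2 * ∑ n ∈ Icc 1 ⌊b⌋₊, ‖bg χ n‖ := by rw [Finset.mul_sum]
  · have h1 : pan a b = ∅ := by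
      apply Finset.eq_empty_of_forall_notMem
      intro z hz
      rw [mem_pan] at hz
      have : (0 : ℝ) ≤ (nm z : ℝ) := Nat.cast_nonneg _
      linarith [hz.2.2.2]
    rw [h1, Finset.sum_empty, norm_zero]
    positivity

end Pool.Agent.FCH
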