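import Pool.Agent.FCH.PsT
import Pool.Agent.FCH.HcB
import Pool.Agent.MRS.PwB

set_option autoImplicit false

/-! Module FbA: the Dirichlet series `F(s) = ∑ ζ^Ω(n) χ(n) b₀(n) n^{-s}`, `b₀(n) = (bb 0 n).re` (multiplicative; `b₀(p^j) = 2` for `p ≡ 1 (4)`, `j ≥ 1`, and `0` for the other primes).
Euler product for `re s > 1` (`‖a(n)‖ ≤ b₀(n)`, summable: `MRS.L_zero`/`plb_summable`; `EulerProduct.eulerProduct_hasProd`):
local factor at `p ≡ 1 (4)`: `1 + 2 ∑_{j≥1} (ζ χ(p) p^{-s})^j = (1 + w)/(1 - w)`, `w = ζχ(p)p^{-s}`, `|w| ≤ 1/5`; `|(1+w)/(1-w)| ≤ exp(2 Re w + C |w|²)`.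
So `|F(s)| ≤ exp(2 Re ∑_{p ≡ 1 (4)} ζ χ(p) p^{-s} + C)` and `2·1_{p ≡ 1 (4)} = 1 + χ_{-4}(p)` for `p > 2`:
`2∑_{p≡1(4)} ζ χ(p) p^{-s} = ζ ∑_p χ(p)p^{-s} + ζ ∑_p (χ χ_{-4})(p) p^{-s} + O(1)` where `χ χ_{-4}` is a character mod `4q`
(`changeLevel`).  At most one of the two characters is principal: the non-principal one contributes `O_T(1)` (`char_T`), the principal one `-ζ log(α+iu) + O_T(1)` (`zeta_T`, finitely many bad
primes): `Re(-ζ log(α + iu)) = -Re ζ · log|α+iu| + Im ζ · arg ≤ ρ log(1/|α+iu|) + C_T`, with `ρ = max 0 (Re ζ) < 1` (`|α+iu| ≤ T+1` when `Re ζ < 0`). -/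

open Finset

namespace Pool.Agent.FCH

open Pool.Agent.MRS hiding Good

/-- `ζ^Ω(n) χ(n) b₀(n)` -/
noncomputable def aa {q : ℕ} (ζ : ℂ) (χ : DirichletCharacter ℂ q) (n : ℕ) : ℂ :=
  fz ζ n * χ n * ((bb 0 n).re : ℂ)

/-- the character mod `4` -/
noncomputable def FbA_x4 : DirichletCharacter ℂ 4 := ZMod.χ₄.ringHomComp (Int.castRingHom ℂ)

theorem FbA_x4_apply (n : ℕ) : FbA_x4 (n : ZMod 4) = ((ZMod.χ₄ (n : ZMod 4) : ℤ) : ℂ) := rfl

theorem FbA_x4_ne : FbA_x4 ≠ 1 := by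
  intro h
  have h1 : FbA_x4 ((3 : ℕ) : ZMod 4) = (1 : DirichletCharacter ℂ 4) ((3 : ℕ) : ZMod 4) := by rw [h]
  rw [FbA_x4_apply, ZMod.χ₄_nat_three_mod_four (by norm_num)] at h1
  have h2 : (1 : DirichletCharacter ℂ 4) ((3 : ℕ) : ZMod 4) = 1 := by
    apply MulChar.one_apply
    exact (ZMod.isUnit_iff_coprime 3 4).mpr (by norm_num)
  rw [h2] at h1
  norm_num at h1

/-- the product character mod `4 q` -/
noncomputable def FbA_psi {q : ℕ} (χ : DirichletCharacter ℂ q) : DirichletCharacter ℂ (4 * q) :=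
  DirichletCharacter.changeLevel (Dvd.intro_left 4 rfl : q ∣ 4 * q) χ *
    DirichletCharacter.changeLevel (Dvd.intro q rfl : 4 ∣ 4 * q) FbA_x4

theorem FbA_psi_apply {q : ℕ} [NeZero q] (χ : DirichletCharacter ℂ q) {p : ℕ} (hp : p.Prime) :
    FbA_psi χ (p : ZMod (4 * q)) = χ (p : ZMod q) * FbA_x4 (p : ZMod 4) := by
  have hq : q ≠ 0 := NeZero.ne q
  by_cases hc : Nat.Coprime p (4 * q)
  · unfold FbA_psi
    rw [MulChar.mul_apply]
    have hci : IsCoprime ((p : ℕ) : ℤ) ((4 * q : ℕ) : ℤ) := Nat.isCoprime_iff_coprime.mpr hc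
    have h1 := DirichletCharacter.changeLevel_eq_cast_of_dvd' χ (Dvd.intro_left 4 rfl : q ∣ 4 * q) hci
    have h2 := DirichletCharacter.changeLevel_eq_cast_of_dvd' FbA_x4 (Dvd.intro q rfl : 4 ∣ 4 * q) hci
    simp only [Int.cast_natCast] at h1 h2
    rw [h1, h2]
  · have hdvd : p ∣ 4 * q := by
      by_contra h
      exact hc ((Nat.Prime.coprime_iff_not_dvd hp).mpr h)
    have h0 : FbA_psi χ (p : ZMod (4 * q)) = 0 := by
      apply MulChar.map_nonunit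
      rw [ZMod.isUnit_iff_coprime]
      exact hc
    rw [h0]
    symm
    rcases (Nat.Prime.dvd_mul hp).mp hdvd with h | h
    · have hp2 : p ∣ 2 := by
        have : p ∣ 2 ^ 2 := by simpa using h
        exact hp.dvd_of_dvd_pow this
      have hp2' : p = 2 := (Nat.prime_dvd_prime_iff_eq hp Nat.prime_two).mp hp2
      have h3 : FbA_x4 ((p : ℕ) : ZMod 4) = 0 := by
        apply MulChar.map_nonunit
        rw [ZMod.isUnit_iff_coprime, hp2']
        norm_num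
      rw [h3, mul_zero]
    · have h3 : χ (p : ZMod q) = 0 := by
        apply MulChar.map_nonunit
        rw [ZMod.isUnit_iff_coprime]
        intro h4
        have := Nat.Coprime.eq_one_of_dvd h4 h
        exact hp.one_lt.ne' this
      rw [h3, zero_mul]

theorem FbA_x4_prime {p : ℕ} (hp : p.Prime) : FbA_x4 (p : ZMod 4) =
    if p = 2 then 0 else if p % 4 = 1 then 1 else -1 := by
  by_cases h2 : p = 2
  · rw [if_pos h2]
    apply MulChar.map_nonunit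
    rw [ZMod.isUnit_iff_coprime, h2]
    norm_num
  · rw [if_neg h2, FbA_x4_apply]
    have hodd : p % 2 = 1 := Nat.odd_iff.mp (hp.odd_of_ne_two h2)
    by_cases h4 : p % 4 = 1
    · rw [if_pos h4, ZMod.χ₄_nat_one_mod_four h4]
      norm_num
    · rw [if_neg h4, ZMod.χ₄_nat_three_mod_four (by omega)]
      norm_num

theorem FbA_cpow_pow (p : ℕ) (s : ℂ) (e : ℕ) : ((p ^ e : ℕ) : ℂ) ^ s = (((p : ℕ) : ℂ) ^ s) ^ e := by
  induction e with
  | zero => simp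
  | succ e ih =>
    rw [pow_succ, Nat.cast_mul, Complex.natCast_mul_natCast_cpow, ih, pow_succ]

theorem FbA_bb0 {p : ℕ} (hp : p.Prime) (h4 : p % 4 = 1) {j : ℕ} (hj : 1 ≤ j) :
    (bb 0 (p ^ j)).re = 2 := by
  obtain ⟨x, hx, hn⟩ := PP_exists hp h4
  rw [← hn, bb_prime_pow 0 hx hj]
  simp
  norm_num

theorem FbA_norm_w {q : ℕ} {ζ : ℂ} (hζ : ‖ζ‖ = 1) (χ : DirichletCharacter ℂ q) {s : ℂ}
    {p : ℕ} (hp : p.Prime) : ‖ζ * (χ p * (p : ℂ) ^ (-s))‖ ≤ (p : ℝ) ^ (-s.re) := by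
  rw [norm_mul, hζ, one_mul, norm_mul, Complex.norm_natCast_cpow_of_pos hp.pos]
  have h := χ.norm_le_one (p : ℕ)
  have h2 : (0 : ℝ) ≤ (p : ℝ) ^ (-s).re := by positivity
  calc _ ≤ 1 * (p : ℝ) ^ (-s).re := mul_le_mul_of_nonneg_right h h2
    _ = _ := by rw [one_mul, Complex.neg_re]

theorem FbA_local {q : ℕ} {ζ : ℂ} (hζ : ‖ζ‖ = 1) (χ : DirichletCharacter ℂ q) {s : ℂ}
    (hs : 1 < s.re) {p : ℕ} (hp : p.Prime) :
    ∑' e : ℕ, LSeries.term (aa ζ χ) s (p ^ e) =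
      if p % 4 = 1 then 1 + 2 * (ζ * (χ p * (p : ℂ) ^ (-s))) / (1 - ζ * (χ p * (p : ℂ) ^ (-s))) else 1 := by
  set w : ℂ := ζ * (χ p * (p : ℂ) ^ (-s)) with hw
  have hterm : ∀ e : ℕ, LSeries.term (aa ζ χ) s (p ^ e) = w ^ e * ((bb 0 (p ^ e)).re : ℂ) := by
    intro e
    rw [LSeries.term_of_ne_zero (pow_ne_zero e hp.ne_zero)]
    unfold aa fz
    rw [ArithmeticFunction.cardFactors_apply_prime_pow hp, FbA_cpow_pow, Nat.cast_pow, map_pow, hw,
      mul_pow, mul_pow, Complex.cpow_neg, inv_pow]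
    field_simp
  have h0 : LSeries.term (aa ζ χ) s (p ^ 0) = 1 := by
    rw [hterm, pow_zero, pow_zero, bb_one]
    simp
  by_cases h4 : p % 4 = 1
  · rw [if_pos h4]
    have h5 : (5 : ℝ) ≤ p := by
      have : 5 ≤ p := by
        have h2 := hp.two_le
        by_contra hcon
        have : p < 5 := by omega
        interval_cases p <;> simp_all
      exact_mod_cast this
    have hwn : ‖w‖ < 1 := by
      refine (FbA_norm_w hζ χ hp).trans_lt ?_
      have h1 : (p : ℝ) ^ (-s.re) ≤ (p : ℝ) ^ (-(1 : ℝ)) :=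
        Real.rpow_le_rpow_of_exponent_le (by linarith) (by linarith)
      rw [Real.rpow_neg_one] at h1
      have h2 : (p : ℝ)⁻¹ < 1 := inv_lt_one_of_one_lt₀ (by linarith)
      linarith
    have hsucc : ∀ e : ℕ, LSeries.term (aa ζ χ) s (p ^ (e + 1)) = 2 * w * w ^ e := by
      intro e
      rw [hterm, FbA_bb0 hp h4 (by omega), pow_succ]
      push_cast
      ring
    have hsum : Summable (fun e : ℕ => LSeries.term (aa ζ χ) s (p ^ e)) := by
      rw [← summable_nat_add_iff 1]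
      simp only [hsucc]
      exact (summable_geometric_of_norm_lt_one hwn).mul_left _
    rw [hsum.tsum_eq_zero_add, h0]
    simp only [hsucc]
    rw [tsum_mul_left, tsum_geometric_of_norm_lt_one hwn, div_eq_mul_inv]
  · rw [if_neg h4, tsum_eq_single 0, h0]
    intro e he
    rw [hterm, bb_prime_pow_zero 0 hp h4 (Nat.one_le_iff_ne_zero.mpr he)]
    simp

theorem FbA_fac {w : ℂ} (hw : ‖w‖ ≤ 1 / 5) : ‖1 + 2 * w / (1 - w)‖ ≤ Real.exp (2 * w.re + 6 * ‖w‖ ^ 2) := by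
  have h1 : 4 / 5 ≤ ‖1 - w‖ := by
    have := norm_sub_norm_le (1 : ℂ) w
    rw [norm_one] at this
    linarith
  have h1' : 0 < ‖1 - w‖ := by linarith
  have hne : (1 : ℂ) - w ≠ 0 := norm_pos_iff.mp h1'
  have hinv : ‖1 - w‖⁻¹ ≤ 5 / 4 := by
    rw [inv_le_comm₀ h1' (by norm_num)]
    linarith
  set z : ℂ := 2 * w / (1 - w) with hz
  have hz1 : ‖z‖ ≤ 5 / 2 * ‖w‖ := by
    rw [hz, norm_div, norm_mul, div_eq_mul_inv, Complex.norm_two]
    nlinarith [norm_nonneg w]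
  have hz2 : z = 2 * w + 2 * w ^ 2 / (1 - w) := by
    rw [hz]; field_simp; ring
  have hz3 : z.re ≤ 2 * w.re + 5 / 2 * ‖w‖ ^ 2 := by
    rw [hz2, Complex.add_re]
    have e1 : (2 * w).re = 2 * w.re := by simp
    have e2 : (2 * w ^ 2 / (1 - w)).re ≤ 5 / 2 * ‖w‖ ^ 2 := by
      refine (Complex.re_le_norm _).trans ?_
      rw [norm_div, norm_mul, norm_pow, div_eq_mul_inv, Complex.norm_two]
      nlinarith [sq_nonneg ‖w‖]
    linarith
  have h2 : ‖1 + z‖ ^ 2 = 1 + 2 * z.re + ‖z‖ ^ 2 := by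
    rw [Complex.sq_norm, Complex.sq_norm, Complex.normSq_apply, Complex.normSq_apply]
    simp
    ring
  have h3 : ‖1 + z‖ ^ 2 ≤ Real.exp (z.re + ‖z‖ ^ 2 / 2) ^ 2 := by
    rw [h2, ← Real.exp_nat_mul]
    have := Real.add_one_le_exp (((2 : ℕ) : ℝ) * (z.re + ‖z‖ ^ 2 / 2))
    push_cast at this ⊢
    linarith
  have h4 : ‖1 + z‖ ≤ Real.exp (z.re + ‖z‖ ^ 2 / 2) :=
    (pow_le_pow_iff_left₀ (norm_nonneg _) (Real.exp_pos _).le two_ne_zero).mp h3
  refine h4.trans (Real.exp_le_exp.mpr ?_)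
  have h5 : ‖z‖ ^ 2 ≤ (5 / 2 * ‖w‖) ^ 2 := pow_le_pow_left₀ (norm_nonneg _) hz1 2
  nlinarith [sq_nonneg ‖w‖]


theorem FbA_norm_aa {q : ℕ} {ζ : ℂ} (hζ : ‖ζ‖ = 1) (χ : DirichletCharacter ℂ q) (n : ℕ) :
    ‖aa ζ χ n‖ ≤ (bb 0 n).re := by
  unfold aa
  rw [norm_mul, norm_mul, norm_fz hζ, one_mul, Complex.norm_real,
    Real.norm_of_nonneg (peu_bb0_nonneg n)]
  exact mul_le_of_le_one_left (peu_bb0_nonneg n) (χ.norm_le_one _)

theorem FbA_summable {q : ℕ} {ζ : ℂ} (hζ : ‖ζ‖ = 1) (χ : DirichletCharacter ℂ q) {s : ℂ}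
    (hs : 1 < s.re) : Summable (fun n : ℕ => ‖LSeries.term (aa ζ χ) s n‖) := by
  have h := peu_summable (α := s.re - 1) (by linarith)
  refine Summable.of_nonneg_of_le (fun _ => norm_nonneg _) (fun n => ?_) h
  rcases Nat.eq_zero_or_pos n with rfl | hn
  · simp [bb_zero]
  · rw [LSeries.norm_term_eq, if_neg hn.ne', show -(1 + (s.re - 1)) = -s.re by ring,
      Real.rpow_neg (Nat.cast_nonneg n), div_eq_mul_inv]
    exact mul_le_mul_of_nonneg_right (FbA_norm_aa hζ χ n) (by positivity)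

theorem FbA_euler {q : ℕ} {ζ : ℂ} (hζ : ‖ζ‖ = 1) (χ : DirichletCharacter ℂ q) {s : ℂ}
    (hs : 1 < s.re) : HasProd (fun p : Nat.Primes => ∑' e : ℕ, LSeries.term (aa ζ χ) s ((p : ℕ) ^ e))
      (LSeries (aa ζ χ) s) := by
  have h1 : LSeries.term (aa ζ χ) s 1 = 1 := by
    rw [LSeries.term_of_ne_zero one_ne_zero]
    unfold aa fz
    simp [bb_one]
  refine EulerProduct.eulerProduct_hasProd h1 ?_ (FbA_summable hζ χ hs) (LSeries.term_zero _ _)
  intro m n hmn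
  rcases Nat.eq_zero_or_pos m with rfl | hm
  · rw [zero_mul, LSeries.term_zero, zero_mul]
  rcases Nat.eq_zero_or_pos n with rfl | hn
  · rw [mul_zero, LSeries.term_zero, mul_zero]
  have hb : (bb 0 (m * n)).re = (bb 0 m).re * (bb 0 n).re := by
    rw [bb_mul 0 hmn, Complex.mul_re, bb_im, zero_mul, sub_zero]
  rw [LSeries.term_of_ne_zero (Nat.mul_ne_zero hm.ne' hn.ne'), LSeries.term_of_ne_zero hm.ne',
    LSeries.term_of_ne_zero hn.ne', Nat.cast_mul, Complex.natCast_mul_natCast_cpow]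
  unfold aa
  rw [fz_mul ζ hm.ne' hn.ne', hb, Nat.cast_mul, map_mul]
  push_cast
  rw [mul_div_mul_comm]
  ring

theorem FbA_sumP {σ : ℝ} (hσ : 1 < σ) : Summable (fun p : Nat.Primes => ((p : ℕ) : ℝ) ^ (-σ)) :=
  Nat.Primes.summable_rpow.mpr (by linarith)

theorem FbA_sumW {q : ℕ} {ζ : ℂ} (hζ : ‖ζ‖ = 1) (χ : DirichletCharacter ℂ q) {s : ℂ}
    (hs : 1 < s.re) : Summable (fun p : Nat.Primes => ζ * (χ p * ((p : ℕ) : ℂ) ^ (-s))) :=
  Summable.of_norm_bounded (FbA_sumP hs) (fun p => FbA_norm_w hζ χ p.2)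

/-- first bound: Euler product -/
theorem FbA_step1 {q : ℕ} {ζ : ℂ} (hζ : ‖ζ‖ = 1) (χ : DirichletCharacter ℂ q) {s : ℂ}
    (hs : 1 < s.re) : ‖LSeries (aa ζ χ) s‖ ≤
      Real.exp ((∑' p : Nat.Primes, (if (p : ℕ) % 4 = 1 then 2 * (ζ * (χ p * ((p : ℕ) : ℂ) ^ (-s))) else 0)).re +
        6 * ∑' p : Nat.Primes, (((p : ℕ) : ℝ) ^ 2)⁻¹) := by
  have hZ : Summable (fun p : Nat.Primes => (((p : ℕ) : ℝ) ^ 2)⁻¹) :=
    (Real.summable_nat_pow_inv.2 (by norm_num : 1 < 2)).comp_injective Nat.Primes.coe_nat_injective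
  set g : Nat.Primes → ℂ := fun p =>
    if (p : ℕ) % 4 = 1 then 2 * (ζ * (χ p * ((p : ℕ) : ℂ) ^ (-s))) else 0 with hg
  have hgs : Summable g := by
    refine Summable.of_norm_bounded ((FbA_sumP hs).mul_left 2) (fun p => ?_)
    rw [hg]
    dsimp only
    split_ifs
    · rw [norm_mul, Complex.norm_two]
      exact mul_le_mul_of_nonneg_left (FbA_norm_w hζ χ p.2) (by norm_num)
    · rw [norm_zero]; positivity
  have hP := (FbA_euler hζ χ hs).norm
  have hG : HasSum (fun p => (g p).re + 6 * (((p : ℕ) : ℝ) ^ 2)⁻¹)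
      ((∑' p, g p).re + 6 * ∑' p : Nat.Primes, (((p : ℕ) : ℝ) ^ 2)⁻¹) := by
    have h1 : HasSum (fun p => (g p).re) ((∑' p, g p).re) := (Complex.hasSum_re hgs.hasSum)
    exact h1.add (hZ.hasSum.mul_left 6)
  have hE : Filter.Tendsto (fun S : Finset Nat.Primes => Real.exp (∑ p ∈ S, ((g p).re + 6 * (((p : ℕ) : ℝ) ^ 2)⁻¹)))
      Filter.atTop (nhds (Real.exp ((∑' p, g p).re + 6 * ∑' p : Nat.Primes, (((p : ℕ) : ℝ) ^ 2)⁻¹))) :=
    (Real.continuous_exp.tendsto _).comp hG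
  refine le_of_tendsto_of_tendsto hP hE (Filter.Eventually.of_forall (fun S => ?_))
  dsimp only
  rw [Real.exp_sum]
  refine Finset.prod_le_prod (fun p _ => norm_nonneg _) (fun p _ => ?_)
  rw [FbA_local hζ χ hs p.2, hg]
  dsimp only
  by_cases h4 : (p : ℕ) % 4 = 1
  · rw [if_pos h4, if_pos h4]
    set w : ℂ := ζ * (χ p * ((p : ℕ) : ℂ) ^ (-s)) with hw
    have h5 : (5 : ℝ) ≤ ((p : ℕ) : ℝ) := by
      obtain ⟨x, hx, hn⟩ := PP_exists p.2 h4
      rw [← hn]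
      exact_mod_cast PP_three_le hx
    have hwp : ‖w‖ ≤ ((p : ℕ) : ℝ)⁻¹ := by
      refine (FbA_norm_w hζ χ p.2).trans ?_
      rw [← Real.rpow_neg_one]
      exact Real.rpow_le_rpow_of_exponent_le (by linarith) (by linarith)
    have hw5 : ‖w‖ ≤ 1 / 5 := by
      refine hwp.trans ?_
      rw [inv_eq_one_div]
      exact one_div_le_one_div_of_le (by norm_num) h5
    refine (FbA_fac hw5).trans (Real.exp_le_exp.mpr ?_)
    have e1 : (2 * w).re = 2 * w.re := by simp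
    have e2 : ‖w‖ ^ 2 ≤ (((p : ℕ) : ℝ) ^ 2)⁻¹ := by
      rw [← inv_pow]
      exact pow_le_pow_left₀ (norm_nonneg _) hwp 2
    rw [e1]
    linarith
  · rw [if_neg h4, if_neg h4, norm_one]
    apply Real.one_le_exp
    simp

/-- second step: the two characters -/
theorem FbA_step2 {q : ℕ} [NeZero q] {ζ : ℂ} (hζ : ‖ζ‖ = 1) (χ : DirichletCharacter ℂ q) {s : ℂ}
    (hs : 1 < s.re) :
    (∑' p : Nat.Primes, (if (p : ℕ) % 4 = 1 then 2 * (ζ * (χ p * ((p : ℕ) : ℂ) ^ (-s))) else 0)).re ≤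
      (ζ * (∑' p : Nat.Primes, χ p * ((p : ℕ) : ℂ) ^ (-s)) +
        ζ * (∑' p : Nat.Primes, FbA_psi χ p * ((p : ℕ) : ℂ) ^ (-s))).re + 1 := by
  have h1 := FbA_sumW hζ χ hs
  have h2 := FbA_sumW hζ (FbA_psi χ) hs
  set t : Nat.Primes → ℂ := fun p => if (p : ℕ) = 2 then ζ * (χ p * ((p : ℕ) : ℂ) ^ (-s)) else 0 with ht
  have hts : HasSum t (t ⟨2, Nat.prime_two⟩) := by
    apply hasSum_single
    intro p hp
    rw [ht]
    dsimp only
    rw [if_neg]
    intro h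
    exact hp (Subtype.ext h)
  have hpt : ∀ p : Nat.Primes,
      (if (p : ℕ) % 4 = 1 then 2 * (ζ * (χ p * ((p : ℕ) : ℂ) ^ (-s))) else 0) =
      ζ * (χ p * ((p : ℕ) : ℂ) ^ (-s)) + ζ * (FbA_psi χ p * ((p : ℕ) : ℂ) ^ (-s)) - t p := by
    intro p
    rw [FbA_psi_apply χ p.2, FbA_x4_prime p.2, ht]
    dsimp only
    by_cases hp2 : (p : ℕ) = 2
    · rw [if_pos hp2, if_pos hp2, if_neg (by omega)]
      ring
    · rw [if_neg hp2, if_neg hp2]
      split_ifs <;> ring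
  simp only [hpt]
  have hsum : Summable (fun p : Nat.Primes => ζ * (χ p * ((p : ℕ) : ℂ) ^ (-s)) +
      ζ * (FbA_psi χ p * ((p : ℕ) : ℂ) ^ (-s))) := h1.add h2
  rw [hsum.tsum_sub hts.summable, h1.tsum_add h2, hts.tsum_eq, tsum_mul_left, tsum_mul_left,
    Complex.sub_re]
  have ht1 : ‖t ⟨2, Nat.prime_two⟩‖ ≤ 1 := by
    rw [ht]
    dsimp only
    rw [if_pos rfl]
    refine (FbA_norm_w hζ χ Nat.prime_two).trans ?_
    apply Real.rpow_le_one_of_one_le_of_nonpos <;> norm_num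
    linarith
  have := Complex.abs_re_le_norm (t ⟨2, Nat.prime_two⟩)
  have h3 := (abs_le.mp (this.trans ht1)).1
  linarith

/-- principal characters -/
theorem FbA_princ (q : ℕ) [NeZero q] : ∃ C : ℝ, 0 ≤ C ∧ ∀ s : ℂ, 1 < s.re →
    ‖∑' p : Nat.Primes, (1 : DirichletCharacter ℂ q) p * ((p : ℕ) : ℂ) ^ (-s) -
      ∑' p : Nat.Primes, ((p : ℕ) : ℂ) ^ (-s)‖ ≤ C := by
  classical
  have hfin : (Function.support (fun p : Nat.Primes => if (p : ℕ) ∣ q then (1 : ℝ) else 0)).Finite := by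
    have : (Function.support (fun p : Nat.Primes => if (p : ℕ) ∣ q then (1 : ℝ) else 0)) ⊆
        (fun p : Nat.Primes => (p : ℕ)) ⁻¹' (q.divisors : Set ℕ) := by
      intro p hp
      simp only [Function.mem_support, ne_eq, ite_eq_right_iff, one_ne_zero, imp_false, not_not] at hp
      simp only [Set.mem_preimage, Finset.mem_coe, Nat.mem_divisors]
      exact ⟨hp, NeZero.ne q⟩
    exact (Set.Finite.preimage (Nat.Primes.coe_nat_injective.injOn) (Finset.finite_toSet _)).subset this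
  have hsum : Summable (fun p : Nat.Primes => if (p : ℕ) ∣ q then (1 : ℝ) else 0) :=
    summable_of_hasFiniteSupport hfin
  refine ⟨∑' p : Nat.Primes, (if (p : ℕ) ∣ q then (1 : ℝ) else 0), tsum_nonneg (fun p => by positivity), ?_⟩
  intro s hs
  have h1 : Summable (fun p : Nat.Primes => (1 : DirichletCharacter ℂ q) p * ((p : ℕ) : ℂ) ^ (-s)) := by
    have := FbA_sumW (ζ := 1) (by simp) (1 : DirichletCharacter ℂ q) hs
    simpa using this
  have h2 : Summable (fun p : Nat.Primes => ((p : ℕ) : ℂ) ^ (-s)) := by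
    refine Summable.of_norm_bounded (FbA_sumP hs) (fun p => ?_)
    rw [Complex.norm_natCast_cpow_of_pos p.2.pos, Complex.neg_re]
  rw [← h1.tsum_sub h2]
  refine tsum_of_norm_bounded hsum.hasSum (fun p => ?_)
  by_cases hd : (p : ℕ) ∣ q
  · rw [if_pos hd]
    have h0 : (1 : DirichletCharacter ℂ q) ((p : ℕ) : ZMod q) = 0 := by
      apply MulChar.map_nonunit
      rw [ZMod.isUnit_iff_coprime]
      intro h4
      exact p.2.one_lt.ne' (Nat.Coprime.eq_one_of_dvd h4 hd)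
    rw [h0, zero_mul, zero_sub, norm_neg, Complex.norm_natCast_cpow_of_pos p.2.pos, Complex.neg_re]
    apply Real.rpow_le_one_of_one_le_of_nonpos
    · exact_mod_cast p.2.one_lt.le
    · linarith
  · rw [if_neg hd]
    have h0 : (1 : DirichletCharacter ℂ q) ((p : ℕ) : ZMod q) = 1 := by
      apply MulChar.one_apply
      rw [ZMod.isUnit_iff_coprime]
      exact (Nat.Prime.coprime_iff_not_dvd p.2).mpr hd
    rw [h0, one_mul, sub_self, norm_zero]

theorem FbA_re (α u : ℝ) : (1 + α + u * Complex.I : ℂ).re = 1 + α := by simp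

/-- uniform form for all characters -/
theorem FbA_char (q : ℕ) [NeZero q] (χ : DirichletCharacter ℂ q) (T : ℝ) (hT : 1 ≤ T) :
    ∃ K : ℝ, 0 < K ∧ ∀ α : ℝ, 0 < α → α ≤ 1 → ∀ u : ℝ, |u| ≤ T →
      ‖(∑' p : Nat.Primes, χ p * ((p : ℕ) : ℂ) ^ (-(1 + α + u * Complex.I))) +
        (if χ = 1 then Complex.log (α + u * Complex.I) else 0)‖ ≤ K := by
  by_cases h : χ = 1
  · obtain ⟨C, hC0, hC⟩ := FbA_princ q
    obtain ⟨K, hK0, hK⟩ := zeta_T T hT
    refine ⟨C + K, by linarith, ?_⟩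
    intro α h0 h1 u hu
    rw [if_pos h, h]
    have e1 := hC (1 + α + u * Complex.I) (by rw [FbA_re]; linarith)
    have e2 := hK α h0 h1 u hu
    have e3 := norm_add_le
      (∑' p : Nat.Primes, (1 : DirichletCharacter ℂ q) p * ((p : ℕ) : ℂ) ^ (-(1 + α + u * Complex.I)) -
      ∑' p : Nat.Primes, ((p : ℕ) : ℂ) ^ (-(1 + α + u * Complex.I)))
      ((∑' p : Nat.Primes, ((p : ℕ) : ℂ) ^ (-(1 + α + u * Complex.I)))
        + Complex.log (α + u * Complex.I))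
    have e4 : (∑' p : Nat.Primes, (1 : DirichletCharacter ℂ q) p * ((p : ℕ) : ℂ) ^ (-(1 + α + u * Complex.I))) +
        Complex.log (α + u * Complex.I) =
      (∑' p : Nat.Primes, (1 : DirichletCharacter ℂ q) p * ((p : ℕ) : ℂ) ^ (-(1 + α + u * Complex.I)) -
      ∑' p : Nat.Primes, ((p : ℕ) : ℂ) ^ (-(1 + α + u * Complex.I))) +
      ((∑' p : Nat.Primes, ((p : ℕ) : ℂ) ^ (-(1 + α + u * Complex.I)))
        + Complex.log (α + u * Complex.I)) := by ring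
    rw [e4]
    linarith
  · obtain ⟨K, hK0, hK⟩ := char_T q χ h T hT
    refine ⟨K, hK0, ?_⟩
    intro α h0 h1 u hu
    rw [if_neg h, add_zero]
    exact hK α h0 h1 u hu

theorem FbA_psi_ne {q : ℕ} [NeZero q] (χ : DirichletCharacter ℂ q) (h : χ = 1) : FbA_psi χ ≠ 1 := by
  unfold FbA_psi
  rw [h, map_one, one_mul]
  intro h1
  exact FbA_x4_ne ((DirichletCharacter.changeLevel_eq_one_iff _).mp h1)

/-- the final elementary inequalities -/
theorem FbA_fin {ζ : ℂ} (hζ : ‖ζ‖ = 1) {T : ℝ} (hT : 1 ≤ T) {z : ℂ} (hz0 : 0 < ‖z‖) (hz : ‖z‖ ≤ 1 + T) :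
    Real.exp (-(ζ * Complex.log z).re) ≤ Real.exp Real.pi * ((1 + T) * ‖z‖ ^ (-(max 0 ζ.re))) ∧
    1 ≤ Real.exp Real.pi * ((1 + T) * ‖z‖ ^ (-(max 0 ζ.re))) := by
  have hre : |ζ.re| ≤ 1 := (Complex.abs_re_le_norm ζ).trans hζ.le
  have him : |ζ.im| ≤ 1 := (Complex.abs_im_le_norm ζ).trans hζ.le
  have hρ0 : 0 ≤ max 0 ζ.re := le_max_left _ _
  have hρ1 : max 0 ζ.re ≤ 1 := max_le (by norm_num) (abs_le.mp hre).2
  have h1 : 1 ≤ (1 + T) * ‖z‖ ^ (-(max 0 ζ.re)) := by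
    rw [Real.rpow_neg hz0.le, ← div_eq_mul_inv, one_le_div (Real.rpow_pos_of_pos hz0 _)]
    calc ‖z‖ ^ (max 0 ζ.re) ≤ (1 + T) ^ (max 0 ζ.re) := Real.rpow_le_rpow hz0.le hz hρ0
      _ ≤ (1 + T) ^ (1 : ℝ) := Real.rpow_le_rpow_of_exponent_le (by linarith) hρ1
      _ = 1 + T := Real.rpow_one _
  have hpi : 1 ≤ Real.exp Real.pi := Real.one_le_exp Real.pi_pos.le
  refine ⟨?_, by nlinarith⟩
  have e1 : -(ζ * Complex.log z).re = -(ζ.re * Real.log ‖z‖) + ζ.im * Complex.arg z := by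
    rw [Complex.mul_re, Complex.log_re, Complex.log_im]
    ring
  have e2 : ζ.im * Complex.arg z ≤ Real.pi := by
    refine (le_abs_self _).trans ?_
    rw [abs_mul]
    have := Complex.abs_arg_le_pi z
    calc |ζ.im| * |Complex.arg z| ≤ 1 * Real.pi :=
          mul_le_mul him this (abs_nonneg _) (by norm_num)
      _ = Real.pi := one_mul _
  rw [e1, Real.exp_add, mul_comm]
  refine mul_le_mul (Real.exp_le_exp.mpr e2) ?_ (Real.exp_pos _).le (Real.exp_pos _).le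
  rcases le_or_gt 0 ζ.re with h | h
  · rw [max_eq_right h]
    have e3 : Real.exp (-(ζ.re * Real.log ‖z‖)) = ‖z‖ ^ (-ζ.re) := by
      rw [Real.rpow_def_of_pos hz0]
      congr 1
      ring
    rw [e3]
    have : 0 < ‖z‖ ^ (-ζ.re) := Real.rpow_pos_of_pos hz0 _
    nlinarith
  · rw [max_eq_left h.le, neg_zero, Real.rpow_zero, mul_one]
    have e3 : Real.exp (-(ζ.re * Real.log ‖z‖)) = ‖z‖ ^ (-ζ.re) := by
      rw [Real.rpow_def_of_pos hz0]
      congr 1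
      ring
    rw [e3]
    calc ‖z‖ ^ (-ζ.re) ≤ (1 + T) ^ (-ζ.re) := Real.rpow_le_rpow hz0.le hz (by linarith)
      _ ≤ (1 + T) ^ (1 : ℝ) := Real.rpow_le_rpow_of_exponent_le (by linarith)
          (by linarith [(abs_le.mp hre).1])
      _ = 1 + T := Real.rpow_one _

theorem F_bound (q : ℕ) [NeZero q] (χ : DirichletCharacter ℂ q) (ζ : ℂ) (hζ : ‖ζ‖ = 1)
    (hζ1 : ζ ≠ 1) (T : ℝ) (hT : 1 ≤ T) : ∃ K ρ : ℝ, 0 < K ∧ 0 ≤ ρ ∧ ρ < 1 ∧ ∀ α : ℝ, 0 < α → α ≤ 1 →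
    ∀ u : ℝ, |u| ≤ T → ‖LSeries (aa ζ χ) (1 + α + u * Complex.I)‖ ≤
      K * ‖(α : ℂ) + u * Complex.I‖ ^ (-ρ) := by
  have : NeZero (4 * q) := ⟨mul_ne_zero (by norm_num) (NeZero.ne q)⟩
  obtain ⟨K1, hK1, hA⟩ := FbA_char q χ T hT
  obtain ⟨K2, hK2, hB⟩ := FbA_char (4 * q) (FbA_psi χ) T hT
  have hρ1 : max 0 ζ.re < 1 := by
    apply max_lt (by norm_num)
    have h1 : ζ.re ≤ 1 := (Complex.re_le_norm ζ).trans hζ.le
    rcases h1.lt_or_eq with h | h
    · exact h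
    · exfalso
      apply hζ1
      have h2 := Complex.sq_norm ζ
      rw [hζ, Complex.normSq_apply, h] at h2
      have h3 : ζ.im = 0 := by nlinarith
      exact Complex.ext (by simpa using h) (by simpa using h3)
  set Z : ℝ := 6 * ∑' p : Nat.Primes, (((p : ℕ) : ℝ) ^ 2)⁻¹ with hZ
  refine ⟨Real.exp (K1 + K2 + 1 + Z) * (Real.exp Real.pi * (1 + T)), max 0 ζ.re, by positivity,
    le_max_left _ _, hρ1, ?_⟩
  intro α h0 h1 u hu
  set s : ℂ := 1 + α + u * Complex.I with hs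
  set z : ℂ := (α : ℂ) + u * Complex.I with hz
  have hsre : 1 < s.re := by rw [hs, FbA_re]; linarith
  have hz0 : 0 < ‖z‖ := by
    rw [norm_pos_iff]
    intro h
    have : z.re = 0 := by rw [h]; rfl
    rw [hz] at this
    simp at this
    linarith
  have hz1 : ‖z‖ ≤ 1 + T := by
    refine (norm_add_le _ _).trans ?_
    rw [norm_mul, Complex.norm_I, mul_one, Complex.norm_real, Complex.norm_real,
      Real.norm_of_nonneg h0.le, Real.norm_eq_abs]
    linarith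
  obtain ⟨f1, f2⟩ := FbA_fin hζ hT hz0 hz1
  have g1 := FbA_step1 hζ χ hsre
  have g2 := FbA_step2 hζ χ hsre
  have a1 := hA α h0 h1 u hu
  have b1 := hB α h0 h1 u hu
  rw [← hs, ← hz] at a1 b1
  set A : ℂ := ∑' p : Nat.Primes, χ p * ((p : ℕ) : ℂ) ^ (-s) with hAd
  set B : ℂ := ∑' p : Nat.Primes, FbA_psi χ p * ((p : ℕ) : ℂ) ^ (-s) with hBd
  have key : ∀ (w d : ℂ) (K : ℝ), ‖w + d‖ ≤ K → (ζ * w).re ≤ -(ζ * d).re + K := by
    intro w d K h
    have e : ζ * w = ζ * (w + d) - ζ * d := by ring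
    have h2 : (ζ * (w + d)).re ≤ K := by
      refine (Complex.re_le_norm _).trans ?_
      rw [norm_mul, hζ, one_mul]
      exact h
    rw [e, Complex.sub_re]
    linarith
  have kA := key A _ K1 a1
  have kB := key B _ K2 b1
  have hmain : Real.exp ((∑' p : Nat.Primes, (if (p : ℕ) % 4 = 1 then 2 * (ζ * (χ p * ((p : ℕ) : ℂ) ^ (-s))) else 0)).re +
        Z) ≤ Real.exp (K1 + K2 + 1 + Z) * (Real.exp Real.pi * ((1 + T) * ‖z‖ ^ (-(max 0 ζ.re)))) := by
    by_cases hχ : χ = 1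
    · have hψ := FbA_psi_ne χ hχ
      rw [if_pos hχ] at kA
      rw [if_neg hψ, mul_zero, Complex.zero_re, neg_zero] at kB
      refine le_trans (Real.exp_le_exp.mpr (show _ ≤ (K1 + K2 + 1 + Z) + -(ζ * Complex.log z).re from ?_)) ?_
      · rw [Complex.add_re] at g2
        linarith
      · rw [Real.exp_add]
        exact mul_le_mul_of_nonneg_left f1 (Real.exp_pos _).le
    · rw [if_neg hχ, mul_zero, Complex.zero_re, neg_zero] at kA
      by_cases hψ : FbA_psi χ = 1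
      · rw [if_pos hψ] at kB
        refine le_trans (Real.exp_le_exp.mpr (show _ ≤ (K1 + K2 + 1 + Z) + -(ζ * Complex.log z).re from ?_)) ?_
        · rw [Complex.add_re] at g2
          linarith
        · rw [Real.exp_add]
          exact mul_le_mul_of_nonneg_left f1 (Real.exp_pos _).le
      · rw [if_neg hψ, mul_zero, Complex.zero_re, neg_zero] at kB
        refine le_trans (Real.exp_le_exp.mpr (show _ ≤ (K1 + K2 + 1 + Z) from ?_)) ?_
        · rw [Complex.add_re] at g2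
          linarith
        · exact le_mul_of_one_le_right (Real.exp_pos _).le f2
  refine g1.trans (hmain.trans (le_of_eq ?_))
  ring

end Pool.Agent.FCH
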