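import Pool.Agent.FCH.Base

set_option autoImplicit false

/-! Module Tra: factorisations `a² + 1 = m₁ m₂` and unimodular pairs.
The map `(v, w) ↦ (ip v w, N(v), N(w))` from the pairs `v, w ∈ AA b m`, `dt v w = 1`, `ip v w > 0`, `q ∣ ip - a₀` to `fac b m q a₀` is exactly 4-to-1 (`ip_sq_add`: `ip² + 1 = N(v)N(w)`; `ip < m`).
Fibre of `(a, m₁, m₂)`: pairs with `conj v * w = a + i`, `N(v) = m₁`.  If `(v,w)` is in the fibre so are `(u v, u w)` for the 4 units `u`; conversely for two elements `(v,w)`, `(v',w')` the matrix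
`(v' w') (v w)⁻¹` is an integral rotation.
Existence: induction on `m₁ + m₂`: if `m₁ = 1`: `v = 1`, `w = a + i`; `m₂ = 1`: `w = i`, `v = 1 + a i`; if `m₁ ≤ m₂` then `a ≥ m₁`: replace `(a, m₁, m₂)` by
`(a - m₁, m₁, m₂ - 2a + m₁)`, `w` by `w - v`.
`v ∈ AA b m`: primitive since `dt v w = 1`. -/

open Finset

namespace Pool.Agent.FCH

open Pool.Agent.MRS hiding Good

/-- factorisations `a² + 1 = m₁ m₂`, `a ≥ 1`, `a ≡ a₀ (mod q)`, `m/b < m₁, m₂ ≤ m` -/
noncomputable def fac (b : ℝ) (m q : ℕ) (a₀ : ℤ) : Finset (ℕ × ℕ × ℕ) :=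
  open Classical in
  ((Icc 1 m) ×ˢ ((Icc 1 m) ×ˢ (Icc 1 m))).filter (fun t => t.1 ^ 2 + 1 = t.2.1 * t.2.2 ∧
    ((m : ℝ) / b < t.2.1 ∧ (m : ℝ) / b < t.2.2) ∧ (q : ℤ) ∣ (t.1 : ℤ) - a₀)

theorem Tra_exists (n : ℕ) : ∀ a m1 m2 : ℤ, 0 ≤ a → 1 ≤ m1 → 1 ≤ m2 → m1 + m2 ≤ n →
    a ^ 2 + 1 = m1 * m2 → ∃ x y s t : ℤ, x * t - y * s = 1 ∧ x * s + y * t = a ∧
      x ^ 2 + y ^ 2 = m1 ∧ s ^ 2 + t ^ 2 = m2 := by
  induction n with
  | zero => intro a m1 m2 _ h1 h2 h3 _; push_cast at h3; omega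
  | succ n ih =>
    intro a m1 m2 ha h1 h2 hn h
    by_cases e1 : m1 = 1
    · refine ⟨1, 0, a, 1, by ring, by ring, by rw [e1]; ring, ?_⟩
      rw [e1] at h; linarith
    by_cases e2 : m2 = 1
    · refine ⟨1, a, 0, 1, by ring, by ring, ?_, by rw [e2]; ring⟩
      rw [e2] at h; linarith
    have h1' : 2 ≤ m1 := by omega
    have h2' : 2 ≤ m2 := by omega
    have ha1 : 1 ≤ a := by
      by_contra hc
      have : a = 0 := by omega
      rw [this] at h
      nlinarith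
    rcases le_total m1 m2 with hle | hle
    · have ham : m1 ≤ a := by
        by_contra hc
        have h3 : a + 1 ≤ m1 := by omega
        have h4 : a + 1 ≤ m2 := by omega
        nlinarith
      have hprod : (a - m1) ^ 2 + 1 = m1 * (m2 - 2 * a + m1) := by
        have : (a - m1) ^ 2 + 1 = (a ^ 2 + 1) - 2 * a * m1 + m1 ^ 2 := by ring
        rw [this, h]; ring
      have hpos : 1 ≤ m2 - 2 * a + m1 := by
        by_contra hc
        have : m2 - 2 * a + m1 ≤ 0 := by omega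
        nlinarith [sq_nonneg (a - m1)]
      obtain ⟨x, y, s, t, g1, g2, g3, g4⟩ := ih (a - m1) m1 (m2 - 2 * a + m1) (by omega) h1 hpos
        (by push_cast at hn; omega) hprod
      refine ⟨x, y, s + x, t + y, by linarith, ?_, g3, ?_⟩
      · have : x * (s + x) + y * (t + y) = (x * s + y * t) + (x ^ 2 + y ^ 2) := by ring
        rw [this, g2, g3]; ring
      · have : (s + x) ^ 2 + (t + y) ^ 2 = (s ^ 2 + t ^ 2) + 2 * (x * s + y * t) + (x ^ 2 + y ^ 2) := by ring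
        rw [this, g2, g3, g4]; ring
    · have ham : m2 ≤ a := by
        by_contra hc
        have h3 : a + 1 ≤ m1 := by omega
        have h4 : a + 1 ≤ m2 := by omega
        nlinarith
      have hprod : (a - m2) ^ 2 + 1 = (m1 - 2 * a + m2) * m2 := by
        have : (a - m2) ^ 2 + 1 = (a ^ 2 + 1) - 2 * a * m2 + m2 ^ 2 := by ring
        rw [this, h]; ring
      have hpos : 1 ≤ m1 - 2 * a + m2 := by
        by_contra hc
        have : m1 - 2 * a + m2 ≤ 0 := by omega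
        nlinarith [sq_nonneg (a - m2)]
      obtain ⟨x, y, s, t, g1, g2, g3, g4⟩ := ih (a - m2) (m1 - 2 * a + m2) m2 (by omega) hpos h2
        (by push_cast at hn; omega) hprod
      refine ⟨x + s, y + t, s, t, by linarith, ?_, ?_, g4⟩
      · have : (x + s) * s + (y + t) * t = (x * s + y * t) + (s ^ 2 + t ^ 2) := by ring
        rw [this, g2, g4]; ring
      · have : (x + s) ^ 2 + (y + t) ^ 2 = (x ^ 2 + y ^ 2) + 2 * (x * s + y * t) + (s ^ 2 + t ^ 2) := by ring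
        rw [this, g2, g3, g4]; ring

theorem Tra_unit {c d : ℤ} (h : c ^ 2 + d ^ 2 = 1) :
    (c = 1 ∧ d = 0) ∨ (c = -1 ∧ d = 0) ∨ (c = 0 ∧ d = 1) ∨ (c = 0 ∧ d = -1) := by
  have hc : c ^ 2 ≤ 1 := by nlinarith [sq_nonneg d]
  have hd : d ^ 2 ≤ 1 := by nlinarith [sq_nonneg c]
  have hc1 : -1 ≤ c ∧ c ≤ 1 := by constructor <;> nlinarith
  have hd1 : -1 ≤ d ∧ d ≤ 1 := by constructor <;> nlinarith
  have hc2 : c = -1 ∨ c = 0 ∨ c = 1 := by omega
  have hd2 : d = -1 ∨ d = 0 ∨ d = 1 := by omega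
  rcases hc2 with rfl | rfl | rfl <;> rcases hd2 with rfl | rfl | rfl <;> simp_all

theorem Tra_unique {x y s t x' y' s' t' : ℤ} (h1 : x * t - y * s = 1) (h1' : x' * t' - y' * s' = 1)
    (h2 : x * s + y * t = x' * s' + y' * t') (h3 : x ^ 2 + y ^ 2 = x' ^ 2 + y' ^ 2)
    (h4 : s ^ 2 + t ^ 2 = s' ^ 2 + t' ^ 2) :
    ∃ c d : ℤ, c ^ 2 + d ^ 2 = 1 ∧ (x' = c * x - d * y ∧ y' = d * x + c * y) ∧
      (s' = c * s - d * t ∧ t' = d * s + c * t) := by
  set c := x' * t - s' * y with hc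
  set d := y' * t - t' * y with hd
  set c2 := t' * x - y' * s with hc2
  set d2 := x' * s - s' * x with hd2
  have k1 : c ^ 2 + d ^ 2 = 1 := by
    have : c ^ 2 + d ^ 2 = t ^ 2 * (x' ^ 2 + y' ^ 2) - 2 * t * y * (x' * s' + y' * t') +
        y ^ 2 * (s' ^ 2 + t' ^ 2) := by rw [hc, hd]; ring
    rw [this, ← h3, ← h2, ← h4]
    have : t ^ 2 * (x ^ 2 + y ^ 2) - 2 * t * y * (x * s + y * t) + y ^ 2 * (s ^ 2 + t ^ 2) =
      (x * t - y * s) ^ 2 := by ring
    rw [this, h1]; ring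
  have k2 : c2 ^ 2 + d2 ^ 2 = 1 := by
    have : c2 ^ 2 + d2 ^ 2 = s ^ 2 * (x' ^ 2 + y' ^ 2) - 2 * s * x * (x' * s' + y' * t') +
        x ^ 2 * (s' ^ 2 + t' ^ 2) := by rw [hc2, hd2]; ring
    rw [this, ← h3, ← h2, ← h4]
    have : s ^ 2 * (x ^ 2 + y ^ 2) - 2 * s * x * (x * s + y * t) + x ^ 2 * (s ^ 2 + t ^ 2) =
      (x * t - y * s) ^ 2 := by ring
    rw [this, h1]; ring
  have k3 : c * c2 + d * d2 = 1 := by
    have : c * c2 + d * d2 = (x * t - y * s) * (x' * t' - y' * s') := by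
      rw [hc, hd, hc2, hd2]; ring
    rw [this, h1, h1']; ring
  have k4 : (c - c2) ^ 2 + (d - d2) ^ 2 = 0 := by
    have : (c - c2) ^ 2 + (d - d2) ^ 2 = (c ^ 2 + d ^ 2) + (c2 ^ 2 + d2 ^ 2) - 2 * (c * c2 + d * d2) := by ring
    rw [this, k1, k2, k3]; ring
  have e1 : c = c2 := by nlinarith [sq_nonneg (c - c2), sq_nonneg (d - d2)]
  have e2 : d = d2 := by nlinarith [sq_nonneg (c - c2), sq_nonneg (d - d2)]
  refine ⟨c, d, k1, ⟨?_, ?_⟩, ?_, ?_⟩
  · rw [e2]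
    have : c * x - d2 * y = x' * (x * t - y * s) := by rw [hc, hd2]; ring
    rw [this, h1]; ring
  · have : d * x + c * y = d * x + c2 * y := by rw [e1]
    rw [this]
    have : d * x + c2 * y = y' * (x * t - y * s) := by rw [hd, hc2]; ring
    rw [this, h1]; ring
  · have : c * s - d * t = c * s - d2 * t := by rw [e2]
    rw [this]
    have : c * s - d2 * t = s' * (x * t - y * s) := by rw [hc, hd2]; ring
    rw [this, h1]; ring
  · have : d * s + c * t = d * s + c2 * t := by rw [e1]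
    rw [this]
    have : d * s + c2 * t = t' * (x * t - y * s) := by rw [hd, hc2]; ring
    rw [this, h1]; ring

/-- the fibre -/
noncomputable def Tra_fib (v w : GI) : Finset (GI × GI) :=
  {(v, w), (⟨-v.re, -v.im⟩, ⟨-w.re, -w.im⟩), (⟨-v.im, v.re⟩, ⟨-w.im, w.re⟩),
    (⟨v.im, -v.re⟩, ⟨w.im, -w.re⟩)}

theorem Tra_fib_card (v w : GI) (h : dt v w = 1) : (Tra_fib v w).card = 4 := by
  have hv : ¬ (v.re = 0 ∧ v.im = 0) := by
    rintro ⟨h1, h2⟩
    unfold dt at h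
    rw [h1, h2] at h
    simp at h
  unfold Tra_fib
  obtain ⟨x, y⟩ := v
  simp only at hv
  rw [Finset.card_insert_of_notMem, Finset.card_insert_of_notMem, Finset.card_insert_of_notMem,
    Finset.card_singleton]
  · simp only [mem_singleton, Prod.mk.injEq, Zsqrtd.ext_iff, not_and]
    rintro ⟨h1, h2⟩
    omega
  · simp only [mem_insert, mem_singleton, Prod.mk.injEq, Zsqrtd.ext_iff]
    rintro (⟨⟨h1, h2⟩, _⟩ | ⟨⟨h1, h2⟩, _⟩) <;> omega
  · simp only [mem_insert, mem_singleton, Prod.mk.injEq, Zsqrtd.ext_iff]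
    rintro (⟨⟨h1, h2⟩, _⟩ | ⟨⟨h1, h2⟩, _⟩ | ⟨⟨h1, h2⟩, _⟩) <;> omega

theorem Tra_mem_fib {v w v' w' : GI} (h1 : dt v w = 1) :
    (v', w') ∈ Tra_fib v w ↔ dt v' w' = 1 ∧ ip v' w' = ip v w ∧ nm v' = nm v ∧ nm w' = nm w := by
  constructor
  · intro h
    have key : ∀ c d : ℤ, c ^ 2 + d ^ 2 = 1 →
        v' = ⟨c * v.re - d * v.im, d * v.re + c * v.im⟩ → w' = ⟨c * w.re - d * w.im, d * w.re + c * w.im⟩ →
        dt v' w' = 1 ∧ ip v' w' = ip v w ∧ nm v' = nm v ∧ nm w' = nm w := by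
      rintro c d hcd rfl rfl
      refine ⟨?_, ?_, ?_, ?_⟩
      · have e : dt (⟨c * v.re - d * v.im, d * v.re + c * v.im⟩ : GI) ⟨c * w.re - d * w.im, d * w.re + c * w.im⟩ =
            (c ^ 2 + d ^ 2) * dt v w := by unfold dt; simp only; ring
        rw [e, hcd, h1, one_mul]
      · have e : ip (⟨c * v.re - d * v.im, d * v.re + c * v.im⟩ : GI) ⟨c * w.re - d * w.im, d * w.re + c * w.im⟩ =
            (c ^ 2 + d ^ 2) * ip v w := by unfold ip; simp only; ring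
        rw [e, hcd, one_mul]
      · have : ((nm (⟨c * v.re - d * v.im, d * v.re + c * v.im⟩ : GI) : ℕ) : ℤ) = (nm v : ℤ) := by
          rw [nm_int, nm_int]; simp only
          have : (c * v.re - d * v.im) ^ 2 + (d * v.re + c * v.im) ^ 2 = (c ^ 2 + d ^ 2) * (v.re ^ 2 + v.im ^ 2) := by ring
          rw [this, hcd]; ring
        exact_mod_cast this
      · have : ((nm (⟨c * w.re - d * w.im, d * w.re + c * w.im⟩ : GI) : ℕ) : ℤ) = (nm w : ℤ) := by
          rw [nm_int, nm_int]; simp only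
          have : (c * w.re - d * w.im) ^ 2 + (d * w.re + c * w.im) ^ 2 = (c ^ 2 + d ^ 2) * (w.re ^ 2 + w.im ^ 2) := by ring
          rw [this, hcd]; ring
        exact_mod_cast this
    unfold Tra_fib at h
    simp only [mem_insert, mem_singleton, Prod.mk.injEq] at h
    rcases h with ⟨rfl, rfl⟩ | ⟨h2, h3⟩ | ⟨h2, h3⟩ | ⟨h2, h3⟩
    · exact ⟨h1, rfl, rfl, rfl⟩
    · apply key (-1) 0 (by norm_num)
      · rw [h2]; ext <;> simp
      · rw [h3]; ext <;> simp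
    · apply key 0 1 (by norm_num)
      · rw [h2]; ext <;> simp
      · rw [h3]; ext <;> simp
    · apply key 0 (-1) (by norm_num)
      · rw [h2]; ext <;> simp
      · rw [h3]; ext <;> simp
  · rintro ⟨g1, g2, g3, g4⟩
    have g3' : (nm v' : ℤ) = nm v := by exact_mod_cast g3
    have g4' : (nm w' : ℤ) = nm w := by exact_mod_cast g4
    rw [nm_int, nm_int] at g3' g4'
    unfold dt at g1 h1
    unfold ip at g2
    obtain ⟨c, d, hcd, ⟨e1, e2⟩, e3, e4⟩ := Tra_unique (x := v.re) (y := v.im) (s := w.re) (t := w.im)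
      (x' := v'.re) (y' := v'.im) (s' := w'.re) (t' := w'.im) h1 g1 g2.symm g3'.symm g4'.symm
    unfold Tra_fib
    simp only [mem_insert, mem_singleton, Prod.mk.injEq, Zsqrtd.ext_iff]
    rcases Tra_unit hcd with ⟨rfl, rfl⟩ | ⟨rfl, rfl⟩ | ⟨rfl, rfl⟩ | ⟨rfl, rfl⟩
    · left; constructor <;> constructor <;> linarith
    · right; left; constructor <;> constructor <;> linarith
    · right; right; left; constructor <;> constructor <;> linarith
    · right; right; right; constructor <;> constructor <;> linarith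

theorem Tra_Pr {v w : GI} (h : dt v w = 1) : Pr v ∧ Pr w := by
  unfold dt at h
  constructor
  · unfold Pr
    have h1 : ((Int.gcd v.re v.im : ℕ) : ℤ) ∣ v.re * w.im - v.im * w.re :=
      dvd_sub (Dvd.dvd.mul_right (Int.gcd_dvd_left _ _) _) (Dvd.dvd.mul_right (Int.gcd_dvd_right _ _) _)
    rw [h] at h1
    have := Int.natCast_dvd_natCast.1 (by simpa using h1 : ((Int.gcd v.re v.im : ℕ) : ℤ) ∣ ((1 : ℕ) : ℤ))
    exact Nat.dvd_one.1 this
  · unfold Pr
    have h1 : ((Int.gcd w.re w.im : ℕ) : ℤ) ∣ v.re * w.im - v.im * w.re :=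
      dvd_sub (Dvd.dvd.mul_left (Int.gcd_dvd_right _ _) _) (Dvd.dvd.mul_left (Int.gcd_dvd_left _ _) _)
    rw [h] at h1
    have := Int.natCast_dvd_natCast.1 (by simpa using h1 : ((Int.gcd w.re w.im : ℕ) : ℤ) ∣ ((1 : ℕ) : ℤ))
    exact Nat.dvd_one.1 this

theorem tra (b : ℝ) (m q : ℕ) (a₀ : ℤ) (f : ℕ → ℂ) : open Classical in
    ∑ v ∈ AA b m, ∑ w ∈ AA b m, (if (dt v w = 1 ∧ 0 < ip v w) ∧ (q : ℤ) ∣ ip v w - a₀ then
      f (nm v * nm w) else 0) = 4 * ∑ t ∈ fac b m q a₀, f (t.1 ^ 2 + 1) := by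
  classical
  rw [← Finset.sum_product', ← Finset.sum_filter]
  set S := ((AA b m) ×ˢ (AA b m)).filter (fun p : GI × GI => (dt p.1 p.2 = 1 ∧ 0 < ip p.1 p.2) ∧
    (q : ℤ) ∣ ip p.1 p.2 - a₀) with hS
  have hmaps : ∀ p ∈ S, ((ip p.1 p.2).toNat, nm p.1, nm p.2) ∈ fac b m q a₀ := by
    intro p hp
    rw [hS, mem_filter, mem_product, mem_AA, mem_AA] at hp
    obtain ⟨⟨⟨h1, h2, h3⟩, h4, h5, h6⟩, ⟨h7, h8⟩, h9⟩ := hp
    have hsq := ip_sq_add p.1 p.2
    rw [h7] at hsq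
    have hn1 : nm p.1 ≤ m := by exact_mod_cast h1
    have hn2 : nm p.2 ≤ m := by exact_mod_cast h4
    have hip : ((ip p.1 p.2).toNat : ℤ) = ip p.1 p.2 := Int.toNat_of_nonneg h8.le
    have hn1' : (nm p.1 : ℤ) ≤ m := by exact_mod_cast hn1
    have hn2' : (nm p.2 : ℤ) ≤ m := by exact_mod_cast hn2
    have hn1p : (0 : ℤ) ≤ nm p.1 := by positivity
    have hn2p : (0 : ℤ) ≤ nm p.2 := by positivity
    have hne1 : nm p.1 ≠ 0 := by
      intro h0; rw [h0] at hsq; push_cast at hsq; nlinarith [sq_nonneg (ip p.1 p.2)]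
    have hne2 : nm p.2 ≠ 0 := by
      intro h0; rw [h0] at hsq; push_cast at hsq; nlinarith [sq_nonneg (ip p.1 p.2)]
    unfold fac
    rw [mem_filter, mem_product, mem_product, mem_Icc, mem_Icc, mem_Icc]
    simp only
    refine ⟨⟨⟨?_, ?_⟩, ⟨by omega, hn1⟩, by omega, hn2⟩, ?_, ⟨h3, h6⟩, ?_⟩
    · omega
    · have h10 : ip p.1 p.2 ^ 2 < (m : ℤ) ^ 2 := by nlinarith
      have h11 : ip p.1 p.2 < m := by
        by_contra hc
        push Not at hc
        nlinarith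
      omega
    · have : (((ip p.1 p.2).toNat ^ 2 + 1 : ℕ) : ℤ) = ((nm p.1 * nm p.2 : ℕ) : ℤ) := by
        push_cast
        rw [hip, ← hsq]; ring
      exact_mod_cast this
    · rw [hip]; exact h9
  rw [← Finset.sum_fiberwise_of_maps_to hmaps, Finset.mul_sum]
  apply Finset.sum_congr rfl
  intro t ht
  unfold fac at ht
  rw [mem_filter, mem_product, mem_product, mem_Icc, mem_Icc, mem_Icc] at ht
  obtain ⟨⟨⟨t1, t2⟩, ⟨t3, t4⟩, t5, t6⟩, t7, ⟨t8, t9⟩, t10⟩ := ht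
  obtain ⟨x, y, s, r, g1, g2, g3, g4⟩ := Tra_exists (t.2.1 + t.2.2) (t.1 : ℤ) (t.2.1 : ℤ) (t.2.2 : ℤ)
    (by positivity) (by exact_mod_cast t3) (by exact_mod_cast t5) (by push_cast; exact le_refl _)
    (by exact_mod_cast t7)
  set v : GI := ⟨x, y⟩ with hv
  set w : GI := ⟨s, r⟩ with hw
  have hdt : dt v w = 1 := by unfold dt; simp only [hv, hw]; exact g1
  have hip : ip v w = t.1 := by unfold ip; simp only [hv, hw]; exact g2
  have hnv : nm v = t.2.1 := by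
    have : (nm v : ℤ) = t.2.1 := by rw [nm_int]; simp only [hv]; exact g3
    exact_mod_cast this
  have hnw : nm w = t.2.2 := by
    have : (nm w : ℤ) = t.2.2 := by rw [nm_int]; simp only [hw]; exact g4
    exact_mod_cast this
  have hfib : S.filter (fun p => ((ip p.1 p.2).toNat, nm p.1, nm p.2) = t) = Tra_fib v w := by
    ext ⟨v', w'⟩
    rw [Tra_mem_fib hdt, mem_filter, hS, mem_filter, mem_product, mem_AA, mem_AA]
    simp only
    rw [hip, hnv, hnw]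
    constructor
    · rintro ⟨⟨_, ⟨h7, h8⟩, _⟩, he⟩
      have e1 : (ip v' w').toNat = t.1 := by rw [← he]
      have e2 : nm v' = t.2.1 := by rw [← he]
      have e3 : nm w' = t.2.2 := by rw [← he]
      refine ⟨h7, ?_, e2, e3⟩
      rw [← e1, Int.toNat_of_nonneg h8.le]
    · rintro ⟨h1, h2, h3, h4⟩
      have hpr := Tra_Pr h1
      refine ⟨⟨⟨⟨?_, hpr.1, ?_⟩, ?_, hpr.2, ?_⟩, ⟨h1, ?_⟩, ?_⟩, ?_⟩
      · rw [h3]; exact_mod_cast t4
      · rw [h3]; exact t8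
      · rw [h4]; exact_mod_cast t6
      · rw [h4]; exact t9
      · rw [h2]; exact_mod_cast t1
      · rw [h2]; exact t10
      · rw [h2, h3, h4]; simp
  rw [hfib]
  have hval : ∀ p ∈ Tra_fib v w, f (nm p.1 * nm p.2) = f (t.1 ^ 2 + 1) := by
    rintro ⟨v', w'⟩ hp
    rw [Tra_mem_fib hdt, hnv, hnw] at hp
    simp only
    rw [hp.2.2.1, hp.2.2.2, t7]
  rw [Finset.sum_congr rfl hval, Finset.sum_const, Tra_fib_card v w hdt, nsmul_eq_mul]
  norm_num

end Pool.Agent.FCH
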