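import Pool.Agent.FCH.Avg
import Pool.Agent.FCH.Cq
import Pool.Agent.FCH.Tra

set_option autoImplicit false

/-! Module FinC: conclusion.
`fac_sum` : `∑_{m ≤ X} (1/m²) ‖∑_{t ∈ fac} ζ^{Ω(a²+1)}‖ ≤ ε log X`: `tra` with `f = fz ζ`, `fz ζ (N(v)N(w)) = F(v)F(w)` (`fz_mul`), and the sum over the pairs with `ip ≡ a₀` is the sum over `(γ₁, γ₂) ∈ cls q × cls q` with `q ∣ ip γ₁ γ₂ - a₀` of `SS b m q γ₁ γ₂ F`;
`avg` with `ε/q⁴` (maximum of the `X0`).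
`fin_main`: with `ζ = exp(2πi h/k)`, `0 ≤ h < k`: `#fac_j = (1/k) ∑_h ζ_h^{-j} ∑_t ζ_h^{Ω}`, so `|#fac_j - #fac/k| ≤ (1/k) ∑_{1≤h<k} ‖∑_t ζ_h^Ω‖`.  `c` is a quarter of the constant of `cq` (`tra` with `f = 1`).  If `m ≥ m0` is bad: `‖∑...‖` sum `> k ε c m`, so
`∑_{m bad, m0 ≤ m ≤ X} 1/m ≤ (1/(kεc)) ∑_m (1/m²) ∑_h ‖...‖ ≤ (ε/2) log X`; the `m < m0` contribute `≤ 1 + log m0 ≤ (ε/2) log X`. -/

open Finset

namespace Pool.Agent.FCH

open Pool.Agent.MRS hiding Good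

/-- the reduction of `z` modulo `q` -/
def FinC_red (q : ℕ) (z : GI) : GI := ⟨z.re % q, z.im % q⟩

theorem FinC_red_mem {q : ℕ} (hq : 1 ≤ q) (z : GI) : FinC_red q z ∈ cls q := by
  have hq0 : (0 : ℤ) < q := by exact_mod_cast hq
  rw [mem_cls]
  unfold FinC_red
  exact ⟨⟨Int.emod_nonneg _ hq0.ne', Int.emod_lt_of_pos _ hq0⟩,
    ⟨Int.emod_nonneg _ hq0.ne', Int.emod_lt_of_pos _ hq0⟩⟩

theorem FinC_cg_iff {q : ℕ} (z γ : GI) (hγ : γ ∈ cls q) : cg q z γ ↔ γ = FinC_red q z := by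
  obtain ⟨⟨h1, h2⟩, h3, h4⟩ := mem_cls.1 hγ
  unfold cg FinC_red
  constructor
  · rintro ⟨e1, e2⟩
    have f1 : z.re % q = γ.re % q := Int.emod_eq_emod_iff_emod_sub_eq_zero.2
      (Int.emod_eq_zero_of_dvd e1)
    have f2 : z.im % q = γ.im % q := Int.emod_eq_emod_iff_emod_sub_eq_zero.2
      (Int.emod_eq_zero_of_dvd e2)
    apply Zsqrtd.ext
    · show γ.re = z.re % q
      rw [f1, Int.emod_eq_of_lt h1 h2]
    · show γ.im = z.im % q
      rw [f2, Int.emod_eq_of_lt h3 h4]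
  · intro h
    rw [h]
    exact ⟨Int.dvd_self_sub_emod, Int.dvd_self_sub_emod⟩

theorem FinC_ip {q : ℕ} (a₀ : ℤ) (v w : GI) :
    (q : ℤ) ∣ ip v w - a₀ ↔ (q : ℤ) ∣ ip (FinC_red q v) (FinC_red q w) - a₀ := by
  unfold ip FinC_red
  have h1 : (q : ℤ) ∣ (v.re * w.re + v.im * w.im - a₀) -
      (v.re % q * (w.re % q) + v.im % q * (w.im % q) - a₀) := by
    have e1 : (q : ℤ) ∣ v.re - v.re % q := Int.dvd_self_sub_emod
    have e2 : (q : ℤ) ∣ w.re - w.re % q := Int.dvd_self_sub_emod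
    have e3 : (q : ℤ) ∣ v.im - v.im % q := Int.dvd_self_sub_emod
    have e4 : (q : ℤ) ∣ w.im - w.im % q := Int.dvd_self_sub_emod
    have : (v.re * w.re + v.im * w.im - a₀) -
        (v.re % q * (w.re % q) + v.im % q * (w.im % q) - a₀) =
        (v.re - v.re % q) * w.re + (v.re % q) * (w.re - w.re % q) +
        ((v.im - v.im % q) * w.im + (v.im % q) * (w.im - w.im % q)) := by ring
    rw [this]
    exact dvd_add (dvd_add (Dvd.dvd.mul_right e1 _) (Dvd.dvd.mul_left e2 _))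
      (dvd_add (Dvd.dvd.mul_right e3 _) (Dvd.dvd.mul_left e4 _))
  exact dvd_iff_dvd_of_dvd_sub h1

/-- splitting the pairs according to their classes -/
theorem FinC_split (b : ℝ) (m q : ℕ) (hq : 1 ≤ q) (a₀ : ℤ) (F : GI → ℂ) : open Classical in
    ∑ v ∈ AA b m, ∑ w ∈ AA b m, (if (dt v w = 1 ∧ 0 < ip v w) ∧ (q : ℤ) ∣ ip v w - a₀ then
      F v * F w else 0) =
    ∑ γ ∈ (cls q ×ˢ cls q).filter (fun γ => (q : ℤ) ∣ ip γ.1 γ.2 - a₀), SS b m q γ.1 γ.2 F := by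
  classical
  unfold SS
  conv_rhs => rw [sum_comm]
  refine sum_congr rfl fun v _ => ?_
  conv_rhs => rw [sum_comm]
  refine sum_congr rfl fun w _ => ?_
  by_cases h1 : dt v w = 1 ∧ 0 < ip v w
  · by_cases h2 : (q : ℤ) ∣ ip v w - a₀
    · rw [if_pos ⟨h1, h2⟩]
      symm
      rw [sum_eq_single (FinC_red q v, FinC_red q w)]
      · rw [if_pos]
        exact ⟨h1, (FinC_cg_iff _ _ (FinC_red_mem hq v)).2 rfl,
          (FinC_cg_iff _ _ (FinC_red_mem hq w)).2 rfl⟩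
      · rintro ⟨γ₁, γ₂⟩ hγ hne
        rw [mem_filter, mem_product] at hγ
        rw [if_neg]
        rintro ⟨-, h3, h4⟩
        apply hne
        rw [Prod.mk.injEq]
        exact ⟨(FinC_cg_iff _ _ hγ.1.1).1 h3, (FinC_cg_iff _ _ hγ.1.2).1 h4⟩
      · intro hn
        exfalso
        apply hn
        rw [mem_filter, mem_product]
        exact ⟨⟨FinC_red_mem hq v, FinC_red_mem hq w⟩, (FinC_ip a₀ v w).1 h2⟩
    · rw [if_neg (fun h => h2 h.2)]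
      symm
      refine sum_eq_zero ?_
      rintro ⟨γ₁, γ₂⟩ hγ
      rw [mem_filter, mem_product] at hγ
      rw [if_neg]
      rintro ⟨-, h3, h4⟩
      apply h2
      rw [FinC_ip, ← (FinC_cg_iff _ _ hγ.1.1).1 h3, ← (FinC_cg_iff _ _ hγ.1.2).1 h4]
      exact hγ.2
  · rw [if_neg (fun h => h1 h.1)]
    symm
    refine sum_eq_zero ?_
    intro γ _
    rw [if_neg (fun h => h1 h.1)]

theorem fac_sum (k : ℕ) (hk : 1 ≤ k) (ζ : ℂ) (hζ : ζ ^ k = 1) (hζ1 : ζ ≠ 1) (b : ℝ) (hb : 1 < b) (q : ℕ)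
    (hq : 1 ≤ q) (a₀ : ℤ) (ε : ℝ) (hε : 0 < ε) : ∃ X0 : ℕ, ∀ X : ℕ, X0 ≤ X →
    ∑ m ∈ Icc 1 X, (1 / (m : ℝ) ^ 2) * ‖∑ t ∈ fac b m q a₀, fz ζ (t.1 ^ 2 + 1)‖ ≤ ε * Real.log X := by
  classical
  set G := (cls q ×ˢ cls q).filter (fun γ => (q : ℤ) ∣ ip γ.1 γ.2 - a₀) with hG
  set ε' : ℝ := ε / (G.card + 1) with hε'
  have hε'0 : 0 < ε' := by positivity
  choose X0 hX0 using fun γ : GI × GI => avg k hk ζ hζ hζ1 b hb q hq γ.1 γ.2 ε' hε'0
  refine ⟨G.sup X0 + 1, fun X hX => ?_⟩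
  have hX1 : (1 : ℝ) ≤ X := by
    have : 1 ≤ X := by omega
    exact_mod_cast this
  have hlog : 0 ≤ Real.log X := Real.log_nonneg hX1
  set F : GI → ℂ := fun z => fz ζ (nm z) with hF
  have h1 : ∀ m : ℕ, 4 * ∑ t ∈ fac b m q a₀, fz ζ (t.1 ^ 2 + 1) = ∑ γ ∈ G, SS b m q γ.1 γ.2 F := by
    intro m
    rw [← tra b m q a₀ (fz ζ), ← FinC_split b m q hq a₀ F]
    refine sum_congr rfl fun v hv => sum_congr rfl fun w hw => ?_
    split_ifs
    · rw [hF]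
      exact fz_mul ζ (nm_pos (Pr_ne (mem_AA.1 hv).2.1)).ne' (nm_pos (Pr_ne (mem_AA.1 hw).2.1)).ne'
    · rfl
  have h2 : ∀ m : ℕ, ‖∑ t ∈ fac b m q a₀, fz ζ (t.1 ^ 2 + 1)‖ ≤ ∑ γ ∈ G, ‖SS b m q γ.1 γ.2 F‖ := by
    intro m
    have e1 : ‖4 * ∑ t ∈ fac b m q a₀, fz ζ (t.1 ^ 2 + 1)‖ ≤ ∑ γ ∈ G, ‖SS b m q γ.1 γ.2 F‖ := by
      rw [h1]
      exact norm_sum_le _ _
    rw [norm_mul] at e1
    have e2 : ‖(4 : ℂ)‖ = 4 := by norm_num
    rw [e2] at e1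
    have e3 := norm_nonneg (∑ t ∈ fac b m q a₀, fz ζ (t.1 ^ 2 + 1))
    linarith
  calc ∑ m ∈ Icc 1 X, (1 / (m : ℝ) ^ 2) * ‖∑ t ∈ fac b m q a₀, fz ζ (t.1 ^ 2 + 1)‖
      ≤ ∑ m ∈ Icc 1 X, (1 / (m : ℝ) ^ 2) * ∑ γ ∈ G, ‖SS b m q γ.1 γ.2 F‖ :=
        sum_le_sum fun m _ => mul_le_mul_of_nonneg_left (h2 m) (by positivity)
    _ = ∑ γ ∈ G, ∑ m ∈ Icc 1 X, (1 / (m : ℝ) ^ 2) * ‖SS b m q γ.1 γ.2 F‖ := by
        rw [sum_comm]
        refine sum_congr rfl fun m _ => ?_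
        rw [mul_sum]
    _ ≤ ∑ γ ∈ G, ε' * Real.log X := by
        refine sum_le_sum fun γ hγ => hX0 γ X ?_
        have := le_sup (f := X0) hγ
        omega
    _ = G.card * ε' * Real.log X := by
        rw [sum_const, nsmul_eq_mul]
        ring
    _ ≤ ε * Real.log X := by
        refine mul_le_mul_of_nonneg_right ?_ hlog
        rw [hε', mul_div_assoc', div_le_iff₀ (by positivity)]
        nlinarith

theorem fac_lower (b : ℝ) (hb : 1 < b) (q : ℕ) (hq : 1 ≤ q) (a₀ : ℤ) : ∃ c : ℝ, 0 < c ∧ ∃ m0 : ℕ,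
    ∀ m : ℕ, m0 ≤ m → c * m ≤ ((fac b m q a₀).card : ℝ) := by
  classical
  obtain ⟨c, hc, m0, h⟩ := cq b hb q hq a₀
  refine ⟨c / 4, by positivity, m0, fun m hm => ?_⟩
  have h1 := h m hm
  have h2 := tra b m q a₀ (fun _ => 1)
  rw [← sum_product', sum_const, nsmul_eq_mul, mul_one, ← sum_filter, sum_const, nsmul_eq_mul,
    mul_one] at h2
  have h3 : (((AA b m ×ˢ AA b m).filter (fun e => (dt e.1 e.2 = 1 ∧ 0 < ip e.1 e.2) ∧
      (q : ℤ) ∣ ip e.1 e.2 - a₀)).card : ℝ) = 4 * ((fac b m q a₀).card : ℝ) := by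
    exact_mod_cast h2
  rw [h3] at h1
  linarith

/-- factorisations with `Ω(a² + 1) ≡ j (mod k)` -/
noncomputable def facj (b : ℝ) (m q : ℕ) (a₀ : ℤ) (k j : ℕ) : Finset (ℕ × ℕ × ℕ) :=
  open Classical in (fac b m q a₀).filter (fun t => ArithmeticFunction.cardFactors (t.1 ^ 2 + 1) ≡ j [MOD k])

theorem FinC_orth {k : ℕ} (hk : 1 ≤ k) {ω : ℂ} (hω : IsPrimitiveRoot ω k) (n j : ℕ) :
    open Classical in
    ∑ h ∈ range k, (ω ^ n * (ω ^ j)⁻¹) ^ h = if n ≡ j [MOD k] then (k : ℂ) else 0 := by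
  classical
  have hω0 : ω ≠ 0 := hω.ne_zero (by omega)
  split_ifs with h
  · have h1 : ω ^ n = ω ^ j := by
      rw [(hω.isOfFinOrder (by omega)).pow_inj_mod, ← hω.eq_orderOf]
      exact h
    rw [h1, mul_inv_cancel₀ (pow_ne_zero _ hω0)]
    simp
  · have h1 : ω ^ n * (ω ^ j)⁻¹ ≠ 1 := by
      intro h2
      apply h
      have h3 : ω ^ n = ω ^ j := by
        field_simp at h2
        exact h2
      rw [(hω.isOfFinOrder (by omega)).pow_inj_mod, ← hω.eq_orderOf] at h3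
      exact h3
    have h2 : (ω ^ n * (ω ^ j)⁻¹) ^ k = 1 := by
      rw [mul_pow, inv_pow, ← pow_mul, ← pow_mul, mul_comm n, mul_comm j, pow_mul, pow_mul,
        hω.pow_eq_one]
      simp
    have h3 := mul_geom_sum (ω ^ n * (ω ^ j)⁻¹) k
    rw [h2, sub_self] at h3
    rcases mul_eq_zero.1 h3 with h4 | h4
    · exact absurd (sub_eq_zero.1 h4) h1
    · exact h4

theorem FinC_dev (b : ℝ) (m q : ℕ) (a₀ : ℤ) {k : ℕ} (hk : 1 ≤ k) {ω : ℂ}
    (hω : IsPrimitiveRoot ω k) (j : ℕ) :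
    |((facj b m q a₀ k j).card : ℝ) - (fac b m q a₀).card / k| ≤
      ∑ h ∈ Ico 1 k, ‖∑ t ∈ fac b m q a₀, fz (ω ^ h) (t.1 ^ 2 + 1)‖ := by
  classical
  have hω0 : ω ≠ 0 := hω.ne_zero (by omega)
  have hω1 : ‖ω‖ = 1 := Complex.norm_eq_one_of_pow_eq_one hω.pow_eq_one (by omega)
  have hk0 : (1 : ℝ) ≤ k := by exact_mod_cast hk
  have h1 : (k : ℂ) * ((facj b m q a₀ k j).card : ℂ) =
      ∑ h ∈ range k, ((ω ^ j)⁻¹) ^ h * ∑ t ∈ fac b m q a₀, fz (ω ^ h) (t.1 ^ 2 + 1) := by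
    unfold facj
    rw [card_filter]
    push_cast
    rw [mul_sum]
    have e1 : ∀ t ∈ fac b m q a₀, (k : ℂ) *
        (if ArithmeticFunction.cardFactors (t.1 ^ 2 + 1) ≡ j [MOD k] then (1 : ℂ) else 0) =
        ∑ h ∈ range k, ((ω ^ j)⁻¹) ^ h * fz (ω ^ h) (t.1 ^ 2 + 1) := by
      intro t _
      have e2 := FinC_orth hk hω (ArithmeticFunction.cardFactors (t.1 ^ 2 + 1)) j
      rw [mul_ite, mul_one, mul_zero, ← e2]
      refine sum_congr rfl fun h _ => ?_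
      unfold fz
      rw [mul_pow, ← pow_mul, ← pow_mul, mul_comm (ArithmeticFunction.cardFactors (t.1 ^ 2 + 1)) h]
      ring
    rw [sum_congr rfl e1, sum_comm]
    refine sum_congr rfl fun h _ => ?_
    rw [mul_sum]
  have h2 : (k : ℂ) * ((facj b m q a₀ k j).card : ℂ) - ((fac b m q a₀).card : ℂ) =
      ∑ h ∈ Ico 1 k, ((ω ^ j)⁻¹) ^ h * ∑ t ∈ fac b m q a₀, fz (ω ^ h) (t.1 ^ 2 + 1) := by
    rw [h1, range_eq_Ico, sum_eq_sum_Ico_succ_bot (by omega : 0 < k)]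
    have e1 : ∑ t ∈ fac b m q a₀, fz (ω ^ 0) (t.1 ^ 2 + 1) = ((fac b m q a₀).card : ℂ) := by
      have : ∀ t ∈ fac b m q a₀, fz (ω ^ 0) (t.1 ^ 2 + 1) = 1 := by
        intro t _
        unfold fz
        rw [pow_zero, one_pow]
      rw [sum_congr rfl this, sum_const, nsmul_eq_mul, mul_one]
    rw [pow_zero, one_mul, e1]
    ring
  have h3 : |(k : ℝ) * ((facj b m q a₀ k j).card : ℝ) - ((fac b m q a₀).card : ℝ)| ≤
      ∑ h ∈ Ico 1 k, ‖∑ t ∈ fac b m q a₀, fz (ω ^ h) (t.1 ^ 2 + 1)‖ := by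
    have e1 : ‖(k : ℂ) * ((facj b m q a₀ k j).card : ℂ) - ((fac b m q a₀).card : ℂ)‖ =
        |(k : ℝ) * ((facj b m q a₀ k j).card : ℝ) - ((fac b m q a₀).card : ℝ)| := by
      rw [← Real.norm_eq_abs, ← Complex.norm_real]
      push_cast
      rfl
    rw [← e1, h2]
    refine (norm_sum_le _ _).trans (sum_le_sum fun h _ => ?_)
    rw [norm_mul, norm_pow, norm_inv, norm_pow, hω1, one_pow, inv_one, one_pow, one_mul]
  have h4 : |((facj b m q a₀ k j).card : ℝ) - (fac b m q a₀).card / k| ≤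
      |(k : ℝ) * ((facj b m q a₀ k j).card : ℝ) - ((fac b m q a₀).card : ℝ)| := by
    have e1 : (k : ℝ) * ((facj b m q a₀ k j).card : ℝ) - ((fac b m q a₀).card : ℝ) =
        k * (((facj b m q a₀ k j).card : ℝ) - (fac b m q a₀).card / k) := by
      field_simp
    rw [e1, abs_mul, abs_of_pos (by linarith : (0 : ℝ) < k)]
    have := abs_nonneg (((facj b m q a₀ k j).card : ℝ) - (fac b m q a₀).card / k)
    nlinarith
  exact h4.trans h3

theorem fin_main (k : ℕ) (hk : 1 ≤ k) (q : ℕ) (hq : 1 ≤ q) (a₀ : ℤ) (b : ℝ) (hb : 1 < b) :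
    ∃ c : ℝ, 0 < c ∧ ∀ ε : ℝ, 0 < ε → ∃ X0 : ℕ, ∀ X : ℕ, X0 ≤ X → ∀ j : ℕ, open Classical in
    ∑ m ∈ (Icc 1 X).filter (fun m => ¬ (c * m ≤ ((fac b m q a₀).card : ℝ) ∧
      |((facj b m q a₀ k j).card : ℝ) - (fac b m q a₀).card / k| ≤ ε * (fac b m q a₀).card)), 1 / (m : ℝ) ≤
      ε * Real.log X := by
  classical
  obtain ⟨c, hc, m0, hm0⟩ := fac_lower b hb q hq a₀
  refine ⟨c, hc, fun ε hε => ?_⟩
  set ω : ℂ := Complex.exp (2 * Real.pi * Complex.I / k) with hωd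
  have hω : IsPrimitiveRoot ω k := Complex.isPrimitiveRoot_exp k (by omega)
  have hk0 : (1 : ℝ) ≤ k := by exact_mod_cast hk
  set ε' : ℝ := ε * (ε * c) / (2 * k) with hε'
  have hε'0 : 0 < ε' := by positivity
  have hex : ∀ h : ℕ, ∃ X0 : ℕ, h ∈ Ico 1 k → ∀ X : ℕ, X0 ≤ X →
      ∑ m ∈ Icc 1 X, (1 / (m : ℝ) ^ 2) * ‖∑ t ∈ fac b m q a₀, fz (ω ^ h) (t.1 ^ 2 + 1)‖ ≤
        ε' * Real.log X := by
    intro h
    by_cases hh : h ∈ Ico 1 k
    · rw [mem_Ico] at hh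
      have e1 : (ω ^ h) ^ k = 1 := by
        rw [← pow_mul, mul_comm, pow_mul, hω.pow_eq_one, one_pow]
      have e2 : ω ^ h ≠ 1 := hω.pow_ne_one_of_pos_of_lt (by omega) hh.2
      obtain ⟨X0, hX0⟩ := fac_sum k hk (ω ^ h) e1 e2 b hb q hq a₀ ε' hε'0
      exact ⟨X0, fun _ => hX0⟩
    · exact ⟨0, fun h' => absurd h' hh⟩
  choose X0 hX0 using hex
  obtain ⟨X1, hX1⟩ : ∃ X1 : ℕ, ∀ X : ℕ, X1 ≤ X → (m0 : ℝ) ≤ (ε / 2) * Real.log X := by
    have h1 : Filter.Tendsto (fun X : ℕ => (ε / 2) * Real.log X) Filter.atTop Filter.atTop :=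
      (Real.tendsto_log_atTop.comp tendsto_natCast_atTop_atTop).const_mul_atTop (by positivity)
    exact Filter.eventually_atTop.1 (h1.eventually_ge_atTop (m0 : ℝ))
  refine ⟨(Ico 1 k).sup X0 + X1, fun X hX j => ?_⟩
  have hbad : ∀ m ∈ (Icc 1 X).filter (fun m => ¬ (c * m ≤ ((fac b m q a₀).card : ℝ) ∧
      |((facj b m q a₀ k j).card : ℝ) - (fac b m q a₀).card / k| ≤ ε * (fac b m q a₀).card)),
      1 / (m : ℝ) ≤ (if m < m0 then (1 : ℝ) else 0) + (1 / (ε * c)) * ((1 / (m : ℝ) ^ 2) *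
        ∑ h ∈ Ico 1 k, ‖∑ t ∈ fac b m q a₀, fz (ω ^ h) (t.1 ^ 2 + 1)‖) := by
    intro m hm
    rw [mem_filter, mem_Icc] at hm
    obtain ⟨⟨hm1, -⟩, hm2⟩ := hm
    have hmr : (1 : ℝ) ≤ m := by exact_mod_cast hm1
    split_ifs with hlt
    · have e1 : 1 / (m : ℝ) ≤ 1 := by
        rw [div_le_one (by linarith)]
        exact hmr
      have e2 : 0 ≤ (1 / (ε * c)) * ((1 / (m : ℝ) ^ 2) *
          ∑ h ∈ Ico 1 k, ‖∑ t ∈ fac b m q a₀, fz (ω ^ h) (t.1 ^ 2 + 1)‖) := by positivity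
      linarith
    · have e1 := hm0 m (by omega)
      have e2 : ε * ((fac b m q a₀).card : ℝ) <
          |((facj b m q a₀ k j).card : ℝ) - (fac b m q a₀).card / k| := by
        by_contra hcon
        exact hm2 ⟨e1, not_lt.1 hcon⟩
      have e3 := FinC_dev b m q a₀ hk hω j
      have e4 : ε * (c * m) ≤ ∑ h ∈ Ico 1 k, ‖∑ t ∈ fac b m q a₀, fz (ω ^ h) (t.1 ^ 2 + 1)‖ := by
        have : ε * (c * m) ≤ ε * ((fac b m q a₀).card : ℝ) := mul_le_mul_of_nonneg_left e1 hε.le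
        linarith
      rw [zero_add]
      calc 1 / (m : ℝ) = (1 / (ε * c)) * ((1 / (m : ℝ) ^ 2) * (ε * (c * m))) := by
            field_simp
        _ ≤ _ := by
            refine mul_le_mul_of_nonneg_left (mul_le_mul_of_nonneg_left e4 ?_) ?_ <;> positivity
  have hsm : ∑ m ∈ Icc 1 X, (if m < m0 then (1 : ℝ) else 0) ≤ m0 := by
    rw [← sum_filter, sum_const, nsmul_eq_mul, mul_one]
    have : ((Icc 1 X).filter (fun m => m < m0)).card ≤ (range m0).card := by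
      refine card_le_card ?_
      intro m hm
      rw [mem_filter] at hm
      exact mem_range.2 hm.2
    rw [card_range] at this
    exact_mod_cast this
  have hX1' := hX1 X (by omega)
  have hlog : 0 ≤ Real.log X := by
    have e1 : (0 : ℝ) ≤ m0 := by positivity
    have e2 : 0 ≤ (ε / 2) * Real.log X := e1.trans hX1'
    by_contra hcon
    push Not at hcon
    have : (ε / 2) * Real.log X < 0 := mul_neg_of_pos_of_neg (by positivity) hcon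
    linarith
  calc ∑ m ∈ (Icc 1 X).filter (fun m => ¬ (c * m ≤ ((fac b m q a₀).card : ℝ) ∧
      |((facj b m q a₀ k j).card : ℝ) - (fac b m q a₀).card / k| ≤ ε * (fac b m q a₀).card)),
        1 / (m : ℝ)
      ≤ ∑ m ∈ (Icc 1 X).filter (fun m => ¬ (c * m ≤ ((fac b m q a₀).card : ℝ) ∧
      |((facj b m q a₀ k j).card : ℝ) - (fac b m q a₀).card / k| ≤ ε * (fac b m q a₀).card)),
        ((if m < m0 then (1 : ℝ) else 0) + (1 / (ε * c)) * ((1 / (m : ℝ) ^ 2) *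
        ∑ h ∈ Ico 1 k, ‖∑ t ∈ fac b m q a₀, fz (ω ^ h) (t.1 ^ 2 + 1)‖)) := sum_le_sum hbad
    _ ≤ ∑ m ∈ Icc 1 X, ((if m < m0 then (1 : ℝ) else 0) + (1 / (ε * c)) * ((1 / (m : ℝ) ^ 2) *
        ∑ h ∈ Ico 1 k, ‖∑ t ∈ fac b m q a₀, fz (ω ^ h) (t.1 ^ 2 + 1)‖)) := by
        refine sum_le_sum_of_subset_of_nonneg (filter_subset _ _) fun m _ _ => ?_
        positivity
    _ = ∑ m ∈ Icc 1 X, (if m < m0 then (1 : ℝ) else 0) + (1 / (ε * c)) * ∑ h ∈ Ico 1 k,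
        ∑ m ∈ Icc 1 X, (1 / (m : ℝ) ^ 2) * ‖∑ t ∈ fac b m q a₀, fz (ω ^ h) (t.1 ^ 2 + 1)‖ := by
        rw [sum_add_distrib, ← mul_sum, sum_comm (s := Ico 1 k)]
        congr 2
        refine sum_congr rfl fun m _ => ?_
        rw [mul_sum]
    _ ≤ (ε / 2) * Real.log X + (1 / (ε * c)) * ∑ h ∈ Ico 1 k, ε' * Real.log X := by
        refine add_le_add (hsm.trans hX1') (mul_le_mul_of_nonneg_left ?_ (by positivity))
        refine sum_le_sum fun h hh => hX0 h hh X ?_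
        have := le_sup (f := X0) hh
        omega
    _ ≤ ε * Real.log X := by
        rw [sum_const, nsmul_eq_mul, Nat.card_Ico]
        have e1 : ((k - 1 : ℕ) : ℝ) ≤ k := by exact_mod_cast Nat.sub_le k 1
        have e2 : (1 / (ε * c)) * (((k - 1 : ℕ) : ℝ) * (ε' * Real.log X)) ≤
            (1 / (ε * c)) * ((k : ℝ) * (ε' * Real.log X)) := by
          refine mul_le_mul_of_nonneg_left (mul_le_mul_of_nonneg_right e1 ?_) ?_ <;> positivity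
        have e3 : (1 / (ε * c)) * ((k : ℝ) * (ε' * Real.log X)) = (ε / 2) * Real.log X := by
          rw [hε']
          field_simp
        rw [e3] at e2
        linarith

end Pool.Agent.FCH
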