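import Pool.Agent.FCH.FinC

set_option autoImplicit false

/-! Module FinL: the Liouville function, weights on `a`. -/

open Finset

namespace Pool.Agent.FCH

open Pool.Agent.MRS hiding Good

/-- the integers `v ≡ a₀ (mod N)` with `|v| ≤ m` -/
noncomputable def Prog (a₀ : ℤ) (N m : ℕ) : Finset ℤ := (Icc (-(m : ℤ)) m).filter (fun v => (N : ℤ) ∣ v - a₀)

/-- number of factorisations `v² + 1 = m₁ m₂` with `m/b < m₁, m₂ ≤ m` -/
noncomputable def wt (b : ℝ) (m : ℕ) (v : ℤ) : ℕ :=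
  open Classical in
  ((Icc 1 m ×ˢ Icc 1 m).filter (fun d : ℕ × ℕ => (m : ℝ) / b < d.1 ∧ (m : ℝ) / b < d.2 ∧
    (d.1 : ℤ) * d.2 = v ^ 2 + 1)).card

/-- Liouville's function at `|n|` -/
def lio (n : ℤ) : ℝ := (-1) ^ (ArithmeticFunction.cardFactors n.natAbs)

theorem wt_neg (b : ℝ) (m : ℕ) (v : ℤ) : wt b m (-v) = wt b m v := by
  unfold wt
  rw [neg_sq]

theorem lio_neg (v : ℤ) : lio ((-v) ^ 2 + 1) = lio (v ^ 2 + 1) := by
  rw [neg_sq]

/-- positive part -/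
theorem FinL_pos (b : ℝ) (m N : ℕ) (a₀ : ℤ) (f : ℕ → ℝ) :
    ∑ a ∈ (Icc 1 m).filter (fun a : ℕ => (N : ℤ) ∣ (a : ℤ) - a₀), (wt b m (a : ℤ) : ℝ) * f (a ^ 2 + 1) =
      ∑ t ∈ fac b m N a₀, f (t.1 ^ 2 + 1) := by
  classical
  have h1 : ∀ t ∈ fac b m N a₀, t.1 ∈ (Icc 1 m).filter (fun a : ℕ => (N : ℤ) ∣ (a : ℤ) - a₀) := by
    intro t ht
    unfold fac at ht
    rw [mem_filter, mem_product] at ht
    rw [mem_filter]
    exact ⟨ht.1.1, ht.2.2.2⟩
  rw [← sum_fiberwise_of_maps_to h1]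
  apply sum_congr rfl
  intro a ha
  rw [mem_filter] at ha
  have h2 : ∑ t ∈ (fac b m N a₀).filter (fun t => t.1 = a), f (t.1 ^ 2 + 1) =
      ∑ t ∈ (fac b m N a₀).filter (fun t => t.1 = a), f (a ^ 2 + 1) := by
    apply sum_congr rfl
    intro t ht
    rw [mem_filter] at ht
    rw [ht.2]
  rw [h2, sum_const, nsmul_eq_mul]
  congr 1
  norm_cast
  unfold wt
  apply card_bij (fun d _ => ((a, d) : ℕ × ℕ × ℕ))
  · intro d hd
    rw [mem_filter] at hd
    rw [mem_filter]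
    refine ⟨?_, rfl⟩
    unfold fac
    rw [mem_filter, mem_product]
    refine ⟨⟨ha.1, hd.1⟩, ?_, ⟨hd.2.1, hd.2.2.1⟩, ha.2⟩
    have := hd.2.2.2
    have h3 : ((d.1 * d.2 : ℕ) : ℤ) = ((a ^ 2 + 1 : ℕ) : ℤ) := by push_cast; exact this
    exact (Int.natCast_inj.1 h3).symm
  · intro d _ d' _ h
    exact (Prod.mk.inj h).2
  · intro t ht
    rw [mem_filter] at ht
    obtain ⟨ht, hta⟩ := ht
    unfold fac at ht
    rw [mem_filter, mem_product] at ht
    refine ⟨t.2, ?_, ?_⟩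
    · rw [mem_filter]
      refine ⟨ht.1.2, ht.2.2.1.1, ht.2.2.1.2, ?_⟩
      have h3 := ht.2.1
      rw [hta] at h3
      have h4 : ((a ^ 2 + 1 : ℕ) : ℤ) = ((t.2.1 * t.2.2 : ℕ) : ℤ) := by rw [h3]
      push_cast at h4
      exact h4.symm
    · rw [← hta]

/-- decomposition into positive, negative and zero -/
theorem FinL_split (a₀ : ℤ) (N m : ℕ) (g : ℤ → ℝ) (hg : ∀ v, g (-v) = g v) :
    ∑ v ∈ Prog a₀ N m, g v = ∑ a ∈ (Icc 1 m).filter (fun a : ℕ => (N : ℤ) ∣ (a : ℤ) - a₀), g a +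
      ∑ a ∈ (Icc 1 m).filter (fun a : ℕ => (N : ℤ) ∣ (a : ℤ) - (-a₀)), g a +
      (if (N : ℤ) ∣ a₀ then g 0 else 0) := by
  classical
  have e1 : ∑ a ∈ (Icc 1 m).filter (fun a : ℕ => (N : ℤ) ∣ (a : ℤ) - a₀), g a =
      ∑ v ∈ (Prog a₀ N m).filter (fun v => 0 < v), g v := by
    apply sum_bij (fun (a : ℕ) _ => (a : ℤ))
    · intro a ha
      rw [mem_filter, mem_Icc] at ha
      unfold Prog
      rw [mem_filter, mem_filter, mem_Icc]
      refine ⟨⟨⟨by omega, by omega⟩, ha.2⟩, by omega⟩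
    · intro a _ a' _ h
      exact_mod_cast h
    · intro v hv
      unfold Prog at hv
      rw [mem_filter, mem_filter, mem_Icc] at hv
      refine ⟨v.toNat, ?_, ?_⟩
      · rw [mem_filter, mem_Icc]
        refine ⟨⟨by omega, by omega⟩, ?_⟩
        rw [Int.toNat_of_nonneg (by omega)]
        exact hv.1.2
      · rw [Int.toNat_of_nonneg (by omega)]
    · intro a _; rfl
  have e2 : ∑ a ∈ (Icc 1 m).filter (fun a : ℕ => (N : ℤ) ∣ (a : ℤ) - (-a₀)), g a =
      ∑ v ∈ (Prog a₀ N m).filter (fun v => v < 0), g v := by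
    apply sum_bij (fun (a : ℕ) _ => -(a : ℤ))
    · intro a ha
      rw [mem_filter, mem_Icc] at ha
      unfold Prog
      rw [mem_filter, mem_filter, mem_Icc]
      refine ⟨⟨⟨by omega, by omega⟩, ?_⟩, by omega⟩
      have := ha.2
      have h5 : -(a : ℤ) - a₀ = -((a : ℤ) - -a₀) := by ring
      rw [h5, Int.dvd_neg]
      exact this
    · intro a _ a' _ h
      have : (a : ℤ) = a' := by linarith
      exact_mod_cast this
    · intro v hv
      unfold Prog at hv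
      rw [mem_filter, mem_filter, mem_Icc] at hv
      refine ⟨(-v).toNat, ?_, ?_⟩
      · rw [mem_filter, mem_Icc]
        refine ⟨⟨by omega, by omega⟩, ?_⟩
        rw [Int.toNat_of_nonneg (by omega)]
        have h5 : -v - -a₀ = -(v - a₀) := by ring
        rw [h5, Int.dvd_neg]
        exact hv.1.2
      · rw [Int.toNat_of_nonneg (by omega)]; ring
    · intro a _; rw [hg]
  have e3 : (if (N : ℤ) ∣ a₀ then g 0 else 0) = ∑ v ∈ (Prog a₀ N m).filter (fun v => v = 0), g v := by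
    by_cases h : (N : ℤ) ∣ a₀
    · have : (Prog a₀ N m).filter (fun v => v = 0) = {0} := by
        ext v
        unfold Prog
        rw [mem_filter, mem_filter, mem_Icc, mem_singleton]
        constructor
        · rintro ⟨_, h⟩; exact h
        · rintro rfl
          refine ⟨⟨⟨by omega, by omega⟩, ?_⟩, rfl⟩
          rw [zero_sub, Int.dvd_neg]; exact h
      rw [this, sum_singleton, if_pos h]
    · have : (Prog a₀ N m).filter (fun v => v = 0) = ∅ := by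
        ext v
        unfold Prog
        rw [mem_filter, mem_filter, mem_Icc]
        constructor
        · rintro ⟨⟨_, h2⟩, rfl⟩
          rw [zero_sub, Int.dvd_neg] at h2
          exact absurd h2 h
        · intro h; simp at h
      rw [this, sum_empty, if_neg h]
  rw [e1, e2, e3]
  rw [← sum_filter_add_sum_filter_not (Prog a₀ N m) (fun v => 0 < v), add_assoc]
  congr 1
  rw [← sum_filter_add_sum_filter_not ((Prog a₀ N m).filter (fun v => ¬ 0 < v)) (fun v => v < 0)]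
  rw [filter_filter, filter_filter]
  congr 1
  · apply sum_congr _ (fun _ _ => rfl)
    apply filter_congr
    intro v _
    constructor
    · intro h; omega
    · intro h; omega
  · apply sum_congr _ (fun _ _ => rfl)
    apply filter_congr
    intro v _
    constructor
    · intro h; omega
    · intro h; omega

theorem wt_zero (b : ℝ) (hb : 1 < b) (m : ℕ) (hm : b ≤ m) : wt b m 0 = 0 := by
  classical
  unfold wt
  rw [card_eq_zero, filter_eq_empty_iff]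
  rintro ⟨d1, d2⟩ h ⟨h1, h2, h3⟩
  simp only [mem_product, mem_Icc] at h
  have h4 : (d1 : ℤ) * d2 = 1 := by simpa using h3
  have h5 : d1 * d2 = 1 := by exact_mod_cast h4
  have h6 : d1 = 1 := Nat.eq_one_of_mul_eq_one_right h5
  rw [h6] at h1
  have hb0 : (0 : ℝ) < b := by linarith
  rw [div_lt_iff₀ hb0] at h1
  simp at h1
  linarith

theorem lio_eq (a : ℕ) : lio ((a : ℤ) ^ 2 + 1) = (fun n : ℕ => (-1 : ℝ) ^ (ArithmeticFunction.cardFactors n)) (a ^ 2 + 1) := by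
  unfold lio
  simp only []
  have : ((a : ℤ) ^ 2 + 1).natAbs = a ^ 2 + 1 := by
    have h : ((a : ℤ) ^ 2 + 1) = ((a ^ 2 + 1 : ℕ) : ℤ) := by push_cast; ring
    rw [h, Int.natAbs_natCast]
  rw [this]

theorem fin_liou (N : ℕ) (hN : 1 ≤ N) (a₀ : ℤ) (b : ℝ) (hb : 1 < b) :
    (∃ c : ℝ, 0 < c ∧ ∃ m₀ : ℕ, ∀ m : ℕ, m₀ ≤ m → c * m ≤ ∑ v ∈ Prog a₀ N m, (wt b m v : ℝ)) ∧
    (∀ ε : ℝ, 0 < ε → ∃ X₀ : ℕ, ∀ X : ℕ, X₀ ≤ X → open Classical in
      ∑ m ∈ (Icc 1 X).filter (fun m => ε * ∑ v ∈ Prog a₀ N m, (wt b m v : ℝ) <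
        |∑ v ∈ Prog a₀ N m, (wt b m v : ℝ) * lio (v ^ 2 + 1)|), 1 / (m : ℝ) ≤ ε * Real.log X) := by
  classical
  -- lower bound
  have hW : ∀ m : ℕ, ((fac b m N a₀).card : ℝ) ≤ ∑ v ∈ Prog a₀ N m, (wt b m v : ℝ) := by
    intro m
    have h1 := FinL_pos b m N a₀ (fun _ => 1)
    have h2 := FinL_split a₀ N m (fun v => (wt b m v : ℝ)) (fun v => by rw [wt_neg])
    simp only [mul_one, sum_const, nsmul_eq_mul, mul_one] at h1
    rw [h2, h1]
    have h3 : (0 : ℝ) ≤ ∑ a ∈ (Icc 1 m).filter (fun a : ℕ => (N : ℤ) ∣ (a : ℤ) - (-a₀)), (wt b m (a : ℤ) : ℝ) :=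
      sum_nonneg (fun _ _ => by positivity)
    have h4 : (0 : ℝ) ≤ (if (N : ℤ) ∣ a₀ then (wt b m 0 : ℝ) else 0) := by
      split_ifs
      · positivity
      · exact le_refl _
    linarith
  obtain ⟨c, hc, m₀, hm₀⟩ := fac_lower b hb N hN a₀
  refine ⟨⟨c, hc, m₀, fun m hm => (hm₀ m hm).trans (hW m)⟩, ?_⟩
  intro ε hε
  have hs : ∀ a₁ : ℤ, ∃ X0 : ℕ, ∀ X : ℕ, X0 ≤ X →
      ∑ m ∈ Icc 1 X, (1 / (m : ℝ) ^ 2) * ‖∑ t ∈ fac b m N a₁, fz (-1) (t.1 ^ 2 + 1)‖ ≤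
        (ε ^ 2 * c / 4) * Real.log X := by
    intro a₁
    exact fac_sum 2 (by norm_num) (-1) (by norm_num) (by norm_num) b hb N hN a₁ _ (by positivity)
  obtain ⟨X1, hX1⟩ := hs a₀
  obtain ⟨X2, hX2⟩ := hs (-a₀)
  -- norm of the sums
  have hnorm : ∀ (m : ℕ) (a₁ : ℤ), ‖∑ t ∈ fac b m N a₁, fz (-1) (t.1 ^ 2 + 1)‖ =
      |∑ a ∈ (Icc 1 m).filter (fun a : ℕ => (N : ℤ) ∣ (a : ℤ) - a₁), (wt b m (a : ℤ) : ℝ) * lio ((a : ℤ) ^ 2 + 1)| := by
    intro m a₁
    have h1 := FinL_pos b m N a₁ (fun n : ℕ => (-1 : ℝ) ^ (ArithmeticFunction.cardFactors n))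
    have h2 : ∑ a ∈ (Icc 1 m).filter (fun a : ℕ => (N : ℤ) ∣ (a : ℤ) - a₁), (wt b m (a : ℤ) : ℝ) * lio ((a : ℤ) ^ 2 + 1) =
        ∑ t ∈ fac b m N a₁, (-1 : ℝ) ^ (ArithmeticFunction.cardFactors (t.1 ^ 2 + 1)) := by
      rw [← h1]
      apply sum_congr rfl
      intro a _
      rw [lio_eq]
    rw [h2, ← Real.norm_eq_abs, ← Complex.norm_real]
    congr 1
    push_cast
    apply sum_congr rfl
    intro t _
    unfold fz
    rfl
  set m1 : ℕ := max m₀ (max ⌈b⌉₊ 1) with hm1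
  have hX3 : ∃ X3 : ℕ, ∀ X : ℕ, X3 ≤ X → ∑ m ∈ Icc 1 m1, 1 / (m : ℝ) ≤ (ε / 2) * Real.log X := by
    have ht : Filter.Tendsto (fun X : ℕ => (ε / 2) * Real.log X) Filter.atTop Filter.atTop :=
      Filter.Tendsto.const_mul_atTop (by positivity) (Real.tendsto_log_atTop.comp tendsto_natCast_atTop_atTop)
    have := ht.eventually_ge_atTop (∑ m ∈ Icc 1 m1, 1 / (m : ℝ))
    obtain ⟨X3, h⟩ := Filter.eventually_atTop.1 this
    exact ⟨X3, fun X hX => h X hX⟩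
  obtain ⟨X3, hX3⟩ := hX3
  refine ⟨max (max X1 X2) X3, fun X hX => ?_⟩
  have hXX1 : X1 ≤ X := (le_max_left _ _).trans ((le_max_left _ _).trans hX)
  have hXX2 : X2 ≤ X := (le_max_right _ _).trans ((le_max_left _ _).trans hX)
  have hXX3 : X3 ≤ X := (le_max_right _ _).trans hX
  set S1 : ℕ → ℝ := fun m => ‖∑ t ∈ fac b m N a₀, fz (-1) (t.1 ^ 2 + 1)‖ with hS1
  set S2 : ℕ → ℝ := fun m => ‖∑ t ∈ fac b m N (-a₀), fz (-1) (t.1 ^ 2 + 1)‖ with hS2
  -- pointwise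
  have hpt : ∀ m ∈ (Icc 1 X).filter (fun m => ε * ∑ v ∈ Prog a₀ N m, (wt b m v : ℝ) <
        |∑ v ∈ Prog a₀ N m, (wt b m v : ℝ) * lio (v ^ 2 + 1)|),
      1 / (m : ℝ) ≤ (if m ≤ m1 then 1 / (m : ℝ) else 0) + (1 / (ε * c)) * ((1 / (m : ℝ) ^ 2) * S1 m + (1 / (m : ℝ) ^ 2) * S2 m) := by
    intro m hm
    rw [mem_filter, mem_Icc] at hm
    have hm0 : (0 : ℝ) < m := by exact_mod_cast hm.1.1
    have hS1' : 0 ≤ S1 m := norm_nonneg _
    have hS2' : 0 ≤ S2 m := norm_nonneg _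
    by_cases h : m ≤ m1
    · rw [if_pos h]
      have : 0 ≤ (1 / (ε * c)) * ((1 / (m : ℝ) ^ 2) * S1 m + (1 / (m : ℝ) ^ 2) * S2 m) := by positivity
      linarith
    · rw [if_neg h, zero_add]
      push Not at h
      have hmm : m₀ ≤ m := (le_max_left _ _).trans h.le
      have hmb : b ≤ m := by
        have h1 : ⌈b⌉₊ ≤ m := (le_max_left _ _).trans ((le_max_right _ _).trans h.le)
        exact (Nat.le_ceil b).trans (by exact_mod_cast h1)
      have h2 : |∑ v ∈ Prog a₀ N m, (wt b m v : ℝ) * lio (v ^ 2 + 1)| ≤ S1 m + S2 m := by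
        rw [FinL_split a₀ N m (fun v => (wt b m v : ℝ) * lio (v ^ 2 + 1))
          (fun v => by show (wt b m (-v) : ℝ) * lio ((-v) ^ 2 + 1) = _; rw [wt_neg, lio_neg])]
        have h3 : (if (N : ℤ) ∣ a₀ then (wt b m 0 : ℝ) * lio (0 ^ 2 + 1) else 0) = 0 := by
          rw [wt_zero b hb m hmb]; simp
        simp only [h3, add_zero]
        refine (abs_add_le _ _).trans ?_
        simp only [hS1, hS2]
        rw [hnorm, hnorm]
      have h3 : c * m < (S1 m + S2 m) / ε := by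
        rw [lt_div_iff₀ hε]
        have h4 := hm₀ m hmm
        have h5 := hW m
        have h6 := hm.2
        nlinarith
      have h4 : 1 / (m : ℝ) = (1 / (ε * c)) * ((1 / (m : ℝ) ^ 2) * (ε * (c * m))) := by
        field_simp
      rw [h4]
      apply mul_le_mul_of_nonneg_left _ (by positivity)
      rw [← mul_add]
      apply mul_le_mul_of_nonneg_left _ (by positivity)
      rw [lt_div_iff₀ hε] at h3
      linarith
  calc ∑ m ∈ (Icc 1 X).filter (fun m => ε * ∑ v ∈ Prog a₀ N m, (wt b m v : ℝ) <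
        |∑ v ∈ Prog a₀ N m, (wt b m v : ℝ) * lio (v ^ 2 + 1)|), 1 / (m : ℝ)
      ≤ ∑ m ∈ (Icc 1 X).filter (fun m => ε * ∑ v ∈ Prog a₀ N m, (wt b m v : ℝ) <
        |∑ v ∈ Prog a₀ N m, (wt b m v : ℝ) * lio (v ^ 2 + 1)|),
          ((if m ≤ m1 then 1 / (m : ℝ) else 0) + (1 / (ε * c)) * ((1 / (m : ℝ) ^ 2) * S1 m + (1 / (m : ℝ) ^ 2) * S2 m)) :=
        sum_le_sum hpt
    _ ≤ ∑ m ∈ Icc 1 X, ((if m ≤ m1 then 1 / (m : ℝ) else 0) + (1 / (ε * c)) * ((1 / (m : ℝ) ^ 2) * S1 m + (1 / (m : ℝ) ^ 2) * S2 m)) := by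
        apply sum_le_sum_of_subset_of_nonneg (filter_subset _ _)
        intro m _ _
        have hS1' : 0 ≤ S1 m := norm_nonneg _
        have hS2' : 0 ≤ S2 m := norm_nonneg _
        have : (0 : ℝ) ≤ (if m ≤ m1 then 1 / (m : ℝ) else 0) := by split_ifs <;> positivity
        positivity
    _ = ∑ m ∈ Icc 1 X, (if m ≤ m1 then 1 / (m : ℝ) else 0) + (1 / (ε * c)) * (∑ m ∈ Icc 1 X, (1 / (m : ℝ) ^ 2) * S1 m +
          ∑ m ∈ Icc 1 X, (1 / (m : ℝ) ^ 2) * S2 m) := by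
        rw [sum_add_distrib, ← mul_sum, sum_add_distrib]
    _ ≤ (ε / 2) * Real.log X + (1 / (ε * c)) * ((ε ^ 2 * c / 4) * Real.log X + (ε ^ 2 * c / 4) * Real.log X) := by
        apply add_le_add
        · refine le_trans ?_ (hX3 X hXX3)
          rw [← sum_filter]
          apply sum_le_sum_of_subset_of_nonneg
          · intro m hm
            rw [mem_filter, mem_Icc] at hm
            rw [mem_Icc]
            exact ⟨hm.1.1, hm.2⟩
          · intro m _ _; positivity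
        · apply mul_le_mul_of_nonneg_left _ (by positivity)
          exact add_le_add (hX1 X hXX1) (hX2 X hXX2)
    _ = ε * Real.log X := by
        field_simp
        ring

end Pool.Agent.FCH
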