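import Pool.Agent.FCH.FinC
import Pool.Agent.MRS.Val

set_option autoImplicit false

/-! Module FinV: the number of values `a` (without weights). -/

open Finset

namespace Pool.Agent.FCH

open Pool.Agent.MRS hiding Good

/-- the integers `1 ≤ a ≤ m`, `a ≡ a₀ (mod q)`, with `Ω(a² + 1) ≡ j (mod k)` -/
noncomputable def vals (m q : ℕ) (a₀ : ℤ) (k j : ℕ) : Finset ℕ :=
  open Classical in
  (Icc 1 m).filter (fun a => (q : ℤ) ∣ (a : ℤ) - a₀ ∧ ArithmeticFunction.cardFactors (a ^ 2 + 1) ≡ j [MOD k])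

/-- one scale: from the factorisations to the values -/
theorem FinV_one (b : ℝ) (q : ℕ) (a₀ : ℤ) (k : ℕ) (ε η : ℝ) (hε : 0 < ε) (hη : 0 < η) :
    ∃ (c : ℝ) (m0 : ℕ), 0 < c ∧ ∀ m : ℕ, m0 ≤ m → ∀ j : ℕ, η * m ≤ ((facj b m q a₀ k j).card : ℝ) →
      c * m / (Real.log m) ^ (2 * Real.log 2 + ε) ≤ ((vals m q a₀ k j).card : ℝ) := by
  classical
  obtain ⟨c, N0, hc, hN0, h⟩ := edges_to_values ε η hε hη
  refine ⟨c, ⌈N0⌉₊, hc, fun m hm j hj => ?_⟩
  have hmN : N0 ≤ (m : ℝ) := (Nat.le_ceil N0).trans (by exact_mod_cast hm)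
  set B : Finset (GI × GI) := (AA b m ×ˢ AA b m).filter (fun e => ((dt e.1 e.2 = 1 ∧ 0 < ip e.1 e.2) ∧
    (q : ℤ) ∣ ip e.1 e.2 - a₀) ∧ ArithmeticFunction.cardFactors (nm e.1 * nm e.2) ≡ j [MOD k]) with hB
  have hBc : (B.card : ℂ) = 4 * ((facj b m q a₀ k j).card : ℂ) := by
    have h1 := tra b m q a₀ (fun n => if ArithmeticFunction.cardFactors n ≡ j [MOD k] then (1 : ℂ) else 0)
    have h2 : (B.card : ℂ) = ∑ v ∈ AA b m, ∑ w ∈ AA b m, (if (dt v w = 1 ∧ 0 < ip v w) ∧ (q : ℤ) ∣ ip v w - a₀ then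
      (if ArithmeticFunction.cardFactors (nm v * nm w) ≡ j [MOD k] then (1 : ℂ) else 0) else 0) := by
      rw [← sum_product', hB, card_filter]
      push_cast
      apply sum_congr rfl
      intro e _
      by_cases h3 : (dt e.1 e.2 = 1 ∧ 0 < ip e.1 e.2) ∧ (q : ℤ) ∣ ip e.1 e.2 - a₀
      · by_cases h4 : ArithmeticFunction.cardFactors (nm e.1 * nm e.2) ≡ j [MOD k]
        · rw [if_pos ⟨h3, h4⟩, if_pos h3, if_pos h4]
        · rw [if_neg (fun h => h4 h.2), if_pos h3, if_neg h4]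
      · rw [if_neg (fun h => h3 h.1), if_neg h3]
    rw [h2, h1]
    congr 1
    unfold facj
    rw [card_filter]
    push_cast
    rfl
  have hBr : (B.card : ℝ) = 4 * ((facj b m q a₀ k j).card : ℝ) := by exact_mod_cast hBc
  refine (h m hmN B ?_ ?_ (vals m q a₀ k j) ?_).1
  · intro e he
    rw [hB, mem_filter, mem_product, mem_AA, mem_AA] at he
    refine ⟨he.1.1.1, he.1.2.1, ?_⟩
    rw [he.2.1.1.1]; rfl
  · rw [hBr]
    have : (0 : ℝ) ≤ ((facj b m q a₀ k j).card : ℝ) := by positivity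
    linarith
  · intro e he n hn hnn
    rw [hB, mem_filter, mem_product, mem_AA, mem_AA] at he
    have h1 := ip_sq_add e.1 e.2
    rw [he.2.1.1.1] at h1
    have h2 : ((nm e.1 * nm e.2 : ℕ) : ℤ) = ((n ^ 2 + 1 : ℕ) : ℤ) := by rw [hnn]
    push_cast at h2
    rw [h2] at h1
    have h3 : ip e.1 e.2 ^ 2 = (n : ℤ) ^ 2 := by linarith
    have h4 : ip e.1 e.2 = n := by
      have h5 : 0 < ip e.1 e.2 := he.2.1.1.2
      have h6 := abs_eq_abs.2 ((sq_eq_sq_iff_eq_or_eq_neg).1 h3)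
      rw [abs_of_pos h5, Nat.abs_cast] at h6
      exact h6
    unfold vals
    rw [mem_filter, mem_Icc]
    refine ⟨⟨hn, ?_⟩, ?_, ?_⟩
    · have h7 : nm e.1 ≤ m := by exact_mod_cast he.1.1.1
      have h8 : nm e.2 ≤ m := by exact_mod_cast he.1.2.1
      have h9 : n ^ 2 + 1 ≤ m * m := by rw [← hnn]; exact Nat.mul_le_mul h7 h8
      nlinarith
    · rw [← h4]; exact he.2.1.2
    · rw [← hnn]; exact he.2.2

theorem fin_val (k : ℕ) (hk : 1 ≤ k) (q : ℕ) (hq : 1 ≤ q) (a₀ : ℤ) (ε : ℝ) (hε : 0 < ε) :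
    ∃ c : ℝ, 0 < c ∧ ∀ δ : ℝ, 0 < δ → ∃ X0 : ℕ, ∀ X : ℕ, X0 ≤ X → open Classical in
    ∑ m ∈ (Icc 1 X).filter (fun m => ∃ j : ℕ, ((vals m q a₀ k j).card : ℝ) <
      c * m / (Real.log m) ^ (2 * Real.log 2 + ε)), 1 / (m : ℝ) ≤ δ * Real.log X := by
  classical
  obtain ⟨c₁, hc₁, h₁⟩ := fin_main k hk q hq a₀ 2 (by norm_num)
  have hk0 : (0 : ℝ) < k := by exact_mod_cast hk
  have hk1 : (1 : ℝ) ≤ k := by exact_mod_cast hk
  obtain ⟨c, m0, hc, h₂⟩ := FinV_one 2 q a₀ k ε (c₁ / (2 * k)) hε (by positivity)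
  refine ⟨c, hc, fun δ hδ => ?_⟩
  set ε' : ℝ := min (1 / (2 * k)) (δ / (2 * k)) with hε'
  have hε'0 : 0 < ε' := lt_min (by positivity) (by positivity)
  obtain ⟨X1, hX1⟩ := h₁ ε' hε'0
  have hX3 : ∃ X3 : ℕ, ∀ X : ℕ, X3 ≤ X → ∑ m ∈ Icc 1 m0, 1 / (m : ℝ) ≤ (δ / 2) * Real.log X := by
    have ht : Filter.Tendsto (fun X : ℕ => (δ / 2) * Real.log X) Filter.atTop Filter.atTop :=
      Filter.Tendsto.const_mul_atTop (by positivity) (Real.tendsto_log_atTop.comp tendsto_natCast_atTop_atTop)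
    have := ht.eventually_ge_atTop (∑ m ∈ Icc 1 m0, 1 / (m : ℝ))
    obtain ⟨X3, h⟩ := Filter.eventually_atTop.1 this
    exact ⟨X3, fun X hX => h X hX⟩
  obtain ⟨X3, hX3⟩ := hX3
  refine ⟨max (max X1 X3) 1, fun X hX => ?_⟩
  have hXX1 : X1 ≤ X := (le_max_left _ _).trans ((le_max_left _ _).trans hX)
  have hXX3 : X3 ≤ X := (le_max_right _ _).trans ((le_max_left _ _).trans hX)
  have hX1' : 1 ≤ X := (le_max_right _ _).trans hX
  have hlog : 0 ≤ Real.log X := Real.log_nonneg (by exact_mod_cast hX1')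
  set G : ℕ → Finset ℕ := fun j => (Icc 1 X).filter (fun m => ¬ (c₁ * m ≤ ((fac 2 m q a₀).card : ℝ) ∧
      |((facj 2 m q a₀ k j).card : ℝ) - (fac 2 m q a₀).card / k| ≤
        ε' * (fac 2 m q a₀).card)) with hG
  have hvals : ∀ m j : ℕ, vals m q a₀ k j = vals m q a₀ k (j % k) := by
    intro m j
    unfold vals
    apply Finset.filter_congr
    intro t _
    unfold Nat.ModEq
    rw [Nat.mod_mod]
  have hsub : (Icc 1 X).filter (fun m => ∃ j : ℕ, ((vals m q a₀ k j).card : ℝ) <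
      c * m / (Real.log m) ^ (2 * Real.log 2 + ε)) ⊆ Icc 1 m0 ∪ (range k).biUnion G := by
    intro m hm
    rw [mem_filter] at hm
    obtain ⟨hm1, j, hj⟩ := hm
    rw [mem_union]
    by_cases hmm : m ≤ m0
    · left
      rw [mem_Icc] at hm1 ⊢
      exact ⟨hm1.1, hmm⟩
    · right
      rw [mem_biUnion]
      refine ⟨j % k, mem_range.2 (Nat.mod_lt _ hk), ?_⟩
      rw [hG, mem_filter]
      refine ⟨hm1, ?_⟩
      rintro ⟨h4, h5⟩
      rw [hvals m j] at hj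
      have h6 : c₁ / (2 * k) * m ≤ ((facj 2 m q a₀ k (j % k)).card : ℝ) := by
        have h7 := (abs_le.1 h5).1
        have h8 : ε' ≤ 1 / (2 * k) := min_le_left _ _
        have h9 : (0 : ℝ) ≤ ((fac 2 m q a₀).card : ℝ) := Nat.cast_nonneg _
        have h10 : ε' * ((fac 2 m q a₀).card : ℝ) ≤ 1 / (2 * k) * (fac 2 m q a₀).card :=
          mul_le_mul_of_nonneg_right h8 h9
        have h11 : ((fac 2 m q a₀).card : ℝ) / k - 1 / (2 * k) * (fac 2 m q a₀).card =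
            (fac 2 m q a₀).card / (2 * k) := by
          generalize ((fac 2 m q a₀).card : ℝ) = F
          field_simp
          ring
        have h12 : c₁ / (2 * k) * m ≤ ((fac 2 m q a₀).card : ℝ) / (2 * k) := by
          rw [div_mul_eq_mul_div]
          exact div_le_div_of_nonneg_right h4 (by positivity)
        linarith
      exact absurd hj (not_lt.2 (h₂ m (by omega) (j % k) h6))
  have key : ∀ T : Finset ℕ, ∑ m ∈ T.biUnion G, 1 / (m : ℝ) ≤ ∑ j ∈ T, ∑ m ∈ G j, 1 / (m : ℝ) := by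
    intro T
    induction T using Finset.induction_on with
    | empty => simp
    | insert a T ha ih =>
      rw [Finset.biUnion_insert, Finset.sum_insert ha]
      have h7 := Finset.sum_union_inter (s₁ := G a) (s₂ := T.biUnion G) (f := fun m : ℕ => 1 / (m : ℝ))
      have h8 : 0 ≤ ∑ m ∈ G a ∩ T.biUnion G, 1 / (m : ℝ) := sum_nonneg (fun i _ => by positivity)
      linarith
  calc ∑ m ∈ (Icc 1 X).filter (fun m => ∃ j : ℕ, ((vals m q a₀ k j).card : ℝ) <
      c * m / (Real.log m) ^ (2 * Real.log 2 + ε)), 1 / (m : ℝ)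
      ≤ ∑ m ∈ Icc 1 m0 ∪ (range k).biUnion G, 1 / (m : ℝ) :=
        sum_le_sum_of_subset_of_nonneg hsub (fun i _ _ => by positivity)
    _ ≤ ∑ m ∈ Icc 1 m0, 1 / (m : ℝ) + ∑ m ∈ (range k).biUnion G, 1 / (m : ℝ) := by
        have h7 := Finset.sum_union_inter (s₁ := Icc 1 m0) (s₂ := (range k).biUnion G) (f := fun m : ℕ => 1 / (m : ℝ))
        have h8 : 0 ≤ ∑ m ∈ Icc 1 m0 ∩ (range k).biUnion G, 1 / (m : ℝ) := sum_nonneg (fun i _ => by positivity)
        linarith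
    _ ≤ (δ / 2) * Real.log X + ∑ j ∈ range k, ε' * Real.log X := by
        apply add_le_add (hX3 X hXX3)
        exact (key _).trans (sum_le_sum (fun j _ => hX1 X hXX1 j))
    _ ≤ (δ / 2) * Real.log X + (δ / 2) * Real.log X := by
        rw [sum_const, card_range, nsmul_eq_mul]
        have h8 : ε' ≤ δ / (2 * k) := min_le_right _ _
        have h9 : (k : ℝ) * ε' ≤ δ / 2 := by
          calc (k : ℝ) * ε' ≤ k * (δ / (2 * k)) := mul_le_mul_of_nonneg_left h8 hk0.le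
            _ = δ / 2 := by field_simp
        nlinarith
    _ = δ * Real.log X := by ring

end Pool.Agent.FCH
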