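import Pool.Agent.FCH.Win
import Pool.Agent.FCH.SyE
import Pool.Agent.FCH.Pack

set_option autoImplicit false

/-! Module Gg: the test function.  `(v_i, w_i, t_i) = orb m i ω`.
`gG_word`: `win_word`.  `gG_mean`: for `α, β` coprime there is exactly one `y ∈ {0..p}` with `hit p y α β`: if `p ∣ α` it is `y = p` (then `p ∤ β`, so no `y < p`), otherwise the unique root `y < p` of `α y + β ≡ 0`; so
`∑_{y ≤ p} ((p+1) 1[hit] - 1) = 0` (`orb_coord`).
`gG_bound`: for given `y` the `i < n/2` with `t_i = 0` and `hit` are at distances `≥ p`: `p ∣ α_i y + β_i, α_j y + β_j` (or `p ∣ α_i, α_j`) implies `p ∣ α_i β_j - α_j β_i = dt v_i v_j` (for `det(v_0,w_0)=1`), which is `> 0` and `≤ j - i`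
(`win_sep`); so at most `n/(2p) + 1` of them; for each `i` at most `C_b` values `j` (`det_cnt` with `B = 1`; the `v_j` are distinct by `win_sep`): `|gG| ≤ (C_b/n)((p+1)(n/(2p)+1) + n/2) ≤ 4 C_b` for `n ≥ p`.
`gG_sum`: exchange the sums; for fixed `i < n/2`, `ω ↦ orb m i ω` is a bijection of `Om m` (`Om_sum_orb`), and `(p+1) 1[hit p (yo ω p) α_i β_i] = (p+1) 1[π ∣ v_i]` (`yv_dvd`, `orb_coord`), so the sum over `ω` equals
`∑_{ω, t = 0, ω.1 ∈ AA} ∑_{0 < j < n - i, t_j = 0, ...} F(ω.1) F(v_j)((p+1)1[π ∣ ω.1] - 1)`; by `win_part` (`4bp ≤ n/2 < n - i`) and `win_sep` (uniqueness, `ip > 0`; needs `16 n < m`) the inner sum is over all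
`z' ∈ AA`, `dt ω.1 z' = p`, `ip > 0`; `sum_base`.  All `i < n/2` give the same value. -/

open Finset

namespace Pool.Agent.FCH

open Pool.Agent.MRS hiding Good

/-- `π ∣ α v + β w` when the label is `y` -/
def hit (p y : ℕ) (α β : ℤ) : Prop := (y = p ∧ (p : ℤ) ∣ α) ∨ (y < p ∧ (p : ℤ) ∣ α * y + β)

/-- all pairs of determinant `p` in the classes of `π g₁`, `π g₂` -/
noncomputable def SP (b : ℝ) (m q : ℕ) (g₁ g₂ : GI) (F : GI → ℂ) (p : ℕ) : ℂ :=
  open Classical in
  ∑ z ∈ AA b m, ∑ z' ∈ AA b m, if (dt z z' = p ∧ 0 < ip z z') ∧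
    (cg q z (gpi p * g₁) ∧ cg q z' (gpi p * g₂)) then F z * F z' else 0

/-- those with `π ∣ z` -/
noncomputable def SPd (b : ℝ) (m q : ℕ) (g₁ g₂ : GI) (F : GI → ℂ) (p : ℕ) : ℂ :=
  open Classical in
  ∑ z ∈ AA b m, ∑ z' ∈ AA b m, if ((dt z z' = p ∧ 0 < ip z z') ∧
    (cg q z (gpi p * g₁) ∧ cg q z' (gpi p * g₂))) ∧ gpi p ∣ z then F z * F z' else 0

/-- the test function -/
noncomputable def gG (b : ℝ) (m q n : ℕ) (g₁ g₂ : GI) (F : GI → ℂ) (c : ℕ → ℂ) (ω : GI × GI × ℕ)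
    (p y : ℕ) : ℝ :=
  open Classical in
  (1 / (n : ℝ)) * (c p * ∑ i ∈ range (n / 2), ∑ j ∈ range n,
    if (i < j ∧ (orb m i ω).2.2 = 0 ∧ (orb m j ω).2.2 = 0 ∧ dt (orb m i ω).1 (orb m j ω).1 = p) ∧
      ((orb m i ω).1 ∈ AA b m ∧ (orb m j ω).1 ∈ AA b m) ∧
      (cg q (orb m i ω).1 (gpi p * g₁) ∧ cg q (orb m j ω).1 (gpi p * g₂)) then
      F (orb m i ω).1 * F (orb m j ω).1 *
        ((if hit p y (dt (orb m i ω).1 ω.2.1) (dt ω.1 (orb m i ω).1) then ((p : ℂ) + 1) else 0) - 1)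
    else 0).re

theorem gG_word (b : ℝ) (m q n : ℕ) (g₁ g₂ : GI) (F : GI → ℂ) (c : ℕ → ℂ) {ω ω' : GI × GI × ℕ}
    (h : ω ∈ Om m) (h' : ω' ∈ Om m)
    (hw : wrd (Tm m) (sy F b q m) n ω = wrd (Tm m) (sy F b q m) n ω') (p y : ℕ) :
    gG b m q n g₁ g₂ F c ω p y = gG b m q n g₁ g₂ F c ω' p y := by
  classical
  obtain ⟨h1, h2, h3⟩ := win_word F b q m n h h' hw
  have key : ∀ i ∈ range (n / 2), ∀ j ∈ range n,
      (if (i < j ∧ (orb m i ω).2.2 = 0 ∧ (orb m j ω).2.2 = 0 ∧ dt (orb m i ω).1 (orb m j ω).1 = p) ∧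
      ((orb m i ω).1 ∈ AA b m ∧ (orb m j ω).1 ∈ AA b m) ∧
      (cg q (orb m i ω).1 (gpi p * g₁) ∧ cg q (orb m j ω).1 (gpi p * g₂)) then
      F (orb m i ω).1 * F (orb m j ω).1 *
        ((if hit p y (dt (orb m i ω).1 ω.2.1) (dt ω.1 (orb m i ω).1) then ((p : ℂ) + 1) else 0) - 1)
      else 0) =
      (if (i < j ∧ (orb m i ω').2.2 = 0 ∧ (orb m j ω').2.2 = 0 ∧ dt (orb m i ω').1 (orb m j ω').1 = p) ∧
      ((orb m i ω').1 ∈ AA b m ∧ (orb m j ω').1 ∈ AA b m) ∧
      (cg q (orb m i ω').1 (gpi p * g₁) ∧ cg q (orb m j ω').1 (gpi p * g₂)) then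
      F (orb m i ω').1 * F (orb m j ω').1 *
        ((if hit p y (dt (orb m i ω').1 ω'.2.1) (dt ω'.1 (orb m i ω').1) then ((p : ℂ) + 1) else 0) - 1)
      else 0) := by
    intro i hi j hj
    have hi' : i < n := by
      have := mem_range.1 hi
      omega
    have hj' : j < n := mem_range.1 hj
    obtain ⟨a1, a2⟩ := h1 i hi'
    have a3 := h2 i hi' j hj'
    obtain ⟨b1, b2, b3, b4⟩ := h3 i hi'
    obtain ⟨c1, c2, c3, c4⟩ := h3 j hj'
    rw [a1, a2, a3, b1, c1]
    simp only [b2, b3, b4 (gpi p * g₁), c2, c3, c4 (gpi p * g₂)]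
  unfold gG
  congr 3
  apply Finset.sum_congr rfl
  intro i hi
  apply Finset.sum_congr rfl
  intro j hj
  convert key i hi j hj using 2

theorem Gg_one {p : ℕ} (hp : p.Prime) {α β : ℤ} (h : Int.gcd α β = 1) :
    ∃ y0 ∈ range (p + 1), ∀ y, hit p y α β ↔ y = y0 := by
  have hpz : Prime (p : ℤ) := Nat.prime_iff_prime_int.1 hp
  have hp0 : (0 : ℤ) < p := by exact_mod_cast hp.pos
  have hnb : ¬ ((p : ℤ) ∣ α ∧ (p : ℤ) ∣ β) := by
    rintro ⟨h1, h2⟩
    have h3 : (p : ℤ) ∣ (Int.gcd α β : ℤ) := Int.dvd_coe_gcd h1 h2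
    rw [h] at h3
    exact hpz.not_dvd_one (by exact_mod_cast h3)
  by_cases ha : (p : ℤ) ∣ α
  · refine ⟨p, mem_range.2 (Nat.lt_succ_self p), ?_⟩
    intro y
    constructor
    · rintro (⟨h1, _⟩ | ⟨_, h2⟩)
      · exact h1
      · exfalso
        exact hnb ⟨ha, (dvd_add_right (dvd_mul_of_dvd_left ha _)).1 h2⟩
    · intro h1
      exact Or.inl ⟨h1, ha⟩
  · -- α invertible mod p
    have hcop : IsCoprime α (p : ℤ) := by
      rw [isCoprime_comm]
      exact (Irreducible.coprime_iff_not_dvd hpz.irreducible).2 ha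
    obtain ⟨u, v, huv⟩ := hcop
    set y0 : ℕ := ((-(u * β)) % (p : ℤ)).toNat with hy0
    have hm1 : 0 ≤ (-(u * β)) % (p : ℤ) := Int.emod_nonneg _ hp0.ne'
    have hm2 : (-(u * β)) % (p : ℤ) < p := Int.emod_lt_of_pos _ hp0
    have hy0' : (y0 : ℤ) = (-(u * β)) % (p : ℤ) := by
      rw [hy0]; exact Int.toNat_of_nonneg hm1
    have hy0lt : y0 < p := by
      have : (y0 : ℤ) < p := by rw [hy0']; exact hm2
      exact_mod_cast this
    have hroot : (p : ℤ) ∣ α * y0 + β := by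
      have h1 : (p : ℤ) ∣ (y0 : ℤ) + u * β := by
        rw [hy0']
        have := Int.emod_add_mul_ediv (-(u * β)) (p : ℤ)
        refine ⟨-((-(u * β)) / (p : ℤ)), ?_⟩
        linarith
      have h2 : α * y0 + β = α * (y0 + u * β) + v * p * β := by
        have : β = (u * α + v * p) * β := by rw [huv, one_mul]
        linear_combination this
      rw [h2]
      exact dvd_add (dvd_mul_of_dvd_right h1 _) ⟨v * β, by ring⟩
    refine ⟨y0, mem_range.2 (by omega), ?_⟩
    intro y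
    constructor
    · rintro (⟨_, h2⟩ | ⟨h1, h2⟩)
      · exact absurd h2 ha
      · have h3 : (p : ℤ) ∣ α * ((y : ℤ) - y0) := by
          have : α * ((y : ℤ) - y0) = (α * y + β) - (α * y0 + β) := by ring
          rw [this]
          exact dvd_sub h2 hroot
        have h4 : (p : ℤ) ∣ (y : ℤ) - y0 := (hpz.dvd_or_dvd h3).resolve_left ha
        have h5 : (y : ℤ) - y0 = 0 := by
          apply Int.eq_zero_of_abs_lt_dvd h4
          rw [abs_lt]
          constructor <;> omega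
        omega
    · intro h1
      subst h1
      exact Or.inr ⟨hy0lt, hroot⟩

theorem gG_mean (b : ℝ) (m q n : ℕ) (g₁ g₂ : GI) (F : GI → ℂ) (c : ℕ → ℂ) {ω : GI × GI × ℕ}
    (h : ω ∈ Om m) {p : ℕ} (hp : p.Prime) : ∑ y ∈ range (p + 1), gG b m q n g₁ g₂ F c ω p y = 0 := by
  classical
  unfold gG
  rw [← Finset.mul_sum, ← Complex.re_sum, ← Finset.mul_sum]
  have key : (∑ y ∈ range (p + 1), ∑ i ∈ range (n / 2), ∑ j ∈ range n,
      (if (i < j ∧ (orb m i ω).2.2 = 0 ∧ (orb m j ω).2.2 = 0 ∧ dt (orb m i ω).1 (orb m j ω).1 = p) ∧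
      ((orb m i ω).1 ∈ AA b m ∧ (orb m j ω).1 ∈ AA b m) ∧
      (cg q (orb m i ω).1 (gpi p * g₁) ∧ cg q (orb m j ω).1 (gpi p * g₂)) then
      F (orb m i ω).1 * F (orb m j ω).1 *
        ((if hit p y (dt (orb m i ω).1 ω.2.1) (dt ω.1 (orb m i ω).1) then ((p : ℂ) + 1) else 0) - 1)
      else 0)) = 0 := by
    rw [Finset.sum_comm]
    apply Finset.sum_eq_zero
    intro i hi
    rw [Finset.sum_comm]
    apply Finset.sum_eq_zero
    intro j hj
    split_ifs with hc
    · rw [← Finset.mul_sum]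
      obtain ⟨y0, hy0, hy⟩ := Gg_one hp (orb_coord h i).2
      have h1 : ∑ y ∈ range (p + 1), ((if hit p y (dt (orb m i ω).1 ω.2.1) (dt ω.1 (orb m i ω).1) then
          ((p : ℂ) + 1) else 0) - 1) = 0 := by
        rw [Finset.sum_sub_distrib]
        simp only [hy]
        rw [Finset.sum_ite_eq' (range (p + 1)) y0 (fun _ => (p : ℂ) + 1), if_pos hy0]
        simp
      rw [h1, mul_zero]
    · simp
  have key2 := congrArg (fun z => (1 / (n : ℝ)) * (c p * z).re) key
  simp only [mul_zero, Complex.zero_re] at key2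
  convert key2 using 2

theorem Gg_dt1 {m : ℕ} {ω : GI × GI × ℕ} (h : ω ∈ Om m) : dt ω.1 ω.2.1 = 1 :=
  (mem_adj.1 (mem_Om.1 h).1).2.1

theorem Gg_dt {m : ℕ} {ω : GI × GI × ℕ} (h : ω ∈ Om m) (i j : ℕ) :
    dt (orb m i ω).1 (orb m j ω).1 =
      dt (orb m i ω).1 ω.2.1 * dt ω.1 (orb m j ω).1 - dt ω.1 (orb m i ω).1 * dt (orb m j ω).1 ω.2.1 := by
  have h1 := Gg_dt1 h
  generalize (orb m i ω).1 = x
  generalize (orb m j ω).1 = y
  generalize ω.2.1 = w at *
  generalize ω.1 = v at *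
  unfold dt at *
  linear_combination (-(x.re * y.im - x.im * y.re)) * h1

/-- points of the orbit which are hit are `p`-separated -/
theorem Gg_hit_sep {m : ℕ} {ω : GI × GI × ℕ} (h : ω ∈ Om m) {p : ℕ} {i j : ℕ}
    (hij : i < j) (hm : 16 * (j - i) < m) (hi : (orb m i ω).2.2 = 0) (hj : (orb m j ω).2.2 = 0) (y : ℕ)
    (h1 : hit p y (dt (orb m i ω).1 ω.2.1) (dt ω.1 (orb m i ω).1))
    (h2 : hit p y (dt (orb m j ω).1 ω.2.1) (dt ω.1 (orb m j ω).1)) : p ≤ j - i := by
  obtain ⟨s1, s2, _⟩ := win_sep h hij hm hi hj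
  have hd : (p : ℤ) ∣ dt (orb m i ω).1 (orb m j ω).1 := by
    rw [Gg_dt h i j]
    generalize dt (orb m i ω).1 ω.2.1 = α at *
    generalize dt ω.1 (orb m i ω).1 = β at *
    generalize dt (orb m j ω).1 ω.2.1 = α' at *
    generalize dt ω.1 (orb m j ω).1 = β' at *
    rcases h1 with ⟨a1, a2⟩ | ⟨a1, a2⟩
    · rcases h2 with ⟨b1, b2⟩ | ⟨b1, b2⟩
      · exact dvd_sub (dvd_mul_of_dvd_left a2 _) (dvd_mul_of_dvd_right b2 _)
      · omega
    · rcases h2 with ⟨b1, b2⟩ | ⟨b1, b2⟩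
      · omega
      · have : α * β' - β * α' = α * (α' * y + β') - α' * (α * y + β) := by ring
        rw [this]
        exact dvd_sub (dvd_mul_of_dvd_right b2 _) (dvd_mul_of_dvd_right a2 _)
  have h3 := Int.le_of_dvd s1 hd
  omega

theorem Gg_hit_card {m : ℕ} {ω : GI × GI × ℕ} (h : ω ∈ Om m) {p : ℕ} (hp : p.Prime) (n : ℕ)
    (hm : 16 * n < m) (y : ℕ) : open Classical in
    ((range (n / 2)).filter (fun i => (orb m i ω).2.2 = 0 ∧
      hit p y (dt (orb m i ω).1 ω.2.1) (dt ω.1 (orb m i ω).1))).card ≤ n / 2 / p + 1 := by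
  classical
  have hp0 := hp.pos
  rw [← Finset.card_range (n / 2 / p + 1)]
  apply Finset.card_le_card_of_injOn (fun i => i / p)
  · intro i hi
    have hi' := (mem_filter.1 (Finset.mem_coe.1 hi)).1
    rw [mem_range] at hi'
    simp only [coe_range, Set.mem_Iio]
    have := Nat.div_le_div_right (c := p) hi'.le
    omega
  · intro i hi j hj hij
    have hi' := mem_filter.1 (Finset.mem_coe.1 hi)
    have hj' := mem_filter.1 (Finset.mem_coe.1 hj)
    simp only at hij
    have hi2 := mem_range.1 hi'.1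
    have hj2 := mem_range.1 hj'.1
    have aux : ∀ i j : ℕ, i < n / 2 → j < n / 2 → i < j → (orb m i ω).2.2 = 0 → (orb m j ω).2.2 = 0 →
        hit p y (dt (orb m i ω).1 ω.2.1) (dt ω.1 (orb m i ω).1) →
        hit p y (dt (orb m j ω).1 ω.2.1) (dt ω.1 (orb m j ω).1) → i / p < j / p := by
      intro i j hi hj hlt ti tj h1 h2
      have h3 := Gg_hit_sep h hlt (by omega) ti tj y h1 h2
      have h4 : i + p ≤ j := by omega
      have h5 := Nat.div_le_div_right (c := p) h4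
      rw [Nat.add_div_right _ hp0] at h5
      omega
    rcases lt_trichotomy i j with hlt | heq | hgt
    · have := aux i j hi2 hj2 hlt hi'.2.1 hj'.2.1 hi'.2.2 hj'.2.2
      omega
    · exact heq
    · have := aux j i hj2 hi2 hgt hj'.2.1 hi'.2.1 hj'.2.2 hi'.2.2
      omega

theorem gG_bound (b : ℝ) (hb : 1 < b) : ∃ C : ℝ, 0 < C ∧ ∀ (m q n p : ℕ), p.Prime → p ≤ n → 16 * n < m →
    ∀ (g₁ g₂ : GI) (F : GI → ℂ), (∀ z, ‖F z‖ ≤ 1) → ∀ c : ℕ → ℂ, (∀ k, ‖c k‖ ≤ 1) →
    ∀ ω ∈ Om m, ∀ y : ℕ, |gG b m q n g₁ g₂ F c ω p y| ≤ C := by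
  classical
  obtain ⟨C, hC, hcnt⟩ := det_cnt b 1 hb le_rfl
  refine ⟨2 * C, by positivity, ?_⟩
  intro m q n p hp hpn hm g₁ g₂ F hF c hc ω h y
  have hp0 := hp.pos
  have hn0 : 0 < n := lt_of_lt_of_le hp0 hpn
  have hnR : (0 : ℝ) < n := by exact_mod_cast hn0
  have hm1 : 1 ≤ m := by omega
  -- abbreviations
  set H : ℕ → Prop := fun i => hit p y (dt (orb m i ω).1 ω.2.1) (dt ω.1 (orb m i ω).1) with hH
  set A : ℕ → ℕ → Prop := fun i j =>
    (i < j ∧ (orb m i ω).2.2 = 0 ∧ (orb m j ω).2.2 = 0 ∧ dt (orb m i ω).1 (orb m j ω).1 = p) ∧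
      ((orb m i ω).1 ∈ AA b m ∧ (orb m j ω).1 ∈ AA b m) ∧
      (cg q (orb m i ω).1 (gpi p * g₁) ∧ cg q (orb m j ω).1 (gpi p * g₂)) with hA
  set S : ℂ := ∑ i ∈ range (n / 2), ∑ j ∈ range n, (if A i j then F (orb m i ω).1 * F (orb m j ω).1 *
        ((if H i then ((p : ℂ) + 1) else 0) - 1) else 0) with hS
  have hgG : gG b m q n g₁ g₂ F c ω p y = (1 / (n : ℝ)) * (c p * S).re := by
    unfold gG
    rw [hS]
  -- counting j
  have hj : ∀ i ∈ range (n / 2), (((range n).filter (fun j => A i j)).card : ℝ) ≤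
      if (orb m i ω).2.2 = 0 then C else 0 := by
    intro i hi
    have hi2 := mem_range.1 hi
    by_cases hne : ((range n).filter (fun j => A i j)).Nonempty
    · obtain ⟨j0, hj0⟩ := hne
      obtain ⟨_, ⟨_, ti, _, _⟩, ⟨hv, _⟩, _⟩ := mem_filter.1 hj0
      rw [if_pos ti]
      refine le_trans ?_ (hcnt m hm1 (orb m i ω).1 hv (p : ℤ))
      have : ((range n).filter (fun j => A i j)).card ≤
          ((bal ((1 : ℝ) * m)).filter (fun w => dt (orb m i ω).1 w = p)).card := by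
        apply Finset.card_le_card_of_injOn (fun j => (orb m j ω).1)
        · intro j hj
          obtain ⟨_, ⟨_, _, _, hd⟩, ⟨_, hv'⟩, _⟩ := mem_filter.1 (Finset.mem_coe.1 hj)
          rw [Finset.mem_coe, mem_filter, mem_bal, one_mul]
          exact ⟨(mem_AA.1 hv').1, hd⟩
        · intro j hj j' hj' heq
          obtain ⟨hjn, ⟨_, _, tj, _⟩, _⟩ := mem_filter.1 (Finset.mem_coe.1 hj)
          obtain ⟨hjn', ⟨_, _, tj', _⟩, _⟩ := mem_filter.1 (Finset.mem_coe.1 hj')
          have hjn := mem_range.1 hjn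
          have hjn' := mem_range.1 hjn'
          simp only at heq
          rcases lt_trichotomy j j' with hlt | he | hgt
          · have := (win_sep h hlt (by omega) tj tj').1
            rw [heq, dt_self] at this
            omega
          · exact he
          · have := (win_sep h hgt (by omega) tj' tj).1
            rw [heq, dt_self] at this
            omega
      exact_mod_cast this
    · rw [Finset.not_nonempty_iff_eq_empty] at hne
      rw [hne]
      simp only [card_empty, Nat.cast_zero]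
      split_ifs
      · exact hC.le
      · exact le_rfl
  -- bound of the terms
  have hterm : ∀ i j, ‖(if A i j then F (orb m i ω).1 * F (orb m j ω).1 *
        ((if H i then ((p : ℂ) + 1) else 0) - 1) else 0)‖ ≤
      if A i j then ((if H i then (p : ℝ) else 0) + 1) else 0 := by
    intro i j
    split_ifs with h1 h2
    · rw [norm_mul, norm_mul]
      have e1 : ‖((p : ℂ) + 1 - 1)‖ = p := by
        rw [add_sub_cancel_right]; simp
      rw [e1]
      have := mul_le_mul (hF (orb m i ω).1) (hF (orb m j ω).1) (norm_nonneg _) zero_le_one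
      have hp' : (0 : ℝ) ≤ p := Nat.cast_nonneg _
      nlinarith [norm_nonneg (F (orb m i ω).1), norm_nonneg (F (orb m j ω).1)]
    · rw [norm_mul, norm_mul]
      have e1 : ‖((0 : ℂ) - 1)‖ = 1 := by simp
      rw [e1]
      have := mul_le_mul (hF (orb m i ω).1) (hF (orb m j ω).1) (norm_nonneg _) zero_le_one
      linarith
    · simp
  have hSle : ‖S‖ ≤ 2 * C * n := by
    calc ‖S‖ ≤ ∑ i ∈ range (n / 2), ∑ j ∈ range n,
          (if A i j then ((if H i then (p : ℝ) else 0) + 1) else 0) := by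
          rw [hS]
          refine (norm_sum_le _ _).trans (Finset.sum_le_sum fun i _ => ?_)
          exact (norm_sum_le _ _).trans (Finset.sum_le_sum fun j _ => hterm i j)
      _ = ∑ i ∈ range (n / 2), (((range n).filter (fun j => A i j)).card : ℝ) *
            ((if H i then (p : ℝ) else 0) + 1) := by
          apply Finset.sum_congr rfl
          intro i _
          rw [← Finset.sum_filter, Finset.sum_const, nsmul_eq_mul]
      _ ≤ ∑ i ∈ range (n / 2), (if (orb m i ω).2.2 = 0 then C else 0) *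
            ((if H i then (p : ℝ) else 0) + 1) := by
          apply Finset.sum_le_sum
          intro i hi
          apply mul_le_mul_of_nonneg_right (hj i hi)
          split_ifs <;> positivity
      _ ≤ ∑ i ∈ range (n / 2), (C + C * p * (if ((orb m i ω).2.2 = 0 ∧ H i) then 1 else 0)) := by
          apply Finset.sum_le_sum
          intro i _
          by_cases h1 : (orb m i ω).2.2 = 0 <;> by_cases h2 : H i <;> simp [h1, h2] <;> nlinarith
      _ = C * (n / 2 : ℕ) + C * p * (((range (n / 2)).filter (fun i => (orb m i ω).2.2 = 0 ∧ H i)).card : ℝ) := by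
          rw [Finset.sum_add_distrib, Finset.sum_const, card_range, nsmul_eq_mul, ← Finset.mul_sum,
            Finset.sum_boole]
          ring
      _ ≤ C * (n / 2 : ℕ) + C * p * ((n / 2 / p + 1 : ℕ) : ℝ) := by
          have := Gg_hit_card h hp n hm y
          have h2 : (((range (n / 2)).filter (fun i => (orb m i ω).2.2 = 0 ∧ H i)).card : ℝ) ≤
              ((n / 2 / p + 1 : ℕ) : ℝ) := by exact_mod_cast this
          have h3 : (0 : ℝ) ≤ C * p := by positivity
          nlinarith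
      _ ≤ 2 * C * n := by
          have h1 : (p : ℝ) * ((n / 2 / p + 1 : ℕ) : ℝ) ≤ (n / 2 : ℕ) + p := by
            have : p * (n / 2 / p + 1) ≤ n / 2 + p := by
              have := Nat.mul_div_le (n / 2) p
              nlinarith
            exact_mod_cast this
          have h2 : (((n / 2 : ℕ) : ℝ)) + (n / 2 : ℕ) ≤ n := by
            have : n / 2 + n / 2 ≤ n := by omega
            exact_mod_cast this
          have h3 : (p : ℝ) ≤ n := by exact_mod_cast hpn
          nlinarith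
  rw [hgG, abs_mul, abs_of_nonneg (by positivity : (0 : ℝ) ≤ 1 / n)]
  have h1 : |(c p * S).re| ≤ 2 * C * n := by
    refine (Complex.abs_re_le_norm _).trans ?_
    rw [norm_mul]
    have := hc p
    nlinarith [norm_nonneg S, norm_nonneg (c p)]
  calc 1 / (n : ℝ) * |(c p * S).re| ≤ 1 / (n : ℝ) * (2 * C * n) := by
        apply mul_le_mul_of_nonneg_left h1 (by positivity)
    _ = 2 * C := by field_simp

/-- the inner sum: over later points of the orbit = over all vectors with determinant `p` -/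
theorem Gg_inner (b : ℝ) (hb : 1 < b) (n p : ℕ) (hp : p.Prime)
    (hn : 8 * b * p + 2 ≤ n) : ∃ m0 : ℕ, ∀ m : ℕ, m0 ≤ m →
    ∀ (Q : GI → Prop) (F : GI → ℂ), ∀ ω ∈ Om m, ω.2.2 = 0 → ω.1 ∈ AA b m → ∀ i < n / 2,
    open Classical in
    ∑ j ∈ range n, (if i < j ∧ (orb m (j - i) ω).2.2 = 0 ∧ dt ω.1 (orb m (j - i) ω).1 = p ∧
      (orb m (j - i) ω).1 ∈ AA b m ∧ Q (orb m (j - i) ω).1 then F (orb m (j - i) ω).1 else 0) =
    ∑ z ∈ AA b m, (if (dt ω.1 z = p ∧ 0 < ip ω.1 z) ∧ Q z then F z else 0) := by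
  classical
  obtain ⟨m0, hm0⟩ := win_part b hb p hp.one_lt.le
  refine ⟨max m0 (16 * n + 1), ?_⟩
  intro m hm Q F ω hω ht hv i hi
  have hm1 : m0 ≤ m := le_trans (le_max_left _ _) hm
  have hm2 : 16 * n + 1 ≤ m := le_trans (le_max_right _ _) hm
  have horb0 : orb m 0 ω = ω := rfl
  rw [← Finset.sum_filter, ← Finset.sum_filter]
  apply Finset.sum_bij (fun j _ => (orb m (j - i) ω).1)
  · intro j hj
    obtain ⟨hjn, hij, tj, hd, hA, hQ⟩ := mem_filter.1 hj
    have hjn := mem_range.1 hjn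
    rw [mem_filter]
    have := win_sep hω (show 0 < j - i by omega) (by omega) (by rw [horb0]; exact ht) tj
    rw [horb0] at this
    exact ⟨hA, ⟨hd, this.2.2⟩, hQ⟩
  · intro j hj j' hj' heq
    obtain ⟨hjn, hij, tj, _⟩ := mem_filter.1 hj
    obtain ⟨hjn', hij', tj', _⟩ := mem_filter.1 hj'
    have hjn := mem_range.1 hjn
    have hjn' := mem_range.1 hjn'
    rcases lt_trichotomy j j' with hlt | he | hgt
    · have := (win_sep hω (show j - i < j' - i by omega) (by omega) tj tj').1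
      rw [heq, dt_self] at this
      omega
    · exact he
    · have := (win_sep hω (show j' - i < j - i by omega) (by omega) tj' tj).1
      rw [heq, dt_self] at this
      omega
  · intro z hz
    obtain ⟨hzA, ⟨hd, hip⟩, hQ⟩ := mem_filter.1 hz
    obtain ⟨l, hl1, hl2, hl3, hl4⟩ := hm0 m hm1 ω hω ht hv z hzA hd hip
    have hln : i + l < n := by
      have h1 : (l : ℝ) ≤ 4 * b * p := hl2
      have h2 : (2 : ℝ) * l + 2 ≤ n := by nlinarith
      have h3 : 2 * l + 2 ≤ n := by exact_mod_cast h2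
      omega
    have hsub : i + l - i = l := by omega
    refine ⟨i + l, ?_, ?_⟩
    · rw [mem_filter, mem_range, hsub, hl3]
      exact ⟨hln, by omega, hl4, hd, hzA, hQ⟩
    · simp only [hsub, hl3]
  · intro j _
    rfl

theorem gG_sum (b : ℝ) (hb : 1 < b) (n p : ℕ) (hp : p.Prime) (h4 : p % 4 = 1)
    (hn : 8 * b * p + 2 ≤ n) : ∃ m0 : ℕ, ∀ m : ℕ, m0 ≤ m →
    ∀ (q : ℕ) (g₁ g₂ : GI) (F : GI → ℂ) (c : ℕ → ℂ),
    ∑ ω ∈ Om m, gG b m q n g₁ g₂ F c ω p (yo ω p) =
      (((n / 2 : ℕ) : ℝ) / n) * (c p * (((p : ℂ) + 1) * SPd b m q g₁ g₂ F p - SP b m q g₁ g₂ F p)).re := by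
  classical
  obtain ⟨m0, hm0⟩ := Gg_inner b hb n p hp hn
  refine ⟨m0, ?_⟩
  intro m hm q g₁ g₂ F c
  -- value of one `i`, as a function of the vector
  set h : GI → ℂ := fun v => if v ∈ AA b m ∧ cg q v (gpi p * g₁) then
    F v * ((if gpi p ∣ v then ((p : ℂ) + 1) else 0) - 1) *
      ∑ z ∈ AA b m, (if (dt v z = p ∧ 0 < ip v z) ∧ cg q z (gpi p * g₂) then F z else 0) else 0 with hh
  -- value of one `i`, as a function of the `i`-th point
  set G : ℕ → GI × GI × ℕ → ℂ := fun i ω => ∑ j ∈ range n,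
    if (i < j ∧ ω.2.2 = 0 ∧ (orb m (j - i) ω).2.2 = 0 ∧ dt ω.1 (orb m (j - i) ω).1 = p) ∧
      (ω.1 ∈ AA b m ∧ (orb m (j - i) ω).1 ∈ AA b m) ∧
      (cg q ω.1 (gpi p * g₁) ∧ cg q (orb m (j - i) ω).1 (gpi p * g₂)) then
      F ω.1 * F (orb m (j - i) ω).1 *
        ((if gpi p ∣ ω.1 then ((p : ℂ) + 1) else 0) - 1)
    else 0 with hG
  have hG1 : ∀ ω ∈ Om m, gG b m q n g₁ g₂ F c ω p (yo ω p) =
      (1 / (n : ℝ)) * ∑ i ∈ range (n / 2), (c p * G i (orb m i ω)).re := by
    intro ω hω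
    unfold gG
    rw [Finset.mul_sum, Complex.re_sum]
    congr 1
    apply Finset.sum_congr rfl
    intro i hi
    congr 2
    rw [hG]
    simp only
    apply Finset.sum_congr rfl
    intro j hj
    by_cases hij : i < j
    · have e1 : orb m (j - i) (orb m i ω) = orb m j ω := by
        rw [← orb_add]
        congr 1
        omega
      have e2 : hit p (yo ω p) (dt (orb m i ω).1 ω.2.1) (dt ω.1 (orb m i ω).1) ↔ gpi p ∣ (orb m i ω).1 := by
        conv_rhs => rw [(orb_coord hω i).1]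
        exact (yv_dvd hp h4 (Gg_dt1 hω) _ _).symm
      rw [e1]
      simp only [e2]
    · rw [if_neg (fun hc => hij hc.1.1), if_neg (fun hc => hij hc.1.1)]
  have hG2 : ∀ i < n / 2, ∀ ω ∈ Om m, G i ω = if ω.2.2 = 0 then h ω.1 else 0 := by
    intro i hi ω hω
    rw [hG, hh]
    simp only
    by_cases ht : ω.2.2 = 0
    · rw [if_pos ht]
      by_cases hv : ω.1 ∈ AA b m ∧ cg q ω.1 (gpi p * g₁)
      · rw [if_pos hv]
        rw [← hm0 m hm (fun z => cg q z (gpi p * g₂)) F ω hω ht hv.1 i hi, Finset.mul_sum]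
        apply Finset.sum_congr rfl
        intro j _
        by_cases hc : i < j ∧ (orb m (j - i) ω).2.2 = 0 ∧ dt ω.1 (orb m (j - i) ω).1 = p ∧
            (orb m (j - i) ω).1 ∈ AA b m ∧ cg q (orb m (j - i) ω).1 (gpi p * g₂)
        · rw [if_pos hc, if_pos ⟨⟨hc.1, ht, hc.2.1, hc.2.2.1⟩, ⟨hv.1, hc.2.2.2.1⟩, hv.2, hc.2.2.2.2⟩]
          ring
        · rw [if_neg hc, if_neg, mul_zero]
          rintro ⟨⟨a1, a2, a3, a4⟩, ⟨a5, a6⟩, a7, a8⟩
          exact hc ⟨a1, a3, a4, a6, a8⟩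
      · rw [if_neg hv]
        apply Finset.sum_eq_zero
        intro j _
        rw [if_neg]
        rintro ⟨_, ⟨a5, _⟩, a7, _⟩
        exact hv ⟨a5, a7⟩
    · rw [if_neg ht]
      apply Finset.sum_eq_zero
      intro j _
      rw [if_neg]
      rintro ⟨⟨_, a2, _⟩, _⟩
      exact ht a2
  have hG3 : ∀ i < n / 2, ∑ ω ∈ Om m, (c p * G i (orb m i ω)).re =
      (c p * (((p : ℂ) + 1) * SPd b m q g₁ g₂ F p - SP b m q g₁ g₂ F p)).re := by
    intro i hi
    rw [Om_sum_orb m i (fun ω => (c p * G i ω).re)]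
    have e1 : ∑ ω ∈ Om m, (c p * G i ω).re =
        ∑ ω ∈ (Om m).filter (fun ω => ω.2.2 = 0), (c p * h ω.1).re := by
      rw [Finset.sum_filter]
      apply Finset.sum_congr rfl
      intro ω hω
      rw [hG2 i hi ω hω]
      split_ifs <;> simp
    have e2 := sum_base m (fun v => (c p * h v).re)
    have e3 : ∑ v ∈ (bal (m : ℝ)).filter Pr, (c p * h v).re = ∑ v ∈ AA b m, (c p * h v).re := by
      symm
      apply Finset.sum_subset
      · intro v hv
        obtain ⟨h1, h2, _⟩ := mem_AA.1 hv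
        rw [mem_filter, mem_bal]
        exact ⟨h1, h2⟩
      · intro v _ hv
        rw [hh]
        simp only
        rw [if_neg (fun hc => hv hc.1)]
        simp
    have e4 : ∑ v ∈ AA b m, (c p * h v).re =
        (c p * (((p : ℂ) + 1) * SPd b m q g₁ g₂ F p - SP b m q g₁ g₂ F p)).re := by
      rw [← Complex.re_sum, ← Finset.mul_sum]
      congr 2
      unfold SPd SP
      rw [Finset.mul_sum, ← Finset.sum_sub_distrib]
      apply Finset.sum_congr rfl
      intro v hv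
      rw [Finset.mul_sum, ← Finset.sum_sub_distrib, hh]
      simp only
      by_cases hc1 : cg q v (gpi p * g₁)
      · rw [if_pos ⟨hv, hc1⟩, Finset.mul_sum]
        apply Finset.sum_congr rfl
        intro z _
        by_cases hc : (dt v z = p ∧ 0 < ip v z) ∧ cg q z (gpi p * g₂)
        · rw [if_pos hc]
          have hc' : (dt v z = p ∧ 0 < ip v z) ∧ (cg q v (gpi p * g₁) ∧ cg q z (gpi p * g₂)) :=
            ⟨hc.1, hc1, hc.2⟩
          rw [if_pos hc']
          by_cases hd : gpi p ∣ v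
          · rw [if_pos hd, if_pos ⟨hc', hd⟩]
            ring
          · rw [if_neg hd, if_neg (fun hx => hd hx.2)]
            ring
        · have n1 : ¬ (((dt v z = p ∧ 0 < ip v z) ∧ (cg q v (gpi p * g₁) ∧ cg q z (gpi p * g₂))) ∧
              gpi p ∣ v) := fun hx => hc ⟨hx.1.1, hx.1.2.2⟩
          have n2 : ¬ ((dt v z = p ∧ 0 < ip v z) ∧ (cg q v (gpi p * g₁) ∧ cg q z (gpi p * g₂))) :=
            fun hx => hc ⟨hx.1, hx.2.2⟩
          rw [if_neg hc, if_neg n1, if_neg n2]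
          ring
      · rw [if_neg (fun hx => hc1 hx.2)]
        symm
        apply Finset.sum_eq_zero
        intro z _
        have n1 : ¬ (((dt v z = p ∧ 0 < ip v z) ∧ (cg q v (gpi p * g₁) ∧ cg q z (gpi p * g₂))) ∧
              gpi p ∣ v) := fun hx => hc1 hx.1.2.1
        have n2 : ¬ ((dt v z = p ∧ 0 < ip v z) ∧ (cg q v (gpi p * g₁) ∧ cg q z (gpi p * g₂))) :=
            fun hx => hc1 hx.2.1
        rw [if_neg n1, if_neg n2]
        ring
    rw [e1]
    have e2' : ∑ ω ∈ (Om m).filter (fun ω => ω.2.2 = 0), (c p * h ω.1).re =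
        ∑ v ∈ (bal (m : ℝ)).filter Pr, (c p * h v).re := by
      convert e2 using 2
    rw [e2', e3, e4]
  rw [Finset.sum_congr rfl hG1, ← Finset.mul_sum, Finset.sum_comm,
    Finset.sum_congr rfl (fun i hi => hG3 i (mem_range.1 hi)), Finset.sum_const, card_range, nsmul_eq_mul]
  ring

end Pool.Agent.FCH
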