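import Pool.Agent.FCH.Gg
import Pool.Agent.FCH.Dv

set_option autoImplicit false

/-! Module Gst: one scale.  `dv` with `s = Om m`, `X = wrd (Tm m) (sy F b q m) H`, `Y = yo`, `S = pr A P`, `N p = p + 1`, `g = gG b m q H g₁ g₂ F c'`, `c' p = u c p` with a common phase `u`, `|u| = 1`, chosen such that
`u ∑ c p (...)` is real `≥ 0`; `gG_sum`, `H/⌊H/2⌋ ≤ 3`, `#Om ≤ C m` (`Om_card`), `gG_bound` (`p ≤ AP ≤ H`). -/

open Finset

namespace Pool.Agent.FCH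

open Pool.Agent.MRS hiding Good

/-- entropy deficiency of the labels in `pr A P` given the word of length `H` -/
noncomputable def dfc (F : GI → ℂ) (b : ℝ) (q m A P H : ℕ) : ℝ :=
  ∑ p ∈ pr A P, Real.log ((p + 1 : ℕ) : ℝ) -
    (ent (Om m) (fun ω => (wrd (Tm m) (sy F b q m) H ω, rst (pr A P) (yo ω))) -
      ent (Om m) (wrd (Tm m) (sy F b q m) H))

theorem gst (b : ℝ) (hb : 1 < b) : ∃ C : ℝ, 0 < C ∧ ∀ A P H : ℕ, 1 ≤ P → 2 ≤ A →
    8 * b * (A * P : ℕ) + 2 ≤ H → ∃ m0 : ℕ, ∀ m : ℕ, m0 ≤ m → ∀ (q : ℕ) (g₁ g₂ : GI) (F : GI → ℂ),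
    (∀ z, ‖F z‖ ≤ 1) → ∀ c : ℕ → ℂ, (∀ k, ‖c k‖ ≤ 1) →
    ‖∑ p ∈ pr A P, c p * (((p : ℂ) + 1) * SPd b m q g₁ g₂ F p - SP b m q g₁ g₂ F p)‖ ≤
      C * m * √(dfc F b q m A P H * (pr A P).card) := by
  classical
  obtain ⟨Cg, hCg, hgb⟩ := gG_bound b hb
  obtain ⟨cO, CO, hcO, hCO, hOm⟩ := Om_card
  refine ⟨6 * Cg * CO, by positivity, fun A P H hP hA hH => ?_⟩
  have hple : ∀ p ∈ pr A P, (p : ℝ) ≤ (A * P : ℕ) := by
    intro p hp
    exact_mod_cast (mem_pr.1 hp).1.2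
  have hH2 : 2 ≤ H := by
    have h1 : (2 : ℝ) ≤ H := by
      have : 0 ≤ 8 * b * (A * P : ℕ) := by positivity
      linarith
    exact_mod_cast h1
  have hpH : ∀ p ∈ pr A P, 8 * b * p + 2 ≤ H := by
    intro p hp
    have h1 := hple p hp
    have h2 : 8 * b * (p : ℝ) ≤ 8 * b * (A * P : ℕ) := mul_le_mul_of_nonneg_left h1 (by positivity)
    linarith
  have hpH' : ∀ p ∈ pr A P, p ≤ H := by
    intro p hp
    have h1 := hpH p hp
    have h2 : (p : ℝ) ≤ H := by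
      have h3 : (0 : ℝ) ≤ p := Nat.cast_nonneg p
      nlinarith
    exact_mod_cast h2
  have hex : ∀ p : ℕ, ∃ m0 : ℕ, p ∈ pr A P → ∀ m : ℕ, m0 ≤ m →
      ∀ (q : ℕ) (g₁ g₂ : GI) (F : GI → ℂ) (c : ℕ → ℂ),
      ∑ ω ∈ Om m, gG b m q H g₁ g₂ F c ω p (yo ω p) =
        (((H / 2 : ℕ) : ℝ) / H) * (c p * (((p : ℂ) + 1) * SPd b m q g₁ g₂ F p - SP b m q g₁ g₂ F p)).re := by
    intro p
    by_cases hp : p ∈ pr A P
    · obtain ⟨m0, hm0⟩ := gG_sum b hb H p (mem_pr.1 hp).2.1 (mem_pr.1 hp).2.2 (hpH p hp)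
      exact ⟨m0, fun _ => hm0⟩
    · exact ⟨0, fun h => absurd h hp⟩
  choose m0 hm0 using hex
  refine ⟨(pr A P).sup m0 + 16 * H + 1, fun m hm q g₁ g₂ F hF c hc => ?_⟩
  have hm1 : 1 ≤ m := by omega
  have hm16 : 16 * H < m := by omega
  have hmp : ∀ p ∈ pr A P, m0 p ≤ m := by
    intro p hp
    have := Finset.le_sup (f := m0) hp
    omega
  obtain ⟨hO1, hO2⟩ := hOm m hm1
  have hm1' : (1 : ℝ) ≤ m := by exact_mod_cast hm1
  have hOpos : (0 : ℝ) < (Om m).card := lt_of_lt_of_le (by positivity) hO1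
  have hOne : (Om m).Nonempty := card_pos.1 (by exact_mod_cast hOpos)
  set V := ∑ p ∈ pr A P, c p * (((p : ℂ) + 1) * SPd b m q g₁ g₂ F p - SP b m q g₁ g₂ F p) with hV
  -- the phase
  obtain ⟨u, hu, huV⟩ : ∃ u : ℂ, ‖u‖ = 1 ∧ (u * V).re = ‖V‖ := by
    by_cases h0 : V = 0
    · exact ⟨1, by simp, by simp [h0]⟩
    · have hn : (‖V‖ : ℂ) ≠ 0 := by exact_mod_cast (norm_ne_zero_iff.2 h0)
      refine ⟨(starRingEnd ℂ) V / ‖V‖, ?_, ?_⟩
      · rw [norm_div, RCLike.norm_conj, Complex.norm_real, Real.norm_of_nonneg (norm_nonneg V),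
          div_self (norm_ne_zero_iff.2 h0)]
      · have h1 : (starRingEnd ℂ) V / ‖V‖ * V = ((‖V‖ : ℝ) : ℂ) := by
          rw [div_mul_eq_mul_div, mul_comm, Complex.mul_conj, Complex.normSq_eq_norm_sq,
            div_eq_iff hn]
          push_cast; ring
        rw [h1, Complex.ofReal_re]
  have hc' : ∀ k, ‖u * c k‖ ≤ 1 := fun k => by rw [norm_mul, hu, one_mul]; exact hc k
  have hdv := dv (Om m) hOne (wrd (Tm m) (sy F b q m) H) (fun ω => yo ω) (pr A P) (fun p => p + 1)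
    (fun p _ => by omega)
    (fun ω hω p hp => yo_lt (mem_pr.1 hp).2.1 (mem_pr.1 hp).2.2 hω)
    (fun ω p v => gG b m q H g₁ g₂ F (fun k => u * c k) ω p v)
    (fun ω hω ω' hω' hX p _ v _ => gG_word b m q H g₁ g₂ F (fun k => u * c k) hω hω' hX p v)
    Cg hCg.le
    (fun ω hω p hp v _ => hgb m q H p (mem_pr.1 hp).2.1 (hpH' p hp) hm16 g₁ g₂ F hF (fun k => u * c k) hc' ω hω v)
    (fun ω hω p hp => gG_mean b m q H g₁ g₂ F (fun k => u * c k) hω (mem_pr.1 hp).2.1)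
  have hsum : ∑ ω ∈ Om m, ∑ p ∈ pr A P, gG b m q H g₁ g₂ F (fun k => u * c k) ω p (yo ω p) =
      (((H / 2 : ℕ) : ℝ) / H) * ‖V‖ := by
    rw [sum_comm, ← huV, hV, mul_sum, Complex.re_sum, mul_sum]
    refine sum_congr rfl fun p hp => ?_
    rw [hm0 p hp m (hmp p hp) q g₁ g₂ F (fun k => u * c k)]
    congr 2
    ring
  rw [hsum] at hdv
  have hdfc : (∑ p ∈ pr A P, Real.log ((p + 1 : ℕ) : ℝ) -
      (ent (Om m) (fun a => (wrd (Tm m) (sy F b q m) H a, rst (pr A P) (yo a))) -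
        ent (Om m) (wrd (Tm m) (sy F b q m) H))) = dfc F b q m A P H := rfl
  rw [hdfc] at hdv
  have hH0 : (0 : ℝ) < H := by exact_mod_cast (by omega : 0 < H)
  have hhalf : (1 : ℝ) / 3 ≤ (((H / 2 : ℕ) : ℝ) / H) := by
    rw [div_le_div_iff₀ (by norm_num) hH0]
    have : H ≤ (H / 2) * 3 := by omega
    have h2 : (H : ℝ) ≤ ((H / 2 : ℕ) : ℝ) * 3 := by exact_mod_cast this
    linarith
  rw [div_le_iff₀ hOpos] at hdv
  have hsq : √(2 * dfc F b q m A P H * (pr A P).card) ≤ 2 * √(dfc F b q m A P H * (pr A P).card) := by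
    rw [mul_assoc, Real.sqrt_mul (by norm_num)]
    have : √2 ≤ 2 := by
      rw [Real.sqrt_le_left (by norm_num)]; norm_num
    exact mul_le_mul_of_nonneg_right this (Real.sqrt_nonneg _)
  have h3 : ‖V‖ ≤ 3 * ((((H / 2 : ℕ) : ℝ) / H) * ‖V‖) := by
    have := norm_nonneg V
    nlinarith
  calc ‖V‖ ≤ 3 * ((((H / 2 : ℕ) : ℝ) / H) * ‖V‖) := h3
    _ ≤ 3 * (Cg * √(2 * dfc F b q m A P H * (pr A P).card) * (Om m).card) := by linarith
    _ ≤ 3 * (Cg * (2 * √(dfc F b q m A P H * (pr A P).card)) * (CO * m)) := by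
        gcongr
    _ = 6 * Cg * CO * m * √(dfc F b q m A P H * (pr A P).card) := by ring

end Pool.Agent.FCH
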