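import Pool.Agent.FCH.Base

set_option autoImplicit false

/-! Hecke-type characters: definitions. -/

open Finset

namespace Pool.Agent.FCH

open Pool.Agent.MRS hiding Good

/-- even character of the units mod `D` (on `Od`), zero off the elements coprime to `D` -/
structure HC (D : ℕ) (ψ : GI → ℂ) : Prop where
  mul : ∀ z w : GI, Od z → Od w → ψ (z * w) = ψ z * ψ w
  neg : ∀ z : GI, Od z → ψ (-z) = ψ z
  per : ∀ z w : GI, Od z → Od w → cg D z w → ψ z = ψ w
  one : ψ 1 = 1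
  le : ∀ z : GI, ‖ψ z‖ ≤ 1
  cop : ∀ z : GI, Od z → ¬ Nat.Coprime (nm z) D → ψ z = 0
  unit : ∀ z : GI, Od z → Nat.Coprime (nm z) D → ‖ψ z‖ = 1

/-- completely multiplicative on `Od`, even, normalised, bounded by `1` -/
structure CE (χ : GI → ℂ) : Prop where
  mul : ∀ z w : GI, Od z → Od w → χ (z * w) = χ z * χ w
  neg : ∀ z : GI, Od z → χ (-z) = χ z
  one : χ 1 = 1
  le : ∀ z : GI, ‖χ z‖ ≤ 1

/-- `χ_{-4}(re z) z / |z|` : even, completely multiplicative on `Od`, square `uu` -/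
noncomputable def ut (z : GI) : ℂ := (if z.re % 4 = 1 then 1 else -1) * ez z

/-- `χ(z) conj χ(star z)` -/
noncomputable def sh (χ : GI → ℂ) (z : GI) : ℂ := χ z * (starRingEnd ℂ) (χ (star z))

/-- `(1/2) ∑_{z primitive, N(z) = n} χ(z)` -/
noncomputable def bg (χ : GI → ℂ) (n : ℕ) : ℂ := (1 / 2) * ∑ z ∈ pn n, χ z

end Pool.Agent.FCH
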