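import Pool.Agent.FCH.StP
import Pool.Agent.MRS.PwA

set_option autoImplicit false

/-! Module LbP: port of `MRS/PwA.lean` (`L_bound`) with `b = Re bg (ψ u^κ)`; input `st_psi` instead of `st_prim`, `sum_bg`, `norm_bg_le`; `plb_abel`, `L_zero` can be reused. -/

open Finset

namespace Pool.Agent.FCH

open Pool.Agent.MRS hiding Good

theorem LbP_sum_re (χ : GI → ℂ) (n : ℕ) :
    ∑ m ∈ Icc 1 n, (bg χ m).re = (1 / 2) * (∑ z ∈ pan 0 n, χ z).re := by
  have h := sum_bg χ (n : ℝ) (Nat.cast_nonneg n)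
  rw [Nat.floor_natCast] at h
  have h2 := congrArg Complex.re h
  rw [Complex.re_sum] at h2
  rw [h2]
  have e : (1 / 2 : ℂ) = ((1 / 2 : ℝ) : ℂ) := by push_cast; ring
  rw [e, Complex.re_ofReal_mul]

theorem LbP_triv {χ : GI → ℂ} (hχ : CE χ) (n : ℕ) : |∑ m ∈ Icc 1 n, (bg χ m).re| ≤ 2 * n := by
  rw [LbP_sum_re, abs_mul]
  have h1 : |(∑ z ∈ pan 0 n, χ z).re| ≤ 4 * n := by
    refine (Complex.abs_re_le_norm _).trans ?_
    refine (norm_sum_le _ _).trans ?_
    calc ∑ z ∈ pan 0 (n : ℝ), ‖χ z‖ ≤ ∑ z ∈ pan 0 (n : ℝ), (1 : ℝ) :=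
          Finset.sum_le_sum (fun z _ => hχ.le z)
      _ = ((pan 0 (n : ℝ)).card : ℝ) := by rw [Finset.sum_const, nsmul_eq_mul, mul_one]
      _ ≤ ((ann 0 (n : ℝ)).card : ℝ) := by exact_mod_cast Finset.card_le_card (pan_subset _ _)
      _ ≤ 4 * n := card_ann_le 0 (Nat.cast_nonneg n)
  have h2 : |(1 / 2 : ℝ)| = 1 / 2 := abs_of_pos (by norm_num)
  rw [h2]
  linarith

theorem LbP_zero_term {χ : GI → ℂ} (hχ : CE χ) : (bg χ 0).re = 0 := by
  have h1 := norm_bg_le hχ 0
  rw [plb_zero_term 0] at h1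
  have h2 : bg χ 0 = 0 := norm_le_zero_iff.1 h1
  rw [h2]
  rfl

theorem LbP_summable {χ : GI → ℂ} (hχ : CE χ) {α : ℝ} (h0 : 0 < α) (h1 : α ≤ 1) :
    Summable (fun n : ℕ => (bg χ n).re * (n : ℝ) ^ (-(1 + α))) := by
  obtain ⟨K, _, hK⟩ := L_zero
  obtain ⟨hs, _⟩ := hK α h0 h1
  refine Summable.of_norm_bounded hs (fun n => ?_)
  rw [norm_mul, Real.norm_eq_abs, Real.norm_eq_abs, abs_of_nonneg (by positivity :
    (0 : ℝ) ≤ (n : ℝ) ^ (-(1 + α)))]
  exact mul_le_mul_of_nonneg_right ((Complex.abs_re_le_norm _).trans (norm_bg_le hχ n))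
    (by positivity)

theorem LbP (D : ℕ) (h4 : 4 ∣ D) (hD : 0 < D) (B ε : ℝ) (hε : 0 < ε) : ∃ a0 : ℝ, 0 < a0 ∧
    ∀ ψ : GI → ℂ, HC D ψ → ∀ α : ℝ, 0 < α → α ≤ a0 → ∀ κ : ℤ, |(κ : ℝ)| ≤ Real.exp (B / α) →
    (κ ≠ 0 ∨ ∃ z : GI, Od z ∧ Nat.Coprime (nm z) D ∧ ψ z ≠ 1) →
    |∑' n : ℕ, (bg (fun z => ψ z * uu z ^ κ) n).re * (n : ℝ) ^ (-(1 + α))| ≤ ε / α := by
  set C : ℝ := 8 * |B| / ε + 1 with hC
  have hC1 : 1 ≤ C := by
    have : 0 ≤ 8 * |B| / ε := by positivity
    rw [hC]; linarith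
  have hC0 : 0 < C := by linarith
  obtain ⟨c, K, hc, _, hK, hst⟩ := st_psi D h4 hD C
  set W : ℝ := 6 + K * (1 + 1 / c) with hW
  have hW0 : 0 < W := by positivity
  refine ⟨min 1 (ε / (2 * W)), by positivity, ?_⟩
  intro ψ hψ α h0 hα κ hκB hκ
  have hχ : CE (fun z => ψ z * uu z ^ κ) := CE_mul (HC_CE hψ) (CE_uu κ)
  set χ : GI → ℂ := fun z => ψ z * uu z ^ κ with hχdef
  have h1 : α ≤ 1 := hα.trans (min_le_left _ _)
  have h2 : α ≤ ε / (2 * W) := hα.trans (min_le_right _ _)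
  have hκ1 : (1 : ℝ) ≤ max 1 |(κ : ℝ)| := le_max_left _ _
  have hκ0 : (0 : ℝ) < max 1 |(κ : ℝ)| := by linarith
  set T : ℝ := (max 1 |(κ : ℝ)|) ^ (1 / C) with hT
  have hT1 : 1 ≤ T := Real.one_le_rpow hκ1 (by positivity)
  have hlogT : Real.log T ≤ |B| / α / C := by
    rw [hT, Real.log_rpow hκ0]
    have h3 : Real.log (max 1 |(κ : ℝ)|) ≤ |B| / α := by
      rw [Real.log_le_iff_le_exp hκ0]
      refine max_le (Real.one_le_exp (by positivity)) (hκB.trans ?_)
      apply Real.exp_le_exp.mpr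
      gcongr
      exact le_abs_self B
    calc 1 / C * Real.log (max 1 |(κ : ℝ)|) ≤ 1 / C * (|B| / α) :=
          mul_le_mul_of_nonneg_left h3 (by positivity)
      _ = |B| / α / C := by ring
  have hbig : ∀ n : ℕ, T ≤ n → |∑ m ∈ Icc 1 n, (bg χ m).re| ≤ K / 2 * (n : ℝ) ^ (1 - c) := by
    intro n hn
    have hn1 : (1 : ℝ) ≤ n := hT1.trans hn
    have h3 : |(κ : ℝ)| ≤ (n : ℝ) ^ C := by
      calc |(κ : ℝ)| ≤ max 1 |(κ : ℝ)| := le_max_right _ _
        _ = T ^ C := by
            rw [hT, ← Real.rpow_mul hκ0.le]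
            have : 1 / C * C = 1 := by field_simp
            rw [this, Real.rpow_one]
        _ ≤ (n : ℝ) ^ C := Real.rpow_le_rpow (by linarith) hn hC0.le
    have h4 := hst ψ hψ (n : ℝ) hn1 κ h3 hκ
    rw [LbP_sum_re, abs_mul, abs_of_pos (by norm_num : (0 : ℝ) < 1 / 2)]
    have h5 := (Complex.abs_re_le_norm (∑ z ∈ pan 0 (n : ℝ), χ z)).trans h4
    linarith
  have hb : ∀ N : ℕ, |∑ i ∈ range N, (bg χ i).re * (i : ℝ) ^ (-(1 + α))| ≤ ε / α := by
    intro N
    have h3 := plb_abel (fun n => (bg χ n).re) (LbP_zero_term hχ) h0 h1 (LbP_triv hχ) N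
    have h4 : ∑ i ∈ Icc 1 N, |∑ m ∈ Icc 1 i, (bg χ m).re| * (i : ℝ) ^ (-(2 + α)) ≤
        2 * (1 + Real.log T) + K / 2 * (1 + 1 / c) := by
      calc ∑ i ∈ Icc 1 N, |∑ m ∈ Icc 1 i, (bg χ m).re| * (i : ℝ) ^ (-(2 + α))
          ≤ ∑ i ∈ Icc 1 N, ((if i ≤ ⌊T⌋₊ then 2 * (i : ℝ)⁻¹ else 0) +
              K / 2 * (i : ℝ) ^ (-(1 + c))) := by
            apply Finset.sum_le_sum
            intro i hi
            rw [Finset.mem_Icc] at hi
            have hi1 : (1 : ℝ) ≤ i := by exact_mod_cast hi.1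
            have hi0 : (0 : ℝ) < i := by linarith
            have hp2 : 0 ≤ (i : ℝ) ^ (-(2 + α)) := by positivity
            split_ifs with hiT
            · have h5 : |∑ m ∈ Icc 1 i, (bg χ m).re| * (i : ℝ) ^ (-(2 + α)) ≤ 2 * (i : ℝ)⁻¹ := by
                calc |∑ m ∈ Icc 1 i, (bg χ m).re| * (i : ℝ) ^ (-(2 + α))
                    ≤ 2 * i * (i : ℝ) ^ (-(2 : ℝ)) := by
                      apply mul_le_mul (LbP_triv hχ i) _ hp2 (by positivity)
                      exact Real.rpow_le_rpow_of_exponent_le hi1 (by linarith)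
                  _ = 2 * (i : ℝ)⁻¹ := by
                      rw [Real.rpow_neg hi0.le, Real.rpow_two]
                      field_simp
              have h6 : 0 ≤ K / 2 * (i : ℝ) ^ (-(1 + c)) := by positivity
              linarith
            · have hiT' : T ≤ i := by
                push Not at hiT
                exact (Nat.lt_of_floor_lt hiT).le
              calc |∑ m ∈ Icc 1 i, (bg χ m).re| * (i : ℝ) ^ (-(2 + α))
                  ≤ K / 2 * (i : ℝ) ^ (1 - c) * (i : ℝ) ^ (-(2 : ℝ)) := by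
                    apply mul_le_mul (hbig i hiT') _ hp2 (by positivity)
                    exact Real.rpow_le_rpow_of_exponent_le hi1 (by linarith)
                _ = 0 + K / 2 * (i : ℝ) ^ (-(1 + c)) := by
                    rw [mul_assoc, ← Real.rpow_add hi0, zero_add]
                    congr 2
                    ring
        _ = ∑ i ∈ Icc 1 N, (if i ≤ ⌊T⌋₊ then 2 * (i : ℝ)⁻¹ else 0) +
              K / 2 * ∑ i ∈ Icc 1 N, (i : ℝ) ^ (-(1 + c)) := by
            rw [Finset.sum_add_distrib, Finset.mul_sum]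
        _ ≤ 2 * (1 + Real.log T) + K / 2 * (1 + 1 / c) := by
            apply add_le_add
            · have h5 := harmonic_floor_le_one_add_log T hT1
              calc ∑ i ∈ Icc 1 N, (if i ≤ ⌊T⌋₊ then 2 * (i : ℝ)⁻¹ else 0)
                  = ∑ i ∈ (Icc 1 N).filter (fun i => i ≤ ⌊T⌋₊), 2 * (i : ℝ)⁻¹ := by
                    rw [Finset.sum_filter]
                _ ≤ ∑ i ∈ Icc 1 ⌊T⌋₊, 2 * (i : ℝ)⁻¹ := by
                    apply Finset.sum_le_sum_of_subset_of_nonneg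
                    · intro i hi
                      rw [Finset.mem_filter, Finset.mem_Icc] at hi
                      rw [Finset.mem_Icc]
                      omega
                    · intro i _ _
                      positivity
                _ = 2 * ((harmonic ⌊T⌋₊ : ℚ) : ℝ) := by
                    rw [← Finset.mul_sum, harmonic_eq_sum_Icc]
                    push_cast
                    rfl
                _ ≤ 2 * (1 + Real.log T) := mul_le_mul_of_nonneg_left h5 (by norm_num)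
            · exact mul_le_mul_of_nonneg_left (plb_sum_rpow hc N) (by positivity)
    have h5 : 4 * Real.log T ≤ ε / (2 * α) := by
      have h6 : 8 * |B| ≤ ε * C := by
        rw [hC, mul_add, mul_div_assoc']
        have : ε * (8 * |B|) / ε = 8 * |B| := by field_simp
        rw [this]
        linarith
      calc 4 * Real.log T ≤ 4 * (|B| / α / C) := by linarith
        _ = 8 * |B| / (2 * α * C) := by field_simp; ring
        _ ≤ ε * C / (2 * α * C) := by gcongr
        _ = ε / (2 * α) := by field_simp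
    have h6 : W ≤ ε / (2 * α) := by
      rw [le_div_iff₀ (by positivity)]
      rw [le_div_iff₀ (by positivity)] at h2
      linarith
    have h7 : ε / α = ε / (2 * α) + ε / (2 * α) := by field_simp; ring
    have h8 : (2 : ℝ) + 2 * (2 * (1 + Real.log T) + K / 2 * (1 + 1 / c)) =
        W + 4 * Real.log T := by rw [hW]; ring
    rw [h7]
    calc |∑ i ∈ range N, (bg χ i).re * (i : ℝ) ^ (-(1 + α))| ≤ _ := h3
      _ ≤ 2 + 2 * (2 * (1 + Real.log T) + K / 2 * (1 + 1 / c)) := by linarith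
      _ ≤ _ := by rw [h8]; linarith
  have hs := LbP_summable hχ h0 h1
  have ht := hs.hasSum.tendsto_sum_nat
  exact le_of_tendsto ht.abs (Filter.Eventually.of_forall hb)

end Pool.Agent.FCH
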