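import Pool.Agent.FCH.Mls
import Pool.Agent.FCH.PrA
import Pool.Agent.MR.ASelberg
import Pool.Agent.MertensAP.Char

set_option autoImplicit false

/-! Module LogFree: log-free bound for characters of small modulus (duality + Selberg majorant).
Let `D = ⌊P^(1/20)⌋`, `l` the weights of `Pool.Agent.MR.selberg_weights` (ASelberg.lean), `ν(n) = (∑_{d ∣ n, d ≤ D} l_d)²`;
`ν ≥ 0`, `ν(p) = 1` for a prime `p > D`.
`∑_{n ≤ AP} ν(n) = ∑_{d,e} l_d l_e (AP/[d,e] + O(1)) ≤ K A P/log D + D^4 ≤ C P / log P`  (`|l_d| ≤ d`).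
For a non-principal character `ψ` mod `r`: `|∑_{n ≤ AP} ν(n) ψ(n)| ≤ ∑_{d,e ≤ D} d e |∑_{n' ≤ AP/[d,e]} ψ(n')| ≤ D^4 r`
(`Pool.Agent.MertensAP` `norm_sum_char_le`).
Duality: by Cauchy-Schwarz, with `S(q,χ) = ∑_p x_p χ(p)`,
`(∑_{q,χ} |S|²)² = |∑_p x_p ∑_{q,χ} conj S χ(p)|² ≤ (∑_p |x_p|²) ∑_n ν(n) |∑_{q,χ} conj S(q,χ) χ(n)|²
 ≤ #pr · ∑_{(q,χ),(q',χ')} |S S'| |∑_n ν(n) χ(n) conj χ'(n)|`.
Diagonal terms: `≤ C P/log P · ∑|S|²`.  Off-diagonal terms: `n ↦ χ(n) conj χ'(n)` is a NON-principal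
character mod `q q'` (distinct primitive characters induce distinct characters mod `q q'`:
Mathlib `DirichletCharacter.conductor`, `changeLevel`, `primitiveCharacter`), so `≤ D^4 R²` each, and
`∑∑ |S||S'| ≤ R² ∑ |S|²` (`#{(q,χ)} ≤ R²`).  Total `∑|S|² ≤ #pr (C P/log P + D^4 R^4)`, `R ≤ P^(1/20)`. -/

open Finset

namespace Pool.Agent.FCH

open Pool.Agent.MRS hiding Good

/-- the majorant -/
noncomputable def LogFree_f (D : ℕ) (l : ℕ → ℝ) (n : ℕ) : ℝ :=
  (∑ d ∈ (Icc 1 D).filter (· ∣ n), l d) ^ 2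

theorem LogFree_expand (D : ℕ) (l : ℕ → ℝ) (n : ℕ) : LogFree_f D l n =
    ∑ d ∈ Icc 1 D, ∑ e ∈ Icc 1 D, l d * l e * (if Nat.lcm d e ∣ n then 1 else 0) := by
  unfold LogFree_f
  rw [sq, sum_filter, sum_mul_sum]
  apply sum_congr rfl; intro d _
  apply sum_congr rfl; intro e _
  by_cases h1 : d ∣ n <;> by_cases h2 : e ∣ n <;> simp [h1, h2, Nat.lcm_dvd_iff]

theorem LogFree_f_nonneg (D : ℕ) (l : ℕ → ℝ) (n : ℕ) : 0 ≤ LogFree_f D l n := sq_nonneg _

theorem LogFree_f_prime (D : ℕ) (hD : 1 ≤ D) (l : ℕ → ℝ) (hl : l 1 = 1) (p : ℕ) (hp : p.Prime)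
    (hDp : D < p) : LogFree_f D l p = 1 := by
  unfold LogFree_f
  have : (Icc 1 D).filter (· ∣ p) = {1} := by
    ext d
    simp only [mem_filter, mem_Icc, mem_singleton]
    constructor
    · rintro ⟨⟨h1, h2⟩, h3⟩
      rcases (Nat.dvd_prime hp).1 h3 with h | h
      · exact h
      · omega
    · rintro rfl
      exact ⟨⟨le_rfl, hD⟩, one_dvd _⟩
  rw [this, sum_singleton, hl, one_pow]

theorem LogFree_multiples (N m : ℕ) (hm : 0 < m) :
    (Icc 1 N).filter (m ∣ ·) = (Icc 1 (N / m)).image (m * ·) := by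
  ext n
  simp only [mem_filter, mem_Icc, mem_image]
  constructor
  · rintro ⟨⟨h1, h2⟩, k, rfl⟩
    refine ⟨k, ⟨?_, ?_⟩, rfl⟩
    · rcases Nat.eq_zero_or_pos k with h | h
      · subst h; omega
      · exact h
    · rw [Nat.le_div_iff_mul_le hm]; linarith [Nat.mul_comm k m]
  · rintro ⟨k, ⟨h1, h2⟩, rfl⟩
    refine ⟨⟨Nat.mul_pos hm h1, ?_⟩, dvd_mul_right _ _⟩
    rw [Nat.le_div_iff_mul_le hm] at h2
    linarith [Nat.mul_comm k m]

theorem LogFree_char_mult {r : ℕ} [NeZero r] (ψ : DirichletCharacter ℂ r) (hψ : ψ ≠ 1) (N m : ℕ)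
    (hm : 0 < m) : ‖∑ n ∈ Icc 1 N, (if m ∣ n then (1 : ℂ) else 0) * ψ n‖ ≤ r := by
  have h1 : ∑ n ∈ Icc 1 N, (if m ∣ n then (1 : ℂ) else 0) * ψ n =
      ψ m * ∑ k ∈ Icc 1 (N / m), ψ k := by
    have : ∑ n ∈ Icc 1 N, (if m ∣ n then (1 : ℂ) else 0) * ψ n =
        ∑ n ∈ (Icc 1 N).filter (m ∣ ·), ψ n := by
      rw [sum_filter]
      apply sum_congr rfl; intro n _
      split_ifs <;> simp
    rw [this, LogFree_multiples N m hm, sum_image, mul_sum]
    · apply sum_congr rfl; intro k _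
      push_cast
      rw [map_mul]
    · intro a _ b _ hab
      exact Nat.eq_of_mul_eq_mul_left hm hab
  rw [h1, norm_mul]
  calc ‖ψ m‖ * ‖∑ k ∈ Icc 1 (N / m), ψ k‖ ≤ 1 * r :=
        mul_le_mul (ψ.norm_le_one _) (MertensAP.norm_sum_char_le ψ hψ _) (norm_nonneg _) zero_le_one
    _ = r := one_mul _

theorem LogFree_twist {r : ℕ} [NeZero r] (ψ : DirichletCharacter ℂ r) (hψ : ψ ≠ 1) (N D : ℕ)
    (l : ℕ → ℝ) (hl : ∀ d, |l d| ≤ d) :
    ‖∑ n ∈ Icc 1 N, (LogFree_f D l n : ℂ) * ψ n‖ ≤ (D : ℝ) ^ 4 * r := by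
  have h1 : ∑ n ∈ Icc 1 N, (LogFree_f D l n : ℂ) * ψ n =
      ∑ d ∈ Icc 1 D, ∑ e ∈ Icc 1 D, ((l d * l e : ℝ) : ℂ) *
        ∑ n ∈ Icc 1 N, (if Nat.lcm d e ∣ n then (1 : ℂ) else 0) * ψ n := by
    calc ∑ n ∈ Icc 1 N, (LogFree_f D l n : ℂ) * ψ n
        = ∑ n ∈ Icc 1 N, ∑ d ∈ Icc 1 D, ∑ e ∈ Icc 1 D, ((l d * l e : ℝ) : ℂ) *
          ((if Nat.lcm d e ∣ n then (1 : ℂ) else 0) * ψ n) := by
          apply sum_congr rfl; intro n _
          rw [LogFree_expand]
          push_cast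
          rw [sum_mul]
          apply sum_congr rfl; intro d _
          rw [sum_mul]
          apply sum_congr rfl; intro e _
          split_ifs <;> push_cast <;> ring
      _ = _ := by
          rw [sum_comm]
          apply sum_congr rfl; intro d _
          rw [sum_comm]
          apply sum_congr rfl; intro e _
          rw [mul_sum]
  rw [h1]
  calc _ ≤ ∑ d ∈ Icc 1 D, ∑ e ∈ Icc 1 D, (D : ℝ) * D * r := by
        apply (norm_sum_le _ _).trans
        apply sum_le_sum; intro d hd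
        apply (norm_sum_le _ _).trans
        apply sum_le_sum; intro e he
        rw [mem_Icc] at hd he
        rw [norm_mul]
        apply mul_le_mul _ (LogFree_char_mult ψ hψ N _ (Nat.lcm_pos hd.1 he.1)) (norm_nonneg _)
          (by positivity)
        rw [Complex.norm_real, Real.norm_eq_abs, abs_mul]
        apply mul_le_mul _ _ (abs_nonneg _) (by positivity)
        · exact (hl d).trans (by exact_mod_cast hd.2)
        · exact (hl e).trans (by exact_mod_cast he.2)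
    _ = (D : ℝ) ^ 4 * r := by
        simp only [sum_const, Nat.card_Icc, Nat.add_sub_cancel, nsmul_eq_mul]
        ring

theorem LogFree_total (N D : ℕ) (l : ℕ → ℝ) (hl : ∀ d, |l d| ≤ d) (K : ℝ)
    (hK : |∑ d ∈ Icc 1 D, ∑ e ∈ Icc 1 D, l d * l e / (Nat.lcm d e)| ≤ K / Real.log D) :
    ∑ n ∈ Icc 1 N, LogFree_f D l n ≤ N * (K / Real.log D) + (D : ℝ) ^ 4 := by
  have h1 : ∑ n ∈ Icc 1 N, LogFree_f D l n =
      ∑ d ∈ Icc 1 D, ∑ e ∈ Icc 1 D, l d * l e * ((N / Nat.lcm d e : ℕ) : ℝ) := by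
    calc ∑ n ∈ Icc 1 N, LogFree_f D l n
        = ∑ n ∈ Icc 1 N, ∑ d ∈ Icc 1 D, ∑ e ∈ Icc 1 D,
          l d * l e * (if Nat.lcm d e ∣ n then 1 else 0) := by
          apply sum_congr rfl; intro n _; rw [LogFree_expand]
      _ = _ := by
          rw [sum_comm]
          apply sum_congr rfl; intro d hd
          rw [sum_comm]
          apply sum_congr rfl; intro e he
          rw [mem_Icc] at hd he
          rw [← mul_sum, ← sum_filter, LogFree_multiples N _ (Nat.lcm_pos hd.1 he.1)]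
          rw [sum_const, card_image_of_injective, Nat.card_Icc]
          · simp
          · intro a b hab
            exact Nat.eq_of_mul_eq_mul_left (Nat.lcm_pos hd.1 he.1) hab
  rw [h1]
  have h2 : ∑ d ∈ Icc 1 D, ∑ e ∈ Icc 1 D, l d * l e * ((N / Nat.lcm d e : ℕ) : ℝ) ≤
      ∑ d ∈ Icc 1 D, ∑ e ∈ Icc 1 D, (N * (l d * l e / (Nat.lcm d e)) + (D : ℝ) * D) := by
    apply sum_le_sum; intro d hd
    apply sum_le_sum; intro e he
    rw [mem_Icc] at hd he
    set m := Nat.lcm d e with hm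
    have hm0 : 0 < m := Nat.lcm_pos hd.1 he.1
    have hm0' : (0 : ℝ) < m := by exact_mod_cast hm0
    have h3 : ((N / m : ℕ) : ℝ) ≤ (N : ℝ) / m := Nat.cast_div_le
    have h4 : (N : ℝ) / m - 1 ≤ ((N / m : ℕ) : ℝ) := by
      have := Nat.lt_div_mul_add (a := N) hm0
      have h5 : (N : ℝ) < ((N / m : ℕ) : ℝ) * m + m := by exact_mod_cast this
      rw [div_sub_one (ne_of_gt hm0'), div_le_iff₀ hm0']
      linarith
    have h5 : |l d * l e| ≤ (D : ℝ) * D := by
      rw [abs_mul]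
      apply mul_le_mul _ _ (abs_nonneg _) (by positivity)
      · exact (hl d).trans (by exact_mod_cast hd.2)
      · exact (hl e).trans (by exact_mod_cast he.2)
    have h6 : l d * l e * ((N / m : ℕ) : ℝ) - N * (l d * l e / m) =
        (l d * l e) * (((N / m : ℕ) : ℝ) - N / m) := by ring
    have h7 : (l d * l e) * (((N / m : ℕ) : ℝ) - N / m) ≤ (D : ℝ) * D := by
      calc (l d * l e) * (((N / m : ℕ) : ℝ) - N / m) ≤ |(l d * l e) * (((N / m : ℕ) : ℝ) - N / m)| :=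
            le_abs_self _
        _ = |l d * l e| * |((N / m : ℕ) : ℝ) - N / m| := abs_mul _ _
        _ ≤ (D : ℝ) * D * 1 := by
            apply mul_le_mul h5 _ (abs_nonneg _) (by positivity)
            rw [abs_le]; constructor <;> linarith
        _ = _ := mul_one _
    linarith
  refine h2.trans ?_
  have h3 : ∑ d ∈ Icc 1 D, ∑ e ∈ Icc 1 D, (N * (l d * l e / (Nat.lcm d e)) + (D : ℝ) * D) =
      N * (∑ d ∈ Icc 1 D, ∑ e ∈ Icc 1 D, l d * l e / (Nat.lcm d e)) + (D : ℝ) ^ 4 := by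
    simp only [sum_add_distrib, sum_const, Nat.card_Icc, Nat.add_sub_cancel, nsmul_eq_mul, mul_sum]
    ring
  rw [h3]
  have h4 : (N : ℝ) * (∑ d ∈ Icc 1 D, ∑ e ∈ Icc 1 D, l d * l e / (Nat.lcm d e)) ≤
      N * (K / Real.log D) :=
    mul_le_mul_of_nonneg_left ((le_abs_self _).trans hK) (Nat.cast_nonneg N)
  linarith

theorem LogFree_off {q q' : ℕ} (hq : q ≠ 0) (hq' : q' ≠ 0) (χ : DirichletCharacter ℂ q)
    (χ' : DirichletCharacter ℂ q') (h1 : χ.IsPrimitive) (h2 : χ'.IsPrimitive)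
    (hne : (⟨q, χ⟩ : Σ q, DirichletCharacter ℂ q) ≠ ⟨q', χ'⟩) :
    ∃ ψ : DirichletCharacter ℂ (q * q'), ψ ≠ 1 ∧
      ∀ n : ℕ, ψ n = χ n * (starRingEnd ℂ) (χ' n) := by
  have : NeZero q := ⟨hq⟩
  have : NeZero q' := ⟨hq'⟩
  have : NeZero (q * q') := ⟨mul_ne_zero hq hq'⟩
  refine ⟨DirichletCharacter.changeLevel (dvd_mul_right q q') χ *
    (DirichletCharacter.changeLevel (dvd_mul_left q' q) χ')⁻¹, ?_, ?_⟩
  · intro h
    rw [mul_inv_eq_one] at h
    have h3 : (DirichletCharacter.changeLevel (dvd_mul_right q q') χ).conductor =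
        (DirichletCharacter.changeLevel (dvd_mul_left q' q) χ').conductor := by rw [h]
    rw [DirichletCharacter.conductor_changeLevel, DirichletCharacter.conductor_changeLevel,
      (DirichletCharacter.isPrimitive_def χ).1 h1, (DirichletCharacter.isPrimitive_def χ').1 h2] at h3
    subst h3
    apply hne
    have h4 : χ = χ' := DirichletCharacter.changeLevel_injective _ h
    rw [h4]
  · intro n
    rw [MulChar.mul_apply, ← MulChar.star_eq_inv, MulChar.star_apply]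
    by_cases hn : IsCoprime (n : ℤ) ((q * q' : ℕ) : ℤ)
    · have e1 := DirichletCharacter.changeLevel_eq_cast_of_dvd' χ (dvd_mul_right q q') hn
      have e2 := DirichletCharacter.changeLevel_eq_cast_of_dvd' χ' (dvd_mul_left q' q) hn
      push_cast at e1 e2
      rw [e1, e2]
      rfl
    · have e1 : DirichletCharacter.changeLevel (dvd_mul_right q q') χ (n : ZMod (q * q')) = 0 := by
        have := (DirichletCharacter.apply_eq_zero_iff
          (DirichletCharacter.changeLevel (dvd_mul_right q q') χ) (n : ℤ)).2 hn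
        simpa using this
      rw [e1, zero_mul]
      have h3 : ¬ IsCoprime (n : ℤ) (q : ℤ) ∨ ¬ IsCoprime (n : ℤ) (q' : ℤ) := by
        by_contra hcon
        push Not at hcon
        apply hn
        push_cast
        exact IsCoprime.mul_right hcon.1 hcon.2
      rcases h3 with h3 | h3
      · have := (DirichletCharacter.apply_eq_zero_iff χ (n : ℤ)).2 h3
        have h4 : χ (n : ZMod q) = 0 := by simpa using this
        rw [h4, zero_mul]
      · have := (DirichletCharacter.apply_eq_zero_iff χ' (n : ℤ)).2 h3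
        have h4 : χ' (n : ZMod q') = 0 := by simpa using this
        rw [h4, map_zero, mul_zero]

/-- abstract duality -/
theorem LogFree_dual {ι : Type*} [DecidableEq ι] (I : Finset ι) (T : Finset ℕ) (N : ℕ)
    (x : ℕ → ℂ) (f : ℕ → ℝ) (c : ι → ℕ → ℂ) (F E : ℝ) (hE : 0 ≤ E)
    (hx : ∀ n, ‖x n‖ ≤ 1) (hf : ∀ n, 0 ≤ f n) (hT : T ⊆ Icc 1 N) (hfT : ∀ p ∈ T, f p = 1)
    (hc : ∀ i ∈ I, ∀ n, ‖c i n‖ ≤ 1) (hF : ∑ n ∈ Icc 1 N, f n ≤ F)
    (hoff : ∀ i ∈ I, ∀ j ∈ I, i ≠ j →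
      ‖∑ n ∈ Icc 1 N, (f n : ℂ) * (c i n * (starRingEnd ℂ) (c j n))‖ ≤ E) :
    ∑ i ∈ I, ‖∑ p ∈ T, x p * c i p‖ ^ 2 ≤ (T.card : ℝ) * (F + I.card * E) := by
  set S : ι → ℂ := fun i => ∑ p ∈ T, x p * c i p with hS
  set W : ℝ := ∑ i ∈ I, ‖S i‖ ^ 2 with hW
  set g : ℕ → ℂ := fun n => ∑ i ∈ I, (starRingEnd ℂ) (S i) * c i n with hg
  have hF0 : 0 ≤ F := (sum_nonneg fun n _ => hf n).trans hF
  have e1 : (W : ℂ) = ∑ p ∈ T, x p * g p := by
    rw [hW]
    push_cast
    calc ∑ i ∈ I, ((‖S i‖ : ℝ) : ℂ) ^ 2 = ∑ i ∈ I, (starRingEnd ℂ) (S i) * S i := by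
          apply sum_congr rfl; intro i _
          rw [mul_comm, Complex.mul_conj, Complex.normSq_eq_norm_sq]; push_cast; rfl
      _ = ∑ i ∈ I, ∑ p ∈ T, (starRingEnd ℂ) (S i) * (x p * c i p) := by
          apply sum_congr rfl; intro i _
          conv_lhs => rw [hS]
          simp only
          rw [mul_sum]
      _ = ∑ p ∈ T, ∑ i ∈ I, (starRingEnd ℂ) (S i) * (x p * c i p) := sum_comm
      _ = _ := by
          apply sum_congr rfl; intro p _
          rw [hg]; simp only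
          rw [mul_sum]
          apply sum_congr rfl; intro i _; ring
  have hW0 : 0 ≤ W := sum_nonneg fun i _ => by positivity
  have e2 : W ^ 2 ≤ (T.card : ℝ) * ∑ n ∈ Icc 1 N, f n * ‖g n‖ ^ 2 := by
    have h1 : W ≤ ∑ p ∈ T, ‖x p‖ * ‖g p‖ := by
      have : W = ‖(W : ℂ)‖ := by rw [Complex.norm_real, Real.norm_eq_abs, abs_of_nonneg hW0]
      rw [this, e1]
      apply (norm_sum_le _ _).trans
      apply sum_le_sum; intro p _; rw [norm_mul]
    have h2 : W ^ 2 ≤ (∑ p ∈ T, ‖x p‖ * ‖g p‖) ^ 2 := by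
      apply pow_le_pow_left₀ hW0 h1
    refine h2.trans ((sum_mul_sq_le_sq_mul_sq T _ _).trans ?_)
    apply mul_le_mul _ _ (sum_nonneg fun _ _ => by positivity) (by positivity)
    · calc ∑ i ∈ T, ‖x i‖ ^ 2 ≤ ∑ i ∈ T, (1 : ℝ) := by
            apply sum_le_sum; intro i _
            have := hx i
            have h0 := norm_nonneg (x i)
            nlinarith
        _ = T.card := by simp
    · calc ∑ i ∈ T, ‖g i‖ ^ 2 = ∑ i ∈ T, f i * ‖g i‖ ^ 2 := by
            apply sum_congr rfl; intro i hi; rw [hfT i hi, one_mul]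
        _ ≤ _ := sum_le_sum_of_subset_of_nonneg hT (fun i _ _ => mul_nonneg (hf i) (by positivity))
  have e3 : ((∑ n ∈ Icc 1 N, f n * ‖g n‖ ^ 2 : ℝ) : ℂ) =
      ∑ i ∈ I, ∑ j ∈ I, (starRingEnd ℂ) (S i) * S j *
        ∑ n ∈ Icc 1 N, (f n : ℂ) * (c i n * (starRingEnd ℂ) (c j n)) := by
    push_cast
    calc ∑ n ∈ Icc 1 N, (f n : ℂ) * ((‖g n‖ : ℝ) : ℂ) ^ 2
        = ∑ n ∈ Icc 1 N, ∑ i ∈ I, ∑ j ∈ I, (starRingEnd ℂ) (S i) * S j *
          ((f n : ℂ) * (c i n * (starRingEnd ℂ) (c j n))) := by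
          apply sum_congr rfl; intro n _
          have : ((‖g n‖ : ℝ) : ℂ) ^ 2 = g n * (starRingEnd ℂ) (g n) := by
            rw [Complex.mul_conj, Complex.normSq_eq_norm_sq]; push_cast; rfl
          rw [this, hg]
          simp only [map_sum, map_mul, Complex.conj_conj]
          rw [sum_mul_sum, mul_sum]
          apply sum_congr rfl; intro i _
          rw [mul_sum]
          apply sum_congr rfl; intro j _
          ring
      _ = _ := by
          rw [sum_comm]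
          apply sum_congr rfl; intro i _
          rw [sum_comm]
          apply sum_congr rfl; intro j _
          exact (Finset.mul_sum _ _ _).symm
  have e4 : ∑ n ∈ Icc 1 N, f n * ‖g n‖ ^ 2 ≤ W * F + (I.card : ℝ) * W * E := by
    have h0 : 0 ≤ ∑ n ∈ Icc 1 N, f n * ‖g n‖ ^ 2 :=
      sum_nonneg fun n _ => mul_nonneg (hf n) (by positivity)
    have h1 : ∑ n ∈ Icc 1 N, f n * ‖g n‖ ^ 2 =
        ‖((∑ n ∈ Icc 1 N, f n * ‖g n‖ ^ 2 : ℝ) : ℂ)‖ := by
      rw [Complex.norm_real, Real.norm_eq_abs, abs_of_nonneg h0]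
    rw [h1, e3]
    calc _ ≤ ∑ i ∈ I, ∑ j ∈ I, ((if i = j then ‖S i‖ ^ 2 * F else 0) + ‖S i‖ * ‖S j‖ * E) := by
          apply (norm_sum_le _ _).trans
          apply sum_le_sum; intro i hi
          apply (norm_sum_le _ _).trans
          apply sum_le_sum; intro j hj
          rw [norm_mul, norm_mul, RCLike.norm_conj]
          by_cases hij : i = j
          · subst hij
            rw [if_pos rfl]
            have h2 : ‖∑ n ∈ Icc 1 N, (f n : ℂ) * (c i n * (starRingEnd ℂ) (c i n))‖ ≤ F := by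
              refine le_trans ?_ hF
              apply (norm_sum_le _ _).trans
              apply sum_le_sum; intro n _
              rw [norm_mul, norm_mul, RCLike.norm_conj, Complex.norm_real, Real.norm_eq_abs,
                abs_of_nonneg (hf n)]
              have h3 := hc i hi n
              have h4 := norm_nonneg (c i n)
              have h5 : ‖c i n‖ * ‖c i n‖ ≤ 1 := by nlinarith
              have := mul_le_mul_of_nonneg_left h5 (hf n)
              linarith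
            have h3 : ‖S i‖ * ‖S i‖ *
                ‖∑ n ∈ Icc 1 N, (f n : ℂ) * (c i n * (starRingEnd ℂ) (c i n))‖ ≤
                ‖S i‖ * ‖S i‖ * F := mul_le_mul_of_nonneg_left h2 (by positivity)
            have h4 : 0 ≤ ‖S i‖ * ‖S i‖ * E := by positivity
            rw [sq]; linarith
          · rw [if_neg hij, zero_add]
            exact mul_le_mul_of_nonneg_left (hoff i hi j hj hij) (by positivity)
      _ = W * F + (∑ i ∈ I, ‖S i‖) ^ 2 * E := by
          simp only [sum_add_distrib]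
          congr 1
          · rw [hW, sum_mul]
            apply sum_congr rfl; intro i hi
            rw [sum_ite_eq, if_pos hi]
          · rw [sq, sum_mul_sum, sum_mul]
            apply sum_congr rfl; intro i _
            rw [sum_mul]
      _ ≤ _ := by
          have h2 : (∑ i ∈ I, ‖S i‖) ^ 2 ≤ (I.card : ℝ) * W := by
            have := sq_sum_le_card_mul_sum_sq (s := I) (f := fun i => ‖S i‖)
            exact this
          have := mul_le_mul_of_nonneg_right h2 hE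
          linarith
  rcases hW0.eq_or_lt with h0 | h0
  · rw [← h0]; positivity
  · have h1 : W ^ 2 ≤ (T.card : ℝ) * (W * F + (I.card : ℝ) * W * E) :=
      e2.trans (mul_le_mul_of_nonneg_left e4 (Nat.cast_nonneg _))
    have h2 : W * W ≤ ((T.card : ℝ) * (F + I.card * E)) * W := by
      calc W * W = W ^ 2 := by ring
        _ ≤ _ := h1
        _ = _ := by ring
    exact le_of_mul_le_mul_right h2 h0

theorem LogFree_choose (P : ℕ) (hP : 1048576 ≤ P) : ∃ D : ℕ, D ^ 20 ≤ P ∧ 2 ≤ D ∧ P ≤ D ^ 40 := by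
  have h1 : (fun d : ℕ => d ^ 20 ≤ P) (Nat.findGreatest (fun d => d ^ 20 ≤ P) P) :=
    @Nat.findGreatest_spec 0 (fun d => d ^ 20 ≤ P) _ P (Nat.zero_le _) (by simp)
  have h2 : P < (Nat.findGreatest (fun d => d ^ 20 ≤ P) P + 1) ^ 20 := by
    by_contra hcon
    have hcon' := not_lt.1 hcon
    have h1 : Nat.findGreatest (fun d => d ^ 20 ≤ P) P + 1 ≤ P :=
      le_trans (Nat.le_self_pow (by norm_num) _) hcon'
    have := @Nat.le_findGreatest (Nat.findGreatest (fun d => d ^ 20 ≤ P) P + 1)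
      (fun d => d ^ 20 ≤ P) _ P h1 hcon'
    exact absurd this (Nat.not_succ_le_self _)
  generalize Nat.findGreatest (fun d => d ^ 20 ≤ P) P = D at h1 h2
  have hD : 2 ≤ D := by
    by_contra hcon
    have h3 : D + 1 ≤ 2 := by
      have := not_le.1 hcon
      exact this
    have h4 : (D + 1) ^ 20 ≤ 2 ^ 20 := Nat.pow_le_pow_left h3 20
    have h5 : (2 : ℕ) ^ 20 = 1048576 := by norm_num
    rw [h5] at h4
    exact absurd (lt_of_lt_of_le h2 h4) (not_lt.2 hP)
  refine ⟨D, h1, hD, ?_⟩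
  have h4 : D + 1 ≤ D ^ 2 := by
    clear h1 h2 hP
    nlinarith
  calc P ≤ (D + 1) ^ 20 := h2.le
    _ ≤ (D ^ 2) ^ 20 := Nat.pow_le_pow_left h4 20
    _ = D ^ 40 := by rw [← pow_mul]

theorem logfree (A : ℕ) (hA : 2 ≤ A) : ∃ (C : ℝ) (P0 : ℕ), 0 < C ∧ ∀ P : ℕ, P0 ≤ P → ∀ R : ℕ,
    R ^ 20 ≤ P → ∀ x : ℕ → ℂ, (∀ n, ‖x n‖ ≤ 1) →
    ∑ q ∈ Icc 1 R, ∑ χ ∈ prc q, ‖∑ p ∈ pr A P, x p * χ p‖ ^ 2 ≤ C * (P / Real.log P) ^ 2 := by
  classical
  obtain ⟨K, hK0, hK⟩ := MR.selberg_weights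
  obtain ⟨C1, hC1, hpr⟩ := pr_le A hA
  refine ⟨C1 * (40 * A * K + 4), 1048576, by positivity, ?_⟩
  intro P hP R hR x hx
  obtain ⟨D, hD1, hD, hD40⟩ := LogFree_choose P hP
  obtain ⟨l, hl1, hl2, hl3⟩ := hK D hD
  have hPR : (2 : ℝ) ≤ P := by
    have : 2 ≤ P := le_trans (by norm_num) hP
    exact_mod_cast this
  have hP0 : (0 : ℝ) < P := by linarith
  have hlP : 0 < Real.log P := Real.log_pos (by linarith)
  have hlD : 0 < Real.log D := Real.log_pos (by exact_mod_cast (by omega : 1 < D))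
  have hlog : Real.log P ≤ 40 * Real.log D := by
    have h1 : (P : ℝ) ≤ (D : ℝ) ^ 40 := by exact_mod_cast hD40
    calc Real.log P ≤ Real.log ((D : ℝ) ^ 40) := Real.log_le_log hP0 h1
      _ = 40 * Real.log D := by rw [Real.log_pow]; push_cast; ring
  have hinv : K / Real.log D ≤ 40 * K / Real.log P := by
    rw [div_le_div_iff₀ hlD hlP]
    nlinarith
  -- sqrt bounds
  have hsq : √(P : ℝ) ≤ 2 * P / Real.log P := by
    rw [le_div_iff₀ hlP]
    have h1 : Real.log P = 2 * Real.log (√(P : ℝ)) := by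
      rw [Real.log_sqrt (by linarith)]; ring
    have h2 : Real.log (√(P : ℝ)) ≤ √(P : ℝ) := by
      have := Real.log_le_sub_one_of_pos (Real.sqrt_pos.2 hP0)
      linarith
    have h3 : √(P : ℝ) * √(P : ℝ) = P := Real.mul_self_sqrt (by linarith)
    have h4 : 0 ≤ √(P : ℝ) := Real.sqrt_nonneg _
    rw [h1]
    nlinarith
  have hDR : (D : ℝ) ^ 4 * (R : ℝ) ^ 4 ≤ √(P : ℝ) := by
    apply Real.le_sqrt_of_sq_le
    rcases Nat.eq_zero_or_pos R with h0 | h0
    · subst h0; simp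
    · have h1 : (D * R) ^ 20 ≤ P ^ 2 := by
        rw [mul_pow, sq]
        exact Nat.mul_le_mul hD1 hR
      have h2 : (D * R) ^ 10 ≤ P := by
        have h3 : ((D * R) ^ 10) ^ 2 ≤ P ^ 2 := by rw [← pow_mul]; exact h1
        exact (Nat.pow_le_pow_iff_left (by norm_num)).1 h3
      have h4 : (D * R) ^ 8 ≤ (D * R) ^ 10 :=
        Nat.pow_le_pow_right (Nat.mul_pos (by omega) h0) (by norm_num)
      have h5 : ((D * R) ^ 8 : ℕ) ≤ P := h4.trans h2
      calc ((D : ℝ) ^ 4 * (R : ℝ) ^ 4) ^ 2 = (((D * R) ^ 8 : ℕ) : ℝ) := by push_cast; ring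
        _ ≤ P := by exact_mod_cast h5
  have hD4 : (D : ℝ) ^ 4 ≤ √(P : ℝ) := by
    apply Real.le_sqrt_of_sq_le
    have h4 : D ^ 8 ≤ D ^ 20 := Nat.pow_le_pow_right (by omega) (by norm_num)
    calc ((D : ℝ) ^ 4) ^ 2 = ((D ^ 8 : ℕ) : ℝ) := by push_cast; ring
      _ ≤ P := by exact_mod_cast h4.trans hD1
  -- the index set
  set I : Finset (Σ q, DirichletCharacter ℂ q) := (Icc 1 R).sigma prc with hI
  have hIcard : (I.card : ℝ) ≤ (R : ℝ) ^ 2 := by
    rw [hI, card_sigma]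
    have : ∑ q ∈ Icc 1 R, (prc q).card ≤ R ^ 2 := by
      calc ∑ q ∈ Icc 1 R, (prc q).card ≤ ∑ q ∈ Icc 1 R, R := by
            apply sum_le_sum; intro q hq
            rw [mem_Icc] at hq
            exact (card_prc q).trans hq.2
        _ = R ^ 2 := by simp [sq]
    exact_mod_cast this
  have hDP : D ≤ P := (Nat.le_self_pow (by norm_num) D).trans hD1
  have key := LogFree_dual I (pr A P) (A * P) x (LogFree_f D l) (fun i n => i.2 n)
    ((A * P : ℕ) * (K / Real.log D) + (D : ℝ) ^ 4) ((D : ℝ) ^ 4 * (R : ℝ) ^ 2) (by positivity) hx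
    (LogFree_f_nonneg D l) ?_ ?_ ?_ (LogFree_total (A * P) D l hl2 K hl3) ?_
  · have e1 : ∑ q ∈ Icc 1 R, ∑ χ ∈ prc q, ‖∑ p ∈ pr A P, x p * χ p‖ ^ 2 =
        ∑ i ∈ I, ‖∑ p ∈ pr A P, x p * i.2 p‖ ^ 2 := by
      rw [hI, sum_sigma]
    rw [e1]
    refine key.trans ?_
    have h1 : ((pr A P).card : ℝ) ≤ C1 * P / Real.log P :=
      hpr P (le_trans (by norm_num) hP)
    have h2 : (I.card : ℝ) * ((D : ℝ) ^ 4 * (R : ℝ) ^ 2) ≤ √(P : ℝ) := by
      calc (I.card : ℝ) * ((D : ℝ) ^ 4 * (R : ℝ) ^ 2) ≤ (R : ℝ) ^ 2 * ((D : ℝ) ^ 4 * (R : ℝ) ^ 2) :=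
            mul_le_mul_of_nonneg_right hIcard (by positivity)
        _ = (D : ℝ) ^ 4 * (R : ℝ) ^ 4 := by ring
        _ ≤ _ := hDR
    have h3 : ((A * P : ℕ) : ℝ) * (K / Real.log D) ≤ A * P * (40 * K / Real.log P) := by
      push_cast
      exact mul_le_mul_of_nonneg_left hinv (by positivity)
    have h4 : ((A * P : ℕ) : ℝ) * (K / Real.log D) + (D : ℝ) ^ 4 +
        (I.card : ℝ) * ((D : ℝ) ^ 4 * (R : ℝ) ^ 2) ≤ (40 * A * K + 4) * (P / Real.log P) := by
      calc _ ≤ A * P * (40 * K / Real.log P) + √(P : ℝ) + √(P : ℝ) := by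
            linarith
        _ ≤ A * P * (40 * K / Real.log P) + 2 * P / Real.log P + 2 * P / Real.log P := by
            linarith
        _ = _ := by ring
    calc ((pr A P).card : ℝ) * (((A * P : ℕ) : ℝ) * (K / Real.log D) + (D : ℝ) ^ 4 +
          (I.card : ℝ) * ((D : ℝ) ^ 4 * (R : ℝ) ^ 2))
        ≤ (C1 * P / Real.log P) * ((40 * A * K + 4) * (P / Real.log P)) := by
          apply mul_le_mul h1 h4 _ (by positivity)
          have : 0 ≤ K / Real.log D := by positivity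
          positivity
      _ = _ := by ring
  · intro p hp
    unfold pr at hp
    rw [mem_filter, mem_Ioc] at hp
    rw [mem_Icc]
    exact ⟨by omega, hp.1.2⟩
  · intro p hp
    unfold pr at hp
    rw [mem_filter, mem_Ioc] at hp
    exact LogFree_f_prime D (by omega) l hl1 p hp.2.1 (by omega)
  · intro i _ n
    exact i.2.norm_le_one _
  · rintro ⟨q, χ⟩ hi ⟨q', χ'⟩ hj hne
    rw [hI, mem_sigma, mem_Icc] at hi hj
    have hq : q ≠ 0 := Nat.one_le_iff_ne_zero.1 hi.1.1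
    have hq' : q' ≠ 0 := Nat.one_le_iff_ne_zero.1 hj.1.1
    obtain ⟨ψ, hψ, hψn⟩ := LogFree_off hq hq' χ χ' ((mem_prc hq χ).1 hi.2)
      ((mem_prc hq' χ').1 hj.2) hne
    have : NeZero (q * q') := ⟨mul_ne_zero hq hq'⟩
    have h1 := LogFree_twist ψ hψ (A * P) D l hl2
    have h2 : ∑ n ∈ Icc 1 (A * P), (LogFree_f D l n : ℂ) * (χ n * (starRingEnd ℂ) (χ' n)) =
        ∑ n ∈ Icc 1 (A * P), (LogFree_f D l n : ℂ) * ψ n := by
      apply sum_congr rfl; intro n _; rw [hψn]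
    show ‖∑ n ∈ Icc 1 (A * P), (LogFree_f D l n : ℂ) * (χ n * (starRingEnd ℂ) (χ' n))‖ ≤ _
    rw [h2]
    refine h1.trans (mul_le_mul_of_nonneg_left ?_ (by positivity))
    have : q * q' ≤ R ^ 2 := by
      rw [sq]; exact Nat.mul_le_mul hi.1.2 hj.1.2
    exact_mod_cast this

end Pool.Agent.FCH
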