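import Pool.Agent.FCH.LogFree

set_option autoImplicit false

/-! Module LsxA: fourth moment over primitive characters of conductor `> Q`.
By Cauchy-Schwarz (`|S_x S_y|² ≤ |S_x|^4 + |S_y|^4`) it suffices to bound `∑_{Q<q≤R} (1/q) ∑* |S_x(χ)|^4`.
(i) `Q < q ≤ P^(1/20)`: `|S|^4 ≤ (#pr)² |S|²`, `1/q ≤ 1/Q`, `logfree`: `≤ (1/Q) (#pr)² C (P/log P)²`.
(ii) `P^(1/20) < q ≤ R = ⌊C3 P⌋`: Abel summation: `S(χ)² = ∑_n a_n χ(n)`,
`a_n = ∑_{p p' = n} x_p x_{p'}`, `|a_n| ≤ 2`, supported on `n ≤ (AP)²`, `∑ |a_n|² ≤ 2 (#pr)²`;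
`mls`: `∑_{q ≤ k} ∑* |S|^4 ≤ C ((AP)² + k²) 2 (#pr)²`; hence the sum is
`≤ C'' (P^(2-1/20) + P) (#pr)² ≤ ε (#pr)^4` for large `P` since `#pr ≥ c P/log P` (GA).
Finally `(P/log P)² ≤ c^{-2} (#pr)²` in (i) and `Q` large. -/

open Finset

namespace Pool.Agent.FCH

open Pool.Agent.MRS hiding Good

/-- Abel summation with a quadratic bound on the partial sums -/
theorem LsxA_abel (T : ℕ → ℝ) (a b : ℕ) (hab : a ≤ b) (α β : ℝ) (hα : 0 ≤ α) (hβ : 0 ≤ β)
    (h : ∀ k : ℕ, a < k → k ≤ b → ∑ q ∈ Ioc a k, T q ≤ α + β * (k : ℝ) ^ 2) :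
    ∑ q ∈ Ioc a b, (1 / (q : ℝ)) * T q ≤ α / ((a : ℝ) + 1) + 2 * β * b := by
  have key : ∀ n : ℕ, a + n ≤ b →
      ∑ q ∈ Ioc a (a + n), (1 / (q : ℝ)) * T q - (∑ q ∈ Ioc a (a + n), T q) / ((a + n : ℕ) + 1 : ℝ)
        ≤ α * (1 / ((a : ℝ) + 1) - 1 / ((a + n : ℕ) + 1 : ℝ)) + β * n := by
    intro n
    induction n with
    | zero => intro _; simp
    | succ n ih =>
      intro hn
      have ih' := ih (by omega)
      have hU := h (a + n + 1) (by omega) (by omega)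
      have h1 : a + (n + 1) = (a + n) + 1 := by ring
      rw [h1, ← Finset.insert_Ioc_right_eq_Ioc_add_one (by omega : a ≤ a + n),
        sum_insert (by simp), sum_insert (by simp)]
      rw [← Finset.insert_Ioc_right_eq_Ioc_add_one (by omega : a ≤ a + n),
        sum_insert (by simp)] at hU
      set U := ∑ q ∈ Ioc a (a + n), T q with hUdef
      set W := ∑ q ∈ Ioc a (a + n), (1 / (q : ℝ)) * T q with hWdef
      set t := T (a + n + 1) with ht
      have hx : (0 : ℝ) ≤ ((a + n : ℕ) : ℝ) := by positivity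
      set y : ℝ := ((a + n : ℕ) : ℝ) with hy
      have hy1 : ((a + n + 1 : ℕ) : ℝ) = y + 1 := by rw [hy]; push_cast; ring
      rw [hy1] at hU ⊢
      have e1 : 1 / (y + 1) * t + W - (t + U) / (y + 1 + 1) =
          (W - U / (y + 1)) + (t + U) / ((y + 1) * (y + 2)) := by
        field_simp
        ring
      rw [e1]
      have e2 : (t + U) / ((y + 1) * (y + 2)) ≤ (α + β * (y + 1) ^ 2) / ((y + 1) * (y + 2)) := by
        gcongr
      have e3 : (α + β * (y + 1) ^ 2) / ((y + 1) * (y + 2)) ≤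
          α * (1 / (y + 1) - 1 / (y + 2)) + β := by
        have e4 : α * (1 / (y + 1) - 1 / (y + 2)) = α / ((y + 1) * (y + 2)) := by
          field_simp
          ring
        rw [e4, add_div]
        have e5 : β * (y + 1) ^ 2 / ((y + 1) * (y + 2)) ≤ β := by
          rw [div_le_iff₀ (by positivity)]
          have : (y + 1) ^ 2 ≤ (y + 1) * (y + 2) := by nlinarith
          exact mul_le_mul_of_nonneg_left this hβ
        linarith
      have e6 : y + 1 + 1 = y + 2 := by ring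
      rw [e6]
      push_cast
      have e7 : α * (1 / ((a : ℝ) + 1) - 1 / (y + 2)) + β * ((n : ℝ) + 1) =
          (α * (1 / ((a : ℝ) + 1) - 1 / (y + 1)) + β * n) + (α * (1 / (y + 1) - 1 / (y + 2)) + β) := by
        ring
      rw [e7]
      linarith
  obtain ⟨n, rfl⟩ := Nat.exists_eq_add_of_le hab
  rcases Nat.eq_zero_or_pos n with rfl | hn
  · simp only [add_zero, Ioc_self, sum_empty]
    positivity
  · have hk := key n le_rfl
    have hU := h (a + n) (by omega) le_rfl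
    set y : ℝ := ((a + n : ℕ) : ℝ) with hy
    have hy0 : 0 ≤ y := by rw [hy]; positivity
    have h1 : (∑ q ∈ Ioc a (a + n), T q) / (y + 1) ≤ (α + β * y ^ 2) / (y + 1) := by gcongr
    have h2 : (α + β * y ^ 2) / (y + 1) ≤ α * (1 / (y + 1)) + β * y := by
      rw [add_div, mul_one_div]
      have : β * y ^ 2 / (y + 1) ≤ β * y := by
        rw [div_le_iff₀ (by positivity)]
        have : 0 ≤ β * y := by positivity
        nlinarith
      linarith
    have h3 : (n : ℝ) ≤ y := by rw [hy]; push_cast; linarith [show (0 : ℝ) ≤ a by positivity]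
    have h4 : β * n ≤ β * y := mul_le_mul_of_nonneg_left h3 hβ
    have h5 : α / ((a : ℝ) + 1) = α * (1 / ((a : ℝ) + 1)) := by ring
    rw [h5]
    nlinarith

/-- number of representations as an ordered product of two primes -/
theorem LsxA_rep (s : Finset ℕ) (hs : ∀ p ∈ s, p.Prime) (n : ℕ) :
    ((s ×ˢ s).filter (fun e : ℕ × ℕ => e.1 * e.2 = n)).card ≤ 2 := by
  classical
  by_cases hne : ((s ×ˢ s).filter (fun e : ℕ × ℕ => e.1 * e.2 = n)).Nonempty
  · obtain ⟨⟨p, r⟩, he⟩ := hne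
    rw [mem_filter, mem_product] at he
    simp only [] at he
    have hp := hs p he.1.1
    have hr := hs r he.1.2
    have hsub : ((s ×ˢ s).filter (fun e : ℕ × ℕ => e.1 * e.2 = n)) ⊆ {(p, r), (r, p)} := by
      rintro ⟨u, v⟩ huv
      rw [mem_filter, mem_product] at huv
      simp only [] at huv
      have hu := hs u huv.1.1
      have hv := hs v huv.1.2
      have h1 : u * v = p * r := by rw [huv.2, he.2]
      have h2 : u ∣ p * r := ⟨v, h1.symm⟩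
      rw [mem_insert, mem_singleton, Prod.mk.injEq, Prod.mk.injEq]
      rcases (Nat.Prime.dvd_mul hu).mp h2 with h3 | h3
      · left
        have h4 : u = p := (Nat.prime_dvd_prime_iff_eq hu hp).mp h3
        subst h4
        exact ⟨rfl, Nat.eq_of_mul_eq_mul_left hu.pos h1⟩
      · right
        have h4 : u = r := (Nat.prime_dvd_prime_iff_eq hu hr).mp h3
        subst h4
        refine ⟨rfl, ?_⟩
        rw [mul_comm p u] at h1
        exact Nat.eq_of_mul_eq_mul_left hu.pos h1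
    exact (card_le_card hsub).trans card_le_two
  · rw [not_nonempty_iff_eq_empty] at hne
    rw [hne]
    simp

/-- fourth moment bound from the large sieve -/
theorem LsxA_four : ∃ C : ℝ, 0 < C ∧ ∀ (A P : ℕ), 1 ≤ A → 1 ≤ P → ∀ x : ℕ → ℂ, (∀ n, ‖x n‖ ≤ 1) →
    ∀ k : ℕ, 1 ≤ k → ∑ q ∈ Icc 1 k, ∑ χ ∈ prc q, ‖∑ p ∈ pr A P, x p * χ p‖ ^ 4
      ≤ C * (((A : ℝ) * P) ^ 2 + (k : ℝ) ^ 2) * ((pr A P).card : ℝ) ^ 2 := by
  classical
  obtain ⟨C, hC, hm⟩ := mls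
  refine ⟨2 * C, by positivity, ?_⟩
  intro A P hA hP x hx k hk
  set s := pr A P with hs
  have hsp : ∀ p ∈ s, p.Prime := fun p hp => (mem_pr.mp hp).2.1
  let N : ℕ := (A * P) ^ 2
  let a : ℕ → ℂ := fun n => ∑ e ∈ (s ×ˢ s).filter (fun e : ℕ × ℕ => e.1 * e.2 = n), x e.1 * x e.2
  have hN1 : 1 ≤ N := Nat.one_le_pow _ _ (Nat.mul_pos hA hP)
  have hmaps : ∀ e ∈ s ×ˢ s, e.1 * e.2 ∈ Icc 1 N := by
    rintro ⟨p, r⟩ he
    rw [mem_product] at he
    have h1 := mem_pr.mp he.1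
    have h2 := mem_pr.mp he.2
    simp only [] at h1 h2
    rw [mem_Icc]
    constructor
    · exact Nat.mul_pos h1.2.1.pos h2.2.1.pos
    · simp only [N, sq]
      exact Nat.mul_le_mul h1.1.2 h2.1.2
  have hsq : ∀ q : ℕ, ∀ χ : DirichletCharacter ℂ q,
      (∑ p ∈ s, x p * χ p) ^ 2 = ∑ n ∈ Icc 1 N, a n * χ n := by
    intro q χ
    rw [sq, sum_mul_sum, ← sum_product', ← sum_fiberwise_of_maps_to hmaps]
    apply sum_congr rfl
    intro n hn
    simp only [a]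
    rw [sum_mul]
    apply sum_congr rfl
    intro e he
    rw [mem_filter] at he
    rw [← he.2]
    push_cast
    rw [map_mul]
    ring
  have ha : ∑ n ∈ Icc 1 N, ‖a n‖ ^ 2 ≤ 2 * (s.card : ℝ) ^ 2 := by
    calc ∑ n ∈ Icc 1 N, ‖a n‖ ^ 2
        ≤ ∑ n ∈ Icc 1 N, 2 * (((s ×ˢ s).filter (fun e : ℕ × ℕ => e.1 * e.2 = n)).card : ℝ) := by
          apply sum_le_sum
          intro n hn
          have h1 : ‖a n‖ ≤ (((s ×ˢ s).filter (fun e : ℕ × ℕ => e.1 * e.2 = n)).card : ℝ) := by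
            calc ‖a n‖ ≤ ∑ e ∈ (s ×ˢ s).filter (fun e : ℕ × ℕ => e.1 * e.2 = n), ‖x e.1 * x e.2‖ :=
                  norm_sum_le _ _
              _ ≤ ∑ e ∈ (s ×ˢ s).filter (fun e : ℕ × ℕ => e.1 * e.2 = n), (1 : ℝ) := by
                  apply sum_le_sum
                  intro e _
                  rw [norm_mul]
                  exact mul_le_one₀ (hx _) (norm_nonneg _) (hx _)
              _ = _ := by simp
          have h2 : (((s ×ˢ s).filter (fun e : ℕ × ℕ => e.1 * e.2 = n)).card : ℝ) ≤ 2 := by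
            exact_mod_cast LsxA_rep s hsp n
          have h3 := norm_nonneg (a n)
          nlinarith
      _ = 2 * (s.card : ℝ) ^ 2 := by
          rw [← mul_sum]
          congr 1
          have := card_eq_sum_card_fiberwise hmaps
          rw [card_product] at this
          have h2 : ((s.card * s.card : ℕ) : ℝ) =
              ((∑ b ∈ Icc 1 N, ((s ×ˢ s).filter (fun e : ℕ × ℕ => e.1 * e.2 = b)).card : ℕ) : ℝ) := by
            rw [this]
          push_cast at h2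
          rw [← h2]
          ring
  calc ∑ q ∈ Icc 1 k, ∑ χ ∈ prc q, ‖∑ p ∈ s, x p * χ p‖ ^ 4
      = ∑ q ∈ Icc 1 k, ∑ χ ∈ prc q, ‖∑ n ∈ Icc 1 N, a n * χ n‖ ^ 2 := by
        apply sum_congr rfl
        intro q _
        apply sum_congr rfl
        intro χ _
        rw [← hsq q χ, norm_pow]
        ring
    _ ≤ C * ((N : ℝ) + (k : ℝ) ^ 2) * ∑ n ∈ Icc 1 N, ‖a n‖ ^ 2 := hm k N a hk hN1
    _ ≤ C * ((N : ℝ) + (k : ℝ) ^ 2) * (2 * (s.card : ℝ) ^ 2) := by gcongr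
    _ = 2 * C * (((A : ℝ) * P) ^ 2 + (k : ℝ) ^ 2) * (s.card : ℝ) ^ 2 := by
        simp only [N]
        push_cast
        ring

theorem LsxA_normS (s : Finset ℕ) (x : ℕ → ℂ) (hx : ∀ n, ‖x n‖ ≤ 1) {q : ℕ}
    (χ : DirichletCharacter ℂ q) : ‖∑ p ∈ s, x p * χ p‖ ≤ s.card := by
  calc ‖∑ p ∈ s, x p * χ p‖ ≤ ∑ p ∈ s, ‖x p * χ p‖ := norm_sum_le _ _
    _ ≤ ∑ p ∈ s, (1 : ℝ) := by
        apply sum_le_sum
        intro p _
        rw [norm_mul]
        exact mul_le_one₀ (hx _) (norm_nonneg _) (DirichletCharacter.norm_le_one _ _)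
    _ = s.card := by simp

/-- the bound for one sequence -/
theorem LsxA_one (A : ℕ) (hA : GA A) (C3 ε : ℝ) (hC3 : 1 ≤ C3) (hε : 0 < ε) :
    ∃ Q P0 : ℕ, 1 ≤ Q ∧ ∀ P : ℕ, P0 ≤ P → ∀ x : ℕ → ℂ, (∀ n, ‖x n‖ ≤ 1) →
    ∑ q ∈ Ioc Q ⌊C3 * P⌋₊, (1 / (q : ℝ)) * ∑ χ ∈ prc q, ‖∑ p ∈ pr A P, x p * χ p‖ ^ 4
      ≤ ε * ((pr A P).card : ℝ) ^ 4 := by
  classical
  obtain ⟨hA2, c, hc, P1, hP1, hcard⟩ := hA
  obtain ⟨CL, P2, hCL, hLF⟩ := logfree A hA2
  obtain ⟨CM, hCM, hM⟩ := LsxA_four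
  obtain ⟨Q, hQ⟩ := exists_nat_ge (2 * CL / (c ^ 2 * ε) + 1)
  have hQ1 : (1 : ℝ) ≤ Q := by
    have : 0 ≤ 2 * CL / (c ^ 2 * ε) := by positivity
    linarith
  have hQQ : CL / Q ≤ (ε / 2) * c ^ 2 := by
    rw [div_le_iff₀ (by linarith)]
    have h1 : 2 * CL / (c ^ 2 * ε) ≤ Q := by linarith
    rw [div_le_iff₀ (by positivity)] at h1
    nlinarith
  set δ : ℝ := (ε / 2) * c ^ 2 / (CM * ((A : ℝ) ^ 2 + 2 * C3)) with hδ
  have hA0 : (2 : ℝ) ≤ A := by exact_mod_cast hA2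
  have hδ0 : 0 < δ := by positivity
  have hev : ∀ᶠ P : ℕ in Filter.atTop, Real.log P ^ 2 ≤ δ * (P : ℝ) ^ ((1 : ℝ) / 20) := by
    have h1 := (isLittleO_log_rpow_atTop (show (0 : ℝ) < 1 / 40 by norm_num)).bound
      (show 0 < √δ by positivity)
    have h2 := tendsto_natCast_atTop_atTop (R := ℝ) |>.eventually h1
    filter_upwards [h2, Filter.eventually_ge_atTop 1] with P hP hP1
    have hP0 : (1 : ℝ) ≤ P := by exact_mod_cast hP1
    have h3 : ‖Real.log P‖ = Real.log P := by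
      rw [Real.norm_eq_abs, abs_of_nonneg (Real.log_nonneg hP0)]
    have h4 : ‖(P : ℝ) ^ ((1 : ℝ) / 40)‖ = (P : ℝ) ^ ((1 : ℝ) / 40) := by
      rw [Real.norm_eq_abs, abs_of_nonneg (by positivity)]
    rw [h3, h4] at hP
    calc Real.log P ^ 2 ≤ (√δ * (P : ℝ) ^ ((1 : ℝ) / 40)) ^ 2 := by
          apply pow_le_pow_left₀ (Real.log_nonneg hP0) hP
      _ = δ * (P : ℝ) ^ ((1 : ℝ) / 20) := by
          rw [mul_pow, Real.sq_sqrt hδ0.le, ← Real.rpow_natCast, ← Real.rpow_mul (by positivity)]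
          norm_num
  rw [Filter.eventually_atTop] at hev
  obtain ⟨P3, hP3⟩ := hev
  refine ⟨Q, max (max P1 P2) (max P3 2), by exact_mod_cast hQ1, ?_⟩
  intro P hP x hx
  have hPP1 : P1 ≤ P := by omega
  have hPP2 : P2 ≤ P := by omega
  have hPP3 : P3 ≤ P := by omega
  have hP2 : 2 ≤ P := by omega
  have hPr : (2 : ℝ) ≤ P := by exact_mod_cast hP2
  set n : ℝ := ((pr A P).card : ℝ) with hn
  have hn0 : 0 ≤ n := by positivity
  have hlogP : 0 < Real.log P := Real.log_pos (by linarith)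
  have hcn : c * P / Real.log P ≤ n := hcard P hPP1
  have hcn2 : c ^ 2 * (P / Real.log P) ^ 2 ≤ n ^ 2 := by
    have h1 : c ^ 2 * (P / Real.log P) ^ 2 = (c * P / Real.log P) ^ 2 := by ring
    rw [h1]
    exact pow_le_pow_left₀ (by positivity) hcn 2
  -- the cut
  set R1 : ℕ := ⌊(P : ℝ) ^ ((1 : ℝ) / 20)⌋₊ with hR1
  have hPpow0 : (1 : ℝ) ≤ (P : ℝ) ^ ((1 : ℝ) / 20) := Real.one_le_rpow (by linarith) (by norm_num)
  have hR1le : (R1 : ℝ) ≤ (P : ℝ) ^ ((1 : ℝ) / 20) := Nat.floor_le (by positivity)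
  have hR1lt : (P : ℝ) ^ ((1 : ℝ) / 20) < (R1 : ℝ) + 1 := Nat.lt_floor_add_one _
  have hR20 : R1 ^ 20 ≤ P := by
    have h1 : (R1 : ℝ) ^ 20 ≤ ((P : ℝ) ^ ((1 : ℝ) / 20)) ^ 20 := pow_le_pow_left₀ (by positivity) hR1le 20
    rw [← Real.rpow_natCast ((P : ℝ) ^ ((1 : ℝ) / 20)), ← Real.rpow_mul (by positivity)] at h1
    norm_num at h1
    exact_mod_cast h1
  set R : ℕ := ⌊C3 * (P : ℝ)⌋₊ with hR
  have hRle : (R : ℝ) ≤ C3 * P := Nat.floor_le (by positivity)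
  set T : ℕ → ℝ := fun q => ∑ χ ∈ prc q, ‖∑ p ∈ pr A P, x p * χ p‖ ^ 4 with hT
  have hT0 : ∀ q, 0 ≤ T q := fun q => sum_nonneg (fun χ _ => by positivity)
  have hsplit : ∑ q ∈ Ioc Q R, (1 / (q : ℝ)) * T q ≤
      ∑ q ∈ Ioc Q R1, (1 / (q : ℝ)) * T q + ∑ q ∈ Ioc R1 R, (1 / (q : ℝ)) * T q := by
    calc ∑ q ∈ Ioc Q R, (1 / (q : ℝ)) * T q
        ≤ ∑ q ∈ Ioc Q R1 ∪ Ioc R1 R, (1 / (q : ℝ)) * T q := by
          apply sum_le_sum_of_subset_of_nonneg
          · intro q hq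
            rw [mem_union, mem_Ioc, mem_Ioc]
            rw [mem_Ioc] at hq
            by_cases h : q ≤ R1
            · left; exact ⟨hq.1, h⟩
            · right; exact ⟨by omega, hq.2⟩
          · intro q _ _
            have := hT0 q
            positivity
      _ ≤ _ := by
          rw [← sum_union_inter]
          have : 0 ≤ ∑ q ∈ Ioc Q R1 ∩ Ioc R1 R, (1 / (q : ℝ)) * T q :=
            sum_nonneg (fun q _ => by have := hT0 q; positivity)
          linarith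
  -- first part
  have hfirst : ∑ q ∈ Ioc Q R1, (1 / (q : ℝ)) * T q ≤ (ε / 2) * n ^ 4 := by
    calc ∑ q ∈ Ioc Q R1, (1 / (q : ℝ)) * T q
        ≤ ∑ q ∈ Ioc Q R1, (1 / (Q : ℝ)) * (n ^ 2 * ∑ χ ∈ prc q, ‖∑ p ∈ pr A P, x p * χ p‖ ^ 2) := by
          apply sum_le_sum
          intro q hq
          rw [mem_Ioc] at hq
          have hqQ : (Q : ℝ) ≤ q := by exact_mod_cast hq.1.le
          apply mul_le_mul
          · apply one_div_le_one_div_of_le (by linarith) hqQ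
          · rw [mul_sum]
            apply sum_le_sum
            intro χ _
            have h1 := LsxA_normS (pr A P) x hx χ
            have h2 : ‖∑ p ∈ pr A P, x p * χ p‖ ^ 2 ≤ n ^ 2 := pow_le_pow_left₀ (norm_nonneg _) h1 2
            calc ‖∑ p ∈ pr A P, x p * χ p‖ ^ 4
                = ‖∑ p ∈ pr A P, x p * χ p‖ ^ 2 * ‖∑ p ∈ pr A P, x p * χ p‖ ^ 2 := by ring
              _ ≤ n ^ 2 * ‖∑ p ∈ pr A P, x p * χ p‖ ^ 2 := by gcongr
          · exact hT0 q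
          · positivity
      _ = (1 / (Q : ℝ)) * n ^ 2 * ∑ q ∈ Ioc Q R1, ∑ χ ∈ prc q, ‖∑ p ∈ pr A P, x p * χ p‖ ^ 2 := by
          rw [mul_sum]
          apply sum_congr rfl
          intro q _
          ring
      _ ≤ (1 / (Q : ℝ)) * n ^ 2 * ∑ q ∈ Icc 1 R1, ∑ χ ∈ prc q, ‖∑ p ∈ pr A P, x p * χ p‖ ^ 2 := by
          apply mul_le_mul_of_nonneg_left _ (by positivity)
          apply sum_le_sum_of_subset_of_nonneg
          · intro q hq
            rw [mem_Ioc] at hq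
            rw [mem_Icc]
            omega
          · intro q _ _
            exact sum_nonneg (fun χ _ => by positivity)
      _ ≤ (1 / (Q : ℝ)) * n ^ 2 * (CL * (P / Real.log P) ^ 2) := by
          apply mul_le_mul_of_nonneg_left _ (by positivity)
          exact hLF P hPP2 R1 hR20 x hx
      _ = (CL / Q) * (P / Real.log P) ^ 2 * n ^ 2 := by ring
      _ ≤ ((ε / 2) * c ^ 2) * (P / Real.log P) ^ 2 * n ^ 2 := by gcongr
      _ = (ε / 2) * (c ^ 2 * (P / Real.log P) ^ 2) * n ^ 2 := by ring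
      _ ≤ (ε / 2) * (n ^ 2) * n ^ 2 := by gcongr
      _ = (ε / 2) * n ^ 4 := by ring
  have hsecond : ∑ q ∈ Ioc R1 R, (1 / (q : ℝ)) * T q ≤ (ε / 2) * n ^ 4 := by
    by_cases hRR : R1 ≤ R
    · have habel := LsxA_abel T R1 R hRR (CM * ((A : ℝ) * P) ^ 2 * n ^ 2) (CM * n ^ 2) (by positivity)
        (by positivity) (by
          intro k hk1 hk2
          calc ∑ q ∈ Ioc R1 k, T q ≤ ∑ q ∈ Icc 1 k, T q := by
                apply sum_le_sum_of_subset_of_nonneg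
                · intro q hq
                  rw [mem_Ioc] at hq
                  rw [mem_Icc]
                  omega
                · intro q _ _
                  exact hT0 q
            _ ≤ CM * (((A : ℝ) * P) ^ 2 + (k : ℝ) ^ 2) * n ^ 2 :=
                hM A P (by omega) (by omega) x hx k (by omega)
            _ = CM * ((A : ℝ) * P) ^ 2 * n ^ 2 + CM * n ^ 2 * (k : ℝ) ^ 2 := by ring)
      refine habel.trans ?_
      set r : ℝ := (P : ℝ) ^ ((1 : ℝ) / 20) with hr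
      have hr0 : 0 < r := by linarith
      have hrP : r ≤ P := by
        calc r ≤ (P : ℝ) ^ (1 : ℝ) := Real.rpow_le_rpow_of_exponent_le (by linarith) (by norm_num)
          _ = P := Real.rpow_one _
      have h1 : CM * ((A : ℝ) * P) ^ 2 * n ^ 2 / ((R1 : ℝ) + 1) ≤ CM * ((A : ℝ) * P) ^ 2 * n ^ 2 / r := by
        apply div_le_div_of_nonneg_left (by positivity) hr0 hR1lt.le
      have h2 : 2 * (CM * n ^ 2) * R ≤ 2 * (CM * n ^ 2) * (C3 * (P ^ 2 / r)) := by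
        have : (P : ℝ) ≤ P ^ 2 / r := by
          rw [le_div_iff₀ hr0]
          nlinarith
        have h3 : (R : ℝ) ≤ C3 * (P ^ 2 / r) := hRle.trans (by gcongr)
        gcongr
      have h3 : Real.log P ^ 2 ≤ δ * r := hP3 P hPP3
      have h4 : (P : ℝ) ^ 2 / r ≤ δ * (P / Real.log P) ^ 2 := by
        rw [div_pow, mul_div_assoc', div_le_div_iff₀ hr0 (by positivity)]
        have : (P : ℝ) ^ 2 * Real.log P ^ 2 ≤ (P : ℝ) ^ 2 * (δ * r) := by gcongr
        linarith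
      calc CM * ((A : ℝ) * P) ^ 2 * n ^ 2 / ((R1 : ℝ) + 1) + 2 * (CM * n ^ 2) * R
          ≤ CM * ((A : ℝ) * P) ^ 2 * n ^ 2 / r + 2 * (CM * n ^ 2) * (C3 * (P ^ 2 / r)) :=
            add_le_add h1 h2
        _ = CM * ((A : ℝ) ^ 2 + 2 * C3) * n ^ 2 * (P ^ 2 / r) := by ring
        _ ≤ CM * ((A : ℝ) ^ 2 + 2 * C3) * n ^ 2 * (δ * (P / Real.log P) ^ 2) := by gcongr
        _ = (ε / 2) * (c ^ 2 * (P / Real.log P) ^ 2) * n ^ 2 := by
            rw [hδ]
            have : CM * ((A : ℝ) ^ 2 + 2 * C3) ≠ 0 := by positivity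
            field_simp
        _ ≤ (ε / 2) * (n ^ 2) * n ^ 2 := by gcongr
        _ = (ε / 2) * n ^ 4 := by ring
    · rw [Ioc_eq_empty (by omega), sum_empty]
      positivity
  calc ∑ q ∈ Ioc Q R, (1 / (q : ℝ)) * T q
      ≤ (ε / 2) * n ^ 4 + (ε / 2) * n ^ 4 := hsplit.trans (add_le_add hfirst hsecond)
    _ = ε * n ^ 4 := by ring

theorem lsx_moment (A : ℕ) (hA : GA A) (C3 ε : ℝ) (hC3 : 1 ≤ C3) (hε : 0 < ε) :
    ∃ Q P0 : ℕ, 1 ≤ Q ∧ ∀ P : ℕ, P0 ≤ P → ∀ x y : ℕ → ℂ, (∀ n, ‖x n‖ ≤ 1) → (∀ n, ‖y n‖ ≤ 1) →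
    ∑ q ∈ Ioc Q ⌊C3 * P⌋₊, (1 / (q : ℝ)) * ∑ χ ∈ prc q,
      ‖(∑ p ∈ pr A P, x p * χ p) * (∑ p ∈ pr A P, y p * χ p)‖ ^ 2
      ≤ ε * ((pr A P).card : ℝ) ^ 4 := by
  obtain ⟨Q, P0, hQ, h⟩ := LsxA_one A hA C3 (ε / 2) hC3 (by positivity)
  refine ⟨Q, P0, hQ, ?_⟩
  intro P hP x y hx hy
  have h1 := h P hP x hx
  have h2 := h P hP y hy
  calc ∑ q ∈ Ioc Q ⌊C3 * P⌋₊, (1 / (q : ℝ)) * ∑ χ ∈ prc q,
        ‖(∑ p ∈ pr A P, x p * χ p) * (∑ p ∈ pr A P, y p * χ p)‖ ^ 2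
      ≤ ∑ q ∈ Ioc Q ⌊C3 * P⌋₊, ((1 / (q : ℝ)) * ∑ χ ∈ prc q, ‖∑ p ∈ pr A P, x p * χ p‖ ^ 4 +
          (1 / (q : ℝ)) * ∑ χ ∈ prc q, ‖∑ p ∈ pr A P, y p * χ p‖ ^ 4) := by
        apply sum_le_sum
        intro q _
        rw [← mul_add, ← sum_add_distrib]
        apply mul_le_mul_of_nonneg_left _ (by positivity)
        apply sum_le_sum
        intro χ _
        rw [norm_mul, mul_pow]
        set u := ‖∑ p ∈ pr A P, x p * χ p‖ ^ 2
        set v := ‖∑ p ∈ pr A P, y p * χ p‖ ^ 2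
        have e1 : ‖∑ p ∈ pr A P, x p * χ p‖ ^ 4 = u ^ 2 := by simp only [u]; ring
        have e2 : ‖∑ p ∈ pr A P, y p * χ p‖ ^ 4 = v ^ 2 := by simp only [v]; ring
        rw [e1, e2]
        nlinarith [sq_nonneg (u - v), sq_nonneg u, sq_nonneg v]
    _ ≤ ε * ((pr A P).card : ℝ) ^ 4 := by
        rw [sum_add_distrib]
        linarith

end Pool.Agent.FCH
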