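import Pool.Agent.FCH.Base
import Pool.Agent.MR.ZChar
import Pool.Agent.MR.ZZeta

set_option autoImplicit false

/-! Module PsT: `MR.char_prime_sum` and `MR.zeta_prime_sum` (`|u| ≤ 1`) for `|u| ≤ T`: same proofs with the compact set `{1 ≤ re s ≤ 2, |im s| ≤ T}` (continuity of `L'/L`
and non-vanishing on `re s ≥ 1`: Mathlib).  Let me recall the argument: `∑_p χ(p) p^{-s} = log L(s,χ) + O(1)` and the derivative of the branch `zcG χ` is `L'/L`, bounded on the compact set; integrate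
from `2 + iu`. -/

open Finset

namespace Pool.Agent.FCH

open Pool.Agent.MRS hiding Good
open Pool.Agent.MR

theorem char_T (q : ℕ) [NeZero q] (χ : DirichletCharacter ℂ q) (hχ : χ ≠ 1) (T : ℝ) (hT : 1 ≤ T) :
    ∃ K : ℝ, 0 < K ∧ ∀ α : ℝ, 0 < α → α ≤ 1 → ∀ u : ℝ, |u| ≤ T →
      ‖∑' p : Nat.Primes, χ p * ((p : ℕ) : ℂ) ^ (-(1 + α + u * Complex.I))‖ ≤ K := by
  -- compactness
  have hcont : ContinuousOn (fun z : ℝ × ℝ =>
      deriv (DirichletCharacter.LFunction χ) (1 + z.1 + z.2 * Complex.I)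
        / DirichletCharacter.LFunction χ (1 + z.1 + z.2 * Complex.I))
      (Set.Icc 0 1 ×ˢ Set.Icc (-T) T) := by
    have hLd := DirichletCharacter.differentiable_LFunction hχ
    have hc : Continuous (fun z : ℝ × ℝ => (1 + z.1 + z.2 * Complex.I : ℂ)) := by fun_prop
    have hc1 : Continuous (deriv (DirichletCharacter.LFunction χ)) :=
      (hLd.contDiff (n := 1)).continuous_deriv le_rfl
    apply ContinuousOn.div
    · exact (hc1.comp hc).continuousOn
    · exact (hLd.continuous.comp hc).continuousOn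
    · rintro ⟨a, b⟩ ⟨h1, -⟩
      apply DirichletCharacter.LFunction_ne_zero_of_one_le_re χ (Or.inl hχ)
      have : (0 : ℝ) ≤ a := h1.1
      simp
      exact this
  obtain ⟨C, hC⟩ := (isCompact_Icc.prod isCompact_Icc).exists_bound_of_continuousOn hcont
  have hC0 : 0 ≤ C := (norm_nonneg _).trans (hC (0, 0) ⟨⟨le_rfl, zero_le_one⟩, by show -T ≤ 0; linarith, by show (0:ℝ) ≤ T; linarith⟩)
  have hS : Summable (fun p : Nat.Primes => ((p : ℕ) : ℝ) ^ (-(2 : ℝ))) :=
    Nat.Primes.summable_rpow.mpr (by norm_num)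
  set B : ℝ := ∑' p : Nat.Primes, ((p : ℕ) : ℝ) ^ (-(2 : ℝ)) with hB
  have hB0 : 0 ≤ B := tsum_nonneg fun p => by positivity
  refine ⟨C + 3 / 2 * B + B + 1, by positivity, fun α hα hα1 u hu => ?_⟩
  have hub := abs_le.1 hu
  -- the logarithm at `α`
  have hre : ∀ x : ℝ, (1 + (x : ℂ) + u * Complex.I).re = 1 + x := by
    intro x
    simp
  have hG1 : ‖zcG χ (1 + ((1 : ℝ) : ℂ) + u * Complex.I)‖ ≤ 3 / 2 * B := by
    unfold zcG
    refine tsum_of_norm_bounded (hS.hasSum.mul_left (3 / 2)) fun p => ?_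
    refine (zc_log_le χ p (by rw [hre]; norm_num)).trans ?_
    rw [hre]
    norm_num
  have hder : ∀ x ∈ Set.Icc α 1, HasDerivWithinAt (fun x : ℝ => zcG χ (1 + (x : ℂ) + u * Complex.I))
      (deriv (DirichletCharacter.LFunction χ) (1 + (x : ℂ) + u * Complex.I)
        / DirichletCharacter.LFunction χ (1 + (x : ℂ) + u * Complex.I)) (Set.Icc α 1) x := by
    intro x hx
    have hxp : 0 < x := hα.trans_le hx.1
    have h1 := zc_deriv χ hχ (s := 1 + (x : ℂ) + u * Complex.I) (by rw [hre]; linarith)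
    have h2 : HasDerivAt (fun x : ℝ => (1 + (x : ℂ) + u * Complex.I)) 1 x := by
      have := (((hasDerivAt_id x).ofReal_comp).const_add 1).add_const (u * Complex.I)
      simpa using this
    have h3 := h1.comp x h2
    rw [mul_one] at h3
    exact h3.hasDerivWithinAt
  have hmv := (convex_Icc α 1).norm_image_sub_le_of_norm_hasDerivWithin_le (C := C) hder
    (fun x hx => hC (x, u) ⟨⟨hα.le.trans hx.1, hx.2⟩, hub.1, hub.2⟩)
    (Set.right_mem_Icc.2 hα1) (Set.left_mem_Icc.2 hα1)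
  have hG : ‖zcG χ (1 + (α : ℂ) + u * Complex.I)‖ ≤ C + 3 / 2 * B := by
    have h1 : C * ‖α - 1‖ ≤ C := by
      have : ‖α - 1‖ ≤ 1 := by
        rw [Real.norm_eq_abs, abs_le]
        constructor <;> linarith
      nlinarith
    have h2 := norm_sub_norm_le (zcG χ (1 + (α : ℂ) + u * Complex.I))
      (zcG χ (1 + ((1 : ℝ) : ℂ) + u * Complex.I))
    linarith
  -- comparison of the sum with the logarithm
  set s : ℂ := 1 + (α : ℂ) + u * Complex.I with hs
  have hsre : s.re = 1 + α := hre α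
  have hs1 : 1 < s.re := by rw [hsre]; linarith
  have hsum1 : Summable (fun p : Nat.Primes => χ p * ((p : ℕ) : ℂ) ^ (-s)) := by
    apply Summable.of_norm_bounded (g := fun p : Nat.Primes => ((p : ℕ) : ℝ) ^ (-s.re))
    · exact Nat.Primes.summable_rpow.mpr (by linarith)
    · intro p
      exact zc_norm_le χ p s
  have hsum2 : Summable (fun p : Nat.Primes => -Complex.log (1 - χ p * ((p : ℕ) : ℂ) ^ (-s))) := by
    apply Summable.of_norm_bounded (g := fun p : Nat.Primes => 3 / 2 * ((p : ℕ) : ℝ) ^ (-s.re))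
    · exact (Nat.Primes.summable_rpow.mpr (by linarith)).mul_left _
    · intro p
      exact zc_log_le χ p hs1.le
  have hdiff : ‖(∑' p : Nat.Primes, χ p * ((p : ℕ) : ℂ) ^ (-s)) - zcG χ s‖ ≤ B := by
    unfold zcG
    rw [← hsum1.tsum_sub hsum2]
    refine tsum_of_norm_bounded hS.hasSum fun p => ?_
    set w : ℂ := χ p * ((p : ℕ) : ℂ) ^ (-s) with hw
    have h1 : ‖w‖ ≤ ((p : ℕ) : ℝ) ^ (-s.re) := zc_norm_le χ p s
    have h2 := zc_rpow_half p hs1.le
    have h3 : ‖w‖ ≤ 1 / 2 := by linarith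
    have h4 := Complex.norm_log_one_add_sub_self_le (z := -w) (by rw [norm_neg]; linarith)
    have e : w - -Complex.log (1 - w) = Complex.log (1 + -w) - -w := by
      rw [← sub_eq_add_neg]
      ring
    rw [e]
    refine h4.trans ?_
    rw [norm_neg]
    have h5 : (1 - ‖w‖)⁻¹ ≤ 2 := by
      rw [inv_le_comm₀ (by linarith) (by norm_num)]
      linarith
    have h6 : ‖w‖ ^ 2 ≤ ((p : ℕ) : ℝ) ^ (-(2 : ℝ)) := by
      have h7 : ‖w‖ ≤ ((p : ℕ) : ℝ) ^ (-(1 : ℝ)) := h1.trans (zc_rpow_mono p hs1.le)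
      calc ‖w‖ ^ 2 ≤ (((p : ℕ) : ℝ) ^ (-(1 : ℝ))) ^ 2 := by gcongr
        _ = ((p : ℕ) : ℝ) ^ (-(2 : ℝ)) := by
            rw [← Real.rpow_natCast, ← Real.rpow_mul (by positivity)]
            norm_num
    calc ‖w‖ ^ 2 * (1 - ‖w‖)⁻¹ / 2 ≤ ‖w‖ ^ 2 * 2 / 2 := by gcongr
      _ = ‖w‖ ^ 2 := by ring
      _ ≤ _ := h6
  have h8 := norm_sub_norm_le (∑' p : Nat.Primes, χ p * ((p : ℕ) : ℂ) ^ (-s)) (zcG χ s)
  linarith

theorem zeta_T (T : ℝ) (hT : 1 ≤ T) :
    ∃ K : ℝ, 0 < K ∧ ∀ α : ℝ, 0 < α → α ≤ 1 → ∀ u : ℝ, |u| ≤ T →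
      ‖(∑' p : Nat.Primes, ((p : ℕ) : ℂ) ^ (-(1 + α + u * Complex.I)))
        + Complex.log (α + u * Complex.I)‖ ≤ K := by
  set χ : DirichletCharacter ℂ 1 := 1 with hχ
  have hχ1 : ∀ p : Nat.Primes, χ p = 1 := by
    intro p
    rw [hχ, MulChar.one_apply]
    exact isUnit_of_subsingleton _
  -- compactness
  have hcont : ContinuousOn (fun z : ℝ × ℝ =>
      deriv (DirichletCharacter.LFunctionTrivChar₁ 1) (1 + z.1 + z.2 * Complex.I)
        / DirichletCharacter.LFunctionTrivChar₁ 1 (1 + z.1 + z.2 * Complex.I))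
      (Set.Icc 0 1 ×ˢ Set.Icc (-T) T) := by
    have hLd := DirichletCharacter.differentiable_LFunctionTrivChar₁ 1
    have hc : Continuous (fun z : ℝ × ℝ => (1 + z.1 + z.2 * Complex.I : ℂ)) := by fun_prop
    have hc1 : Continuous (deriv (DirichletCharacter.LFunctionTrivChar₁ 1)) :=
      (hLd.contDiff (n := 1)).continuous_deriv le_rfl
    apply ContinuousOn.div
    · exact (hc1.comp hc).continuousOn
    · exact (hLd.continuous.comp hc).continuousOn
    · rintro ⟨a, b⟩ ⟨h1, -⟩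
      apply zz_ne
      have : (0 : ℝ) ≤ a := h1.1
      simp
      exact this
  obtain ⟨C, hC⟩ := (isCompact_Icc.prod isCompact_Icc).exists_bound_of_continuousOn hcont
  have hC0 : 0 ≤ C := (norm_nonneg _).trans (hC (0, 0) ⟨⟨le_rfl, zero_le_one⟩, by show -T ≤ 0; linarith, by show (0:ℝ) ≤ T; linarith⟩)
  have hcont2 : ContinuousOn (fun u : ℝ => Complex.log (1 + u * Complex.I)) (Set.Icc (-T) T) := by
    apply ContinuousOn.clog
    · fun_prop
    · intro x _
      left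
      simp
  obtain ⟨C2, hC2⟩ := isCompact_Icc.exists_bound_of_continuousOn hcont2
  have hC20 : 0 ≤ C2 := (norm_nonneg _).trans (hC2 0 ⟨by linarith, by linarith⟩)
  have hS : Summable (fun p : Nat.Primes => ((p : ℕ) : ℝ) ^ (-(2 : ℝ))) :=
    Nat.Primes.summable_rpow.mpr (by norm_num)
  set B : ℝ := ∑' p : Nat.Primes, ((p : ℕ) : ℝ) ^ (-(2 : ℝ)) with hB
  have hB0 : 0 ≤ B := tsum_nonneg fun p => by positivity
  refine ⟨C + 3 / 2 * B + C2 + B + 1, by positivity, fun α hα hα1 u hu => ?_⟩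
  have hub := abs_le.1 hu
  -- the logarithm at `α`
  have hre : ∀ x : ℝ, (1 + (x : ℂ) + u * Complex.I).re = 1 + x := by
    intro x
    simp
  have hG1 : ‖zzH (1 + ((1 : ℝ) : ℂ) + u * Complex.I)‖ ≤ 3 / 2 * B + C2 := by
    have h1 : ‖zcG χ (1 + ((1 : ℝ) : ℂ) + u * Complex.I)‖ ≤ 3 / 2 * B := by
      unfold zcG
      refine tsum_of_norm_bounded (hS.hasSum.mul_left (3 / 2)) fun p => ?_
      refine (zc_log_le χ p (by rw [hre]; norm_num)).trans ?_
      rw [hre]
      norm_num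
    have h2 : ‖Complex.log ((1 + ((1 : ℝ) : ℂ) + u * Complex.I) - 1)‖ ≤ C2 := by
      have e : (1 + ((1 : ℝ) : ℂ) + u * Complex.I) - 1 = 1 + u * Complex.I := by
        push_cast
        ring
      rw [e]
      exact hC2 u ⟨hub.1, hub.2⟩
    exact (norm_add_le _ _).trans (add_le_add h1 h2)
  have hder : ∀ x ∈ Set.Icc α 1, HasDerivWithinAt (fun x : ℝ => zzH (1 + (x : ℂ) + u * Complex.I))
      (deriv (DirichletCharacter.LFunctionTrivChar₁ 1) (1 + (x : ℂ) + u * Complex.I)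
        / DirichletCharacter.LFunctionTrivChar₁ 1 (1 + (x : ℂ) + u * Complex.I)) (Set.Icc α 1) x := by
    intro x hx
    have hxp : 0 < x := hα.trans_le hx.1
    have h1 := zz_deriv (s := 1 + (x : ℂ) + u * Complex.I) (by rw [hre]; linarith)
    have h2 : HasDerivAt (fun x : ℝ => (1 + (x : ℂ) + u * Complex.I)) 1 x := by
      have := (((hasDerivAt_id x).ofReal_comp).const_add 1).add_const (u * Complex.I)
      simpa using this
    have h3 := h1.comp x h2
    rw [mul_one] at h3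
    exact h3.hasDerivWithinAt
  have hmv := (convex_Icc α 1).norm_image_sub_le_of_norm_hasDerivWithin_le (C := C) hder
    (fun x hx => hC (x, u) ⟨⟨hα.le.trans hx.1, hx.2⟩, hub.1, hub.2⟩)
    (Set.right_mem_Icc.2 hα1) (Set.left_mem_Icc.2 hα1)
  have hG : ‖zzH (1 + (α : ℂ) + u * Complex.I)‖ ≤ C + 3 / 2 * B + C2 := by
    have h1 : C * ‖α - 1‖ ≤ C := by
      have : ‖α - 1‖ ≤ 1 := by
        rw [Real.norm_eq_abs, abs_le]
        constructor <;> linarith
      nlinarith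
    have h2 := norm_sub_norm_le (zzH (1 + (α : ℂ) + u * Complex.I))
      (zzH (1 + ((1 : ℝ) : ℂ) + u * Complex.I))
    linarith
  -- comparison of the sum with the logarithm
  set s : ℂ := 1 + (α : ℂ) + u * Complex.I with hs
  have hsre : s.re = 1 + α := hre α
  have hs1 : 1 < s.re := by rw [hsre]; linarith
  have hsum1 : Summable (fun p : Nat.Primes => χ p * ((p : ℕ) : ℂ) ^ (-s)) := by
    apply Summable.of_norm_bounded (g := fun p : Nat.Primes => ((p : ℕ) : ℝ) ^ (-s.re))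
    · exact Nat.Primes.summable_rpow.mpr (by linarith)
    · intro p
      exact zc_norm_le χ p s
  have hsum2 : Summable (fun p : Nat.Primes => -Complex.log (1 - χ p * ((p : ℕ) : ℂ) ^ (-s))) := by
    apply Summable.of_norm_bounded (g := fun p : Nat.Primes => 3 / 2 * ((p : ℕ) : ℝ) ^ (-s.re))
    · exact (Nat.Primes.summable_rpow.mpr (by linarith)).mul_left _
    · intro p
      exact zc_log_le χ p hs1.le
  have hdiff : ‖(∑' p : Nat.Primes, χ p * ((p : ℕ) : ℂ) ^ (-s)) - zcG χ s‖ ≤ B := by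
    unfold zcG
    rw [← hsum1.tsum_sub hsum2]
    refine tsum_of_norm_bounded hS.hasSum fun p => ?_
    set w : ℂ := χ p * ((p : ℕ) : ℂ) ^ (-s) with hw
    have h1 : ‖w‖ ≤ ((p : ℕ) : ℝ) ^ (-s.re) := zc_norm_le χ p s
    have h2 := zc_rpow_half p hs1.le
    have h3 : ‖w‖ ≤ 1 / 2 := by linarith
    have h4 := Complex.norm_log_one_add_sub_self_le (z := -w) (by rw [norm_neg]; linarith)
    have e : w - -Complex.log (1 - w) = Complex.log (1 + -w) - -w := by
      rw [← sub_eq_add_neg]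
      ring
    rw [e]
    refine h4.trans ?_
    rw [norm_neg]
    have h5 : (1 - ‖w‖)⁻¹ ≤ 2 := by
      rw [inv_le_comm₀ (by linarith) (by norm_num)]
      linarith
    have h6 : ‖w‖ ^ 2 ≤ ((p : ℕ) : ℝ) ^ (-(2 : ℝ)) := by
      have h7 : ‖w‖ ≤ ((p : ℕ) : ℝ) ^ (-(1 : ℝ)) := h1.trans (zc_rpow_mono p hs1.le)
      calc ‖w‖ ^ 2 ≤ (((p : ℕ) : ℝ) ^ (-(1 : ℝ))) ^ 2 := by gcongr
        _ = ((p : ℕ) : ℝ) ^ (-(2 : ℝ)) := by
            rw [← Real.rpow_natCast, ← Real.rpow_mul (by positivity)]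
            norm_num
    calc ‖w‖ ^ 2 * (1 - ‖w‖)⁻¹ / 2 ≤ ‖w‖ ^ 2 * 2 / 2 := by gcongr
      _ = ‖w‖ ^ 2 := by ring
      _ ≤ _ := h6
  have e1 : (∑' p : Nat.Primes, ((p : ℕ) : ℂ) ^ (-s)) = ∑' p : Nat.Primes, χ p * ((p : ℕ) : ℂ) ^ (-s) := by
    apply tsum_congr
    intro p
    rw [hχ1, one_mul]
  have e2 : (α : ℂ) + u * Complex.I = s - 1 := by
    rw [hs]
    ring
  rw [e1, e2]
  have e3 : (∑' p : Nat.Primes, χ p * ((p : ℕ) : ℂ) ^ (-s)) + Complex.log (s - 1)
      = ((∑' p : Nat.Primes, χ p * ((p : ℕ) : ℂ) ^ (-s)) - zcG χ s) + zzH s := by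
    unfold zzH
    ring
  rw [e3]
  have h8 := norm_add_le ((∑' p : Nat.Primes, χ p * ((p : ℕ) : ℂ) ^ (-s)) - zcG χ s) (zzH s)
  linarith

end Pool.Agent.FCH
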