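import Pool.Agent.FCH.HcB
import Pool.Agent.FCH.AnnT
import Pool.Agent.FCH.CntC

set_option autoImplicit false

/-! Module StP: character sums over primitive `z` (port of the end of `MRS/St.lean`: `st_all`, `STW_moebius`, `st_prim`).
Classes mod `D` are treated one by one: `StP_annulus` (additive characters mod `D` and `annulus_tw`), `StP_cls` (as `MRS.st_all`), then sum over the classes. -/

open Finset

namespace Pool.Agent.FCH

open Pool.Agent.MRS hiding Good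
open Pool.Agent.H33

theorem StP_ee_nat (a : ℕ) (x : ℝ) : ee ((a : ℝ) * x) = ee x ^ a := by
  unfold ee
  rw [← Complex.exp_nat_mul]
  congr 1
  push_cast
  ring

theorem StP_ee_add (x y : ℝ) : ee (x + y) = ee x * ee y := by
  unfold ee
  rw [← Complex.exp_add]
  congr 1
  push_cast
  ring

theorem StP_norm_ee (x : ℝ) : ‖ee x‖ = 1 := by
  unfold ee
  rw [mul_comm, Complex.norm_exp_ofReal_mul_I]

/-- orthogonality of additive characters mod `D` -/
theorem StP_orth (D : ℕ) (hD : 0 < D) (n : ℤ) :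
    ∑ a ∈ range D, ee ((a : ℝ) * ((n : ℝ) / D)) = if (D : ℤ) ∣ n then (D : ℂ) else 0 := by
  have hD0 : (D : ℝ) ≠ 0 := by positivity
  simp only [StP_ee_nat]
  have hone : ee ((n : ℝ) / D) = 1 ↔ (D : ℤ) ∣ n := by
    unfold ee
    rw [Complex.exp_eq_one_iff]
    constructor
    · rintro ⟨k, hk⟩
      refine ⟨k, ?_⟩
      have h1 : ((2 * Real.pi * ((n : ℝ) / D) : ℝ) : ℂ) = ((k * (2 * Real.pi) : ℝ) : ℂ) := by
        have h2 : Complex.I * ((2 * Real.pi * ((n : ℝ) / D) : ℝ) : ℂ) =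
            Complex.I * ((k * (2 * Real.pi) : ℝ) : ℂ) := by
          rw [hk]; push_cast; ring
        exact mul_left_cancel₀ Complex.I_ne_zero h2
      have h3 : 2 * Real.pi * ((n : ℝ) / D) = k * (2 * Real.pi) := by exact_mod_cast h1
      have hpi := Real.pi_pos
      have h4 : (n : ℝ) / D = k := by
        have h5 : (2 * Real.pi) * ((n : ℝ) / D) = (2 * Real.pi) * k := by linarith
        exact mul_left_cancel₀ (by positivity) h5
      rw [div_eq_iff hD0] at h4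
      have h5 : (n : ℝ) = ((D : ℤ) * k : ℤ) := by push_cast; linarith
      exact_mod_cast h5
    · rintro ⟨k, rfl⟩
      refine ⟨k, ?_⟩
      push_cast
      have : (D : ℂ) ≠ 0 := by exact_mod_cast hD.ne'
      field_simp
  split_ifs with h
  · rw [hone.mpr h]
    simp
  · have hne : ee ((n : ℝ) / D) ≠ 1 := fun h' => h (hone.mp h')
    rw [geom_sum_eq hne, ← StP_ee_nat]
    have : (D : ℝ) * ((n : ℝ) / D) = n := by field_simp
    rw [this]
    have h1 : ee (n : ℝ) = 1 := by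
      unfold ee
      rw [Complex.exp_eq_one_iff]
      exact ⟨n, by push_cast; ring⟩
    rw [h1, sub_self, zero_div]

/-- the indicator of a class mod `D` -/
theorem StP_ind (D : ℕ) (hD : 0 < D) (z ρ : GI) [Decidable (cg D z ρ)] :
    (if cg D z ρ then (1 : ℂ) else 0) = (1 / (D : ℂ) ^ 2) * ∑ a ∈ range D, ∑ b ∈ range D,
      ee (-((a : ℝ) / D * ρ.re + (b : ℝ) / D * ρ.im)) *
        ee ((a : ℝ) / D * z.re + (b : ℝ) / D * z.im) := by
  have hD0 : (D : ℂ) ≠ 0 := by exact_mod_cast hD.ne'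
  have h1 : ∑ a ∈ range D, ∑ b ∈ range D,
      ee (-((a : ℝ) / D * ρ.re + (b : ℝ) / D * ρ.im)) *
        ee ((a : ℝ) / D * z.re + (b : ℝ) / D * z.im) =
      (∑ a ∈ range D, ee ((a : ℝ) * (((z.re - ρ.re : ℤ) : ℝ) / D))) *
      (∑ b ∈ range D, ee ((b : ℝ) * (((z.im - ρ.im : ℤ) : ℝ) / D))) := by
    rw [Finset.sum_mul_sum]
    apply Finset.sum_congr rfl
    intro a _
    apply Finset.sum_congr rfl
    intro b _
    rw [← StP_ee_add, ← StP_ee_add]
    congr 1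
    push_cast
    ring
  rw [h1, StP_orth D hD, StP_orth D hD]
  by_cases h2 : (D : ℤ) ∣ z.re - ρ.re
  · by_cases h3 : (D : ℤ) ∣ z.im - ρ.im
    · have h5 : cg D z ρ := ⟨h2, h3⟩
      rw [if_pos h2, if_pos h3, if_pos h5]
      field_simp
    · have h5 : ¬ cg D z ρ := fun h => h3 h.2
      rw [if_pos h2, if_neg h3, if_neg h5]
      simp
  · have h5 : ¬ cg D z ρ := fun h => h2 h.1
    rw [if_neg h2, if_neg h5]
    simp

theorem StP_annulus (C : ℝ) : ∃ c R0 : ℝ, 0 < c ∧ 1 ≤ R0 ∧ ∀ D : ℕ, 0 < D → ∀ ρ : GI,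
    ∀ R : ℝ, R0 ≤ R → ∀ κ : ℤ,
    R ^ (1 / 2 : ℝ) ≤ |(κ : ℝ)| → |(κ : ℝ)| ≤ R ^ C → open Classical in
    ‖∑ z ∈ (ann (R ^ 2 / 4) (R ^ 2)).filter (fun z => cg D z ρ), uu z ^ κ‖ ≤ R ^ (2 - c) := by
  classical
  obtain ⟨c, R0, hc, hR0, h⟩ := annulus_tw C
  refine ⟨c, R0, hc, hR0, ?_⟩
  intro D hD ρ R hR κ h1 h2
  have hDr : (0 : ℝ) < D := by exact_mod_cast hD
  have e1 : ∑ z ∈ (ann (R ^ 2 / 4) (R ^ 2)).filter (fun z => cg D z ρ), uu z ^ κ =
      (1 / (D : ℂ) ^ 2) * ∑ a ∈ range D, ∑ b ∈ range D,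
        ee (-((a : ℝ) / D * ρ.re + (b : ℝ) / D * ρ.im)) *
          ∑ z ∈ ann (R ^ 2 / 4) (R ^ 2), ee ((a : ℝ) / D * z.re + (b : ℝ) / D * z.im) * uu z ^ κ := by
    rw [Finset.sum_filter]
    have e2 : ∀ z ∈ ann (R ^ 2 / 4) (R ^ 2), (if cg D z ρ then uu z ^ κ else 0) =
        (1 / (D : ℂ) ^ 2) * ∑ a ∈ range D, ∑ b ∈ range D,
          ee (-((a : ℝ) / D * ρ.re + (b : ℝ) / D * ρ.im)) *
            (ee ((a : ℝ) / D * z.re + (b : ℝ) / D * z.im) * uu z ^ κ) := by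
      intro z _
      have e3 : (if cg D z ρ then uu z ^ κ else 0) = (if cg D z ρ then (1 : ℂ) else 0) * uu z ^ κ := by
        split_ifs <;> simp
      rw [e3, StP_ind D hD z ρ, mul_assoc, Finset.sum_mul]
      congr 1
      apply Finset.sum_congr rfl
      intro a _
      rw [Finset.sum_mul]
      apply Finset.sum_congr rfl
      intro b _
      rw [mul_assoc]
    rw [Finset.sum_congr rfl e2, ← Finset.mul_sum]
    congr 1
    rw [Finset.sum_comm]
    apply Finset.sum_congr rfl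
    intro a _
    rw [Finset.sum_comm]
    apply Finset.sum_congr rfl
    intro b _
    rw [Finset.mul_sum]
  rw [e1, norm_mul]
  have e4 : ‖(1 / (D : ℂ) ^ 2)‖ = 1 / (D : ℝ) ^ 2 := by
    rw [norm_div, norm_one, norm_pow, Complex.norm_natCast]
  rw [e4]
  have e5 : ‖∑ a ∈ range D, ∑ b ∈ range D,
        ee (-((a : ℝ) / D * ρ.re + (b : ℝ) / D * ρ.im)) *
          ∑ z ∈ ann (R ^ 2 / 4) (R ^ 2), ee ((a : ℝ) / D * z.re + (b : ℝ) / D * z.im) * uu z ^ κ‖ ≤
      ∑ a ∈ range D, ∑ b ∈ range D, R ^ (2 - c) := by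
    refine (norm_sum_le _ _).trans (Finset.sum_le_sum fun a _ => ?_)
    refine (norm_sum_le _ _).trans (Finset.sum_le_sum fun b _ => ?_)
    rw [norm_mul, StP_norm_ee, one_mul]
    exact h R hR κ h1 h2 _ _
  have e6 : ∑ a ∈ range D, ∑ b ∈ range D, R ^ (2 - c) = (D : ℝ) ^ 2 * R ^ (2 - c) := by
    simp only [Finset.sum_const, Finset.card_range, nsmul_eq_mul]
    ring
  rw [e6] at e5
  calc 1 / (D : ℝ) ^ 2 * _ ≤ 1 / (D : ℝ) ^ 2 * ((D : ℝ) ^ 2 * R ^ (2 - c)) := by gcongr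
    _ = R ^ (2 - c) := by field_simp

theorem StP_cls (D : ℕ) (h4 : 4 ∣ D) (hD : 0 < D) (C : ℝ) : ∃ c K : ℝ, 0 < c ∧ c ≤ 1 / 4 ∧ 0 < K ∧
    ∀ ρ : GI, Od ρ → ∀ Y : ℝ, 1 ≤ Y → ∀ κ : ℤ, κ ≠ 0 →
    |(κ : ℝ)| ≤ Y ^ C → open Classical in
    ‖∑ z ∈ (ann 0 Y).filter (fun z => cg D z ρ), uu z ^ κ‖ ≤ K * Y ^ (1 - c) := by
  classical
  obtain ⟨c0, R0, hc0, hR0, hann⟩ := StP_annulus (4 * |C|)
  obtain ⟨K0, hK0, hsmall⟩ := count_cls D h4 hD
  set c1 : ℝ := min c0 (1 / 2) with hc1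
  have hc1pos : 0 < c1 := lt_min hc0 (by norm_num)
  have hc1le : c1 ≤ 1 / 2 := min_le_right _ _
  have hc1c0 : c1 ≤ c0 := min_le_left _ _
  refine ⟨c1 / 2, 2 * K0 + 4 * R0 ^ 4 + 6, by linarith, by linarith, by positivity, ?_⟩
  intro ρ hρ Y hY κ hκ hκC
  have hY0 : 0 < Y := by linarith
  have htriv : ∀ y : ℝ, 0 ≤ y → ‖∑ z ∈ (ann 0 y).filter (fun z => cg D z ρ), uu z ^ κ‖ ≤ 4 * y := by
    intro y hy
    calc ‖∑ z ∈ (ann 0 y).filter (fun z => cg D z ρ), uu z ^ κ‖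
        ≤ ∑ z ∈ (ann 0 y).filter (fun z => cg D z ρ), ‖uu z ^ κ‖ := norm_sum_le _ _
      _ ≤ ∑ z ∈ (ann 0 y).filter (fun z => cg D z ρ), (1 : ℝ) :=
          Finset.sum_le_sum (fun z _ => norm_uu_zpow_le z κ)
      _ = (((ann 0 y).filter (fun z => cg D z ρ)).card : ℝ) := by simp
      _ ≤ ((ann 0 y).card : ℝ) := by exact_mod_cast Finset.card_filter_le _ _
      _ ≤ 4 * y := card_ann_le 0 hy
  have hYp1 : (1 : ℝ) ≤ Y ^ (1 - c1 / 2) := Real.one_le_rpow hY (by linarith)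
  have hκ1 : (1 : ℝ) ≤ |(κ : ℝ)| := by
    have : (1 : ℤ) ≤ |κ| := Int.one_le_abs hκ
    exact_mod_cast this
  by_cases hsm : |(κ : ℝ)| ≤ Y ^ (1 / 4 : ℝ)
  · have h1 := hsmall ρ hρ κ Y hY0.le
    rw [if_neg hκ, sub_zero] at h1
    have h2 : Y ^ (1 / 4 : ℝ) * √Y ≤ Y ^ (1 - c1 / 2) := by
      rw [Real.sqrt_eq_rpow, ← Real.rpow_add hY0]
      exact Real.rpow_le_rpow_of_exponent_le hY (by linarith)
    have h3 : K0 * (1 + |(κ : ℝ)|) * √Y ≤ 2 * K0 * (Y ^ (1 / 4 : ℝ) * √Y) := by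
      have h4 : 1 + |(κ : ℝ)| ≤ 2 * Y ^ (1 / 4 : ℝ) := by linarith
      calc K0 * (1 + |(κ : ℝ)|) * √Y ≤ K0 * (2 * Y ^ (1 / 4 : ℝ)) * √Y := by gcongr
        _ = 2 * K0 * (Y ^ (1 / 4 : ℝ) * √Y) := by ring
    calc ‖∑ z ∈ (ann 0 Y).filter (fun z => cg D z ρ), uu z ^ κ‖ ≤ K0 * (1 + |(κ : ℝ)|) * √Y := h1
      _ ≤ 2 * K0 * (Y ^ (1 / 4 : ℝ) * √Y) := h3
      _ ≤ 2 * K0 * Y ^ (1 - c1 / 2) := by gcongr
      _ ≤ (2 * K0 + 4 * R0 ^ 4 + 6) * Y ^ (1 - c1 / 2) := by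
          apply mul_le_mul_of_nonneg_right _ (by positivity)
          have : 0 < R0 ^ 4 := by positivity
          linarith
  · push Not at hsm
    rcases lt_or_ge Y (R0 ^ 4) with hYs | hYb
    · calc ‖∑ z ∈ (ann 0 Y).filter (fun z => cg D z ρ), uu z ^ κ‖ ≤ 4 * Y := htriv Y hY0.le
        _ ≤ 4 * R0 ^ 4 := by linarith
        _ ≤ (4 * R0 ^ 4) * Y ^ (1 - c1 / 2) := by
            have : 0 < R0 ^ 4 := by positivity
            nlinarith
        _ ≤ (2 * K0 + 4 * R0 ^ 4 + 6) * Y ^ (1 - c1 / 2) := by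
            apply mul_le_mul_of_nonneg_right _ (by positivity)
            linarith
    · set T : ℝ := Y ^ (1 / 4 : ℝ) with hT
      have hTR : R0 ≤ T := by
        rw [hT]
        have : R0 = (R0 ^ 4) ^ (1 / 4 : ℝ) := by
          rw [← Real.rpow_natCast, ← Real.rpow_mul (by linarith)]
          norm_num
        rw [this]
        apply Real.rpow_le_rpow (by positivity) hYb (by norm_num)
      have hT1 : 1 ≤ T := hR0.trans hTR
      have hT2 : T ^ 2 = √Y := by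
        rw [hT, Real.sqrt_eq_rpow, ← Real.rpow_natCast, ← Real.rpow_mul hY0.le]
        norm_num
      -- induction
      have key : ∀ n : ℕ, ∀ R : ℝ, 0 < R → R ≤ √Y → R < 2 ^ n * T →
          ‖∑ z ∈ (ann 0 (R ^ 2)).filter (fun z => cg D z ρ), uu z ^ κ‖ ≤
            4 * √Y + 2 * R ^ (2 - c1) := by
        intro n
        induction n with
        | zero =>
          intro R hR0' hRY hRn
          rw [pow_zero, one_mul] at hRn
          have h1 := htriv (R ^ 2) (by positivity)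
          have h2 : R ^ 2 ≤ T ^ 2 := by gcongr
          rw [hT2] at h2
          have h3 : 0 ≤ R ^ (2 - c1) := by positivity
          linarith
        | succ n ih =>
          intro R hR0' hRY hRn
          rcases lt_or_ge R T with hRT | hRT
          · have h1 := htriv (R ^ 2) (by positivity)
            have h2 : R ^ 2 ≤ T ^ 2 := by gcongr
            rw [hT2] at h2
            have h3 : 0 ≤ R ^ (2 - c1) := by positivity
            linarith
          · have h1 := ih (R / 2) (by linarith) (by linarith) (by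
              rw [pow_succ] at hRn
              linarith)
            have hR1 : 1 ≤ R := hT1.trans hRT
            have e1 : (R / 2) ^ 2 = R ^ 2 / 4 := by ring
            rw [e1] at h1
            have hd : ∑ z ∈ (ann 0 (R ^ 2)).filter (fun z => cg D z ρ), uu z ^ κ =
                ∑ z ∈ (ann 0 (R ^ 2 / 4)).filter (fun z => cg D z ρ), uu z ^ κ +
                ∑ z ∈ (ann (R ^ 2 / 4) (R ^ 2)).filter (fun z => cg D z ρ), uu z ^ κ := by
              rw [← Finset.sum_union]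
              · congr 1
                ext z
                rw [Finset.mem_union, Finset.mem_filter, Finset.mem_filter, Finset.mem_filter,
                  mem_ann, mem_ann, mem_ann]
                have hR2 : 0 < R ^ 2 := by positivity
                constructor
                · rintro ⟨⟨g1, g2, g3⟩, g5⟩
                  rcases le_or_gt (nm z : ℝ) (R ^ 2 / 4) with g4 | g4
                  · exact Or.inl ⟨⟨g1, g2, g4⟩, g5⟩
                  · exact Or.inr ⟨⟨g1, g4, g3⟩, g5⟩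
                · rintro (⟨⟨g1, g2, g3⟩, g5⟩ | ⟨⟨g1, g2, g3⟩, g5⟩)
                  · exact ⟨⟨g1, g2, by linarith⟩, g5⟩
                  · exact ⟨⟨g1, by linarith, g3⟩, g5⟩
              · rw [Finset.disjoint_left]
                intro z g1 g2
                rw [Finset.mem_filter, mem_ann] at g1 g2
                linarith [g1.1.2.2, g2.1.2.1]
            have h2 := hann D hD ρ R (hTR.trans hRT) κ (by
              have : R ^ (1 / 2 : ℝ) ≤ (√Y) ^ (1 / 2 : ℝ) :=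
                Real.rpow_le_rpow hR0'.le hRY (by norm_num)
              have e2 : (√Y) ^ (1 / 2 : ℝ) = T := by
                rw [hT, Real.sqrt_eq_rpow, ← Real.rpow_mul hY0.le]
                norm_num
              rw [e2] at this
              linarith) (by
              have g1 : Y ^ C ≤ Y ^ |C| := Real.rpow_le_rpow_of_exponent_le hY (le_abs_self C)
              have g2 : Y ^ |C| = T ^ (4 * |C|) := by
                rw [hT, ← Real.rpow_mul hY0.le]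
                congr 1
                ring
              have g3 : T ^ (4 * |C|) ≤ R ^ (4 * |C|) :=
                Real.rpow_le_rpow (by linarith) hRT (by positivity)
              linarith)
            have h3 : R ^ (2 - c0) ≤ R ^ (2 - c1) :=
              Real.rpow_le_rpow_of_exponent_le hR1 (by linarith)
            have h4 : (R / 2) ^ (2 - c1) ≤ R ^ (2 - c1) / 2 := by
              rw [Real.div_rpow hR0'.le (by norm_num)]
              have g1 : (2 : ℝ) ^ (1 : ℝ) ≤ 2 ^ (2 - c1) :=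
                Real.rpow_le_rpow_of_exponent_le (by norm_num) (by linarith)
              rw [Real.rpow_one] at g1
              exact div_le_div_of_nonneg_left (by positivity) (by norm_num) g1
            rw [hd]
            calc ‖∑ z ∈ (ann 0 (R ^ 2 / 4)).filter (fun z => cg D z ρ), uu z ^ κ +
                  ∑ z ∈ (ann (R ^ 2 / 4) (R ^ 2)).filter (fun z => cg D z ρ), uu z ^ κ‖
                ≤ ‖∑ z ∈ (ann 0 (R ^ 2 / 4)).filter (fun z => cg D z ρ), uu z ^ κ‖ +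
                  ‖∑ z ∈ (ann (R ^ 2 / 4) (R ^ 2)).filter (fun z => cg D z ρ), uu z ^ κ‖ :=
                  norm_add_le _ _
              _ ≤ (4 * √Y + 2 * (R / 2) ^ (2 - c1)) + R ^ (2 - c0) := add_le_add h1 h2
              _ ≤ 4 * √Y + 2 * R ^ (2 - c1) := by linarith
      obtain ⟨n, hn⟩ : ∃ n : ℕ, √Y < 2 ^ n * T := by
        obtain ⟨n, hn⟩ := pow_unbounded_of_one_lt (√Y) (by norm_num : (1 : ℝ) < 2)
        refine ⟨n, ?_⟩
        have : (2 : ℝ) ^ n ≤ 2 ^ n * T := by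
          have : (0 : ℝ) < 2 ^ n := by positivity
          nlinarith
        linarith
      have hfin := key n (√Y) (Real.sqrt_pos.mpr hY0) le_rfl hn
      rw [Real.sq_sqrt hY0.le] at hfin
      have e1 : (√Y) ^ (2 - c1) = Y ^ (1 - c1 / 2) := by
        rw [Real.sqrt_eq_rpow, ← Real.rpow_mul hY0.le]
        congr 1
        ring
      have e2 : √Y ≤ Y ^ (1 - c1 / 2) := by
        rw [Real.sqrt_eq_rpow]
        exact Real.rpow_le_rpow_of_exponent_le hY (by linarith)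
      rw [e1] at hfin
      calc ‖∑ z ∈ (ann 0 Y).filter (fun z => cg D z ρ), uu z ^ κ‖
          ≤ 4 * √Y + 2 * Y ^ (1 - c1 / 2) := hfin
        _ ≤ 6 * Y ^ (1 - c1 / 2) := by linarith
        _ ≤ (2 * K0 + 4 * R0 ^ 4 + 6) * Y ^ (1 - c1 / 2) := by
            apply mul_le_mul_of_nonneg_right _ (by positivity)
            have : 0 < R0 ^ 4 := by positivity
            linarith

/-- reduction mod `D` -/
def StP_red (D : ℕ) (z : GI) : GI := ⟨z.re % D, z.im % D⟩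

theorem StP_red_cls {D : ℕ} (hD : 0 < D) (z : GI) : StP_red D z ∈ cls D := by
  have hD' : (0 : ℤ) < D := by exact_mod_cast hD
  rw [mem_cls]
  exact ⟨⟨Int.emod_nonneg _ hD'.ne', Int.emod_lt_of_pos _ hD'⟩,
    Int.emod_nonneg _ hD'.ne', Int.emod_lt_of_pos _ hD'⟩

theorem StP_cg_red (D : ℕ) (z : GI) : cg D z (StP_red D z) := by
  constructor
  · exact Int.dvd_self_sub_of_emod_eq rfl
  · exact Int.dvd_self_sub_of_emod_eq rfl

theorem StP_cg_Od {D : ℕ} (h4 : 4 ∣ D) {z w : GI} (h : cg D z w) (hz : Od z) : Od w := by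
  obtain ⟨k, rfl⟩ := h4
  obtain ⟨⟨a, ha⟩, ⟨b, hb⟩⟩ := h
  obtain ⟨h1, h2⟩ := hz
  push_cast at ha hb
  constructor
  · have : z.re - w.re = 4 * ((k : ℤ) * a) := by rw [ha]; ring
    omega
  · have : z.im - w.im = 4 * ((k : ℤ) * b) := by rw [hb]; ring
    omega

theorem StP_cg_symm {D : ℕ} {z w : GI} (h : cg D z w) : cg D w z := by
  obtain ⟨⟨a, ha⟩, ⟨b, hb⟩⟩ := h
  exact ⟨⟨-a, by linarith⟩, ⟨-b, by linarith⟩⟩

theorem StP_cg_trans {D : ℕ} {z w x : GI} (h : cg D z w) (h' : cg D w x) : cg D z x := by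
  obtain ⟨⟨a, ha⟩, ⟨b, hb⟩⟩ := h
  obtain ⟨⟨a', ha'⟩, ⟨b', hb'⟩⟩ := h'
  exact ⟨⟨a + a', by linarith⟩, ⟨b + b', by linarith⟩⟩

theorem StP_cls_unique {D : ℕ} {z w : GI} (hz : z ∈ cls D) (hw : w ∈ cls D) (h : cg D z w) :
    z = w := by
  rw [mem_cls] at hz hw
  obtain ⟨⟨a, ha⟩, ⟨b, hb⟩⟩ := h
  have key : ∀ x y c : ℤ, 0 ≤ x → x < D → 0 ≤ y → y < D → x - y = D * c → x = y := by
    intro x y c h1 h2 h3 h4 h5
    have h6 : c = 0 := by
      by_contra hc
      rcases lt_or_gt_of_ne hc with hc | hc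
      · nlinarith
      · nlinarith
    rw [h6, mul_zero] at h5
    linarith
  apply Zsqrtd.ext
  · exact key _ _ a hz.1.1 hz.1.2 hw.1.1 hw.1.2 ha
  · exact key _ _ b hz.2.1 hz.2.2 hw.2.1 hw.2.2 hb

/-- sum over the classes -/
theorem StP_classes {D : ℕ} (h4 : 4 ∣ D) (hD : 0 < D) {ψ : GI → ℂ} (hψ : HC D ψ) (Y : ℝ) (κ : ℤ) :
    open Classical in
    ∑ z ∈ ann 0 Y, ψ z * uu z ^ κ = ∑ ρ ∈ (cls D).filter Od, ψ ρ *
      ∑ z ∈ (ann 0 Y).filter (fun z => cg D z ρ), uu z ^ κ := by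
  classical
  have h1 : ∑ z ∈ ann 0 Y, ψ z * uu z ^ κ = ∑ ρ ∈ (cls D).filter Od,
      ∑ z ∈ (ann 0 Y).filter (fun z => StP_red D z = ρ), ψ z * uu z ^ κ := by
    symm
    apply Finset.sum_fiberwise_of_maps_to
    intro z hz
    rw [mem_ann] at hz
    rw [Finset.mem_filter]
    exact ⟨StP_red_cls hD z, StP_cg_Od h4 (StP_cg_red D z) hz.1⟩
  rw [h1]
  apply Finset.sum_congr rfl
  intro ρ hρ
  rw [Finset.mem_filter] at hρ
  rw [Finset.mul_sum]
  have h2 : (ann 0 Y).filter (fun z => StP_red D z = ρ) = (ann 0 Y).filter (fun z => cg D z ρ) := by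
    apply Finset.filter_congr
    intro z _
    constructor
    · rintro rfl
      exact StP_cg_red D z
    · intro h
      exact StP_cls_unique (StP_red_cls hD z) hρ.1 (StP_cg_trans (StP_cg_symm (StP_cg_red D z)) h)
  rw [h2]
  apply Finset.sum_congr rfl
  intro z hz
  rw [Finset.mem_filter, mem_ann] at hz
  rw [hψ.per z ρ hz.1.1 hρ.2 hz.2]

theorem StP_cg_mul {D : ℕ} (x : GI) {z w : GI} (h : cg D z w) : cg D (x * z) (x * w) := by
  obtain ⟨⟨a, ha⟩, ⟨b, hb⟩⟩ := h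
  have e1 : (x * z).re - (x * w).re = x.re * (z.re - w.re) - x.im * (z.im - w.im) := by
    simp only [Zsqrtd.re_mul]
    ring
  have e2 : (x * z).im - (x * w).im = x.re * (z.im - w.im) + x.im * (z.re - w.re) := by
    simp only [Zsqrtd.im_mul]
    ring
  constructor
  · rw [e1, ha, hb]
    exact ⟨x.re * a - x.im * b, by ring⟩
  · rw [e2, ha, hb]
    exact ⟨x.re * b + x.im * a, by ring⟩

theorem StP_cg_cancel {D : ℕ} {x z w : GI} (hx : Nat.Coprime (nm x) D)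
    (h : cg D (x * z) (x * w)) : cg D z w := by
  have h1 := StP_cg_mul (star x) h
  have e : ∀ y : GI, star x * (x * y) = (nm x : GI) * y := by
    intro y
    rw [← mul_assoc, mul_comm (star x) x, BAS_mul_star]
  rw [e, e] at h1
  obtain ⟨h2, h3⟩ := h1
  have hc : IsCoprime (D : ℤ) (nm x : ℤ) := by
    rw [Nat.isCoprime_iff_coprime]
    exact hx.symm
  have e1 : ((nm x : GI) * z).re - ((nm x : GI) * w).re = (nm x : ℤ) * (z.re - w.re) := by
    simp
    ring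
  have e2 : ((nm x : GI) * z).im - ((nm x : GI) * w).im = (nm x : ℤ) * (z.im - w.im) := by
    simp
    ring
  rw [e1] at h2
  rw [e2] at h3
  exact ⟨hc.dvd_of_dvd_mul_left h2, hc.dvd_of_dvd_mul_left h3⟩

/-- orthogonality -/
theorem StP_zero {D : ℕ} (h4 : 4 ∣ D) (hD : 0 < D) {ψ : GI → ℂ} (hψ : HC D ψ)
    (h : ∃ z : GI, Od z ∧ Nat.Coprime (nm z) D ∧ ψ z ≠ 1) :
    open Classical in ∑ ρ ∈ (cls D).filter Od, ψ ρ = 0 := by
  classical
  obtain ⟨x, hx1, hx2, hx3⟩ := h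
  have hmap : ∀ ρ ∈ (cls D).filter Od, StP_red D (x * ρ) ∈ (cls D).filter Od := by
    intro ρ hρ
    rw [Finset.mem_filter] at hρ ⊢
    exact ⟨StP_red_cls hD _, StP_cg_Od h4 (StP_cg_red D _) (Od_mul hx1 hρ.2)⟩
  have hinj : ∀ ρ ∈ (cls D).filter Od, ∀ σ ∈ (cls D).filter Od,
      StP_red D (x * ρ) = StP_red D (x * σ) → ρ = σ := by
    intro ρ hρ σ hσ hρσ
    rw [Finset.mem_filter] at hρ hσ
    have h1 : cg D (x * ρ) (x * σ) := by
      have h2 := StP_cg_red D (x * ρ)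
      rw [hρσ] at h2
      exact StP_cg_trans h2 (StP_cg_symm (StP_cg_red D (x * σ)))
    exact StP_cls_unique hρ.1 hσ.1 (StP_cg_cancel hx2 h1)
  have h1 : ∑ ρ ∈ (cls D).filter Od, ψ (StP_red D (x * ρ)) = ∑ ρ ∈ (cls D).filter Od, ψ ρ := by
    apply Finset.sum_nbij (fun ρ => StP_red D (x * ρ))
    · exact hmap
    · intro ρ hρ σ hσ h
      exact hinj ρ hρ σ hσ h
    · exact Finset.surjOn_of_injOn_of_card_le _ hmap (fun ρ hρ σ hσ h => hinj ρ hρ σ hσ h) le_rfl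
    · intro ρ _
      rfl
  have h2 : ∑ ρ ∈ (cls D).filter Od, ψ (StP_red D (x * ρ)) =
      ψ x * ∑ ρ ∈ (cls D).filter Od, ψ ρ := by
    rw [Finset.mul_sum]
    apply Finset.sum_congr rfl
    intro ρ hρ
    rw [Finset.mem_filter] at hρ
    have h3 := StP_cg_red D (x * ρ)
    have h5 := Od_mul hx1 hρ.2
    rw [← hψ.per _ _ h5 (StP_cg_Od h4 h3 h5) h3, hψ.mul x ρ hx1 hρ.2]
  rw [h2] at h1
  have h3 : (ψ x - 1) * ∑ ρ ∈ (cls D).filter Od, ψ ρ = 0 := by
    rw [sub_mul, one_mul, h1, sub_self]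
  rcases mul_eq_zero.mp h3 with h4 | h4
  · exact absurd (sub_eq_zero.mp h4) hx3
  · exact h4

theorem StP_card {D : ℕ} : open Classical in (((cls D).filter Od).card : ℝ) ≤ (D : ℝ) ^ 2 := by
  classical
  have h1 : ((cls D).filter Od).card ≤ D * D := by
    calc ((cls D).filter Od).card ≤ (cls D).card := Finset.card_filter_le _ _
      _ ≤ (range D ×ˢ range D).card := Finset.card_image_le
      _ = D * D := by rw [Finset.card_product, Finset.card_range]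
  have h2 : (((cls D).filter Od).card : ℝ) ≤ ((D * D : ℕ) : ℝ) := by exact_mod_cast h1
  push_cast at h2
  nlinarith

theorem StP_all (D : ℕ) (h4 : 4 ∣ D) (hD : 0 < D) (C : ℝ) : ∃ c K : ℝ, 0 < c ∧ c ≤ 1 / 4 ∧ 0 < K ∧
    ∀ ψ : GI → ℂ, HC D ψ → ∀ Y : ℝ, 1 ≤ Y → ∀ κ : ℤ, |(κ : ℝ)| ≤ Y ^ C →
    (κ ≠ 0 ∨ ∃ z : GI, Od z ∧ Nat.Coprime (nm z) D ∧ ψ z ≠ 1) →
    ‖∑ z ∈ ann 0 Y, ψ z * uu z ^ κ‖ ≤ K * Y ^ (1 - c) := by
  classical
  obtain ⟨c, K, hc, hc4, hK, h⟩ := StP_cls D h4 hD C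
  obtain ⟨K0, hK0, hcount⟩ := count_cls D h4 hD
  have hDr : (0 : ℝ) < D := by exact_mod_cast hD
  refine ⟨c, (D : ℝ) ^ 2 * (K + K0), hc, hc4, by positivity, ?_⟩
  intro ψ hψ Y hY κ hκC hor
  have hY0 : 0 < Y := by linarith
  rw [StP_classes h4 hD hψ Y κ]
  by_cases hκ : κ = 0
  · subst hκ
    rcases hor with hor | hor
    · exact absurd rfl hor
    have hz := StP_zero h4 hD hψ hor
    have e1 : ∑ ρ ∈ (cls D).filter Od, ψ ρ *
        ∑ z ∈ (ann 0 Y).filter (fun z => cg D z ρ), uu z ^ (0 : ℤ) =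
        ∑ ρ ∈ (cls D).filter Od, ψ ρ *
        (∑ z ∈ (ann 0 Y).filter (fun z => cg D z ρ), uu z ^ (0 : ℤ) -
          ((Real.pi / (D : ℝ) ^ 2 * Y : ℝ) : ℂ)) := by
      simp only [mul_sub]
      rw [Finset.sum_sub_distrib, ← Finset.sum_mul, hz, zero_mul, sub_zero]
    rw [e1]
    calc ‖∑ ρ ∈ (cls D).filter Od, ψ ρ *
        (∑ z ∈ (ann 0 Y).filter (fun z => cg D z ρ), uu z ^ (0 : ℤ) -
          ((Real.pi / (D : ℝ) ^ 2 * Y : ℝ) : ℂ))‖
        ≤ ∑ ρ ∈ (cls D).filter Od, K0 * √Y := by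
          refine (norm_sum_le _ _).trans (Finset.sum_le_sum fun ρ hρ => ?_)
          rw [Finset.mem_filter] at hρ
          rw [norm_mul]
          have h1 := hcount ρ hρ.2 0 Y hY0.le
          rw [if_pos rfl] at h1
          simp only [Int.cast_zero, abs_zero, add_zero, mul_one] at h1
          calc ‖ψ ρ‖ * _ ≤ 1 * (K0 * √Y) := by
                apply mul_le_mul (hψ.le ρ) h1 (norm_nonneg _) zero_le_one
            _ = K0 * √Y := one_mul _
      _ = (((cls D).filter Od).card : ℝ) * (K0 * √Y) := by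
          rw [Finset.sum_const, nsmul_eq_mul]
      _ ≤ (D : ℝ) ^ 2 * (K0 * √Y) := by
          have := StP_card (D := D)
          gcongr
      _ ≤ (D : ℝ) ^ 2 * (K0 * Y ^ (1 - c)) := by
          have : √Y ≤ Y ^ (1 - c) := by
            rw [Real.sqrt_eq_rpow]
            exact Real.rpow_le_rpow_of_exponent_le hY (by linarith)
          gcongr
      _ ≤ (D : ℝ) ^ 2 * (K + K0) * Y ^ (1 - c) := by
          have h5 : 0 < (D : ℝ) ^ 2 * Y ^ (1 - c) := by positivity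
          nlinarith
  · calc ‖∑ ρ ∈ (cls D).filter Od, ψ ρ *
        ∑ z ∈ (ann 0 Y).filter (fun z => cg D z ρ), uu z ^ κ‖
        ≤ ∑ ρ ∈ (cls D).filter Od, K * Y ^ (1 - c) := by
          refine (norm_sum_le _ _).trans (Finset.sum_le_sum fun ρ hρ => ?_)
          rw [Finset.mem_filter] at hρ
          rw [norm_mul]
          have h1 := h ρ hρ.2 Y hY κ hκ hκC
          calc ‖ψ ρ‖ * _ ≤ 1 * (K * Y ^ (1 - c)) := by
                apply mul_le_mul (hψ.le ρ) h1 (norm_nonneg _) zero_le_one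
            _ = K * Y ^ (1 - c) := one_mul _
      _ = (((cls D).filter Od).card : ℝ) * (K * Y ^ (1 - c)) := by
          rw [Finset.sum_const, nsmul_eq_mul]
      _ ≤ (D : ℝ) ^ 2 * (K * Y ^ (1 - c)) := by
          have := StP_card (D := D)
          gcongr
      _ ≤ (D : ℝ) ^ 2 * (K + K0) * Y ^ (1 - c) := by
          have h5 : 0 < (D : ℝ) ^ 2 * Y ^ (1 - c) := by positivity
          nlinarith

/-- Moebius inversion -/
theorem StP_moebius {D : ℕ} {ψ : GI → ℂ} (hψ : HC D ψ) (Y : ℝ) (κ : ℤ) :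
    ∑ z ∈ pan 0 Y, ψ z * uu z ^ κ = ∑ t ∈ (Icc 1 ⌊√Y⌋₊).filter (fun t => t % 2 = 1),
      ((ArithmeticFunction.moebius t : ℤ) : ℂ) *
        (ψ ((t : ℕ) : GI) * ∑ w ∈ ann 0 (Y / (t : ℝ) ^ 2), ψ w * uu w ^ κ) := by
  classical
  set O := (Icc 1 ⌊√Y⌋₊).filter (fun t => t % 2 = 1) with hO
  have h1 : ∀ t ∈ O, ψ ((t : ℕ) : GI) * ∑ w ∈ ann 0 (Y / (t : ℝ) ^ 2), ψ w * uu w ^ κ =
      ∑ z ∈ (ann 0 Y).filter (((t : ℕ) : GI) ∣ ·), ψ z * uu z ^ κ := by
    intro t ht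
    rw [hO, Finset.mem_filter, Finset.mem_Icc] at ht
    have hOd := LCT_Od_nat ht.2
    have hne := Od_ne hOd
    rw [LCT_mult_image 0 Y ((t : ℕ) : GI) hOd, Finset.sum_image, Finset.mul_sum, zero_div]
    · have : ((nm ((t : ℕ) : GI) : ℕ) : ℝ) = (t : ℝ) ^ 2 := by
        rw [LCT_nm_nat]; push_cast; ring
      rw [this]
      apply Finset.sum_congr rfl
      intro w hw
      rw [mem_ann] at hw
      rw [hψ.mul _ _ hOd hw.1, uu_mul_zpow, uu_natCast (by omega), one_zpow, one_mul, mul_assoc]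
    · intro x _ y _ hxy
      exact mul_left_cancel₀ hne hxy
  have h2 : ∑ t ∈ O, ((ArithmeticFunction.moebius t : ℤ) : ℂ) *
      (ψ ((t : ℕ) : GI) * ∑ w ∈ ann 0 (Y / (t : ℝ) ^ 2), ψ w * uu w ^ κ) =
      ∑ z ∈ ann 0 Y, ∑ t ∈ O, if ((t : ℕ) : GI) ∣ z then
        ((ArithmeticFunction.moebius t : ℤ) : ℂ) * (ψ z * uu z ^ κ) else 0 := by
    rw [Finset.sum_comm]
    apply Finset.sum_congr rfl
    intro t ht
    rw [h1 t ht, Finset.mul_sum, Finset.sum_filter]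
  rw [h2]
  have h3 : ∀ z ∈ ann 0 Y, (∑ t ∈ O, if ((t : ℕ) : GI) ∣ z then
        ((ArithmeticFunction.moebius t : ℤ) : ℂ) * (ψ z * uu z ^ κ) else 0) =
      if Pr z then ψ z * uu z ^ κ else 0 := by
    intro z hz
    have hz' := mem_ann.mp hz
    have hOd := hz'.1
    set g := Int.gcd z.re z.im with hg
    have hre : z.re ≠ 0 := by have := hOd.1; omega
    have hg0 : g ≠ 0 := by
      rw [hg]
      intro h0
      rw [Int.gcd_eq_zero_iff] at h0
      exact hre h0.1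
    have hodd : g % 2 = 1 := by
      by_contra hcon
      have h3 : g % 2 = 0 := by omega
      have h4 : (2 : ℤ) ∣ z.re := by
        refine dvd_trans ?_ (Int.gcd_dvd_left (a := z.re) (b := z.im))
        omega
      have := hOd.1
      omega
    have e1 : O.filter (fun t : ℕ => ((t : ℕ) : GI) ∣ z) = g.divisors := by
      ext t
      rw [Finset.mem_filter, hO, Finset.mem_filter, Finset.mem_Icc, Nat.mem_divisors,
        STW_nat_dvd hOd]
      constructor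
      · rintro ⟨_, h⟩
        exact ⟨h, hg0⟩
      · rintro ⟨h, _⟩
        have ht0 : 0 < t := Nat.pos_of_dvd_of_pos h (Nat.pos_of_ne_zero hg0)
        have htodd : t % 2 = 1 := by
          by_contra hcon
          have h5 : 2 ∣ t := by omega
          have h6 : 2 ∣ g := h5.trans h
          omega
        refine ⟨⟨⟨ht0, ?_⟩, htodd⟩, h⟩
        apply Nat.le_floor
        apply Real.le_sqrt_of_sq_le
        have hdvd : ((t : ℕ) : GI) ∣ z := (STW_nat_dvd hOd t).mpr h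
        have h7 : nm ((t : ℕ) : GI) ≤ nm z := by
          obtain ⟨w, hw⟩ := hdvd
          rw [hw, nm_mul]
          have : 0 < nm w := by
            apply nm_pos
            rintro rfl
            apply Od_ne hOd
            rw [hw, mul_zero]
          exact Nat.le_mul_of_pos_right _ this
        rw [LCT_nm_nat] at h7
        calc ((t : ℕ) : ℝ) ^ 2 ≤ (nm z : ℝ) := by exact_mod_cast h7
          _ ≤ Y := hz'.2.2
    rw [← Finset.sum_filter, e1, ← Finset.sum_mul]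
    have e2 : ∑ t ∈ g.divisors, ((ArithmeticFunction.moebius t : ℤ) : ℂ) =
        if g = 1 then 1 else 0 := by
      have h5 : ((ArithmeticFunction.moebius : ArithmeticFunction ℤ) *
          (ArithmeticFunction.zeta : ArithmeticFunction ℤ)) g =
          ∑ i ∈ g.divisors, ArithmeticFunction.moebius i :=
        ArithmeticFunction.coe_mul_zeta_apply
      rw [ArithmeticFunction.moebius_mul_coe_zeta, ArithmeticFunction.one_apply] at h5
      have h6 : ((∑ i ∈ g.divisors, ArithmeticFunction.moebius i : ℤ) : ℂ) =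
          if g = 1 then 1 else 0 := by
        rw [← h5]
        split_ifs <;> simp
      rw [← h6]
      push_cast
      rfl
    rw [e2]
    by_cases hg1 : g = 1
    · have : Pr z := hg1
      rw [if_pos hg1, if_pos this, one_mul]
    · have : ¬ Pr z := hg1
      rw [if_neg hg1, if_neg this, zero_mul]
  rw [Finset.sum_congr rfl h3, ← Finset.sum_filter]
  apply Finset.sum_congr _ (fun _ _ => rfl)
  ext z
  rw [mem_pan, Finset.mem_filter, mem_ann]
  tauto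

theorem st_psi (D : ℕ) (h4 : 4 ∣ D) (hD : 0 < D) (C : ℝ) : ∃ c K : ℝ, 0 < c ∧ c ≤ 1 / 4 ∧ 0 < K ∧
    ∀ ψ : GI → ℂ, HC D ψ → ∀ Y : ℝ, 1 ≤ Y → ∀ κ : ℤ, |(κ : ℝ)| ≤ Y ^ C →
    (κ ≠ 0 ∨ ∃ z : GI, Od z ∧ Nat.Coprime (nm z) D ∧ ψ z ≠ 1) →
    ‖∑ z ∈ pan 0 Y, ψ z * uu z ^ κ‖ ≤ K * Y ^ (1 - c) := by
  classical
  obtain ⟨c0, K0, hc0, hc04, hK0, hall⟩ := StP_all D h4 hD (2 * |C|)
  set c : ℝ := min c0 (1 / 8) with hc
  have hcpos : 0 < c := lt_min hc0 (by norm_num)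
  have hc8 : c ≤ 1 / 8 := min_le_right _ _
  have hcc0 : c ≤ c0 := min_le_left _ _
  have hsumm : Summable (fun n : ℕ => ((n : ℝ) ^ (3 / 2 : ℝ))⁻¹) :=
    Real.summable_nat_rpow_inv.mpr (by norm_num)
  set S : ℝ := ∑' n : ℕ, ((n : ℝ) ^ (3 / 2 : ℝ))⁻¹ with hS
  have hS0 : 0 ≤ S := tsum_nonneg (fun n => by positivity)
  refine ⟨c, (K0 + 4) * (S + 1), hcpos, by linarith, by positivity, ?_⟩
  intro ψ hψ Y hY κ hκC hor
  have hY0 : 0 < Y := by linarith
  rw [StP_moebius hψ]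
  set O := (Icc 1 ⌊√Y⌋₊).filter (fun t => t % 2 = 1) with hO
  have hterm : ∀ t ∈ O, ‖((ArithmeticFunction.moebius t : ℤ) : ℂ) *
      (ψ ((t : ℕ) : GI) * ∑ w ∈ ann 0 (Y / (t : ℝ) ^ 2), ψ w * uu w ^ κ)‖ ≤
      (K0 + 4) * Y ^ (1 - c) * ((t : ℝ) ^ (3 / 2 : ℝ))⁻¹ := by
    intro t ht
    rw [hO, Finset.mem_filter, Finset.mem_Icc] at ht
    have ht1 : (1 : ℝ) ≤ t := by exact_mod_cast ht.1.1
    have ht0 : (0 : ℝ) < t := by linarith
    have htY : (t : ℝ) ^ 2 ≤ Y := by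
      have h1 : (t : ℝ) ≤ √Y := (Nat.le_floor_iff (Real.sqrt_nonneg _)).mp ht.1.2
      calc (t : ℝ) ^ 2 ≤ (√Y) ^ 2 := by gcongr
        _ = Y := Real.sq_sqrt hY0.le
    have hmu : ‖((ArithmeticFunction.moebius t : ℤ) : ℂ)‖ ≤ 1 := by
      rw [Complex.norm_intCast]
      have := ArithmeticFunction.abs_moebius_le_one (n := t)
      exact_mod_cast this
    rw [norm_mul, norm_mul]
    have hY1 : 1 ≤ Y / (t : ℝ) ^ 2 := by
      rw [le_div_iff₀ (by positivity)]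
      linarith
    have hmain : ‖∑ w ∈ ann 0 (Y / (t : ℝ) ^ 2), ψ w * uu w ^ κ‖ ≤
        (K0 + 4) * Y ^ (1 - c) * ((t : ℝ) ^ (3 / 2 : ℝ))⁻¹ := by
      rcases le_or_gt (t : ℝ) (Y ^ (1 / 4 : ℝ)) with hts | htb
      · have h1 := hall ψ hψ (Y / (t : ℝ) ^ 2) hY1 κ (by
          have g1 : Y ^ C ≤ Y ^ |C| := Real.rpow_le_rpow_of_exponent_le hY (le_abs_self C)
          have g2 : Y ^ (1 / 2 : ℝ) ≤ Y / (t : ℝ) ^ 2 := by
            rw [le_div_iff₀ (by positivity)]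
            have g3 : (t : ℝ) ^ 2 ≤ (Y ^ (1 / 4 : ℝ)) ^ 2 := by gcongr
            have g4 : (Y ^ (1 / 4 : ℝ)) ^ 2 = Y ^ (1 / 2 : ℝ) := by
              rw [← Real.rpow_natCast, ← Real.rpow_mul hY0.le]
              norm_num
            rw [g4] at g3
            have g5 : Y ^ (1 / 2 : ℝ) * Y ^ (1 / 2 : ℝ) = Y := by
              rw [← Real.rpow_add hY0]
              norm_num
            have g6 : 0 < Y ^ (1 / 2 : ℝ) := by positivity
            nlinarith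
          have g3 : Y ^ |C| = (Y ^ (1 / 2 : ℝ)) ^ (2 * |C|) := by
            rw [← Real.rpow_mul hY0.le]
            congr 1
            ring
          have g4 : (Y ^ (1 / 2 : ℝ)) ^ (2 * |C|) ≤ (Y / (t : ℝ) ^ 2) ^ (2 * |C|) :=
            Real.rpow_le_rpow (by positivity) g2 (by positivity)
          linarith) hor
        have h2 : (Y / (t : ℝ) ^ 2) ^ (1 - c0) ≤ Y ^ (1 - c) * ((t : ℝ) ^ (3 / 2 : ℝ))⁻¹ := by
          rw [Real.div_rpow hY0.le (by positivity), div_eq_mul_inv]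
          have g1 : Y ^ (1 - c0) ≤ Y ^ (1 - c) :=
            Real.rpow_le_rpow_of_exponent_le hY (by linarith)
          have g2 : (t : ℝ) ^ (3 / 2 : ℝ) ≤ ((t : ℝ) ^ 2) ^ (1 - c0) := by
            rw [← Real.rpow_natCast, ← Real.rpow_mul ht0.le]
            apply Real.rpow_le_rpow_of_exponent_le ht1
            push_cast
            linarith
          have g3 : (((t : ℝ) ^ 2) ^ (1 - c0))⁻¹ ≤ ((t : ℝ) ^ (3 / 2 : ℝ))⁻¹ :=
            inv_anti₀ (by positivity) g2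
          exact mul_le_mul g1 g3 (by positivity) (by positivity)
        calc ‖∑ w ∈ ann 0 (Y / (t : ℝ) ^ 2), ψ w * uu w ^ κ‖
            ≤ K0 * (Y / (t : ℝ) ^ 2) ^ (1 - c0) := h1
          _ ≤ K0 * (Y ^ (1 - c) * ((t : ℝ) ^ (3 / 2 : ℝ))⁻¹) := by gcongr
          _ ≤ (K0 + 4) * (Y ^ (1 - c) * ((t : ℝ) ^ (3 / 2 : ℝ))⁻¹) := by
              apply mul_le_mul_of_nonneg_right (by linarith) (by positivity)
          _ = (K0 + 4) * Y ^ (1 - c) * ((t : ℝ) ^ (3 / 2 : ℝ))⁻¹ := by ring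
      · have h1 : ‖∑ w ∈ ann 0 (Y / (t : ℝ) ^ 2), ψ w * uu w ^ κ‖ ≤ 4 * (Y / (t : ℝ) ^ 2) := by
          calc ‖∑ w ∈ ann 0 (Y / (t : ℝ) ^ 2), ψ w * uu w ^ κ‖
              ≤ ∑ w ∈ ann 0 (Y / (t : ℝ) ^ 2), ‖ψ w * uu w ^ κ‖ := norm_sum_le _ _
            _ ≤ ∑ w ∈ ann 0 (Y / (t : ℝ) ^ 2), (1 : ℝ) := by
                apply Finset.sum_le_sum
                intro z _
                rw [norm_mul]
                calc ‖ψ z‖ * ‖uu z ^ κ‖ ≤ 1 * 1 :=
                      mul_le_mul (hψ.le z) (norm_uu_zpow_le z κ) (norm_nonneg _) zero_le_one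
                  _ = 1 := one_mul _
            _ = ((ann 0 (Y / (t : ℝ) ^ 2)).card : ℝ) := by simp
            _ ≤ 4 * (Y / (t : ℝ) ^ 2) := card_ann_le 0 (by positivity)
        have h2 : Y / (t : ℝ) ^ 2 ≤ Y ^ (1 - c) * ((t : ℝ) ^ (3 / 2 : ℝ))⁻¹ := by
          rw [div_eq_mul_inv]
          have g1 : Y ^ (1 / 8 : ℝ) ≤ (t : ℝ) ^ (1 / 2 : ℝ) := by
            have : Y ^ (1 / 8 : ℝ) = (Y ^ (1 / 4 : ℝ)) ^ (1 / 2 : ℝ) := by
              rw [← Real.rpow_mul hY0.le]; norm_num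
            rw [this]
            exact Real.rpow_le_rpow (by positivity) htb.le (by norm_num)
          have g2 : (t : ℝ) ^ 2 = (t : ℝ) ^ (1 / 2 : ℝ) * (t : ℝ) ^ (3 / 2 : ℝ) := by
            rw [← Real.rpow_add ht0, ← Real.rpow_natCast]
            norm_num
          have g3 : Y = Y ^ (7 / 8 : ℝ) * Y ^ (1 / 8 : ℝ) := by
            rw [← Real.rpow_add hY0]
            norm_num
          have g4 : Y ^ (7 / 8 : ℝ) ≤ Y ^ (1 - c) :=
            Real.rpow_le_rpow_of_exponent_le hY (by linarith)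
          rw [g2, mul_inv]
          calc Y * (((t : ℝ) ^ (1 / 2 : ℝ))⁻¹ * ((t : ℝ) ^ (3 / 2 : ℝ))⁻¹)
              = Y ^ (7 / 8 : ℝ) * (Y ^ (1 / 8 : ℝ) * ((t : ℝ) ^ (1 / 2 : ℝ))⁻¹) *
                ((t : ℝ) ^ (3 / 2 : ℝ))⁻¹ := by
                conv_lhs => rw [g3]
                ring
            _ ≤ Y ^ (1 - c) * 1 * ((t : ℝ) ^ (3 / 2 : ℝ))⁻¹ := by
                have g5 : Y ^ (1 / 8 : ℝ) * ((t : ℝ) ^ (1 / 2 : ℝ))⁻¹ ≤ 1 := by
                  rw [← div_eq_mul_inv, div_le_one (by positivity)]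
                  exact g1
                gcongr
            _ = Y ^ (1 - c) * ((t : ℝ) ^ (3 / 2 : ℝ))⁻¹ := by ring
        calc ‖∑ w ∈ ann 0 (Y / (t : ℝ) ^ 2), ψ w * uu w ^ κ‖ ≤ 4 * (Y / (t : ℝ) ^ 2) := h1
          _ ≤ 4 * (Y ^ (1 - c) * ((t : ℝ) ^ (3 / 2 : ℝ))⁻¹) := by gcongr
          _ ≤ (K0 + 4) * (Y ^ (1 - c) * ((t : ℝ) ^ (3 / 2 : ℝ))⁻¹) := by
              apply mul_le_mul_of_nonneg_right (by linarith) (by positivity)
          _ = (K0 + 4) * Y ^ (1 - c) * ((t : ℝ) ^ (3 / 2 : ℝ))⁻¹ := by ring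
    calc ‖((ArithmeticFunction.moebius t : ℤ) : ℂ)‖ *
        (‖ψ ((t : ℕ) : GI)‖ * ‖∑ w ∈ ann 0 (Y / (t : ℝ) ^ 2), ψ w * uu w ^ κ‖)
        ≤ 1 * (1 * ‖∑ w ∈ ann 0 (Y / (t : ℝ) ^ 2), ψ w * uu w ^ κ‖) := by
          have := hψ.le ((t : ℕ) : GI)
          gcongr
      _ ≤ _ := by rw [one_mul, one_mul]; exact hmain
  calc ‖∑ t ∈ O, ((ArithmeticFunction.moebius t : ℤ) : ℂ) *
      (ψ ((t : ℕ) : GI) * ∑ w ∈ ann 0 (Y / (t : ℝ) ^ 2), ψ w * uu w ^ κ)‖
      ≤ ∑ t ∈ O, ‖((ArithmeticFunction.moebius t : ℤ) : ℂ) *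
        (ψ ((t : ℕ) : GI) * ∑ w ∈ ann 0 (Y / (t : ℝ) ^ 2), ψ w * uu w ^ κ)‖ := norm_sum_le _ _
    _ ≤ ∑ t ∈ O, (K0 + 4) * Y ^ (1 - c) * ((t : ℝ) ^ (3 / 2 : ℝ))⁻¹ := Finset.sum_le_sum hterm
    _ = (K0 + 4) * Y ^ (1 - c) * ∑ t ∈ O, ((t : ℝ) ^ (3 / 2 : ℝ))⁻¹ := by rw [Finset.mul_sum]
    _ ≤ (K0 + 4) * Y ^ (1 - c) * S := by
        have : ∑ t ∈ O, ((t : ℝ) ^ (3 / 2 : ℝ))⁻¹ ≤ S :=
          hsumm.sum_le_tsum O (fun n _ => by positivity)
        gcongr
    _ ≤ (K0 + 4) * (S + 1) * Y ^ (1 - c) := by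
        have : 0 < (K0 + 4) * Y ^ (1 - c) := by positivity
        nlinarith

end Pool.Agent.FCH
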