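import Pool.Agent.FCH.Fej
import Pool.Agent.FCH.Lsx

set_option autoImplicit false

/-! Module StrW: the structured part.
`kk w w'`: for `D = det(w,w') > 0`, `w, w'` primitive, there is a unique `k ∈ [0, D)` coprime to `D` with `D ∣ k w - w'` (both `w, w'` generate the same
cyclic subgroup of `(ℤ/D)²`: if `u w.re + v w.im = 1`, take `k ≡ u w'.re + v w'.im`).
`kk_cls`: if `q ∣ D`, `q ∣ D₁`, `w ≡ w₁`, `w' ≡ w₁' (mod q)` then `kk w w' ≡ kk w₁ w₁' (mod q)`.
`strw`: `(D/P)^{-i} P/φ(D) = (D/P)^{-i-1} (D/φ(D))`, `D/P = t α β` (`t = tt m P w w'`, `α = rd m w`, `β = rd m w'`).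
(1) remove the condition D good: the non-good `D ≤ C1 P` are `≤ C1 #pr ≤ ε' P` many (`lsx_bad`, `pr_le`), each has `≤ C m` pairs (`det_cnt`), and `P/φ(D) ≤ C(δ, A)`
  for `D = p j ≥ δ' P`, `p ∈ pr`, `j ≤ C1` (`φ(pj) ≥ (p-1) φ(j)` ...); on the support of `cs δ c (t)`: `δ P/b ≤ D ≤ 2 c P`.
(2) `D/φ(D) = ∑_{e ∣ D} μ(e)²/φ(e)`; truncate to `e ≤ E`: `∑_{D ≤ C1 P} ∑_{e ∣ D, e > E} μ²(e)/φ(e) ≤ C1 P ∑_{e>E} 1/(e φ(e)) ≤ ε' P` for `E` large, times `C m` pairs for each `D`.
(3) for fixed `e ≤ E`, `q`, `χ`: put `d = (max E Q)!^2` (a multiple of `e q`): `1[q ∣ D] 1[e ∣ D] χ(kk w w')` is a function of the classes of `w, w'` mod `d`, of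
  absolute value `≤ 1`: expand in classes `(r, r') ∈ (cls d)²`, and apply `str` with `g(t) = cs δ c t · t^{-i-1}` (extended by `0`), Lipschitz, to
  `a(w) = 1[w ≡ r] H(w) α^{j-i-1} / b^{...}`, `a'` similarly (normalised to be `≤ 1`: `α ∈ (1/√b, 1]`).  `hh d r e m H` below.  The energies are homogeneous
  (`en (λ a) = |λ|² en a`). -/

open Finset

namespace Pool.Agent.FCH

open Pool.Agent.MRS hiding Good

/-- the `k` with `w' ≡ k w (mod det(w,w'))` -/
noncomputable def kk (w w' : GI) : ℕ :=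
  open Classical in
  if h : ∃ k : ℕ, k < (dt w w').natAbs ∧ Nat.Coprime k (dt w w').natAbs ∧
    cg (dt w w').natAbs w' ((k : GI) * w) then Classical.choose h else 1

theorem StrW_re_mul (k : ℕ) (w : GI) : ((k : GI) * w).re = (k : ℤ) * w.re := by
  simp

theorem StrW_im_mul (k : ℕ) (w : GI) : ((k : GI) * w).im = (k : ℤ) * w.im := by
  simp

theorem StrW_kk_exists {w w' : GI} (hw : Pr w) (hw' : Pr w') (hD : 0 < dt w w') :
    ∃ k : ℕ, k < (dt w w').natAbs ∧ Nat.Coprime k (dt w w').natAbs ∧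
      cg (dt w w').natAbs w' ((k : GI) * w) := by
  set D := dt w w' with hDdef
  have hDD : w.re * w'.im - w.im * w'.re = D := rfl
  have hbez := Int.gcd_eq_gcd_ab w.re w.im
  have hw1 : (Int.gcd w.re w.im : ℤ) = 1 := by
    have : Int.gcd w.re w.im = 1 := hw
    rw [this]; rfl
  rw [hw1] at hbez
  set u := Int.gcdA w.re w.im
  set v := Int.gcdB w.re w.im
  set k0 := u * w'.re + v * w'.im with hk0
  have e1 : k0 * w.re - w'.re = v * D := by
    rw [hk0, ← hDD]
    linear_combination (-w'.re) * hbez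
  have e2 : k0 * w.im - w'.im = -u * D := by
    rw [hk0, ← hDD]
    linear_combination (-w'.im) * hbez
  have hDn : (D.natAbs : ℤ) = D := Int.natAbs_of_nonneg hD.le
  have hm0 : 0 ≤ k0 % D := Int.emod_nonneg _ hD.ne'
  have hm1 : k0 % D < D := Int.emod_lt_of_pos _ hD
  have hm2 : k0 = D * (k0 / D) + k0 % D := (Int.mul_ediv_add_emod k0 D).symm
  have hkc : (((k0 % D).toNat : ℕ) : ℤ) = k0 % D := Int.toNat_of_nonneg hm0
  have d1 : D ∣ w'.re - (k0 % D) * w.re := by
    refine ⟨-v + (k0 / D) * w.re, ?_⟩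
    linear_combination (-1 : ℤ) * e1 + w.re * hm2
  have d2 : D ∣ w'.im - (k0 % D) * w.im := by
    refine ⟨u + (k0 / D) * w.im, ?_⟩
    linear_combination (-1 : ℤ) * e2 + w.im * hm2
  refine ⟨(k0 % D).toNat, ?_, ?_, ?_, ?_⟩
  · omega
  · rw [Nat.coprime_iff_gcd_eq_one]
    have hg1 : ((Nat.gcd (k0 % D).toNat D.natAbs : ℕ) : ℤ) ∣ k0 % D := by
      rw [← hkc]
      exact_mod_cast Nat.gcd_dvd_left _ _
    have hg2 : ((Nat.gcd (k0 % D).toNat D.natAbs : ℕ) : ℤ) ∣ D := by
      have : ((Nat.gcd (k0 % D).toNat D.natAbs : ℕ) : ℤ) ∣ (D.natAbs : ℤ) := by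
        exact_mod_cast Nat.gcd_dvd_right _ _
      rwa [hDn] at this
    have h1 : ((Nat.gcd (k0 % D).toNat D.natAbs : ℕ) : ℤ) ∣ w'.re := by
      have := dvd_add (hg2.trans d1) (hg1.mul_right w.re)
      simpa using this
    have h2 : ((Nat.gcd (k0 % D).toNat D.natAbs : ℕ) : ℤ) ∣ w'.im := by
      have := dvd_add (hg2.trans d2) (hg1.mul_right w.im)
      simpa using this
    have h3 := Int.dvd_coe_gcd h1 h2
    have h4 : Int.gcd w'.re w'.im = 1 := hw'
    rw [h4] at h3
    have h5 : (Nat.gcd (k0 % D).toNat D.natAbs) ∣ 1 := by exact_mod_cast h3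
    exact Nat.dvd_one.mp h5
  · rw [hDn, StrW_re_mul, hkc]; exact d1
  · rw [hDn, StrW_im_mul, hkc]; exact d2

theorem kk_spec {w w' : GI} (hw : Pr w) (hw' : Pr w') (hD : 0 < dt w w') :
    kk w w' < (dt w w').natAbs ∧ Nat.Coprime (kk w w') (dt w w').natAbs ∧
      cg (dt w w').natAbs w' ((kk w w' : GI) * w) := by
  classical
  have h := StrW_kk_exists hw hw' hD
  unfold kk
  rw [dif_pos h]
  exact Classical.choose_spec h

theorem kk_cls {w w' w₁ w₁' : GI} (hw : Pr w) (hw' : Pr w') (hw₁ : Pr w₁) (hw₁' : Pr w₁')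
    (hD : 0 < dt w w') (hD₁ : 0 < dt w₁ w₁') {q : ℕ} (hq : (q : ℤ) ∣ dt w w') (hq₁ : (q : ℤ) ∣ dt w₁ w₁')
    (h : cg q w w₁) (h' : cg q w' w₁') : kk w w' ≡ kk w₁ w₁' [MOD q] := by
  obtain ⟨-, -, a1, a2⟩ := kk_spec hw hw' hD
  obtain ⟨-, -, b1, b2⟩ := kk_spec hw₁ hw₁' hD₁
  rw [Int.natAbs_of_nonneg hD.le, StrW_re_mul] at a1
  rw [Int.natAbs_of_nonneg hD.le, StrW_im_mul] at a2
  rw [Int.natAbs_of_nonneg hD₁.le, StrW_re_mul] at b1
  rw [Int.natAbs_of_nonneg hD₁.le, StrW_im_mul] at b2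
  obtain ⟨h1, h2⟩ := h
  obtain ⟨h3, h4⟩ := h'
  set k : ℤ := (kk w w' : ℤ)
  set k1 : ℤ := (kk w₁ w₁' : ℤ)
  have c1 : (q : ℤ) ∣ (k1 - k) * w.re := by
    obtain ⟨x1, hx1⟩ := hq.trans a1
    obtain ⟨x2, hx2⟩ := hq₁.trans b1
    obtain ⟨x3, hx3⟩ := h1
    obtain ⟨x4, hx4⟩ := h3
    refine ⟨x1 - x2 + k1 * x3 - x4, ?_⟩
    linear_combination hx1 - hx2 + k1 * hx3 - hx4
  have c2 : (q : ℤ) ∣ (k1 - k) * w.im := by
    obtain ⟨x1, hx1⟩ := hq.trans a2
    obtain ⟨x2, hx2⟩ := hq₁.trans b2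
    obtain ⟨x3, hx3⟩ := h2
    obtain ⟨x4, hx4⟩ := h4
    refine ⟨x1 - x2 + k1 * x3 - x4, ?_⟩
    linear_combination hx1 - hx2 + k1 * hx3 - hx4
  have hbez := Int.gcd_eq_gcd_ab w.re w.im
  have hw1 : (Int.gcd w.re w.im : ℤ) = 1 := by
    have : Int.gcd w.re w.im = 1 := hw
    rw [this]; rfl
  rw [hw1] at hbez
  have c3 : (q : ℤ) ∣ k1 - k := by
    have := dvd_add (c1.mul_right (Int.gcdA w.re w.im)) (c2.mul_right (Int.gcdB w.re w.im))
    have e : (k1 - k) * w.re * Int.gcdA w.re w.im + (k1 - k) * w.im * Int.gcdB w.re w.im =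
        k1 - k := by
      linear_combination (-(k1 - k)) * hbez
    rwa [e] at this
  exact (Nat.modEq_iff_dvd).mpr c3

/-- the representative of `z` mod `d` -/
def StrW_rep (d : ℕ) (z : GI) : GI := ⟨z.re % d, z.im % d⟩

theorem StrW_rep_mem {d : ℕ} (hd : 1 ≤ d) (z : GI) : StrW_rep d z ∈ cls d := by
  rw [mem_cls]
  have h0 : (0 : ℤ) < d := by exact_mod_cast hd
  exact ⟨⟨Int.emod_nonneg _ h0.ne', Int.emod_lt_of_pos _ h0⟩,
    ⟨Int.emod_nonneg _ h0.ne', Int.emod_lt_of_pos _ h0⟩⟩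

theorem StrW_cg_rep (d : ℕ) (z : GI) : cg d z (StrW_rep d z) :=
  ⟨Int.dvd_self_sub_emod, Int.dvd_self_sub_emod⟩

theorem StrW_cg_iff {d : ℕ} {z r : GI} (hr : r ∈ cls d) :
    cg d z r ↔ r = StrW_rep d z := by
  rw [mem_cls] at hr
  obtain ⟨⟨h1, h2⟩, h3, h4⟩ := hr
  constructor
  · rintro ⟨h5, h6⟩
    have e1 : z.re % d = r.re % d := (Int.emod_eq_emod_iff_emod_sub_eq_zero).mpr
      (Int.emod_eq_zero_of_dvd h5)
    have e2 : z.im % d = r.im % d := (Int.emod_eq_emod_iff_emod_sub_eq_zero).mpr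
      (Int.emod_eq_zero_of_dvd h6)
    rw [Int.emod_eq_of_lt h1 h2] at e1
    rw [Int.emod_eq_of_lt h3 h4] at e2
    unfold StrW_rep
    ext
    · exact e1.symm
    · exact e2.symm
  · intro h
    rw [h]
    exact StrW_cg_rep d z

theorem StrW_cg_trans {d : ℕ} {x y z : GI} (h : cg d x y) (h' : cg d y z) : cg d x z := by
  obtain ⟨h1, h2⟩ := h
  obtain ⟨h3, h4⟩ := h'
  refine ⟨?_, ?_⟩
  · have := dvd_add h1 h3
    simpa using this
  · have := dvd_add h2 h4
    simpa using this

theorem StrW_cg_symm {d : ℕ} {x y : GI} (h : cg d x y) : cg d y x := by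
  obtain ⟨h1, h2⟩ := h
  refine ⟨?_, ?_⟩
  · have := (dvd_neg (a := (d : ℤ))).mpr h1
    simpa using this
  · have := (dvd_neg (a := (d : ℤ))).mpr h2
    simpa using this

theorem StrW_cg_mono {d e : ℕ} (hed : e ∣ d) {x y : GI} (h : cg d x y) : cg e x y := by
  have : (e : ℤ) ∣ (d : ℤ) := by exact_mod_cast hed
  exact ⟨this.trans h.1, this.trans h.2⟩

theorem StrW_dt_cg {d : ℕ} {w w' w₁ w₁' : GI} (h : cg d w w₁) (h' : cg d w' w₁') :
    (d : ℤ) ∣ dt w w' - dt w₁ w₁' := by
  obtain ⟨⟨a, ha⟩, ⟨b, hb⟩⟩ := h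
  obtain ⟨⟨a', ha'⟩, ⟨b', hb'⟩⟩ := h'
  refine ⟨a * w'.im + w₁.re * b' - b * w'.re - w₁.im * a', ?_⟩
  unfold dt
  linear_combination w'.im * ha + w₁.re * hb' - w'.re * hb - w₁.im * ha'

theorem StrW_sum_cls {d : ℕ} (hd : 1 ≤ d) (z : GI) (f : GI → ℂ) :
    open Classical in ∑ r ∈ cls d, (if cg d z r then f r else 0) = f (StrW_rep d z) := by
  classical
  rw [Finset.sum_eq_single (StrW_rep d z)]
  · rw [if_pos (StrW_cg_rep d z)]
  · intro r hr hne
    rw [if_neg]
    intro h
    exact hne ((StrW_cg_iff hr).mp h)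
  · intro h
    exact absurd (StrW_rep_mem hd z) h

/-- bounded and Lipschitz -/
def StrW_LB (f : ℝ → ℝ) : Prop := ∃ L : ℝ, 0 ≤ L ∧ (∀ x y, |f x - f y| ≤ L * |x - y|) ∧ ∀ x, |f x| ≤ L

theorem StrW_LB_const (c : ℝ) : StrW_LB (fun _ => c) :=
  ⟨|c|, abs_nonneg _, fun x y => by simp; positivity, fun _ => le_rfl⟩

theorem StrW_LB_mul {f g : ℝ → ℝ} (hf : StrW_LB f) (hg : StrW_LB g) :
    StrW_LB (fun x => f x * g x) := by
  obtain ⟨L, hL, h1, h2⟩ := hf
  obtain ⟨M, hM, h3, h4⟩ := hg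
  refine ⟨2 * (L * M), by positivity, fun x y => ?_, fun x => ?_⟩
  · have e : f x * g x - f y * g y = f x * (g x - g y) + (f x - f y) * g y := by ring
    rw [e]
    calc |f x * (g x - g y) + (f x - f y) * g y| ≤ |f x * (g x - g y)| + |(f x - f y) * g y| :=
          abs_add_le _ _
      _ = |f x| * |g x - g y| + |f x - f y| * |g y| := by rw [abs_mul, abs_mul]
      _ ≤ L * (M * |x - y|) + (L * |x - y|) * M := by
          apply add_le_add
          · exact mul_le_mul (h2 x) (h3 x y) (abs_nonneg _) hL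
          · exact mul_le_mul (h1 x y) (h4 y) (abs_nonneg _) (by positivity)
      _ = 2 * (L * M) * |x - y| := by ring
  · rw [abs_mul]
    have := mul_le_mul (h2 x) (h4 x) (abs_nonneg _) hL
    nlinarith [mul_nonneg hL hM]

theorem StrW_LB_pow {f : ℝ → ℝ} (hf : StrW_LB f) (n : ℕ) : StrW_LB (fun x => f x ^ n) := by
  induction n with
  | zero => simpa using StrW_LB_const 1
  | succ n ih =>
    have := StrW_LB_mul ih hf
    simpa [pow_succ] using this

theorem StrW_LB_inv {δ : ℝ} (hδ : 0 < δ) : StrW_LB (fun x => (max x δ)⁻¹) := by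
  refine ⟨max (1 / δ ^ 2) (1 / δ), by positivity, fun x y => ?_, fun x => ?_⟩
  · have hx : δ ≤ max x δ := le_max_right _ _
    have hy : δ ≤ max y δ := le_max_right _ _
    have hx0 : 0 < max x δ := lt_of_lt_of_le hδ hx
    have hy0 : 0 < max y δ := lt_of_lt_of_le hδ hy
    have e : (max x δ)⁻¹ - (max y δ)⁻¹ = (max y δ - max x δ) / (max x δ * max y δ) := by
      field_simp
    rw [e, abs_div, abs_of_pos (mul_pos hx0 hy0)]
    have h1 : |max y δ - max x δ| ≤ |x - y| := by
      rw [abs_sub_comm]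
      have := abs_max_sub_max_le_abs x y δ
      exact this
    have h2 : δ ^ 2 ≤ max x δ * max y δ := by nlinarith
    calc |max y δ - max x δ| / (max x δ * max y δ) ≤ |x - y| / δ ^ 2 := by
          apply div_le_div₀ (abs_nonneg _) h1 (by positivity) h2
      _ = (1 / δ ^ 2) * |x - y| := by ring
      _ ≤ max (1 / δ ^ 2) (1 / δ) * |x - y| :=
          mul_le_mul_of_nonneg_right (le_max_left _ _) (abs_nonneg _)
  · have hx : δ ≤ max x δ := le_max_right _ _
    have hx0 : 0 < max x δ := lt_of_lt_of_le hδ hx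
    rw [abs_of_pos (inv_pos.mpr hx0)]
    refine le_trans ?_ (le_max_right _ _)
    rw [← one_div]
    exact one_div_le_one_div_of_le hδ hx

theorem StrW_LB_cs {δ c : ℝ} (hδ : 0 < δ) (hc : 0 < c) : StrW_LB (cs δ c) := by
  refine ⟨max (max (1 / δ) (1 / c)) 1, by positivity, fun x y => ?_, fun x => ?_⟩
  · unfold cs
    have h1 : |max 0 (min 1 (min ((x - δ) / δ) ((2 * c - x) / c))) -
        max 0 (min 1 (min ((y - δ) / δ) ((2 * c - y) / c)))| ≤
        max (|(x - δ) / δ - (y - δ) / δ|) (|(2 * c - x) / c - (2 * c - y) / c|) := by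
      refine le_trans (abs_max_sub_max_le_max _ _ _ _) ?_
      rw [sub_self, abs_zero]
      refine max_le (by positivity) ?_
      refine le_trans (abs_min_sub_min_le_max _ _ _ _) ?_
      rw [sub_self, abs_zero]
      refine max_le (by positivity) ?_
      exact abs_min_sub_min_le_max _ _ _ _
    refine le_trans h1 ?_
    have e1 : (x - δ) / δ - (y - δ) / δ = (1 / δ) * (x - y) := by field_simp; ring
    have e2 : (2 * c - x) / c - (2 * c - y) / c = (1 / c) * (y - x) := by field_simp; ring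
    rw [e1, e2, abs_mul, abs_mul, abs_of_pos (by positivity : 0 < 1 / δ),
      abs_of_pos (by positivity : 0 < 1 / c), abs_sub_comm y x]
    refine max_le ?_ ?_
    · exact mul_le_mul_of_nonneg_right (le_trans (le_max_left _ _) (le_max_left _ _)) (abs_nonneg _)
    · exact mul_le_mul_of_nonneg_right (le_trans (le_max_right _ _) (le_max_left _ _)) (abs_nonneg _)
  · rw [abs_of_nonneg (cs_nonneg _ _ _)]
    exact le_trans (cs_le_one _ _ _) (le_max_right _ _)

theorem StrW_cs_low {δ c t : ℝ} (hδ : 0 < δ) (ht : t ≤ δ) : cs δ c t = 0 := by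
  unfold cs
  apply le_antisymm _ (le_max_left _ _)
  apply max_le le_rfl
  refine le_trans (min_le_right _ _) (le_trans (min_le_left _ _) ?_)
  exact div_nonpos_of_nonpos_of_nonneg (by linarith) hδ.le

theorem StrW_cs_high {δ c t : ℝ} (hc : 0 < c) (ht : 2 * c ≤ t) : cs δ c t = 0 := by
  unfold cs
  apply le_antisymm _ (le_max_left _ _)
  apply max_le le_rfl
  refine le_trans (min_le_right _ _) (le_trans (min_le_right _ _) ?_)
  exact div_nonpos_of_nonpos_of_nonneg (by linarith) hc.le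

/-- `g(t) = cs(t) t^{-n}` -/
noncomputable def StrW_g (δ c : ℝ) (n : ℕ) (t : ℝ) : ℝ := cs δ c t * (max t δ)⁻¹ ^ n

theorem StrW_g_exists {δ c : ℝ} (hδ : 0 < δ) (hc : 0 < c) (n : ℕ) : ∃ L : ℝ, 1 ≤ L ∧
    (∀ x y, |StrW_g δ c n x - StrW_g δ c n y| ≤ L * |x - y|) ∧ (∀ x, |StrW_g δ c n x| ≤ L) ∧
    (∀ x, x ≤ 0 ∨ L ≤ x → StrW_g δ c n x = 0) := by
  obtain ⟨L, hL, h1, h2⟩ := StrW_LB_mul (StrW_LB_cs hδ hc) (StrW_LB_pow (StrW_LB_inv hδ) n)
  refine ⟨max (max L 1) (2 * c), le_trans (le_max_right _ _) (le_max_left _ _), ?_, ?_, ?_⟩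
  · intro x y
    refine le_trans (h1 x y) (mul_le_mul_of_nonneg_right ?_ (abs_nonneg _))
    exact le_trans (le_max_left _ _) (le_max_left _ _)
  · intro x
    refine le_trans (h2 x) ?_
    exact le_trans (le_max_left _ _) (le_max_left _ _)
  · intro x hx
    unfold StrW_g
    rcases hx with hx | hx
    · rw [StrW_cs_low hδ (by linarith), zero_mul]
    · rw [StrW_cs_high hc (le_trans (le_max_right _ _) hx), zero_mul]

/-! ### `D / φ(D)` -/

theorem StrW_totient_prod (t : Finset ℕ) (ht : ∀ p ∈ t, p.Prime) :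
    (∏ p ∈ t, p).totient = ∏ p ∈ t, (p - 1) := by
  induction t using Finset.induction_on with
  | empty => simp
  | insert p t hp ih =>
    rw [prod_insert hp, prod_insert hp, Nat.totient_mul, ih, Nat.totient_prime]
    · exact ht p (mem_insert_self _ _)
    · intro q hq; exact ht q (mem_insert_of_mem hq)
    · apply Nat.Coprime.prod_right
      intro q hq
      refine (Nat.coprime_primes (ht p (mem_insert_self _ _)) (ht q (mem_insert_of_mem hq))).mpr ?_
      rintro rfl
      exact hp hq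

theorem StrW_totient_div {n : ℕ} (hn : n ≠ 0) :
    (n : ℝ) / (n.totient : ℝ) =
      ∑ e ∈ n.divisors.filter Squarefree, (1 : ℝ) / (e.totient : ℝ) := by
  have h1 := Nat.totient_mul_prod_primeFactors n
  have hp : ∀ p ∈ n.primeFactors, p.Prime := fun p hp => Nat.prime_of_mem_primeFactors hp
  have hphi : 0 < n.totient := Nat.totient_pos.mpr (Nat.pos_of_ne_zero hn)
  have h2 : (n : ℝ) / (n.totient : ℝ) = ∏ p ∈ n.primeFactors, (1 + 1 / ((p : ℝ) - 1)) := by
    have h3 : ((n.totient : ℝ)) * ∏ p ∈ n.primeFactors, (p : ℝ) =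
        n * ∏ p ∈ n.primeFactors, ((p : ℝ) - 1) := by
      have := congrArg (Nat.cast (R := ℝ)) h1
      push_cast at this
      rw [this]
      congr 1
      refine prod_congr rfl (fun p hp' => ?_)
      rw [Nat.cast_sub (hp p hp').one_le]
      simp
    have h4 : ∏ p ∈ n.primeFactors, (1 + 1 / ((p : ℝ) - 1)) =
        (∏ p ∈ n.primeFactors, (p : ℝ)) / ∏ p ∈ n.primeFactors, ((p : ℝ) - 1) := by
      rw [← prod_div_distrib]
      refine prod_congr rfl (fun p hp' => ?_)
      have : (1 : ℝ) < p := by exact_mod_cast (hp p hp').one_lt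
      have : (p : ℝ) - 1 ≠ 0 := by linarith
      field_simp
      ring
    have h5 : ∏ p ∈ n.primeFactors, ((p : ℝ) - 1) ≠ 0 := by
      refine prod_ne_zero_iff.mpr (fun p hp' => ?_)
      have : (1 : ℝ) < p := by exact_mod_cast (hp p hp').one_lt
      linarith
    rw [h4]
    have : (n.totient : ℝ) ≠ 0 := by positivity
    field_simp
    linarith
  rw [h2, Finset.prod_one_add]
  rw [Nat.sum_divisors_filter_squarefree hn]
  have h6 : (UniqueFactorizationMonoid.normalizedFactors n).toFinset = n.primeFactors := by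
    rw [Nat.factors_eq]; rfl
  rw [h6]
  refine sum_congr rfl (fun t ht => ?_)
  rw [mem_powerset] at ht
  have h7 : t.val.prod = ∏ p ∈ t, p := by
    rw [Finset.prod_eq_multiset_prod]; simp
  rw [h7, StrW_totient_prod t (fun p hp' => hp p (ht hp')), Nat.cast_prod, ← prod_const_one, ← prod_div_distrib]
  refine prod_congr rfl (fun p hp' => ?_)
  rw [Nat.cast_sub (hp p (ht hp')).one_le]
  simp

theorem StrW_sqf_totient {n : ℕ} (hn : Squarefree n) : (n : ℝ) ≤ 2 * (n.totient : ℝ) ^ 2 := by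
  have hp : ∀ p ∈ n.primeFactors, p.Prime := fun p hp => Nat.prime_of_mem_primeFactors hp
  have h1 : ∏ p ∈ n.primeFactors, p = n := Nat.prod_primeFactors_of_squarefree hn
  have key : ∀ t : Finset ℕ, (∀ p ∈ t, p.Prime) →
      ∏ p ∈ t, p ≤ (if 2 ∈ t then 2 else 1) * (∏ p ∈ t, (p - 1)) ^ 2 := by
    intro t
    induction t using Finset.induction_on with
    | empty => simp
    | insert p t hp ih =>
      intro ht
      have ih' := ih (fun q hq => ht q (mem_insert_of_mem hq))
      have hpp := ht p (mem_insert_self _ _)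
      rw [prod_insert hp, prod_insert hp]
      rcases eq_or_ne p 2 with h2 | h2
      · subst h2
        simp only [mem_insert, true_or, if_true]
        rw [if_neg hp] at ih'
        simp only [Nat.add_one_sub_one, one_mul] at *
        omega
      · have h3 : (2 ∈ insert p t) = (2 ∈ t) := by
          simp [Ne.symm h2]
        simp only [h3]
        have h4 : 3 ≤ p := by
          have := hpp.two_le
          omega
        have h5 : p ≤ (p - 1) ^ 2 := by
          obtain ⟨k, rfl⟩ : ∃ k, p = k + 3 := ⟨p - 3, by omega⟩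
          simp
          nlinarith
        calc p * ∏ q ∈ t, q ≤ (p - 1) ^ 2 * ((if 2 ∈ t then 2 else 1) * (∏ q ∈ t, (q - 1)) ^ 2) :=
              Nat.mul_le_mul h5 ih'
          _ = _ := by ring
  have h2 := key n.primeFactors hp
  rw [h1, ← StrW_totient_prod _ hp, h1] at h2
  have h3 : n ≤ 2 * n.totient ^ 2 := by
    refine le_trans h2 ?_
    apply Nat.mul_le_mul_right
    split_ifs <;> norm_num
  exact_mod_cast h3

theorem StrW_summable : Summable (fun e : ℕ => if Squarefree e then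
    (1 : ℝ) / ((e : ℝ) * (e.totient : ℝ)) else 0) := by
  have hs : Summable (fun n : ℕ => 2 * (1 / (n : ℝ) ^ ((3 : ℝ) / 2))) :=
    (Real.summable_one_div_nat_rpow.mpr (by norm_num)).mul_left 2
  refine Summable.of_nonneg_of_le (fun n => ?_) (fun n => ?_) hs
  · split_ifs <;> positivity
  · split_ifs with h
    · have hn : n ≠ 0 := h.ne_zero
      have hn0 : (0 : ℝ) < n := by positivity
      have hphi : 0 < n.totient := Nat.totient_pos.mpr (Nat.pos_of_ne_zero hn)
      have hphi' : (0 : ℝ) < n.totient := by exact_mod_cast hphi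
      have h1 := StrW_sqf_totient h
      have h2 : √(n : ℝ) ≤ 2 * n.totient := by
        apply Real.sqrt_le_iff.mpr
        constructor
        · positivity
        · nlinarith
      have e1 : (n : ℝ) ^ ((3 : ℝ) / 2) = n * √(n : ℝ) := by
        rw [Real.sqrt_eq_rpow, show ((3 : ℝ) / 2) = 1 + 1 / 2 by norm_num, Real.rpow_add hn0, Real.rpow_one]
      rw [e1]
      have hsq : 0 < √(n : ℝ) := Real.sqrt_pos.mpr hn0
      rw [div_le_iff₀ (by positivity)]
      rw [show 2 * (1 / ((n : ℝ) * √(n : ℝ))) * ((n : ℝ) * n.totient) = (2 * n.totient) / √(n : ℝ) by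
        field_simp]
      rw [le_div_iff₀ hsq]
      linarith
    · positivity

theorem StrW_rd {b : ℝ} (hb : 1 < b) {m : ℕ} (hm : 1 ≤ m) {z : GI} (hz : z ∈ AA b m) :
    1 / b < rd m z ∧ rd m z ≤ 1 := by
  rw [mem_AA] at hz
  obtain ⟨h1, -, h2⟩ := hz
  have hm0 : (0 : ℝ) < m := by exact_mod_cast hm
  have hb0 : 0 < b := by linarith
  have h3 : (nm z : ℝ) / m ≤ 1 := by rw [div_le_one hm0]; exact h1
  have h4 : 1 / b < (nm z : ℝ) / m := by
    rw [div_lt_div_iff₀ hb0 hm0]
    rw [div_lt_iff₀ hb0] at h2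
    linarith
  have h5 : rd m z ≤ 1 := by
    unfold rd
    exact Real.sqrt_le_one.mpr h3
  refine ⟨?_, h5⟩
  have h6 : (nm z : ℝ) / m = rd m z ^ 2 := by
    unfold rd
    rw [Real.sq_sqrt]
    positivity
  have h7 : 0 ≤ rd m z := Real.sqrt_nonneg _
  rw [h6] at h4
  nlinarith

theorem StrW_PS_le (b : ℝ) (hb : 1 < b) : ∃ C0 : ℝ, 0 < C0 ∧ ∀ m : ℕ, 1 ≤ m →
    ∀ (F : GI → GI → ℂ) (f : ℕ → ℝ) (N : ℕ), (∀ D, 0 ≤ f D) →
    (∀ w ∈ AA b m, ∀ w' ∈ AA b m, 0 < ip w w' → 0 < dt w w' →
      ‖F w w'‖ ≤ f (dt w w').natAbs ∧ (N < (dt w w').natAbs → F w w' = 0)) →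
    ‖PS b m F‖ ≤ C0 * m * ∑ D ∈ Icc 1 N, f D := by
  classical
  obtain ⟨C0, hC0, hdet⟩ := det_cnt b 1 hb le_rfl
  refine ⟨9 * C0, by positivity, fun m hm F f N hf hF => ?_⟩
  unfold PS
  have h1 : ∀ w ∈ AA b m, ‖∑ w' ∈ AA b m, (if 0 < ip w w' ∧ 0 < dt w w' then F w w' else 0)‖ ≤
      C0 * ∑ D ∈ Icc 1 N, f D := by
    intro w hw
    calc ‖∑ w' ∈ AA b m, (if 0 < ip w w' ∧ 0 < dt w w' then F w w' else 0)‖
        ≤ ∑ w' ∈ AA b m, ‖(if 0 < ip w w' ∧ 0 < dt w w' then F w w' else 0)‖ := norm_sum_le _ _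
      _ ≤ ∑ w' ∈ AA b m, ∑ D ∈ Icc 1 N, (if dt w w' = (D : ℤ) then f D else 0) := by
          refine sum_le_sum (fun w' hw' => ?_)
          by_cases hc : 0 < ip w w' ∧ 0 < dt w w'
          · rw [if_pos hc]
            obtain ⟨h2, h3⟩ := hF w hw w' hw' hc.1 hc.2
            have hD : ((dt w w').natAbs : ℤ) = dt w w' := Int.natAbs_of_nonneg hc.2.le
            by_cases hN : N < (dt w w').natAbs
            · rw [h3 hN, norm_zero]
              refine sum_nonneg (fun D _ => ?_)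
              split_ifs
              · exact hf D
              · exact le_rfl
            · have hmem : (dt w w').natAbs ∈ Icc 1 N := by
                rw [mem_Icc]
                have := hc.2
                omega
              refine le_trans h2 ?_
              have := single_le_sum (f := fun D : ℕ => if dt w w' = (D : ℤ) then f D else 0)
                (fun D _ => by
                  show 0 ≤ (if dt w w' = (D : ℤ) then f D else 0)
                  split_ifs
                  · exact hf D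
                  · exact le_rfl) hmem
              simp only [hD, if_true] at this
              exact this
          · rw [if_neg hc, norm_zero]
            refine sum_nonneg (fun D _ => ?_)
            split_ifs
            · exact hf D
            · exact le_rfl
      _ = ∑ D ∈ Icc 1 N, ∑ w' ∈ AA b m, (if dt w w' = (D : ℤ) then f D else 0) := sum_comm
      _ ≤ ∑ D ∈ Icc 1 N, C0 * f D := by
          refine sum_le_sum (fun D _ => ?_)
          rw [← sum_filter, sum_const, nsmul_eq_mul]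
          refine mul_le_mul_of_nonneg_right ?_ (hf D)
          have h4 := hdet m hm w hw (D : ℤ)
          refine le_trans ?_ h4
          have h5 : (AA b m).filter (fun w' => dt w w' = (D : ℤ)) ⊆
              (bal (1 * m)).filter (fun w' => dt w w' = (D : ℤ)) := by
            intro z hz
            rw [mem_filter] at hz ⊢
            refine ⟨?_, hz.2⟩
            rw [mem_bal, one_mul]
            exact (mem_AA.mp hz.1).1
          exact_mod_cast card_le_card h5
      _ = C0 * ∑ D ∈ Icc 1 N, f D := by rw [mul_sum]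
  have hS : 0 ≤ ∑ D ∈ Icc 1 N, f D := sum_nonneg (fun D _ => hf D)
  calc ‖∑ w ∈ AA b m, ∑ w' ∈ AA b m, (if 0 < ip w w' ∧ 0 < dt w w' then F w w' else 0)‖
      ≤ ∑ w ∈ AA b m, ‖∑ w' ∈ AA b m, (if 0 < ip w w' ∧ 0 < dt w w' then F w w' else 0)‖ :=
        norm_sum_le _ _
    _ ≤ ∑ w ∈ AA b m, C0 * ∑ D ∈ Icc 1 N, f D := sum_le_sum h1
    _ = ((AA b m).card : ℝ) * (C0 * ∑ D ∈ Icc 1 N, f D) := by rw [sum_const, nsmul_eq_mul]
    _ ≤ (9 * m) * (C0 * ∑ D ∈ Icc 1 N, f D) :=
        mul_le_mul_of_nonneg_right (card_AA b m) (by positivity)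
    _ = 9 * C0 * m * ∑ D ∈ Icc 1 N, f D := by ring

theorem StrW_pr_small (A : ℕ) (hA : 2 ≤ A) (ε : ℝ) (hε : 0 < ε) : ∃ P0 : ℕ, ∀ P : ℕ, P0 ≤ P →
    ((pr A P).card : ℝ) ≤ ε * P := by
  obtain ⟨C, hC, h⟩ := pr_le A hA
  refine ⟨max 2 ⌈Real.exp (C / ε)⌉₊, fun P hP => ?_⟩
  have hP2 : 2 ≤ P := le_trans (le_max_left _ _) hP
  have hP3 : Real.exp (C / ε) ≤ P := by
    refine le_trans (Nat.le_ceil _) ?_
    exact_mod_cast le_trans (le_max_right _ _) hP
  have hP0 : (0 : ℝ) < P := by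
    have : (2 : ℝ) ≤ P := by exact_mod_cast hP2
    linarith
  have h1 : C / ε ≤ Real.log P := (Real.le_log_iff_exp_le hP0).mpr hP3
  have h2 : 0 < C / ε := by positivity
  have h3 : 0 < Real.log P := lt_of_lt_of_le h2 h1
  refine le_trans (h P hP2) ?_
  rw [div_le_iff₀ h3]
  rw [div_le_iff₀ hε] at h1
  nlinarith

theorem StrW_tail (ε : ℝ) (hε : 0 < ε) : ∃ E : ℕ, ∀ N : ℕ,
    ∑ D ∈ Icc 1 N, ∑ e ∈ (D.divisors.filter Squarefree).filter (fun e => E < e),
      (1 : ℝ) / (e.totient : ℝ) ≤ ε * N := by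
  classical
  have hs := StrW_summable
  have ht := hs.hasSum
  have htend := ht.tendsto_sum_nat
  obtain ⟨E, hE⟩ := (Metric.tendsto_atTop.mp htend) ε hε
  have hE' := hE (E + 1) (by omega)
  set f : ℕ → ℝ := fun e : ℕ => if Squarefree e then (1 : ℝ) / ((e : ℝ) * (e.totient : ℝ)) else 0
    with hf
  have hf0 : ∀ e, 0 ≤ f e := by
    intro e
    simp only [hf]
    split_ifs <;> positivity
  refine ⟨E, fun N => ?_⟩
  have h1 : ∑ e ∈ Ioc E N, f e ≤ ε := by
    rcases le_or_gt N E with hNE | hNE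
    · rw [Ioc_eq_empty (by omega), sum_empty]; exact hε.le
    · have h2 : ∑ e ∈ range (E + 1), f e + ∑ e ∈ Ioc E N, f e = ∑ e ∈ range (N + 1), f e := by
        rw [← sum_union]
        · congr 1
          ext x
          simp only [mem_union, mem_range, mem_Ioc]
          omega
        · rw [disjoint_left]
          intro x hx hx'
          simp only [mem_range, mem_Ioc] at hx hx'
          omega
      have h3 : ∑ e ∈ range (N + 1), f e ≤ ∑' e, f e := hs.sum_le_tsum _ (fun e _ => hf0 e)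
      rw [Real.dist_eq] at hE'
      have h4 := (abs_lt.mp hE').1
      linarith
  calc ∑ D ∈ Icc 1 N, ∑ e ∈ (D.divisors.filter Squarefree).filter (fun e => E < e),
        (1 : ℝ) / (e.totient : ℝ)
      = ∑ D ∈ Icc 1 N, ∑ e ∈ Ioc E N, (if Squarefree e ∧ e ∣ D then (1 : ℝ) / (e.totient : ℝ) else 0) := by
        refine sum_congr rfl (fun D hD => ?_)
        rw [mem_Icc] at hD
        rw [← sum_filter]
        refine sum_congr ?_ (fun _ _ => rfl)
        ext e
        simp only [mem_filter, Nat.mem_divisors, mem_Ioc]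
        constructor
        · rintro ⟨⟨⟨h2, h3⟩, h4⟩, h5⟩
          have := Nat.le_of_dvd (by omega) h2
          exact ⟨⟨h5, by omega⟩, h4, h2⟩
        · rintro ⟨⟨h2, h3⟩, h4, h5⟩
          exact ⟨⟨⟨h5, by omega⟩, h4⟩, h2⟩
    _ = ∑ e ∈ Ioc E N, ∑ D ∈ Icc 1 N, (if Squarefree e ∧ e ∣ D then (1 : ℝ) / (e.totient : ℝ) else 0) :=
        sum_comm
    _ ≤ ∑ e ∈ Ioc E N, N * f e := by
        refine sum_le_sum (fun e he => ?_)
        rw [mem_Ioc] at he
        by_cases hsq : Squarefree e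
        · simp only [hsq, true_and, hf, if_true]
          rw [← sum_filter, sum_const, nsmul_eq_mul]
          have h5 : ((Icc 1 N).filter (fun D => e ∣ D)).card = N / e := by
            have := Nat.Ioc_filter_dvd_card_eq_div N e
            rw [← this]
            congr 1
          rw [h5]
          have h6 : ((N / e : ℕ) : ℝ) ≤ N / e := Nat.cast_div_le
          have he0 : (0 : ℝ) < e := by
            have : 0 < e := by omega
            exact_mod_cast this
          calc ((N / e : ℕ) : ℝ) * (1 / (e.totient : ℝ)) ≤ (N / e) * (1 / (e.totient : ℝ)) :=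
                mul_le_mul_of_nonneg_right h6 (by positivity)
            _ = N * (1 / ((e : ℝ) * (e.totient : ℝ))) := by
                rw [one_div, one_div, mul_inv]; ring
        · simp only [hsq, false_and, if_false, sum_const_zero, hf, mul_zero, le_refl]
    _ = N * ∑ e ∈ Ioc E N, f e := by rw [mul_sum]
    _ ≤ N * ε := mul_le_mul_of_nonneg_left h1 (by positivity)
    _ = ε * N := by ring

/-- the function `1[z ≡ r (mod d)] H(z) (|z|/√m)^e` -/
noncomputable def hh (d : ℕ) (r : GI) (e : ℤ) (m : ℕ) (H : GI → ℂ) (z : GI) : ℂ :=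
  open Classical in if cg d z r then H z * ((rd m z) ^ e : ℝ) else 0

/-- sum of the energies over classes and exponents -/
noncomputable def EE (b : ℝ) (d J K m : ℕ) (H : GI → ℂ) : ℝ :=
  ∑ r ∈ cls d, ∑ e ∈ Icc (-(J : ℤ)) (J : ℤ), en K (AA b m) (hh d r e m H)

theorem StrW_PS_congr {b : ℝ} {m : ℕ} {F G : GI → GI → ℂ}
    (h : ∀ w ∈ AA b m, ∀ w' ∈ AA b m, 0 < ip w w' → 0 < dt w w' → F w w' = G w w') :
    PS b m F = PS b m G := by
  classical
  unfold PS
  refine sum_congr rfl (fun w hw => sum_congr rfl (fun w' hw' => ?_))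
  split_ifs with hc
  · exact h w hw w' hw' hc.1 hc.2
  · rfl

theorem StrW_PS_sum {ι : Type*} (b : ℝ) (m : ℕ) (s : Finset ι) (F : ι → GI → GI → ℂ) :
    PS b m (fun w w' => ∑ i ∈ s, F i w w') = ∑ i ∈ s, PS b m (F i) := by
  classical
  unfold PS
  symm
  rw [sum_comm]
  refine sum_congr rfl (fun w _ => ?_)
  rw [sum_comm]
  refine sum_congr rfl (fun w' _ => ?_)
  split_ifs
  · rfl
  · rw [sum_const_zero]

theorem StrW_PS_mul (b : ℝ) (m : ℕ) (c : ℂ) (F : GI → GI → ℂ) :
    PS b m (fun w w' => c * F w w') = c * PS b m F := by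
  classical
  unfold PS
  rw [mul_sum]
  refine sum_congr rfl (fun w _ => ?_)
  rw [mul_sum]
  refine sum_congr rfl (fun w' _ => ?_)
  split_ifs
  · rfl
  · rw [mul_zero]

theorem StrW_PS_add (b : ℝ) (m : ℕ) (F G : GI → GI → ℂ) :
    PS b m (fun w w' => F w w' + G w w') = PS b m F + PS b m G := by
  classical
  unfold PS
  rw [← sum_add_distrib]
  refine sum_congr rfl (fun w _ => ?_)
  rw [← sum_add_distrib]
  refine sum_congr rfl (fun w' _ => ?_)
  split_ifs
  · rfl
  · rw [add_zero]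

theorem StrW_omega (d q e : ℕ) (hq : q ∣ d) (he : e ∣ d) (χ : DirichletCharacter ℂ q) :
    ∃ ω : GI → GI → ℂ, (∀ r r', ‖ω r r'‖ ≤ 1) ∧ ∀ w w' : GI, Pr w → Pr w' → 0 < dt w w' →
      open Classical in
      (if q ∣ (dt w w').natAbs ∧ e ∣ (dt w w').natAbs then χ (kk w w') else 0) =
        ω (StrW_rep d w) (StrW_rep d w') := by
  classical
  let S : GI → GI → Prop := fun r r' => ∃ x : GI × GI, Pr x.1 ∧ Pr x.2 ∧ 0 < dt x.1 x.2 ∧
    StrW_rep d x.1 = r ∧ StrW_rep d x.2 = r' ∧ q ∣ (dt x.1 x.2).natAbs ∧ e ∣ (dt x.1 x.2).natAbs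
  refine ⟨fun r r' => if h : S r r' then χ (kk (Classical.choose h).1 (Classical.choose h).2) else 0,
    fun r r' => ?_, fun w w' hw hw' hD => ?_⟩
  · show ‖if h : S r r' then χ (kk (Classical.choose h).1 (Classical.choose h).2) else 0‖ ≤ 1
    split_ifs
    · exact DirichletCharacter.norm_le_one _ _
    · rw [norm_zero]; exact zero_le_one
  · show _ = if h : S (StrW_rep d w) (StrW_rep d w') then
      χ (kk (Classical.choose h).1 (Classical.choose h).2) else 0
    have key : ∀ {k : ℕ}, k ∣ d → ∀ {w w' w₁ w₁' : GI}, StrW_rep d w₁ = StrW_rep d w →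
        StrW_rep d w₁' = StrW_rep d w' → k ∣ (dt w₁ w₁').natAbs → k ∣ (dt w w').natAbs := by
      intro k hk w w' w₁ w₁' h1 h2 h3
      have h4 : cg d w w₁ := by
        have a1 := StrW_cg_rep d w
        have a2 := StrW_cg_rep d w₁
        rw [h1] at a2
        exact StrW_cg_trans a1 (StrW_cg_symm a2)
      have h5 : cg d w' w₁' := by
        have a1 := StrW_cg_rep d w'
        have a2 := StrW_cg_rep d w₁'
        rw [h2] at a2
        exact StrW_cg_trans a1 (StrW_cg_symm a2)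
      have h6 := StrW_dt_cg h4 h5
      have h7 : (k : ℤ) ∣ dt w w' - dt w₁ w₁' := by
        have : (k : ℤ) ∣ (d : ℤ) := by exact_mod_cast hk
        exact this.trans h6
      have h8 : (k : ℤ) ∣ dt w₁ w₁' := Int.natCast_dvd.mpr h3
      have h9 := dvd_add h7 h8
      rw [sub_add_cancel] at h9
      exact Int.natCast_dvd.mp h9
    by_cases hc : q ∣ (dt w w').natAbs ∧ e ∣ (dt w w').natAbs
    · rw [if_pos hc]
      have hS : S (StrW_rep d w) (StrW_rep d w') :=
        ⟨(w, w'), hw, hw', hD, rfl, rfl, hc.1, hc.2⟩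
      rw [dif_pos hS]
      obtain ⟨h1, h2, h3, h4, h5, h6, h7⟩ := Classical.choose_spec hS
      set x := Classical.choose hS
      have c1 : cg q w x.1 := by
        have a1 := StrW_cg_rep d w
        have a2 := StrW_cg_rep d x.1
        rw [h4] at a2
        exact StrW_cg_mono hq (StrW_cg_trans a1 (StrW_cg_symm a2))
      have c2 : cg q w' x.2 := by
        have a1 := StrW_cg_rep d w'
        have a2 := StrW_cg_rep d x.2
        rw [h5] at a2
        exact StrW_cg_mono hq (StrW_cg_trans a1 (StrW_cg_symm a2))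
      have h8 := kk_cls hw hw' h1 h2 hD h3 (Int.natCast_dvd.mpr hc.1) (Int.natCast_dvd.mpr h6) c1 c2
      have h9 : ((kk w w' : ℕ) : ZMod q) = ((kk x.1 x.2 : ℕ) : ZMod q) :=
        (ZMod.natCast_eq_natCast_iff _ _ _).mpr h8
      rw [h9]
    · rw [if_neg hc, dif_neg]
      rintro ⟨x, h1, h2, h3, h4, h5, h6, h7⟩
      exact hc ⟨key hq h4 h5 h6, key he h4 h5 h7⟩

theorem StrW_en_nonneg (K : ℕ) (S : Finset GI) (a : GI → ℂ) : 0 ≤ en K S a := by
  unfold en ms
  exact sum_nonneg (fun k hk => mul_nonneg (fw_nonneg hk) (by positivity))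

theorem StrW_en_scale (K : ℕ) (S : Finset GI) (a a' : GI → ℂ) (B0 : ℝ) (hB0 : 0 < B0)
    (h : ∀ z ∈ S, a z = a' z / (B0 : ℂ)) : B0 ^ 2 * en K S a = en K S a' := by
  unfold en ms
  rw [mul_sum]
  refine sum_congr rfl (fun k _ => ?_)
  have h1 : ∑ z ∈ S, a z * ez z ^ k = (∑ z ∈ S, a' z * ez z ^ k) / (B0 : ℂ) := by
    rw [sum_div]
    refine sum_congr rfl (fun z hz => ?_)
    rw [h z hz]; ring
  show B0 ^ 2 * (fw K k * ‖∑ z ∈ S, a z * ez z ^ k‖ ^ 2) = fw K k * ‖∑ z ∈ S, a' z * ez z ^ k‖ ^ 2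
  rw [h1, norm_div, Complex.norm_of_nonneg hB0.le, div_pow]
  field_simp

theorem StrW_hh_le {b : ℝ} (hb : 1 < b) {m : ℕ} (hm : 1 ≤ m) {H : GI → ℂ} (hH : ∀ z, ‖H z‖ ≤ 1)
    (d J : ℕ) (r : GI) (e : ℤ) (he : |e| ≤ (J : ℤ)) {z : GI} (hz : z ∈ AA b m) :
    ‖hh d r e m H z‖ ≤ b ^ J := by
  classical
  obtain ⟨h1, h2⟩ := StrW_rd hb hm hz
  have hb0 : 0 < b := by linarith
  have h0 : 0 < rd m z := lt_trans (by positivity) h1
  have hbJ : 1 ≤ b ^ J := one_le_pow₀ hb.le
  have h3 : (rd m z) ^ e ≤ b ^ J := by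
    rcases le_or_gt 0 e with he0 | he0
    · obtain ⟨k, rfl⟩ := Int.eq_ofNat_of_zero_le he0
      rw [zpow_natCast]
      exact le_trans (pow_le_one₀ h0.le h2) hbJ
    · obtain ⟨k, hk⟩ := Int.eq_ofNat_of_zero_le (show 0 ≤ -e by omega)
      have hek : e = -(k : ℤ) := by omega
      rw [hek, zpow_neg, zpow_natCast, ← inv_pow]
      have h4 : (rd m z)⁻¹ ≤ b := by
        rw [inv_le_comm₀ h0 hb0]
        rw [← one_div]
        exact h1.le
      have h5 : k ≤ J := by
        rw [hek, abs_neg] at he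
        rw [abs_of_nonneg (by positivity)] at he
        exact_mod_cast he
      calc (rd m z)⁻¹ ^ k ≤ b ^ k := pow_le_pow_left₀ (by positivity) h4 k
        _ ≤ b ^ J := pow_le_pow_right₀ hb.le h5
  unfold hh
  split_ifs
  · rw [norm_mul, Complex.norm_real, Real.norm_of_nonneg (by positivity)]
    calc ‖H z‖ * rd m z ^ e ≤ 1 * b ^ J := by
          apply mul_le_mul (hH z) h3 (by positivity) zero_le_one
      _ = b ^ J := one_mul _
  · rw [norm_zero]; positivity

theorem StrW_EE_le (b : ℝ) (d J K m : ℕ) (H : GI → ℂ) (e : ℤ) (he : |e| ≤ (J : ℤ)) :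
    ∑ r ∈ cls d, en K (AA b m) (hh d r e m H) ≤ EE b d J K m H := by
  unfold EE
  refine sum_le_sum (fun r _ => ?_)
  have hmem : e ∈ Icc (-(J : ℤ)) (J : ℤ) := by
    rw [mem_Icc]
    exact abs_le.mp he
  exact single_le_sum (f := fun e => en K (AA b m) (hh d r e m H))
    (fun e _ => StrW_en_nonneg _ _ _) hmem

theorem StrW_expand (b : ℝ) (m d : ℕ) (hd : 1 ≤ d) (ω : GI → GI → ℂ) (e1 e2 : ℤ) (H : GI → ℂ)
    (G : GI → GI → ℂ) :
    PS b m (fun w w' => ω (StrW_rep d w) (StrW_rep d w') *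
      ((H w * ((rd m w) ^ e1 : ℝ)) * (starRingEnd ℂ) (H w' * ((rd m w') ^ e2 : ℝ)) * G w w')) =
    ∑ r ∈ cls d, ∑ r' ∈ cls d, ω r r' * PS b m (fun w w' =>
      hh d r e1 m H w * (starRingEnd ℂ) (hh d r' e2 m H w') * G w w') := by
  classical
  have h1 : PS b m (fun w w' => ω (StrW_rep d w) (StrW_rep d w') *
      ((H w * ((rd m w) ^ e1 : ℝ)) * (starRingEnd ℂ) (H w' * ((rd m w') ^ e2 : ℝ)) * G w w')) =
      PS b m (fun w w' => ∑ r ∈ cls d, ∑ r' ∈ cls d, ω r r' *
        (hh d r e1 m H w * (starRingEnd ℂ) (hh d r' e2 m H w') * G w w')) := by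
    refine StrW_PS_congr (fun w _ w' _ _ _ => ?_)
    have h2 : ∀ r : GI, ∑ r' ∈ cls d, ω r r' *
        (hh d r e1 m H w * (starRingEnd ℂ) (hh d r' e2 m H w') * G w w') =
        ω r (StrW_rep d w') * (hh d r e1 m H w *
          (starRingEnd ℂ) (H w' * ((rd m w') ^ e2 : ℝ)) * G w w') := by
      intro r
      rw [← StrW_sum_cls hd w' (fun r' => ω r r' * (hh d r e1 m H w *
          (starRingEnd ℂ) (H w' * ((rd m w') ^ e2 : ℝ)) * G w w'))]
      refine sum_congr rfl (fun r' _ => ?_)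
      unfold hh
      by_cases hc : cg d w' r'
      · rw [if_pos hc, if_pos hc]
      · rw [if_neg hc, if_neg hc, map_zero, mul_zero, zero_mul, mul_zero]
    rw [sum_congr rfl (fun r _ => h2 r)]
    rw [← StrW_sum_cls hd w (fun r => ω r (StrW_rep d w') *
      ((H w * ((rd m w) ^ e1 : ℝ)) * (starRingEnd ℂ) (H w' * ((rd m w') ^ e2 : ℝ)) * G w w'))]
    refine sum_congr rfl (fun r _ => ?_)
    unfold hh
    by_cases hc : cg d w r
    · rw [if_pos hc, if_pos hc]
    · rw [if_neg hc, if_neg hc, zero_mul, zero_mul, mul_zero]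
  rw [h1, StrW_PS_sum]
  refine sum_congr rfl (fun r _ => ?_)
  rw [StrW_PS_sum]
  refine sum_congr rfl (fun r' _ => ?_)
  rw [StrW_PS_mul]

theorem StrW_cls_bound (b : ℝ) (hb : 1 < b) (L ε : ℝ) (hL : 1 ≤ L) (hε : 0 < ε) (d J : ℕ)
    (hd : 1 ≤ d) : ∃ η C : ℝ, 0 < η ∧ 0 < C ∧
    ∀ g : ℝ → ℝ, (∀ x y, |g x - g y| ≤ L * |x - y|) → (∀ x, |g x| ≤ L) →
    (∀ x, x ≤ 0 ∨ L ≤ x → g x = 0) → ∀ P : ℕ, 1 ≤ P → ∃ m0 : ℕ, 1 ≤ m0 ∧ ∀ m : ℕ, m0 ≤ m →
    ∀ ω : GI → GI → ℂ, (∀ r r', ‖ω r r'‖ ≤ 1) → ∀ e1 e2 : ℤ, |e1| ≤ (J : ℤ) → |e2| ≤ (J : ℤ) →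
    ∀ H : GI → ℂ, (∀ z, ‖H z‖ ≤ 1) →
    ‖PS b m (fun w w' => ω (StrW_rep d w) (StrW_rep d w') *
      ((H w * ((rd m w) ^ e1 : ℝ)) * (starRingEnd ℂ) (H w' * ((rd m w') ^ e2 : ℝ)) *
        (g (tt m P w w') : ℂ)))‖
      ≤ ε * P * m + C * (P / m) * EE b d J ⌊(m : ℝ) / (η * P)⌋₊ m H := by
  classical
  have hb0 : 0 < b := by linarith
  set B0 : ℝ := b ^ J with hB0
  have hB0p : 0 < B0 := by positivity
  set N : ℝ := ((cls d).card : ℝ) with hN
  have hNp : 0 < N := by
    rw [hN]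
    have : 0 < (cls d).card := card_pos.mpr ⟨_, StrW_rep_mem hd 0⟩
    exact_mod_cast this
  obtain ⟨η, C1, hη, hC1, hstr⟩ := str b hb L (ε / (N ^ 2 * B0 ^ 2)) hL (by positivity)
  refine ⟨η, 2 * N * C1, hη, by positivity, fun g hg1 hg2 hg3 P hP => ?_⟩
  obtain ⟨m0, hm0⟩ := hstr g hg1 hg2 hg3 P hP
  refine ⟨max m0 1, le_max_right _ _, fun m hm ω hω e1 e2 he1 he2 H hH => ?_⟩
  have hm1 : 1 ≤ m := le_trans (le_max_right _ _) hm
  have hmm : m0 ≤ m := le_trans (le_max_left _ _) hm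
  have hmr : (0 : ℝ) < m := by exact_mod_cast hm1
  have hPr : (0 : ℝ) < P := by exact_mod_cast hP
  set K := ⌊(m : ℝ) / (η * P)⌋₊ with hK
  rw [StrW_expand b m d hd ω e1 e2 H (fun w w' => (g (tt m P w w') : ℂ))]
  set X : GI → ℝ := fun r => en K (AA b m) (hh d r e1 m H) with hX
  set Y : GI → ℝ := fun r => en K (AA b m) (hh d r e2 m H) with hY
  have hone : ∀ r r' : GI, ‖PS b m (fun w w' =>
      hh d r e1 m H w * (starRingEnd ℂ) (hh d r' e2 m H w') * (g (tt m P w w') : ℂ))‖ ≤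
      ε / N ^ 2 * P * m + C1 * (P / m) * (X r + Y r') := by
    intro r r'
    set a : GI → ℂ := fun z => if z ∈ AA b m then hh d r e1 m H z / (B0 : ℂ) else 0 with ha
    set a' : GI → ℂ := fun z => if z ∈ AA b m then hh d r' e2 m H z / (B0 : ℂ) else 0 with ha'
    have hale : ∀ z, ‖a z‖ ≤ 1 := by
      intro z
      simp only [ha]
      split_ifs with hz
      · rw [norm_div, Complex.norm_of_nonneg hB0p.le, div_le_one hB0p]
        exact StrW_hh_le hb hm1 hH d J r e1 he1 hz
      · rw [norm_zero]; exact zero_le_one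
    have hale' : ∀ z, ‖a' z‖ ≤ 1 := by
      intro z
      simp only [ha']
      split_ifs with hz
      · rw [norm_div, Complex.norm_of_nonneg hB0p.le, div_le_one hB0p]
        exact StrW_hh_le hb hm1 hH d J r' e2 he2 hz
      · rw [norm_zero]; exact zero_le_one
    have h2 := hm0 m hmm a a' hale hale'
    have h3 : PS b m (fun w w' =>
        hh d r e1 m H w * (starRingEnd ℂ) (hh d r' e2 m H w') * (g (tt m P w w') : ℂ)) =
        ((B0 ^ 2 : ℝ) : ℂ) * PS b m (fun w w' => a w * (starRingEnd ℂ) (a' w') * (g (tt m P w w') : ℂ)) := by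
      rw [← StrW_PS_mul]
      refine StrW_PS_congr (fun w hw w' hw' _ _ => ?_)
      simp only [ha, ha']
      rw [if_pos hw, if_pos hw', map_div₀, Complex.conj_ofReal]
      have hB0c : (B0 : ℂ) ≠ 0 := by exact_mod_cast hB0p.ne'
      push_cast
      field_simp
    have h4 : B0 ^ 2 * en K (AA b m) a = X r := by
      apply StrW_en_scale K (AA b m) a _ B0 hB0p
      intro z hz
      simp only [ha]
      rw [if_pos hz]
    have h5 : B0 ^ 2 * en K (AA b m) a' = Y r' := by
      apply StrW_en_scale K (AA b m) a' _ B0 hB0p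
      intro z hz
      simp only [ha']
      rw [if_pos hz]
    rw [h3, norm_mul, Complex.norm_of_nonneg (by positivity)]
    calc B0 ^ 2 * ‖PS b m (fun w w' => a w * (starRingEnd ℂ) (a' w') * (g (tt m P w w') : ℂ))‖
        ≤ B0 ^ 2 * (ε / (N ^ 2 * B0 ^ 2) * P * m + C1 * (P / m) *
          (en K (AA b m) a + en K (AA b m) a')) := mul_le_mul_of_nonneg_left h2 (by positivity)
      _ = ε / N ^ 2 * P * m + C1 * (P / m) * (B0 ^ 2 * en K (AA b m) a + B0 ^ 2 * en K (AA b m) a') := by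
          field_simp
      _ = _ := by rw [h4, h5]
  calc ‖∑ r ∈ cls d, ∑ r' ∈ cls d, ω r r' * PS b m (fun w w' =>
        hh d r e1 m H w * (starRingEnd ℂ) (hh d r' e2 m H w') * (g (tt m P w w') : ℂ))‖
      ≤ ∑ r ∈ cls d, ∑ r' ∈ cls d, ‖ω r r' * PS b m (fun w w' =>
        hh d r e1 m H w * (starRingEnd ℂ) (hh d r' e2 m H w') * (g (tt m P w w') : ℂ))‖ :=
        le_trans (norm_sum_le _ _) (sum_le_sum (fun r _ => norm_sum_le _ _))
    _ ≤ ∑ r ∈ cls d, ∑ r' ∈ cls d, (ε / N ^ 2 * P * m + C1 * (P / m) * (X r + Y r')) := by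
        refine sum_le_sum (fun r _ => sum_le_sum (fun r' _ => ?_))
        rw [norm_mul]
        calc ‖ω r r'‖ * ‖PS b m (fun w w' =>
              hh d r e1 m H w * (starRingEnd ℂ) (hh d r' e2 m H w') * (g (tt m P w w') : ℂ))‖
            ≤ 1 * ‖PS b m (fun w w' =>
              hh d r e1 m H w * (starRingEnd ℂ) (hh d r' e2 m H w') * (g (tt m P w w') : ℂ))‖ :=
              mul_le_mul_of_nonneg_right (hω r r') (norm_nonneg _)
          _ ≤ _ := by rw [one_mul]; exact hone r r'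
    _ = ε * P * m + C1 * (P / m) * (N * ∑ r ∈ cls d, X r + N * ∑ r' ∈ cls d, Y r') := by
        simp only [sum_add_distrib, ← mul_sum, sum_const, nsmul_eq_mul, mul_add]
        field_simp
        ring
    _ ≤ ε * P * m + C1 * (P / m) * (N * EE b d J K m H + N * EE b d J K m H) := by
        have i1 := StrW_EE_le b d J K m H e1 he1
        have i2 := StrW_EE_le b d J K m H e2 he2
        have i3 : 0 ≤ C1 * (P / m) := by positivity
        have i4 : N * ∑ r ∈ cls d, X r + N * ∑ r' ∈ cls d, Y r' ≤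
            N * EE b d J K m H + N * EE b d J K m H :=
          add_le_add (mul_le_mul_of_nonneg_left i1 hNp.le) (mul_le_mul_of_nonneg_left i2 hNp.le)
        have i5 := mul_le_mul_of_nonneg_left i4 i3
        linarith
    _ = ε * P * m + 2 * N * C1 * (P / m) * EE b d J K m H := by ring

theorem StrW_weight {δ c α β D φ P : ℝ} (i : ℕ) (hδ : 0 < δ) (hα : 0 < α) (hβ : 0 < β)
    (hD : 0 < D) (hP : 0 < P) :
    cs δ c (D / (P * (α * β))) * (D / P) ^ (-(i : ℤ)) * (P / φ) =
      StrW_g δ c (i + 1) (D / (P * (α * β))) * ((α * β)⁻¹ ^ (i + 1)) * (D / φ) := by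
  unfold StrW_g
  set t := D / (P * (α * β)) with ht
  rcases le_or_gt t δ with h | h
  · rw [StrW_cs_low hδ h]; ring
  · rw [max_eq_left h.le]
    have ht0 : 0 < t := lt_trans hδ h
    have e1 : D / P = t * (α * β) := by rw [ht]; field_simp
    have e2 : P / φ = (t * (α * β))⁻¹ * (D / φ) := by
      rw [← e1, inv_div]
      rcases eq_or_ne φ 0 with h0 | h0
      · rw [h0]; simp
      · field_simp
    rw [e2, e1, zpow_neg, zpow_natCast, mul_pow, mul_inv, mul_inv, ← inv_pow, ← inv_pow, ← mul_inv]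
    ring

theorem StrW_T {δ c : ℝ} {m P : ℕ} {w w' : GI} (i j l : ℕ) (H : GI → ℂ) (φ : ℝ) (hδ : 0 < δ)
    (hα : 0 < rd m w) (hβ : 0 < rd m w') (hD : 0 < dt w w') (hP : 1 ≤ P) :
    (H w * ((rd m w) ^ j : ℝ)) * (starRingEnd ℂ) (H w' * ((rd m w') ^ l : ℝ)) *
        ((cs δ c (tt m P w w') * ((dt w w' : ℝ) / P) ^ (-(i : ℤ)) * ((P : ℝ) / φ) : ℝ) : ℂ) =
    ((H w * ((rd m w) ^ ((j : ℤ) - (i + 1 : ℕ)) : ℝ)) *
      (starRingEnd ℂ) (H w' * ((rd m w') ^ ((l : ℤ) - (i + 1 : ℕ)) : ℝ)) *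
        (StrW_g δ c (i + 1) (tt m P w w') : ℂ)) * (((dt w w' : ℝ) / φ : ℝ) : ℂ) := by
  have hDr : (0 : ℝ) < dt w w' := by exact_mod_cast hD
  have hPr : (0 : ℝ) < P := by exact_mod_cast hP
  have h1 := StrW_weight (c := c) (φ := φ) i hδ hα hβ hDr hPr
  unfold tt
  rw [h1, zpow_sub₀ hα.ne', zpow_sub₀ hβ.ne', zpow_natCast, zpow_natCast, zpow_natCast,
    zpow_natCast, map_mul, map_mul, Complex.conj_ofReal, Complex.conj_ofReal]
  have ha : ((rd m w : ℝ) : ℂ) ≠ 0 := by exact_mod_cast hα.ne'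
  have hb : ((rd m w' : ℝ) : ℂ) ≠ 0 := by exact_mod_cast hβ.ne'
  push_cast
  rw [mul_inv, mul_pow, inv_pow, inv_pow]
  ring

theorem StrW_dvd_fact {k M : ℕ} (h1 : 1 ≤ k) (h2 : k ≤ M) : k ∣ M.factorial :=
  Nat.dvd_factorial h1 h2

theorem StrW_tt_big {δ c C3 : ℝ} {b : ℝ} (hb : 1 < b) {m P : ℕ} {w w' : GI} (hc : 0 < c)
    (hC3 : 2 * c ≤ C3) (hm : 1 ≤ m) (hP : 1 ≤ P)
    (hw : w ∈ AA b m) (hw' : w' ∈ AA b m) (hD : 0 < dt w w')
    (hN : ⌊C3 * P⌋₊ < (dt w w').natAbs) : cs δ c (tt m P w w') = 0 := by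
  obtain ⟨a1, a2⟩ := StrW_rd hb hm hw
  obtain ⟨b1, b2⟩ := StrW_rd hb hm hw'
  have hb0 : 0 < b := by linarith
  have ha0 : 0 < rd m w := lt_trans (by positivity) a1
  have hb0' : 0 < rd m w' := lt_trans (by positivity) b1
  have hPr : (0 : ℝ) < P := by exact_mod_cast hP
  have h1 : C3 * P < ((dt w w').natAbs : ℝ) := Nat.lt_of_floor_lt hN
  have h2 : ((dt w w').natAbs : ℝ) = (dt w w' : ℝ) := by
    rw [Nat.cast_natAbs, abs_of_pos hD]
  rw [h2] at h1
  apply StrW_cs_high hc
  unfold tt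
  rw [le_div_iff₀ (by positivity)]
  have h3 : rd m w * rd m w' ≤ 1 := by nlinarith
  have h4 : 0 < rd m w * rd m w' := by positivity
  calc 2 * c * (P * (rd m w * rd m w')) ≤ C3 * (P * 1) := by
        apply mul_le_mul hC3 _ (by positivity) (by linarith)
        exact mul_le_mul_of_nonneg_left h3 hPr.le
    _ ≤ dt w w' := by linarith

theorem strw (b : ℝ) (hb : 1 < b) (A : ℕ) (hA : GA A) (Q i j l : ℕ) (δ c ε : ℝ) (hQ : 1 ≤ Q)
    (hδ : 0 < δ) (hc : 2 * δ ≤ c) (hε : 0 < ε) :
    ∃ (d J P0 : ℕ) (η C : ℝ), 1 ≤ d ∧ 0 < η ∧ 0 < C ∧ ∀ P : ℕ, P0 ≤ P → ∃ m0 : ℕ, ∀ m : ℕ, m0 ≤ m →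
    ∀ q : ℕ, 1 ≤ q → q ≤ Q → ∀ χ : DirichletCharacter ℂ q, ∀ H : GI → ℂ, (∀ z, ‖H z‖ ≤ 1) →
    open Classical in
    ‖PS b m (fun w w' => if q ∣ (dt w w').natAbs ∧ gd A P (dt w w').natAbs then
      (H w * ((rd m w) ^ j : ℝ)) * (starRingEnd ℂ) (H w' * ((rd m w') ^ l : ℝ)) *
        ((cs δ c (tt m P w w') * ((dt w w' : ℝ) / P) ^ (-(i : ℤ)) *
          ((P : ℝ) / ((dt w w').natAbs.totient : ℝ)) : ℝ) : ℂ) * χ (kk w w') else 0)‖
      ≤ ε * P * m + C * (P / m) * EE b d J ⌊(m : ℝ) / (η * P)⌋₊ m H := by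
  classical
  have hb0 : 0 < b := by linarith
  have hc0 : 0 < c := by linarith
  set n : ℕ := i + 1 with hn
  obtain ⟨L, hL, hg1, hg2, hg3⟩ := StrW_g_exists hδ hc0 n
  have hL0 : 0 < L := by linarith
  obtain ⟨C0, hC0, hPS⟩ := StrW_PS_le b hb
  set C3 : ℝ := max (2 * c) 1 with hC3
  have hC3a : 2 * c ≤ C3 := le_max_left _ _
  have hC3b : 1 ≤ C3 := le_max_right _ _
  have hC3p : 0 < C3 := by linarith
  set Wb : ℝ := (b ^ 2 / δ) ^ i with hWb
  have hWbp : 0 < Wb := by positivity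
  obtain ⟨P1, hP1⟩ := StrW_pr_small A hA.1 (ε / (4 * C0 * Wb * C3)) (by positivity)
  obtain ⟨E, hE⟩ := StrW_tail (ε / (4 * C0 * (L * (b ^ n * b ^ n)) * C3)) (by positivity)
  set d : ℕ := (max E Q).factorial with hd
  have hd1 : 1 ≤ d := Nat.factorial_pos _
  set J : ℕ := ((j : ℤ) - (n : ℕ)).natAbs + ((l : ℤ) - (n : ℕ)).natAbs with hJ
  obtain ⟨η, C, hη, hC, hcls⟩ := StrW_cls_bound b hb L (ε / (4 * (E + 1))) hL (by positivity) d J hd1
  refine ⟨d, J, max P1 1, η, (E + 1) * C, hd1, hη, by positivity, fun P hP => ?_⟩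
  have hPP1 : P1 ≤ P := le_trans (le_max_left _ _) hP
  have hP1' : 1 ≤ P := le_trans (le_max_right _ _) hP
  have hPr : (0 : ℝ) < P := by exact_mod_cast hP1'
  obtain ⟨m0, hm01, hm0⟩ := hcls (StrW_g δ c n) hg1 hg2 hg3 P hP1'
  refine ⟨m0, fun m hm q hq1 hqQ χ H hH => ?_⟩
  have hm1 : 1 ≤ m := le_trans hm01 hm
  have hmr : (0 : ℝ) < m := by exact_mod_cast hm1
  set N : ℕ := ⌊C3 * P⌋₊ with hN
  have hNle : (N : ℝ) ≤ C3 * P := Nat.floor_le (by positivity)
  set e1 : ℤ := (j : ℤ) - (n : ℕ) with he1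
  set e2 : ℤ := (l : ℤ) - (n : ℕ) with he2
  set K : ℕ := ⌊(m : ℝ) / (η * P)⌋₊ with hK
  -- the basic term
  set T : GI → GI → ℂ := fun w w' => (H w * ((rd m w) ^ e1 : ℝ)) *
      (starRingEnd ℂ) (H w' * ((rd m w') ^ e2 : ℝ)) * (StrW_g δ c n (tt m P w w') : ℂ) with hT
  have hpos : ∀ z ∈ AA b m, 0 < rd m z := fun z hz =>
    lt_trans (by positivity) (StrW_rd hb hm1 hz).1
  have hnatabs : ∀ w w' : GI, 0 < dt w w' → ((dt w w').natAbs : ℝ) = (dt w w' : ℝ) := by
    intro w w' hD
    rw [Nat.cast_natAbs, abs_of_pos hD]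
  -- exact identity
  have hid : ∀ w ∈ AA b m, ∀ w' ∈ AA b m, 0 < dt w w' →
      (H w * ((rd m w) ^ j : ℝ)) * (starRingEnd ℂ) (H w' * ((rd m w') ^ l : ℝ)) *
        ((cs δ c (tt m P w w') * ((dt w w' : ℝ) / P) ^ (-(i : ℤ)) *
          ((P : ℝ) / ((dt w w').natAbs.totient : ℝ)) : ℝ) : ℂ) =
      T w w' * (((dt w w' : ℝ) / ((dt w w').natAbs.totient : ℝ) : ℝ) : ℂ) := by
    intro w hw w' hw' hD
    exact StrW_T i j l H _ hδ (hpos w hw) (hpos w' hw') hD hP1'
  have hTbig : ∀ w ∈ AA b m, ∀ w' ∈ AA b m, 0 < dt w w' → N < (dt w w').natAbs → T w w' = 0 := by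
    intro w hw w' hw' hD hNlt
    have h1 := StrW_tt_big (δ := δ) hb hc0 hC3a hm1 hP1' hw hw' hD hNlt
    simp only [hT, StrW_g]
    rw [h1]; simp
  have hpw : ∀ (e : ℕ) (z : GI), z ∈ AA b m → ‖H z * ((rd m z) ^ ((e : ℤ) - (n : ℕ)) : ℝ)‖ ≤ b ^ n := by
    intro e z hz
    obtain ⟨a1, a2⟩ := StrW_rd hb hm1 hz
    have a0 := hpos z hz
    rw [norm_mul, Complex.norm_real, Real.norm_of_nonneg (by positivity), zpow_sub₀ a0.ne',
      zpow_natCast, zpow_natCast]
    have h2 : (rd m z)⁻¹ ≤ b := by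
      rw [inv_le_comm₀ a0 hb0, ← one_div]
      exact a1.le
    have h3 : rd m z ^ e / rd m z ^ n ≤ b ^ n := by
      rw [div_eq_mul_inv, ← inv_pow]
      calc rd m z ^ e * (rd m z)⁻¹ ^ n ≤ 1 * b ^ n := by
            apply mul_le_mul (pow_le_one₀ a0.le a2) (pow_le_pow_left₀ (by positivity) h2 n)
              (by positivity) zero_le_one
        _ = b ^ n := one_mul _
    calc ‖H z‖ * (rd m z ^ e / rd m z ^ n) ≤ 1 * b ^ n :=
          mul_le_mul (hH z) h3 (by positivity) zero_le_one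
      _ = b ^ n := one_mul _
  have hTle : ∀ w ∈ AA b m, ∀ w' ∈ AA b m, ‖T w w'‖ ≤ L * (b ^ n * b ^ n) := by
    intro w hw w' hw'
    simp only [hT]
    rw [norm_mul, norm_mul, RCLike.norm_conj, Complex.norm_real, Real.norm_eq_abs]
    have h1 := hpw j w hw
    have h2 := hpw l w' hw'
    have h3 := hg2 (tt m P w w')
    calc ‖H w * ((rd m w) ^ e1 : ℝ)‖ * ‖H w' * ((rd m w') ^ e2 : ℝ)‖ * |StrW_g δ c n (tt m P w w')|
        ≤ (b ^ n * b ^ n) * L := by
          apply mul_le_mul _ h3 (abs_nonneg _) (by positivity)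
          exact mul_le_mul h1 h2 (norm_nonneg _) (by positivity)
      _ = L * (b ^ n * b ^ n) := by ring
  -- the functions ω
  have hqd : q ∣ d := Nat.dvd_factorial hq1 (le_trans hqQ (le_max_right _ _))
  have hom : ∀ e : ℕ, ∃ ω : GI → GI → ℂ, (∀ r r', ‖ω r r'‖ ≤ 1) ∧ (e ∈ Icc 1 E → ∀ w w' : GI,
      Pr w → Pr w' → 0 < dt w w' →
      (if q ∣ (dt w w').natAbs ∧ e ∣ (dt w w').natAbs then χ (kk w w') else 0) =
        ω (StrW_rep d w) (StrW_rep d w')) := by
    intro e
    by_cases he : e ∈ Icc 1 E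
    · rw [mem_Icc] at he
      obtain ⟨ω, h1, h2⟩ := StrW_omega d q e hqd
        (Nat.dvd_factorial he.1 (le_trans he.2 (le_max_left _ _))) χ
      exact ⟨ω, h1, fun _ => h2⟩
    · exact ⟨fun _ _ => 0, fun _ _ => by simp, fun h => absurd h he⟩
  choose ω hω1 hω2 using hom
  set S : Finset ℕ := (Icc 1 E).filter Squarefree with hS
  set F2 : GI → GI → ℂ := fun w w' => ∑ e ∈ S, (1 / (e.totient : ℂ)) *
    (ω e (StrW_rep d w) (StrW_rep d w') * T w w') with hF2
  set F1 : GI → GI → ℂ := fun w w' => if q ∣ (dt w w').natAbs then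
      T w w' * (((dt w w' : ℝ) / ((dt w w').natAbs.totient : ℝ) : ℝ) : ℂ) * χ (kk w w') else 0
    with hF1
  set F : GI → GI → ℂ := fun w w' => if q ∣ (dt w w').natAbs ∧ gd A P (dt w w').natAbs then
      (H w * ((rd m w) ^ j : ℝ)) * (starRingEnd ℂ) (H w' * ((rd m w') ^ l : ℝ)) *
        ((cs δ c (tt m P w w') * ((dt w w' : ℝ) / P) ^ (-(i : ℤ)) *
          ((P : ℝ) / ((dt w w').natAbs.totient : ℝ)) : ℝ) : ℂ) * χ (kk w w') else 0 with hF
  -- part 1
  have hp1 : ‖PS b m (fun w w' => F w w' - F1 w w')‖ ≤ ε / 4 * P * m := by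
    have h1 := hPS m hm1 (fun w w' => F w w' - F1 w w') (fun D => if ¬ gd A P D then Wb else 0) N
      (fun D => by
        show 0 ≤ (if ¬ gd A P D then Wb else 0)
        split_ifs
        · exact le_rfl
        · exact hWbp.le)
      (fun w hw w' hw' hip hD => by
        show ‖F w w' - F1 w w'‖ ≤ (if ¬ gd A P (dt w w').natAbs then Wb else 0) ∧
          (N < (dt w w').natAbs → F w w' - F1 w w' = 0)
        have hFF1 : F w w' - F1 w w' = if q ∣ (dt w w').natAbs ∧ ¬ gd A P (dt w w').natAbs then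
            -(T w w' * (((dt w w' : ℝ) / ((dt w w').natAbs.totient : ℝ) : ℝ) : ℂ) * χ (kk w w'))
            else 0 := by
          simp only [hF, hF1]
          rw [hid w hw w' hw' hD]
          by_cases c1 : q ∣ (dt w w').natAbs
          · by_cases c2 : gd A P (dt w w').natAbs
            · rw [if_pos ⟨c1, c2⟩, if_pos c1, if_neg (fun h => h.2 c2), sub_self]
            · rw [if_neg (fun h => c2 h.2), if_pos c1, if_pos ⟨c1, c2⟩, zero_sub]
          · rw [if_neg (fun h => c1 h.1), if_neg c1, if_neg (fun h => c1 h.1), sub_zero]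
        constructor
        · rw [hFF1]
          by_cases c2 : gd A P (dt w w').natAbs
          · rw [if_neg (fun h => h.2 c2), if_neg (not_not.mpr c2), norm_zero]
          · rw [if_pos c2]
            by_cases c1 : q ∣ (dt w w').natAbs
            · rw [if_pos ⟨c1, c2⟩, norm_neg, ← hid w hw w' hw' hD, norm_mul, norm_mul, norm_mul]
              have hα := hpos w hw
              have hβ := hpos w' hw'
              obtain ⟨a1, a2⟩ := StrW_rd hb hm1 hw
              obtain ⟨b1, b2⟩ := StrW_rd hb hm1 hw'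
              have hDr : (0 : ℝ) < dt w w' := by exact_mod_cast hD
              have i1 : ‖H w * ((rd m w) ^ j : ℝ)‖ ≤ 1 := by
                rw [norm_mul, Complex.norm_real, Real.norm_of_nonneg (by positivity)]
                exact mul_le_one₀ (hH w) (by positivity) (pow_le_one₀ hα.le a2)
              have i2 : ‖(starRingEnd ℂ) (H w' * ((rd m w') ^ l : ℝ))‖ ≤ 1 := by
                rw [RCLike.norm_conj, norm_mul, Complex.norm_real,
                  Real.norm_of_nonneg (by positivity)]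
                exact mul_le_one₀ (hH w') (by positivity) (pow_le_one₀ hβ.le b2)
              have i3 : ‖χ (kk w w')‖ ≤ 1 := DirichletCharacter.norm_le_one _ _
              have i4 : ‖((cs δ c (tt m P w w') * ((dt w w' : ℝ) / P) ^ (-(i : ℤ)) *
                  ((P : ℝ) / ((dt w w').natAbs.totient : ℝ)) : ℝ) : ℂ)‖ ≤ Wb := by
                rw [Complex.norm_real, Real.norm_of_nonneg
                  (mul_nonneg (mul_nonneg (cs_nonneg _ _ _) (by positivity)) (by positivity))]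
                rcases le_or_gt (tt m P w w') δ with h3 | h3
                · rw [StrW_cs_low hδ h3, zero_mul, zero_mul]; exact hWbp.le
                · have j1 : (δ / b ^ 2) ≤ (dt w w' : ℝ) / P := by
                    have j2 : (dt w w' : ℝ) / P = tt m P w w' * (rd m w * rd m w') := by
                      unfold tt
                      field_simp
                    rw [j2]
                    have j3 : 1 / b * (1 / b) ≤ rd m w * rd m w' :=
                      mul_le_mul a1.le b1.le (by positivity) hα.le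
                    calc δ / b ^ 2 = δ * (1 / b * (1 / b)) := by field_simp
                      _ ≤ tt m P w w' * (rd m w * rd m w') :=
                        mul_le_mul h3.le j3 (by positivity) (lt_trans hδ h3).le
                  have j4 : ((dt w w' : ℝ) / P) ^ (-(i : ℤ)) ≤ Wb := by
                    rw [zpow_neg, zpow_natCast, ← inv_pow, hWb]
                    apply pow_le_pow_left₀ (by positivity)
                    rw [inv_le_comm₀ (by positivity) (by positivity), inv_div]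
                    exact j1
                  have j5 : (P : ℝ) / ((dt w w').natAbs.totient : ℝ) ≤ 1 := by
                    unfold gd at c2
                    push Not at c2
                    obtain ⟨p, hp, hpd⟩ := c2
                    rw [mem_pr] at hp
                    have k1 : p.totient ∣ (dt w w').natAbs.totient := Nat.totient_dvd_of_dvd hpd
                    have k2 : 0 < (dt w w').natAbs.totient :=
                      Nat.totient_pos.mpr (by omega)
                    have k3 := Nat.le_of_dvd k2 k1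
                    rw [Nat.totient_prime hp.2.1] at k3
                    have k4 : P ≤ (dt w w').natAbs.totient := by omega
                    rw [div_le_one (by exact_mod_cast k2)]
                    exact_mod_cast k4
                  calc cs δ c (tt m P w w') * ((dt w w' : ℝ) / P) ^ (-(i : ℤ)) *
                        ((P : ℝ) / ((dt w w').natAbs.totient : ℝ)) ≤ 1 * Wb * 1 := by
                        apply mul_le_mul _ j5 (by positivity) (by positivity)
                        exact mul_le_mul (cs_le_one _ _ _) j4 (by positivity) zero_le_one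
                    _ = Wb := by ring
              calc _ ≤ 1 * 1 * Wb * 1 := by
                    apply mul_le_mul _ i3 (norm_nonneg _) (by positivity)
                    apply mul_le_mul _ i4 (norm_nonneg _) (by positivity)
                    exact mul_le_mul i1 i2 (norm_nonneg _) zero_le_one
                _ = Wb := by ring
            · rw [if_neg (fun h => c1 h.1), norm_zero]; exact hWbp.le
        · intro hNlt
          rw [hFF1, hTbig w hw w' hw' hD hNlt]
          simp)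
    have h2 : ∑ D ∈ Icc 1 N, (if ¬ gd A P D then Wb else 0) ≤ C3 * (pr A P).card * Wb := by
      rw [← sum_filter, sum_const, nsmul_eq_mul]
      exact mul_le_mul_of_nonneg_right (lsx_bad A hA.1 C3 hC3b P hP1') hWbp.le
    have h3 := hP1 P hPP1
    calc ‖PS b m (fun w w' => F w w' - F1 w w')‖
        ≤ C0 * m * ∑ D ∈ Icc 1 N, (if ¬ gd A P D then Wb else 0) := h1
      _ ≤ C0 * m * (C3 * (pr A P).card * Wb) := mul_le_mul_of_nonneg_left h2 (by positivity)
      _ ≤ C0 * m * (C3 * (ε / (4 * C0 * Wb * C3) * P) * Wb) := by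
          apply mul_le_mul_of_nonneg_left _ (by positivity)
          apply mul_le_mul_of_nonneg_right _ hWbp.le
          exact mul_le_mul_of_nonneg_left h3 hC3p.le
      _ = ε / 4 * P * m := by field_simp
  -- part 2
  have hp2 : ‖PS b m (fun w w' => F1 w w' - F2 w w')‖ ≤ ε / 4 * P * m := by
    have h1 := hPS m hm1 (fun w w' => F1 w w' - F2 w w')
      (fun D => L * (b ^ n * b ^ n) * ∑ e ∈ (D.divisors.filter Squarefree).filter (fun e => E < e),
        (1 : ℝ) / (e.totient : ℝ)) N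
      (fun D => by positivity)
      (fun w hw w' hw' hip hD => by
        show ‖F1 w w' - F2 w w'‖ ≤ L * (b ^ n * b ^ n) *
          ∑ e ∈ ((dt w w').natAbs.divisors.filter Squarefree).filter (fun e => E < e),
            (1 : ℝ) / (e.totient : ℝ) ∧ (N < (dt w w').natAbs → F1 w w' - F2 w w' = 0)
        constructor
        · have hD0 : (dt w w').natAbs ≠ 0 := by omega
          have h2 : F2 w w' = T w w' * (∑ e ∈ S, (1 / (e.totient : ℂ)) *
              (if q ∣ (dt w w').natAbs ∧ e ∣ (dt w w').natAbs then χ (kk w w') else 0)) := by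
            simp only [hF2]
            rw [mul_sum]
            refine sum_congr rfl (fun e he => ?_)
            rw [hω2 e (mem_filter.mp he).1 w w' (mem_AA.mp hw).2.1 (mem_AA.mp hw').2.1 hD]
            ring
          by_cases c1 : q ∣ (dt w w').natAbs
          · have h3 : F1 w w' - F2 w w' = T w w' * χ (kk w w') *
                ((∑ e ∈ ((dt w w').natAbs.divisors.filter Squarefree).filter (fun e => E < e),
                  (1 : ℝ) / (e.totient : ℝ) : ℝ) : ℂ) := by
              rw [h2]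
              simp only [hF1, if_pos c1, c1, true_and]
              rw [← hnatabs w w' hD, StrW_totient_div hD0]
              have h4 := sum_filter_add_sum_filter_not
                ((dt w w').natAbs.divisors.filter Squarefree) (fun e => E < e)
                (fun e => (1 : ℝ) / (e.totient : ℝ))
              rw [← h4]
              have h5 : ∑ e ∈ ((dt w w').natAbs.divisors.filter Squarefree).filter (fun e => ¬ E < e),
                  (1 : ℝ) / (e.totient : ℝ) = ∑ e ∈ S, (1 : ℝ) / (e.totient : ℝ) *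
                  (if e ∣ (dt w w').natAbs then 1 else 0) := by
                simp only [mul_ite, mul_one, mul_zero]
                rw [← sum_filter]
                refine sum_congr ?_ (fun _ _ => rfl)
                ext e
                simp only [hS, mem_filter, Nat.mem_divisors, mem_Icc, not_lt]
                constructor
                · rintro ⟨⟨⟨k1, k2⟩, k3⟩, k4⟩
                  have : 0 < e := Nat.pos_of_dvd_of_pos k1 (by omega)
                  exact ⟨⟨⟨this, k4⟩, k3⟩, k1⟩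
                · rintro ⟨⟨⟨k1, k2⟩, k3⟩, k4⟩
                  exact ⟨⟨⟨k4, hD0⟩, k3⟩, k2⟩
              rw [h5]
              have h6 : ∑ e ∈ S, (1 / (e.totient : ℂ)) *
                  (if e ∣ (dt w w').natAbs then χ (kk w w') else 0) =
                  χ (kk w w') * ((∑ e ∈ S, (1 : ℝ) / (e.totient : ℝ) *
                  (if e ∣ (dt w w').natAbs then 1 else 0) : ℝ) : ℂ) := by
                push_cast
                rw [mul_sum]
                refine sum_congr rfl (fun e _ => ?_)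
                split_ifs
                · rw [Complex.ofReal_one]; ring
                · rw [Complex.ofReal_zero]; ring
              rw [h6]
              push_cast
              ring
            rw [h3, norm_mul, norm_mul, Complex.norm_real, Real.norm_of_nonneg (by positivity)]
            apply mul_le_mul_of_nonneg_right _ (by positivity)
            calc ‖T w w'‖ * ‖χ (kk w w')‖ ≤ (L * (b ^ n * b ^ n)) * 1 :=
                  mul_le_mul (hTle w hw w' hw') (DirichletCharacter.norm_le_one _ _)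
                    (norm_nonneg _) (by positivity)
              _ = L * (b ^ n * b ^ n) := mul_one _
          · have h3 : F1 w w' - F2 w w' = 0 := by
              rw [h2]
              simp only [hF1, if_neg c1, c1, false_and, if_false, mul_zero, sum_const_zero, sub_self]
            rw [h3, norm_zero]
            positivity
        · intro hNlt
          simp only [hF1, hF2, hTbig w hw w' hw' hD hNlt]
          simp)
    calc ‖PS b m (fun w w' => F1 w w' - F2 w w')‖
        ≤ C0 * m * ∑ D ∈ Icc 1 N, (L * (b ^ n * b ^ n) *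
          ∑ e ∈ (D.divisors.filter Squarefree).filter (fun e => E < e),
            (1 : ℝ) / (e.totient : ℝ)) := h1
      _ = C0 * m * (L * (b ^ n * b ^ n) * ∑ D ∈ Icc 1 N,
          ∑ e ∈ (D.divisors.filter Squarefree).filter (fun e => E < e),
            (1 : ℝ) / (e.totient : ℝ)) := by simp only [mul_sum]
      _ ≤ C0 * m * (L * (b ^ n * b ^ n) *
          (ε / (4 * C0 * (L * (b ^ n * b ^ n)) * C3) * (C3 * P))) := by
          apply mul_le_mul_of_nonneg_left _ (by positivity)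
          apply mul_le_mul_of_nonneg_left _ (by positivity)
          refine le_trans (hE N) ?_
          exact mul_le_mul_of_nonneg_left hNle (by positivity)
      _ = ε / 4 * P * m := by field_simp
  -- part 3
  have hp3 : ‖PS b m F2‖ ≤ ε / 4 * P * m + (E + 1) * C * (P / m) * EE b d J K m H := by
    have hJ1 : |e1| ≤ (J : ℤ) := by
      rw [hJ]; push_cast
      have := abs_nonneg e2
      linarith
    have hJ2 : |e2| ≤ (J : ℤ) := by
      rw [hJ]; push_cast
      have := abs_nonneg e1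
      linarith
    have hEE : 0 ≤ EE b d J K m H := by
      unfold EE
      exact sum_nonneg (fun r _ => sum_nonneg (fun e _ => StrW_en_nonneg _ _ _))
    have h1 : PS b m F2 = ∑ e ∈ S, (1 / (e.totient : ℂ)) *
        PS b m (fun w w' => ω e (StrW_rep d w) (StrW_rep d w') * T w w') := by
      simp only [hF2]
      rw [StrW_PS_sum]
      refine sum_congr rfl (fun e _ => ?_)
      rw [StrW_PS_mul]
    rw [h1]
    calc ‖∑ e ∈ S, (1 / (e.totient : ℂ)) *
        PS b m (fun w w' => ω e (StrW_rep d w) (StrW_rep d w') * T w w')‖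
        ≤ ∑ e ∈ S, ‖(1 / (e.totient : ℂ)) *
          PS b m (fun w w' => ω e (StrW_rep d w) (StrW_rep d w') * T w w')‖ := norm_sum_le _ _
      _ ≤ ∑ e ∈ S, (ε / (4 * (E + 1)) * P * m + C * (P / m) * EE b d J K m H) := by
          refine sum_le_sum (fun e he => ?_)
          rw [norm_mul]
          have h2 := hm0 m hm (ω e) (hω1 e) e1 e2 hJ1 hJ2 H hH
          have h3 : ‖(1 / (e.totient : ℂ))‖ ≤ 1 := by
            have h4 : 0 < e.totient := by
              rw [Nat.totient_pos]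
              have := (mem_Icc.mp (mem_filter.mp he).1).1
              omega
            rw [norm_div, norm_one, Complex.norm_natCast, div_le_one (by exact_mod_cast h4)]
            exact_mod_cast h4
          calc _ ≤ 1 * ‖PS b m (fun w w' => ω e (StrW_rep d w) (StrW_rep d w') * T w w')‖ :=
                mul_le_mul_of_nonneg_right h3 (norm_nonneg _)
            _ = ‖PS b m (fun w w' => ω e (StrW_rep d w) (StrW_rep d w') * T w w')‖ := one_mul _
            _ ≤ _ := h2
      _ = (S.card : ℝ) * (ε / (4 * (E + 1)) * P * m + C * (P / m) * EE b d J K m H) := by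
          rw [sum_const, nsmul_eq_mul]
      _ ≤ (E + 1) * (ε / (4 * (E + 1)) * P * m + C * (P / m) * EE b d J K m H) := by
          apply mul_le_mul_of_nonneg_right _ (by positivity)
          have h5 : S.card ≤ E := by
            refine le_trans (card_filter_le _ _) ?_
            simp
          have h6 : (S.card : ℝ) ≤ E := by exact_mod_cast h5
          linarith
      _ = ε / 4 * P * m + (E + 1) * C * (P / m) * EE b d J K m H := by
          field_simp
  have hsum : PS b m F = PS b m F2 + (PS b m (fun w w' => F1 w w' - F2 w w') +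
      PS b m (fun w w' => F w w' - F1 w w')) := by
    rw [← StrW_PS_add, ← StrW_PS_add]
    refine StrW_PS_congr (fun w _ w' _ _ _ => ?_)
    ring
  show ‖PS b m F‖ ≤ _
  rw [hsum]
  have hfin : ‖PS b m F2 + (PS b m (fun w w' => F1 w w' - F2 w w') +
      PS b m (fun w w' => F w w' - F1 w w'))‖ ≤ ‖PS b m F2‖ + (‖PS b m (fun w w' => F1 w w' - F2 w w')‖ +
      ‖PS b m (fun w w' => F w w' - F1 w w')‖) :=
    le_trans (norm_add_le _ _) (add_le_add le_rfl (norm_add_le _ _))
  have hPm : 0 ≤ ε * P * m := by positivity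
  linarith

end Pool.Agent.FCH
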