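import Pool.Agent.FCH.Far

set_option autoImplicit false

/-! Module Sus: the suspension.  `1 ≤ rf m v w ≤ m` (`1 ≤ |v||w| ≤ m`), so `Om m` is `{(v,w,t): (v,w) ∈ adj m, t < rf}`.
`Tm` maps `Om m` to itself and is injective: the image of a top point has last coordinate `0` and determines `(v, w)` (`w` is read off, and `v` by `adj_inj_right` applied to `(v,w)`, `(v',w)`);
the other images have last coordinate `≥ 1`.  `card`: `∑_{adj} rf`, `m/(|v||w|) ≤ rf ≤ m/(|v||w|) + 1 ≤ 2m/(|v||w|)` (`adj_sum`, `adj_card`).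
`sum_base`: sums over the base `t = 0`. -/

open Finset

namespace Pool.Agent.FCH

open Pool.Agent.MRS hiding Good

theorem rf_pos {m : ℕ} {v w : GI} (h : (v, w) ∈ adj m) : 1 ≤ rf m v w ∧ rf m v w ≤ m ∧
    (m : ℝ) / √((nm v : ℝ) * nm w) ≤ rf m v w ∧ (rf m v w : ℝ) ≤ 2 * (m / √((nm v : ℝ) * nm w)) := by
  obtain ⟨⟨hv, hw⟩, hd, _⟩ := mem_adj.1 h
  have hv0 : v ≠ 0 := by
    rintro rfl
    simp [dt] at hd
  have hw0 : w ≠ 0 := by
    rintro rfl
    simp [dt] at hd
  have h1 : (1 : ℝ) ≤ nm v := by exact_mod_cast nm_pos hv0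
  have h2 : (1 : ℝ) ≤ nm w := by exact_mod_cast nm_pos hw0
  have h3 : (nm v : ℝ) ≤ m := by exact_mod_cast hv
  have h4 : (nm w : ℝ) ≤ m := by exact_mod_cast hw
  have hm : (0 : ℝ) < m := by linarith
  set s : ℝ := √((nm v : ℝ) * nm w) with hs
  have hs1 : 1 ≤ s := by
    rw [hs]
    apply Real.one_le_sqrt.2
    nlinarith
  have hsm : s ≤ m := by
    rw [hs]
    rw [Real.sqrt_le_left hm.le]
    nlinarith
  have hs0 : 0 < s := by linarith
  have hx1 : 1 ≤ (m : ℝ) / s := by rw [le_div_iff₀ hs0]; linarith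
  have hxm : (m : ℝ) / s ≤ m := div_le_self hm.le hs1
  have hx0 : 0 < (m : ℝ) / s := by positivity
  unfold rf
  refine ⟨Nat.ceil_pos.2 hx0, ?_, Nat.le_ceil _, ?_⟩
  · rw [Nat.ceil_le]; exact hxm
  · have := (Nat.ceil_lt_add_one hx0.le).le
    linarith

theorem mem_Om {m : ℕ} {ω : GI × GI × ℕ} : ω ∈ Om m ↔ (ω.1, ω.2.1) ∈ adj m ∧ ω.2.2 < rf m ω.1 ω.2.1 := by
  classical
  unfold Om
  rw [mem_filter]
  constructor
  · intro h; exact h.2
  · intro h
    refine ⟨?_, h⟩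
    obtain ⟨⟨hv, hw⟩, _, _⟩ := mem_adj.1 h.1
    have hr := rf_pos h.1
    rw [mem_product, mem_product, mem_bal, mem_bal, mem_range]
    refine ⟨by exact_mod_cast hv, by exact_mod_cast hw, ?_⟩
    omega

theorem Tm_mem {m : ℕ} {ω : GI × GI × ℕ} (h : ω ∈ Om m) : Tm m ω ∈ Om m := by
  rw [mem_Om] at h
  unfold Tm
  split_ifs with hc
  · rw [mem_Om]
    exact ⟨h.1, hc⟩
  · rw [mem_Om]
    have h1 := adj_next h.1
    exact ⟨h1, (rf_pos h1).1⟩

theorem Tm_inj {m : ℕ} {ω ω' : GI × GI × ℕ} (h : ω ∈ Om m) (h' : ω' ∈ Om m) (he : Tm m ω = Tm m ω') :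
    ω = ω' := by
  obtain ⟨v, w, t⟩ := ω
  obtain ⟨v', w', t'⟩ := ω'
  rw [mem_Om] at h h'
  simp only at h h'
  unfold Tm at he
  simp only at he
  split_ifs at he with h1 h2 h2
  · simp only [Prod.mk.injEq] at he
    obtain ⟨e1, e2, e3⟩ := he
    rw [e1, e2]
    congr 2
    omega
  · simp only [Prod.mk.injEq] at he
    omega
  · simp only [Prod.mk.injEq] at he
    omega
  · simp only [Prod.mk.injEq] at he
    obtain ⟨e1, _, _⟩ := he
    subst e1
    have hv : v = v' := adj_inj_right h.1 h'.1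
    subst hv
    congr 2
    omega

theorem orb_mem {m : ℕ} {ω : GI × GI × ℕ} (h : ω ∈ Om m) (i : ℕ) : orb m i ω ∈ Om m := by
  unfold orb
  induction i with
  | zero => simpa using h
  | succ i ih => rw [Function.iterate_succ_apply']; exact Tm_mem ih

private theorem Sus_orb_inj (m i : ℕ) {ω ω' : GI × GI × ℕ} (h : ω ∈ Om m) (h' : ω' ∈ Om m)
    (he : orb m i ω = orb m i ω') : ω = ω' := by
  induction i with
  | zero => simpa [orb] using he
  | succ i ih =>
    unfold orb at he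
    rw [Function.iterate_succ_apply', Function.iterate_succ_apply'] at he
    exact ih (Tm_inj (orb_mem h i) (orb_mem h' i) he)

private theorem Sus_card (m : ℕ) : (Om m).card = ∑ e ∈ adj m, rf m e.1 e.2 := by
  classical
  have hmaps : ∀ ω ∈ Om m, (ω.1, ω.2.1) ∈ adj m := fun ω hω => (mem_Om.1 hω).1
  rw [Finset.card_eq_sum_card_fiberwise hmaps]
  apply Finset.sum_congr rfl
  rintro ⟨v, w⟩ he
  have : (Om m).filter (fun ω => (ω.1, ω.2.1) = (v, w)) =
      (range (rf m v w)).image (fun t => ((v, w, t) : GI × GI × ℕ)) := by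
    ext ⟨a, c, t⟩
    rw [mem_filter, mem_Om, mem_image]
    simp only [Prod.mk.injEq, mem_range]
    constructor
    · rintro ⟨⟨_, h2⟩, rfl, rfl⟩
      exact ⟨t, h2, rfl, rfl, rfl⟩
    · rintro ⟨t', h2, rfl, rfl, rfl⟩
      exact ⟨⟨he, h2⟩, rfl, rfl⟩
  rw [this, Finset.card_image_of_injective, Finset.card_range]
  intro t t' h
  simp only [Prod.mk.injEq, true_and] at h
  exact h

theorem Om_card : ∃ c C : ℝ, 0 < c ∧ 0 < C ∧ ∀ m : ℕ, 1 ≤ m →
    c * m ≤ ((Om m).card : ℝ) ∧ ((Om m).card : ℝ) ≤ C * m := by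
  obtain ⟨c, C, hc, hC, h⟩ := adj_card
  obtain ⟨C', hC', h'⟩ := adj_sum
  refine ⟨c, 2 * C', hc, by positivity, ?_⟩
  intro m hm
  rw [Sus_card]
  push_cast
  constructor
  · refine le_trans (h m hm).1 ?_
    rw [Finset.card_eq_sum_ones]
    push_cast
    apply Finset.sum_le_sum
    intro e he
    exact_mod_cast (rf_pos (v := e.1) (w := e.2) he).1
  · calc ∑ e ∈ adj m, (rf m e.1 e.2 : ℝ)
        ≤ ∑ e ∈ adj m, 2 * m * (1 / √((nm e.1 : ℝ) * nm e.2)) := by
          apply Finset.sum_le_sum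
          intro e he
          have := (rf_pos (v := e.1) (w := e.2) he).2.2.2
          refine le_trans this (le_of_eq ?_)
          ring
      _ = 2 * m * ∑ e ∈ adj m, 1 / √((nm e.1 : ℝ) * nm e.2) := by rw [Finset.mul_sum]
      _ ≤ 2 * m * C' := mul_le_mul_of_nonneg_left (h' m hm) (by positivity)
      _ = 2 * C' * m := by ring

/-- invariance of sums under the shift -/
theorem Om_sum_orb (m i : ℕ) (g : GI × GI × ℕ → ℝ) : ∑ ω ∈ Om m, g (orb m i ω) = ∑ ω ∈ Om m, g ω := by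
  classical
  have hinj : Set.InjOn (orb m i) (Om m : Set (GI × GI × ℕ)) :=
    fun ω hω ω' hω' he => Sus_orb_inj m i hω hω' he
  have himg : (Om m).image (orb m i) = Om m := by
    apply Finset.eq_of_subset_of_card_le
    · intro ω hω
      obtain ⟨ω', hω', rfl⟩ := Finset.mem_image.1 hω
      exact orb_mem hω' i
    · rw [Finset.card_image_of_injOn hinj]
  conv_rhs => rw [← himg]
  rw [Finset.sum_image hinj]

/-- every primitive vector `v` with `N(v) ≤ m` is the first vector of exactly one point with `t = 0` -/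
theorem sum_base (m : ℕ) (g : GI → ℝ) : open Classical in
    ∑ ω ∈ (Om m).filter (fun ω => ω.2.2 = 0), g ω.1 = ∑ v ∈ (bal (m : ℝ)).filter Pr, g v := by
  classical
  refine Finset.sum_nbij (fun ω => ω.1) ?_ ?_ ?_ (fun _ _ => rfl)
  · intro ω hω
    have h1 := Finset.mem_filter.1 hω
    obtain ⟨⟨hv, hw⟩, hd, _⟩ := mem_adj.1 (mem_Om.1 h1.1).1
    rw [Finset.mem_filter, mem_bal]
    refine ⟨by exact_mod_cast hv, ?_⟩
    unfold Pr
    rw [← Int.isCoprime_iff_gcd_eq_one]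
    refine ⟨ω.2.1.im, -ω.2.1.re, ?_⟩
    unfold dt at hd
    linarith
  · rintro ⟨v, w, t⟩ hω ⟨v', w', t'⟩ hω' he
    have h1 := Finset.mem_filter.1 hω
    have h1' := Finset.mem_filter.1 hω'
    simp only at he h1 h1'
    subst he
    have hw : w = w' := adj_inj_left (mem_Om.1 h1.1).1 (mem_Om.1 h1'.1).1
    rw [hw, h1.2, h1'.2]
  · intro v hv
    have h1 := Finset.mem_filter.1 (Finset.mem_coe.1 hv)
    rw [mem_bal] at h1
    obtain ⟨w, hw⟩ := adj_ex h1.2 (by exact_mod_cast h1.1)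
    refine ⟨(v, w, 0), ?_, rfl⟩
    rw [Finset.mem_coe, Finset.mem_filter, mem_Om]
    exact ⟨⟨hw, (rf_pos hw).1⟩, rfl⟩

end Pool.Agent.FCH
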