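import Pool.Agent.FCH.Ker
import Pool.Agent.FCH.Pack

set_option autoImplicit false

/-! Module Tta: Cauchy-Schwarz and opening of the square.
`|BB|² ≤ #AA · ∑_{z ∈ AA} |∑_w ...|² ≤ #AA · ∑_{z ∈ bal(2m)} φ(N(z)/m) |∑_w ...|²` (`φ = 1` on `[1/b,1]`, `AA ⊆ bal (2m)`),
expand the square, exchange sums.  (`|G| ≤ 1`.)
`tta_diag`: if `det(w,w') = 0`, `w, w'` primitive, then `w' = ± w` (`MRS.eq_or_neg_of_dt`); `w' = -w` gives `KK = 0` (`ip z w > 0` and
`ip z (-w) > 0` are incompatible); `w' = w`: `|KK| ≤ #{z ∈ bal(2m): det(z,w) ∈ pr} ≤ C #pr` (`det_cnt`). -/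

open Finset

namespace Pool.Agent.FCH

open Pool.Agent.MRS hiding Good

/-- the inner sum of the bilinear form -/
noncomputable def Tta_in (b : ℝ) (m A P : ℕ) (c : ℕ → ℂ) (H : GI → ℂ) (z : GI) : ℂ :=
  open Classical in
  ∑ w ∈ AA b m, if (dt z w).toNat ∈ pr A P ∧ 0 < ip z w then c (dt z w).toNat * H w else 0

theorem Tta_BB (b : ℝ) (m A P : ℕ) (c : ℕ → ℂ) (G H : GI → ℂ) :
    BB b m A P c G H = ∑ z ∈ AA b m, G z * Tta_in b m A P c H z := by
  unfold BB Tta_in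
  refine sum_congr rfl fun z _ => ?_
  rw [mul_sum]
  refine sum_congr rfl fun w _ => ?_
  split_ifs
  · ring
  · simp

theorem Tta_sq (b : ℝ) (m A P : ℕ) (c : ℕ → ℂ) (H : GI → ℂ) (z : GI) :
    ((‖Tta_in b m A P c H z‖ ^ 2 : ℝ) : ℂ) = open Classical in
      ∑ w ∈ AA b m, ∑ w' ∈ AA b m, H w * (starRingEnd ℂ) (H w') *
        (if ((dt z w).toNat ∈ pr A P ∧ 0 < ip z w) ∧
          ((dt z w').toNat ∈ pr A P ∧ 0 < ip z w') then
          (c (dt z w).toNat * (starRingEnd ℂ) (c (dt z w').toNat)) else 0) := by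
  classical
  have h1 : ((‖Tta_in b m A P c H z‖ ^ 2 : ℝ) : ℂ) =
      Tta_in b m A P c H z * (starRingEnd ℂ) (Tta_in b m A P c H z) := by
    rw [Complex.mul_conj]
    norm_cast
    exact (Complex.normSq_eq_norm_sq _).symm
  rw [h1]
  unfold Tta_in
  rw [map_sum, sum_mul_sum]
  refine sum_congr rfl fun w _ => sum_congr rfl fun w' _ => ?_
  by_cases hw : (dt z w).toNat ∈ pr A P ∧ 0 < ip z w
  · by_cases hw' : (dt z w').toNat ∈ pr A P ∧ 0 < ip z w'
    · rw [if_pos hw, if_pos hw', if_pos ⟨hw, hw'⟩, map_mul]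
      ring
    · have h2 : ¬ (((dt z w).toNat ∈ pr A P ∧ 0 < ip z w) ∧
          ((dt z w').toNat ∈ pr A P ∧ 0 < ip z w')) := fun h => hw' h.2
      rw [if_neg hw', if_neg h2, map_zero, mul_zero, mul_zero]
  · have h2 : ¬ (((dt z w).toNat ∈ pr A P ∧ 0 < ip z w) ∧
        ((dt z w').toNat ∈ pr A P ∧ 0 < ip z w')) := fun h => hw h.1
    rw [if_neg hw, if_neg h2, zero_mul, mul_zero]

theorem Tta_phi {b : ℝ} (hb : 1 < b) {m : ℕ} (hm : 1 ≤ m) {z : GI} (hz : z ∈ AA b m) :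
    phi b ((nm z : ℝ) / m) = 1 := by
  have hm0 : (0 : ℝ) < m := by exact_mod_cast hm
  obtain ⟨h1, -, h2⟩ := mem_AA.1 hz
  have h3 : (nm z : ℝ) / m ≤ 1 := by
    rw [div_le_one hm0]; exact h1
  have h4 : 1 ≤ b * ((nm z : ℝ) / m) := by
    rw [div_lt_iff₀ (by linarith)] at h2
    rw [← mul_div_assoc, le_div_iff₀ hm0]
    linarith
  unfold phi
  rw [min_eq_left, max_eq_right zero_le_one]
  rw [le_min_iff]
  constructor
  · nlinarith
  · linarith

theorem tta (b : ℝ) (hb : 1 < b) (m A P : ℕ) (hm : 1 ≤ m) (c : ℕ → ℂ) (G H : GI → ℂ)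
    (hG : ∀ z, ‖G z‖ ≤ 1) :
    ‖BB b m A P c G H‖ ^ 2 ≤ ((AA b m).card : ℝ) *
      ‖∑ w ∈ AA b m, ∑ w' ∈ AA b m, H w * (starRingEnd ℂ) (H w') * KK b m A P c w w'‖ := by
  classical
  have hsub : AA b m ⊆ bal (2 * m) := by
    intro z hz
    rw [mem_bal]
    have := (mem_AA.1 hz).1
    have hm0 : (0 : ℝ) ≤ m := by positivity
    linarith
  have h1 : ‖BB b m A P c G H‖ ≤ ∑ z ∈ AA b m, ‖Tta_in b m A P c H z‖ := by
    rw [Tta_BB]
    refine (norm_sum_le _ _).trans (sum_le_sum fun z _ => ?_)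
    rw [norm_mul]
    calc ‖G z‖ * ‖Tta_in b m A P c H z‖ ≤ 1 * ‖Tta_in b m A P c H z‖ :=
          mul_le_mul_of_nonneg_right (hG z) (norm_nonneg _)
      _ = _ := one_mul _
  have h2 : ‖BB b m A P c G H‖ ^ 2 ≤
      ((AA b m).card : ℝ) * ∑ z ∈ AA b m, ‖Tta_in b m A P c H z‖ ^ 2 := by
    calc ‖BB b m A P c G H‖ ^ 2 ≤ (∑ z ∈ AA b m, ‖Tta_in b m A P c H z‖) ^ 2 :=
          pow_le_pow_left₀ (norm_nonneg _) h1 2
      _ ≤ _ := sq_sum_le_card_mul_sum_sq
  have h3 : ∑ z ∈ AA b m, ‖Tta_in b m A P c H z‖ ^ 2 ≤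
      ∑ z ∈ bal (2 * m), phi b ((nm z : ℝ) / m) * ‖Tta_in b m A P c H z‖ ^ 2 := by
    calc ∑ z ∈ AA b m, ‖Tta_in b m A P c H z‖ ^ 2
        = ∑ z ∈ AA b m, phi b ((nm z : ℝ) / m) * ‖Tta_in b m A P c H z‖ ^ 2 := by
          refine sum_congr rfl fun z hz => ?_
          rw [Tta_phi hb hm hz, one_mul]
      _ ≤ _ := sum_le_sum_of_subset_of_nonneg hsub
          (fun z _ _ => mul_nonneg (phi_nonneg _ _) (by positivity))
  have h4 : ((∑ z ∈ bal (2 * m), phi b ((nm z : ℝ) / m) * ‖Tta_in b m A P c H z‖ ^ 2 : ℝ) : ℂ) =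
      ∑ w ∈ AA b m, ∑ w' ∈ AA b m, H w * (starRingEnd ℂ) (H w') * KK b m A P c w w' := by
    rw [Complex.ofReal_sum]
    have e1 : ∀ z ∈ bal (2 * m), ((phi b ((nm z : ℝ) / m) * ‖Tta_in b m A P c H z‖ ^ 2 : ℝ) : ℂ) =
        ∑ w ∈ AA b m, ∑ w' ∈ AA b m, H w * (starRingEnd ℂ) (H w') *
        (if ((dt z w).toNat ∈ pr A P ∧ 0 < ip z w) ∧
          ((dt z w').toNat ∈ pr A P ∧ 0 < ip z w') then
          (phi b ((nm z : ℝ) / m) : ℂ) * (c (dt z w).toNat * (starRingEnd ℂ) (c (dt z w').toNat))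
          else 0) := by
      intro z _
      rw [Complex.ofReal_mul, Tta_sq, mul_sum]
      refine sum_congr rfl fun w _ => ?_
      rw [mul_sum]
      refine sum_congr rfl fun w' _ => ?_
      split_ifs
      · ring
      · simp
    rw [sum_congr rfl e1, sum_comm]
    refine sum_congr rfl fun w _ => ?_
    rw [sum_comm]
    refine sum_congr rfl fun w' _ => ?_
    unfold KK
    rw [mul_sum]
  have h5 : ∑ z ∈ bal (2 * m), phi b ((nm z : ℝ) / m) * ‖Tta_in b m A P c H z‖ ^ 2 ≤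
      ‖∑ w ∈ AA b m, ∑ w' ∈ AA b m, H w * (starRingEnd ℂ) (H w') * KK b m A P c w w'‖ := by
    rw [← h4, Complex.norm_real]
    exact le_abs_self _
  calc ‖BB b m A P c G H‖ ^ 2 ≤ _ := h2
    _ ≤ _ := mul_le_mul_of_nonneg_left (h3.trans h5) (by positivity)

theorem Tta_dt_comm (z w : GI) : dt w z = -dt z w := by
  unfold dt; ring

theorem tta_diag (b : ℝ) (hb : 1 < b) : ∃ C : ℝ, 0 < C ∧ ∀ (m A P : ℕ), 1 ≤ m → ∀ c : ℕ → ℂ,
    (∀ n, ‖c n‖ ≤ 1) → open Classical in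
    ∑ w ∈ AA b m, ∑ w' ∈ AA b m, (if dt w w' = 0 then ‖KK b m A P c w w'‖ else 0)
      ≤ C * m * (pr A P).card := by
  classical
  obtain ⟨C, hC, hd⟩ := det_cnt b 2 hb one_le_two
  refine ⟨9 * C, by positivity, fun m A P hm c hc => ?_⟩
  have key : ∀ w ∈ AA b m, ∑ w' ∈ AA b m, (if dt w w' = 0 then ‖KK b m A P c w w'‖ else 0)
      ≤ C * (pr A P).card := by
    intro w hw
    -- only w' = w contributes
    have h1 : ∀ w' ∈ AA b m, w' ≠ w → (if dt w w' = 0 then ‖KK b m A P c w w'‖ else 0) = 0 := by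
      intro w' hw' hne
      split_ifs with h0
      · rcases eq_or_neg_of_dt (mem_AA.1 hw).2.1 (mem_AA.1 hw').2.1 h0 with h | h
        · exact absurd h hne
        · have : KK b m A P c w w' = 0 := by
            unfold KK
            refine sum_eq_zero fun z _ => ?_
            rw [if_neg]
            rintro ⟨⟨-, h2⟩, -, h3⟩
            rw [h] at h3
            unfold ip at h2 h3
            rw [Zsqrtd.re_neg, Zsqrtd.im_neg] at h3
            linarith
          rw [this, norm_zero]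
      · rfl
    rw [sum_eq_single w (fun w' hw' hne => h1 w' hw' hne) (fun h => absurd hw h)]
    have h0 : dt w w = 0 := by unfold dt; ring
    rw [if_pos h0]
    have h2 : ‖KK b m A P c w w‖ ≤ ∑ z ∈ bal (2 * m),
        (if (dt z w).toNat ∈ pr A P then (1 : ℝ) else 0) := by
      unfold KK
      refine (norm_sum_le _ _).trans (sum_le_sum fun z _ => ?_)
      by_cases hz : (dt z w).toNat ∈ pr A P ∧ 0 < ip z w
      · rw [if_pos ⟨hz, hz⟩, if_pos hz.1, norm_mul, norm_mul, RCLike.norm_conj, Complex.norm_real,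
          Real.norm_of_nonneg (phi_nonneg _ _)]
        have e1 := phi_le_one b ((nm z : ℝ) / m)
        have e2 := phi_nonneg b ((nm z : ℝ) / m)
        have e3 := hc (dt z w).toNat
        have e4 := norm_nonneg (c (dt z w).toNat)
        have e5 : ‖c (dt z w).toNat‖ * ‖c (dt z w).toNat‖ ≤ 1 := by nlinarith
        have e6 : 0 ≤ ‖c (dt z w).toNat‖ * ‖c (dt z w).toNat‖ := by positivity
        nlinarith
      · rw [if_neg (fun h => hz h.1), norm_zero]
        split_ifs <;> norm_num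
    have h3 : ∑ z ∈ bal (2 * m), (if (dt z w).toNat ∈ pr A P then (1 : ℝ) else 0) ≤
        ∑ p ∈ pr A P, (((bal (2 * m)).filter (fun z => dt w z = -(p : ℤ))).card : ℝ) := by
      have e1 : ∀ p ∈ pr A P, (((bal (2 * m)).filter (fun z => dt w z = -(p : ℤ))).card : ℝ) =
          ∑ z ∈ bal (2 * m), (if dt w z = -(p : ℤ) then (1 : ℝ) else 0) := by
        intro p _
        rw [card_filter]
        push_cast
        rfl
      rw [sum_congr rfl e1, sum_comm]
      refine sum_le_sum fun z _ => ?_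
      split_ifs with hz
      · have hp := mem_pr.1 hz
        have hpos : 0 < (dt z w).toNat := hp.2.1.pos
        have hz2 : dt w z = -(((dt z w).toNat : ℕ) : ℤ) := by
          rw [Tta_dt_comm]
          have : ((dt z w).toNat : ℤ) = dt z w := Int.toNat_of_nonneg (by omega)
          rw [this]
        calc (1 : ℝ) = (if dt w z = -(((dt z w).toNat : ℕ) : ℤ) then (1 : ℝ) else 0) := by
              rw [if_pos hz2]
          _ ≤ _ := single_le_sum (f := fun p : ℕ => if dt w z = -(p : ℤ) then (1 : ℝ) else 0)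
              (fun p _ => by positivity) hz
      · exact sum_nonneg fun p _ => by positivity
    have h4 : ∑ p ∈ pr A P, (((bal (2 * m)).filter (fun z => dt w z = -(p : ℤ))).card : ℝ) ≤
        ∑ p ∈ pr A P, C := by
      refine sum_le_sum fun p _ => ?_
      exact hd m hm w hw _
    rw [sum_const, nsmul_eq_mul] at h4
    rw [mul_comm C]
    linarith
  calc ∑ w ∈ AA b m, ∑ w' ∈ AA b m, (if dt w w' = 0 then ‖KK b m A P c w w'‖ else 0)
      ≤ ∑ w ∈ AA b m, C * ((pr A P).card : ℝ) := sum_le_sum key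
    _ = ((AA b m).card : ℝ) * (C * ((pr A P).card : ℝ)) := by rw [sum_const, nsmul_eq_mul]
    _ ≤ (9 * m) * (C * ((pr A P).card : ℝ)) :=
        mul_le_mul_of_nonneg_right (card_AA b m) (by positivity)
    _ = _ := by ring

end Pool.Agent.FCH
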