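import Pool.Agent.FCH.Sus
import Pool.Agent.FCH.Decr

set_option autoImplicit false

/-! Module Win: geometry of the orbit.  Write `(v_i, w_i, t_i) = T^i ω`.
`win_sep`: let `s` be the time elapsed since `i`.  Along the orbit keep the invariants (for the current pair `(v,w,t)` after elapsed time `s`, `v₀ = v_i`, `t_i = 0`):
`0 ≤ dt v₀ v` (`= 0` only if `v = v₀`), `0 < ip v₀ v`, and `dt v₀ v ≤ |v₀||v| (s - t)/m`.  Passing from `v` to `w`: identity `N(v) dt(v₀,w) = dt(v₀,v) ip(v,w) + ip(v₀,v) dt(v,w)` (so `dt(v₀,w) > 0`, as `adj_ip`),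
hence `dt(v₀,w)/(|v₀||w|) ≤ dt(v₀,v)/(|v₀||v|) + 1/(|v||w|)` (`ip(v,w) ≤ |v||w|`, `ip(v₀,v) ≤ |v₀||v|`) and `1/(|v||w|) ≤ rf/m`.  So the sine of the angle is `≤ s/m ≤ 1/16`.
`ip(v₀,w) > 0`: `N(v) ip(v₀,w) = ip(v₀,v) ip(v,w) - dt(v₀,v) dt(v,w)`; in terms of cosines `cos A cos B - sin A sin B` with `cos A, cos B ≥ √(1 - 1/256)`, `sin A, sin B ≤ 1/16` (`B` = angle of the pair `(v,w)`, `sin B = 1/(|v||w|) ≤ rf/m`
and `rf ≤ s`; `cos² = 1 - sin²`, `ip ≥ 0`).  Finally `|v₀||v|/m ≤ 1`.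
`win_part`: let `z` be as stated, `Φ(v) = dt(v,z)/ip(v,z)`.  If `(v,w)` is adjacent, `dt(v,z) > 0`, `ip(v,z) > 0`: `dt(w,z) ≥ 0` (`adj_between`), `dt(w,z) = 0` iff `w = z` (`w = -z` is excluded since `ip(w,z) > 0`), `ip(w,z) > 0` (`N(v)ip(w,z) = ip(v,w) ip(v,z) + dt(v,w) dt(v,z)`, with `ip(v,w) ≥ 0`),
and `Φ(v) - Φ(w) = dt(v,w) N(z)/(ip(v,z) ip(w,z)) ≥ 1/(|v||w|)`.  So the orbit reaches `z`, after a total time `∑ rf ≤ 2m ∑ 1/(|v||w|) ≤ 2m Φ(v₀) = 2 m n/ip(v₀,z) ≤ 4 b n` (`ip(v₀,z)² = N(v₀)N(z) - n² ≥ (m/b)² - n² ≥ (m/(2b))²` for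
`m ≥ m0`, so `ip ≥ m/(2b)`).
`win_word`: by induction on `i`: the pair `(v_i, w_i)` is `(α v_0 + β w_0, γ v_0 + δ w_0)` with the same integers for `ω` and `ω'` (they are products of digit matrices); `α = dt v_i w_0`, `β = dt v_0 v_i`. -/

open Finset

namespace Pool.Agent.FCH

open Pool.Agent.MRS hiding Good

theorem orb_add (m i j : ℕ) (ω : GI × GI × ℕ) : orb m (i + j) ω = orb m j (orb m i ω) := by
  unfold orb
  rw [add_comm i j, Function.iterate_add_apply]

theorem Win_succ (m i : ℕ) (ω : GI × GI × ℕ) : orb m (i + 1) ω = Tm m (orb m i ω) := by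
  rw [orb_add]; rfl

theorem Win_dt1 {m : ℕ} {ω : GI × GI × ℕ} (h : ω ∈ Om m) : dt ω.1 ω.2.1 = 1 :=
  (mem_adj.1 (mem_Om.1 h).1).2.1

theorem Win_Pr {v w : GI} (h : dt v w = 1) : Pr v := by
  unfold Pr
  have h1 : ((Int.gcd v.re v.im : ℕ) : ℤ) ∣ dt v w := by
    unfold dt
    exact dvd_sub (dvd_mul_of_dvd_left (Int.gcd_dvd_left _ _) _) (dvd_mul_of_dvd_left (Int.gcd_dvd_right _ _) _)
  rw [h] at h1
  have h2 : Int.gcd v.re v.im ∣ 1 := by exact_mod_cast h1
  exact Nat.dvd_one.1 h2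

theorem Win_basis {v w : GI} (h : dt v w = 1) (x : GI) :
    x = ((dt x w : ℤ) : GI) * v + ((dt v x : ℤ) : GI) * w := by
  apply Zsqrtd.ext
  · simp only [Zsqrtd.re_add, Zsqrtd.re_mul, Zsqrtd.re_intCast, Zsqrtd.im_intCast]
    unfold dt at *
    linear_combination (-x.re) * h
  · simp only [Zsqrtd.im_add, Zsqrtd.im_mul, Zsqrtd.re_intCast, Zsqrtd.im_intCast]
    unfold dt at *
    linear_combination (-x.im) * h

theorem orb_coord {m : ℕ} {ω : GI × GI × ℕ} (h : ω ∈ Om m) (i : ℕ) :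
    (orb m i ω).1 = ((dt (orb m i ω).1 ω.2.1 : ℤ) : GI) * ω.1 + ((dt ω.1 (orb m i ω).1 : ℤ) : GI) * ω.2.1 ∧
    Int.gcd (dt (orb m i ω).1 ω.2.1) (dt ω.1 (orb m i ω).1) = 1 := by
  have h1 := Win_dt1 h
  have h2 := Win_dt1 (orb_mem h i)
  refine ⟨Win_basis h1 _, ?_⟩
  have h3 := Win_basis h1 (orb m i ω).1
  set g := Int.gcd (dt (orb m i ω).1 ω.2.1) (dt ω.1 (orb m i ω).1) with hg
  have ga : (g : ℤ) ∣ dt (orb m i ω).1 ω.2.1 := Int.gcd_dvd_left _ _
  have gb : (g : ℤ) ∣ dt ω.1 (orb m i ω).1 := Int.gcd_dvd_right _ _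
  have h4 : (g : ℤ) ∣ dt (orb m i ω).1 (orb m i ω).2.1 := by
    have : dt (orb m i ω).1 (orb m i ω).2.1 = dt (orb m i ω).1 ω.2.1 * dt ω.1 (orb m i ω).2.1 +
        dt ω.1 (orb m i ω).1 * dt ω.2.1 (orb m i ω).2.1 := by
      generalize (orb m i ω).1 = x
      generalize (orb m i ω).2.1 = y
      generalize ω.2.1 = w at *
      generalize ω.1 = v at *
      unfold dt at *
      linear_combination (-(x.re * y.im - x.im * y.re)) * h1
    rw [this]
    exact dvd_add (dvd_mul_of_dvd_left ga _) (dvd_mul_of_dvd_left gb _)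
  rw [h2] at h4
  have h5 : g ∣ 1 := by exact_mod_cast h4
  exact Nat.dvd_one.1 h5

/-- composition of two steps -/
theorem Win_id1 (x v w : GI) : (nm v : ℤ) * dt x w = dt x v * ip v w + ip x v * dt v w := by
  rw [nm_int]; unfold dt ip; ring

theorem Win_id2 (x v w : GI) : (nm v : ℤ) * ip x w = ip x v * ip v w - dt x v * dt v w := by
  rw [nm_int]; unfold dt ip; ring

theorem Win_id3 (v w z : GI) : dt v z * ip w z - dt w z * ip v z = dt v w * nm z := by
  rw [nm_int]; unfold dt ip; ring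

theorem Win_id4 (v w z : GI) : (nm v : ℤ) * ip w z = ip v w * ip v z + dt v w * dt v z := by
  rw [nm_int]; unfold dt ip; ring

theorem Win_ip_le (v w : GI) : (ip v w : ℝ) ≤ √((nm v : ℝ) * nm w) := by
  apply Real.le_sqrt_of_sq_le
  have := ip_sq_add v w
  have h2 : (ip v w : ℝ) ^ 2 + (dt v w : ℝ) ^ 2 = (nm v : ℝ) * nm w := by exact_mod_cast this
  nlinarith [sq_nonneg (dt v w : ℝ)]

theorem Win_nm_pos {v w : GI} (h : dt v w = 1) : 0 < nm v ∧ 0 < nm w := by
  constructor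
  · apply nm_pos
    rintro rfl
    unfold dt at h
    simp at h
  · apply nm_pos
    rintro rfl
    unfold dt at h
    simp at h

/-- state of the orbit after time `s` -/
theorem Win_inv {m : ℕ} {ω : GI × GI × ℕ} (h : ω ∈ Om m) (h0 : ω.2.2 = 0) (s : ℕ) (hm : 16 * s < m) :
    (0 < dt ω.1 (orb m s ω).1 ∨ ((orb m s ω).1 = ω.1 ∧ (orb m s ω).2.2 = s)) ∧
      0 < ip ω.1 (orb m s ω).1 ∧ (orb m s ω).2.2 ≤ s ∧
      (dt ω.1 (orb m s ω).1 : ℝ) * m ≤ √((nm ω.1 : ℝ) * nm (orb m s ω).1) * (s - (orb m s ω).2.2 : ℝ) := by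
  induction s with
  | zero =>
    have e : orb m 0 ω = ω := rfl
    rw [e, h0]
    refine ⟨Or.inr ⟨rfl, rfl⟩, ?_, le_rfl, ?_⟩
    · have hv := (Win_nm_pos (Win_dt1 h)).1
      have : ip ω.1 ω.1 = nm ω.1 := by rw [nm_int]; unfold ip; ring
      rw [this]
      exact_mod_cast hv
    · rw [dt_self]; simp
  | succ s ih =>
    obtain ⟨i1, i2, i3, i4⟩ := ih (by omega)
    have hmem := orb_mem h s
    rw [Win_succ]
    set σ := orb m s ω with hσ
    obtain ⟨hadj, hlt⟩ := mem_Om.1 hmem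
    unfold Tm
    split_ifs with hc
    · refine ⟨?_, i2, by simp only []; omega, ?_⟩
      · rcases i1 with i1 | i1
        · exact Or.inl i1
        · exact Or.inr ⟨i1.1, by simp only []; rw [i1.2]⟩
      · simp only []
        push_cast
        have : ((s : ℝ) + 1 - ((σ.2.2 : ℝ) + 1)) = (s : ℝ) - σ.2.2 := by ring
        rw [this]
        exact i4
    · simp only []
      have hrf : rf m σ.1 σ.2.1 = σ.2.2 + 1 := by omega
      obtain ⟨r1, r2, r3, r4⟩ := rf_pos hadj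
      rw [hrf] at r3
      have hdt : dt σ.1 σ.2.1 = 1 := Win_dt1 hmem
      have hip := adj_ip hadj
      obtain ⟨nv, nw⟩ := Win_nm_pos hdt
      have n0 : 0 < nm ω.1 := (Win_nm_pos (Win_dt1 h)).1
      -- real versions
      set V : ℝ := √(nm σ.1 : ℝ) with hV
      set W : ℝ := √(nm σ.2.1 : ℝ) with hW
      set U : ℝ := √(nm ω.1 : ℝ) with hU
      have hV0 : 0 < V := Real.sqrt_pos.2 (by exact_mod_cast nv)
      have hW0 : 0 < W := Real.sqrt_pos.2 (by exact_mod_cast nw)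
      have hU0 : 0 < U := Real.sqrt_pos.2 (by exact_mod_cast n0)
      have hV2 : V ^ 2 = (nm σ.1 : ℝ) := Real.sq_sqrt (Nat.cast_nonneg _)
      have hW2 : W ^ 2 = (nm σ.2.1 : ℝ) := Real.sq_sqrt (Nat.cast_nonneg _)
      have hU2 : U ^ 2 = (nm ω.1 : ℝ) := Real.sq_sqrt (Nat.cast_nonneg _)
      have e1 : √((nm σ.1 : ℝ) * nm σ.2.1) = V * W := Real.sqrt_mul (Nat.cast_nonneg _) _
      have e2 : √((nm ω.1 : ℝ) * nm σ.1) = U * V := Real.sqrt_mul (Nat.cast_nonneg _) _
      have e3 : √((nm ω.1 : ℝ) * nm σ.2.1) = U * W := Real.sqrt_mul (Nat.cast_nonneg _) _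
      have hd0 : 0 ≤ dt ω.1 σ.1 := by
        rcases i1 with i1 | i1
        · exact i1.le
        · rw [i1.1, dt_self]
      have hdR : (0 : ℝ) ≤ (dt ω.1 σ.1 : ℝ) := by exact_mod_cast hd0
      have hmR : (0 : ℝ) < m := by
        have : 0 < m := by omega
        exact_mod_cast this
      have hpos : 0 < dt ω.1 σ.2.1 := by
        have h1 := Win_id1 ω.1 σ.1 σ.2.1
        rw [hdt, mul_one] at h1
        have h2 : 0 < (nm σ.1 : ℤ) * dt ω.1 σ.2.1 := by
          rw [h1]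
          have := mul_nonneg hd0 hip
          omega
        exact (mul_pos_iff_of_pos_left (by exact_mod_cast nv)).1 h2
      rw [e2] at i4
      rw [e3]
      rw [e1] at r3
      push_cast at r3
      -- sine bound
      have hb3 : (m : ℝ) ≤ ((σ.2.2 : ℝ) + 1) * (V * W) := by
        rw [div_le_iff₀ (by positivity)] at r3
        exact r3
      have hsR : (16 : ℝ) * (s + 1) < m := by exact_mod_cast hm
      have htR : (σ.2.2 : ℝ) ≤ s := by exact_mod_cast i3
      have hq1 : (ip ω.1 σ.1 : ℝ) ≤ U * V := by rw [← e2]; exact Win_ip_le _ _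
      have hq2 : (ip σ.1 σ.2.1 : ℝ) ≤ V * W := by rw [← e1]; exact Win_ip_le _ _
      have hipR : (0 : ℝ) ≤ (ip σ.1 σ.2.1 : ℝ) := by exact_mod_cast hip
      have hid : V ^ 2 * (dt ω.1 σ.2.1 : ℝ) = (dt ω.1 σ.1 : ℝ) * ip σ.1 σ.2.1 + ip ω.1 σ.1 := by
        have h1 := Win_id1 ω.1 σ.1 σ.2.1
        rw [hdt, mul_one] at h1
        rw [hV2]
        exact_mod_cast h1
      refine ⟨Or.inl hpos, ?_, by omega, ?_⟩
      · -- ip > 0
        -- cos > sin for (v0, v)
        have c1 : (dt ω.1 σ.1 : ℝ) < ip ω.1 σ.1 := by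
          have h1 : (dt ω.1 σ.1 : ℝ) * 16 ≤ U * V := by
            have h2 : (dt ω.1 σ.1 : ℝ) * m ≤ U * V * s := by
              refine i4.trans ?_
              apply mul_le_mul_of_nonneg_left _ (by positivity)
              have : (0 : ℝ) ≤ σ.2.2 := Nat.cast_nonneg _
              linarith
            by_contra hcon
            push Not at hcon
            have h3 : (dt ω.1 σ.1 : ℝ) * 16 * s ≤ (dt ω.1 σ.1 : ℝ) * m := by nlinarith
            rcases Nat.eq_zero_or_pos s with hs | hs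
            · rw [hs] at h2
              simp only [Nat.cast_zero, mul_zero] at h2
              have h4 : (dt ω.1 σ.1 : ℝ) ≤ 0 := by
                by_contra h5
                push Not at h5
                have := mul_pos h5 hmR
                linarith
              have : 0 < U * V := by positivity
              linarith
            · have hsR' : (0 : ℝ) < s := by exact_mod_cast hs
              have : U * V * s < (dt ω.1 σ.1 : ℝ) * 16 * s := by
                apply mul_lt_mul_of_pos_right hcon hsR'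
              nlinarith
          have h2 : (ip ω.1 σ.1 : ℝ) ^ 2 + (dt ω.1 σ.1 : ℝ) ^ 2 = (U * V) ^ 2 := by
            rw [mul_pow, hU2, hV2]
            exact_mod_cast ip_sq_add ω.1 σ.1
          have h3 : (0 : ℝ) < ip ω.1 σ.1 := by exact_mod_cast i2
          apply lt_of_pow_lt_pow_left₀ 2 h3.le
          have h4 : ((dt ω.1 σ.1 : ℝ) * 16) ^ 2 ≤ (U * V) ^ 2 :=
            pow_le_pow_left₀ (by positivity) h1 2
          have h5 : 0 < (U * V) ^ 2 := by positivity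
          nlinarith
        have c1' : dt ω.1 σ.1 < ip ω.1 σ.1 := by exact_mod_cast c1
        have c2 : 1 ≤ ip σ.1 σ.2.1 := by
          by_contra hcon
          have h0 : ip σ.1 σ.2.1 = 0 := by omega
          have h1 := ip_sq_add σ.1 σ.2.1
          rw [h0, hdt] at h1
          have h2 : (V * W) ^ 2 = 1 := by
            rw [mul_pow, hV2, hW2]
            exact_mod_cast h1.symm
          have h3 : V * W = 1 := by
            exact (pow_eq_one_iff_of_nonneg (by positivity) two_ne_zero).1 h2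
          rw [h3] at hb3
          linarith
        have h1 := Win_id2 ω.1 σ.1 σ.2.1
        rw [hdt, mul_one] at h1
        have h2 : 0 < (nm σ.1 : ℤ) * ip ω.1 σ.2.1 := by
          rw [h1]
          nlinarith
        exact (mul_pos_iff_of_pos_left (by exact_mod_cast nv)).1 h2
      · push_cast
        rw [sub_zero]
        -- N(v) dt(v0,w) m ≤ ...
        have h1 : V ^ 2 * ((dt ω.1 σ.2.1 : ℝ) * m) ≤ V ^ 2 * (U * W * (s + 1)) := by
          calc V ^ 2 * ((dt ω.1 σ.2.1 : ℝ) * m) = ((dt ω.1 σ.1 : ℝ) * m) * ip σ.1 σ.2.1 + m * ip ω.1 σ.1 := by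
                rw [← mul_assoc, hid]; ring
            _ ≤ (U * V * (s - σ.2.2)) * (V * W) + (((σ.2.2 : ℝ) + 1) * (V * W)) * (U * V) := by
                apply add_le_add
                · apply mul_le_mul i4 hq2 hipR
                  have : (0 : ℝ) ≤ (s : ℝ) - σ.2.2 := by linarith
                  positivity
                · apply mul_le_mul hb3 hq1 _ (by positivity)
                  exact_mod_cast i2.le
            _ = V ^ 2 * (U * W * (s + 1)) := by ring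
        exact le_of_mul_le_mul_left h1 (by positivity)

theorem win_sep {m : ℕ} {ω : GI × GI × ℕ} (h : ω ∈ Om m) {i j : ℕ} (hij : i < j) (hm : 16 * (j - i) < m)
    (hi : (orb m i ω).2.2 = 0) (hj : (orb m j ω).2.2 = 0) :
    0 < dt (orb m i ω).1 (orb m j ω).1 ∧ dt (orb m i ω).1 (orb m j ω).1 ≤ (j : ℤ) - i ∧
      0 < ip (orb m i ω).1 (orb m j ω).1 := by
  have hmem := orb_mem h i
  have e : orb m (j - i) (orb m i ω) = orb m j ω := by
    rw [← orb_add]; congr 1; omega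
  obtain ⟨h1, h2, h3, h4⟩ := Win_inv hmem hi (j - i) hm
  rw [e] at h1 h2 h3 h4
  rw [hj] at h1 h4
  refine ⟨?_, ?_, h2⟩
  · rcases h1 with h1 | h1
    · exact h1
    · omega
  · have hmR : (0 : ℝ) < m := by
      have : 0 < m := by omega
      exact_mod_cast this
    have n1 := (mem_adj.1 (mem_Om.1 hmem).1).1.1
    have n2 := (mem_adj.1 (mem_Om.1 (orb_mem h j)).1).1.1
    have h5 : √((nm (orb m i ω).1 : ℝ) * nm (orb m j ω).1) ≤ m := by
      apply Real.sqrt_le_iff.2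
      refine ⟨hmR.le, ?_⟩
      have a1 : (nm (orb m i ω).1 : ℝ) ≤ m := by exact_mod_cast n1
      have a2 : (nm (orb m j ω).1 : ℝ) ≤ m := by exact_mod_cast n2
      rw [sq]
      exact mul_le_mul a1 a2 (Nat.cast_nonneg _) hmR.le
    have h6 : (dt (orb m i ω).1 (orb m j ω).1 : ℝ) * m ≤ ((j - i : ℕ) : ℝ) * m := by
      refine h4.trans ?_
      rw [Nat.cast_zero, sub_zero, mul_comm]
      exact mul_le_mul_of_nonneg_left h5 (Nat.cast_nonneg _)
    have h7 : (dt (orb m i ω).1 (orb m j ω).1 : ℝ) ≤ ((j - i : ℕ) : ℝ) := le_of_mul_le_mul_right h6 hmR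
    have h8 : dt (orb m i ω).1 (orb m j ω).1 ≤ ((j - i : ℕ) : ℤ) := by exact_mod_cast h7
    omega

/-- waiting in a pair -/
theorem Win_wait {m : ℕ} {v w : GI} (t : ℕ) (ht : t < rf m v w) : orb m t (v, w, 0) = (v, w, t) := by
  induction t with
  | zero => rfl
  | succ t ih =>
    rw [Win_succ, ih (by omega)]
    unfold Tm
    simp only []
    rw [if_pos ht]

theorem Win_pass {m : ℕ} {v w : GI} (h : (v, w) ∈ adj m) :
    orb m (rf m v w) (v, w, 0) = (w, (kq m v w : GI) * w - v, 0) := by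
  have h1 := (rf_pos h).1
  have e : rf m v w = (rf m v w - 1) + 1 := by omega
  rw [e, Win_succ, Win_wait _ (by omega)]
  unfold Tm
  simp only []
  rw [if_neg (by omega)]

/-- the orbit reaches `z` -/
theorem Win_reach {m : ℕ} (hm : 0 < m) {z : GI} (hz : Pr z) (hzm : nm z ≤ m) (K : ℕ) : ∀ v w : GI, (v, w) ∈ adj m →
    0 < dt v z → 0 < ip v z → (m : ℝ) * ((dt v z : ℝ) / ip v z) ≤ K →
    ∃ i : ℕ, 1 ≤ i ∧ (i : ℝ) ≤ 2 * m * ((dt v z : ℝ) / ip v z) ∧ (orb m i (v, w, 0)).1 = z ∧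
      (orb m i (v, w, 0)).2.2 = 0 := by
  have hmR : (0 : ℝ) < m := by exact_mod_cast hm
  induction K with
  | zero =>
    intro v w h hd hi hK
    exfalso
    have h1 : (0 : ℝ) < (dt v z : ℝ) := by exact_mod_cast hd
    have h2 : (0 : ℝ) < (ip v z : ℝ) := by exact_mod_cast hi
    have h3 : 0 < (m : ℝ) * ((dt v z : ℝ) / ip v z) := by positivity
    rw [Nat.cast_zero] at hK
    linarith
  | succ K ih =>
    intro v w h hd hi hK
    obtain ⟨⟨hvm, hwm⟩, hdt, hlt⟩ := mem_adj.1 h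
    have hip := adj_ip h
    obtain ⟨nv, nw⟩ := Win_nm_pos hdt
    have nz : 0 < nm z := nm_pos (Pr_ne hz)
    have hdwz : 0 ≤ dt w z := by
      by_contra hcon
      push Not at hcon
      apply adj_between h hzm
      refine ⟨hd, ?_⟩
      rw [dt_swap]
      omega
    have hiwz : 0 < ip w z := by
      have h1 := Win_id4 v w z
      rw [hdt, one_mul] at h1
      have h2 : 0 < (nm v : ℤ) * ip w z := by
        rw [h1]
        have := mul_nonneg hip hi.le
        omega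
      exact (mul_pos_iff_of_pos_left (by exact_mod_cast nv)).1 h2
    obtain ⟨r1, r2, r3, r4⟩ := rf_pos h
    set V : ℝ := √(nm v : ℝ) with hV
    set W : ℝ := √(nm w : ℝ) with hW
    set Z : ℝ := √(nm z : ℝ) with hZ
    have hV0 : 0 < V := Real.sqrt_pos.2 (by exact_mod_cast nv)
    have hW0 : 0 < W := Real.sqrt_pos.2 (by exact_mod_cast nw)
    have hZ0 : 0 < Z := Real.sqrt_pos.2 (by exact_mod_cast nz)
    have hZ2 : Z ^ 2 = (nm z : ℝ) := Real.sq_sqrt (Nat.cast_nonneg _)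
    have e1 : √((nm v : ℝ) * nm w) = V * W := Real.sqrt_mul (Nat.cast_nonneg _) _
    have e2 : √((nm v : ℝ) * nm z) = V * Z := Real.sqrt_mul (Nat.cast_nonneg _) _
    have e3 : √((nm w : ℝ) * nm z) = W * Z := Real.sqrt_mul (Nat.cast_nonneg _) _
    have q1 : (ip v z : ℝ) ≤ V * Z := by rw [← e2]; exact Win_ip_le _ _
    have q2 : (ip w z : ℝ) ≤ W * Z := by rw [← e3]; exact Win_ip_le _ _
    have p1 : (0 : ℝ) < (ip v z : ℝ) := by exact_mod_cast hi
    have p2 : (0 : ℝ) < (ip w z : ℝ) := by exact_mod_cast hiwz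
    rw [e1] at r4
    -- decrease of the potential
    have hdec : (dt v z : ℝ) / ip v z - (dt w z : ℝ) / ip w z ≥ 1 / (V * W) := by
      have h1 : (dt v z : ℝ) * ip w z - (dt w z : ℝ) * ip v z = Z ^ 2 := by
        have h2 := Win_id3 v w z
        rw [hdt, one_mul] at h2
        rw [hZ2]
        exact_mod_cast h2
      have h3 : (dt v z : ℝ) / ip v z - (dt w z : ℝ) / ip w z = Z ^ 2 / (ip v z * ip w z) := by
        rw [div_sub_div _ _ p1.ne' p2.ne', ← h1]
        ring_nf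
      rw [h3, ge_iff_le, div_le_div_iff₀ (by positivity) (by positivity)]
      have h4 : (ip v z : ℝ) * ip w z ≤ (V * Z) * (W * Z) := mul_le_mul q1 q2 p2.le (by positivity)
      nlinarith
    have hrf : (rf m v w : ℝ) ≤ 2 * m * ((dt v z : ℝ) / ip v z) - 2 * m * ((dt w z : ℝ) / ip w z) := by
      have h1 : 2 * (m : ℝ) * (1 / (V * W)) ≤ 2 * m * ((dt v z : ℝ) / ip v z - (dt w z : ℝ) / ip w z) :=
        mul_le_mul_of_nonneg_left hdec (by positivity)
      have h2 : 2 * ((m : ℝ) / (V * W)) = 2 * (m : ℝ) * (1 / (V * W)) := by ring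
      linarith
    rcases hdwz.eq_or_lt with h0 | h0
    · -- w = z
      have hwz : w = z := by
        have hPw : Pr w := by
          have : dt w (-v) = 1 := by rw [dt_neg_right, dt_swap v w, neg_neg]; exact hdt
          exact Win_Pr this
        rcases eq_or_neg_of_dt hPw hz h0.symm with h1 | h1
        · exact h1.symm
        · exfalso
          rw [h1] at hiwz
          have : ip w (-w) = - (nm w : ℤ) := by
            rw [nm_int]; unfold ip; simp; ring
          rw [this] at hiwz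
          omega
      refine ⟨rf m v w, r1, ?_, ?_, ?_⟩
      · rw [← h0] at hrf
        simpa using hrf
      · rw [Win_pass h, hwz]
      · rw [Win_pass h]
    · have hK' : (m : ℝ) * ((dt w z : ℝ) / ip w z) ≤ K := by
        have hVW : V * W ≤ m := by
          rw [← e1]
          apply Real.sqrt_le_iff.2
          refine ⟨hmR.le, ?_⟩
          have a1 : (nm v : ℝ) ≤ m := by exact_mod_cast hvm
          have a2 : (nm w : ℝ) ≤ m := by exact_mod_cast hwm
          rw [sq]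
          exact mul_le_mul a1 a2 (Nat.cast_nonneg _) hmR.le
        have h1 : (1 : ℝ) ≤ m * (1 / (V * W)) := by
          rw [mul_one_div, le_div_iff₀ (by positivity), one_mul]
          exact hVW
        have h2 := mul_le_mul_of_nonneg_left hdec hmR.le
        push_cast at hK
        nlinarith
      obtain ⟨i, i1, i2, i3, i4⟩ := ih w ((kq m v w : GI) * w - v) (adj_next h) h0 hiwz hK'
      refine ⟨rf m v w + i, by omega, ?_, ?_, ?_⟩
      · push_cast
        linarith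
      · rw [orb_add, Win_pass h]
        exact i3
      · rw [orb_add, Win_pass h]
        exact i4

theorem win_part (b : ℝ) (hb : 1 < b) (n : ℕ) (hn : 1 ≤ n) : ∃ m0 : ℕ, ∀ m : ℕ, m0 ≤ m →
    ∀ ω ∈ Om m, ω.2.2 = 0 → ω.1 ∈ AA b m → ∀ z ∈ AA b m, dt ω.1 z = n → 0 < ip ω.1 z →
    ∃ i : ℕ, 1 ≤ i ∧ (i : ℝ) ≤ 4 * b * n ∧ (orb m i ω).1 = z ∧ (orb m i ω).2.2 = 0 := by
  refine ⟨⌈2 * b * n⌉₊ + 1, ?_⟩
  intro m hm ω hω ht hv z hz hd hip
  have hb0 : (0 : ℝ) < b := by linarith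
  have hmR' : 2 * b * n ≤ m := by
    have h1 : (2 * b * n : ℝ) ≤ ⌈2 * b * n⌉₊ := Nat.le_ceil _
    have h2 : ((⌈2 * b * n⌉₊ : ℕ) : ℝ) ≤ m := by
      have : ⌈2 * b * n⌉₊ ≤ m := by omega
      exact_mod_cast this
    linarith
  have hnR : (0 : ℝ) < n := by
    have : 0 < n := hn
    exact_mod_cast this
  have hmR : (0 : ℝ) < m := lt_of_lt_of_le (by positivity) hmR'
  have hm0 : 0 < m := by exact_mod_cast hmR
  obtain ⟨v1, v2, v3⟩ := mem_AA.1 hv
  obtain ⟨z1, z2, z3⟩ := mem_AA.1 hz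
  obtain ⟨v, w, t⟩ := ω
  simp only at ht hv hd hip v1 v2 v3
  subst ht
  have hadj := (mem_Om.1 hω).1
  simp only at hadj
  have hdpos : 0 < dt v z := by
    rw [hd]
    exact_mod_cast hn
  obtain ⟨i, i1, i2, i3, i4⟩ := Win_reach hm0 z2 (by exact_mod_cast z1) ⌈(m : ℝ) * ((dt v z : ℝ) / ip v z)⌉₊
    v w hadj hdpos hip (Nat.le_ceil _)
  refine ⟨i, i1, i2.trans ?_, i3, i4⟩
  have hp : (0 : ℝ) < (ip v z : ℝ) := by exact_mod_cast hip
  have hipb : (m : ℝ) / (2 * b) ≤ ip v z := by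
    apply le_of_sq_le_sq _ hp.le
    have h1 : (ip v z : ℝ) ^ 2 + (n : ℝ) ^ 2 = (nm v : ℝ) * nm z := by
      have := ip_sq_add v z
      rw [hd] at this
      exact_mod_cast this
    have h2 : (m : ℝ) / b * (m / b) ≤ (nm v : ℝ) * nm z :=
      mul_le_mul v3.le z3.le (by positivity) (by positivity)
    have h3 : (n : ℝ) ≤ m / (2 * b) := by
      rw [le_div_iff₀ (by positivity)]
      linarith
    have h4 : (m : ℝ) / b = 2 * (m / (2 * b)) := by
      field_simp
    rw [h4] at h2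
    have h5 : (n : ℝ) ^ 2 ≤ (m / (2 * b)) ^ 2 := pow_le_pow_left₀ hnR.le h3 2
    nlinarith
  have hd' : (dt v z : ℝ) = n := by
    rw [hd]; simp
  rw [hd']
  rw [← mul_div_assoc, div_le_iff₀ hp]
  have h6 : 4 * b * n * ((m : ℝ) / (2 * b)) ≤ 4 * b * n * ip v z :=
    mul_le_mul_of_nonneg_left hipb (by positivity)
  have h7 : 4 * b * n * ((m : ℝ) / (2 * b)) = 2 * m * n := by
    field_simp
    ring
  linarith

/-- one step, in terms of the symbol -/
theorem Win_step (F : GI → ℂ) (b : ℝ) (q m : ℕ) (σ σ' : GI × GI × ℕ)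
    (hs : sy F b q m σ = sy F b q m σ') :
    (Tm m σ = (σ.1, σ.2.1, σ.2.2 + 1) ∧ Tm m σ' = (σ'.1, σ'.2.1, σ'.2.2 + 1)) ∨
    (∃ k : ℕ, Tm m σ = (σ.2.1, (k : GI) * σ.2.1 - σ.1, 0) ∧ Tm m σ' = (σ'.2.1, (k : GI) * σ'.2.1 - σ'.1, 0)) := by
  classical
  have h5 : (if σ.2.2 + 1 < rf m σ.1 σ.2.1 then 0 else kq m σ.1 σ.2.1 + 1) =
      (if σ'.2.2 + 1 < rf m σ'.1 σ'.2.1 then 0 else kq m σ'.1 σ'.2.1 + 1) := by
    have := congrArg (fun x : ℂ × Bool × (ℤ × ℤ × ℤ × ℤ) × Bool × ℕ => x.2.2.2.2) hs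
    simpa only [sy] using this
  unfold Tm
  by_cases h1 : σ.2.2 + 1 < rf m σ.1 σ.2.1
  · by_cases h2 : σ'.2.2 + 1 < rf m σ'.1 σ'.2.1
    · left
      rw [if_pos h1, if_pos h2]
      exact ⟨rfl, rfl⟩
    · rw [if_pos h1, if_neg h2] at h5
      omega
  · by_cases h2 : σ'.2.2 + 1 < rf m σ'.1 σ'.2.1
    · rw [if_neg h1, if_pos h2] at h5
      omega
    · right
      rw [if_neg h1, if_neg h2] at h5
      refine ⟨kq m σ.1 σ.2.1, ?_, ?_⟩
      · rw [if_neg h1]
      · rw [if_neg h2]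
        have : kq m σ.1 σ.2.1 = kq m σ'.1 σ'.2.1 := by omega
        rw [this]

theorem win_word (F : GI → ℂ) (b : ℝ) (q m n : ℕ) {ω ω' : GI × GI × ℕ} (h : ω ∈ Om m) (h' : ω' ∈ Om m)
    (hw : wrd (Tm m) (sy F b q m) n ω = wrd (Tm m) (sy F b q m) n ω') :
    (∀ i < n, dt (orb m i ω).1 ω.2.1 = dt (orb m i ω').1 ω'.2.1 ∧ dt ω.1 (orb m i ω).1 = dt ω'.1 (orb m i ω').1) ∧
    (∀ i < n, ∀ j < n, dt (orb m i ω).1 (orb m j ω).1 = dt (orb m i ω').1 (orb m j ω').1) ∧
    (∀ i < n, F (orb m i ω).1 = F (orb m i ω').1 ∧ ((orb m i ω).2.2 = 0 ↔ (orb m i ω').2.2 = 0) ∧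
      ((orb m i ω).1 ∈ AA b m ↔ (orb m i ω').1 ∈ AA b m) ∧ ∀ g : GI, cg q (orb m i ω).1 g ↔ cg q (orb m i ω').1 g) := by
  classical
  have hsy : ∀ i < n, sy F b q m (orb m i ω) = sy F b q m (orb m i ω') := by
    intro i hi
    exact congrFun hw ⟨i, hi⟩
  have hd := Win_dt1 h
  have hd' := Win_dt1 h'
  have key : ∀ i < n, ∃ α β γ δ : ℤ,
      ((orb m i ω).1 = (α : GI) * ω.1 + (β : GI) * ω.2.1 ∧ (orb m i ω).2.1 = (γ : GI) * ω.1 + (δ : GI) * ω.2.1) ∧
      ((orb m i ω').1 = (α : GI) * ω'.1 + (β : GI) * ω'.2.1 ∧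
        (orb m i ω').2.1 = (γ : GI) * ω'.1 + (δ : GI) * ω'.2.1) := by
    intro i
    induction i with
    | zero =>
      intro _
      refine ⟨1, 0, 0, 1, ⟨?_, ?_⟩, ?_, ?_⟩
      · show ω.1 = _
        simp
      · show ω.2.1 = _
        simp
      · show ω'.1 = _
        simp
      · show ω'.2.1 = _
        simp
    | succ i ih =>
      intro hi
      obtain ⟨α, β, γ, δ, ⟨e1, e2⟩, e3, e4⟩ := ih (by omega)
      rw [Win_succ, Win_succ]
      rcases Win_step F b q m _ _ (hsy i (by omega)) with ⟨s1, s2⟩ | ⟨k, s1, s2⟩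
      · rw [s1, s2]
        exact ⟨α, β, γ, δ, ⟨e1, e2⟩, e3, e4⟩
      · rw [s1, s2]
        refine ⟨γ, δ, k * γ - α, k * δ - β, ⟨e2, ?_⟩, e4, ?_⟩
        · simp only []
          rw [e1, e2]
          push_cast
          ring
        · simp only []
          rw [e3, e4]
          push_cast
          ring
  have dtlin : ∀ (v w : GI) (α β α' β' : ℤ), dt v w = 1 →
      dt ((α : GI) * v + (β : GI) * w) ((α' : GI) * v + (β' : GI) * w) = α * β' - β * α' := by
    intro v w α β α' β' h1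
    unfold dt at *
    simp only [Zsqrtd.re_add, Zsqrtd.re_mul, Zsqrtd.re_intCast, Zsqrtd.im_intCast, Zsqrtd.im_add, Zsqrtd.im_mul]
    linear_combination (α * β' - β * α') * h1
  have dtl1 : ∀ (v w : GI) (α β : ℤ), dt v w = 1 → dt ((α : GI) * v + (β : GI) * w) w = α := by
    intro v w α β h1
    have := dtlin v w α β 0 1 h1
    simpa using this
  have dtl2 : ∀ (v w : GI) (α β : ℤ), dt v w = 1 → dt v ((α : GI) * v + (β : GI) * w) = β := by
    intro v w α β h1
    have := dtlin v w 1 0 α β h1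
    simpa using this
  refine ⟨?_, ?_, ?_⟩
  · intro i hi
    obtain ⟨α, β, γ, δ, ⟨e1, e2⟩, e3, e4⟩ := key i hi
    rw [e1, e3, dtl1 _ _ _ _ hd, dtl1 _ _ _ _ hd', dtl2 _ _ _ _ hd, dtl2 _ _ _ _ hd']
    exact ⟨rfl, rfl⟩
  · intro i hi j hj
    obtain ⟨α, β, γ, δ, ⟨e1, e2⟩, e3, e4⟩ := key i hi
    obtain ⟨α', β', γ', δ', ⟨f1, f2⟩, f3, f4⟩ := key j hj
    rw [e1, e3, f1, f3, dtlin _ _ _ _ _ _ hd, dtlin _ _ _ _ _ _ hd']
  · intro i hi
    have hs := hsy i hi
    have hm1 := orb_mem h i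
    have hm2 := orb_mem h' i
    obtain ⟨⟨a1, _⟩, a2, _⟩ := mem_adj.1 (mem_Om.1 hm1).1
    obtain ⟨⟨b1, _⟩, b2, _⟩ := mem_adj.1 (mem_Om.1 hm2).1
    generalize orb m i ω = σ at *
    generalize orb m i ω' = σ' at *
    simp only [sy, Prod.mk.injEq] at hs
    obtain ⟨s1, s2, ⟨s3, s4, s5, s6⟩, s7, s8⟩ := hs
    refine ⟨s1, ?_, ?_, ?_⟩
    · exact decide_eq_decide.1 s7
    · rw [mem_AA, mem_AA]
      have s2' := decide_eq_decide.1 s2
      have c1 : (nm σ.1 : ℝ) ≤ m := by exact_mod_cast a1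
      have c2 : (nm σ'.1 : ℝ) ≤ m := by exact_mod_cast b1
      constructor
      · rintro ⟨_, _, h3⟩
        exact ⟨c2, Win_Pr b2, s2'.1 h3⟩
      · rintro ⟨_, _, h3⟩
        exact ⟨c1, Win_Pr a2, s2'.2 h3⟩
    · intro g
      unfold cg
      have aux : ∀ x y g : ℤ, x % (q : ℤ) = y % (q : ℤ) → ((q : ℤ) ∣ x - g ↔ (q : ℤ) ∣ y - g) := by
        intro x y g hxy
        rw [← Int.emod_emod_of_dvd x (dvd_refl (q : ℤ))] at hxy
        have h1 : (q : ℤ) ∣ x - y := by
          rw [Int.emod_emod_of_dvd x (dvd_refl (q : ℤ))] at hxy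
          exact Int.ModEq.dvd hxy.symm
        constructor
        · intro h2
          have : y - g = (x - g) - (x - y) := by ring
          rw [this]
          exact dvd_sub h2 h1
        · intro h2
          have : x - g = (y - g) + (x - y) := by ring
          rw [this]
          exact dvd_add h2 h1
      rw [aux _ _ g.re s3, aux _ _ g.im s4]

end Pool.Agent.FCH
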